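import Pool.Agent.Lib.MP_696deb_nt.B2.B2b

set_option autoImplicit false

open scoped NNReal Classical NumberTheorySymbols
open Filter Topology Finset

namespace Pool.Agent.Lib.MP_696deb_nt.B2

variable {H D : Subgroup Gam} {w : Plc}

theorem b3a_pos (w : Plc) {x : Qbar} (h : x ≠ 0) : 0 < w.V x :=
  pos_iff_ne_zero.2 ((Valuation.ne_zero_iff _).2 h)

theorem b3a_p (w : Plc) : 1 < (w.p : ℝ≥0) := by exact_mod_cast w.prime.one_lt

theorem b3a_fx {x : Qbar} : Fx H x ↔ x ∈ IntermediateField.fixedField H :=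
  (IntermediateField.mem_fixedField_iff H x).symm

theorem b3a_op (x : Qbar) : Op (MulAction.stabilizer Gam x) := stabilizer_isOpen_of_isIntegral x

/-- The lemma of Hensel for squares. -/
theorem exists_sqrt (hD : D ≤ Dec w) {a : Qbar} (ha : Fx D a) (h : w.V (a - 1) < w.V 4) :
    ∃ r, Fx D r ∧ r ^ 2 = a ∧ w.V (r - 1) * w.V 2 = w.V (a - 1) := by
  have key : ∀ r : Qbar, r ^ 2 = a → w.V (r - 1) < w.V 2 →
      Fx D r ∧ r ^ 2 = a ∧ w.V (r - 1) * w.V 2 = w.V (a - 1) := by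
    intro r hr h1
    have h2 : w.V (r + 1) = w.V 2 := by
      rw [show r + 1 = 2 + (r - 1) by ring, w.V.map_add_eq_of_lt_left h1]
    refine ⟨fun g hg => ?_, hr, by rw [← h2, ← map_mul, ← hr]; congr 1; ring⟩
    refine (sq_eq_sq_iff_eq_or_eq_neg.1 (by rw [← map_pow, hr, ha g hg])).resolve_right fun e => ?_
    rw [← mem_Dec.1 (hD hg), map_sub, map_one, e, show -r - 1 = -(r + 1) by ring, w.V.map_neg,
      h2] at h1
    exact lt_irrefl _ h1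
  obtain ⟨s, hs⟩ := IsAlgClosed.exists_pow_nat_eq a two_pos
  by_cases h1 : w.V (s - 1) < w.V 2
  · exact ⟨s, key s hs h1⟩
  refine ⟨-s, key _ (by rw [neg_sq, hs]) (lt_of_not_ge fun h2 => h.not_ge ?_)⟩
  rw [show (4 : Qbar) = 2 * 2 by norm_num, show a - 1 = -((s - 1) * (-s - 1)) by rw [← hs]; ring,
    w.V.map_neg, map_mul, map_mul]
  exact mul_le_mul' (not_lt.1 h1) h2

theorem exists_root (hD : D ≤ Dec w) {a : Qbar} (m : ℕ) (ha : Fx D a)
    (h : w.V (a - 1) < w.V (2 ^ (m + 1))) : ∃ r, Fx D r ∧ r ^ 2 ^ m = a := by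
  induction m generalizing a with
  | zero => exact ⟨a, ha, by simp⟩
  | succ m ih =>
    have h2 : w.V 2 ≤ 1 := by simpa using w.V_int_le 2
    obtain ⟨s, s1, s2, s3⟩ := exists_sqrt hD ha (h.trans_le (by
      rw [show (2 : Qbar) ^ (m + 1 + 1) = 2 ^ m * 4 by ring, map_mul, map_pow]
      exact mul_le_of_le_one_left' (pow_le_one' h2 m)))
    rw [← s3, pow_succ, map_mul] at h
    obtain ⟨r, r1, r2⟩ := ih s1 (lt_of_mul_lt_mul_right h zero_le)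
    exact ⟨r, r1, by rw [pow_succ, pow_mul, r2, s2]⟩

theorem b3a_uniq (f : Polynomial Qbar) (h1 : ∀ i, w.V (f.coeff i) ≤ 1) {x y z : Qbar}
    (h2 : w.V x ≤ 1) (h4 : w.V (f.derivative.eval x) = 1) (hy : f.eval y = 0) (hz : f.eval z = 0)
    (ky : w.V (y - x) < 1) (kz : w.V (z - x) < 1) : z = y := by
  obtain ⟨F, rfl⟩ := (Polynomial.mem_lifts f).1 ((Polynomial.lifts_iff_coeff_lifts
    (f := w.V.integer.subtype) f).2 fun i => ⟨⟨_, h1 i⟩, rfl⟩)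
  have iy : w.V y ≤ 1 := by simpa using w.V.map_add_le ky.le h2
  have kk : w.V (z - y) < 1 := by simpa using w.V.map_sub_lt kz ky
  obtain ⟨k, hk⟩ := F.binomExpansion ⟨y, iy⟩ ⟨z - y, kk.le⟩
  obtain ⟨l, hl⟩ := Polynomial.sub_dvd_eval_sub (⟨y, iy⟩ : w.V.integer) ⟨x, h2⟩ F.derivative
  have e1 := congrArg w.V.integer.subtype hk
  have e2 := congrArg w.V.integer.subtype hl
  simp only [map_add, map_mul, map_sub, map_pow, ← Polynomial.eval_map_apply, Subring.coe_subtype,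
    add_sub_cancel, hy, hz, ← Polynomial.derivative_map] at e1 e2
  by_contra hne
  have e3 : (F.map w.V.integer.subtype).derivative.eval x = -((y - x) * l) - k * (z - y) :=
    mul_right_cancel₀ (sub_ne_zero.2 hne) (by linear_combination -e1 - (z - y) * e2)
  rw [e3] at h4
  refine (w.V.map_sub_lt ?_ ?_).ne h4
  · rw [w.V.map_neg, map_mul]
    exact mul_lt_one_of_lt_of_le ky l.2
  · rw [map_mul, mul_comm]
    exact mul_lt_one_of_lt_of_le kk k.2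

/-- The lemma of Hensel for a simple root of an integral monic polynomial. -/
theorem exists_hensel (hD : D ≤ Dec w) (f : Polynomial Qbar) (hf : f.Monic)
    (h1 : ∀ i, Fx D (f.coeff i) ∧ w.V (f.coeff i) ≤ 1) {x : Qbar} (hx : Fx D x) (h2 : w.V x ≤ 1)
    (h3 : w.V (f.eval x) < 1) (h4 : w.V (f.derivative.eval x) = 1) :
    ∃ y, Fx D y ∧ f.eval y = 0 ∧ w.V (y - x) < 1 := by
  obtain ⟨y, hy, ky⟩ : ∃ y ∈ f.roots, w.V (y - x) < 1 := by
    by_contra hn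
    push Not at hn
    rw [(IsAlgClosed.splits f).eval_eq_prod_roots_of_monic hf, map_multiset_prod] at h3
    refine h3.not_ge (Multiset.one_le_prod_of_one_le fun t ht => ?_)
    simp only [Multiset.map_map, Multiset.mem_map, Function.comp] at ht
    obtain ⟨y, hy, rfl⟩ := ht
    rw [w.V.map_sub_swap]
    exact hn y hy
  have hy' : f.eval y = 0 := Polynomial.isRoot_of_mem_roots hy
  refine ⟨y, fun g hg => b3a_uniq f (fun i => (h1 i).2) h2 h4 hy' ?_ ky ?_, hy', ky⟩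
  · have e : f.map (g : Qbar →+* Qbar) = f := Polynomial.ext fun i => by
      rw [Polynomial.coeff_map]
      exact (h1 i).1 g hg
    have e2 := Polynomial.eval_map_apply (p := f) (g : Qbar →+* Qbar) y
    rwa [e, hy', map_zero] at e2
  · rwa [← hx g hg, ← map_sub, mem_Dec.1 (hD hg)]

/-- Representatives of the cosets of an open subgroup. -/
theorem b3a_trans (H : Subgroup Gam) (hD : Op D) :
    ∃ (ι : Type) (_ : Fintype ι) (r : ι → Gam) (i₀ : ι), (∀ i, r i ∈ H) ∧ r i₀ ∈ D ∧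
      (∀ i, i ≠ i₀ → r i ∉ D) ∧
      ∀ h ∈ H, ∃ e : ι ≃ ι, ∀ i z, Fx (H ⊓ D) z → h (r i z) = r (e i) z := by
  have : D.FiniteIndex := ⟨hD.index_ne_zero⟩
  have key : ∀ q : H ⧸ D.subgroupOf H, ((q.out : H) : Gam) ∈ D ↔ q = QuotientGroup.mk 1 := by
    intro q
    conv_rhs => rw [← q.out_eq', eq_comm, QuotientGroup.eq, inv_one, one_mul]
    rfl
  refine ⟨H ⧸ D.subgroupOf H, Fintype.ofFinite _, fun q => (q.out : H), QuotientGroup.mk 1,
    fun q => q.out.2, (key _).2 rfl, fun q hq h => hq ((key q).1 h),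
    fun h hh => ⟨MulAction.toPerm (⟨h, hh⟩ : H), fun q z hz => ?_⟩⟩
  obtain ⟨d, hd⟩ := QuotientGroup.mk_out_eq_mul (D.subgroupOf H) ((⟨h, hh⟩ : H) • q.out)
  rw [MulAction.Quotient.mk_smul_out] at hd
  beta_reduce
  rw [MulAction.toPerm_apply, hd]
  exact congrArg (fun t => h ((q.out : H).1 t)) (hz d ⟨d.1.2, d.2⟩).symm

theorem b3a_small (c : ℝ≥0) {r ε : ℝ≥0} (hr : r < 1) (hε : 0 < ε) :
    ∀ᶠ n : ℕ in atTop, c * r ^ n < ε := by
  have h := (NNReal.tendsto_pow_atTop_nhds_zero_of_lt_one hr).const_mul c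
  rw [mul_zero] at h
  exact h.eventually (gt_mem_nhds hε)

theorem b3a_two (K : IntermediateField ℚ Qbar) (w v : Plc)
    (h : ∃ c ∈ K, ¬ (w.V c < 1 ↔ v.V c < 1)) : ∃ b ∈ K, 1 < w.V b ∧ v.V b < 1 := by
  have key : ∀ w v : Plc, ∀ c ∈ K, v.V c < 1 → 1 ≤ w.V c → ∃ b ∈ K, 1 < w.V b ∧ v.V b < 1 := by
    intro w v c hc h1 h2
    obtain ⟨n, hn⟩ := (b3a_small (v.V w.p)⁻¹ h1 one_pos).exists
    refine ⟨(w.p : Qbar)⁻¹ * c ^ n, mul_mem (inv_mem (natCast_mem K _)) (pow_mem hc n), ?_, ?_⟩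
    · rw [map_mul, map_inv₀, w.hV, inv_inv, map_pow]
      exact one_lt_mul_of_lt_of_le (b3a_p w) (one_le_pow₀ h2)
    · rwa [map_mul, map_inv₀, map_pow]
  obtain ⟨c, hc, h⟩ := h
  by_cases h1 : w.V c < 1
  · obtain ⟨b, hb, h2, h3⟩ := key v w c hc h1 (not_lt.1 fun h2 => h (iff_of_true h1 h2))
    have h4 : b ≠ 0 := fun h4 => by simp [h4] at h2
    refine ⟨b⁻¹, inv_mem hb, ?_, ?_⟩
    · rw [map_inv₀]
      exact (one_lt_inv₀ (b3a_pos w h4)).2 h3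
    · rw [map_inv₀]
      exact inv_lt_one_of_one_lt₀ h2
  · exact key w v c hc (by_contra fun h2 => h (iff_of_false h1 h2)) (not_lt.1 h1)

theorem b3a_big {v : Plc} {a : Qbar} (h : 1 < v.V a) {n : ℕ} (hn : 0 < n) :
    v.V (1 + a ^ n) = v.V a ^ n := by
  rw [v.V.map_add_eq_of_lt_right (by rw [map_one, map_pow]; exact one_lt_pow₀ h hn.ne'), map_pow]

theorem b3a_lit {v : Plc} {a : Qbar} (h : v.V a < 1) {n : ℕ} (hn : 0 < n) :
    v.V (a ^ n / (1 + a ^ n)) = v.V a ^ n := by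
  rw [map_div₀, v.V.map_one_add_of_lt (by rw [map_pow]; exact pow_lt_one₀ zero_le h hn.ne'),
    div_one, map_pow]

theorem b3a_sep (K : IntermediateField ℚ Qbar) (w : Plc) (t : Finset Plc)
    (h : ∀ v ∈ t, ∃ c ∈ K, ¬ (w.V c < 1 ↔ v.V c < 1)) :
    ∃ a ∈ K, 1 < w.V a ∧ ∀ v ∈ t, v.V a < 1 := by
  induction t using Finset.induction_on with
  | empty =>
    exact ⟨(w.p : Qbar)⁻¹, inv_mem (natCast_mem K _), by rw [map_inv₀, w.hV, inv_inv]; exact b3a_p w,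
      by simp⟩
  | insert v t _ ih =>
    obtain ⟨a, ha, a1, a2⟩ := ih fun u hu => h u (mem_insert_of_mem hu)
    obtain ⟨b, hb, b1, b2⟩ := b3a_two K w v (h v (mem_insert_self _ _))
    obtain ⟨n, hn, h0⟩ := (((eventually_all_finset t).2 fun u hu =>
      b3a_small (u.V b) (a2 u hu) one_pos).and (eventually_gt_atTop 0)).exists
    by_cases hv : 1 < v.V a
    · have e : ∀ u : Plc, 1 < u.V a → u.V (b * (a ^ n / (1 + a ^ n))) = u.V b := fun u hu => by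
        rw [map_mul, map_div₀, b3a_big hu h0, map_pow,
          div_self (pow_pos (one_pos.trans hu) n).ne', mul_one]
      refine ⟨b * (a ^ n / (1 + a ^ n)),
        mul_mem hb (div_mem (pow_mem ha n) (add_mem (one_mem K) (pow_mem ha n))),
        (e w a1).symm ▸ b1, forall_mem_insert _ _ _ |>.2 ⟨(e v hv).symm ▸ b2, fun u hu => ?_⟩⟩
      rw [map_mul, b3a_lit (a2 u hu) h0]
      exact hn u hu
    · refine ⟨b * a ^ n, mul_mem hb (pow_mem ha n), ?_,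
        forall_mem_insert _ _ _ |>.2 ⟨?_, fun u hu => ?_⟩⟩
      · rw [map_mul, map_pow]
        exact one_lt_mul_of_lt_of_le b1 (one_le_pow₀ a1.le)
      · rw [map_mul, map_pow]
        exact mul_lt_one_of_lt_of_le b2 (pow_le_one' (not_lt.1 hv) n)
      · rw [map_mul, map_pow]
        exact hn u hu

theorem b3a_one (hH : Op H) (s : Finset Plc) (hs : ∀ v ∈ s, ∀ g ∈ H, g • w ≠ v) {x : Qbar}
    (hx : Fx (H ⊓ Dec w) x) {ε : ℝ≥0} (hε : 0 < ε) :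
    ∃ y, Fx H y ∧ w.V (x - y) < ε ∧ ∀ v ∈ s, v.V y < ε := by
  obtain ⟨ι, _, r, i₀, r1, r2, r3, r4⟩ := b3a_trans H (b3a_op x)
  have hcl := (hH.inf (b3a_op x)).closed
  have hxx : Fx (H ⊓ MulAction.stabilizer Gam x) x := fun g hg => hg.2
  obtain ⟨a, ha, a1, a2⟩ := b3a_sep (IntermediateField.fixedField (H ⊓ MulAction.stabilizer Gam x))
    w ((univ.erase i₀).image (fun i => (r i)⁻¹ • w) ∪ (univ ×ˢ s).image fun z => (r z.1)⁻¹ • z.2) (by
      intro v hv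
      by_contra hn
      push Not at hn
      obtain ⟨d, hd, e⟩ := plc_conj_of hcl fun c hc => hn c (b3a_fx.1 hc)
      rcases mem_union.1 hv with h | h
      · obtain ⟨i, hi, rfl⟩ := mem_image.1 h
        have h1 : r i * d ∈ MulAction.stabilizer Gam x :=
          hx _ ⟨mul_mem (r1 i) hd.1, show (r i * d) • w = w by rw [mul_smul, e, smul_inv_smul]⟩
        exact r3 i (ne_of_mem_erase hi) ((Subgroup.mul_mem_cancel_right _ hd.2).1 h1)
      · obtain ⟨z, hz, rfl⟩ := mem_image.1 h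
        exact hs z.2 (mem_product.1 hz).2 _ (mul_mem (r1 z.1) hd.1)
          (by rw [mul_smul, e, smul_inv_smul]))
  obtain ⟨n, ⟨hn, hw⟩, h0⟩ := ((((eventually_all_finset _).2 fun u hu =>
    b3a_small (u.V x) (a2 u hu) hε).and (b3a_small (w.V x) (inv_lt_one_of_one_lt₀ a1) hε)).and
      (eventually_gt_atTop 0)).exists
  have hz : Fx (H ⊓ MulAction.stabilizer Gam x) (x * (a ^ n / (1 + a ^ n))) :=
    b3a_fx.2 (mul_mem (b3a_fx.1 hxx) (div_mem (pow_mem ha n) (add_mem (one_mem _) (pow_mem ha n))))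
  have hv : ∀ (i : ι) (v : Plc), (r i)⁻¹ • v ∈ (univ.erase i₀).image (fun i => (r i)⁻¹ • w) ∪
      (univ ×ˢ s).image (fun z => (r z.1)⁻¹ • z.2) →
      v.V (r i (x * (a ^ n / (1 + a ^ n)))) < ε := fun i v h => by
    have h1 := hn _ h
    rwa [← b3a_lit (a2 _ h) h0, ← map_mul, smul_V, inv_inv] at h1
  refine ⟨∑ i, r i (x * (a ^ n / (1 + a ^ n))), fun h hh => ?_, ?_, fun v hvs => ?_⟩
  · obtain ⟨e, he⟩ := r4 h hh
    rw [map_sum, ← e.sum_comp fun i => r i _]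
    exact sum_congr rfl fun i _ => he i _ hz
  · rw [← add_sum_erase _ _ (mem_univ i₀), hz _ ⟨r1 i₀, r2⟩, ← sub_sub]
    refine w.V.map_sub_lt ?_ (w.V.map_sum_lt' hε fun i hi =>
      hv i w (mem_union_left _ (mem_image_of_mem _ hi)))
    have h1 := b3a_big a1 h0
    have h2 : 1 + a ^ n ≠ 0 := fun h2 => by
      rw [h2, map_zero] at h1
      exact (pow_pos (one_pos.trans a1) n).ne h1
    rw [show x - x * (a ^ n / (1 + a ^ n)) = x * (1 + a ^ n)⁻¹ by field_simp; ring, map_mul,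
      map_inv₀, h1, ← inv_pow]
    exact hw
  · exact v.V.map_sum_lt' hε fun i _ => hv i v (mem_union_right _
      (mem_image_of_mem (fun z : ι × Plc => (r z.1)⁻¹ • z.2) (mk_mem_product (mem_univ i) hvs)))

/-- A number field is dense in its henselization, and other places can be controlled. -/
theorem approx (hH : Op H) {x : Qbar} (hx : Fx (H ⊓ Dec w) x) {ε : ℝ≥0} (hε : 0 < ε) :
    ∃ y, Fx H y ∧ w.V (x - y) < ε :=
  (b3a_one hH ∅ (by simp) hx hε).imp fun _ h => ⟨h.1, h.2.1⟩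

theorem approx_weak (hH : Op H) (s : Finset Plc) (hs : Apart H s) (x : Plc → Qbar)
    (hx : ∀ w ∈ s, Fx (H ⊓ Dec w) (x w)) {ε : ℝ≥0} (hε : 0 < ε) :
    ∃ y, Fx H y ∧ ∀ w ∈ s, w.V (x w - y) < ε := by
  choose! y y1 y2 y3 using fun w (hw : w ∈ s) => b3a_one hH (s.erase w)
    (fun v hv g hg e => ne_of_mem_erase hv (hs w hw v (mem_of_mem_erase hv) g hg e).symm)
    (hx w hw) hε
  refine ⟨∑ w ∈ s, y w, b3a_fx.2 (sum_mem fun w hw => b3a_fx.1 (y1 w hw)), fun w hw => ?_⟩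
  rw [← add_sum_erase _ _ hw, ← sub_sub]
  exact w.V.map_sub_lt (y2 w hw) (w.V.map_sum_lt' hε fun v hv =>
    y3 v (mem_of_mem_erase hv) w (mem_erase.2 ⟨(ne_of_mem_erase hv).symm, hw⟩))

theorem approx_rat {x : Qbar} (hx : Fx (Dec w) x) {ε : ℝ≥0} (hε : 0 < ε) :
    ∃ r : ℚ, w.V (x - r) < ε := by
  obtain ⟨y, hy, h⟩ := approx (H := ⊤) isOpen_univ (fun g hg => hx g hg.2) hε
  obtain ⟨r, rfl⟩ := fx_top hy
  exact ⟨r, h⟩

theorem b3a_dec {x : Qbar} (hx : Fx (Dec w) x) (h0 : x ≠ 0) :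
    ∃ k : ℤ, w.V x = ((w.p : ℝ≥0) ^ k)⁻¹ := by
  obtain ⟨r, hr⟩ := approx_rat hx (b3a_pos w h0)
  have hr0 : r ≠ 0 := fun h => by simp [h] at hr
  rw [w.V.map_sub_swap] at hr
  exact ⟨_, (w.V.map_eq_of_sub_lt hr).symm.trans (w.V_rat hr0)⟩

theorem b3a_frob {N n : ℕ} {ψ : Gam} (h : IsFrob w n ψ) (hN : ¬ w.p ∣ N) {ζ : Qbar}
    (hζ : ζ ^ N = 1) : ψ ζ = ζ ^ n := by
  have N0 : N ≠ 0 := fun h => hN (h ▸ dvd_zero _)
  have h1 := w.V_root_of_unity N0 hζ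
  have h2 : ζ ^ n ≠ 0 := pow_ne_zero _ fun h => by simp [h] at h1
  refine (div_eq_one_iff_eq h2).1 (w.eq_one_of_root hN ?_ ?_)
  · rw [div_pow, ← map_pow, pow_right_comm, hζ, map_one, one_pow, div_one]
  · rw [div_sub_one h2, map_div₀, map_pow, h1, one_pow, div_one]
    exact h.2 ζ h1.le

/-- Unramified extensions have the same values. -/
theorem b3a_unr (hH : Op H) {x : Qbar} (hx : Fx (H ⊓ Ine w) x) (h0 : x ≠ 0) :
    ∃ y, Fx (H ⊓ Dec w) y ∧ w.V y = w.V x := by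
  obtain ⟨φ, hφ⟩ := exists_frob w
  obtain ⟨n, n0, -, hn⟩ := Subgroup.exists_pow_mem_of_index_ne_zero
    (hH.inf (b3a_op x)).index_ne_zero φ
  have h1 : 1 < w.p ^ n := Nat.one_lt_pow n0.ne' w.prime.one_lt
  have hN : ¬ w.p ∣ w.p ^ n - 1 := fun h =>
    w.prime.not_dvd_one ((Nat.dvd_sub_iff_right h1.le (dvd_pow_self _ n0.ne')).1 h)
  have : NeZero (w.p ^ n - 1) := ⟨by omega⟩
  obtain ⟨ζ, hζ⟩ := HasEnoughRootsOfUnity.exists_primitiveRoot Qbar (w.p ^ n - 1)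
  have z0 : ζ ≠ 0 := hζ.ne_zero (NeZero.ne _)
  have z1 := w.V_root_of_unity (NeZero.ne _) hζ.pow_eq_one
  have fx : Fx (H ⊓ Dec w ⊓ MulAction.stabilizer Gam ζ) x := by
    rintro g ⟨⟨g1, g2⟩, g3⟩
    obtain ⟨m, σ, hσ, ⟨⟨u1, u2⟩, u3⟩, -⟩ := dec_gen hφ g2 ((hH.inf (b3a_op x)).inf (b3a_op ζ))
    have e1 : φ ^ m * σ ∈ H := inv_mem_iff.1 ((Subgroup.mul_mem_cancel_right _ g1).1 u1)
    have e2 : (φ ^ m * σ) ζ = ζ := inv_mem_iff.1 ((Subgroup.mul_mem_cancel_right _ g3).1 u3)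
    rw [b3a_frob ((hφ.pow m).mul_ine hσ) hN hζ.pow_eq_one,
      ← Nat.sub_add_cancel (Nat.one_le_pow m _ w.prime.pos), pow_succ, mul_eq_right₀ z0,
      hζ.pow_eq_one_iff_dvd, Nat.dvd_iff_mod_eq_zero, Nat.pow_sub_one_mod_pow_sub_one] at e2
    obtain ⟨j, rfl⟩ : n ∣ m := Nat.dvd_of_mod_eq_zero (by_contra fun h =>
      (Nat.sub_ne_zero_of_lt (Nat.one_lt_pow h w.prime.one_lt)) e2)
    have e3 := pow_mem hn j
    rw [← pow_mul] at e3
    have e4 : σ ∈ MulAction.stabilizer Gam x :=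
      hx σ ⟨(Subgroup.mul_mem_cancel_left _ e3.1).1 e1, hσ⟩
    exact (Subgroup.mul_mem_cancel_left _ (inv_mem (mul_mem e3.2 e4))).1 u2
  obtain ⟨ι, _, r, i₀, r1, r2, r3, r4⟩ := b3a_trans (H ⊓ Dec w) (b3a_op ζ)
  have fz : ∀ j : ℕ, Fx (H ⊓ Dec w ⊓ MulAction.stabilizer Gam ζ) (ζ ^ j / x) := fun j =>
    fun g hg => by rw [map_div₀, map_pow, fx g hg, show g ζ = ζ from hg.2]
  have hsum : ∑ j ∈ range (w.p ^ n - 1), (ζ ^ j)⁻¹ * (x * ∑ i, r i (ζ ^ j / x)) =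
      ((w.p ^ n - 1 : ℕ) : ℤ) := by
    have e : ∀ j : ℕ, (ζ ^ j)⁻¹ * (x * ∑ i, r i (ζ ^ j / x)) =
        ∑ i, x / r i x * (r i ζ / ζ) ^ j := fun j => by
      rw [mul_sum, mul_sum]
      refine sum_congr rfl fun i _ => ?_
      rw [map_div₀, map_pow, div_pow]
      ring
    rw [sum_congr rfl fun j _ => e j, sum_comm, sum_eq_single i₀ (fun i _ hi => ?_) (by simp),
      fx _ ⟨r1 i₀, r2⟩, show r i₀ ζ = ζ from r2, div_self h0, div_self z0]
    · simp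
    · have e2 := geom_sum_mul (r i ζ / ζ) (w.p ^ n - 1)
      rw [div_pow, ← map_pow, hζ.pow_eq_one, map_one, div_one, sub_self, mul_eq_zero] at e2
      rw [← mul_sum, e2.resolve_right fun h => r3 i hi ((div_eq_one_iff_eq z0).1 (sub_eq_zero.1 h)),
        mul_zero]
  obtain ⟨j, -, hj⟩ : ∃ j ∈ range (w.p ^ n - 1),
      1 ≤ w.V ((ζ ^ j)⁻¹ * (x * ∑ i, r i (ζ ^ j / x))) := by
    by_contra hc
    push Not at hc
    have h2 := w.V.map_sum_lt' one_pos hc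
    rw [hsum] at h2
    exact h2.ne (w.V_int_eq_one.2 (by exact_mod_cast hN))
  rw [map_mul, map_inv₀, map_pow, z1, one_pow, inv_one, one_mul, map_mul] at hj
  have hle : w.V (∑ i, r i (ζ ^ j / x)) ≤ (w.V x)⁻¹ := w.V.map_sum_le fun i _ => by
    rw [mem_Dec.1 (r1 i).2, map_div₀, map_pow, z1, one_pow, one_div]
  refine ⟨(∑ i, r i (ζ ^ j / x))⁻¹, b3a_fx.2 (inv_mem (b3a_fx.1 fun h hh => ?_)), ?_⟩
  · obtain ⟨e, he⟩ := r4 h hh
    rw [map_sum, ← e.sum_comp fun i => r i _]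
    exact sum_congr rfl fun i _ => he i _ (fz j)
  · rw [map_inv₀, le_antisymm hle ((inv_le_iff_one_le_mul₀' (b3a_pos w h0)).2 hj), inv_inv]

/-- The values on the maximal unramified extension. -/
theorem V_of_fx_ine {x : Qbar} (hx : Fx (Ine w) x) (h0 : x ≠ 0) :
    ∃ k : ℤ, w.V x = ((w.p : ℝ≥0) ^ k)⁻¹ := by
  obtain ⟨y, hy, e⟩ := b3a_unr (H := ⊤) isOpen_univ (fun g hg => hx g hg.2) h0
  rw [← e]
  exact b3a_dec (fun g hg => hy g ⟨trivial, hg⟩) fun h => (b3a_pos w h0).ne (by rw [← e, h, map_zero])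

theorem b3a_disc (hH : Op H) (w : Plc) : ∃ e : ℕ, e ≠ 0 ∧ ∀ x, Fx H x → x ≠ 0 →
    ∃ k : ℤ, w.V x ^ e = ((w.p : ℝ≥0) ^ k)⁻¹ := by
  obtain ⟨ι, _, r, i₀, r1, -, -, r4⟩ := b3a_trans (Dec w) hH
  refine ⟨Fintype.card ι, (Fintype.card_pos_iff.2 ⟨i₀⟩).ne', fun x hx h0 => ?_⟩
  obtain ⟨k, hk⟩ := b3a_dec (w := w) (x := ∏ i, r i x) (fun h hh => by
    obtain ⟨e, he⟩ := r4 h hh
    rw [map_prod, ← e.prod_comp fun i => r i _]
    exact prod_congr rfl fun i _ => he i _ fun g hg => hx g hg.2)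
    (prod_ne_zero_iff.2 fun i _ => (map_ne_zero _).2 h0)
  rw [map_prod, prod_congr rfl fun i _ => mem_Dec.1 (r1 i) x, prod_const, card_univ] at hk
  exact ⟨k, hk⟩

/-- Uniformizers. -/
theorem exists_unif (hH : Op H) (w : Plc) : ∃ π, Fx H π ∧ 0 < w.V π ∧ w.V π < 1 ∧
    ∀ x, Fx (H ⊓ Ine w) x → x ≠ 0 → ∃ k : ℤ, w.V x = w.V π ^ k := by
  obtain ⟨e, e0, he⟩ := b3a_disc hH w
  have p0 : (w.p : ℝ≥0) ≠ 0 := (one_pos.trans (b3a_p w)).ne'
  let A : AddSubgroup ℤ :=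
    { carrier := {k | ∃ x, Fx H x ∧ x ≠ 0 ∧ w.V x ^ e = ((w.p : ℝ≥0) ^ k)⁻¹}
      zero_mem' := ⟨1, fun g _ => map_one g, one_ne_zero, by simp⟩
      add_mem' := by
        rintro a b ⟨x, x1, x2, x3⟩ ⟨y, y1, y2, y3⟩
        exact ⟨x * y, b3a_fx.2 (mul_mem (b3a_fx.1 x1) (b3a_fx.1 y1)), mul_ne_zero x2 y2, by
          rw [map_mul, mul_pow, x3, y3, zpow_add₀ p0, mul_inv]⟩
      neg_mem' := by
        rintro a ⟨x, x1, x2, x3⟩
        exact ⟨x⁻¹, b3a_fx.2 (inv_mem (b3a_fx.1 x1)), inv_ne_zero x2, by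
          rw [map_inv₀, inv_pow, x3, zpow_neg]⟩ }
  obtain ⟨a, ha⟩ := Int.subgroup_cyclic A
  obtain ⟨π, π1, π2, π3⟩ : a ∈ A := ha ▸ AddSubgroup.mem_closure_singleton_self a
  have key : ∀ x, Fx (H ⊓ Ine w) x → x ≠ 0 → ∃ k : ℤ, w.V x = w.V π ^ k := by
    intro x hx h0
    obtain ⟨y, hy, e1⟩ := b3a_unr hH hx h0
    obtain ⟨z, hz, e2⟩ := approx hH hy (e1 ▸ b3a_pos w h0)
    rw [w.V.map_sub_swap] at e2
    have e3 := (w.V.map_eq_of_sub_lt e2).trans e1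
    have z0 : z ≠ 0 := fun h => (b3a_pos w h0).ne (by rw [← e3, h, map_zero])
    obtain ⟨k, hk⟩ := he z hz z0
    have hA : k ∈ A := ⟨z, hz, z0, hk⟩
    rw [ha] at hA
    obtain ⟨j, rfl⟩ := AddSubgroup.mem_closure_singleton.1 hA
    refine ⟨j, pow_left_injective e0 ?_⟩
    beta_reduce
    rw [← e3, hk, ← zpow_natCast (w.V π ^ j), zpow_comm, zpow_natCast, π3, smul_eq_mul, mul_comm,
      zpow_mul, inv_zpow]
  rcases lt_trichotomy (w.V π) 1 with h | h | h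
  · exact ⟨π, π1, b3a_pos w π2, h, key⟩
  · obtain ⟨k, hk⟩ := key w.p (fun g _ => map_natCast g _) (Nat.cast_ne_zero.2 w.prime.ne_zero)
    rw [h, one_zpow, w.hV, inv_eq_one] at hk
    exact ((b3a_p w).ne' hk).elim
  · refine ⟨π⁻¹, b3a_fx.2 (inv_mem (b3a_fx.1 π1)), b3a_pos w (inv_ne_zero π2),
      by rw [map_inv₀]; exact inv_lt_one_of_one_lt₀ h, fun x hx h0 => ?_⟩
    obtain ⟨k, hk⟩ := key x hx h0
    exact ⟨-k, by rw [map_inv₀, inv_zpow, zpow_neg, inv_inv, hk]⟩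

end Pool.Agent.Lib.MP_696deb_nt.B2
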