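import Pool.Agent.Lib.MP_696deb_nt.B2.B1b
import Pool.Agent.Lib.MP_f8d36e_nt.Primes

set_option autoImplicit false

open scoped NNReal Classical NumberTheorySymbols
open Filter Topology Finset

namespace Pool.Agent.Lib.MP_696deb_nt.B2

variable {H : Subgroup Gam} {w v : Plc} {g φ : Gam}

theorem exists_plc {p : ℕ} (hp : p.Prime) : ∃ w : Plc, w.p = p := by
  have : Fact p.Prime := ⟨hp⟩
  let j : Qbar →ₐ[ℚ] PadicAlgCl p := IsAlgClosed.lift
  refine ⟨⟨p, hp, (Valued.v : Valuation (PadicAlgCl p) ℝ≥0).comap j.toRingHom, ?_⟩, rfl⟩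
  rw [Valuation.comap_apply, map_natCast, PadicAlgCl.valuation_p, one_div]

theorem b2a_one_lt (w : Plc) : (1 : ℝ≥0) < w.p := by exact_mod_cast w.prime.one_lt

theorem b2a_p_lt (w : Plc) : w.V w.p < 1 := by
  rw [w.hV]
  exact inv_lt_one_of_one_lt₀ (b2a_one_lt w)

theorem b2a_mul_lt (w : Plc) {x y : Qbar} (hx : w.V x ≤ 1) (hy : w.V y < 1) : w.V (x * y) < 1 := by
  rw [map_mul]
  exact mul_lt_one_of_nonneg_of_lt_one_right hx zero_le hy

theorem b2a_mul_le (w : Plc) {x y : Qbar} (hx : w.V x ≤ 1) (hy : w.V y ≤ 1) : w.V (x * y) ≤ 1 := by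
  rw [map_mul]
  exact mul_le_one' hx hy

theorem b2a_pow_le (w : Plc) {x : Qbar} (hx : w.V x ≤ 1) (n : ℕ) : w.V (x ^ n) ≤ 1 := by
  rw [map_pow]
  exact pow_le_one' hx n

theorem b2a_pow_sub (w : Plc) {x y : Qbar} (hx : w.V x ≤ 1) (hy : w.V y ≤ 1)
    (h : w.V (x - y) < 1) (n : ℕ) : w.V (x ^ n - y ^ n) < 1 := by
  induction n with
  | zero => simp
  | succ n ih =>
    rw [show x ^ (n + 1) - y ^ (n + 1) = x * (x ^ n - y ^ n) + y ^ n * (x - y) by ring]
    exact w.V.map_add_lt (b2a_mul_lt w hx ih) (b2a_mul_lt w (b2a_pow_le w hy n) h)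

theorem Plc.V_int_le (w : Plc) (a : ℤ) : w.V a ≤ 1 := (intCast_mem w.V.integer a :)

theorem Plc.V_int_eq_one (w : Plc) {a : ℤ} : w.V a = 1 ↔ ¬ (w.p : ℤ) ∣ a := by
  constructor
  · rintro h ⟨b, rfl⟩
    rw [mul_comm, Int.cast_mul, Int.cast_natCast] at h
    exact (b2a_mul_lt w (w.V_int_le b) (b2a_p_lt w)).ne h
  · intro h
    obtain ⟨u, t, e⟩ := (Nat.prime_iff_prime_int.1 w.prime).irreducible.coprime_iff_not_dvd.2 h
    by_contra h1
    have h2 := w.V.map_add_lt (b2a_mul_lt w (w.V_int_le u) (b2a_p_lt w))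
      (b2a_mul_lt w (w.V_int_le t) ((w.V_int_le a).lt_of_ne h1))
    have h3 : (u : Qbar) * w.p + t * a = 1 := by exact_mod_cast congrArg (Int.cast : ℤ → Qbar) e
    rw [h3, map_one] at h2
    exact h2.false

theorem b2a_V_int (w : Plc) {a : ℤ} (ha : a ≠ 0) :
    w.V a = ((w.p : ℝ≥0) ^ padicValInt w.p a)⁻¹ := by
  have : Fact w.p.Prime := ⟨w.prime⟩
  obtain ⟨b, hb⟩ := padicValInt_dvd (p := w.p) a
  have h1 : ¬ (w.p : ℤ) ∣ b := fun h => by
    have h2 : (w.p : ℤ) ^ (padicValInt w.p a + 1) ∣ a := by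
      rw [pow_succ]
      conv_rhs => rw [hb]
      exact mul_dvd_mul_left _ h
    rcases (padicValInt_dvd_iff _ _).1 h2 with h3 | h3
    · exact ha h3
    · omega
  conv_lhs => rw [hb]
  rw [Int.cast_mul, map_mul, w.V_int_eq_one.2 h1, mul_one, Int.cast_pow, map_pow, Int.cast_natCast,
    w.hV, inv_pow]

/-- The valuation of a rational number. -/
theorem Plc.V_rat (w : Plc) {r : ℚ} (hr : r ≠ 0) :
    w.V r = ((w.p : ℝ≥0) ^ padicValRat w.p r)⁻¹ := by
  have h0 : (w.p : ℝ≥0) ≠ 0 := (zero_lt_one.trans (b2a_one_lt w)).ne'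
  rw [Rat.cast_def, map_div₀, b2a_V_int w (Rat.num_ne_zero.2 hr), ← Int.cast_natCast r.den,
    b2a_V_int w (Int.natCast_ne_zero.2 r.den_nz), padicValRat, zpow_sub₀ h0, padicValInt.of_nat,
    zpow_natCast, zpow_natCast, inv_div_inv, inv_div]

theorem Plc.V_le_one_of_isIntegral (w : Plc) {x : Qbar} (h : IsIntegral ℤ x) : w.V x ≤ 1 :=
  (Valuation.integer.integers w.V).mem_of_integral h.tower_top

theorem Plc.V_root_of_unity (w : Plc) {x : Qbar} {n : ℕ} (hn : n ≠ 0) (h : x ^ n = 1) :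
    w.V x = 1 := by
  rw [← pow_eq_one_iff_of_nonneg zero_le hn, ← map_pow, h, map_one]

/-- Roots of unity of order prime to the residue characteristic stay distinct. -/
theorem Plc.eq_one_of_root (w : Plc) {x : Qbar} {n : ℕ} (hn : ¬ w.p ∣ n) (h : x ^ n = 1)
    (k : w.V (x - 1) < 1) : x = 1 := by
  by_contra hx
  have hn0 : n ≠ 0 := fun h0 => hn (h0 ▸ dvd_zero _)
  have h1 : ∑ i ∈ range n, x ^ i = 0 := by
    rw [geom_sum_eq hx, h, sub_self, zero_div]
  have h2 : w.V (∑ i ∈ range n, (1 ^ i - x ^ i)) < 1 := w.V.map_sum_lt one_ne_zero fun i _ =>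
    b2a_pow_sub w (by simp) (w.V_root_of_unity hn0 h).le (by rwa [w.V.map_sub_swap]) i
  rw [sum_sub_distrib, h1, sub_zero] at h2
  simp only [one_pow, sum_const, card_range, nsmul_eq_mul, mul_one] at h2
  rw [← Int.cast_natCast, w.V_int_eq_one.2 (by exact_mod_cast hn)] at h2
  exact h2.false

theorem b2a_crit {x : Qbar} (h : ∀ A : ValuationSubring Qbar, x ∈ A) : IsIntegral ℤ x := by
  have h1 : x ∈ (integralClosure (Subring.closure (∅ : Set Qbar)) Qbar).toSubring := by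
    rw [← iInf_valuationSubring_superset, Subring.mem_iInf]
    exact fun V => h V.1
  have : Algebra.IsIntegral ℤ (Subring.closure (∅ : Set Qbar)) := ⟨fun a => by
    obtain ⟨n, hn⟩ := Subring.mem_bot.1 (Subring.closure_empty.le a.2)
    rw [show a = algebraMap ℤ _ n from Subtype.ext hn.symm]
    exact isIntegral_algebraMap⟩
  exact isIntegral_trans x h1

open Polynomial in
/-- Integral numbers have denominators that are units. -/
theorem b2a_den (w : Plc) {x : Qbar} (h : w.V x ≤ 1) :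
    ∃ b : Qbar, IsIntegral ℤ b ∧ IsIntegral ℤ (b * x) ∧ w.V b = 1 := by
  obtain ⟨f0, hf0, hx0⟩ := (IsFractionRing.isAlgebraic_iff ℤ ℚ Qbar).2
    (Algebra.IsAlgebraic.isAlgebraic x)
  obtain ⟨f, hf, hx⟩ : ∃ f : ℤ[X], f.IsPrimitive ∧ aeval x f = 0 :=
    ⟨_, f0.isPrimitive_primPart, aeval_primPart_eq_zero hf0 hx0⟩
  have hc : ∀ k j, (divX^[k] f).coeff j = f.coeff (j + k) := fun k => by
    induction k with
    | zero => exact fun _ => rfl
    | succ k ih =>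
      exact fun j => by rw [Function.iterate_succ_apply', coeff_divX, ih, add_assoc, add_comm 1]
  have hs : ∀ k, aeval x (divX^[k + 1] f) * x = aeval x (divX^[k] f) - f.coeff k := fun k => by
    conv_rhs => rw [← divX_mul_X_add (divX^[k] f), hc, zero_add]
    simp [Function.iterate_succ_apply']
  have hi : ∀ k, IsIntegral ℤ (aeval x (divX^[k] f)) := fun k => b2a_crit fun A => by
    by_cases hA : x ∈ A
    · rw [aeval_eq_sum_range]
      exact sum_mem fun i _ => zsmul_mem (pow_mem hA i) _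
    · induction k with
      | zero => exact hx ▸ A.zero_mem
      | succ k ih =>
        rw [(eq_mul_inv_iff_mul_eq₀ fun h0 => hA (by rw [h0]; exact A.zero_mem)).2 (hs k)]
        exact mul_mem (sub_mem ih (intCast_mem A _)) ((A.mem_or_inv_mem x).resolve_left hA)
  by_contra hb
  have hl : ∀ k, w.V (aeval x (divX^[k] f)) < 1 := fun k => by
    cases k with
    | zero => simp [hx]
    | succ k =>
      exact (w.V_le_one_of_isIntegral (hi _)).lt_of_ne fun h1 => hb ⟨_, hi _,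
        hs k ▸ (hi k).sub (isIntegral_algebraMap (x := f.coeff k)), h1⟩
  refine (Nat.prime_iff_prime_int.1 w.prime).not_isUnit (hf _ ((C_dvd_iff_dvd_coeff _ _).2 fun k =>
    by_contra fun h1 => ?_))
  have h2 := w.V.map_sub_lt (hl k) (b2a_mul_lt w h (hl (k + 1)))
  rw [mul_comm, hs, sub_sub_cancel, w.V_int_eq_one.2 h1] at h2
  exact h2.false

/-- The prime ideal of a place. -/
def b2aP (w : Plc) : Ideal Zbar where
  carrier := {a | w.V (a : Qbar) < 1}
  add_mem' := fun ha hb => w.V.map_add_lt ha hb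
  zero_mem' := by simp
  smul_mem' := fun c _ ha => b2a_mul_lt w (w.V_le_one_of_isIntegral c.2) ha

theorem b2a_mem {w : Plc} {a : Zbar} : a ∈ b2aP w ↔ w.V (a : Qbar) < 1 := Iff.rfl

instance b2a_prime (w : Plc) : (b2aP w).IsPrime :=
  ⟨(Ideal.ne_top_iff_one _).2 fun h => by simpa using b2a_mem.1 h, fun {a b} h => by
    by_contra h1
    rw [not_or, b2a_mem, b2a_mem, not_lt, not_lt] at h1
    rw [b2a_mem, Subalgebra.coe_mul, map_mul] at h
    exact h.not_ge (one_le_mul h1.1 h1.2)⟩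

theorem b2a_p_mem (w : Plc) : (w.p : Zbar) ∈ b2aP w := b2a_p_lt w

instance b2a_max (w : Plc) : (b2aP w).IsMaximal :=
  Ideal.isMaximal_of_isIntegral_of_isMaximal_comap (R := ℤ) _
    ((Ideal.comap_isPrime _ _).isMaximal fun h => by
      have h1 : (w.p : ℤ) ∈ (b2aP w).comap (algebraMap ℤ Zbar) := by
        simpa only [Ideal.mem_comap, eq_intCast, Int.cast_natCast] using b2a_p_mem w
      rw [h, Ideal.mem_bot, Int.natCast_eq_zero] at h1
      exact w.prime.ne_zero h1)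

open Pointwise in
theorem b2a_smul (g : Gam) (w : Plc) : b2aP (g • w) = g • b2aP w :=
  Ideal.ext fun _ => by rw [Ideal.mem_pointwise_smul_iff_inv_smul_mem]; rfl

theorem b2a_le {w v : Plc} (h : b2aP w = b2aP v) {x y : Qbar} (k : w.V x ≤ w.V y) :
    v.V x ≤ v.V y := by
  rcases eq_or_ne y 0 with rfl | hy
  · rw [map_zero, le_zero_iff, map_eq_zero] at k
    rw [k]
  have pos : ∀ u : Plc, 0 < u.V y := fun u => u.V.pos_iff.2 hy
  obtain ⟨b, h1, h2, h3⟩ := b2a_den w (x := x / y) (by rwa [map_div₀, div_le_one (pos w)])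
  have h4 : ¬ v.V b < 1 := fun h5 =>
    (b2a_mem.1 (h ▸ (show (⟨b, h1⟩ : Zbar) ∈ b2aP v from h5))).ne h3
  have h5 := v.V_le_one_of_isIntegral h2
  rwa [map_mul, (v.V_le_one_of_isIntegral h1).antisymm (not_lt.1 h4), one_mul, map_div₀,
    div_le_one (pos v)] at h5

theorem b2a_V_le {w v : Plc} (h : b2aP w = b2aP v) (hp : w.p = v.p) (x : Qbar) :
    v.V x ≤ w.V x := by
  by_contra hx
  rw [not_le] at hx
  have h0 : 0 < w.V x := w.V.pos_iff.2 fun h0 => by simp [h0] at hx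
  obtain ⟨n, hn⟩ := pow_unbounded_of_one_lt (w.p : ℝ≥0) ((one_lt_div h0).2 hx)
  obtain ⟨m, h1, h2⟩ := exists_mem_Ioc_zpow (pow_pos h0 n) (b2a_one_lt w)
  have e : ∀ u : Plc, u.V ((u.p : Qbar)⁻¹ ^ (m + 1)) = (u.p : ℝ≥0) ^ (m + 1) := fun u => by
    rw [map_zpow₀, map_inv₀, u.hV, inv_inv]
  have h3 := b2a_le h (x := x ^ n) (y := (w.p : Qbar)⁻¹ ^ (m + 1)) (by rwa [e, map_pow])
  have hp0 : (0 : ℝ≥0) < w.p := zero_lt_one.trans (b2a_one_lt w)
  rw [hp, e, ← hp, map_pow, zpow_add_one₀ hp0.ne'] at h3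
  rw [div_pow, lt_div_iff₀ (pow_pos h0 n), mul_comm] at hn
  exact (((mul_lt_mul_of_pos_right h1 hp0).trans hn).trans_le h3).false

theorem b2a_ext {w v : Plc} (h : b2aP w = b2aP v) : w = v := by
  have hp : w.p = v.p := by
    have h1 : v.V ((w.p : ℤ) : Qbar) < 1 := by
      rw [Int.cast_natCast]
      exact b2a_mem.1 (h ▸ b2a_p_mem w)
    have h2 : (v.p : ℤ) ∣ w.p := by_contra fun h2 => h1.ne (v.V_int_eq_one.2 h2)
    exact ((Nat.prime_dvd_prime_iff_eq v.prime w.prime).1 (by exact_mod_cast h2)).symm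
  exact Plc.ext hp (Valuation.ext fun x => (b2a_V_le h.symm hp.symm x).antisymm (b2a_V_le h hp x))

theorem b2a_surj (P : Ideal Zbar) (hP : P.IsMaximal) : ∃ w : Plc, b2aP w = P := by
  obtain ⟨p, hp, h1⟩ := MP_f8d36e_nt.exists_prime_mem P hP
  obtain ⟨w, rfl⟩ := exists_plc hp
  obtain ⟨g, hg⟩ := MP_f8d36e_nt.primes_trans MP_f8d36e_nt.primes_open (b2aP w) P fun x hx => by
    obtain ⟨n, rfl⟩ := MP_f8d36e_nt.primes_fixed x hx
    by_cases h : (w.p : ℤ) ∣ n
    · obtain ⟨m, rfl⟩ := h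
      push_cast
      exact iff_of_true (Ideal.mul_mem_right _ _ (b2a_p_mem w)) (Ideal.mul_mem_right _ _ h1)
    · refine iff_of_false (fun h2 => (b2a_mem.1 h2).ne (w.V_int_eq_one.2 h)) fun h2 => ?_
      obtain ⟨u, t, e⟩ := (Nat.prime_iff_prime_int.1 hp).irreducible.coprime_iff_not_dvd.2 h
      have h3 : (u : Zbar) * w.p + t * n = 1 := by exact_mod_cast congrArg (Int.cast : ℤ → Zbar) e
      exact hP.ne_top ((Ideal.eq_top_iff_one _).2
        (h3 ▸ P.add_mem (P.mul_mem_left _ h1) (P.mul_mem_left _ h2)))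
  exact ⟨g • w, by rw [b2a_smul, hg]⟩

theorem isIntegral_of_V {x : Qbar} (h : ∀ w : Plc, w.V x ≤ 1) : IsIntegral ℤ x := by
  let I : Ideal Zbar :=
    { carrier := {a | IsIntegral ℤ ((a : Qbar) * x)}
      add_mem' := fun {a b} ha hb => by simpa [add_mul] using IsIntegral.add ha hb
      zero_mem' := by simpa using isIntegral_zero
      smul_mem' := fun c a ha => by simpa [mul_assoc] using IsIntegral.mul c.2 ha }
  by_contra hx
  obtain ⟨P, hP, hIP⟩ := I.exists_le_maximal fun h1 => hx (by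
    simpa [I] using (h1 ▸ Submodule.mem_top : (1 : Zbar) ∈ I))
  obtain ⟨w, rfl⟩ := b2a_surj P hP
  obtain ⟨b, h1, h2, h3⟩ := b2a_den w (h w)
  exact (hIP (show (⟨b, h1⟩ : Zbar) ∈ I from h2) : w.V b < 1).ne h3

/-- Every integral number is congruent to an algebraic integer, and lies in a finite field. -/
theorem Plc.exists_int (w : Plc) {x : Qbar} (h : w.V x ≤ 1) :
    ∃ y : Qbar, IsIntegral ℤ y ∧ w.V (x - y) < 1 := by
  obtain ⟨b, h1, h2, h3⟩ := b2a_den w h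
  obtain ⟨c, i, hi, e⟩ := (b2a_max w).exists_inv (x := ⟨b, h1⟩) fun h4 => (b2a_mem.1 h4).ne h3
  have e' : (c : Qbar) * b + i = 1 := congrArg Subtype.val e
  refine ⟨c * (b * x), IsIntegral.mul c.2 h2, ?_⟩
  rw [show x - c * (b * x) = x * i by linear_combination -x * e']
  exact b2a_mul_lt w h hi

theorem Plc.exists_pow (w : Plc) {x : Qbar} (h : w.V x ≤ 1) :
    ∃ n : ℕ, 0 < n ∧ w.V (x ^ w.p ^ n - x) < 1 := by
  obtain ⟨y, h1, h2⟩ := w.exists_int h
  have : Fact w.p.Prime := ⟨w.prime⟩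
  let := Ideal.Quotient.field (b2aP w)
  have : CharP (Zbar ⧸ b2aP w) w.p := (CharP.charP_iff_prime_eq_zero w.prime).2 (by
    rw [← map_natCast (Ideal.Quotient.mk (b2aP w))]
    exact Ideal.Quotient.eq_zero_iff_mem.2 (b2a_p_mem w))
  let := ZMod.algebra (Zbar ⧸ b2aP w) w.p
  have h3 : IsIntegral (ZMod w.p) (Ideal.Quotient.mk (b2aP w) ⟨y, h1⟩) :=
    ((integralClosure.isIntegral (⟨y, h1⟩ : Zbar)).map
      (Ideal.Quotient.mk (b2aP w)).toIntAlgHom).tower_top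
  have := IntermediateField.adjoin.finiteDimensional h3
  have := Module.finite_of_finite (ZMod w.p)
    (M := IntermediateField.adjoin (ZMod w.p) {Ideal.Quotient.mk (b2aP w) ⟨y, h1⟩})
  have := Fintype.ofFinite
    (IntermediateField.adjoin (ZMod w.p) {Ideal.Quotient.mk (b2aP w) ⟨y, h1⟩})
  obtain ⟨n, -, hn⟩ := FiniteField.card
    (IntermediateField.adjoin (ZMod w.p) {Ideal.Quotient.mk (b2aP w) ⟨y, h1⟩}) w.p
  have h4 := congrArg Subtype.val (FiniteField.pow_card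
    (IntermediateField.AdjoinSimple.gen (ZMod w.p) (Ideal.Quotient.mk (b2aP w) ⟨y, h1⟩)))
  rw [hn] at h4
  have h5 : w.V (y ^ w.p ^ (n : ℕ) - y) < 1 :=
    b2a_mem.1 (Ideal.Quotient.eq.1 ((map_pow _ (⟨y, h1⟩ : Zbar) _).trans h4))
  refine ⟨n, n.pos, ?_⟩
  rw [show x ^ w.p ^ (n : ℕ) - x = (x ^ w.p ^ (n : ℕ) - y ^ w.p ^ (n : ℕ)) +
    (y ^ w.p ^ (n : ℕ) - y) - (x - y) by ring]
  exact w.V.map_sub_lt (w.V.map_add_lt
    (b2a_pow_sub w h (w.V_le_one_of_isIntegral h1) h2 _) h5) h2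

/-- Places that agree on the fixed field of a closed subgroup are conjugate under it. -/
theorem plc_conj_of (hH : IsClosed (H : Set Gam)) (h : ∀ x, Fx H x → (w.V x < 1 ↔ v.V x < 1)) :
    ∃ g ∈ H, g • w = v := by
  have : CompactSpace H := isCompact_iff_compactSpace.1 hH.isCompact
  obtain ⟨g, hg⟩ := MP_f8d36e_nt.primes_trans (G := H) (fun x : Zbar =>
    (MP_f8d36e_nt.primes_open x).preimage continuous_subtype_val) (b2aP w) (b2aP v) fun x hx =>
      h x fun g hg => congrArg Subtype.val (hx ⟨g, hg⟩)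
  exact ⟨g, g.2, b2a_ext ((b2a_smul g w).trans hg.symm)⟩

theorem plc_conj (h : w.p = v.p) : ∃ g : Gam, g • w = v := by
  obtain ⟨g, -, hg⟩ := plc_conj_of (H := ⊤) (w := w) (v := v) isClosed_univ fun x hx => by
    obtain ⟨r, rfl⟩ := fx_top hx
    rcases eq_or_ne r 0 with rfl | hr
    · simp
    · rw [w.V_rat hr, v.V_rat hr, h]
  exact ⟨g, hg⟩

theorem b2a_closed (x : Qbar) (P : Qbar → Prop) : IsClosed {g : Gam | P (g x)} := by
  let : TopologicalSpace Qbar := ⊥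
  have : DiscreteTopology Qbar := ⟨rfl⟩
  exact (isClosed_discrete {y | P y}).preimage
    (continuousOn_univ.1 (sm_apply (H := ⊤) x).continuousOn)

theorem closed_Dec (w : Plc) : IsClosed (Dec w : Set Gam) := by
  rw [show (Dec w : Set Gam) = ⋂ x, {g | w.V (g x) = w.V x} from
    Set.ext fun g => mem_Dec.trans (by simp)]
  exact isClosed_iInter fun x => b2a_closed x fun y => w.V y = w.V x

theorem closed_Ine (w : Plc) : IsClosed (Ine w : Set Gam) := by
  rw [show (Ine w : Set Gam) = (Dec w : Set Gam) ∩ ⋂ x, {g | w.V x ≤ 1 → w.V (g x - x) < 1} from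
    Set.ext fun g => and_congr Iff.rfl (by simp)]
  exact (closed_Dec w).inter
    (isClosed_iInter fun x => b2a_closed x fun y => w.V x ≤ 1 → w.V (y - x) < 1)

theorem Ine_le (w : Plc) : Ine w ≤ Dec w := fun _ h => h.1

theorem conj_mem_Ine {σ : Gam} (hg : g ∈ Dec w) (h : σ ∈ Ine w) : g * σ * g⁻¹ ∈ Ine w := by
  refine ⟨mul_mem (mul_mem hg h.1) (inv_mem hg), fun x hx => ?_⟩
  have h1 := h.2 (g⁻¹ x) (by rwa [mem_Dec.1 (inv_mem hg)])
  rwa [← mem_Dec.1 hg, map_sub, show g (g⁻¹ x) = x from g.apply_symm_apply x] at h1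

theorem mem_Dec_smul {k : Gam} : k ∈ Dec (g • w) ↔ g⁻¹ * k * g ∈ Dec w := by
  simp only [Dec, MulAction.mem_stabilizer_iff, mul_smul, inv_smul_eq_iff]

theorem mem_Ine_smul {k : Gam} : k ∈ Ine (g • w) ↔ g⁻¹ * k * g ∈ Ine w := by
  refine and_congr mem_Dec_smul ⟨fun h x hx => ?_, fun h x hx => ?_⟩
  · simpa [smul_V] using h (g x) (by simpa [smul_V] using hx)
  · simpa [smul_V] using h (g⁻¹ x) hx

theorem IsFrob.smul {n : ℕ} (h : IsFrob w n φ) (g : Gam) : IsFrob (g • w) n (g * φ * g⁻¹) := by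
  refine ⟨mem_Dec_smul.2 (by simpa [mul_assoc] using h.1), fun x hx => ?_⟩
  simpa [smul_V] using h.2 (g⁻¹ x) hx

theorem exists_frob (w : Plc) : ∃ φ, IsFrob w w.p φ := by
  obtain ⟨φ, h1, h2⟩ := MP_f8d36e_nt.exists_frob w.prime (b2aP w) (b2a_max w) (b2a_p_mem w)
  have h3 : φ ∈ Dec w := b2a_ext ((b2a_smul φ w).trans h1)
  refine ⟨φ, h3, fun x hx => ?_⟩
  obtain ⟨y, k1, k2⟩ := w.exists_int hx
  rw [show φ x - x ^ w.p = φ (x - y) + (φ y - y ^ w.p) - (x ^ w.p - y ^ w.p) by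
    rw [map_sub]; ring]
  exact w.V.map_sub_lt (w.V.map_add_lt (by rwa [mem_Dec.1 h3]) (b2a_mem.1 (h2 ⟨y, k1⟩)))
    (b2a_pow_sub w hx (w.V_le_one_of_isIntegral k1) k2 _)

theorem IsFrob.mul {m n : ℕ} {ψ : Gam} (h : IsFrob w m φ) (k : IsFrob w n ψ) :
    IsFrob w (m * n) (φ * ψ) := by
  refine ⟨mul_mem h.1 k.1, fun x hx => ?_⟩
  rw [show (φ * ψ) x - x ^ (m * n) = φ (ψ x - x ^ n) + (φ (x ^ n) - (x ^ n) ^ m) by
    rw [map_sub, ← pow_mul, mul_comm n, AlgEquiv.mul_apply]; ring]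
  exact w.V.map_add_lt (by rw [mem_Dec.1 h.1]; exact k.2 x hx) (h.2 _ (b2a_pow_le w hx n))

theorem IsFrob.pow {m : ℕ} (h : IsFrob w m φ) (n : ℕ) : IsFrob w (m ^ n) (φ ^ n) := by
  induction n with
  | zero => exact ⟨by simp, fun x _ => by simp⟩
  | succ n ih => rw [pow_succ, pow_succ]; exact ih.mul h

theorem isFrob_one : IsFrob w 1 g ↔ g ∈ Ine w := by
  simp only [IsFrob, pow_one]
  rfl

theorem IsFrob.mul_ine {n : ℕ} {σ : Gam} (h : IsFrob w n φ) (k : σ ∈ Ine w) : IsFrob w n (φ * σ) := by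
  simpa using h.mul (isFrob_one.2 k)

theorem IsFrob.inv_mul_mem {n : ℕ} {ψ : Gam} (h : IsFrob w n φ) (k : IsFrob w n ψ) :
    φ⁻¹ * ψ ∈ Ine w := by
  refine ⟨mul_mem (inv_mem h.1) k.1, fun x hx => ?_⟩
  rw [← mem_Dec.1 h.1, map_sub, show φ ((φ⁻¹ * ψ) x) = ψ x from φ.apply_symm_apply _,
    show ψ x - φ x = (ψ x - x ^ n) - (φ x - x ^ n) by ring]
  exact w.V.map_sub_lt (k.2 x hx) (h.2 x hx)

end Pool.Agent.Lib.MP_696deb_nt.B2
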