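import Pool.Agent.Lib.MP_f8d36e_nt.Defs

/-! Places of the field of algebraic numbers, smooth cochains, and the statements of class field
theory that are used. -/

set_option autoImplicit false

open scoped NNReal Classical
open Filter Topology Finset

namespace Pool.Agent.Lib.MP_696deb_nt.B2

export Pool.Agent.Lib.MP_f8d36e_nt (Qbar Gam Zbar)

/-- A finite place of the field of all algebraic numbers. -/
@[ext] structure Plc where
  p : ℕ
  prime : p.Prime
  V : Valuation Qbar ℝ≥0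
  hV : V p = (p : ℝ≥0)⁻¹

noncomputable instance : MulAction Gam Plc where
  smul g w := ⟨w.p, w.prime, w.V.comap (g⁻¹ : Gam).toRingEquiv.toRingHom, by
    simpa using w.hV⟩
  one_smul _ := rfl
  mul_smul _ _ _ := rfl

theorem smul_p (g : Gam) (w : Plc) : (g • w).p = w.p := rfl

theorem smul_V (g : Gam) (w : Plc) (x : Qbar) : (g • w).V x = w.V (g⁻¹ x) := rfl

/-- The decomposition group. -/
noncomputable def Dec (w : Plc) : Subgroup Gam := MulAction.stabilizer Gam w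

theorem mem_Dec {w : Plc} {g : Gam} : g ∈ Dec w ↔ ∀ x, w.V (g x) = w.V x := by
  constructor
  · intro h x
    have h1 : (g • w).V (g x) = w.V (g x) := by rw [show g • w = w from h]
    rw [← h1, smul_V]
    exact congrArg w.V (g.symm_apply_apply x)
  · intro h
    refine Plc.ext rfl (Valuation.ext fun x => ?_)
    rw [smul_V, ← h]
    exact congrArg w.V (g.apply_symm_apply x)

/-- The inertia group. -/
noncomputable def Ine (w : Plc) : Subgroup Gam where
  carrier := {g | g ∈ Dec w ∧ ∀ x, w.V x ≤ 1 → w.V (g x - x) < 1}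
  one_mem' := ⟨one_mem _, fun x _ => by simp⟩
  mul_mem' := by
    rintro g h ⟨hg, kg⟩ ⟨hh, kh⟩
    refine ⟨mul_mem hg hh, fun x hx => ?_⟩
    have e : (g * h) x - x = (g (h x) - h x) + (h x - x) := by simp
    rw [e]
    exact w.V.map_add_lt (kg _ (by rwa [mem_Dec.1 hh])) (kh x hx)
  inv_mem' := by
    rintro g ⟨hg, kg⟩
    refine ⟨inv_mem hg, fun x hx => ?_⟩
    have h1 := kg (g⁻¹ x) (by rwa [mem_Dec.1 (inv_mem hg)])
    rw [show g (g⁻¹ x) = x from g.apply_symm_apply x] at h1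
    rwa [w.V.map_sub_swap]

/-- `g` induces the `n`-th power map on the residue field. -/
def IsFrob (w : Plc) (n : ℕ) (g : Gam) : Prop :=
  g ∈ Dec w ∧ ∀ x, w.V x ≤ 1 → w.V (g x - x ^ n) < 1

/-- Open subgroups. -/
abbrev Op (H : Subgroup Gam) : Prop := IsOpen (H : Set Gam)

/-- Functions that are uniformly locally constant on `H`. -/
def Sm {α : Type*} (H : Subgroup Gam) (f : Gam → α) : Prop :=
  ∃ U : Subgroup Gam, Op U ∧ U.Normal ∧
    ∀ g ∈ H, ∀ h ∈ H, g⁻¹ * h ∈ U → f g = f h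

/-- The same in two variables. -/
def Sm2 {α : Type*} (H : Subgroup Gam) (c : Gam → Gam → α) : Prop :=
  ∃ U : Subgroup Gam, Op U ∧ U.Normal ∧
    ∀ g ∈ H, ∀ g' ∈ H, ∀ h ∈ H, ∀ h' ∈ H, g⁻¹ * g' ∈ U → h⁻¹ * h' ∈ U → c g h = c g' h'

/-- Functions that are additive on `H`. -/
def IsHom {G A : Type*} [Group G] [Add A] (H : Subgroup G) (f : G → A) : Prop :=
  ∀ g ∈ H, ∀ h ∈ H, f (g * h) = f g + f h

/-- Numbers fixed by `H`. -/
def Fx (H : Subgroup Gam) (x : Qbar) : Prop := ∀ g ∈ H, g x = x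

/-- A square root. -/
noncomputable def rt (a : ℤ) : Qbar :=
  (IsAlgClosed.exists_pow_nat_eq (a : Qbar) two_pos).choose

theorem rt_sq (a : ℤ) : rt a ^ 2 = a := (IsAlgClosed.exists_pow_nat_eq (a : Qbar) two_pos).choose_spec

theorem rt_or (a : ℤ) (g : Gam) : g (rt a) = rt a ∨ g (rt a) = -rt a :=
  sq_eq_sq_iff_eq_or_eq_neg.1 (by rw [← map_pow, rt_sq, map_intCast])

/-- The quadratic character attached to an integer. -/
noncomputable def chi (a : ℤ) : Gam →* ℤˣ :=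
  MonoidHom.mk' (fun g => if g (rt a) = rt a then 1 else -1) fun g h => by
    by_cases hg : g (rt a) = rt a <;> by_cases hh : h (rt a) = rt a
    · simp [hg, hh]
    · have h1 := (rt_or a h).resolve_left hh
      have h2 : ¬ -rt a = rt a := h1 ▸ hh
      simp [hg, h1, h2]
    · simp [hg, hh]
    · have h1 := (rt_or a h).resolve_left hh
      have h2 := (rt_or a g).resolve_left hg
      have h3 : ¬ -rt a = rt a := h1 ▸ hh
      simp [h1, h2, h3]

/-- The same character, written additively. -/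
noncomputable def xi (a : ℤ) (g : Gam) : ZMod 2 := if g (rt a) = rt a then 0 else 1

/-- Generators of the pro-two part of the inertia group at an odd place. -/
def Gen (w : Plc) (τ : Gam) : Prop := τ ∈ Ine w ∧ chi w.p τ = -1

/-- The Galois group of the imaginary quadratic field of discriminant `-q`. -/
noncomputable def GK (q : ℕ) : Subgroup Gam := (chi (-q)).ker

/-- A fixed complex embedding. -/
noncomputable def jC : Qbar →+* ℂ := (IsAlgClosed.lift : Qbar →ₐ[ℚ] ℂ).toRingHom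

/-- Complex conjugations. -/
def IsCC (g : Gam) : Prop := ∃ j : Qbar →+* ℂ, ∀ x, j (g x) = starRingEnd ℂ (j x)

theorem exists_cc : ∃ c : Gam, ∀ x, jC (c x) = starRingEnd ℂ (jC x) := by
  let j : Qbar →ₐ[ℚ] ℂ := IsAlgClosed.lift
  let _ : Algebra Qbar ℂ := j.toRingHom.toAlgebra
  have : IsScalarTower ℚ Qbar ℂ := IsScalarTower.of_algebraMap_eq fun q => (j.commutes q).symm
  exact ⟨(Complex.conjAe.restrictScalars ℚ).restrictNormal Qbar, fun x =>
    AlgEquiv.restrictNormal_commutes (Complex.conjAe.restrictScalars ℚ) Qbar x⟩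

/-- The complex conjugation of the fixed embedding. -/
noncomputable def cc : Gam := exists_cc.choose

theorem jC_cc (x : Qbar) : jC (cc x) = starRingEnd ℂ (jC x) := exists_cc.choose_spec x

/-- A compatible system of primitive roots of unity of two-power order. -/
noncomputable def zeta : ℕ → Qbar
  | 0 => 1
  | 1 => -1
  | m + 2 => (IsAlgClosed.exists_pow_nat_eq (zeta (m + 1)) two_pos).choose

/-- The two-adic cyclotomic character. -/
noncomputable def cyc (g : Gam) : ℤ_[2] := (cyclotomicCharacter Qbar 2 g.toRingEquiv : ℤ_[2]ˣ)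

/-- Its reduction. -/
noncomputable def cy (m : ℕ) (g : Gam) : ZMod (2 ^ m) := PadicInt.toZModPow m (cyc g)

/-- Smooth two-cocycles with values in the roots of unity of order `2 ^ m`, written additively. -/
def C2 (m : ℕ) (H : Subgroup Gam) (c : Gam → Gam → ZMod (2 ^ m)) : Prop :=
  Sm2 H c ∧ ∀ g ∈ H, ∀ h ∈ H, ∀ k ∈ H, cy m g * c h k + c g (h * k) = c (g * h) k + c g h

/-- Coboundaries. -/
def Spl (m : ℕ) (H : Subgroup Gam) (c : Gam → Gam → ZMod (2 ^ m)) : Prop :=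
  ∃ b : Gam → ZMod (2 ^ m), Sm H b ∧ ∀ g ∈ H, ∀ h ∈ H, c g h = b g + cy m g * b h - b (g * h)

/-- Coboundaries with values in all nonzero algebraic numbers. -/
def SplQ (H : Subgroup Gam) (c : Gam → Gam → Qbar) : Prop :=
  ∃ b : Gam → Qbar, Sm H b ∧ (∀ g, b g ≠ 0) ∧ ∀ g ∈ H, ∀ h ∈ H, c g h * b (g * h) = b g * g (b h)

/-- `κ` is a Kummer cocycle of `a` on `H`. -/
def Kum (m : ℕ) (H : Subgroup Gam) (a : Qbar) (κ : Gam → ZMod (2 ^ m)) : Prop :=
  ∃ r : Qbar, r ≠ 0 ∧ r ^ 2 ^ m = a ∧ ∀ h ∈ H, h r = r * zeta m ^ (κ h).val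

/-- The cup product of a character and a Kummer cocycle. -/
noncomputable def cup (m : ℕ) (χ κ : Gam → ZMod (2 ^ m)) (g h : Gam) : ZMod (2 ^ m) :=
  χ g * cy m g * κ h

/-- The fixed field of `H` is totally complex. -/
def TC (H : Subgroup Gam) : Prop := ∀ g, IsCC g → g ∉ H

/-- `w` is not conjugate under `H` to a place in `s`. -/
def Away (H : Subgroup Gam) (s : Finset Plc) (w : Plc) : Prop := ∀ v ∈ s, ∀ g ∈ H, g • v ≠ w

/-- The places in `s` are pairwise not conjugate under `H`. -/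
def Apart (H : Subgroup Gam) (s : Finset Plc) : Prop :=
  ∀ v ∈ s, ∀ w ∈ s, ∀ g ∈ H, g • v = w → v = w

/-- Either the fixed field of `H` is totally complex, or it is the field of rational numbers and
`c` splits at the real place. -/
def AtInf (m : ℕ) (H : Subgroup Gam) (c : Gam → Gam → ZMod (2 ^ m)) : Prop :=
  TC H ∨ (H = ⊤ ∧ Spl m (Subgroup.zpowers cc) c)

/-- Local invariants of two-primary Brauer classes, with the reciprocity law. -/
structure CFT where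
  inv : (m : ℕ) → Subgroup Gam → Plc → (Gam → Gam → ZMod (2 ^ m)) → ZMod (2 ^ m)
  add : ∀ {m H w c c'}, Op H → C2 m (H ⊓ Dec w) c → C2 m (H ⊓ Dec w) c' →
    inv m H w (c + c') = inv m H w c + inv m H w c'
  congr : ∀ {m H w c c'}, (∀ g ∈ H ⊓ Dec w, ∀ h ∈ H ⊓ Dec w, c g h = c' g h) →
    inv m H w c = inv m H w c'
  zero_iff : ∀ {m H w c}, Op H → C2 m (H ⊓ Dec w) c →
    (inv m H w c = 0 ↔ Spl m (H ⊓ Dec w) c)
  red : ∀ {m m' H w c} (h : m' ≤ m), Op H → C2 m (H ⊓ Dec w) c →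
    inv m' H w (fun g k => ZMod.castHom (pow_dvd_pow 2 h) (ZMod (2 ^ m')) (c g k)) =
      ZMod.castHom (pow_dvd_pow 2 h) (ZMod (2 ^ m')) (inv m H w c)
  inc : ∀ {m H w c} (n : ℕ), Op H → C2 m (H ⊓ Dec w) c →
    inv (m + n) H w (fun g k => 2 ^ n * ((c g k).val : ZMod (2 ^ (m + n)))) =
      2 ^ n * ((inv m H w c).val : ZMod (2 ^ (m + n)))
  res : ∀ {m H H' w c}, Op H' → H' ≤ H → C2 m (H ⊓ Dec w) c →
    inv m H' w c = ((H' ⊓ Dec w).relIndex (H ⊓ Dec w) : ZMod (2 ^ m)) * inv m H w c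
  unr : ∀ {m H w c}, Op H → C2 m (H ⊓ Dec w) c →
    (∀ g ∈ H ⊓ Dec w, ∀ h ∈ H ⊓ Dec w, ∀ σ ∈ H ⊓ Ine w, ∀ σ' ∈ H ⊓ Ine w,
      c (g * σ) (h * σ') = c g h) → inv m H w c = 0
  kum : ∀ {m H w χ κ a φ} (k : ℤ), Op H → Ine w ≤ H → φ ∈ H →
    IsFrob w (w.p ^ (H ⊓ Dec w).relIndex (Dec w)) φ → Sm (H ⊓ Dec w) χ → IsHom (H ⊓ Dec w) χ →
    (∀ σ ∈ Ine w, χ σ = 0) → Kum m (H ⊓ Dec w) a κ → w.V a = ((w.p : ℝ≥0) ^ k)⁻¹ →
    inv m H w (cup m χ κ) = χ φ * k
  unit : ∀ {m H w χ κ a}, Op H → Sm (H ⊓ Dec w) χ → IsHom (H ⊓ Dec w) χ →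
    (∀ σ ∈ H ⊓ Ine w, χ σ = 0) → Kum m (H ⊓ Dec w) a κ → w.V a = 1 → inv m H w (cup m χ κ) = 0
  crit : ∀ {m H w χ}, Op H → Sm (H ⊓ Dec w) χ → IsHom (H ⊓ Dec w) χ →
    (∀ a κ, Fx H a → w.V a = 1 → Kum m H a κ → inv m H w (cup m χ κ) = 0) →
    ∀ σ ∈ H ⊓ Ine w, χ σ = 0
  recip : ∀ {m H c} (s : Finset Plc), Op H → C2 m H c → AtInf m H c → Apart H s →
    (∀ w, Away H s w → inv m H w c = 0) → ∑ w ∈ s, inv m H w c = 0
  abhn : ∀ {m H c}, Op H → C2 m H c → AtInf m H c → (∀ w, inv m H w c = 0) →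
    Spl m H c

/-- The number of units outside a finite set of places, modulo squares. -/
def SUStmt : Prop := ∀ (H : Subgroup Gam) (s : Finset Plc), Op H → TC H →
  Apart H s → ∃ a : Fin (H.index / 2 + s.card) → Qbar,
    (∀ i, a i ≠ 0 ∧ Fx H (a i) ∧ ∀ w, Away H s w → w.V (a i) = 1) ∧
    ∀ t : Finset (Fin (H.index / 2 + s.card)), (∃ b, Fx H b ∧ ∏ i ∈ t, a i = b ^ 2) → t = ∅

/-- The number of quadratic characters of a local field above two. -/
def LIStmt : Prop := ∀ (H : Subgroup Gam) (w : Plc) (n : ℕ) (χ : Fin n → Gam → ZMod 2),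
  Op H → w.p = 2 → (∀ i, Sm (H ⊓ Dec w) (χ i) ∧ IsHom (H ⊓ Dec w) (χ i)) →
  (∀ t : Finset (Fin n), (∀ g ∈ H ⊓ Dec w, ∑ i ∈ t, χ i g = 0) → t = ∅) →
  n ≤ (H ⊓ Dec w).relIndex (Dec w) + 2

/-- The density theorem of Frobenius for elements of two-power order. -/
def ChebStmt : Prop := ∀ (U : Subgroup Gam) (s : Gam) (k : ℕ) (B : Finset ℕ),
  Op U → U.Normal → s ^ 2 ^ k ∈ U →
  ∃ (w : Plc) (φ : Gam) (a : ℕ), w.p ∉ B ∧ IsFrob w w.p φ ∧ Odd a ∧ φ⁻¹ * s ^ a ∈ U

/-- The primes `q` that are used. -/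
def Qok (q : ℕ) : Prop := q.Prime ∧ (q % 240 = 71 ∨ q % 240 = 119)

/-- No quadratic extension of the imaginary quadratic field is unramified at all odd places and
split at a place above two. -/
def Z00Stmt : Prop := ∀ (q : ℕ) (w : Plc) (χ : Gam → ZMod 2), Qok q → w.p = 2 → Sm (GK q) χ →
  IsHom (GK q) χ → (∀ v : Plc, v.p ≠ 2 → ∀ σ ∈ GK q ⊓ Ine v, χ σ = 0) →
  (∀ g ∈ Dec w, χ g = 0) → ∀ g ∈ GK q, χ g = 0

end Pool.Agent.Lib.MP_696deb_nt.B2
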