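import Pool.Agent.Lib.MP_696deb_nt.B2.B1a

set_option autoImplicit false

open scoped NNReal Classical NumberTheorySymbols
open Filter Topology Finset

namespace Pool.Agent.Lib.MP_696deb_nt.B2

variable {H : Subgroup Gam}

theorem b1b_chi (a : ℤ) (g : Gam) : chi a g = if g (rt a) = rt a then 1 else -1 := rfl

theorem b1b_rt_ne {a : ℤ} (ha : a ≠ 0) : rt a ≠ 0 := fun h => by
  have := rt_sq a
  rw [h, zero_pow two_ne_zero] at this
  exact ha (by exact_mod_cast this.symm)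

theorem chi_eq_one {a : ℤ} {g : Gam} : chi a g = 1 ↔ g (rt a) = rt a := by
  rw [b1b_chi]
  split_ifs with h <;> simp [h]

theorem chi_spec {a : ℤ} {x : Qbar} (hx : x ^ 2 = a) (g : Gam) : g x = (chi a g : ℤ) * x := by
  have h : g (rt a) = (chi a g : ℤ) * rt a := by
    rw [b1b_chi]
    split_ifs with h
    · simp [h]
    · simp [(rt_or a g).resolve_left h]
  rcases sq_eq_sq_iff_eq_or_eq_neg.1 (hx.trans (rt_sq a).symm) with e | e
  · rw [e, h]
  · rw [e, map_neg, h, mul_neg]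

theorem b1b_chi_of {a : ℤ} {x : Qbar} (hx : x ^ 2 = a) (x0 : x ≠ 0) {g : Gam} {e : ℤˣ}
    (h : g x = (e : ℤ) * x) : chi a g = e :=
  Units.ext (Int.cast_injective (α := Qbar) (mul_right_cancel₀ x0 ((chi_spec hx g).symm.trans h)))

theorem chi_mul {a b : ℤ} (ha : a ≠ 0) (hb : b ≠ 0) (g : Gam) : chi (a * b) g = chi a g * chi b g :=
  b1b_chi_of (x := rt a * rt b) (by rw [mul_pow, rt_sq, rt_sq, Int.cast_mul])
    (mul_ne_zero (b1b_rt_ne ha) (b1b_rt_ne hb)) (by
      rw [map_mul, chi_spec (rt_sq a), chi_spec (rt_sq b), Units.val_mul, Int.cast_mul]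
      ring)

theorem chi_sq (a : ℤ) (g : Gam) : chi (a ^ 2) g = 1 := by
  rw [chi_eq_one]
  rcases sq_eq_sq_iff_eq_or_eq_neg.1 ((rt_sq (a ^ 2)).trans (Int.cast_pow a 2)) with e | e <;>
    simp [e]

theorem xi_eq_zero {a : ℤ} {g : Gam} : xi a g = 0 ↔ chi a g = 1 := by
  rw [b1b_chi, xi]
  split_ifs <;> decide

theorem xi_eq_one {a : ℤ} {g : Gam} : xi a g = 1 ↔ chi a g = -1 := by
  rw [b1b_chi, xi]
  split_ifs <;> decide

theorem xi_hom (a : ℤ) (g h : Gam) : xi a (g * h) = xi a g + xi a h := by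
  have h1 : ∀ k, xi a k = if chi a k = 1 then 0 else 1 := fun k => by simp only [chi_eq_one, xi]
  rw [h1, h1, h1, map_mul]
  rcases Int.units_eq_one_or (chi a g) with e | e <;>
    rcases Int.units_eq_one_or (chi a h) with e' | e' <;> rw [e, e'] <;> decide

theorem xi_mul {a b : ℤ} (ha : a ≠ 0) (hb : b ≠ 0) (g : Gam) : xi (a * b) g = xi a g + xi b g :=
  by
  have h1 : ∀ c, xi c g = if chi c g = 1 then 0 else 1 := fun k => by simp only [chi_eq_one, xi]
  rw [h1, h1, h1, chi_mul ha hb]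
  rcases Int.units_eq_one_or (chi a g) with e | e <;>
    rcases Int.units_eq_one_or (chi b g) with e' | e' <;> rw [e, e'] <;> decide

theorem sm_chi (a : ℤ) : Sm H (chi a) :=
  (sm_apply (rt a)).comp fun y => if y = rt a then (1 : ℤˣ) else -1

theorem sm_xi (a : ℤ) : Sm H (xi a) :=
  (sm_apply (rt a)).comp fun y => if y = rt a then (0 : ZMod 2) else 1

theorem op_ker_chi (a : ℤ) : Op (chi a).ker := by
  have : (chi a).ker = MulAction.stabilizer Gam (rt a) := Subgroup.ext fun _ => chi_eq_one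
  rw [this]
  exact stabilizer_isOpen_of_isIntegral (rt a)

theorem exists_chi_ne {a : ℤ} (h : ¬ IsSquare a) : ∃ g, chi a g = -1 := by
  by_contra k
  obtain ⟨r, hr⟩ := fx_top (x := rt a) fun g _ =>
    chi_eq_one.1 ((Int.units_eq_one_or _).resolve_right fun e => k ⟨g, e⟩)
  have h1 := rt_sq a
  rw [hr] at h1
  refine h (Rat.isSquare_intCast_iff.1 ⟨r, ?_⟩)
  rw [← sq]
  exact_mod_cast h1.symm

theorem b1b_indep {G ι : Type*} [Group G] (χ : ι → G →* ℤˣ) (s : Finset ι) :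
    ∀ K : Subgroup G, (∀ t ⊆ s, t.Nonempty → ∃ g ∈ K, ∏ i ∈ t, χ i g = -1) →
      ∀ ε : ι → ℤˣ, ∃ g ∈ K, ∀ i ∈ s, χ i g = ε i := by
  induction s using Finset.induction_on with
  | empty => exact fun K _ _ => ⟨1, one_mem _, by simp⟩
  | insert j s hj ih =>
    intro K hK ε
    have h1 : ∀ t ⊆ s, t.Nonempty → ∃ g ∈ K ⊓ (χ j).ker, ∏ i ∈ t, χ i g = -1 := fun t ht hn => by
      obtain ⟨g, g0, g1⟩ := hK t (ht.trans (subset_insert _ _)) hn
      obtain ⟨h, h0, h1⟩ := hK (insert j t) (insert_subset_insert _ ht) (insert_nonempty _ _)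
      rw [prod_insert fun k => hj (ht k)] at h1
      rcases Int.units_eq_one_or (χ j g) with a | a
      · exact ⟨g, ⟨g0, a⟩, g1⟩
      rcases Int.units_eq_one_or (χ j h) with b | b
      · exact ⟨h, ⟨h0, b⟩, by rwa [b, one_mul] at h1⟩
      · refine ⟨g * h, ⟨mul_mem g0 h0, ?_⟩, ?_⟩
        · change χ j (g * h) = 1
          rw [map_mul, a, b]
          rfl
        · rw [b, neg_mul, one_mul, neg_inj] at h1
          simp only [map_mul, prod_mul_distrib, g1, h1, mul_one]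
    obtain ⟨u, u0, u1⟩ : ∃ u ∈ K, χ j u = ε j := by
      rcases Int.units_eq_one_or (ε j) with a | a
      · exact ⟨1, one_mem _, by rw [map_one, a]⟩
      · obtain ⟨g, g0, g1⟩ := hK {j} (by simp) (singleton_nonempty _)
        exact ⟨g, g0, by rwa [prod_singleton, ← a] at g1⟩
    obtain ⟨g, g0, g1⟩ := ih _ h1 fun i => ε i * (χ i u)⁻¹
    refine ⟨g * u, mul_mem g0.1 u0, fun i hi => ?_⟩
    rcases mem_insert.1 hi with rfl | hi
    · rw [map_mul, show χ i g = 1 from g0.2, one_mul, u1]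
    · rw [map_mul, g1 i hi, inv_mul_cancel_right]

theorem b1b_prod {ι : Type*} (t : Finset ι) {a : ι → ℤ} (ha : ∀ i, a i ≠ 0) (g : Gam) :
    chi (∏ i ∈ t, a i) g = ∏ i ∈ t, chi (a i) g := by
  induction t using Finset.induction_on with
  | empty => simpa using chi_sq 1 g
  | insert i t hi ih =>
    rw [prod_insert hi, prod_insert hi, chi_mul (ha i) (prod_ne_zero_iff.2 fun j _ => ha j), ih]

/-- Independence of quadratic characters: any signs on minus one and finitely many primes. -/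
theorem exists_chi_eq (s : Finset ℕ) (hs : ∀ p ∈ s, p.Prime) (e : ℤˣ) (ε : ℕ → ℤˣ) :
    ∃ g, chi (-1) g = e ∧ ∀ p ∈ s, chi p g = ε p := by
  let a : ℕ → ℤ := fun n => if n = 0 then -1 else n
  have a0 : ∀ n, a n ≠ 0 := fun n => by
    simp only [a]
    split_ifs with h
    · norm_num
    · exact_mod_cast h
  have a1 : ∀ p ∈ s, a p = p := fun p hp => if_neg (hs p hp).ne_zero
  have a2 : ∀ n ∈ insert 0 s, (n = 0 ∧ a n = -1) ∨ (n.Prime ∧ a n = n) := fun n hn =>
    (mem_insert.1 hn).imp (fun h => ⟨h, if_pos h⟩) fun h => ⟨hs n h, a1 n h⟩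
  obtain ⟨g, -, hg⟩ := b1b_indep (fun n => chi (a n)) (insert 0 s) ⊤ (fun t ht hn => by
    have h1 : Squarefree (∏ i ∈ t, a i) := by
      refine squarefree_prod_of_pairwise_isCoprime (fun i hi j hj hij => IsCoprime.isRelPrime ?_)
        fun i hi => ?_
      · rcases a2 i (ht hi) with ⟨-, e⟩ | ⟨p1, e⟩
        · rw [e]
          exact isCoprime_one_left.neg_left
        rcases a2 j (ht hj) with ⟨-, e'⟩ | ⟨p2, e'⟩
        · rw [e']
          exact isCoprime_one_right.neg_right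
        · rw [e, e', Nat.isCoprime_iff_coprime]
          exact (Nat.coprime_primes p1 p2).2 hij
      · rcases a2 i (ht hi) with ⟨-, e⟩ | ⟨p1, e⟩ <;> rw [e]
        · exact isUnit_one.neg.squarefree
        · exact (Nat.prime_iff_prime_int.1 p1).squarefree
    obtain ⟨g, hg⟩ := exists_chi_ne (a := ∏ i ∈ t, a i) (by
      rintro ⟨r, hr⟩
      have h2 : IsUnit r := h1 r (hr ▸ dvd_rfl)
      have h3 : ∀ i ∈ t, i = 0 := fun i hi => by
        rcases a2 i (ht hi) with ⟨e, -⟩ | ⟨p1, e⟩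
        · exact e
        · have h4 := isUnit_of_dvd_unit (hr ▸ dvd_prod_of_mem a hi) (h2.mul h2)
          rw [e] at h4
          exact absurd h4 (Nat.prime_iff_prime_int.1 p1).not_isUnit
      obtain ⟨i, hi⟩ := hn
      rw [eq_singleton_iff_unique_mem.2 ⟨h3 i hi ▸ hi, h3⟩, prod_singleton] at hr
      have h5 : a 0 = -1 := if_pos rfl
      nlinarith [mul_self_nonneg r])
    exact ⟨g, trivial, by rwa [b1b_prod t a0] at hg⟩) fun n => if n = 0 then e else ε n
  refine ⟨g, hg 0 (mem_insert_self _ _), fun p hp => ?_⟩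
  have := hg p (mem_insert_of_mem hp)
  simp only [a1 p hp, if_neg (hs p hp).ne_zero] at this
  exact this

theorem kum_xi {a : ℤ} (ha : a ≠ 0) : Kum 1 H a (xi a) := by
  refine ⟨rt a, b1b_rt_ne ha, rt_sq a, fun h _ => ?_⟩
  change h (rt a) = rt a * (-1) ^ ZMod.val (n := 2) (xi a h)
  rw [xi]
  split_ifs with k
  · rw [k, ZMod.val_zero, pow_zero, mul_one]
  · rw [(rt_or a h).resolve_left k, ZMod.val_one, pow_one, mul_neg_one]

theorem cc_mul_cc : cc * cc = 1 :=
  AlgEquiv.ext fun x => jC.injective (by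
    rw [AlgEquiv.mul_apply, jC_cc, jC_cc, Complex.conj_conj, AlgEquiv.one_apply])

theorem isCC_cc : IsCC cc := ⟨jC, jC_cc⟩

theorem IsCC.conj {g : Gam} (h : IsCC g) : ∃ k : Gam, g = k * cc * k⁻¹ := by
  obtain ⟨j, hj⟩ := h
  obtain ⟨σ, hσ⟩ : ∃ σ : Gam, ∀ x, jC (σ x) = j x := by
    let i : Qbar →ₐ[ℚ] ℂ := IsAlgClosed.lift
    let _ : Algebra Qbar ℂ := i.toRingHom.toAlgebra
    have : IsScalarTower ℚ Qbar ℂ := IsScalarTower.of_algebraMap_eq fun q => (i.commutes q).symm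
    exact ⟨j.toRatAlgHom.restrictNormal' Qbar, fun x =>
      AlgHom.restrictNormal_commutes j.toRatAlgHom Qbar x⟩
  have h1 : σ * g = cc * σ := AlgEquiv.ext fun x => jC.injective (by
    rw [AlgEquiv.mul_apply, AlgEquiv.mul_apply, jC_cc, hσ, hσ, hj])
  exact ⟨σ⁻¹, by rw [inv_inv, mul_assoc, ← h1, inv_mul_cancel_left]⟩

theorem chi_cc {a : ℤ} (ha : a ≠ 0) : chi a cc = if 0 < a then 1 else -1 := by
  have h1 : chi a cc = 1 ↔ (jC (rt a)).im = 0 := by
    rw [chi_eq_one, ← jC.injective.eq_iff, jC_cc, Complex.conj_eq_iff_im]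
  have h2 : jC (rt a) * jC (rt a) = a := by rw [← map_mul, ← sq, rt_sq, map_intCast]
  have h3 := congrArg Complex.re h2
  have h4 := congrArg Complex.im h2
  simp only [Complex.mul_re, Complex.mul_im, Complex.intCast_re, Complex.intCast_im] at h3 h4
  split_ifs with h
  · have h5 : (0 : ℝ) < a := by exact_mod_cast h
    refine h1.2 (by_contra fun k => ?_)
    have h6 : (jC (rt a)).re = 0 := mul_right_cancel₀ k (by linarith)
    rw [h6] at h3
    nlinarith [mul_self_nonneg (jC (rt a)).im]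
  · refine (Int.units_eq_one_or _).resolve_left fun k => ?_
    have h5 : (a : ℝ) < 0 := by exact_mod_cast lt_of_le_of_ne (not_lt.1 h) ha
    rw [h1.1 k] at h3
    nlinarith [mul_self_nonneg (jC (rt a)).re]

theorem zeta_succ_sq (m : ℕ) : zeta (m + 1) ^ 2 = zeta m := by
  cases m with
  | zero => exact neg_one_sq
  | succ m => exact (IsAlgClosed.exists_pow_nat_eq (zeta (m + 1)) two_pos).choose_spec

theorem b1b_zeta_half (m : ℕ) : zeta (m + 1) ^ 2 ^ m = -1 := by
  induction m with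
  | zero => exact pow_one _
  | succ m ih => rw [pow_succ', pow_mul, zeta_succ_sq, ih]

theorem zeta_prim (m : ℕ) : IsPrimitiveRoot (zeta m) (2 ^ m) := by
  cases m with
  | zero => exact IsPrimitiveRoot.one
  | succ m =>
    have h := orderOf_eq_prime_pow (x := zeta (m + 1)) (p := 2) (n := m)
      (by rw [b1b_zeta_half]; norm_num) (by rw [pow_succ, pow_mul, b1b_zeta_half, neg_one_sq])
    exact h ▸ IsPrimitiveRoot.orderOf _

theorem b1b_zeta_cast (m k : ℕ) : zeta m ^ ((k : ZMod (2 ^ m)).val) = zeta m ^ k := by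
  rw [ZMod.val_natCast, ← pow_eq_pow_mod k (zeta_prim m).pow_eq_one]

theorem zeta_val_add (m : ℕ) (a b : ZMod (2 ^ m)) :
    zeta m ^ (a + b).val = zeta m ^ a.val * zeta m ^ b.val := by
  rw [ZMod.val_add, ← pow_eq_pow_mod _ (zeta_prim m).pow_eq_one, pow_add]

theorem zeta_val_inj {m : ℕ} {a b : ZMod (2 ^ m)} (h : zeta m ^ a.val = zeta m ^ b.val) : a = b :=
  ZMod.val_injective _ ((zeta_prim m).pow_inj (ZMod.val_lt a) (ZMod.val_lt b) h)

theorem exists_zeta_val {m : ℕ} {x : Qbar} (h : x ^ 2 ^ m = 1) :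
    ∃ a : ZMod (2 ^ m), x = zeta m ^ a.val := by
  obtain ⟨i, -, hi⟩ := (zeta_prim m).eq_pow_of_pow_eq_one h
  exact ⟨i, by rw [b1b_zeta_cast, hi]⟩

theorem b1b_spec (m : ℕ) (g : Gam) : g (zeta m) = zeta m ^ (cy m g).val :=
  cyclotomicCharacter.spec 2 g.toRingEquiv (zeta m) (zeta_prim m).pow_eq_one

theorem b1b_cy_eq {m k : ℕ} {g : Gam} (h : g (zeta m) = zeta m ^ k) : cy m g = k :=
  zeta_val_inj (by rw [← b1b_spec, b1b_zeta_cast, h])

theorem smul_zeta_val (m : ℕ) (g : Gam) (a : ZMod (2 ^ m)) :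
    g (zeta m ^ a.val) = zeta m ^ (cy m g * a).val := by
  rw [map_pow, b1b_spec, ZMod.val_mul, ← pow_eq_pow_mod _ (zeta_prim m).pow_eq_one, pow_mul]

theorem cyc_mul (g h : Gam) : cyc (g * h) = cyc g * cyc h :=
  congrArg Units.val (map_mul (cyclotomicCharacter Qbar 2) g.toRingEquiv h.toRingEquiv)

theorem cyc_one : cyc 1 = 1 := congrArg Units.val (map_one (cyclotomicCharacter Qbar 2))

theorem cyc_unit (g : Gam) : IsUnit (cyc g) := Units.isUnit _

theorem continuous_cyc : Continuous cyc :=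
  Units.continuous_val.comp (cyclotomicCharacter.continuous 2 ℚ Qbar)

theorem sm_cy (m : ℕ) : Sm H (cy m) := by
  obtain ⟨U, h1, h2, h3⟩ := sm_apply (H := H) (zeta m)
  exact ⟨U, h1, h2, fun g hg h hh k =>
    zeta_val_inj (by rw [← b1b_spec, ← b1b_spec]; exact h3 g hg h hh k)⟩

theorem cy_one_eq (g : Gam) : cy 1 g = 1 :=
  (b1b_cy_eq (k := 1) (by
    change g (-1) = (-1) ^ 1
    rw [map_neg, map_one, pow_one])).trans Nat.cast_one

theorem cyc_cc : cyc cc = -1 := by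
  refine PadicInt.ext_of_toZModPow.1 fun m => ?_
  have h1 : cc (zeta m) * zeta m = 1 := jC.injective (by
    have h2 : ‖jC (zeta m)‖ = 1 := Complex.norm_eq_one_of_pow_eq_one (n := 2 ^ m)
      (by rw [← map_pow, (zeta_prim m).pow_eq_one, map_one]) (by positivity)
    rw [map_mul, jC_cc, map_one, ← Complex.inv_eq_conj h2]
    exact inv_mul_cancel₀ (norm_ne_zero_iff.1 (by rw [h2]; exact one_ne_zero)))
  have h2 : cy m cc + (1 : ℕ) = 0 := zeta_val_inj (by
    rw [zeta_val_add, ← b1b_spec, b1b_zeta_cast, pow_one, h1, ZMod.val_zero, pow_zero])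
  rw [map_neg, map_one]
  exact eq_neg_of_add_eq_zero_left (by rwa [Nat.cast_one] at h2)

theorem cy_two (g : Gam) : cy 2 g = ((chi (-1) g : ℤ) : ZMod (2 ^ 2)) := by
  have h1 : zeta 2 ^ 2 = -1 := zeta_succ_sq 1
  have h2 := chi_spec (a := -1) (x := zeta 2) (by rw [h1]; norm_num) g
  rcases Int.units_eq_one_or (chi (-1) g) with e | e <;> rw [e] at h2 ⊢
  · exact b1b_cy_eq (k := 1) (by rw [h2]; norm_num)
  · exact b1b_cy_eq (k := 3) (by
      rw [h2]
      push_cast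
      linear_combination (-zeta 2) * h1)

theorem chi_two_iff (g : Gam) : chi 2 g = 1 ↔ cy 3 g = 1 ∨ cy 3 g = -1 := by
  have h1 : zeta 3 ^ 4 = -1 := b1b_zeta_half 2
  have h2 : (zeta 3 - zeta 3 ^ 3) ^ 2 = ((2 : ℤ) : Qbar) := by
    push_cast
    linear_combination (zeta 3 ^ 2 - 2) * h1
  have h3 : zeta 3 - zeta 3 ^ 3 ≠ 0 := fun h => by
    rw [h] at h2
    norm_num at h2
  have h4 : IsUnit (cy 3 g) := (cyc_unit g).map _
  have h5 := b1b_spec 3 g
  have h6 : ∀ u : ZMod (2 ^ 3), IsUnit u → (u.val = 1 ∧ u = 1) ∨ (u.val = 7 ∧ u = -1) ∨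
      ((u.val = 3 ∨ u.val = 5) ∧ ¬ (u = 1 ∨ u = -1)) := by decide
  rcases h6 _ h4 with ⟨a, b⟩ | ⟨a, b⟩ | ⟨a, b⟩
  · refine iff_of_true (b1b_chi_of h2 h3 ?_) (Or.inl b)
    rw [map_sub, map_pow, h5, a]
    simp
  · refine iff_of_true (b1b_chi_of h2 h3 ?_) (Or.inr b)
    rw [map_sub, map_pow, h5, a]
    push_cast
    linear_combination (zeta 3 ^ 3 - zeta 3 ^ 17 + zeta 3 ^ 13 - zeta 3 ^ 9 + zeta 3 ^ 5 -
      zeta 3) * h1
  · have h7 : chi 2 g = -1 := b1b_chi_of h2 h3 (by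
      rw [map_sub, map_pow, h5]
      rcases a with a | a <;> rw [a] <;> push_cast
      · linear_combination (zeta 3 - zeta 3 ^ 5) * h1
      · linear_combination (zeta 3 - zeta 3 ^ 11 + zeta 3 ^ 7 - zeta 3 ^ 3) * h1)
    exact iff_of_false (by rw [h7]; decide) b

end Pool.Agent.Lib.MP_696deb_nt.B2
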