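import Pool.Agent.Lib.MP_696deb_nt.B2.B2b

set_option autoImplicit false

open scoped NNReal Classical NumberTheorySymbols
open Filter Topology Finset

namespace Pool.Agent.Lib.MP_696deb_nt.B2

variable {H : Subgroup Gam} {w v : Plc} {g φ : Gam}

theorem b2c_neg {a : ℤ} (h : chi a g ≠ 1) : g (rt a) = -rt a :=
  (rt_or a g).resolve_left (mt chi_eq_one.2 h)

theorem b2c_rt {a : ℤ} (h : ¬ (w.p : ℤ) ∣ a) : w.V (rt a) = 1 := by
  have h1 : w.V (rt a) ^ 2 = 1 := by rw [← map_pow, rt_sq, w.V_int_eq_one.2 h]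
  exact (pow_eq_one_iff_of_nonneg zero_le two_ne_zero).1 h1

theorem b2c_lt {a : ℤ} : w.V a < 1 ↔ (w.p : ℤ) ∣ a := by
  rw [← not_iff_not, ← w.V_int_eq_one, (w.V_int_le a).lt_iff_ne, not_not]

theorem chi_ine {a : ℤ} (h : ¬ (w.p : ℤ) ∣ 2 * a) (hg : g ∈ Ine w) : chi a g = 1 := by
  by_contra hc
  have h1 := b2c_rt (mt (·.mul_left 2) h)
  have h2 := hg.2 _ h1.le
  have h3 : -rt a - rt a = ((-2 : ℤ) : Qbar) * rt a := by push_cast; ring
  rw [b2c_neg hc, h3, map_mul, h1, mul_one, b2c_lt, dvd_neg] at h2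
  exact h (h2.mul_right a)

/-- The number `(1 + rt a) / 2`. -/
theorem b2c_half {a m : ℤ} (h : a = 4 * m + 1) : ∃ y : Qbar, y * (y - 1) = m ∧
    ∀ g : Gam, (chi a g = 1 → g y = y) ∧ (chi a g ≠ 1 → g y = 1 - y ∧ g y - y = -rt a) := by
  refine ⟨(1 + rt a) / 2, ?_, fun g => ⟨fun hg => ?_, fun hg => ?_⟩⟩
  · have h1 := rt_sq a
    rw [show (a : Qbar) = 4 * m + 1 by rw [h]; push_cast; ring] at h1
    linear_combination h1 / 4
  · rw [map_div₀, map_add, map_one, map_ofNat, chi_eq_one.1 hg]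
  · rw [map_div₀, map_add, map_one, map_ofNat, b2c_neg hg]
    constructor <;> ring

theorem b2c_half_le {y : Qbar} {m : ℤ} (h : y * (y - 1) = m) : w.V y ≤ 1 := by
  by_contra hc
  rw [not_le] at hc
  have h1 := w.V_int_le m
  rw [← h, map_mul, w.V.map_sub_eq_of_lt_left (by rwa [map_one])] at h1
  exact absurd (one_lt_mul'' hc hc) h1.not_gt

theorem chi_ine_two {a : ℤ} (hw : w.p = 2) (h : a % 4 = 1) (hg : g ∈ Ine w) : chi a g = 1 := by
  by_contra hc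
  obtain ⟨y, h1, h2⟩ := b2c_half (a := a) (m := a / 4) (by omega)
  have h3 := hg.2 y (b2c_half_le h1)
  rw [((h2 g).2 hc).2, w.V.map_neg, b2c_rt (by rw [hw]; push_cast; omega)] at h3
  exact lt_irrefl _ h3

theorem chi_dec_two {a : ℤ} (hw : w.p = 2) (h : a % 8 = 1) (hg : g ∈ Dec w) : chi a g = 1 := by
  by_contra hc
  obtain ⟨y, h1, h2⟩ := b2c_half (a := a) (m := a / 4) (by omega)
  have h3 := mem_Dec.1 hg y
  have h4 : w.V ((a / 4 : ℤ) : Qbar) < 1 := b2c_lt.2 (by rw [hw]; push_cast; omega)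
  rw [((h2 g).2 hc).1] at h3
  rw [← h1, map_mul, w.V.map_sub_swap, h3, ← sq, pow_lt_one_iff_of_nonneg zero_le two_ne_zero] at h4
  exact h4.ne (h3.symm.trans (w.V.map_one_sub_of_lt h4))

theorem chi_frob {a : ℤ} (h : ¬ (w.p : ℤ) ∣ 2 * a) (hφ : IsFrob w w.p φ) :
    (chi a φ : ℤ) = J(a | w.p) := by
  have : Fact w.p.Prime := ⟨w.prime⟩
  have ha : ¬ (w.p : ℤ) ∣ a := mt (·.mul_left 2) h
  have h2 : ¬ (w.p : ℤ) ∣ 2 := mt (·.mul_right a) h
  have hp : w.p = 2 * (w.p / 2) + 1 := by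
    have := w.prime.eq_two_or_odd.resolve_left fun e => h2 (by simp [e])
    omega
  have h1 := b2c_rt ha
  have h3 := hφ.2 _ h1.le
  have h4 : (chi a φ : ℤ) * rt a - rt a ^ w.p = ((chi a φ - a ^ (w.p / 2) : ℤ) : Qbar) * rt a := by
    conv_lhs => rw [hp, pow_succ, pow_mul, rt_sq]
    push_cast
    ring
  rw [chi_spec (rt_sq a), h4, map_mul, h1, mul_one, b2c_lt,
    ← ZMod.intCast_zmod_eq_zero_iff_dvd, Int.cast_sub, Int.cast_pow, ← legendreSym.eq_pow,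
    ← Int.cast_sub, ZMod.intCast_zmod_eq_zero_iff_dvd] at h3
  rw [← jacobiSym.legendreSym.to_jacobiSym]
  rcases legendreSym.eq_one_or_neg_one w.p (mt (ZMod.intCast_zmod_eq_zero_iff_dvd a _).1 ha) with
    e | e <;> rcases Int.units_eq_one_or (chi a φ) with e' | e' <;> rw [e, e'] at h3 ⊢
  · rfl
  · exact (h2 (dvd_neg.1 h3)).elim
  · exact (h2 h3).elim
  · rfl

theorem chi_frob_two (_hw : w.p = 2) (hφ : IsFrob w 2 φ) : chi 5 φ = -1 := by
  refine (Int.units_eq_one_or _).resolve_left fun hc => ?_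
  obtain ⟨y, h1, h2⟩ := b2c_half (a := 5) (m := 1) rfl
  have h3 := hφ.2 y (b2c_half_le h1)
  rw [(h2 φ).1 hc, w.V.map_sub_swap, show y ^ 2 - y = 1 by linear_combination h1, map_one] at h3
  exact lt_irrefl _ h3

theorem b2c_dec {a : ℤ} (h : ∀ σ ∈ Ine w, chi a σ = 1) (hφ : IsFrob w w.p φ) (h1 : chi a φ = 1)
    (hg : g ∈ Dec w) : chi a g = 1 := by
  obtain ⟨n, σ, hσ, h2, -⟩ := dec_gen hφ hg (op_ker_chi a)
  simpa [MonoidHom.mem_ker, h σ hσ, h1] using h2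

theorem chi_dec {a : ℤ} (h : ¬ (w.p : ℤ) ∣ 2 * a) (ha : J(a | w.p) = 1) (hg : g ∈ Dec w) :
    chi a g = 1 := by
  obtain ⟨φ, hφ⟩ := exists_frob w
  exact b2c_dec (fun _ => chi_ine h) hφ (Units.ext ((chi_frob h hφ).trans ha)) hg

theorem b2c_par (r : ℚ) : w.V r ^ 2 ≠ (w.p : ℝ≥0)⁻¹ := by
  have hp : (1 : ℝ≥0) < w.p := by exact_mod_cast w.prime.one_lt
  intro h
  by_cases hr : r = 0
  · rw [hr, Rat.cast_zero, map_zero, zero_pow two_ne_zero, eq_comm, inv_eq_zero] at h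
    exact (zero_lt_one.trans hp).ne' h
  rw [w.V_rat hr, inv_pow, inv_inj, ← zpow_natCast, ← zpow_mul] at h
  have := zpow_right_injective₀ (zero_lt_one.trans hp) hp.ne' (h.trans (zpow_one _).symm)
  push_cast at this
  omega

theorem b2c_rat (h : v.p = w.p) (r : ℚ) : v.V r = w.V r := by
  by_cases hr : r = 0
  · rw [hr, Rat.cast_zero, map_zero, map_zero]
  · rw [v.V_rat hr, w.V_rat hr, h]

/-- A ramified prime does not split. -/
theorem b2c_ram {d : ℤ} (c : ℤ) (h : ∀ v : Plc, v.p = w.p → v.V (c + rt d) ^ 2 = (w.p : ℝ≥0)⁻¹) :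
    ¬ ∀ g ∈ Dec w, chi d g = 1 := by
  intro hD
  by_cases hg : ∀ g, chi d g = 1
  · obtain ⟨r, hr⟩ := fx_top (x := c + rt d) fun g _ => by
      rw [map_add, map_intCast, chi_eq_one.1 (hg g)]
    exact b2c_par r (hr ▸ h w rfl)
  obtain ⟨g, hg⟩ := not_forall.1 hg
  have hn := b2c_neg hg
  have h0 : rt d ≠ 0 := fun e => hg (chi_eq_one.2 (by rw [e, map_zero]))
  have key : ∀ x, Fx (chi d).ker x → (g • w).V x = w.V x := by
    intro x hx
    have h1 : ∀ k : Gam, (k x = x ∧ k (g x) = g x ∧ k (rt d) = rt d) ∨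
        (k x = g x ∧ k (g x) = x ∧ k (rt d) = -rt d) := fun k => by
      have e := (Int.units_eq_one_or _).resolve_left hg
      rcases Int.units_eq_one_or (chi d k) with e' | e'
      · refine Or.inl ⟨hx k e', ?_, chi_eq_one.1 e'⟩
        have := congrArg g (hx (g⁻¹ * k * g) (by simp [MonoidHom.mem_ker, e, e']))
        simpa using this
      · refine Or.inr ⟨?_, hx (k * g) (by simp [MonoidHom.mem_ker, e, e']),
          b2c_neg (by simp [e'])⟩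
        have := congrArg g (hx (g⁻¹ * k) (by simp [MonoidHom.mem_ker, e, e']))
        simpa using this
    obtain ⟨a, ha⟩ := fx_top (x := x + g x) fun k _ => by
      rcases h1 k with ⟨e1, e2, -⟩ | ⟨e1, e2, -⟩
      · rw [map_add, e1, e2]
      · rw [map_add, e1, e2, add_comm]
    obtain ⟨b, hb⟩ := fx_top (x := (x - g x) / rt d) fun k _ => by
      rcases h1 k with ⟨e1, e2, e3⟩ | ⟨e1, e2, e3⟩
      · rw [map_div₀, map_sub, e1, e2, e3]
      · rw [map_div₀, map_sub, e1, e2, e3, div_neg, ← neg_div, neg_sub]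
    rw [div_eq_iff h0] at hb
    by_cases hb0 : b = 0
    · rw [show x = (a / 2 : ℚ) by
        rw [hb0] at hb; push_cast at hb ⊢; linear_combination ha / 2 + hb / 2]
      exact b2c_rat (smul_p g w) _
    have hb1 : (b : Qbar) ≠ 0 := by exact_mod_cast hb0
    have h2 : x = (b / 2 : ℚ) * ((a / b - c : ℚ) + (c + rt d)) := by
      push_cast
      field_simp
      linear_combination ha + hb
    have h3 : ∀ v : Plc, v.p = w.p → v.V x = w.V (b / 2 : ℚ) *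
        max (w.V (a / b - c : ℚ)) (w.V (c + rt d)) := fun v hv => by
      rw [h2, map_mul, v.V.map_add_of_distinct_val fun e => b2c_par (w := v) _
        (by rw [e, h v hv, hv]), b2c_rat hv, b2c_rat hv,
        (pow_left_inj₀ zero_le zero_le two_ne_zero).1 ((h v hv).trans (h w rfl).symm)]
    rw [h3 _ (smul_p g w), h3 w rfl]
  obtain ⟨k, hk, e⟩ := plc_conj_of (w := g • w) (v := w) (op_ker_chi d).closed fun x hx => by
    rw [key x hx]
  have := hD (k * g) (by rwa [← mul_smul] at e)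
  rw [map_mul, show chi d k = 1 from hk, one_mul] at this
  exact hg this

theorem b2c_ram0 {d : ℤ} (u : ℤ) (hu : ¬ (w.p : ℤ) ∣ u) (hd : d = w.p * u) :
    ¬ ∀ g ∈ Dec w, chi d g = 1 :=
  b2c_ram 0 fun v hv => by
    rw [Int.cast_zero, zero_add, ← map_pow, rt_sq, hd, ← hv, Int.cast_mul, map_mul, Int.cast_natCast,
      v.hV, v.V_int_eq_one.2 (hv ▸ hu), mul_one]

theorem b2c_ram1 (hw : w.p = 2) {d : ℤ} (hd : d % 4 = 3) : ¬ ∀ g ∈ Dec w, chi d g = 1 :=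
  b2c_ram 1 fun v hv => by
    obtain ⟨m, hm, hm'⟩ : ∃ m : ℤ, d = 2 * m + 1 ∧ ¬ (2 : ℤ) ∣ m := ⟨d / 2, by omega, by omega⟩
    have h2 : v.V 2 = 2⁻¹ := by simpa [hv, hw] using v.hV
    have h1 := rt_sq d
    have h3 : v.V (2 * m) = 2⁻¹ := by
      rw [map_mul, h2, v.V_int_eq_one.2 (by rwa [hv, hw]), mul_one]
    rw [show (d : Qbar) = 2 * m + 1 by rw [hm]; push_cast; ring] at h1
    rw [Int.cast_one, hw, Nat.cast_ofNat]
    generalize hy : 1 + rt d = y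
    have h4 : y * (y - 2) = 2 * m := by rw [← hy]; linear_combination h1
    have h5 : (2⁻¹ : ℝ≥0) < 1 := by norm_num
    by_cases h : v.V y < 1
    · rw [← map_pow, show y ^ 2 = 2 * m + 2 * y by linear_combination h4,
        v.V.map_add_eq_of_lt_left, h3]
      rw [h3, map_mul, h2]
      exact mul_lt_of_lt_one_right (by norm_num) h
    · rw [not_lt] at h
      rw [← h4, map_mul, v.V.map_sub_eq_of_lt_left (h2 ▸ h5.trans_le h)] at h3
      exact absurd (one_le_mul h h) (h3 ▸ h5.not_ge)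

theorem b2c_key {d u : ℤ} (hd : d ≠ 0) (hu : u ≠ 0) (h1 : ∀ σ ∈ Ine w, chi u σ = 1)
    (h2 : ∀ φ, IsFrob w w.p φ → chi u φ = -1) (h3 : ¬ ∀ g ∈ Dec w, chi d g = 1)
    (h4 : ¬ ∀ g ∈ Dec w, chi (d * u) g = 1) : ∃ σ ∈ Ine w, chi d σ = -1 := by
  by_contra hc
  have h : ∀ σ ∈ Ine w, chi d σ = 1 := fun σ hσ =>
    (Int.units_eq_one_or _).resolve_right fun e => hc ⟨σ, hσ, e⟩
  obtain ⟨φ, hφ⟩ := exists_frob w
  rcases Int.units_eq_one_or (chi d φ) with e | e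
  · exact h3 fun g => b2c_dec h hφ e
  · exact h4 fun g => b2c_dec (fun σ hσ => by rw [chi_mul hd hu, h σ hσ, h1 σ hσ, mul_one]) hφ
      (by rw [chi_mul hd hu, e, h2 φ hφ]; rfl)

theorem exists_gen (hw : w.p ≠ 2) : ∃ τ, Gen w τ := by
  have : Fact w.p.Prime := ⟨w.prime⟩
  have hp := Nat.prime_iff_prime_int.1 w.prime
  obtain ⟨a, ha⟩ := FiniteField.exists_nonsquare (F := ZMod w.p) (by rwa [ZMod.ringChar_zmod_n])
  obtain ⟨u, rfl⟩ := ZMod.intCast_surjective a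
  have hu : ¬ (w.p : ℤ) ∣ u := fun e =>
    ha (by rw [(ZMod.intCast_zmod_eq_zero_iff_dvd u _).2 e]; exact IsSquare.zero)
  have h2 : ¬ (w.p : ℤ) ∣ 2 * u := fun e => (hp.dvd_or_dvd e).elim
    (fun e => hw ((Nat.prime_dvd_prime_iff_eq w.prime Nat.prime_two).1 (by exact_mod_cast e))) hu
  refine b2c_key hp.ne_zero (by rintro rfl; exact hu (dvd_zero _)) (fun _ => chi_ine h2)
    (fun φ hφ => Units.ext ?_) (b2c_ram0 1 hp.not_dvd_one (mul_one _).symm) (b2c_ram0 u hu rfl)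
  rw [chi_frob h2 hφ, ← jacobiSym.legendreSym.to_jacobiSym, (legendreSym.eq_neg_one_iff _).2 ha]
  rfl

theorem b2c_signs : ∀ b₁ a₂ a₃ b₃ e e' : ℤˣ, a₃ * b₃ = -1 → ∃ i j k : Fin 2,
    (-1) ^ i.1 * a₂ ^ j.1 * a₃ ^ k.1 = e ∧ b₁ ^ i.1 * (-1) ^ j.1 * b₃ ^ k.1 = e' := by
  decide

/-- The characters of minus one and two are independent on inertia at two. -/
theorem exists_ine_two (hw : w.p = 2) (e e' : ℤˣ) :
    ∃ σ ∈ Ine w, chi (-1) σ = e ∧ chi 2 σ = e' := by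
  have key : ∀ d : ℤ, d ≠ 0 → (¬ ∀ g ∈ Dec w, chi d g = 1) → (¬ ∀ g ∈ Dec w, chi (d * 5) g = 1) →
      ∃ σ ∈ Ine w, chi d σ = -1 := fun d hd =>
    b2c_key hd (by norm_num) (fun _ => chi_ine_two hw rfl) fun φ hφ => chi_frob_two hw (hw ▸ hφ)
  have h0 : ∀ d : ℤ, d % 4 = 2 → ¬ ∀ g ∈ Dec w, chi d g = 1 := fun d hd =>
    b2c_ram0 (d / 2) (by rw [hw]; push_cast; omega) (by rw [hw]; push_cast; omega)
  obtain ⟨σ₁, h1, k1⟩ := key (-1) (by norm_num) (b2c_ram1 hw rfl) (b2c_ram1 hw rfl)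
  obtain ⟨σ₂, h2, k2⟩ := key 2 (by norm_num) (h0 _ rfl) (h0 _ rfl)
  obtain ⟨σ₃, h3, k3⟩ := key (-1 * 2) (by norm_num) (h0 _ rfl) (h0 _ rfl)
  rw [chi_mul (by norm_num) (by norm_num)] at k3
  obtain ⟨i, j, k, e1, e2⟩ := b2c_signs (chi 2 σ₁) (chi (-1) σ₂) _ _ e e' k3
  refine ⟨σ₁ ^ i.1 * σ₂ ^ j.1 * σ₃ ^ k.1,
    mul_mem (mul_mem (pow_mem h1 _) (pow_mem h2 _)) (pow_mem h3 _), ?_, ?_⟩
  · rw [map_mul, map_mul, map_pow, map_pow, map_pow, k1, e1]
  · rw [map_mul, map_mul, map_pow, map_pow, map_pow, k2, e2]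

theorem b2c_cyc {n : ℕ} (hw : w.p ≠ 2) (hφ : IsFrob w n φ) : cyc φ = n := by
  refine PadicInt.ext_of_toZModPow.1 fun m => ?_
  have hz := zeta_prim m
  have h0 : (2 : ℕ) ^ m ≠ 0 := by positivity
  have h1 := w.V_root_of_unity h0 hz.pow_eq_one
  have h2 : zeta m ^ n ≠ 0 := pow_ne_zero _ (hz.ne_zero h0)
  have h3 : φ (zeta m) / zeta m ^ n = 1 := by
    refine w.eq_one_of_root (n := 2 ^ m) (fun e => hw ((Nat.prime_dvd_prime_iff_eq w.prime
      Nat.prime_two).1 (w.prime.dvd_of_dvd_pow e))) ?_ ?_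
    · rw [div_pow, ← map_pow, pow_right_comm, hz.pow_eq_one, map_one, one_pow, div_one]
    · rw [div_sub_one h2, map_div₀, map_pow, h1, one_pow, div_one]
      exact hφ.2 _ h1.le
  have h4 : ∀ k : ℕ, zeta m ^ (k : ZMod (2 ^ m)).val = zeta m ^ k := fun k => by
    rw [ZMod.val_natCast, ← pow_eq_pow_mod _ hz.pow_eq_one]
  have h5 := smul_zeta_val m φ (1 : ℕ)
  rw [h4, pow_one, Nat.cast_one, mul_one, (div_eq_one_iff_eq h2).1 h3, ← h4] at h5
  rw [map_natCast]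
  exact (zeta_val_inj h5).symm

theorem cyc_ine (hw : w.p ≠ 2) (hg : g ∈ Ine w) : cyc g = 1 := by
  simpa using b2c_cyc hw (isFrob_one.2 hg)

theorem cyc_frob {n : ℕ} (hw : w.p ≠ 2) (hφ : IsFrob w n φ) : cyc φ = n := b2c_cyc hw hφ

end Pool.Agent.Lib.MP_696deb_nt.B2
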