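import Pool.Agent.Lib.MP_696deb_nt.B2.B1b

set_option autoImplicit false

open scoped NNReal Classical NumberTheorySymbols
open Filter Topology Finset

namespace Pool.Agent.Lib.MP_696deb_nt.B2

variable {H D : Subgroup Gam}

theorem b3b_pow (m : ℕ) (a : ZMod (2 ^ m)) : (zeta m ^ a.val) ^ 2 ^ m = 1 := by
  rw [← pow_mul, mul_comm, pow_mul, (zeta_prim m).pow_eq_one, one_pow]

theorem b3b_ne (m : ℕ) (a : ZMod (2 ^ m)) : zeta m ^ a.val ≠ 0 := fun h => by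
  have h1 := b3b_pow m a
  rw [h, zero_pow (by positivity)] at h1
  exact zero_ne_one h1

theorem b3b_cy (m : ℕ) (g k : Gam) : cy m (g * k) = cy m g * cy m k := by
  rw [cy, cyc_mul, map_mul, cy, cy]

/-- The theorem 90 of Hilbert. -/
theorem h90 (hH : IsClosed (H : Set Gam)) {f : Gam → Qbar} (hs : Sm H f) (h0 : ∀ g ∈ H, f g ≠ 0)
    (hf : ∀ g ∈ H, ∀ k ∈ H, f (g * k) = f g * g (f k)) :
    ∃ b : Qbar, b ≠ 0 ∧ ∀ g ∈ H, f g * b = g b := by
  obtain ⟨U, hU, hN, hs⟩ := hs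
  have hc : IsClosed ((H ⊓ U : Subgroup Gam) : Set Gam) := hH.inter hU.closed
  have hi : (U.subgroupOf H).FiniteIndex :=
    have : U.FiniteIndex := ⟨hU.index_ne_zero⟩
    inferInstance
  let _ : Fintype (H ⧸ U.subgroupOf H) := Fintype.ofFinite _
  let M : Submonoid Qbar :=
    { carrier := {x | Fx (H ⊓ U) x}
      mul_mem' := fun {x y} hx hy g hg => by rw [map_mul, hx g hg, hy g hg]
      one_mem' := fun g _ => map_one g }
  let χ : H ⧸ U.subgroupOf H → M →* Qbar := fun q =>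
    MonoidHom.comp ((q.out : H) : Gam) M.subtype
  have hχ : ∀ q (x : M), χ q x = ((q.out : H) : Gam) x := fun _ _ => rfl
  have hinj : Function.Injective χ := fun q q' e => by
    rw [← QuotientGroup.out_eq' q, ← QuotientGroup.out_eq' q', QuotientGroup.eq]
    refine (mem_of_fx hc (g := (q.out⁻¹ * q'.out : H)) fun x hx => ?_).2
    have h1 : ((q.out : H) : Gam) x = ((q'.out : H) : Gam) x :=
      DFunLike.congr_fun e (⟨x, hx⟩ : M)
    change ((q.out : H) : Gam).symm (((q'.out : H) : Gam) x) = x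
    rw [← h1, AlgEquiv.symm_apply_apply]
  have hli := Fintype.linearIndependent_iff.1 ((linearIndependent_monoidHom M Qbar).comp χ hinj)
    fun q => f (q.out : H)
  obtain ⟨x, hx⟩ : ∃ x : M, ∑ q : H ⧸ U.subgroupOf H, f (q.out : H) * ((q.out : H) : Gam) x ≠ 0 := by
    by_contra h
    push Not at h
    refine h0 _ (Quotient.out (1 : H ⧸ U.subgroupOf H)).2 (hli (funext fun x => ?_) 1)
    rw [Finset.sum_apply]
    exact h x
  have key : ∀ g k : H, g⁻¹ * k ∈ U.subgroupOf H →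
      f g * (g : Gam) x = f k * (k : Gam) x := fun g k h => by
    have h1 : ((g⁻¹ * k : H) : Gam) x = x := x.2 _ ⟨(g⁻¹ * k).2, h⟩
    have h2 : (k : Gam) x = (g : Gam) (((g⁻¹ * k : H) : Gam) x) :=
      ((g : Gam).apply_symm_apply _).symm
    rw [hs g g.2 k k.2 h, h2, h1]
  refine ⟨_, inv_ne_zero hx, fun g hg => ?_⟩
  have h1 : f g * g (∑ q : H ⧸ U.subgroupOf H, f (q.out : H) * ((q.out : H) : Gam) x) =
      ∑ q : H ⧸ U.subgroupOf H, f (q.out : H) * ((q.out : H) : Gam) x := by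
    rw [map_sum, Finset.mul_sum, ← Equiv.sum_comp (MulAction.toPerm (⟨g, hg⟩ : H))
      fun q : H ⧸ U.subgroupOf H => f (q.out : H) * ((q.out : H) : Gam) x]
    refine Finset.sum_congr rfl fun q _ => ?_
    rw [map_mul, ← mul_assoc, ← hf g hg _ q.out.2]
    refine key (⟨g, hg⟩ * q.out) _ (QuotientGroup.eq.1 ?_)
    rw [QuotientGroup.out_eq', MulAction.toPerm_apply]
    exact MulAction.Quotient.coe_smul_out _ (⟨g, hg⟩ : H) q
  rw [map_inv₀, mul_inv_eq_iff_eq_mul₀ hx, eq_inv_mul_iff_mul_eq₀ ((map_ne_zero g).2 hx), mul_comm]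
  exact h1

theorem exists_kum (m : ℕ) {a : Qbar} (h0 : a ≠ 0) (ha : Fx H a) : ∃ κ, Kum m H a κ := by
  obtain ⟨r, hr⟩ := IsAlgClosed.exists_pow_nat_eq a (n := 2 ^ m) (by positivity)
  have h1 : r ≠ 0 := fun h => h0 (by rw [← hr, h, zero_pow (by positivity)])
  have h2 : ∀ h ∈ H, ∃ x : ZMod (2 ^ m), h r = r * zeta m ^ x.val := fun h hh => by
    obtain ⟨x, hx⟩ := exists_zeta_val (m := m) (x := h r / r)
      (by rw [div_pow, ← map_pow, hr, ha h hh, div_self h0])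
    exact ⟨x, by rw [← hx, mul_div_cancel₀ _ h1]⟩
  choose! κ hκ using h2
  exact ⟨κ, r, h1, hr, hκ⟩

theorem Kum.fx {m : ℕ} {a : Qbar} {κ : Gam → ZMod (2 ^ m)} (h : Kum m H a κ) : a ≠ 0 ∧ Fx H a := by
  obtain ⟨r, h0, rfl, h1⟩ := h
  exact ⟨pow_ne_zero _ h0, fun g hg => by rw [map_pow, h1 g hg, mul_pow, b3b_pow, mul_one]⟩

theorem Kum.mono {m : ℕ} {a : Qbar} {κ : Gam → ZMod (2 ^ m)} (h : Kum m H a κ) (k : D ≤ H) :
    Kum m D a κ := by
  obtain ⟨r, h0, h1, h2⟩ := h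
  exact ⟨r, h0, h1, fun g hg => h2 g (k hg)⟩

theorem Kum.sm {m : ℕ} {a : Qbar} {κ : Gam → ZMod (2 ^ m)} (h : Kum m H a κ) : Sm H κ := by
  obtain ⟨r, h0, -, h1⟩ := h
  obtain ⟨U, hU, hN, h2⟩ := sm_apply (H := H) r
  refine ⟨U, hU, hN, fun g hg k hk h => zeta_val_inj (mul_left_cancel₀ h0 ?_)⟩
  rw [← h1 g hg, ← h1 k hk]
  exact h2 g hg k hk h

theorem Kum.coc {m : ℕ} {a : Qbar} {κ : Gam → ZMod (2 ^ m)} (h : Kum m H a κ) :
    ∀ g ∈ H, ∀ k ∈ H, κ (g * k) = κ g + cy m g * κ k := by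
  obtain ⟨r, h0, -, h1⟩ := h
  refine fun g hg k hk => zeta_val_inj (mul_left_cancel₀ h0 ?_)
  rw [← h1 _ (mul_mem hg hk), AlgEquiv.mul_apply, h1 k hk, map_mul, h1 g hg, smul_zeta_val,
    zeta_val_add, mul_assoc]

theorem Kum.mul {m : ℕ} {a b : Qbar} {κ κ' : Gam → ZMod (2 ^ m)} (h : Kum m H a κ)
    (h' : Kum m H b κ') : Kum m H (a * b) (κ + κ') := by
  obtain ⟨r, h0, rfl, h1⟩ := h
  obtain ⟨s, k0, rfl, k1⟩ := h'
  refine ⟨r * s, mul_ne_zero h0 k0, mul_pow _ _ _, fun g hg => ?_⟩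
  rw [map_mul, h1 g hg, k1 g hg, Pi.add_apply, zeta_val_add]
  ring

theorem Kum.sub {m : ℕ} {a : Qbar} {κ κ' : Gam → ZMod (2 ^ m)} (h : Kum m H a κ)
    (h' : Kum m H a κ') : ∃ x, ∀ g ∈ H, κ g - κ' g = (cy m g - 1) * x := by
  obtain ⟨r, h0, h2, h1⟩ := h
  obtain ⟨s, k0, k2, k1⟩ := h'
  obtain ⟨x, hx⟩ := exists_zeta_val (m := m) (x := r / s)
    (by rw [div_pow, h2, ← k2, div_self (pow_ne_zero _ k0)])
  rw [div_eq_iff k0, mul_comm] at hx
  refine ⟨x, fun g hg => ?_⟩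
  have h3 : x + κ g = κ' g + cy m g * x := by
    refine zeta_val_inj (mul_left_cancel₀ k0 ?_)
    rw [zeta_val_add, zeta_val_add, ← mul_assoc, ← mul_assoc, ← hx, ← h1 g hg, ← k1 g hg,
      ← smul_zeta_val, ← map_mul, ← hx]
  linear_combination h3

theorem Kum.pow_iff {m : ℕ} {a : Qbar} {κ : Gam → ZMod (2 ^ m)} (h : Kum m H a κ) :
    (∃ r, Fx H r ∧ r ^ 2 ^ m = a) ↔ ∃ x, ∀ g ∈ H, κ g = (cy m g - 1) * x := by
  constructor
  · rintro ⟨s, h1, h2⟩
    have h3 : s ≠ 0 := fun h0 => h.fx.1 (by rw [← h2, h0, zero_pow (by positivity)])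
    obtain ⟨x, hx⟩ := h.sub (κ' := 0) ⟨s, h3, h2, fun g hg => by simp [h1 g hg]⟩
    exact ⟨x, fun g hg => by simpa using hx g hg⟩
  · rintro ⟨x, hx⟩
    obtain ⟨r, h0, h2, h1⟩ := h
    refine ⟨r / zeta m ^ x.val, fun g hg => ?_, by rw [div_pow, b3b_pow, div_one, h2]⟩
    have h3 : cy m g * x = κ g + x := by rw [hx g hg]; ring
    rw [map_div₀, smul_zeta_val, h3, zeta_val_add, h1 g hg, mul_comm r,
      mul_div_mul_left _ _ (b3b_ne m _)]

/-- Kummer theory. -/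
theorem kum_surj (hH : IsClosed (H : Set Gam)) {m : ℕ} {κ : Gam → ZMod (2 ^ m)} (hs : Sm H κ)
    (h : ∀ g ∈ H, ∀ k ∈ H, κ (g * k) = κ g + cy m g * κ k) : ∃ a, Kum m H a κ := by
  obtain ⟨b, h0, h1⟩ := h90 hH (f := fun g => zeta m ^ (κ g).val)
    (hs.comp fun x => zeta m ^ x.val) (fun g _ => b3b_ne m _)
    fun g hg k hk => by rw [h g hg k hk, zeta_val_add, smul_zeta_val]
  exact ⟨_, b, h0, rfl, fun g hg => by rw [← h1 g hg, mul_comm]⟩

theorem spl_iff (hH : IsClosed (H : Set Gam)) {m : ℕ} {c : Gam → Gam → ZMod (2 ^ m)}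
    (hc : C2 m H c) : Spl m H c ↔ SplQ H fun g k => zeta m ^ (c g k).val := by
  have _ := hc
  constructor
  · rintro ⟨b, h1, h2⟩
    refine ⟨fun g => zeta m ^ (b g).val, h1.comp fun x => zeta m ^ x.val, fun g => b3b_ne m _,
      fun g hg k hk => ?_⟩
    simp only
    rw [smul_zeta_val, ← zeta_val_add, ← zeta_val_add, h2 g hg k hk, sub_add_cancel]
  · rintro ⟨B, h1, h0, h2⟩
    obtain ⟨β, k0, k1⟩ := h90 hH (f := fun g => B g ^ 2 ^ m) (h1.comp fun x => x ^ 2 ^ m)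
      (fun g _ => pow_ne_zero _ (h0 g)) fun g hg k hk => by
        rw [map_pow, ← mul_pow, ← h2 g hg k hk, mul_pow, b3b_pow, one_mul]
    obtain ⟨s, rfl⟩ := IsAlgClosed.exists_pow_nat_eq β (n := 2 ^ m) (by positivity)
    have hs : s ≠ 0 := fun h => k0 (by rw [h, zero_pow (by positivity)])
    choose! lg hlg using fun x => exists_zeta_val (m := m) (x := x)
    have h3 : ∀ g ∈ H, zeta m ^ (lg (B g * s / g s)).val = B g * s / g s := fun g hg =>
      (hlg _ (by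
        rw [div_pow, mul_pow, k1 g hg, map_pow,
          div_self (pow_ne_zero _ ((map_ne_zero g).2 hs))])).symm
    refine ⟨fun g => lg (B g * s / g s), h1.comp₂ (sm_apply s) fun x y => lg (x * s / y),
      fun g hg k hk => eq_sub_of_add_eq (zeta_val_inj ?_)⟩
    have h4 : g s ≠ 0 := (map_ne_zero g).2 hs
    have h5 : g (k s) ≠ 0 := (map_ne_zero g).2 ((map_ne_zero k).2 hs)
    have h6 : zeta m ^ (c g k).val * B (g * k) = B g * g (B k) := h2 g hg k hk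
    rw [zeta_val_add, zeta_val_add, ← smul_zeta_val, h3 g hg, h3 k hk, h3 _ (mul_mem hg hk),
      AlgEquiv.mul_apply, map_div₀, map_mul]
    field_simp
    linear_combination h6

theorem C2.mono {m : ℕ} {c : Gam → Gam → ZMod (2 ^ m)} (h : C2 m H c) (k : D ≤ H) : C2 m D c := by
  exact ⟨h.1.mono k, fun a ha b hb e he => h.2 a (k ha) b (k hb) e (k he)⟩

theorem C2.add {m : ℕ} {c c' : Gam → Gam → ZMod (2 ^ m)} (h : C2 m H c) (h' : C2 m H c') :
    C2 m H (c + c') := by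
  refine ⟨h.1.comp₂ h'.1 (· + ·), fun a ha b hb e he => ?_⟩
  simp only [Pi.add_apply]
  linear_combination h.2 a ha b hb e he + h'.2 a ha b hb e he

theorem C2.smul {m : ℕ} {c : Gam → Gam → ZMod (2 ^ m)} (h : C2 m H c) (a : ZMod (2 ^ m)) :
    C2 m H fun g k => a * c g k := by
  refine ⟨h.1.comp (a * ·), fun g hg b hb e he => ?_⟩
  linear_combination a * h.2 g hg b hb e he

theorem Spl.c2 {m : ℕ} {c : Gam → Gam → ZMod (2 ^ m)} (h : Spl m H c) : C2 m H c := by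
  obtain ⟨b, h1, h2⟩ := h
  obtain ⟨U, hU, hN, h3⟩ := (h1.left.comp₂ ((sm_cy m).left.comp₂ h1.right (· * ·)) (· + ·)).comp₂
    h1.mul (· - ·)
  refine ⟨⟨U, hU, hN, fun g hg g' hg' k hk k' hk' e e' => ?_⟩, fun g hg k hk e he => ?_⟩
  · rw [h2 g hg k hk, h2 g' hg' k' hk']
    exact h3 g hg g' hg' k hk k' hk' e e'
  · rw [h2 k hk e he, h2 g hg _ (mul_mem hk he), h2 _ (mul_mem hg hk) e he, h2 g hg k hk, b3b_cy,
      mul_assoc g]
    ring

theorem c2_cup {m : ℕ} {χ κ : Gam → ZMod (2 ^ m)} (h1 : Sm H χ) (h2 : IsHom H χ) (h3 : Sm H κ)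
    (h4 : ∀ g ∈ H, ∀ k ∈ H, κ (g * k) = κ g + cy m g * κ k) : C2 m H (cup m χ κ) := by
  refine ⟨(h1.left.comp₂ (sm_cy m).left (· * ·)).comp₂ h3.right (· * ·),
    fun g hg k hk e he => ?_⟩
  simp only [cup]
  rw [h4 k hk e he, h2 g hg k hk, b3b_cy]
  ring

theorem b3b_two (x : ZMod (2 ^ 1)) : x = 0 ∨ x = 1 := by
  revert x
  decide

theorem b3b_one : (1 : ZMod (2 ^ 1)) ≠ 0 := by decide

theorem b3b_add : (1 : ZMod (2 ^ 1)) + 1 = 0 := by decide

theorem b3b_self (x : ZMod (2 ^ 1)) : x + x = 0 := by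
  revert x
  decide

theorem b3b_neg : zeta 1 ^ (1 : ZMod (2 ^ 1)).val = -1 := pow_one _

theorem b3b_fix (g : Gam) (x : ZMod (2 ^ 1)) : g (zeta 1 ^ x.val) = zeta 1 ^ x.val := by
  rw [smul_zeta_val, cy_one_eq, one_mul]

theorem b3b_sq (x : ZMod (2 ^ 1)) : (zeta 1 ^ x.val) ^ 2 = 1 := b3b_pow 1 x

theorem b3b_hom {a : Qbar} {χ : Gam → ZMod (2 ^ 1)} (h : Kum 1 H a χ) : IsHom H χ :=
  fun g hg k hk => by rw [h.coc g hg k hk, cy_one_eq, one_mul]

theorem b3b_stab (r : Qbar) : Op (MulAction.stabilizer Gam r) := by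
  obtain ⟨U, hU, -, h⟩ := sm_apply (H := ⊤) r
  refine Subgroup.isOpen_mono (H₁ := U) (fun u hu => ?_) hU
  exact (h 1 trivial u trivial (by simpa using hu)).symm

/-- A quaternion symbol vanishes on norms. -/
theorem spl_of_norm {a b x y : Qbar} {χ κ : Gam → ZMod (2 ^ 1)} (h1 : Kum 1 H a χ)
    (h2 : Kum 1 H b κ) (hH : IsClosed (H : Set Gam)) (hx : Fx H x) (hy : Fx H y)
    (h : b = x ^ 2 - a * y ^ 2) : Spl 1 H (cup 1 χ κ) := by
  have c1 := b3b_hom h1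
  rw [spl_iff hH (c2_cup h1.sm c1 h2.sm h2.coc)]
  have hb := h2.fx
  have s1 := h1.sm
  obtain ⟨r, -, rfl, k1⟩ := h1
  obtain ⟨s, s0, hs, k2⟩ := h2
  have hs : s ^ 2 = b := hs
  have hu : (x + r * y) * (x - r * y) = b := by rw [h]; ring
  have u0 : x + r * y ≠ 0 := left_ne_zero_of_mul (hu ▸ hb.1)
  have u1 : x - r * y ≠ 0 := right_ne_zero_of_mul (hu ▸ hb.1)
  refine ⟨fun g => if χ g = 0 then 1 else g s / (x + r * y),
    s1.comp₂ (sm_apply s) fun e t => if e = 0 then 1 else t / (x + r * y), fun g => ?_,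
    fun g hg k hk => ?_⟩
  · beta_reduce
    split_ifs
    · exact one_ne_zero
    · exact div_ne_zero ((map_ne_zero g).2 s0) u0
  · have e1 : g (k s) = g s * zeta 1 ^ (κ k).val := by rw [k2 k hk, map_mul, b3b_fix]
    have e2 : g (x + r * y) = x + r * zeta 1 ^ (χ g).val * y := by
      rw [map_add, map_mul, hx g hg, hy g hg, k1 g hg]
    have e3 : g s ^ 2 = b := by rw [← map_pow, hs, hb.2 g hg]
    have e4 := b3b_sq (κ k)
    simp only [cup, cy_one_eq, mul_one, c1 g hg k hk, AlgEquiv.mul_apply]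
    rcases b3b_two (χ g) with a0 | a0 <;> rcases b3b_two (χ k) with a1 | a1 <;>
      rw [a0] at e2 <;> simp only [a0, a1]
    · simp
    · simp only [zero_mul, ZMod.val_zero, pow_zero, zero_add, if_true, if_neg b3b_one, one_mul,
        mul_one] at e2 ⊢
      rw [map_div₀, e2]
    · simp only [add_zero, if_true, if_neg b3b_one, one_mul, map_one, mul_one]
      rw [e1]
      field_simp
      linear_combination g s * e4
    · simp only [b3b_add, if_true, if_neg b3b_one, one_mul, mul_one]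
      rw [b3b_neg, mul_neg_one, neg_mul, ← sub_eq_add_neg] at e2
      rw [map_div₀, e2, e1]
      field_simp
      linear_combination zeta 1 ^ (κ k).val * (hu - e3)

theorem norm_of_spl {a b : Qbar} {χ κ : Gam → ZMod (2 ^ 1)} (h1 : Kum 1 H a χ) (h2 : Kum 1 H b κ)
    (hH : IsClosed (H : Set Gam)) (h : Spl 1 H (cup 1 χ κ)) :
    ∃ x y, Fx H x ∧ Fx H y ∧ b = x ^ 2 - a * y ^ 2 := by
  have c1 := b3b_hom h1
  have c2 := b3b_hom h2
  have hb := h2.fx
  obtain ⟨r, r0, rfl, k1⟩ := h1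
  obtain ⟨s, s0, hs, k2⟩ := h2
  have hs : s ^ 2 = b := hs
  obtain ⟨β, b1, b2⟩ := h
  simp only [cup, cy_one_eq, mul_one, one_mul] at b2
  have r1 : ∀ g ∈ H, χ g = 0 → g r = r := fun g hg e => by
    rw [k1 g hg, e, ZMod.val_zero, pow_zero, mul_one]
  have r2 : ∀ g ∈ H, χ g = 1 → g r = -r := fun g hg e => by rw [k1 g hg, e, b3b_neg, mul_neg_one]
  by_cases h0 : ∀ g ∈ H, χ g = 0
  · refine ⟨(b + 1) / 2, (b - 1) / (2 * r), fun g hg => ?_, fun g hg => ?_, ?_⟩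
    · rw [map_div₀, map_add, hb.2 g hg, map_one, map_ofNat]
    · rw [map_div₀, map_sub, map_mul, hb.2 g hg, map_one, map_ofNat, r1 g hg (h0 g hg)]
    · field_simp
      ring
  push Not at h0
  obtain ⟨γ, hγ, a0⟩ := h0
  have a0 := (b3b_two _).resolve_left a0
  have r3 : ∀ g ∈ H ⊓ MulAction.stabilizer Gam r, χ g = 0 := fun g hg =>
    (b3b_two _).resolve_right fun e => r0 (by
      have h3 : g r = r := hg.2
      linear_combination (r2 g hg.1 e - h3) / 2)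
  obtain ⟨_, t, t0, -, k3⟩ := kum_surj (H := H ⊓ MulAction.stabilizer Gam r)
    (hH.inter (b3b_stab r).closed) (b1.mono inf_le_left) fun g hg k hk => by
      have h3 := b2 g hg.1 k hk.1
      rw [r3 g hg, zero_mul] at h3
      rw [cy_one_eq]
      linear_combination h3
  have k3 : ∀ g ∈ H, χ g = 0 → g t = t * zeta 1 ^ (β g).val := fun g hg e => k3 g ⟨hg, r1 g hg e⟩
  have t1 : γ t ≠ 0 := (map_ne_zero γ).2 t0
  have cj : ∀ g ∈ H, γ⁻¹ * g * γ ∈ H ∧ γ * (γ⁻¹ * g * γ) = g * γ ∧ χ (γ⁻¹ * g * γ) = χ g :=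
    fun g hg => by
      have h3 : γ⁻¹ * g * γ ∈ H := mul_mem (mul_mem (inv_mem hγ) hg) hγ
      have h4 : γ * (γ⁻¹ * g * γ) = g * γ := by group
      have h5 := c1 γ hγ _ h3
      rw [h4, c1 g hg γ hγ] at h5
      exact ⟨h3, h4, by linear_combination -h5⟩
  obtain ⟨u, hu⟩ : ∃ u, u = s * γ t / t := ⟨_, rfl⟩
  have u1 : ∀ g ∈ H, χ g = 0 → g u = u := fun g hg e => by
    obtain ⟨h3, h4, h5⟩ := cj g hg
    have h6 : g (γ t) = γ t * zeta 1 ^ (β (γ⁻¹ * g * γ)).val := by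
      rw [← AlgEquiv.mul_apply, ← h4, AlgEquiv.mul_apply, k3 _ h3 (h5.trans e), map_mul, b3b_fix]
    have h7 := c2 γ hγ _ h3
    have h8 := b2 γ hγ _ h3
    have h9 := b2 g hg γ hγ
    rw [h4, c2 g hg γ hγ] at h7
    rw [h4, a0] at h8
    rw [e] at h9
    have h10 : κ g + β (γ⁻¹ * g * γ) = β g := by
      linear_combination h7 - h8 + h9 + b3b_self (κ (γ⁻¹ * g * γ))
    rw [hu, map_div₀, map_mul, h6, k2 g hg, k3 g hg e, ← h10, zeta_val_add]
    have h11 := b3b_ne 1 (κ g)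
    have h12 := b3b_ne 1 (β (γ⁻¹ * g * γ))
    field_simp
  have u2 : u * γ u = b := by
    have h3 : χ (γ * γ) = 0 := by rw [c1 γ hγ γ hγ, b3b_self]
    have h4 : γ (γ t) = t * zeta 1 ^ (β (γ * γ)).val := k3 _ (mul_mem hγ hγ) h3
    have h5 := b2 γ hγ γ hγ
    rw [a0] at h5
    have h6 : β (γ * γ) = κ γ := by
      linear_combination h5 + b3b_self (β γ) - b3b_self (κ γ)
    rw [hu, map_div₀, map_mul, h4, h6, k2 γ hγ]
    field_simp
    linear_combination s ^ 2 * b3b_sq (κ γ) + hs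
  have u3 : ∀ g ∈ H, χ g = 0 → g (γ u) = γ u := fun g hg e => by
    obtain ⟨h3, h4, h5⟩ := cj g hg
    rw [← AlgEquiv.mul_apply, ← h4, AlgEquiv.mul_apply, u1 _ h3 (h5.trans e)]
  have u4 : ∀ g ∈ H, χ g = 1 → g (γ u) = u := fun g hg e =>
    u1 _ (mul_mem hg hγ) (by rw [c1 g hg γ hγ, e, a0, b3b_add])
  have u5 : ∀ g ∈ H, χ g = 1 → g u = γ u := fun g hg e => by
    have h3 : χ (g * γ) = 0 := by rw [c1 g hg γ hγ, e, a0, b3b_add]
    conv_lhs => rw [← u4 γ hγ a0]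
    exact u3 _ (mul_mem hg hγ) h3
  refine ⟨(u + γ u) / 2, (u - γ u) / (2 * r), fun g hg => ?_, fun g hg => ?_, ?_⟩
  · rw [map_div₀, map_add, map_ofNat]
    rcases b3b_two (χ g) with e | e
    · rw [u1 g hg e, u3 g hg e]
    · rw [u5 g hg e, u4 g hg e, add_comm]
  · rw [map_div₀, map_sub, map_mul, map_ofNat]
    rcases b3b_two (χ g) with e | e
    · rw [u1 g hg e, u3 g hg e, r1 g hg e]
    · rw [u5 g hg e, u4 g hg e, r2 g hg e, mul_neg, div_neg, ← neg_div, neg_sub]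
  · field_simp
    linear_combination -4 * r ^ 2 * u2

end Pool.Agent.Lib.MP_696deb_nt.B2
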