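import Pool.Agent.Lib.MP_696deb_nt.B2.B2a

set_option autoImplicit false

open scoped NNReal Classical NumberTheorySymbols
open Filter Topology Finset

namespace Pool.Agent.Lib.MP_696deb_nt.B2

variable {H : Subgroup Gam} {w v : Plc} {g φ : Gam}

/-- An endomorphism of a field of characteristic `p` is a power map on each finite subfield. -/
theorem b2b_pure {k : Type} [Field k] (p : ℕ) [Fact p.Prime] [CharP k p] (γ : k →+* k) {N : ℕ}
    (hN : 0 < N) : ∃ n : ℕ, ∀ x : k, x ^ p ^ N = x → γ x = x ^ p ^ n := by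
  let F : Subfield k := RingHom.eqLocusField (iterateFrobenius k p N) (RingHom.id k)
  have hF : ∀ x, x ∈ F ↔ x ^ p ^ N = x := fun x => Iff.rfl
  have hne : (Polynomial.X ^ p ^ N - Polynomial.X : Polynomial k) ≠ 0 :=
    FiniteField.X_pow_card_pow_sub_X_ne_zero k hN.ne' (Fact.out : p.Prime).one_lt
  have hfin : (F : Set k).Finite := by
    refine (Polynomial.finite_setOfPred_isRoot hne).subset fun x hx => ?_
    simpa [sub_eq_zero] using (hF x).1 hx
  have : Finite F := hfin.to_subtype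
  let _ : Algebra (ZMod p) F := ZMod.algebra F p
  let γ₁ : F →+* F := (γ.comp F.subtype).codRestrict F fun x => (hF _).2 (by
    change γ x ^ p ^ N = γ x
    rw [← map_pow, (hF _).1 x.2])
  let γ₂ : F →ₐ[ZMod p] F := ⟨γ₁, fun c =>
    RingHom.congr_fun (Subsingleton.elim (γ₁.comp (algebraMap (ZMod p) F)) (algebraMap _ _)) c⟩
  obtain ⟨n, hn⟩ := FiniteField.exists_forall_apply_eq_pow (ZMod p) p F
    (AlgEquiv.ofBijective γ₂ (Finite.injective_iff_bijective.1 γ₁.injective))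
  refine ⟨n, fun x hx => ?_⟩
  have h1 := congrArg Subtype.val (hn ⟨x, (hF x).2 hx⟩)
  rw [Nat.card_zmod] at h1
  exact h1

/-- Elements of the decomposition group act as power maps on finite residue fields. -/
theorem b2b_res (hg : g ∈ Dec w) {N : ℕ} (hN : 0 < N) : ∃ n : ℕ, ∀ x : Qbar, w.V x ≤ 1 →
    w.V (x ^ w.p ^ N - x) < 1 → w.V (g x - x ^ w.p ^ n) < 1 := by
  have : Fact w.p.Prime := ⟨w.prime⟩
  let O := w.V.valuationSubring
  have hres : ∀ a b : O, IsLocalRing.residue O a = IsLocalRing.residue O b ↔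
      w.V ((a : Qbar) - b) < 1 := fun a b => by
    rw [← sub_eq_zero, ← map_sub, IsLocalRing.residue_eq_zero_iff,
      Valuation.mem_maximalIdeal_iff]
    rfl
  have hp : ((w.p : ℕ) : IsLocalRing.ResidueField O) = 0 := by
    have h1 := (hres w.p 0).2 (by
      have e : (((w.p : ℕ) : O) : Qbar) - ((0 : O) : Qbar) = (w.p : Qbar) := by simp
      rw [e, w.hV]
      exact inv_lt_one_of_one_lt₀ (by exact_mod_cast w.prime.one_lt))
    rwa [map_natCast, map_zero] at h1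
  have : CharP (IsLocalRing.ResidueField O) w.p := (CharP.charP_iff_prime_eq_zero w.prime).2 hp
  let γ : O →+* O := ((g : Qbar →+* Qbar).comp O.subtype).codRestrict O fun x => by
    change w.V (g x) ≤ 1
    rw [mem_Dec.1 hg]
    exact x.2
  have : IsLocalHom γ := by
    refine ⟨fun a ha => ?_⟩
    by_contra hna
    have h1 : w.V a < 1 := (Valuation.mem_maximalIdeal_iff _ w.V).1 hna
    have h2 : γ a ∈ IsLocalRing.maximalIdeal O := (Valuation.mem_maximalIdeal_iff _ w.V).2 (by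
      change w.V (g a) < 1
      rwa [mem_Dec.1 hg])
    exact h2 ha
  obtain ⟨n, hn⟩ := b2b_pure w.p (IsLocalRing.ResidueField.map γ) hN
  refine ⟨n, fun x hx h => ?_⟩
  have h1 := hn (IsLocalRing.residue O ⟨x, hx⟩) (by
    rw [← map_pow]
    exact (hres _ _).2 h)
  rw [IsLocalRing.ResidueField.map_residue, ← map_pow] at h1
  exact (hres _ _).1 h1

theorem b2b_iter {x : Qbar} (hx : w.V x ≤ 1) {N : ℕ} (h : w.V (x ^ w.p ^ N - x) < 1) (m : ℕ) :
    w.V (x ^ w.p ^ (N * m) - x) < 1 := by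
  induction m with
  | zero => simp
  | succ m ih =>
    obtain ⟨c, hc⟩ : ∃ c : Qbar, w.V c ≤ 1 ∧
        (x ^ w.p ^ N) ^ w.p ^ (N * m) - x ^ w.p ^ (N * m) = c * (x ^ w.p ^ N - x) := by
      refine ⟨_, ?_, (Commute.geom_sum₂_mul (Commute.all _ _) _).symm⟩
      refine w.V.map_sum_le fun i _ => ?_
      simp only [map_mul, map_pow]
      exact mul_le_one' (pow_le_one' (pow_le_one' hx _) _) (pow_le_one' hx _)
    have e : x ^ w.p ^ (N * (m + 1)) - x =
        c * (x ^ w.p ^ N - x) + (x ^ w.p ^ (N * m) - x) := by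
      rw [← hc.2, ← pow_mul, ← pow_add, Nat.mul_succ, add_comm (N * m) N]
      ring
    rw [e]
    refine w.V.map_add_lt ?_ ih
    rw [map_mul]
    exact mul_lt_one_of_nonneg_of_lt_one_right hc.1 zero_le h

theorem b2b_closed (x : Qbar) (P : Qbar → Prop) :
    IsClosed {k : Gam | P (k x)} ∧ IsOpen {k : Gam | P (k x)} := by
  have h1 : Continuous fun k : Gam => decide (P (k x)) :=
    continuousOn_univ.1 (((sm_apply (H := ⊤) x).comp fun y => decide (P y)).continuousOn)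
  have e : {k : Gam | P (k x)} = (fun k : Gam => decide (P (k x))) ⁻¹' {true} := by
    ext k
    simp
  rw [e]
  exact ⟨(isClosed_discrete _).preimage h1, (isOpen_discrete _).preimage h1⟩

/-- The decomposition group is generated by inertia and a Frobenius element. -/
theorem dec_gen (h : IsFrob w w.p φ) (hg : g ∈ Dec w) {U : Subgroup Gam} (hU : Op U) :
    ∃ (n : ℕ) (σ : Gam), σ ∈ Ine w ∧ (φ ^ n * σ)⁻¹ * g ∈ U ⊓ Dec w := by
  have hA : IsClosed {k : Gam | ∃ n : ℕ, (φ ^ n * k)⁻¹ * g ∈ U} := by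
    rw [← isOpen_compl_iff, isOpen_iff_mem_nhds]
    intro k hk
    have h1 : Continuous fun j : Gam => k⁻¹ * j := by fun_prop
    have h2 : (fun j : Gam => k⁻¹ * j) ⁻¹' (U : Set Gam) ∈ 𝓝 k :=
      (hU.preimage h1).mem_nhds (by simp [U.one_mem])
    refine mem_of_superset h2 ?_
    rintro j hj ⟨n, hn⟩
    refine hk ⟨n, ?_⟩
    have e : (φ ^ n * k)⁻¹ * g = (k⁻¹ * j) * ((φ ^ n * j)⁻¹ * g) := by group
    rw [e]
    exact U.mul_mem hj hn
  obtain ⟨σ, ⟨⟨n, hn⟩, hσ⟩, hσ'⟩ := (hA.inter (closed_Dec w)).isCompact.inter_iInter_nonempty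
    (fun x : {x : Qbar // w.V x ≤ 1} => {k : Gam | w.V (k x - x) < 1})
    (fun x => (b2b_closed x fun y => w.V (y - x) < 1).1) (by
      intro u
      choose N hN hN' using fun x : {x : Qbar // w.V x ≤ 1} => w.exists_pow x.2
      obtain ⟨n, hn⟩ := b2b_res hg (N := ∏ x ∈ u, N x) (Finset.prod_pos fun x _ => hN x)
      have hφ := h.pow n
      refine ⟨(φ ^ n)⁻¹ * g, ⟨⟨n, by simp [U.one_mem]⟩, mul_mem (inv_mem hφ.1) hg⟩, ?_⟩
      simp only [Set.mem_iInter]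
      intro x hx
      obtain ⟨m, hm⟩ := Finset.dvd_prod_of_mem N hx
      have a1 := hn x x.2 (hm ▸ b2b_iter x.2 (hN' x) m)
      have a2 := hφ.2 x x.2
      change w.V (((φ ^ n)⁻¹ * g) x - x) < 1
      rw [← mem_Dec.1 hφ.1, map_sub]
      have e : (φ ^ n) (((φ ^ n)⁻¹ * g) x) - (φ ^ n) x =
          (g x - x ^ w.p ^ n) - ((φ ^ n) x - x ^ w.p ^ n) := by
        rw [← AlgEquiv.mul_apply, mul_inv_cancel_left]
        ring
      rw [e]
      exact w.V.map_sub_lt a1 a2)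
  simp only [Set.mem_iInter] at hσ'
  exact ⟨n, σ, ⟨hσ, fun x hx => hσ' ⟨x, hx⟩⟩, hn,
    (Dec w).mul_mem ((Dec w).inv_mem ((Dec w).mul_mem (h.pow n).1 hσ)) hg⟩

theorem b2b_int (x : Qbar) : ∃ s : Finset ℕ, ∀ w : Plc, w.p ∉ s → w.V x ≤ 1 := by
  have h1 : IsAlgebraic ℤ x :=
    (IsFractionRing.isAlgebraic_iff ℤ ℚ Qbar).2 (Algebra.IsAlgebraic.isAlgebraic x)
  obtain ⟨N, hN, h2⟩ := h1.exists_integral_multiple
  refine ⟨N.natAbs.primeFactors, fun w hw => ?_⟩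
  have h3 : w.V N = 1 := w.V_int_eq_one.2 fun h => hw
    (Nat.mem_primeFactors.2 ⟨w.prime, Int.natCast_dvd.1 h, Int.natAbs_ne_zero.2 hN⟩)
  have h4 := w.V_le_one_of_isIntegral h2
  rwa [zsmul_eq_mul, map_mul, h3, one_mul] at h4

theorem b2b_supp {x : Qbar} (hx : x ≠ 0) : ∃ s : Finset ℕ, ∀ w : Plc, w.p ∉ s → w.V x = 1 := by
  obtain ⟨s, hs⟩ := b2b_int x
  obtain ⟨t, ht⟩ := b2b_int x⁻¹
  refine ⟨s ∪ t, fun w hw => le_antisymm (hs w fun h => hw (mem_union_left _ h)) ?_⟩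
  have h1 := ht w fun h => hw (mem_union_right _ h)
  rw [map_inv₀] at h1
  exact (inv_le_one₀ (w.V.pos_iff.2 hx)).1 h1

theorem b2b_fix (x : Qbar) : ∃ s : Finset ℕ, ∀ w : Plc, w.p ∉ s → ∀ σ ∈ Ine w, σ x = x := by
  have h1 : ((fun g : Gam => g x) '' ((⊤ : Subgroup Gam) : Set Gam)).Finite :=
    (sm_apply x).finite_range
  have h2 : ∀ y : Qbar, ∃ s : Finset ℕ, ∀ w : Plc, w.p ∉ s → y ≠ x → w.V (y - x) = 1 := by
    intro y
    by_cases h : y = x
    · exact ⟨∅, fun _ _ k => absurd h k⟩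
    · obtain ⟨s, hs⟩ := b2b_supp (sub_ne_zero.2 h)
      exact ⟨s, fun w hw _ => hs w hw⟩
  choose S hS using h2
  obtain ⟨s, hs⟩ := b2b_int x
  refine ⟨s ∪ h1.toFinset.biUnion S, fun w hw σ hσ => ?_⟩
  by_contra hne
  have a1 := hσ.2 x (hs w fun h => hw (mem_union_left _ h))
  have a2 := hS (σ x) w (fun h => hw (mem_union_right _
    (mem_biUnion.2 ⟨σ x, h1.mem_toFinset.2 ⟨σ, trivial, rfl⟩, h⟩))) hne
  exact a1.ne a2

/-- Only finitely many primes ramify in a finite extension. -/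
theorem finite_ram {U : Subgroup Gam} (hU : Op U) :
    ∃ s : Finset ℕ, ∀ w : Plc, w.p ∉ s → Ine w ≤ U := by
  obtain ⟨E, hE, hEU⟩ := (krullTopology_mem_nhds_one_iff ℚ Qbar U).1 (hU.mem_nhds U.one_mem)
  let b := Module.finBasis ℚ E
  choose S hS using fun i => b2b_fix (b i : Qbar)
  refine ⟨univ.biUnion S, fun w hw σ hσ => hEU ?_⟩
  have h1 : σ.toLinearMap.comp E.val.toLinearMap = E.val.toLinearMap :=
    b.ext fun i => hS i w (fun h => hw (mem_biUnion.2 ⟨i, mem_univ _, h⟩)) σ hσ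
  exact (IntermediateField.mem_fixingSubgroup_iff _ _).2 fun x hx => LinearMap.congr_fun h1 ⟨x, hx⟩

/-- Finitely many places represent all places above finitely many primes. -/
theorem exists_reps (hH : Op H) (s : Finset ℕ) : ∃ t : Finset Plc, Apart H t ∧
    (∀ w ∈ t, w.p ∈ s) ∧ ∀ w : Plc, w.p ∈ s → ¬ Away H t w := by
  have : Finite (Gam ⧸ H) := Nat.finite_of_card_ne_zero hH.index_ne_zero
  let r := MulAction.orbitRel H Plc
  have hr : ∀ a b : Plc, Quotient.mk r a = Quotient.mk r b ↔ ∃ g ∈ H, g • b = a := fun a b => by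
    rw [Quotient.eq, MulAction.orbitRel_apply, MulAction.mem_orbit_iff]
    exact ⟨fun ⟨g, h⟩ => ⟨g, g.2, h⟩, fun ⟨g, hg, h⟩ => ⟨⟨g, hg⟩, h⟩⟩
  have h1 : ∀ p : ℕ, (Quotient.mk r '' {w : Plc | w.p = p}).Finite := by
    intro p
    rcases Set.eq_empty_or_nonempty {w : Plc | w.p = p} with h | ⟨w₀, h₀⟩
    · rw [h, Set.image_empty]
      exact Set.finite_empty
    · refine (Set.finite_range fun c : Gam ⧸ H => Quotient.mk r (c.out⁻¹ • w₀)).subset ?_
      rintro _ ⟨w, hw, rfl⟩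
      obtain ⟨g, rfl⟩ := plc_conj (w := w₀) (v := w) (h₀.trans hw.symm)
      obtain ⟨k, hk⟩ := QuotientGroup.mk_out_eq_mul H g⁻¹
      refine ⟨(g⁻¹ : Gam), (hr _ _).2 ⟨k⁻¹, inv_mem k.2, ?_⟩⟩
      rw [hk, mul_inv_rev, inv_inv, mul_smul]
  have h2 : (Quotient.mk r '' {w : Plc | w.p ∈ s}).Finite := by
    refine (s.finite_toSet.biUnion fun p _ => h1 p).subset ?_
    rintro _ ⟨w, hw, rfl⟩
    exact Set.mem_biUnion hw ⟨w, rfl, rfl⟩
  refine ⟨h2.toFinset.image Quotient.out, ?_, ?_, ?_⟩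
  · intro a ha b hb g hg e
    obtain ⟨a', -, rfl⟩ := mem_image.1 ha
    obtain ⟨b', -, rfl⟩ := mem_image.1 hb
    have := (hr _ _).2 ⟨g, hg, e⟩
    rw [Quotient.out_eq, Quotient.out_eq] at this
    rw [this]
  · intro a ha
    obtain ⟨a', h3, rfl⟩ := mem_image.1 ha
    obtain ⟨w, hw, rfl⟩ := h2.mem_toFinset.1 h3
    obtain ⟨g, -, e⟩ := (hr _ w).1 (Quotient.out_eq (Quotient.mk r w))
    rw [← e]
    exact hw
  · intro w hw ha
    obtain ⟨g, hg, e⟩ := (hr w _).1 (Quotient.out_eq (Quotient.mk r w)).symm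
    exact ha _ (mem_image_of_mem _ (h2.mem_toFinset.2 ⟨w, hw, rfl⟩)) g hg e

/-- A nonzero number is a unit at almost all places. -/
theorem finite_supp {x : Qbar} (hx : x ≠ 0) : ∃ s : Finset ℕ, ∀ w : Plc, w.p ∉ s → w.V x = 1 :=
  b2b_supp hx

/-- `g` raises the roots of unity of order dividing `p ^ N - 1` to the power `p ^ n`. -/
def B2bR (p N : ℕ) (g : Gam) (n : ℕ) : Prop :=
  ∀ z : Qbar, z ^ (p ^ N - 1) = 1 → g z = z ^ p ^ n

theorem b2b_pos {p N : ℕ} (hp : p.Prime) (hN : 0 < N) : p ^ N - 1 ≠ 0 :=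
  Nat.sub_ne_zero_of_lt (Nat.one_lt_pow hN.ne' hp.one_lt)

theorem b2b_of_V {N n : ℕ} (hN : 0 < N) (h : ∀ x : Qbar, w.V x ≤ 1 →
    w.V (x ^ w.p ^ N - x) < 1 → w.V (g x - x ^ w.p ^ n) < 1) : B2bR w.p N g n := by
  intro z hz
  have h0 := b2b_pos w.prime hN
  have h1 : 1 ≤ w.p ^ N := Nat.one_le_pow _ _ w.prime.pos
  have hV := w.V_root_of_unity h0 hz
  have z0 : z ≠ 0 := by
    rintro rfl
    rw [zero_pow h0] at hz
    exact zero_ne_one hz
  have a1 := h z hV.le (by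
    rw [← Nat.sub_add_cancel h1, pow_succ, hz, one_mul, sub_self, map_zero]
    exact zero_lt_one)
  have hnd : ¬ w.p ∣ w.p ^ N - 1 := fun k =>
    w.prime.one_lt.ne' (Nat.dvd_one.1 ((Nat.dvd_sub_iff_right h1 (dvd_pow_self _ hN.ne')).1 k))
  have a2 := w.eq_one_of_root (x := g z / z ^ w.p ^ n) hnd (by
    rw [div_pow, ← map_pow, hz, map_one, ← pow_mul, mul_comm, pow_mul, hz, one_pow, div_one]) (by
    rw [div_sub_one (pow_ne_zero _ z0), map_div₀, map_pow, hV, one_pow, div_one]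
    exact a1)
  exact (div_eq_one_iff_eq (pow_ne_zero _ z0)).1 a2

theorem b2b_prim {p N : ℕ} (hp : p.Prime) (hN : 0 < N) :
    ∃ ζ : Qbar, IsPrimitiveRoot ζ (p ^ N - 1) := by
  have : NeZero (p ^ N - 1) := ⟨b2b_pos hp hN⟩
  exact HasEnoughRootsOfUnity.exists_primitiveRoot Qbar _

theorem b2b_uniq {p N n n' : ℕ} (hp : p.Prime) (hN : 0 < N) (h : B2bR p N g n)
    (h' : B2bR p N g n') : n ≡ n' [MOD N] := by
  wlog hle : n ≤ n' generalizing n n'
  · exact (this h' h (not_le.1 hle).le).symm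
  obtain ⟨d, rfl⟩ := exists_add_of_le hle
  obtain ⟨ζ, hζ⟩ := b2b_prim hp hN
  have z0 : ζ ≠ 0 := hζ.ne_zero (b2b_pos hp hN)
  have h1 : 1 ≤ p ^ d := Nat.one_le_pow _ _ hp.pos
  have a1 : ζ ^ p ^ n = ζ ^ p ^ (n + d) := (h ζ hζ.pow_eq_one).symm.trans (h' ζ hζ.pow_eq_one)
  have a2 : ζ ^ (p ^ n * (p ^ d - 1)) = 1 := by
    have e : p ^ (n + d) = p ^ n + p ^ n * (p ^ d - 1) := by
      rw [pow_add, ← mul_one_add, Nat.add_sub_cancel' h1]
    rw [e, pow_add] at a1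
    exact (mul_eq_left₀ (pow_ne_zero _ z0)).1 a1.symm
  have a3 : Nat.Coprime (p ^ N - 1) (p ^ n) := by
    refine Nat.Coprime.pow_right _ ((Nat.coprime_comm).1 ((Nat.Prime.coprime_iff_not_dvd hp).2 ?_))
    exact fun k => hp.one_lt.ne' (Nat.dvd_one.1 ((Nat.dvd_sub_iff_right
      (Nat.one_le_pow _ _ hp.pos) (dvd_pow_self _ hN.ne')).1 k))
  have a4 : p ^ N - 1 ∣ p ^ d - 1 := a3.dvd_of_dvd_mul_left (hζ.dvd_of_pow_eq_one _ a2)
  have a5 := Nat.gcd_eq_left a4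
  rw [Nat.pow_sub_one_gcd_pow_sub_one] at a5
  have a6 : p ^ Nat.gcd N d = p ^ N := by
    have := Nat.one_le_pow (Nat.gcd N d) p hp.pos
    have := Nat.one_le_pow N p hp.pos
    omega
  have a7 : N ∣ d := Nat.gcd_eq_left_iff_dvd.1 (Nat.pow_right_injective hp.two_le a6)
  exact (Nat.modEq_iff_dvd' (Nat.le_add_right n d)).2 (by simpa using a7)

theorem b2b_down {p N N' n : ℕ} (hN : N ∣ N') (h : B2bR p N' g n) : B2bR p N g n := by
  intro z hz
  obtain ⟨c, hc⟩ := Nat.pow_sub_one_dvd_pow_sub_one p hN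
  exact h z (by rw [hc, pow_mul, hz, one_pow])

theorem b2b_mul {p N n n' : ℕ} {k : Gam} (h : B2bR p N g n) (h' : B2bR p N k n') :
    B2bR p N (g * k) (n + n') := by
  intro z hz
  rw [AlgEquiv.mul_apply, h' z hz, map_pow, h z hz, ← pow_mul, pow_add]

/-- The two-adic degree on a decomposition group. -/
theorem exists_deg (w : Plc) : ∃ ω : Gam → ℤ_[2], ContinuousOn ω (Dec w) ∧ IsHom (Dec w) ω ∧
    ∀ (n : ℕ) (φ : Gam), IsFrob w (w.p ^ n) φ → ω φ = n := by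
  have pos : ∀ m : ℕ, 0 < 2 ^ m := fun m => by positivity
  have ex : ∀ g ∈ Dec w, ∀ m : ℕ, ∃ n, B2bR w.p (2 ^ m) g n := fun g hg m =>
    (b2b_res hg (pos m)).imp fun n hn => b2b_of_V (pos m) hn
  have key : ∀ g ∈ Dec w, ∃ a : ℤ_[2], ∀ m n : ℕ, B2bR w.p (2 ^ m) g n →
      PadicInt.toZModPow m a = n := by
    intro g hg
    choose f hf using ex g hg
    have hi : ∀ i, ((2 : ℕ) : ℤ) ^ i ∣ (f (i + 1) : ℤ) - f i := fun i => by
      have := (b2b_uniq w.prime (pos i) (hf i)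
        (b2b_down (pow_dvd_pow 2 (Nat.le_succ i)) (hf (i + 1)))).dvd
      exact_mod_cast this
    refine ⟨_, fun m n hn => (PadicInt.toZModPow_ofIntSeq_of_pow_dvd_sub
      (fun i => (f i : ℤ)) 2 hi m).trans ?_⟩
    rw [Int.cast_natCast]
    exact (ZMod.natCast_eq_natCast_iff _ _ _).2 (b2b_uniq w.prime (pos m) (hf m) hn)
  choose! ω hω using key
  refine ⟨ω, fun g hg => ?_, fun g hg k hk => ?_, fun n φ hφ => ?_⟩
  · refine Metric.continuousWithinAt_iff'.2 fun ε hε => ?_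
    obtain ⟨m, hm⟩ := PadicInt.exists_pow_neg_lt 2 hε
    obtain ⟨ζ, hζ⟩ := b2b_prim w.prime (pos m)
    obtain ⟨n, hn⟩ := ex g hg m
    have h1 : {k : Gam | k ζ = g ζ} ∈ 𝓝 g := (b2b_closed ζ fun y => y = g ζ).2.mem_nhds rfl
    filter_upwards [mem_nhdsWithin_of_mem_nhds h1, self_mem_nhdsWithin] with k hk hk'
    refine lt_of_le_of_lt ?_ hm
    have h2 : B2bR w.p (2 ^ m) k n := by
      intro z hz
      have : NeZero (w.p ^ 2 ^ m - 1) := ⟨b2b_pos w.prime (pos m)⟩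
      obtain ⟨i, -, rfl⟩ := hζ.eq_pow_of_pow_eq_one hz
      rw [← hn _ hz, map_pow, map_pow, hk]
    rw [dist_eq_norm, PadicInt.norm_le_pow_iff_mem_span_pow, ← PadicInt.ker_toZModPow,
      RingHom.mem_ker, map_sub, hω k hk' m n h2, hω g hg m n hn, sub_self]
  · refine PadicInt.ext_of_toZModPow.1 fun m => ?_
    obtain ⟨n, hn⟩ := ex g hg m
    obtain ⟨n', hn'⟩ := ex k hk m
    rw [map_add, hω g hg m n hn, hω k hk m n' hn', hω _ (mul_mem hg hk) m _ (b2b_mul hn hn'),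
      Nat.cast_add]
  · refine PadicInt.ext_of_toZModPow.1 fun m => ?_
    rw [map_natCast]
    exact hω φ hφ.1 m n (b2b_of_V (pos m) fun x hx _ => hφ.2 x hx)

end Pool.Agent.Lib.MP_696deb_nt.B2
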