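import Pool.Agent.Lib.MP_696deb_nt.B2.B3b
import Pool.Agent.Lib.MP_696deb_nt.B2.B2b

set_option autoImplicit false

open scoped NNReal Classical NumberTheorySymbols
open Filter Topology Finset

namespace Pool.Agent.Lib.MP_696deb_nt.B2

variable {H : Subgroup Gam} {w : Plc}

theorem B3c_cy_mul (m : ℕ) (g h : Gam) : cy m (g * h) = cy m g * cy m h := by
  simp only [cy, cyc_mul, map_mul]

theorem B3c_c2_zero (m : ℕ) (D : Subgroup Gam) : C2 m D (fun _ _ => 0) :=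
  ⟨⟨⊤, isOpen_univ, inferInstance, fun _ _ _ _ _ _ _ _ _ _ => rfl⟩, fun _ _ _ _ _ _ => by simp⟩

theorem B3c_inv_zero (F : CFT) {m : ℕ} (hH : Op H) : F.inv m H w (fun _ _ => 0) = 0 := by
  have h := F.add (w := w) hH (B3c_c2_zero m _) (B3c_c2_zero m _)
  have e : ((fun _ _ => 0 : Gam → Gam → ZMod (2 ^ m)) + fun _ _ => 0) = fun _ _ => 0 := by
    funext g k; simp
  rw [e] at h
  exact left_eq_add.1 h

theorem CFT.smul (F : CFT) {m : ℕ} {c : Gam → Gam → ZMod (2 ^ m)} (hH : Op H)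
    (h : C2 m (H ⊓ Dec w) c) (a : ZMod (2 ^ m)) :
    F.inv m H w (fun g k => a * c g k) = a * F.inv m H w c := by
  have key : ∀ n : ℕ, F.inv m H w (fun g k => (n : ZMod (2 ^ m)) * c g k) =
      (n : ZMod (2 ^ m)) * F.inv m H w c := by
    intro n
    induction n with
    | zero => simpa using B3c_inv_zero F hH
    | succ n ih =>
      have e : (fun g k => ((n + 1 : ℕ) : ZMod (2 ^ m)) * c g k) =
          (fun g k => (n : ZMod (2 ^ m)) * c g k) + c := by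
        funext g k; simp [add_mul]
      rw [e, F.add hH (h.smul _) h, ih]
      push_cast; ring
  have : NeZero (2 ^ m) := ⟨by positivity⟩
  have := key a.val
  rwa [ZMod.natCast_zmod_val] at this

theorem B3c_c2_sum {m : ℕ} {ι : Type*} {D : Subgroup Gam} (s : Finset ι)
    {c : ι → Gam → Gam → ZMod (2 ^ m)} (h : ∀ i ∈ s, C2 m D (c i)) :
    C2 m D (fun g k => ∑ i ∈ s, c i g k) := by
  induction s using Finset.induction_on with
  | empty => simpa using B3c_c2_zero m D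
  | insert i s hi ih =>
    have e : (fun g k => ∑ j ∈ insert i s, c j g k) = c i + fun g k => ∑ j ∈ s, c j g k := by
      funext g k; simp [Finset.sum_insert hi]
    rw [e]
    exact (h i (mem_insert_self _ _)).add (ih fun j hj => h j (mem_insert_of_mem hj))

theorem CFT.sum (F : CFT) {m : ℕ} {ι : Type*} (s : Finset ι) {c : ι → Gam → Gam → ZMod (2 ^ m)}
    (hH : Op H) (h : ∀ i ∈ s, C2 m (H ⊓ Dec w) (c i)) :
    F.inv m H w (fun g k => ∑ i ∈ s, c i g k) = ∑ i ∈ s, F.inv m H w (c i) := by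
  induction s using Finset.induction_on with
  | empty => simpa using B3c_inv_zero F hH
  | insert i s hi ih =>
    have e : (fun g k => ∑ j ∈ insert i s, c j g k) = c i + fun g k => ∑ j ∈ s, c j g k := by
      funext g k; simp [Finset.sum_insert hi]
    have h' : ∀ j ∈ s, C2 m (H ⊓ Dec w) (c j) := fun j hj => h j (mem_insert_of_mem hj)
    rw [e, F.add hH (h i (mem_insert_self _ _)) (B3c_c2_sum s h'), ih h', Finset.sum_insert hi]

/-- A smooth cocycle is unramified at almost all places. -/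
theorem CFT.finite (F : CFT) {m : ℕ} {c : Gam → Gam → ZMod (2 ^ m)} (hH : Op H) (h : C2 m H c) :
    ∃ s : Finset ℕ, ∀ w : Plc, w.p ∉ s → F.inv m H w c = 0 := by
  obtain ⟨U, hU, -, hc⟩ := h.1
  obtain ⟨s, hs⟩ := finite_ram hU
  refine ⟨s, fun w hw => F.unr hH (h.mono inf_le_left) fun g hg k hk σ hσ σ' hσ' => ?_⟩
  refine (hc g hg.1 (g * σ) (mul_mem hg.1 hσ.1) k hk.1 (k * σ') (mul_mem hk.1 hσ'.1) ?_ ?_).symm
  · simpa using hs w hw hσ.2
  · simpa using hs w hw hσ'.2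

theorem B3c_cup_cob (F : CFT) {m : ℕ} {χ κ : Gam → ZMod (2 ^ m)} (hH : Op H)
    (h1 : Sm (H ⊓ Dec w) χ) (h2 : IsHom (H ⊓ Dec w) χ) (x : ZMod (2 ^ m))
    (hx : ∀ g ∈ H ⊓ Dec w, κ g = (cy m g - 1) * x) :
    C2 m (H ⊓ Dec w) (cup m χ κ) ∧ F.inv m H w (cup m χ κ) = 0 := by
  have hs : Spl m (H ⊓ Dec w) (cup m χ κ) := by
    refine ⟨fun g => -(χ g * cy m g * x), h1.comp₂ (sm_cy m) (fun a b => -(a * b * x)),
      fun g hg k hk => ?_⟩
    simp only [cup, hx k hk, h2 g hg k hk, B3c_cy_mul]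
    ring
  exact ⟨hs.c2, (F.zero_iff hH hs.c2).2 hs⟩

/-- The symbol of a character and a number: it vanishes on local powers. -/
theorem CFT.cup_pow (F : CFT) {m : ℕ} {χ κ : Gam → ZMod (2 ^ m)} {a : Qbar} (hH : Op H)
    (h1 : Sm (H ⊓ Dec w) χ) (h2 : IsHom (H ⊓ Dec w) χ) (h3 : Kum m (H ⊓ Dec w) a κ)
    (h4 : ∃ r, Fx (H ⊓ Dec w) r ∧ r ^ 2 ^ m = a) : F.inv m H w (cup m χ κ) = 0 := by
  obtain ⟨x, hx⟩ := h3.pow_iff.1 h4
  exact (B3c_cup_cob F hH h1 h2 x hx).2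

/-- The symbol does not depend on the chosen root. -/
theorem CFT.cup_congr (F : CFT) {m : ℕ} {χ κ κ' : Gam → ZMod (2 ^ m)} {a : Qbar} (hH : Op H)
    (h1 : Sm (H ⊓ Dec w) χ) (h2 : IsHom (H ⊓ Dec w) χ) (h3 : Kum m (H ⊓ Dec w) a κ)
    (h4 : Kum m (H ⊓ Dec w) a κ') : F.inv m H w (cup m χ κ) = F.inv m H w (cup m χ κ') := by
  obtain ⟨x, hx⟩ := h3.sub h4
  obtain ⟨k1, k2⟩ := B3c_cup_cob (κ := fun g => κ g - κ' g) F hH h1 h2 x hx
  have e : cup m χ κ = cup m χ (fun g => κ g - κ' g) + cup m χ κ' := by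
    funext g k; simp only [cup, Pi.add_apply]; ring
  rw [e, F.add hH k1 (c2_cup h1 h2 h4.sm h4.coc), k2, zero_add]

end Pool.Agent.Lib.MP_696deb_nt.B2
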