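import Pool.Agent.Lib.MP_696deb_nt.B2.CRb

/-! Local norms are approximated by global norms. -/

set_option autoImplicit false

open scoped NNReal Classical
open Filter Topology Finset

namespace Pool.Agent.Lib.MP_696deb_nt.B2

theorem cre_range {n : ℕ} [NeZero n] (f : ZMod n → Qbar) : ∏ i ∈ range n, f i = ∏ j, f j :=
  prod_nbij' (fun i => (i : ZMod n)) (fun j => j.val) (fun _ _ => mem_univ _)
    (fun j _ => mem_range.2 j.val_lt) (fun _ h => ZMod.val_cast_of_lt (mem_range.1 h))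
    (fun j _ => ZMod.natCast_zmod_val j) fun _ _ => rfl

/-- A local norm equation, spread over all values of the character. -/
theorem cre_local {D : Subgroup Gam} (hD : IsClosed (D : Set Gam)) {u : ℕ}
    {ψ : Gam → ZMod (2 ^ u)} (h1 : Sm D ψ) (h2 : IsHom D ψ) {a : Qbar} (h0 : a ≠ 0) (ha : Fx D a)
    (h : Coh D (Cy (2 ^ u) ψ a) 1) : ∃ Y : ZMod (2 ^ u) → Qbar, (∀ j, Y j ≠ 0) ∧
      (∀ d ∈ D, ∀ j, Y (ψ d + j) = d (Y j)) ∧ ∏ j, Y j = a := by
  obtain ⟨u', v, χ, s, e, k1, k2, hs, hs1, k3⟩ := exists_scale h1 h2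
  obtain ⟨β, hβ, e2⟩ := (Cy_split_iff hD k1 k2 hs hs1 h0 ha).1
    ((Cy_scale (d := 2 ^ v) (by rw [e, pow_add]) k3 a).symm.trans h)
  have b0 : β ≠ 0 := by
    rintro rfl
    exact h0 (e2.trans (clc_Nm_zero s))
  have eq : ∀ g ∈ D, ∀ g' ∈ D, (ψ g = ψ g' ↔ χ g = χ g') := fun g hg g' hg' => by
    rw [← (ZMod.val_injective _).eq_iff, ← (ZMod.val_injective _).eq_iff, k3 g hg, k3 g' hg']
    exact Nat.mul_right_inj (by positivity)
  let Y : ZMod (2 ^ u) → Qbar := fun j => if k : ∃ d ∈ D, ψ d = j then k.choose β else 1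
  have y1 : ∀ d ∈ D, Y (ψ d) = d β := fun d hd => by
    have k : ∃ d' ∈ D, ψ d' = ψ d := ⟨d, hd, rfl⟩
    obtain ⟨p, hp, e3⟩ := clc_mem k2 k.choose_spec.1 hd ((eq _ k.choose_spec.1 _ hd).1
      k.choose_spec.2)
    simp only [Y, dif_pos k]
    rw [e3, AlgEquiv.mul_apply, hβ p hp]
  have y2 : ∀ j, (¬ ∃ d ∈ D, ψ d = j) → Y j = 1 := fun j k => dif_neg k
  refine ⟨Y, fun j => ?_, fun d hd j => ?_, ?_⟩
  · by_cases k : ∃ d ∈ D, ψ d = j
    · obtain ⟨d, hd, rfl⟩ := k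
      rw [y1 d hd]
      exact (map_ne_zero _).2 b0
    · rw [y2 j k]
      exact one_ne_zero
  · by_cases k : ∃ d ∈ D, ψ d = j
    · obtain ⟨d', hd', rfl⟩ := k
      rw [← h2 d hd d' hd', y1 _ (mul_mem hd hd'), y1 _ hd', AlgEquiv.mul_apply]
    · rw [y2 j k, map_one]
      refine y2 _ fun ⟨d', hd', e3⟩ => k ⟨d⁻¹ * d', mul_mem (inv_mem hd) hd', ?_⟩
      have e4 := h2 d hd _ (mul_mem (inv_mem hd) hd')
      rw [mul_inv_cancel_left, e3] at e4
      exact (add_left_cancel e4).symm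
  · have inj : Set.InjOn (fun i : ℕ => ψ (s ^ i)) (range (2 ^ u') : Finset ℕ) := fun i hi j hj k => by
      have e3 := (eq _ (pow_mem hs i) _ (pow_mem hs j)).1 k
      rw [clc_pow k2 hs hs1, clc_pow k2 hs hs1] at e3
      rw [← ZMod.val_cast_of_lt (mem_range.1 hi), e3, ZMod.val_cast_of_lt (mem_range.1 hj)]
    rw [e2, Nm, ← prod_subset (subset_univ ((range (2 ^ u')).image fun i => ψ (s ^ i))),
      prod_image inj]
    · exact prod_congr rfl fun i _ => y1 _ (pow_mem hs i)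
    · refine fun j _ hj => y2 j fun ⟨d, hd, e3⟩ => hj (mem_image.2 ⟨(χ d).val,
        mem_range.2 (ZMod.val_lt _), ?_⟩)
      rw [← e3, eq _ (pow_mem hs _) _ hd, clc_pow k2 hs hs1, ZMod.natCast_zmod_val]

theorem cre_min {ι : Type*} (t : Finset ι) (f : ι → ℝ≥0) (h : ∀ i ∈ t, 0 < f i) :
    ∃ e : ℝ≥0, 0 < e ∧ ∀ i ∈ t, e ≤ f i := by
  induction t using Finset.induction_on with
  | empty => exact ⟨1, one_pos, by simp⟩
  | insert a t _ ih =>
    obtain ⟨e, e0, he⟩ := ih fun i hi => h i (mem_insert_of_mem hi)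
    refine ⟨min e (f a), lt_min e0 (h a (mem_insert_self _ _)), fun i hi => ?_⟩
    rcases mem_insert.1 hi with rfl | hi
    · exact min_le_right _ _
    · exact (min_le_left _ _).trans (he i hi)

theorem cre_one (w : Plc) {z : Qbar} (h : w.V (z - 1) < 1) : w.V z = 1 := by
  have := w.V.map_one_add_of_lt h
  rwa [add_sub_cancel] at this

theorem cre_prod {ι : Type*} (w : Plc) (t : Finset ι) (z : ι → Qbar) {η : ℝ≥0} (h0 : 0 < η)
    (h1 : η ≤ 1) (h : ∀ i ∈ t, w.V (z i - 1) < η) : w.V (∏ i ∈ t, z i - 1) < η := by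
  induction t using Finset.induction_on with
  | empty => simpa using h0
  | insert a t ha ih =>
    have k := h a (mem_insert_self _ _)
    rw [prod_insert ha, show z a * ∏ i ∈ t, z i - 1 = z a * (∏ i ∈ t, z i - 1) + (z a - 1) by ring]
    refine w.V.map_add_lt ?_ k
    rw [map_mul, cre_one w (k.trans_le h1), one_mul]
    exact ih fun i hi => h i (mem_insert_of_mem hi)

theorem approx_norm {H : Subgroup Gam} (hH : Op H) {u : ℕ} {ψ : Gam → ZMod (2 ^ u)} (h1 : Sm H ψ)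
    (h2 : IsHom H ψ) {s : Gam} (hs : s ∈ H) (hs1 : ψ s = 1) {a : Qbar} (h0 : a ≠ 0) (ha : Fx H a)
    (B : Finset ℕ) (hB : ∀ w : Plc, w.p ∈ B → Coh (H ⊓ Dec w) (Cy (2 ^ u) ψ a) 1) {ε : ℝ≥0}
    (hε : 0 < ε) : ∃ β, β ≠ 0 ∧ Fx (kerOn H ψ h2) β ∧
      ∀ w : Plc, w.p ∈ B → w.V (a / Nm s (2 ^ u) β - 1) < ε := by
  by_cases hne : ∃ w : Plc, w.p ∈ B
  swap
  · exact ⟨1, one_ne_zero, fun g _ => map_one g, fun w hw => absurd ⟨w, hw⟩ hne⟩
  obtain ⟨U, hU, eU⟩ := kerOn_open h1 h2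
  have hK : Op (kerOn H ψ h2) := eU ▸ hU.inf hH
  choose! Y Y0 Y1 Y2 using fun (w : Plc) (hw : w.p ∈ B) =>
    cre_local (hH.closed.inter (closed_Dec w)) (h1.mono inf_le_left)
      (fun g hg k hk => h2 g hg.1 k hk.1) h0 (fun g hg => ha g hg.1) (hB w hw)
  let R := MulAction.orbitRel H Plc
  let r : Plc → Plc := fun v => (Quotient.mk R v).out
  have hr : ∀ v, ∃ g ∈ H, g • v = r v := fun v => by
    obtain ⟨g, hg⟩ := MulAction.mem_orbit_iff.1 (MulAction.orbitRel_apply.1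
      (Quotient.exact (Quotient.out_eq (Quotient.mk R v))))
    exact ⟨g, g.2, hg⟩
  have hr2 : ∀ g ∈ H, ∀ v, r (g • v) = r v := fun g hg v =>
    congrArg Quotient.out (Quotient.sound (MulAction.orbitRel_apply.2
      (MulAction.mem_orbit_iff.2 ⟨⟨g, hg⟩, rfl⟩)))
  choose γ γ1 γ2 using hr
  have rp : ∀ v, (r v).p = v.p := fun v => by rw [← γ2 v, smul_p]
  let x : Plc → Qbar := fun v => (γ v)⁻¹ (Y (r v) (ψ (γ v)))
  have key : ∀ v : Plc, v.p ∈ B → ∀ g ∈ H, g • v = r v → g (x v) = Y (r v) (ψ g) := by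
    intro v hv g hg e
    have m1 := mul_mem hg (inv_mem (γ1 v))
    have m2 : g * (γ v)⁻¹ ∈ Dec (r v) := by
      refine MulAction.mem_stabilizer_iff.2 ?_
      rw [mul_smul, ← γ2 v, inv_smul_smul, e, γ2 v]
    have e2 := h2 _ m1 _ (γ1 v)
    rw [inv_mul_cancel_right] at e2
    rw [e2, Y1 _ (rp v ▸ hv) _ ⟨m1, m2⟩, AlgEquiv.mul_apply]
  have x0 : ∀ v : Plc, v.p ∈ B → x v ≠ 0 := fun v hv => (map_ne_zero _).2 (Y0 _ (rp v ▸ hv) _)
  obtain ⟨t, t1, t2, t3⟩ := exists_reps hK B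
  have η0 : 0 < min ε 1 := lt_min hε one_pos
  obtain ⟨e, e0, he⟩ := cre_min t (fun v => min ε 1 * v.V (x v)) fun v hv =>
    mul_pos η0 (v.V.pos_iff.2 (x0 v (t2 v hv)))
  obtain ⟨β, β1, β2⟩ := approx_weak hK t t1 x (fun v hv k hk => by
    have e1 := key v (t2 v hv) (γ v * k) (mul_mem (γ1 v) hk.1.1) (by
      rw [mul_smul, show k • v = v from hk.2, γ2])
    rw [h2 _ (γ1 v) _ hk.1.1, hk.1.2, add_zero, ← key v (t2 v hv) _ (γ1 v) (γ2 v),
      AlgEquiv.mul_apply] at e1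
    exact (γ v).injective e1) e0
  have est : ∀ v ∈ t, v.V (β / x v - 1) < min ε 1 := fun v hv => by
    have k := x0 v (t2 v hv)
    rw [div_sub_one k, map_div₀, div_lt_iff₀ (v.V.pos_iff.2 k), v.V.map_sub_swap]
    exact (β2 v hv).trans_le (he v hv)
  have all : ∀ w : Plc, w.p ∈ B → ∀ g ∈ H, (r w).V (g β / Y (r w) (ψ g) - 1) < min ε 1 := by
    intro w hw g hg
    have k := t3 (g⁻¹ • r w) (by rw [smul_p, rp]; exact hw)
    simp only [Away, not_forall, not_not] at k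
    obtain ⟨v, hv, k, hk, e1⟩ := k
    have e2 : r v = r w := by
      rw [← hr2 k hk.1 v, e1, hr2 _ (inv_mem hg), ← γ2 w, hr2 _ (γ1 w), γ2]
    have e3 : (g * k) • v = r v := by rw [mul_smul, e1, smul_inv_smul, e2]
    have e4 := key v (t2 v hv) _ (mul_mem hg hk.1) e3
    rw [h2 _ hg _ hk.1, hk.2, add_zero, e2] at e4
    have e5 : g β / Y (r w) (ψ g) - 1 = (g * k) (β / x v - 1) := by
      rw [map_sub, map_div₀, e4, map_one, AlgEquiv.mul_apply, β1 k hk]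
    rw [e5, ← e2, ← e3, smul_V, ← AlgEquiv.mul_apply, inv_mul_cancel, AlgEquiv.one_apply]
    exact est v hv
  refine ⟨β, ?_, β1, fun w hw => ?_⟩
  · rintro rfl
    obtain ⟨w, hw⟩ := hne
    have k := (all w hw 1 (one_mem _)).trans_le (min_le_right _ _)
    simp at k
  · have k := cre_prod (r w) (range (2 ^ u)) (fun i => (s ^ i) β / Y (r w) (ψ (s ^ i))) η0
      (min_le_right _ _) fun i _ => all w hw _ (pow_mem hs i)
    simp only [clc_pow h2 hs hs1] at k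
    rw [prod_div_distrib, cre_range (Y (r w)), Y2 _ (rp w ▸ hw)] at k
    change (r w).V (Nm s (2 ^ u) β / a - 1) < _ at k
    have k1 := cre_one _ (k.trans_le (min_le_right _ _))
    have k2 : Nm s (2 ^ u) β / a ≠ 0 := fun h => by simp [h] at k1
    have e1 : a / Nm s (2 ^ u) β - 1 = -((Nm s (2 ^ u) β / a - 1) / (Nm s (2 ^ u) β / a)) := by
      rw [sub_div, div_self k2, one_div, inv_div, neg_sub]
    have e2 : w.V (a / Nm s (2 ^ u) β - 1) = (r w).V (a / Nm s (2 ^ u) β - 1) := by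
      rw [← γ2 w, smul_V]
      congr 1
      rw [map_sub, map_div₀, map_one, ha _ (inv_mem (γ1 w)),
        fx_Nm h2 hs hs1 β1 _ (inv_mem (γ1 w))]
    rw [e2, e1, Valuation.map_neg, map_div₀, k1, div_one]
    exact k.trans_le (min_le_left _ _)

end Pool.Agent.Lib.MP_696deb_nt.B2
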