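import Pool.Agent.Lib.MP_696deb_nt.B2.CF0
import Pool.Agent.Lib.MP_580eba_nt.Step

/-! Number fields of open subgroups and their primes. -/

set_option autoImplicit false

open scoped NNReal Classical
open Filter Topology Finset

namespace Pool.Agent.Lib.MP_696deb_nt.B2

open Pool.Agent.Lib.MP_580eba_nt (Pl val)

variable {H : Subgroup Gam} {w w' : Plc}

theorem fx_Kf (x : Kf H) : Fx H (x : Qbar) := b3a_fx.2 x.2

theorem cfa_fix (hH : Op H) : (Kf H).fixingSubgroup = H :=
  InfiniteGalois.fixingSubgroup_fixedField (k := ℚ) (K := Qbar) ⟨H, hH.closed⟩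

theorem nf_Kf (hH : Op H) : NumberField (Kf H) := by
  have : FiniteDimensional ℚ (Kf H) :=
    (InfiniteGalois.isOpen_iff_finite (Kf H)).1 (by rw [cfa_fix hH]; exact hH)
  exact ⟨⟩

theorem finrank_Kf (hH : Op H) : Module.finrank ℚ (Kf H) = H.index := by
  rw [IntermediateField.finrank_eq_fixingSubgroup_index, cfa_fix hH]

theorem tc_Kf (hH : Op H) (hT : TC H) : NumberField.IsTotallyComplex (Kf H) := by
  refine ⟨fun u => NumberField.InfinitePlace.not_isReal_iff_isComplex.1 ?_⟩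
  rintro ⟨φ, hφ, -⟩
  let j := NumberField.ComplexEmbedding.lift Qbar φ
  obtain ⟨σ, hσ⟩ := NumberField.ComplexEmbedding.exists_comp_symm_eq_of_comp_eq (k := ℚ) j
    (NumberField.ComplexEmbedding.conjugate j) (Subsingleton.elim _ _)
  have h1 : ∀ x, j (σ.symm x) = starRingEnd ℂ (j x) := RingHom.congr_fun hσ
  refine hT σ.symm ⟨j, h1⟩ (mem_of_fx hH.closed fun x hx => j.injective ?_)
  have h2 : j x = φ ⟨x, b3a_fx.1 hx⟩ :=
    NumberField.ComplexEmbedding.lift_algebraMap_apply Qbar φ ⟨x, b3a_fx.1 hx⟩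
  rw [h1, h2]
  exact RingHom.congr_fun (NumberField.ComplexEmbedding.isReal_iff.1 hφ) _

/-- The integers of the fixed field as algebraic integers. -/
noncomputable def cfaHom (H : Subgroup Gam) : NumberField.RingOfIntegers (Kf H) →+* Zbar :=
  ((algebraMap (Kf H) Qbar).comp (algebraMap _ (Kf H))).codRestrict (integralClosure ℤ Qbar)
    fun a => map_isIntegral_int (algebraMap (Kf H) Qbar) a.isIntegral_coe

variable [NumberField (Kf H)] {v v' : Pl (Kf H)}

/-- The place `w` lies over the prime `v`. -/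
def Un (w : Plc) (v : Pl (Kf H)) : Prop :=
  ∀ x y : Kf H, val v x < val v y ↔ w.V (x : Qbar) < w.V (y : Qbar)

theorem cfa_un (h : (b2aP w).comap (cfaHom H) = v.asIdeal) : Un w v := by
  have h0 : ∀ a : NumberField.RingOfIntegers (Kf H),
      val v (a : Kf H) < 1 ↔ w.V ((a : Kf H) : Qbar) < 1 := fun a => by
    rw [MP_580eba_nt.val_int_lt, ← h]
    rfl
  have h1 : ∀ x : Kf H, val v x ≤ 1 → (val v x < 1 ↔ w.V (x : Qbar) < 1) := fun x hx => by
    obtain ⟨n, ⟨d, hd⟩, e⟩ := v.exists_primeCompl_mul_eq_of_integer x hx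
    have a1 : ¬ val v (d : Kf H) < 1 := mt (MP_580eba_nt.val_int_lt v d).1 hd
    have a2 := (w.V_le_one_of_isIntegral (cfaHom H d).2).eq_of_not_lt (mt (h0 d).2 a1)
    have a3 := congrArg (val v) e
    have a4 : w.V ((x : Qbar) * cfaHom H d) = w.V ((n : Kf H) : Qbar) :=
      congrArg (fun z : Kf H => w.V (z : Qbar)) e
    rw [map_mul, (MP_580eba_nt.val_int_le v d).eq_of_not_lt a1, mul_one] at a3
    rw [map_mul, a2, mul_one] at a4
    rw [a3, a4]
    exact h0 n
  have h2 : ∀ x : Kf H, val v x < 1 ↔ w.V (x : Qbar) < 1 := fun x => by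
    refine (le_or_gt (val v x) 1).elim (h1 x) fun hx => iff_of_false hx.not_gt fun k => ?_
    have x0 : x ≠ 0 := by
      rintro rfl
      simp at hx
    have a1 : val v x⁻¹ < 1 := by rw [map_inv₀]; exact inv_lt_one_of_one_lt₀ hx
    have a2 := b2a_mul_lt w k.le ((h1 _ a1.le).1 a1)
    rw [← IntermediateField.coe_mul, mul_inv_cancel₀ x0] at a2
    simp at a2
  intro x y
  rcases eq_or_ne y 0 with rfl | hy
  · simp
  · rw [← div_lt_one₀ (MP_580eba_nt.val_pos v hy), ← map_div₀, h2, IntermediateField.coe_div,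
      map_div₀, div_lt_one₀ (b3a_pos w fun e => hy (Subtype.ext e))]

theorem exists_un (w : Plc) : ∃ v : Pl (Kf H), Un w v := by
  refine ⟨⟨(b2aP w).comap (cfaHom H), Ideal.comap_isPrime _ _, fun h => ?_⟩, cfa_un rfl⟩
  have h1 : (w.p : NumberField.RingOfIntegers (Kf H)) ∈ (b2aP w).comap (cfaHom H) := by
    rw [Ideal.mem_comap, map_natCast]
    exact b2a_p_mem w
  rw [h, Ideal.mem_bot, Nat.cast_eq_zero] at h1
  exact w.prime.ne_zero h1

theorem cfa_lt (h : Un w v) (x : Kf H) : val v x < 1 ↔ w.V (x : Qbar) < 1 := by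
  simpa using h x 1

theorem Un.uniq (h : Un w v) (h' : Un w v') : v = v' := by
  exact MP_580eba_nt.pl_ext fun x => (cfa_lt h x).trans (cfa_lt h' x).symm

theorem exists_over (v : Pl (Kf H)) : ∃ w, Un w v := by
  let _ := (cfaHom H).toAlgebra
  have : Algebra.IsIntegral (NumberField.RingOfIntegers (Kf H)) Zbar :=
    ⟨RingHom.IsIntegral.tower_top (Int.castRingHom _) (cfaHom H) (by
      rw [Subsingleton.elim (RingHom.comp _ _) (algebraMap ℤ Zbar)]
      exact Algebra.IsIntegral.isIntegral)⟩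
  have := v.isMaximal
  obtain ⟨Q, h1, h2⟩ := Ideal.exists_ideal_over_maximal_of_isIntegral (S := Zbar) v.asIdeal
    fun a ha => by
      have e : ((a : Kf H) : Qbar) = 0 := congrArg Subtype.val (RingHom.mem_ker.1 ha)
      rw [show a = 0 by simpa using e]
      exact zero_mem _
  obtain ⟨w, rfl⟩ := b2a_surj Q h1
  exact ⟨w, cfa_un h2⟩

theorem Un.conj (hH : Op H) (h : Un w v) (h' : Un w' v) : ∃ g ∈ H, g • w = w' := by
  exact plc_conj_of hH.closed fun x hx =>
    (cfa_lt h ⟨x, b3a_fx.1 hx⟩).symm.trans (cfa_lt h' ⟨x, b3a_fx.1 hx⟩)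

theorem Un.smul (h : Un w v) {g : Gam} (hg : g ∈ H) : Un (g • w) v := by
  intro x y
  rw [smul_V, smul_V, fx_Kf x _ (inv_mem hg), fx_Kf y _ (inv_mem hg)]
  exact h x y

theorem Un.eq_one (h : Un w v) (x : Kf H) : val v x = 1 ↔ w.V (x : Qbar) = 1 := by
  have h1 : 1 < val v x ↔ 1 < w.V (x : Qbar) := by simpa using h 1 x
  rw [le_antisymm_iff, le_antisymm_iff, ← not_lt, ← not_lt, ← not_lt, ← not_lt, h1, cfa_lt h]

end Pool.Agent.Lib.MP_696deb_nt.B2
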