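import Pool.Agent.Lib.MP_696deb_nt.B2.CH1
import Pool.Agent.Lib.MP_696deb_nt.B2.B2b

/-! The density theorem of Frobenius for elements of two-power order. -/

set_option autoImplicit false

open scoped NNReal Classical
open Filter Topology Finset NumberField

namespace Pool.Agent.Lib.MP_696deb_nt.B2

section Field

variable {K : Type} [Field K] [NumberField K]

omit [NumberField K] in
theorem ch2_le (w : Plc) (j : K →+* Qbar) (x : 𝓞 K) : w.V (j x) ≤ 1 :=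
  w.V_le_one_of_isIntegral (x.isIntegral_coe.map j.toIntAlgHom)

/-- The prime ideal of a place under an embedding. -/
def ch2I (w : Plc) (j : K →+* Qbar) : Ideal (𝓞 K) where
  carrier := {x | w.V (j x) < 1}
  add_mem' := fun {x y} hx hy => by
    have : j ((x + y : 𝓞 K) : K) = j x + j y := by simp
    change w.V _ < 1
    rw [this]
    exact w.V.map_add_lt hx hy
  zero_mem' := by simp
  smul_mem' := fun c x hx => by
    have : j ((c • x : 𝓞 K) : K) = j c * j x := by simp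
    change w.V _ < 1
    rw [this, map_mul]
    exact (mul_le_of_le_one_left' (ch2_le w j c)).trans_lt hx

theorem ch2_mem {w : Plc} {j : K →+* Qbar} {x : 𝓞 K} : x ∈ ch2I w j ↔ w.V (j x) < 1 := Iff.rfl

theorem ch2_prime (w : Plc) (j : K →+* Qbar) : (ch2I w j).IsPrime := by
  refine ⟨(Ideal.ne_top_iff_one _).2 (by simp [ch2_mem]), fun {x y} h => ?_⟩
  by_contra k
  rw [not_or, ch2_mem, ch2_mem] at k
  have e : j ((x * y : 𝓞 K) : K) = j x * j y := by simp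
  rw [ch2_mem, e, map_mul, le_antisymm (ch2_le w j x) (not_lt.1 k.1),
    le_antisymm (ch2_le w j y) (not_lt.1 k.2), mul_one] at h
  exact lt_irrefl _ h

theorem ch2_ext (j σ : K →+* Qbar) : ∃ g : Gam, ∀ x, g (j x) = σ x := by
  let _ : Algebra K Qbar := j.toAlgebra
  have : IsScalarTower ℚ K Qbar := IsScalarTower.of_algebraMap_eq fun q => by simp
  let f : Qbar →ₐ[ℚ] Qbar := σ.toRatAlgHom.liftNormal Qbar
  exact ⟨AlgEquiv.ofBijective f (Algebra.IsAlgebraic.algHom_bijective f), fun x =>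
    σ.toRatAlgHom.liftNormal_commutes Qbar x⟩

/-- Every prime of degree one comes from a place. -/
theorem ch2_plc (j : K →+* Qbar) {P : Ideal (𝓞 K)} (hP : P.IsMaximal)
    (hp : (Ideal.absNorm P).Prime) : ∃ w : Plc, w.p = Ideal.absNorm P ∧ P = ch2I w j := by
  obtain ⟨w, hw⟩ := exists_plc hp
  have h1 : (P : Set (𝓞 K)) ⊆ ⋃ σ ∈ ((univ : Finset (K →ₐ[ℚ] Qbar)) : Set (K →ₐ[ℚ] Qbar)),
      ch2I w σ.toRingHom := by
    intro x hx
    have h2 := Ideal.absNorm_dvd_norm_of_mem hx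
    have h3 : ((Algebra.norm ℤ x : ℤ) : Qbar) = ∏ σ : K →ₐ[ℚ] Qbar, σ x := by
      rw [← Algebra.norm_eq_prod_embeddings ℚ Qbar (x : K), ← Algebra.coe_norm_int]
      simp
    have h4 : w.V ((Algebra.norm ℤ x : ℤ) : Qbar) ≠ 1 := by
      rw [Ne, w.V_int_eq_one, not_not, hw]
      exact h2
    by_contra h5
    refine h4 ?_
    rw [h3, map_prod]
    refine prod_eq_one fun σ _ => le_antisymm (ch2_le w σ.toRingHom x) (not_lt.1 fun h6 => h5 ?_)
    exact Set.mem_biUnion (mem_coe.2 (mem_univ σ)) h6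
  obtain ⟨σ, -, h2⟩ := (Ideal.subset_union_prime j.toRatAlgHom j.toRatAlgHom
    fun σ _ _ _ => ch2_prime w σ.toRingHom).1 h1
  obtain ⟨g, hg⟩ := ch2_ext j σ.toRingHom
  refine ⟨g⁻¹ • w, hw, ?_⟩
  rw [hP.eq_of_le (ch2_prime w σ.toRingHom).ne_top h2]
  ext x
  rw [ch2_mem, ch2_mem, smul_V, inv_inv, hg]

theorem ch2_card {P : Ideal (𝓞 K)} [Fintype (𝓞 K ⧸ P)] :
    Fintype.card (𝓞 K ⧸ P) = Ideal.absNorm P := by
  rw [Ideal.absNorm_apply, Submodule.cardQuot_apply, Nat.card_eq_fintype_card]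

theorem ch2_pow {P : Ideal (𝓞 K)} (hP : P.IsMaximal) (x : 𝓞 K) : x ^ Ideal.absNorm P - x ∈ P := by
  have h0 := Ring.ne_bot_of_isMaximal_of_not_isField hP (RingOfIntegers.not_isField K)
  have : Finite (𝓞 K ⧸ P) := Ideal.finiteQuotientOfFreeOfNeBot P h0
  let _ := Fintype.ofFinite (𝓞 K ⧸ P)
  let _ := Ideal.Quotient.field P
  rw [← Ideal.Quotient.eq, map_pow, ← ch2_card, FiniteField.pow_card]

theorem ch2_euler {P : Ideal (𝓞 K)} (hP : P.IsMaximal) (ho : Ideal.absNorm P % 2 = 1) {d : 𝓞 K}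
    (hd : d ∉ P) (h : d ^ (Ideal.absNorm P / 2) - 1 ∈ P) : ∃ r : 𝓞 K, d - r ^ 2 ∈ P := by
  have h0 := Ring.ne_bot_of_isMaximal_of_not_isField hP (RingOfIntegers.not_isField K)
  have : Finite (𝓞 K ⧸ P) := Ideal.finiteQuotientOfFreeOfNeBot P h0
  let _ := Fintype.ofFinite (𝓞 K ⧸ P)
  let _ := Ideal.Quotient.field P
  have h1 : ringChar (𝓞 K ⧸ P) ≠ 2 := fun e => by
    rw [FiniteField.even_card_iff_char_two, ch2_card] at e
    omega
  rw [← Ideal.Quotient.eq, map_pow, ← ch2_card, map_one] at h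
  obtain ⟨r, hr⟩ := (FiniteField.isSquare_iff h1
    (fun e => hd (Ideal.Quotient.eq_zero_iff_mem.1 e))).2 h
  obtain ⟨r, rfl⟩ := Ideal.Quotient.mk_surjective r
  exact ⟨r, Ideal.Quotient.eq.1 (by rw [hr, sq, map_mul])⟩

theorem ch2_sep (x : Qbar) : ∃ S : Finset ℕ, ∀ w : Plc, w.p ∉ S → ∀ g : Gam,
    w.V (g x - x) < 1 → g x = x := by
  have hf := (sm_apply (H := ⊤) x).finite_range
  have h1 : ∀ y : Qbar, ∃ S : Finset ℕ, ∀ w : Plc, w.p ∉ S → w.V (y - x) < 1 → y = x := by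
    intro y
    by_cases hy : y - x = 0
    · exact ⟨∅, fun _ _ _ => sub_eq_zero.1 hy⟩
    · obtain ⟨S, hS⟩ := finite_supp hy
      exact ⟨S, fun w hw h => absurd (hS w hw) h.ne⟩
  choose S hS using h1
  refine ⟨hf.toFinset.biUnion S, fun w hw g => hS _ w fun h => hw ?_⟩
  exact mem_biUnion.2 ⟨g x, hf.mem_toFinset.2 ⟨g, trivial, rfl⟩, h⟩

/-- At almost all primes of degree one the Frobenius elements fix the field. -/
theorem ch2_fix (j : K →+* Qbar) : ∃ S : Finset ℕ, ∀ (w : Plc) (φ : Gam), w.p ∉ S →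
    (ch2I w j).IsMaximal → w.p = Ideal.absNorm (ch2I w j) → IsFrob w w.p φ →
    ∀ x, φ (j x) = j x := by
  choose S hS using fun i => ch2_sep (j (RingOfIntegers.basis K i))
  refine ⟨univ.biUnion S, fun w φ hw hm hp hφ x => ?_⟩
  have h1 : ∀ i, φ (j (RingOfIntegers.basis K i)) = j (RingOfIntegers.basis K i) := by
    intro i
    refine hS i w (fun h => hw (mem_biUnion.2 ⟨i, mem_univ _, h⟩)) φ ?_
    have h2 := ch2_mem.1 (ch2_pow hm (RingOfIntegers.basis K i))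
    have h3 := hφ.2 _ (ch2_le w j (RingOfIntegers.basis K i))
    rw [← hp] at h2
    have h4 := w.V.map_add_lt h3 h2
    simpa using h4
  have h2 : (φ.toAlgHom.comp j.toRatAlgHom).toLinearMap = j.toRatAlgHom.toLinearMap :=
    (integralBasis K).ext fun i => by
      rw [integralBasis_apply]
      exact h1 i
  exact LinearMap.congr_fun h2 x

end Field

theorem ch2_field {H : Subgroup Gam} (hH : Op H) : ∃ (K : Type) (_ : Field K) (_ : NumberField K)
    (j : K →+* Qbar), ∀ x, Fx H x ↔ ∃ y, j y = x := by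
  have h1 : FiniteDimensional ℚ (IntermediateField.fixedField H) := by
    rw [← InfiniteGalois.isOpen_iff_finite,
      InfiniteGalois.fixingSubgroup_fixedField ⟨H, hH.closed⟩]
    exact hH
  refine ⟨IntermediateField.fixedField H, inferInstance, NumberField.of_module_finite ℚ _,
    algebraMap _ _, fun x => ⟨fun h => ⟨⟨x, fun g => h g.1 g.2⟩, rfl⟩, ?_⟩⟩
  rintro ⟨y, rfl⟩ g hg
  exact y.2 ⟨g, hg⟩

theorem exists_frob_mem {H : Subgroup Gam} (hH : Op H) (B : Finset ℕ) :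
    ∃ (w : Plc) (φ : Gam), w.p ∉ B ∧ IsFrob w w.p φ ∧ φ ∈ H := by
  obtain ⟨K, _, _, j, hj⟩ := ch2_field hH
  obtain ⟨S, hS⟩ := ch2_fix j
  obtain ⟨P, h1, h2, h3⟩ := exists_deg_one' K (B ∪ S)
  obtain ⟨w, hw, rfl⟩ := ch2_plc j h1 h2
  obtain ⟨φ, hφ⟩ := exists_frob w
  rw [← hw, mem_union, not_or] at h3
  refine ⟨w, φ, h3.1, hφ, mem_of_fx hH.closed fun x hx => ?_⟩
  obtain ⟨y, rfl⟩ := (hj x).1 hx
  exact hS w φ h3.2 h1 hw hφ y

theorem exists_frob_neg {H : Subgroup Gam} (hH : Op H) {r : Qbar} (h1 : Fx H (r ^ 2))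
    (h2 : ¬ Fx H r) (B : Finset ℕ) :
    ∃ (w : Plc) (φ : Gam), w.p ∉ B ∧ IsFrob w w.p φ ∧ φ ∈ H ∧ φ r ≠ r := by
  have ha : IsAlgebraic ℤ r :=
    (IsFractionRing.isAlgebraic_iff ℤ ℚ Qbar).2 (Algebra.IsAlgebraic.isAlgebraic r)
  obtain ⟨n, hn, hi⟩ := ha.exists_integral_multiple
  rw [zsmul_eq_mul] at hi
  have hn' : (n : Qbar) ≠ 0 := Int.cast_ne_zero.2 hn
  have k0 : ∀ g : Gam, g (n * r) = n * r ↔ g r = r := fun g => by
    rw [map_mul, map_intCast, mul_right_inj' hn']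
  have k1 : Fx H ((n * r) ^ 2) := fun g hg => by
    rw [mul_pow, map_mul, h1 g hg, map_pow, map_intCast]
  have k2 : ¬ Fx H (n * r) := fun h => h2 fun g hg => (k0 g).1 (h g hg)
  suffices ∃ (w : Plc) (φ : Gam), w.p ∉ B ∧ IsFrob w w.p φ ∧ φ ∈ H ∧ φ (n * r) ≠ n * r by
    obtain ⟨w, φ, a1, a2, a3, a4⟩ := this
    exact ⟨w, φ, a1, a2, a3, fun e => a4 ((k0 φ).2 e)⟩
  generalize (n : Qbar) * r = t at hi k1 k2
  have ht : t ≠ 0 := fun e => k2 fun g _ => by rw [e, map_zero]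
  obtain ⟨K, _, _, j, hj⟩ := ch2_field hH
  obtain ⟨S, hS⟩ := ch2_fix j
  obtain ⟨T, hT⟩ := finite_supp ht
  obtain ⟨d, hd⟩ := (hj _).1 k1
  have hdi : IsIntegral ℤ d := by
    rw [← isIntegral_algHom_iff j.toIntAlgHom j.injective]
    exact (show j d = t ^ 2 from hd) ▸ hi.pow 2
  obtain ⟨d, rfl⟩ : ∃ D : 𝓞 K, (D : K) = d := ⟨⟨d, hdi⟩, rfl⟩
  have hns : ¬ IsSquare (d : K) := by
    rintro ⟨y, hy⟩
    have h3 : t ^ 2 = j y ^ 2 := by rw [← hd, sq, ← map_mul, ← hy]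
    rcases sq_eq_sq_iff_eq_or_eq_neg.1 h3 with e | e
    · exact k2 ((hj t).2 ⟨y, e.symm⟩)
    · exact k2 ((hj t).2 ⟨-y, by rw [map_neg, e]⟩)
  obtain ⟨P, a1, a2, a3, a4⟩ := exists_deg_one_nonres hns (insert 2 (B ∪ (S ∪ T)))
  obtain ⟨w, hw, rfl⟩ := ch2_plc j a1 a2
  obtain ⟨φ, hφ⟩ := exists_frob w
  rw [← hw, mem_insert, mem_union, mem_union, not_or, not_or, not_or] at a3
  obtain ⟨b1, b2, b3, b4⟩ := a3
  refine ⟨w, φ, b2, hφ, mem_of_fx hH.closed fun x hx => ?_, fun e => ?_⟩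
  · obtain ⟨y, rfl⟩ := (hj x).1 hx
    exact hS w φ b3 a1 hw hφ y
  have hv := hT w b4
  have ho : w.p % 2 = 1 := w.prime.eq_two_or_odd.resolve_left b1
  have hm : d ∉ ch2I w j := by
    rw [ch2_mem, hd, map_pow, hv, one_pow]
    exact lt_irrefl _
  refine a4.resolve_left hm (ch2_euler a1 (hw ▸ ho) hm ?_)
  have h3 := hφ.2 t hv.le
  have h4 : t - t ^ w.p = -t * ((t ^ 2) ^ (w.p / 2) - 1) := by
    have h5 : w.p = 2 * (w.p / 2) + 1 := by omega
    rw [← pow_mul, mul_sub, neg_mul, ← pow_succ', ← h5]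
    ring
  rw [e, h4, map_mul, Valuation.map_neg, hv, one_mul, ← hd] at h3
  rw [ch2_mem, ← hw]
  simpa using h3

theorem cheb : ChebStmt := by
  intro U s k B hU hN hs
  by_cases h : s ∈ U
  · obtain ⟨w, φ, h1, h2, h3⟩ := exists_frob_mem hU B
    exact ⟨w, φ, 1, h1, h2, odd_one, mul_mem (inv_mem h3) (pow_mem h 1)⟩
  have ho : ∀ g : Gam, Op (Subgroup.zpowers g ⊔ U) := fun g =>
    Subgroup.isOpen_mono le_sup_right hU
  have h1 : s ∉ Subgroup.zpowers (s ^ 2) ⊔ U := by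
    intro h1
    obtain ⟨_, ⟨n, rfl⟩, u, hu, e⟩ := Subgroup.mem_sup_of_normal_right.1 h1
    have h2 : s ^ (1 - 2 * n) = u := by
      have e' : (s ^ 2) ^ n * u = s := e
      rw [eq_inv_mul_iff_mul_eq.2 e', ← zpow_natCast, ← zpow_mul, ← zpow_neg, ← zpow_add_one]
      congr 1
      push_cast
      ring
    obtain ⟨a, b, hab⟩ : IsCoprime ((2 : ℤ) ^ k) (1 - 2 * n) :=
      IsCoprime.pow_left ⟨n, 1, by ring⟩
    have h3 : s = (s ^ 2 ^ k) ^ a * (s ^ (1 - 2 * n)) ^ b := by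
      rw [← zpow_natCast, ← zpow_mul, ← zpow_mul, ← zpow_add]
      push_cast
      rw [mul_comm _ a, mul_comm _ b, hab, zpow_one]
    exact h (h3 ▸ mul_mem (zpow_mem hs a) (zpow_mem (h2 ▸ hu) b))
  obtain ⟨x, hx, hsx⟩ : ∃ x, Fx (Subgroup.zpowers (s ^ 2) ⊔ U) x ∧ s x ≠ x := by
    by_contra h2
    exact h1 (mem_of_fx (ho _).closed fun x hx => by_contra fun h3 => h2 ⟨x, hx, h3⟩)
  have a1 : s (x - s x) = -(x - s x) := by
    have := hx (s ^ 2) (Subgroup.mem_sup_left (Subgroup.mem_zpowers _))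
    rw [sq, AlgEquiv.mul_apply] at this
    rw [map_sub, this, neg_sub]
  have a2 : ∀ u ∈ U, u (x - s x) = x - s x := by
    intro u hu
    have h2 := hx _ (Subgroup.mem_sup_right (hN.conj_mem' u hu s))
    have h3 : u (s x) = s ((s⁻¹ * u * s) x) := by
      rw [← AlgEquiv.mul_apply, ← AlgEquiv.mul_apply, mul_assoc, mul_inv_cancel_left]
    rw [map_sub, hx u (Subgroup.mem_sup_right hu), h3, h2]
  have a0 : x - s x ≠ 0 := fun e => hsx (sub_eq_zero.1 e).symm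
  generalize x - s x = r at a0 a1 a2
  have a3 : ∀ n : ℤ, (s ^ (2 * n)) r = r := by
    intro n
    have : s ^ 2 ∈ MulAction.stabilizer Gam r := by
      change (s ^ 2) r = r
      rw [sq, AlgEquiv.mul_apply, a1, map_neg, a1, neg_neg]
    have h2 := zpow_mem this n
    rw [← zpow_natCast, ← zpow_mul] at h2
    exact h2
  have a4 : Fx (Subgroup.zpowers s ⊔ U) (r ^ 2) := by
    have : Subgroup.zpowers s ⊔ U ≤ MulAction.stabilizer Gam (r ^ 2) := by
      refine sup_le (Subgroup.zpowers_le.2 ?_) fun u hu => ?_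
      · change s (r ^ 2) = r ^ 2
        rw [map_pow, a1, neg_sq]
      · change u (r ^ 2) = r ^ 2
        rw [map_pow, a2 u hu]
    exact fun g hg => this hg
  have a5 : ¬ Fx (Subgroup.zpowers s ⊔ U) r := fun e => by
    have := e s (Subgroup.mem_sup_left (Subgroup.mem_zpowers _))
    rw [a1] at this
    exact a0 (self_eq_neg.1 this.symm)
  obtain ⟨w, φ, b1, b2, b3, b4⟩ := exists_frob_neg (ho s) a4 a5 B
  obtain ⟨_, ⟨n, rfl⟩, u, hu, rfl⟩ := Subgroup.mem_sup_of_normal_right.1 b3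
  have c1 : Odd n := by
    rcases Int.even_or_odd' n with ⟨m, rfl | rfl⟩
    · exact absurd (by rw [AlgEquiv.mul_apply, a2 u hu]; exact a3 m) b4
    · exact odd_two_mul_add_one m
  have c2 : 0 ≤ n + 2 ^ k * (2 * |n|) := by
    have h2 : (1 : ℤ) ≤ 2 ^ k := one_le_pow₀ one_le_two
    nlinarith [abs_nonneg n, neg_abs_le n]
  obtain ⟨a, ha⟩ := Int.eq_ofNat_of_zero_le c2
  refine ⟨w, _, a, b1, b2, ?_, ?_⟩
  · rw [← Int.odd_coe_nat, ← ha]
    exact c1.add_even ((even_two_mul _).mul_left _)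
  · have h2 : (s ^ n * u)⁻¹ * s ^ a = u⁻¹ * (s ^ 2 ^ k) ^ (2 * |n|) := by
      rw [← zpow_natCast s a, ← ha, zpow_add, ← zpow_natCast s (2 ^ k), ← zpow_mul, mul_inv_rev,
        mul_assoc, inv_mul_cancel_left]
      push_cast
      rfl
    exact h2 ▸ mul_mem (inv_mem hu) (zpow_mem hs _)

end Pool.Agent.Lib.MP_696deb_nt.B2
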