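import Pool.Agent.Lib.MP_696deb_nt.B2.B3a
import Pool.Agent.Lib.MP_696deb_nt.B2.B3b
import Pool.Agent.Lib.MP_696deb_nt.B2.B2b

/-! Local class field theory: definitions. -/

set_option autoImplicit false

open scoped NNReal Classical
open Filter Topology Finset

namespace Pool.Agent.Lib.MP_696deb_nt.B2

/-- The local half of the structure `CFT`. -/
structure LCFT where
  inv : (m : ℕ) → Subgroup Gam → Plc → (Gam → Gam → ZMod (2 ^ m)) → ZMod (2 ^ m)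
  add : ∀ {m H w c c'}, Op H → C2 m (H ⊓ Dec w) c → C2 m (H ⊓ Dec w) c' →
    inv m H w (c + c') = inv m H w c + inv m H w c'
  congr : ∀ {m H w c c'}, (∀ g ∈ H ⊓ Dec w, ∀ h ∈ H ⊓ Dec w, c g h = c' g h) →
    inv m H w c = inv m H w c'
  zero_iff : ∀ {m H w c}, Op H → C2 m (H ⊓ Dec w) c →
    (inv m H w c = 0 ↔ Spl m (H ⊓ Dec w) c)
  red : ∀ {m m' H w c} (h : m' ≤ m), Op H → C2 m (H ⊓ Dec w) c →
    inv m' H w (fun g k => ZMod.castHom (pow_dvd_pow 2 h) (ZMod (2 ^ m')) (c g k)) =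
      ZMod.castHom (pow_dvd_pow 2 h) (ZMod (2 ^ m')) (inv m H w c)
  inc : ∀ {m H w c} (n : ℕ), Op H → C2 m (H ⊓ Dec w) c →
    inv (m + n) H w (fun g k => 2 ^ n * ((c g k).val : ZMod (2 ^ (m + n)))) =
      2 ^ n * ((inv m H w c).val : ZMod (2 ^ (m + n)))
  res : ∀ {m H H' w c}, Op H' → H' ≤ H → C2 m (H ⊓ Dec w) c →
    inv m H' w c = ((H' ⊓ Dec w).relIndex (H ⊓ Dec w) : ZMod (2 ^ m)) * inv m H w c
  unr : ∀ {m H w c}, Op H → C2 m (H ⊓ Dec w) c →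
    (∀ g ∈ H ⊓ Dec w, ∀ h ∈ H ⊓ Dec w, ∀ σ ∈ H ⊓ Ine w, ∀ σ' ∈ H ⊓ Ine w,
      c (g * σ) (h * σ') = c g h) → inv m H w c = 0
  kum : ∀ {m H w χ κ a φ} (k : ℤ), Op H → Ine w ≤ H → φ ∈ H →
    IsFrob w (w.p ^ (H ⊓ Dec w).relIndex (Dec w)) φ → Sm (H ⊓ Dec w) χ → IsHom (H ⊓ Dec w) χ →
    (∀ σ ∈ Ine w, χ σ = 0) → Kum m (H ⊓ Dec w) a κ → w.V a = ((w.p : ℝ≥0) ^ k)⁻¹ →
    inv m H w (cup m χ κ) = χ φ * k
  unit : ∀ {m H w χ κ a}, Op H → Sm (H ⊓ Dec w) χ → IsHom (H ⊓ Dec w) χ →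
    (∀ σ ∈ H ⊓ Ine w, χ σ = 0) → Kum m (H ⊓ Dec w) a κ → w.V a = 1 → inv m H w (cup m χ κ) = 0
  crit : ∀ {m H w χ}, Op H → Sm (H ⊓ Dec w) χ → IsHom (H ⊓ Dec w) χ →
    (∀ a κ, Fx H a → w.V a = 1 → Kum m H a κ → inv m H w (cup m χ κ) = 0) →
    ∀ σ ∈ H ⊓ Ine w, χ σ = 0

/-- Smooth two-cocycles with values in the nonzero algebraic numbers. -/
def CQ (G : Subgroup Gam) (γ : Gam → Gam → Qbar) : Prop :=
  Sm2 G γ ∧ (∀ g ∈ G, ∀ h ∈ G, γ g h ≠ 0) ∧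
    ∀ g ∈ G, ∀ h ∈ G, ∀ k ∈ G, g (γ h k) * γ g (h * k) = γ (g * h) k * γ g h

/-- Cohomologous cochains. -/
def Coh (G : Subgroup Gam) (γ γ' : Gam → Gam → Qbar) : Prop :=
  ∃ b : Gam → Qbar, Sm G b ∧ (∀ g, b g ≠ 0) ∧
    ∀ g ∈ G, ∀ h ∈ G, γ g h * b (g * h) = γ' g h * (b g * g (b h))

/-- The cochain of roots of unity attached to an additive cochain. -/
noncomputable def zc (m : ℕ) (c : Gam → Gam → ZMod (2 ^ m)) (g h : Gam) : Qbar :=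
  zeta m ^ (c g h).val

/-- The carry cocycle of a character. -/
def car (n : ℕ) (χ : Gam → ZMod n) (g h : Gam) : ℕ := ((χ g).val + (χ h).val) / n

/-- The cyclic cocycle of a character and a number. -/
noncomputable def Cy (n : ℕ) (χ : Gam → ZMod n) (a : Qbar) (g h : Gam) : Qbar := a ^ car n χ g h

/-- The norm along the powers of `s`. -/
noncomputable def Nm (s : Gam) (n : ℕ) (β : Qbar) : Qbar := ∏ i ∈ range n, (s ^ i) β

/-- The kernel of a character on a subgroup. -/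
def kerOn {A : Type} [AddGroup A] (G : Subgroup Gam) (χ : Gam → A) (h : IsHom G χ) :
    Subgroup Gam where
  carrier := {g | g ∈ G ∧ χ g = 0}
  one_mem' := ⟨one_mem _, by
    have := h 1 (one_mem _) 1 (one_mem _)
    rw [mul_one] at this
    exact left_eq_add.1 this⟩
  mul_mem' := fun {a b} ha hb => ⟨mul_mem ha.1 hb.1, by rw [h a ha.1 b hb.1, ha.2, hb.2, add_zero]⟩
  inv_mem' := fun {a} ha => ⟨inv_mem ha.1, by
    have h1 := h 1 (one_mem _) 1 (one_mem _)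
    rw [mul_one] at h1
    have h2 := h a ha.1 a⁻¹ (inv_mem ha.1)
    rw [mul_inv_cancel, left_eq_add.1 h1, ha.2, zero_add] at h2
    exact h2.symm⟩

theorem mem_kerOn {A : Type} [AddGroup A] {G : Subgroup Gam} {χ : Gam → A} {h : IsHom G χ}
    {g : Gam} : g ∈ kerOn G χ h ↔ g ∈ G ∧ χ g = 0 := Iff.rfl

/-- The local data of the fixed field of `H ⊓ Dec w`: residue degree, ramification index,
Frobenius element, uniformizer, normalised degree map. -/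
structure LD (H : Subgroup Gam) (w : Plc) where
  f : ℕ
  e : ℕ
  φ : Gam
  π : Qbar
  ω : Gam → ℤ_[2]
  f_pos : 0 < f
  e_pos : 0 < e
  φ_mem : φ ∈ H
  frob : IsFrob w (w.p ^ f) φ
  dvd : ∀ (n : ℕ) (ψ : Gam), ψ ∈ H → IsFrob w (w.p ^ n) ψ → f ∣ n
  gen : ∀ g ∈ H ⊓ Dec w, ∀ U : Subgroup Gam, Op U →
    ∃ (j : ℕ) (σ : Gam), σ ∈ H ⊓ Ine w ∧ (φ ^ j * σ)⁻¹ * g ∈ U ⊓ (H ⊓ Dec w)
  π_fx : Fx H π
  π_pos : 0 < w.V π
  π_lt : w.V π < 1
  val : ∀ x, Fx (H ⊓ Ine w) x → x ≠ 0 → ∃ k : ℤ, w.V x = w.V π ^ k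
  V_p : w.V π ^ e = (w.p : ℝ≥0)⁻¹
  e_eq : (H ⊓ Ine w).relIndex (Ine w) = e
  ef : (H ⊓ Dec w).relIndex (Dec w) = e * f
  ω_sm : ∀ t, Sm (H ⊓ Dec w) fun g => PadicInt.toZModPow t (ω g)
  ω_hom : IsHom (H ⊓ Dec w) ω
  ω_φ : ω φ = 1
  ω_ine : ∀ σ ∈ H ⊓ Ine w, ω σ = 0

/-- The unramified character of order `2 ^ t`. -/
noncomputable def LD.om {H : Subgroup Gam} {w : Plc} (L : LD H w) (t : ℕ) (g : Gam) :
    ZMod (2 ^ t) := PadicInt.toZModPow t (L.ω g)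

/-- The unramified class with invariant `k / 2 ^ t`. -/
noncomputable def LD.ur {H : Subgroup Gam} {w : Plc} (L : LD H w) (t : ℕ) (k : ℤ) :
    Gam → Gam → Qbar := Cy (2 ^ t) (L.om t) (L.π ^ k)

/-- The nonzero numbers fixed by a subgroup. -/
def FU (D : Subgroup Gam) : Subgroup Qbarˣ where
  carrier := {x | Fx D (x : Qbar)}
  one_mem' := fun g _ => by simp
  mul_mem' := fun {a b} ha hb g hg => by
    rw [Units.val_mul, map_mul, ha g hg, hb g hg]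
  inv_mem' := fun {a} ha g hg => by
    rw [Units.val_inv_eq_inv_val, map_inv₀, ha g hg]

theorem mem_FU {D : Subgroup Gam} {x : Qbarˣ} : x ∈ FU D ↔ Fx D (x : Qbar) := Iff.rfl

/-- The number of square classes. -/
noncomputable def sqIdx (D : Subgroup Gam) : ℕ := ((FU D).map (powMonoidHom 2)).relIndex (FU D)


end Pool.Agent.Lib.MP_696deb_nt.B2
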