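import Pool.Agent.Lib.MP_696deb_nt.B2.CL0

/-! Cohomologous cochains and cyclic cocycles: formal properties. -/

set_option autoImplicit false

open scoped NNReal Classical
open Filter Topology Finset

namespace Pool.Agent.Lib.MP_696deb_nt.B2

variable {G P : Subgroup Gam} {γ γ' γ'' δ δ' : Gam → Gam → Qbar}

theorem cla_ne (g : Gam) {x : Qbar} (h : x ≠ 0) : g x ≠ 0 := (map_ne_zero g).2 h

theorem cla_congr {α : Type*} {c c' : Gam → Gam → α} (h : Sm2 G c)
    (k : ∀ g ∈ G, ∀ l ∈ G, c g l = c' g l) : Sm2 G c' := by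
  obtain ⟨U, h1, h2, h3⟩ := h
  exact ⟨U, h1, h2, fun a ha b hb d hd e he x y => by
    rw [← k a ha d hd, ← k b hb e he, h3 a ha b hb d hd e he x y]⟩

theorem cla_app {b : Gam → Qbar} (h : Sm G b) : Sm2 G fun g k => g (b k) := by
  have : Finite (b '' (G : Set Gam)) := h.finite_range
  obtain ⟨U, h1, h2, h3⟩ :=
    (Sm.pi (H := G) fun x : b '' (G : Set Gam) => sm_apply (x : Qbar)).left.comp₂ h.right Prod.mk
  refine ⟨U, h1, h2, fun a ha a' ha' d hd d' hd' x y => ?_⟩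
  have e := h3 a ha a' ha' d hd d' hd' x y
  have e1 : b d = b d' := congrArg Prod.snd e
  have e2 : a (b d') = a' (b d') := congrFun (congrArg Prod.fst e) ⟨b d', d', hd', rfl⟩
  change a (b d) = a' (b d')
  rw [e1, e2]

theorem Coh.refl (G : Subgroup Gam) (γ : Gam → Gam → Qbar) : Coh G γ γ :=
  ⟨fun _ => 1, Sm.const _, fun _ => one_ne_zero, fun g _ k _ => by rw [map_one, one_mul]⟩

theorem Coh.symm (h : Coh G γ γ') : Coh G γ' γ := by
  obtain ⟨b, h1, h2, h3⟩ := h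
  refine ⟨fun g => (b g)⁻¹, h1.comp _, fun g => inv_ne_zero (h2 g), fun g hg k hk => ?_⟩
  have e1 := h2 g
  have e2 := h2 (g * k)
  have e3 := cla_ne g (h2 k)
  rw [map_inv₀]
  field_simp
  linear_combination -h3 g hg k hk

theorem Coh.trans (h : Coh G γ γ') (h' : Coh G γ' γ'') : Coh G γ γ'' := by
  obtain ⟨b, h1, h2, h3⟩ := h
  obtain ⟨b', k1, k2, k3⟩ := h'
  refine ⟨fun g => b g * b' g, h1.comp₂ k1 (· * ·), fun g => mul_ne_zero (h2 g) (k2 g),
    fun g hg k hk => ?_⟩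
  rw [map_mul]
  linear_combination b' (g * k) * h3 g hg k hk + b g * g (b k) * k3 g hg k hk

theorem Coh.mul (h : Coh G γ γ') (h' : Coh G δ δ') : Coh G (γ * δ) (γ' * δ') := by
  obtain ⟨b, h1, h2, h3⟩ := h
  obtain ⟨b', k1, k2, k3⟩ := h'
  refine ⟨fun g => b g * b' g, h1.comp₂ k1 (· * ·), fun g => mul_ne_zero (h2 g) (k2 g),
    fun g hg k hk => ?_⟩
  rw [map_mul]
  simp only [Pi.mul_apply]
  linear_combination δ g k * b' (g * k) * h3 g hg k hk + γ' g k * b g * g (b k) * k3 g hg k hk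

theorem Coh.pow (h : Coh G γ γ') (n : ℕ) : Coh G (γ ^ n) (γ' ^ n) := by
  obtain ⟨b, h1, h2, h3⟩ := h
  refine ⟨fun g => b g ^ n, h1.comp (· ^ n), fun g => pow_ne_zero _ (h2 g), fun g hg k hk => ?_⟩
  simp only [Pi.pow_apply]
  rw [map_pow, ← mul_pow, ← mul_pow, ← mul_pow, h3 g hg k hk]

theorem Coh.inv (h : Coh G γ γ') : Coh G γ⁻¹ γ'⁻¹ := by
  obtain ⟨b, h1, h2, h3⟩ := h
  refine ⟨fun g => (b g)⁻¹, h1.comp _, fun g => inv_ne_zero (h2 g), fun g hg k hk => ?_⟩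
  simp only [Pi.inv_apply]
  rw [map_inv₀, ← mul_inv, ← mul_inv, ← mul_inv, h3 g hg k hk]

theorem Coh.mono (h : Coh G γ γ') (k : P ≤ G) : Coh P γ γ' := by
  obtain ⟨b, h1, h2, h3⟩ := h
  exact ⟨b, h1.mono k, h2, fun g hg l hl => h3 g (k hg) l (k hl)⟩

theorem Coh.of_eq (h : ∀ g ∈ G, ∀ k ∈ G, γ g k = γ' g k) : Coh G γ γ' :=
  ⟨fun _ => 1, Sm.const _, fun _ => one_ne_zero, fun g hg k hk => by
    rw [map_one, one_mul, h g hg k hk]⟩

theorem Coh.cancel (h : Coh G (γ * δ⁻¹) γ') (h0 : ∀ g ∈ G, ∀ k ∈ G, δ g k ≠ 0) :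
    Coh G γ (γ' * δ) := by
  obtain ⟨b, h1, h2, h3⟩ := h
  refine ⟨b, h1, h2, fun g hg k hk => ?_⟩
  have e := h3 g hg k hk
  have e1 := mul_inv_cancel₀ (h0 g hg k hk)
  simp only [Pi.mul_apply, Pi.inv_apply] at e ⊢
  linear_combination δ g k * e - γ g k * b (g * k) * e1

theorem Coh.div (h : Coh G γ δ) (h0 : ∀ g ∈ G, ∀ k ∈ G, δ g k ≠ 0) : Coh G (γ * δ⁻¹) 1 := by
  obtain ⟨b, h1, h2, h3⟩ := h
  refine ⟨b, h1, h2, fun g hg k hk => ?_⟩
  have e1 := mul_inv_cancel₀ (h0 g hg k hk)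
  simp only [Pi.mul_apply, Pi.inv_apply, Pi.one_apply]
  linear_combination (δ g k)⁻¹ * h3 g hg k hk + b g * g (b k) * e1

theorem coh_one_iff : Coh G γ 1 ↔ SplQ G γ := by
  simp only [Coh, SplQ, Pi.one_apply, one_mul]

theorem CQ.mono (h : CQ G γ) (k : P ≤ G) : CQ P γ :=
  ⟨h.1.mono k, fun g hg l hl => h.2.1 g (k hg) l (k hl),
    fun g hg l hl j hj => h.2.2 g (k hg) l (k hl) j (k hj)⟩

theorem CQ.mul (h : CQ G γ) (h' : CQ G δ) : CQ G (γ * δ) := by
  refine ⟨h.1.comp₂ h'.1 (· * ·), fun g hg k hk => mul_ne_zero (h.2.1 g hg k hk) (h'.2.1 g hg k hk),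
    fun g hg k hk l hl => ?_⟩
  simp only [Pi.mul_apply]
  rw [map_mul]
  linear_combination g (δ k l) * δ g (k * l) * h.2.2 g hg k hk l hl +
    γ (g * k) l * γ g k * h'.2.2 g hg k hk l hl

theorem CQ.inv (h : CQ G γ) : CQ G γ⁻¹ := by
  refine ⟨h.1.comp (·⁻¹), fun g hg k hk => inv_ne_zero (h.2.1 g hg k hk), fun g hg k hk l hl => ?_⟩
  simp only [Pi.inv_apply]
  rw [map_inv₀, ← mul_inv, ← mul_inv, h.2.2 g hg k hk l hl]

theorem CQ.of_coh (h : CQ G γ) (k : Coh G γ γ') : CQ G γ' := by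
  obtain ⟨b, h1, h2, h3⟩ := k
  have e : ∀ g ∈ G, ∀ l ∈ G, γ g l * b (g * l) / (b g * g (b l)) = γ' g l := fun g hg l hl => by
    rw [h3 g hg l hl, mul_div_cancel_right₀ _ (mul_ne_zero (h2 g) (cla_ne g (h2 l)))]
  refine ⟨cla_congr ((h.1.comp₂ h1.mul (· * ·)).comp₂ (h1.left.comp₂ (cla_app h1) (· * ·)) (· / ·))
    e, fun g hg l hl => ?_, fun g hg k hk l hl => ?_⟩
  · rw [← e g hg l hl]
    exact div_ne_zero (mul_ne_zero (h.2.1 g hg l hl) (h2 _)) (mul_ne_zero (h2 g) (cla_ne g (h2 l)))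
  · rw [← e k hk l hl, ← e g hg _ (mul_mem hk hl), ← e _ (mul_mem hg hk) l hl, ← e g hg k hk,
      map_div₀, map_mul, map_mul, mul_assoc g k l, AlgEquiv.mul_apply]
    have e1 := h2 g
    have e2 := h2 (g * k)
    have e3 := cla_ne g (h2 k)
    have e4 := cla_ne g (h2 (k * l))
    have e5 := cla_ne g (cla_ne k (h2 l))
    field_simp
    linear_combination b (g * (k * l)) * h.2.2 g hg k hk l hl

theorem C2.cq {m : ℕ} {c : Gam → Gam → ZMod (2 ^ m)} (h : C2 m G c) : CQ G (zc m c) := by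
  refine ⟨h.1.comp fun x => zeta m ^ x.val, fun g _ k _ => b3b_ne m _, fun g hg k hk l hl => ?_⟩
  simp only [zc]
  rw [smul_zeta_val, ← zeta_val_add, ← zeta_val_add, h.2 g hg k hk l hl]

theorem zc_add (m : ℕ) (c c' : Gam → Gam → ZMod (2 ^ m)) : zc m (c + c') = zc m c * zc m c' :=
  funext fun g => funext fun k => zeta_val_add m (c g k) (c' g k)

theorem zc_pow (m : ℕ) (c : Gam → Gam → ZMod (2 ^ m)) : zc m c ^ 2 ^ m = 1 :=
  funext fun g => funext fun k => b3b_pow m (c g k)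

theorem cla_zeta (m n : ℕ) : zeta (m + n) ^ 2 ^ n = zeta m := by
  induction n with
  | zero => rw [pow_zero, pow_one, add_zero]
  | succ n ih => rw [pow_succ', pow_mul, ← add_assoc, zeta_succ_sq, ih]

theorem zc_red {m m' : ℕ} (h : m' ≤ m) (c : Gam → Gam → ZMod (2 ^ m)) :
    zc m' (fun g k => ZMod.castHom (pow_dvd_pow 2 h) (ZMod (2 ^ m')) (c g k)) =
      zc m c ^ 2 ^ (m - m') := by
  funext g k
  obtain ⟨d, rfl⟩ := Nat.exists_eq_add_of_le h
  simp only [zc, Pi.pow_apply]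
  rw [ZMod.castHom_apply, ZMod.cast_eq_val, b1b_zeta_cast, Nat.add_sub_cancel_left,
    pow_right_comm, cla_zeta]

theorem zc_inc (m n : ℕ) (c : Gam → Gam → ZMod (2 ^ m)) :
    zc (m + n) (fun g k => 2 ^ n * ((c g k).val : ZMod (2 ^ (m + n)))) = zc m c := by
  funext g k
  simp only [zc]
  have e : (2 : ZMod (2 ^ (m + n))) ^ n * ((c g k).val : ZMod (2 ^ (m + n))) =
      ((2 ^ n * (c g k).val : ℕ) : ZMod (2 ^ (m + n))) := by
    rw [Nat.cast_mul, Nat.cast_pow, Nat.cast_ofNat]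
  rw [e, b1b_zeta_cast, pow_mul, cla_zeta]

variable {n : ℕ} [NeZero n] {χ χ' : Gam → ZMod n} {a b : Qbar}

omit [NeZero n] in
theorem cla_pow (h0 : a ≠ 0) (ha : Fx G a) {e : Gam → ℕ} (he : Sm G e) {u v : Gam → Gam → ℕ}
    (h : ∀ g ∈ G, ∀ k ∈ G, u g k + e (g * k) = v g k + (e g + e k)) :
    Coh G (fun g k => a ^ u g k) fun g k => a ^ v g k :=
  ⟨fun g => a ^ e g, he.comp _, fun _ => pow_ne_zero _ h0, fun g hg k hk => by
    rw [map_pow, ha g hg, ← pow_add, ← pow_add, ← pow_add, h g hg k hk]⟩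

theorem cla_val (x y : ZMod n) : x.val + y.val = (x + y).val + n * ((x.val + y.val) / n) := by
  rw [ZMod.val_add, Nat.mod_add_div]

theorem car_spec (h : IsHom G χ) {g k : Gam} (hg : g ∈ G) (hk : k ∈ G) :
    (χ g).val + (χ k).val = (χ (g * k)).val + n * car n χ g k := by
  rw [h g hg k hk]
  exact cla_val _ _

theorem cq_Cy (h1 : Sm G χ) (h2 : IsHom G χ) (h0 : a ≠ 0) (ha : Fx G a) : CQ G (Cy n χ a) := by
  refine ⟨h1.left.comp₂ h1.right fun x y => a ^ ((x.val + y.val) / n),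
    fun g _ k _ => pow_ne_zero _ h0, fun g hg k hk l hl => ?_⟩
  simp only [Cy]
  rw [map_pow, ha g hg, ← pow_add, ← pow_add]
  refine congrArg (a ^ ·) (Nat.eq_of_mul_eq_mul_left (NeZero.pos n) ?_)
  have e1 := car_spec h2 hk hl
  have e2 := car_spec h2 hg (mul_mem hk hl)
  have e3 := car_spec h2 (mul_mem hg hk) hl
  have e4 := car_spec h2 hg hk
  rw [mul_assoc] at e3
  rw [mul_add, mul_add]
  omega

omit [NeZero n] in
theorem Cy_mul (χ : Gam → ZMod n) (a b : Qbar) : Cy n χ (a * b) = Cy n χ a * Cy n χ b :=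
  funext fun _ => funext fun _ => mul_pow _ _ _

omit [NeZero n] in
theorem Cy_inv (χ : Gam → ZMod n) (a : Qbar) : Cy n χ a⁻¹ = (Cy n χ a)⁻¹ :=
  funext fun _ => funext fun _ => inv_pow _ _

omit [NeZero n] in
theorem Cy_pow (χ : Gam → ZMod n) (a : Qbar) (j : ℕ) : Cy n χ (a ^ j) = Cy n χ a ^ j :=
  funext fun _ => funext fun _ => pow_right_comm _ _ _

omit [NeZero n] in
theorem Cy_one (χ : Gam → ZMod n) : Cy n χ 1 = 1 :=
  funext fun _ => funext fun _ => one_pow _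

omit [NeZero n] in
theorem Cy_congr (h : ∀ g ∈ G, χ g = χ' g) (a : Qbar) : Coh G (Cy n χ a) (Cy n χ' a) :=
  Coh.of_eq fun g hg k hk => by rw [Cy, Cy, car, car, h g hg, h k hk]

theorem Cy_add (h1 : Sm G χ) (h2 : IsHom G χ) (h1' : Sm G χ') (h2' : IsHom G χ') (h0 : a ≠ 0)
    (ha : Fx G a) : Coh G (Cy n (χ + χ') a) (Cy n χ a * Cy n χ' a) := by
  have h3 : IsHom G (χ + χ') := fun g hg k hk => by
    simp only [Pi.add_apply]
    rw [h2 g hg k hk, h2' g hg k hk, add_add_add_comm]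
  have key := cla_pow (u := fun g k => car n χ g k + car n χ' g k) (v := car n (χ + χ')) h0 ha
    (h1.comp₂ h1' fun x y => (x.val + y.val) / n) fun g hg k hk => by
      refine Nat.eq_of_mul_eq_mul_left (NeZero.pos n) ?_
      have e1 := car_spec h2 hg hk
      have e2 := car_spec h2' hg hk
      have e3 := car_spec h3 hg hk
      have e4 := cla_val (χ g) (χ' g)
      have e5 := cla_val (χ k) (χ' k)
      have e6 := cla_val (χ (g * k)) (χ' (g * k))
      simp only [Pi.add_apply] at e3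
      simp only [mul_add]
      omega
  exact key.symm.trans (Coh.of_eq fun g _ k _ => pow_add _ _ _)

theorem Cy_nsmul (h1 : Sm G χ) (h2 : IsHom G χ) (h0 : a ≠ 0) (ha : Fx G a) (j : ℕ) :
    Coh G (Cy n (fun g => j * χ g) a) (Cy n χ (a ^ j)) := by
  induction j with
  | zero =>
    refine Coh.of_eq fun g _ k _ => ?_
    simp only [Cy, car, Nat.cast_zero, zero_mul, ZMod.val_zero, add_zero, Nat.zero_div, pow_zero,
      one_pow]
  | succ j ih =>
    have e : (fun g => ((j + 1 : ℕ) : ZMod n) * χ g) = (fun g => (j : ZMod n) * χ g) + χ := by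
      funext g
      rw [Pi.add_apply, Nat.cast_succ, add_mul, one_mul]
    rw [e, pow_succ, Cy_mul]
    refine (Cy_add (h1.comp fun x => (j : ZMod n) * x) (fun g hg k hk => ?_) h1 h2 h0 ha).trans
      (ih.mul (Coh.refl G _))
    rw [h2 g hg k hk, mul_add]

theorem Cy_pow_n (h1 : Sm G χ) (h2 : IsHom G χ) (h0 : a ≠ 0) (ha : Fx G a) :
    Coh G (Cy n χ (a ^ n)) 1 := by
  have key := cla_pow (u := fun g k => n * car n χ g k) (v := fun _ _ => 0) h0 ha
    (h1.comp ZMod.val) fun g hg k hk => by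
      have e1 := car_spec h2 hg hk
      omega
  exact ((Coh.of_eq fun g _ k _ => (pow_mul _ _ _).symm).trans key).trans
    (Coh.of_eq fun g _ k _ => pow_zero _)

omit [NeZero n] in
/-- Enlarging the group of values does not change the cocycle. -/
theorem Cy_scale {n' d : ℕ} [NeZero n'] {ψ : Gam → ZMod n'} (hn : n' = d * n)
    (h : ∀ g ∈ G, (ψ g).val = d * (χ g).val) (a : Qbar) : Coh G (Cy n' ψ a) (Cy n χ a) := by
  have hd : 0 < d := Nat.pos_of_ne_zero fun e => NeZero.ne n' (by rw [hn, e, zero_mul])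
  refine Coh.of_eq fun g hg k hk => ?_
  rw [Cy, Cy, car, car, h g hg, h k hk, ← mul_add]
  refine congrArg (a ^ ·) ?_
  rw [hn, Nat.mul_div_mul_left _ _ hd]

/-- Reducing the character. -/
theorem Cy_red {n' d : ℕ} [NeZero n'] {ψ : Gam → ZMod n'} (hn : n' = d * n) (h1 : Sm G ψ)
    (h2 : IsHom G ψ) (h : ∀ g ∈ G, χ g = ((ψ g).val : ZMod n)) (h0 : a ≠ 0) (ha : Fx G a) :
    Coh G (Cy n χ a) (Cy n' ψ (a ^ d)) := by
  have h3 : IsHom G χ := fun g hg k hk => by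
    have e := congrArg (Nat.cast : ℕ → ZMod n) (car_spec h2 hg hk)
    have e0 : ((n' : ℕ) : ZMod n) = 0 := by rw [hn, Nat.cast_mul, ZMod.natCast_self, mul_zero]
    rw [Nat.cast_add, Nat.cast_add, Nat.cast_mul, e0, zero_mul, add_zero] at e
    rw [h g hg, h k hk, h _ (mul_mem hg hk), e]
  have h4 : ∀ g ∈ G, (ψ g).val = (χ g).val + n * ((ψ g).val / n) := fun g hg => by
    rw [h g hg, ZMod.val_natCast, Nat.mod_add_div]
  have key := cla_pow (u := fun g k => d * car n' ψ g k) (v := car n χ) h0 ha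
    (h1.comp fun x => x.val / n) fun g hg k hk => by
      refine Nat.eq_of_mul_eq_mul_left (NeZero.pos n) ?_
      have e1 := car_spec h2 hg hk
      have e2 := car_spec h3 hg hk
      have e3 := h4 g hg
      have e4 := h4 k hk
      have e5 := h4 _ (mul_mem hg hk)
      have e6 : n * (d * car n' ψ g k) = n' * car n' ψ g k := by
        rw [← mul_assoc, mul_comm n d, ← hn]
      simp only [mul_add]
      omega
  exact key.symm.trans (Coh.of_eq fun g _ k _ => pow_mul _ _ _)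

/-- The cup product with a Kummer cocycle is the cyclic cocycle. -/
theorem cup_coh {m : ℕ} {χ κ : Gam → ZMod (2 ^ m)} (h1 : Sm G χ) (h2 : IsHom G χ)
    (h3 : Kum m G a κ) : Coh G (zc m (cup m χ κ)) (Cy (2 ^ m) χ a) := by
  have ha := h3.fx.2
  obtain ⟨r, r0, r1, r2⟩ := h3
  refine Coh.symm ⟨fun g => g r ^ (χ g).val, (sm_apply r).comp₂ h1 fun x y => x ^ y.val,
    fun g => pow_ne_zero _ (cla_ne g r0), fun g hg k hk => ?_⟩
  have e1 : g (k r) = g r * zeta m ^ (cy m g * κ k).val := by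
    rw [r2 k hk, map_mul, smul_zeta_val]
  have e2 : g (k r) ^ 2 ^ m = a := by
    rw [← AlgEquiv.mul_apply, ← map_pow, r1, ha _ (mul_mem hg hk)]
  have e3 : zc m (cup m χ κ) g k = (zeta m ^ (cy m g * κ k).val) ^ (χ g).val := by
    rw [← pow_mul, ← b1b_zeta_cast, Nat.cast_mul, ZMod.natCast_zmod_val, ZMod.natCast_zmod_val,
      zc, cup, mul_assoc, mul_comm]
  have e4 : g (k r) ^ (χ g).val * g (k r) ^ (χ k).val =
      g (k r) ^ (χ (g * k)).val * a ^ car (2 ^ m) χ g k := by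
    rw [← pow_add, car_spec h2 hg hk, pow_add, pow_mul, e2]
  dsimp only
  rw [e3, Cy, map_pow, AlgEquiv.mul_apply, mul_comm, ← e4, ← mul_assoc, ← mul_pow,
    mul_comm _ (g r), ← e1]


end Pool.Agent.Lib.MP_696deb_nt.B2
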