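import Pool.Agent.Lib.MP_696deb_nt.B2.B2c

set_option autoImplicit false

open scoped NNReal Classical NumberTheorySymbols
open Filter Topology Finset

namespace Pool.Agent.Lib.MP_696deb_nt.B2

variable {H : Subgroup Gam} {w : Plc}

/-! The imaginary quadratic field -/

variable {q : ℕ}

theorem B4c_mem {g : Gam} : g ∈ GK q ↔ chi (-q) g = 1 := MonoidHom.mem_ker

theorem B4c_notMem {g : Gam} : g ∉ GK q ↔ chi (-q) g = -1 := by
  rw [B4c_mem]
  rcases Int.units_eq_one_or (chi (-q) g) with h | h <;> simp [h]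

theorem op_GK (q : ℕ) : Op (GK q) := op_ker_chi _

theorem normal_GK (q : ℕ) : (GK q).Normal := MonoidHom.normal_ker _

theorem cc_notMem (hq : 0 < q) : cc ∉ GK q := by
  rw [B4c_notMem, chi_cc (by omega), if_neg (by omega)]

theorem tc_of_le (hq : 0 < q) (h : H ≤ GK q) : TC H := by
  intro g hg hH
  obtain ⟨k, rfl⟩ := hg.conj
  have h1 := (normal_GK q).conj_mem _ (h hH) k⁻¹
  exact cc_notMem hq (by simpa [mul_assoc] using h1)

theorem mul_mem_GK {g h : Gam} (hg : g ∉ GK q) (hh : h ∉ GK q) : g * h ∈ GK q := by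
  rw [B4c_notMem] at hg hh
  rw [B4c_mem, map_mul, hg, hh]
  simp

theorem index_GK (hq : 0 < q) : (GK q).index = 2 := by
  refine Subgroup.index_eq_two_iff.2 ⟨cc, fun b => ?_⟩
  by_cases hb : b ∈ GK q
  · exact Or.inr ⟨hb, fun h => cc_notMem hq ((mul_mem_cancel_left hb).1 h)⟩
  · exact Or.inl ⟨mul_mem_GK hb (cc_notMem hq), hb⟩

theorem fx_GK (hq : 0 < q) {x : Qbar} (h : Fx (GK q) x) : ∃ a b : ℚ, x = a + b * rt (-q) := by
  have hc := cc_notMem hq
  have hn := normal_GK q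
  have hr0 : rt (-q) ≠ 0 := by
    intro h0
    have := rt_sq (-q)
    rw [h0] at this
    have h2 : ((-(q : ℤ) : ℤ) : Qbar) = 0 := by rw [← this]; simp
    have h3 : (-(q : ℤ) : ℤ) = 0 := by exact_mod_cast h2
    omega
  have e1 : ∀ g ∈ GK q, g (cc x) = cc x := by
    intro g hg
    have := h _ (hn.conj_mem _ hg cc⁻¹)
    have h2 := congrArg cc this
    simpa using h2
  have e2 : ∀ g ∉ GK q, g x = cc x := by
    intro g hg
    have := h _ (mul_mem_GK (fun k => hc (by simpa using inv_mem k) : cc⁻¹ ∉ GK q) hg)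
    have h2 := congrArg cc this
    simpa using h2
  have e3 : ∀ g ∉ GK q, g (cc x) = x := fun g hg => h _ (mul_mem_GK hg hc)
  have r1 : ∀ g ∈ GK q, g (rt (-q)) = rt (-q) := fun g hg => chi_eq_one.1 hg
  have r2 : ∀ g ∉ GK q, g (rt (-q)) = -rt (-q) := fun g hg =>
    (rt_or _ g).resolve_left fun k => hg (chi_eq_one.2 k)
  obtain ⟨a, ha⟩ := fx_top (x := (x + cc x) / 2) fun g _ => by
    by_cases hg : g ∈ GK q
    · rw [map_div₀, map_add, h g hg, e1 g hg, map_ofNat]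
    · rw [map_div₀, map_add, e2 g hg, e3 g hg, map_ofNat, add_comm]
  obtain ⟨b, hb⟩ := fx_top (x := (x - cc x) / (2 * rt (-q))) fun g _ => by
    by_cases hg : g ∈ GK q
    · rw [map_div₀, map_sub, map_mul, h g hg, e1 g hg, map_ofNat, r1 g hg]
    · rw [map_div₀, map_sub, map_mul, e2 g hg, e3 g hg, map_ofNat, r2 g hg]
      field_simp
      ring
  refine ⟨a, b, ?_⟩
  rw [← ha, ← hb]
  field_simp
  ring

theorem dec_le_two (hq : Qok q) (hw : w.p = 2) : Dec w ≤ GK q := fun _ hg =>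
  chi_dec_two hw (by have := hq.2; omega) hg

theorem B4c_not_dvd {a : ℤ} (hw : w.p ≠ 2) (h : J(a | w.p) ≠ 0) : ¬ (w.p : ℤ) ∣ 2 * a := by
  intro hd
  have hp : Prime (w.p : ℤ) := Nat.prime_iff_prime_int.1 w.prime
  rcases hp.dvd_or_dvd hd with h2 | h2
  · exact hw ((Nat.prime_dvd_prime_iff_eq w.prime Nat.prime_two).1 (by exact_mod_cast h2))
  · refine h (jacobiSym.eq_zero_iff.2 ⟨w.prime.ne_zero, ?_⟩)
    rw [Int.gcd_eq_natAbs_right h2]
    simpa using w.prime.ne_one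

theorem dec_le_split (hw : w.p ≠ 2) (h : J(-q | w.p) = 1) : Dec w ≤ GK q := fun _ hg =>
  chi_dec (B4c_not_dvd hw (by rw [h]; exact one_ne_zero)) h hg

theorem jac_three (hq : Qok q) : J(-q | 3) = 1 := by
  rw [jacobiSym.mod_left, show (-(q : ℤ)) % (3 : ℕ) = 1 by have := hq.2; omega]
  exact jacobiSym.one_left _

theorem jac_five (hq : Qok q) : J(-q | 5) = 1 := by
  rw [jacobiSym.mod_left]
  rcases hq.2 with h | h
  · rw [show (-(q : ℤ)) % (5 : ℕ) = 2 ^ 2 by omega]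
    exact jacobiSym.sq_one' (by decide)
  · rw [show (-(q : ℤ)) % (5 : ℕ) = 1 by omega]
    exact jacobiSym.one_left _

theorem ine_le_GK (hq : Qok q) (hw : w.p ≠ q) : Ine w ≤ GK q := by
  intro g hg
  by_cases h2 : w.p = 2
  · exact dec_le_two hq h2 (Ine_le w hg)
  · refine chi_ine (fun hd => ?_) hg
    have hp : Prime (w.p : ℤ) := Nat.prime_iff_prime_int.1 w.prime
    rcases hp.dvd_or_dvd hd with h3 | h3
    · exact h2 ((Nat.prime_dvd_prime_iff_eq w.prime Nat.prime_two).1 (by exact_mod_cast h3))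
    · exact hw ((Nat.prime_dvd_prime_iff_eq w.prime hq.1).1 (by exact_mod_cast (dvd_neg.1 h3)))

/-- Above a split prime there are two classes of places. -/
theorem not_conj_cc (hq : 0 < q) (h : Dec w ≤ GK q) {g : Gam} (hg : g ∈ GK q) : g • w ≠ cc • w := by
  intro e
  have h1 : cc⁻¹ * g ∈ Dec w := by
    show (cc⁻¹ * g) • w = w
    rw [mul_smul, e, inv_smul_smul]
  exact cc_notMem hq (by simpa using inv_mem ((mul_mem_cancel_right hg).1 (h h1)))

theorem conj_or (hq : 0 < q) {v : Plc} (h : v.p = w.p) :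
    ∃ g ∈ GK q, g • w = v ∨ g • cc • w = v := by
  obtain ⟨g, hg⟩ := plc_conj h.symm
  by_cases k : g ∈ GK q
  · exact ⟨g, k, Or.inl hg⟩
  · refine ⟨g * cc⁻¹, mul_mem_GK k fun k' => cc_notMem hq (by simpa using inv_mem k'), Or.inr ?_⟩
    rw [mul_smul, inv_smul_smul, hg]

theorem conj_of_inert {v : Plc} {φ : Gam} (h : v.p = w.p) (hφ : φ ∈ Dec w) (h' : φ ∉ GK q) :
    ∃ g ∈ GK q, g • w = v := by
  obtain ⟨g, hg⟩ := plc_conj h.symm
  by_cases k : g ∈ GK q
  · exact ⟨g, k, hg⟩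
  · refine ⟨g * φ, mul_mem_GK k h', ?_⟩
    rw [mul_smul, show φ • w = w from hφ, hg]

theorem inert_of_frob {φ : Gam} (hφ : IsFrob w w.p φ) (h' : φ ∉ GK q)
    (h : ¬ (w.p : ℤ) ∣ 2 * q) : J(-q | w.p) = -1 := by
  rw [← chi_frob (by simpa using h) hφ, B4c_notMem.1 h']
  simp

theorem relIndex_inert {φ : Gam} (hφ : φ ∈ Dec w) (h' : φ ∉ GK q) :
    (GK q ⊓ Dec w).relIndex (Dec w) = 2 := by
  rw [Subgroup.inf_relIndex_right]
  refine Subgroup.index_eq_two_iff.2 ⟨⟨φ, hφ⟩, fun b => ?_⟩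
  simp only [Subgroup.mem_subgroupOf, Subgroup.coe_mul]
  by_cases hb : (b : Gam) ∈ GK q
  · exact Or.inr ⟨hb, fun h => h' ((mul_mem_cancel_left hb).1 h)⟩
  · exact Or.inl ⟨mul_mem_GK hb h', hb⟩

/-- At an inert place the decomposition group over the quadratic field is generated by inertia and
the square of Frobenius. -/
theorem dec_gen_inert {φ g : Gam} (hφ : IsFrob w w.p φ) (h' : φ ∉ GK q) (hI : Ine w ≤ GK q)
    (hg : g ∈ GK q ⊓ Dec w) {U : Subgroup Gam} (hU : Op U) :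
    ∃ (n : ℕ) (σ : Gam), σ ∈ Ine w ∧ ((φ * φ) ^ n * σ)⁻¹ * g ∈ U ⊓ (GK q ⊓ Dec w) := by
  obtain ⟨n, σ, hσ, ⟨h1, h2⟩, h3⟩ := dec_gen hφ hg.2 (hU.inf (op_GK q))
  have h2' : (φ ^ n * σ)⁻¹ * g ∈ GK q := h2
  have hg1 : g ∈ GK q := hg.1
  have h4 : φ ^ n ∈ GK q :=
    (mul_mem_cancel_right (hI hσ)).1 (inv_mem_iff.1 ((mul_mem_cancel_right hg1).1 h2'))
  rcases Nat.even_or_odd' n with ⟨k, rfl | rfl⟩
  · exact ⟨k, σ, hσ, by rw [← sq, ← pow_mul]; exact ⟨h1, h2, h3⟩⟩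
  · have h5 : φ ^ (2 * k) ∈ GK q := by
      rw [pow_mul, sq]; exact pow_mem (mul_mem_GK h' h') k
    rw [pow_succ] at h4
    exact absurd ((mul_mem_cancel_left h5).1 h4) h'

end Pool.Agent.Lib.MP_696deb_nt.B2
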