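import Pool.Agent.Lib.MP_696deb_nt.B2.CLb

/-! Cyclic cocycles and norms. -/

set_option autoImplicit false

open scoped NNReal Classical
open Filter Topology Finset

namespace Pool.Agent.Lib.MP_696deb_nt.B2

variable {G : Subgroup Gam} {γ : Gam → Gam → Qbar} {n : ℕ} [NeZero n] {χ : Gam → ZMod n}
  {s : Gam} {a : Qbar}

omit [NeZero n] in
theorem clc_one (h2 : IsHom G χ) : χ 1 = 0 := (kerOn G χ h2).one_mem.2

omit [NeZero n] in
theorem clc_pow (h2 : IsHom G χ) (hs : s ∈ G) (h1 : χ s = 1) (i : ℕ) : χ (s ^ i) = i := by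
  induction i with
  | zero => rw [pow_zero, clc_one h2, Nat.cast_zero]
  | succ i ih => rw [pow_succ, h2 _ (pow_mem hs i) _ hs, ih, h1, Nat.cast_succ]

omit [NeZero n] in
theorem clc_mem (h2 : IsHom G χ) {g g' : Gam} (hg : g ∈ G) (hg' : g' ∈ G) (e : χ g = χ g') :
    ∃ p ∈ kerOn G χ h2, g = g' * p := by
  have h3 := mul_mem (inv_mem hg') hg
  have h4 := h2 _ hg' _ h3
  rw [mul_inv_cancel_left, e] at h4
  exact ⟨g'⁻¹ * g, ⟨h3, left_eq_add.1 h4⟩, (mul_inv_cancel_left _ _).symm⟩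

omit [NeZero n] in
theorem clc_swap (h2 : IsHom G χ) {p k : Gam} (hp : p ∈ kerOn G χ h2) (hk : k ∈ G) :
    ∃ p' ∈ kerOn G χ h2, p * k = k * p' :=
  clc_mem h2 (mul_mem hp.1 hk) hk (by rw [h2 _ hp.1 _ hk, hp.2, zero_add])

theorem clc_div (n i j : ℕ) [NeZero n] :
    (i + j) / n = i / n + j / n + (i % n + j % n) / n := by
  rw [← Nat.mul_add_div (NeZero.pos n)]
  congr 1
  rw [mul_add, add_add_add_comm, Nat.div_add_mod, Nat.div_add_mod]

theorem clc_succ (s : Gam) (i : ℕ) (β : Qbar) : Nm s (i + 1) β = Nm s i β * (s ^ i) β :=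
  prod_range_succ _ _

/-- A cochain that is trivialised along the powers of a generator is cyclic. -/
theorem clc_cyc (h2 : IsHom G χ) {δ : Gam → Gam → Qbar} (B : ℕ → Qbar) (h0 : ∀ i, B i ≠ 0)
    (hB : B 0 = 1) (hT : ∀ g ∈ G, ∀ h ∈ G, ∀ i j : ℕ, χ g = i → χ h = j →
      B i * g (B j) * δ g h = B (i + j)) :
    Fx G (B n) ∧ (Sm G χ → Coh G δ (Cy n χ (B n))) := by
  have e1 : χ 1 = (0 : ℕ) := by rw [clc_one h2, Nat.cast_zero]
  have e2 : χ 1 = (n : ℕ) := by rw [clc_one h2, ZMod.natCast_self]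
  have hv : ∀ g, χ g = ((χ g).val : ℕ) := fun g => (ZMod.natCast_zmod_val _).symm
  have e4 : ∀ g ∈ G, ∀ j : ℕ, χ g = j → B (j + n) = B n * B j := fun g hg j hj => by
    have k1 := hT 1 G.one_mem g hg 0 j e1 hj
    have k2 := hT 1 G.one_mem g hg n j e2 hj
    rw [hB, one_mul, zero_add, AlgEquiv.one_apply, mul_eq_left₀ (h0 j)] at k1
    rw [add_comm, ← k2, k1, mul_one, AlgEquiv.one_apply]
  have e5 : Fx G (B n) := fun g hg => by
    have k1 := hT g hg 1 G.one_mem _ 0 (hv g) e1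
    have k2 := hT g hg 1 G.one_mem _ n (hv g) e2
    rw [hB, map_one, mul_one, add_zero, mul_eq_left₀ (h0 _)] at k1
    rw [k1, mul_one, e4 g hg _ (hv g), mul_comm] at k2
    exact mul_right_cancel₀ (h0 _) k2
  have e6 : ∀ g ∈ G, ∀ c : ℕ, B ((χ g).val + n * c) = B n ^ c * B (χ g).val := fun g hg c => by
    induction c with
    | zero => simp
    | succ c ih =>
      rw [mul_add_one, ← add_assoc, e4 g hg _ (by simp), ih, pow_succ', mul_assoc]
  refine ⟨e5, fun h1 => ⟨fun g => (B (χ g).val)⁻¹, h1.comp fun x => (B x.val)⁻¹,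
    fun g => inv_ne_zero (h0 _), fun g hg h hh => ?_⟩⟩
  have k1 := hT g hg h hh _ _ (hv g) (hv h)
  rw [car_spec h2 hg hh, e6 _ (mul_mem hg hh)] at k1
  have k2 := h0 (χ g).val
  have k3 := h0 (χ (g * h)).val
  have k4 : g (B (χ h).val) ≠ 0 := (map_ne_zero g).2 (h0 _)
  simp only [map_inv₀, Cy]
  field_simp
  linear_combination k1

omit [NeZero n] in
theorem clc_Nm (h2 : IsHom G χ) (hs : s ∈ G) (h1 : χ s = 1) {β : Qbar}
    (hβ : Fx (kerOn G χ h2) β) {g : Gam} (hg : g ∈ G) {i : ℕ} (hi : χ g = i) (j : ℕ) :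
    Nm s i β * g (Nm s j β) = Nm s (i + j) β := by
  induction j with
  | zero => simp [Nm]
  | succ j ih =>
    obtain ⟨p, hp, e⟩ := clc_mem h2 (mul_mem hg (pow_mem hs j)) (pow_mem hs (i + j))
      (by rw [h2 _ hg _ (pow_mem hs j), hi, clc_pow h2 hs h1, clc_pow h2 hs h1, Nat.cast_add])
    rw [← add_assoc, clc_succ, clc_succ, map_mul, ← mul_assoc, ih, ← AlgEquiv.mul_apply, e,
      AlgEquiv.mul_apply, hβ p hp]

theorem clc_norm (h2 : IsHom G χ) (hs : s ∈ G) (h1 : χ s = 1) {β : Qbar}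
    (hβ : Fx (kerOn G χ h2) β) (h0 : β ≠ 0) :
    Fx G (Nm s n β) ∧ (Sm G χ → Coh G 1 (Cy n χ (Nm s n β))) :=
  clc_cyc h2 (fun i => Nm s i β) (fun _ => prod_ne_zero_iff.2 fun _ _ => (map_ne_zero _).2 h0)
    (prod_range_zero _) fun _ hg _ _ _ j hi _ => (mul_one _).trans (clc_Nm h2 hs h1 hβ hg hi j)

theorem clc_Nm_zero (s : Gam) : Nm s n 0 = 0 :=
  prod_eq_zero (mem_range.2 (NeZero.pos n)) (map_zero _)

omit [NeZero n] in
theorem kerOn_open (h1 : Sm G χ) (h2 : IsHom G χ) :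
    ∃ U : Subgroup Gam, Op U ∧ kerOn G χ h2 = U ⊓ G := by
  obtain ⟨U, hU, hN, h1⟩ := h1
  refine ⟨kerOn G χ h2 ⊔ U, Subgroup.isOpen_mono le_sup_right hU,
    le_antisymm (le_inf le_sup_left fun g hg => hg.1) fun g hg => ?_⟩
  obtain ⟨p, hp, u, hu, rfl⟩ := Subgroup.mem_sup_of_normal_right.1 hg.1
  exact ⟨hg.2, (h1 p hp.1 _ hg.2 (by rwa [inv_mul_cancel_left])).symm.trans hp.2⟩

omit [NeZero n] in
theorem kerOn_closed (hG : IsClosed (G : Set Gam)) (h1 : Sm G χ) (h2 : IsHom G χ) :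
    IsClosed (kerOn G χ h2 : Set Gam) := by
  obtain ⟨U, hU, e⟩ := kerOn_open h1 h2
  rw [e]
  exact hU.closed.inter hG

theorem fx_Nm (h2 : IsHom G χ) (hs : s ∈ G) (h1 : χ s = 1) {β : Qbar}
    (hβ : Fx (kerOn G χ h2) β) : Fx G (Nm s n β) := by
  by_cases h0 : β = 0
  · rw [h0, clc_Nm_zero]
    exact fun g _ => map_zero g
  · exact (clc_norm h2 hs h1 hβ h0).1

/-- A cocycle that splits on the kernel of a character is cyclic. -/
theorem coh_Cy (hG : IsClosed (G : Set Gam)) (h1 : Sm G χ) (h2 : IsHom G χ) (hs : s ∈ G)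
    (hs1 : χ s = 1) (h : CQ G γ) (hk : Coh (kerOn G χ h2) γ 1) :
    ∃ a, a ≠ 0 ∧ Fx G a ∧ Coh G γ (Cy n χ a) := by
  obtain ⟨U, hU, e⟩ := kerOn_open h1 h2
  obtain ⟨δ, hδ, d1⟩ := norm_right hU h (e ▸ hk)
  rw [← e] at d1
  obtain ⟨⟨V, hV, hN, d2⟩, d3, d4⟩ := h.of_coh hδ
  have d5 : ∀ g ∈ G, ∀ k ∈ G, ∀ p ∈ kerOn G χ h2, δ g (k * p) = δ g k := fun g hg k hk p hp => by
    simpa [d1 _ hk p hp, d1 _ (mul_mem hg hk) p hp] using d4 g hg k hk p hp.1
  have d6 : ∀ g ∈ G, ∀ p ∈ kerOn G χ h2, δ (g * p) s = δ g s * g (δ p s) := fun g hg p hp => by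
    obtain ⟨p', hp', e'⟩ := clc_swap h2 hp hs
    have k1 := d4 g hg p hp.1 s hs
    rw [d1 g hg p hp, mul_one, e', d5 g hg s hs p' hp'] at k1
    rw [← k1, mul_comm]
  obtain ⟨y, hy, d7⟩ := h90 (kerOn_closed hG h1 h2) (f := fun p => δ p s)
    ⟨V, hV, hN, fun g hg g' hg' k => d2 g hg.1 g' hg'.1 s hs s hs k (by simp)⟩
    (fun p hp => d3 p hp.1 s hs) fun g hg p hp => d6 g hg.1 p hp
  let B : ℕ → Qbar := fun j => ∏ l ∈ range j, δ (s ^ l) s / (s ^ l) y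
  have b0 : ∀ j, B j ≠ 0 := fun j => prod_ne_zero_iff.2 fun l _ =>
    div_ne_zero (d3 _ (pow_mem hs l) s hs) ((map_ne_zero _).2 hy)
  have b1 : ∀ g ∈ G, ∀ i : ℕ, χ g = i → B (i + 1) = B i * (δ g s / g y) := fun g hg i hi => by
    obtain ⟨p, hp, rfl⟩ := clc_mem h2 hg (pow_mem hs i) (hi.trans (clc_pow h2 hs hs1 i).symm)
    rw [d6 _ (pow_mem hs i) p hp, AlgEquiv.mul_apply, ← d7 p hp, map_mul, mul_comm _ ((s ^ i) y),
      mul_div_mul_right _ _ ((map_ne_zero _).2 (d3 p hp.1 s hs))]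
    exact prod_range_succ _ _
  have b2 : ∀ g ∈ G, ∀ i : ℕ, χ g = i → ∀ j, B i * g (B j) * δ g (s ^ j) = B (i + j) := by
    intro g hg i hi j
    induction j with
    | zero => simp [B, d1 g hg 1 (one_mem _)]
    | succ j ih =>
      rw [← add_assoc, b1 (g * s ^ j) (mul_mem hg (pow_mem hs j)) (i + j)
        (by rw [h2 _ hg _ (pow_mem hs j), hi, clc_pow h2 hs hs1, Nat.cast_add]), ← ih,
        b1 _ (pow_mem hs j) j (clc_pow h2 hs hs1 j), map_mul, map_div₀, pow_succ,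
        AlgEquiv.mul_apply]
      linear_combination B i * g (B j) / g ((s ^ j) y) * d4 g hg _ (pow_mem hs j) s hs
  obtain ⟨k1, k2⟩ := clc_cyc h2 (δ := δ) B b0 (prod_range_zero _) fun g hg k hk i j hi hj => by
    obtain ⟨p, hp, rfl⟩ := clc_mem h2 hk (pow_mem hs j) (hj.trans (clc_pow h2 hs hs1 j).symm)
    rw [d5 g hg _ (pow_mem hs j) p hp, b2 g hg i hi]
  exact ⟨_, b0 n, k1, hδ.trans (k2 h1)⟩

theorem Cy_split_iff (hG : IsClosed (G : Set Gam)) (h1 : Sm G χ) (h2 : IsHom G χ) (hs : s ∈ G)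
    (hs1 : χ s = 1) (h0 : a ≠ 0) (ha : Fx G a) :
    Coh G (Cy n χ a) 1 ↔ ∃ β, Fx (kerOn G χ h2) β ∧ a = Nm s n β := by
  refine ⟨fun ⟨b, b1, b2, b3⟩ => ?_, fun ⟨β, hβ, e⟩ => ?_⟩
  · simp only [Pi.one_apply, one_mul, Cy] at b3
    have c1 : ∀ p ∈ kerOn G χ h2, ∀ g, car n χ p g = 0 ∧ car n χ g p = 0 := fun p hp g => by
      simp [car, hp.2, Nat.div_eq_of_lt (ZMod.val_lt (χ g))]
    obtain ⟨y, hy, b4⟩ := h90 (kerOn_closed hG h1 h2) (b1.mono fun g hg => hg.1) (fun g _ => b2 g)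
      fun g hg p hp => by rw [← b3 g hg.1 p hp.1, (c1 p hp g).2, pow_zero, one_mul]
    let c : Gam → Qbar := fun g => b g * y / g y
    have hy' : ∀ g : Gam, g y ≠ 0 := fun g => (map_ne_zero g).2 hy
    have c2 : ∀ p ∈ kerOn G χ h2, c p = 1 := fun p hp => by
      simp only [c]
      rw [b4 p hp, div_self (hy' p)]
    have c3 : ∀ g ∈ G, ∀ k ∈ G, a ^ car n χ g k * c (g * k) = c g * g (c k) := fun g hg k hk => by
      have k1 := hy' g
      simp only [c, map_div₀, map_mul, AlgEquiv.mul_apply]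
      rw [mul_div_assoc, ← mul_assoc, b3 g hg k hk]
      field_simp
    have c4 : ∀ p ∈ kerOn G χ h2, p (c s) = c s := fun p hp => by
      obtain ⟨p', hp', e'⟩ := clc_swap h2 hp hs
      have k1 := c3 p hp.1 s hs
      have k2 := c3 s hs p' hp'.1
      rw [(c1 p hp s).1, c2 p hp, e'] at k1
      rw [(c1 p' hp' s).2, c2 p' hp', map_one, k1, one_mul, mul_one] at k2
      exact k2
    have c5 : ∀ i, Nm s i (c s * a ^ (1 / n)) = c (s ^ i) * a ^ (i / n) := fun i => by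
      induction i with
      | zero => simp [Nm, c2 1 (one_mem _)]
      | succ i ih =>
        have k1 := c3 _ (pow_mem hs i) s hs
        have k2 : car n χ (s ^ i) s = (i % n + 1 % n) / n := by
          rw [car, clc_pow h2 hs hs1, hs1, ZMod.val_natCast, ZMod.val_one_eq_one_mod]
        rw [clc_succ, ih, map_mul, map_pow, ha _ (pow_mem hs i), clc_div n i 1, ← k2, pow_succ,
          pow_add, pow_add]
        linear_combination -a ^ (i / n) * a ^ (1 / n) * k1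
    refine ⟨c s * a ^ (1 / n), fun p hp => by rw [map_mul, map_pow, c4 p hp, ha p hp.1], ?_⟩
    rw [c5, c2 _ ⟨pow_mem hs n, by rw [clc_pow h2 hs hs1, ZMod.natCast_self]⟩,
      Nat.div_self (NeZero.pos n), pow_one, one_mul]
  · rw [e]
    exact ((clc_norm h2 hs hs1 hβ fun z => h0 (by rw [e, z, clc_Nm_zero])).2 h1).symm


end Pool.Agent.Lib.MP_696deb_nt.B2
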