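import Pool.Agent.Lib.MP_696deb_nt.B2.CLd

/-! Existence of local data. -/

set_option autoImplicit false

open scoped NNReal Classical
open Filter Topology Finset

namespace Pool.Agent.Lib.MP_696deb_nt.B2

variable {H H' : Subgroup Gam} {w : Plc}

theorem cle_eq_iff (t : ℕ) (x y : ℤ_[2]) :
    PadicInt.toZModPow t x = PadicInt.toZModPow t y ↔ (2 : ℤ_[2]) ^ t ∣ x - y := by
  rw [← sub_eq_zero, ← map_sub, ← RingHom.mem_ker, PadicInt.ker_toZModPow,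
    Ideal.mem_span_singleton]
  rfl

theorem cle_cont (t : ℕ) : Continuous fun x : ℤ_[2] => PadicInt.toZModPow t x := by
  refine continuous_iff_continuousAt.2 fun x => ?_
  have hpos : (0 : ℝ) < ((2 : ℕ) : ℝ) ^ (-(t : ℤ)) := by positivity
  refine (continuousAt_const (y := PadicInt.toZModPow t x)).congr ?_
  filter_upwards [Metric.ball_mem_nhds x hpos] with y hy
  rw [mem_ball_iff_norm'] at hy
  rw [cle_eq_iff, ← Ideal.mem_span_singleton]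
  exact (PadicInt.norm_le_pow_iff_mem_span_pow _ t).1 hy.le

theorem cle_one {A : Type} [AddGroup A] {G : Subgroup Gam} {χ : Gam → A} (h : IsHom G χ) :
    χ 1 = 0 := by
  have := h 1 (one_mem _) 1 (one_mem _)
  rw [mul_one] at this
  exact left_eq_add.1 this

theorem cle_pow {A : Type} [Ring A] {G : Subgroup Gam} {χ : Gam → A} (h : IsHom G χ) {g : Gam}
    (hg : g ∈ G) (j : ℕ) : χ (g ^ j) = j * χ g := by
  induction j with
  | zero => simpa using cle_one h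
  | succ j ih =>
    rw [pow_succ, h _ (pow_mem hg j) _ hg, ih]
    push_cast
    rw [add_mul, one_mul]

theorem cle_frob_pow {φ : Gam} {f : ℕ} (h : IsFrob w (w.p ^ f) φ) (j : ℕ) :
    IsFrob w (w.p ^ (f * j)) (φ ^ j) := by
  rw [pow_mul]; exact h.pow j

theorem cle_frob_mul {φ ψ : Gam} {m n : ℕ} (h : IsFrob w (w.p ^ m) φ) (k : IsFrob w (w.p ^ n) ψ) :
    IsFrob w (w.p ^ (m + n)) (φ * ψ) := by
  rw [pow_add]; exact h.mul k

theorem cle_ine_mul {φ σ : Gam} {n : ℕ} (k : σ ∈ Ine w) (h : IsFrob w n φ) :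
    IsFrob w n (σ * φ) := by
  have := (isFrob_one.2 k).mul h
  rwa [one_mul] at this

theorem cle_exists (hH : Op H) (w : Plc) :
    ∃ n : ℕ, 0 < n ∧ ∃ ψ ∈ H, IsFrob w (w.p ^ n) ψ := by
  obtain ⟨φ, hφ⟩ := exists_frob w
  obtain ⟨U, h1, h2, h3⟩ := exists_normal_le hH
  exact ⟨U.index, Nat.pos_of_ne_zero h1.index_ne_zero, φ ^ U.index, h3 (U.pow_index_mem φ),
    hφ.pow _⟩

theorem cle_dvd {f : ℕ} {φ : Gam} (hf : 0 < f) (h1 : φ ∈ H) (h2 : IsFrob w (w.p ^ f) φ)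
    (hmin : ∀ n < f, ¬ (0 < n ∧ ∃ ψ ∈ H, IsFrob w (w.p ^ n) ψ)) (n : ℕ) (ψ : Gam) (k1 : ψ ∈ H)
    (k2 : IsFrob w (w.p ^ n) ψ) : f ∣ n := by
  obtain ⟨φ0, h0⟩ := exists_frob w
  have a1 := cle_frob_mul (cle_frob_pow h2 (n / f)) (h0.pow (n % f))
  rw [Nat.div_add_mod] at a1
  have a2 := (h0.pow (n % f)).mul_ine (a1.inv_mul_mem k2)
  have e : φ0 ^ (n % f) * ((φ ^ (n / f) * φ0 ^ (n % f))⁻¹ * ψ) = (φ ^ (n / f))⁻¹ * ψ := by group
  rw [e] at a2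
  by_contra hn
  exact hmin (n % f) (Nat.mod_lt _ hf) ⟨Nat.pos_of_ne_zero fun h => hn (Nat.dvd_of_mod_eq_zero h),
    _, mul_mem (inv_mem (pow_mem h1 _)) k1, a2⟩

theorem cle_gen {f : ℕ} {φ : Gam} (hH : Op H) (h1 : φ ∈ H) (h2 : IsFrob w (w.p ^ f) φ)
    (hd : ∀ (n : ℕ) (ψ : Gam), ψ ∈ H → IsFrob w (w.p ^ n) ψ → f ∣ n) :
    ∀ g ∈ H ⊓ Dec w, ∀ U : Subgroup Gam, Op U →
      ∃ (j : ℕ) (σ : Gam), σ ∈ H ⊓ Ine w ∧ (φ ^ j * σ)⁻¹ * g ∈ U ⊓ (H ⊓ Dec w) := by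
  intro g hg U hU
  obtain ⟨φ0, h0⟩ := exists_frob w
  obtain ⟨n, σ, hσ, hm⟩ := dec_gen h0 hg.2 (hU.inf hH)
  have a1 : φ0 ^ n * σ ∈ H := by
    have := H.mul_mem hg.1 (H.inv_mem hm.1.2)
    rwa [show g * ((φ0 ^ n * σ)⁻¹ * g)⁻¹ = φ0 ^ n * σ by group] at this
  have a2 := (h0.pow n).mul_ine hσ
  obtain ⟨j, rfl⟩ := hd n _ a1 a2
  refine ⟨j, (φ ^ j)⁻¹ * (φ0 ^ (f * j) * σ), ⟨H.mul_mem (H.inv_mem (H.pow_mem h1 j)) a1,
    (cle_frob_pow h2 j).inv_mul_mem a2⟩, ?_⟩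
  rw [mul_inv_cancel_left]
  exact ⟨hm.1.1, hm.1.2, hm.2⟩

theorem cle_ef {f : ℕ} {φ : Gam} (hH : Op H) (hf : 0 < f) (h1 : φ ∈ H)
    (h2 : IsFrob w (w.p ^ f) φ)
    (hd : ∀ (n : ℕ) (ψ : Gam), ψ ∈ H → IsFrob w (w.p ^ n) ψ → f ∣ n) :
    (H ⊓ Dec w).relIndex (Dec w) = (H ⊓ Ine w).relIndex (Ine w) * f := by
  obtain ⟨φ0, h0⟩ := exists_frob w
  rw [Subgroup.inf_relIndex_right, Subgroup.inf_relIndex_right]
  let F : (Ine w ⧸ H.subgroupOf (Ine w)) × Fin f → Dec w ⧸ H.subgroupOf (Dec w) := fun c =>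
    QuotientGroup.mk ⟨φ0 ^ (c.2 : ℕ) * (c.1.out : Ine w), mul_mem (pow_mem h0.1 _)
      (Ine_le w c.1.out.2)⟩
  have key : ∀ (i j : Fin f) (σ τ : Gam), σ ∈ Ine w → τ ∈ Ine w → (i : ℕ) ≤ j →
      (φ0 ^ (i : ℕ) * σ)⁻¹ * (φ0 ^ (j : ℕ) * τ) ∈ H → i = j := by
    intro i j σ τ hσ hτ hij hm
    obtain ⟨d, hd'⟩ := Nat.exists_eq_add_of_le hij
    have e : (φ0 ^ (i : ℕ) * σ)⁻¹ * (φ0 ^ (j : ℕ) * τ) = σ⁻¹ * (φ0 ^ d * τ) := by
      rw [hd', pow_add]; group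
    rw [e] at hm
    have := hd d _ hm (cle_ine_mul (inv_mem hσ) ((h0.pow d).mul_ine hτ))
    have hlt : d < f := by have := j.2; omega
    have := Nat.eq_zero_of_dvd_of_lt this hlt
    exact Fin.ext (by omega)
  have hF : Function.Bijective F := by
    constructor
    · rintro ⟨c, i⟩ ⟨c', j⟩ h
      have hm : (φ0 ^ (i : ℕ) * (c.out : Ine w))⁻¹ * (φ0 ^ (j : ℕ) * (c'.out : Ine w)) ∈ H :=
        Subgroup.mem_subgroupOf.1 (QuotientGroup.eq.1 h)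
      have hij : i = j := by
        rcases le_total (i : ℕ) j with h | h
        · exact key i j _ _ c.out.2 c'.out.2 h hm
        · refine (key j i _ _ c'.out.2 c.out.2 h ?_).symm
          have := inv_mem hm
          rwa [mul_inv_rev, inv_inv] at this
      subst hij
      refine Prod.ext ?_ rfl
      rw [← QuotientGroup.out_eq' c, ← QuotientGroup.out_eq' c']
      refine QuotientGroup.eq.2 (Subgroup.mem_subgroupOf.2 ?_)
      rwa [show (φ0 ^ (i : ℕ) * ((c.out : Ine w) : Gam))⁻¹ * (φ0 ^ (i : ℕ) * (c'.out : Ine w)) =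
        ((c.out : Ine w) : Gam)⁻¹ * (c'.out : Ine w) by group] at hm
    · intro x
      obtain ⟨⟨g, hg⟩, rfl⟩ := QuotientGroup.mk_surjective x
      obtain ⟨n, σ, hσ, hm⟩ := dec_gen h0 hg hH
      have a1 := (h0.pow (f * (n / f))).mul_ine hσ
      have a2 := cle_frob_pow h2 (n / f)
      have a3 := conj_mem_Ine a2.1 (a2.inv_mul_mem a1)
      set τ := φ ^ (n / f) * ((φ ^ (n / f))⁻¹ * (φ0 ^ (f * (n / f)) * σ)) * (φ ^ (n / f))⁻¹
        with hτ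
      obtain ⟨u, hu⟩ := QuotientGroup.mk_out_eq_mul (H.subgroupOf (Ine w)) ⟨τ, a3⟩
      refine ⟨(QuotientGroup.mk ⟨τ, a3⟩, ⟨n % f, Nat.mod_lt _ hf⟩), ?_⟩
      refine QuotientGroup.eq.2 (Subgroup.mem_subgroupOf.2 ?_)
      have hu' : ((u : Ine w) : Gam) ∈ H := Subgroup.mem_subgroupOf.1 u.2
      have e1 : φ0 ^ n = φ0 ^ (n % f) * φ0 ^ (f * (n / f)) := by
        rw [← pow_add, Nat.mod_add_div]
      have e : (φ0 ^ (n % f) * (τ * ((u : Ine w) : Gam)))⁻¹ * g =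
          ((u : Ine w) : Gam)⁻¹ * (φ ^ (n / f) * ((φ0 ^ n * σ)⁻¹ * g)) := by
        rw [hτ, e1]
        generalize φ0 ^ (n % f) = a
        generalize φ0 ^ (f * (n / f)) = b
        generalize φ ^ (n / f) = c
        group
      change (φ0 ^ (n % f) * (((QuotientGroup.mk ⟨τ, a3⟩ :
        Ine w ⧸ H.subgroupOf (Ine w)).out : Ine w) : Gam))⁻¹ * g ∈ H
      rw [hu, Subgroup.coe_mul, e]
      exact mul_mem (inv_mem hu') (mul_mem (pow_mem h1 _) hm.1)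
  have := Nat.card_eq_of_bijective F hF
  rw [Nat.card_prod, Nat.card_eq_fintype_card (α := Fin f), Fintype.card_fin] at this
  exact this.symm

theorem exists_LD (hH : Op H) (w : Plc) : Nonempty (LD H w) := by
  have ex := cle_exists hH w
  obtain ⟨hf, φ, h1, h2⟩ := Nat.find_spec ex
  have hd := cle_dvd hf h1 h2 fun n hn => Nat.find_min ex hn
  generalize Nat.find ex = f at hf h2 hd
  have hg := cle_gen hH h1 h2 hd
  obtain ⟨π, p1, p2, p3, p4⟩ := exists_unif hH w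
  obtain ⟨ω, o1, o2, o3⟩ := exists_deg w
  have osm : ∀ t, Sm (H ⊓ Dec w) fun g => PadicInt.toZModPow t (ω g) := fun t =>
    (Sm.of_continuousOn (closed_Dec w) ((cle_cont t).comp_continuousOn o1)).mono inf_le_right
  obtain ⟨a, m, hm, hfa⟩ := Nat.exists_eq_two_pow_mul_odd hf.ne'
  have hu : IsUnit (m : ℤ_[2]) :=
    PadicInt.isUnit_iff.2 (PadicInt.norm_natCast_eq_one_iff.2 (Nat.coprime_two_left.2 hm))
  have hfa' : (f : ℤ_[2]) = 2 ^ a * m := by rw [hfa]; push_cast; rfl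
  have f0 : (f : ℤ_[2]) ≠ 0 := Nat.cast_ne_zero.2 hf.ne'
  have hdv : ∀ g ∈ H ⊓ Dec w, (f : ℤ_[2]) ∣ ω g := by
    intro g hg'
    obtain ⟨U, u1, -, u3⟩ := osm a
    obtain ⟨j, σ, hσ, hm'⟩ := hg g hg' U u1
    have hfr := (cle_frob_pow h2 j).mul_ine hσ.2
    have e := u3 _ ⟨mul_mem (pow_mem h1 j) hσ.1, hfr.1⟩ g hg' hm'.1
    simp only [o3 _ _ hfr, cle_eq_iff] at e
    rw [hfa', hu.mul_right_dvd]
    have e2 : (2 : ℤ_[2]) ^ a ∣ ((f * j : ℕ) : ℤ_[2]) := by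
      push_cast; rw [hfa', mul_assoc]; exact dvd_mul_right _ _
    simpa using dvd_sub e2 e
  have hq : ∀ g, ∃ x : ℤ_[2], g ∈ H ⊓ Dec w → ω g = f * x := fun g => by
    by_cases h : g ∈ H ⊓ Dec w
    · obtain ⟨x, hx⟩ := hdv g h
      exact ⟨x, fun _ => hx⟩
    · exact ⟨0, fun k => absurd k h⟩
  choose ω' hω using hq
  refine ⟨⟨f, (H ⊓ Ine w).relIndex (Ine w), φ, π, ω', hf, Nat.pos_of_ne_zero fun h => ?_, h1, h2,
    hd, hg, p1, p2, p3, p4, ram_eq hH p1 p2 p3 p4, rfl, cle_ef hH hf h1 h2 hd, fun t => ?_,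
    fun g k1 h k2 => ?_, ?_, fun σ hσ => ?_⟩⟩
  · rw [Subgroup.inf_relIndex_right] at h
    exact hH.index_ne_zero (Subgroup.index_eq_zero_of_relIndex_eq_zero h)
  · obtain ⟨U, u1, u2, u3⟩ := osm (a + t)
    refine ⟨U, u1, u2, fun g k1 h k2 k3 => ?_⟩
    have e := u3 g k1 h k2 k3
    simp only [cle_eq_iff] at e ⊢
    rw [hω g k1, hω h k2, ← mul_sub, hfa', pow_add, mul_assoc,
      mul_dvd_mul_iff_left (pow_ne_zero _ two_ne_zero), hu.dvd_mul_left] at e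
    exact e
  · refine mul_left_cancel₀ f0 ?_
    rw [mul_add, ← hω g k1, ← hω h k2, ← hω _ (mul_mem k1 k2), o2 g k1.2 h k2.2]
  · refine mul_left_cancel₀ f0 ?_
    rw [← hω φ ⟨h1, h2.1⟩, o3 f φ h2, mul_one]
  · refine mul_left_cancel₀ f0 ?_
    rw [← hω σ ⟨hσ.1, Ine_le w hσ.2⟩, o3 0 σ (by rw [pow_zero]; exact isFrob_one.2 hσ.2), mul_zero,
      Nat.cast_zero]

theorem LD.φ_mem' (L : LD H w) : L.φ ∈ H ⊓ Dec w := ⟨L.φ_mem, L.frob.1⟩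

theorem LD.π_ne (L : LD H w) : L.π ≠ 0 := fun h => by
  have := L.π_pos
  rw [h, map_zero] at this
  exact lt_irrefl _ this

theorem LD.fx_zpow (L : LD H w) (k : ℤ) : Fx (H ⊓ Dec w) (L.π ^ k) := fun g hg => by
  rw [map_zpow₀, L.π_fx g hg.1]

theorem LD.om_sm (L : LD H w) (t : ℕ) : Sm (H ⊓ Dec w) (L.om t) := L.ω_sm t

theorem LD.om_hom (L : LD H w) (t : ℕ) : IsHom (H ⊓ Dec w) (L.om t) := fun g hg h hh => by
  simp only [LD.om, L.ω_hom g hg h hh, map_add]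

theorem LD.om_φ (L : LD H w) (t : ℕ) : L.om t L.φ = 1 := by
  simp only [LD.om, L.ω_φ, map_one]

theorem LD.om_ine (L : LD H w) (t : ℕ) {σ : Gam} (h : σ ∈ H ⊓ Ine w) : L.om t σ = 0 := by
  simp only [LD.om, L.ω_ine σ h, map_zero]

theorem LD.om_red (L : LD H w) {t t' : ℕ} (h : t' ≤ t) (g : Gam) :
    L.om t' g = ((L.om t g).val : ZMod (2 ^ t')) := by
  rw [ZMod.natCast_val]
  exact (PadicInt.cast_toZModPow t' t h _).symm

theorem cle_val (L : LD H w) {t : ℕ} {χ : Gam → ZMod (2 ^ t)} (h2 : IsHom (H ⊓ Dec w) χ)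
    (h3 : ∀ σ ∈ H ⊓ Ine w, χ σ = 0) (j : ℕ) {σ : Gam} (hσ : σ ∈ H ⊓ Ine w) :
    χ (L.φ ^ j * σ) = j * χ L.φ := by
  rw [h2 _ (pow_mem L.φ_mem' j) _ ⟨hσ.1, Ine_le w hσ.2⟩, h3 σ hσ, add_zero,
    cle_pow h2 L.φ_mem']

/-- An unramified character is a multiple of the normalised one. -/
theorem LD.unr_eq (L : LD H w) {t : ℕ} {χ : Gam → ZMod (2 ^ t)} (h1 : Sm (H ⊓ Dec w) χ)
    (h2 : IsHom (H ⊓ Dec w) χ) (h3 : ∀ σ ∈ H ⊓ Ine w, χ σ = 0) :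
    ∀ g ∈ H ⊓ Dec w, χ g = χ L.φ * L.om t g := by
  intro g hg
  obtain ⟨U, u1, -, u3⟩ := h1.comp₂ (L.om_sm t) Prod.mk
  obtain ⟨j, σ, hσ, hm⟩ := L.gen g hg U u1
  have e := u3 _ (mul_mem (pow_mem L.φ_mem' j) ⟨hσ.1, Ine_le w hσ.2⟩) g hg hm.1
  obtain ⟨e1, e2⟩ := Prod.mk.inj e
  rw [← e1, ← e2, cle_val L h2 h3 j hσ, cle_val L (L.om_hom t) (fun _ h => L.om_ine t h) j hσ,
    L.om_φ, mul_one, mul_comm]

/-- Comparison of the data of two fields. -/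
theorem LD.tower (L : LD H w) (L' : LD H' w) (h : H' ≤ H) : ∃ e f : ℕ, L'.e = e * L.e ∧
    L'.f = f * L.f ∧ (H' ⊓ Dec w).relIndex (H ⊓ Dec w) = e * f ∧ w.V L.π = w.V L'.π ^ e ∧
    ∀ t, ∀ g ∈ H' ⊓ Dec w, L.om t g = f * L'.om t g := by
  obtain ⟨f, hf⟩ := L.dvd L'.f L'.φ (h L'.φ_mem) L'.frob
  have he : L'.e = (H' ⊓ Ine w).relIndex (H ⊓ Ine w) * L.e := by
    rw [← L.e_eq, ← L'.e_eq,
      Subgroup.relIndex_mul_relIndex _ _ _ (inf_le_inf_right _ h) inf_le_right]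
  refine ⟨(H' ⊓ Ine w).relIndex (H ⊓ Ine w), f, he, by rw [hf, mul_comm], ?_, ?_,
    fun t g hg => ?_⟩
  · have := Subgroup.relIndex_mul_relIndex (H' ⊓ Dec w) (H ⊓ Dec w) (Dec w)
      (inf_le_inf_right _ h) inf_le_right
    rw [L.ef, L'.ef, he, hf] at this
    refine Nat.eq_of_mul_eq_mul_right (Nat.mul_pos L.e_pos L.f_pos) ?_
    rw [this]; ring
  · refine (pow_left_inj₀ zero_le zero_le L.e_pos.ne').1 ?_
    rw [← pow_mul, ← he, L.V_p, L'.V_p]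
  · have hle : H' ⊓ Dec w ≤ H ⊓ Dec w := inf_le_inf_right _ h
    rw [L'.unr_eq ((L.om_sm t).mono hle) (fun a ha b hb => L.om_hom t a (hle ha) b (hle hb))
      (fun σ hσ => L.om_ine t ⟨h hσ.1, hσ.2⟩) g hg]
    have a1 := cle_frob_pow L.frob f
    rw [← hf] at a1
    have a2 : (L.φ ^ f)⁻¹ * L'.φ ∈ H ⊓ Ine w :=
      ⟨H.mul_mem (H.inv_mem (H.pow_mem L.φ_mem f)) (h L'.φ_mem), a1.inv_mul_mem L'.frob⟩
    have := cle_val L (L.om_hom t) (fun _ h => L.om_ine t h) f a2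
    rw [mul_inv_cancel_left, L.om_φ, mul_one] at this
    rw [this]


end Pool.Agent.Lib.MP_696deb_nt.B2
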