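import Pool.Agent.Lib.MP_696deb_nt.B2.CLf

/-! Unramified classes. -/

set_option autoImplicit false

open scoped NNReal Classical
open Filter Topology Finset

namespace Pool.Agent.Lib.MP_696deb_nt.B2

variable {H H' : Subgroup Gam} {w : Plc}

theorem LD.cq_ur (L : LD H w) (t : ℕ) (k : ℤ) : CQ (H ⊓ Dec w) (L.ur t k) :=
  cq_Cy (L.om_sm t) (L.om_hom t) (zpow_ne_zero _ L.π_ne) (L.fx_zpow k)

theorem LD.ur_add (L : LD H w) (t : ℕ) (k k' : ℤ) : L.ur t (k + k') = L.ur t k * L.ur t k' := by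
  unfold LD.ur
  rw [zpow_add₀ L.π_ne, Cy_mul]

theorem LD.ur_zero (L : LD H w) (t : ℕ) : L.ur t 0 = 1 := by
  unfold LD.ur
  rw [zpow_zero, Cy_one]

theorem LD.ur_mul (L : LD H w) (t : ℕ) (k : ℤ) (j : ℕ) : L.ur t (j * k) = L.ur t k ^ j := by
  unfold LD.ur
  rw [mul_comm, zpow_mul, zpow_natCast, Cy_pow]

theorem LD.ur_succ (L : LD H w) (t d : ℕ) (k : ℤ) :
    Coh (H ⊓ Dec w) (L.ur t k) (L.ur (t + d) (2 ^ d * k)) := by
  have e : L.π ^ ((2 : ℤ) ^ d * k) = (L.π ^ k) ^ 2 ^ d := by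
    rw [mul_comm, zpow_mul, ← zpow_natCast (L.π ^ k)]
    norm_cast
  unfold LD.ur
  rw [e]
  exact Cy_red (by rw [pow_add, mul_comm]) (L.om_sm (t + d)) (L.om_hom (t + d))
    (fun g _ => L.om_red (Nat.le_add_right t d) g) (zpow_ne_zero _ L.π_ne) (L.fx_zpow k)

theorem LD.Cy_unit (hH : Op H) (L : LD H w) (t : ℕ) {a : Qbar} (ha : Fx (H ⊓ Dec w) a)
    (hv : w.V a = 1) : Coh (H ⊓ Dec w) (Cy (2 ^ t) (L.om t) a) 1 := by
  have h0 : a ≠ 0 := fun h => by simp [h] at hv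
  exact (Cy_split_iff (hH.closed.inter (closed_Dec w)) (L.om_sm t) (L.om_hom t) L.φ_mem' (L.om_φ t)
    h0 ha).2 (L.unit_norm t ha hv)

theorem LD.Cy_val (hH : Op H) (L : LD H w) (t : ℕ) {a : Qbar} (ha : Fx (H ⊓ Dec w) a) {k : ℤ}
    (hv : w.V a = w.V L.π ^ k) : Coh (H ⊓ Dec w) (Cy (2 ^ t) (L.om t) a) (L.ur t k) := by
  have h0 : L.π ^ k ≠ 0 := zpow_ne_zero _ L.π_ne
  have h1 := L.Cy_unit hH t (a := a / L.π ^ k)
    (fun g hg => by rw [map_div₀, ha g hg, L.fx_zpow k g hg])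
    (by rw [map_div₀, map_zpow₀, hv, div_self (zpow_ne_zero _ L.π_pos.ne')])
  have h2 := h1.mul (Coh.refl _ (L.ur t k))
  unfold LD.ur at h2 ⊢
  rwa [← Cy_mul, div_mul_cancel₀ _ h0, one_mul] at h2

theorem clg_one {D : Subgroup Gam} {Θ : Gam → ℝ≥0} (hs : Sm D Θ)
    (hm : ∀ g ∈ D, ∀ g' ∈ D, Θ (g * g') = Θ g * Θ g') {φ : Gam} (hφ : φ ∈ D) (h0 : Θ φ ≠ 0) :
    Θ φ = 1 := by
  by_contra h1
  have e : ∀ j : ℕ, Θ (φ ^ (j + 1)) = Θ φ ^ (j + 1) := fun j => by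
    induction j with
    | zero => simp
    | succ j ih => rw [pow_succ, hm _ (pow_mem hφ _) _ hφ, ih, ← pow_succ]
  refine Set.infinite_of_injective_forall_mem (f := fun j : ℕ => Θ φ ^ (j + 1))
    (s := Θ '' (D : Set Gam)) (fun i j hij => ?_) (fun j => ⟨_, pow_mem hφ (j + 1), e j⟩)
    hs.finite_range
  exact Nat.succ_injective (pow_right_injective₀ (pos_iff_ne_zero.2 h0) h1 hij)

/-- A cocycle of units that comes from the unramified quotient has invariant zero. -/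
theorem LD.dvd_of_unr (hH : Op H) (L : LD H w) {γ : Gam → Gam → Qbar} (h : CQ (H ⊓ Dec w) γ)
    (hv : ∀ g ∈ H ⊓ Dec w, ∀ k ∈ H ⊓ Dec w, w.V (γ g k) = 1)
    (hu : ∀ g ∈ H ⊓ Dec w, ∀ k ∈ H ⊓ Dec w, ∀ σ ∈ H ⊓ Ine w, ∀ σ' ∈ H ⊓ Ine w,
      γ (g * σ) (k * σ') = γ g k) {t : ℕ} {k : ℤ} (hc : Coh (H ⊓ Dec w) γ (L.ur t k)) :
    (2 : ℤ) ^ t ∣ k := by
  rcases Nat.eq_zero_or_pos t with rfl | ht
  · simp
  obtain ⟨b, bs, b0, hb⟩ := hc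
  have o1 : (1 : Gam) ∈ H ⊓ Dec w := one_mem _
  have o2 : (1 : Gam) ∈ H ⊓ Ine w := one_mem _
  have ID : H ⊓ Ine w ≤ H ⊓ Dec w := inf_le_inf_left H (Ine_le w)
  have x0 := h.2.1 1 o1 1 o1
  have gr : ∀ g ∈ H ⊓ Dec w, ∀ σ ∈ H ⊓ Ine w, γ g σ = g (γ 1 1) := fun g hg σ hσ => by
    have e1 := hu g hg 1 o1 1 o2 σ hσ
    have e2 := h.2.2 g hg 1 o1 1 o1
    rw [mul_one, one_mul] at e1
    rw [mul_one, mul_one] at e2
    rw [e1, mul_right_cancel₀ (h.2.1 g hg 1 o1) e2]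
  have gl : ∀ g ∈ H ⊓ Dec w, ∀ σ ∈ H ⊓ Ine w, γ σ g = γ 1 1 := fun g hg σ hσ => by
    have e1 := hu 1 o1 g hg σ hσ 1 o2
    have e2 := h.2.2 1 o1 1 o1 g hg
    rw [mul_one, one_mul] at e1
    rw [mul_one, one_mul] at e2
    rw [e1]
    exact mul_left_cancel₀ (h.2.1 1 o1 g hg) e2
  have xf : ∀ σ ∈ H ⊓ Ine w, σ (γ 1 1) = γ 1 1 := fun σ hσ =>
    (gr σ (ID hσ) 1 o2).symm.trans (gl 1 o1 σ hσ)
  have ul : ∀ g, ∀ σ ∈ H ⊓ Ine w, L.ur t k σ g = 1 := fun g σ hσ => by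
    simp only [LD.ur, Cy, car, L.om_ine t hσ, ZMod.val_zero, zero_add,
      Nat.div_eq_of_lt (ZMod.val_lt _), pow_zero]
  have ur' : ∀ g, ∀ σ ∈ H ⊓ Ine w, L.ur t k g σ = 1 := fun g σ hσ => by
    simp only [LD.ur, Cy, car, L.om_ine t hσ, ZMod.val_zero, add_zero,
      Nat.div_eq_of_lt (ZMod.val_lt _), pow_zero]
  obtain ⟨y, y0, hy⟩ := h90 (H := H ⊓ Ine w) (hH.closed.inter (closed_Ine w))
    (f := fun g => b g / γ 1 1) ((bs.mono ID).comp fun z => z / γ 1 1)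
    (fun g _ => div_ne_zero (b0 g) x0) fun g hg k hk => by
      have e := hb g (ID hg) k (ID hk)
      rw [gl k (ID hk) g hg, ul k g hg, one_mul] at e
      rw [map_div₀, xf g hg]
      field_simp
      linear_combination e
  have gy : ∀ g : Gam, g y ≠ 0 := fun g => (map_ne_zero g).2 y0
  have fx : Fx (H ⊓ Ine w) (b L.φ * y / L.φ y) := fun σ hσ => by
    have hφ := L.φ_mem'
    have hτ : L.φ⁻¹ * σ * L.φ ∈ H ⊓ Ine w :=
      ⟨H.mul_mem (H.mul_mem (H.inv_mem hφ.1) hσ.1) hφ.1, by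
        simpa using conj_mem_Ine ((Dec w).inv_mem hφ.2) hσ.2⟩
    have e0 : L.φ * (L.φ⁻¹ * σ * L.φ) = σ * L.φ := by group
    have e1 := hb σ (ID hσ) L.φ hφ
    have e2 := hb L.φ hφ _ (ID hτ)
    have e3 := hy σ hσ
    have e4 := congrArg L.φ (hy _ hτ)
    rw [gl _ hφ σ hσ, ul _ σ hσ, one_mul] at e1
    rw [gr _ hφ _ hτ, ur' _ _ hτ, one_mul, e0] at e2
    rw [map_mul, map_div₀, ← AlgEquiv.mul_apply L.φ _ y, e0, AlgEquiv.mul_apply] at e4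
    have x1 : L.φ (γ 1 1) ≠ 0 := (map_ne_zero L.φ).2 x0
    have s0 := b0 σ
    rw [map_div₀, map_mul, ← e3, ← e4,
      div_eq_div_iff (mul_ne_zero (div_ne_zero ((map_ne_zero L.φ).2 (b0 _)) x1) (gy _)) (gy _)]
    field_simp
    linear_combination L.φ y * (γ 1 1 * e2 - L.φ (γ 1 1) * e1)
  obtain ⟨β, hβ⟩ := L.val _ fx (div_ne_zero (mul_ne_zero (b0 _) y0) (gy _))
  rw [map_div₀, map_mul, mem_Dec.1 L.φ_mem'.2,
    mul_div_cancel_right₀ _ ((Valuation.ne_zero_iff _).2 y0)] at hβ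
  have hΘ : ∀ g ∈ H ⊓ Dec w, ∀ g' ∈ H ⊓ Dec w,
      w.V (b (g * g')) ^ 2 ^ t * (w.V L.π ^ k) ^ (L.om t (g * g')).val =
        w.V (b g) ^ 2 ^ t * (w.V L.π ^ k) ^ (L.om t g).val *
          (w.V (b g') ^ 2 ^ t * (w.V L.π ^ k) ^ (L.om t g').val) := fun g hg g' hg' => by
    have e := congrArg w.V (hb g hg g' hg')
    rw [map_mul, hv g hg g' hg', one_mul, map_mul, map_mul, mem_Dec.1 hg.2, LD.ur, Cy, map_pow,
      map_zpow₀] at e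
    rw [e, mul_mul_mul_comm, ← pow_add, car_spec (L.om_hom t) hg hg']
    ring
  have h1 := clg_one (bs.comp₂ (L.om_sm t)
    fun z c => w.V z ^ 2 ^ t * (w.V L.π ^ k) ^ c.val) hΘ L.φ_mem'
    (mul_ne_zero (pow_ne_zero _ ((Valuation.ne_zero_iff _).2 (b0 _)))
      (pow_ne_zero _ (zpow_ne_zero _ L.π_pos.ne')))
  rw [L.om_φ, ZMod.val_one'' (Nat.one_lt_two_pow ht.ne').ne', pow_one, hβ, ← zpow_natCast,
    ← zpow_mul, ← zpow_add₀ L.π_pos.ne', zpow_eq_one_iff_right₀ L.π_pos.le L.π_lt.ne] at h1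
  exact ⟨-β, by push_cast at h1; linear_combination h1⟩

theorem LD.ur_coh_iff (hH : Op H) (L : LD H w) (t : ℕ) (k k' : ℤ) :
    Coh (H ⊓ Dec w) (L.ur t k) (L.ur t k') ↔ (k : ZMod (2 ^ t)) = k' := by
  rw [ZMod.intCast_eq_intCast_iff_dvd_sub]
  push_cast
  have e : L.ur t k' = L.ur t k * L.ur t (k' - k) := by rw [← L.ur_add, add_sub_cancel]
  constructor
  · intro h
    refine L.dvd_of_unr hH (γ := 1) (L.ur_zero t ▸ L.cq_ur t 0) (fun _ _ _ _ => map_one _)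
      (fun _ _ _ _ _ _ _ _ => rfl) ?_
    refine (h.symm.div (L.cq_ur t k).2.1).symm.trans (Coh.of_eq fun g hg g' hg' => ?_)
    rw [e]
    exact mul_div_cancel_left₀ _ ((L.cq_ur t k).2.1 g hg g' hg')
  · rintro ⟨m, hm⟩
    have h1 := Cy_pow_n (L.om_sm t) (L.om_hom t) (zpow_ne_zero m L.π_ne) (L.fx_zpow m)
    have e1 : L.ur t (k' - k) = Cy (2 ^ t) (L.om t) ((L.π ^ m) ^ 2 ^ t) := by
      rw [Cy_pow, hm]
      exact_mod_cast L.ur_mul t m (2 ^ t)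
    have h2 := (Coh.refl _ (L.ur t k)).mul h1
    rw [← e1, ← e, mul_one] at h2
    exact h2.symm

theorem LD.ur_res (hH' : Op H') (L : LD H w) (L' : LD H' w) (h : H' ≤ H) (t : ℕ) (k : ℤ) :
    Coh (H' ⊓ Dec w) (L.ur t k)
      (L'.ur t (((H' ⊓ Dec w).relIndex (H ⊓ Dec w) : ℕ) * k)) := by
  obtain ⟨e, f, -, -, h1, h2, h3⟩ := L.tower L' h
  have fx : Fx (H' ⊓ Dec w) (L.π ^ k) := fun g hg => L.fx_zpow k g ⟨h hg.1, hg.2⟩
  refine (Cy_congr (h3 t) _).trans ((Cy_nsmul (L'.om_sm t) (L'.om_hom t) (zpow_ne_zero _ L.π_ne)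
    fx f).trans (L'.Cy_val hH' t (fun g hg => by rw [map_pow, fx g hg]) ?_))
  rw [map_pow, map_zpow₀, h2, h1, ← zpow_natCast, ← zpow_natCast, ← zpow_mul, ← zpow_mul]
  congr 1
  push_cast
  ring


end Pool.Agent.Lib.MP_696deb_nt.B2
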