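import Pool.Agent.Lib.MP_696deb_nt.B2.CLf

/-! The number of square classes of a local field. -/

set_option autoImplicit false

open scoped NNReal Classical
open Filter Topology Finset

namespace Pool.Agent.Lib.MP_696deb_nt.B2

variable {H : Subgroup Gam} {w : Plc}

theorem clh_quot {x y : Qbar} (hx : w.V x = 1) : w.V (x⁻¹ * y - 1) = w.V (y - x) := by
  have h0 : x ≠ 0 := fun h => by simp [h] at hx
  have e : x⁻¹ * y - 1 = x⁻¹ * (y - x) := by field_simp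
  rw [e, map_mul, map_inv₀, hx, inv_one, one_mul]

/-- The principal units of level `i`. -/
def LD.U (L : LD H w) (i : ℕ) : Subgroup Qbarˣ where
  carrier := {x | Fx (H ⊓ Dec w) (x : Qbar) ∧ w.V (x : Qbar) = 1 ∧ w.V ((x : Qbar) - 1) ≤ w.V L.π ^ i}
  one_mem' := ⟨fun g _ => by simp, by simp, by simp⟩
  mul_mem' := fun {a b} ha hb => ⟨(FU _).mul_mem ha.1 hb.1, by
    rw [Units.val_mul, map_mul, ha.2.1, hb.2.1, one_mul], by
    have e : ((a * b : Qbarˣ) : Qbar) - 1 = a * (b - 1) + (a - 1) := by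
      rw [Units.val_mul]; ring
    rw [e]
    refine w.V.map_add_le ?_ ha.2.2
    rw [map_mul, ha.2.1, one_mul]
    exact hb.2.2⟩
  inv_mem' := fun {a} ha => ⟨(FU _).inv_mem ha.1, by
    rw [Units.val_inv_eq_inv_val, map_inv₀, ha.2.1, inv_one], by
    have e := clh_quot (y := 1) ha.2.1
    rw [mul_one] at e
    rw [Units.val_inv_eq_inv_val, e, w.V.map_sub_swap]
    exact ha.2.2⟩

theorem LD.clh_mem (L : LD H w) {i : ℕ} {x : Qbarˣ} : x ∈ L.U i ↔ Fx (H ⊓ Dec w) (x : Qbar) ∧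
    w.V (x : Qbar) = 1 ∧ w.V ((x : Qbar) - 1) ≤ w.V L.π ^ i := Iff.rfl

theorem LD.clh_zero (L : LD H w) {x : Qbarˣ} :
    x ∈ L.U 0 ↔ Fx (H ⊓ Dec w) (x : Qbar) ∧ w.V (x : Qbar) = 1 :=
  ⟨fun h => ⟨h.1, h.2.1⟩, fun h => ⟨h.1, h.2, by
    rw [pow_zero]
    exact w.V.map_sub_le h.2.le w.V.map_one.le⟩⟩

theorem LD.clh_anti (L : LD H w) {i j : ℕ} (h : i ≤ j) : L.U j ≤ L.U i := fun _ hx =>
  ⟨hx.1, hx.2.1, hx.2.2.trans (pow_le_pow_of_le_one zero_le L.π_lt.le h)⟩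

theorem LD.clh_inv_mul (L : LD H w) {i j : ℕ} {x y : Qbarˣ} (hx : x ∈ L.U i) (hy : y ∈ L.U i) :
    x⁻¹ * y ∈ L.U j ↔ w.V ((y : Qbar) - x) ≤ w.V L.π ^ j := by
  have h := mul_mem (inv_mem hx) hy
  rw [← clh_quot hx.2.1, ← Units.val_inv_eq_inv_val, ← Units.val_mul]
  exact ⟨fun k => k.2.2, fun k => ⟨h.1, h.2.1, k⟩⟩

theorem LD.clh_val (L : LD H w) {x : Qbar} (hx : Fx (H ⊓ Dec w) x) (h0 : x ≠ 0) :
    ∃ k : ℤ, w.V x = w.V L.π ^ k :=
  L.val x (fun g hg => hx g ⟨hg.1, Ine_le w hg.2⟩) h0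

theorem LD.clh_disc (L : LD H w) {x : Qbar} (hx : Fx (H ⊓ Dec w) x) {i : ℕ}
    (h : w.V x < w.V L.π ^ i) : w.V x ≤ w.V L.π ^ (i + 1) := by
  rcases eq_or_ne x 0 with rfl | h0
  · simp
  obtain ⟨k, hk⟩ := L.clh_val hx h0
  rw [hk, ← zpow_natCast] at h ⊢
  have h1 := (zpow_lt_zpow_iff_right_of_lt_one₀ L.π_pos L.π_lt).1 h
  exact zpow_le_zpow_right_of_le_one₀ L.π_pos L.π_lt.le (by push_cast; omega)

theorem clh_sub {D : Subgroup Gam} {x y : Qbar} (hx : Fx D x) (hy : Fx D y) : Fx D (x - y) :=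
  fun g hg => by rw [map_sub, hx g hg, hy g hg]

theorem clh_surj {G T : Type*} [Group G] {A B : Subgroup G} (r : T → B)
    (h : ∀ b ∈ B, ∃ t, (r t : G)⁻¹ * b ∈ A) :
    Function.Surjective fun t => (QuotientGroup.mk (r t) : B ⧸ A.subgroupOf B) := by
  rintro ⟨b⟩
  obtain ⟨t, ht⟩ := h b b.2
  exact ⟨t, QuotientGroup.eq.2 ht⟩

/-- Representatives of the residue field. -/
theorem LD.clh_reps (L : LD H w) : ∃ (T : Type) (_ : Finite T) (τ : T → Qbar),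
    Nat.card T = w.p ^ L.f ∧ (∀ t, Fx (H ⊓ Dec w) (τ t) ∧ w.V (τ t) ≤ 1) ∧
      (∀ a, Fx (H ⊓ Dec w) a → w.V a ≤ 1 → ∃ t, w.V (a - τ t) < 1) ∧
      ∀ t t', w.V (τ t - τ t') < 1 → t = t' := by
  obtain ⟨ζ, hζ⟩ := b2b_prim w.prime L.f_pos
  have h0 := b2b_pos w.prime L.f_pos
  have : NeZero (w.p ^ L.f - 1) := ⟨h0⟩
  have h1 : ∀ j : ℕ, (ζ ^ j) ^ (w.p ^ L.f - 1) = 1 := fun j => by
    rw [← pow_mul, mul_comm, pow_mul, hζ.pow_eq_one, one_pow]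
  have h2 : ∀ j : ℕ, w.V (ζ ^ j) = 1 := fun j => w.V_root_of_unity h0 (h1 j)
  have h3 : ¬ w.p ∣ w.p ^ L.f - 1 := fun h => w.prime.not_dvd_one
    ((Nat.dvd_sub_iff_right (by omega) (dvd_pow_self w.p L.f_pos.ne')).1 h)
  refine ⟨Option (Fin (w.p ^ L.f - 1)), inferInstance, fun t => t.elim 0 fun j => ζ ^ (j : ℕ),
    by rw [Finite.card_option, Nat.card_fin]; omega, ?_, fun a ha hv => ?_, ?_⟩
  · rintro (_ | j)
    · exact ⟨fun g _ => map_zero g, by simp⟩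
    · exact ⟨L.fx_root0 (h1 j), (h2 j).le⟩
  · rcases hv.lt_or_eq with h | h
    · exact ⟨none, by simpa using h⟩
    · obtain ⟨z, hz, hz'⟩ := L.teich ha h
      obtain ⟨j, hj, rfl⟩ := hζ.eq_pow_of_pow_eq_one hz
      exact ⟨some ⟨j, hj⟩, hz'⟩
  · rintro (_ | j) (_ | j') h
    · rfl
    · simp only [Option.elim, zero_sub, Valuation.map_neg, h2, lt_self_iff_false] at h
    · simp only [Option.elim, sub_zero, h2, lt_self_iff_false] at h
    · have h4 : (ζ ^ (j' : ℕ))⁻¹ * ζ ^ (j : ℕ) = 1 :=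
        w.eq_one_of_root h3 (by rw [mul_pow, inv_pow, h1, h1, inv_one, one_mul])
          (by rw [clh_quot (h2 _)]; exact h)
      rw [inv_mul_eq_one₀ (pow_ne_zero _ (hζ.ne_zero h0))] at h4
      exact congrArg some (Fin.ext (hζ.pow_inj j.2 j'.2 h4.symm))

theorem LD.U_step (L : LD H w) {i : ℕ} (hi : 0 < i) :
    (L.U (i + 1)).relIndex (L.U i) = w.p ^ L.f := by
  obtain ⟨T, _, τ, hc, h1, h2, h3⟩ := L.clh_reps
  have hπ : Fx (H ⊓ Dec w) (L.π ^ i) := by simpa using L.fx_zpow i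
  have hp : 0 < w.V L.π ^ i := pow_pos L.π_pos i
  have k1 : ∀ t, w.V (L.π ^ i * τ t) ≤ w.V L.π ^ i := fun t => by
    rw [map_mul, map_pow]
    exact mul_le_of_le_one_right' (h1 t).2
  have k2 : ∀ t, w.V (1 + L.π ^ i * τ t) = 1 := fun t =>
    w.V.map_one_add_of_lt ((k1 t).trans_lt (pow_lt_one₀ zero_le L.π_lt hi.ne'))
  let r : T → L.U i := fun t => ⟨Units.mk0 (1 + L.π ^ i * τ t) fun h => by
    simpa [h] using k2 t, fun g hg => by
      rw [Units.val_mk0, map_add, map_one, map_mul, hπ g hg, (h1 t).1 g hg], k2 t, by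
      rw [Units.val_mk0, add_sub_cancel_left]; exact k1 t⟩
  have hr : ∀ t, ((r t : Qbarˣ) : Qbar) = 1 + L.π ^ i * τ t := fun _ => rfl
  rw [← hc]
  refine (Nat.card_eq_of_bijective _ ⟨fun t t' h => ?_, clh_surj r fun b hb => ?_⟩).symm
  · have h5 : (r t)⁻¹ * r t' ∈ (L.U (i + 1)).subgroupOf (L.U i) := QuotientGroup.eq.1 h
    have h4 := (L.clh_inv_mul (r t).2 (r t').2).1 h5
    rw [hr, hr, add_sub_add_left_eq_sub, ← mul_sub, map_mul, map_pow, pow_succ,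
      mul_le_mul_iff_right₀ hp] at h4
    exact (h3 _ _ (h4.trans_lt L.π_lt)).symm
  · have h0 : L.π ^ i ≠ 0 := pow_ne_zero _ L.π_ne
    obtain ⟨t, ht⟩ := h2 (((b : Qbar) - 1) / L.π ^ i)
      (fun g hg => by rw [map_div₀, map_sub, map_one, hb.1 g hg, hπ g hg])
      (by rw [map_div₀, map_pow]; exact div_le_one_of_le₀ hb.2.2 zero_le)
    refine ⟨t, (L.clh_inv_mul (r t).2 hb).2 (L.clh_disc (clh_sub hb.1 (r t).2.1) ?_)⟩
    have e : (b : Qbar) - (1 + L.π ^ i * τ t) = L.π ^ i * ((b - 1) / L.π ^ i - τ t) := by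
      field_simp
      ring
    rw [hr, e, map_mul, map_pow]
    exact mul_lt_of_lt_one_right hp ht

theorem LD.U_zero (L : LD H w) : (L.U 1).relIndex (L.U 0) ≠ 0 := by
  obtain ⟨T, _, τ, -, h1, h2, -⟩ := L.clh_reps
  let r : {t // w.V (τ t) = 1} → L.U 0 := fun t =>
    ⟨Units.mk0 (τ t) fun h => by simpa [h] using t.2, L.clh_zero.2 ⟨(h1 t).1, t.2⟩⟩
  refine Subgroup.index_ne_zero_iff_finite.2 (Finite.of_surjective _ (clh_surj r fun b hb => ?_))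
  obtain ⟨t, ht⟩ := h2 b hb.1 hb.2.1.le
  have h3 : w.V (τ t) = 1 := by
    rw [← hb.2.1]
    exact w.V.map_eq_of_sub_lt (by rwa [w.V.map_sub_swap, hb.2.1])
  exact ⟨⟨t, h3⟩, (L.clh_inv_mul (r ⟨t, h3⟩).2 hb).2
    (L.clh_disc (i := 0) (clh_sub hb.1 (h1 t).1) (by rwa [pow_zero]))⟩

theorem LD.U_sq (L : LD H w) {d i : ℕ} (hd : w.V 2 = w.V L.π ^ d) (hi : d < i) :
    (L.U i).map (powMonoidHom 2) = L.U (i + d) := by
  refine le_antisymm ?_ fun a ha => ?_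
  · rintro _ ⟨x, hx, rfl⟩
    have h := pow_mem hx 2
    refine ⟨h.1, h.2.1, ?_⟩
    have e : ((powMonoidHom 2 x : Qbarˣ) : Qbar) - 1 = (x - 1) * (x - 1 + 2) := by
      rw [powMonoidHom_apply, Units.val_pow_eq_pow_val]; ring
    rw [e, map_mul, pow_add]
    exact mul_le_mul' hx.2.2 (w.V.map_add_le (L.clh_anti hi.le hx).2.2 hd.le)
  · have h4 : w.V 4 = w.V L.π ^ (d + d) := by
      rw [show (4 : Qbar) = 2 * 2 by norm_num, map_mul, hd, pow_add]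
    obtain ⟨r, h1, h2, h3⟩ := exists_sqrt inf_le_right ha.1
      (ha.2.2.trans_lt (h4 ▸ pow_lt_pow_right_of_lt_one₀ L.π_pos L.π_lt (by omega)))
    have h5 : w.V r = 1 := by
      have := ha.2.1
      rw [← h2, map_pow] at this
      exact (pow_eq_one_iff_of_nonneg zero_le two_ne_zero).1 this
    refine ⟨Units.mk0 r fun h => by simp [h] at h5, ⟨h1, h5, ?_⟩, Units.ext h2⟩
    have h6 := ha.2.2
    rwa [← h3, hd, pow_add, mul_le_mul_iff_left₀ (pow_pos L.π_pos d)] at h6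

theorem LD.clh_steps (L : LD H w) {i : ℕ} (hi : 0 < i) (d : ℕ) :
    (L.U (i + d)).relIndex (L.U i) = (w.p ^ L.f) ^ d := by
  induction d with
  | zero => simp
  | succ d ih =>
    rw [← add_assoc, ← Subgroup.relIndex_mul_relIndex _ _ _ (L.clh_anti (Nat.le_succ (i + d)))
      (L.clh_anti (Nat.le_add_right i d)), ih, L.U_step (by omega), pow_succ']

theorem clh_ker {x : Qbarˣ} (h : x ∈ (powMonoidHom 2 : Qbarˣ →* Qbarˣ).ker) : x = 1 ∨ x = -1 := by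
  have h1 : (x : Qbar) ^ 2 = 1 := by
    rw [← Units.val_pow_eq_pow_val]
    exact congrArg Units.val h
  exact (sq_eq_sq_iff_eq_or_eq_neg.1 (h1.trans (one_pow 2).symm)).imp (fun e => Units.ext e) fun e => Units.ext e

theorem LD.clh_unit (L : LD H w) {d : ℕ} (hd : w.V 2 = w.V L.π ^ d) :
    ((L.U 0).map (powMonoidHom 2)).relIndex (L.U 0) = 2 * (w.p ^ L.f) ^ d := by
  have hB : L.U (d + 1) ≤ L.U 0 := L.clh_anti (Nat.zero_le _)
  have hK : (powMonoidHom 2 : Qbarˣ →* Qbarˣ).ker ≤ L.U 0 := fun x hx => by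
    rcases clh_ker hx with rfl | rfl
    · exact one_mem _
    · exact L.clh_zero.2 ⟨fun g _ => by simp, by simp⟩
  have h1 : (L.U (d + 1)).relIndex (L.U 0) ≠ 0 := by
    refine Subgroup.relIndex_ne_zero_trans ?_ L.U_zero
    rw [add_comm, L.clh_steps one_pos]
    exact pow_ne_zero _ (pow_ne_zero _ w.prime.ne_zero)
  have h2 : (L.U (d + 1)).relIndex (L.U (d + 1) ⊔ (powMonoidHom 2 : Qbarˣ →* Qbarˣ).ker) = 2 := by
    rw [Subgroup.relIndex_sup_left, Subgroup.relIndex_eq_two_iff_exists_notMem_and]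
    refine ⟨-1, by simp [MonoidHom.mem_ker], fun h => ?_, fun b hb => ?_⟩
    · have h3 := h.2.2
      rw [show ((-1 : Qbarˣ) : Qbar) - 1 = -2 by norm_num, Valuation.map_neg, hd,
        pow_le_pow_iff_right_of_lt_one₀ L.π_pos L.π_lt] at h3
      omega
    · rcases clh_ker hb with rfl | rfl
      · exact Or.inr (one_mem _)
      · exact Or.inl (by simp)
  have h3 := Subgroup.relIndex_mul_relIndex _ _ _ le_sup_left (sup_le hB hK)
  have h4 := Subgroup.relIndex_map_map (powMonoidHom 2 : Qbarˣ →* Qbarˣ) (L.U (d + 1)) (L.U 0)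
  have hS : (L.U 0).map (powMonoidHom 2) ≤ L.U 0 := by
    rintro _ ⟨x, hx, rfl⟩
    exact pow_mem hx 2
  have h5 := Subgroup.relIndex_mul_relIndex _ _ _ (Subgroup.map_mono hB) hS
  rw [h4, sup_eq_left.2 hK, L.U_sq hd (Nat.lt_succ_self d), ← Subgroup.relIndex_mul_relIndex _ _ _
    (L.clh_anti (Nat.le_add_right (d + 1) d)) hB, L.clh_steps (Nat.succ_pos d), ← h3, h2] at h5
  rw [← h3] at h1
  refine mul_left_cancel₀ (right_ne_zero_of_mul h1) (h5.trans ?_)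
  ring

theorem LD.sqIdx_eq (L : LD H w) {d : ℕ} (hd : w.V 2 = w.V L.π ^ d) :
    sqIdx (H ⊓ Dec w) = 4 * (w.p ^ L.f) ^ d := by
  have hU : L.U 0 ≤ FU (H ⊓ Dec w) := fun _ h => h.1
  have hS : (FU (H ⊓ Dec w)).map (powMonoidHom 2) ≤ FU (H ⊓ Dec w) := by
    rintro _ ⟨x, hx, rfl⟩
    exact pow_mem hx 2
  have h1 : (FU (H ⊓ Dec w)).map (powMonoidHom 2) ⊓ L.U 0 = (L.U 0).map (powMonoidHom 2) := by
    refine le_antisymm ?_ (le_inf (Subgroup.map_mono hU) ?_)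
    · rintro _ ⟨⟨x, hx, rfl⟩, h⟩
      refine ⟨x, L.clh_zero.2 ⟨hx, ?_⟩, rfl⟩
      have h2 := h.2.1
      rw [powMonoidHom_apply, Units.val_pow_eq_pow_val, map_pow] at h2
      exact (pow_eq_one_iff_of_nonneg zero_le two_ne_zero).1 h2
    · rintro _ ⟨x, hx, rfl⟩
      exact pow_mem hx 2
  obtain ⟨ϖ, hϖ⟩ : ∃ ϖ : Qbarˣ, (ϖ : Qbar) = L.π := ⟨Units.mk0 _ L.π_ne, rfl⟩
  have hF : ϖ ∈ FU (H ⊓ Dec w) := fun g hg => by rw [hϖ]; exact L.π_fx g hg.1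
  have v0 := L.π_pos.ne'
  have h2 : ∀ b ∈ FU (H ⊓ Dec w), ∀ k : ℤ, w.V (b : Qbar) = w.V L.π ^ (k + k) →
      b ∈ L.U 0 ⊔ (FU (H ⊓ Dec w)).map (powMonoidHom 2) := fun b hb k hk => by
    refine Subgroup.mem_sup.2 ⟨b * (ϖ ^ (k + k))⁻¹, L.clh_zero.2
      ⟨mul_mem hb (inv_mem (zpow_mem hF _)), ?_⟩, _, ⟨ϖ ^ k, zpow_mem hF k, rfl⟩, ?_⟩
    · rw [Units.val_mul, Units.val_inv_eq_inv_val, Units.val_zpow_eq_zpow_val, map_mul, map_inv₀,
        map_zpow₀, hϖ, hk, mul_inv_cancel₀ (zpow_ne_zero _ v0)]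
    · rw [powMonoidHom_apply, sq, ← zpow_add, inv_mul_cancel_right]
  have h3 : (L.U 0 ⊔ (FU (H ⊓ Dec w)).map (powMonoidHom 2)).relIndex (FU (H ⊓ Dec w)) = 2 := by
    rw [Subgroup.relIndex_eq_two_iff_exists_notMem_and]
    refine ⟨ϖ, hF, fun h => ?_, fun b hb => ?_⟩
    · obtain ⟨u, hu, _, ⟨x, hx, rfl⟩, e⟩ := Subgroup.mem_sup.1 h
      obtain ⟨k, hk⟩ := L.clh_val hx x.ne_zero
      have e1 := congrArg (fun y : Qbarˣ => w.V (y : Qbar)) e
      simp only [powMonoidHom_apply, Units.val_mul, sq, map_mul, hu.2.1, one_mul, hk, hϖ] at e1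
      rw [← zpow_add₀ v0] at e1
      have e2 := zpow_right_injective₀ L.π_pos L.π_lt.ne (e1.trans (zpow_one _).symm)
      omega
    · obtain ⟨k, hk⟩ := L.clh_val hb b.ne_zero
      rcases Int.even_or_odd' k with ⟨j, rfl | rfl⟩
      · exact Or.inr (h2 b hb j (by rw [hk, two_mul]))
      · refine Or.inl (h2 _ (mul_mem hb hF) (j + 1) ?_)
        rw [Units.val_mul, map_mul, hk, hϖ, ← zpow_add_one₀ v0]
        congr 1
        ring
  rw [sqIdx, ← Subgroup.relIndex_mul_relIndex _ _ _ le_sup_right (sup_le hU hS), h3,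
    Subgroup.relIndex_sup_right, ← Subgroup.inf_relIndex_right, h1, L.clh_unit hd]
  ring

theorem sqIdx_eq (hH : Op H) (w : Plc) : sqIdx (H ⊓ Dec w) =
    if w.p = 2 then 4 * 2 ^ (H ⊓ Dec w).relIndex (Dec w) else 4 := by
  obtain ⟨L⟩ := exists_LD hH w
  split_ifs with h
  · have h1 := w.hV
    rw [← L.V_p, h, Nat.cast_ofNat] at h1
    rw [L.sqIdx_eq h1, h, L.ef, ← pow_mul, mul_comm L.f]
  · have h1 : w.V ((2 : ℤ) : Qbar) = 1 := w.V_int_eq_one.2 fun k =>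
      h ((Nat.prime_dvd_prime_iff_eq w.prime Nat.prime_two).1 (by exact_mod_cast k))
    rw [L.sqIdx_eq (d := 0) (by simpa using h1), pow_zero, mul_one]


end Pool.Agent.Lib.MP_696deb_nt.B2
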