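import Pool.Agent.Lib.MP_696deb_nt.B2.CLh

/-! The norm index of a quadratic extension, and the count of characters. -/

set_option autoImplicit false

open scoped NNReal Classical
open Filter Topology Finset

namespace Pool.Agent.Lib.MP_696deb_nt.B2

variable {G H : Subgroup Gam} {w : Plc}

theorem cli_two (x : ZMod 2) : x = 0 ∨ x = 1 := by
  revert x
  decide

theorem cli_add : (1 : ZMod 2) + 1 = 0 := by decide

theorem cli_ne : (1 : ZMod 2) ≠ 0 := by decide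

theorem cli_Nm (s : Gam) (β : Qbar) : Nm s 2 β = β * s β := by
  simp [Nm, Finset.prod_range_succ]

/-- The norm as a homomorphism. -/
noncomputable def cli_N (s : Gam) : Qbarˣ →* Qbarˣ :=
  MonoidHom.id Qbarˣ * Units.map (s : Qbar →* Qbar)

theorem cli_N_val (s : Gam) (x : Qbarˣ) : ((cli_N s x : Qbarˣ) : Qbar) = x * s x := rfl

section
variable {χ : Gam → ZMod 2} {s : Gam}

theorem cli_one (h2 : IsHom G χ) : χ 1 = 0 := ((kerOn G χ h2).one_mem).2

theorem cli_inv (h2 : IsHom G χ) (hs : s ∈ G) (hs1 : χ s = 1) : χ s⁻¹ = 1 := by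
  have h := h2 s hs s⁻¹ (inv_mem hs)
  rw [mul_inv_cancel, cli_one h2, hs1] at h
  rcases cli_two (χ s⁻¹) with h0 | h0
  · rw [h0, add_zero] at h
    exact absurd h.symm cli_ne
  · exact h0

theorem cli_fx (h2 : IsHom G χ) (hs : s ∈ G) (hs1 : χ s = 1) {x : Qbar}
    (hx : Fx (kerOn G χ h2) x) (h : s x = x) : Fx G x := by
  intro g hg
  rcases cli_two (χ g) with h0 | h0
  · exact hx g ⟨hg, h0⟩
  · have h3 : s⁻¹ * g ∈ kerOn G χ h2 := ⟨mul_mem (inv_mem hs) hg, by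
      rw [h2 _ (inv_mem hs) _ hg, cli_inv h2 hs hs1, h0, cli_add]⟩
    have h4 : g = s * (s⁻¹ * g) := by group
    rw [h4, AlgEquiv.mul_apply, hx _ h3, h]

theorem cli_ss (h2 : IsHom G χ) (hs : s ∈ G) (hs1 : χ s = 1) {x : Qbar}
    (hx : Fx (kerOn G χ h2) x) : s (s x) = x :=
  hx (s * s) ⟨mul_mem hs hs, by rw [h2 _ hs _ hs, hs1, cli_add]⟩

theorem cli_s_fx (h2 : IsHom G χ) (hs : s ∈ G) (hs1 : χ s = 1) {x : Qbar}
    (hx : Fx (kerOn G χ h2) x) : Fx (kerOn G χ h2) (s x) := by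
  intro g hg
  have h3 : s⁻¹ * (g * s) ∈ kerOn G χ h2 := ⟨mul_mem (inv_mem hs) (mul_mem hg.1 hs), by
    rw [h2 _ (inv_mem hs) _ (mul_mem hg.1 hs), h2 _ hg.1 _ hs, cli_inv h2 hs hs1, hg.2, hs1,
      zero_add, cli_add]⟩
  have h4 : g * s = s * (s⁻¹ * (g * s)) := by group
  rw [← AlgEquiv.mul_apply, h4, AlgEquiv.mul_apply, hx _ h3]

theorem cli_le (h2 : IsHom G χ) : FU G ≤ FU (kerOn G χ h2) := fun _ hx g hg => hx g hg.1

theorem cli_N_mem (h2 : IsHom G χ) (hs : s ∈ G) (hs1 : χ s = 1) {x : Qbarˣ}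
    (hx : x ∈ FU (kerOn G χ h2)) : cli_N s x ∈ FU G := by
  refine cli_fx h2 hs hs1 (fun g hg => ?_) ?_
  · rw [cli_N_val, map_mul, hx g hg, cli_s_fx h2 hs hs1 hx g hg]
  · rw [cli_N_val, map_mul, cli_ss h2 hs hs1 hx, mul_comm]

theorem cli_N_fx (hs : s ∈ G) {x : Qbarˣ} (hx : x ∈ FU G) : cli_N s x = x ^ 2 :=
  Units.ext (by rw [cli_N_val, hx s hs, Units.val_pow_eq_pow_val, sq])

theorem cli_ker (h2 : IsHom G χ) (hs : s ∈ G) (hs1 : χ s = 1) :
    ((FU G).map (powMonoidHom 2)).comap (cli_N s) ⊓ FU (kerOn G χ h2) =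
      FU G ⊔ (FU (kerOn G χ h2)).map (powMonoidHom 2) := by
  apply le_antisymm
  · rintro x ⟨⟨f, hf, e⟩, hx⟩
    have e1 : (f : Qbar) ^ 2 = x * s x := by
      rw [← cli_N_val, ← e]
      rfl
    have hsf : s (f : Qbar) = f := hf s hs
    have f0 : (f : Qbar) ≠ 0 := f.ne_zero
    have x0 : (x : Qbar) ≠ 0 := x.ne_zero
    by_cases h : (f : Qbar) + x = 0
    · refine Subgroup.mem_sup_left (fun g hg => ?_)
      rw [eq_neg_of_add_eq_zero_right h, map_neg, hf g hg]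
    · let y : Qbarˣ := Units.mk0 _ h
      have hy : y ∈ FU (kerOn G χ h2) := fun g hg => by
        change g ((f : Qbar) + x) = f + x
        rw [map_add, hf g hg.1, hx g hg]
      have e2 : x = (f * (cli_N s y)⁻¹) * y ^ 2 := by
        rw [mul_assoc, mul_comm (cli_N s y)⁻¹, ← mul_assoc, eq_mul_inv_iff_mul_eq]
        apply Units.ext
        rw [Units.val_mul, cli_N_val, Units.val_mul, Units.val_pow_eq_pow_val]
        change (x : Qbar) * (((f : Qbar) + x) * s ((f : Qbar) + x)) = f * ((f : Qbar) + x) ^ 2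
        rw [map_add, hsf]
        linear_combination (-((f : Qbar) + x)) * e1
      rw [e2]
      exact Subgroup.mul_mem_sup (mul_mem hf (inv_mem (cli_N_mem h2 hs hs1 hy))) ⟨y, hy, rfl⟩
  · refine sup_le (fun x hx => ⟨⟨x, hx, (cli_N_fx hs hx).symm⟩, cli_le h2 hx⟩) ?_
    rintro _ ⟨y, hy, rfl⟩
    exact ⟨⟨cli_N s y, cli_N_mem h2 hs hs1 hy, (map_pow (cli_N s) y 2).symm⟩, pow_mem hy 2⟩

theorem cli_comap (D : Subgroup Gam) :
    ((FU D).map (powMonoidHom 2)).comap (powMonoidHom 2) = FU D := by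
  apply le_antisymm
  · rintro x ⟨f, hf, e⟩
    have e1 : (f : Qbar) ^ 2 = (x : Qbar) ^ 2 := by
      rw [← Units.val_pow_eq_pow_val, ← Units.val_pow_eq_pow_val]
      exact congrArg Units.val e
    intro g hg
    rcases sq_eq_sq_iff_eq_or_eq_neg.1 e1.symm with h | h
    · rw [h, hf g hg]
    · rw [h, map_neg, hf g hg]
  · exact fun x hx => ⟨x, hx, rfl⟩

theorem cli_mid (hG : IsClosed (G : Set Gam)) (h1 : Sm G χ) (h2 : IsHom G χ) (hs : s ∈ G)
    (hs1 : χ s = 1) : ((FU G).map (powMonoidHom 2)).relIndex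
      ((FU (kerOn G χ h2)).map (powMonoidHom 2) ⊓ FU G) = 2 := by
  have e : (FU (kerOn G χ h2)).map (powMonoidHom 2) ⊓ FU G =
      (FU (kerOn G χ h2) ⊓ (FU G).comap (powMonoidHom 2)).map (powMonoidHom 2) := by
    apply le_antisymm
    · rintro _ ⟨⟨y, hy, rfl⟩, h⟩
      exact ⟨y, ⟨hy, h⟩, rfl⟩
    · rintro _ ⟨y, ⟨hy, h⟩, rfl⟩
      exact ⟨⟨y, hy, rfl⟩, h⟩
  rw [e, ← Subgroup.relIndex_comap, cli_comap, Subgroup.relIndex_eq_two_iff_exists_notMem_and]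
  have h3 : ∃ y, Fx (kerOn G χ h2) y ∧ s y ≠ y := by
    by_contra h
    push Not at h
    have := (mem_of_fx (kerOn_closed hG h1 h2) h).2
    rw [hs1] at this
    exact cli_ne this
  obtain ⟨y, hy, hy'⟩ := h3
  have h4 : y - s y ≠ 0 := sub_ne_zero.2 hy'.symm
  have h5 : Fx (kerOn G χ h2) (y - s y) := fun g hg => by
    rw [map_sub, hy g hg, cli_s_fx h2 hs hs1 hy g hg]
  have h6 : s (y - s y) = -(y - s y) := by rw [map_sub, cli_ss h2 hs hs1 hy, neg_sub]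
  refine ⟨Units.mk0 _ h4, ⟨h5, ?_⟩, fun h => ?_, ?_⟩
  · change Fx G ((y - s y) ^ 2)
    refine cli_fx h2 hs hs1 (fun g hg => by rw [map_pow, h5 g hg]) ?_
    rw [map_pow, h6, neg_sq]
  · have h7 : s (y - s y) = y - s y := h s hs
    rw [h6, neg_eq_iff_add_eq_zero, ← two_mul] at h7
    exact h4 ((mul_eq_zero.1 h7).resolve_left two_ne_zero)
  · rintro b ⟨hb, hb'⟩
    have h7 : s ((b : Qbar) ^ 2) = (b : Qbar) ^ 2 := hb' s hs
    rw [map_pow] at h7
    rcases sq_eq_sq_iff_eq_or_eq_neg.1 h7 with h | h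
    · exact Or.inr (cli_fx h2 hs hs1 hb h)
    · left
      change Fx G ((b : Qbar) * (y - s y))
      refine cli_fx h2 hs hs1 (fun g hg => by rw [map_mul, h5 g hg, hb g hg]) ?_
      rw [map_mul, h, h6, neg_mul_neg]

theorem cli_index (hG : IsClosed (G : Set Gam)) (h1 : Sm G χ) (h2 : IsHom G χ) (hs : s ∈ G)
    (hs1 : χ s = 1) (h3 : sqIdx G ≠ 0) (h4 : sqIdx G ^ 2 = 4 * sqIdx (kerOn G χ h2)) :
    ((FU (kerOn G χ h2)).map (cli_N s)).relIndex (FU G) = 2 := by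
  unfold sqIdx at h3 h4
  have a1 : (FU G).map (powMonoidHom 2) ≤ (FU (kerOn G χ h2)).map (cli_N s) := by
    rintro _ ⟨x, hx, rfl⟩
    exact ⟨x, cli_le h2 hx, cli_N_fx hs hx⟩
  have a2 : (FU (kerOn G χ h2)).map (cli_N s) ≤ FU G := by
    rintro _ ⟨x, hx, rfl⟩
    exact cli_N_mem h2 hs hs1 hx
  have a3 : (FU G).map (powMonoidHom 2) ≤
      (FU (kerOn G χ h2)).map (powMonoidHom 2) ⊓ FU G := by
    rintro _ ⟨x, hx, rfl⟩
    exact ⟨⟨x, cli_le h2 hx, rfl⟩, pow_mem hx 2⟩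
  have a4 : FU G ⊔ (FU (kerOn G χ h2)).map (powMonoidHom 2) ≤ FU (kerOn G χ h2) := by
    rw [← cli_ker h2 hs hs1]
    exact inf_le_right
  have b1 := Subgroup.relIndex_mul_relIndex _ _ _ a1 a2
  have b2 := Subgroup.relIndex_mul_relIndex _ _ _ a3 inf_le_right
  have b3 := Subgroup.relIndex_mul_relIndex _ _ _ le_sup_right a4
  rw [cli_mid hG h1 h2 hs hs1, Subgroup.inf_relIndex_right] at b2
  rw [Subgroup.relIndex_sup_right, ← cli_ker h2 hs hs1, Subgroup.inf_relIndex_right,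
    Subgroup.relIndex_comap] at b3
  generalize ((FU G).map (powMonoidHom 2)).relIndex (FU G) = a at *
  generalize ((FU (kerOn G χ h2)).map (cli_N s)).relIndex (FU G) = n at *
  generalize ((FU G).map (powMonoidHom 2)).relIndex ((FU (kerOn G χ h2)).map (cli_N s)) = m at *
  generalize ((FU (kerOn G χ h2)).map (powMonoidHom 2)).relIndex (FU G) = c at *
  rw [← b3] at h4
  have m0 : m ≠ 0 := fun h => h3 (by rw [← b1, h, zero_mul])
  have k1 : a * a = a * (m * 2) := by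
    rw [← sq, h4, ← b2]
    ring
  have k2 := mul_left_cancel₀ h3 k1
  exact mul_left_cancel₀ m0 (b1.trans k2)

end

/-- The product of two numbers that are not norms is a norm, if the numbers of square classes
satisfy the relation of local fields. -/
theorem norm_mul_of_count {χ : Gam → ZMod 2} {s : Gam} (hG : IsClosed (G : Set Gam))
    (h1 : Sm G χ) (h2 : IsHom G χ) (hs : s ∈ G) (hs1 : χ s = 1) (h3 : sqIdx G ≠ 0)
    (h4 : sqIdx G ^ 2 = 4 * sqIdx (kerOn G χ h2)) {a b : Qbar} (ha0 : a ≠ 0) (ha : Fx G a)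
    (hb0 : b ≠ 0) (hb : Fx G b) (na : ¬ ∃ β, Fx (kerOn G χ h2) β ∧ a = Nm s 2 β)
    (nb : ¬ ∃ β, Fx (kerOn G χ h2) β ∧ b = Nm s 2 β) :
    ∃ β, Fx (kerOn G χ h2) β ∧ a * b = Nm s 2 β := by
  have key : ∀ x : FU G, x ∈ ((FU (kerOn G χ h2)).map (cli_N s)).subgroupOf (FU G) →
      ∃ β, Fx (kerOn G χ h2) β ∧ ((x : Qbarˣ) : Qbar) = Nm s 2 β := by
    rintro x ⟨y, hy, e⟩
    exact ⟨y, hy, by rw [cli_Nm, ← cli_N_val, e]; rfl⟩
  exact key (⟨Units.mk0 a ha0, ha⟩ * ⟨Units.mk0 b hb0, hb⟩)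
    ((Subgroup.mul_mem_iff_of_index_two (cli_index hG h1 h2 hs hs1 h3 h4)).2
      (iff_of_false (fun h => na (key _ h)) (fun h => nb (key _ h))))

theorem norm_mul_local (hH : Op H) {χ : Gam → ZMod 2} {s : Gam} (h1 : Sm (H ⊓ Dec w) χ)
    (h2 : IsHom (H ⊓ Dec w) χ) (hs : s ∈ H ⊓ Dec w) (hs1 : χ s = 1) {a b : Qbar} (ha0 : a ≠ 0)
    (ha : Fx (H ⊓ Dec w) a) (hb0 : b ≠ 0) (hb : Fx (H ⊓ Dec w) b)
    (na : ¬ ∃ β, Fx (kerOn (H ⊓ Dec w) χ h2) β ∧ a = Nm s 2 β)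
    (nb : ¬ ∃ β, Fx (kerOn (H ⊓ Dec w) χ h2) β ∧ b = Nm s 2 β) :
    ∃ β, Fx (kerOn (H ⊓ Dec w) χ h2) β ∧ a * b = Nm s 2 β := by
  have hc : IsClosed ((H ⊓ Dec w : Subgroup Gam) : Set Gam) := hH.closed.inter (closed_Dec w)
  have e2 : (kerOn (H ⊓ Dec w) χ h2).relIndex (H ⊓ Dec w) = 2 := by
    rw [Subgroup.relIndex_eq_two_iff_exists_notMem_and]
    refine ⟨s, hs, fun h => cli_ne (hs1.symm.trans h.2), fun g hg => ?_⟩
    rcases cli_two (χ g) with h0 | h0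
    · exact Or.inr ⟨hg, h0⟩
    · exact Or.inl ⟨mul_mem hg hs, by rw [h2 _ hg _ hs, h0, hs1, cli_add]⟩
  have e3 := Subgroup.relIndex_mul_relIndex (kerOn (H ⊓ Dec w) χ h2) (H ⊓ Dec w) (Dec w)
    (fun g hg => hg.1) inf_le_right
  obtain ⟨U, hU, e⟩ := kerOn_open h1 h2
  have e4 := sqIdx_eq (hU.inf hH) w
  rw [inf_assoc, ← e, ← e3, e2] at e4
  refine norm_mul_of_count hc h1 h2 hs hs1 ?_ ?_ ha0 ha hb0 hb na nb
  · rw [sqIdx_eq hH w]
    split_ifs <;> positivity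
  · rw [sqIdx_eq hH w, e4]
    split_ifs
    · ring
    · rfl

theorem cli_kum {n : ℕ} {a : Fin n → Qbar} {χ : Fin n → Gam → ZMod (2 ^ 1)}
    (h : ∀ i, Kum 1 G (a i) (χ i)) (t : Finset (Fin n)) :
    Kum 1 G (∏ i ∈ t, a i) (∑ i ∈ t, χ i) := by
  induction t using Finset.induction_on with
  | empty => exact ⟨1, one_ne_zero, by simp, fun g _ => by simp⟩
  | insert i t hi ih =>
    rw [Finset.prod_insert hi, Finset.sum_insert hi]
    exact (h i).mul ih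

theorem cli_symm {n : ℕ} (f : Fin n → ZMod 2) (t t' : Finset (Fin n)) :
    ∑ i ∈ symmDiff t t', f i = ∑ i ∈ t, f i + ∑ i ∈ t', f i := by
  rw [← Finset.univ_inter (symmDiff t t'), ← Finset.sum_ite_mem, ← Finset.univ_inter t,
    ← Finset.univ_inter t', ← Finset.sum_ite_mem, ← Finset.sum_ite_mem, ← Finset.sum_add_distrib,
    Finset.univ_inter, Finset.univ_inter]
  refine Finset.sum_congr rfl fun i _ => ?_
  by_cases h : i ∈ t <;> by_cases h' : i ∈ t' <;> simp [Finset.mem_symmDiff, h, h']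
  rcases cli_two (f i) with h0 | h0 <;> rw [h0] <;> decide

theorem li : LIStmt := by
  intro H w n χ hH hw h1 h2
  have hc : IsClosed ((H ⊓ Dec w : Subgroup Gam) : Set Gam) := hH.closed.inter (closed_Dec w)
  have h3 : ∀ i, ∃ a, Kum 1 (H ⊓ Dec w) a (χ i) := fun i =>
    kum_surj hc (m := 1) (κ := χ i) (h1 i).1 fun g hg k hk => by
      rw [cy_one_eq, one_mul]
      exact (h1 i).2 g hg k hk
  choose a ha using h3
  have h4 := sqIdx_eq hH w
  rw [if_pos hw] at h4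
  let φ : Finset (Fin n) → FU (H ⊓ Dec w) ⧸
      ((FU (H ⊓ Dec w)).map (powMonoidHom 2)).subgroupOf (FU (H ⊓ Dec w)) := fun t =>
    QuotientGroup.mk ⟨Units.mk0 _ (cli_kum ha t).fx.1, (cli_kum ha t).fx.2⟩
  have h5 : Function.Injective φ := by
    intro t t' e
    obtain ⟨y, hy, e1⟩ := QuotientGroup.eq.1 e
    have e2 : (y : Qbar) ^ 2 = (∏ i ∈ t, a i)⁻¹ * ∏ i ∈ t', a i := by
      have := congrArg Units.val e1
      simpa using this
    have k0 := (cli_kum ha t).fx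
    obtain ⟨x, hx⟩ := ((cli_kum ha t).mul (cli_kum ha t')).pow_iff.1
      ⟨(∏ i ∈ t, a i) * y, fun g hg => by rw [map_mul, k0.2 g hg, hy g hg], by
        rw [pow_one, mul_pow, e2]
        have := k0.1
        field_simp⟩
    refine symmDiff_eq_bot.1 (h2 _ fun g hg => ?_)
    have h6 := hx g hg
    rw [cy_one_eq, sub_self, zero_mul, Pi.add_apply, Finset.sum_apply, Finset.sum_apply] at h6
    rw [cli_symm]
    exact h6
  have h6 : Finite (FU (H ⊓ Dec w) ⧸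
      ((FU (H ⊓ Dec w)).map (powMonoidHom 2)).subgroupOf (FU (H ⊓ Dec w))) :=
    Nat.finite_of_card_ne_zero (by
      change sqIdx (H ⊓ Dec w) ≠ 0
      rw [h4]
      positivity)
  have h7 := Nat.card_le_card_of_injective φ h5
  rw [Nat.card_eq_fintype_card, Fintype.card_finset, Fintype.card_fin] at h7
  have h8 : 2 ^ n ≤ 2 ^ ((H ⊓ Dec w).relIndex (Dec w) + 2) := by
    rw [pow_add, mul_comm]
    exact h7.trans h4.le
  exact (Nat.pow_le_pow_iff_right (by norm_num)).1 h8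


end Pool.Agent.Lib.MP_696deb_nt.B2
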