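import Pool.Agent.Lib.MP_696deb_nt.B2.CLg
import Pool.Agent.Lib.MP_696deb_nt.B2.CLi

/-! Every two-primary class is unramified. -/

set_option autoImplicit false

open scoped NNReal Classical
open Filter Topology Finset

namespace Pool.Agent.Lib.MP_696deb_nt.B2

variable {H H' : Subgroup Gam} {w : Plc} {γ : Gam → Gam → Qbar}

theorem clj_inf (h : H' ≤ H) (w : Plc) : H' ⊓ Dec w = H' ⊓ (H ⊓ Dec w) := by
  rw [← inf_assoc, inf_eq_left.2 h]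

theorem LD.clj_one (hH : Op H) (L : LD H w) (t : ℕ) (k : ℤ) :
    Coh (H ⊓ Dec w) (L.ur t k) 1 ↔ (2 : ℤ) ^ t ∣ k := by
  rw [← L.ur_zero t, L.ur_coh_iff hH, Int.cast_zero, ZMod.intCast_zmod_eq_zero_iff_dvd,
    Nat.cast_pow, Nat.cast_ofNat]

/-- A class that is killed by a quadratic extension has invariant zero or one half. -/
theorem LD.quad_step (hH' : Op H') (L : LD H w) (h : H' ≤ H)
    (h2 : (H' ⊓ Dec w).relIndex (H ⊓ Dec w) = 2) (hγ : CQ (H ⊓ Dec w) γ)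
    (hs : Coh (H' ⊓ Dec w) γ 1) : Coh (H ⊓ Dec w) γ 1 ∨ Coh (H ⊓ Dec w) γ (L.ur 1 1) := by
  have hH : Op H := Subgroup.isOpen_mono h hH'
  have hG : IsClosed ((H ⊓ Dec w : Subgroup Gam) : Set Gam) := hH.closed.inter (closed_Dec w)
  obtain ⟨χ, s, c1, c2, c3, c4, c5⟩ := exists_quad hH' (clj_inf h w) h2
  have hk : kerOn (H ⊓ Dec w) χ c2 = H' ⊓ Dec w := Subgroup.ext fun g =>
    ⟨fun e => (c5 g e.1).1 e.2, fun e => ⟨⟨h e.1, e.2⟩, (c5 g ⟨h e.1, e.2⟩).2 e⟩⟩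
  obtain ⟨L'⟩ := exists_LD hH' w
  have hα : Coh (H' ⊓ Dec w) (L.ur 1 1) 1 :=
    (L.ur_res hH' L' h 1 1).trans ((L'.clj_one hH' _ _).2 (by rw [h2]; norm_num))
  obtain ⟨a, a0, a1, a2⟩ := coh_Cy hG c1 c2 c3 c4 hγ (hk ▸ hs)
  obtain ⟨b, b0, b1, b2⟩ := coh_Cy hG c1 c2 c3 c4 (L.cq_ur 1 1) (hk ▸ hα)
  by_cases na : ∃ β, Fx (kerOn (H ⊓ Dec w) χ c2) β ∧ a = Nm s 2 β
  · exact Or.inl (a2.trans ((Cy_split_iff hG c1 c2 c3 c4 a0 a1).2 na))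
  have nb : ¬ ∃ β, Fx (kerOn (H ⊓ Dec w) χ c2) β ∧ b = Nm s 2 β := fun e => by
    have := (L.clj_one hH 1 1).1 (b2.trans ((Cy_split_iff hG c1 c2 c3 c4 b0 b1).2 e))
    norm_num at this
  have e1 := (Cy_split_iff hG c1 c2 c3 c4 (mul_ne_zero a0 b0) fun g hg => by
    rw [map_mul, a1 g hg, b1 g hg]).2 (norm_mul_local hH c1 c2 c3 c4 a0 a1 b0 b1 na nb)
  rw [Cy_mul] at e1
  have e2 : Coh (H ⊓ Dec w) (L.ur 1 1 * L.ur 1 1) 1 := by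
    rw [← L.ur_add]
    exact (L.clj_one hH _ _).2 (by norm_num)
  have e3 := ((Coh.refl _ γ).mul e2).symm
  have e4 := ((a2.mul b2).trans e1).mul (Coh.refl _ (L.ur 1 1))
  rw [mul_one, ← mul_assoc] at e3
  rw [one_mul] at e4
  exact Or.inr (e3.trans e4)

theorem clj_two (hH' : Op H') (h : H' ≤ H) (h2 : (H' ⊓ Dec w).relIndex (H ⊓ Dec w) = 2)
    (hγ : CQ (H ⊓ Dec w) γ) (L : LD H w) (L' : LD H' w) {t : ℕ} {k : ℤ}
    (hc : Coh (H' ⊓ Dec w) γ (L'.ur t k)) : ∃ k, Coh (H ⊓ Dec w) γ (L.ur (t + 1) k) := by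
  have e1 := L.ur_res hH' L' h (t + 1) k
  have e2 := L'.ur_succ t 1 k
  rw [h2] at e1
  rw [pow_one] at e2
  have c := L.cq_ur (t + 1) k
  have e3 := ((hc.trans e2).trans e1.symm).div (c.mono (inf_le_inf_right _ h)).2.1
  rcases L.quad_step hH' h h2 (hγ.mul c.inv) e3 with e | e
  · exact ⟨k, by simpa only [one_mul] using e.cancel c.2.1⟩
  · have e4 := L.ur_succ 1 t 1
    rw [add_comm 1 t] at e4
    exact ⟨_, by
      rw [L.ur_add]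
      exact (e.cancel c.2.1).trans (e4.mul (Coh.refl _ _))⟩

theorem LD.exists_ur (hH : Op H) (L : LD H w) (hγ : CQ (H ⊓ Dec w) γ) {m : ℕ}
    (hm : Coh (H ⊓ Dec w) (γ ^ 2 ^ m) 1) : ∃ k : ℤ, Coh (H ⊓ Dec w) γ (L.ur m k) := by
  obtain ⟨U, u1, u2, u3⟩ := hγ.exists_split
  obtain ⟨H', h1, h2, h3, h4⟩ := devissage (Dec w)
    (fun H' => ∀ L' : LD H' w, ∃ t k, Coh (H' ⊓ Dec w) γ (L'.ur t k)) hH u1 u2
    (fun H' _ h e L' => ⟨0, 0, by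
      rw [L'.ur_zero]
      exact u3.mono (le_inf e (inf_le_inf_right _ h))⟩)
    fun H' H'' o h h' e q L' => by
      obtain ⟨L''⟩ := exists_LD o w
      obtain ⟨t, k, hc⟩ := q L''
      exact ⟨_, clj_two o h e (hγ.mono (inf_le_inf_right _ h')) L' L'' hc⟩
  obtain ⟨L'⟩ := exists_LD h1 w
  obtain ⟨t, k, hc⟩ := h4 L'
  obtain ⟨u, v, huv⟩ : IsCoprime (((H' ⊓ Dec w).relIndex (H ⊓ Dec w) : ℕ) : ℤ) ((2 ^ t : ℕ) : ℤ) :=
    Nat.isCoprime_iff_coprime.2 ((Nat.coprime_two_right.2 h3).pow_right t)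
  have c := L.cq_ur t (u * k)
  have e1 : Coh (H' ⊓ Dec w) (L.ur t (u * k)) (L'.ur t k) :=
    (L.ur_res h1 L' h2 t _).trans ((L'.ur_coh_iff h1 t _ _).2
      ((ZMod.intCast_eq_intCast_iff_dvd_sub _ _ _).2 ⟨v * k, by linear_combination (-k) * huv⟩))
  have e2 := (hc.trans e1.symm).div (c.mono (inf_le_inf_right _ h2)).2.1
  have e3 : Coh (H ⊓ Dec w) ((γ * (L.ur t (u * k))⁻¹) ^ 2 ^ (m + t)) 1 := by
    have e4 := (hm.pow (2 ^ t)).mul (((L.clj_one hH t ((2 ^ (m + t) : ℕ) * (u * k))).2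
      ⟨2 ^ m * (u * k), by push_cast; ring⟩).inv)
    rwa [one_pow, inv_one, mul_one, L.ur_mul, ← pow_mul, ← pow_add, ← inv_pow, ← mul_pow] at e4
  rw [clj_inf h2] at e2 h3
  have e5 := (coh_of_odd h1 (hγ.mul c.inv) e2 h3 e3).cancel c.2.1
  rw [one_mul] at e5
  have e6 := (e5.pow (2 ^ m)).symm.trans hm
  rw [← L.ur_mul] at e6
  obtain ⟨j, hj⟩ := (L.clj_one hH _ _).1 e6
  have e7 := L.ur_succ t m (u * k)
  rw [Nat.cast_pow, Nat.cast_ofNat] at hj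
  rw [hj, add_comm] at e7
  exact ⟨j, (e5.trans e7).trans (L.ur_succ m t j).symm⟩


end Pool.Agent.Lib.MP_696deb_nt.B2
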