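import Pool.Agent.Lib.MP_696deb_nt.B2.CLk

/-! Characters that kill all units are unramified. -/

set_option autoImplicit false

open scoped NNReal Classical
open Filter Topology Finset

namespace Pool.Agent.Lib.MP_696deb_nt.B2

variable {m : ℕ} {H : Subgroup Gam} {w : Plc}

theorem cll_closed (hH : Op H) (w : Plc) : IsClosed ((H ⊓ Dec w : Subgroup Gam) : Set Gam) :=
  hH.closed.inter (closed_Dec w)

theorem cll_half {n : ℕ} {x : ZMod (2 ^ (n + 1))} (h : 2 * x = 0) :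
    x.val = 0 ∨ x.val = 2 ^ n := by
  have h1 : ((2 * x.val : ℕ) : ZMod (2 ^ (n + 1))) = 0 := by
    rw [Nat.cast_mul, ZMod.natCast_zmod_val]
    exact_mod_cast h
  rw [ZMod.natCast_eq_zero_iff] at h1
  have h2 := ZMod.val_lt x
  generalize x.val = y at h1 h2 ⊢
  rw [pow_succ'] at h1
  obtain ⟨c, hc⟩ := Nat.dvd_of_mul_dvd_mul_left two_pos h1
  have h3 : c < 2 := by
    rw [hc, pow_succ] at h2
    exact Nat.lt_of_mul_lt_mul_left h2
  interval_cases c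
  · exact Or.inl (by simpa using hc)
  · exact Or.inr (by simpa using hc)

/-- The quadratic case. -/
theorem cll_quad (hH : Op H) {χ : Gam → ZMod 2} (h1 : Sm (H ⊓ Dec w) χ)
    (h2 : IsHom (H ⊓ Dec w) χ) {s : Gam} (hs : s ∈ H ⊓ Dec w) (hs1 : χ s = 1)
    (h : ∀ a, a ≠ 0 → Fx (H ⊓ Dec w) a → Coh (H ⊓ Dec w) (Cy 2 χ a) 1) : False := by
  obtain ⟨U, hU, hk⟩ := kerOn_open h1 h2
  obtain ⟨L⟩ := exists_LD hH w
  obtain ⟨L'⟩ := exists_LD (hU.inf hH) w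
  have he : U ⊓ H ⊓ Dec w = kerOn (H ⊓ Dec w) χ h2 := by rw [hk, inf_assoc]
  have hi : (U ⊓ H ⊓ Dec w).relIndex (H ⊓ Dec w) = 2 := by
    rw [he, Subgroup.relIndex, Subgroup.index_eq_two_iff]
    refine ⟨⟨s, hs⟩, fun b => ?_⟩
    have h3 : ∀ x : ZMod 2, (x + 1 = 0 ∧ ¬ x = 0) ∨ (x = 0 ∧ ¬ x + 1 = 0) := by decide
    have h4 := h3 (χ b)
    simp only [Subgroup.mem_subgroupOf, mem_kerOn, Subgroup.coe_mul]
    rw [h2 b b.2 s hs, hs1]
    simpa only [b.2, mul_mem b.2 hs, true_and, Xor] using h4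
  have h3 := LD.ur_res (hU.inf hH) L L' inf_le_right 1 1
  rw [hi] at h3
  have h4 : Coh (U ⊓ H ⊓ Dec w) (L'.ur 1 ((2 : ℕ) * 1)) (L'.ur 1 0) :=
    (L'.ur_coh_iff (hU.inf hH) 1 _ _).2 (by decide)
  have h5 := h3.trans h4
  rw [L'.ur_zero, he] at h5
  obtain ⟨a, a0, ha, h6⟩ := coh_Cy (cll_closed hH w) h1 h2 hs hs1 (L.cq_ur 1 1) h5
  have h7 := h6.trans (h a a0 ha)
  rw [← L.ur_zero 1, L.ur_coh_iff hH] at h7
  exact absurd h7 (by decide)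

theorem cll_fx_pow {G : Subgroup Gam} {a : Qbar} (h : Fx G a) (n : ℕ) : Fx G (a ^ n) :=
  fun g hg => by rw [map_pow, h g hg]

/-- The symbol is nondegenerate in the character. -/
theorem eq_zero_of_split (hH : Op H) {χ : Gam → ZMod (2 ^ m)} (h1 : Sm (H ⊓ Dec w) χ)
    (h2 : IsHom (H ⊓ Dec w) χ)
    (h : ∀ a, a ≠ 0 → Fx (H ⊓ Dec w) a → Coh (H ⊓ Dec w) (Cy (2 ^ m) χ a) 1) :
    ∀ g ∈ H ⊓ Dec w, χ g = 0 := by
  have key : ∀ j : ℕ, (∀ g ∈ H ⊓ Dec w, ((2 ^ (j + 1) : ℕ) : ZMod (2 ^ m)) * χ g = 0) →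
      ∀ g ∈ H ⊓ Dec w, ((2 ^ j : ℕ) : ZMod (2 ^ m)) * χ g = 0 := by
    intro j hj s hs
    by_contra hs0
    cases m with
    | zero => exact hs0 (Subsingleton.elim (α := ZMod 1) _ _)
    | succ n =>
      set ψ : Gam → ZMod (2 ^ (n + 1)) := fun g => ((2 ^ j : ℕ) : ZMod (2 ^ (n + 1))) * χ g with hψ
      have h3 : ∀ g ∈ H ⊓ Dec w, 2 * ψ g = 0 := fun g hg => by
        rw [← hj g hg, hψ]
        push_cast
        ring
      have h4 : ∀ g ∈ H ⊓ Dec w, ψ g ≠ 0 → (ψ g).val = 2 ^ n := fun g hg h0 =>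
        (cll_half (h3 g hg)).resolve_left fun h5 => h0 ((ZMod.val_eq_zero _).1 h5)
      have h5 : ∀ g ∈ H ⊓ Dec w, ∀ k ∈ H ⊓ Dec w, ψ (g * k) = ψ g + ψ k := fun g hg k hk => by
        simp only [hψ, h2 g hg k hk, mul_add]
      refine cll_quad hH (χ := fun g => if ψ g = 0 then 0 else 1)
        (h1.comp fun x => if ((2 ^ j : ℕ) : ZMod (2 ^ (n + 1))) * x = 0 then (0 : ZMod 2) else 1)
        (fun g hg k hk => ?_) hs (if_neg hs0) fun a a0 ha => ?_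
      · by_cases hg0 : ψ g = 0
        · simp [h5 g hg k hk, hg0]
        · by_cases hk0 : ψ k = 0
          · simp [h5 g hg k hk, hk0]
          · have h6 : ψ g = ψ k := ZMod.val_injective _ ((h4 g hg hg0).trans (h4 k hk hk0).symm)
            have h7 : ψ (g * k) = 0 := by rw [h5 g hg k hk, h6, ← two_mul, h3 k hk]
            simp only [h7, hg0, hk0, if_true, if_false]
            decide
      · refine (Cy_scale (ψ := ψ) (d := 2 ^ n) (pow_succ 2 n) (fun g hg => ?_) a).symm.trans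
          ((Cy_nsmul h1 h2 a0 ha (2 ^ j)).trans (h _ (pow_ne_zero _ a0) (cll_fx_pow ha _)))
        by_cases hg0 : ψ g = 0
        · simp [hg0]
        · rw [if_neg hg0, h4 g hg hg0, ZMod.val_one, mul_one]
  have h3 : ∀ j : ℕ, (∀ g ∈ H ⊓ Dec w, ((2 ^ j : ℕ) : ZMod (2 ^ m)) * χ g = 0) →
      ∀ g ∈ H ⊓ Dec w, χ g = 0 := by
    intro j
    induction j with
    | zero => intro hj g hg; simpa using hj g hg
    | succ j ih => exact fun hj => ih (key j hj)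
  exact h3 m fun g _ => by rw [ZMod.natCast_self, zero_mul]

/-- Local units are killed as soon as the global numbers that are units at the place are. -/
theorem cll_unit (hH : Op H) {χ : Gam → ZMod (2 ^ m)} (h1 : Sm (H ⊓ Dec w) χ)
    (h2 : IsHom (H ⊓ Dec w) χ)
    (h : ∀ a κ, Fx H a → w.V a = 1 → Kum m H a κ → linv m H w (cup m χ κ) = 0) {u : Qbar}
    (hu : Fx (H ⊓ Dec w) u) (hv : w.V u = 1) : Coh (H ⊓ Dec w) (Cy (2 ^ m) χ u) 1 := by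
  have e0 : (0 : ℝ≥0) < w.V (2 ^ (m + 1)) := b3a_pos w (pow_ne_zero _ two_ne_zero)
  have e1 : w.V (2 ^ (m + 1)) ≤ 1 := by exact_mod_cast w.V_int_le (2 ^ (m + 1))
  obtain ⟨y, hy, hd⟩ := approx hH hu e0
  have vy : w.V y = 1 := by
    rw [← hv]
    exact w.V.map_eq_of_sub_lt (by rw [w.V.map_sub_swap, hv]; exact hd.trans_le e1)
  have y0 : y ≠ 0 := fun h0 => by simp [h0] at vy
  have u0 : u ≠ 0 := fun h0 => by simp [h0] at hv
  have hy' : Fx (H ⊓ Dec w) y := fun g hg => hy g hg.1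
  obtain ⟨r, hr, hr'⟩ := exists_root (D := H ⊓ Dec w) (w := w) inf_le_right (a := u / y) m
    (fun g hg => by rw [map_div₀, hu g hg, hy' g hg])
    (by rw [div_sub_one y0, map_div₀, vy, div_one]; exact hd)
  have r0 : r ≠ 0 := fun h0 => by
    rw [h0, zero_pow (pow_ne_zero _ two_ne_zero)] at hr'
    exact div_ne_zero u0 y0 hr'.symm
  obtain ⟨κ, hκ⟩ := exists_kum m y0 hy
  have hκ' : Kum m (H ⊓ Dec w) y κ := hκ.mono inf_le_left
  have hc := c2_cup h1 h2 hκ'.sm hκ'.coc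
  have h3 : Coh (H ⊓ Dec w) (zc m (cup m χ κ)) 1 :=
    coh_one_iff.2 ((spl_iff (cll_closed hH w) hc).1 ((linv_zero_iff hH hc).1 (h y κ hy vy hκ)))
  have h4 := ((cup_coh h1 h2 hκ').symm.trans h3).mul (Cy_pow_n h1 h2 r0 hr)
  rwa [← Cy_mul, hr', mul_div_cancel₀ _ y0, mul_one] at h4

theorem linv_crit (hH : Op H) {χ : Gam → ZMod (2 ^ m)} (h1 : Sm (H ⊓ Dec w) χ)
    (h2 : IsHom (H ⊓ Dec w) χ)
    (h : ∀ a κ, Fx H a → w.V a = 1 → Kum m H a κ → linv m H w (cup m χ κ) = 0) :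
    ∀ σ ∈ H ⊓ Ine w, χ σ = 0 := by
  obtain ⟨L⟩ := exists_LD hH w
  have hπ : Fx (H ⊓ Dec w) L.π := fun g hg => L.π_fx g hg.1
  obtain ⟨k, hk⟩ := L.exists_ur hH (cq_Cy h1 h2 L.π_ne hπ) (m := m)
    (by rw [← Cy_pow]; exact Cy_pow_n h1 h2 L.π_ne hπ)
  obtain ⟨c, hc⟩ : ∃ c : ℕ, (c : ZMod (2 ^ m)) = -k := ⟨_, ZMod.natCast_zmod_val _⟩
  set ψ : Gam → ZMod (2 ^ m) := fun g => c * L.om m g with hψ
  have s1 : Sm (H ⊓ Dec w) ψ := (L.om_sm m).comp fun x => c * x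
  have s2 : IsHom (H ⊓ Dec w) ψ := fun g hg k hk => by
    simp only [hψ, L.om_hom m g hg k hk, mul_add]
  have t1 : Sm (H ⊓ Dec w) (χ + ψ) := h1.comp₂ s1 (· + ·)
  have t2 : IsHom (H ⊓ Dec w) (χ + ψ) := fun g hg k hk => by
    simp only [Pi.add_apply, h2 g hg k hk, s2 g hg k hk]
    ring
  have t3 : ∀ a, a ≠ 0 → Fx (H ⊓ Dec w) a → Coh (H ⊓ Dec w) (Cy (2 ^ m) (χ + ψ) a)
      (Cy (2 ^ m) χ a * Cy (2 ^ m) (L.om m) (a ^ c)) := fun a a0 ha =>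
    (Cy_add h1 h2 s1 s2 a0 ha).trans
      ((Coh.refl _ _).mul (Cy_nsmul (L.om_sm m) (L.om_hom m) a0 ha c))
  have t4 : Coh (H ⊓ Dec w) (Cy (2 ^ m) (χ + ψ) L.π) 1 := by
    have h3 := (t3 _ L.π_ne hπ).trans (hk.mul (Coh.refl _ _))
    rw [← zpow_natCast] at h3
    change Coh _ _ (L.ur m k * L.ur m c) at h3
    rw [← L.ur_add] at h3
    rw [← L.ur_zero m]
    exact h3.trans ((L.ur_coh_iff hH m _ _).2 (by push_cast; rw [hc, add_neg_cancel]))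
  have t5 : ∀ j : ℤ, Coh (H ⊓ Dec w) (Cy (2 ^ m) (χ + ψ) (L.π ^ j)) 1 := fun j => by
    obtain ⟨n, rfl | rfl⟩ := j.eq_nat_or_neg
    · rw [zpow_natCast, Cy_pow]
      simpa using t4.pow n
    · rw [zpow_neg, zpow_natCast, Cy_inv, Cy_pow]
      simpa using (t4.pow n).inv
  have t6 := eq_zero_of_split hH t1 t2 fun a a0 ha => by
    obtain ⟨j, hj⟩ := L.val a (fun g hg => ha g ⟨hg.1, Ine_le w hg.2⟩) a0
    have p0 : L.π ^ j ≠ 0 := zpow_ne_zero _ L.π_ne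
    have hu : Fx (H ⊓ Dec w) (a / L.π ^ j) := fun g hg => by
      rw [map_div₀, ha g hg, L.fx_zpow j g hg]
    have hv : w.V (a / L.π ^ j) = 1 := by
      rw [map_div₀, map_zpow₀, hj, div_self (zpow_ne_zero _ L.π_pos.ne')]
    have h3 := (t3 _ (div_ne_zero a0 p0) hu).trans ((cll_unit hH h1 h2 h hu hv).mul
      (L.Cy_unit hH m (cll_fx_pow hu c) (by rw [map_pow, hv, one_pow])))
    have h4 := (t5 j).mul h3
    rwa [← Cy_mul, mul_div_cancel₀ _ p0, mul_one, mul_one] at h4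
  intro σ hσ
  simpa [hψ, L.om_ine m hσ] using t6 σ ⟨hσ.1, Ine_le w hσ.2⟩


end Pool.Agent.Lib.MP_696deb_nt.B2
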