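import Pool.Agent.Lib.MP_696deb_nt.B2.CL0

/-! The reciprocity law: definitions. -/

set_option autoImplicit false

open scoped NNReal Classical
open Filter Topology Finset

namespace Pool.Agent.Lib.MP_696deb_nt.B2

/-- An additive Dirichlet character modulo `n`. -/
def Dir (n : ℕ) {t : ℕ} (θ : ℤ → ZMod (2 ^ t)) : Prop :=
  (∀ a b : ℤ, IsCoprime a n → IsCoprime b n → θ (a * b) = θ a + θ b) ∧
    ∀ a b : ℤ, (n : ℤ) ∣ a - b → θ a = θ b

/-- The Galois character that belongs to a Dirichlet character. -/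
structure IsCyc (n : ℕ) {t : ℕ} (θ : ℤ → ZMod (2 ^ t)) (χ : Gam → ZMod (2 ^ t)) : Prop where
  sm : Sm ⊤ χ
  hom : IsHom ⊤ χ
  ine : ∀ w : Plc, ¬ w.p ∣ n → ∀ σ ∈ Ine w, χ σ = 0
  frob : ∀ (w : Plc) (k : ℕ) (φ : Gam), ¬ w.p ∣ n → IsFrob w k φ → χ φ = θ k
  cc : ∀ g, IsCC g → χ g = θ (-1)

/-- The norm to the rational numbers. -/
noncomputable def nq (H : Subgroup Gam) (x : Qbar) : Qbar := ∏ᶠ y : Gam ⧸ H, y.out x


end Pool.Agent.Lib.MP_696deb_nt.B2
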