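import Pool.Agent.Lib.MP_696deb_nt.B2.CR0
import Pool.Agent.Lib.MP_696deb_nt.B2.CLf

/-! Cyclotomic characters and small lemmas. -/

set_option autoImplicit false

open scoped NNReal Classical
open Filter Topology Finset

namespace Pool.Agent.Lib.MP_696deb_nt.B2

variable {G H : Subgroup Gam}

theorem exists_cyc {n t : ℕ} {θ : ℤ → ZMod (2 ^ t)} (hn : 0 < n) (h : Dir n θ) :
    ∃ χ, IsCyc n θ χ := by
  have : NeZero n := ⟨hn.ne'⟩
  obtain ⟨ζ, hζ⟩ := HasEnoughRootsOfUnity.exists_primitiveRoot Qbar n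
  have h0 : ζ ≠ 0 := hζ.ne_zero hn.ne'
  have ex : ∀ x : Qbar, ∃ i : ℕ, x ^ n = 1 → ζ ^ i = x := fun x => by
    by_cases hx : x ^ n = 1
    · obtain ⟨i, -, hi⟩ := hζ.eq_pow_of_pow_eq_one hx
      exact ⟨i, fun _ => hi⟩
    · exact ⟨0, fun h => absurd h hx⟩
  choose A hA using ex
  have hA' : ∀ g : Gam, ζ ^ A (g ζ) = g ζ := fun g =>
    hA _ (by rw [← map_pow, hζ.pow_eq_one, map_one])
  have key : ∀ (g : Gam) (k : ℤ), g ζ = ζ ^ k → θ (A (g ζ)) = θ k := fun g k hk => by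
    refine h.2 _ _ ((hζ.zpow_eq_one_iff_dvd _).1 ?_)
    rw [zpow_sub₀ h0, zpow_natCast, hA', hk, div_self (zpow_ne_zero _ h0)]
  have cop : ∀ g : Gam, IsCoprime ((A (g ζ) : ℕ) : ℤ) (n : ℤ) := fun g => by
    refine Nat.isCoprime_iff_coprime.2 ((hζ.pow_iff_coprime hn _).1 ?_)
    rw [hA']
    exact hζ.map_of_injective g.injective
  have fr : ∀ (w : Plc) (k : ℕ) (φ : Gam), ¬ w.p ∣ n → IsFrob w k φ → θ (A (φ ζ)) = θ k :=
    fun w k φ h1 h2 => key φ k (by rw [frob_root h2 h1 hζ.pow_eq_one, zpow_natCast])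
  refine ⟨fun g => θ (A (g ζ)), (sm_apply ζ).comp fun x => θ (A x), fun g _ k _ => ?_,
    fun w hw σ hσ => ?_, fr, fun g hg => key g _ ?_⟩
  · rw [← h.1 _ _ (cop g) (cop k)]
    refine key _ _ ?_
    rw [← Nat.cast_mul, zpow_natCast, pow_mul, hA', ← map_pow, hA', AlgEquiv.mul_apply]
  · have h1 := h.1 1 1 isCoprime_one_left isCoprime_one_left
    rw [mul_one] at h1
    rw [fr w 1 σ hw (isFrob_one.2 hσ), Nat.cast_one]
    exact left_eq_add.1 h1
  · obtain ⟨j, hj⟩ := hg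
    have h1 : ‖j ζ‖ = 1 := Complex.norm_eq_one_of_pow_eq_one
      (by rw [← map_pow, hζ.pow_eq_one, map_one]) hn.ne'
    refine j.injective ?_
    rw [hj, zpow_neg_one, map_inv₀, Complex.inv_eq_conj h1]

/-- A character is a multiple of a surjective character. -/
theorem exists_scale {t : ℕ} {χ : Gam → ZMod (2 ^ t)} (h1 : Sm G χ) (h2 : IsHom G χ) :
    ∃ (u v : ℕ) (ψ : Gam → ZMod (2 ^ u)) (s : Gam), t = v + u ∧ Sm G ψ ∧ IsHom G ψ ∧ s ∈ G ∧
      ψ s = 1 ∧ ∀ g ∈ G, (χ g).val = 2 ^ v * (ψ g).val := by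
  obtain ⟨v, hv, hP, hmax⟩ : ∃ v ≤ t, (∀ g ∈ G, 2 ^ v ∣ (χ g).val) ∧
      (v < t → ¬ ∀ g ∈ G, 2 ^ (v + 1) ∣ (χ g).val) :=
    ⟨Nat.findGreatest (fun v => ∀ g ∈ G, 2 ^ v ∣ (χ g).val) t, Nat.findGreatest_le t,
      Nat.findGreatest_spec (P := fun v => ∀ g ∈ G, 2 ^ v ∣ (χ g).val) (Nat.zero_le t)
        fun g _ => one_dvd _,
      fun h => Nat.findGreatest_is_greatest (P := fun v => ∀ g ∈ G, 2 ^ v ∣ (χ g).val)
        (Nat.lt_succ_self _) h⟩
  obtain ⟨u, rfl⟩ := Nat.exists_eq_add_of_le hv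
  have p2 : 0 < 2 ^ v := Nat.two_pow_pos v
  have hval : ∀ g, (((χ g).val / 2 ^ v : ℕ) : ZMod (2 ^ u)).val = (χ g).val / 2 ^ v := fun g =>
    ZMod.val_cast_of_lt (Nat.div_lt_of_lt_mul ((ZMod.val_lt _).trans_eq (pow_add 2 v u)))
  have hom : IsHom G fun g => (((χ g).val / 2 ^ v : ℕ) : ZMod (2 ^ u)) := fun g hg k hk => by
    have e := car_spec h2 hg hk
    generalize car (2 ^ (v + u)) χ g k = c at e
    have e1 : (χ g).val / 2 ^ v + (χ k).val / 2 ^ v = (χ (g * k)).val / 2 ^ v + 2 ^ u * c := by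
      refine Nat.eq_of_mul_eq_mul_left p2 ?_
      rw [mul_add, mul_add, Nat.mul_div_cancel' (hP g hg), Nat.mul_div_cancel' (hP k hk),
        Nat.mul_div_cancel' (hP _ (mul_mem hg hk)), ← mul_assoc, ← pow_add, e]
    dsimp only
    rw [← Nat.cast_add, e1, Nat.cast_add, Nat.cast_mul, ZMod.natCast_self, zero_mul, add_zero]
  obtain ⟨g, hg, cop⟩ : ∃ g ∈ G, ((χ g).val / 2 ^ v).Coprime (2 ^ u) := by
    rcases Nat.eq_zero_or_pos u with rfl | hu
    · exact ⟨1, one_mem _, Nat.coprime_one_right _⟩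
    · have h3 := hmax (Nat.lt_add_of_pos_right hu)
      push Not at h3
      obtain ⟨g, hg, h4⟩ := h3
      refine ⟨g, hg, Nat.Coprime.pow_right _ ((Nat.prime_two.coprime_iff_not_dvd.2 ?_).symm)⟩
      intro h5
      exact h4 (by rw [pow_succ]; exact (Nat.dvd_div_iff_mul_dvd (hP g hg)).1 h5)
  obtain ⟨y, hy⟩ := ((ZMod.isUnit_iff_coprime _ _).2 cop).exists_left_inv
  refine ⟨u, v, fun g => (((χ g).val / 2 ^ v : ℕ) : ZMod (2 ^ u)), g ^ y.val, rfl,
    h1.comp fun x => ((x.val / 2 ^ v : ℕ) : ZMod (2 ^ u)), hom, pow_mem hg _, ?_, fun k hk => ?_⟩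
  · refine (cle_pow hom hg _).trans ?_
    rw [ZMod.natCast_zmod_val, hy]
  · rw [hval, Nat.mul_div_cancel' (hP k hk)]

theorem pos_of_split {n : ℕ} [NeZero n] {χ : Gam → ZMod n} (h2 : IsHom ⊤ χ) (hc : χ cc ≠ 0)
    {r : ℚ} (hr : r ≠ 0) (h : Coh (Subgroup.zpowers cc) (Cy n χ r) 1) : 0 < r := by
  have _ := hr
  obtain ⟨b, -, b0, hb⟩ := h
  have h1 : (χ 1).val = 0 := by rw [cle_one h2, ZMod.val_zero]
  have e1 := hb 1 (one_mem _) 1 (one_mem _)
  have e2 := hb cc (Subgroup.mem_zpowers _) cc (Subgroup.mem_zpowers _)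
  have c1 : car n χ 1 1 = 0 := by rw [car, h1, add_zero, Nat.zero_div]
  have c2 : car n χ cc cc = 1 := by
    have e := car_spec h2 (Subgroup.mem_top cc) (Subgroup.mem_top cc)
    have l1 := ZMod.val_lt (χ cc)
    have l2 : (χ cc).val ≠ 0 := fun h => hc ((ZMod.val_eq_zero _).1 h)
    rw [cc_mul_cc, h1, zero_add] at e
    generalize car n χ cc cc = c at e
    have l3 : c < 2 := Nat.lt_of_mul_lt_mul_left (a := n) (by omega)
    have l4 : c ≠ 0 := by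
      rintro rfl
      omega
    omega
  simp only [Cy, c1, c2, Pi.one_apply, pow_zero, pow_one, one_mul, cc_mul_cc,
    AlgEquiv.one_apply] at e1 e2
  have b1 : b 1 = 1 := (mul_eq_left₀ (b0 1)).1 e1.symm
  rw [b1, mul_one] at e2
  have e3 := congrArg jC e2
  rw [map_mul, jC_cc, Complex.mul_conj, map_ratCast] at e3
  have e4 : (r : ℝ) = Complex.normSq (jC (b cc)) := by exact_mod_cast e3
  have e5 : 0 < Complex.normSq (jC (b cc)) := Complex.normSq_pos.2 ((map_ne_zero jC).2 (b0 cc))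
  rw [← e4] at e5
  exact_mod_cast e5

theorem exists_apart_ext (hH : Op H) {s : Finset Plc} (hs : Apart H s) (B : Finset ℕ) :
    ∃ s' : Finset Plc, s ⊆ s' ∧ Apart H s' ∧ (∀ w ∈ s', w ∉ s → w.p ∈ B ∧ Away H s w) ∧
      ∀ w : Plc, w.p ∈ B → ¬ Away H s' w := by
  obtain ⟨t, h1, h2, h3⟩ := exists_reps hH B
  refine ⟨s ∪ t.filter (Away H s), subset_union_left, fun v hv w hw g hg e => ?_,
    fun w hw hw' => ?_, fun w hw ha => h3 w hw fun v hv g hg e => ?_⟩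
  · rcases mem_union.1 hv with hv | hv <;> rcases mem_union.1 hw with hw | hw
    · exact hs v hv w hw g hg e
    · exact absurd e ((mem_filter.1 hw).2 v hv g hg)
    · exact absurd (inv_smul_eq_iff.2 e.symm) ((mem_filter.1 hv).2 w hw g⁻¹ (inv_mem hg))
    · exact h1 v (mem_filter.1 hv).1 w (mem_filter.1 hw).1 g hg e
  · have h := mem_filter.1 ((mem_union.1 hw).resolve_left hw')
    exact ⟨h2 w h.1, h.2⟩
  · refine ha v (mem_union_right _ (mem_filter.2 ⟨hv, fun v' hv' g' hg' e' => ?_⟩)) g hg e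
    exact ha v' (mem_union_left _ hv') (g * g') (mul_mem hg hg') (by rw [mul_smul, e', e])


end Pool.Agent.Lib.MP_696deb_nt.B2
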