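import Pool.Agent.Lib.MP_696deb_nt.B2.CR0

/-! The norm to the rational numbers. -/

set_option autoImplicit false

open scoped NNReal Classical
open Filter Topology Finset

namespace Pool.Agent.Lib.MP_696deb_nt.B2

variable {H : Subgroup Gam} {x : Qbar}

/-- The cosets of an open subgroup form a finite type. -/
@[reducible] noncomputable def crcFin (hH : Op H) : Fintype (Gam ⧸ H) :=
  @Fintype.ofFinite _ (Nat.finite_of_card_ne_zero hH.index_ne_zero)

theorem crc_prod [Fintype (Gam ⧸ H)] (x : Qbar) : nq H x = ∏ y : Gam ⧸ H, y.out x :=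
  finprod_eq_prod_of_fintype _

theorem crc_out (hx : Fx H x) (g : Gam) : (g : Gam ⧸ H).out x = g x := by
  obtain ⟨h, e⟩ := QuotientGroup.mk_out_eq_mul H g
  rw [e, AlgEquiv.mul_apply, hx h h.2]

theorem crc_smul (hx : Fx H x) (g : Gam) (y : Gam ⧸ H) : (g • y).out x = g (y.out x) := by
  rw [← MulAction.Quotient.mk_smul_out, crc_out hx, smul_eq_mul, AlgEquiv.mul_apply]

theorem crc_V (w : Plc) (g : Gam) (z : Qbar) : (g⁻¹ • w).V z = w.V (g z) := by
  rw [smul_V, inv_inv]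

theorem nq_rat (hH : Op H) (hx : Fx H x) : ∃ r : ℚ, nq H x = r := by
  let _ := crcFin hH
  refine fx_top fun g _ => ?_
  rw [crc_prod, map_prod, ← Equiv.prod_comp (MulAction.toPerm g) fun y : Gam ⧸ H => y.out x]
  exact prod_congr rfl fun y _ => (crc_smul hx g y).symm

theorem nq_ne (hH : Op H) (hx : x ≠ 0) : nq H x ≠ 0 := by
  let _ := crcFin hH
  rw [crc_prod]
  exact prod_ne_zero_iff.2 fun y _ => (map_ne_zero _).2 hx

theorem nq_top (hx : Fx ⊤ x) : nq ⊤ x = x :=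
  (finprod_eq_single _ ((1 : Gam) : Gam ⧸ (⊤ : Subgroup Gam)) fun _ h =>
    (h (QuotientGroup.subsingleton_quotient_top.elim _ _)).elim).trans (hx _ trivial)

theorem nq_pos (hH : Op H) (hc : TC H) (hx : Fx H x) (h0 : x ≠ 0) {r : ℚ} (hr : nq H x = r) :
    0 < r := by
  let _ := crcFin hH
  have h1 : ∀ y : Gam ⧸ H, jC (y.out x) ≠ 0 := fun y =>
    (map_ne_zero _).2 ((map_ne_zero _).2 h0)
  have h2 : ∏ y : Gam ⧸ H, jC (y.out x) / (‖jC (y.out x)‖ : ℂ) = 1 := by
    refine prod_ninvolution (fun y => cc • y) (fun y => ?_) (fun y _ e => ?_)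
      (fun _ => mem_univ _) fun y => by rw [smul_smul, cc_mul_cc, one_smul]
    · have k : (‖jC (y.out x)‖ : ℂ) ≠ 0 := by simpa using h1 y
      rw [crc_smul hx, jC_cc, Complex.norm_conj, div_mul_div_comm, Complex.mul_conj', ← sq,
        div_self (pow_ne_zero 2 k)]
    · rw [← MulAction.Quotient.mk_smul_out, ← QuotientGroup.out_eq' y, QuotientGroup.out_eq',
        eq_comm, ← QuotientGroup.out_eq' y, QuotientGroup.eq, QuotientGroup.out_eq'] at e
      refine hc _ ⟨jC.comp y.out.toRingEquiv.toRingHom, fun z => ?_⟩ e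
      change jC (y.out (y.out.symm (cc (y.out z)))) = starRingEnd ℂ (jC (y.out z))
      rw [AlgEquiv.apply_symm_apply, jC_cc]
  have h3 : 0 < ∏ y : Gam ⧸ H, ‖jC (y.out x)‖ := prod_pos fun y _ => norm_pos_iff.2 (h1 y)
  rw [prod_div_distrib, ← map_prod, ← crc_prod, hr, map_ratCast, ← Complex.ofReal_prod,
    div_eq_one_iff_eq (Complex.ofReal_ne_zero.2 h3.ne'), ← Complex.ofReal_ratCast,
    Complex.ofReal_inj] at h2
  exact_mod_cast h2 ▸ h3

theorem nq_near (hH : Op H) (w : Plc) {ε : ℝ≥0} (hε : ε < 1)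
    (h : ∀ v : Plc, v.p = w.p → v.V (x - 1) ≤ ε) : w.V (nq H x - 1) ≤ ε := by
  let _ := crcFin hH
  rw [crc_prod]
  refine prod_induction _ (fun a => w.V (a - 1) ≤ ε) (fun a b ha hb => ?_) (by simp)
    fun y _ => ?_
  · have h1 : w.V a ≤ 1 := by
      rw [← sub_add_cancel a 1]
      exact w.V.map_add_le (ha.trans hε.le) w.V.map_one.le
    rw [show a * b - 1 = a * (b - 1) + (a - 1) by ring]
    refine w.V.map_add_le ?_ ha
    rw [map_mul]
    exact (mul_le_of_le_one_left' h1).trans hb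
  · have h1 := h (y.out⁻¹ • w) rfl
    rwa [crc_V, map_sub, map_one] at h1

theorem crc_card [Fintype (Gam ⧸ H)] {w v : Plc} (h : v.p = w.p) :
    (univ.filter fun y : Gam ⧸ H => ∃ g ∈ H, g • v = y.out⁻¹ • w).card =
      (H ⊓ Dec v).relIndex (Dec v) := by
  obtain ⟨k, rfl⟩ := plc_conj h
  have h1 : H.subgroupOf (Dec v) = MulAction.stabilizer (Dec v) ((1 : Gam) : Gam ⧸ H) := by
    ext g
    exact (SetLike.ext_iff.1 (MulAction.stabilizer_quotient H) (g : Gam)).symm
  rw [Subgroup.inf_relIndex_right, Subgroup.relIndex, h1, MulAction.index_stabilizer,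
    ← Set.ncard_image_of_injective _ (MulAction.injective k), ← Set.ncard_coe_finset]
  congr 1
  ext y
  simp only [coe_filter, mem_univ, true_and, Set.mem_ofPred_eq]
  constructor
  · rintro ⟨g, hg, e⟩
    refine ⟨_, ⟨⟨k⁻¹ * (y.out * g), ?_⟩, rfl⟩, ?_⟩
    · change (k⁻¹ * (y.out * g)) • v = v
      rw [mul_smul, mul_smul, e, smul_inv_smul, inv_smul_smul]
    · change (((k * (k⁻¹ * (y.out * g) * 1) : Gam)) : Gam ⧸ H) = y
      rw [mul_one, mul_inv_cancel_left, QuotientGroup.mk_mul_of_mem _ hg, QuotientGroup.out_eq']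
  · rintro ⟨_, ⟨d, rfl⟩, rfl⟩
    obtain ⟨g, e⟩ := QuotientGroup.mk_out_eq_mul H (k * (d * 1))
    refine ⟨g⁻¹, inv_mem g.2, ?_⟩
    change _ = (((k * (d * 1) : Gam)) : Gam ⧸ H).out⁻¹ • k • v
    rw [e, mul_one, mul_inv_rev, mul_inv_rev, mul_smul, mul_smul, inv_smul_smul,
      show (d : Gam)⁻¹ • v = v from inv_mem d.2]

theorem nq_val (hH : Op H) (hx : Fx H x) (w : Plc) (s : Finset Plc) (hs : Apart H s)
    (h1 : ∀ v ∈ s, v.p = w.p) (h2 : ∀ v : Plc, v.p = w.p → Away H s v → v.V x = 1) :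
    w.V (nq H x) = ∏ v ∈ s, v.V x ^ (H ⊓ Dec v).relIndex (Dec v) := by
  let _ := crcFin hH
  have h3 : ∀ u : Plc, u.p = w.p →
      u.V x = ∏ v ∈ s, if ∃ g ∈ H, g • v = u then v.V x else 1 := fun u hu => by
    by_cases ha : Away H s u
    · rw [h2 u hu ha, prod_eq_one fun v hv => if_neg fun ⟨g, hg, e⟩ => ha v hv g hg e]
    · simp only [Away, not_forall, not_not] at ha
      obtain ⟨v, hv, g, hg, rfl⟩ := ha
      rw [prod_eq_single_of_mem v hv fun v' hv' hne => if_neg fun ⟨g', hg', e⟩ => hne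
        (hs v' hv' v hv (g⁻¹ * g') (mul_mem (inv_mem hg) hg') (by rw [mul_smul, e, inv_smul_smul])),
        if_pos ⟨g, hg, rfl⟩, smul_V, hx _ (inv_mem hg)]
  rw [crc_prod, map_prod,
    prod_congr rfl fun y _ => (crc_V w y.out x).symm.trans (h3 (y.out⁻¹ • w) rfl),
    Finset.prod_comm]
  refine prod_congr rfl fun v hv => ?_
  rw [← prod_filter, prod_const, crc_card (h1 v hv)]


end Pool.Agent.Lib.MP_696deb_nt.B2
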