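import Pool.Agent.Lib.MP_696deb_nt.B2.Red0
import Pool.Agent.Lib.MP_696deb_nt.RankZero
import Pool.Agent.Lib.MP_696deb_nt.GDefs

/-! The Tate module, Selmer cocycles of quadratic twists, and systems of Heegner points. -/

set_option autoImplicit false

open scoped NNReal Classical
open Finset Matrix NumberTheorySymbols

namespace Pool.Agent.Lib.MP_696deb_nt.B2

/-- The action twisted by a quadratic character. -/
noncomputable def tw (d : ℤ) (g : Gam) (P : EE) : EE := (chi d g : ℤ) • g • P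

/-- Cocycles for the twisted action that are locally trivial at every place. -/
structure hSel (d : ℤ) (ξ : Gam → EE) : Prop where
  sm : Sm ⊤ ξ
  coc : ∀ g h, ξ (g * h) = ξ g + tw d g (ξ h)
  loc : ∀ w : Plc, ∃ S, ∀ g ∈ Dec w, ξ g = tw d g S - S
  inf : ∃ S, ξ cc = tw d cc S - S

/-- The Selmer group of the twist has corank at most one. -/
def Cork (d : ℤ) : Prop := ∃ C : ℕ, ∀ (m : ℕ) (s : Finset (Gam → EE)),
  (∀ ξ ∈ s, hSel d ξ ∧ ∀ g, 2 ^ m • ξ g = 0) → s.card ≤ C * 8 ^ m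

/-- The twist has a rational point that is not divisible by two modulo torsion. -/
def Nz (d : ℤ) : Prop := ∃ P : EE, (∀ g, tw d g P = P) ∧
  ∀ Q : EE, (∀ g, tw d g Q = Q) → ¬ IsOfFinAddOrder (P - 2 • Q)

/-- The first coordinate of the descent map of the twist. -/
noncomputable def kA (d : ℤ) (P : EE) : Qbar :=
  if P = 0 ∨ P = T1 then 1 else d * (4 * xco P + 9)

/-- The second coordinate of the descent map of the twist. -/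
noncomputable def kB (d : ℤ) (P : EE) : Qbar :=
  if P = 0 then 1 else if P = T2 then -1 else d * xco P

/-- The formula of descent. -/
def DescStmt : Prop := ∀ (d : ℤ) (D : Subgroup Gam) (Q : EE), d ≠ 0 →
  (∀ g ∈ D, tw d g (2 • Q) = 2 • Q) → ∃ α β : Gam → ZMod (2 ^ 1), Kum 1 D (kA d (2 • Q)) α ∧
    Kum 1 D (kB d (2 • Q)) β ∧ ∀ g ∈ D, tw d g Q - Q = (α g).val • T2 + (β g).val • T1

/-- Reduction of a two-adic matrix. -/
noncomputable def mred (m : ℕ) (A : Matrix (Fin 2) (Fin 2) ℤ_[2]) :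
    Matrix (Fin 2) (Fin 2) (ZMod (2 ^ m)) := A.map (PadicInt.toZModPow m)

/-- The determinant of two vectors. -/
def det2 {R : Type*} [CommRing R] (x y : Fin 2 → R) : R := x 0 * y 1 - x 1 * y 0

/-- The group generated by the inertia groups above two, three and five. -/
noncomputable def I30 : Subgroup Gam := ⨆ w : {w : Plc // w.p ∣ 30}, Ine w.1

/-- The two-adic Tate module with a basis, and what is used of it. -/
structure Tate where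
  ρ : Gam →* Matrix (Fin 2) (Fin 2) ℤ_[2]
  emb : (m : ℕ) → (Fin 2 → ZMod (2 ^ m)) →+ EE
  inj : ∀ m, Function.Injective (emb m)
  surj : ∀ m P, 2 ^ m • P = 0 → ∃ x, emb m x = P
  two : ∀ m k x, 2 ^ k • emb (m + k) x =
    emb m fun i => ZMod.castHom (pow_dvd_pow 2 (Nat.le_add_right m k)) (ZMod (2 ^ m)) (x i)
  smul : ∀ m g x, g • emb m x = emb m (mred m (ρ g) *ᵥ x)
  sm : ∀ m, Sm ⊤ fun g => mred m (ρ g)
  det : ∀ g, (ρ g).det = cyc g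
  e0 : emb 1 ![1, 0] = T3
  e1 : emb 1 ![0, 1] = T1
  conj : ρ cc = !![1, 0; 0, -1]
  mod2 : ∀ g, mred 1 (ρ g) = 1
  mod4 : ∀ g, chi (-1) g = 1 → mred 2 (ρ g) = 1
  iso : ∀ (m : ℕ) (D : Subgroup Gam) (x y : Gam → Fin 2 → ZMod (2 ^ m)) (S S' : EE),
    IsClosed (D : Set Gam) → (∀ g ∈ D, emb m (x g) = g • S - S) →
    (∀ g ∈ D, emb m (y g) = g • S' - S') →
    Spl m D fun g h => det2 (x g) (mred m (ρ g) *ᵥ y h)
  kum2 : ∀ (n : ℕ) (w : Plc) (α β : Gam → ZMod (2 ^ 1)), n % 8 = 3 → w.p = 2 →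
    ((∃ S : EE, ∀ g ∈ GK n ⊓ Dec w, g • S - S = (α g).val • T2 + (β g).val • T1) ↔
      (Sm (GK n ⊓ Dec w) α ∧ IsHom (GK n ⊓ Dec w) α ∧ ∀ σ ∈ Ine w, α σ = 0) ∧
        ∃ u, w.V u = 1 ∧ Kum 1 (GK n ⊓ Dec w) u β)
  kumc : ∀ (n m : ℕ) (w : Plc), n % 8 = 3 → w.p = 2 → (16 ^ m : ℕ∞) ≤
    Set.encard {c : Gam → Fin 2 → ZMod (2 ^ m) | (∀ g ∉ GK n ⊓ Dec w, c g = 0) ∧
      ∃ S : EE, ∀ g ∈ GK n ⊓ Dec w, emb m (c g) = g • S - S}
  unr : ∀ w : Plc, ¬ w.p ∣ 30 → ∀ σ ∈ Ine w, ρ σ = 1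
  es : ∀ (w : Plc) (φ : Gam) (P : EE), ¬ w.p ∣ 30 → IsFrob w w.p φ →
    φ • φ • P - a15 w.p • φ • P + w.p • P ∈ K1 w
  tr : ∀ (w : Plc) (φ : Gam), ¬ w.p ∣ 30 → IsFrob w w.p φ → (ρ φ).trace = a15 w.p
  hasse : ∀ p : ℕ, p.Prime → ¬ p ∣ 30 → |a15 p| ≤ p
  eight : ∀ p : ℕ, p.Prime → ¬ p ∣ 30 → 8 ∣ p + 1 - a15 p
  sixteen : ∀ p : ℕ, p.Prime → ¬ p ∣ 30 → p % 4 = 3 → J(5 | p) = -1 → ¬ 16 ∣ p + 1 - a15 p
  mult : ∀ w : Plc, w.p = 3 ∨ w.p = 5 → ∃ B : Matrix (Fin 2) (Fin 2) ℤ_[2], B.det = 1 ∧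
    mred 1 B *ᵥ ![1, 0] = (if w.p = 3 then ![1, 0] else ![1, 1]) ∧
    (∀ σ ∈ Ine w, ∃ c, ρ σ * B = B * !![1, 4 * c; 0, 1] ∧ (Gen w σ → IsUnit c)) ∧
    ∀ φ, IsFrob w w.p φ → ∃ b, ρ φ * B =
      B * if w.p = 3 then !![-3, b; 0, -1] else !![5, b; 0, 1]
  big : ∀ A, mred 5 A = 1 → ∀ k, ∃ g ∈ I30, mred k (ρ g) = mred k A

/-- Admissible conductors: products of distinct inert primes. -/
def Adm (n c : ℕ) : Prop := Squarefree c ∧ ∀ l : ℕ, l.Prime → l ∣ c → ¬ l ∣ 30 ∧ J(-n | l) = -1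

/-- The traces of Heegner points to the two-primary ring class fields of the imaginary quadratic
field of discriminant `-n`. -/
structure HS (n : ℕ) where
  C : ℕ → Type
  [grp : ∀ c, CommGroup (C c)]
  [fin : ∀ c, Fintype (C c)]
  pr : ∀ c c', C c' →* C c
  ψ : ∀ c, Gam → C c
  y : ∀ c, C c → EE
  ν : ∀ l s : ℕ, C l →* Multiplicative (ZMod (2 ^ s))
  gen : ℤ → C 1 →* ℤˣ
  two : ∀ c (a : C c), ∃ k : ℕ, a ^ 2 ^ k = 1
  sm : ∀ c, Adm n c → Sm (GK n) (ψ c)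
  mul : ∀ c, Adm n c → ∀ g ∈ GK n, ∀ h ∈ GK n, ψ c (g * h) = ψ c g * ψ c h
  surj : ∀ c, Adm n c → ∀ a, ∃ g ∈ GK n, ψ c g = a
  pr_ψ : ∀ c c', Adm n c' → c ∣ c' → ∀ g ∈ GK n, pr c c' (ψ c' g) = ψ c g
  dih : ∀ c, Adm n c → ∀ g ∉ GK n, ψ c (g * g) = 1
  unr : ∀ c (w : Plc), Adm n c → ¬ w.p ∣ c → ∀ σ ∈ GK n ⊓ Ine w, ψ c σ = 1
  gal : ∀ c, Adm n c → ∀ g ∈ GK n, ∀ a, g • y c a = y c (ψ c g * a)
  conj : ∀ c, Adm n c → ∃ (b : C c) (t : EE), 4 • t = 0 ∧ ∀ a, cc • y c a = t - y c (b * a⁻¹)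
  trace : ∀ c l, l.Prime → Adm n (c * l) → ∀ a,
    ∑ a' with pr c (c * l) a' = a, y (c * l) a' = a15 l • y c a
  kron : ∀ c (w : Plc) (φ : Gam), Adm n (c * w.p) → IsFrob w w.p φ → ∀ a',
    y (c * w.p) a' - ordCompl[2] (w.p + 1) • φ • y c (pr c (c * w.p) a') ∈ K1 w
  ν_gen : ∀ (w : Plc) (s : ℕ) (τ : Gam), Adm n w.p → 2 ^ (s + 1) ∣ w.p + 1 → Gen w τ →
    IsUnit (ν w.p s (ψ w.p τ)).toAdd
  ν_ram : ∀ (l s : ℕ) (w : Plc), l.Prime → Adm n l → 2 ^ (s + 1) ∣ l + 1 → w.p ∣ n →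
    ∀ g ∈ GK n ⊓ Dec w, ν l s (ψ l g) = 1
  ν_fib : ∀ (c l s : ℕ), l.Prime → Adm n (c * l) → 2 ^ (s + 1) ∣ l + 1 → ∀ a x,
    (univ.filter fun a' => pr c (c * l) a' = a ∧ ν l s (pr l (c * l) a') = x).card * 2 ^ s =
      ordProj[2] (l + 1)
  gen_ψ : ∀ e : ℤ, e ∣ n → e % 4 = 1 → ∀ g ∈ GK n, gen e (ψ 1 g) = chi e g

attribute [instance] HS.grp HS.fin

/-- The Heegner point of a genus character. -/
noncomputable def HS.ychi {n : ℕ} (S : HS n) (e : ℤ) : EE := ∑ a, (S.gen e a : ℤ) • S.y 1 a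

/-- The bound for the divisibility by two of the Heegner point. -/
def HS.RefDiv {n : ℕ} (S : HS n) : Prop := ∀ P : EE, (∀ g ∈ GK n, g • P = P) →
  ¬ IsOfFinAddOrder (S.ychi 1 - 2 ^ (n.primeFactors.card - 1) • P)

/-- The discriminants that are used. -/
structure Nok (n : ℕ) : Prop where
  good : Good n
  m8 : n % 8 = 3
  root : ∃ r : ℤ, 60 ∣ r ^ 2 + n
  condB : CondB n

/-- Quadratic characters of ring class fields are genus characters. -/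
def QuadStmt : Prop := ∀ (n c : ℕ) (χ : Gam → ZMod 2), Good n → c ≠ 0 → Odd c → Sm (GK n) χ →
  IsHom (GK n) χ → (∀ g ∉ GK n, χ (g * g) = 0) →
  (∀ w : Plc, ¬ w.p ∣ c → ∀ σ ∈ GK n ⊓ Ine w, χ σ = 0) →
  ∃ e : ℤ, Squarefree e ∧ e ∣ n * c ∧ e % 4 = 1 ∧ ∀ g ∈ GK n, χ g = xi e g

end Pool.Agent.Lib.MP_696deb_nt.B2
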