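import Pool.Agent.Lib.MP_696deb_nt.B2.CM0
import Pool.Agent.Lib.MP_696deb_nt.B2.D1
import Pool.Agent.Lib.MP_696deb_nt.Heeg
import Pool.Agent.Lib.MP_696deb_nt.Ordinary

/-! The action of the Galois group on ring class groups, and Heegner points: definitions. -/

set_option autoImplicit false

open scoped Classical

namespace Pool.Agent.Lib.MP_696deb_nt.B2.CM

/-- Conjugate lattices. -/
def CjS (σ : ℂ ≃+* ℂ) (I I' : Lt) : Prop :=
  ∃ L L' : PeriodPair, L.lattice = I ∧ L'.lattice = I' ∧ Gal.Cj σ L L'

/-- The invariant of a period pair. -/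
noncomputable def jPer (L : PeriodPair) : ℂ := 1728 * L.g₂ ^ 3 / (L.g₂ ^ 3 - 27 * L.g₃ ^ 2)

/-- The invariant of a lattice. -/
noncomputable def jL (I : Lt) : ℂ := if h : IsLat I then jPer h.choose else 0

/-- The invariant of a class. -/
noncomputable def jP (n c : ℕ) (x : Pc n c) : ℂ := jL (cl_surj x).choose

/-- The algebraic number with a given complex value. -/
noncomputable def pre (z : ℂ) : Qbar := Function.invFun jC z

/-- The invariant of a class, as an algebraic number. -/
noncomputable def jQ (n c : ℕ) (x : Pc n c) : Qbar := pre (jP n c x)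

/-- The class of the conjugate of the principal lattice. -/
noncomputable def rho (n c : ℕ) (g : Gam) : Pc n c := Function.invFun (jQ n c) (g (jQ n c 1))

/-- `σ` extends `g`. -/
def Ex (g : Gam) (σ : ℂ ≃+* ℂ) : Prop := ∀ x, σ (jC x) = jC (g x)

/-- The square root of `-n`, as an algebraic number. -/
noncomputable def dq (n : ℕ) : Qbar := pre (dl n)

/-- The numbers `(b + c √(-n)) / 2`, as algebraic numbers. -/
noncomputable def beQ (n c : ℕ) (b : ℤ) : Qbar := (b + c * dq n) / 2

/-- The integers of the quadratic field, as algebraic numbers. -/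
noncomputable def elQ (n : ℕ) (x y : ℤ) : Qbar := x + y * beQ n 1 1

/-- The Heegner form `Q` belongs to the lattice `I`. -/
def Hg (n c : ℕ) (r : ℤ) (I : Lt) (Q : Fm) : Prop :=
  IsHg (-(n * c ^ 2)) (r * c) Q ∧ ∃ a : ℂ, a ≠ 0 ∧ I = sc a (sp2 (15 * froot Q) 1)

/-- The Heegner point of a class. -/
noncomputable def yP (n c : ℕ) (r : ℤ) (x : Pc n c) : Pt W15 ℂ :=
  if h : ∃ Q, Hg n c r (cl_surj x).choose Q then pt (froot h.choose) else 0

/-- The Heegner point of a class, as an algebraic point. -/
noncomputable def yQ (n c : ℕ) (r : ℤ) (x : Pc n c) : EE :=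
  Function.invFun (pmap (W := W15) jC) (yP n c r x)

/-- The standing hypotheses for Heegner points. -/
structure OkR (n c : ℕ) (r : ℤ) : Prop extends Ok n c where
  root : 60 ∣ r ^ 2 + n
  cop : (n * c).Coprime 15

/-- The prime discriminant of an odd prime. -/
def pst (p : ℕ) : ℤ := if p % 4 = 1 then p else -p

/-- The valuation ring `A` of the complex numbers lies over the place `w`. -/
def Over (A : ValuationSubring ℂ) (w : Plc) : Prop :=
  ∀ x, (A.valuation (jC x) ≤ 1 ↔ w.V x ≤ 1) ∧ (A.valuation (jC x) < 1 ↔ w.V x < 1)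

/-- The neighbours of a point for the Hecke correspondence. -/
noncomputable def hk (l : ℕ) (τ : ℂ) : Option (Fin l) → ℂ
  | none => l * τ
  | some k => (τ + (k : ℕ)) / l

end Pool.Agent.Lib.MP_696deb_nt.B2.CM
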