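import Pool.Agent.Lib.MP_696deb_nt.B2.GWa

/-! The abstract counting argument of global duality. -/

set_option autoImplicit false

open scoped NNReal Classical
open Finset

namespace Pool.Agent.Lib.MP_696deb_nt.B2

theorem GWb_comap {V Z : Type} [AddCommGroup V] [AddCommGroup Z] (l : Z →+ V)
    {K U : AddSubgroup V} (h : K ≤ U) : Nat.card (U.comap l) * Nat.card K =
      Nat.card (K.comap l) * Nat.card ((l.range ⊔ K) ⊓ U : AddSubgroup V) := by
  have e : ∀ W : AddSubgroup V, Nat.card (W.comap l) =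
      Nat.card l.ker * Nat.card (l.range ⊓ W : AddSubgroup V) := fun W => by
    rw [card_map_inf l (W.comap l), AddSubgroup.map_comap_eq,
      inf_eq_right.2 (AddSubgroup.ker_le_comap l W)]
  have e2 := card_inf_sup (l.range ⊓ U) K
  rw [inf_assoc, inf_eq_right.2 h] at e2
  rw [e, e, mul_assoc, mul_assoc, ← e2, sup_comm l.range, sup_inf_assoc_of_le _ h, sup_comm]

theorem GWb_card_pi {ι : Type} [Fintype ι] {V : ι → Type} [∀ i, AddCommGroup (V i)]
    (U : ∀ i, AddSubgroup (V i)) :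
    Nat.card (AddSubgroup.pi Set.univ U) = ∏ i, Nat.card (U i) :=
  (Nat.card_congr (Equiv.Set.univPi fun i => (U i : Set (V i)))).trans Nat.card_pi

theorem GWb_card_comap {ι Z : Type} {V : ι → Type} [∀ i, AddCommGroup (V i)] [AddCommGroup Z]
    (l : ∀ i, Z →+ V i) (U : ∀ i, AddSubgroup (V i)) :
    Nat.card ((AddSubgroup.pi Set.univ U).comap (AddMonoidHom.pi l)) =
      Nat.card {z // ∀ i, l i z ∈ U i} :=
  Nat.card_congr (Equiv.subtypeEquivRight fun _ => ⟨fun h i => h i trivial, fun h i _ => h i⟩)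

variable {n : ℕ} [NeZero n]

/-- One space. -/
theorem pt_one {V V' Z Z' : Type} [AddCommGroup V] [AddCommGroup V'] [AddCommGroup Z]
    [AddCommGroup Z'] [Finite V] [Finite V'] [Finite Z] [Finite Z'] (P : V →+ V' →+ ZMod n)
    (l : Z →+ V) (l' : Z' →+ V') (h : ∀ z z', P (l z) (l' z') = 0)
    (hb : Nat.card (P.ker.comap l) * Nat.card (P.flip.ker.comap l') * Nat.card V' ≤
      Nat.card Z * Nat.card Z' * Nat.card P.flip.ker) :
    Nat.card (P.ker.comap l) * Nat.card (P.flip.ker.comap l') * Nat.card V' =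
      Nat.card Z * Nat.card Z' * Nat.card P.flip.ker ∧
    ∀ U : AddSubgroup V, P.ker ≤ U →
      Nat.card (U.comap l) * (Nat.card V' * Nat.card P.ker * Nat.card (P.flip.ker.comap l')) =
        Nat.card Z * Nat.card U * Nat.card ((ann P U).comap l') * Nat.card P.flip.ker := by
  have h1 := GWb_comap l (le_top (a := P.ker))
  have h2 := GWb_comap l' (le_top (a := P.flip.ker))
  rw [AddSubgroup.comap_top, AddSubgroup.card_top, inf_top_eq] at h1 h2
  have hK : ∀ U, P.flip.ker ≤ ann P U := fun U y hy x _ => DFunLike.congr_fun hy x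
  have hle : l'.range ⊔ P.flip.ker ≤ ann P (l.range ⊔ P.ker) := by
    rw [ann_sup]
    refine sup_le (le_inf ?_ fun y _ x hx => DFunLike.congr_fun hx y) (le_inf (hK _) (hK _))
    rintro _ ⟨z', rfl⟩ _ ⟨z, rfl⟩
    exact h z z'
  have h3 := card_ann P (l.range ⊔ P.ker)
  have hJ := eq_ann P hle (by
    rw [inf_eq_right.2 le_sup_right]
    refine Nat.le_of_mul_le_mul_left (c := Nat.card (P.ker.comap l) *
      Nat.card (P.flip.ker.comap l')) ?_ (mul_pos Nat.card_pos Nat.card_pos)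
    calc _ = Nat.card (P.ker.comap l) * Nat.card (P.flip.ker.comap l') * Nat.card V' *
          Nat.card P.ker := by ring
      _ ≤ _ := Nat.mul_le_mul_right _ hb
      _ = Nat.card Z * Nat.card P.ker * (Nat.card Z' * Nat.card P.flip.ker) := by ring
      _ = _ := by rw [h1, h2]; ring)
  rw [← hJ, inf_eq_right.2 le_sup_right] at h3
  have hp : 0 < Nat.card P.ker := Nat.card_pos
  refine ⟨Nat.eq_of_mul_eq_mul_right hp ?_, fun U hU => ?_⟩
  · zify at h1 h2 h3 ⊢
    linear_combination (-(Nat.card Z' * Nat.card P.flip.ker) : ℤ) * h1 -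
      (Nat.card (P.ker.comap l) * Nat.card (l.range ⊔ P.ker : AddSubgroup V) : ℤ) * h2 -
      (Nat.card (P.ker.comap l) * Nat.card (P.flip.ker.comap l') : ℤ) * h3
  have h4 := GWb_comap l hU
  have h5 := GWb_comap l' (hK U)
  have h6 := card_inf_sup (l.range ⊔ P.ker) U
  have h7 := card_ann P ((l.range ⊔ P.ker) ⊔ U)
  rw [ann_sup, ← hJ, inf_eq_right.2 (hU.trans le_sup_right)] at h7
  refine Nat.eq_of_mul_eq_mul_right (mul_pos hp (Nat.card_pos
    (α := ((l.range ⊔ P.ker) ⊔ U : AddSubgroup V)))) ?_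
  generalize Nat.card ((l.range ⊔ P.ker) ⊔ U : AddSubgroup V) = S at h6 h7 ⊢
  generalize Nat.card ((l.range ⊔ P.ker) ⊓ U : AddSubgroup V) = T at h4 h6
  generalize Nat.card ((l'.range ⊔ P.flip.ker) ⊓ ann P U : AddSubgroup V') = X at h5 h7
  calc _ = Nat.card (U.comap l) * Nat.card P.ker * S *
        (Nat.card V' * Nat.card (P.flip.ker.comap l') * Nat.card P.ker) := by ring
    _ = Nat.card (P.ker.comap l) * (T * S) *
        (Nat.card V' * Nat.card (P.flip.ker.comap l') * Nat.card P.ker) := by rw [h4]; ring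
    _ = Nat.card Z * Nat.card P.ker * Nat.card U * Nat.card (P.flip.ker.comap l') *
        (Nat.card V' * Nat.card P.ker) := by rw [h6, h1]; ring
    _ = Nat.card Z * Nat.card P.ker * Nat.card U * S * (Nat.card (P.flip.ker.comap l') * X) := by
      rw [← h7]; ring
    _ = _ := by rw [← h5]; ring

/-- A product of spaces. -/
theorem pt_pi {ι : Type} [Fintype ι] {V V' : ι → Type} [∀ i, AddCommGroup (V i)]
    [∀ i, AddCommGroup (V' i)] [∀ i, Finite (V i)] [∀ i, Finite (V' i)] {Z Z' : Type}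
    [AddCommGroup Z] [AddCommGroup Z'] [Finite Z] [Finite Z'] (p : ∀ i, V i →+ V' i →+ ZMod n)
    (l : ∀ i, Z →+ V i) (l' : ∀ i, Z' →+ V' i) (h : ∀ z z', ∑ i, p i (l i z) (l' i z') = 0)
    (hb : Nat.card {z // ∀ i, l i z ∈ (p i).ker} * Nat.card {z // ∀ i, l' i z ∈ (p i).flip.ker} *
      ∏ i, Nat.card (V' i) ≤ Nat.card Z * Nat.card Z' * ∏ i, Nat.card (p i).flip.ker) :
    Nat.card {z // ∀ i, l i z ∈ (p i).ker} * Nat.card {z // ∀ i, l' i z ∈ (p i).flip.ker} *
      ∏ i, Nat.card (V' i) = Nat.card Z * Nat.card Z' * ∏ i, Nat.card (p i).flip.ker ∧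
    ∀ U : ∀ i, AddSubgroup (V i), (∀ i, (p i).ker ≤ U i) →
      Nat.card {z // ∀ i, l i z ∈ U i} * ((∏ i, Nat.card (V' i)) * (∏ i, Nat.card (p i).ker) *
        Nat.card {z // ∀ i, l' i z ∈ (p i).flip.ker}) =
      Nat.card Z * (∏ i, Nat.card (U i)) * Nat.card {z // ∀ i, l' i z ∈ ann (p i) (U i)} *
        ∏ i, Nat.card (p i).flip.ker := by
  obtain ⟨P, hP⟩ : ∃ P : (∀ i, V i) →+ (∀ i, V' i) →+ ZMod n, ∀ x y, P x y = ∑ i, p i (x i) (y i) :=
    ⟨∑ i, ((p i).comp (Pi.evalAddMonoidHom V i)).compl₂ (Pi.evalAddMonoidHom V' i), fun x y => by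
      simp [AddMonoidHom.finsetSum_apply]⟩
  have e1 : ∀ i x y, P (Pi.single i x) y = p i x (y i) := fun i x y => by
    rw [hP, Finset.sum_eq_single i (fun j _ hj => by simp [Pi.single_eq_of_ne hj]) (by simp),
      Pi.single_eq_same]
  have e2 : ∀ i x y, P x (Pi.single i y) = p i (x i) y := fun i x y => by
    rw [hP, Finset.sum_eq_single i (fun j _ hj => by simp [Pi.single_eq_of_ne hj]) (by simp),
      Pi.single_eq_same]
  have k1 : P.ker = AddSubgroup.pi Set.univ fun i => (p i).ker := AddSubgroup.ext fun x =>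
    ⟨fun hx i _ => AddMonoidHom.ext fun y => (e2 i x y).symm.trans (DFunLike.congr_fun hx _),
      fun hx => AddMonoidHom.ext fun y => (hP x y).trans (Finset.sum_eq_zero fun i _ =>
        DFunLike.congr_fun (hx i trivial) _)⟩
  have k2 : P.flip.ker = AddSubgroup.pi Set.univ fun i => (p i).flip.ker := AddSubgroup.ext fun y =>
    ⟨fun hy i _ => AddMonoidHom.ext fun x => (e1 i x y).symm.trans (DFunLike.congr_fun hy _),
      fun hy => AddMonoidHom.ext fun x => (hP x y).trans (Finset.sum_eq_zero fun i _ =>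
        DFunLike.congr_fun (hy i trivial) _)⟩
  have k3 : ∀ U : ∀ i, AddSubgroup (V i), ann P (AddSubgroup.pi Set.univ U) =
      AddSubgroup.pi Set.univ fun i => ann (p i) (U i) := fun U => AddSubgroup.ext fun y =>
    ⟨fun hy i _ x hx => (e1 i x y).symm.trans
      (hy _ ((AddSubgroup.single_mem_pi i x).2 fun _ => hx)),
      fun hy x hx => (hP x y).trans (Finset.sum_eq_zero fun i _ => hy i trivial _ (hx i trivial))⟩
  have key := pt_one P (AddMonoidHom.pi l) (AddMonoidHom.pi l') (fun z z' => (hP _ _).trans (h z z'))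
  rw [k1, k2] at key
  simp only [GWb_card_comap, GWb_card_pi, Nat.card_pi] at key
  refine ⟨(key hb).1, fun U hU => ?_⟩
  have := (key hb).2 (AddSubgroup.pi Set.univ U) fun x hx i hi => hU i (hx i hi)
  rwa [k3, GWb_card_comap, GWb_card_comap, GWb_card_pi] at this

end Pool.Agent.Lib.MP_696deb_nt.B2
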