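import Pool.Agent.Lib.MP_696deb_nt.B2.GWg

/-! Counting places and rigidifications. -/

set_option autoImplicit false

open scoped NNReal Classical
open Finset

namespace Pool.Agent.Lib.MP_696deb_nt.B2

variable {M M' : Type} [AddCommGroup M] [AddCommGroup M'] {m : ℕ} {H D : Subgroup Gam} {w : Plc}
  {a : Gam → M →+ M} {a' : Gam → M' →+ M'} {b : M →+ M' →+ ZMod (2 ^ m)} {c c₁ : Gam → M}
  {c' c₁' : Gam → M'}

theorem even_index (hH : Op H) (hT : TC H) : Even H.index := by
  have : Finite (Gam ⧸ H) := Nat.finite_of_card_ne_zero hH.index_ne_zero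
  let _ := Fintype.ofFinite (Gam ⧸ H)
  have h : ∑ _y : Gam ⧸ H, (1 : ZMod 2) = 0 := by
    refine sum_ninvolution (fun y => cc • y) (fun _ => by decide) (fun y _ e => ?_)
      (fun _ => mem_univ _) fun y => by rw [smul_smul, cc_mul_cc, one_smul]
    rw [← MulAction.Quotient.mk_smul_out, ← QuotientGroup.out_eq' y, QuotientGroup.out_eq',
      eq_comm, ← QuotientGroup.out_eq' y, QuotientGroup.eq, QuotientGroup.out_eq'] at e
    refine hT _ ⟨jC.comp y.out.toRingEquiv.toRingHom, fun z => ?_⟩ e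
    change jC (y.out (y.out.symm (cc (y.out z)))) = starRingEnd ℂ (jC (y.out z))
    rw [AlgEquiv.apply_symm_apply, jC_cc]
  rw [sum_const, card_univ, nsmul_one, ZMod.natCast_eq_zero_iff_even] at h
  rwa [Subgroup.index_eq_card, Nat.card_eq_fintype_card]

theorem sum_ldeg_le (hH : Op H) {s : Finset Plc} (hs : Apart H s) :
    ∑ w ∈ s, ldeg H w ≤ H.index := by
  have : Finite (Gam ⧸ H) := Nat.finite_of_card_ne_zero hH.index_ne_zero
  obtain ⟨u, hu⟩ := exists_plc Nat.prime_two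
  choose! g hg using fun (v : Plc) (hv : v.p = 2) => plc_conj (hu.trans hv.symm)
  let f : (Σ v : s.filter fun v => v.p = 2,
      Dec v.1 ⧸ (H ⊓ Dec v.1).subgroupOf (Dec v.1)) → Gam ⧸ H :=
    fun z => (((g z.1)⁻¹ * z.2.out : Gam) : Gam ⧸ H)
  have hf : Function.Injective f := by
    rintro ⟨⟨v, hv⟩, d⟩ ⟨⟨v', hv'⟩, d'⟩ e
    have k := QuotientGroup.eq.1 e
    obtain ⟨h1, h2⟩ := mem_filter.1 hv
    obtain ⟨h1', h2'⟩ := mem_filter.1 hv'
    obtain rfl : v' = v := hs _ h1' _ h1 _ k (by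
      rw [mul_smul, mul_smul, show (d'.out : Gam) • v' = v' from d'.out.2,
        inv_smul_eq_iff.2 (hg v' h2').symm, inv_smul_eq_iff, mul_smul,
        show (d.out : Gam) • v = v from d.out.2, eq_inv_smul_iff, hg v h2])
    rw [mul_inv_rev, inv_inv, mul_assoc, mul_inv_cancel_left] at k
    refine congrArg (Sigma.mk _) ?_
    rw [← d.out_eq', ← d'.out_eq']
    exact QuotientGroup.eq.2 ⟨k, (d.out⁻¹ * d'.out).2⟩
  have fin := Finite.of_injective f hf
  have := fun v : s.filter fun v => v.p = 2 =>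
    Finite.of_injective _ (sigma_mk_injective (i := v)
      (β := fun v : s.filter fun v => v.p = 2 => Dec v.1 ⧸ (H ⊓ Dec v.1).subgroupOf (Dec v.1)))
  have h := Nat.card_le_card_of_injective f hf
  rw [Nat.card_sigma] at h
  refine le_of_eq_of_le ?_ h
  exact (sum_filter _ _).symm.trans
    (sum_coe_sort _ fun v => (H ⊓ Dec v).relIndex (Dec v)).symm

/-- Forgetting the rigidifications. -/
theorem card_Sel (H : Subgroup Gam) (a : Gam → M →+ M) {s R T : Finset Plc} (hR : R ⊆ s)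
    (hT : T ⊆ s) (hd : Disjoint R T) (L : Plc → AddSubgroup (Gam → M)) :
    Nat.card (Sel H a s R T L) = Nat.card (Zc H a s fun w =>
      if w ∈ R then B1 (H ⊓ Dec w) a else if w ∈ T then L w else ⊤) *
      ∏ w ∈ R, Nat.card (H0 (H ⊓ Dec w) a) := by
  rw [card_map_inf (AddMonoidHom.fst _ _) (Sel H a s R T L), mul_comm]
  congr 1
  · refine congrArg (fun S : AddSubgroup (Gam → M) => Nat.card S) (AddSubgroup.ext fun c => ?_)
    rw [mem_Zc]
    constructor
    · rintro ⟨z, hz, rfl⟩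
      refine ⟨⟨hz.1, hz.2.1⟩, fun w _ => ?_⟩
      split_ifs with h1 h2
      exacts [rs_mem_B1.2 ⟨z.2 w, hz.2.2.1 w h1⟩, hz.2.2.2.2 w h2, trivial]
    · rintro ⟨h1, h2⟩
      choose x hx using fun w (hw : w ∈ R) =>
        rs_mem_B1.1 (by simpa only [if_pos hw] using h2 w (hR hw))
      refine ⟨(c, fun w => if k : w ∈ R then x w k else 0), ⟨h1.1, h1.2, fun w hw g hg => ?_,
        fun w hw => dif_neg hw, fun w hw => ?_⟩, rfl⟩
      · simpa only [dif_pos hw] using hx w hw g hg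
      · simpa only [if_neg (disjoint_right.1 hd hw), if_pos hw] using h2 w (hT hw)
  · rw [← prod_coe_sort R fun w => Nat.card (H0 (H ⊓ Dec w) a), ← Nat.card_pi]
    refine Nat.card_congr (Equiv.ofBijective (fun z w => ⟨z.1.2 w, fun g hg => ?_⟩)
      ⟨fun z z' e => Subtype.ext (Prod.ext (z.2.2.trans z'.2.2.symm) (funext fun w => ?_)),
        fun x => ⟨⟨(0, fun w => if k : w ∈ R then (x ⟨w, k⟩ : M) else 0), ⟨zero_mem _,
          fun _ _ _ _ => rfl, fun w hw g hg => ?_, fun w hw => dif_neg hw,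
          fun w _ => by rw [map_zero]; exact zero_mem _⟩, rfl⟩, funext fun w =>
          Subtype.ext (dif_pos w.2)⟩⟩)
    · exact sub_eq_zero.1 ((z.2.1.2.2.1 w w.2 g hg).symm.trans (congrFun z.2.2 g))
    · by_cases k : w ∈ R
      · exact congrArg Subtype.val (congrFun e ⟨w, k⟩)
      · exact (z.2.1.2.2.2.1 w k).trans (z'.2.1.2.2.2.1 w k).symm
    · simp only [dif_pos hw, cob, (x ⟨w, hw⟩).2 g hg, sub_self, Pi.zero_apply]

theorem card_Rs (H : Subgroup Gam) (a : Gam → M →+ M) (s : Finset Plc) :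
    Nat.card (Rs H a s) = Nat.card (Zc H a s fun w => B1 (H ⊓ Dec w) a) *
      ∏ w ∈ s, Nat.card (H0 (H ⊓ Dec w) a) := by
  rw [Rs, card_Sel H a Subset.rfl (empty_subset s) (disjoint_empty_right s)]
  congr 1
  refine congrArg (fun S : AddSubgroup (Gam → M) => Nat.card S) (AddSubgroup.ext fun c => ?_)
  rw [mem_Zc, mem_Zc]
  exact and_congr_right fun _ => forall₂_congr fun w hw => by rw [if_pos hw]

theorem Zc_congr {s : Finset Plc} {U U' : Plc → AddSubgroup (Gam → M)}
    (h : ∀ w ∈ s, U w ⊓ Z1 (H ⊓ Dec w) a = U' w ⊓ Z1 (H ⊓ Dec w) a) : Zc H a s U = Zc H a s U' := by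
  ext c
  rw [mem_Zc, mem_Zc]
  refine and_congr_right fun hc => forall₂_congr fun w hw => ?_
  have k := rs_mem_Z1 (hc.1.1.mono (inf_le_left : H ⊓ Dec w ≤ H))
  simpa only [AddSubgroup.mem_inf, k, and_true] using
    SetLike.ext_iff.1 (h w hw) (rs (H ⊓ Dec w) c)

/-- Additional tamely ramified places. -/
theorem card_Zu_le (hH : Op H) [Finite M] (hm : ∀ x : M, 2 ^ m • x = 0) (ha : Act H a)
    {s : Finset Plc} (E : Finset Plc) (hg : GoodA H a s) (hf : Finite (Zu H a s)) :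
    Finite (Zu H a (s ∪ E)) ∧
      Nat.card (Zu H a (s ∪ E)) ≤ Nat.card (Zu H a s) * Nat.card M ^ E.card := by
  choose! τ hτ using fun w (hw : Away H s w) => exists_TG hH (hg w hw).1
  let f : (Gam → M) →+ (E → M) := AddMonoidHom.mk' (fun c w => c (τ w)) fun _ _ => rfl
  have le : Zu H a (s ∪ E) ⊓ f.ker ≤ Zu H a s := fun c hc => ⟨hc.1.1, fun v hv => by
    by_cases k : Away H (s ∪ E) v
    · exact hc.1.2 v k
    simp only [Away, not_forall, not_not] at k
    obtain ⟨w, hw, g, h1, rfl⟩ := k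
    have h2 : Away H s w := fun u hu k hk e => hv u hu _ (mul_mem h1 hk) (by rw [mul_smul, e])
    exact hc.1.1.1.unr_smul ha (hg w h2).2 ((hτ w h2).unr (hc.1.1.1.mono inf_le_left) hm
      (hg w h2).2 (congrFun hc.2 ⟨w, (mem_union.1 hw).resolve_left fun q => hv w q g h1 rfl⟩)) h1⟩
  refine ⟨finite_of_map f _ (Finite.of_injective _ (AddSubgroup.inclusion_injective le))
    inferInstance, ?_⟩
  rw [card_map_inf f]
  refine Nat.mul_le_mul (AddSubgroup.card_le_of_le le)
    ((AddSubgroup.card_le_card_addGroup _).trans_eq ?_)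
  rw [Nat.card_fun, Nat.card_eq_fintype_card (α := E), Fintype.card_coe]

end Pool.Agent.Lib.MP_696deb_nt.B2
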