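import Pool.Agent.Lib.MP_696deb_nt.B2.CMb

/-! The fibres of the projection between ring class groups. -/

set_option autoImplicit false

open scoped Classical NumberTheorySymbols

namespace Pool.Agent.Lib.MP_696deb_nt.B2.CM

variable {n c l : ℕ} {s : ℤ} {τ a u v : ℂ} {I J : Lt}

theorem cmd_cop {x : ℤ} (hl : l.Prime) (hx : ¬ (l : ℤ) ∣ x) : ∃ p q : ℤ, p * l + q * x = 1 :=
  (Nat.prime_iff_prime_int.1 hl).irreducible.coprime_iff_not_dvd.2 hx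

theorem cmd_one (hl : l.Prime) : ¬ (l : ℤ) ∣ 1 := (Nat.prime_iff_prime_int.1 hl).not_dvd_one

theorem cmd_bez {x : ℤ} {z : ℂ} (hl : l.Prime) (hx : ¬ (l : ℤ) ∣ x) (h1 : l * z ∈ I)
    (h2 : x * z ∈ I) : z ∈ I := by
  obtain ⟨p, q, e⟩ := cmd_cop hl hx
  have e' : (p : ℂ) * l + q * x = 1 := by exact_mod_cast e
  have := I.add_mem (int_mul_mem h1 p) (int_mul_mem h2 q)
  rwa [show (p : ℂ) * (l * z) + q * (x * z) = z by linear_combination z * e'] at this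

theorem cmd_ext (hτ : τ.im ≠ 0) {x y x' y' : ℤ} (e : (x : ℂ) * τ + y = x' * τ + y') :
    x = x' ∧ y = y' := by
  have := tau_indep hτ (x := x - x') (y := y - y') (by push_cast; linear_combination e)
  omega

theorem cmd_mem_sc (hτ : τ.im ≠ 0) {x y : ℤ} :
    (x : ℂ) * τ + y ∈ sc l (sp2 τ 1) ↔ (l : ℤ) ∣ x ∧ (l : ℤ) ∣ y := by
  rw [sc_sp2, mem_sp2]
  refine ⟨fun ⟨p, q, e⟩ => ?_, fun ⟨⟨p, hp⟩, q, hq⟩ => ⟨p, q, by rw [hp, hq]; push_cast; ring⟩⟩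
  have := cmd_ext hτ (x' := l * p) (y' := l * q) (e.trans (by push_cast; ring))
  exact ⟨⟨p, this.1⟩, q, this.2⟩

theorem cmd_mem_none (hτ : τ.im ≠ 0) {x y : ℤ} :
    (x : ℂ) * τ + y ∈ nb l s τ none ↔ (l : ℤ) ∣ x := by
  rw [nb, mem_sp2]
  refine ⟨fun ⟨p, q, e⟩ => ?_, fun ⟨p, hp⟩ => ⟨p, y, by rw [hp]; push_cast; ring⟩⟩
  exact ⟨p, (cmd_ext hτ (x' := l * p) (y' := q) (e.trans (by push_cast; ring))).1⟩

theorem cmd_mem_some (hτ : τ.im ≠ 0) {k : Fin l} {x y : ℤ} :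
    (x : ℂ) * τ + y ∈ nb l s τ (some k) ↔ (l : ℤ) ∣ y - x * (s * (k : ℕ)) := by
  rw [nb, mem_sp2]
  refine ⟨fun ⟨p, q, e⟩ => ?_, fun ⟨p, hp⟩ =>
    ⟨x, p, by rw [eq_add_of_sub_eq hp]; push_cast; ring⟩⟩
  have := cmd_ext hτ (x' := p) (y' := p * (s * (k : ℕ)) + l * q) (e.trans (by push_cast; ring))
  exact ⟨q, by rw [this.1, this.2]; ring⟩

theorem cmd_mem {z : ℂ} (h : z ∈ sp2 τ 1) : ∃ x y : ℤ, z = x * τ + y := by
  simpa only [mul_one] using mem_sp2.1 h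

theorem cmd_nb_le (τ : ℂ) (i : Option (Fin l)) : nb l s τ i ≤ sp2 τ 1 := by
  cases i with
  | none => exact sp2_le.2 ⟨mem_sp2.2 ⟨l, 0, by push_cast; ring⟩, right_mem_sp2 _ _⟩
  | some k =>
    exact sp2_le.2 ⟨mem_sp2.2 ⟨1, s * (k : ℕ), by push_cast; ring⟩,
      mem_sp2.2 ⟨0, l, by push_cast; ring⟩⟩

/-- The subgroups between a lattice and its multiple by a prime. -/
theorem eq_nb (hl : l.Prime) (hs : ¬ (l : ℤ) ∣ s) (hτ : τ.im ≠ 0) (h1 : sc l (sp2 τ 1) ≤ I)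
    (h2 : I ≤ sp2 τ 1) : I = sc l (sp2 τ 1) ∨ I = sp2 τ 1 ∨ ∃ i, I = nb l s τ i := by
  have t1 : l * τ ∈ I := h1 (mem_sc.2 ⟨_, left_mem_sp2 _ _, rfl⟩)
  have t2 : (l : ℂ) * 1 ∈ I := h1 (mem_sc.2 ⟨_, right_mem_sp2 _ _, rfl⟩)
  have t3 : ∀ y : ℤ, (l : ℤ) ∣ y → ∀ z : ℂ, l * z ∈ I → y * z ∈ I := by
    rintro _ ⟨q, rfl⟩ z hz
    have := int_mul_mem hz q
    rwa [show (q : ℂ) * (l * z) = ((l * q : ℤ) : ℂ) * z by push_cast; ring] at this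
  by_cases ha : I ≤ sc l (sp2 τ 1)
  · exact .inl (le_antisymm ha h1)
  obtain ⟨z, hz, hz'⟩ := SetLike.not_le_iff_exists.1 ha
  obtain ⟨x, y, rfl⟩ := cmd_mem (h2 hz)
  rw [cmd_mem_sc hτ] at hz'
  have key : ∃ i, nb l s τ i ≤ I := by
    by_cases hx : (l : ℤ) ∣ x
    · refine ⟨none, sp2_le.2 ⟨t1, cmd_bez hl (fun hy => hz' ⟨hx, hy⟩) t2 ?_⟩⟩
      simpa using I.sub_mem hz (t3 x hx τ t1)
    · obtain ⟨p, q, e⟩ := cmd_cop hl
        (fun h => ((Nat.prime_iff_prime_int.1 hl).dvd_or_dvd h).elim hx hs : ¬ (l : ℤ) ∣ x * s)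
      have hl0 : (0 : ℤ) < l := by exact_mod_cast hl.pos
      have h0 := Int.emod_nonneg (q * y) hl0.ne'
      have hk := Int.emod_lt_of_pos (q * y) hl0
      obtain ⟨k, hk'⟩ := Int.eq_ofNat_of_zero_le h0
      have hd : (l : ℤ) ∣ x * s * k - y := ⟨-(p * y) - x * s * (q * y / l), by
        rw [← hk', Int.emod_def]
        linear_combination y * e⟩
      refine ⟨some ⟨k, by omega⟩, sp2_le.2 ⟨cmd_bez hl hx ?_ ?_, by simpa using t2⟩⟩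
      · have := I.add_mem t1 (int_mul_mem t2 (s * k))
        rwa [show (l : ℂ) * τ + ((s * k : ℤ) : ℂ) * (l * 1) = l * (τ + s * k) by
          push_cast; ring] at this
      · have := I.add_mem hz (t3 _ hd 1 t2)
        rwa [show (x : ℂ) * τ + y + ((x * s * k - y : ℤ) : ℂ) * 1 = x * (τ + s * k) by
          push_cast; ring] at this
  obtain ⟨i, hi⟩ := key
  by_cases hb : I ≤ nb l s τ i
  · exact .inr (.inr ⟨i, le_antisymm hb hi⟩)
  refine .inr (.inl (le_antisymm h2 ?_))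
  obtain ⟨w, hw, hw'⟩ := SetLike.not_le_iff_exists.1 hb
  obtain ⟨x', y', rfl⟩ := cmd_mem (h2 hw)
  cases i with
  | none =>
    have o : (1 : ℂ) ∈ I := (sp2_le.1 hi).2
    rw [cmd_mem_none hτ] at hw'
    refine sp2_le.2 ⟨cmd_bez hl hw' t1 ?_, o⟩
    simpa using I.sub_mem hw (int_mul_mem o y')
  | some k =>
    have o : τ + s * (k : ℕ) ∈ I := (sp2_le.1 hi).1
    rw [cmd_mem_some hτ] at hw'
    have o1 : (1 : ℂ) ∈ I := by
      refine cmd_bez hl hw' t2 ?_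
      have := I.sub_mem hw (int_mul_mem o x')
      rwa [show (x' : ℂ) * τ + y' - x' * (τ + s * (k : ℕ)) =
        ((y' - x' * (s * (k : ℕ)) : ℤ) : ℂ) * 1 by push_cast; ring] at this
    refine sp2_le.2 ⟨?_, o1⟩
    simpa using I.sub_mem o (int_mul_mem o1 (s * (k : ℕ)))

theorem cmd_nb_eq (hl : l.Prime) (hs : ¬ (l : ℤ) ∣ s) (hτ : τ.im ≠ 0) {i j : Option (Fin l)}
    (h : nb l s τ i ≤ nb l s τ j) : i = j := by
  have h1 : (1 : ℂ) = ((0 : ℤ) : ℂ) * τ + (1 : ℤ) := by simp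
  have h2 : ∀ k : ℕ, τ + s * k = ((1 : ℤ) : ℂ) * τ + (s * k : ℤ) := fun k => by simp
  rcases i with _ | i <;> rcases j with _ | j
  · rfl
  · have := (sp2_le.1 h).2
    rw [h1, cmd_mem_some hτ] at this
    exact absurd (by simpa using this) (cmd_one hl)
  · have := (sp2_le.1 h).1
    rw [h2, cmd_mem_none hτ] at this
    exact absurd this (cmd_one hl)
  · have := (sp2_le.1 h).1
    rw [h2, cmd_mem_some hτ, one_mul, ← mul_sub] at this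
    have h3 := Int.eq_zero_of_abs_lt_dvd
      (((Nat.prime_iff_prime_int.1 hl).dvd_or_dvd this).resolve_left hs)
      (abs_lt.2 ⟨by omega, by omega⟩)
    exact congrArg some (Fin.ext (by omega))

theorem nb_inj (hl : l.Prime) (hs : ¬ (l : ℤ) ∣ s) (hτ : τ.im ≠ 0) :
    Function.Injective (nb l s τ) := by
  exact fun i j e => cmd_nb_eq hl hs hτ e.le

theorem nb_mid (hl : l.Prime) (hτ : τ.im ≠ 0) (i : Option (Fin l)) :
    sc l (sp2 τ 1) < nb l s τ i ∧ nb l s τ i < sp2 τ 1 := by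
  refine ⟨lt_of_le_not_ge ?_ fun h => cmd_one hl ?_,
    lt_of_le_not_ge (cmd_nb_le τ i) fun h => cmd_one hl ?_⟩
  · rw [sc_sp2]
    cases i with
    | none => exact sp2_le.2 ⟨left_mem_sp2 _ _, mem_sp2.2 ⟨0, l, by push_cast; ring⟩⟩
    | some k =>
      exact sp2_le.2 ⟨mem_sp2.2 ⟨l, -(s * (k : ℕ)), by push_cast; ring⟩,
        mem_sp2.2 ⟨0, 1, by push_cast; ring⟩⟩
  · cases i with
    | none => exact ((cmd_mem_sc hτ (x := 0) (y := 1)).1 (by simpa using (sp2_le.1 h).2)).2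
    | some k =>
      exact ((cmd_mem_sc hτ (x := 1) (y := s * (k : ℕ))).1 (by simpa using (sp2_le.1 h).1)).1
  · cases i with
    | none => exact (cmd_mem_none hτ (x := 1) (y := 0)).1 (by simpa using (sp2_le.1 h).1)
    | some k =>
      have := (cmd_mem_some hτ (x := 0) (y := 1)).1 (by simpa using (sp2_le.1 h).2)
      rwa [zero_mul, sub_zero] at this

theorem cmd_sc_le (ha : a ≠ 0) : sc a I ≤ sc a J ↔ I ≤ J :=
  ⟨fun h _ hz => (mul_mem_sc ha).1 (h ((mul_mem_sc ha).2 hz)), fun h => mul_le_mul_right h _⟩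

theorem cmd_sc_lt (ha : a ≠ 0) : sc a I < sc a J ↔ I < J :=
  lt_iff_lt_of_le_iff_le' (cmd_sc_le ha) (cmd_sc_le ha)

theorem cmd_sc_surj (ha : a ≠ 0) (I : Lt) : ∃ K, sc a K = I :=
  ⟨sc a⁻¹ I, by rw [sc_sc, mul_inv_cancel₀ ha, sc_one]⟩

theorem cmd_sc_comm (a b : ℂ) (I : Lt) : sc a (sc b I) = sc b (sc a I) := by
  rw [sc_sc, sc_sc, mul_comm]

theorem cmd_mid (hl : l.Prime) (hs : ¬ (l : ℤ) ∣ s) (hτ : τ.im ≠ 0) (h1 : sc l (sp2 τ 1) < I)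
    (h2 : I < sp2 τ 1) : ∃ i, I = nb l s τ i :=
  ((eq_nb hl hs hτ h1.le h2.le).resolve_left h1.ne').resolve_left h2.ne

theorem mid_eq {I' : Lt} (hl : l.Prime) (hJ : IsLat J) (h1 : sc l J < I) (h2 : I ≤ I')
    (h3 : I' < J) : I = I' := by
  obtain ⟨τ, a, hτ, ha, rfl⟩ := hJ.exists_tau
  obtain ⟨I, rfl⟩ := cmd_sc_surj ha I
  obtain ⟨I', rfl⟩ := cmd_sc_surj ha I'
  rw [cmd_sc_comm, cmd_sc_lt ha] at h1
  rw [cmd_sc_le ha] at h2
  rw [cmd_sc_lt ha] at h3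
  obtain ⟨i, rfl⟩ := cmd_mid hl (cmd_one hl) hτ.ne' h1 (h2.trans_lt h3)
  obtain ⟨j, rfl⟩ := cmd_mid hl (cmd_one hl) hτ.ne' (h1.trans_le h2) h3
  rw [cmd_nb_eq hl (cmd_one hl) hτ.ne' h2]

theorem cmd_span (hl : l.Prime) (hJ : IsLat J) (h1 : sc l J < I) (h3 : I < J) :
    ∃ u ∈ I, u ∉ sc l J ∧ I = Submodule.span ℤ {u} ⊔ sc l J := by
  obtain ⟨u, hu, hu'⟩ := SetLike.exists_of_lt h1
  refine ⟨u, hu, hu', (mid_eq hl hJ (lt_of_le_not_ge le_sup_right fun h => hu' (h ?_))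
    (sup_le ((Submodule.span_singleton_le_iff_mem _ _).2 hu) h1.le) h3).symm⟩
  exact Submodule.mem_sup_left (Submodule.mem_span_singleton_self u)

theorem cmd_mem_sup {z : ℂ} (h : z ∈ Submodule.span ℤ {u} ⊔ J) : ∃ t : ℤ, z - t * u ∈ J := by
  obtain ⟨x, hx, y, hy, rfl⟩ := Submodule.mem_sup.1 h
  obtain ⟨t, rfl⟩ := Submodule.mem_span_singleton.1 hx
  exact ⟨t, by simpa using hy⟩

theorem cmd_span_lt (hl : l.Prime) (hJ : IsLat J) (hu : u ∈ J) :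
    Submodule.span ℤ {u} ⊔ sc l J < J := by
  refine lt_of_le_not_ge (sup_le ((Submodule.span_singleton_le_iff_mem _ _).2 hu) fun z hz => ?_)
    fun h => cmd_one hl ?_
  · obtain ⟨y, hy, rfl⟩ := mem_sc.1 hz
    exact_mod_cast int_mul_mem hy l
  obtain ⟨τ, a, hτ, ha, rfl⟩ := hJ.exists_tau
  obtain ⟨_, hw, rfl⟩ := mem_sc.1 hu
  obtain ⟨x, y, rfl⟩ := cmd_mem hw
  obtain ⟨p, hp⟩ := cmd_mem_sup (h ((mul_mem_sc ha).2 (left_mem_sp2 _ _)))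
  obtain ⟨q, hq⟩ := cmd_mem_sup (h ((mul_mem_sc ha).2 (right_mem_sp2 _ _)))
  rw [cmd_sc_comm, show a * τ - p * (a * (x * τ + y)) = a * (((1 - p * x : ℤ) : ℂ) * τ +
    (-(p * y) : ℤ)) by push_cast; ring, mul_mem_sc ha, cmd_mem_sc hτ.ne'] at hp
  rw [cmd_sc_comm, show a * 1 - q * (a * (x * τ + y)) = a * (((-(q * x) : ℤ) : ℂ) * τ +
    (1 - q * y : ℤ)) by push_cast; ring, mul_mem_sc ha, cmd_mem_sc hτ.ne'] at hq
  have := (hp.1.add (hq.2.mul_left (p * x))).sub (hp.2.mul_left (q * x))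
  rwa [show 1 - p * x + p * x * (1 - q * y) - q * x * -(p * y) = 1 by ring] at this

theorem cmd_ot (hn : n % 4 = 3) (c : ℕ) : ot (Oc n c) = sp2 1 (be n c c) := ot_Oc hn (by simp)

theorem cmd_ot' (hn : n % 4 = 3) (c l : ℕ) : ot (Oc n (c * l)) = sp2 1 (l * be n c c) := by
  rw [← be_mul, ot_Oc hn (b := c * l) (by simp)]

theorem cmd_ok (h : Ok n c) (hl : l.Prime) : Ok n (c * l) :=
  ⟨h.m4, h.gt, mul_ne_zero h.ne hl.ne_zero⟩

theorem cmd_le_mul (I : Lt) (A : Subalgebra ℤ ℂ) : I ≤ I * ot A := fun z hz => by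
  simpa using Submodule.mul_mem_mul (N := ot A) hz A.one_mem

theorem cmd_not_mul (h : Ok n c) (hl : l.Prime) (hJ : J(-n | l) = -1) (hc : ¬ l ∣ c)
    (hI : IsIv (Oc n c) J) (h1 : sc l J < I) (h3 : I < J) : ¬ ∀ z ∈ I, be n c c * z ∈ I := by
  intro hw
  have hl0 : (l : ℂ) ≠ 0 := Nat.cast_ne_zero.2 hl.ne_zero
  obtain ⟨x, hx, hx', e⟩ := cmd_span hl (hI.isLat h) h1 h3
  obtain ⟨t, ht⟩ := cmd_mem_sup (e ▸ hw x hx)
  obtain ⟨k, hk⟩ : ∃ k : ℤ, (n : ℤ) + 1 = 4 * k := ⟨(n + 1) / 4, by have := h.m4; omega⟩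
  have hs := be_sq (n := n) (c := c) (b := c) (N := c ^ 2 * k) (by linear_combination c ^ 2 * hk)
  have hm : (c : ℂ) - be n c c - t ∈ Oc n c :=
    sub_mem (sub_mem (natCast_mem _ c) (be_mem h.m4 (by simp))) (intCast_mem _ t)
  have h4 := (hI.sc hl0).mul_mem hm ht
  rw [show ((c : ℂ) - be n c c - t) * (be n c c * x - t * x) =
    ((c ^ 2 * k - t * c + t ^ 2 : ℤ) : ℂ) * x by
      push_cast at hs ⊢; linear_combination -x * hs] at h4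
  have h5 : (l : ℤ) ∣ c ^ 2 * k - t * c + t ^ 2 := by
    by_contra hd
    exact hx' (cmd_bez hl hd ((mul_mem_sc hl0).2 (h3.le hx)) h4)
  have := Fact.mk hl
  have h6 := (ZMod.intCast_zmod_eq_zero_iff_dvd _ l).2 h5
  have h7 : ((n : ℤ) : ZMod l) + 1 = 4 * k := by exact_mod_cast congrArg (Int.cast (R := ZMod l)) hk
  have h8 : (c : ZMod l) ≠ 0 := fun e => hc ((ZMod.natCast_eq_zero_iff c l).1 e)
  refine ZMod.nonsquare_of_jacobiSym_eq_neg_one hJ ⟨(c - 2 * t) / c, ?_⟩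
  push_cast at h6 h7 ⊢
  field_simp
  linear_combination -4 * h6 - c ^ 2 * h7

/-- A proper intermediate group is invertible for the smaller order. -/
theorem isIv_mid (h : Ok n c) (hl : l.Prime) (h2 : l ≠ 2) (hJ : J(-n | l) = -1) (hc : ¬ l ∣ c)
    (hI : IsIv (Oc n c) J) (h1 : sc l J < I) (h3 : I < J) :
    IsIv (Oc n (c * l)) I ∧ I * ot (Oc n c) = J := by
  have hl0 : (l : ℂ) ≠ 0 := Nat.cast_ne_zero.2 hl.ne_zero
  have hw := cmd_not_mul h hl hJ hc hI h1 h3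
  have hm : be n c c ∈ Oc n c := be_mem h.m4 (by simp)
  have e : I * ot (Oc n c) = J := by
    refine ((mul_le_mul_left h3.le _).trans hI.1.le).eq_or_lt.resolve_right fun hlt => hw ?_
    intro z hz
    refine (mid_eq hl (hI.isLat h) h1 (cmd_le_mul I _) hlt).ge ?_
    rw [mul_comm (be n c c)]
    exact Submodule.mul_mem_mul hz hm
  have t : ∀ z ∈ I, l * (be n c c * z) ∈ I := fun z hz =>
    h1.le ((mul_mem_sc hl0).2 (hI.mul_mem hm (h3.le hz)))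
  refine ⟨isIv_of_mult (cmd_ok h hl) (((hI.isLat h).sc hl0).mid (hI.isLat h) h1.le h3.le)
    fun a => ⟨fun ha => ?_, fun ha z hz => ?_⟩, e⟩
  · have h4 : a ∈ ot (Oc n c) := hI.mem_of_mul fun z hz => by
      rw [← e] at hz ⊢
      refine Submodule.mul_induction_on hz (fun x hx y hy => ?_) fun x y hx hy => ?_
      · rw [← mul_assoc]
        exact Submodule.mul_mem_mul (ha x hx) hy
      · rw [mul_add]
        exact add_mem hx hy
    rw [cmd_ot h.m4] at h4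
    obtain ⟨p, q, rfl⟩ := mem_sp2.1 h4
    by_cases hq : (l : ℤ) ∣ q
    · obtain ⟨q, rfl⟩ := hq
      rw [← mem_ot, cmd_ot' h.m4]
      exact mem_sp2.2 ⟨p, q, by push_cast; ring⟩
    · refine absurd (fun z hz => cmd_bez hl hq (t z hz) ?_) hw
      have := I.sub_mem (ha z hz) (int_mul_mem hz p)
      rwa [show ((p : ℂ) * 1 + q * be n c c) * z - p * z = q * (be n c c * z) by ring] at this
  · rw [← mem_ot, cmd_ot' h.m4] at ha
    obtain ⟨p, q, rfl⟩ := mem_sp2.1 ha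
    have := I.add_mem (int_mul_mem hz p) (int_mul_mem (t z hz) q)
    rwa [show (p : ℂ) * z + q * (l * (be n c c * z)) = (p * 1 + q * (l * be n c c)) * z by
      ring] at this

theorem mid_of_isIv (h : Ok n c) (hl : l.Prime) (hI : IsIv (Oc n (c * l)) I) :
    sc l (I * ot (Oc n c)) < I ∧ I < I * ot (Oc n c) := by
  have hl0 : (l : ℂ) ≠ 0 := Nat.cast_ne_zero.2 hl.ne_zero
  have hm : be n c c ∈ Oc n c := be_mem h.m4 (by simp)
  have hO := hI.ext (Oc_le n (dvd_mul_right c l))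
  have hw : ¬ ∀ z ∈ I, be n c c * z ∈ I := fun hw => by
    have h1 := hI.mem_of_mul hw
    rw [← mem_ot, cmd_ot' h.m4] at h1
    obtain ⟨p, q, e⟩ := mem_sp2.1 h1
    have := be_indep (n := n) (b := c) (by have := h.gt; omega) h.ne (x := p) (y := q * l - 1)
      (by push_cast; linear_combination -e)
    exact cmd_one hl ⟨q, by linear_combination -this.2⟩
  refine ⟨lt_of_le_of_ne ?_ fun e => hw ?_, lt_of_le_of_ne (cmd_le_mul I _) fun e => hw ?_⟩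
  · rw [← mul_sc]
    refine le_of_le_of_eq (mul_le_mul_right ?_ I) hI.1
    rw [cmd_ot h.m4, cmd_ot' h.m4, sc_sp2]
    exact sp2_le.2 ⟨mem_sp2.2 ⟨l, 0, by push_cast; ring⟩, right_mem_sp2 _ _⟩
  · rw [← e]
    exact fun z => (hO.sc hl0).mul_mem hm
  · rw [e]
    exact fun z => hO.mul_mem hm

theorem cmd_nb (h : Ok n c) (hl : l.Prime) (h2 : l ≠ 2) (hJ : J(-n | l) = -1) (hc : ¬ l ∣ c)
    (hτ : τ.im ≠ 0) (ha : a ≠ 0) (hI : IsIv (Oc n c) (sc a (sp2 τ 1))) (i : Option (Fin l)) :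
    IsIv (Oc n (c * l)) (sc a (nb l s τ i)) ∧
      sc a (nb l s τ i) * ot (Oc n c) = sc a (sp2 τ 1) :=
  isIv_mid h hl h2 hJ hc hI (by rw [cmd_sc_comm, cmd_sc_lt ha]; exact (nb_mid hl hτ i).1)
    ((cmd_sc_lt ha).2 (nb_mid hl hτ i).2)

theorem nb_isIv (h : Ok n c) (hl : l.Prime) (h2 : l ≠ 2) (hJ : J(-n | l) = -1) (hc : ¬ l ∣ c)
    (hτ : τ.im ≠ 0) (ha : a ≠ 0) (hI : IsIv (Oc n c) (sc a (sp2 τ 1))) (i : Option (Fin l)) :
    IsIv (Oc n (c * l)) (sc a (nb l s τ i)) ∧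
      pj n c (c * l) (cl _ (sc a (nb l s τ i))) = cl _ (sc a (sp2 τ 1)) := by
  have := cmd_nb (s := s) h hl h2 hJ hc hτ ha hI i
  exact ⟨this.1, by rw [pj_cl (dvd_mul_right c l) this.1, this.2]⟩

theorem nb_cl_inj (h : Ok n c) (hl : l.Prime) (h2 : l ≠ 2) (hJ : J(-n | l) = -1) (hc : ¬ l ∣ c)
    (hs : ¬ (l : ℤ) ∣ s) (hτ : τ.im ≠ 0) (ha : a ≠ 0) (hI : IsIv (Oc n c) (sc a (sp2 τ 1))) :
    Function.Injective fun i => cl (Oc n (c * l)) (sc a (nb l s τ i)) := by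
  intro i j e
  have hi := cmd_nb (s := s) h hl h2 hJ hc hτ ha hI i
  have hj := cmd_nb (s := s) h hl h2 hJ hc hτ ha hI j
  obtain ⟨t, -, e⟩ := (cl_eq_iff hi.1 hj.1).1 e
  have e2 := hj.2
  rw [e, sc_mul, hi.2] at e2
  refine (cmd_nb_eq hl hs hτ ((cmd_sc_le ha).1 (e.le.trans fun z hz => ?_))).symm
  obtain ⟨y, hy, rfl⟩ := mem_sc.1 hz
  rcases hI.unit h e2 with rfl | rfl
  · rwa [one_mul]
  · rw [neg_one_mul]
    exact neg_mem hy

theorem cmd_lift (h : Ok n c) (hl : l.Prime) (hJ : IsIv (Oc n c) J) {x : Pc n (c * l)}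
    (hx : pj n c (c * l) x = cl _ J) :
    ∃ I, IsIv (Oc n (c * l)) I ∧ cl _ I = x ∧ sc l J < I ∧ I < J := by
  obtain ⟨I, hI, rfl⟩ := cl_surj x
  rw [pj_cl (dvd_mul_right c l) hI] at hx
  obtain ⟨t, ht, rfl⟩ := (cl_eq_iff (hI.ext (Oc_le n (dvd_mul_right c l))) hJ).1 hx
  rw [← sc_mul]
  exact ⟨sc t I, hI.sc ht, cl_sc hI ht, mid_of_isIv h hl (hI.sc ht)⟩

theorem nb_cl_surj (h : Ok n c) (hl : l.Prime) (hs : ¬ (l : ℤ) ∣ s) (hτ : τ.im ≠ 0) (ha : a ≠ 0)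
    (hI : IsIv (Oc n c) (sc a (sp2 τ 1))) {x : Pc n (c * l)}
    (hx : pj n c (c * l) x = cl _ (sc a (sp2 τ 1))) : ∃ i, x = cl _ (sc a (nb l s τ i)) := by
  obtain ⟨I, -, rfl, h1, h3⟩ := cmd_lift h hl hI hx
  obtain ⟨I, rfl⟩ := cmd_sc_surj ha I
  rw [cmd_sc_comm, cmd_sc_lt ha] at h1
  obtain ⟨i, rfl⟩ := cmd_mid hl hs hτ h1 ((cmd_sc_lt ha).1 h3)
  exact ⟨i, rfl⟩

theorem pj_surj (h : Ok n c) (hl : l.Prime) (h2 : l ≠ 2) (hJ : J(-n | l) = -1) (hc : ¬ l ∣ c) :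
    Function.Surjective (pj n c (c * l)) := by
  intro x
  obtain ⟨I, hI, rfl⟩ := cl_surj x
  obtain ⟨τ, a, hτ, ha, rfl⟩ := (hI.isLat h).exists_tau
  exact ⟨_, (nb_isIv (s := 1) h hl h2 hJ hc hτ.ne' ha hI none).2⟩

theorem card_ker_pj (h : Ok n c) (hl : l.Prime) (h2 : l ≠ 2) (hJ : J(-n | l) = -1) (hc : ¬ l ∣ c) :
    Nat.card (pj n c (c * l)).ker = l + 1 := by
  obtain ⟨τ, a, hτ, ha, e⟩ := (isLat_Oc h).exists_tau
  have hI : IsIv (Oc n c) (sc a (sp2 τ 1)) := e ▸ isIv_one _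
  have h1 : cl (Oc n c) (sc a (sp2 τ 1)) = 1 := e ▸ cl_one
  rw [← Nat.card_eq_of_bijective (fun i : Option (Fin l) =>
    (⟨cl _ (sc a (nb l 1 τ i)), (nb_isIv h hl h2 hJ hc hτ.ne' ha hI i).2.trans h1⟩ :
      (pj n c (c * l)).ker)) ⟨fun i j e => nb_cl_inj h hl h2 hJ hc (cmd_one hl) hτ.ne' ha hI
        (congrArg Subtype.val e), fun x => ?_⟩]
  · simp
  · obtain ⟨i, hi⟩ := nb_cl_surj h hl (cmd_one hl) hτ.ne' ha hI (x.2.trans h1.symm)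
    exact ⟨i, Subtype.ext hi.symm⟩

theorem pj_pj {c' c'' : ℕ} (h : c ∣ c') (h' : c' ∣ c'') (x : Pc n c'') :
    pj n c c' (pj n c' c'' x) = pj n c c'' x := by
  obtain ⟨I, hI, rfl⟩ := cl_surj x
  rw [pj_cl h' hI, pj_cl h (hI.ext (Oc_le n h')), pj_cl (h.trans h') hI, mul_assoc,
    ot_mul_ot (Oc_le n h)]

theorem Iu_congr (h : u - v ∈ sc l (ot (Oc n c))) : Iu n c l u = Iu n c l v := by
  have key : ∀ {u v : ℂ}, u - v ∈ sc l (ot (Oc n c)) → Iu n c l u ≤ Iu n c l v := fun {u v} h => by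
    refine sup_le ((Submodule.span_singleton_le_iff_mem _ _).2 ?_) le_sup_right
    rw [← add_sub_cancel v u]
    exact Submodule.add_mem_sup (Submodule.mem_span_singleton_self v) h
  exact le_antisymm (key h) (key (by rw [← neg_sub]; exact neg_mem h))

theorem isIv_Iu (h : Ok n c) (hl : l.Prime) (h2 : l ≠ 2) (hJ : J(-n | l) = -1) (hc : ¬ l ∣ c)
    (hu : u ∈ Oc n c) (hu' : u ∉ sc l (ot (Oc n c))) : IsIv (Oc n (c * l)) (Iu n c l u) := by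
  refine (isIv_mid h hl h2 hJ hc (isIv_one _) (lt_of_le_not_ge le_sup_right fun k => hu' (k ?_))
    (cmd_span_lt hl (isLat_Oc h) hu)).1
  exact Submodule.mem_sup_left (Submodule.mem_span_singleton_self u)

theorem ker_Iu (h : Ok n c) (hl : l.Prime) {x : Pc n (c * l)} (hx : pj n c (c * l) x = 1) :
    ∃ u ∈ Oc n c, u ∉ sc l (ot (Oc n c)) ∧ x = cl _ (Iu n c l u) := by
  obtain ⟨I, -, rfl, h1, h3⟩ := cmd_lift h hl (isIv_one _) (hx.trans cl_one.symm)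
  obtain ⟨u, hu, hu', e⟩ := cmd_span hl (isLat_Oc h) h1 h3
  exact ⟨u, h3.le hu, hu', congrArg _ e⟩

end Pool.Agent.Lib.MP_696deb_nt.B2.CM
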