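import Pool.Agent.Lib.MP_696deb_nt.B2.CM0

/-! The two-primary quotient of a finite commutative group. -/

set_option autoImplicit false

open scoped Classical

namespace Pool.Agent.Lib.MP_696deb_nt.B2.CM

variable {G H : Type} [CommGroup G] [CommGroup H] {f : G →* H}

theorem tq_surj (a : Tw G) : ∃ x, tq G x = a := by
  exact QuotientGroup.mk'_surjective _ a

theorem tq_eq_one {x : G} : tq G x = 1 ↔ ∃ k : ℕ, Odd k ∧ x ^ k = 1 := by
  exact QuotientGroup.eq_one_iff x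

theorem tw_two [Finite G] (a : Tw G) : ∃ k : ℕ, a ^ 2 ^ k = 1 := by
  obtain ⟨x, rfl⟩ := tq_surj a
  obtain ⟨e, k, hk, h⟩ := Nat.exists_eq_two_pow_mul_odd (Nat.card_pos (α := G)).ne'
  exact ⟨e, by rw [← map_pow, tq_eq_one]; exact ⟨k, hk, by rw [← pow_mul, ← h, pow_card_eq_one']⟩⟩

theorem char_tq {m : ℕ} (θ : G →* Multiplicative (ZMod (2 ^ m))) {x : G} (h : tq G x = 1) :
    θ x = 1 := by
  obtain ⟨k, hk, h⟩ := tq_eq_one.1 h
  have h1 : θ x ^ k = 1 := by rw [← map_pow, h, map_one]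
  have h2 : θ x ^ 2 ^ m = 1 := by
    rw [← pow_card_eq_one' (x := θ x), Nat.card_congr Multiplicative.toAdd, Nat.card_zmod]
  rw [← pow_one (θ x), ← (Nat.coprime_iff_gcd_eq_one.1
    ((Nat.coprime_two_right.2 hk).pow_right m))]
  exact pow_gcd_eq_one.2 ⟨h1, h2⟩

theorem twm_surj (hf : Function.Surjective f) : Function.Surjective (twm f) := by
  intro a
  obtain ⟨z, rfl⟩ := tq_surj a
  obtain ⟨x, rfl⟩ := hf z
  exact ⟨tq G x, rfl⟩

theorem ker_twm [Finite G] {a : Tw G} (h : twm f a = 1) : ∃ x, f x = 1 ∧ tq G x = a := by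
  obtain ⟨x, rfl⟩ := tq_surj a
  obtain ⟨l, hl, h⟩ := tq_eq_one.1 ((twm_tq f x).symm.trans h)
  obtain ⟨k, hk⟩ := tw_two (tq G x)
  obtain ⟨m, hm⟩ := exists_pow_eq_self_of_coprime (x := tq G x)
    (((Nat.coprime_two_right.2 hl).pow_right k).coprime_dvd_right (orderOf_dvd_of_pow_eq_one hk))
  exact ⟨(x ^ l) ^ m, by rw [map_pow, map_pow, h, one_pow], by rw [map_pow, map_pow, hm]⟩

theorem cme_ker : (tq G).ker = oddP G := QuotientGroup.ker_mk' _

theorem cme_fib [Fintype G] {K : Type} [Group K] (φ : G →* K) (y : G) {p : G → Prop}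
    [DecidablePred p] (h : ∀ x, p x ↔ φ x = φ y) :
    (Finset.univ.filter p).card = Nat.card φ.ker := by
  rw [← Nat.card_congr (φ.fiberEquivKer y), ← Set.ncard_coe_finset]
  exact congrArg Set.ncard (Set.ext fun x => by simp [h])

theorem cme_card {K : Type} [Group K] (S : Subgroup G) (g : G →* K) :
    Nat.card S = Nat.card ↥(S ⊓ g.ker) * Nat.card (S.map g) := by
  rw [← (g.domRestrict S).ker.card_mul_index, Subgroup.index_ker, MonoidHom.domRestrict_range,
    MonoidHom.ker_domRestrict, ← Subgroup.inf_subgroupOf_left,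
    Nat.card_congr (Subgroup.subgroupOfEquivOfLe inf_le_left).toEquiv]

theorem cme_split [Finite G] : Nat.card (twm f).ker = ordProj[2] (Nat.card f.ker) ∧
    Nat.card ↥(f.ker ⊓ oddP G) = ordCompl[2] (Nat.card f.ker) := by
  have h1 : f.ker.map (tq G) = (twm f).ker := by
    refine le_antisymm ?_ fun a ha => ker_twm ha
    rintro _ ⟨x, hx, rfl⟩
    rw [MonoidHom.mem_ker, twm_tq, show f x = 1 from hx, map_one]
  have h2 : IsPGroup 2 (twm f).ker := IsPGroup.to_subgroup (fun a => tw_two a) _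
  obtain ⟨e, he⟩ := IsPGroup.iff_card.1 h2
  have h3 : ¬ 2 ∣ Nat.card ↥(f.ker ⊓ oddP G) := fun h => by
    obtain ⟨x, hx⟩ := exists_prime_orderOf_dvd_card' 2 h
    obtain ⟨k, hk, h4⟩ := x.2.2
    rw [← Subgroup.orderOf_coe] at hx
    exact hk.not_two_dvd_nat (hx ▸ orderOf_dvd_of_pow_eq_one h4)
  have h4 := cme_card f.ker (tq G)
  rw [h1, he, cme_ker] at h4
  have h5 : (Nat.card f.ker).factorization 2 = e := by
    rw [h4, Nat.factorization_mul Nat.card_pos.ne' (by positivity), Finsupp.add_apply,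
      Nat.factorization_eq_zero_of_not_dvd h3, Nat.prime_two.factorization_pow, zero_add,
      Finsupp.single_eq_same]
  rw [h5, he, h4, Nat.mul_div_cancel _ (by positivity)]
  exact ⟨rfl, rfl⟩

theorem card_ker_twm [Finite G] : Nat.card (twm f).ker = ordProj[2] (Nat.card f.ker) := by
  exact cme_split.1

theorem sum_fib [Fintype G] [Fintype H] {M : Type} [AddCommMonoid M] (hf : Function.Surjective f)
    (F : H → M) (a : Tw G) : ∑ x with tq G x = a, F (f x) =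
      ordCompl[2] (Nat.card f.ker) • ∑ z with tq H z = twm f a, F z := by
  rw [← cme_split.2, Finset.smul_sum, ← Finset.sum_fiberwise_of_maps_to
    (t := Finset.univ.filter fun z => tq H z = twm f a) (g := f) fun x hx => by
      rw [Finset.mem_filter_univ] at hx ⊢
      rw [← hx, twm_tq]]
  refine Finset.sum_congr rfl fun z hz => ?_
  obtain ⟨y, rfl⟩ := hf z
  rw [Finset.mem_filter_univ] at hz
  obtain ⟨x, h1, h2⟩ := ker_twm (f := f) (a := (tq G y)⁻¹ * a)
    (by rw [map_mul, map_inv, twm_tq, hz, inv_mul_cancel])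
  rw [Finset.sum_congr rfl (g := fun _ => F (f y)) fun u hu => by rw [(Finset.mem_filter.1 hu).2],
    Finset.sum_const, Finset.filter_filter, cme_fib (f.prod (tq G)) (y * x) fun u => ?_,
    MonoidHom.ker_prod, cme_ker]
  rw [MonoidHom.prod_apply, MonoidHom.prod_apply, Prod.mk.injEq, map_mul, map_mul, h1, h2, mul_one,
    mul_inv_cancel_left, and_comm]

theorem sum_tq_mul [Fintype G] {M : Type} [AddCommMonoid M] (F : G → M) (g : G) (a : Tw G) :
    ∑ x with tq G x = a, F (g * x) = ∑ x with tq G x = tq G g * a, F x := by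
  exact Finset.sum_equiv (Equiv.mulLeft g) (fun x => by simp) fun _ _ => rfl

theorem sum_tq_inv [Fintype G] {M : Type} [AddCommMonoid M] (F : G → M) (g : G) (a : Tw G) :
    ∑ x with tq G x = a, F (g * x⁻¹) = ∑ x with tq G x = tq G g * a⁻¹, F x := by
  exact Finset.sum_equiv ((Equiv.inv G).trans (Equiv.mulLeft g)) (fun x => by simp) fun _ _ => rfl

theorem card_tq_fib [Fintype G] (a : Tw G) :
    (Finset.univ.filter fun x => tq G x = a).card = Nat.card (oddP G) := by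
  obtain ⟨x, rfl⟩ := tq_surj a
  rw [cme_fib (tq G) x fun _ => Iff.rfl, cme_ker]

theorem sum_tq_twm [Fintype G] [Fintype H] [Fintype (Tw G)] {M : Type} [AddCommMonoid M]
    (F : G → M) (a : Tw H) : ∑ a' with twm f a' = a, ∑ x with tq G x = a', F x =
      ∑ z with tq H z = a, ∑ x with f x = z, F x := by
  rw [Finset.sum_fiberwise_eq_sum_filter, Finset.sum_fiberwise_eq_sum_filter _ _ f]
  exact Finset.sum_congr (Finset.ext fun x => by simp [twm_tq]) fun _ _ => rfl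

/-- Characters separate subgroups. -/
theorem exists_char [Finite G] (h2 : ∀ a : G, ∃ k : ℕ, a ^ 2 ^ k = 1) (S : Subgroup G) {a : G}
    (ha : a ∉ S) : ∃ (m : ℕ) (θ : G →* Multiplicative (ZMod (2 ^ m))),
      (∀ x ∈ S, θ x = 1) ∧ θ a ≠ 1 := by
  obtain ⟨ι, _, n, -, ⟨e⟩⟩ := CommGroup.equiv_prod_multiplicative_zmod_of_finite (G ⧸ S)
  obtain ⟨i, hi⟩ := Function.ne_iff.1
    (mt (fun h => (QuotientGroup.eq_one_iff a).1 ((map_eq_one_iff e e.injective).1 h)) ha)
  obtain ⟨b, hb⟩ := QuotientGroup.mk_surjective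
    (e.symm (Pi.mulSingle i (Multiplicative.ofAdd (1 : ZMod (n i)))))
  obtain ⟨k, hk⟩ := h2 b
  let θ : G →* Multiplicative (ZMod (n i)) :=
    (Pi.evalMonoidHom _ i).comp (e.toMonoidHom.comp (QuotientGroup.mk' S))
  have h1 : θ b = Multiplicative.ofAdd 1 := by
    change e (b : G ⧸ S) i = _
    rw [hb, e.apply_symm_apply, Pi.mulSingle_eq_same]
  have h3 := congrArg (fun x => (θ x).toAdd) hk
  simp only [map_pow, h1, map_one, toAdd_pow, toAdd_ofAdd, nsmul_one, toAdd_one] at h3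
  obtain ⟨m, -, hm⟩ := (Nat.dvd_prime_pow Nat.prime_two).1 ((ZMod.natCast_eq_zero_iff _ _).1 h3)
  have h4 : ∃ θ : G →* Multiplicative (ZMod (n i)), (∀ x ∈ S, θ x = 1) ∧ θ a ≠ 1 :=
    ⟨θ, fun x hx => by
      change e (x : G ⧸ S) i = _
      rw [(QuotientGroup.eq_one_iff x).2 hx, map_one, Pi.one_apply], hi⟩
  exact ⟨m, hm ▸ h4⟩

theorem exists_nu {γ : G} {v s : ℕ} (hγ : orderOf γ = 2 ^ v) (hs : s + 1 ≤ v)
    (h : ∀ a : G, ∃ k : ℤ, a ^ 2 = γ ^ (2 * k)) : ∃ ν : G →* Multiplicative (ZMod (2 ^ s)),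
      ν γ = Multiplicative.ofAdd 1 ∧ ∀ a, a ^ 2 = 1 → ν a = 1 := by
  have key : ∀ i j : ℤ, γ ^ (2 * i) = γ ^ (2 * j) → (i : ZMod (2 ^ s)) = j := fun i j e => by
    rw [zpow_eq_zpow_iff_modEq, hγ] at e
    have h1 : ((2 ^ (s + 1) : ℕ) : ℤ) ∣ 2 * j - 2 * i :=
      (Int.natCast_dvd_natCast.2 (pow_dvd_pow 2 hs)).trans e.dvd
    rw [pow_succ', Nat.cast_mul, ← mul_sub] at h1
    exact (ZMod.intCast_eq_intCast_iff_dvd_sub _ _ _).2
      (Int.dvd_of_mul_dvd_mul_left two_ne_zero h1)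
  choose k hk using h
  refine ⟨MonoidHom.mk' (fun a => Multiplicative.ofAdd (k a : ZMod (2 ^ s))) fun a b => ?_, ?_,
    fun a ha => ?_⟩
  · rw [← ofAdd_add, ← Int.cast_add,
      key _ (k a + k b) (by rw [← hk, mul_pow, hk, hk, mul_add, zpow_add])]
  · exact congrArg Multiplicative.ofAdd
      ((key _ 1 (by rw [← hk, mul_one, zpow_ofNat])).trans Int.cast_one)
  · exact congrArg Multiplicative.ofAdd
      ((key _ 0 (by rw [← hk, ha, mul_zero, zpow_zero])).trans Int.cast_zero)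

theorem card_fib_two [Fintype G] {Z : Type} [CommGroup Z] (hf : Function.Surjective f)
    (ν : G →* Z) (hν : ∀ x, ∃ k, f k = 1 ∧ ν k = x) (a : H) (x : Z) :
    (Finset.univ.filter fun a' => f a' = a ∧ ν a' = x).card * Nat.card Z = Nat.card f.ker := by
  obtain ⟨y, rfl⟩ := hf a
  obtain ⟨k, h1, h2⟩ := hν ((ν y)⁻¹ * x)
  have h3 : f.ker.map ν = ⊤ := eq_top_iff.2 fun z _ => hν z
  rw [cme_fib (f.prod ν) (y * k) fun u => ?_, MonoidHom.ker_prod, cme_card f.ker ν, h3,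
    Subgroup.card_top]
  rw [MonoidHom.prod_apply, MonoidHom.prod_apply, Prod.mk.injEq, map_mul, map_mul, h1, h2, mul_one,
    mul_inv_cancel_left]

theorem exists_lift {Γ Z : Type} [Group Γ] [CommGroup Z] (K : Subgroup Γ) (ψ : Γ → G) (χ : Γ →* Z)
    (hm : ∀ g ∈ K, ∀ h ∈ K, ψ (g * h) = ψ g * ψ h) (hs : ∀ a, ∃ g ∈ K, ψ g = a)
    (hk : ∀ g ∈ K, ψ g = 1 → χ g = 1) : ∃ θ : G →* Z, ∀ g ∈ K, θ (ψ g) = χ g := by
  have key : ∀ g ∈ K, ∀ h ∈ K, ψ g = ψ h → χ g = χ h := fun g hg h hh e => by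
    have h1 := hm g hg _ (K.mul_mem (K.inv_mem hg) hh)
    rw [mul_inv_cancel_left, e, left_eq_mul] at h1
    have h2 := hk _ (K.mul_mem (K.inv_mem hg) hh) h1
    rwa [map_mul, map_inv, inv_mul_eq_one] at h2
  choose σ h1 h2 using hs
  refine ⟨MonoidHom.mk' (fun a => χ (σ a)) fun a b => ?_, fun g hg => key _ (h1 _) _ hg (h2 _)⟩
  rw [← map_mul]
  exact key _ (h1 _) _ (K.mul_mem (h1 a) (h1 b)) (by rw [hm _ (h1 a) _ (h1 b), h2, h2, h2])

end Pool.Agent.Lib.MP_696deb_nt.B2.CM
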