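import Pool.Agent.Lib.MP_696deb_nt.B2.CMg
import Pool.Agent.Lib.MP_696deb_nt.B2.CMe
import Pool.Agent.Lib.MP_696deb_nt.B2.Base
import Pool.Agent.Lib.MP_f8d36e_nt.CMActs

/-! The action of the Galois group on the ring class group. -/

set_option autoImplicit false

open scoped Classical

namespace Pool.Agent.Lib.MP_696deb_nt.B2.CM

variable {n c : ℕ} {I I' : Lt} {σ : ℂ ≃+* ℂ} {g h : Gam} {z : ℂ}

theorem exists_ex (g : Gam) : ∃ σ, Ex g σ := by
  exact MP_f8d36e_nt.exists_ext jC g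

theorem ex_cc : Ex cc starRingAut := by
  exact fun x => (jC_cc x).symm

theorem jC_pre (h : IsAlgebraic ℚ z) : jC (pre z) = z := by
  exact Function.invFun_eq (MP_f8d36e_nt.exists_preimage jC h)

theorem jC_dq (n : ℕ) : jC (dq n) = dl n := by
  refine jC_pre (IsAlgebraic.of_pow two_pos ?_)
  rw [dl_sq]
  exact (isAlgebraic_natCast n).neg

theorem dq_sq (n : ℕ) : dq n ^ 2 = -n := by
  exact jC.injective (by rw [map_pow, jC_dq, dl_sq, map_neg, map_natCast])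

theorem jC_beQ (n c : ℕ) (b : ℤ) : jC (beQ n c b) = be n c b := by
  rw [beQ, be, map_div₀, map_add, map_mul, jC_dq, map_intCast, map_natCast, map_ofNat]

theorem jC_elQ (n : ℕ) (x y : ℤ) : jC (elQ n x y) = el n x y := by
  rw [elQ, el, map_add, map_mul, jC_beQ, map_intCast, map_intCast]

theorem smul_dq (hg : g ∈ GK n) : g (dq n) = dq n := by
  rw [chi_spec (a := -n) (x := dq n) (by rw [dq_sq]; simp) g, B4c_mem.1 hg]
  simp

theorem smul_dq' (hg : g ∉ GK n) : g (dq n) = -dq n := by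
  rw [chi_spec (a := -n) (x := dq n) (by rw [dq_sq]; simp) g, B4c_notMem.1 hg]
  simp

theorem Ex.dl (e : Ex g σ) (hg : g ∈ GK n) : σ (dl n) = dl n := by
  rw [← jC_dq, e, smul_dq hg]

theorem Ex.dl' (e : Ex g σ) (hg : g ∉ GK n) : σ (CM.dl n) = -CM.dl n := by
  rw [← jC_dq, e, smul_dq' hg, map_neg]

theorem cmh_dl (e : Ex g σ) (n : ℕ) : σ (dl n) = dl n ∨ σ (dl n) = -dl n :=
  (em (g ∈ GK n)).imp e.dl e.dl'

theorem exists_over (w : Plc) : ∃ A, Over A w := by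
  let J : Ideal (w.V.integer.map jC) :=
    { carrier := {y | ∃ x, w.V x < 1 ∧ jC x = y}
      add_mem' := by
        rintro a b ⟨x, hx, e⟩ ⟨y, hy, e'⟩
        exact ⟨x + y, w.V.map_add_lt hx hy, by simp [e, e']⟩
      zero_mem' := ⟨0, by simp, by simp⟩
      smul_mem' := by
        rintro ⟨_, x, hx, rfl⟩ b ⟨y, hy, e⟩
        exact ⟨x * y, by
          rw [map_mul]; exact mul_lt_one_of_nonneg_of_lt_one_right hx zero_le hy,
          by simp [e]⟩ }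
  obtain ⟨A, h1, h2⟩ := J.image_subset_nonunits_valuationSubring (by
    rw [Ideal.ne_top_iff_one]
    rintro ⟨x, hx, e⟩
    rw [jC.injective (e.trans (map_one jC).symm), map_one] at hx
    exact hx.false)
  have a1 : ∀ x, w.V x ≤ 1 → A.valuation (jC x) ≤ 1 := fun x hx =>
    (A.valuation_le_one_iff _).mpr (h1 ⟨x, hx, rfl⟩)
  have a2 : ∀ x, w.V x < 1 → A.valuation (jC x) < 1 := fun x hx =>
    h2 ⟨⟨jC x, x, hx.le, rfl⟩, ⟨x, hx, rfl⟩, rfl⟩
  refine ⟨A, fun x => ⟨⟨fun h => ?_, a1 x⟩, fun h => ?_, a2 x⟩⟩ <;> by_contra! hx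
  · have h0 : x ≠ 0 := by rintro rfl; simp at hx
    have := a2 x⁻¹ (by rw [map_inv₀]; exact inv_lt_one_of_one_lt₀ hx)
    rw [map_inv₀, map_inv₀, inv_lt_one₀ (zero_lt_iff.mpr (by simpa using h0))] at this
    exact this.not_ge h
  · have h0 : x ≠ 0 := by rintro rfl; simp at hx
    have := a1 x⁻¹ (by rw [map_inv₀]; exact inv_le_one_of_one_le₀ hx)
    rw [map_inv₀, map_inv₀, inv_le_one₀ (zero_lt_iff.mpr (by simpa using h0))] at this
    exact this.not_gt h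

theorem jC_jQ (ok : Ok n c) (x : Pc n c) : jC (jQ n c x) = jP n c x := by
  exact jC_pre (alg_jP ok x)

theorem jQ_inj (ok : Ok n c) : Function.Injective (jQ n c) := by
  exact fun x y e => jP_inj ok (by rw [← jC_jQ ok, ← jC_jQ ok, e])

theorem V_jQ (ok : Ok n c) (w : Plc) (x : Pc n c) : w.V (jQ n c x) ≤ 1 := by
  obtain ⟨A, hA⟩ := exists_over w
  exact (hA _).1.1 (by rw [jC_jQ ok]; exact val_jP _ ok x)

theorem cmh_j (ok : Ok n c) (e : Ex g σ) (hI : IsIv (Oc n c) I) (k : CjS σ I I') :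
    g (jQ n c (cl _ I)) = jQ n c (cl _ I') :=
  jC.injective (by
    rw [← e, jC_jQ ok, jC_jQ ok, jP_cl ok hI, jP_cl ok (k.isIv ok (cmh_dl e n) hI), k.jL])

theorem rho_cj (ok : Ok n c) (e : Ex g σ) (k : CjS σ (ot (Oc n c)) I') : rho n c g = cl _ I' := by
  rw [rho, ← cl_one, cmh_j ok e (isIv_one _) k]
  exact Function.leftInverse_invFun (jQ_inj ok) _

theorem jQ_rho (ok : Ok n c) (g : Gam) : jQ n c (rho n c g) = g (jQ n c 1) := by
  obtain ⟨σ, e⟩ := exists_ex g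
  obtain ⟨I', k⟩ := exists_cjS σ (isLat_Oc ok)
  rw [rho_cj ok e k, ← cmh_j ok e (isIv_one _) k, cl_one]

theorem cmh_cl (ok : Ok n c) (e : Ex g σ) (hI : IsIv (Oc n c) I) (k : CjS σ I I') :
    cl (Oc n c) I' = rho n c g * cl _ (mp σ I) := by
  obtain ⟨J, k0⟩ := exists_cjS σ (isLat_Oc ok)
  have h1 := k0.mul I (by rw [hI.1]; exact k.left)
  rw [hI.1] at h1
  rw [k.unique h1, rho_cj ok e k0, cl_mul (hI.mp ok.m4 (cmh_dl e n))
    (k0.isIv ok (cmh_dl e n) (isIv_one _)), mul_comm]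

theorem cl_cj (ok : Ok n c) (hg : g ∈ GK n) (e : Ex g σ) (hI : IsIv (Oc n c) I) (k : CjS σ I I') :
    cl (Oc n c) I' = rho n c g * cl _ I := by
  rw [cmh_cl ok e hI k, cl_mp_pos ok (e.dl hg) hI]

theorem cl_cj' (ok : Ok n c) (hg : g ∉ GK n) (e : Ex g σ) (hI : IsIv (Oc n c) I) (k : CjS σ I I') :
    cl (Oc n c) I' = rho n c g * (cl _ I)⁻¹ := by
  rw [cmh_cl ok e hI k, cl_mp_neg ok (e.dl' hg) hI]

theorem smul_jQ (ok : Ok n c) (hg : g ∈ GK n) (x : Pc n c) :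
    g (jQ n c x) = jQ n c (rho n c g * x) := by
  obtain ⟨I, hI, rfl⟩ := cl_surj x
  obtain ⟨σ, e⟩ := exists_ex g
  obtain ⟨I', k⟩ := exists_cjS σ (hI.isLat ok)
  rw [cmh_j ok e hI k, cl_cj ok hg e hI k]

theorem smul_jQ' (ok : Ok n c) (hg : g ∉ GK n) (x : Pc n c) :
    g (jQ n c x) = jQ n c (rho n c g * x⁻¹) := by
  obtain ⟨I, hI, rfl⟩ := cl_surj x
  obtain ⟨σ, e⟩ := exists_ex g
  obtain ⟨I', k⟩ := exists_cjS σ (hI.isLat ok)
  rw [cmh_j ok e hI k, cl_cj' ok hg e hI k]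

theorem rho_mul (ok : Ok n c) (hg : g ∈ GK n) (h : Gam) :
    rho n c (g * h) = rho n c g * rho n c h := by
  exact jQ_inj ok (by rw [jQ_rho ok, AlgEquiv.mul_apply, ← jQ_rho ok h, smul_jQ ok hg])

theorem rho_mul' (ok : Ok n c) (hg : g ∉ GK n) (h : Gam) :
    rho n c (g * h) = rho n c g * (rho n c h)⁻¹ := by
  exact jQ_inj ok (by rw [jQ_rho ok, AlgEquiv.mul_apply, ← jQ_rho ok h, smul_jQ' ok hg])

theorem rho_one (ok : Ok n c) : rho n c 1 = 1 := by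
  exact jQ_inj ok (by rw [jQ_rho ok, AlgEquiv.one_apply])

theorem rho_sq (ok : Ok n c) (hg : g ∉ GK n) : rho n c (g * g) = 1 := by
  rw [rho_mul' ok hg, mul_inv_cancel]

theorem rho_inv (ok : Ok n c) (hg : g ∈ GK n) : rho n c g⁻¹ = (rho n c g)⁻¹ := by
  exact eq_inv_of_mul_eq_one_right (by rw [← rho_mul ok hg, mul_inv_cancel, rho_one ok])

theorem rho_pow (ok : Ok n c) (hg : g ∈ GK n) (k : ℕ) : rho n c (g ^ k) = rho n c g ^ k := by
  induction k with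
  | zero => rw [pow_zero, pow_zero, rho_one ok]
  | succ k ih => rw [pow_succ', pow_succ', rho_mul ok hg, ih]

theorem rho_conj (ok : Ok n c) (hg : g ∉ GK n) (hh : h ∈ GK n) :
    rho n c (g * h * g⁻¹) = (rho n c h)⁻¹ := by
  have h1 := rho_mul' ok hg g⁻¹
  rw [mul_inv_cancel, rho_one ok] at h1
  rw [mul_assoc, rho_mul' ok hg, rho_mul ok hh, mul_inv, mul_left_comm, ← h1, mul_one]

theorem rho_cc (ok : Ok n c) : rho n c cc = 1 := by
  rw [rho_cj ok ex_cc (cjS_conj (isLat_Oc ok)), mp_Oc ok.m4 (cmh_dl ex_cc n), cl_one]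

theorem sm_rho (H : Subgroup Gam) (n c : ℕ) : Sm H (rho n c) := by
  exact (sm_apply (jQ n c 1)).comp (Function.invFun (jQ n c))

theorem pj_rho {c' : ℕ} (ok : Ok n c') (hc : c ∣ c') (g : Gam) :
    pj n c c' (rho n c' g) = rho n c g := by
  have ok' : Ok n c := ⟨ok.m4, ok.gt, fun h => ok.ne (by simpa [h] using hc)⟩
  obtain ⟨σ, e⟩ := exists_ex g
  obtain ⟨I', k⟩ := exists_cjS σ (isLat_Oc ok)
  have h0 : ot (Oc n c) * ot (Oc n c') = ot (Oc n c) := by rw [mul_comm, ot_mul_ot (Oc_le n hc)]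
  have h1 := k.mul (ot (Oc n c)) (by rw [h0]; exact isLat_Oc ok')
  rw [h0, mp_Oc ok.m4 (cmh_dl e n)] at h1
  rw [rho_cj ok e k, rho_cj ok' e h1, pj_cl hc (k.isIv ok (cmh_dl e n) (isIv_one _)), mul_comm]

theorem cmh_gen (ok : Ok n c) (hs : Squarefree n) {w : Plc} (hw : w.p ∣ n) :
    w.p ≠ 2 ∧ ∀ τ, Gen w τ → τ ∉ GK n := by
  have h2 : w.p ≠ 2 := fun h => by
    have := ok.m4
    rw [h] at hw
    omega
  refine ⟨h2, fun τ hτ => ?_⟩
  obtain ⟨m, hm⟩ := hw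
  have h3 : ¬ w.p ∣ 2 * m := fun h => by
    rcases (Nat.Prime.dvd_mul w.prime).1 h with h | h
    · exact h2 ((Nat.prime_dvd_prime_iff_eq w.prime Nat.prime_two).1 h)
    · exact w.prime.not_isUnit (hs _ (hm ▸ Nat.mul_dvd_mul_left _ h))
  have h4 : m ≠ 0 := fun h => h3 (by simp [h])
  rw [B4c_notMem, show (-n : ℤ) = w.p * (-m) by rw [hm]; push_cast; ring,
    chi_mul (Int.natCast_ne_zero.2 w.prime.ne_zero) (neg_ne_zero.2 (Int.natCast_ne_zero.2 h4)),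
    hτ.2, chi_ine (by rw [mul_neg, dvd_neg]; exact_mod_cast h3) hτ.1, mul_one]

/-- The affine action on the two-primary quotient, with the sign. -/
noncomputable def cmhP {G : Type} [CommGroup G] (x : G) (e : ℤˣ) : Equiv.Perm (Tw G) × ℤˣ :=
  (Equiv.mulLeft (tq G x) * if e = 1 then 1 else Equiv.inv _, e)

theorem cmh_mul (ok : Ok n c) (g h : Gam) : cmhP (rho n c (g * h)) (chi (-n) (g * h)) =
    cmhP (rho n c g) (chi (-n) g) * cmhP (rho n c h) (chi (-n) h) := by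
  refine Prod.ext (Equiv.ext fun a => ?_) (map_mul _ g h)
  have h0 : (-1 : ℤˣ) ≠ 1 := by decide
  by_cases hg : g ∈ GK n
  · rw [rho_mul ok hg, map_mul, B4c_mem.1 hg]
    rcases Int.units_eq_one_or (chi (-n) h) with e | e <;> simp [cmhP, e, h0, mul_assoc]
  · rw [rho_mul' ok hg, map_mul, B4c_notMem.1 hg]
    rcases Int.units_eq_one_or (chi (-n) h) with e | e <;> simp [cmhP, e, h0, mul_assoc, mul_comm]

theorem cmh_one {G : Type} [CommGroup G] {x : G} : cmhP x 1 = 1 ↔ tq G x = 1 := by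
  constructor
  · intro h
    simpa [cmhP] using DFunLike.congr_fun (congrArg Prod.fst h) 1
  · intro h
    simp [cmhP, h]

/-- The two-primary part is unramified at the primes that divide the discriminant. -/
theorem tq_rho_ram (ok : Ok n c) (hs : Squarefree n) {w : Plc} (hw : w.p ∣ n)
    (hg : g ∈ GK n ⊓ Ine w) : tq _ (rho n c g) = 1 := by
  obtain ⟨h2, h3⟩ := cmh_gen ok hs hw
  obtain ⟨τ, hτ⟩ := exists_gen h2
  have := finite_Pc ok.m4 ok.gt c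
  let π : Gam →* Equiv.Perm (Tw (Pc n c)) × ℤˣ :=
    MonoidHom.mk' (fun g => cmhP (rho n c g) (chi (-n) g)) (cmh_mul ok)
  have hπ : ∀ g ∈ GK n, tq _ (rho n c g) = 1 ↔ π g = 1 := fun g hg => by
    rw [← cmh_one, ← B4c_mem.1 hg]
    rfl
  obtain ⟨k, hk⟩ := tame_gen h2 hτ (π := π) ((sm_rho _ n c).comp₂ (sm_chi (-n)) cmhP)
    (fun g _ h _ => map_mul π g h) (fun g _ => by
      have h4 : g ^ 2 ∈ GK n := by rw [B4c_mem, map_pow, Int.units_sq]
      obtain ⟨k, hk⟩ := tw_two (tq _ (rho n c (g ^ 2)))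
      refine ⟨k + 1, ?_⟩
      rw [← map_pow, pow_succ', pow_mul, ← hπ _ (pow_mem h4 _), rho_pow ok h4, map_pow, hk]) hg.2
  have h5 : chi (-n) g = chi (-n) τ ^ k := congrArg Prod.snd hk
  rw [B4c_mem.1 hg.1, B4c_notMem.1 (h3 τ hτ)] at h5
  obtain ⟨j, rfl⟩ : Even k := (neg_one_pow_eq_one_iff_even (by decide)).1 h5.symm
  rw [hπ g hg.1, hk, ← two_mul, pow_mul, ← map_pow, sq,
    (hπ _ (mul_mem_GK (h3 τ hτ) (h3 τ hτ))).1 (by rw [rho_sq ok (h3 τ hτ), map_one]), one_pow]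

theorem tq_rho_ram_sq (ok : Ok n c) (hs : Squarefree n) {w : Plc} (hw : w.p ∣ n)
    (hg : g ∈ GK n ⊓ Dec w) : tq _ (rho n c g) ^ 2 = 1 := by
  obtain ⟨h2, h3⟩ := cmh_gen ok hs hw
  obtain ⟨τ, hτ⟩ := exists_gen h2
  have h4 : τ * g * τ⁻¹ ∈ GK n := (normal_GK n).conj_mem _ hg.1 τ
  have h5 := tq_rho_ram ok hs hw (g := τ * g * τ⁻¹ * g⁻¹) ⟨(GK n).mul_mem h4 ((GK n).inv_mem hg.1), by
    rw [mul_assoc τ, mul_assoc τ]
    exact (Ine w).mul_mem hτ.1 (conj_mem_Ine hg.2 ((Ine w).inv_mem hτ.1))⟩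
  rwa [rho_mul ok h4, rho_conj ok (h3 τ hτ) hg.1, rho_inv ok hg.1, ← mul_inv, map_inv, inv_eq_one,
    map_mul, ← sq] at h5

end Pool.Agent.Lib.MP_696deb_nt.B2.CM
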