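import Pool.Agent.Lib.MP_696deb_nt.B2.CMr

/-! Ramification of ring class characters at inert primes. -/

set_option autoImplicit false

open scoped Classical NumberTheorySymbols NNReal

namespace Pool.Agent.Lib.MP_696deb_nt.B2.CM

variable {n c m : ℕ} {w : Plc} {g : Gam} {x y b k : ℤ}

/-- Primitive vectors with prescribed residues at a prime power and at a second modulus. -/
theorem cmu_crt {p : ℕ} (hp : p.Prime) (e : ℕ) {N : ℕ} (hN : ¬ p ∣ N)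
    (h : ¬ ((p : ℤ) ∣ x ∧ (p : ℤ) ∣ y)) : ∃ x' y' : ℤ, IsCoprime x' y' ∧ (p : ℤ) ^ e ∣ x' - x ∧
      (p : ℤ) ^ e ∣ y' - y ∧ (N : ℤ) ∣ x' - 1 ∧ (N : ℤ) ∣ y' := by
  have hp' := Nat.prime_iff_prime_int.1 hp
  have k : ∀ a : ℤ, ¬ (p : ℤ) ∣ a → IsCoprime ((p : ℤ) ^ e) a := fun a ha =>
    (hp'.irreducible.coprime_iff_not_dvd.2 ha).pow_left
  have h0 : (p : ℤ) ^ e * N ≠ 0 := mul_ne_zero (pow_ne_zero _ hp'.ne_zero)
    (Int.natCast_ne_zero.2 fun e => hN (e ▸ dvd_zero p))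
  obtain ⟨u, v, h1⟩ := k N fun a => hN (Int.natCast_dvd_natCast.1 a)
  obtain ⟨α, β, γ, h2⟩ : ∃ α β γ : ℤ, α * x + β * y + γ * (p : ℤ) ^ e = 1 := by
    rcases not_and_or.1 h with a | a <;> obtain ⟨s, t, a⟩ := k _ a
    exacts [⟨t, 0, s, by linear_combination a⟩, ⟨0, t, s, by linear_combination a⟩]
  generalize (p : ℤ) ^ e = P at *
  obtain ⟨x', y', h3, ⟨s, h4⟩, ⟨t, h5⟩⟩ := exists_coprime_lift (x := x * v * N + u * P)
    (y := y * v * N) h0 ⟨α + 1 - α * (x * v * N + u * P) - β * (y * v * N), β,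
      (γ + u * (α * x + β * y - α)) * (v - x * v), by
        have a1 : 1 - (α * (x * v * N + u * P) + β * (y * v * N)) =
            P * (γ + u * (α * x + β * y - α)) := by
          linear_combination (-1 : ℤ) * h2 - (α * x + β * y) * h1
        have a2 : 1 - (x * v * N + u * P) = N * (v - x * v) := by linear_combination (-1 : ℤ) * h1
        linear_combination (-(1 - (x * v * N + u * P))) * a1 -
          P * (γ + u * (α * x + β * y - α)) * a2⟩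
  exact ⟨x', y', h3, ⟨N * s + u - x * u, by linear_combination h4 + x * h1⟩,
    ⟨N * t - y * u, by linear_combination h5 + y * h1⟩,
    ⟨P * s + x * v - v, by linear_combination h4 + h1⟩, ⟨P * t + y * v, by linear_combination h5⟩⟩

theorem cmu_hom (ok : Ok n c) (θ : Pc n c →* Multiplicative (ZMod (2 ^ m))) (w : Plc) :
    Sm (GK n ⊓ Dec w) (fun g => (θ (rho n c g)).toAdd) ∧
      IsHom (GK n ⊓ Dec w) fun g => (θ (rho n c g)).toAdd :=
  ⟨(sm_rho _ n c).comp fun z => (θ z).toAdd, fun g hg h _ => by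
    simp only [rho_mul ok hg.1, map_mul, toAdd_mul]⟩

theorem cmu_el_ne (ok : Ok n c) (h : IsCoprime x y) : el n x y ≠ 0 := fun e => by
  have h1 := el_mul_el ok.m4 x y
  rw [e, zero_mul] at h1
  exact (nrm_pos ⟨ok.m4, ok.gt, one_ne_zero⟩ h).ne (by exact_mod_cast h1)

theorem cmu_V (hn : n % 4 = 3) (w : Plc) {e : ℕ} (hx : (w.p : ℤ) ^ e ∣ x) (hy : (w.p : ℤ) ^ e ∣ y) :
    w.V (elQ n x y) ≤ w.V w.p ^ e := by
  obtain ⟨s, rfl⟩ := hx
  obtain ⟨t, rfl⟩ := hy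
  rw [show elQ n (w.p ^ e * s) (w.p ^ e * t) = w.p ^ e * elQ n s t by
    simp only [elQ]; push_cast; ring, map_mul, map_pow]
  exact mul_le_of_le_one_right' (V_elQ_le hn w s t)

theorem cmu_two (w : Plc) (m : ℕ) : w.V w.p ^ (m + 2) < w.V (2 ^ (m + 1)) := by
  obtain ⟨h0, h1⟩ := b4a_V_p w
  have h2 : w.V w.p ≤ w.V 2 := by
    by_cases h : (w.p : ℤ) ∣ 2
    · rw [(Nat.prime_dvd_prime_iff_eq w.prime Nat.prime_two).1 (by exact_mod_cast h), Nat.cast_ofNat]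
    · have := w.V_int_eq_one.2 h
      rw [Int.cast_ofNat] at this
      rw [this]
      exact h1.le
  rw [map_pow]
  exact (pow_lt_pow_right_of_lt_one₀ (b3a_pos w h0) h1 (by omega)).trans_le (pow_le_pow_left' h2 _)

/-- Ring class characters are unramified at the inert primes outside the conductor. -/
theorem unr_inert (F : CFT) (ok : Ok n c) (θ : Pc n c →* Multiplicative (ZMod (2 ^ m)))
    (hw : ¬ w.p ∣ n) (hc : ¬ w.p ∣ c) (hg : g ∈ Dec w) (hg' : g ∉ GK n) {s : Gam}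
    (hs : s ∈ GK n ⊓ Ine w) : θ (rho n c s) = 1 := by
  obtain ⟨s1, s2⟩ := cmu_hom ok θ w
  refine toAdd_eq_zero.1 (F.crit (op_GK n) s1 s2 (fun a κ ha hV hκ => ?_) s hs)
  obtain ⟨M, -, Mp, hM⟩ := recip_el F ok θ hw hg hg'
  obtain ⟨x0, y0, h1⟩ := approx_elQ ok.m4 hw hg hg' ha hV.le (m + 2)
  have h2 : ¬ ((w.p : ℤ) ∣ x0 ∧ (w.p : ℤ) ∣ y0) := fun h => by
    have h3 := cmu_V ok.m4 w (e := 1) (by simpa using h.1) (by simpa using h.2)
    rw [pow_one] at h3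
    have h4 := w.V.map_add_lt (h1.trans_lt (pow_lt_one₀ zero_le (b4a_V_p w).2 (by omega)))
      (h3.trans_lt (b4a_V_p w).2)
    rw [sub_add_cancel, hV] at h4
    exact h4.false
  obtain ⟨x, y, h3, h4, h5, h6, h7⟩ := cmu_crt w.prime (m + 2) (N := M * c)
    (fun h => (w.prime.dvd_mul.1 h).elim Mp hc) h2
  rw [Nat.cast_mul] at h6 h7
  obtain ⟨b, k, h8, h9⟩ := exists_idl_el ⟨ok.m4, ok.gt, one_ne_zero⟩ h3
  have a0 : a ≠ 0 := hκ.fx.1
  have e0 : elQ n x y ≠ 0 := fun e => cmu_el_ne ok h3 (by rw [← jC_elQ, e, map_zero])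
  have u1 : Fx (GK n) (elQ n x y / a) := fun g hg => by rw [map_div₀, fx_elQ x y g hg, ha g hg]
  have u2 : w.V (elQ n x y / a - 1) < w.V (2 ^ (m + 1)) := by
    rw [div_sub_one a0, map_div₀, hV, div_one,
      show elQ n x y - a = elQ n (x - x0) (y - y0) - (a - elQ n x0 y0) by
        simp only [elQ]; push_cast; ring]
    exact (w.V.map_sub_le (cmu_V ok.m4 w h4 h5) h1).trans_lt (cmu_two w m)
  obtain ⟨κ', hκ'⟩ := exists_kum m (div_ne_zero e0 a0) u1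
  have u3 := hκ.mul hκ'
  rw [mul_div_cancel₀ _ a0] at u3
  have u4 := hM x y b k _ h3 (dvd_of_mul_right_dvd h6) (dvd_of_mul_right_dvd h7) h8 h9 u3
  have k1 : Kum m (GK n ⊓ Dec w) a κ := hκ.mono inf_le_left
  have k2 : Kum m (GK n ⊓ Dec w) _ κ' := hκ'.mono inf_le_left
  rwa [idl_el ok h9 h8 (dvd_of_mul_left_dvd h7), cl_sc (isIv_one _) (cmu_el_ne ok h3), cl_one,
    map_one, toAdd_one, show cup m (fun g => (θ (rho n c g)).toAdd) (κ + κ') =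
      cup m (fun g => (θ (rho n c g)).toAdd) κ + cup m (fun g => (θ (rho n c g)).toAdd) κ' from
      funext₂ fun _ _ => mul_add _ _ _,
    F.add (op_GK n) (c2_cup s1 s2 k1.sm k1.coc) (c2_cup s1 s2 k2.sm k2.coc),
    F.cup_pow (op_GK n) s1 s2 k2 (exists_root inf_le_right m k2.fx.2 u2), add_zero] at u4

theorem cmu_sc (hn : n % 4 = 3) {l : ℕ} (hl : l.Prime) (hc : ¬ l ∣ c) (hx : (l : ℤ) ∣ x)
    (hy : (l : ℤ) ∣ y) (hy' : (c : ℤ) ∣ y) : el n x y ∈ sc l (ot (Oc n c)) := by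
  obtain ⟨s, rfl⟩ := hx
  obtain ⟨t, rfl⟩ := hy
  refine mem_sc.2 ⟨el n s t, (mem_Oc hn).2 ⟨s, t, ?_, rfl⟩, by simp only [el]; push_cast; ring⟩
  exact (Nat.isCoprime_iff_coprime.2 (hl.coprime_iff_not_dvd.2 hc).symm).dvd_of_dvd_mul_left hy'

/-- The inertia group at a prime of the conductor is as large as possible. -/
theorem ram_onto (F : CFT) (ok : Ok n c) (θ : Pc n (c * w.p) →* Multiplicative (ZMod (2 ^ m)))
    (h2 : w.p ≠ 2) (hJ : J(-n | w.p) = -1) (hc : ¬ w.p ∣ c)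
    (h : ∀ s ∈ Ine w, θ (rho n (c * w.p) s) = 1) {z : Pc n (c * w.p)}
    (hz : pj n c (c * w.p) z = 1) : θ z = 1 := by
  have ok' : Ok n (c * w.p) := ⟨ok.m4, ok.gt, mul_ne_zero ok.ne w.prime.ne_zero⟩
  have h3 := B4c_not_dvd h2 (a := -n) (by rw [hJ]; norm_num)
  have hw : ¬ w.p ∣ n := fun e => h3 ((dvd_neg.2 (Int.natCast_dvd_natCast.2 e)).mul_left _)
  obtain ⟨φ, hφ⟩ := exists_frob w
  have hφ' : φ ∉ GK n := B4c_notMem.2 (Units.ext ((chi_frob h3 hφ).trans hJ))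
  obtain ⟨s1, s2⟩ := cmu_hom ok' θ w
  obtain ⟨M, -, Mp, hM⟩ := recip_el F ok' θ hw hφ.1 hφ'
  obtain ⟨u, u1, u2, rfl⟩ := ker_Iu ok w.prime hz
  obtain ⟨x0, y0, u3, rfl⟩ := (mem_Oc ok.m4).1 u1
  obtain ⟨x, y, h4, h5, h6, h7, h8⟩ := cmu_crt (x := x0 + y0) (y := -y0) w.prime 1 (N := M * c)
    (fun h => (w.prime.dvd_mul.1 h).elim Mp hc) fun e => u2 (cmu_sc ok.m4 w.prime hc
      (by simpa using dvd_add e.1 e.2) (dvd_neg.1 e.2) u3)
  rw [Nat.cast_mul] at h7 h8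
  rw [pow_one] at h5 h6
  obtain ⟨b, k, h9, h10⟩ := exists_idl_el ⟨ok.m4, ok.gt, one_ne_zero⟩ h4
  have v1 : w.V (elQ n x y) = 1 := V_elQ_inert ok.m4 hw hφ.1 hφ' fun e =>
    (Nat.prime_iff_prime_int.1 w.prime).not_isUnit (h4.isUnit_of_dvd' e.1 e.2)
  obtain ⟨κ, hκ⟩ := exists_kum m (a := elQ n x y) (fun e => by simp [e] at v1) (fx_elQ x y)
  have v2 := hM x y b k _ h4 (dvd_of_mul_right_dvd h7) (dvd_of_mul_right_dvd h8) h9 h10 hκ
  have v3 : el n (x + y) (-y) - el n x0 y0 ∈ sc w.p (ot (Oc n c)) := by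
    rw [show el n (x + y) (-y) - el n x0 y0 = el n (x - (x0 + y0) + (y - -y0)) (-(y - -y0)) by
      simp only [el]; push_cast; ring]
    exact cmu_sc ok.m4 w.prime hc (dvd_add h5 h6) (dvd_neg.2 h6)
      (dvd_neg.2 (dvd_sub (dvd_of_mul_left_dvd h8) (dvd_neg.2 u3)))
  rw [idl_el_Iu ok h10 h9 (dvd_of_mul_left_dvd h8), Iu_congr v3,
    cl_sc (isIv_Iu ok w.prime h2 hJ hc u1 u2) (cmu_el_ne ok h4),
    F.unit (op_GK n) s1 s2 (fun σ hσ => toAdd_eq_zero.2 (h σ hσ.2)) (hκ.mono inf_le_left) v1] at v2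
  exact toAdd_eq_zero.1 v2.symm

end Pool.Agent.Lib.MP_696deb_nt.B2.CM
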