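import Pool.Agent.Lib.MP_696deb_nt.B2.CLa

/-! Cocycles that split on a subgroup: transfer. -/

set_option autoImplicit false

open scoped NNReal Classical
open Filter Topology Finset

namespace Pool.Agent.Lib.MP_696deb_nt.B2

variable {G U : Subgroup Gam} {γ : Gam → Gam → Qbar}

theorem clb_rep (P : Subgroup Gam) : ∃ t : Gam → Gam, (∀ g, (t g)⁻¹ * g ∈ P) ∧
    ∀ g, ∀ p ∈ P, t (g * p) = t g :=
  ⟨fun g => (g : Gam ⧸ P).out, fun _ => QuotientGroup.eq.1 (QuotientGroup.out_eq' _),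
    fun g _ hp => congrArg Quotient.out (QuotientGroup.mk_mul_of_mem g hp)⟩

/-- A cocycle that splits on a relatively open subgroup can be normalised on the right. -/
theorem norm_right (hU : Op U) (h : CQ G γ) (hs : Coh (U ⊓ G) γ 1) :
    ∃ γ', Coh G γ γ' ∧ ∀ g ∈ G, ∀ p ∈ U ⊓ G, γ' g p = 1 := by
  obtain ⟨t, ht1, ht2⟩ := clb_rep (U ⊓ G)
  obtain ⟨b, ⟨V, hV, -, hb1⟩, hb0, hb⟩ := hs
  obtain ⟨⟨W, hW, -, hγ1⟩, hγ0, hγ⟩ := h
  have htG : ∀ g ∈ G, t g ∈ G := fun g hg => by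
    have := G.mul_mem hg (G.inv_mem (ht1 g).2)
    simpa using this
  set b' : Gam → Qbar := fun g => if g ∈ G then (if g ∈ U ⊓ G then b g else
    t g (b ((t g)⁻¹ * g)) / γ (t g) ((t g)⁻¹ * g)) else 1 with hb'
  have h0 : ∀ g, b' g ≠ 0 := fun g => by
    simp only [hb']
    split_ifs with h1 h2
    · exact hb0 g
    · exact div_ne_zero ((map_ne_zero _).2 (hb0 _)) (hγ0 _ (htG g h1) _ (ht1 g).2)
    · exact one_ne_zero
  have hiff : ∀ g, ∀ p ∈ U ⊓ G, g * p ∈ U ⊓ G ↔ g ∈ U ⊓ G := fun g p hp =>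
    Subgroup.mul_mem_cancel_right _ hp
  refine ⟨fun g k => γ g k * b' (g * k) / (b' g * g (b' k)), ⟨b', ?_, h0, fun g _ k _ => ?_⟩,
    fun g hg p hp => ?_⟩
  · refine Sm.of_open (U ⊓ V ⊓ W) ((hU.inf hV).inf hW) fun g hg u hu => ?_
    have hu1 : u ∈ U ⊓ G := ⟨hu.2.1.1, hu.1⟩
    simp only [hb', if_pos hg, if_pos (G.mul_mem hg hu.1), hiff g u hu1, ht2 g u hu1]
    split_ifs with h2
    · exact (hb1 g h2 _ (Subgroup.mul_mem _ h2 hu1) (by simpa using hu.2.1.2)).symm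
    · have e : (t g)⁻¹ * (g * u) ∈ U ⊓ G := by
        rw [← mul_assoc]; exact Subgroup.mul_mem _ (ht1 g) hu1
      rw [hb1 _ (ht1 g) _ e (by simpa [mul_assoc] using hu.2.1.2),
        hγ1 _ (htG g hg) _ (htG g hg) _ (ht1 g).2 _ e.2 (by simp)
          (by simpa [mul_assoc] using hu.2.2)]
  · rw [div_mul_cancel₀ _ (mul_ne_zero (h0 g) ((map_ne_zero _).2 (h0 k)))]
  · rw [div_eq_one_iff_eq (mul_ne_zero (h0 g) ((map_ne_zero _).2 (h0 p)))]
    have hpG : p ∈ G := hp.2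
    simp only [hb', if_pos hg, if_pos (G.mul_mem hg hpG), hiff g p hp, ht2 g p hp, if_pos hpG,
      if_pos hp]
    split_ifs with h2
    · simpa using hb g h2 p hp
    · have e1 := congrArg (t g) (hb _ (ht1 g) p hp)
      have e2 := hγ _ (htG g hg) _ (ht1 g).2 p hp.2
      have e3 : t g (((t g)⁻¹ * g) (b p)) = g (b p) := by
        rw [← AlgEquiv.mul_apply, mul_inv_cancel_left]
      simp only [Pi.one_apply, one_mul, map_mul, e3] at e1
      rw [mul_inv_cancel_left] at e2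
      have n1 := hγ0 _ (htG g hg) _ (ht1 g).2
      have n2 := hγ0 _ (htG g hg) _ (G.mul_mem (ht1 g).2 hp.2)
      rw [← mul_assoc]
      field_simp
      linear_combination γ (t g) ((t g)⁻¹ * g * p) * e1 - t g (b ((t g)⁻¹ * g * p)) * e2

/-- Transfer. -/
theorem coh_pow_index (hU : Op U) (h : CQ G γ) (hs : Coh (U ⊓ G) γ 1) :
    Coh G (γ ^ (U ⊓ G).relIndex G) 1 := by
  obtain ⟨γ', hc, hn⟩ := norm_right hU h hs
  refine (hc.pow _).trans ?_
  obtain ⟨⟨W, hW, -, hγ1⟩, hγ0, hγ⟩ := h.of_coh hc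
  by_cases h0 : (U ⊓ G).relIndex G = 0
  · rw [h0, pow_zero]; exact Coh.refl _ _
  have hfin : Finite (G ⧸ (U ⊓ G).subgroupOf G) := Subgroup.index_ne_zero_iff_finite.1 h0
  have := Fintype.ofFinite (G ⧸ (U ⊓ G).subgroupOf G)
  have hr : ∀ g ∈ G, ∀ k ∈ G, ∀ p ∈ U ⊓ G, γ' g (k * p) = γ' g k := fun g hg k hk p hp => by
    have e := hγ g hg k hk p hp.2
    rw [hn k hk p hp, hn _ (G.mul_mem hg hk) p hp, map_one, one_mul, one_mul] at e
    exact e
  set B : Gam → Qbar := fun g => if g ∈ G then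
    ∏ x : G ⧸ (U ⊓ G).subgroupOf G, γ' g (x.out : G) else 1 with hB
  refine ⟨B, ?_, fun g => ?_, fun g hg k hk => ?_⟩
  · refine b1a_open W hW fun g hg k hk e => ?_
    simp only [hB, if_pos hg, if_pos hk]
    exact prod_congr rfl fun x _ => hγ1 g hg k hk _ x.out.2 _ x.out.2 e (by simp)
  · simp only [hB]
    split_ifs with hg
    · exact prod_ne_zero_iff.2 fun x _ => hγ0 g hg _ x.out.2
    · exact one_ne_zero
  · simp only [hB, if_pos hg, if_pos hk, if_pos (G.mul_mem hg hk), Pi.pow_apply, Pi.one_apply,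
      one_mul, map_prod]
    have e1 : ∏ x : G ⧸ (U ⊓ G).subgroupOf G, γ' g (x.out : G) =
        ∏ x : G ⧸ (U ⊓ G).subgroupOf G, γ' g (k * (x.out : G)) := by
      rw [← Equiv.prod_comp (MulAction.toPerm (⟨k, hk⟩ : G))]
      refine prod_congr rfl fun x _ => ?_
      have e2 : (((⟨k, hk⟩ : G) * x.out : G) : G ⧸ (U ⊓ G).subgroupOf G) =
          (((⟨k, hk⟩ : G) • x).out : G) := by
        rw [QuotientGroup.out_eq']
        exact MulAction.Quotient.mk_smul_out _ (⟨k, hk⟩ : G) x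
      have e3 := Subgroup.mem_subgroupOf.1 (QuotientGroup.eq.1 e2)
      rw [← hr g hg _ (G.mul_mem hk x.out.2) _ e3]
      congr 1
      simp [mul_assoc]
    have e4 : (U ⊓ G).relIndex G = #(univ : Finset (G ⧸ (U ⊓ G).subgroupOf G)) := by
      rw [card_univ, ← Nat.card_eq_fintype_card]; rfl
    rw [e1, e4, ← prod_const, ← prod_mul_distrib, ← prod_mul_distrib]
    refine prod_congr rfl fun x _ => ?_
    linear_combination -hγ g hg k hk _ x.out.2

theorem coh_of_odd (hU : Op U) (h : CQ G γ) (hs : Coh (U ⊓ G) γ 1)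
    (ho : Odd ((U ⊓ G).relIndex G)) {t : ℕ} (ht : Coh G (γ ^ 2 ^ t) 1) : Coh G γ 1 := by
  have h1 := coh_pow_index hU h hs
  set n := (U ⊓ G).relIndex G
  have hc : Nat.Coprime n (2 ^ (t + 1)) := (Nat.coprime_two_right.2 ho).pow_right _
  obtain ⟨u, -, hu⟩ := Nat.exists_mul_mod_eq_one_of_coprime hc
    (Nat.one_lt_two_pow (Nat.succ_ne_zero t))
  have e : n * u = 1 + 2 ^ t * (2 * (n * u / 2 ^ (t + 1))) := by
    have := Nat.mod_add_div (n * u) (2 ^ (t + 1))
    rw [hu] at this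
    rw [← mul_assoc, ← pow_succ]
    exact this.symm
  have h2 := h1.pow u
  rw [← pow_mul, e, one_pow, pow_add, pow_one, pow_mul] at h2
  have h3 := (Coh.refl G γ).mul (ht.pow (2 * (n * u / 2 ^ (t + 1))))
  rw [one_pow, mul_one] at h3
  exact h3.symm.trans h2

/-- A smooth cocycle splits on a relatively open normal subgroup. -/
theorem CQ.exists_split (h : CQ G γ) :
    ∃ U : Subgroup Gam, Op U ∧ U.Normal ∧ Coh (U ⊓ G) γ 1 := by
  obtain ⟨⟨W, hW, hWn, hγ1⟩, hγ0, -⟩ := h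
  obtain ⟨V, hV, hVn, hv⟩ := sm_apply (H := G) (γ 1 1)
  refine ⟨W ⊓ V, hW.inf hV, inferInstance, fun _ => γ 1 1, Sm.const _,
    fun _ => hγ0 1 G.one_mem 1 G.one_mem, fun g hg k hk => ?_⟩
  rw [← hγ1 1 G.one_mem g hg.2 1 G.one_mem k hk.2 (by simpa using hg.1.1) (by simpa using hk.1.1)]
  have e : (1 : Gam) (γ 1 1) = g (γ 1 1) := hv 1 G.one_mem g hg.2 (by simpa using hg.1.2)
  simp only [Pi.one_apply, one_mul, ← e, AlgEquiv.one_apply]

theorem clb_half {X : Type*} [Group X] (S : Subgroup X) [Finite S] {k : ℕ}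
    (h : Nat.card S = 2 ^ (k + 1)) : ∃ T : Subgroup X, T ≤ S ∧ Nat.card T = 2 ^ k ∧
      T.relIndex S = 2 := by
  obtain ⟨K, hK⟩ := Sylow.exists_subgroup_card_pow_prime (G := S) 2 (n := k)
    (by rw [h]; exact pow_dvd_pow 2 k.le_succ)
  refine ⟨K.map S.subtype, Subgroup.map_subtype_le K, ?_, ?_⟩
  · rw [Subgroup.card_map_of_injective S.subtype_injective, hK]
  · have e : (K.map S.subtype).subgroupOf S = K :=
      Subgroup.comap_map_eq_self_of_injective S.subtype_injective K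
    have e1 := K.index_mul_card
    rw [hK, h, pow_succ'] at e1
    rw [Subgroup.relIndex, e]
    exact Nat.eq_of_mul_eq_mul_right (by positivity) e1

theorem clb_rel {X : Type*} [Group X] (π : Gam →* X) (D K : Subgroup Gam) (T : Subgroup X)
    (hK : K ≤ D) : (T.comap π ⊓ D).relIndex K = T.relIndex (K.map π) := by
  rw [← Subgroup.relIndex_comap, ← Subgroup.inf_relIndex_right (T.comap π ⊓ D), inf_assoc,
    inf_eq_right.2 hK, Subgroup.inf_relIndex_right]

set_option linter.unusedVariables false in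
/-- Descent along a Sylow subgroup and a chain of subgroups of index two. -/
theorem devissage (D : Subgroup Gam) (Q : Subgroup Gam → Prop) {H U : Subgroup Gam} (hH : Op H)
    (hU : Op U) (hn : U.Normal) (h0 : ∀ H' : Subgroup Gam, Op H' → H' ≤ H → H' ⊓ D ≤ U → Q H')
    (h2 : ∀ H' H'' : Subgroup Gam, Op H'' → H'' ≤ H' → H' ≤ H →
      (H'' ⊓ D).relIndex (H' ⊓ D) = 2 → Q H'' → Q H') :
    ∃ H' : Subgroup Gam, Op H' ∧ H' ≤ H ∧ Odd ((H' ⊓ D).relIndex (H ⊓ D)) ∧ Q H' := by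
  obtain ⟨N, hN, hNn, hNle⟩ := exists_normal_le (hH.inf hU)
  have : Finite (Gam ⧸ N) := N.quotient_finite_of_isOpen hN
  set π := QuotientGroup.mk' N with hπ
  set A := (H ⊓ D).map π with hA
  have hker : ∀ S : Subgroup (Gam ⧸ N), N ≤ S.comap π := fun S g hg => by
    rw [Subgroup.mem_comap, hπ, QuotientGroup.mk'_apply, (QuotientGroup.eq_one_iff g).2 hg]
    exact S.one_mem
  have hop : ∀ S : Subgroup (Gam ⧸ N), Op (S.comap π) := fun S =>
    Subgroup.isOpen_mono (hker S) hN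
  have hle : ∀ S ≤ A, S.comap π ≤ H := fun S hS g hg => by
    obtain ⟨a, ha, e⟩ := hS hg
    have e1 : a⁻¹ * g ∈ N := QuotientGroup.eq.1 e
    simpa using H.mul_mem ha.1 (hNle e1).1
  have hmap : ∀ S ≤ A, (S.comap π ⊓ D).map π = S := fun S hS => by
    refine le_antisymm ((Subgroup.map_mono inf_le_left).trans (Subgroup.map_comap_le _ _))
      fun x hx => ?_
    obtain ⟨a, ha, rfl⟩ := hS hx
    exact ⟨a, ⟨hx, ha.2⟩, rfl⟩
  have key : ∀ k : ℕ, ∀ S ≤ A, Nat.card S = 2 ^ k → Q (S.comap π) := by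
    intro k
    induction k with
    | zero =>
      intro S hS hc
      refine h0 _ (hop S) (hle S hS) fun g hg => ?_
      have e : π g ∈ S := hg.1
      rw [Subgroup.card_eq_one.1 hc, Subgroup.mem_bot] at e
      exact (hNle ((QuotientGroup.eq_one_iff g).1 e)).2
    | succ k ih =>
      intro S hS hc
      obtain ⟨T, h1, h3, h4⟩ := clb_half S hc
      refine h2 _ _ (hop T) (Subgroup.comap_mono h1) (hle S hS) ?_ (ih T (h1.trans hS) h3)
      rw [clb_rel π D _ T inf_le_right, hmap S hS, h4]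
  obtain ⟨S⟩ : Nonempty (Sylow 2 A) := inferInstance
  obtain ⟨k, hk⟩ := S.isPGroup'.exists_card_eq
  have hS : (S : Subgroup A).map A.subtype ≤ A := Subgroup.map_subtype_le _
  refine ⟨_, hop _, hle _ hS, ?_, key k _ hS ?_⟩
  · have e : ((S : Subgroup A).map A.subtype).subgroupOf A = S :=
      Subgroup.comap_map_eq_self_of_injective A.subtype_injective _
    rw [clb_rel π D _ _ inf_le_right, ← hA, Subgroup.relIndex, e, ← Nat.not_even_iff_odd,
      even_iff_two_dvd]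
    exact S.not_dvd_index
  · rw [Subgroup.card_map_of_injective A.subtype_injective, hk]

/-- The character of a subgroup of index two. -/
theorem exists_quad {P : Subgroup Gam} (hU : Op U) (hP : P = U ⊓ G) (h : P.relIndex G = 2) :
    ∃ (χ : Gam → ZMod 2) (s : Gam), Sm G χ ∧ IsHom G χ ∧ s ∈ G ∧ χ s = 1 ∧
      ∀ g ∈ G, (χ g = 0 ↔ g ∈ P) := by
  have hi : (P.subgroupOf G).index = 2 := h
  have hs : ∃ s ∈ G, s ∉ P := by
    by_contra hc
    push Not at hc
    rw [Subgroup.subgroupOf_eq_top.2 hc, Subgroup.index_top] at hi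
    exact absurd hi (by norm_num)
  obtain ⟨s, hs1, hs2⟩ := hs
  refine ⟨fun g => if g ∈ P then 0 else 1, s, ?_, fun g hg k hk => ?_, hs1, if_neg hs2,
    fun g _ => ?_⟩
  · refine Sm.of_open U hU fun g _ u hu => ?_
    have hu1 : u ∈ P := hP ▸ ⟨hu.2, hu.1⟩
    simp only [Subgroup.mul_mem_cancel_right _ hu1]
  · have e : g * k ∈ P ↔ (g ∈ P ↔ k ∈ P) :=
      Subgroup.mul_mem_iff_of_index_two hi (a := ⟨g, hg⟩) (b := ⟨k, hk⟩)
    by_cases h1 : g ∈ P <;> by_cases h2 : k ∈ P <;> simp [e, h1, h2]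
    rfl
  · by_cases h1 : g ∈ P <;> simp [h1]

end Pool.Agent.Lib.MP_696deb_nt.B2
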