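import Pool.Agent.Lib.MP_696deb_nt.B2.CMb

/-! Composition of ideals. -/

set_option autoImplicit false

open scoped Classical

namespace Pool.Agent.Lib.MP_696deb_nt.B2.CM

variable {n c l : ℕ} {m m' b b' k x y : ℤ}

theorem cmc_be_add (n c : ℕ) (b e : ℤ) : be n c (b + 2 * e) = be n c b + e := by
  unfold be; push_cast; ring

theorem cmc_basis {u v s t : ℤ} (h : u * t - v * s = 1) (a d : ℂ) :
    sp2 (u * a + v * d) (s * a + t * d) = sp2 a d := by
  have h' : (u : ℂ) * t - v * s = 1 := by exact_mod_cast h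
  refine le_antisymm (sp2_le.2 ⟨mem_sp2.2 ⟨u, v, rfl⟩, mem_sp2.2 ⟨s, t, rfl⟩⟩)
    (sp2_le.2 ⟨mem_sp2.2 ⟨t, -v, ?_⟩, mem_sp2.2 ⟨-s, u, ?_⟩⟩)
  · push_cast; linear_combination (-a) * h'
  · push_cast; linear_combination (-d) * h'

theorem idl_congr (h : 2 * m ∣ b - b') : idl n c m b = idl n c m b' := by
  obtain ⟨t, ht⟩ := h
  have e : b = b' + 2 * (t * m) := by linear_combination ht
  rw [e, idl, idl, cmc_be_add,
    ← cmc_basis (u := 1) (v := 0) (s := t) (t := 1) (by ring) m (be n c b')]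
  congr 1 <;> push_cast <;> ring

theorem idl_mul (h : b ^ 2 + n * c ^ 2 = 4 * (m * m') * k)
    (hp : ∃ x y z : ℤ, x * m + y * m' + z * b = 1) :
    idl n c (m * m') b = idl n c m b * idl n c m' b := by
  obtain ⟨x, y, z, hp⟩ := hp
  have hp' : (x : ℂ) * m + y * m' + z * b = 1 := by exact_mod_cast hp
  have hs := be_sq (n := n) (c := c) (b := b) (N := m * m' * k) (by rw [h]; ring)
  push_cast at hs
  unfold idl
  refine le_antisymm (sp2_le.2 ⟨?_, ?_⟩) (sp2_mul_le.2 ⟨?_, ?_, ?_, ?_⟩)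
  · push_cast
    exact Submodule.mul_mem_mul (left_mem_sp2 _ _) (left_mem_sp2 _ _)
  · have e : be n c b = x * ((m : ℂ) * be n c b) + y * (be n c b * m') +
        z * (be n c b * be n c b) + ((z * k : ℤ) : ℂ) * ((m : ℂ) * m') := by
      push_cast
      linear_combination (-be n c b) * hp' - z * hs
    have h1 := int_mul_mem (Submodule.mul_mem_mul (left_mem_sp2 (m : ℂ) (be n c b))
      (right_mem_sp2 (m' : ℂ) (be n c b))) x
    have h2 := int_mul_mem (Submodule.mul_mem_mul (right_mem_sp2 (m : ℂ) (be n c b))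
      (left_mem_sp2 (m' : ℂ) (be n c b))) y
    have h3 := int_mul_mem (Submodule.mul_mem_mul (right_mem_sp2 (m : ℂ) (be n c b))
      (right_mem_sp2 (m' : ℂ) (be n c b))) z
    have h4 := int_mul_mem (Submodule.mul_mem_mul (left_mem_sp2 (m : ℂ) (be n c b))
      (left_mem_sp2 (m' : ℂ) (be n c b))) (z * k)
    have h5 := add_mem (add_mem (add_mem h1 h2) h3) h4
    rwa [← e] at h5
  · exact mem_sp2.2 ⟨1, 0, by push_cast; ring⟩
  · exact mem_sp2.2 ⟨0, m, by push_cast; ring⟩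
  · exact mem_sp2.2 ⟨0, m', by push_cast; ring⟩
  · exact mem_sp2.2 ⟨-k, b, by push_cast; linear_combination hs⟩

theorem cmc_isIv (hn : n % 4 = 3) (h : b ^ 2 + n * c ^ 2 = 4 * m * k) (hm : m ≠ 0)
    (hp : IsCoprime m b) : IsIv (Oc n c) (idl n c m b) := by
  obtain ⟨u, v, e⟩ := hp
  exact isIv_idl hn h hm ⟨u, v, 0, by linear_combination e⟩

theorem cmc_prod (hn : n % 4 = 3) (m : ℕ) : ∀ k : ℤ, m ≠ 0 → b ^ 2 + n * c ^ 2 = 4 * m * k →
    IsCoprime (m : ℤ) b → cl (Oc n c) (idl n c m b) =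
      m.factorization.prod fun p e => cl (Oc n c) (idl n c p b) ^ e := by
  induction m using induction_on_primes with
  | zero => intro _ h; exact absurd rfl h
  | one =>
    intro k _ h _
    have := ot_Oc (c := c) hn (two_dvd_sub (N := k) hn (by rw [h]; push_cast; ring))
    rw [Nat.factorization_one, Finsupp.prod_zero_index, idl]
    push_cast
    rw [← this, cl_one]
  | prime_mul p a hp ih =>
    intro k hm h hc
    have ha : a ≠ 0 := fun e => hm (by rw [e, mul_zero])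
    push_cast at h hc ⊢
    have c1 : IsCoprime (p : ℤ) b := hc.of_mul_left_left
    have c2 : IsCoprime (a : ℤ) b := hc.of_mul_left_right
    have h1 : b ^ 2 + n * c ^ 2 = 4 * p * (a * k) := by rw [h]; ring
    have h2 : b ^ 2 + n * c ^ 2 = 4 * a * (p * k) := by rw [h]; ring
    obtain ⟨u, v, e⟩ := c1
    rw [idl_mul h ⟨u, 0, v, by linear_combination e⟩,
      cl_mul (cmc_isIv hn h1 (by exact_mod_cast hp.ne_zero) ⟨u, v, e⟩)
        (cmc_isIv hn h2 (by exact_mod_cast ha) c2), ih _ ha h2 c2,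
      Nat.factorization_mul hp.ne_zero ha,
      Finsupp.prod_add_index' (fun _ => pow_zero _) (fun _ _ _ => pow_add _ _ _),
      hp.factorization, Finsupp.prod_single_index (h := fun x : ℕ => HPow.hPow (cl (Oc n c) (idl n c x b))) (pow_zero _)]
    exact congrArg (· * _) (pow_one _).symm

theorem cl_idl_prod (hn : n % 4 = 3) {m : ℕ} (hm : m ≠ 0) (h : b ^ 2 + n * c ^ 2 = 4 * m * k)
    (hp : IsCoprime (m : ℤ) b) : cl (Oc n c) (idl n c m b) =
      ∏ p ∈ m.primeFactors, cl (Oc n c) (idl n c p b) ^ m.factorization p := by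
  rw [cmc_prod hn m k hm h hp, Finsupp.prod, Nat.support_factorization]

theorem idl_ext (hn : n % 4 = 3) (h : b ^ 2 + n * c ^ 2 = 4 * m * k) (hl : IsCoprime m l) :
    idl n (c * l) m (b * l) * ot (Oc n c) = idl n c m b := by
  have hb := two_dvd_sub (N := m * k) hn (by rw [h]; ring)
  refine le_antisymm ?_ ?_
  · rw [← idl_mul_ot hn h]
    refine mul_le_mul_left ?_ _
    rw [idl, idl, be_mul]
    exact sp2_le.2 ⟨left_mem_sp2 _ _, mem_sp2.2 ⟨0, l, by push_cast; ring⟩⟩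
  · obtain ⟨u, v, e⟩ := hl
    have e' : (u : ℂ) * m + v * l = 1 := by exact_mod_cast e
    rw [ot_Oc hn hb, idl, idl, be_mul]
    refine sp2_le.2 ⟨?_, ?_⟩
    · simpa using Submodule.mul_mem_mul (left_mem_sp2 (m : ℂ) (l * be n c b))
        (left_mem_sp2 1 (be n c b))
    · have h1 := int_mul_mem (Submodule.mul_mem_mul (left_mem_sp2 (m : ℂ) (l * be n c b))
        (right_mem_sp2 1 (be n c b))) u
      have h2 := int_mul_mem (Submodule.mul_mem_mul (right_mem_sp2 (m : ℂ) (l * be n c b))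
        (left_mem_sp2 1 (be n c b))) v
      have h3 := add_mem h1 h2
      have e2 : (u : ℂ) * (m * be n c b) + v * (l * be n c b * 1) = be n c b := by
        linear_combination (be n c b) * e'
      rwa [e2] at h3

/-- The product of the primes of `M` with a property. -/
noncomputable def cmc_pp (M : ℤ) (P : ℤ → Prop) : ℤ :=
  ∏ q ∈ M.natAbs.primeFactors.filter (fun q : ℕ => P q), (q : ℤ)

theorem cmc_dvd_pp {M z : ℤ} (hM : M ≠ 0) (P : ℤ → Prop) (hz : Prime z) :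
    z ∣ cmc_pp M P ↔ z ∣ M ∧ P z.natAbs := by
  have hq : z.natAbs.Prime := Int.prime_iff_natAbs_prime.1 hz
  rw [cmc_pp, hz.dvd_finsetProd_iff]
  constructor
  · rintro ⟨q, hq1, hq2⟩
    obtain ⟨hq3, hq4⟩ := Finset.mem_filter.1 hq1
    obtain ⟨hq5, hq6, -⟩ := Nat.mem_primeFactors.1 hq3
    have e : z.natAbs = q :=
      (Nat.prime_dvd_prime_iff_eq hq hq5).1 (by simpa using Int.natAbs_dvd_natAbs.2 hq2)
    exact ⟨hq2.trans (Int.natCast_dvd.2 hq6), e ▸ hq4⟩
  · rintro ⟨h1, h2⟩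
    exact ⟨z.natAbs, Finset.mem_filter.2 ⟨Nat.mem_primeFactors.2
      ⟨hq, Int.natAbs_dvd_natAbs.2 h1, Int.natAbs_ne_zero.2 hM⟩, h2⟩, Int.dvd_natAbs.2 dvd_rfl⟩

theorem cmc_pp_ne (M : ℤ) (P : ℤ → Prop) : cmc_pp M P ≠ 0 :=
  Finset.prod_ne_zero_iff.2 fun q hq => by
    exact_mod_cast (Nat.prime_of_mem_primeFactors (Finset.mem_filter.1 hq).1).ne_zero

/-- A primitive form takes values prime to a given integer. -/
theorem cmc_form {M : ℤ} (hM : M ≠ 0) (hp : ∃ x y z : ℤ, x * m + y * b + z * k = 1) :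
    ∃ u v : ℤ, IsCoprime u v ∧ IsCoprime (m * u ^ 2 + b * u * v + k * v ^ 2) M := by
  obtain ⟨x, y, z, hp⟩ := hp
  have hu := fun p (h : Prime p) => cmc_dvd_pp hM (fun q => q ∣ m ∧ ¬ q ∣ k) h
  have hv := fun p (h : Prime p) => cmc_dvd_pp hM (fun q => ¬ q ∣ m) h
  simp only [Int.natAbs_dvd] at hu hv
  refine ⟨cmc_pp M fun q => q ∣ m ∧ ¬ q ∣ k, cmc_pp M fun q => ¬ q ∣ m,
    isCoprime_of_prime_dvd (fun h => cmc_pp_ne _ _ h.1) fun p h h1 h2 =>
      ((hv p h).1 h2).2 ((hu p h).1 h1).2.1,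
    isCoprime_of_prime_dvd (fun h => hM h.2) fun p h h1 h2 => ?_⟩
  generalize cmc_pp M (fun q => q ∣ m ∧ ¬ q ∣ k) = u at hu h1
  generalize cmc_pp M (fun q => ¬ q ∣ m) = v at hv h1
  have hu := hu p h
  have hv := hv p h
  by_cases a1 : p ∣ m
  · have nv : ¬ p ∣ v := fun e => (hv.1 e).2 a1
    by_cases a2 : p ∣ k
    · have nu : ¬ p ∣ u := fun e => (hu.1 e).2.2 a2
      have d : p ∣ b * u * v := by
        have := dvd_sub (dvd_sub h1 (a1.mul_right (u ^ 2))) (a2.mul_right (v ^ 2))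
        rwa [show m * u ^ 2 + b * u * v + k * v ^ 2 - m * u ^ 2 - k * v ^ 2 = b * u * v by ring]
          at this
      rcases h.dvd_or_dvd d with d | d
      · rcases h.dvd_or_dvd d with d | d
        · exact h.not_dvd_one (hp ▸ dvd_add (dvd_add (a1.mul_left x) (d.mul_left y))
            (a2.mul_left z))
        · exact nu d
      · exact nv d
    · have du : p ∣ u := hu.2 ⟨h2, a1, a2⟩
      have d : p ∣ k * v ^ 2 := by
        have := dvd_sub (dvd_sub h1 (a1.mul_right (u ^ 2))) ((du.mul_left b).mul_right v)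
        rwa [show m * u ^ 2 + b * u * v + k * v ^ 2 - m * u ^ 2 - b * u * v = k * v ^ 2 by ring]
          at this
      rcases h.dvd_or_dvd d with d | d
      · exact a2 d
      · exact nv (h.dvd_of_dvd_pow d)
  · have dv : p ∣ v := hv.2 ⟨h2, a1⟩
    have nu : ¬ p ∣ u := fun e => a1 (hu.1 e).2.1
    have d : p ∣ m * u ^ 2 := by
      have := dvd_sub (dvd_sub h1 (dv.mul_left (b * u))) (dv.mul_left (k * v))
      rwa [show m * u ^ 2 + b * u * v + k * v ^ 2 - b * u * v - k * v * v = m * u ^ 2 by ring]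
        at this
    rcases h.dvd_or_dvd d with d | d
    · exact a1 d
    · exact nu (h.dvd_of_dvd_pow d)

/-- Every class contains an ideal of norm prime to a given integer. -/
theorem exists_idl_coprime (h : Ok n c) (a : Pc n c) {M : ℤ} (hM : M ≠ 0) :
    ∃ (m : ℕ) (b k : ℤ), m ≠ 0 ∧ b ^ 2 + n * c ^ 2 = 4 * m * k ∧ IsCoprime (m : ℤ) M ∧
      IsCoprime (m : ℤ) b ∧ a = cl (Oc n c) (idl n c m b) := by
  obtain ⟨I, hI, rfl⟩ := cl_surj a
  obtain ⟨α, m, b, k, hα, hm, hb, hp, rfl⟩ := hI.exists_idl h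
  have n3 : (3 : ℤ) < n := by exact_mod_cast h.gt
  have c0 : (c : ℤ) ≠ 0 := by exact_mod_cast h.ne
  have hD : (n : ℤ) * c ^ 2 ≠ 0 := mul_ne_zero (by omega) (pow_ne_zero _ c0)
  obtain ⟨u, v, huv, hf⟩ := cmc_form (M := M * (n * c ^ 2)) (mul_ne_zero hM hD) hp
  obtain ⟨t, s', hts⟩ := huv
  obtain ⟨s, rfl⟩ : ∃ s, s' = -s := ⟨-s', by ring⟩
  have hd : u * t - v * s = 1 := by linear_combination hts
  set f := m * u ^ 2 + b * u * v + k * v ^ 2 with hfd
  set e := (u * m + v * b) * s + v * t * k with he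
  have f0 : f ≠ 0 := by
    intro e0
    have := hf.of_mul_right_right.of_mul_right_left
    rw [e0, isCoprime_zero_left, Int.isUnit_iff] at this
    omega
  have f1 : 0 ≤ f := by
    have e1 : 4 * m * f = (2 * m * u + b * v) ^ 2 + n * c ^ 2 * v ^ 2 := by
      rw [hfd]; linear_combination (-v ^ 2) * hb
    have e2 : 0 ≤ 4 * m * f := by rw [e1]; positivity
    exact nonneg_of_mul_nonneg_right e2 (by omega)
  have hb' : (b + 2 * e) ^ 2 + n * c ^ 2 = 4 * f * (m * s ^ 2 + b * s * t + k * t ^ 2) := by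
    rw [hfd, he]
    linear_combination hb - 4 * (m * k * (u * t - v * s + 1) +
      b * ((u * m + v * b) * s + v * t * k)) * hd
  have hc : IsCoprime f (b + 2 * e) := by
    have h1 := hf.of_mul_right_right
    have e3 : (n : ℤ) * c ^ 2 = -(b + 2 * e) ^ 2 + f * (4 * (m * s ^ 2 + b * s * t + k * t ^ 2)) := by
      linear_combination hb'
    rw [e3, IsCoprime.add_mul_left_right_iff, IsCoprime.neg_right_iff] at h1
    exact (IsCoprime.pow_right_iff (by norm_num)).1 h1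
  obtain ⟨F, hF⟩ := Int.eq_ofNat_of_zero_le f1
  refine ⟨F, b + 2 * e, m * s ^ 2 + b * s * t + k * t ^ 2, fun e0 => f0 (by rw [hF, e0]; rfl),
    hF ▸ hb', hF ▸ hf.of_mul_right_left, hF ▸ hc, ?_⟩
  rw [← hF]
  have i1 := isIv_idl h.m4 hb hm.ne' hp
  have i2 := cmc_isIv h.m4 hb' f0 hc
  have hs := be_sq (n := n) (c := c) (b := b) (N := m * k) (by rw [hb]; ring)
  have hd' : (u : ℂ) * t - v * s = 1 := by exact_mod_cast hd
  push_cast at hs
  have z1 : ((u : ℂ) * m + v * (b - be n c b)) * (u * m + v * be n c b) = m * f := by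
    rw [hfd]; push_cast; linear_combination (-(v : ℂ) ^ 2) * hs
  have z2 : ((u : ℂ) * m + v * (b - be n c b)) * (s * m + t * be n c b) =
      m * be n c (b + 2 * e) := by
    rw [cmc_be_add, he]; push_cast
    linear_combination (-(v : ℂ) * t) * hs + m * be n c b * hd'
  have m0 : (m : ℂ) ≠ 0 := by exact_mod_cast hm.ne'
  have z0 : (u : ℂ) * m + v * (b - be n c b) ≠ 0 :=
    left_ne_zero_of_mul (z1 ▸ mul_ne_zero m0 (by exact_mod_cast f0))
  have key : sc ((u : ℂ) * m + v * (b - be n c b)) (idl n c m b) =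
      sc m (idl n c f (b + 2 * e)) := by
    rw [idl, idl, ← cmc_basis hd, sc_sp2, sc_sp2, z1, z2]
  rw [cl_sc i1 hα, ← cl_sc i1 z0, key, cl_sc i2 m0]

theorem gen_primes (h : Ok n c) {M : ℤ} (hM : M ≠ 0) (H : Subgroup (Pc n c))
    (hH : ∀ (p : ℕ) (b k : ℤ), p.Prime → ¬ (p : ℤ) ∣ M → ¬ (p : ℤ) ∣ b →
      b ^ 2 + n * c ^ 2 = 4 * p * k → cl (Oc n c) (idl n c p b) ∈ H) : H = ⊤ := by
  refine (Subgroup.eq_top_iff' H).2 fun a => ?_
  obtain ⟨m, b, k, hm, hb, c1, c2, rfl⟩ := exists_idl_coprime h a hM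
  rw [cl_idl_prod h.m4 hm hb c2]
  refine prod_mem fun p hp => pow_mem ?_ _
  obtain ⟨p1, ⟨j, rfl⟩, -⟩ := Nat.mem_primeFactors.1 hp
  have p2 : Prime (p : ℤ) := Nat.prime_iff_prime_int.1 p1
  push_cast at hb c1 c2
  exact hH p b (j * k) p1
    (fun d => p2.not_isUnit (c1.of_mul_left_left.isUnit_of_dvd' dvd_rfl d))
    (fun d => p2.not_isUnit (c2.of_mul_left_left.isUnit_of_dvd' dvd_rfl d)) (by rw [hb]; ring)

theorem nrm_pos (h : Ok n 1) (hxy : IsCoprime x y) : 0 < nrm n x y := by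
  have e := four_nrm h.m4 x y
  have n3 : (3 : ℤ) < n := by exact_mod_cast h.gt
  by_cases hy : y = 0
  · subst hy
    have hx : x ≠ 0 := (isCoprime_zero_right.1 hxy).ne_zero
    have : 0 < (2 * x + 0) ^ 2 := by
      rw [add_zero]; positivity
    nlinarith
  · have h1 : 0 < y ^ 2 := by positivity
    nlinarith [sq_nonneg (2 * x + y)]

/-- Principal ideals with a primitive generator. -/
theorem exists_idl_el (h : Ok n 1) (hxy : IsCoprime x y) : ∃ b k : ℤ,
    b ^ 2 + n = 4 * nrm n x y * k ∧ sc (el n x y) (ot (Oc n 1)) = idl n 1 (nrm n x y) b := by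
  obtain ⟨v, j, e⟩ := hxy
  obtain ⟨u, rfl⟩ : ∃ u, j = u + v := ⟨j - v, by ring⟩
  obtain ⟨q, hq⟩ : ∃ q : ℤ, (n : ℤ) + 1 = 4 * q := ⟨(n + 1) / 4, by have := h.m4; omega⟩
  have q1 : ((n : ℤ) + 1) / 4 = q := by omega
  have hd : (x + y) * v - -y * u = 1 := by linear_combination e
  have hs := be_sq (n := n) (c := 1) (b := 1) (N := q) (by push_cast; linear_combination hq)
  have hd' : ((x : ℂ) + y) * v + y * u = 1 := by
    have : (x + y) * v + y * u = 1 := by linear_combination e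
    exact_mod_cast this
  push_cast at hs
  refine ⟨1 + 2 * (u * x - v * y * q), nrm n u v, ?_, ?_⟩
  · rw [nrm, nrm, q1]
    linear_combination hq - 4 * ((u * x - v * y * q) + q * ((x + y) * v + y * u + 1)) * e
  · rw [ot_Oc (b := 1) h.m4 (by simp), sc_sp2, ← cmc_basis hd, idl, cmc_be_add, nrm, q1, el]
    congr 1
    · push_cast; linear_combination (-(y : ℂ) ^ 2) * hs
    · push_cast; linear_combination ((v : ℂ) * y) * hs + be n 1 1 * hd'

theorem idl_el (h : Ok n c) (e : sc (el n x y) (ot (Oc n 1)) = idl n 1 (nrm n x y) b)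
    (hb : b ^ 2 + n = 4 * nrm n x y * k) (hy : (c : ℤ) ∣ y) :
    idl n c (nrm n x y) (b * c) = sc (el n x y) (ot (Oc n c)) := by
  have e1 : be n c (b * c) = c * be n 1 b := by rw [← be_mul, one_mul]
  obtain ⟨j, hj⟩ := two_dvd_sub (b := b) (c := 1) (N := nrm n x y * k) h.m4
    (by push_cast; linear_combination hb)
  have e2 : be n 1 b = el n j 1 := by
    rw [show b = 1 + 2 * j by push_cast at hj; linear_combination hj, cmc_be_add, el]
    push_cast; ring
  rw [idl, e1]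
  refine le_antisymm (sp2_le.2 ⟨?_, ?_⟩) fun w hw => ?_
  · exact mem_sc.2 ⟨_, (mem_Oc h.m4).2 ⟨x + y, -y, hy.neg_right, rfl⟩, el_mul_el h.m4 x y⟩
  · have : be n 1 b ∈ sc (el n x y) (ot (Oc n 1)) := e ▸ right_mem_sp2 _ _
    obtain ⟨z, hz, ez⟩ := mem_sc.1 this
    obtain ⟨x1, y1, -, rfl⟩ := (mem_Oc h.m4).1 hz
    refine mem_sc.2 ⟨_, (mem_Oc h.m4).2 ⟨c * x1, c * y1, dvd_mul_right _ _, rfl⟩, ?_⟩
    rw [← ez]; unfold el; push_cast; ring
  · obtain ⟨z, hz, rfl⟩ := mem_sc.1 hw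
    have h1 : el n x y * z ∈ idl n 1 (nrm n x y) b :=
      e ▸ mem_sc.2 ⟨z, Oc_le n (one_dvd c) hz, rfl⟩
    obtain ⟨u, v, h2⟩ := mem_sp2.1 h1
    obtain ⟨x1, y1, ⟨i, hi⟩, h3⟩ := (mem_Oc h.m4).1
      ((Oc n c).mul_mem ((mem_Oc h.m4).2 ⟨x, y, hy, rfl⟩) hz)
    have h4 : el n (u * nrm n x y + v * j) v = el n x1 y1 := by
      rw [← h3, h2, e2]; unfold el; push_cast; ring
    have h5 := (el_inj (by have := h.gt; omega) h4).2
    refine mem_sp2.2 ⟨u, i, ?_⟩
    rw [h2, h5, hi]; push_cast; ring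

theorem idl_el_Iu (h : Ok n c) (e : sc (el n x y) (ot (Oc n 1)) = idl n 1 (nrm n x y) b)
    (hb : b ^ 2 + n = 4 * nrm n x y * k) (hy : (c : ℤ) ∣ y) :
    idl n (c * l) (nrm n x y) (b * (c * l : ℕ)) =
      sc (el n x y) (Iu n c l (el n (x + y) (-y))) := by
  have e1 : b * (c * l : ℕ) = b * c * l := by push_cast; ring
  have e2 : sc (el n x y) (Iu n c l (el n (x + y) (-y))) =
      Submodule.span ℤ {(nrm n x y : ℂ)} ⊔ sc l (sc (el n x y) (ot (Oc n c))) := by
    rw [Iu, sc, Submodule.mul_sup, Submodule.span_mul_span, Set.singleton_mul_singleton,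
      el_mul_el h.m4, ← sc, sc_sc, sc_sc, mul_comm (l : ℂ)]
  rw [e2, ← idl_el h e hb hy, e1, idl, idl, be_mul, sc_sp2]
  refine le_antisymm (sp2_le.2 ⟨Submodule.mem_sup_left (Submodule.mem_span_singleton_self _),
    Submodule.mem_sup_right (right_mem_sp2 _ _)⟩) (sup_le ?_ (sp2_le.2 ⟨?_, right_mem_sp2 _ _⟩))
  · exact (Submodule.span_singleton_le_iff_mem _ _).2 (left_mem_sp2 _ _)
  · exact mem_sp2.2 ⟨l, 0, by push_cast; ring⟩

/-- Primitive vectors with prescribed residues. -/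
theorem exists_coprime_lift {M : ℤ} (hM : M ≠ 0) (h : ∃ u v t : ℤ, u * x + v * y + t * M = 1) :
    ∃ x' y' : ℤ, IsCoprime x' y' ∧ M ∣ x' - x ∧ M ∣ y' - y := by
  obtain ⟨u, v, t, h⟩ := h
  obtain ⟨y', y0, hy⟩ : ∃ y' : ℤ, y' ≠ 0 ∧ M ∣ y' - y := by
    by_cases e : y = 0
    · exact ⟨M, hM, by simp [e]⟩
    · exact ⟨y, e, by simp⟩
  refine ⟨x + M * cmc_pp y' fun q => ¬ q ∣ x, y',
    isCoprime_of_prime_dvd (fun h => y0 h.2) fun p hp h1 h2 => ?_, by simp, hy⟩
  have hP := cmc_dvd_pp y0 (fun q => ¬ q ∣ x) hp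
  simp only [Int.natAbs_dvd] at hP
  by_cases a : p ∣ x
  · rcases hp.dvd_or_dvd ((dvd_add_right a).1 h1) with d | d
    · have d2 : p ∣ y := by simpa using dvd_sub h2 (d.trans hy)
      exact hp.not_dvd_one (h ▸ dvd_add (dvd_add (a.mul_left u) (d2.mul_left v)) (d.mul_left t))
    · exact (hP.1 d).2 a
  · exact a ((dvd_add_left ((hP.2 ⟨h2, a⟩).mul_left M)).1 h1)

end Pool.Agent.Lib.MP_696deb_nt.B2.CM
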