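import Pool.Agent.Lib.MP_696deb_nt.B2.CMh
import Pool.Agent.Lib.MP_696deb_nt.B2.CMc
import Pool.Agent.Lib.MP_696deb_nt.B2.CMd

/-! Frobenius elements at split primes. -/

set_option autoImplicit false

open scoped Classical NumberTheorySymbols

namespace Pool.Agent.Lib.MP_696deb_nt.B2.CM

variable {Γ : Type*} [LinearOrderedCommGroupWithZero Γ] {V : Valuation ℂ Γ} {n c p : ℕ}
  {b k : ℤ} {τ a : ℂ} {w : Plc} {g : Gam}

/-- The congruence of Kronecker for the canonical isogeny. -/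
theorem can_frob (hp : p.Prime) (hV : V p < 1) {i : Option (Fin p)} (h : Can V p τ i) :
    V (jj p i τ - jf τ ^ p) < 1 := by
  have hx := h.lt hV
  have uB := h.val_prod hx
  have e0 : ph p i τ - ph p i τ = 0 := sub_self _
  generalize hxe : ph p i τ = x at hx uB
  rw (occs := [1]) [hxe] at e0
  let c : LR V.integer := ⟨_, const_mem V hx.le⟩
  have hn : red V (c - Ph V hp none) = 0 := by
    rw [map_sub, red_const hx, red_Ph_none hp hV, sub_zero]
  have hT := le_of_red (G := sp (Jj V hp) fun k => c - Ph V hp k)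
    (F := fun z => sp (fun k => jj p k (p * z) - jf (p * z) ^ p) fun k => x - ph p k (p * z))
    (by rw [map_sp, sp_of_eq_zero (i := none) _ hn, red_Jj_none hp hV, zero_mul])
    fun z => by rw [map_sp]; rfl
  have iT : Inv1 fun z => sp (fun k => jj p k z - jf z ^ p) fun k => x - ph p k z :=
    inv1_sp hp (fun y c => c.2 - y ^ p) fun _ c => x - c.1
  have t3 := LE.val_lt (hF := iT) hp.ne_zero hT h.pos h.int
  simp only [sp_of_eq_zero _ (a := fun k => x - ph p k τ) e0] at t3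
  rwa [map_mul, uB, mul_one] at t3

theorem cmf_prim (hp : p.Prime) (hb : ¬ (p : ℤ) ∣ b) (k : ℤ) :
    ∃ x y z : ℤ, x * p + y * b + z * k = 1 := by
  obtain ⟨x, y, h⟩ := (Nat.prime_iff_prime_int.mp hp).irreducible.coprime_iff_not_dvd.mpr hb
  exact ⟨x, y, 0, by rw [h, zero_mul, add_zero]⟩

theorem cmf_nb (τ : ℂ) (i : Option (Fin p)) :
    sp2 (rP p i 0 0 * τ + rP p i 0 1) (rP p i 1 0 * τ + rP p i 1 1) = nb p 1 τ i := by
  rcases i with _ | k <;> simp [rP, ut, nb]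

/-- The canonical isogeny of a special point. -/
theorem can_idl (ok : Ok n c) (hp : p.Prime) (hV : V p < 1) (e : b ^ 2 + n * c ^ 2 = 4 * p * k)
    (hb : ¬ (p : ℤ) ∣ b) (hβ : V (be n c b) < 1) (hτ : 0 < τ.im) (ha : a ≠ 0)
    (hI : IsIv (Oc n c) (sc a (sp2 τ 1))) : ∃ i, Can V p τ i ∧
      jj p i τ = jP n c (cl _ (idl n c p (-b)) * cl _ (sc a (sp2 τ 1))) := by
  have hn0 : 0 < n := by have := ok.gt; omega
  have hp0 : (0 : ℤ) < p := by exact_mod_cast hp.pos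
  have e' : b ^ 2 + n * c ^ 2 = 4 * (p * k) := by rw [e, mul_assoc]
  have hβO : be n c b ∈ Oc n c := be_mem ok.m4 (two_dvd_sub ok.m4 e')
  have hsq := be_sq e'
  have hεO : (b : ℂ) - be n c b ∈ Oc n c := sub_mem (intCast_mem _ b) hβO
  have hneg : be n c (-b) = -((b : ℂ) - be n c b) := by linear_combination -be_sub n c b
  generalize hε : (b : ℂ) - be n c b = ε at hεO hneg
  have hVε : V ε = 1 := by
    have h1 := val_int_eq_one hp hV hb
    rw [← hε, V.map_sub_eq_of_lt_left (h1 ▸ hβ), h1]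
  have hε0 : ε ≠ 0 := fun h0 => by rw [h0, map_zero] at hVε; exact zero_ne_one hVε
  have hmul : ∀ z ∈ sp2 τ 1, ε * z ∈ sp2 τ 1 := fun z hz => by
    have h1 := hI.mul_mem hεO ((mul_mem_sc ha).2 hz)
    rw [mul_left_comm] at h1
    exact (mul_mem_sc ha).1 h1
  obtain ⟨A, B, hAB⟩ := mem_sp2.1 (hmul τ (left_mem_sp2 _ _))
  obtain ⟨C, D, hCD⟩ := mem_sp2.1 (hmul 1 (right_mem_sp2 _ _))
  rw [mul_one] at hAB
  rw [mul_one, mul_one] at hCD
  obtain ⟨h1, h2⟩ := be_indep (b := b) hn0 ok.ne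
    (x := (b - A - D) * b + (A * D - B * C - p * k)) (y := -(b - A - D)) (by
      push_cast at hsq ⊢
      linear_combination (b - A - D + ε - be n c b) * hε + (ε - A) * hCD + C * hAB - hsq)
  have htr : A + D = b := by omega
  have hdet : A * D - B * C = p * k := by
    have h3 : b - A - D = 0 := by omega
    rw [h3] at h1
    linear_combination h1
  have hpk : (0 : ℤ) < p * k := by
    have h3 : (0 : ℤ) < n * c ^ 2 :=
      mul_pos (by exact_mod_cast hn0) (pow_pos (by exact_mod_cast Nat.pos_of_ne_zero ok.ne) 2)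
    nlinarith [sq_nonneg b]
  have hE : (!![A, B; C, D] : MZ).det = p * k := by rw [Matrix.det_fin_two_of, hdet]
  have hden : den !![A, B; C, D] τ = ε := by rw [hCD]; rfl
  have hact : act !![A, B; C, D] τ = τ := by
    rw [act_of, mob, ← hAB, ← hCD, mul_div_cancel_left₀ _ hε0]
  obtain ⟨i, M, hM⟩ := exists_factor hp (B := !![A, B; C, D]) (by rw [hE]; exact dvd_mul_right _ _)
  have hN := rP_pos hp i
  have hd := (isReps_rP hp).det i
  have hM0 : 0 < M.det := by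
    rw [← hE, hM, Matrix.det_mul] at hpk
    exact pos_of_mul_pos_left hpk hN.le
  have hj : V (jf τ) ≤ 1 := (isCM_tau ok hτ ha hI).val_jf V
  have hcan : Can V p τ i := can_of_val hp hτ hj (by
    rw [ph, val_phi_of_den hM0 hN hτ hj (hM ▸ hact) (by rw [← hM, hden, hVε]), hd,
      Int.cast_natCast])
  refine ⟨i, hcan, ?_⟩
  have hiv : IsIv (Oc n c) (idl n c p (-b)) :=
    isIv_idl ok.m4 (k := k) (by rw [neg_sq, e]) hp0.ne' (cmf_prim hp (by rwa [dvd_neg]) k)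
  have hlat : IsLat (sp2 τ 1) := isLat_sp2 hτ.ne'
  have hmid := nb_mid (s := 1) hp hτ.ne' i
  have hnb := cmf_nb τ i
  have m00 : (A : ℂ) = M 0 0 * rP p i 0 0 + M 0 1 * rP p i 1 0 := by
    have := congrFun (congrFun hM 0) 0
    simp only [Matrix.mul_apply, Fin.sum_univ_two] at this
    exact_mod_cast this
  have m01 : (B : ℂ) = M 0 0 * rP p i 0 1 + M 0 1 * rP p i 1 1 := by
    have := congrFun (congrFun hM 0) 1
    simp only [Matrix.mul_apply, Fin.sum_univ_two] at this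
    exact_mod_cast this
  have m10 : (C : ℂ) = M 1 0 * rP p i 0 0 + M 1 1 * rP p i 1 0 := by
    have := congrFun (congrFun hM 1) 0
    simp only [Matrix.mul_apply, Fin.sum_univ_two] at this
    exact_mod_cast this
  have m11 : (D : ℂ) = M 1 0 * rP p i 0 1 + M 1 1 * rP p i 1 1 := by
    have := congrFun (congrFun hM 1) 1
    simp only [Matrix.mul_apply, Fin.sum_univ_two] at this
    exact_mod_cast this
  have hP : idl n c p (-b) * sp2 τ 1 = nb p 1 τ i := by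
    refine mid_eq hp hlat (lt_of_le_of_ne ?_ fun h0 => hb ?_) ?_ hmid.2
    · intro z hz
      obtain ⟨y, hy, rfl⟩ := mem_sc.1 hz
      have h3 : ((p : ℤ) : ℂ) ∈ idl n c p (-b) := left_mem_sp2 _ _
      rw [Int.cast_natCast] at h3
      exact Submodule.mul_mem_mul h3 hy
    · have h3 : ∀ z ∈ sp2 τ 1, ε * z ∈ sc p (sp2 τ 1) := fun z hz => by
        have h4 := Submodule.mul_mem_mul (right_mem_sp2 ((p : ℤ) : ℂ) (be n c (-b))) hz
        rw [h0, ← neg_mem_iff, ← neg_mul, ← hneg]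
        exact h4
      have h4 := h3 τ (left_mem_sp2 _ _)
      have h5 := h3 1 (right_mem_sp2 _ _)
      rw [sc_sp2] at h4 h5
      obtain ⟨u, v, h4⟩ := mem_sp2.1 h4
      obtain ⟨u', v', h5⟩ := mem_sp2.1 h5
      have h6 := (tau_indep hτ.ne' (x := A - u * p) (y := B - v * p)
        (by push_cast; linear_combination h4 - hAB)).1
      have h7 := (tau_indep hτ.ne' (x := C - u' * p) (y := D - v' * p)
        (by push_cast; linear_combination h5 - hCD)).2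
      exact ⟨u + v', by linear_combination h6 + h7 - htr⟩
    · have h3 : ∀ z ∈ sp2 τ 1, ((p : ℤ) : ℂ) * z ∈ nb p 1 τ i := fun z hz =>
        hmid.1.le (mem_sc.2 ⟨z, hz, by rw [Int.cast_natCast]⟩)
      refine sp2_mul_le.2 ⟨h3 _ (left_mem_sp2 _ _), h3 _ (right_mem_sp2 _ _), ?_, ?_⟩
      · rw [← hnb]
        refine mem_sp2.2 ⟨-M 0 0, -M 0 1, ?_⟩
        push_cast
        linear_combination τ * hneg - hAB - τ * m00 - m01
      · rw [← hnb]
        refine mem_sp2.2 ⟨-M 1 0, -M 1 1, ?_⟩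
        push_cast
        linear_combination hneg - hCD - τ * m10 - m11
  have hlat' : IsLat (sp2 (act (rP p i) τ) 1) := isLat_sp2 (act_pos hN hτ).ne'
  have hsc := sp2_act hN.ne' hτ
  rw [hnb] at hsc
  rw [← cl_mul hiv hI, jP_cl ok (hiv.mul hI), mul_sc, hP, ← hsc,
    jL_sc (hlat'.sc (den_ne' hN.ne' hτ)) ha, jL_sc hlat' (den_ne' hN.ne' hτ),
    jL_tau (act_pos hN hτ), jj]

theorem cmf_tau (ok : Ok n c) (x : Pc n c) : ∃ τ a : ℂ, 0 < τ.im ∧ a ≠ 0 ∧
    IsIv (Oc n c) (sc a (sp2 τ 1)) ∧ x = cl _ (sc a (sp2 τ 1)) ∧ jP n c x = jf τ := by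
  obtain ⟨I, hI, rfl⟩ := cl_surj x
  obtain ⟨τ, a, hτ, ha, rfl⟩ := (hI.isLat ok).exists_tau
  exact ⟨τ, a, hτ, ha, hI, rfl, by rw [jP_cl ok hI, jL_sc (isLat_sp2 hτ.ne') ha, jL_tau hτ]⟩

theorem jP_frob (ok : Ok n c) (hp : p.Prime) (hV : V p < 1) (e : b ^ 2 + n * c ^ 2 = 4 * p * k)
    (hb : ¬ (p : ℤ) ∣ b) (hβ : V (be n c b) < 1) (x : Pc n c) :
    V (jP n c (cl _ (idl n c p (-b)) * x) - jP n c x ^ p) < 1 := by
  obtain ⟨τ, a, hτ, ha, hI, rfl, hj⟩ := cmf_tau ok x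
  obtain ⟨i, h1, h2⟩ := can_idl ok hp hV e hb hβ hτ ha hI
  rw [← h2, hj]
  exact can_frob hp hV h1

theorem jP_sep (ok : Ok n c) (hp : p.Prime) (hV : V p < 1) (e : b ^ 2 + n * c ^ 2 = 4 * p * k)
    (hb : ¬ (p : ℤ) ∣ b) (hβ : V (be n c b) < 1) {x y : Pc n c}
    (h : V (jP n c x - jP n c y) < 1) : x = y := by
  by_contra hne
  have := finite_Pc ok.m4 ok.gt c
  obtain ⟨⟨u, v⟩, ⟨h1, h2⟩, hmin⟩ := Set.exists_min_image
    {q : Pc n c × Pc n c | q.1 ≠ q.2 ∧ V (jP n c q.1 - jP n c q.2) < 1}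
    (fun q => V (jP n c q.1 - jP n c q.2)) (Set.toFinite _) ⟨(x, y), hne, h⟩
  simp only at h1 h2 hmin
  obtain ⟨τ, a, hτ, ha, hI, hu, hj⟩ := cmf_tau ok u
  obtain ⟨τ', a', hτ', ha', hI', hv, hj'⟩ := cmf_tau ok v
  obtain ⟨i, c1, c2⟩ := can_idl ok hp hV e hb hβ hτ ha hI
  obtain ⟨i', c1', c2'⟩ := can_idl ok hp hV e hb hβ hτ' ha' hI'
  have h3 := c1.contract hp hV c1' (by rwa [← hj, ← hj'])
    (by rw [← hj, ← hj']; exact fun h4 => h1 (jP_inj ok h4))
  rw [c2, c2', ← hu, ← hv, ← hj, ← hj'] at h3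
  exact absurd h3 (hmin (_, _) ⟨fun h4 => h1 (mul_left_cancel h4), h3.trans h2⟩).not_gt

theorem V_beQ_or (hn : n % 4 = 3) (e : b ^ 2 + n * c ^ 2 = 4 * w.p * k) :
    w.V (beQ n c b) < 1 ∨ w.V (beQ n c (-b)) < 1 := by
  have _ := hn
  have h1 : beQ n c b * beQ n c (-b) = -(k * w.p) := by
    have h2 := congrArg (Int.cast : ℤ → Qbar) e
    rw [beQ, beQ]
    push_cast at h2 ⊢
    linear_combination (c ^ 2 / 4) * dq_sq n - (1 / 4) * h2
  have h2 : w.V (beQ n c b) * w.V (beQ n c (-b)) < 1 := by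
    rw [← map_mul, h1, Valuation.map_neg, map_mul]
    exact mul_lt_one_of_nonneg_of_lt_one_right (w.V_int_le k) zero_le (b4a_V_p w).2
  by_contra hcon
  rw [not_or, not_lt, not_lt] at hcon
  exact absurd h2 (one_le_mul hcon.1 hcon.2).not_gt

theorem cmf_Vp {A : ValuationSubring ℂ} (hA : Over A w) : A.valuation (w.p : ℂ) < 1 := by
  have h := (hA w.p).2.2 (b4a_V_p w).2
  rwa [map_natCast] at h

theorem cmf_Vbe {A : ValuationSubring ℂ} (hA : Over A w) (h : w.V (beQ n c b) < 1) :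
    A.valuation (be n c b) < 1 := by
  have h1 := (hA _).2.2 h
  rwa [jC_beQ] at h1

theorem rho_ine_split (ok : Ok n c) (e : b ^ 2 + n * c ^ 2 = 4 * w.p * k) (hb : ¬ (w.p : ℤ) ∣ b)
    (hg : g ∈ Ine w) : rho n c g = 1 := by
  obtain ⟨A, hA⟩ := exists_over w
  have h1 := (hA _).2.2 (hg.2 _ (V_jQ ok w 1))
  rw [← jQ_rho ok, map_sub, jC_jQ ok, jC_jQ ok] at h1
  rcases V_beQ_or ok.m4 e with h2 | h2
  · exact jP_sep ok w.prime (cmf_Vp hA) e hb (cmf_Vbe hA h2) h1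
  · exact jP_sep ok w.prime (cmf_Vp hA) (k := k) (by rw [neg_sq, e]) (by rwa [dvd_neg])
      (cmf_Vbe hA h2) h1

theorem rho_frob_split (ok : Ok n c) (e : b ^ 2 + n * c ^ 2 = 4 * w.p * k) (hb : ¬ (w.p : ℤ) ∣ b)
    (hβ : w.V (beQ n c b) < 1) (hg : IsFrob w w.p g) :
    rho n c g = (cl _ (idl n c w.p b))⁻¹ := by
  obtain ⟨A, hA⟩ := exists_over w
  have h1 := (hA _).2.2 (hg.2 _ (V_jQ ok w 1))
  rw [← jQ_rho ok, map_sub, map_pow, jC_jQ ok, jC_jQ ok] at h1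
  have h2 := jP_frob ok w.prime (cmf_Vp hA) e hb (cmf_Vbe hA hβ) 1
  rw [mul_one] at h2
  have h3 := A.valuation.map_sub_lt h1 h2
  rw [sub_sub_sub_cancel_right] at h3
  rw [jP_sep ok w.prime (cmf_Vp hA) e hb (cmf_Vbe hA hβ) h3]
  exact cl_idl_neg ok.m4 e (by exact_mod_cast w.prime.ne_zero) (cmf_prim w.prime hb k)

theorem jac_of_root (hp : p.Prime) (e : b ^ 2 + n * c ^ 2 = 4 * p * k) (hb : ¬ (p : ℤ) ∣ b) :
    J(-n | p) = 1 := by
  have := Fact.mk hp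
  have hb0 : (b : ZMod p) ≠ 0 := fun h => hb ((ZMod.intCast_zmod_eq_zero_iff_dvd b p).1 h)
  have h1 : (b : ZMod p) ^ 2 + n * c ^ 2 = 0 := by
    have h2 := congrArg (Int.cast : ℤ → ZMod p) e
    push_cast at h2
    rwa [ZMod.natCast_self, mul_zero, zero_mul] at h2
  have hc0 : (c : ZMod p) ≠ 0 := fun h => hb0 (by
    rw [h, zero_pow two_ne_zero, mul_zero, add_zero] at h1
    exact pow_eq_zero_iff two_ne_zero |>.1 h1)
  have hn0 : ((-n : ℤ) : ZMod p) ≠ 0 := fun h => hb0 (by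
    rw [Int.cast_neg, neg_eq_zero, Int.cast_natCast] at h
    rw [h, zero_mul, add_zero] at h1
    exact pow_eq_zero_iff two_ne_zero |>.1 h1)
  rw [← jacobiSym.legendreSym.to_jacobiSym, legendreSym.eq_one_iff p hn0]
  refine ⟨b / c, ?_⟩
  push_cast
  field_simp
  linear_combination -h1

theorem exists_root_split (hn : n % 4 = 3) (hp : p.Prime) (h2 : p ≠ 2) (hJ : J(-n | p) = 1)
    (hc : ¬ p ∣ c) : ∃ b k : ℤ, b ^ 2 + n * c ^ 2 = 4 * p * k ∧ ¬ (p : ℤ) ∣ b := by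
  have := Fact.mk hp
  have hpz := Nat.prime_iff_prime_int.mp hp
  have hodd : p % 2 = 1 := hp.eq_two_or_odd.resolve_left h2
  obtain ⟨x, hx⟩ := ZMod.isSquare_of_jacobiSym_eq_one hJ
  obtain ⟨r0, rfl⟩ := ZMod.intCast_surjective x
  have hn0 : ((-n : ℤ) : ZMod p) ≠ 0 := fun h => by
    rw [← jacobiSym.legendreSym.to_jacobiSym, (legendreSym.eq_zero_iff p _).2 h] at hJ
    exact zero_ne_one hJ
  obtain ⟨r, hr1, hr2⟩ : ∃ r : ℤ, r % 2 = 1 ∧ (r : ZMod p) = r0 := by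
    rcases Int.emod_two_eq_zero_or_one r0 with h | h
    · exact ⟨r0 + p, by omega, by simp⟩
    · exact ⟨r0, h, rfl⟩
  rw [← hr2] at hx
  have h3 : (p : ℤ) ∣ r ^ 2 + n := by
    rw [← ZMod.intCast_zmod_eq_zero_iff_dvd]
    push_cast at hx ⊢
    linear_combination -hx
  have h4 : (4 : ℤ) ∣ r ^ 2 + n := by
    obtain ⟨s, rfl⟩ : ∃ s, r = 2 * s + 1 := ⟨r / 2, by omega⟩
    obtain ⟨t, rfl⟩ : ∃ t, n = 4 * t + 3 := ⟨n / 4, by omega⟩
    exact ⟨s ^ 2 + s + t + 1, by push_cast; ring⟩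
  have h5 : IsCoprime (4 : ℤ) p := by
    have h6 : IsCoprime (2 : ℤ) p := ⟨-(p / 2 : ℤ), 1, by omega⟩
    simpa using h6.mul_left h6
  obtain ⟨k, hk⟩ := h5.mul_dvd h4 h3
  refine ⟨r * c, k * c ^ 2, by linear_combination (c ^ 2) * hk, fun h => ?_⟩
  rcases hpz.dvd_or_dvd h with h | h
  · refine hn0 ?_
    rw [hx, (ZMod.intCast_zmod_eq_zero_iff_dvd r p).2 h, mul_zero]
  · exact hc (Int.natCast_dvd_natCast.1 h)

theorem rho_surj (ok : Ok n c) (x : Pc n c) : ∃ g ∈ GK n, rho n c g = x := by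
  let H : Subgroup (Pc n c) :=
    { carrier := {x | ∃ g ∈ GK n, rho n c g = x}
      one_mem' := ⟨1, one_mem _, rho_one ok⟩
      mul_mem' := by
        rintro _ _ ⟨g, hg, rfl⟩ ⟨h, hh, rfl⟩
        exact ⟨g * h, mul_mem hg hh, rho_mul ok hg h⟩
      inv_mem' := by
        rintro _ ⟨g, hg, rfl⟩
        exact ⟨g⁻¹, inv_mem hg, rho_inv ok hg⟩ }
  have hH : H = ⊤ := gen_primes ok (M := 2) two_ne_zero H fun p b k hp h2 hb e => by
    obtain ⟨w, rfl⟩ := exists_plc hp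
    obtain ⟨φ, hφ⟩ := exists_frob w
    have h3 : w.p ≠ 2 := fun h => h2 (by rw [h]; rfl)
    have hK : φ ∈ GK n := dec_le_split h3 (jac_of_root hp e hb) hφ.1
    rcases V_beQ_or ok.m4 e with h4 | h4
    · exact (inv_mem_iff (H := H)).1 ⟨φ, hK, rho_frob_split ok e hb h4 hφ⟩
    · refine ⟨φ, hK, ?_⟩
      rw [rho_frob_split ok (k := k) (by rw [neg_sq, e]) (by rwa [dvd_neg]) h4 hφ,
        cl_idl_neg ok.m4 e (by exact_mod_cast hp.ne_zero) (cmf_prim hp hb k), inv_inv]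
  exact (hH ▸ Subgroup.mem_top x : x ∈ H)

end Pool.Agent.Lib.MP_696deb_nt.B2.CM
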