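import Pool.Agent.Lib.MP_696deb_nt.B2.B1b

/-! Counting in abelian groups, and places attached to embeddings into completions. -/

set_option autoImplicit false

open scoped NNReal Classical

namespace Pool.Agent.Lib.MP_696deb_nt.B2

theorem lk_card_tors {M : Type*} [AddCommGroup M] (h : ∀ P : M, ∃ Q, 2 • Q = P)
    (h4 : Nat.card (nsmulAddMonoidHom (α := M) 2).ker = 4) (m : ℕ) :
    Nat.card (nsmulAddMonoidHom (α := M) (2 ^ m)).ker = 4 ^ m := by
  induction m with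
  | zero =>
    have : (nsmulAddMonoidHom (α := M) (2 ^ 0)).ker = ⊥ := by
      ext x
      simp
    rw [this, AddSubgroup.card_bot, pow_zero]
  | succ m ih =>
    let f : (nsmulAddMonoidHom (α := M) (2 ^ (m + 1))).ker →+
        (nsmulAddMonoidHom (α := M) (2 ^ m)).ker :=
      ((nsmulAddMonoidHom 2).comp (AddSubgroup.subtype _)).codRestrict _ fun x => by
        exact (mul_nsmul' x.1 (2 ^ m) 2).symm.trans x.2
    have hf : Function.Surjective f := fun y => by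
      obtain ⟨Q, hQ⟩ := h y
      refine ⟨⟨Q, ?_⟩, Subtype.ext hQ⟩
      rw [AddMonoidHom.mem_ker, nsmulAddMonoidHom_apply, pow_succ, mul_nsmul', hQ]
      exact y.2
    have e : Nat.card f.ker = 4 := by
      rw [← h4]
      refine Nat.card_congr ⟨fun x => ⟨x.1.1, congrArg Subtype.val x.2⟩,
        fun x => ⟨⟨x.1, ?_⟩, Subtype.ext x.2⟩, fun _ => rfl, fun _ => rfl⟩
      have : 2 • x.1 = 0 := x.2
      rw [AddMonoidHom.mem_ker, nsmulAddMonoidHom_apply, pow_succ, mul_nsmul', this, smul_zero]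
    rw [AddSubgroup.card_eq_card_quotient_mul_card_addSubgroup f.ker, e,
      Nat.card_congr (QuotientAddGroup.quotientKerEquivOfSurjective f hf).toEquiv, ih, pow_succ]

theorem lk_surj {G : Type*} [AddCommGroup G] [Module.Finite ℤ G] {n : ℕ}
    (h : n ≤ Module.finrank ℤ G) : ∃ π : G →+ Fin n → ℤ, Function.Surjective π := by
  set S := Submodule.torsion ℤ G
  rw [← finrank_quotient_eq_of_le_torsion (M' := S) le_rfl] at h
  let b := Module.finBasis ℤ (G ⧸ S)
  refine ⟨((LinearMap.funLeft ℤ ℤ (Fin.castLE h)).comp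
    (b.equivFun.toLinearMap.comp S.mkQ)).toAddMonoidHom, ?_⟩
  exact (LinearMap.funLeft_surjective_of_injective ℤ ℤ _ (Fin.castLE_injective h)).comp
    (b.equivFun.surjective.comp S.mkQ_surjective)

theorem lk_finite_tors {G : Type*} [AddCommGroup G] [Module.Finite ℤ G] :
    {x : G | IsOfFinAddOrder x}.Finite := by
  have : Finite (Submodule.torsion ℤ G) :=
    Module.finite_of_fg_torsion _ (Submodule.torsion_isTorsion (R := ℤ) (M := G))
  refine (Set.toFinite (Submodule.torsion ℤ G : Set G)).subset fun x hx => ?_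
  obtain ⟨n, hn, e⟩ := isOfFinAddOrder_iff_zsmul_eq_zero.1 hx
  exact ⟨⟨n, mem_nonZeroDivisors_of_ne_zero hn⟩, e⟩

theorem lk_plc (p : ℕ) [hp : Fact p.Prime] (j : Qbar →+* AlgebraicClosure ℚ_[p]) :
    ∃ w : Plc, ∀ (s : AlgebraicClosure ℚ_[p] ≃ₐ[ℚ_[p]] AlgebraicClosure ℚ_[p]) (σ : Gam),
      (∀ x, j (σ x) = s (j x)) → σ ∈ Dec w := by
  refine ⟨⟨p, hp.out, (PadicAlgCl.valued p).v.comap j, ?_⟩, fun s σ h => mem_Dec.2 fun x => ?_⟩
  · rw [Valuation.comap_apply, map_natCast, PadicAlgCl.valuation_p, one_div]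
  · change ‖j (σ x)‖₊ = ‖j x‖₊
    rw [h]
    exact NNReal.eq (spectralNorm_eq_of_equiv s (j x)).symm

theorem lk_real (j : Qbar →+* AlgebraicClosure ℝ) : ∃ k : Gam,
    ∀ (s : AlgebraicClosure ℝ ≃ₐ[ℝ] AlgebraicClosure ℝ) (σ : Gam),
      (∀ x, j (σ x) = s (j x)) → σ = 1 ∨ σ = k * cc * k⁻¹ := by
  have : IsAlgClosure ℝ ℂ := ⟨inferInstance, inferInstance⟩
  let e : AlgebraicClosure ℝ ≃ₐ[ℝ] ℂ := IsAlgClosure.equiv ℝ _ _
  let i : Qbar →+* ℂ := (e : AlgebraicClosure ℝ →+* ℂ).comp j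
  have key : ∀ (s : AlgebraicClosure ℝ ≃ₐ[ℝ] AlgebraicClosure ℝ) (σ : Gam),
      (∀ x, j (σ x) = s (j x)) → σ = 1 ∨ ∀ x, i (σ x) = starRingEnd ℂ (i x) := fun s σ h => by
    have k : ∀ x, i (σ x) = ((e.symm.trans s).trans e : ℂ →ₐ[ℝ] ℂ) (i x) := fun x => by
      simp [i, h]
    rcases Complex.real_algHom_eq_id_or_conj ((e.symm.trans s).trans e) with a | a
    · exact .inl (AlgEquiv.ext fun x => i.injective (by rw [k, a]; rfl))
    · exact .inr fun x => by rw [k, a]; rfl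
  by_cases h : ∃ τ : Gam, ∀ x, i (τ x) = starRingEnd ℂ (i x)
  · obtain ⟨τ, hτ⟩ := h
    obtain ⟨k, hk⟩ := IsCC.conj ⟨i, hτ⟩
    exact ⟨k, fun s σ h => (key s σ h).imp_right fun a =>
      (AlgEquiv.ext fun x => i.injective (by rw [a, hτ])).trans hk⟩
  · exact ⟨1, fun s σ k => .inl ((key s σ k).resolve_right fun a => h ⟨σ, a⟩)⟩

end Pool.Agent.Lib.MP_696deb_nt.B2
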