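import Pool.Agent.Lib.MP_696deb_nt.B2.CMh

/-! Heegner points of ring class groups. -/

set_option autoImplicit false

open scoped Classical

namespace Pool.Agent.Lib.MP_696deb_nt.B2.CM

variable {n c : ℕ} {r : ℤ} {I : Lt} {Q Q' : Fm} {g : Gam}

theorem lat15_eq {τ : ℂ} (hτ : 0 < τ.im) : (lat15 τ).lattice = sp2 (15 * τ) 1 := by
  ext z
  simp only [mem_lat15 hτ, mem_sp2, mul_one]

theorem OkR.neg (ok : OkR n c r) : -((n : ℤ) * c ^ 2) < 0 := by
  have h1 : (0 : ℤ) < n := by have := ok.gt; omega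
  have h2 : (c : ℤ) ≠ 0 := by exact_mod_cast ok.ne
  exact neg_lt_zero.2 (by positivity)

theorem OkR.cop_r (ok : OkR n c r) : IsCoprime (r * c) 15 := by
  have h : IsCoprime ((n : ℤ) * c) 15 := by exact_mod_cast Nat.isCoprime_iff_coprime.2 ok.cop
  obtain ⟨u, v, e⟩ := h.of_mul_left_left
  obtain ⟨k, hk⟩ := ok.root
  exact IsCoprime.mul_left ⟨-u * r, 4 * k * u + v, by linear_combination e - u * hk⟩
    h.of_mul_left_right

theorem Hg.im_pos (ok : OkR n c r) (h : Hg n c r I Q) : 0 < (froot Q).im := h.1.im_pos ok.neg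

theorem Hg.sc (h : Hg n c r I Q) {a : ℂ} (ha : a ≠ 0) : Hg n c r (sc a I) Q := by
  obtain ⟨h1, b, hb, rfl⟩ := h
  exact ⟨h1, a * b, mul_ne_zero ha hb, sc_sc _ _ _⟩

theorem cmp_st {D s : ℤ} (hD : D < 0) (hQ : IsHg D s Q) :
    starRingEnd ℂ (froot Q) * (15 * froot (Gal.st Q)) = 1 := by
  obtain ⟨a, ha⟩ := hQ.lev
  have e : Q.1 / 15 = a := by omega
  have h1 := (Gal.st_spec hD hQ).1
  have h2 : 0 < (-starRingEnd ℂ (froot Q)).im := by simpa using hQ.im_pos hD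
  have h3 := congr_arg (starRingEnd ℂ) (froot_root (hQ.disc ▸ hD) hQ.pos)
  have h4 : starRingEnd ℂ (froot Q) ≠ 0 := fun h => by simp [h] at h2
  rw [ha] at h3
  simp only [map_add, map_mul, map_pow, map_intCast, map_zero] at h3
  rw [← eq_froot (h1.disc ▸ hD) h1.pos (Unif.al_im_pos 3 h2)] <;>
    simp only [Gal.st, e, Unif.al, Unif.alM, mob, Matrix.cons_val] <;> push_cast at h3 ⊢ <;>
    field_simp
  · ring
  · linear_combination 15 * h3

theorem cmp_sp2 {x w y z : ℤ} (e : x * z - w * y = 1) (p q : ℂ) :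
    sp2 (y * q + z * p) (-(x * q + w * p)) = sp2 p q := by
  have e' : (x : ℂ) * z - w * y = 1 := by exact_mod_cast e
  refine le_antisymm (sp2_le.2 ⟨mem_sp2.2 ⟨z, y, by ring⟩, mem_sp2.2 ⟨-w, -x, by push_cast; ring⟩⟩)
    (sp2_le.2 ⟨mem_sp2.2 ⟨x, y, by linear_combination -p * e'⟩,
      mem_sp2.2 ⟨-w, -z, by push_cast; linear_combination -q * e'⟩⟩)

theorem exists_hg (ok : OkR n c r) (h : IsIv (Oc n c) I) : ∃ Q, Hg n c r I Q := by
  obtain ⟨a, m, b, k, ha, hm, e, -, rfl⟩ := h.exists_idl ok.toOk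
  have hF : fdisc (m, b, k) = -(n * c ^ 2) := by simp only [fdisc]; linear_combination e
  obtain ⟨x, w, y, z, e1, hP⟩ := Gal.exists_hg_fmap (r := r * c) ok.neg
    (by simpa [mul_pow, add_mul] using ok.root.mul_right ((c : ℤ) ^ 2)) hF hm
  have h1 := mob_froot (Q := (m, b, k)) e1 (hF ▸ ok.neg) hm
  have h2 := cmp_st ok.neg hP
  have h3 := den_ne (a := x) (b := w) (c := y) (d := z) (by omega) (hP.im_pos ok.neg)
  refine ⟨_, Hg.sc ⟨(Gal.st_spec ok.neg hP).1, ?_⟩ ha⟩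
  generalize froot (Gal.st (fmap (m, b, k) x w y z)) = s at h2
  generalize froot (fmap (m, b, k) x w y z) = t at h1 h2 h3
  have m0 : (m : ℂ) ≠ 0 := by exact_mod_cast hm.ne'
  have h4 : 2 * m * (x * t + w) = (-b + c * dl n) * (y * t + z) := by
    rw [mob, froot, hF, div_eq_div_iff h3 (by simpa using m0)] at h1
    rw [← del_eq, Gal.del]
    linear_combination h1
  replace h4 := congr_arg (starRingEnd ℂ) h4
  replace h3 := (map_ne_zero (starRingEnd ℂ)).2 h3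
  simp only [map_add, map_mul, map_neg, map_intCast, map_natCast, map_ofNat, conj_dl] at h3 h4
  generalize starRingEnd ℂ t = u at h2 h3 h4
  refine ⟨m / (y * u + z) * u, mul_ne_zero (div_ne_zero m0 h3) (left_ne_zero_of_mul_eq_one h2), ?_⟩
  rw [sc_sp2, mul_assoc, h2, mul_one, mul_one, ← cmp_sp2 e1, idl, be]
  congr 1 <;> field_simp
  linear_combination h4

theorem cmp_sc {u : ℂ} {L M : PeriodPair} (h : Gal.Sc u L M) : M.lattice = sc u L.lattice := by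
  ext z
  rw [← mul_inv_cancel_left₀ h.ne z, h.mem, mul_mem_sc h.ne]

theorem Hg.unique (ok : OkR n c r) (h : Hg n c r I Q) (h' : Hg n c r I Q') :
    pt (froot Q) = pt (froot Q') := by
  have i1 := h.im_pos ok
  have i2 := h'.im_pos ok
  obtain ⟨h, a, ha, rfl⟩ := h
  obtain ⟨h', a', ha', e⟩ := h'
  have s : Gal.Sc (a⁻¹ * a') (lat15 (froot Q')) (lat15 (froot Q)) :=
    ⟨mul_ne_zero (inv_ne_zero ha) ha', fun z => by
      rw [lat15_eq i1, lat15_eq i2, ← mul_mem_sc ha, e, mul_assoc, mul_inv_cancel_left₀ ha,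
        mul_mem_sc ha']⟩
  generalize a⁻¹ * a' = u at s
  obtain ⟨p, q, e1⟩ := (mem_lat15 i1).1 ((s.mem _).2 ((mem_lat15 i2).2 ⟨1, 0, rfl⟩))
  obtain ⟨p', q', e2⟩ := (mem_lat15 i1).1 ((s.mem _).2 (h'.mul_mem ok.neg).1)
  obtain ⟨A, k, -, -, a3, a4⟩ := h.alp ok.neg
  have e3 := (tau_indep i1.ne' (x := 15 * (q * A - 15 * p * k - 15 * p'))
    (y := q * (r * c + 15 * k) - 15 * p * Q.2.2 - 15 * q') (by
      push_cast at e1 a3 a4 ⊢
      linear_combination 15 * e2 - Gal.alp (-(n * c ^ 2)) (r * c) * e1 - q * a3 - 15 * p * a4)).2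
  obtain ⟨q, rfl⟩ : 15 ∣ q := ok.cop_r.symm.dvd_of_dvd_mul_right
    ⟨p * Q.2.2 + q' - q * k, by linear_combination e3⟩
  have e4 : u * froot Q' = p * froot Q + q := by
    push_cast at e1
    linear_combination e1 / 15
  have key : ∀ l j : ℤ, l * j = 15 → l ∣ p → 15 ∣ j := by
    rintro l j hl ⟨v, rfl⟩
    have hl' : (l : ℂ) * j = 15 := by exact_mod_cast hl
    rw [← Gal.ord_lat i2, ← s.mem, mem_lat15 i1]
    exact ⟨v, j * q, by push_cast at e4 ⊢; linear_combination j * e4 + v * froot Q * hl'⟩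
  have hp : IsCoprime p 15 := IsCoprime.mul_right (y := 3) (z := 5)
    (Int.prime_three.coprime_iff_not_dvd.2 fun k => by simpa using key 3 5 rfl k).symm
    ((Int.prime_iff_natAbs_prime.2 (by norm_num) : Prime (5 : ℤ)).coprime_iff_not_dvd.2
      fun k => by simpa using key 5 3 rfl k).symm
  rw [← Gal.Pr.pt_eq i1 i2 hp ((Gal.pr_refl _ _).of_sc s ((mem_lat15 i1).2 ⟨0, q, by
    rw [e4]; simp⟩)), Gal.pmap_refl]

theorem yP_cl (ok : OkR n c r) (hI : IsIv (Oc n c) I) (h : Hg n c r I Q) :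
    yP n c r (cl _ I) = pt (froot Q) := by
  obtain ⟨h1, h2⟩ := (cl_surj (cl (Oc n c) I)).choose_spec
  obtain ⟨a, ha, e⟩ := (cl_eq_iff hI h1).1 h2.symm
  have h3 : Hg n c r (cl_surj (cl (Oc n c) I)).choose Q := e ▸ h.sc ha
  rw [yP, dif_pos ⟨Q, h3⟩]
  exact Hg.unique ok (Exists.choose_spec ⟨Q, h3⟩) h3

theorem jC_yQ (ok : OkR n c r) (x : Pc n c) : pmap jC (yQ n c r x) = yP n c r x := by
  obtain ⟨I, hI, rfl⟩ := cl_surj x
  obtain ⟨Q, h⟩ := exists_hg ok hI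
  refine Function.invFun_eq (exists_pt_of_alg ?_)
  rw [yP_cl ok hI h]
  exact (Gal.alg_pt ok.neg h.1).1

theorem Ex.pmap {σ : ℂ ≃+* ℂ} (e : Ex g σ) (P : EE) :
    pmap jC (g • P) = pmap (σ : ℂ →+* ℂ) (pmap jC P) := by
  rw [smul_pt, pmap_pmap, pmap_pmap]
  exact congrArg (MP_696deb_nt.pmap · P) (RingHom.ext fun x => (e x).symm)

/-- The form of the conjugate point belongs to the conjugate class. -/
theorem hg_gal (ok : OkR n c r) (hg : g ∈ GK n) {σ : ℂ ≃+* ℂ} (e : Ex g σ) (hI : IsIv (Oc n c) I)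
    (h : Hg n c r I Q) : ∃ I' Q', IsIv (Oc n c) I' ∧ Hg n c r I' Q' ∧
      cl _ I' = rho n c g * cl _ I ∧ pmap (σ : ℂ →+* ℂ) (pt (froot Q)) = pt (froot Q') := by
  have i1 := h.im_pos ok
  obtain ⟨h, a, ha, rfl⟩ := h
  obtain ⟨Q', h1, h2⟩ := Gal.gal_form (σ := σ) (ε := 1) ok.neg h (.inl rfl) (by
    rw [del_eq, map_mul, map_natCast, e.dl hg, Int.cast_one, one_mul])
  rw [one_mul] at h1
  have i2 := h1.im_pos ok.neg
  obtain ⟨-, -, u, M, k1, k2, -⟩ := Gal.exists_pr_of_pt i1 i2 h2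
  have k3 : CjS σ (sc a (sp2 (15 * froot Q) 1)) (sc (σ a) (sc u (sp2 (15 * froot Q') 1))) :=
    CjS.sc ⟨_, _, lat15_eq i1, by rw [cmp_sc k1, lat15_eq i2], k2⟩ ha
  exact ⟨_, Q', k3.isIv ok.toOk (.inl (e.dl hg)) hI,
    Hg.sc ⟨h1, u, k1.ne, rfl⟩ ((map_ne_zero σ).2 ha), cl_cj ok.toOk hg e hI k3, h2⟩

theorem smul_yQ (ok : OkR n c r) (hg : g ∈ GK n) (x : Pc n c) :
    g • yQ n c r x = yQ n c r (rho n c g * x) := by
  obtain ⟨I, hI, rfl⟩ := cl_surj x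
  obtain ⟨Q, h⟩ := exists_hg ok hI
  obtain ⟨σ, e⟩ := exists_ex g
  obtain ⟨I', Q', h1, h2, h3, h4⟩ := hg_gal ok hg e hI h
  refine pmap_injective jC ?_
  rw [e.pmap, jC_yQ ok, jC_yQ ok, ← h3, yP_cl ok hI h, yP_cl ok h1 h2, h4]

theorem cmp_mul (ok : OkR n c r) (h : IsHg (-(n * c ^ 2)) (r * c) Q) :
    idl n c 15 (r * c) * sp2 (15 * starRingEnd ℂ (froot Q)) 1 =
      sp2 15 (15 * starRingEnd ℂ (froot Q)) := by
  obtain ⟨A, k, -, -, a3, a4⟩ := h.alp ok.neg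
  obtain ⟨u, v, e⟩ := ok.cop_r
  have e' : (u : ℂ) * (r * c) + v * 15 = 1 := by exact_mod_cast e
  have a5 : starRingEnd ℂ (be n c (r * c)) = r * c - be n c (r * c) := by
    simp only [be, map_div₀, map_add, map_mul, map_intCast, map_natCast, map_ofNat, conj_dl]
    push_cast
    ring
  rw [alp_eq] at a3 a4
  replace a3 := congr_arg (starRingEnd ℂ) a3
  replace a4 := congr_arg (starRingEnd ℂ) a4
  simp only [map_add, map_mul, map_intCast, map_ofNat, a5] at a3 a4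
  rw [idl]
  generalize starRingEnd ℂ (froot Q) = t at a3 a4
  generalize be n c (r * c) = β at a3 a4
  push_cast at a3 a4 ⊢
  refine le_antisymm (sp2_mul_le.2 ⟨mem_sp2.2 ⟨0, 15, by simp⟩, mem_sp2.2 ⟨1, 0, by simp⟩,
    mem_sp2.2 ⟨Q.2.2, r * c + 15 * k, by push_cast; linear_combination -15 * a4⟩,
    mem_sp2.2 ⟨-k, -A, by push_cast; linear_combination -a3⟩⟩) ?_
  obtain ⟨m1, m2, m3, -⟩ := (sp2_mul_le (a := 15) (b := β) (c := 15 * t) (d := 1)).1 le_rfl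
  refine sp2_le.2 ⟨by simpa using m2, ?_⟩
  convert add_mem (add_mem (int_mul_mem m1 (v - u * k)) (int_mul_mem m2 (-u * Q.2.2)))
    (int_mul_mem m3 u) using 1
  push_cast
  linear_combination 15 * u * a4 - 15 * t * e'

theorem cc_yQ (ok : OkR n c r) : ∃ b : Pc n c, ∀ x, cc • yQ n c r x = P4 - yQ n c r (b * x⁻¹) := by
  refine ⟨cl _ (idl n c 15 (r * c)), fun x => ?_⟩
  obtain ⟨I, hI, rfl⟩ := cl_surj x
  obtain ⟨Q, h⟩ := exists_hg ok hI
  obtain ⟨k, hk⟩ := ok.root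
  obtain ⟨u, v, e⟩ := ok.cop_r
  have h1 : IsIv (Oc n c) (idl n c 15 (r * c)) := isIv_idl (k := k * c ^ 2) ok.m4
    (by linear_combination c ^ 2 * hk) (by norm_num) ⟨v, u, 0, by linear_combination e⟩
  have h2 : (starRingAut : ℂ ≃+* ℂ) (dl n) = -dl n := conj_dl n
  have h3 := hI.mp ok.m4 (.inr h2)
  have h4 := cmp_st ok.neg h.1
  have h5 : Hg n c r (idl n c 15 (r * c) * mp starRingAut I) (Gal.st Q) := by
    obtain ⟨h, a, ha, rfl⟩ := h
    rw [mp_sc, mul_sc, mp_sp2, map_one, map_mul, map_ofNat]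
    refine Hg.sc ⟨(Gal.st_spec ok.neg h).1, 15 * starRingEnd ℂ (froot Q),
      mul_ne_zero (by norm_num) (left_ne_zero_of_mul_eq_one h4), ?_⟩ ((map_ne_zero _).2 ha)
    rw [sc_sp2, mul_assoc, h4, mul_one, mul_one]
    exact cmp_mul ok h
  refine pmap_injective jC ?_
  rw [jC_cc_pt, map_sub, jC_yQ ok, jC_yQ ok, ← cl_mp_neg ok.toOk h2 hI, ← cl_mul h1 h3,
    yP_cl ok hI h, yP_cl ok (h1.mul h3) h5, ← Gal.pt_st ok.neg h.1, Unif.u15_alC_three,
    eq_sub_iff_add_eq, add_sub_cancel]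
  exact Pool.Agent.Shared.Weier.IsPer.some_congr (by simp [map_ofNat]) (by simp [map_ofNat])

end Pool.Agent.Lib.MP_696deb_nt.B2.CM
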