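import Pool.Agent.Lib.MP_696deb_nt.B2.GWd
import Pool.Agent.Lib.MP_696deb_nt.B2.CLh

/-! Quadratic characters of local fields. -/

set_option autoImplicit false

open scoped NNReal Classical
open Finset

namespace Pool.Agent.Lib.MP_696deb_nt.B2

variable {H D : Subgroup Gam} {w : Plc} {χ κ : Gam → Z2}

/-- Every smooth quadratic character of a closed subgroup is a Kummer character. -/
theorem exists_kum_tr (hD : IsClosed (D : Set Gam)) (h : Coc D tr χ) : ∃ x, Kum 1 D x χ :=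
  kum_surj hD h.1 fun g hg k hk => by rw [h.2 g hg k hk, cy_one_eq, one_mul, tr_apply]

theorem GWg_uniq {x : Qbar} (h : Kum 1 D x χ) (h' : Kum 1 D x κ) : ∀ g ∈ D, χ g = κ g := by
  obtain ⟨t, ht⟩ := h.sub h'
  exact fun g hg => sub_eq_zero.1 (by rw [ht g hg, cy_one_eq, sub_self, zero_mul])

theorem GWg_sq {x : Qbar} (h : Kum 1 D x χ) :
    (∃ r, Fx D r ∧ r ^ 2 = x) ↔ ∀ g ∈ D, χ g = 0 := by
  refine h.pow_iff.trans ?_
  simp only [cy_one_eq, sub_self, zero_mul, exists_const]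

theorem GWg_closed (hH : Op H) (w : Plc) : IsClosed ((H ⊓ Dec w : Subgroup Gam) : Set Gam) :=
  hH.closed.inter (closed_Dec w)

theorem GWg_le (H : Subgroup Gam) (w : Plc) : H ⊓ Ine w ≤ H ⊓ Dec w :=
  inf_le_inf_left H (Ine_le w)

theorem GWg_odd (L : LD H w) {y : Qbar} (hy : Fx (H ⊓ Ine w) y) : w.V L.π ≠ w.V y ^ 2 := by
  intro h
  obtain ⟨k, hk⟩ := L.val y hy fun h0 => L.π_pos.ne' (by simp [h, h0])
  rw [hk, ← zpow_natCast, ← zpow_mul] at h
  have h1 : (1 : ℤ) = k * (2 : ℕ) :=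
    zpow_right_injective₀ L.π_pos L.π_lt.ne ((zpow_one _).trans h)
  omega

theorem GWg_kum (L : LD H w) : ∃ κ, Kum 1 (H ⊓ Dec w) L.π κ :=
  exists_kum 1 L.π_ne fun g hg => L.π_fx g hg.1

theorem GWg_om (L : LD H w) : Coc (H ⊓ Dec w) tr (L.om 1) := coc_tr.2 ⟨L.om_sm 1, L.om_hom 1⟩

theorem card_Z1_tr_eq (hD : IsClosed (D : Set Gam)) : Nat.card (Z1 D tr) = sqIdx D := by
  choose κ hκ using fun x : FU D => exists_kum (H := D) 1 x.1.ne_zero x.2
  let f : FU D →* Multiplicative (Z1 D tr) := MonoidHom.mk'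
    (fun x => Multiplicative.ofAdd ⟨rs D (κ x), rs_mem_Z1 (hκ x).coc_tr⟩) fun x y => by
      refine congrArg Multiplicative.ofAdd (Subtype.ext (funext fun g => ?_))
      change rs D (κ (x * y)) g = (rs D (κ x) + rs D (κ y)) g
      rw [← map_add]
      by_cases hg : g ∈ D
      · rw [rs_of_mem hg, rs_of_mem hg]
        exact GWg_uniq (hκ (x * y)) ((hκ x).mul (hκ y)) g hg
      · rw [rs_of_notMem hg, rs_of_notMem hg]
  have h1 : f.range = ⊤ := MonoidHom.range_eq_top.2 fun c => by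
    obtain ⟨x, hx⟩ := exists_kum_tr hD (Multiplicative.toAdd c).2.1
    refine ⟨⟨Units.mk0 x hx.fx.1, hx.fx.2⟩, congrArg Multiplicative.ofAdd (Subtype.ext
      (funext fun g => ?_))⟩
    by_cases hg : g ∈ D
    · exact (rs_of_mem hg _).trans (GWg_uniq (hκ _) hx g hg)
    · exact (rs_of_notMem hg _).trans ((Multiplicative.toAdd c).2.2 g hg).symm
  have h2 : ((FU D).map (powMonoidHom 2)).subgroupOf (FU D) = f.ker := by
    ext x
    have h3 : x ∈ f.ker ↔ ∀ g ∈ D, κ x g = 0 := by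
      refine (Subtype.ext_iff.trans funext_iff).trans ⟨fun h g hg => ?_, fun h g => ?_⟩
      · exact (rs_of_mem hg _).symm.trans (h g)
      · by_cases hg : g ∈ D
        · exact (rs_of_mem hg _).trans (h g hg)
        · exact rs_of_notMem hg _
    rw [h3, ← GWg_sq (hκ x), Subgroup.mem_subgroupOf, Subgroup.mem_map]
    constructor
    · rintro ⟨r, r1, r2⟩
      exact ⟨r, r1, congrArg Units.val r2⟩
    · rintro ⟨r, r1, r2⟩
      exact ⟨Units.mk0 r fun h => x.1.ne_zero (by rw [← r2, h, zero_pow two_ne_zero]), r1,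
        Units.ext r2⟩
  rw [sqIdx, Subgroup.relIndex, h2, Subgroup.index_ker, h1, Subgroup.card_top]
  rfl

theorem card_Z1_tr (hH : Op H) (w : Plc) :
    Nat.card (Z1 (H ⊓ Dec w) tr) = 2 ^ (2 + ldeg H w) := by
  rw [card_Z1_tr_eq (GWg_closed hH w), sqIdx_eq hH, ldeg]
  split_ifs
  · rw [pow_add]
    rfl
  · rfl

theorem finite_Z1_tr (hH : Op H) (w : Plc) : Finite (Z1 (H ⊓ Dec w) tr) :=
  Nat.finite_of_card_ne_zero (by rw [card_Z1_tr hH]; positivity)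

/-- A uniformizer is not a norm from the unramified quadratic extension. -/
theorem inv_om_unif (F : CFT) (hH : Op H) (L : LD H w) (h : Kum 1 (H ⊓ Dec w) L.π κ) :
    F.inv 1 H w (cupb mu2 tr (L.om 1) κ) = 1 := by
  refine (Z2.cases _).resolve_left fun h0 => ?_
  obtain ⟨u, hu⟩ := exists_kum_tr (GWg_closed hH w) (GWg_om L)
  rw [F.zero_iff hH (c2_cupb (dual_tr _) (GWg_om L) h.coc_tr), cupb_tr] at h0
  obtain ⟨x, y, hx, hy, e⟩ := norm_of_spl hu h (GWg_closed hH w) h0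
  obtain ⟨r, -, rfl, hr⟩ := hu
  refine GWg_odd L (y := x + y * r) (fun g hg => ?_) ?_
  · have hg' := GWg_le H w hg
    rw [map_add, map_mul, hx g hg', hy g hg', hr g hg', L.om_ine 1 hg, ZMod.val_zero, pow_zero,
      mul_one]
  · have h1 : L.φ (x + y * r) = x - y * r := by
      rw [map_add, map_mul, hx _ L.φ_mem', hy _ L.φ_mem', hr _ L.φ_mem', L.om_φ, b3b_neg]
      ring
    rw [sq]
    nth_rw 1 [← mem_Dec.1 L.φ_mem'.2 (x + y * r)]
    rw [h1, ← map_mul, e]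
    congr 1
    ring

/-- The Hilbert symbol is nondegenerate. -/
theorem nondeg_tr (F : CFT) (hH : Op H) (h : Coc (H ⊓ Dec w) tr χ)
    (k : ∀ κ, Coc (H ⊓ Dec w) tr κ → F.inv 1 H w (cupb mu2 tr χ κ) = 0) :
    ∀ g ∈ H ⊓ Dec w, χ g = 0 := by
  obtain ⟨h1, h2⟩ := coc_tr.1 h
  obtain ⟨L⟩ := exists_LD hH w
  have h3 := L.unr_eq h1 h2 (F.crit hH h1 h2 fun a κ _ _ hκ =>
    cupb_tr χ κ ▸ k κ (hκ.mono inf_le_left).coc_tr)
  rcases Z2.cases (χ L.φ) with h4 | h4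
  · exact fun g hg => by rw [h3 g hg, h4, zero_mul]
  · obtain ⟨κ, hκ⟩ := GWg_kum L
    have h5 := k κ hκ.coc_tr
    rw [inv_cupb_congr F (c₁ := L.om 1) (fun g hg => by rw [h3 g hg, h4, one_mul])
      fun _ _ => rfl, inv_om_unif F hH L hκ] at h5
    exact (b3b_one h5).elim

section

variable {M : Type} [AddCommGroup M] {a : Gam → M →+ M} {c : Gam → M} {τ : Gam}

/-- A cocycle that kills a generator of tame inertia is unramified. -/
theorem TG.unr (hτ : TG H w τ) (h : Coc (H ⊓ Dec w) a c) {m : ℕ} (hm : ∀ x : M, 2 ^ m • x = 0)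
    (k : ∀ σ ∈ H ⊓ Ine w, ∀ x, a σ x = x) (h0 : c τ = 0) : ∀ σ ∈ H ⊓ Ine w, c σ = 0 := by
  intro σ hσ
  obtain ⟨j, hj⟩ := hτ.2 (Multiplicative M) (fun g => Multiplicative.ofAdd (c g))
    ((h.1.mono (GWg_le H w)).comp _) (fun g hg g' hg' => by
      beta_reduce
      rw [h.2 g (GWg_le H w hg) g' (GWg_le H w hg'), k g hg, ofAdd_add])
    (fun g _ => ⟨m, by rw [← ofAdd_nsmul, hm, ofAdd_zero]⟩) σ hσ
  simpa [h0] using hj

/-- An unramified cocycle that kills Frobenius is zero. -/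
theorem LD.unr_zero (L : LD H w) (ha : Act (H ⊓ Dec w) a) (h : Coc (H ⊓ Dec w) a c)
    (u : ∀ σ ∈ H ⊓ Ine w, c σ = 0) (h0 : c L.φ = 0) : ∀ g ∈ H ⊓ Dec w, c g = 0 := by
  have h1 : ∀ j : ℕ, c (L.φ ^ j) = 0 := fun j => by
    induction j with
    | zero => exact h.one ha
    | succ j ih => rw [pow_succ, h.2 _ (pow_mem L.φ_mem' j) _ L.φ_mem', ih, h0, map_zero, add_zero]
  intro g hg
  obtain ⟨U, u1, -, u3⟩ := h.1
  obtain ⟨j, σ, hσ, e⟩ := L.gen g hg U u1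
  rw [← u3 _ (mul_mem (pow_mem L.φ_mem' j) (GWg_le H w hσ)) g hg e.1,
    h.2 _ (pow_mem L.φ_mem' j) _ (GWg_le H w hσ), h1, u σ hσ, map_zero, add_zero]

end

theorem GWg_unr {τ : Gam} (hτ : TG H w τ) (h : Coc (H ⊓ Dec w) tr χ) (h0 : χ τ = 0) :
    ∀ σ ∈ H ⊓ Ine w, χ σ = 0 :=
  hτ.unr h (m := 1) (fun x => (two_nsmul x).trans (Z2.add_self x)) (fun _ _ _ => rfl) h0

theorem TG.kum_unif {τ : Gam} (hτ : TG H w τ) (hH : Op H) (hw : w.p ≠ 2) (L : LD H w)
    (h : Kum 1 (H ⊓ Dec w) L.π κ) : κ τ = 1 := by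
  refine (Z2.cases _).resolve_left fun h0 => ?_
  obtain ⟨y, hy, e⟩ := (kum_unr_iff hH hw h).1 (GWg_unr hτ h.coc_tr h0)
  exact GWg_odd L (fun g hg => hy g hg.1) e

/-- The tame symbol of a character and an unramified character. -/
theorem inv_tr_unr (F : CFT) (hH : Op H) (hw : w.p ≠ 2) (L : LD H w) {τ : Gam} (hτ : TG H w τ)
    (h : Coc (H ⊓ Dec w) tr χ) (h' : Coc (H ⊓ Dec w) tr κ) (u : ∀ σ ∈ H ⊓ Ine w, κ σ = 0) :
    F.inv 1 H w (cupb mu2 tr χ κ) = χ τ * κ L.φ := by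
  have h3 := L.unr_eq (coc_tr.1 h').1 (coc_tr.1 h').2 u
  rcases Z2.cases (κ L.φ) with h4 | h4
  · rw [h4, mul_zero]
    exact inv_cupb_right F hH (dual_tr _) h (y := 0) fun g hg => by
      rw [h3 g hg, h4, zero_mul, cob, map_zero, sub_zero]
  rcases Z2.cases (χ τ) with h5 | h5
  · rw [h5, zero_mul]
    exact inv_cupb_unr F hH (dual_tr _) (fun _ _ _ => rfl) h h' (GWg_unr hτ h h5) u
  obtain ⟨p, hp⟩ := GWg_kum L
  have h6 := inv_cupb_unr F hH (dual_tr _) (fun _ _ _ => rfl) (h.add hp.coc_tr) h'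
    (GWg_unr hτ (h.add hp.coc_tr) (by rw [Pi.add_apply, h5, hτ.kum_unif hH hw L hp, b3b_add])) u
  have h7 := inv_cupb_flip F hH (dual_tr _) h' hp.coc_tr
  rw [show mu2.flip = mu2 from AddMonoidHom.ext fun x => AddMonoidHom.ext fun y => mul_comm y x,
    inv_cupb_congr F (c := κ) (c₁ := L.om 1) (fun g hg => by rw [h3 g hg, h4, one_mul])
      fun _ _ => rfl, inv_om_unif F hH L hp] at h7
  rw [inv_cupb_add_left F hH (dual_tr _) h hp.coc_tr h', h7, add_neg_eq_zero] at h6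
  rw [h6, h4, h5, mul_one]

end Pool.Agent.Lib.MP_696deb_nt.B2
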