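import Pool.Agent.Lib.MP_696deb_nt.B2.CMp
import Pool.Agent.Lib.MP_696deb_nt.B2.CMf
import Pool.Agent.Lib.MP_696deb_nt.B2.CMe

/-! Genus characters. -/

set_option autoImplicit false

open scoped Classical NumberTheorySymbols

namespace Pool.Agent.Lib.MP_696deb_nt.B2.CM

variable {n c p : ℕ} {r : ℤ} {I : Lt} {Q Q' : Fm} {g : Gam} {R : Finset Fm}

theorem cml_pst (hp : p.Prime) (h2 : p ≠ 2) : pst p = J(-1 | p) * p := by
  have ho := hp.odd_of_ne_two h2
  rw [jacobiSym.at_neg_one ho, pst]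
  split_ifs with h
  · rw [ZMod.χ₄_nat_one_mod_four h, one_mul]
  · rw [ZMod.χ₄_nat_three_mod_four (by have := Nat.odd_iff.1 ho; omega), neg_one_mul]

theorem cml_pst_ne (hp : p ≠ 0) : pst p ≠ 0 := by
  unfold pst
  split_ifs <;> omega

theorem chi_pst (hp : p.Prime) (h2 : p ≠ 2) {σ : ℂ ≃+* ℂ} (e : Ex g σ) {κ : ℤ}
    (hκ : ∀ ζ : ℂ, ζ ^ p = 1 → σ ζ = ζ ^ κ) : (chi (pst p) g : ℤ) = J(κ | p) := by
  have hx : jC (rt (pst p)) ^ 2 = J(-1 | p) * p := by
    rw [← map_pow, rt_sq, map_intCast, cml_pst hp h2, Int.cast_mul, Int.cast_natCast]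
  have h1 := Gal.aut_sqrt (hp.odd_of_ne_two h2) hp.prime.squarefree hκ hx
  rw [e, chi_spec (rt_sq _) g, map_mul, map_intCast] at h1
  exact Int.cast_injective (α := ℂ)
    (mul_right_cancel₀ ((map_ne_zero jC).2 (b1b_rt_ne (cml_pst_ne hp.ne_zero))) h1)

theorem gp_ne (ok : OkR n c r) (hI : IsIv (Oc n c) I) (h : Hg n c r I Q) (hp : p.Prime)
    (h30 : ¬ p ∣ 30) (hd : p ∣ n * c) : Gal.gp p Q = 1 ∨ Gal.gp p Q = -1 := by
  obtain ⟨h, t, ht, rfl⟩ := h
  obtain ⟨a, k, h1, h2, h3, -⟩ := h.alp ok.neg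
  have hD := h.disc
  have a0 : a ≠ 0 := by have := h.pos; omega
  have e : (-Q.2.1) ^ 2 + n * c ^ 2 = 4 * a * (15 * Q.2.2) := by
    rw [fdisc, h1] at hD
    linear_combination hD
  have hb : be n c (-Q.2.1) = a * (15 * froot Q) := by
    rw [alp_eq, be] at h3
    rw [be, h2]
    push_cast at h3 ⊢
    linear_combination h3
  have e2 : sc (a * t⁻¹) (sc t (sp2 (15 * froot Q) 1)) = idl n c a (-Q.2.1) := by
    rw [sc_sc, mul_assoc, inv_mul_cancel₀ ht, mul_one, sc_sp2, idl, hb, mul_one, sp2, sp2,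
      Set.pair_comm]
  have h4 := hI.sc (mul_ne_zero (Int.cast_ne_zero.2 a0) (inv_ne_zero ht))
  rw [e2] at h4
  obtain ⟨x, y, z, hx⟩ := prim_of_mult ok.toOk e fun u hu => h4.mem_of_mul hu
  have hP := Nat.prime_iff_prime_int.1 hp
  have h15 : ¬ (p : ℤ) ∣ 15 := fun k => h30 (by
    have : p ∣ 15 := by exact_mod_cast k
    exact this.trans (by norm_num))
  unfold Gal.gp
  split_ifs with hA
  · refine sq_eq_one_iff.1 (jac_sq hp fun hC => ?_)
    have ha : (p : ℤ) ∣ a := (hP.dvd_or_dvd (h1 ▸ hA)).resolve_left h15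
    have hB : (p : ℤ) ∣ Q.2.1 := hP.dvd_of_dvd_pow (n := 2) (by
      have : (p : ℤ) ∣ n * c := by exact_mod_cast hd
      rw [show Q.2.1 ^ 2 = a * (60 * Q.2.2) - n * c * c by linear_combination e]
      exact dvd_sub (ha.mul_right _) (this.mul_right _))
    exact hP.not_dvd_one (hx ▸ dvd_add (dvd_add (ha.mul_left _) (hB.neg_right.mul_left _))
      ((hC.mul_left _).mul_left _))
  · exact sq_eq_one_iff.1 (jac_sq hp hA)

theorem gp_gal (ok : OkR n c r) (hg : g ∈ GK n) {x : Pc n c} (hp : p.Prime) (h30 : ¬ p ∣ 30)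
    (hd : p ∣ n * c) (h : IsHg (-(n * c ^ 2)) (r * c) Q) (h' : IsHg (-(n * c ^ 2)) (r * c) Q')
    (e : yP n c r x = pt (froot Q)) (e' : yP n c r (rho n c g * x) = pt (froot Q')) :
    Gal.gp p Q' = chi (pst p) g * Gal.gp p Q := by
  obtain ⟨σ, hσ⟩ := exists_ex g
  obtain ⟨κ, -, hκ⟩ := Gal.exists_pow_zeta σ hp.pos
  have h2 : p ≠ 2 := by
    rintro rfl
    exact h30 (by norm_num)
  have h3 : (p : ℤ) ∣ -(n * c ^ 2) := by
    have : (p : ℤ) ∣ n * c := by exact_mod_cast hd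
    rw [dvd_neg, sq, ← mul_assoc]
    exact this.mul_right _
  have h4 := Gal.gal_gp (ε := 1) (σ := σ) (Q' := Q') ok.neg h (.inl rfl)
    (by rw [del_eq, map_mul, map_natCast, hσ.dl hg, Int.cast_one, one_mul]) (by rwa [one_mul])
    (by rw [← e, ← e', ← jC_yQ ok, ← jC_yQ ok, ← hσ.pmap, smul_yQ ok hg]) hp h30 h3 hκ
  rw [h4, one_mul, chi_pst hp h2 hσ hκ]

theorem chi_of_rho (ok : OkR n c r) (hg : g ∈ GK n) (hp : p.Prime) (h30 : ¬ p ∣ 30)
    (hd : p ∣ n * c) (h : tq _ (rho n c g) = 1) : chi (pst p) g = 1 := by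
  obtain ⟨k, hk, h⟩ := tq_eq_one.1 h
  obtain ⟨Q, hQ⟩ := exists_hg ok (isIv_one _)
  have e := yP_cl ok (isIv_one _) hQ
  have h1 := gp_gal ok ((GK n).pow_mem hg k) hp h30 hd hQ.1 hQ.1 e
    (by rw [rho_pow ok.toOk hg, h, one_mul, e])
  have h2 := gp_ne ok (isIv_one _) hQ hp h30 hd
  refine (Int.units_eq_one_or _).resolve_right fun h3 => ?_
  rw [map_pow, h3, hk.neg_one_pow, Units.val_neg, Units.val_one] at h1
  omega

theorem chi_eq_prod {e : ℤ} (hs : Squarefree e) (h4 : e % 4 = 1) (g : Gam) :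
    chi e g = ∏ p ∈ e.natAbs.primeFactors, chi (pst p) g := by
  have h1 : (∏ p ∈ e.natAbs.primeFactors, pst p).natAbs = e.natAbs :=
    (map_prod Int.natAbsHom _ _).trans ((Finset.prod_congr rfl fun p _ => by
      change (pst p).natAbs = p
      unfold pst
      split_ifs <;> omega).trans
        (Nat.prod_primeFactors_of_squarefree (Int.squarefree_natAbs.2 hs)))
  have h2 : (∏ p ∈ e.natAbs.primeFactors, pst p) % 4 = 1 :=
    Finset.prod_induction _ (fun x => x % 4 = 1)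
      (fun a b ha hb => by rw [Int.mul_emod, ha, hb]; rfl) rfl fun p hp => by
        have : p % 2 = 1 := by
          by_contra h
          have : 2 ∣ e.natAbs :=
            (Nat.dvd_of_mod_eq_zero (by omega)).trans (Nat.dvd_of_mem_primeFactors hp)
          omega
        unfold pst
        split_ifs <;> omega
  have h3 : ∏ p ∈ e.natAbs.primeFactors.attach, pst p = e := by
    rw [Finset.prod_attach]
    omega
  rw [← Finset.prod_attach, ← b1b_prod _ fun p : e.natAbs.primeFactors =>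
    cml_pst_ne (Nat.prime_of_mem_primeFactors p.2).ne_zero, h3]

theorem cml_30 (hn : Good n) (hp : p.Prime) (h : p ∣ n) : ¬ p ∣ 30 := fun k =>
  hp.not_dvd_one (hn.cop30 ▸ Nat.dvd_gcd h k)

theorem chi_of_rho_one (ok : OkR n 1 r) (hs : Squarefree n) (hg : g ∈ GK n) {e : ℤ} (he : e ∣ n)
    (h4 : e % 4 = 1) (h : tq _ (rho n 1 g) = 1) : chi e g = 1 := by
  rw [chi_eq_prod ((Int.squarefree_natCast.2 hs).squarefree_of_dvd he) h4]
  refine Finset.prod_eq_one fun p hp => ?_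
  have h1 := Nat.prime_of_mem_primeFactors hp
  have h2 : p ∣ n := (Nat.dvd_of_mem_primeFactors hp).trans (Int.natAbs_dvd_natAbs.2 he)
  exact chi_of_rho ok hg h1 (cml_30 ⟨hs, ok.m4, mul_one n ▸ ok.cop⟩ h1 h2) (h2.mul_right _) h

theorem cml_feq (ok : OkR n c r) (h : Hg n c r I Q) (e : FEq Q Q') : Hg n c r I Q' := by
  obtain ⟨h, t, ht, rfl⟩ := h
  have h' := h.of_feq ok.neg e
  obtain ⟨a, b, c', d, e, rfl⟩ := e
  have S := (Gal.sc_mob e (h'.im_pos ok.neg)).1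
  rw [mob_froot e (h.disc ▸ ok.neg) h.pos] at S
  refine ⟨h', _, mul_ne_zero ht (inv_ne_zero S.ne), ?_⟩
  rw [← sc_sc, ← lat15_eq (h.im_pos ok.neg), ← lat15_eq (h'.im_pos ok.neg)]
  refine congrArg _ (Submodule.ext fun z => ?_)
  rw [← S.mem, ← mul_mem_sc (inv_ne_zero S.ne), inv_mul_cancel_left₀ S.ne]

theorem cml_isIv (ok : OkR n 1 r) (hs : Squarefree n)
    (h : IsHg (-(n * (1 : ℕ) ^ 2)) (r * (1 : ℕ)) Q) : IsIv (Oc n 1) (sp2 (15 * froot Q) 1) := by
  have h0 := h.im_pos ok.neg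
  obtain ⟨N, hN⟩ := ok.root
  have h1 : (r * (1 : ℕ)) ^ 2 + n * (1 : ℕ) ^ 2 = 4 * (15 * N) := by
    push_cast
    linear_combination hN
  refine isIv_of_sqf ok.toOk hs (isLat_sp2 (by simpa using h0.ne')) fun a ha z hz => ?_
  rw [← mem_ot, ot_Oc ok.m4 (two_dvd_sub ok.m4 h1)] at ha
  obtain ⟨u, v, rfl⟩ := mem_sp2.1 ha
  have h2 := (h.mul_mem ok.neg).2 z (by rwa [lat15_eq h0])
  rw [lat15_eq h0, alp_eq] at h2
  rw [add_mul, mul_one, mul_assoc]
  exact add_mem (int_mul_mem hz u) (int_mul_mem h2 v)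

/-- The classes of the maximal order correspond to the Heegner forms. -/
theorem exists_bij (ok : OkR n 1 r) (hs : Squarefree n) (hR : HReps (-n) r R) :
    ∃ e : Pc n 1 → Fm, Set.BijOn e Set.univ R ∧ ∀ x, yP n 1 r x = pt (froot (e x)) := by
  replace hR : HReps (-(n * (1 : ℕ) ^ 2)) (r * (1 : ℕ)) R := by simpa using hR
  have h1 : ∀ x : Pc n 1, ∃ Q ∈ R, ∃ I, IsIv (Oc n 1) I ∧ cl _ I = x ∧ Hg n 1 r I Q := fun x => by
    obtain ⟨I, hI, e⟩ := cl_surj x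
    obtain ⟨Q, hQ⟩ := exists_hg ok hI
    obtain ⟨Q', h2, h3⟩ := hR.ex Q hQ.1
    exact ⟨Q', h2, I, hI, e, cml_feq ok hQ h3.symm⟩
  choose e he I hI hx hQ using h1
  have hy : ∀ x, yP n 1 r x = pt (froot (e x)) := fun x => by
    rw [← yP_cl ok (hI x) (hQ x), hx]
  refine ⟨e, ⟨fun x _ => he x, fun x _ y _ h => ?_, fun Q h => ?_⟩, hy⟩
  · obtain ⟨-, a, ha, h2⟩ := hQ x
    obtain ⟨-, b, hb, h3⟩ := hQ y
    rw [← hx x, ← hx y, cl_eq_iff (hI x) (hI y)]
    exact ⟨b * a⁻¹, mul_ne_zero hb (inv_ne_zero ha), by rw [h2, h3, ← sc_sc, sc_inv_sc ha, h]⟩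
  · have h2 := hR.mem Q h
    have h3 := yP_cl ok (cml_isIv ok hs h2) ⟨h2, 1, one_ne_zero, (sc_one _).symm⟩
    exact ⟨_, trivial, hR.uniq _ (he _) _ h
      ((Gal.feq_iff_pt ok.neg (hQ _).1 h2).2 ((hy _).symm.trans h3))⟩

/-- Under the condition on the class group, its two-primary part has exponent two. -/
theorem tq_sq (ok : OkR n 1 r) (hn : Good n) (hB : CondB n) (x : Pc n 1) : tq _ x ^ 2 = 1 := by
  obtain ⟨R, hR⟩ := Gal.exists_hreps (-n) r hn.neg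
  obtain ⟨e, he, hy⟩ := exists_bij ok hn.sqf hR
  let H : Subgroup (Pc n 1) :=
    { carrier := {x | ∃ g ∈ GK n, (∀ p ∈ n.primeFactors, chi (pst p) g = 1) ∧ rho n 1 g = x}
      one_mem' := ⟨1, one_mem _, fun _ _ => map_one _, rho_one ok.toOk⟩
      mul_mem' := by
        rintro _ _ ⟨g, hg, h1, rfl⟩ ⟨h, hh, h2, rfl⟩
        exact ⟨g * h, mul_mem hg hh, fun p hp => by rw [map_mul, h1 p hp, h2 p hp, one_mul],
          rho_mul ok.toOk hg h⟩
      inv_mem' := by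
        rintro _ ⟨g, hg, h1, rfl⟩
        exact ⟨g⁻¹, inv_mem hg, fun p hp => by rw [map_inv, h1 p hp, inv_one],
          rho_inv ok.toOk hg⟩ }
  have hQ : ∀ x, IsHg (-n) r (e x) := fun x => hR.mem _ (he.1 trivial)
  have hQ' : ∀ x, IsHg (-(n * (1 : ℕ) ^ 2)) (r * (1 : ℕ)) (e x) := fun x => by simpa using hQ x
  have key : ∀ g ∈ GK n, ∀ p ∈ n.primeFactors,
      hil n p (e (rho n 1 g)).2.2 = chi (pst p) g * hil n p (e 1).2.2 := fun g hg p hp => by
    have h1 := Nat.prime_of_mem_primeFactors hp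
    have h2 := Nat.dvd_of_mem_primeFactors hp
    rw [← Gal.gp_eq_hil hn.sqf hp (hQ _).disc (hQ _).pos,
      ← Gal.gp_eq_hil hn.sqf hp (hQ _).disc (hQ _).pos]
    exact gp_gal ok hg h1 (cml_30 hn h1 h2) (h2.mul_right _) (hQ' 1) (hQ' _) (hy 1)
      (by rw [mul_one, hy])
  have hε := Gal.sgn_hil hn (hQ 1).disc (hQ 1).pos
  have hb : Set.BijOn e H (gen n R fun p => hil n p (e 1).2.2) := by
    refine ⟨?_, he.injOn.mono (Set.subset_univ _), fun Q h => ?_⟩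
    · rintro _ ⟨g, hg, h1, rfl⟩
      exact Finset.mem_filter.2 ⟨he.1 trivial, fun p hp => by
        rw [key g hg p hp, h1 p hp, Units.val_one, one_mul]⟩
    · obtain ⟨h1, h2⟩ := Finset.mem_filter.1 h
      obtain ⟨y, -, rfl⟩ := he.2.2 h1
      obtain ⟨g, hg, rfl⟩ := rho_surj ok.toOk y
      refine ⟨_, ⟨g, hg, fun p hp => ?_, rfl⟩, rfl⟩
      have h3 := (key g hg p hp).symm.trans (h2 p hp)
      have h4 := hε.1 p hp
      refine (Int.units_eq_one_or _).resolve_right fun h5 => ?_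
      rw [h5, Units.val_neg, Units.val_one] at h3
      beta_reduce at h3 h4
      omega
  have hc : Odd (Nat.card H) := by
    have := Gal.odd_card_gen hn hB ok.root hR hε
    rw [← Nat.card_eq_finsetCard] at this
    exact (Nat.card_congr (hb.equiv e)).symm ▸ this
  obtain ⟨g, hg, rfl⟩ := rho_surj ok.toOk x
  have h2 : rho n 1 g ^ 2 ∈ H := ⟨g ^ 2, pow_mem hg 2, fun p _ => by
    rw [map_pow, sq, Int.units_mul_self], rho_pow ok.toOk hg 2⟩
  rw [← map_pow, tq_eq_one]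
  exact ⟨_, hc, congrArg Subtype.val (pow_card_eq_one' (x := (⟨_, h2⟩ : H)))⟩

end Pool.Agent.Lib.MP_696deb_nt.B2.CM
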