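import Pool.Agent.Lib.MP_696deb_nt.B2.CFd
import Pool.Agent.Lib.MP_696deb_nt.B2.CRf

/-! The reciprocity law and the local-global principle for the local invariant. -/

set_option autoImplicit false

open scoped NNReal Classical
open Filter Topology Finset

namespace Pool.Agent.Lib.MP_696deb_nt.B2

variable {H : Subgroup Gam} {m : ℕ} {c : Gam → Gam → ZMod (2 ^ m)}

theorem linv_abhn (hH : Op H) (hc : C2 m H c) (hi : AtInf m H c) (h : ∀ w, linv m H w c = 0) :
    Spl m H c :=
  abhn_spl hH hc hi fun w => (linv_zero_iff hH (hc.mono inf_le_left)).1 (h w)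

theorem linv_recip (s : Finset Plc) (hH : Op H) (hc : C2 m H c) (hi : AtInf m H c)
    (hs : Apart H s) (h : ∀ w, Away H s w → linv m H w c = 0) : ∑ w ∈ s, linv m H w c = 0 :=
  recip_of (fun _ _ _ h1 h2 h3 h4 => linv_abhn h1 h3 (Or.inl h2) h4) s hH hc hi hs h

end Pool.Agent.Lib.MP_696deb_nt.B2
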