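import Pool.Agent.Lib.MP_696deb_nt.B2.CFc
import Pool.Agent.Lib.MP_696deb_nt.B2.CFi
import Pool.Agent.Lib.MP_696deb_nt.B2.CLl

/-! Class field theory at the prime two. -/

set_option autoImplicit false

open scoped NNReal Classical
open Filter Topology Finset

namespace Pool.Agent.Lib.MP_696deb_nt.B2

theorem exists_cft : Nonempty CFT :=
  ⟨{ inv := linv
     add := linv_add
     congr := linv_congr
     zero_iff := linv_zero_iff
     red := fun h hH hc => linv_red h hH hc
     inc := linv_inc
     res := linv_res
     unr := linv_unr
     kum := linv_kum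
     unit := fun {_ _ w _ _ _} hH h1 h2 h3 h4 h5 => by
       obtain ⟨L⟩ := exists_LD hH w
       simpa using linv_cup_unr hH L (k := 0) h1 h2 h3 h4 (by simpa using h5)
     crit := fun hH h1 h2 h => linv_crit hH h1 h2 h
     recip := linv_recip
     abhn := linv_abhn }⟩

end Pool.Agent.Lib.MP_696deb_nt.B2
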