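import Pool.Agent.Lib.MP_696deb_nt.B2.CMn
import Pool.Agent.Lib.MP_696deb_nt.B2.CMl
import Pool.Agent.Lib.MP_696deb_nt.B2.CMu

/-! The two-primary ring class groups and the traces of Heegner points. -/

set_option autoImplicit false

open scoped Classical NumberTheorySymbols

namespace Pool.Agent.Lib.MP_696deb_nt.B2.CM

variable {n c d l : ℕ} {r : ℤ} {w : Plc} {g τ : Gam}

theorem cmz_gt (hn : Nok n) : 3 < n := by
  have h1 := hn.good.mod4
  have h2 : n ≠ 3 := fun h => absurd (h ▸ hn.good.cop) (by decide)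
  omega

theorem cmz_ok (hn : Nok n) (hc : Adm n c) : Ok n c := ⟨hn.good.mod4, cmz_gt hn, hc.1.ne_zero⟩

theorem cmz_okR (hn : Nok n) (hr : 60 ∣ r ^ 2 + n) (hc : Adm n c) : OkR n c r :=
  ⟨cmz_ok hn hc, hr, hn.good.cop.mul_left (Nat.coprime_of_dvd fun k hk h1 h2 =>
    (hc.2 k hk h1).1 (h2.trans (by norm_num)))⟩

theorem cmz_one : Adm n 1 := ⟨squarefree_one, fun _ hl h => absurd (Nat.dvd_one.1 h) hl.ne_one⟩

theorem cmz_dvd (h : Adm n d) (hc : c ∣ d) : Adm n c :=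
  ⟨h.1.squarefree_of_dvd hc, fun l hl k => h.2 l hl (k.trans hc)⟩

theorem cmz_mul (h : Adm n (c * l)) (hl : l.Prime) : l ≠ 2 ∧ J(-n | l) = -1 ∧ ¬ l ∣ c :=
  ⟨fun k => (h.2 l hl (dvd_mul_left l c)).1 (k ▸ by norm_num), (h.2 l hl (dvd_mul_left l c)).2,
    fun k => hl.not_isUnit (h.1 l (mul_dvd_mul_right k l))⟩

theorem cmz_thirty (hn : Nok n) (hl : l.Prime) (h : l ∣ n) : ¬ l ∣ 30 := fun k => by
  rcases hl.dvd_mul.1 (show l ∣ 2 * 15 from k) with k | k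
  · rw [(Nat.prime_dvd_prime_iff_eq hl Nat.prime_two).1 k] at h
    have := hn.good.mod4
    omega
  · exact hl.ne_one (Nat.eq_one_of_dvd_coprimes hn.good.cop h k)

theorem cmz_fin (hn : Nok n) (c : ℕ) : Finite (Pc n c) := finite_Pc hn.good.mod4 (cmz_gt hn) c

/-- The two-primary part of the action on the class group. -/
noncomputable def psi (n c : ℕ) (g : Gam) : Tw (Pc n c) := tq _ (rho n c g)

theorem psi_mul (ok : Ok n c) (g : Gam) (hg : g ∈ GK n) (h : Gam) (_ : h ∈ GK n) :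
    psi n c (g * h) = psi n c g * psi n c h := by
  rw [psi, rho_mul ok hg, map_mul]; rfl

theorem psi_surj (ok : Ok n c) (a : Tw (Pc n c)) : ∃ g ∈ GK n, psi n c g = a := by
  obtain ⟨x, rfl⟩ := tq_surj a
  obtain ⟨g, hg, rfl⟩ := rho_surj ok x
  exact ⟨g, hg, rfl⟩

theorem pr_psi (ok : Ok n d) (hc : c ∣ d) (g : Gam) : twm (pj n c d) (psi n d g) = psi n c g := by
  rw [psi, twm_tq, pj_rho ok hc]; rfl

theorem cmz_two (hn : Nok n) (hw : w.p = 2) : ∃ g ∈ Dec w, g ∉ GK n := by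
  obtain ⟨φ, hφ⟩ := exists_frob w
  refine ⟨φ, hφ.1, fun h => ?_⟩
  have h0 := cmz_gt hn
  have h1 := chi_dec_two (a := -n * 5) hw (by have := hn.m8; omega) hφ.1
  rw [chi_mul (by omega) (by norm_num), B4c_mem.1 h, chi_frob_two hw (hw ▸ hφ)] at h1
  exact absurd h1 (by decide)

theorem psi_unr (F : CFT) (hn : Nok n) (hc : Adm n c) (hw : ¬ w.p ∣ c) (hg : g ∈ GK n ⊓ Ine w) :
    psi n c g = 1 := by
  have ok := cmz_ok hn hc
  have := cmz_fin hn c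
  by_cases h : w.p ∣ n
  · exact tq_rho_ram ok hn.good.sqf h hg
  by_cases k : ∃ s ∈ Dec w, s ∉ GK n
  · obtain ⟨s, hs, hs'⟩ := k
    by_contra k
    obtain ⟨m, θ, -, h2⟩ := exists_char tw_two ⊥ (a := psi n c g) k
    exact h2 (unr_inert F ok (θ.comp (tq _)) h hw hs hs' hg)
  · have h2 : w.p ≠ 2 := fun e => k (cmz_two hn e)
    obtain ⟨φ, hφ⟩ := exists_frob w
    have h3 : φ ∈ GK n := by_contra fun e => k ⟨φ, hφ.1, e⟩
    have h4 : ¬ (w.p : ℤ) ∣ 2 * -n := fun e => by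
      rcases (Nat.prime_iff_prime_int.1 w.prime).dvd_mul.1 e with e | e
      · exact h2 ((Nat.prime_dvd_prime_iff_eq w.prime Nat.prime_two).1 (by exact_mod_cast e))
      · exact h (by exact_mod_cast (dvd_neg.1 e))
    have h5 := chi_frob h4 hφ
    rw [B4c_mem.1 h3] at h5
    obtain ⟨b, k, e, hb⟩ := exists_root_split ok.m4 w.prime h2 h5.symm hw
    rw [psi, rho_ine_split ok e hb hg.2, map_one]

theorem cmz_ine (h2 : w.p ≠ 2) (hJ : J(-n | w.p) = -1) : Ine w ≤ GK n := fun _ hg =>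
  B4c_mem.2 (chi_ine (B4c_not_dvd h2 (by rw [hJ]; decide)) hg)

theorem card_ker_psi (hn : Nok n) (hd : d = c * l) (hl : l.Prime) (ha : Adm n d) :
    Nat.card (twm (pj n c d)).ker = ordProj[2] (l + 1) := by
  subst hd
  obtain ⟨h2, hJ, hc⟩ := cmz_mul ha hl
  have := cmz_fin hn (c * l)
  rw [card_ker_twm, card_ker_pj (cmz_ok hn (cmz_dvd ha (dvd_mul_right c l))) hl h2 hJ hc]

/-- The inertia group generates the kernel of the projection. -/
theorem ker_psi (F : CFT) (hn : Nok n) (hd : d = c * w.p) (ha : Adm n d) (hτ : Gen w τ) :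
    (twm (pj n c d)).ker = Subgroup.zpowers (psi n d τ) := by
  subst hd
  obtain ⟨h2, hJ, hc⟩ := cmz_mul ha w.prime
  have ha' := cmz_dvd ha (dvd_mul_right c w.p)
  have hI := cmz_ine h2 hJ
  have := cmz_fin hn (c * w.p)
  refine le_antisymm (fun a h => by_contra fun k => ?_) (Subgroup.zpowers_le.2 ?_)
  · obtain ⟨m, θ, h1, h3⟩ := exists_char tw_two _ k
    obtain ⟨x, hx, rfl⟩ := ker_twm h
    refine h3 (ram_onto F (cmz_ok hn ha') (θ.comp (tq _)) h2 hJ hc (fun s hs => h1 _ ?_) hx)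
    obtain ⟨j, hj⟩ := tame_gen h2 hτ (π := psi n (c * w.p)) ((sm_rho _ _ _).comp (tq _))
      (fun g hg k hk => psi_mul (cmz_ok hn ha) g (hI hg) k (hI hk)) (fun g _ => tw_two _) hs
    exact ⟨j, (zpow_natCast _ j).trans hj.symm⟩
  · rw [MonoidHom.mem_ker, pr_psi (cmz_ok hn ha) (dvd_mul_right c w.p)]
    exact psi_unr F hn ha' hc ⟨hI hτ.1, hτ.1⟩

theorem cmz_pst (h2 : w.p ≠ 2) (hτ : Gen w τ) : chi (pst w.p) τ = -1 := by
  rw [pst]
  split_ifs
  · exact hτ.2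
  · rw [← neg_one_mul, chi_mul (by norm_num) (by exact_mod_cast w.prime.ne_zero), hτ.2,
      chi_ine (fun e => h2 ((Nat.prime_dvd_prime_iff_eq w.prime Nat.prime_two).1
        (by exact_mod_cast (Int.dvd_neg.1 e : (w.p : ℤ) ∣ 2)))) hτ.1, one_mul]

theorem exists_nu_psi (F : CFT) (hn : Nok n) (hr : 60 ∣ r ^ 2 + n) (l s : ℕ) :
    ∃ ν : Tw (Pc n l) →* Multiplicative (ZMod (2 ^ s)), l.Prime → Adm n l →
      2 ^ (s + 1) ∣ l + 1 → (∀ a, a ^ 2 = 1 → ν a = 1) ∧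
        ∀ (w : Plc) (τ : Gam), w.p = l → Gen w τ → IsUnit (ν (psi n l τ)).toAdd := by
  by_cases h : l.Prime ∧ Adm n l ∧ 2 ^ (s + 1) ∣ l + 1
  swap
  · exact ⟨1, fun a b c => absurd ⟨a, b, c⟩ h⟩
  obtain ⟨hl, ha, hs⟩ := h
  obtain ⟨w, rfl⟩ := exists_plc hl
  have e := (one_mul w.p).symm
  obtain ⟨h2, hJ, -⟩ := cmz_mul (e ▸ ha : Adm n (1 * w.p)) hl
  obtain ⟨τ, hτ⟩ := exists_gen h2
  have ok := cmz_okR hn hr ha
  have hk := ker_psi F hn e ha hτ
  obtain ⟨θ, hθ⟩ := exists_lift (GK n) (psi n w.p) (chi (pst w.p)) (psi_mul ok.toOk)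
    (psi_surj ok.toOk) fun g hg k =>
      chi_of_rho ok hg hl (ha.2 _ hl dvd_rfl).1 (dvd_mul_left _ _) k
  obtain ⟨ν, h3, h4⟩ := exists_nu (γ := psi n w.p τ) (v := (w.p + 1).factorization 2) (s := s)
    (by rw [← Nat.card_zpowers, ← hk, card_ker_psi hn e hl ha])
    ((Nat.prime_two.pow_dvd_iff_le_factorization (Nat.succ_ne_zero _)).1 hs) fun a => by
      obtain ⟨j, hj⟩ : a ^ 2 ∈ Subgroup.zpowers (psi n w.p τ) := by
        obtain ⟨x, rfl⟩ := tq_surj a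
        rw [← hk, MonoidHom.mem_ker, map_pow, twm_tq]
        exact tq_sq (cmz_okR hn hr cmz_one) hn.good hn.condB _
      have h5 := congrArg θ hj
      rw [map_zpow, map_pow, hθ τ (cmz_ine h2 hJ hτ.1), cmz_pst h2 hτ, Int.units_sq] at h5
      obtain ⟨k, rfl⟩ | hk := Int.even_or_odd j
      · exact ⟨k, by rw [two_mul, ← hj]⟩
      · rw [hk.neg_one_zpow] at h5
        exact absurd h5 (by decide)
  refine ⟨ν, fun _ _ _ => ⟨h4, fun v σ hv hσ => ?_⟩⟩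
  obtain ⟨j, hj⟩ : psi n w.p τ ∈ Subgroup.zpowers (psi n w.p σ) := by
    rw [← ker_psi F hn (c := 1) (by rw [hv, one_mul]) ha hσ, hk]
    exact Subgroup.mem_zpowers _
  have h5 := congrArg (fun x => (ν x).toAdd) hj
  simp only [map_zpow, h3, toAdd_zpow, toAdd_ofAdd, zsmul_eq_mul] at h5
  exact IsUnit.of_mul_eq_one_right _ h5

theorem exists_gen_psi (hn : Nok n) (hr : 60 ∣ r ^ 2 + n) (e : ℤ) : ∃ θ : Tw (Pc n 1) →* ℤˣ,
    e ∣ n → e % 4 = 1 → ∀ g ∈ GK n, θ (psi n 1 g) = chi e g := by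
  by_cases h : e ∣ n ∧ e % 4 = 1
  swap
  · exact ⟨1, fun a b => absurd ⟨a, b⟩ h⟩
  have ok := cmz_okR hn hr cmz_one
  obtain ⟨θ, hθ⟩ := exists_lift (GK n) (psi n 1) (chi e) (psi_mul ok.toOk) (psi_surj ok.toOk)
    fun g hg k => chi_of_rho_one ok hn.good.sqf hg h.1 h.2 k
  exact ⟨θ, fun _ _ => hθ⟩

section

variable [∀ c, Fintype (Pc n c)]

/-- The traces of the Heegner points. -/
noncomputable def yT (n c : ℕ) [Fintype (Pc n c)] (r : ℤ) (a : Tw (Pc n c)) : EE :=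
  ∑ x with tq _ x = a, yQ n c r x

theorem smul_yT (ok : OkR n c r) (hg : g ∈ GK n) (a : Tw (Pc n c)) :
    g • yT n c r a = yT n c r (psi n c g * a) := by
  rw [yT, Finset.smul_sum, Finset.sum_congr rfl fun x _ => smul_yQ ok hg x]
  exact sum_tq_mul (yQ n c r) _ a

theorem cc_yT (ok : OkR n c r) : ∃ (b : Tw (Pc n c)) (t : EE), 4 • t = 0 ∧
    ∀ a, cc • yT n c r a = t - yT n c r (b * a⁻¹) := by
  obtain ⟨b, hb⟩ := cc_yQ ok
  refine ⟨tq _ b, Nat.card (oddP (Pc n c)) • P4, ?_, fun a => ?_⟩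
  · have h := two_eq_zero.2 (.inr (.inr (.inr (rfl : T3 = T3))))
    rw [smul_comm, show 4 = 2 * 2 from rfl, mul_smul, two_P4, h, smul_zero]
  · rw [yT, Finset.smul_sum, Finset.sum_congr rfl fun x _ => hb x, Finset.sum_sub_distrib,
      Finset.sum_const, card_tq_fib, sum_tq_inv (yQ n c r) b a]
    rfl

theorem trace_yT [Fintype (Tw (Pc n (c * l)))] (hn : Nok n) (hr : 60 ∣ r ^ 2 + n) (hl : l.Prime)
    (ha : Adm n (c * l)) (a : Tw (Pc n c)) :
    ∑ a' with twm (pj n c (c * l)) a' = a, yT n (c * l) r a' = a15 l • yT n c r a := by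
  obtain ⟨h2, hJ, hc⟩ := cmz_mul ha hl
  rw [yT, Finset.smul_sum, ← Finset.sum_congr rfl fun z _ =>
    trace_yQ (cmz_okR hn hr ha) hl h2 hJ hc z]
  exact sum_tq_twm (yQ n (c * l) r) a

theorem kron_yT (hK : KronStmt) (hn : Nok n) (hr : 60 ∣ r ^ 2 + n) (ha : Adm n (c * w.p))
    (hg : IsFrob w w.p g) (a : Tw (Pc n (c * w.p))) : yT n (c * w.p) r a -
      ordCompl[2] (w.p + 1) • g • yT n c r (twm (pj n c (c * w.p)) a) ∈ K1 w := by
  obtain ⟨h2, hJ, hc⟩ := cmz_mul ha w.prime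
  have ok := cmz_ok hn (cmz_dvd ha (dvd_mul_right c w.p))
  have h := sum_fib (pj_surj ok w.prime h2 hJ hc) (fun z => g • yQ n c r z) a
  rw [card_ker_pj ok w.prime h2 hJ hc] at h
  rw [yT, yT, Finset.smul_sum, ← h, ← Finset.sum_sub_distrib]
  exact sum_mem fun x _ => kron_yQ hK (cmz_okR hn hr ha) h2 hJ hc hg x

omit [∀ c, Fintype (Pc n c)] in
theorem nu_fib [Fintype (Tw (Pc n (c * l)))] (F : CFT) (hn : Nok n) (hl : l.Prime)
    (ha : Adm n (c * l)) {s : ℕ} (ν : Tw (Pc n l) →* Multiplicative (ZMod (2 ^ s)))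
    (hν : ∀ (w : Plc) (τ : Gam), w.p = l → Gen w τ → IsUnit (ν (psi n l τ)).toAdd)
    (a : Tw (Pc n c)) (x : Multiplicative (ZMod (2 ^ s))) :
    (Finset.univ.filter fun a' => twm (pj n c (c * l)) a' = a ∧
      ν (twm (pj n l (c * l)) a') = x).card * 2 ^ s = ordProj[2] (l + 1) := by
  obtain ⟨w, rfl⟩ := exists_plc hl
  obtain ⟨h2, hJ, hc⟩ := cmz_mul ha hl
  obtain ⟨τ, hτ⟩ := exists_gen h2
  have ok := cmz_ok hn (cmz_dvd ha (dvd_mul_right c w.p))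
  have h := card_fib_two (twm_surj (pj_surj ok hl h2 hJ hc)) (ν.comp (twm (pj n w.p (c * w.p))))
    (fun y => by
      obtain ⟨u, hu⟩ := (hν w τ rfl hτ).exists_left_inv
      refine ⟨psi n (c * w.p) τ ^ (y.toAdd * u).val, ?_, Multiplicative.toAdd.injective ?_⟩
      · rw [← MonoidHom.mem_ker, ker_psi F hn rfl ha hτ]
        exact Subgroup.npow_mem_zpowers _ _
      · rw [map_pow, MonoidHom.comp_apply, pr_psi (cmz_ok hn ha) (dvd_mul_left _ _), toAdd_pow,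
          nsmul_eq_mul, ZMod.natCast_zmod_val, mul_assoc, hu, mul_one]) a x
  rw [card_ker_psi hn rfl hl ha, Nat.card_congr Multiplicative.toAdd, Nat.card_zmod] at h
  convert h
  rfl

theorem link_yT [Fintype (Tw (Pc n 1))] (hn : Nok n) (hr : 60 ∣ r ^ 2 + n) {T : Finset Fm} {e : ℤ}
    (hT : FReps (-n) r T) (he : e ∣ n) (h4 : e % 4 = 1) (θ : Tw (Pc n 1) →* ℤˣ)
    (hθ : ∀ g ∈ GK n, θ (psi n 1 g) = chi e g) : ∃ s : ℤ, (s = 1 ∨ s = -1) ∧
      pmap jC (∑ a, (θ a : ℤ) • yT n 1 r a) = s • Unif.u15 (hP e.natAbs T) := by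
  have ok := cmz_okR hn hr cmz_one
  have hR : HReps (-n) r T :=
    ⟨fun Q h => ⟨(hT.fam Q h).2.1, hT.pos Q h, (hT.fam Q h).1, (hT.fam Q h).2.2⟩,
      fun Q h => hT.ex Q ⟨h.lev, h.disc, h.res⟩ h.pos, hT.uniq⟩
  obtain ⟨β, hβ, hy⟩ := exists_bij ok hn.good.sqf hR
  obtain ⟨Q, hQ⟩ := exists_hg ok (isIv_one _)
  have hQ1 := yP_cl ok (isIv_one _) hQ
  rw [cl_one] at hQ1
  have hp : ∀ p ∈ e.natAbs.primeFactors, p.Prime ∧ ¬ p ∣ 30 ∧ p ∣ n * 1 := fun p h => by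
    have h1 := Nat.prime_of_mem_primeFactors h
    have h2 := (Nat.dvd_of_mem_primeFactors h).trans (Int.natAbs_dvd_natAbs.2 he)
    exact ⟨h1, cmz_thirty hn h1 h2, by rwa [mul_one]⟩
  have hs : gch e.natAbs Q = 1 ∨ gch e.natAbs Q = -1 := by
    rw [Gal.gch_eq, ← Int.isUnit_iff, IsUnit.prod_iff]
    exact fun p h => Int.isUnit_iff.2
      (gp_ne ok (isIv_one _) hQ (hp p h).1 (hp p h).2.1 (hp p h).2.2)
  have hH : ∀ x, IsHg (-n) r (β x) := fun x => hR.mem _ (hβ.mapsTo (Set.mem_univ x))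
  have key : ∀ x, (θ (tq _ x) : ℤ) = gch e.natAbs Q * gch e.natAbs (β x) := fun x => by
    obtain ⟨g, hg, rfl⟩ := rho_surj ok.toOk x
    have h1 : gch e.natAbs (β (rho n 1 g)) = chi e g * gch e.natAbs Q := by
      rw [Gal.gch_eq, Gal.gch_eq, chi_eq_prod
        ((Int.squarefree_natCast.2 hn.good.sqf).squarefree_of_dvd he) h4, Units.coe_prod,
        ← Finset.prod_mul_distrib]
      exact Finset.prod_congr rfl fun p h => gp_gal ok hg (hp p h).1 (hp p h).2.1 (hp p h).2.2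
        hQ.1 (by simpa using hH _) hQ1 (by rw [mul_one, hy])
    rw [h1, ← hθ g hg]
    rcases hs with h | h <;> simp [h, psi]
  refine ⟨_, hs, ?_⟩
  have e1 : ∑ a, (θ a : ℤ) • yT n 1 r a = ∑ x, (θ (tq _ x) : ℤ) • yQ n 1 r x := by
    refine Eq.trans (Finset.sum_congr rfl fun a _ => ?_) (Finset.sum_fiberwise Finset.univ (tq _) _)
    rw [yT, Finset.smul_sum]
    exact Finset.sum_congr rfl fun x hx => by rw [(Finset.mem_filter.1 hx).2]
  rw [e1, hP, map_sum, map_sum, Finset.smul_sum]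
  refine Finset.sum_nbij β (fun x _ => hβ.mapsTo (Set.mem_univ x))
    (by simpa using hβ.injOn) (by simpa using hβ.surjOn) fun x _ => ?_
  rw [map_zsmul, jC_yQ ok, hy, key, mul_smul, ← zsmul_eq_mul, map_zsmul,
    Unif.pt_eq_u15 ((hH x).im_pos (by have := cmz_gt hn; omega))]

end

end Pool.Agent.Lib.MP_696deb_nt.B2.CM
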