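import Pool.Agent.Lib.MP_696deb_nt.B2.D1
import Pool.Agent.Lib.MP_696deb_nt.B2.Base

set_option autoImplicit false

open scoped Classical
open NumberTheorySymbols

namespace Pool.Agent.Lib.MP_696deb_nt.B2

open WeierstrassCurve WeierstrassCurve.Affine

/-- The function `2 Y + X`. -/
noncomputable def mdeP (P : EE) : Qbar := 2 * yco P + xco P

/-- A quadratic polynomial in the first coordinate, divided by `2 Y + X`. -/
noncomputable def mdeS (a b c : ℤ) (P : EE) : Qbar := (a * xco P ^ 2 + b * xco P + c) / mdeP P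

theorem mde_sq (P : EE) : mdeP P ^ 2 = 4 * xco P ^ 3 - 7 * xco P ^ 2 - 36 * xco P := by
  rcases P with _ | ⟨x, y, h⟩
  · simp [mdeP, xco, yco]
  · have := (W15_nonsingular x y).1 h
    simp only [mdeP, xco_some, yco_some]
    linear_combination 4 * this

theorem mde_neg (P : EE) : mdeP (-P) = -mdeP P := by
  rcases P with _ | ⟨x, y, h⟩
  · exact (show mdeP 0 = -mdeP 0 by simp [mdeP])
  · simp only [mdeP, Point.neg_some, xco_some, yco_some, negY, toAffine, W15_a₁, W15_a₃]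
    ring

theorem mde_dup {x y : Qbar} (h : (W15.baseChange Qbar).toAffine.Nonsingular x y) :
    dup2 (W15.baseChange Qbar) x = mdeP (.some x y h) ^ 2 := by
  rw [dup2_eq h]
  simp only [mdeP, W15_a₁, W15_a₃, xco_some, yco_some]
  ring

theorem mde_ne {Q : EE} (hQ : 2 • Q ≠ 0) : mdeP Q ≠ 0 := by
  rcases Q with _ | ⟨x, y, h⟩
  · exact (hQ (nsmul_zero 2)).elim
  · exact fun k => hQ (two_nsmul_eq_zero h (by rw [mde_dup h, k]; ring))

theorem mde_two {Q : EE} (hQ : 2 • Q ≠ 0) : xco (2 • Q) = mdeS 1 0 9 Q ^ 2 ∧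
    4 * xco (2 • Q) + 9 = mdeS 2 9 (-18) Q ^ 2 ∧ xco (2 • Q) - 4 = mdeS 1 (-8) (-9) Q ^ 2 := by
  have h0 := mde_ne hQ
  have h1 := mde_sq Q
  have h2 : xco (2 • Q) = (xco Q ^ 2 + 9) ^ 2 / mdeP Q ^ 2 := by
    rcases Q with _ | ⟨x, y, h⟩
    · exact (hQ (nsmul_zero 2)).elim
    · rw [xco_two_nsmul, mde_dup h]
      simp only [dup1, W15_b₄, W15_b₆, W15_b₈, xco_some]
      ring
  simp only [h2, mdeS]
  push_cast
  refine ⟨by ring, ?_, ?_⟩ <;> field_simp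
  · linear_combination 9 * h1
  · linear_combination -4 * h1

theorem mde_ext {P : EE} {e f : Qbar} (h : (W15.baseChange Qbar).toAffine.Nonsingular e f)
    (hf : 2 * f + e = 0) (h0 : P ≠ 0) (hx : xco P = e) : P = .some e f h := by
  have h1 := mde_sq P
  have h2 := mde_sq (.some e f h)
  rcases P with _ | ⟨x, y, k⟩
  · exact (h0 rfl).elim
  simp only [mdeP, xco_some, yco_some] at h1 h2 hx
  subst hx
  rw [← h2, hf, sq, sq, mul_zero, mul_self_eq_zero] at h1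
  simp only [Point.some.injEq, true_and]
  linear_combination (h1 - hf) / 2

/-- Translation by a point of order two. -/
theorem mde_tr {Q : EE} {e f : Qbar} (h : (W15.baseChange Qbar).toAffine.Nonsingular e f)
    (hf : 2 * f + e = 0) (hQ : 2 • Q ≠ 0) : xco Q - e ≠ 0 ∧
      xco (Q + .some e f h) = e + (3 * e ^ 2 - 7 / 2 * e - 9) / (xco Q - e) ∧
      mdeP (Q + .some e f h) = -mdeP Q * (3 * e ^ 2 - 7 / 2 * e - 9) / (xco Q - e) ^ 2 := by
  have h0 := mde_ne hQ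
  have h1 := mde_sq Q
  have h2 := mde_sq (.some e f h)
  rcases Q with _ | ⟨x, y, k⟩
  · exact (hQ (nsmul_zero 2)).elim
  simp only [mdeP, xco_some, yco_some] at h0 h1 h2 ⊢
  rw [hf] at h2
  have hx : x ≠ e := by
    rintro rfl
    exact h0 (pow_eq_zero_iff two_ne_zero |>.1 (by rw [h1, ← h2]; ring))
  have hx' := sub_ne_zero.2 hx
  obtain rfl : f = -e / 2 := by linear_combination hf / 2
  have e1 : (W15.baseChange Qbar).toAffine.addX x e
      ((W15.baseChange Qbar).toAffine.slope x e y (-e / 2)) =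
      e + (3 * e ^ 2 - 7 / 2 * e - 9) / (x - e) := by
    simp only [slope_of_X_ne hx, addX, toAffine, W15_a₁, W15_a₂]
    field_simp
    linear_combination h1 - h2
  refine ⟨hx', ?_⟩
  rw [Point.add_of_X_ne hx]
  simp only [xco_some, yco_some, addY, negY, negAddY, e1]
  simp only [slope_of_X_ne hx, toAffine, W15_a₁, W15_a₃, true_and]
  field_simp
  ring

theorem mde_T1 {Q : EE} (hQ : 2 • Q ≠ 0) : mdeS 2 9 (-18) (Q + T1) = mdeS 2 9 (-18) Q ∧
    mdeS 1 0 9 (Q + T1) = -mdeS 1 0 9 Q ∧ mdeS 1 (-8) (-9) (Q + T1) = -mdeS 1 (-8) (-9) Q := by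
  obtain ⟨h1, h2, h3⟩ := mde_tr (e := -9 / 4) (f := 9 / 8) ((W15_nonsingular _ _).mpr (by norm_num))
    (by norm_num) hQ
  have h0 := mde_ne hQ
  simp only [mdeS, T1, h2, h3]
  generalize xco Q = x at h1 ⊢
  obtain ⟨u, rfl⟩ : ∃ u, x = u + -9 / 4 := ⟨x - -9 / 4, by ring⟩
  rw [add_sub_cancel_right] at h1 ⊢
  push_cast
  refine ⟨?_, ?_, ?_⟩ <;> field_simp <;> ring

theorem mde_T2 {Q : EE} (hQ : 2 • Q ≠ 0) : mdeS 2 9 (-18) (Q + T2) = -mdeS 2 9 (-18) Q ∧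
    mdeS 1 0 9 (Q + T2) = mdeS 1 0 9 Q ∧ mdeS 1 (-8) (-9) (Q + T2) = -mdeS 1 (-8) (-9) Q := by
  obtain ⟨h1, h2, h3⟩ := mde_tr (e := 0) (f := 0) ((W15_nonsingular _ _).mpr (by norm_num))
    (by norm_num) hQ
  have h0 := mde_ne hQ
  simp only [mdeS, T2, h2, h3]
  rw [sub_zero] at h1 ⊢
  push_cast
  refine ⟨?_, ?_, ?_⟩ <;> field_simp <;> ring

theorem mde_key {Q T : EE} (hQ : 2 • Q ≠ 0) (hT : 2 • T = 0) : ∃ a b : ZMod (2 ^ 1),
    T = a.val • T2 + b.val • T1 ∧ mdeS 2 9 (-18) (Q + T) = mdeS 2 9 (-18) Q * (-1) ^ a.val ∧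
    mdeS 1 0 9 (Q + T) = mdeS 1 0 9 Q * (-1) ^ b.val ∧
    mdeS 1 (-8) (-9) (Q + T) = mdeS 1 (-8) (-9) Q * ((-1) ^ a.val * (-1) ^ b.val) := by
  have v0 : (0 : ZMod (2 ^ 1)).val = 0 := rfl
  have v1 : (1 : ZMod (2 ^ 1)).val = 1 := rfl
  obtain ⟨a1, a2, a3⟩ := mde_T1 hQ
  rcases two_eq_zero.1 hT with rfl | rfl | rfl | rfl
  · exact ⟨0, 0, by simp [v0]⟩
  · exact ⟨0, 1, by simp [v0, v1, a1, a2, a3]⟩
  · exact ⟨1, 0, by simp [v0, v1, mde_T2 hQ]⟩
  · obtain ⟨b1, b2, b3⟩ := mde_T2 (Q := Q + T1) (by rwa [nsmul_add, two_T1, add_zero])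
    refine ⟨1, 1, ?_⟩
    rw [← T1_add_T2, ← add_assoc, b1, b2, b3, a1, a2, a3]
    simp [v1, add_comm]

theorem mde_tw (a b c d : ℤ) (g : Gam) (Q : EE) :
    g (mdeS a b c Q) = (chi d g : ℤ) * mdeS a b c (tw d g Q) := by
  have e : g (mdeS a b c Q) = mdeS a b c (g • Q) := by
    simp only [mdeS, mdeP, xco_smul, yco_smul, map_div₀, map_add, map_mul, map_pow, map_intCast,
      map_ofNat]
  rcases Int.units_eq_one_or (chi d g) with h | h
  · simp [tw, h, e]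
  · rw [e]
    simp [tw, h, mdeS, mde_neg, div_neg]

theorem mde_tw_two (d : ℤ) (g : Gam) (Q : EE) : tw d g (2 • Q) = 2 • tw d g Q := by
  rw [tw, tw, smul_comm g, smul_comm]

theorem mde_tw_tors (d : ℤ) (g : Gam) {T : EE} (hT : 2 • T = 0) : tw d g T = T := by
  have e : g • T = T := by
    rcases two_eq_zero.1 hT with rfl | rfl | rfl | rfl
    exacts [smul_zero g, smul_T1 g, smul_T2 g, smul_T3 g]
  rcases Int.units_eq_one_or (chi d g) with h | h
  · simp [tw, h, e]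
  · rw [two_nsmul, add_eq_zero_iff_neg_eq] at hT
    simp [tw, h, e, hT]

theorem m_desc : DescStmt := by
  intro d D Q hd h
  by_cases hQ : 2 • Q = 0
  · have k : Kum 1 D 1 0 := ⟨1, one_ne_zero, one_pow _, fun g _ => by simp⟩
    refine ⟨0, 0, ?_, ?_, fun g _ => ?_⟩
    · rwa [kA, if_pos (Or.inl hQ)]
    · rwa [kB, if_pos hQ]
    · simp [mde_tw_tors d g hQ]
  have h1 : ∀ g, ∃ a b : ZMod (2 ^ 1), g ∈ D → tw d g Q - Q = a.val • T2 + b.val • T1 ∧
      g (mdeS 2 9 (-18) Q) = (chi d g : ℤ) * (mdeS 2 9 (-18) Q * (-1) ^ a.val) ∧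
      g (mdeS 1 0 9 Q) = (chi d g : ℤ) * (mdeS 1 0 9 Q * (-1) ^ b.val) ∧
      g (mdeS 1 (-8) (-9) Q) =
        (chi d g : ℤ) * (mdeS 1 (-8) (-9) Q * ((-1) ^ a.val * (-1) ^ b.val)) := fun g => by
    by_cases hg : g ∈ D
    · obtain ⟨a, b, k0, k1, k2, k3⟩ := mde_key (T := tw d g Q - Q) hQ
        (by rw [nsmul_sub, ← mde_tw_two, h g hg, sub_self])
      rw [add_sub_cancel] at k1 k2 k3
      exact ⟨a, b, fun _ => ⟨k0, k1 ▸ mde_tw _ _ _ d g Q, k2 ▸ mde_tw _ _ _ d g Q,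
        k3 ▸ mde_tw _ _ _ d g Q⟩⟩
    · exact ⟨0, 0, fun k => (hg k).elim⟩
  choose α β h1 using h1
  obtain ⟨s2, s1, s3⟩ := mde_two hQ
  have hc : ∀ g, ((chi d g : ℤ) : Qbar) ^ 2 = 1 := fun g => by
    rcases Int.units_eq_one_or (chi d g) with k | k <;> simp [k]
  have hm : ∀ n : ℕ, ((-1 : Qbar) ^ n) ^ 2 = 1 := fun n => by rw [← pow_mul, mul_comm, pow_mul]; simp
  have hr := chi_spec (rt_sq d)
  have hd' : (d : Qbar) ≠ 0 := Int.cast_ne_zero.2 hd
  have kum : ∀ {r a : Qbar} {κ : Gam → ZMod (2 ^ 1)}, a ≠ 0 → r ^ 2 = a →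
      (∀ g ∈ D, g r = r * (-1) ^ (κ g).val) → Kum 1 D a κ := fun {r a κ} k0 k1 k2 =>
    ⟨r, fun k => k0 (by rw [← k1, k]; ring), k1, k2⟩
  refine ⟨α, β, ?_, ?_, fun g hg => (h1 g hg).1⟩
  · rw [kA]
    split_ifs with k
    · have k1 : xco (2 • Q : EE) = -9 / 4 := by rw [k.resolve_left hQ]; rfl
      refine kum (r := mdeS 1 0 9 Q * mdeS 1 (-8) (-9) Q * 4 / 15) one_ne_zero ?_ fun g hg => ?_
      · rw [div_pow, mul_pow, mul_pow, ← s2, ← s3, k1]
        norm_num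
      · rw [map_div₀, map_mul, map_mul, (h1 g hg).2.2.1, (h1 g hg).2.2.2, map_ofNat, map_ofNat]
        linear_combination (mdeS 1 0 9 Q * mdeS 1 (-8) (-9) Q * 4 / 15 * (-1) ^ (α g).val) *
          (((-1) ^ (β g).val) ^ 2 * hc g + hm (β g).val)
    · refine kum (r := rt d * mdeS 2 9 (-18) Q) (mul_ne_zero hd' fun k1 => k (Or.inr ?_)) ?_
        fun g hg => ?_
      · exact mde_ext (P := 2 • Q) _ (by norm_num) hQ (by linear_combination k1 / 4)
      · rw [mul_pow, rt_sq, s1]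
      · rw [map_mul, hr, (h1 g hg).2.1]
        linear_combination (rt d * mdeS 2 9 (-18) Q * (-1) ^ (α g).val) * hc g
  · rw [kB, if_neg hQ]
    split_ifs with k
    · have k1 : xco (2 • Q : EE) = 0 := by rw [k]; rfl
      refine kum (r := mdeS 2 9 (-18) Q * mdeS 1 (-8) (-9) Q / 6) (by norm_num) ?_ fun g hg => ?_
      · rw [div_pow, mul_pow, ← s1, ← s3, k1]
        norm_num
      · rw [map_div₀, map_mul, (h1 g hg).2.1, (h1 g hg).2.2.2, map_ofNat]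
        linear_combination (mdeS 2 9 (-18) Q * mdeS 1 (-8) (-9) Q / 6 * (-1) ^ (β g).val) *
          (((-1) ^ (α g).val) ^ 2 * hc g + hm (α g).val)
    · refine kum (r := rt d * mdeS 1 0 9 Q) (mul_ne_zero hd' fun k1 => k ?_) ?_ fun g hg => ?_
      · exact mde_ext (P := 2 • Q) _ (by norm_num) hQ k1
      · rw [mul_pow, rt_sq, s2]
      · rw [map_mul, hr, (h1 g hg).2.2.1]
        linear_combination (rt d * mdeS 1 0 9 Q * (-1) ^ (β g).val) * hc g

end Pool.Agent.Lib.MP_696deb_nt.B2
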