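import Mathlib

/-! Comparison of roots in the congruence relation. -/

set_option autoImplicit false

open Finset Polynomial

namespace Pool.Agent.Lib.MP_696deb_nt.B2

theorem kr_fin {k : Type*} [Field k] {n : ℕ} (hn : 0 < n) (u v : k) :
    {S : k | u + S ^ n * v = 0 ∧ ¬ (u = 0 ∧ v = 0)}.Finite := by
  classical
  refine (nthRoots n (-u / v)).toFinset.finite_toSet.subset fun S hS => ?_
  have h : v ≠ 0 := fun h => hS.2 ⟨by simpa [h] using hS.1, h⟩
  rw [mem_coe, Multiset.mem_toFinset, mem_nthRoots hn, eq_div_iff h]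
  linear_combination hS.1

theorem kr_field {k ι : Type*} [Field k] [Infinite k] [Fintype ι] {p : ℕ} (hp : p.Prime) [CharP k p]
    {a b : ι → k} {x y : k} (h : ∀ Y S, ∏ i, (Y - a i - S * b i) =
      (Y - x ^ p - S * y ^ p) * (Y ^ p - x - S ^ p * y)) :
    ∃ i, (a i = x ^ p ∧ b i = y ^ p) ∧ ∀ j ≠ i, a j ^ p = x ∧ b j ^ p = y := by
  classical
  have := Fact.mk hp
  obtain ⟨S, hS⟩ := ((Set.finite_iUnion fun i => kr_fin one_pos (a i - x ^ p) (b i - y ^ p)).union
    (Set.finite_iUnion fun i => kr_fin hp.pos (a i ^ p - x) (b i ^ p - y))).exists_notMem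
  simp only [Set.mem_union, Set.mem_iUnion, not_or, not_exists, Set.mem_ofPred_eq, not_and,
    not_not, not_forall, sub_eq_zero, exists_prop] at hS
  have h1 := h (x ^ p + S * y ^ p) S
  rw [show x ^ p + S * y ^ p - x ^ p - S * y ^ p = 0 by ring, zero_mul, prod_eq_zero_iff] at h1
  obtain ⟨i, -, hi⟩ := h1
  obtain ⟨e1, e2⟩ := hS.1 i (by linear_combination -hi)
  refine ⟨i, ⟨e1, e2⟩, fun j hj => hS.2 j ?_⟩
  have h2 : ∏ l ∈ univ.erase i, (X - C (a l + S * b l)) = X ^ p - C (x + S ^ p * y) :=
    eq_of_infinite_eval_eq _ _ ((Set.finite_singleton (a i + S * b i)).infinite_compl.mono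
      fun Y hY => by
        have h3 := h Y S
        rw [← mul_prod_erase _ _ (mem_univ i), ← e1, ← e2] at h3
        have h4 := mul_left_cancel₀ (fun k => hY (by
          rw [Set.mem_singleton_iff]; linear_combination k)) h3
        simpa only [Set.mem_ofPred_eq, eval_prod, eval_sub, eval_X, eval_C, eval_pow, sub_sub]
          using h4)
  have h3 := congrArg (eval (a j + S * b j)) h2
  rw [eval_prod, prod_eq_zero (mem_erase.mpr ⟨hj, mem_univ j⟩) (by simp)] at h3
  simp only [eval_sub, eval_pow, eval_X, eval_C, add_pow_char, mul_pow] at h3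
  linear_combination -h3

variable {K : Type*} [Field K] [IsAlgClosed K] (B : ValuationSubring K)

theorem kr_infinite : Infinite (IsLocalRing.ResidueField B) := by
  by_contra! hf
  have := Fintype.ofFinite (IsLocalRing.ResidueField B)
  obtain ⟨n, hn⟩ : ∃ n, Fintype.card (IsLocalRing.ResidueField B) = n + 2 :=
    ⟨_, (Nat.sub_add_cancel Fintype.one_lt_card).symm⟩
  obtain ⟨r, hr⟩ := IsAlgClosed.exists_root (X ^ (n + 2) - X + 1 : K[X]) fun h => by
    simpa [coeff_X, coeff_one] using congrArg (coeff · (n + 2)) (eq_C_of_degree_eq_zero h)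
  simp only [IsRoot, eval_add, eval_sub, eval_pow, eval_X, eval_one] at hr
  have h1 : r ∈ B := by
    rw [← B.valuation_le_one_iff]
    by_contra! k
    have h2 : B.valuation (r ^ (n + 2)) = B.valuation r := by
      rw [show r ^ (n + 2) = r - 1 by linear_combination hr,
        B.valuation.map_sub_eq_of_lt_left (by rwa [map_one])]
    rw [map_pow] at h2
    exact (lt_self_pow₀ k (by omega)).ne' h2
  have h2 := congrArg (IsLocalRing.residue B)
    (show (⟨r, h1⟩ : B) ^ (n + 2) - ⟨r, h1⟩ + 1 = 0 from Subtype.ext hr)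
  rw [map_add, map_sub, map_pow, ← hn, FiniteField.pow_card] at h2
  simp at h2

theorem kr_res {K : Type*} [Field K] (B : ValuationSubring K) {u v : B} :
    IsLocalRing.residue B u = IsLocalRing.residue B v ↔ B.valuation (u - v) < 1 := by
  rw [← sub_eq_zero, ← map_sub, IsLocalRing.residue_eq_zero_iff, B.valuation_lt_one_iff]
  rfl

theorem kr_alg {ι : Type*} [Fintype ι] {p : ℕ} (hp : p.Prime) (hV : B.valuation p < 1)
    {a b : ι → K} {x y : K} (ha : ∀ i, a i ∈ B) (hb : ∀ i, b i ∈ B) (hx : x ∈ B) (hy : y ∈ B)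
    (h : ∀ Y ∈ B, ∀ S ∈ B, B.valuation (∏ i, (Y - a i - S * b i) -
      (Y - x ^ p - S * y ^ p) * (Y ^ p - x - S ^ p * y)) < 1) :
    ∃ i, (B.valuation (a i - x ^ p) < 1 ∧ B.valuation (b i - y ^ p) < 1) ∧
      ∀ j ≠ i, B.valuation (a j ^ p - x) < 1 ∧ B.valuation (b j ^ p - y) < 1 := by
  have := kr_infinite B
  have := Fact.mk hp
  have : CharP (IsLocalRing.ResidueField B) p := (CharP.charP_iff_prime_eq_zero hp).mpr (by
    rw [← map_natCast (IsLocalRing.residue B), ← map_zero (IsLocalRing.residue B), kr_res]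
    simpa using hV)
  lift a to ι → B using ha
  lift b to ι → B using hb
  lift x to B using hx
  lift y to B using hy
  obtain ⟨i, h1, h2⟩ := kr_field hp (a := fun i => IsLocalRing.residue B (a i))
    (b := fun i => IsLocalRing.residue B (b i)) (x := IsLocalRing.residue B x)
    (y := IsLocalRing.residue B y) fun Y S => by
      obtain ⟨Y, rfl⟩ := IsLocalRing.residue_surjective Y
      obtain ⟨S, rfl⟩ := IsLocalRing.residue_surjective S
      simp only [← map_pow, ← map_mul, ← map_sub, ← map_prod, kr_res]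
      simpa using h Y Y.2 S S.2
  simp only [← map_pow, kr_res] at h1 h2
  exact ⟨i, h1, h2⟩

end Pool.Agent.Lib.MP_696deb_nt.B2
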