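import Pool.Agent.Lib.MP_696deb_nt.B2.KRa
import Pool.Agent.Lib.MP_696deb_nt.B2.KRb

set_option autoImplicit false

open scoped Classical
open NumberTheorySymbols

namespace Pool.Agent.Lib.MP_696deb_nt.B2

theorem kr_algebraic {p : ℕ} (hp : p.Prime) (h15 : ¬ p ∣ 15) {τ : ℂ} (hτ : 0 < τ.im) {x : Qbar}
    (hx : jC x = t15 τ) (i : Option (Fin p)) : IsAlgebraic ℚ (t15 (nb p τ i)) := by
  by_contra k
  obtain ⟨B, h1, h2⟩ := Subring.exists_le_valuationSubring_of_isIntegrallyClosedIn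
    (R := (integralClosure ℚ ℂ).toSubring) (x := t15 (nb p τ i)) fun h => k h.isAlgebraic
  exact h2 ((B.valuation_le_one_iff _).mp (kr_int hp h15 hτ ((B.valuation_le_one_iff _).mpr
    (h1 (hx ▸ (Algebra.IsIntegral.isIntegral (R := ℚ) x).map jC.toRatAlgHom))) i))

theorem kr_ext (w : Plc) : ∃ B : ValuationSubring ℂ, (∀ x, jC x ∈ B ↔ w.V x ≤ 1) ∧
    ∀ x, B.valuation (jC x) < 1 ↔ w.V x < 1 := by
  obtain ⟨B, h1, h2⟩ := IsLocalRing.exists_factor_valuationRing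
    (jC.comp w.V.valuationSubring.subtype)
  have h3 : ∀ x, w.V x < 1 → B.valuation (jC x) < 1 := fun x hx =>
    (B.valuation_lt_one_iff ⟨_, h1 ⟨x, hx.le⟩⟩).mp fun k =>
      (Valuation.mem_maximalIdeal_iff _ _ |>.mpr hx) (h2.1 ⟨x, hx.le⟩ k)
  refine ⟨B, fun x => ⟨fun h => ?_, fun h => h1 ⟨x, h⟩⟩, fun x => ⟨fun h => ?_, h3 x⟩⟩
  · by_contra! k
    have := h3 x⁻¹ (by rw [map_inv₀]; exact inv_lt_one_of_one_lt₀ k)
    rw [map_inv₀, map_inv₀, inv_lt_one_iff₀, le_zero_iff, map_eq_zero, map_eq_zero] at this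
    rcases this with rfl | e
    · simp at k
    · exact e.not_ge ((B.valuation_le_one_iff _).mpr h)
  · by_contra! k
    have : B.valuation (jC x⁻¹) ≤ 1 := (B.valuation_le_one_iff _).mpr
      (h1 ⟨x⁻¹, show w.V _ ≤ 1 by rw [map_inv₀]; exact inv_le_one_of_one_le₀ k⟩)
    rw [map_inv₀, map_inv₀, inv_le_one_iff₀, le_zero_iff, map_eq_zero, map_eq_zero] at this
    rcases this with rfl | e
    · simp at k
    · exact e.not_gt h

theorem kr_frob {w : Plc} {φ : Gam} (hφ : IsFrob w w.p φ) {x y : Qbar} (hx : w.V x ≤ 1)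
    (h : w.V (y - x ^ w.p) < 1) : w.V (y - φ x) < 1 := by
  rw [show y - φ x = y - x ^ w.p - (φ x - x ^ w.p) by ring]
  exact w.V.map_sub_lt h (hφ.2 x hx)

theorem m_kron : KronStmt := by
  intro w φ τ P h30 hφ hτ hP
  have hp := w.prime
  have h15 : ¬ w.p ∣ 15 := fun h => h30 (h.trans (by norm_num))
  have ex : ∀ {Q : EE} {z : ℂ}, 0 < z.im → pmap jC Q = pt z →
      jC (xco Q) = t15 z ∧ jC (yco Q) = Y15 z ∧ (Q ∉ K1 w ↔ w.V (xco Q) ≤ 1) := fun hz h =>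
    ⟨by rw [← xco_pmap, h, xco_pt hz], by rw [← yco_pmap, h, yco_pt hz], by
      rw [mem_K1, not_or, not_lt, and_iff_right]
      rintro rfl
      rw [map_zero, pt_eq hz] at h
      cases h⟩
  obtain ⟨x1, x2, x3⟩ := ex hτ hP
  choose N hN using fun i => exists_pt_of_alg (R := pt (nb w.p τ i))
    (xco_pt (kr_pos hp hτ i) ▸ kr_algebraic hp h15 hτ x1 i)
  have hn := fun i => ex (kr_pos hp hτ i) (hN i)
  obtain ⟨B, b1, b2⟩ := kr_ext w
  have b3 : ∀ x, B.valuation (jC x) ≤ 1 ↔ w.V x ≤ 1 := fun x =>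
    (B.valuation_le_one_iff _).trans (b1 x)
  refine ⟨N, hN, ?_⟩
  by_cases k : P ∈ K1 w
  · have : ∀ i, N i ∈ K1 w := fun i => by
      by_contra k'
      obtain ⟨j, hj⟩ := kr_symm hp hτ i
      have := kr_int hp h15 (kr_pos hp hτ i) ((hn i).1 ▸ (b3 _).mpr ((hn i).2.2.mp k')) j
      rw [hj, ← x1, b3] at this
      exact x3.mpr this k
    exact ⟨none, sub_mem (this _) ((K1_smul hφ.1).mpr k),
      fun j _ => sub_mem ((K1_smul hφ.1).mpr (this j)) k⟩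
  have hx : B.valuation (t15 τ) ≤ 1 := x1 ▸ (b3 _).mpr (x3.mp k)
  have hi := kr_int hp h15 hτ hx
  have kn : ∀ i, N i ∉ K1 w := fun i => (hn i).2.2.mpr ((b3 _).mp ((hn i).1 ▸ hi i))
  have hV : B.valuation (w.p : ℂ) < 1 := by
    rw [← map_natCast jC, b2, w.hV]
    exact inv_lt_one_of_one_lt₀ (by exact_mod_cast hp.one_lt)
  obtain ⟨i, h1, h2⟩ := kr_alg B hp hV (fun i => (B.valuation_le_one_iff _).mp (hi i))
    (fun i => (B.valuation_le_one_iff _).mp (kr_y (kr_pos hp hτ i) (hi i)))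
    ((B.valuation_le_one_iff _).mp hx) ((B.valuation_le_one_iff _).mp (kr_y hτ hx))
    fun Y hY S hS => kr_congr hp h15 hV hτ hx ((B.valuation_le_one_iff _).mpr hY)
      ((B.valuation_le_one_iff _).mpr hS)
  simp only [← x1, ← x2, ← (hn _).1, ← (hn _).2.1, ← map_pow, ← map_sub, b2] at h1 h2
  refine ⟨i, K1_near h15 (kn i) (mt (K1_smul hφ.1).mp k) ?_ ?_, fun j hj =>
    K1_near h15 (mt (K1_smul hφ.1).mp (kn j)) k ?_ ?_⟩
  · exact xco_smul φ P ▸ kr_frob hφ (V_xco_le k).1 h1.1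
  · exact yco_smul φ P ▸ kr_frob hφ (V_xco_le k).2 h1.2
  · rw [xco_smul, w.V.map_sub_swap]
    exact kr_frob hφ (V_xco_le (kn j)).1 (w.V.map_sub_swap _ _ ▸ (h2 j hj).1)
  · rw [yco_smul, w.V.map_sub_swap]
    exact kr_frob hφ (V_xco_le (kn j)).2 (w.V.map_sub_swap _ _ ▸ (h2 j hj).2)

end Pool.Agent.Lib.MP_696deb_nt.B2
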