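import Pool.Agent.Lib.MP_696deb_nt.B2.TA0

/-! The Galois representation and its determinant. -/

set_option autoImplicit false

open scoped NNReal Classical
open Matrix NumberTheorySymbols

namespace Pool.Agent.Lib.MP_696deb_nt.B2

theorem wpsi_smul (g : Gam) (m : ℕ) (A B : EE) : g (wpsi m A B) = wpsi m (g • A) (g • B) := by
  induction m generalizing A with
  | zero => exact map_one g
  | succ m ih =>
    rw [wpsi, wpsi, map_mul, ih, ps2, ps2, map_div₀, map_sub, map_sub, ← xco_smul, ← xco_smul,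
      ← xco_smul, smul_add, smul_comm g, smul_comm g]

theorem wpsi_ne {m : ℕ} {A B : EE} (h : Gw m A B) : wpsi m A B ≠ 0 := by
  induction m generalizing A with
  | zero => exact one_ne_zero
  | succ m ih =>
    obtain ⟨w0, w1, w2, w3, w4, w5⟩ := h.succ
    refine mul_ne_zero (ih w0) (div_ne_zero (fun e => ?_) fun e => ?_)
    · rcases eq_or_of_xco w3 w1 (sub_eq_zero.1 e) with e | e
      · exact w2 (add_eq_left.1 e)
      · exact w4 (by rw [two_nsmul, add_assoc, e, add_neg_cancel])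
    · rcases eq_or_of_xco w3 w2 (sub_eq_zero.1 e) with e | e
      · exact w1 (add_eq_right.1 e)
      · exact w5 (by rw [two_nsmul, ← add_assoc, e, neg_add_cancel])

theorem exists_lim (a : ∀ m : ℕ, ZMod (2 ^ m)) (h : ∀ m k,
    ZMod.castHom (pow_dvd_pow 2 (Nat.le_add_right m k)) (ZMod (2 ^ m)) (a (m + k)) = a m) :
    ∃ x : ℤ_[2], ∀ m, PadicInt.toZModPow m x = a m :=
  ⟨_, fun m => (PadicInt.toZModPow_ofIntSeq_of_pow_dvd_sub (fun m => (a m).val) 2 (fun i => by
    have := (ZMod.intCast_eq_intCast_iff_dvd_sub (a i).val (a (i + 1)).val (2 ^ i)).1 (by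
      simpa using (h i 1).symm)
    exact_mod_cast this) m).trans (by
      rw [Int.cast_natCast, ZMod.natCast_zmod_val])⟩

theorem tab_cast (m k : ℕ) (A : M2) (x : Fin 2 → ZMod (2 ^ (m + k))) :
    (fun i => ZMod.castHom (pow_dvd_pow 2 (Nat.le_add_right m k)) (ZMod (2 ^ m))
      ((mred (m + k) A *ᵥ x) i)) = mred m A *ᵥ fun i =>
        ZMod.castHom (pow_dvd_pow 2 (Nat.le_add_right m k)) (ZMod (2 ^ m)) (x i) := by
  funext i
  simp only [mulVec, dotProduct, map_sum, map_mul, mred_apply, ZMod.castHom_apply,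
    PadicInt.cast_toZModPow _ _ (Nat.le_add_right m k)]

theorem Emb.exists_rho (E : Emb) : ∃ T : TB, T.toEmb = E := by
  choose f hf using fun (m : ℕ) (g : Gam) (x : Fin 2 → ZMod (2 ^ m)) =>
    E.surj m (g • E.emb m x) (by rw [smul_comm, E.tors, smul_zero])
  choose r hr using fun (g : Gam) (i j : Fin 2) => exists_lim (fun m => f m g (Pi.single j 1) i)
    fun m k => congrFun (E.inj m ((E.two m k (f (m + k) g (Pi.single j 1))).symm.trans (by
      rw [hf, hf m g (Pi.single j 1), smul_comm, E.two]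
      congr 2
      funext l
      rw [Pi.apply_single (fun _ => ZMod.castHom _ (ZMod (2 ^ m))) (fun _ => map_zero _), map_one])))
      i
  have k : ∀ m g x, g • E.emb m x = E.emb m (mred m (of (r g)) *ᵥ x) := fun m g x => by
    have e : x = (x 0).val • Pi.single 0 1 + (x 1).val • Pi.single 1 1 := by
      funext i
      rw [Pi.add_apply, Pi.smul_apply, Pi.smul_apply]
      fin_cases i <;> simp
    have e' : ∀ j, mred m (of (r g)) *ᵥ Pi.single j 1 = f m g (Pi.single j 1) := fun j => by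
      funext i
      rw [mulVec_single_one, col_apply, mred_apply, of_apply, hr]
    rw [e, mulVec_add, mulVec_smul, mulVec_smul, e', e', map_add, map_add, map_nsmul, map_nsmul,
      map_nsmul, map_nsmul, hf, hf, smul_add, smul_comm g, smul_comm g]
  refine ⟨⟨E, ⟨⟨fun g => of (r g), mred_ext fun m => ?_⟩, fun g h => mred_ext fun m => ?_⟩, k⟩, rfl⟩
  · exact Matrix.ext_of_mulVec_single fun _ => E.inj m (by rw [← k, mred_one, one_mulVec, one_smul])
  · exact Matrix.ext_of_mulVec_single fun _ => E.inj m (by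
      rw [← k, mred_mul, ← mulVec_mulVec, ← k, ← k, mul_smul])

theorem det2_mulVec {R : Type*} [CommRing R] (A : Matrix (Fin 2) (Fin 2) R) (x y : Fin 2 → R) :
    det2 (A *ᵥ x) (A *ᵥ y) = A.det * det2 x y := by
  simp only [det2, mulVec, dotProduct, Fin.sum_univ_two, det_fin_two]
  ring

theorem Emb.exists_change (E : Emb) {B : M2} (h : IsUnit B.det) :
    ∃ E' : Emb, ∀ m x, E'.emb m x = E.emb m (mred m B *ᵥ x) := by
  obtain ⟨⟨B, C, h1, h2⟩, rfl⟩ := (isUnit_iff_isUnit_det B).2 h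
  refine ⟨⟨fun m => (E.emb m).comp (mulVecLin (mred m B)).toAddMonoidHom, fun m x y e => ?_,
    fun m P e => ?_, fun m k x => (E.two m k _).trans (congrArg _ (tab_cast m k B x)),
    fun m => ?_⟩, fun _ _ => rfl⟩
  · have e' : mred m C *ᵥ mred m B *ᵥ x = mred m C *ᵥ mred m B *ᵥ y :=
      congrArg (mred m C *ᵥ ·) (E.inj m e)
    rwa [mulVec_mulVec, mulVec_mulVec, ← mred_mul, h2, mred_one, one_mulVec, one_mulVec] at e'
  · obtain ⟨x, rfl⟩ := E.surj m P e
    refine ⟨mred m C *ᵥ x, congrArg (E.emb m) (?_ : mred m B *ᵥ mred m C *ᵥ x = x)⟩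
    rw [mulVec_mulVec, ← mred_mul, h1, mred_one, one_mulVec]
  · obtain ⟨u, hu⟩ := E.weil m
    refine ⟨u * (h.map (PadicInt.toZModPow m)).unit, fun A A' x y k => (hu A A' _ _ k).trans ?_⟩
    rw [Units.val_mul, IsUnit.unit_spec, mul_assoc, ← mred_det, ← det2_mulVec]
    rfl

theorem TB.sm (T : TB) (m : ℕ) : Sm ⊤ fun g => mred m (T.ρ g) :=
  ((Sm.pi fun j : Fin 2 => sm_pt ⊤ (T.emb m (Pi.single j 1))).comp fun P =>
    of fun i j => Function.invFun (T.emb m) (P j) i).congr fun g _ => Matrix.ext fun i j => by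
      rw [of_apply, T.smul, Function.leftInverse_invFun (T.inj m), mulVec_single_one, col_apply]

theorem tab_half (m : ℕ) (P : EE) : ∃ R : EE, 2 ^ m • R = P := by
  induction m with
  | zero => exact ⟨P, one_smul _ _⟩
  | succ m ih =>
    obtain ⟨R, rfl⟩ := ih
    obtain ⟨R, rfl⟩ := exists_half R
    exact ⟨R, by rw [pow_succ, mul_smul]⟩

theorem tab_not {P Q : EE} (h : 2 • Q = 0) (h0 : P ≠ 0) (h1 : P ≠ Q) :
    P ∉ AddSubgroup.zmultiples Q := fun e => by
  obtain ⟨c, rfl⟩ := AddSubgroup.mem_zmultiples_iff.1 e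
  have k : ∀ k : ℤ, (2 * k) • Q = 0 := fun k => by
    rw [mul_comm, mul_smul, two_zsmul, ← two_nsmul, h, smul_zero]
  obtain ⟨c, rfl | rfl⟩ := Int.even_or_odd' c
  · exact h0 (k c)
  · exact h1 (by rw [add_smul, k, zero_add, one_smul])

theorem TB.det (T : TB) (g : Gam) : (T.ρ g).det = cyc g := by
  refine PadicInt.ext_of_toZModPow.1 fun m => ?_
  obtain ⟨u, hu⟩ := T.weil m
  obtain ⟨A, hA⟩ := tab_half m T1
  obtain ⟨B, hB⟩ := tab_half m T2
  have k : Gn T1 T2 := ⟨tab_not two_T2 T_ne.1 T_ne.2.2.2.1, tab_not two_T1 T_ne.2.1 T_ne.2.2.2.1.symm⟩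
  have hA' : 2 ^ m • g • A = T1 := by rw [smul_comm, hA, smul_T1]
  have hB' : 2 ^ m • g • B = T2 := by rw [smul_comm, hB, smul_T2]
  have e := congrArg g (hu A B ![1, 0] ![0, 1] (by rwa [hA, hB]))
  simp only [map_mul, wpsi_smul, smul_add, T.smul, smul_zeta_val] at e
  rw [hu _ _ _ _ (by rwa [hA', hB']), det2_mulVec, mred_det] at e
  have e' := zeta_val_inj (mul_right_cancel₀ (mul_ne_zero
    (wpsi_ne (Gn.gw (by rwa [smul_add, T.tors, add_zero, hA', hB'])))
    (wpsi_ne (Gn.gw (by rwa [smul_add, T.tors, add_zero, hA', hB'])))) e)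
  simpa [det2, cy, mul_comm] using e'

end Pool.Agent.Lib.MP_696deb_nt.B2
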