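import Pool.Agent.Lib.MP_696deb_nt.B2.TAa
import Pool.Agent.Lib.MP_696deb_nt.B2.TAb

/-! A basis adapted to complex conjugation. -/

set_option autoImplicit false

open scoped NNReal Classical
open Matrix NumberTheorySymbols

namespace Pool.Agent.Lib.MP_696deb_nt.B2

theorem tad_change (T : TB) {B D : M2} (h : IsUnit B.det) {g : Gam} (e : T.ρ g * B = B * D) :
    ∃ T' : TB, T'.ρ g = D := by
  obtain ⟨E, hE⟩ := T.toEmb.exists_change h
  obtain ⟨T', rfl⟩ := E.exists_rho
  refine ⟨T', mred_ext fun m => T'.mred_eq fun x => ?_⟩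
  rw [hE, hE, T.smul, mulVec_mulVec, mulVec_mulVec, ← mred_mul, ← mred_mul, e]

theorem exists_conj : ∃ T : TB, T.ρ cc = !![1, 0; 0, -1] := by
  obtain ⟨E⟩ := exists_emb
  obtain ⟨T, -⟩ := E.exists_rho
  obtain ⟨C, hC⟩ := mred_eq_iff.1 ((T.mod2 cc).trans (mred_one 1).symm)
  obtain ⟨p, q, r, s, hC⟩ : ∃ p q r s : ℤ_[2], T.ρ cc = !![1 + 2 * p, 2 * q; 2 * r, 1 + 2 * s] := by
    refine ⟨C 0 0, C 0 1, C 1 0, C 1 1, ?_⟩
    rw [hC]
    ext i j
    fin_cases i <;> fin_cases j <;> simp [two_mul]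
  have h1 : T.ρ cc * T.ρ cc = 1 := by rw [← map_mul, cc_mul_cc, map_one]
  have h2 := (T.det cc).trans cyc_cc
  rw [hC] at h1 h2
  have h3 := congrFun (congrFun h1 0) 0
  have h4 := congrFun (congrFun h1 1) 1
  simp only [mul_fin_two, of_apply, cons_val', cons_val_zero, cons_val_one, cons_val_fin_one,
    one_apply_eq, det_fin_two_of] at h2 h3 h4
  obtain rfl : s = -1 - p := by
    have : (2 * (s - (-1 - p))) ^ 2 = 0 := by linear_combination h3 + h4 + 2 * h2
    exact sub_eq_zero.1 ((mul_eq_zero.1 (pow_eq_zero_iff two_ne_zero |>.1 this)).resolve_left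
      two_ne_zero)
  have h5 : q * r = -p * (1 + p) :=
    mul_left_cancel₀ (a := 4) (by norm_num) (by linear_combination h3)
  by_cases hp : IsUnit p
  · refine tad_change T (B := !![q, -p; -p, -r]) ?_ ?_
    · rwa [det_fin_two_of, show q * -r - -p * -p = p by linear_combination -h5]
    · rw [hC]
      ext i j
      fin_cases i <;> fin_cases j <;> simp <;> first | ring1 | linear_combination -2 * h5 |
        linear_combination 2 * h5
  · refine tad_change T (B := !![1 + p, -q; r, 1 + p]) ?_ ?_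
    · rw [det_fin_two_of, show (1 + p) * (1 + p) - -q * r = 1 + p by linear_combination h5]
      rw [isUnit_iff_red] at hp ⊢
      rw [map_add, map_one]
      revert hp
      generalize PadicInt.toZMod p = y
      revert y
      decide
    · rw [hC]
      ext i j
      fin_cases i <;> fin_cases j <;> simp <;> first | ring1 | linear_combination -2 * h5 |
        linear_combination 2 * h5

theorem tad_neg {r : Qbar} {n : ℤ} (h : r ^ 2 = n) (hn : n < 0) : cc r ≠ r := fun k => by
  have h1 := chi_spec h cc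
  rw [chi_cc hn.ne, if_neg hn.not_gt, k] at h1
  have h2 : r = 0 := by
    simp only [Units.val_neg, Units.val_one, Int.cast_neg, Int.cast_one] at h1
    linear_combination (1 / 2 : Qbar) * h1
  rw [h2, zero_pow two_ne_zero] at h
  exact hn.ne (by exact_mod_cast h.symm)

theorem tad_key (hd : DescStmt) {d : ℤ} (h0 : d ≠ 0) {R : EE} (h1 : 2 • 2 • R = 0)
    (h2 : tw d cc R = R) :
    (∃ r, r ^ 2 = kA d (2 • R) ∧ cc r = r) ∧ ∃ r, r ^ 2 = kB d (2 • R) ∧ cc r = r := by
  obtain ⟨α, β, ⟨r, -, hr, hr'⟩, ⟨s, -, hs, hs'⟩, h⟩ := hd d ⊤ R h0 fun g _ => by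
    have h3 : g • (2 • R : EE) = 2 • R := by
      rcases two_eq_zero.1 h1 with e | e | e | e <;> rw [e]
      exacts [smul_zero g, smul_T1 g, smul_T2 g, smul_T3 g]
    rw [tw, h3]
    rcases Int.units_eq_one_or (chi d g) with e | e <;> rw [e]
    · exact one_smul _ _
    · rw [Units.val_neg, Units.val_one, neg_one_smul, neg_eq_iff_add_eq_zero, ← two_nsmul, h1]
  have h3 := h cc trivial
  have hv : (1 : ZMod (2 ^ 1)).val = 1 := rfl
  rw [h2, sub_self] at h3
  have h4 : α cc = 0 ∧ β cc = 0 := by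
    rcases b3b_two (α cc) with a | a <;> rcases b3b_two (β cc) with b | b <;>
      simp only [a, b, ZMod.val_zero, hv, zero_smul, one_smul, zero_add, add_zero] at h3
    · exact ⟨a, b⟩
    · exact absurd h3.symm T_ne.1
    · exact absurd h3.symm T_ne.2.1
    · exact absurd (h3.trans ((add_comm _ _).trans T1_add_T2)).symm T_ne.2.2.1
  exact ⟨⟨r, hr, by simpa [h4.1] using hr' cc trivial⟩, s, hs, by simpa [h4.2] using hs' cc trivial⟩

theorem tad_two (E : Emb) (a b : ℕ) : 2 • E.emb 2 ![a, b] = E.emb 1 ![a, b] := by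
  refine (E.two 1 1 ![a, b]).trans (congrArg _ (funext fun i => ?_))
  fin_cases i <;> exact map_natCast _ _

theorem TB.e01 (hd : DescStmt) (T : TB) (h : T.ρ cc = !![1, 0; 0, -1]) :
    T.emb 1 ![1, 0] = T3 ∧ T.emb 1 ![0, 1] = T1 := by
  have hm : mred 2 (T.ρ cc) = !![1, 0; 0, -1] := by
    rw [h]
    ext i j
    fin_cases i <;> fin_cases j <;> simp [mred_apply]
  have e0 : 2 • T.emb 2 ![1, 0] = T.emb 1 ![1, 0] := by simpa using tad_two T.toEmb 1 0
  have e1 : 2 • T.emb 2 ![0, 1] = T.emb 1 ![0, 1] := by simpa using tad_two T.toEmb 0 1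
  have ne : ∀ x, x ≠ 0 → T.emb 1 x ≠ 0 := fun x hx e => hx (T.inj 1 (e.trans (map_zero _).symm))
  obtain ⟨n1, n2, n3, n12, n13, n23⟩ := T_ne
  constructor
  · obtain ⟨-, r, hr, hr'⟩ := tad_key hd one_ne_zero (R := T.emb 2 ![1, 0])
      (by rw [e0]; exact T.tors 1 _) (by
        rw [tw_one, T.smul, hm]
        exact congrArg _ (by decide))
    rw [e0] at hr
    rcases two_eq_zero.1 (T.tors 1 ![1, 0]) with e | e | e | e
    · exact absurd e (ne _ (by decide))
    · rw [e, kB, if_neg n1, if_neg n12] at hr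
      refine absurd (by rw [map_mul, map_ofNat, hr']) (tad_neg (r := 2 * r) (n := -9) ?_ (by decide))
      rw [mul_pow, hr]
      norm_num [T1]
    · rw [e, kB, if_neg n2, if_pos rfl] at hr
      exact absurd hr' (tad_neg (n := -1) (by simpa using hr) (by decide))
    · exact e
  · obtain ⟨⟨r, hr, hr'⟩, -⟩ := tad_key hd (d := -1) (by decide) (R := T.emb 2 ![0, 1])
      (by rw [e1]; exact T.tors 1 _) (by
        rw [tw, T.smul, hm, chi_cc (by decide), if_neg (by decide), Units.val_neg, Units.val_one,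
          neg_one_smul, ← map_neg]
        exact congrArg _ (by decide))
    rw [e1] at hr
    rcases two_eq_zero.1 (T.tors 1 ![0, 1]) with e | e | e | e
    · exact absurd e (ne _ (by decide))
    · exact e
    · rw [e, kA, if_neg (not_or.2 ⟨n2, n12.symm⟩)] at hr
      exact absurd hr' (tad_neg (n := -9) (by rw [hr]; norm_num [T2]) (by decide))
    · rw [e, kA, if_neg (not_or.2 ⟨n3, n13.symm⟩)] at hr
      exact absurd hr' (tad_neg (n := -25) (by rw [hr]; norm_num [T3]) (by decide))

end Pool.Agent.Lib.MP_696deb_nt.B2
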