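import Pool.Agent.Lib.MP_696deb_nt.B2.Base

/-! Quadratic characters of the absolute Galois group of the rational numbers. -/

set_option autoImplicit false

open scoped NNReal Classical
open Finset NumberTheorySymbols

namespace Pool.Agent.Lib.MP_696deb_nt.B2

variable {w : Plc} {g : Gam}

theorem xi_ine {c : ℤ} (h4 : c % 4 = 1) (h : ¬ (w.p : ℤ) ∣ c) (hg : g ∈ Ine w) : xi c g = 0 := by
  refine xi_eq_zero.2 ?_
  by_cases hw : w.p = 2
  · exact chi_ine_two hw h4 hg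
  · refine chi_ine (fun k => ?_) hg
    rcases (Nat.prime_iff_prime_int.1 w.prime).dvd_or_dvd k with k | k
    · exact hw ((Nat.prime_dvd_prime_iff_eq w.prime Nat.prime_two).1 (by exact_mod_cast k))
    · exact h k

theorem mu0_ndvd {c : ℤ} (hw : w.p ≠ 2) (h : ¬ (w.p : ℤ) ∣ c) : ¬ (w.p : ℤ) ∣ 2 * c := fun k => by
  rcases (Nat.prime_iff_prime_int.1 w.prime).dvd_or_dvd k with k | k
  · exact hw ((Nat.prime_dvd_prime_iff_eq w.prime Nat.prime_two).1 (by exact_mod_cast k))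
  · exact h k

theorem xi_gen {c : ℤ} (hw : w.p ≠ 2) (hc : Squarefree c) (h : (w.p : ℤ) ∣ c) (hg : Gen w g) :
    xi c g = 1 := by
  obtain ⟨d, rfl⟩ := h
  have p0 : (w.p : ℤ) ≠ 0 := by exact_mod_cast w.prime.ne_zero
  have hd : ¬ (w.p : ℤ) ∣ d := fun k =>
    (Nat.prime_iff_prime_int.1 w.prime).not_isUnit (hc _ (mul_dvd_mul_left _ k))
  rw [xi_mul p0 (right_ne_zero_of_mul hc.ne_zero), xi_eq_one.2 hg.2,
    xi_eq_zero.2 (chi_ine (mu0_ndvd hw hd) hg.1), add_zero]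

theorem jac_of_dec {c : ℤ} (hw : w.p ≠ 2) (h : ¬ (w.p : ℤ) ∣ c)
    (k : ∀ g ∈ Dec w, xi c g = 0) : J(c | w.p) = 1 := by
  obtain ⟨φ, hφ⟩ := exists_frob w
  rw [← chi_frob (mu0_ndvd hw h) hφ, xi_eq_zero.1 (k φ hφ.1)]
  rfl

theorem xi_dec {c : ℤ} (hw : w.p ≠ 2) (h : J(c | w.p) = 1) (hg : g ∈ Dec w) : xi c g = 0 :=
  xi_eq_zero.2 (chi_dec (B4c_not_dvd hw (by rw [h]; exact one_ne_zero)) h hg)

theorem xi_sq (a : ℤ) (g : Gam) : xi (a ^ 2) g = 0 := xi_eq_zero.2 (chi_sq a g)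

theorem xi_one (g : Gam) : xi 1 g = 0 := by simpa using xi_sq 1 g

theorem xi_at_one (a : ℤ) : xi a 1 = 0 := xi_eq_zero.2 (map_one _)

theorem xi_inv (a : ℤ) (g : Gam) : xi a g⁻¹ = xi a g := by
  have h := xi_hom a g g⁻¹
  rw [mul_inv_cancel, xi_at_one] at h
  generalize xi a g = x at h ⊢
  generalize xi a g⁻¹ = y at h ⊢
  revert x y
  decide

theorem xi_cc {a : ℤ} (ha : 0 < a) : xi a cc = 0 := xi_eq_zero.2 (by rw [chi_cc ha.ne', if_pos ha])

theorem xi_cc_neg {a : ℤ} (ha : a < 0) : xi a cc = 1 :=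
  xi_eq_one.2 (by rw [chi_cc ha.ne, if_neg (by omega)])

theorem mem_GK {n : ℕ} : g ∈ GK n ↔ xi (-n) g = 0 := B4c_mem.trans xi_eq_zero.symm

theorem notMem_GK {n : ℕ} : g ∉ GK n ↔ xi (-n) g = 1 := B4c_notMem.trans xi_eq_one.symm

/-- Every smooth quadratic character comes from a squarefree integer. -/
theorem exists_xi {χ : Gam → ZMod 2} (h1 : Sm ⊤ χ) (h2 : IsHom ⊤ χ) :
    ∃ c : ℤ, Squarefree c ∧ ∀ g, χ g = xi c g := by
  obtain ⟨a, ha⟩ := kum_surj (H := ⊤) (m := 1) (κ := χ) isClosed_univ h1 fun g hg k hk => by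
    rw [cy_one_eq, one_mul]; exact h2 g hg k hk
  obtain ⟨r, rfl⟩ := fx_top ha.fx.2
  have r0 : r ≠ 0 := fun h => ha.fx.1 (by rw [h, Rat.cast_zero])
  have n0 : r.num * r.den ≠ 0 := mul_ne_zero (Rat.num_ne_zero.2 r0) (by exact_mod_cast r.den_nz)
  obtain ⟨s, k, e, hs⟩ := Nat.sq_mul_squarefree (r.num * r.den).natAbs
  have d0 : (r.den : Qbar) ≠ 0 := by exact_mod_cast r.den_nz
  obtain ⟨c, hc, e'⟩ : ∃ c : ℤ, Squarefree c ∧ r.num * r.den = c * k ^ 2 := by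
    rcases Int.natAbs_eq (r.num * r.den) with h | h
    · exact ⟨s, Int.squarefree_natAbs.1 (by simpa using hs), by rw [h, ← e]; push_cast; ring⟩
    · exact ⟨-s, Int.squarefree_natAbs.1 (by simpa using hs), by rw [h, ← e]; push_cast; ring⟩
  refine ⟨c, hc, fun g => b4b_kum (y := k / r.den) ha (fun g _ => by simp) ?_ g trivial⟩
  have e2 : (r.num : Qbar) * r.den = c * k ^ 2 := by exact_mod_cast e'
  rw [Rat.cast_def, div_pow, ← mul_div_assoc, ← e2]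
  field_simp

/-- Quadratic characters unramified outside an odd integer. -/
theorem quad_class {n : ℤ} (hn : Odd n) {χ : Gam → ZMod 2} (h1 : Sm ⊤ χ) (h2 : IsHom ⊤ χ)
    (h3 : ∀ w : Plc, ¬ (w.p : ℤ) ∣ n → ∀ σ ∈ Ine w, χ σ = 0) :
    ∃ c : ℤ, c ∣ n ∧ c % 4 = 1 ∧ Squarefree c ∧ ∀ g, χ g = xi c g := by
  obtain ⟨c, hc, e⟩ := exists_xi h1 h2
  obtain ⟨v, hv⟩ := exists_plc Nat.prime_two
  have k2 : ¬ (v.p : ℤ) ∣ n := by rw [hv]; exact_mod_cast (Int.two_dvd_ne_zero.2 (Int.odd_iff.1 hn))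
  have key : ∀ (d : ℤ) (a b : ZMod 2), d % 4 = 1 →
      (∀ g, xi c g = xi d g + a * xi (-1) g + b * xi 2 g) → a = 0 ∧ b = 0 := fun d a b hd h => by
    have k : ∀ σ ∈ Ine v, a * xi (-1) σ + b * xi 2 σ = 0 := fun σ hσ => by
      have := h σ
      rwa [← e, h3 v k2 σ hσ, xi_ine hd (by rw [hv]; omega) hσ, zero_add, eq_comm] at this
    obtain ⟨σ, hσ, s1, s2⟩ := exists_ine_two hv (-1) 1
    obtain ⟨σ', hσ', s1', s2'⟩ := exists_ine_two hv 1 (-1)
    have a1 := k σ hσ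
    have a2 := k σ' hσ'
    rw [xi_eq_one.2 s1, xi_eq_zero.2 s2] at a1
    rw [xi_eq_zero.2 s1', xi_eq_one.2 s2'] at a2
    exact ⟨by simpa using a1, by simpa using a2⟩
  have c0 := hc.ne_zero
  have h4 : c % 4 = 1 := by
    have c4 : ¬ (2 : ℤ) * 2 ∣ c := fun k => absurd (hc _ k) (by decide)
    by_contra h5
    have : c % 4 = 3 ∨ c % 8 = 2 ∨ c % 8 = 6 := by omega
    rcases this with h | h | h
    · refine absurd (key (-c) 1 0 (by omega) fun g => ?_).1 one_ne_zero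
      rw [one_mul, zero_mul, add_zero, ← xi_mul (by omega) (by omega)]
      simp
    · refine absurd (key (c / 2) 0 1 (by omega) fun g => ?_).2 one_ne_zero
      rw [one_mul, zero_mul, add_zero, ← xi_mul (by omega) (by omega)]
      congr 1
      omega
    · refine absurd (key (-(c / 2)) 1 1 (by omega) fun g => ?_).2 one_ne_zero
      rw [one_mul, one_mul, ← xi_mul (by omega) (by omega), ← xi_mul (by omega) (by omega)]
      congr 1
      omega
  refine ⟨c, ?_, h4, hc, e⟩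
  have n0 : n ≠ 0 := by rintro rfl; simp at hn
  rw [← Int.natAbs_dvd_natAbs, ← Nat.prod_primeFactors_of_squarefree (Int.squarefree_natAbs.2 hc),
    Nat.prod_primeFactors_dvd_iff (Int.natAbs_ne_zero.2 n0)]
  intro p hp
  rw [Nat.mem_primeFactors] at hp ⊢
  refine ⟨hp.1, Int.natCast_dvd.1 ?_, Int.natAbs_ne_zero.2 n0⟩
  by_contra k
  obtain ⟨u, rfl⟩ := exists_plc hp.1
  have k1 := Int.natCast_dvd.2 hp.2.1
  have k3 : u.p ≠ 2 := fun h => by rw [h] at k1; omega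
  obtain ⟨τ, hτ⟩ := exists_gen k3
  have := xi_gen k3 hc k1 hτ
  rw [← e, h3 u k τ hτ.1] at this
  exact zero_ne_one this

end Pool.Agent.Lib.MP_696deb_nt.B2
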