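import Pool.Agent.Lib.MP_696deb_nt.B2.TA0
import Pool.Agent.Lib.MP_696deb_nt.B2.MU0

/-! The representation modulo eight. -/

set_option autoImplicit false

open scoped NNReal Classical
open Matrix NumberTheorySymbols

namespace Pool.Agent.Lib.MP_696deb_nt.B2

theorem tae_kum {a : Qbar} {κ : Gam → ZMod 2} {g : Gam} (h : Kum 1 (chi (-1)).ker a κ)
    (hg : chi (-1) g = 1) (n : ℤ) (q : ℚ) (e : a = n * q ^ 2 ∨ a = -(n * q ^ 2)) :
    κ g = xi n g := by
  rcases e with e | e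
  · exact b4b_kum h (y := q) (fun k _ => map_ratCast k q) e g hg
  · refine b4b_kum h (y := rt (-1) * q) (fun k hk => ?_) ?_ g hg
    · rw [map_mul, map_ratCast, chi_eq_one.1 hk]
    · rw [e, mul_pow, rt_sq]
      push_cast
      ring

theorem tae_fix {P : EE} (h : 2 • P = 0) (g : Gam) : g • P = P := by
  rcases two_eq_zero.1 h with rfl | rfl | rfl | rfl
  exacts [smul_zero g, smul_T1 g, smul_T2 g, smul_T3 g]

theorem smul_four (hd : DescStmt) {g : Gam} (h : chi (-1) g = 1) {P : EE} (hP : 2 ^ 2 • P = 0) :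
    g • P = P := by
  have h2 : 2 • 2 • P = 0 := by rw [← mul_smul]; exact hP
  obtain ⟨α, β, ha, hb, e⟩ := hd 1 (chi (-1)).ker P one_ne_zero fun k _ => by
    rw [tw_one, tae_fix h2]
  obtain ⟨n1, n2, n3, n4, n5, n6⟩ := T_ne
  have key : α g = xi 1 g ∧ β g = xi 1 g := by
    rcases two_eq_zero.1 h2 with k | k | k | k <;> rw [k] at ha hb
    · exact ⟨tae_kum ha h 1 1 (Or.inl (by simp [kA])), tae_kum hb h 1 1 (Or.inl (by simp [kB]))⟩
    · exact ⟨tae_kum ha h 1 1 (Or.inl (by simp [kA])), tae_kum hb h 1 (3 / 2) (Or.inr (by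
        rw [kB, if_neg n1, if_neg n4]; norm_num [T1]))⟩
    · exact ⟨tae_kum ha h 1 3 (Or.inl (by
        rw [kA, if_neg (not_or.2 ⟨n2, n4.symm⟩)]; norm_num [T2])),
        tae_kum hb h 1 1 (Or.inr (by rw [kB, if_neg n2, if_pos rfl]; norm_num))⟩
    · exact ⟨tae_kum ha h 1 5 (Or.inl (by
        rw [kA, if_neg (not_or.2 ⟨n3, n5.symm⟩)]; norm_num [T3])),
        tae_kum hb h 1 2 (Or.inl (by rw [kB, if_neg n3, if_neg n6.symm]; norm_num [T3]))⟩
  have e1 := e g h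
  rw [tw_one, key.1, key.2, xi_one] at e1
  exact sub_eq_zero.1 (e1.trans (by simp))

theorem tae_dup {R : EE} (h : 2 • R ≠ 0) :
    xco (2 • R) * (4 * xco R ^ 3 - 7 * xco R ^ 2 - 36 * xco R) = (xco R ^ 2 + 9) ^ 2 := by
  rcases R with _ | ⟨x, y, hp⟩
  · exact absurd (smul_zero _) h
  have h2 : dup2 (W15.baseChange Qbar) x ≠ 0 := fun k => h (two_nsmul_eq_zero hp k)
  have e := div_mul_cancel₀ (dup1 (W15.baseChange Qbar) x) h2
  rw [← xco_two_nsmul hp] at e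
  simp only [dup1, dup2, W15_b₂, W15_b₄, W15_b₆, W15_b₈] at e
  simp only [xco_some]
  linear_combination e

theorem tae_k {R : EE} (h : 2 • R ≠ 0) : kA 1 R = 4 * xco R + 9 ∧ kB 1 R = xco R := by
  have k := mt two_eq_zero.2 h
  simp only [not_or] at k
  rw [kA, kB, if_neg (not_or.2 ⟨k.1, k.2.1⟩), if_neg k.1, if_neg k.2.2.1]
  simp

theorem tae_red (x : ℤ_[2]) : PadicInt.toZMod x = PadicInt.toZModPow 1 x := by
  have k : ∀ y : ℤ_[2], PadicInt.toZModPow 1 x = PadicInt.toZModPow 1 y →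
      PadicInt.toZMod x = PadicInt.toZMod y := fun y e =>
    red_two_iff.2 (by simpa using red_eq_iff.1 e)
  rcases b3b_two (PadicInt.toZModPow 1 x) with e | e
  · rw [e, k 0 (by rw [e, map_zero]), map_zero]
  · rw [e, k 1 (by rw [e, map_one]), map_one]

theorem tae_pair (T : TB) (h0 : T.emb 1 ![1, 0] = T3) (h1 : T.emb 1 ![0, 1] = T1)
    (α β : ZMod (2 ^ 1)) : α.val • T2 + β.val • T1 = T.emb 1 ![α, α + β] := by
  have h2 : T.emb 1 ![1, 1] = T2 := by
    rw [show (![1, 1] : Fin 2 → ZMod (2 ^ 1)) = ![1, 0] + ![0, 1] by simp, map_add, h0, h1,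
      ← T1_add_T2, add_right_comm, ← two_nsmul, two_T1, zero_add]
  rw [← h1, ← h2, ← map_nsmul, ← map_nsmul, ← map_add]
  congr 1
  ext i
  fin_cases i <;> simp

theorem tae_col (hd : DescStmt) (T : TB) (h0 : T.emb 1 ![1, 0] = T3) (h1 : T.emb 1 ![0, 1] = T1)
    {g : Gam} (h : chi (-1) g = 1) {C : M2} (hC : T.ρ g = 1 + 2 ^ 2 • C) (j : Fin 2) :
    ∃ (R : EE) (α β : Gam → ZMod (2 ^ 1)), 2 • R = T.emb 1 (Pi.single j 1) ∧
      Kum 1 (chi (-1)).ker (kA 1 R) α ∧ Kum 1 (chi (-1)).ker (kB 1 R) β ∧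
      PadicInt.toZMod (C 0 j) = α g ∧ PadicInt.toZMod (C 1 j) = α g + β g := by
  have e1 : 2 • 2 • T.emb (1 + 2) (Pi.single j 1) = T.emb 1 (Pi.single j 1) := by
    rw [← mul_smul]
    refine (T.two 1 2 _).trans (congrArg _ (funext fun i => ?_))
    by_cases k : i = j
    · rw [k, Pi.single_eq_same, Pi.single_eq_same, map_one]
    · rw [Pi.single_eq_of_ne k, Pi.single_eq_of_ne k, map_zero]
  obtain ⟨α, β, ha, hb, e⟩ := hd 1 (chi (-1)).ker (T.emb (1 + 2) (Pi.single j 1)) one_ne_zero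
    fun k hk => by
      rw [tw_one]
      refine smul_four hd hk ?_
      rw [pow_two, mul_smul, e1]
      exact T.tors 1 _
  refine ⟨_, α, β, e1, ha, hb, ?_⟩
  have e2 := e g h
  have e3 : mred (1 + 2) (T.ρ g) *ᵥ Pi.single j 1 - Pi.single j 1 =
      2 ^ 2 • fun i => PadicInt.toZModPow (1 + 2) (C i j) := by
    funext i
    rw [mulVec_single_one, Pi.sub_apply, Pi.smul_apply, col_apply, mred_apply, hC,
      Matrix.add_apply, Matrix.smul_apply, map_add, map_nsmul, Matrix.one_apply, Pi.single_apply]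
    split_ifs <;> simp
  rw [tw_one, T.smul, ← map_sub, e3, map_nsmul, T.two 1 2, tae_pair T h0 h1] at e2
  have e4 : ∀ i, PadicInt.toZMod (C i j) = ![α g, α g + β g] i := fun i => by
    rw [tae_red, ← congrFun (T.inj 1 e2) i]
    exact (RingHom.congr_fun (PadicInt.zmod_cast_comp_toZModPow 1 (1 + 2) (by norm_num)) _).symm
  exact ⟨e4 0, e4 1⟩

theorem TB.mod8 (hd : DescStmt) (T : TB) (h0 : T.emb 1 ![1, 0] = T3) (h1 : T.emb 1 ![0, 1] = T1)
    (g : Gam) (h : chi (-1) g = 1) : ∃ a b c d : ℤ_[2],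
    T.ρ g = !![1 + 4 * a, 4 * b; 4 * c, 1 + 4 * d] ∧ PadicInt.toZMod a = xi 5 g ∧
      PadicInt.toZMod b = xi 15 g ∧ PadicInt.toZMod c = xi 5 g ∧ PadicInt.toZMod d = xi 10 g := by
  obtain ⟨C, hC⟩ := mred_eq_iff.1
    ((T.mred_eq_one (m := 2) fun P hP => smul_four hd h hP).trans (mred_one 2).symm)
  obtain ⟨R, α, β, r1, r2, r3, r4, r5⟩ := tae_col hd T h0 h1 h hC 0
  obtain ⟨S, γ, δ, s1, s2, s3, s4, s5⟩ := tae_col hd T h0 h1 h hC 1
  rw [show (Pi.single 0 1 : Fin 2 → ZMod (2 ^ 1)) = ![1, 0] by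
    ext i; fin_cases i <;> rfl, h0] at r1
  rw [show (Pi.single 1 1 : Fin 2 → ZMod (2 ^ 1)) = ![0, 1] by
    ext i; fin_cases i <;> rfl, h1] at s1
  have nR : 2 • R ≠ 0 := r1 ▸ T_ne.2.2.1
  have nS : 2 • S ≠ 0 := s1 ▸ T_ne.1
  have dR := tae_dup nR
  have dS := tae_dup nS
  rw [r1, T3, xco_some] at dR
  rw [s1, T1, xco_some] at dS
  rw [(tae_k nR).1] at r2
  rw [(tae_k nR).2] at r3
  rw [(tae_k nS).1] at s2
  rw [(tae_k nS).2] at s3
  have kR : α g = xi 5 g ∧ β g = xi 1 g := by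
    have e : ((xco R - 9) * (xco R + 1)) ^ 2 = 0 := by linear_combination -dR
    rcases mul_eq_zero.1 (pow_eq_zero_iff two_ne_zero |>.1 e) with k | k
    · rw [sub_eq_zero.1 k] at r2 r3
      exact ⟨tae_kum r2 h 5 3 (Or.inl (by norm_num)), tae_kum r3 h 1 3 (Or.inl (by norm_num))⟩
    · rw [eq_neg_of_add_eq_zero_left k] at r2 r3
      exact ⟨tae_kum r2 h 5 1 (Or.inl (by norm_num)), tae_kum r3 h 1 1 (Or.inr (by norm_num))⟩
  have kS : γ g = xi 15 g ∧ δ g = xi 6 g := by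
    have e : ((xco S - 3 / 2) * (xco S + 6)) ^ 2 = 0 := by linear_combination -dS
    rcases mul_eq_zero.1 (pow_eq_zero_iff two_ne_zero |>.1 e) with k | k
    · rw [sub_eq_zero.1 k] at s2 s3
      exact ⟨tae_kum s2 h 15 1 (Or.inl (by norm_num)),
        tae_kum s3 h 6 (1 / 2) (Or.inl (by norm_num))⟩
    · rw [eq_neg_of_add_eq_zero_left k] at s2 s3
      exact ⟨tae_kum s2 h 15 1 (Or.inr (by norm_num)), tae_kum s3 h 6 1 (Or.inr (by norm_num))⟩
  have k10 : xi 15 g + xi 6 g = xi 10 g := by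
    rw [← xi_mul (by norm_num) (by norm_num), show (15 * 6 : ℤ) = 10 * 3 ^ 2 by norm_num,
      xi_mul (by norm_num) (by norm_num), xi_sq, add_zero]
  refine ⟨C 0 0, C 0 1, C 1 0, C 1 1, ?_, r4.trans kR.1, s4.trans kS.1, ?_, ?_⟩
  · rw [hC]
    refine Matrix.ext fun i j => ?_
    rw [Matrix.add_apply, Matrix.smul_apply]
    fin_cases i <;> fin_cases j <;> simp
  · rw [r5, kR.1, kR.2, xi_one]
    exact add_zero _
  · rw [s5, kS.1, kS.2]
    exact k10

end Pool.Agent.Lib.MP_696deb_nt.B2
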