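import Pool.Agent.Lib.MP_696deb_nt.B2.TAb

/-! Places of good reduction. -/

set_option autoImplicit false

open scoped NNReal Classical
open Matrix NumberTheorySymbols

namespace Pool.Agent.Lib.MP_696deb_nt.B2

theorem taf_15 {p : ℕ} (h : ¬ p ∣ 30) : ¬ p ∣ 15 := fun k => h (k.trans (by norm_num))

theorem taf_2 {p : ℕ} (h : ¬ p ∣ 30) : p ≠ 2 := fun k => h (k ▸ by norm_num)

theorem TB.unr (T : TB) (w : Plc) (hw : ¬ w.p ∣ 30) (σ : Gam) (h : σ ∈ Ine w) : T.ρ σ = 1 := by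
  refine mred_ext fun m => ?_
  rw [mred_one]
  refine T.mred_eq_one fun P hP =>
    sub_eq_zero.1 (K1_tors (taf_2 hw) (K1_ine (taf_15 hw) h P) (m := m) ?_)
  rw [smul_sub, smul_comm, hP, smul_zero, sub_zero]

theorem taf_es (hk : KronStmt) (w : Plc) (φ : Gam) (P : EE) (hw : ¬ w.p ∣ 30)
    (h : IsFrob w w.p φ) (hP : ∀ i, pmap jC P ≠ Unif.u15 (Unif.alC i)) :
    φ • φ • P - a15 w.p • φ • P + w.p • P ∈ K1 w := by
  obtain ⟨τ, hτ, e⟩ := Unif.exists_pt_eq hP
  obtain ⟨N, hN, i, hi, hj⟩ := hk w φ τ P hw h hτ e.symm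
  have s : ∑ j, N j = a15 w.p • P := pmap_injective jC (by
    rw [map_sum, map_zsmul, ← e, ← Unif.pt_hecke w.prime (taf_15 hw) hτ, Fintype.sum_option,
      ← Fin.sum_univ_eq_sum_range (fun j : ℕ => pt ((τ + j) / w.p))]
    simp only [hN, nb])
  have s2 : a15 w.p • φ • P = φ • N i + ∑ j ∈ Finset.univ.erase i, φ • N j := by
    rw [smul_comm, ← s, Finset.smul_sum, Finset.add_sum_erase _ (fun j => φ • N j)
      (Finset.mem_univ i)]
  have s3 : w.p • P = ∑ _j ∈ Finset.univ.erase i, P := by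
    rw [Finset.sum_const, Finset.card_erase_of_mem (Finset.mem_univ i), Finset.card_univ,
      Fintype.card_option, Fintype.card_fin, Nat.add_sub_cancel]
  have s4 : φ • φ • P - a15 w.p • φ • P + w.p • P =
      -(φ • (N i - φ • P) + ∑ j ∈ Finset.univ.erase i, (φ • N j - P)) := by
    rw [s2, s3, Finset.sum_sub_distrib, smul_sub]
    abel
  rw [s4]
  exact neg_mem (add_mem ((K1_smul h.1).2 hi)
    (sum_mem fun j k => hj j (Finset.ne_of_mem_erase k)))

theorem es_of_kron (hk : KronStmt) (E : Emb) (w : Plc) (φ : Gam) (P : EE) (hw : ¬ w.p ∣ 30)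
    (h : IsFrob w w.p φ) : φ • φ • P - a15 w.p • φ • P + w.p • P ∈ K1 w := by
  obtain ⟨x, hx⟩ : ∃ x, ∀ k : Fin 4 ⊕ Fin 4, pmap jC (E.emb 2 x) ≠
      Sum.elim (fun i => Unif.u15 (Unif.alC i)) (fun i => pmap jC P - Unif.u15 (Unif.alC i)) k := by
    by_contra k
    push Not at k
    choose f hf using k
    have := Fintype.card_le_of_injective f fun x y e =>
      E.inj 2 (pmap_injective jC (by rw [hf, hf, e]))
    simp at this
  have h1 := taf_es hk w φ (E.emb 2 x) hw h fun i => hx (.inl i)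
  have h2 := taf_es hk w φ (P - E.emb 2 x) hw h fun i e => hx (.inr i) (by
    rw [Sum.elim_inr, ← e, map_sub, sub_sub_cancel])
  have h3 := add_mem h1 h2
  simp only [smul_sub] at h3
  convert h3 using 1
  abel

theorem TB.tr (hk : KronStmt) (T : TB) (w : Plc) (φ : Gam) (hw : ¬ w.p ∣ 30)
    (h : IsFrob w w.p φ) : (T.ρ φ).trace = a15 w.p := by
  have d : (T.ρ φ).det = w.p := (T.det φ).trans (cyc_frob (taf_2 hw) h)
  have e : T.ρ φ * T.ρ φ - a15 w.p • T.ρ φ + w.p • (1 : M2) = 0 := mred_ext fun m => by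
    change (PadicInt.toZModPow m).mapMatrix _ = (PadicInt.toZModPow m).mapMatrix _
    rw [map_zero, map_add, map_sub, map_mul, map_zsmul, map_nsmul, map_one]
    refine Matrix.ext_of_mulVec_single fun j => T.inj m ?_
    rw [zero_mulVec, map_zero]
    refine K1_tors (taf_2 hw) ?_ (T.tors m _)
    have k := es_of_kron hk T.toEmb w φ (T.emb m (Pi.single j 1)) hw h
    rw [T.smul, T.smul] at k
    rw [add_mulVec, sub_mulVec, smul_mulVec, smul_mulVec, one_mulVec, ← mulVec_mulVec, map_add,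
      map_sub, map_zsmul, map_nsmul]
    exact k
  generalize T.ρ φ = A at d e
  have e0 := congrFun (congrFun e 0) 0
  have e1 := congrFun (congrFun e 0) 1
  rw [Matrix.add_apply, Matrix.sub_apply, Matrix.smul_apply, Matrix.smul_apply, Matrix.mul_apply,
    Fin.sum_univ_two, zsmul_eq_mul, nsmul_eq_mul, Matrix.zero_apply] at e0 e1
  rw [one_apply_eq] at e0
  rw [one_apply_ne (by decide)] at e1
  rw [det_fin_two] at d
  rw [trace_fin_two]
  have p0 : (w.p : ℤ_[2]) ≠ 0 := by exact_mod_cast w.prime.ne_zero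
  refine mul_right_cancel₀ p0 ?_
  linear_combination A 1 1 * e0 - A 1 0 * e1 + (a15 w.p - A 0 0) * d

theorem a15_hasse (p : ℕ) (hp : p.Prime) (h : ¬ p ∣ 30) : |a15 p| ≤ p := by
  have : Fact p.Prime := ⟨hp⟩
  have k : ∀ n : ℕ, n ∣ 30 ^ 4 → (n : ZMod p) ≠ 0 := fun n hn h' =>
    h (hp.dvd_of_dvd_pow (((ZMod.natCast_eq_zero_iff n p).mp h').trans hn))
  have b := (tr_even_bound p (taf_2 h) 0 (-9) 16
    (fun h' => k 9 (by norm_num) (by push_cast at h' ⊢; linear_combination h'))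
    (fun h' => k 16 (by norm_num) (by push_cast at h' ⊢; linear_combination -h'))
    (fun h' => k 25 (by norm_num) (by push_cast at h' ⊢; linear_combination -h'))).2
  simp only [sub_zero, sub_neg_eq_add] at b
  rw [a15_eq_tr p h]
  omega

theorem taf_key (hk : KronStmt) (T : TN) (w : Plc) (φ : Gam) (hw : ¬ w.p ∣ 30)
    (h : IsFrob w w.p φ) : ∃ a c : ℤ_[2], ((w.p + 1 - a15 w.p : ℤ) : ℤ_[2]) = 8 * (a + 2 * c) ∧
      (chi (-1) φ = -1 → PadicInt.toZMod a = xi 5 φ) := by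
  have d : (T.ρ φ).det = w.p := (T.det φ).trans (cyc_frob (taf_2 hw) h)
  have t := T.toTB.tr hk w φ hw h
  push_cast
  rw [← d, ← t]
  rcases Int.units_eq_one_or (chi (-1) φ) with e | e
  · obtain ⟨a, b, c, d, e', -⟩ := T.mod8 φ e
    refine ⟨0, a * d - b * c, ?_, fun k => absurd (e.symm.trans k) (by decide)⟩
    rw [e', det_fin_two_of, trace_fin_two_of]
    ring
  · obtain ⟨a, b, c, d, e', e5, -⟩ := T.mod8 (φ * cc) (by
      rw [map_mul, e, chi_cc (by norm_num), if_neg (by norm_num)]; decide)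
    have k : T.ρ φ = !![1 + 4 * a, 4 * b; 4 * c, 1 + 4 * d] * !![1, 0; 0, -1] := by
      rw [← e', ← T.conj, ← map_mul, mul_assoc, cc_mul_cc, mul_one]
    refine ⟨a, -a - (a * d - b * c), ?_, fun _ => ?_⟩
    · rw [k, mul_fin_two, det_fin_two_of, trace_fin_two_of]
      ring
    · rw [e5, xi_hom, xi_eq_zero.2 (show chi 5 cc = 1 by
        rw [chi_cc (by norm_num), if_pos (by norm_num)]), add_zero]

theorem TN.eight (hk : KronStmt) (T : TN) (p : ℕ) (hp : p.Prime) (h : ¬ p ∣ 30) :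
    8 ∣ p + 1 - a15 p := by
  obtain ⟨w, rfl⟩ := exists_plc hp
  obtain ⟨φ, hφ⟩ := exists_frob w
  obtain ⟨a, c, e, -⟩ := taf_key hk T w φ h hφ
  exact (PadicInt.pow_p_dvd_int_iff (p := 2) 3 _).1 ⟨a + 2 * c, by rw [e]; norm_num⟩

theorem TN.sixteen (hk : KronStmt) (T : TN) (p : ℕ) (hp : p.Prime) (h : ¬ p ∣ 30) (h4 : p % 4 = 3)
    (h5 : J(5 | p) = -1) : ¬ 16 ∣ p + 1 - a15 p := by
  obtain ⟨w, rfl⟩ := exists_plc hp
  obtain ⟨φ, hφ⟩ := exists_frob w
  obtain ⟨a, c, e, k⟩ := taf_key hk T w φ h hφ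
  have nd : ∀ b : ℤ, 2 * b ∣ 30 → ¬ (w.p : ℤ) ∣ 2 * b := fun b hb k =>
    h (by exact_mod_cast k.trans hb)
  have c1 : chi (-1) φ = -1 := Units.ext (by
    rw [chi_frob (nd _ (by norm_num)) hφ, jacobiSym.at_neg_one (Nat.odd_iff.2 (by omega)),
      ZMod.χ₄_nat_three_mod_four h4]
    rfl)
  have c5 : chi 5 φ = -1 := Units.ext (by
    rw [chi_frob (nd _ (by norm_num)) hφ, h5]
    rfl)
  rintro ⟨n, hn⟩
  have k1 := (k c1).trans (xi_eq_one.2 c5)
  have k2 : PadicInt.toZMod a = PadicInt.toZMod 0 := red_two_iff.2 ⟨n - c, by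
    refine mul_left_cancel₀ (show (8 : ℤ_[2]) ≠ 0 by norm_num) ?_
    rw [hn] at e
    push_cast at e
    linear_combination -e⟩
  rw [k1, map_zero] at k2
  exact absurd k2 (by decide)

end Pool.Agent.Lib.MP_696deb_nt.B2
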