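import Pool.Agent.Lib.MP_696deb_nt.B2.TAb

/-! Places of multiplicative reduction. -/

set_option autoImplicit false

open scoped NNReal Classical
open Matrix NumberTheorySymbols

namespace Pool.Agent.Lib.MP_696deb_nt.B2

theorem tag_odd (x : ℤ_[2]) : 1 + 2 * x ≠ 0 := by
  refine (isUnit_iff_red.2 ?_).ne_zero
  rw [← map_one PadicInt.toZMod, red_two_iff]
  exact ⟨x, by ring⟩

theorem tag_red {x : ℤ_[2]} {n : ℤ} (h : PadicInt.toZMod x = n) : PadicInt.toZModPow 1 x = n := by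
  rw [← map_intCast PadicInt.toZMod, red_two_iff] at h
  rwa [← map_intCast (PadicInt.toZModPow 1), red_eq_iff, pow_one]

theorem tag_pow (C : M2) (k : ℕ) : ∃ C' : M2, (1 + 2 • C) ^ 2 ^ k = 1 + 2 ^ (k + 1) • C' := by
  induction k with
  | zero => exact ⟨C, by simp⟩
  | succ k ih =>
    obtain ⟨C', h⟩ := ih
    refine ⟨C' + 2 ^ k • (C' * C'), ?_⟩
    rw [pow_succ, pow_mul, h, sq]
    simp only [mul_add, add_mul, mul_one, one_mul, smul_mul_assoc, mul_smul_comm]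
    module

/-- The representation modulo a power of two. -/
noncomputable def tagPi (T : TB) (k : ℕ) : Gam →* (Matrix (Fin 2) (Fin 2) (ZMod (2 ^ k)))ˣ :=
  (((PadicInt.toZModPow k).mapMatrix : M2 →+* _).toMonoidHom.comp T.ρ).toHomUnits

theorem tag_eq {T : TB} {k : ℕ} {g h : Gam} (e : tagPi T k g = tagPi T k h) :
    mred k (T.ρ g) = mred k (T.ρ h) := congrArg Units.val e

theorem tag_sm (T : TB) (k : ℕ) (D : Subgroup Gam) : Sm D (tagPi T k) := by
  obtain ⟨U, h1, h2, h3⟩ := T.sm k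
  exact ⟨U, h1, h2, fun g _ h _ e => Units.ext (h3 g trivial h trivial e)⟩

theorem tag_tors (T : TB) (k : ℕ) (g : Gam) : ∃ n : ℕ, tagPi T k g ^ 2 ^ n = 1 := by
  refine ⟨k, ?_⟩
  obtain ⟨C, hC⟩ := mred_eq_iff.1 ((T.mod2 g).trans (mred_one 1).symm)
  obtain ⟨C', h⟩ := tag_pow C k
  rw [← map_pow]
  refine Units.ext (Eq.trans ?_ (mred_one k))
  show mred k (T.ρ (g ^ 2 ^ k)) = _
  rw [map_pow, hC, pow_one, h, mred_eq_iff]
  exact ⟨2 • C', by rw [pow_succ, mul_smul]⟩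

theorem tag_gen (T : TB) {w : Plc} (hw : w.p ≠ 2) {τ σ : Gam} (hτ : Gen w τ) (hσ : σ ∈ Ine w)
    (k : ℕ) : ∃ (j : ℕ) (C : M2), T.ρ σ = T.ρ τ ^ j + 2 ^ k • C := by
  obtain ⟨j, hj⟩ := tame_gen hw hτ (tag_sm T k _) (fun g _ h _ => map_mul _ g h)
    (fun g _ => tag_tors T k g) hσ
  rw [← map_pow] at hj
  exact ⟨j, map_pow T.ρ τ j ▸ mred_eq_iff.1 (tag_eq hj)⟩

theorem tag_frob (T : TB) {w : Plc} (hw : w.p ≠ 2) {φ σ : Gam} {n : ℕ} (hφ : IsFrob w n φ)
    (hσ : σ ∈ Ine w) : T.ρ φ * T.ρ σ = T.ρ σ ^ n * T.ρ φ := by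
  have h : T.ρ (φ * σ * φ⁻¹) = T.ρ (σ ^ n) := mred_ext fun k => tag_eq (by
    rw [map_pow]
    exact tame_frob (H := ⊤) hw (tag_sm T k _) (fun g _ h _ => map_mul _ g h)
      (fun g _ => tag_tors T k g) isOpen_univ hφ ⟨trivial, hσ⟩ trivial)
  rw [← map_pow, ← h, ← map_mul, ← map_mul, inv_mul_cancel_right]

theorem tag_trace (T : TB) {φ σ : Gam} {n : ℕ} (h : T.ρ φ * T.ρ σ = T.ρ σ ^ n * T.ρ φ) :
    (T.ρ σ ^ n).trace = (T.ρ σ).trace := by
  have h1 : T.ρ σ ^ n = T.ρ φ * T.ρ σ * T.ρ φ⁻¹ := by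
    rw [h, mul_assoc, ← map_mul, mul_inv_cancel, map_one, mul_one]
  rw [h1, trace_mul_comm, ← mul_assoc, ← map_mul, inv_mul_cancel, map_one, one_mul]

theorem tag_nil {a b c d : ℤ_[2]} {n : ℕ} (hn : n = 3 ∨ n = 5)
    (h1 : (!![1 + 4 * a, 4 * b; 4 * c, 1 + 4 * d] : M2).det = 1)
    (h2 : ((!![1 + 4 * a, 4 * b; 4 * c, 1 + 4 * d] : M2) ^ n).trace =
      (!![1 + 4 * a, 4 * b; 4 * c, 1 + 4 * d] : M2).trace) : d = -a ∧ a ^ 2 + b * c = 0 := by
  rw [det_fin_two_of] at h1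
  have h4 : (4 : ℤ_[2]) ≠ 0 := by norm_num
  have e1 : a + d = -4 * (a * d - b * c) := mul_left_cancel₀ h4 (by linear_combination h1)
  obtain ⟨t, ht⟩ : ∃ t, t = 2 + 4 * (a + d) := ⟨_, rfl⟩
  have t0 : t ≠ 0 := by
    rw [show t = 2 * (1 + 2 * (a + d)) by rw [ht]; ring]
    exact mul_ne_zero two_ne_zero (tag_odd _)
  have t1 : t + 2 ≠ 0 := by
    rw [show t + 2 = 4 * (1 + 2 * (-2 * (a * d - b * c))) by rw [ht, e1]; ring]
    exact mul_ne_zero h4 (tag_odd _)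
  have t2 : t - 1 ≠ 0 := by
    rw [show t - 1 = 1 + 2 * (2 * (a + d)) by rw [ht]; ring]
    exact tag_odd _
  have t3 : t + 1 ≠ 0 := by
    rw [show t + 1 = 1 + 2 * (1 + 2 * (a + d)) by rw [ht]; ring]
    exact tag_odd _
  have h3 : ∀ x y z v : ℤ_[2], ((!![x, y; z, v] : M2) ^ 3).trace =
      (x + v) ^ 3 - 3 * (x + v) * (x * v - y * z) := fun x y z v => by
    simp only [pow_succ, pow_zero, one_mul, mul_fin_two, trace_fin_two_of]
    ring
  have h5 : ∀ x y z v : ℤ_[2], ((!![x, y; z, v] : M2) ^ 5).trace =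
      (x + v) ^ 5 - 5 * (x + v) ^ 3 * (x * v - y * z) + 5 * (x + v) * (x * v - y * z) ^ 2 :=
    fun x y z v => by
      simp only [pow_succ, pow_zero, one_mul, mul_fin_two, trace_fin_two_of]
      ring
  have e2 : 1 + 4 * a + (1 + 4 * d) = t := by rw [ht]; ring
  have e3 : t - 2 = 0 := by
    rcases hn with rfl | rfl
    · rw [h3, h1, trace_fin_two_of, e2] at h2
      exact mul_left_cancel₀ (mul_ne_zero t0 t1) (by linear_combination h2)
    · rw [h5, h1, trace_fin_two_of, e2] at h2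
      exact mul_left_cancel₀ (mul_ne_zero (mul_ne_zero t0 t1) (mul_ne_zero t2 t3))
        (by linear_combination h2)
  have e4 : d = -a := mul_left_cancel₀ h4 (by linear_combination e3 - ht)
  subst e4
  exact ⟨rfl, mul_left_cancel₀ h4 (by linear_combination -e1)⟩

theorem tag_unip {a b c : ℤ_[2]} (h : a ^ 2 + b * c = 0) (b' : ℤ_[2]) (j : ℕ) :
    (!![1 + 4 * a, 4 * b; 4 * c, 1 + 4 * -a] : M2) ^ j * !![b, 0; -a, b'] =
      !![b, 0; -a, b'] * !![1, 4 * j * b'; 0, 1] := by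
  induction j with
  | zero => rw [pow_zero, one_mul, Nat.cast_zero, mul_zero, zero_mul, ← one_fin_two, mul_one]
  | succ j ih =>
    rw [pow_succ', mul_assoc, ih]
    ext i k
    fin_cases i <;> fin_cases k <;> simp
    · ring
    · ring
    · linear_combination 4 * h
    · linear_combination 16 * j * b' * h

theorem tag_xi {w : Plc} (hw : w.p = 3 ∨ w.p = 5) {τ : Gam} (h : Gen w τ) :
    xi 15 τ = 1 ∧ xi 5 τ = if w.p = 3 then 0 else 1 := by
  have e : xi 15 τ = xi 3 τ + xi 5 τ := xi_mul (a := 3) (b := 5) (by norm_num) (by norm_num) τ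
  have h2 := xi_eq_one.2 h.2
  rcases hw with hw | hw
  · have h3 : xi 5 τ = 0 := xi_eq_zero.2 (chi_ine (by rw [hw]; norm_num) h.1)
    rw [hw] at h2
    exact ⟨by rw [e, h3, add_zero]; exact h2, by rw [if_pos hw, h3]⟩
  · have h3 : xi 3 τ = 0 := xi_eq_zero.2 (chi_ine (by rw [hw]; norm_num) h.1)
    rw [hw] at h2
    exact ⟨by rw [e, h3, zero_add]; exact h2, by rw [if_neg (by omega)]; exact h2⟩

theorem tag_row (T : TN) (g : Gam) : ∃ u v, T.ρ g 0 0 = 1 + 4 * u ∧ T.ρ g 0 1 = 4 * v := by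
  rcases Int.units_eq_one_or (chi (-1) g) with h | h
  · obtain ⟨a, b, c, d, e, -⟩ := T.mod8 g h
    exact ⟨a, b, by simp [e], by simp [e]⟩
  · obtain ⟨a, b, c, d, e, -⟩ := T.mod8 (g * cc) (by
      rw [map_mul, h, chi_cc (by norm_num)]
      simp)
    have e1 : T.ρ g = T.ρ (g * cc) * T.ρ cc := by rw [← map_mul, mul_assoc, cc_mul_cc, mul_one]
    rw [e1, e, T.conj]
    exact ⟨a, -b, by simp, by simp⟩

theorem TN.mult (T : TN) (w : Plc) (hw : w.p = 3 ∨ w.p = 5) : ∃ B : M2, B.det = 1 ∧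
    mred 1 B *ᵥ ![1, 0] = (if w.p = 3 then ![1, 0] else ![1, 1]) ∧
    (∀ σ ∈ Ine w, ∃ c, T.ρ σ * B = B * !![1, 4 * c; 0, 1] ∧ (Gen w σ → IsUnit c)) ∧
    ∀ φ, IsFrob w w.p φ → ∃ b, T.ρ φ * B =
      B * if w.p = 3 then !![-3, b; 0, -1] else !![5, b; 0, 1] := by
  have h2 : w.p ≠ 2 := by omega
  have h4 : (4 : ℤ_[2]) ≠ 0 := by norm_num
  have hc : ∀ σ ∈ Ine w, chi (-1) σ = 1 := fun σ hσ =>
    chi_ine (by rcases hw with h | h <;> rw [h] <;> norm_num) hσ
  obtain ⟨τ, hτ⟩ := exists_gen h2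
  obtain ⟨a, b, c, d, e, ha, hb, -⟩ := T.mod8 τ (hc τ hτ.1)
  obtain ⟨φ₀, hφ₀⟩ := exists_frob w
  obtain ⟨rfl, hn⟩ := tag_nil hw (e ▸ (T.det τ).trans (cyc_ine h2 hτ.1))
    (e ▸ tag_trace T.toTB (tag_frob T.toTB h2 hφ₀ hτ.1))
  rw [(tag_xi hw hτ).1] at hb
  obtain ⟨b', hb'⟩ := (isUnit_iff_red.2 hb).exists_right_inv
  have hX := fun j => e ▸ tag_unip hn b' j
  obtain ⟨B, hB⟩ : ∃ B : M2, B = !![b, 0; -a, b'] := ⟨_, rfl⟩
  obtain ⟨B', h1, h3⟩ : ∃ B' : M2, B * B' = 1 ∧ B' * B = 1 := by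
    refine ⟨!![b', 0; a, b], ?_, ?_⟩ <;> rw [hB] <;> ext i k <;> fin_cases i <;> fin_cases k <;>
      simp [hb', mul_comm b' b, mul_comm b' a, mul_comm b a]
  rw [← hB] at hX
  have dB : B.det = 1 := by rw [hB, det_fin_two_of, hb']; ring
  have k1 : ∀ A : M2, A * B = B * (B' * A * B) := fun A => by
    rw [← mul_assoc, ← mul_assoc, h1, one_mul]
  refine ⟨B, dB, ?_, fun σ hσ => ?_, fun φ hφ => ?_⟩
  · have r1 := tag_red (n := 1) (by simpa using hb)
    rw [(tag_xi hw hτ).2] at ha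
    split_ifs at ha ⊢
    · have r2 := tag_red (n := 0) (by simpa using ha)
      ext i
      fin_cases i <;> simp [hB, mred_apply, r1, r2]
    · have r2 := tag_red (n := 1) (by simpa using ha)
      ext i
      fin_cases i <;> simp [hB, mred_apply, r1, r2]
  · have k2 : ∀ k : ℕ, ∃ j : ℕ, ∀ i l, 2 ^ k ∣ (B' * T.ρ σ * B) i l -
        (!![1, 4 * j * b'; 0, 1] : M2) i l := fun k => by
      obtain ⟨j, C, hC⟩ := tag_gen T.toTB h2 hτ hσ k
      refine ⟨j, fun i l => ⟨(B' * C * B) i l, ?_⟩⟩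
      rw [hC, mul_add, add_mul, mul_assoc B', hX, ← mul_assoc, h3, one_mul, mul_smul_comm,
        smul_mul_assoc, Matrix.add_apply, Matrix.smul_apply, nsmul_eq_mul]
      push_cast
      ring
    generalize hM : B' * T.ρ σ * B = M at k2
    obtain ⟨j, hj⟩ := k2 2
    obtain ⟨y, hy⟩ := hj 0 1
    have k3 : M = !![1, 4 * (j * b' + y); 0, 1] := by
      have m0 : M 0 0 = 1 := eq_of_dvd fun k => (k2 k).elim fun _ h => by simpa using h 0 0
      have m2 : M 1 0 = 0 := eq_of_dvd fun k => (k2 k).elim fun _ h => by simpa using h 1 0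
      have m3 : M 1 1 = 1 := eq_of_dvd fun k => (k2 k).elim fun _ h => by simpa using h 1 1
      simp only [of_apply, cons_val', cons_val_one, cons_val_zero, cons_val_fin_one] at hy
      have m1 : M 0 1 = 4 * (j * b' + y) := by linear_combination hy
      rw [eta_fin_two M, m0, m1, m2, m3]
    have k4 := k1 (T.ρ σ)
    rw [hM, k3] at k4
    refine ⟨_, k4, fun hg => ?_⟩
    obtain ⟨a₁, b₁, c₁, d₁, e₁, -, hb₁, -⟩ := T.mod8 σ (hc σ hσ)
    rw [(tag_xi hw hg).1] at hb₁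
    have k5 := congrFun (congrFun k4 0) 1
    rw [e₁, hB] at k5
    simp only [mul_fin_two, of_apply, cons_val', cons_val_one, cons_val_zero,
      cons_val_fin_one] at k5
    have k6 : b * (b * (j * b' + y)) = b₁ :=
      mul_left_cancel₀ h4 (by linear_combination 4 * b₁ * hb' - b * k5)
    have k7 := isUnit_iff_red.2 hb₁
    rw [← k6] at k7
    exact isUnit_of_mul_isUnit_right (isUnit_of_mul_isUnit_right k7)
  · obtain ⟨M, hM⟩ : ∃ M : M2, M = B' * T.ρ φ * B := ⟨_, rfl⟩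
    have k2 : T.ρ φ * B = B * M := hM ▸ k1 _
    have k3 : M * !![1, 4 * (1 : ℕ) * b'; 0, 1] = !![1, 4 * w.p * b'; 0, 1] * M := by
      have k4 : B * (M * !![1, 4 * (1 : ℕ) * b'; 0, 1]) = B * (!![1, 4 * w.p * b'; 0, 1] * M) := by
        rw [← mul_assoc, ← k2, mul_assoc, ← hX, pow_one, ← mul_assoc, tag_frob T.toTB h2 hφ hτ.1,
          mul_assoc, k2, ← mul_assoc, hX, mul_assoc]
      rw [← one_mul (M * _), ← h3, mul_assoc, k4, ← mul_assoc, h3, one_mul]
    have k4 : M.det = w.p := by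
      have k5 := congrArg det k2
      rw [det_mul, det_mul, dB, mul_one, one_mul, T.det, cyc_frob h2 hφ] at k5
      exact k5.symm
    obtain ⟨u, v, hu, hv⟩ := tag_row T φ
    have k5 := congrFun (congrFun k2 0) 0
    obtain ⟨x, y, z, t, rfl⟩ : ∃ x y z t, M = !![x, y; z, t] := ⟨_, _, _, _, eta_fin_two M⟩
    have k6 := congrFun (congrFun k3 1) 1
    have k7 := congrFun (congrFun k3 0) 1
    rw [mul_apply, Fin.sum_univ_two, hu, hv, hB] at k5
    rw [det_fin_two_of] at k4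
    simp only [mul_fin_two, of_apply, cons_val', cons_val_one, cons_val_zero,
      cons_val_fin_one, Nat.cast_one] at k5 k6 k7
    obtain rfl : z = 0 := mul_left_cancel₀ h4 (by linear_combination b * k6 - 4 * z * hb')
    obtain rfl : x = w.p * t :=
      mul_left_cancel₀ h4 (by linear_combination b * k7 - 4 * (x - w.p * t) * hb')
    have k8 : w.p * t = 1 + 4 * (u - v * a * b') := by
      linear_combination -b' * k5 - (w.p * t - 1 - 4 * u) * hb'
    have k9 : t = 1 ∨ t = -1 := mul_self_eq_one_iff.1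
      (mul_left_cancel₀ (Nat.cast_ne_zero.2 w.prime.ne_zero) (by linear_combination k4))
    refine ⟨y, k2.trans ?_⟩
    rcases hw with hw | hw <;> rcases k9 with rfl | rfl <;> rw [hw] at k8 ⊢
    · exact absurd (mul_left_cancel₀ two_ne_zero (by push_cast at k8; linear_combination k8))
        (tag_odd (-(u - v * a * b')))
    · norm_num
    · norm_num
    · exact absurd (mul_left_cancel₀ two_ne_zero (by push_cast at k8; linear_combination -k8))
        (tag_odd (u - v * a * b' + 1))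

end Pool.Agent.Lib.MP_696deb_nt.B2
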