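import Pool.Agent.Lib.MP_696deb_nt.B2.TA0

/-! The image of the inertia groups is large. -/

set_option autoImplicit false

open scoped NNReal Classical
open Matrix NumberTheorySymbols

namespace Pool.Agent.Lib.MP_696deb_nt.B2

/-- The class of `N` modulo two occurs at level `i` of the image. -/
def TahL (T : TN) (i : ℕ) (N : M2) : Prop := ∃ g ∈ I30, ∃ C : M2, T.ρ g = 1 + 2 ^ i • (N + 2 • C)

variable {T : TN} {i : ℕ} {N N' : M2}

theorem tah_add (h : TahL T (i + 1) N) (h' : TahL T (i + 1) N') : TahL T (i + 1) (N + N') := by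
  obtain ⟨g, hg, C, e⟩ := h
  obtain ⟨g', hg', C', e'⟩ := h'
  refine ⟨g * g', mul_mem hg hg', C + C' + 2 ^ i • ((N + 2 • C) * (N' + 2 • C')), ?_⟩
  rw [map_mul, e, e']
  simp only [mul_add, add_mul, mul_one, one_mul, smul_mul_assoc, mul_smul_comm]
  module

theorem tah_sq (h : TahL T (i + 2) N) : TahL T (i + 3) N := by
  obtain ⟨g, hg, C, e⟩ := h
  refine ⟨g * g, mul_mem hg hg, C + 2 ^ i • ((N + 2 • C) * (N + 2 • C)), ?_⟩
  rw [map_mul, e]
  simp only [mul_add, add_mul, mul_one, one_mul, smul_mul_assoc, mul_smul_comm]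
  module

theorem tah_smul (h : TahL T i N) (c : ℤ_[2]) : TahL T i (c • N) := by
  have h2 : ∀ x : ZMod 2, x = 0 ∨ x = 1 := by decide
  rcases h2 (PadicInt.toZMod c) with e | e
  · obtain ⟨d, hd⟩ := red_two_iff.1 (e.trans (map_zero _).symm)
    refine ⟨1, one_mem _, -(d • N), ?_⟩
    rw [map_one, eq_add_of_sub_eq hd]
    module
  · obtain ⟨d, hd⟩ := red_two_iff.1 (e.trans (map_one _).symm)
    obtain ⟨g, hg, C, e'⟩ := h
    refine ⟨g, hg, C - d • N, ?_⟩
    rw [e', eq_add_of_sub_eq hd]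
    module

theorem tah_comm (h : TahL T 2 N) (h' : TahL T 2 N') : TahL T 4 (N * N' - N' * N) := by
  obtain ⟨g, hg, C, e⟩ := h
  obtain ⟨g', hg', C', e'⟩ := h'
  obtain ⟨U, hU⟩ := mred_eq_iff.1 ((T.mod2 (g' * g)⁻¹).trans (mred_one 1).symm)
  have h1 : T.ρ (g * g' * (g' * g)⁻¹) =
      1 + (T.ρ g * T.ρ g' - T.ρ g' * T.ρ g) * T.ρ (g' * g)⁻¹ := by
    rw [sub_mul, ← map_mul, ← map_mul, ← map_mul, ← map_mul, mul_inv_cancel, map_one,
      add_sub_cancel]
  refine ⟨_, mul_mem (mul_mem hg hg') (inv_mem (mul_mem hg' hg)),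
    (N * C' + C * N' + 2 • (C * C') - (N' * C + C' * N + 2 • (C' * C))) * (1 + 2 • U) +
      (N * N' - N' * N) * U, ?_⟩
  rw [h1, hU, e, e']
  simp only [mul_add, add_mul, sub_mul, mul_one, one_mul, smul_mul_assoc, mul_smul_comm]
  module

theorem tah_of {w : Plc} (hw : w.p ∣ 30) {g : Gam} (hg : g ∈ Ine w) (h : chi (-1) g = 1)
    {a b d : ℤ_[2]} (ha : xi 5 g = PadicInt.toZMod a) (hb : xi 15 g = PadicInt.toZMod b)
    (hd : xi 10 g = PadicInt.toZMod d) : TahL T 2 !![a, b; a, d] := by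
  obtain ⟨a', b', c', d', e, h1, h2, h3, h4⟩ := T.mod8 g h
  obtain ⟨x, hx⟩ := red_two_iff.1 (h1.trans ha)
  obtain ⟨y, hy⟩ := red_two_iff.1 (h2.trans hb)
  obtain ⟨z, hz⟩ := red_two_iff.1 (h3.trans ha)
  obtain ⟨t, ht⟩ := red_two_iff.1 (h4.trans hd)
  refine ⟨g, le_iSup (fun w : {w : Plc // w.p ∣ 30} => Ine w.1) ⟨w, hw⟩ hg, !![x, y; z, t], ?_⟩
  rw [e, eq_add_of_sub_eq hx, eq_add_of_sub_eq hy, eq_add_of_sub_eq hz, eq_add_of_sub_eq ht]
  ext i j
  fin_cases i <;> fin_cases j <;> simp <;> ring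

theorem tah_all (T : TN) (k : ℕ) (N : M2) : TahL T (k + 4) N := by
  induction k with
  | succ k ih => exact tah_sq ih
  | zero =>
    have hE : TahL T 2 !![0, 1; 0, 0] := by
      obtain ⟨w, hw⟩ := exists_plc Nat.prime_three
      obtain ⟨τ, hτ⟩ := exists_gen (w := w) (by omega)
      refine tah_of (by rw [hw]; norm_num) hτ.1 (chi_ine (by rw [hw]; norm_num) hτ.1) ?_ ?_ ?_
      · rw [map_zero]
        exact xi_eq_zero.2 (chi_ine (by rw [hw]; norm_num) hτ.1)
      · rw [map_one, show (15 : ℤ) = w.p * 5 by rw [hw]; norm_num,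
          xi_mul (by rw [hw]; norm_num) (by norm_num), xi_eq_one.2 hτ.2,
          xi_eq_zero.2 (chi_ine (by rw [hw]; norm_num) hτ.1), add_zero]
      · rw [map_zero]
        exact xi_eq_zero.2 (chi_ine (by rw [hw]; norm_num) hτ.1)
    have hJ : TahL T 2 !![1, 1; 1, 1] := by
      obtain ⟨w, hw⟩ := exists_plc Nat.prime_five
      obtain ⟨τ, hτ⟩ := exists_gen (w := w) (by omega)
      have h5 : xi 5 τ = 1 := xi_eq_one.2 (by simpa [hw] using hτ.2)
      refine tah_of (by rw [hw]; norm_num) hτ.1 (chi_ine (by rw [hw]; norm_num) hτ.1) ?_ ?_ ?_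
      · rw [map_one, h5]
      · rw [map_one, show (15 : ℤ) = 5 * 3 by norm_num, xi_mul (by norm_num) (by norm_num), h5,
          xi_eq_zero.2 (chi_ine (by rw [hw]; norm_num) hτ.1), add_zero]
      · rw [map_one, show (10 : ℤ) = 5 * 2 by norm_num, xi_mul (by norm_num) (by norm_num), h5,
          xi_eq_zero.2 (chi_ine (by rw [hw]; norm_num) hτ.1), add_zero]
    have hY : TahL T 2 !![0, 0; 0, 1] := by
      obtain ⟨w, hw⟩ := exists_plc Nat.prime_two
      obtain ⟨σ, hσ, h1, h2⟩ := exists_ine_two hw 1 (-1)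
      have h5 : xi 5 σ = 0 := xi_eq_zero.2 (chi_ine_two hw (by norm_num) hσ)
      refine tah_of (by rw [hw]; norm_num) hσ h1 ?_ ?_ ?_
      · rw [map_zero, h5]
      · rw [map_zero, show (15 : ℤ) = -1 * -15 by norm_num, xi_mul (by norm_num) (by norm_num),
          xi_eq_zero.2 h1, xi_eq_zero.2 (chi_ine_two hw (by norm_num) hσ), add_zero]
      · rw [map_one, show (10 : ℤ) = 5 * 2 by norm_num, xi_mul (by norm_num) (by norm_num), h5,
          xi_eq_one.2 h2, zero_add]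
    have h := tah_add (tah_add (tah_smul (tah_sq (tah_sq hJ)) (N 1 0))
      (tah_smul (tah_sq (tah_sq hE)) (N 0 1 - N 1 0)))
      (tah_add (tah_smul (tah_comm hE hJ) (N 0 0 - N 1 0))
        (tah_smul (tah_sq (tah_sq hY)) (N 1 1 + N 0 0 - 2 * N 1 0)))
    convert h using 1
    ext i j
    fin_cases i <;> fin_cases j <;> simp
    ring

theorem TN.big (T : TN) (A : M2) (h : mred 5 A = 1) (k : ℕ) :
    ∃ g ∈ I30, mred k (T.ρ g) = mred k A := by
  have key : ∀ k, ∃ g ∈ I30, ∃ Z : M2, A = T.ρ g + 2 ^ (k + 4) • Z := fun k => by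
    induction k with
    | zero =>
      obtain ⟨C, hC⟩ := mred_eq_iff.1 (h.trans (mred_one 5).symm)
      refine ⟨1, one_mem _, 2 • C, ?_⟩
      rw [hC, map_one]
      module
    | succ k ih =>
      obtain ⟨g, hg, Z, e⟩ := ih
      obtain ⟨g', hg', C, e'⟩ := tah_all T k (T.ρ g⁻¹ * Z)
      refine ⟨g * g', mul_mem hg hg', -(T.ρ g * C), ?_⟩
      have h1 : T.ρ g * (T.ρ g⁻¹ * Z) = Z := by
        rw [← mul_assoc, ← map_mul, mul_inv_cancel, map_one, one_mul]
      rw [e, map_mul, e']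
      simp only [mul_add, mul_one, mul_smul_comm, h1]
      module
  obtain ⟨g, hg, Z, e⟩ := key k
  exact ⟨g, hg, (mred_eq_iff.2 ⟨2 ^ 4 • Z, by rw [e, pow_add, mul_smul]⟩).symm⟩

end Pool.Agent.Lib.MP_696deb_nt.B2
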