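import Pool.Agent.Lib.MP_696deb_nt.B2.TA0

/-! The local image of descent at two, upper bound. -/

set_option autoImplicit false

open scoped NNReal Classical
open Matrix NumberTheorySymbols

namespace Pool.Agent.Lib.MP_696deb_nt.B2

theorem tai_pair {a b a' b' : ZMod (2 ^ 1)}
    (h : a.val • T2 + b.val • T1 = a'.val • T2 + b'.val • T1) : a = a' ∧ b = b' := by
  obtain ⟨h1, h2, h3, h4, h5, h6⟩ := T_ne
  have e : T2 + T1 = T3 := (add_comm _ _).trans T1_add_T2
  have v : (1 : ZMod (2 ^ 1)).val = 1 := rfl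
  rcases b3b_two a with rfl | rfl <;> rcases b3b_two b with rfl | rfl <;>
    rcases b3b_two a' with rfl | rfl <;> rcases b3b_two b' with rfl | rfl <;>
    simp only [v, ZMod.val_zero, zero_smul, one_smul, add_zero, zero_add, e] at h <;>
    first | exact ⟨rfl, rfl⟩ | contradiction | (have := h.symm; contradiction)

theorem tai_sq {D : Subgroup Gam} {a z : Qbar} {κ : Gam → ZMod (2 ^ 1)} (h : Kum 1 D a κ)
    (hz : Fx D z) (z0 : z ≠ 0) : Kum 1 D (a * z ^ 2) κ := by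
  obtain ⟨r, r0, e, k⟩ := h
  refine ⟨r * z, mul_ne_zero r0 z0, by rw [mul_pow, e, pow_one], fun g hg => ?_⟩
  rw [map_mul, k g hg, hz g hg, mul_right_comm]

theorem tai_unr {w : Plc} {D : Subgroup Gam} {a t : Qbar} {κ : Gam → ZMod (2 ^ 1)} (hw : w.p = 2)
    (hI : Ine w ≤ D) (h : Kum 1 D a κ) (e : a = 1 + 4 * t) (ht : w.V t ≤ 1) :
    ∀ σ ∈ Ine w, κ σ = 0 := fun σ hσ => by
  obtain ⟨r, -, e', k⟩ := h
  refine (b3b_two _).resolve_right fun k1 => ?_
  have k2 := k σ (hI hσ)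
  rw [k1, b3b_neg] at k2
  have v2 : w.V 2 < 1 := by simpa [hw] using b2a_p_lt w
  have v4 : w.V (4 * t) < 1 := by
    rw [show 4 * t = 2 * t * 2 by ring]
    exact b2a_mul_lt w (b2a_mul_le w v2.le ht) v2
  have vr : w.V r = 1 := by
    have := w.V.map_one_add_of_lt v4
    rwa [← e, ← e', map_pow, pow_eq_one_iff_of_nonneg zero_le (by norm_num)] at this
  have vs : w.V ((r - 1) / 2) ≤ 1 := by
    by_contra k3
    rw [not_le] at k3
    have k4 : (r - 1) / 2 * ((r - 1) / 2 + 1) = t := by linear_combination (e' + e) / 4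
    rw [← k4, map_mul, w.V.map_add_eq_of_lt_left (by rwa [map_one])] at ht
    exact (one_lt_mul'' k3 k3).not_ge ht
  have k5 := hσ.2 _ vs
  rw [show σ ((r - 1) / 2) - (r - 1) / 2 = -r by
    rw [map_div₀, map_sub, k2, map_one, map_ofNat]; ring, w.V.map_neg, vr] at k5
  exact lt_irrefl _ k5

theorem tai_val (w : Plc) {x y : Qbar} (h : w.V x ^ 2 < w.V (y * (y + x))) :
    w.V y ^ 2 = w.V (y * (y + x)) := by
  rcases le_or_gt (w.V y) (w.V x) with k | k
  · rw [map_mul, sq] at h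
    exact absurd (mul_le_mul' k (w.V.map_add_le k le_rfl)) h.not_ge
  · rw [map_mul, w.V.map_add_eq_of_lt_left k, sq]

theorem tai_main {w : Plc} {D : Subgroup Gam} {α β : Gam → ZMod (2 ^ 1)} (hw : w.p = 2)
    (hI : Ine w ≤ D) {x y : Qbar} (hx : Fx D x) (hy : Fx D y)
    (e : y * (y + x) = x * (x ^ 2 - 2 * x - 9)) (h1 : Kum 1 D (4 * x + 9) α) (h2 : Kum 1 D x β) :
    (∀ σ ∈ Ine w, α σ = 0) ∧ ∃ u, w.V u = 1 ∧ Kum 1 D u β := by
  have x0 := h2.fx.1
  have p0 : 0 < w.V x := b3a_pos w x0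
  have v2 : w.V 2 < 1 := by simpa [hw] using b2a_p_lt w
  have v9 : w.V 9 = 1 := by simpa using (w.V_int_eq_one (a := 9)).2 (by rw [hw]; decide)
  have low : w.V x ≤ 1 → ∀ σ ∈ Ine w, α σ = 0 := fun k =>
    tai_unr hw hI h1 (t := x + 2) (by ring) (w.V.map_add_le k v2.le)
  rcases lt_trichotomy (w.V x) 1 with k | k | k
  · have a1 : w.V (y * (y + x)) = w.V x := by
      rw [e, map_mul, w.V.map_sub_eq_of_lt_right, v9, mul_one]
      rw [v9, show x ^ 2 - 2 * x = (x - 2) * x by ring]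
      exact b2a_mul_lt w (w.V.map_sub_le k.le v2.le) k
    have a2 := (tai_val w (by rw [a1, sq]; exact mul_lt_of_lt_one_left p0 k)).trans a1
    have y0 : y ≠ 0 := fun k => p0.ne (by simpa [k] using a2)
    refine ⟨low k.le, _, ?_, tai_sq h2 (z := y⁻¹) (fun g hg => by rw [map_inv₀, hy g hg])
      (inv_ne_zero y0)⟩
    rw [map_mul, map_pow, map_inv₀, inv_pow, a2, mul_inv_cancel₀ p0.ne']
  · exact ⟨low k.le, x, k, h2⟩
  · have a0 : w.V x < w.V (x ^ 2) := by rw [map_pow, sq]; exact lt_mul_of_one_lt_left p0 k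
    have a1 : w.V (y * (y + x)) = w.V x ^ 3 := by
      rw [e, map_mul, sub_sub, w.V.map_sub_eq_of_lt_left, map_pow, ← pow_succ']
      refine w.V.map_add_lt (lt_of_le_of_lt ?_ a0) (v9 ▸ k.trans a0)
      rw [map_mul]
      exact mul_le_of_le_one_left' v2.le
    have a2 := (tai_val w (by rw [a1]; exact pow_lt_pow_right₀ k (by norm_num))).trans a1
    have y0 : y ≠ 0 := fun k => (pow_pos p0 3).ne (by simpa [k] using a2)
    have x4 : x - 4 ≠ 0 := fun k4 => by
      rw [sub_eq_zero.1 k4] at k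
      exact k.not_ge (by simpa using w.V_int_le 4)
    have e2 : (2 * y + x) ^ 2 = (4 * x + 9) * (x * (x - 4)) := by linear_combination 4 * e
    have z0 : 2 * y + x ≠ 0 := fun k => mul_ne_zero h1.fx.1 (mul_ne_zero x0 x4) (by
      rw [← e2, k, zero_pow two_ne_zero])
    refine ⟨tai_unr hw hI (tai_sq h1 (z := (x - 4) / (2 * y + x))
      (fun g hg => by simp [hx g hg, hy g hg, map_ofNat]) (div_ne_zero x4 z0)) (t := -x⁻¹) ?_ ?_,
      _, ?_, tai_sq h2 (z := x / y) (fun g hg => by rw [map_div₀, hx g hg, hy g hg])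
        (div_ne_zero x0 y0)⟩
    · have := h1.fx.1
      rw [div_pow, e2]
      field_simp
      ring
    · rw [w.V.map_neg, map_inv₀]
      exact inv_le_one_of_one_le₀ k.le
    · rw [map_mul, map_pow, map_div₀, div_pow, a2]
      field_simp

theorem kum2_mp (hd : DescStmt) {w : Plc} {D : Subgroup Gam} {α β : Gam → ZMod (2 ^ 1)}
    (hw : w.p = 2) (hI : Ine w ≤ D) (h : KL D α β) :
    (Sm D α ∧ IsHom D α ∧ ∀ σ ∈ Ine w, α σ = 0) ∧ ∃ u, w.V u = 1 ∧ Kum 1 D u β := by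
  obtain ⟨S, hS⟩ := h
  have fx : ∀ g ∈ D, g • (2 • S) = 2 • S := fun g hg => by
    rw [smul_comm, ← sub_eq_zero, ← smul_sub, hS g hg, smul_add, smul_comm, two_T2,
      smul_comm 2, two_T1, smul_zero, smul_zero, add_zero]
  obtain ⟨α', β', ⟨r, r0, e, k⟩, ⟨r', r0', e', k'⟩, h3⟩ := hd 1 D S one_ne_zero fun g hg => by
    rw [tw_one, fx g hg]
  have h4 := fun g hg => tai_pair ((hS g hg).symm.trans (tw_one g S ▸ h3 g hg))
  have h1 : Kum 1 D (kA 1 (2 • S)) α := ⟨r, r0, e, fun g hg => by rw [(h4 g hg).1, k g hg]⟩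
  have h2 : Kum 1 D (kB 1 (2 • S)) β := ⟨r', r0', e', fun g hg => by rw [(h4 g hg).2, k' g hg]⟩
  suffices (∀ σ ∈ Ine w, α σ = 0) ∧ ∃ u, w.V u = 1 ∧ Kum 1 D u β from
    ⟨⟨h1.sm, b3b_hom h1, this.1⟩, this.2⟩
  generalize 2 • S = P at fx h1 h2
  obtain ⟨n1, n2, -, n3, -⟩ := T_ne
  have one : Kum 1 D 1 α → ∀ σ ∈ Ine w, α σ = 0 := fun h =>
    tai_unr hw hI h (t := 0) (by ring) (by simp)
  unfold kA at h1
  unfold kB at h2
  by_cases p0 : P = 0
  · rw [if_pos (.inl p0)] at h1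
    rw [if_pos p0] at h2
    exact ⟨one h1, 1, map_one _, h2⟩
  rw [if_neg p0] at h2
  by_cases p1 : P = T1
  · rw [if_pos (.inr p1)] at h1
    rw [p1, if_neg n3] at h2
    refine ⟨one h1, _, ?_, tai_sq h2 (z := 2 / 3) (fun g _ => by simp [map_ofNat]) (by norm_num)⟩
    rw [show ((1 : ℤ) : Qbar) * xco T1 * (2 / 3) ^ 2 = -1 by norm_num [T1], w.V.map_neg, map_one]
  rw [if_neg (not_or.2 ⟨p0, p1⟩), Int.cast_one, one_mul] at h1
  by_cases p2 : P = T2
  · rw [if_pos p2] at h2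
    exact ⟨tai_unr hw hI h1 (t := 2) (by norm_num [p2, T2]) (by simpa using w.V_int_le 2), -1,
      by simp, h2⟩
  rw [if_neg p2, Int.cast_one, one_mul] at h2
  refine tai_main hw hI (y := yco P) (fun g hg => by rw [← xco_smul, fx g hg])
    (fun g hg => by rw [← yco_smul, fx g hg]) ?_ h1 h2
  rcases P with _ | ⟨x, y, hP⟩
  · exact absurd rfl p0
  · have := (W15_nonsingular x y).1 hP
    simp only [xco_some, yco_some]
    linear_combination this

end Pool.Agent.Lib.MP_696deb_nt.B2
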