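import Pool.Agent.Lib.MP_696deb_nt.B2.TAj

/-! Sixteen local classes at two. -/

set_option autoImplicit false

open scoped NNReal Classical
open Matrix NumberTheorySymbols

namespace Pool.Agent.Lib.MP_696deb_nt.B2

theorem tak_move {w : Plc} (hw : w.p = 2) {e r : Qbar} (he : e ^ 2 = ((-3 : ℤ) : Qbar))
    (hr : r ^ 2 = e) : ∃ σ ∈ Ine w, σ r ≠ r := by
  by_contra hc
  push Not at hc
  obtain ⟨φ, hφ⟩ := exists_frob w
  have h3 : chi (-3) φ = -1 := by
    have h1 := chi_dec_two (a := -3 * 5) hw (by norm_num) hφ.1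
    rw [chi_mul (by norm_num) (by norm_num), chi_frob_two hw (hw ▸ hφ)] at h1
    simpa [neg_eq_iff_eq_neg] using h1
  have h4 : (r * φ r) ^ 2 = ((3 : ℤ) : Qbar) := by
    rw [mul_pow, ← map_pow, hr, chi_spec he φ, h3]
    push_cast at he ⊢
    linear_combination -he
  obtain ⟨σ, hσ, h5, -⟩ := exists_ine_two hw (-1) 1
  have h6 : chi 3 σ = -1 := by
    rw [show (3 : ℤ) = -1 * -3 by norm_num, chi_mul (by norm_num) (by norm_num), h5,
      chi_ine_two hw (by norm_num) hσ, mul_one]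
  have h7 : σ (φ r) = φ r := by
    have h8 := congrArg φ (hc _ (conj_mem_Ine (inv_mem hφ.1) hσ))
    simpa using h8
  have h9 := chi_spec h4 σ
  rw [map_mul, hc σ hσ, h7, h6] at h9
  have h0 : r * φ r = 0 := by
    push_cast at h9
    linear_combination (1 / 2) * h9
  rw [h0] at h4
  norm_num at h4

theorem tak_one {w : Plc} (hw : w.p = 2) {D : Subgroup Gam} (hI : Ine w ≤ D) {e : Qbar}
    (he : e ^ 2 = ((-3 : ℤ) : Qbar)) {κ : Gam → ZMod (2 ^ 1)} (h : Kum 1 D e κ) :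
    ∃ σ ∈ Ine w, κ σ = 1 := by
  obtain ⟨r, -, h1, h2⟩ := h
  obtain ⟨σ, hσ, h3⟩ := tak_move hw he h1
  refine ⟨σ, hσ, (b3b_two _).resolve_left fun k => h3 ?_⟩
  rw [h2 σ (hI hσ), k, ZMod.val_zero, pow_zero, mul_one]

theorem tak_val {T : EE} (h : 2 • T = 0) (a b : ZMod (2 ^ 1)) :
    (a + b).val • T = a.val • T + b.val • T := by
  have v1 : (1 : ZMod (2 ^ 1)).val = 1 := rfl
  rcases b3b_two a with rfl | rfl <;> rcases b3b_two b with rfl | rfl
  · simp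
  · simp
  · simp
  · rw [b3b_add, ZMod.val_zero, v1, zero_smul, one_smul, ← two_nsmul, h]

theorem tak_add {D : Subgroup Gam} {α β α' β' : Gam → ZMod (2 ^ 1)} (h : KL D α β)
    (h' : KL D α' β') : KL D (α + α') (β + β') := by
  obtain ⟨S, hS⟩ := h
  obtain ⟨S', hS'⟩ := h'
  refine ⟨S + S', fun g hg => ?_⟩
  rw [Pi.add_apply, Pi.add_apply, tak_val two_T2, tak_val two_T1, add_add_add_comm, ← hS g hg,
    ← hS' g hg, smul_add]
  abel

theorem tak_smul {D : Subgroup Gam} {α β : Gam → ZMod (2 ^ 1)} (h : KL D α β) (c : ZMod (2 ^ 1)) :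
    KL D (c • α) (c • β) := by
  rcases b3b_two c with rfl | rfl
  · exact ⟨0, fun g _ => by simp⟩
  · rwa [one_smul, one_smul]

theorem exists_sixteen (hd : DescStmt) {n : ℕ} {w : Plc} (hn : n % 8 = 3) (hw : w.p = 2) :
    ∃ α β : Fin 16 → Gam → ZMod (2 ^ 1), (∀ i, KL (GK n ⊓ Dec w) (α i) (β i)) ∧
      ∀ i j, (∀ g ∈ GK n ⊓ Dec w, α i g = α j g ∧ β i g = β j g) → i = j := by
  have hD : GK n ⊓ Dec w ≤ Dec w := inf_le_right
  have hI : Ine w ≤ GK n ⊓ Dec w := fun σ hσ =>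
    ⟨B4c_mem.2 (chi_ine_two hw (by omega) hσ), Ine_le w hσ⟩
  have hn0 : (-n : ℤ) ≠ 0 := by omega
  have hF : Fx (GK n ⊓ Dec w) (rt (-3)) := fun g hg => by
    have h1 := chi_dec_two (a := -3 * -n) hw (by omega) hg.2
    rw [chi_mul (by norm_num) hn0, B4c_mem.1 hg.1, mul_one] at h1
    exact chi_eq_one.1 h1
  obtain ⟨y, hy⟩ := exists_kum 1 (b1b_rt_ne (by norm_num)) hF
  obtain ⟨x, hx, σ₁, s1, t1⟩ : ∃ x : Gam → ZMod (2 ^ 1),
      Kum 1 (GK n ⊓ Dec w) ((-1 : ℤ) : Qbar) x ∧ ∃ σ ∈ Ine w, x σ = 1 := by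
    obtain ⟨σ, hσ, h5, -⟩ := exists_ine_two hw (-1) 1
    exact ⟨_, kum_xi (by norm_num), σ, hσ, xi_eq_one.2 h5⟩
  obtain ⟨σ₂, s2, t2⟩ := tak_one hw hI (rt_sq (-3)) hy
  obtain ⟨σ₃, s3, t3⟩ := tak_one hw hI (by rw [mul_pow, rt_sq]; norm_num) (hx.mul hy)
  obtain ⟨z, u, k1, hu, hz, z0, z1⟩ := exists_unr hd hn hw
  obtain ⟨φ, hφ⟩ := exists_frob w
  obtain ⟨f1, f2⟩ := z1 φ (hw ▸ hφ)
  have k2 := kl_unit hd hw hD (by simp) hx
  have k3 := kl_unit hd hw hD (b2c_rt (by rw [hw]; norm_num)) hy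
  have k4 := kl_unit hd hw hD hu hz
  let E : Fin 16 ≃ ZMod (2 ^ 1) × ZMod (2 ^ 1) × ZMod (2 ^ 1) × ZMod (2 ^ 1) :=
    (Fintype.equivFinOfCardEq (by simp)).symm
  refine ⟨fun i => (E i).1 • z, fun i => (E i).2.1 • x + (E i).2.2.1 • y + (E i).2.2.2 • z,
    fun i => ?_, fun i j h => E.injective ?_⟩
  · have k := tak_add (tak_smul k1 (E i).1) (tak_add (tak_add (tak_smul k2 (E i).2.1)
      (tak_smul k3 (E i).2.2.1)) (tak_smul k4 (E i).2.2.2))
    simpa only [smul_zero, add_zero, zero_add] using k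
  · dsimp only at h
    generalize E i = p at h
    generalize E j = q at h
    obtain ⟨a, b, c, d⟩ := p
    obtain ⟨a', b', c', d'⟩ := q
    have h0 := h _ f1
    have h1 := (h _ (hI s1)).2
    have h2 := (h _ (hI s2)).2
    have h3 := (h _ (hI s3)).2
    rw [Pi.add_apply] at t3
    simp only [Pi.add_apply, Pi.smul_apply, smul_eq_mul, f2, z0 _ s1, z0 _ s2, z0 _ s3, t1, t2,
      mul_one, mul_zero, add_zero] at h0 h1 h2 h3
    have key : b - b' = 0 ∧ c - c' = 0 := by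
      rcases b3b_two (b - b') with p | p <;> rcases b3b_two (c - c') with q | q
      · exact ⟨p, q⟩
      · exact absurd (by linear_combination h2 - q - x σ₂ * p) b3b_one
      · exact absurd (by linear_combination h1 - p - y σ₁ * q) b3b_one
      · exact absurd (by linear_combination h3 - t3 - x σ₃ * p - y σ₃ * q) b3b_one
    obtain rfl := sub_eq_zero.1 key.1
    obtain rfl := sub_eq_zero.1 key.2
    rw [h0.1, add_left_cancel h0.2]

end Pool.Agent.Lib.MP_696deb_nt.B2
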