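import Pool.Agent.Lib.MP_696deb_nt.B2.TA0

/-! The number of Kummer cocycles of higher level. -/

set_option autoImplicit false

open scoped NNReal Classical
open Matrix NumberTheorySymbols

namespace Pool.Agent.Lib.MP_696deb_nt.B2

theorem tal_inj {a b a' b' : ZMod (2 ^ 1)}
    (h : a.val • T2 + b.val • T1 = a'.val • T2 + b'.val • T1) : a = a' ∧ b = b' := by
  have k : ∀ c : ZMod (2 ^ 1), c = 0 ∨ c = 1 := by decide
  have v0 : (0 : ZMod (2 ^ 1)).val = 0 := rfl
  have v1 : (1 : ZMod (2 ^ 1)).val = 1 := rfl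
  have e := (add_comm T2 T1).trans T1_add_T2
  obtain ⟨n1, n2, n3, n4, n5, n6⟩ := T_ne
  rcases k a with rfl | rfl <;> rcases k b with rfl | rfl <;> rcases k a' with rfl | rfl <;>
    rcases k b' with rfl | rfl <;>
    simp only [v0, v1, zero_smul, one_smul, add_zero, zero_add, e] at h <;>
    first
      | exact ⟨rfl, rfl⟩
      | exact absurd h (by assumption)
      | exact absurd h.symm (by assumption)

theorem tal_div (m : ℕ) (P : EE) : ∃ Q : EE, 2 ^ m • Q = P := by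
  induction m with
  | zero => exact ⟨P, one_smul _ _⟩
  | succ m ih =>
    obtain ⟨Q, hQ⟩ := ih
    obtain ⟨R, hR⟩ := exists_half Q
    exact ⟨R, by rw [pow_succ, mul_smul, hR, hQ]⟩

theorem tal_cnt {D : Subgroup Gam} {α β : Fin 16 → Gam → ZMod (2 ^ 1)}
    (h1 : ∀ i, KL D (α i) (β i)) (h2 : ∀ i j, (∀ g ∈ D, α i g = α j g ∧ β i g = β j g) → i = j)
    (m : ℕ) : ∃ s : Finset (Gam → EE), s.card = 16 ^ m ∧ ∀ ξ ∈ s, (∀ g ∉ D, ξ g = 0) ∧
      (∀ g, 2 ^ m • ξ g = 0) ∧ ∃ S : EE, ∀ g ∈ D, ξ g = g • S - S := by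
  induction m with
  | zero =>
    refine ⟨{0}, rfl, fun ξ hξ => ?_⟩
    rw [Finset.mem_singleton.1 hξ]
    exact ⟨fun _ _ => rfl, fun _ => smul_zero _, 0, fun g _ => by simp⟩
  | succ m ih =>
    obtain ⟨s, hs, hz⟩ := ih
    choose S hS using h1
    choose R hR using fun i => tal_div m (S i)
    let η : Fin 16 → Gam → EE := fun i g => if g ∈ D then g • R i - R i else 0
    have e1 : ∀ i, ∀ g ∈ D, η i g = g • R i - R i := fun i g hg => if_pos hg
    have e0 : ∀ i, ∀ g ∉ D, η i g = 0 := fun i g hg => if_neg hg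
    have e2 : ∀ i, ∀ g ∈ D, 2 ^ m • η i g = (α i g).val • T2 + (β i g).val • T1 :=
      fun i g hg => by rw [e1 i g hg, smul_sub, smul_comm, hR, hS i g hg]
    refine ⟨(Finset.univ ×ˢ s).image fun t => η t.1 + t.2, ?_, fun ξ hξ => ?_⟩
    · rw [Finset.card_image_of_injOn, Finset.card_product, hs, Finset.card_univ, Fintype.card_fin,
        pow_succ']
      rintro ⟨i, ξ⟩ hξ ⟨j, ξ'⟩ hξ' e
      have k : η i + ξ = η j + ξ' := e
      have a1 := (hz ξ (Finset.mem_product.1 hξ).2).2.1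
      have a2 := (hz ξ' (Finset.mem_product.1 hξ').2).2.1
      obtain rfl : i = j := h2 i j fun g hg => tal_inj (by
        have k2 := congrArg (fun f : Gam → EE => 2 ^ m • f g) k
        simp only [Pi.add_apply, smul_add, a1, a2, add_zero] at k2
        rw [← e2 i g hg, ← e2 j g hg, k2])
      rw [add_left_cancel k]
    · obtain ⟨⟨i, ξ'⟩, h', rfl⟩ := Finset.mem_image.1 hξ
      obtain ⟨a0, a1, Q, a2⟩ := hz ξ' (Finset.mem_product.1 h').2
      dsimp only
      refine ⟨fun g hg => ?_, fun g => ?_, R i + Q, fun g hg => ?_⟩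
      · rw [Pi.add_apply, e0 i g hg, a0 g hg, add_zero]
      · rw [Pi.add_apply, pow_succ', mul_smul, smul_add, a1, add_zero]
        by_cases hg : g ∈ D
        · rw [e2 i g hg, smul_add, smul_comm, two_T2, smul_comm 2, two_T1, smul_zero, smul_zero,
            add_zero]
        · rw [e0 i g hg, smul_zero, smul_zero]
      · rw [Pi.add_apply, e1 i g hg, a2 g hg, smul_add]
        abel

theorem Emb.kumc (E : Emb) {D : Subgroup Gam} {α β : Fin 16 → Gam → ZMod (2 ^ 1)}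
    (h1 : ∀ i, KL D (α i) (β i)) (h2 : ∀ i j, (∀ g ∈ D, α i g = α j g ∧ β i g = β j g) → i = j)
    (m : ℕ) : (16 ^ m : ℕ∞) ≤
    Set.encard {c : Gam → Fin 2 → ZMod (2 ^ m) | (∀ g ∉ D, c g = 0) ∧
      ∃ S : EE, ∀ g ∈ D, E.emb m (c g) = g • S - S} := by
  obtain ⟨s, hs, hz⟩ := tal_cnt h1 h2 m
  choose! f hf using E.surj m
  have e : (16 ^ m : ℕ∞) = (s : Set (Gam → EE)).encard := by
    rw [Set.encard_coe_eq_coe_finsetCard, hs]
    norm_cast
  rw [e]
  refine Set.encard_le_encard_of_injOn (f := fun ξ g => f (ξ g)) (fun ξ hξ => ?_)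
    fun ξ hξ ξ' hξ' k => funext fun g => ?_
  · obtain ⟨a0, a1, Q, a2⟩ := hz ξ hξ
    refine ⟨fun g hg => E.inj m ?_, Q, fun g hg => ?_⟩
    · rw [hf _ (a1 g), a0 g hg, map_zero]
    · rw [hf _ (a1 g), a2 g hg]
  · rw [← hf _ ((hz ξ hξ).2.1 g), ← hf _ ((hz ξ' hξ').2.1 g)]
    exact congrArg _ (congrFun k g)

end Pool.Agent.Lib.MP_696deb_nt.B2
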