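import Pool.Agent.Lib.MP_696deb_nt.B2.TAc
import Pool.Agent.Lib.MP_696deb_nt.B2.TAd
import Pool.Agent.Lib.MP_696deb_nt.B2.TAe
import Pool.Agent.Lib.MP_696deb_nt.B2.TAf
import Pool.Agent.Lib.MP_696deb_nt.B2.TAg
import Pool.Agent.Lib.MP_696deb_nt.B2.TAh
import Pool.Agent.Lib.MP_696deb_nt.B2.TAi
import Pool.Agent.Lib.MP_696deb_nt.B2.TAk
import Pool.Agent.Lib.MP_696deb_nt.B2.TAl

set_option autoImplicit false

open scoped Classical
open NumberTheorySymbols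

namespace Pool.Agent.Lib.MP_696deb_nt.B2

theorem m_tate (hk : KronStmt) (hd : DescStmt) : Nonempty Tate := by
  obtain ⟨T₀, hc⟩ := exists_conj
  obtain ⟨h0, h1⟩ := T₀.e01 hd hc
  let T : TN := ⟨T₀, h0, h1, hc, T₀.mod8 hd h0 h1⟩
  refine ⟨⟨T.ρ, T.emb, T.inj, T.surj, T.two, T.smul, T.sm, T.det, h0, h1, hc, T.mod2, T.mod4,
    T.iso, fun n w α β hn hw => ⟨fun h => kum2_mp hd hw (fun σ hσ => ⟨?_, hσ.1⟩) h,
      fun ⟨⟨a, b, c⟩, u, hu, h⟩ => kum2_mpr hd hn hw a b c hu h⟩, fun n m w hn hw => ?_,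
    T.unr, es_of_kron hk T.toEmb, T.tr hk, a15_hasse, T.eight hk, T.sixteen hk, T.mult, T.big⟩⟩
  · exact chi_ine_two hw (by omega) hσ
  · obtain ⟨α, β, a, b⟩ := exists_sixteen hd hn hw
    exact T.kumc a b m

end Pool.Agent.Lib.MP_696deb_nt.B2
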