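import Pool.Agent.Lib.MP_696deb_nt.B2.XLb

/-! The places above three and five. -/

set_option autoImplicit false

open scoped NNReal Classical
open Finset Matrix NumberTheorySymbols PowerSeries

namespace Pool.Agent.Lib.MP_696deb_nt.B2

variable {T : Tate} {n k : ℕ} {lam w : Plc} {ψ : Gam → Lam} {Q : Finset Plc} {ty : Plc → Ty}
  {R : Finset (Fin 5)} {B B' : Type} [AddCommGroup B] [Module Lam B] [AddCommGroup B']
  [Module Lam B'] {c : Gam → Fin 2 → B} {g : Gam}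

theorem xld_unit {p : ℕ} (hp : Odd p) : IsUnit (p : Lam) := by
  have : IsUnit (p : ℤ_[2]) := PadicInt.isUnit_iff.2
    (PadicInt.norm_natCast_eq_one_iff.2 (Nat.coprime_two_left.2 hp))
  simpa using this.map (C : ℤ_[2] →+* Lam)

theorem xld_unit' {x : ℤ_[2]} (h : PadicInt.toZModPow 1 x = 1) : IsUnit x := by
  have : 1 - x ∈ RingHom.ker (PadicInt.toZModPow 1) := by
    rw [RingHom.mem_ker, map_sub, h, map_one, sub_self]
  rw [PadicInt.ker_toZModPow, pow_one, ← PadicInt.maximalIdeal_eq_span_p] at this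
  simpa using IsLocalRing.isUnit_one_sub_self_of_mem_nonunits _ this

theorem mB_spec (T : Tate) (v : Fin 2) : (mB T v).det = 1 ∧
    mred 1 (mB T v) *ᵥ ![1, 0] = ![![1, 0], ![1, 1]] v ∧
    (∀ σ ∈ Ine (bp v), ∃ c, T.ρ σ * mB T v = mB T v * !![1, 4 * c; 0, 1] ∧
      (Gen (bp v) σ → IsUnit c)) ∧ ∀ φ, IsFrob (bp v) (bp v).p φ → ∃ b, T.ρ φ * mB T v =
      mB T v * !![![3, 5] v * ![-1, 1] v, b; 0, ![-1, 1] v] := by
  obtain ⟨h1, h2, h3, h4⟩ := (T.mult (bp v) (bp_or v)).choose_spec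
  refine ⟨h1, h2.trans ?_, h3, fun φ hφ => (h4 φ hφ).imp fun b e => e.trans ?_⟩
  · rw [bp_p]
    fin_cases v <;> simp
  · refine congrArg (mB T v * ·) ?_
    rw [bp_p]
    fin_cases v <;> simp

theorem xld_basis (T : Tate) (v : Fin 2) (b : Bool) :
    ∃ (P P' : Matrix (Fin 2) (Fin 2) ℤ_[2]) (c : ℤ_[2]ˣ) (β : ℤ_[2]), P * P' = 1 ∧ P' * P = 1 ∧
      P' * T.ρ (nsg v b) = !![1, 4 * (c : ℤ_[2]); 0, 1] * P' ∧
      P' * T.ρ (ori b (fr (bp v))) = !![![3, 5] v * ![-1, 1] v, β; 0, ![-1, 1] v] * P' ∧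
      ∀ i, nlf T v b i = C (P' 1 i) := by
  obtain ⟨h1, -, h3, h4⟩ := mB_spec T v
  have hg := gn_spec (w := bp v) (by rcases bp_or v with h | h <;> omega)
  obtain ⟨c, e1, hc⟩ := h3 _ hg.1
  obtain ⟨c, rfl⟩ := hc hg
  obtain ⟨β, e2⟩ := h4 _ (fr_spec _)
  have a1 : mB T v * (mB T v).adjugate = 1 := by rw [mul_adjugate, h1, one_smul]
  have a2 : (mB T v).adjugate * mB T v = 1 := by rw [adjugate_mul, h1, one_smul]
  have key : ∀ {A U : Matrix (Fin 2) (Fin 2) ℤ_[2]}, A * mB T v = mB T v * U →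
      (mB T v).adjugate * A = U * (mB T v).adjugate := fun {A U} e => by
    rw [← mul_one (_ * A), ← a1, ← mul_assoc, mul_assoc _ A, e, ← mul_assoc, a2, one_mul]
  have t : T.ρ cc * T.ρ cc = 1 := by rw [← map_mul, cc_mul_cc, map_one]
  cases b
  · have key' : ∀ {g : Gam} {U : Matrix (Fin 2) (Fin 2) ℤ_[2]}, T.ρ g * mB T v = mB T v * U →
        (mB T v).adjugate * T.ρ cc * T.ρ (cc * g * cc) = U * ((mB T v).adjugate * T.ρ cc) :=
      fun e => by
        rw [map_mul, map_mul, ← mul_assoc, ← mul_assoc, mul_assoc _ (T.ρ cc) (T.ρ cc), t, mul_one,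
          key e, mul_assoc]
    refine ⟨T.ρ cc * mB T v, (mB T v).adjugate * T.ρ cc, c, β, ?_, ?_, key' e1, key' e2,
      fun i => ?_⟩
    · rw [mul_assoc, ← mul_assoc (mB T v), a1, one_mul, t]
    · rw [mul_assoc, ← mul_assoc (T.ρ cc), t, one_mul, a2]
    · fin_cases i <;> simp [nlf, T.conj, adjugate_fin_two, mul_apply]
  · refine ⟨_, _, c, β, a1, a2, key e1, key e2, fun i => ?_⟩
    fin_cases i <;> simp [nlf, adjugate_fin_two]

/-- Coordinates that are adapted to a place above three or five. -/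
theorem SOk0.coord (h : SOk0 T n k lam ψ Q) (hB : Kil k B) (v : Fin 2) (b : Bool) :
    ∃ (μ ν : (Fin 2 → B) →ₗ[Lam] B) (u u' β α : Lam), u' * u = 1 ∧
      α = (![-1, 1] : Fin 2 → Lam) v * ψ (ori b (fr (bp v))) ∧
      (∀ x, μ x = 0 → ν x = 0 → x = 0) ∧ (∀ s t, ∃ x, μ x = s ∧ ν x = t) ∧
      (∀ x, μ (act T ψ B (nsg v b) x) = μ x + (4 * u) • ν x) ∧
      (∀ x, ν (act T ψ B (nsg v b) x) = ν x) ∧
      (∀ x, μ (act T ψ B (ori b (fr (bp v))) x) = ((bp v).p * α) • μ x + β • ν x) ∧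
      (∀ x, ν (act T ψ B (ori b (fr (bp v))) x) = α • ν x) ∧
      ∀ z : Gam → Fin 2 → B, nu T v b z = ν (z (nsg v b)) := by
  obtain ⟨P, P', c, β, p1, p2, p3, p4, p5⟩ := xld_basis T v b
  have t := h.nok.tm_bq v b
  have hψ : ψ (nsg v b) - 1 ∈ aa k k := h.chr.unr _ (by
    have := h.adm.ne
    rcases bq_or v b with e | e <;> omega) _ ⟨t.τ_mem.1, t.gen.1⟩
  have mm : ∀ (A A' : Matrix (Fin 2) (Fin 2) ℤ_[2]) (x : Fin 2 → B),
      mact B (A.map C) (mact B (A'.map C) x) = mact B ((A * A').map C) x := fun A A' x => by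
    rw [Matrix.map_mul, mact_mul]
  have m1 : ∀ x : Fin 2 → B, mact B ((1 : Matrix (Fin 2) (Fin 2) ℤ_[2]).map C) x = x := fun x => by
    rw [Matrix.map_one _ (map_zero _) (map_one _), mact_one]
  have k1 : ∀ x, mact B (P'.map C) (act T ψ B (nsg v b) x) =
      mact B ((!![1, 4 * (c : ℤ_[2]); 0, 1]).map C) (mact B (P'.map C) x) := fun x => by
    rw [act_eq, hB.pi.congr hψ, one_smul, mm, mm, p3]
  have k2 : ∀ x, mact B (P'.map C) (act T ψ B (ori b (fr (bp v))) x) = ψ (ori b (fr (bp v))) •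
      mact B ((!![![3, 5] v * ![-1, 1] v, β; 0, ![-1, 1] v]).map C) (mact B (P'.map C) x) :=
    fun x => by rw [act_eq, map_smul, mm, mm, p4]
  refine ⟨.proj 0 ∘ₗ mact B (P'.map C), .proj 1 ∘ₗ mact B (P'.map C), C (c : ℤ_[2]),
    C ((c⁻¹ : ℤ_[2]ˣ) : ℤ_[2]), ψ (ori b (fr (bp v))) * C β, _, by rw [← map_mul]; simp, rfl,
    fun x e0 e1 => ?_, fun s t => ⟨mact B (P.map C) ![s, t], ?_, ?_⟩, fun x => ?_, fun x => ?_,
    fun x => ?_, fun x => ?_, fun z => ?_⟩
  · have : mact B (P'.map C) x = 0 := funext (Fin.forall_fin_two.2 ⟨e0, e1⟩)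
    rw [← m1 x, ← p1, ← mm, this, map_zero]
  · exact congrFun ((mm P' P _).trans (p2 ▸ m1 _)) 0
  · exact congrFun ((mm P' P _).trans (p2 ▸ m1 _)) 1
  · refine (congrFun (k1 x) 0).trans ((mact_apply _ _ 0).trans ?_)
    simp [map_ofNat]
  · refine (congrFun (k1 x) 1).trans ((mact_apply _ _ 1).trans ?_)
    simp
  · refine (congrFun (k2 x) 0).trans ?_
    rw [Pi.smul_apply, mact_apply, smul_add, smul_smul, smul_smul, bp_p]
    congr 2
    fin_cases v <;> simp [map_ofNat] <;> ring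
  · refine (congrFun (k2 x) 1).trans ?_
    rw [Pi.smul_apply, mact_apply, smul_add, smul_smul, smul_smul]
    fin_cases v <;> simp
  · simp [nu, p5, mact_apply]

theorem Coc.lam_smul {D : Subgroup Gam} (hc : Coc D (act T ψ B) c) (a : Lam) :
    Coc D (act T ψ B) (a • c) :=
  ⟨hc.1.comp (a • ·), fun g hg l hl => by
    simp only [Pi.smul_apply, hc.2 g hg l hl, act_smul, smul_add]⟩

theorem SOk0.nu_Q (h : SOk0 T n k lam ψ Q) (hB : Kil k B) (v : Fin 2) (b : Bool)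
    (hc : Coc (GK n ⊓ Dec (bq v b)) (act T ψ B) c) : QQ ψ v b • nu T v b c = 0 := by
  obtain ⟨μ, ν, u, u', β, α, -, hα, -, -, -, n1, -, n2, n3⟩ := h.coord hB v b
  have t := h.nok.tm_bq v b
  have ha := (h.chr.act T hB).lo_mono (inf_le_left (b := Dec (bq v b)))
  have e : ∀ (j : ℕ) x, ν (act T ψ B (nsg v b ^ j) x) = ν x := fun j => by
    induction j with
    | zero => intro x; rw [pow_zero, ha.one]
    | succ j ih => intro x; rw [pow_succ, ha.mul _ (pow_mem t.τ_mem j) _ t.τ_mem, ih, n1]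
  have := congrArg ν (t.rel hB.two' ha hc t.gen.1)
  rw [map_add, map_add, n2, e, hc.lo_pow ha t.τ_mem, map_sum, add_comm, add_left_inj] at this
  simp only [e, sum_const, card_range] at this
  rw [n3, QQ, ← hα, sub_smul, this, ← Nat.cast_smul_eq_nsmul Lam, bp_p, sub_eq_zero]
  fin_cases v <;> simp

theorem SOk0.nu_cob (h : SOk0 T n k lam ψ Q) (hB : Kil k B) (v : Fin 2) (b : Bool)
    (hc : Coc (GK n ⊓ Dec (bq v b)) (act T ψ B) c) (h0 : nu T v b c = 0) :
    ∃ x, ∀ g ∈ GK n ⊓ Dec (bq v b), (4 * QQ ψ v (!b)) • c g = cob (act T ψ B) x g := by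
  obtain ⟨μ, ν, u, u', β, α, hu, hα, inj, sur, m1, n1, m2, n2, n3⟩ := h.coord hB v b
  have t := h.nok.tm_bq v b
  have ha := (h.chr.act T hB).lo_mono (inf_le_left (b := Dec (bq v b)))
  have ext : ∀ x y, μ x = μ y → ν x = ν y → x = y := fun x y e e' =>
    sub_eq_zero.1 (inj _ (by rw [map_sub, e, sub_self]) (by rw [map_sub, e', sub_self]))
  rw [n3] at h0
  have e : ∀ (j : ℕ) x, μ (act T ψ B (nsg v b ^ j) x) = μ x + (j * (4 * u)) • ν x := fun j => by
    induction j with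
    | zero => intro x; simp [ha.one]
    | succ j ih =>
      intro x
      rw [pow_succ, ha.mul _ (pow_mem t.τ_mem j) _ t.τ_mem, ih, n1, m1]
      push_cast
      module
  have r := congrArg μ (t.rel hB.two' ha hc t.gen.1)
  rw [map_add, map_add, m2, e, h0, hc.lo_pow_fix ha t.τ_mem
    (ext _ _ (by rw [m1, h0, smul_zero, add_zero]) (n1 _)), map_nsmul,
    ← Nat.cast_smul_eq_nsmul Lam] at r
  have r' : (α - 1) • μ (c (nsg v b)) = (4 * u) • ν (c (ori b (fr (bp v)))) := by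
    refine (xld_unit t.odd_q).smul_left_cancel.1 ?_
    linear_combination (norm := module) r
  set p : Lam := Nat.cast (bp v).p with hp
  set α' := (![-1, 1] : Fin 2 → Lam) v * ψ (cc * ori b (fr (bp v)) * cc) with hα'
  have q1 : α * α' - 1 ∈ aa k k := by
    convert h.chr.mul_cj h.nok.pos t.mem using 1
    rw [hα, hα']
    fin_cases v <;> simp
  have q2 : 4 * QQ ψ v (!b) - -(α' * u') * (4 * u * (p * α - 1)) ∈ aa k k := by
    have : QQ ψ v (!b) = α' - p := by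
      rw [QQ, ori_not, hp, bp_p]
      fin_cases v <;> simp [hα']
    convert Ideal.mul_mem_left _ (4 * p) q1 using 1
    rw [this]
    linear_combination (4 * α' * (p * α - 1)) * hu
  obtain ⟨x, x1, x2⟩ := sur ((4 * u) • μ (c (ori b (fr (bp v)))) - β • μ (c (nsg v b)))
    ((p * α - 1) • μ (c (nsg v b)))
  refine ⟨-(α' * u') • x, fun g hg => ?_⟩
  rw [hB.pi.congr q2, mul_smul, cob_smul]
  congr 1
  refine t.eq_cob hB.two' ha (hc.lam_smul _) (ext _ _ ?_ ?_) (ext _ _ ?_ ?_) hg <;>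
    simp only [Pi.smul_apply, map_smul, map_sub, m1, n1, m2, n2, x1, x2, h0]
  · module
  · module
  · module
  · linear_combination (norm := module) -(p * α - 1) • r'

theorem SOk0.nu_of_cob (h : SOk0 T n k lam ψ Q) (hB : Kil k B) (v : Fin 2) (b : Bool)
    {x : Fin 2 → B} (hc : c (nsg v b) = cob (act T ψ B) x (nsg v b)) : nu T v b c = 0 := by
  obtain ⟨μ, ν, u, u', β, α, -, -, -, -, -, n1, -, -, n3⟩ := h.coord hB v b
  rw [n3, hc, cob, map_sub, n1, sub_self]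

/-- The singular part is killed by the Euler factor. -/
theorem SOk.nu_Q (h : SOk T n k lam ψ Q) (hB : Kil k B) (v : Fin 2) (b : Bool)
    (hc : Coc (GK n ⊓ Dec (bq v b)) (act T ψ B) c) : QQ ψ v b • nu T v b c = 0 :=
  h.sok0.nu_Q hB v b hc

/-- If the singular part vanishes, a multiple is a coboundary. -/
theorem SOk.nu_cob (h : SOk T n k lam ψ Q) (hB : Kil k B) (v : Fin 2) (b : Bool)
    (hc : Coc (GK n ⊓ Dec (bq v b)) (act T ψ B) c) (h0 : nu T v b c = 0) :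
    ∃ x, ∀ g ∈ GK n ⊓ Dec (bq v b), (4 * QQ ψ v (!b)) • c g = cob (act T ψ B) x g :=
  h.sok0.nu_cob hB v b hc h0

theorem SOk.nu_of_cob (h : SOk T n k lam ψ Q) (hB : Kil k B) (v : Fin 2) (b : Bool)
    {x : Fin 2 → B} (hc : c (nsg v b) = cob (act T ψ B) x (nsg v b)) : nu T v b c = 0 :=
  h.sok0.nu_of_cob hB v b hc

theorem SOk.Q_cop (h : SOk T n k lam ψ Q) (v : Fin 2) :
    (2 : Lam) ^ 8 ∈ Ideal.span {QQ ψ v true, QQ ψ v false} ⊔ aa k k := by
  have h1 := Ideal.mem_sup_right (S := Ideal.span {QQ ψ v true, QQ ψ v false})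
    (h.chr.conj h.nok.pos (h.nok.tm_bq v true).mem)
  have h2 : QQ ψ v true ∈ Ideal.span {QQ ψ v true, QQ ψ v false} ⊔ aa k k :=
    Ideal.mem_sup_left (Ideal.subset_span (by simp))
  have h3 : QQ ψ v false ∈ Ideal.span {QQ ψ v true, QQ ψ v false} ⊔ aa k k :=
    Ideal.mem_sup_left (Ideal.subset_span (by simp))
  have h4 := sub_mem (sub_mem h1 (Ideal.mul_mem_left _ (QQ ψ v false + ![3, 5] v) h2))
    (Ideal.mul_mem_left _ (![3, 5] v) h3)
  obtain ⟨u, hu⟩ := (xld_unit (p := 3) (by decide)).exists_left_inv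
  convert Ideal.mul_mem_left _ (32 * ![1, u] v) h4 using 1
  fin_cases v <;> simp [QQ, ori]
  · ring
  · linear_combination (-256) * hu

theorem xld_N (T : Tate) (v : Fin 2) : ∃ c : ℤ_[2]ˣ, T.ρ (gn (bp v)) - 1 = (4 * (c : ℤ_[2])) •
    !![-(mB T v 0 0 * mB T v 1 0), mB T v 0 0 * mB T v 0 0;
      -(mB T v 1 0 * mB T v 1 0), mB T v 0 0 * mB T v 1 0] := by
  obtain ⟨h1, -, h3, -⟩ := mB_spec T v
  have hg := gn_spec (w := bp v) (by rcases bp_or v with h | h <;> omega)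
  obtain ⟨c, e1, hc⟩ := h3 _ hg.1
  obtain ⟨c, rfl⟩ := hc hg
  have a1 : mB T v * (mB T v).adjugate = 1 := by rw [mul_adjugate, h1, one_smul]
  refine ⟨c, ?_⟩
  rw [← mul_one (T.ρ _), ← a1, ← mul_assoc, e1]
  ext i j
  fin_cases i <;> fin_cases j <;> simp [adjugate_fin_two, mul_apply, Fin.sum_univ_two] <;> ring

theorem xld_units (T : Tate) : (∀ v, IsUnit (mB T v 0 0)) ∧
    IsUnit (mB T 0 0 0 * mB T 1 1 0 - mB T 0 1 0 * mB T 1 0 0) := by
  have h : ∀ v i, PadicInt.toZModPow 1 (mB T v i 0) = ![![1, 0], ![1, 1]] v i := fun v i => by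
    simpa [mred, mulVec, dotProduct] using congrFun (mB_spec T v).2.1 i
  refine ⟨fun v => xld_unit' ((h v 0).trans (by fin_cases v <;> rfl)), xld_unit' ?_⟩
  simp [h]

/-- The unipotent elements above three and five. -/
theorem un_sq (T : Tate) (v : Fin 2) :
    (T.ρ (gn (bp v)) - 1) * (T.ρ (gn (bp v)) - 1) = 0 := by
  obtain ⟨c, hc⟩ := xld_N T v
  rw [hc]
  ext i j
  fin_cases i <;> fin_cases j <;> simp [mul_apply, Fin.sum_univ_two] <;> ring

theorem un_tr (T : Tate) : ∃ u : ℤ_[2]ˣ,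
    ((T.ρ (gn (bp 0)) - 1) * (T.ρ (gn (bp 1)) - 1)).trace = 16 * u := by
  obtain ⟨c, hc⟩ := xld_N T 0
  obtain ⟨c', hc'⟩ := xld_N T 1
  obtain ⟨u, hu⟩ := (xld_units T).2
  refine ⟨-(c * c' * u ^ 2), ?_⟩
  rw [hc, hc']
  simp [trace_fin_two, hu]
  ring

theorem xld_ine_le (hw : w.p ∣ 30) : Ine w ≤ I30 :=
  le_iSup (fun w : {w : Plc // w.p ∣ 30} => Ine w.1) ⟨w, hw⟩

/-- Torsion points that are fixed by the generators of inertia above three and five. -/
theorem Tate.fix_gn (T : Tate) {P : EE} {m : ℕ} (hP : 2 ^ m • P = 0)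
    (h : ∀ v, gn (bp v) • P = P) : 4 • P = 0 := by
  obtain ⟨x, rfl⟩ := T.surj m P hP
  obtain ⟨u1, u2⟩ := xld_units T
  set f : ℤ_[2] →+* ZMod (2 ^ m) := PadicInt.toZModPow m with hf
  have key : ∀ v, 4 * (f (mB T v 0 0) * x 1 - f (mB T v 1 0) * x 0) = 0 := fun v => by
    obtain ⟨c, hc⟩ := xld_N T v
    have e := congrFun (T.inj m ((T.smul m _ x).symm.trans (h v))) 0
    rw [eq_add_of_sub_eq hc] at e
    simp [mred, mulVec, dotProduct, map_ofNat, ← hf] at e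
    refine ((c.isUnit.mul (u1 v)).map f).mul_left_cancel ?_
    rw [map_mul]
    linear_combination e
  rw [← map_nsmul, ← (T.emb m).map_zero]
  congr 1
  refine funext (Fin.forall_fin_two.2 ⟨?_, ?_⟩) <;> refine (u2.map f).mul_left_cancel ?_ <;>
    simp only [map_sub, map_mul, Pi.smul_apply, Pi.zero_apply] <;>
    simp only [nsmul_eq_mul, Nat.cast_ofNat]
  · linear_combination f (mB T 1 0 0) * key 0 - f (mB T 0 0 0) * key 1
  · linear_combination f (mB T 1 1 0) * key 0 - f (mB T 0 1 0) * key 1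

theorem Tate.fix_four (T : Tate) {P : EE} (hP : 4 • P = 0) (hg : chi (-1) g = 1) : g • P = P := by
  obtain ⟨x, rfl⟩ := T.surj 2 P hP
  rw [T.smul, T.mod4 g hg, one_mulVec]

/-- Torsion points that are fixed by the inertia groups above two, three and five. -/
theorem Tate.fix_I30 (T : Tate) {P : EE} {m : ℕ} (hP : 2 ^ m • P = 0) (h : ∀ g ∈ I30, g • P = P) :
    4 • P = 0 ∧ ∀ g : Gam, g • P = P := by
  have h4 := T.fix_gn hP fun v => h _ (xld_ine_le (by rcases bp_or v with e | e <;> simp [e])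
    (gn_spec (w := bp v) (by rcases bp_or v with h | h <;> omega)).1)
  refine ⟨h4, fun g => ?_⟩
  obtain ⟨σ, h1, h2, -⟩ := exists_ine_two w2_p (chi (-1) g) 1
  rw [← inv_mul_cancel_right g σ, mul_smul, h σ (xld_ine_le (by simp [w2_p]) h1)]
  exact T.fix_four h4 (by rw [map_mul, map_inv, h2, mul_inv_cancel])

theorem Nok.I30_le (h : Nok n) : I30 ≤ GK n := by
  refine iSup_le fun ⟨w, e⟩ => ?_
  rcases (w.prime.dvd_mul (m := 2) (n := 15)).1 e with e | e
  · exact h.ine_two ((Nat.prime_dvd_prime_iff_eq w.prime Nat.prime_two).1 e)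
  refine (Ine_le w).trans (h.split ?_)
  exact ((w.prime.dvd_mul (m := 3) (n := 5)).1 e).imp
    (Nat.prime_dvd_prime_iff_eq w.prime Nat.prime_three).1
    (Nat.prime_dvd_prime_iff_eq w.prime Nat.prime_five).1

end Pool.Agent.Lib.MP_696deb_nt.B2
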