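import Pool.Agent.Lib.MP_696deb_nt.B2.AX0

/-! Selmer cocycles of level two as pairs of characters, and the passage to higher levels. -/

set_option autoImplicit false

open scoped NNReal Classical
open Finset NumberTheorySymbols

namespace Pool.Agent.Lib.MP_696deb_nt.B2

theorem axa_inj {a b a' b' : ZMod 2}
    (h : a.val • T2 + b.val • T1 = a'.val • T2 + b'.val • T1) : a = a' ∧ b = b' := by
  have v0 : (0 : ZMod 2).val = 0 := rfl
  have v1 : (1 : ZMod 2).val = 1 := rfl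
  have e := (add_comm T2 T1).trans T1_add_T2
  obtain ⟨n1, n2, n3, n4, n5, n6⟩ := T_ne
  rcases b4b_cases a with rfl | rfl <;> rcases b4b_cases b with rfl | rfl <;>
    rcases b4b_cases a' with rfl | rfl <;> rcases b4b_cases b' with rfl | rfl <;>
    simp only [v0, v1, zero_smul, one_smul, add_zero, zero_add, e] at h <;>
    first
      | exact ⟨rfl, rfl⟩
      | exact absurd h (by assumption)
      | exact absurd h.symm (by assumption)

theorem axa_val {T : EE} (h : 2 • T = 0) (a b : ZMod 2) :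
    (a + b).val • T = a.val • T + b.val • T := by
  have v1 : (1 : ZMod 2).val = 1 := rfl
  rcases b4b_cases a with rfl | rfl <;> rcases b4b_cases b with rfl | rfl
  · simp
  · simp
  · simp
  · rw [CharTwo.add_self_eq_zero, ZMod.val_zero, v1, zero_smul, one_smul, ← two_nsmul, h]

theorem axa_surj {P : EE} (h : 2 • P = 0) : ∃ a b : ZMod 2, P = a.val • T2 + b.val • T1 := by
  have v1 : (1 : ZMod 2).val = 1 := rfl
  rcases two_eq_zero.1 h with rfl | rfl | rfl | rfl
  · exact ⟨0, 0, by simp⟩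
  · exact ⟨0, 1, by simp [v1]⟩
  · exact ⟨1, 0, by simp [v1]⟩
  · exact ⟨1, 1, by rw [v1, one_smul, one_smul, add_comm, T1_add_T2]⟩

theorem axa_sub (D : ℤ) (g : Gam) (P Q : EE) : tw D g (P - Q) = tw D g P - tw D g Q := by
  simp only [tw, smul_sub]

theorem axa_nsmul (D : ℤ) (g : Gam) (n : ℕ) (P : EE) : tw D g (n • P) = n • tw D g P := by
  rw [tw, tw, smul_comm g n, smul_comm]

theorem axa_two (D : ℤ) (g : Gam) {P : EE} (h : 2 • P = 0) : tw D g P = P := by
  have e : g • P = P := by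
    rcases two_eq_zero.1 h with rfl | rfl | rfl | rfl
    exacts [smul_zero g, smul_T1 g, smul_T2 g, smul_T3 g]
  rw [tw, e]
  rcases Int.units_eq_one_or (chi D g) with k | k <;> rw [k]
  · simp
  · rw [Units.val_neg, Units.val_one, neg_one_zsmul, neg_eq_iff_add_eq_zero, ← two_nsmul, h]

theorem axa_congr {G : Subgroup Gam} {a : Qbar} {κ κ' : Gam → ZMod (2 ^ 1)} (h : Kum 1 G a κ)
    (k : ∀ g ∈ G, κ' g = κ g) : Kum 1 G a κ' := by
  obtain ⟨r, h1, h2, h3⟩ := h
  exact ⟨r, h1, h2, fun g hg => by rw [k g hg, ← h3 g hg]⟩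

theorem axa_loc (hd : DescStmt) {D : ℤ} (D0 : D ≠ 0) {G : Subgroup Gam} {α β : Gam → ZMod 2}
    {S : EE} (hS : ∀ g ∈ G, (α g).val • T2 + (β g).val • T1 = tw D g S - S) : LocK G D α β := by
  have hP : ∀ g ∈ G, tw D g (2 • S) = 2 • S := fun g hg => by
    rw [axa_nsmul, ← sub_eq_zero, ← smul_sub, ← hS g hg, smul_add, smul_comm, two_T2, smul_comm 2,
      two_T1, smul_zero, smul_zero, add_zero]
  obtain ⟨α', β', ha, hb, e⟩ := hd D G S D0 hP
  have e' := fun g hg => axa_inj ((hS g hg).trans (e g hg))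
  have ka : Kum 1 G (kA D (2 • S)) α := axa_congr ha fun g hg => (e' g hg).1
  have kb : Kum 1 G (kB D (2 • S)) β := axa_congr hb fun g hg => (e' g hg).2
  generalize 2 • S = P at hP ka kb
  obtain ⟨n1, n2, n3, n4, n5, n6⟩ := T_ne
  have fx : ∀ r : ℚ, Fx G r := fun r g _ => map_ratCast g r
  by_cases h2 : 2 • P = 0
  · left
    rcases two_eq_zero.1 h2 with rfl | rfl | rfl | rfl
    · refine ⟨0, 0, fun g hg => ⟨?_, ?_⟩⟩
      · rw [b4b_kum (n := 1) ka (fx 1) (by simp [kA]) g hg, xi_one, zero_mul]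
      · rw [b4b_kum (n := 1) kb (fx 1) (by simp [kB]) g hg, xi_one, zero_mul, zero_mul, add_zero]
    · refine ⟨0, 1, fun g hg => ⟨?_, ?_⟩⟩
      · rw [b4b_kum (n := 1) ka (fx 1) (by simp [kA]) g hg, xi_one, zero_mul]
      · rw [b4b_kum (n := -D) kb (fx (3 / 2))
          (by rw [kB, if_neg n1, if_neg n4]; simp [T1]; ring) g hg, zero_mul, one_mul, zero_add]
    · refine ⟨1, 0, fun g hg => ⟨?_, ?_⟩⟩
      · rw [b4b_kum (n := D) ka (fx 3)
          (by rw [kA, if_neg (not_or.2 ⟨n2, n4.symm⟩)]; simp [T2]; norm_num) g hg, one_mul]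
      · rw [b4b_kum (n := -1) kb (fx 1) (by rw [kB, if_neg n2, if_pos rfl]; simp) g hg, zero_mul,
          one_mul, add_zero]
    · refine ⟨1, 1, fun g hg => ⟨?_, ?_⟩⟩
      · rw [b4b_kum (n := D) ka (fx 5)
          (by rw [kA, if_neg (not_or.2 ⟨n3, n5.symm⟩)]; simp [T3]; norm_num) g hg, one_mul]
      · rw [b4b_kum (n := D) kb (fx 2)
          (by rw [kB, if_neg n3, if_neg n6.symm]; simp [T3]; norm_num) g hg, one_mul, one_mul,
          ← xi_mul (by norm_num) (neg_ne_zero.2 D0), neg_mul_neg, one_mul]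
  · right
    have h3 := mt two_eq_zero.2 h2
    push Not at h3
    rw [kA, if_neg (not_or.2 ⟨h3.1, h3.2.1⟩)] at ka
    rw [kB, if_neg h3.1, if_neg h3.2.2.1] at kb
    have key : ∀ g ∈ G, g (xco P) = xco P ∧
        g (rt D * (2 * yco P + xco P)) = rt D * (2 * yco P + xco P) := fun g hg => by
      have k := hP g hg
      have k1 := chi_spec (rt_sq D) g
      rw [map_mul, map_add, map_mul, map_ofNat, ← xco_smul, ← yco_smul, k1]
      rw [tw] at k
      rcases Int.units_eq_one_or (chi D g) with c | c <;> rw [c] at k ⊢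
      · rw [Units.val_one, one_smul] at k
        rw [k]
        simp
      · rw [Units.val_neg, Units.val_one, neg_one_zsmul, neg_eq_iff_eq_neg] at k
        rw [k, xco_neg, r0_neg]
        refine ⟨rfl, ?_⟩
        push_cast
        ring
    refine ⟨xco P, rt D * (2 * yco P + xco P), fun g hg => (key g hg).1, fun g hg => (key g hg).2,
      mul_ne_zero (b1b_rt_ne D0) fun k => h2 ?_, ?_, ka, kb⟩
    · rw [two_nsmul, add_eq_zero_iff_eq_neg]
      refine r0_ext h3.1 (neg_ne_zero.2 h3.1) (xco_neg P).symm ?_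
      rw [r0_neg]
      linear_combination k
    · rw [mul_pow, rt_sq]
      linear_combination 4 * D * r0_eqn P

theorem axa_cc {g : Gam} (h : g ∈ Subgroup.zpowers cc) : g = 1 ∨ g = cc := by
  obtain ⟨k, rfl⟩ := Subgroup.mem_zpowers_iff.1 h
  have e : cc ^ (2 : ℤ) = 1 := by rw [zpow_two, cc_mul_cc]
  obtain ⟨j, rfl | rfl⟩ := Int.even_or_odd' k
  · left
    rw [zpow_mul, e, one_zpow]
  · right
    rw [zpow_add, zpow_mul, e, one_zpow, zpow_one, one_mul]

theorem axa_hsub {D : ℤ} {ξ η : Gam → EE} (h : hSel D ξ) (k : hSel D η) : hSel D (ξ - η) := by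
  refine ⟨h.sm.comp₂ k.sm fun P Q => P - Q, fun g g' => ?_, fun w => ?_, ?_⟩
  · simp only [Pi.sub_apply, h.coc, k.coc, axa_sub]
    abel
  · obtain ⟨S, hS⟩ := h.loc w
    obtain ⟨S', hS'⟩ := k.loc w
    refine ⟨S - S', fun g hg => ?_⟩
    rw [Pi.sub_apply, hS g hg, hS' g hg, axa_sub]
    abel
  · obtain ⟨S, hS⟩ := h.inf
    obtain ⟨S', hS'⟩ := k.inf
    refine ⟨S - S', ?_⟩
    rw [Pi.sub_apply, hS, hS', axa_sub]
    abel

theorem axa_hsmul {D : ℤ} {ξ : Gam → EE} (h : hSel D ξ) (n : ℕ) : hSel D (n • ξ) := by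
  refine ⟨h.sm.comp fun P => n • P, fun g g' => ?_, fun w => ?_, ?_⟩
  · simp only [Pi.smul_apply, h.coc, axa_nsmul, smul_add]
  · obtain ⟨S, hS⟩ := h.loc w
    exact ⟨n • S, fun g hg => by rw [Pi.smul_apply, hS g hg, axa_nsmul, smul_sub]⟩
  · obtain ⟨S, hS⟩ := h.inf
    exact ⟨n • S, by rw [Pi.smul_apply, hS, axa_nsmul, smul_sub]⟩

theorem ax_pair (hd : DescStmt) {D : ℤ} (D0 : D ≠ 0) {ξ : Gam → EE} (h : hSel D ξ)
    (h2 : ∀ g, 2 • ξ g = 0) :
    ∃ α β : Gam → ZMod 2, SelK D α β ∧ ∀ g, ξ g = (α g).val • T2 + (β g).val • T1 := by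
  choose! pa pb hp using fun (P : EE) (k : 2 • P = 0) => axa_surj k
  have hm : ∀ g k, pa (ξ (g * k)) = pa (ξ g) + pa (ξ k) ∧ pb (ξ (g * k)) = pb (ξ g) + pb (ξ k) :=
    fun g k => axa_inj (by
      rw [axa_val two_T2, axa_val two_T1, add_add_add_comm, ← hp _ (h2 _), ← hp _ (h2 _),
        ← hp _ (h2 _), h.coc, axa_two D g (h2 k)])
  refine ⟨fun g => pa (ξ g), fun g => pb (ξ g), ⟨h.sm.comp pa, fun g _ k _ => (hm g k).1,
    h.sm.comp pb, fun g _ k _ => (hm g k).2, fun w => ?_, ?_⟩, fun g => hp _ (h2 g)⟩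
  · obtain ⟨S, hS⟩ := h.loc w
    exact axa_loc hd D0 fun g hg => (hp _ (h2 g)).symm.trans (hS g hg)
  · obtain ⟨S, hS⟩ := h.inf
    refine axa_loc hd D0 (S := S) fun g hg => (hp _ (h2 g)).symm.trans ?_
    rcases axa_cc hg with rfl | rfl
    · have e := h.coc 1 1
      rw [one_mul, axa_two D 1 (h2 1), left_eq_add] at e
      rw [e, tw, map_one, Units.val_one, one_smul, one_smul, sub_self]
    · exact hS

theorem cork_of_card {D : ℤ}
    (h : ∀ s : Finset (Gam → EE), (∀ ξ ∈ s, hSel D ξ ∧ ∀ g, 2 • ξ g = 0) → s.card ≤ 8) :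
    Cork D := by
  refine ⟨1, fun m => ?_⟩
  simp only [one_mul]
  induction m with
  | zero =>
    intro s hs
    refine card_le_one.2 fun ξ hξ η hη => funext fun g => ?_
    have e1 := (hs ξ hξ).2 g
    have e2 := (hs η hη).2 g
    rw [pow_zero, one_smul] at e1 e2
    rw [e1, e2]
  | succ m ih =>
    intro s hs
    refine (card_le_mul_card_image (f := fun ξ => 2 ^ m • ξ) s (8 ^ m) fun a ha => ?_).trans ?_
    · obtain ⟨η, hη, rfl⟩ := mem_image.1 ha
      rw [← card_image_of_injective _ (sub_left_injective (b := η))]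
      refine ih _ fun ξ hξ => ?_
      obtain ⟨ξ', h', rfl⟩ := mem_image.1 hξ
      obtain ⟨k1, k2⟩ := mem_filter.1 h'
      refine ⟨axa_hsub (hs _ k1).1 (hs _ hη).1, fun g => ?_⟩
      rw [Pi.sub_apply, smul_sub, sub_eq_zero]
      exact congrFun k2 g
    · rw [pow_succ]
      refine Nat.mul_le_mul_left _ (h _ fun ξ hξ => ?_)
      obtain ⟨η, hη, rfl⟩ := mem_image.1 hξ
      refine ⟨axa_hsmul (hs _ hη).1 _, fun g => ?_⟩
      rw [Pi.smul_apply, smul_smul, ← pow_succ', (hs _ hη).2]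

end Pool.Agent.Lib.MP_696deb_nt.B2
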