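import Pool.Agent.Lib.MP_696deb_nt.B2.MU1

/-! The Kummer character of a point of the curve `v ^ 2 = u (u - 1) (u + 15)` over an imaginary
quadratic field. -/

set_option autoImplicit false

open scoped NNReal Classical
open Finset NumberTheorySymbols

namespace Pool.Agent.Lib.MP_696deb_nt.B2

variable {w : Plc} {σ : Gam}

theorem rf0_unit (hw : w.p ≠ 2) (hσ : σ ∈ Ine w) {x : Qbar} (hx : w.V (x ^ 2) = 1) :
    σ x ≠ -x := fun h => by
  have h1 : w.V x = 1 := by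
    rw [map_pow] at hx
    exact (pow_eq_one_iff_of_nonneg zero_le two_ne_zero).1 hx
  have h2 := hσ.2 x h1.le
  have h3 : w.V ((2 : ℤ) : Qbar) = 1 := w.V_int_eq_one.2 fun k =>
    hw ((Nat.prime_dvd_prime_iff_eq w.prime Nat.prime_two).1 (by exact_mod_cast k))
  rw [h, show -x - x = -((2 : ℤ) * x) by push_cast; ring, Valuation.map_neg, map_mul, h1, h3,
    one_mul] at h2
  exact lt_irrefl _ h2

theorem rf0_four (hw : w.p = 2) (hσ : σ ∈ Ine w) {x : Qbar} (hx : w.V (x ^ 2 - 1) ≤ w.V 4) :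
    σ x ≠ -x := fun h => by
  have v2 : w.V 2 < 1 := by simpa [hw] using (b4a_V_p w).2
  have v4 : 0 < w.V 4 := pos_iff_ne_zero.2 (w.V.ne_zero_iff.2 (by norm_num))
  obtain ⟨y, rfl⟩ : ∃ y, x = 1 + 2 * y := ⟨(x - 1) / 2, by ring⟩
  rw [show (1 + 2 * y) ^ 2 - 1 = 4 * (y * (y + 1)) by ring, map_mul,
    mul_le_iff_le_one_right v4, map_mul] at hx
  have h1 : w.V y ≤ 1 := by
    by_contra! k
    rw [w.V.map_add_eq_of_lt_left (by simpa using k)] at hx
    exact absurd hx (not_le.2 (one_lt_mul'' k k))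
  have h2 := hσ.2 y h1
  have h3 : σ y - y = -(1 + 2 * y) := by
    simp only [map_add, map_mul, map_one, map_ofNat] at h
    linear_combination h / 2
  rw [h3, Valuation.map_neg, w.V.map_one_add_of_lt (by
    rw [map_mul]; exact mul_lt_one_of_nonneg_of_lt_one_left zero_le v2 h1)] at h2
  exact lt_irrefl _ h2

theorem rf0_ine (hw : ¬ (w.p : ℤ) ∣ 15) (hσ : σ ∈ Ine w) {u g r : Qbar} (hu : g ^ 2 = u)
    (hr : r ^ 2 = (u - 1) * (u + 15)) (g0 : g ≠ 0) (k1 : σ u = u) (k2 : σ (g * r) = g * r) :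
    σ g = g := by
  refine (sq_eq_sq_iff_eq_or_eq_neg.1 (by rw [← map_pow, hu, k1])).resolve_right fun h => ?_
  have h' : σ r = -r := mul_left_cancel₀ g0 (by rw [map_mul, h] at k2; linear_combination -k2)
  have u0 : u ≠ 0 := hu ▸ pow_ne_zero 2 g0
  by_cases h2 : w.p = 2
  · have v4 : w.V 4 ≠ 0 := w.V.ne_zero_iff.2 (by norm_num)
    have v2 : w.V 2 ≤ 1 := by simpa using w.V_int_le 2
    rcases le_or_gt (w.V 4) (w.V (u + 7)) with k | k
    · have k0 : u + 7 ≠ 0 := fun e => v4 (by rwa [e, map_zero, le_zero_iff] at k)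
      refine rf0_four h2 hσ (x := r / (u + 7)) ?_ (by simp [h', k1, map_ofNat, neg_div])
      rw [show (r / (u + 7)) ^ 2 - 1 = -(4 * (4 / (u + 7)) ^ 2) by
        rw [div_pow, hr]; field_simp; ring, Valuation.map_neg, map_mul, map_pow, map_div₀]
      exact mul_le_of_le_one_right zero_le (pow_le_one₀ zero_le (div_le_one_of_le₀ k zero_le))
    · refine rf0_four h2 hσ ?_ h
      rw [hu, show u - 1 = u + 7 - 4 * 2 by ring]
      exact w.V.map_sub_le k.le (by rw [map_mul]; exact mul_le_of_le_one_right zero_le v2)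
  · have v15 : w.V 15 = 1 := by simpa using (w.V_int_eq_one (a := 15)).2 hw
    rcases lt_trichotomy (w.V u) 1 with k | k | k
    · refine rf0_unit h2 hσ ?_ h'
      rw [hr, map_mul, w.V.map_sub_swap, w.V.map_one_sub_of_lt k,
        w.V.map_add_eq_of_lt_right (by rwa [v15]), v15, one_mul]
    · exact rf0_unit h2 hσ (hu ▸ k) h
    · refine rf0_unit h2 hσ (x := r / u) ?_ (by simp [h', k1, neg_div])
      rw [div_pow, hr, map_div₀, map_mul, w.V.map_sub_eq_of_lt_left (by simpa using k),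
        w.V.map_add_eq_of_lt_left (by rwa [v15]), map_pow, ← pow_two,
        div_self (pow_ne_zero _ (w.V.ne_zero_iff.2 u0))]

/-- The sign by which an automorphism moves a number. -/
noncomputable def sg (x : Qbar) (σ : Gam) : ZMod 2 := if σ x = x then 0 else 1

theorem sg_eq_zero {x : Qbar} : sg x σ = 0 ↔ σ x = x := by
  unfold sg
  split_ifs with h <;> simp [h]

theorem sm_sg (H : Subgroup Gam) (x : Qbar) : Sm H (sg x) :=
  (sm_apply x).comp fun y => if y = x then (0 : ZMod 2) else 1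

theorem sg_spec {x : Qbar} (h : σ (x ^ 2) = x ^ 2) : σ x = (-1) ^ (sg x σ).val * x := by
  unfold sg
  split_ifs with k
  · simpa using k
  · simpa [ZMod.val_one] using
      (sq_eq_sq_iff_eq_or_eq_neg.1 (by rw [← map_pow, h])).resolve_left k

theorem sg_of {x : Qbar} (x0 : x ≠ 0) {a b : ZMod 2}
    (h : σ x = (-1) ^ a.val * (-1) ^ b.val * x) : sg x σ = a + b := by
  have k : ¬ -x = x := fun e => x0 (CharZero.neg_eq_self_iff.1 e)
  unfold sg
  rcases mu1_or a with rfl | rfl <;> rcases mu1_or b with rfl | rfl <;>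
    simp [h, k, ZMod.val_one, mu1_two]

theorem hom_sg {H : Subgroup Gam} {x : Qbar} (x0 : x ≠ 0) (h : Fx H (x ^ 2)) : IsHom H (sg x) :=
  fun g hg k hk => sg_of x0 (by
    rw [AlgEquiv.mul_apply, sg_spec (h k hk), map_mul, sg_spec (h g hg)]
    simp only [map_pow, map_neg, map_one]
    ring)

theorem kum_fifteen {n : ℕ} (hn : Squarefree n) (h4 : n % 4 = 3) (h15 : n.Coprime 15)
    (nr : ∀ c ∈ ({-3, 5, -15} : Finset ℤ), ∃ q : ℕ, q.Prime ∧ q ∣ n ∧ J(c | q) = -1)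
    {u g r : Qbar} (hu : g ^ 2 = u) (hr : r ^ 2 = (u - 1) * (u + 15)) (g0 : g ≠ 0)
    (k1 : Fx (GK n) u) (k2 : Fx (GK n) (g * r)) :
    ∃ c₀ c : ℤ, c₀ ∈ ({1, -3, 5, -15} : Finset ℤ) ∧ c ∣ n ∧ c % 4 = 1 ∧
      ∀ σ ∈ GK n, sg g σ = xi c₀ σ + xi c σ := by
  have n0 : 0 < n := by omega
  have c0 := cc_notMem n0
  have nm := normal_GK n
  have a1 : ∀ w : Plc, ¬ (w.p : ℤ) ∣ 15 → ∀ σ ∈ GK n, σ ∈ Ine w → σ g = g :=
    fun w hw σ h1 h2 => rf0_ine hw h2 hu hr g0 (k1 σ h1) (k2 σ h1)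
  have hκ : IsHom (GK n) (sg g) := hom_sg g0 (hu ▸ k1)
  have ub : ∀ σ ∉ GK n, σ u = cc u := fun σ h => by
    have := congrArg cc (k1 _ (mul_mem_GK c0 h))
    rwa [← AlgEquiv.mul_apply, ← mul_assoc, cc_mul_cc, one_mul] at this
  have s2 : ∀ σ ∉ GK n, (g * σ g) ^ 2 = u * cc u := fun σ h => by
    rw [mul_pow, ← map_pow, hu, ub σ h]
  have s0 : ∀ σ : Gam, g * σ g ≠ 0 := fun σ => mul_ne_zero g0 (by simpa using g0)
  have fx : Fx ⊤ (u * cc u) := fun σ _ => by
    by_cases h : σ ∈ GK n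
    · rw [map_mul, k1 σ h, ← AlgEquiv.mul_apply,
        ub _ fun k => c0 (by simpa using mul_mem (inv_mem h) k)]
    · rw [map_mul, ub σ h, ← AlgEquiv.mul_apply, k1 _ (mul_mem_GK h c0), mul_comm]
  have e1 : ∀ s ∉ GK n, ∀ σ, sg (g * cc g) σ = sg (g * s g) σ := fun s hs σ => by
    rcases sq_eq_sq_iff_eq_or_eq_neg.1 ((s2 cc c0).trans (s2 s hs).symm) with e | e
    · rw [e]
    · simp only [sg, e, map_neg, neg_inj]
  have e2 : ∀ s ∉ GK n, ∀ σ ∈ GK n, sg (g * cc g) σ = sg g σ + sg g (s⁻¹ * σ * s) :=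
    fun s hs σ h => (e1 s hs σ).trans (sg_of (s0 s) (by
      have h1 : s⁻¹ * σ * s ∈ GK n := by simpa using nm.conj_mem σ h s⁻¹
      have h2 := congrArg s (sg_spec (x := g) (hu ▸ k1 _ h1))
      rw [← AlgEquiv.mul_apply, show s * (s⁻¹ * σ * s) = σ * s by group, AlgEquiv.mul_apply] at h2
      rw [map_mul, h2, sg_spec (x := g) (hu ▸ k1 σ h)]
      simp only [map_mul, map_pow, map_neg, map_one]
      ring))
  have hη : IsHom ⊤ (sg (g * cc g)) := hom_sg (s0 cc) (s2 cc c0 ▸ fx)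
  have a2 : ∀ w : Plc, ¬ (w.p : ℤ) ∣ 15 → ∀ σ ∈ Ine w, sg (g * cc g) σ = 0 := fun w hw σ h => by
    by_cases k : σ ∈ GK n
    · rw [e2 cc c0 σ k, cc_inv, sg_eq_zero.2 (a1 w hw σ k h), sg_eq_zero.2 (a1 (cc • w) hw _
        (conj_cc_mem k) (by
          rw [mem_Ine_smul, cc_inv]
          simpa [mul_assoc, cc_mul_cc, ← mul_assoc cc cc] using h)), add_zero]
    · rw [e1 σ k, sg_eq_zero, map_mul, ← AlgEquiv.mul_apply,
        a1 w hw _ (mul_mem_GK k k) (mul_mem h h), mul_comm]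
  obtain ⟨d, d1, d2, -, d4⟩ := quad_class (n := 15) (by decide) (sm_sg ⊤ _) hη a2
  have div : ∀ d : ℤ, d ∣ 15 → d % 4 = 1 → d ∈ ({1, -3, 5, -15} : Finset ℤ) := fun d h k => by
    have h1 := Int.le_of_dvd (by norm_num) h
    have h2 := Int.le_of_dvd (by norm_num) (neg_dvd.2 h)
    have h3 : -15 ≤ d := by omega
    obtain ⟨i, rfl⟩ : ∃ i, d = 4 * i + 1 := ⟨d / 4, by omega⟩
    have h5 : -4 ≤ i := by omega
    have h6 : i ≤ 3 := by omega
    interval_cases i <;> first | decide | exact absurd h (by decide)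
  obtain rfl : d = 1 := by
    by_contra k
    obtain ⟨q, q1, q2, q3⟩ := nr d (by simpa [k] using div d d1 d2)
    obtain ⟨w, rfl⟩ := exists_plc q1
    have hw : ¬ (w.p : ℤ) ∣ 15 := fun e => q1.one_lt.ne'
      (Nat.eq_one_of_dvd_coprimes h15 q2 (by exact_mod_cast e))
    obtain ⟨w2, s, hs, s1⟩ := exists_ine_notMem hn h4 (w := w) (by exact_mod_cast q2)
    have f2 : ∀ h ∈ GK n, h ∈ Dec w → sg (g * cc g) h = 0 := fun h h1 h2 => by
      have i1 : s⁻¹ * h * s * h⁻¹ ∈ GK n := mul_mem (by simpa using nm.conj_mem h h1 s⁻¹) (inv_mem h1)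
      have i2 := hκ _ i1 h h1
      rw [inv_mul_cancel_right, sg_eq_zero.2 (a1 w hw _ i1 (by
        simpa only [mul_assoc] using mul_mem (inv_mem hs) (conj_mem_Ine h2 hs))), zero_add] at i2
      rw [e2 s s1 h h1, i2, mu1_two]
    rw [jac_of_dec w2 (fun e => hw (e.trans d1)) fun h h2 => ?_] at q3
    · omega
    rw [← d4]
    by_cases h1 : h ∈ GK n
    · exact f2 h h1 h2
    · have i1 : s⁻¹ ∉ GK n := fun e => s1 (by simpa using inv_mem e)
      have := hη (h * s⁻¹) trivial s trivial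
      rwa [inv_mul_cancel_right, a2 w hw s hs,
        f2 _ (mul_mem_GK h1 i1) (mul_mem h2 (inv_mem (Ine_le w hs))), add_zero] at this
  obtain ⟨χ, s1, s2, s3, -⟩ := exists_ext n0 0 (sm_sg _ g) hκ fun σ h => by
    have := e2 cc c0 σ h
    rw [d4, xi_one, cc_inv] at this
    linear_combination -this - mu1_two (sg g σ)
  obtain ⟨e, f1, f2, f3, f4⟩ := quad_class (n := 15 * n)
    (Odd.mul (by decide) (by exact_mod_cast Nat.odd_iff.2 (by omega))) s1 s2 fun w hw σ h => by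
      have k := ine_le_GK' h4 (fun k => hw (k.mul_left _)) h
      rw [s3 σ k, sg_eq_zero.2 (a1 w (fun k => hw (k.mul_right _)) σ k h)]
  obtain ⟨a, b, ha, hb, rfl⟩ := exists_dvd_and_dvd_of_dvd_mul f1
  have a0 := left_ne_zero_of_mul f3.ne_zero
  have b0 := right_ne_zero_of_mul f3.ne_zero
  have a4 : a % 4 = 1 ∨ a % 4 = 3 := by
    have : ¬ 2 ∣ a := fun k => absurd (k.trans ha) (by decide)
    omega
  rcases a4 with a4 | a4
  · refine ⟨a, b, div a ha a4, hb, ?_, fun σ h => by rw [← s3 σ h, f4, xi_mul a0 b0]⟩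
    rw [Int.mul_emod, a4] at f2
    omega
  · refine ⟨-a, -b, div _ (neg_dvd.2 ha) (by omega), neg_dvd.2 hb, ?_, fun σ h => by
      rw [← s3 σ h, f4, ← xi_mul (by omega) (by omega), neg_mul_neg]⟩
    rw [Int.mul_emod, a4] at f2
    omega

end Pool.Agent.Lib.MP_696deb_nt.B2
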