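import Pool.Agent.Lib.MP_696deb_nt.B2.AXb
import Pool.Agent.Lib.MP_696deb_nt.B2.RF0

/-! Local conditions at two and at infinity. -/

set_option autoImplicit false

open scoped NNReal Classical
open Finset NumberTheorySymbols

namespace Pool.Agent.Lib.MP_696deb_nt.B2

variable {w : Plc} {D : ℤ} {α β : Gam → ZMod 2}

theorem axc_root {X : Qbar} (hX : Fx (Dec w) X) (h : 1 < w.V X) :
    ∃ r, Fx (Dec w) r ∧ r ≠ 0 ∧ (X * r) ^ 2 = X * (X - 4) := by
  have X0 := axb_ne (w := w) (c := 1) (by simpa using h)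
  have v4 : 0 < w.V 4 := b3a_pos w (by norm_num)
  obtain ⟨r, h1, h2, -⟩ := exists_sqrt (w := w) le_rfl (a := 1 - 4 / X)
    (axb_fx1.xsub ((axb_ofNat 4).xdiv hX)) (by
      rw [sub_sub_cancel_left, Valuation.map_neg, map_div₀]
      exact div_lt_self v4 h)
  refine ⟨r, h1, fun e => ?_, by rw [mul_pow, h2]; field_simp⟩
  rw [e, zero_pow two_ne_zero, eq_comm, sub_eq_zero, eq_div_iff X0, one_mul] at h2
  exact h.not_ge (by simpa [h2] using w.V_int_le 4)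

theorem loc_two_alpha (hw : w.p = 2) (h : D % 4 = 1) (k : LocK (Dec w) D α β) :
    ∀ σ ∈ Ine w, α σ = 0 := by
  have hD : ∀ σ ∈ Ine w, xi D σ = 0 := fun σ => xi_ine h (by rw [hw]; omega)
  rcases k with ⟨u, v, k⟩ | ⟨X, z, hX, hz, z0, e, hA, hB⟩
  · exact fun σ hσ => by rw [(k σ (Ine_le w hσ)).1, hD σ hσ, mul_zero]
  obtain ⟨D0, X0, A0, Y0⟩ := axb_ne' z0 e
  intro σ hσ
  rcases le_or_gt (w.V X) 1 with h1 | h1
  · obtain ⟨r, -, hr, k⟩ := hA
    obtain ⟨m, rfl⟩ : ∃ m, D = 4 * m + 1 := ⟨D / 4, by omega⟩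
    refine (b3b_two (α σ)).resolve_right fun k1 => rf0_four hw hσ (x := r) ?_ ?_
    · rw [pow_one] at hr
      rw [hr, show ((4 * m + 1 : ℤ) : Qbar) * (4 * X + 9) - 1 =
        4 * (((4 * m + 1 : ℤ) : Qbar) * X + (9 * m + 2 : ℤ)) by push_cast; ring, map_mul]
      exact mul_le_of_le_one_right' (w.V.map_add_le (b2a_mul_le w (w.V_int_le _) h1) (w.V_int_le _))
    · rw [k σ (Ine_le w hσ), k1, b3b_neg, mul_neg_one]
  · obtain ⟨r, h2, r0, h3⟩ := axc_root hX h1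
    rw [b4b_kum (n := 1) hA (hz.xdiv (hX.xmul h2)) (by
      rw [div_pow, e, h3]
      push_cast
      field_simp) σ (Ine_le w hσ), xi_one]

theorem axc_two (hw : w.p = 2) : w.V 2 = 2⁻¹ := by simpa [hw] using w.hV

theorem axc_sq (hw : w.p = 2) {y : Qbar} (hy : Fx (Dec w) y) : w.V (y ^ 2 - 1) ≠ 2⁻¹ := fun h => by
  have v2 := axc_two hw
  rw [show y ^ 2 - 1 = (y - 1) * (y - 1 + 2) by ring, map_mul] at h
  rcases le_or_gt (w.V (y - 1)) 2⁻¹ with h1 | h1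
  · have h2 := mul_le_mul' h1 (w.V.map_add_le h1 v2.le)
    rw [h] at h2
    norm_num [← NNReal.coe_le_coe] at h2
  · obtain ⟨j, hj⟩ := b3a_dec (hy.xsub axb_fx1) (axb_ne (v2 ▸ h1))
    rw [w.V.map_add_eq_of_lt_left (v2 ▸ h1), hj, hw, Nat.cast_ofNat, ← mul_inv, inv_inj,
      ← zpow_add₀ two_ne_zero] at h
    have := zpow_right_injective₀ two_pos one_lt_two.ne' (h.trans (zpow_one _).symm)
    omega

theorem loc_two_beta (hw : w.p = 2) (h : D % 4 = 1) (k : LocK (Dec w) D α β) :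
    ∃ s : ZMod 2, ∀ σ ∈ Ine w, β σ = s * xi (-1) σ := by
  have hD : ∀ σ ∈ Ine w, xi D σ = 0 := fun σ => xi_ine h (by rw [hw]; omega)
  rcases k with ⟨u, v, k⟩ | ⟨X, z, hX, hz, z0, e, hA, hB⟩
  · refine ⟨u + v, fun σ hσ => ?_⟩
    rw [(k σ (Ine_le w hσ)).2, neg_eq_neg_one_mul D, xi_mul (by norm_num) (by omega), hD σ hσ]
    ring
  obtain ⟨D0, X0, A0, Y0⟩ := axb_ne' z0 e
  have key : ∀ u y, Fx (Dec w) y → w.V u = 1 → D * X = u * y ^ 2 →
      ∃ s : ZMod 2, ∀ σ ∈ Ine w, β σ = s * xi (-1) σ := fun u y hy hu e' => by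
    obtain ⟨s, t, k⟩ := kum_unit_two hw (kum_sq (e' ▸ hB) hy) hu
    refine ⟨s, fun σ hσ => ?_⟩
    rw [k σ (Ine_le w hσ), xi_ine (c := 5) rfl (by rw [hw]; decide) hσ, mul_zero, add_zero]
  have odd : ∀ m : ℤ, m % 2 = 1 → w.V m = 1 := fun m hm =>
    w.V_int_eq_one.2 (by rw [hw]; omega)
  have vD := odd D (by omega)
  have v9 : w.V 9 = 1 := by simpa using odd 9 rfl
  have v2 := axc_two hw
  have v4 : w.V 4 = 4⁻¹ := by
    rw [show (4 : Qbar) = 2 * 2 by norm_num, map_mul, v2, ← mul_inv]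
    norm_num
  have f2 : Fx (Dec w) 2 := axb_ofNat 2
  have m8 : ∀ m : ℤ, w.V ((4 * m : ℤ) : Qbar) < 2⁻¹ := fun m => by
    rw [Int.cast_mul, map_mul, Int.cast_ofNat, v4]
    exact (mul_le_of_le_one_right' (w.V_int_le m)).trans_lt (by norm_num [inv_lt_inv₀])
  obtain ⟨j, hj⟩ := b3a_dec hX X0
  rw [hw, Nat.cast_ofNat, ← zpow_neg] at hj
  have lt : ∀ {a b : ℤ}, a < b → (2 : ℝ≥0) ^ a < 2 ^ b := fun h => zpow_lt_zpow_right₀ one_lt_two h
  have p4 : (4 : ℝ≥0) = 2 ^ (2 : ℤ) := by norm_num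
  have p4' : (4 : ℝ≥0)⁻¹ = 2 ^ (-2 : ℤ) := by rw [p4, zpow_neg]
  have hc : j < -2 ∨ j = -2 ∨ j = -1 ∨ j = 0 ∨ j = 1 ∨ j = 2 ∨ 2 < j := by omega
  rcases hc with h1 | rfl | rfl | rfl | rfl | rfl | h1
  · have h2 : (2 : ℝ≥0) ^ (2 : ℤ) < w.V X := hj ▸ lt (by omega)
    refine key (4 * X * X / ((4 * X + 9) * (X - 4))) _ (hz.xdiv (f2.xmul hX)) ?_
      (by rw [div_pow, e]; field_simp; norm_num)
    rw [map_div₀, map_mul _ (4 * X + 9), w.V.map_add_eq_of_lt_left (by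
        rwa [map_mul, v9, v4, lt_inv_mul_iff₀ (by norm_num), mul_one, p4]),
      w.V.map_sub_eq_of_lt_left (by rw [v4, p4']; exact (lt (by norm_num)).trans h2), map_mul,
      div_self (mul_ne_zero (w.V.ne_zero_iff.2 (by simpa using X0)) (w.V.ne_zero_iff.2 X0))]
  · refine key (D * (4 * X)) _ (axb_fx1.xdiv f2) ?_ (by ring)
    rw [map_mul, map_mul, vD, v4, hj]
    norm_num
  · exfalso
    obtain ⟨r, h2, r0, h3⟩ := axc_root hX (hj ▸ by norm_num)
    refine axc_sq hw (hz.xdiv (hX.xmul h2)) ?_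
    obtain ⟨m, hm⟩ : ∃ m, 9 * D - 1 = 4 * m := ⟨(9 * D - 1) / 4, by omega⟩
    have e1 : w.V (D * (4 * X)) = 2⁻¹ := by
      rw [map_mul, map_mul, vD, v4, hj]
      norm_num
    rw [show (z / (X * r)) ^ 2 - 1 = D * (4 * X) + ((9 * D - 1 : ℤ) : Qbar) by
      rw [div_pow, e, h3]; push_cast; field_simp; ring, hm,
      w.V.map_add_eq_of_lt_left (e1 ▸ m8 m), e1]
  · exact key (D * X) 1 axb_fx1 (by rw [map_mul, vD, hj]; norm_num) (by ring)
  · exfalso
    refine axc_sq hw (hz.xdiv hX) ?_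
    obtain ⟨m, hm⟩ : ∃ m, D - 1 = 4 * m := ⟨(D - 1) / 4, by omega⟩
    have e1 : w.V (D * 9 * 4 / X) = 2⁻¹ := by
      rw [map_div₀, map_mul, map_mul, vD, v9, v4, hj]
      norm_num
    have e2 : w.V (D * (4 * X)) < 2⁻¹ := by
      rw [map_mul, map_mul, vD, v4, hj]
      norm_num [← NNReal.coe_lt_coe]
    rw [show (z / X) ^ 2 - 1 = D * (4 * X) + ((4 * (m - 2 * D) : ℤ) : Qbar) - D * 9 * 4 / X by
      rw [mul_sub, ← hm, div_pow, e]; push_cast; field_simp; ring,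
      w.V.map_sub_eq_of_lt_right (e1 ▸ w.V.map_add_lt e2 (m8 _)), e1]
  · refine key (D * (X / 4)) _ f2 ?_ (by ring)
    rw [map_mul, map_div₀, vD, v4, hj]
    norm_num
  · have h2 : w.V X < w.V 4 := by rw [hj, v4, p4']; exact lt (by omega)
    refine key (4 / ((4 * X + 9) * (X - 4))) _ (hz.xdiv f2) ?_
      (by rw [div_pow, e]; field_simp; norm_num)
    rw [map_div₀, map_mul _ (4 * X + 9), w.V.map_sub_eq_of_lt_right h2,
      w.V.map_add_eq_of_lt_right (by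
        rw [v9]
        exact b2a_mul_lt w (by simpa using w.V_int_le 4)
          (h2.trans_le (by simpa using w.V_int_le 4))), v9, one_mul,
      div_self (by rw [v4]; norm_num)]

theorem axc_real {x : Qbar} (h : cc x = x) : ∃ t : ℝ, jC x = t :=
  Complex.conj_eq_iff_real.1 (by rw [← jC_cc, h])

theorem axc_sign {a : Qbar} {κ : Gam → ZMod 2} (h : Kum 1 (Subgroup.zpowers cc) a κ) {t : ℝ}
    (ht : jC a = t) : 0 < t ∧ κ cc = 0 ∨ t < 0 ∧ κ cc = 1 := by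
  obtain ⟨r, r0, hr, k⟩ := h
  have k1 := congrArg jC (k cc (Subgroup.mem_zpowers cc))
  have p : 0 < Complex.normSq (jC r) := Complex.normSq_pos.2 ((map_ne_zero jC).2 r0)
  have e := Complex.mul_conj (jC r)
  rw [← hr, pow_one, map_pow, pow_two] at ht
  rw [jC_cc] at k1
  refine (b3b_two (κ cc)).imp (fun h => ⟨?_, h⟩) fun h => ⟨?_, h⟩
  · rw [h, ZMod.val_zero, pow_zero, mul_one] at k1
    rw [k1, ht] at e
    rwa [Complex.ofReal_injective e]
  · rw [h, b3b_neg, mul_neg_one, map_neg] at k1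
    rw [k1, mul_neg, ht, ← Complex.ofReal_neg] at e
    rw [← neg_pos, Complex.ofReal_injective e]
    exact p

theorem loc_inf (h : D ≠ 0) (k : LocK (Subgroup.zpowers cc) D α β) :
    α cc = xi D cc * β cc := by
  have c0 : cc ∈ Subgroup.zpowers cc := Subgroup.mem_zpowers cc
  rcases k with ⟨u, v, k⟩ | ⟨X, z, hX, hz, z0, e, hA, hB⟩
  · rw [(k cc c0).1, (k cc c0).2]
    rcases h.lt_or_gt with h1 | h1
    · rw [xi_cc_neg h1, xi_cc_neg (a := -1) (by norm_num), xi_cc (neg_pos.2 h1)]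
      ring
    · rw [xi_cc h1]
      ring
  obtain ⟨x, hx⟩ := axc_real (hX cc c0)
  obtain ⟨t, ht⟩ := axc_real (hz cc c0)
  have t0 : t ≠ 0 := fun k => z0 (jC.injective (by rw [ht, k, map_zero, Complex.ofReal_zero]))
  have e1 : t ^ 2 = D * x * (4 * x + 9) * (x - 4) := by
    have := congrArg jC e
    simp only [map_mul, map_pow, map_add, map_sub, map_ofNat, map_intCast, hx, ht] at this
    exact_mod_cast this
  have e2 : 0 < D * x * (4 * x + 9) * (x - 4) := e1 ▸ by positivity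
  have kA := axc_sign hA (t := D * (4 * x + 9)) (by simp [hx, map_ofNat])
  have kB := axc_sign hB (t := D * x) (by simp [hx])
  rcases h.lt_or_gt with h1 | h1
  · have h2 : (D : ℝ) < 0 := by exact_mod_cast h1
    have h3 : 0 < D * (4 * x + 9) * (D * x) := by
      by_contra! h4
      have h5 : x * (4 * x + 9) ≤ 0 := by nlinarith [mul_pos_of_neg_of_neg h2 h2]
      have h6 : x - 4 < 0 := by nlinarith
      nlinarith [mul_pos_of_neg_of_neg h2 h6]
    rw [xi_cc_neg h1, one_mul]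
    rcases kA with ⟨a1, a2⟩ | ⟨a1, a2⟩ <;> rcases kB with ⟨b1, b2⟩ | ⟨b1, b2⟩
    · rw [a2, b2]
    · exact absurd h3 (mul_neg_of_pos_of_neg a1 b1).not_gt
    · exact absurd h3 (mul_neg_of_neg_of_pos a1 b1).not_gt
    · rw [a2, b2]
  · have h2 : (0 : ℝ) < D := by exact_mod_cast h1
    rw [xi_cc h1, zero_mul]
    refine (kA.resolve_right fun a => ?_).2
    have h3 : 4 * x + 9 < 0 := by nlinarith [a.1]
    have h4 : 0 < x * (x - 4) := mul_pos_of_neg_of_neg (by linarith) (by linarith)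
    nlinarith [mul_neg_of_neg_of_pos a.1 h4]

end Pool.Agent.Lib.MP_696deb_nt.B2
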