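import Mathlib

set_option autoImplicit false

open scoped Classical
open Finset Filter Topology NumberTheorySymbols

namespace Pool.Agent.Lib.MP_696deb_nt.B2

theorem gf_per {f : ℕ → ℝ} {M : ℕ} (hM : 0 < M) (hp : ∀ N, f (N + M) = f N)
    (h0 : ∑ N ∈ range M, f N = 0) (hb : ∀ N, |f N| ≤ 1) (X : ℕ) :
    |∑ N ∈ range X, f N| ≤ M := by
  have h1 : ∀ Y, ∑ N ∈ range (Y + M), f N = ∑ N ∈ range Y, f N := fun Y => by
    induction Y with
    | zero => simpa using h0
    | succ Y ih => rw [Nat.add_right_comm, sum_range_succ, sum_range_succ, ih, hp]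
  induction X using Nat.strong_induction_on with
  | _ X ih =>
    rcases lt_or_ge X M with h | h
    · refine (abs_sum_le_sum_abs _ _).trans ((sum_le_sum fun N _ => hb N).trans ?_)
      simpa using h.le
    · obtain ⟨Y, rfl⟩ := Nat.exists_eq_add_of_le' h
      rw [h1]
      exact ih Y (by omega)

theorem gf_bad {K : ℕ} (hK : K ≠ 0) (X : ℕ) :
    (((range (X + 1)).filter fun N => N ≠ 0 ∧ ∃ k, K < k ∧ k * k ∣ N).card : ℝ) ≤ X / K := by
  have h1 : ((range (X + 1)).filter fun N => N ≠ 0 ∧ ∃ k, K < k ∧ k * k ∣ N) ⊆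
      (Ioc K (K + X)).biUnion fun k => (Ioc 0 X).filter fun N => k * k ∣ N := by
    intro N hN
    simp only [mem_filter, mem_range, mem_biUnion, mem_Ioc] at hN ⊢
    obtain ⟨h1, h2, k, h3, h4⟩ := hN
    have h5 := Nat.le_of_dvd (by omega) h4
    have h6 : k ≤ k * k := Nat.le_mul_self k
    exact ⟨k, ⟨h3, by omega⟩, ⟨by omega, by omega⟩, h4⟩
  have h2 := (card_le_card h1).trans card_biUnion_le
  have h3 : ∑ k ∈ Ioc K (K + X), (((Ioc 0 X).filter fun N => k * k ∣ N).card : ℝ) ≤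
      ∑ k ∈ Ioc K (K + X), X * ((k : ℝ) ^ 2)⁻¹ := sum_le_sum fun k _ => by
    rw [Nat.Ioc_filter_dvd_card_eq_div, ← div_eq_mul_inv, sq, ← Nat.cast_mul]
    exact Nat.cast_div_le
  have h4 := sum_Ioc_inv_sq_le_sub (α := ℝ) hK (Nat.le_add_right K X)
  rw [← mul_sum] at h3
  have h5 : (0 : ℝ) ≤ (((K + X : ℕ) : ℝ))⁻¹ := by positivity
  calc _ ≤ ∑ k ∈ Ioc K (K + X), (((Ioc 0 X).filter fun N => k * k ∣ N).card : ℝ) := by
        exact_mod_cast h2
    _ ≤ X * (K : ℝ)⁻¹ := h3.trans (mul_le_mul_of_nonneg_left (by linarith) (Nat.cast_nonneg _))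
    _ = _ := (div_eq_mul_inv _ _).symm

/-- The character. -/
noncomputable def gfPsi (N : ℕ) : ℝ := if N % 2 = 1 then (J(-15 | N) : ℤ) else 0

theorem gf_abs (N : ℕ) : |gfPsi N| ≤ 1 := by
  unfold gfPsi
  split_ifs
  · rcases jacobiSym.trichotomy (-15) N with h | h | h <;> simp [h]
  · simp

theorem gf_mul (a b : ℕ) : gfPsi (a * b) = gfPsi a * gfPsi b := by
  unfold gfPsi
  rcases Nat.mod_two_eq_zero_or_one a with ha | ha
  · simp [Nat.mul_mod, ha]
  rcases Nat.mod_two_eq_zero_or_one b with hb | hb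
  · simp [Nat.mul_mod, hb]
  rw [if_pos ha, if_pos hb, if_pos (by simp [Nat.mul_mod, ha, hb]),
    jacobiSym.mul_right' _ (by omega) (by omega), Int.cast_mul]

theorem gf_add (N : ℕ) : gfPsi (N + 60) = gfPsi N := by
  unfold gfPsi
  rcases Nat.mod_two_eq_zero_or_one N with h | h
  · rw [if_neg (by omega), if_neg (by omega)]
  rw [if_pos h, if_pos (by omega), jacobiSym.mod_right _ (Nat.odd_iff.2 h),
    jacobiSym.mod_right _ (Nat.odd_iff.2 (by omega : (N + 60) % 2 = 1))]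
  simp

theorem gf_psi0 {N : ℕ} (h : ¬ (N % 2 = 1 ∧ ¬ 3 ∣ N ∧ ¬ 5 ∣ N)) : gfPsi N = 0 := by
  unfold gfPsi
  split_ifs with h2
  · rw [jacobiSym.eq_zero_iff.2 ⟨by omega, ?_⟩, Int.cast_zero]
    intro h3
    have h4 : Nat.Coprime 15 N := by simpa [Int.gcd] using h3
    refine h ⟨h2, fun k => ?_, fun k => ?_⟩
    · exact absurd (Nat.Coprime.coprime_dvd_left (by norm_num : 3 ∣ 15) h4)
        (by simpa [Nat.Prime.coprime_iff_not_dvd Nat.prime_three] using k)
    · exact absurd (Nat.Coprime.coprime_dvd_left (by norm_num : 5 ∣ 15) h4)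
        (by simpa [Nat.Prime.coprime_iff_not_dvd Nat.prime_five] using k)
  · rfl

theorem gf_zero : ∑ N ∈ range 60, gfPsi N = 0 := by
  have e : ∀ N, gfPsi N = if N % 2 = 1 ∧ ¬ 3 ∣ N ∧ ¬ 5 ∣ N then ((J(-15 | N) : ℤ) : ℝ) else 0 :=
    fun N => by
    split_ifs with h
    · exact if_pos h.1
    · exact gf_psi0 h
  simp only [e]
  rw [← sum_filter, show ((range 60).filter fun N => N % 2 = 1 ∧ ¬ 3 ∣ N ∧ ¬ 5 ∣ N) =
    {1, 7, 11, 13, 17, 19, 23, 29, 31, 37, 41, 43, 47, 49, 53, 59} by decide]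
  norm_num

/-- The sieved character. -/
noncomputable def gfG (K N : ℕ) : ℝ :=
  if ∀ p ≤ K, p.Prime → ¬ p * p ∣ N then gfPsi N else 0

theorem gf_sieve (K : ℕ) : ∃ C : ℝ, ∀ X, |∑ N ∈ range X, gfG K N| ≤ C := by
  induction K with
  | zero =>
    refine ⟨(60 : ℕ), fun X => ?_⟩
    rw [sum_congr rfl fun N _ => show gfG 0 N = gfPsi N from if_pos fun p h1 h2 =>
      absurd h2.pos (by omega)]
    exact gf_per (by norm_num) gf_add gf_zero gf_abs X
  | succ K ih =>
    obtain ⟨C, hC⟩ := ih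
    by_cases hp : (K + 1).Prime
    swap
    · refine ⟨C, fun X => ?_⟩
      have e : ∀ N, gfG (K + 1) N = gfG K N := fun N => by
        unfold gfG
        refine if_congr ⟨fun h p h1 => h p (by omega), fun h p h1 h2 => h p ?_ h2⟩ rfl rfl
        rcases h1.lt_or_eq with h3 | rfl
        · omega
        · exact absurd h2 hp
      simpa only [e] using hC X
    refine ⟨C + C, fun X => ?_⟩
    set q := (K + 1) * (K + 1) with hq
    have q0 : 0 < q := by positivity
    have e : ∀ N, gfG (K + 1) N = gfG K N - if q ∣ N then gfG K N else 0 := fun N => by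
      by_cases h : q ∣ N
      · rw [if_pos h, sub_self]
        exact if_neg fun k => k _ le_rfl hp h
      · rw [if_neg h, sub_zero]
        unfold gfG
        refine if_congr ⟨fun h p h1 => h p (by omega), fun k p h1 h2 => ?_⟩ rfl rfl
        rcases h1.lt_or_eq with h3 | rfl
        · exact k p (by omega) h2
        · exact h
    have e2 : ∀ m, gfG K (q * m) = gfPsi q * gfG K m := fun m => by
      unfold gfG
      rw [mul_ite, mul_zero, gf_mul]
      refine if_congr ⟨fun h p h1 h2 h3 => h p h1 h2 (h3.mul_left _), fun h p h1 h2 h3 =>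
        h p h1 h2 ?_⟩ rfl rfl
      have c : p.Coprime (K + 1) := (Nat.coprime_primes h2 hp).2 (by omega)
      exact (Nat.Coprime.mul_left (c.mul_right c) (c.mul_right c)).dvd_of_dvd_mul_left h3
    have e3 : (range X).filter (q ∣ ·) = (range ((X + q - 1) / q)).image (q * ·) := by
      ext N
      simp only [mem_filter, mem_range, mem_image, Nat.lt_iff_add_one_le,
        Nat.le_div_iff_mul_le q0, add_mul, one_mul]
      constructor
      · rintro ⟨h1, m, rfl⟩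
        exact ⟨m, by rw [mul_comm m]; omega, rfl⟩
      · rintro ⟨m, h1, rfl⟩
        exact ⟨by rw [mul_comm m] at h1; omega, dvd_mul_right _ _⟩
    simp only [e, sum_sub_distrib]
    rw [← sum_filter, e3, sum_image fun a _ b _ h => Nat.eq_of_mul_eq_mul_left q0 h]
    simp only [e2, ← mul_sum]
    refine (abs_sub _ _).trans (add_le_add (hC X) ?_)
    rw [abs_mul]
    exact (mul_le_of_le_one_left (abs_nonneg _) (gf_abs _)).trans (hC _)

/-- The family of absolute values. -/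
noncomputable def gfS (X : ℕ) : Finset ℕ :=
  (range (X + 1)).filter fun N => Squarefree N ∧ N % 2 = 1 ∧ ¬ 3 ∣ N ∧ ¬ 5 ∣ N

theorem gf_small {δ : ℝ} (hδ : 0 < δ) :
    ∀ᶠ X : ℕ in atTop, |∑ N ∈ gfS X, gfPsi N| ≤ δ * X := by
  obtain ⟨K, hK⟩ := exists_nat_gt (2 / δ)
  have K0 : (0 : ℝ) < K := (by positivity : 0 < 2 / δ).trans hK
  obtain ⟨C, hC⟩ := gf_sieve K
  filter_upwards [(tendsto_natCast_atTop_atTop (R := ℝ)).eventually_ge_atTop (2 * C / δ)] with X hX
  have h1 := gf_bad (K := K) (by rintro rfl; simp at K0) X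
  have h2 : ∀ N, |(if Squarefree N ∧ N % 2 = 1 ∧ ¬ 3 ∣ N ∧ ¬ 5 ∣ N then gfPsi N else 0) -
      gfG K N| ≤ if N ≠ 0 ∧ ∃ k, K < k ∧ k * k ∣ N then 1 else 0 := fun N => by
    by_cases h3 : N % 2 = 1 ∧ ¬ 3 ∣ N ∧ ¬ 5 ∣ N
    swap
    · simp only [gfG, gf_psi0 h3, ite_self, sub_self, abs_zero]
      split_ifs <;> norm_num
    by_cases h4 : Squarefree N
    · rw [if_pos ⟨h4, h3⟩, gfG, if_pos fun p _ hp => Nat.squarefree_iff_prime_squarefree.1 h4 p hp,
        sub_self, abs_zero]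
      split_ifs <;> norm_num
    rw [if_neg fun k => h4 k.1, zero_sub, abs_neg, gfG]
    by_cases h5 : ∀ p ≤ K, p.Prime → ¬ p * p ∣ N
    · rw [if_pos h5, if_pos]
      · exact gf_abs N
      rw [Nat.squarefree_iff_prime_squarefree] at h4
      push Not at h4
      obtain ⟨p, hp, h6⟩ := h4
      exact ⟨by omega, p, not_le.1 fun k => h5 p k hp h6, h6⟩
    · rw [if_neg h5, abs_zero]
      split_ifs <;> norm_num
  have h3 := (abs_sum_le_sum_abs _ (range (X + 1))).trans (sum_le_sum fun N _ => h2 N)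
  rw [sum_sub_distrib, sum_boole, ← sum_filter] at h3
  have h4 := hC (X + 1)
  have h5 : (X : ℝ) / K ≤ δ / 2 * X := by
    rw [div_le_iff₀ K0]
    rw [div_lt_iff₀ hδ] at hK
    have : (0 : ℝ) ≤ X := Nat.cast_nonneg _
    nlinarith
  rw [div_le_iff₀ hδ] at hX
  unfold gfS
  rw [abs_le] at h3 h4 ⊢
  constructor <;> linarith [h3.1, h3.2, h4.1, h4.2]

theorem gf_big (X : ℕ) : (X : ℝ) / 10 - 30 ≤ (gfS X).card := by
  have h1 := gf_bad (K := 6) (by norm_num) X
  have h2 := gf_per (f := fun N => (if N % 2 = 1 ∧ ¬ 3 ∣ N ∧ ¬ 5 ∣ N then 1 else 0) - 4 / 15)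
    (M := 30) (by norm_num) (fun N => by
      congr 1
      exact if_congr (by omega) rfl rfl) (by
      simp only [sum_range_succ]
      norm_num) (fun N => by
      split_ifs <;> norm_num [abs_le]) (X + 1)
  rw [sum_sub_distrib, sum_boole] at h2
  have h3 : ((range (X + 1)).filter fun N => N % 2 = 1 ∧ ¬ 3 ∣ N ∧ ¬ 5 ∣ N) ⊆ gfS X ∪
      (range (X + 1)).filter fun N => N ≠ 0 ∧ ∃ k, 6 < k ∧ k * k ∣ N := by
    intro N hN
    simp only [gfS, mem_filter, mem_union] at hN ⊢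
    by_cases h4 : Squarefree N
    · exact .inl ⟨hN.1, h4, hN.2⟩
    rw [Nat.squarefree_iff_prime_squarefree] at h4
    push Not at h4
    obtain ⟨p, hp, h6⟩ := h4
    refine .inr ⟨hN.1, by omega, p, not_le.1 fun k => ?_, h6⟩
    have h7 : p ∣ N := (dvd_mul_right p p).trans h6
    have h8 := hN.2
    interval_cases p <;> first | omega | exact absurd hp (by norm_num)
  have h4 := (Nat.cast_le (α := ℝ)).2 ((card_le_card h3).trans (card_union_le _ _))
  simp only [sum_const, card_range, nsmul_eq_mul] at h2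
  push_cast at h1 h2 h4
  linarith [(abs_le.1 h2).1]

/-- The family. -/
noncomputable def gfF (X : ℕ) : Finset ℤ :=
  (Icc (-(X : ℤ)) X).filter fun d => Squarefree d ∧ d % 4 = 1 ∧ ¬ 3 ∣ d ∧ ¬ 5 ∣ d

theorem gf_sum (X : ℕ) (f : ℕ → ℝ) : ∑ d ∈ gfF X, f d.natAbs = ∑ N ∈ gfS X, f N := by
  refine sum_bij (fun d _ => d.natAbs) (fun d hd => ?_) (fun d hd e he h => ?_) (fun N hN => ?_)
    fun _ _ => rfl
  · simp only [gfF, gfS, mem_filter, mem_Icc, mem_range] at hd ⊢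
    exact ⟨by omega, Int.squarefree_natAbs.2 hd.2.1, by omega⟩
  · simp only [gfF, mem_filter] at hd he
    omega
  · simp only [gfF, gfS, mem_filter, mem_Icc, mem_range] at hN ⊢
    by_cases h : N % 4 = 1
    · exact ⟨N, ⟨by omega, Int.squarefree_natAbs.1 (by simpa using hN.2.1), by omega⟩, by simp⟩
    · exact ⟨-N, ⟨by omega, Int.squarefree_natAbs.1 (by simpa using hN.2.1), by omega⟩, by simp⟩

/-- The sign of the functional equation is equidistributed in the family. -/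
theorem half_of {P : ℕ → ℤ → Prop} (hd : ∀ d, P 0 d → ¬ P 1 d)
    (h : ∀ ε : ℝ, 0 < ε → ∃ X0 : ℕ, ∀ X ≥ X0, (((Icc (-(X : ℤ)) X).filter fun d =>
      (Squarefree d ∧ d % 4 = 1 ∧ ¬ 3 ∣ d ∧ ¬ 5 ∣ d) ∧
        ¬ P (if J(-15 | d.natAbs) = 1 then 0 else 1) d).card : ℝ) ≤ ε * X)
    {r : ℕ} (hr : r ≤ 1) :
    Tendsto (fun X : ℕ =>
      (Set.ncard {d : ℤ | |d| ≤ X ∧ Squarefree d ∧ d % 4 = 1 ∧ ¬ 3 ∣ d ∧ ¬ 5 ∣ d ∧ P r d} : ℝ) /
        (Set.ncard {d : ℤ | |d| ≤ X ∧ Squarefree d ∧ d % 4 = 1 ∧ ¬ 3 ∣ d ∧ ¬ 5 ∣ d} : ℝ))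
      atTop (𝓝 (1 / 2)) := by
  rw [Metric.tendsto_nhds]
  intro ε hε
  obtain ⟨X0, h0⟩ := h (ε / 100) (by positivity)
  filter_upwards [eventually_ge_atTop X0, gf_small (δ := ε / 100) (by positivity),
    (tendsto_natCast_atTop_atTop (R := ℝ)).eventually_ge_atTop 600] with X h1 h2 h3
  have e1 : {d : ℤ | |d| ≤ X ∧ Squarefree d ∧ d % 4 = 1 ∧ ¬ 3 ∣ d ∧ ¬ 5 ∣ d ∧ P r d} =
      ↑((gfF X).filter (P r)) := by
    ext d
    simp [gfF, abs_le, and_assoc]
  have e2 : {d : ℤ | |d| ≤ X ∧ Squarefree d ∧ d % 4 = 1 ∧ ¬ 3 ∣ d ∧ ¬ 5 ∣ d} = ↑(gfF X) := by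
    ext d
    simp [gfF, abs_le, and_assoc]
  rw [e1, e2, Set.ncard_coe_finset, Set.ncard_coe_finset, Real.dist_eq]
  have b := h0 X h1
  rw [← filter_filter, ← gfF, ← sum_boole] at b
  have c : ((gfF X).card : ℝ) = (gfS X).card := by simpa using gf_sum X fun _ => 1
  have g := gf_big X
  rw [← c] at g
  rw [← gf_sum, abs_le] at h2
  have k : ∀ d ∈ gfF X, |(if P r d then (1 : ℝ) else 0) - 1 / 2 -
      (1 / 2 - r) * gfPsi d.natAbs| ≤
      if ¬ P (if J(-15 | d.natAbs) = 1 then 0 else 1) d then 1 else 0 := fun d hd' => by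
    simp only [gfF, mem_filter] at hd'
    have j : J(-15 | d.natAbs) = 1 ∨ J(-15 | d.natAbs) = -1 := by
      refine jacobiSym.eq_one_or_neg_one ?_
      have : Nat.Coprime (3 * 5) d.natAbs := Nat.Coprime.mul_left
        ((Nat.Prime.coprime_iff_not_dvd Nat.prime_three).2 (by omega))
        ((Nat.Prime.coprime_iff_not_dvd Nat.prime_five).2 (by omega))
      exact this
    have := hd d
    rw [gfPsi, if_pos (by omega : d.natAbs % 2 = 1)]
    interval_cases r <;> rcases j with j | j <;> by_cases p0 : P 0 d <;> by_cases p1 : P 1 d <;>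
      simp only [j, p0, p1, forall_const, not_true_eq_false] at this ⊢ <;> norm_num [p0, p1]
  have k2 := ((abs_sum_le_sum_abs _ _).trans (sum_le_sum k)).trans b
  rw [sum_sub_distrib, sum_sub_distrib, sum_boole, ← mul_sum, sum_const, nsmul_eq_mul,
    abs_le] at k2
  have a0 : (0 : ℝ) < (gfF X).card := by linarith
  have r2 : |(1 / 2 - (r : ℝ)) * ∑ d ∈ gfF X, gfPsi d.natAbs| ≤ ε / 100 * X := by
    interval_cases r <;> rw [abs_le] <;> push_cast <;> constructor <;> nlinarith [h2.1, h2.2]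
  rw [abs_le] at r2
  have a1 : ε * X ≤ ε * (20 * (gfF X).card) := mul_le_mul_of_nonneg_left (by linarith) hε.le
  have a2 := mul_pos hε a0
  rw [abs_lt, lt_sub_iff_add_lt, sub_lt_iff_lt_add, lt_div_iff₀ a0, div_lt_iff₀ a0]
  constructor <;> nlinarith [k2.1, k2.2, r2.1, r2.2]

end Pool.Agent.Lib.MP_696deb_nt.B2
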