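import Pool.Agent.Lib.MP_696deb_nt.B2.Top2
import Pool.Agent.Lib.MP_696deb_nt.B2.GF
import Pool.Agent.Lib.MP_696deb_nt.Sm.Final

set_option autoImplicit false

open scoped Classical
open Finset Filter Topology NumberTheorySymbols

namespace Pool.Agent.Lib.MP_696deb_nt.B2

theorem smithStmt : SmithStmt := fun _ h => Sm.smith h

theorem corank15 {d : ℤ} (h0 : Cls0 d) (h : Stmt.CorankLE (twist15 d) 1) :
    BSD (-12987 * d ^ 2) (-263466 * d ^ 3) (if J(-15 | d.natAbs) = 1 then 0 else 1) :=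
  bsd_all smithStmt h0 (m_cork h0.sqf.ne_zero h)

theorem goldfeld15 {r : ℕ} (hr : r ≤ 1) :
    Tendsto (fun X : ℕ =>
      (Set.ncard {d : ℤ | |d| ≤ X ∧ Squarefree d ∧ d % 4 = 1 ∧ ¬ 3 ∣ d ∧ ¬ 5 ∣ d ∧
        ∀ a b : ℤ, a = -12987 * d ^ 2 → b = -263466 * d ^ 3 → BSD a b r} : ℝ) /
        (Set.ncard {d : ℤ | |d| ≤ X ∧ Squarefree d ∧ d % 4 = 1 ∧ ¬ 3 ∣ d ∧ ¬ 5 ∣ d} : ℝ))
      atTop (𝓝 (1 / 2)) := by
  refine half_of (P := fun r d => ∀ a b : ℤ, a = -12987 * d ^ 2 → b = -263466 * d ^ 3 → BSD a b r)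
    (fun d h0 h1 => ?_) (fun ε h => ?_) hr
  · obtain ⟨F, -, -, f1, -, f2⟩ := h0 _ _ rfl rfl
    obtain ⟨G, -, -, g1, -, g2⟩ := h1 _ _ rfl rfl
    exact absurd (f2.symm.trans (f1.trans (g1.symm.trans g2))) (by decide)
  · obtain ⟨X0, h1⟩ := smithStmt ε h
    refine ⟨X0, fun X hX => le_trans (Nat.cast_le.2 (card_le_card fun d hd => ?_)) (h1 X hX)⟩
    rw [mem_filter] at hd ⊢
    obtain ⟨h2, ⟨h3, h4, h5, h6⟩, h7⟩ := hd
    refine ⟨h2, h3, fun k => h7 ?_⟩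
    rintro a b rfl rfl
    have := bsd_all smithStmt ⟨h3, h4, h5, h6⟩ k
    split_ifs at this ⊢ <;> exact_mod_cast this

end Pool.Agent.Lib.MP_696deb_nt.B2
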