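import Pool.Agent.Lib.MP_696deb_nt.B2.GZa
import Pool.Agent.Lib.MP_696deb_nt.C5Final
import Pool.Agent.Lib.MP_696deb_nt.ReFinal

set_option autoImplicit false

open Finset NumberTheorySymbols

namespace Pool.Agent.Lib.MP_696deb_nt.B2

theorem gzd_loc {N : ℕ} (h0 : N ≠ 0) {p : ℕ} (hp : p.Prime)
    (hd : (p : ℤ) ∣ 2 * (81 * 225 * 144) ^ 2 * (N : ℤ) ^ 6) :
    loc (xi N) a15 (fun p => if p ∣ 15 then 0 else p) p 1 ≠ 0 := by
  refine loc_one_ne_zero _ _ _ hp.ne_zero ?_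
  by_cases hN : p ∣ N
  · left
    have hg : Int.gcd (p : ℤ) N ≠ 1 := by
      rw [Int.gcd_natCast_natCast]
      exact fun h => (Nat.Prime.coprime_iff_not_dvd hp).mp h hN
    have : NeZero N := ⟨h0⟩
    rw [xi, jacobiSym.eq_zero_iff_not_coprime.mpr hg]
    simp
  rcases xi_cases N p with h | h
  · exact Or.inl h
  refine Or.inr ⟨h, ?_⟩
  have hP := Nat.prime_iff_prime_int.mp hp
  have h1 : (p : ℤ) ∣ 2 * (81 * 225 * 144) ^ 2 :=
    (hP.dvd_or_dvd hd).resolve_right fun h' => hN (by exact_mod_cast hP.dvd_of_dvd_pow h')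
  have h2 : (p : ℤ) ∣ 30 ^ 16 := h1.trans (by norm_num)
  have h3 : p ∣ 2 * 3 * 5 := by exact_mod_cast hP.dvd_of_dvd_pow h2
  rcases (Nat.Prime.dvd_mul hp).mp h3 with h | h
  · rcases (Nat.Prime.dvd_mul hp).mp h with h | h
    · obtain rfl := (Nat.prime_dvd_prime_iff_eq hp Nat.prime_two).mp h
      norm_num [a15_two]
    · obtain rfl := (Nat.prime_dvd_prime_iff_eq hp Nat.prime_three).mp h
      norm_num [a15_three]
  · obtain rfl := (Nat.prime_dvd_prime_iff_eq hp Nat.prime_five).mp h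
    norm_num [a15_five]

theorem gzd_trace {d : ℤ} (h4 : d % 4 = 1) {p : ℕ} (hp : p.Prime) (h30 : ¬ p ∣ 30)
    (hN : ¬ p ∣ d.natAbs) :
    xi d.natAbs p * a15 p = (p : ℂ) - (Nat.card {q : ZMod p × ZMod p //
      q.2 ^ 2 = q.1 ^ 3 + ((-12987 * d ^ 2 : ℤ) : ZMod p) * q.1 +
        ((-263466 * d ^ 3 : ℤ) : ZMod p)} : ℂ) := by
  obtain ⟨N, rfl | rfl⟩ := Int.eq_nat_or_neg d
  · exact Re.trace_real (N := N) (by omega) rfl rfl hp h30 hN
  · rw [Int.natAbs_neg, Int.natAbs_natCast] at hN ⊢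
    exact trace_twist (N := N) (by omega) (by ring) (by ring) hp h30 hN

/-- A simple zero of the twisted series and rank one give the statement for the twist. -/
theorem bsd_of_deriv2 {d : ℤ} (hd : Squarefree d) (h4 : d % 4 = 1) (h3 : ¬ 3 ∣ d) (h5 : ¬ 5 ∣ d)
    (hJ : J(-15 | d.natAbs) = -1)
    (h1 : deriv (fun s => ∑ k ∈ range d.natAbs, (J((k : ℤ) | d.natAbs) : ℂ) *
      Ladd k d.natAbs s) 1 ≠ 0)
    (hf : Module.Finite ℤ (twist15 d).toAffine.Point)
    (hr : Module.finrank ℤ (twist15 d).toAffine.Point = 1) :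
    BSD (-12987 * d ^ 2) (-263466 * d ^ 3) 1 := by
  have hc : d.natAbs.Coprime 15 := Nat.Coprime.mul_right (m := 3) (n := 5)
    ((Nat.prime_three.coprime_iff_not_dvd.mpr (by omega)).symm)
    ((Nat.prime_five.coprime_iff_not_dvd.mpr (by omega)).symm)
  have ho : Odd d.natAbs := Nat.odd_iff.mpr (by omega)
  have hs := Int.squarefree_natAbs.mpr hd
  have h0 := perA_eq_zero2 ⟨hs, ho, hc⟩ hJ
  have htr := fun p => gzd_trace (p := p) h4
  have hM : 2 * (-4 * (-12987 * d ^ 2) ^ 3 - 27 * (-263466 * d ^ 3) ^ 2) =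
      2 * (81 * 225 * 144) ^ 2 * (d.natAbs : ℤ) ^ 6 := by
    rw [Int.natCast_natAbs, Even.pow_abs (by norm_num)]
    ring
  generalize d.natAbs = N at *
  have hN0 : (N : ℤ) ≠ 0 := by exact_mod_cast hs.ne_zero
  obtain ⟨τ, hτ, hL⟩ := sum_Ladd_eq ho hs
  set H := fun s => ∑ k ∈ range N, (J((k : ℤ) | N) : ℂ) * Ladd k N s with hH
  have dH : Differentiable ℂ H :=
    Differentiable.fun_sum fun k _ => (Ladd_differentiable k hN0).const_mul _
  set P := fun s => ∏ p ∈ (2 * (-4 * (-12987 * d ^ 2) ^ 3 -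
    27 * (-263466 * d ^ 3) ^ 2)).natAbs.primeFactors,
    loc (xi N) a15 (fun p => if p ∣ 15 then 0 else p) p s with hP
  have dP : Differentiable ℂ P := Differentiable.fun_finsetProd fun p hp =>
    loc_differentiable _ _ _ (Nat.mem_primeFactors.mp hp).1.ne_zero
  have P1 : P 1 ≠ 0 := prod_ne_zero_iff.mpr fun p hp =>
    gzd_loc hs.ne_zero (Nat.mem_primeFactors.mp hp).1
      (hM ▸ Int.natCast_dvd.mpr (Nat.mem_primeFactors.mp hp).2.1)
  have H1 : H 1 = 0 := by simpa only [hH, Ladd_one _ hN0, perA] using h0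
  have dF : Differentiable ℂ fun s => P s * (τ * H s) := dP.mul (dH.const_mul τ)
  have key : analyticOrderAt (fun s => P s * (τ * H s)) 1 = 1 := by
    refine (dF.analyticAt 1).analyticOrderAt_eq_one_of_zero_deriv_ne_zero (by simp [H1]) ?_
    rw [((dP 1).hasDerivAt.fun_mul ((dH 1).hasDerivAt.const_mul τ)).deriv, H1, mul_zero, mul_zero,
      zero_add]
    exact mul_ne_zero P1 (mul_ne_zero hτ h1)
  refine ⟨_, dF, fun s hs' => ?_, key.trans (by exact_mod_cast hr.symm), hf, key⟩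
  rw [hL s hs']
  refine hasProd_frozen hecke15 (xi_one N) (xi_mul N)
    (summable_twist (norm_xi_le N) (a15_summable hs')) (by rw [hM]; positivity) _ fun p hp hd => ?_
  rw [hM] at hd
  have h30 : ¬ p ∣ 30 := fun h => hd (by
    have : (p : ℤ) ∣ 30 := by exact_mod_cast h
    exact (this.trans (by norm_num)).mul_right _)
  have hN : ¬ p ∣ N := fun h => hd (by
    have : (p : ℤ) ∣ N := by exact_mod_cast h
    exact (this.trans (dvd_pow_self _ (by norm_num))).mul_left _)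
  have h15 : ¬ p ∣ 15 := fun h => h30 (h.trans (by norm_num))
  refine ⟨htr p hp h30 hN, ?_, by simp [h15]⟩
  have : Int.gcd (p : ℤ) N = 1 := by
    rw [Int.gcd_natCast_natCast]; exact (Nat.Prime.coprime_iff_not_dvd hp).mpr hN
  rw [xi]
  exact_mod_cast jacobiSym.sq_one this

end Pool.Agent.Lib.MP_696deb_nt.B2
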