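import Mathlib

/-! The Selmer groups of two-power level of an elliptic curve over the rational numbers. -/

set_option autoImplicit false

open scoped Classical

namespace Pool.Agent.Lib.MP_696deb_nt.B2.Stmt

/-- The group of points of `W` over a field of characteristic zero. -/
abbrev Pts (W : WeierstrassCurve ℚ) (F : Type) [Field F] [CharZero F] : Type :=
  (W.baseChange F).toAffine.Point

/-- The map on points induced by a homomorphism of fields. -/
noncomputable def pm (W : WeierstrassCurve ℚ) {F F' : Type} [Field F] [CharZero F] [Field F']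
    [CharZero F'] (f : F →+* F') : Pts W F → Pts W F' :=
  WeierstrassCurve.Affine.Point.map (W' := W.toAffine) f.toRatAlgHom

/-- The absolute Galois group of a field, with its Krull topology. -/
abbrev AbsGal (F : Type) [Field F] : Type := AlgebraicClosure F ≃ₐ[F] AlgebraicClosure F

/-- The cochain `ξ` becomes a coboundary over the field `F`. -/
def LocTriv (W : WeierstrassCurve ℚ) (F : Type) [Field F] [CharZero F]
    (ξ : AbsGal ℚ → Pts W (AlgebraicClosure ℚ)) : Prop :=
  ∀ j : AlgebraicClosure ℚ →+* AlgebraicClosure F, ∃ S : Pts W (AlgebraicClosure F),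
    ∀ (s : AbsGal F) (σ : AbsGal ℚ), (∀ x, j (σ x) = s (j x)) →
      pm W j (ξ σ) = pm W (s : AlgebraicClosure F →+* AlgebraicClosure F) S - S

/-- Continuous one-cocycles with values in the `n`-torsion points that are coboundaries in the
group of all points over every completion. Their classes form the `n`-Selmer group. -/
def IsSel (W : WeierstrassCurve ℚ) (n : ℕ) (ξ : AbsGal ℚ → Pts W (AlgebraicClosure ℚ)) : Prop :=
  IsLocallyConstant ξ ∧ (∀ σ, n • ξ σ = 0) ∧
    (∀ σ τ, ξ (σ * τ) = ξ σ + pm W (σ : AlgebraicClosure ℚ →+* AlgebraicClosure ℚ) (ξ τ)) ∧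
    LocTriv W ℝ ξ ∧ ∀ (p : ℕ) [Fact p.Prime], LocTriv W ℚ_[p] ξ

/-- Two cocycles define the same class with coefficients in the `n`-torsion points. -/
def Cohom (W : WeierstrassCurve ℚ) (n : ℕ) (ξ η : AbsGal ℚ → Pts W (AlgebraicClosure ℚ)) : Prop :=
  ∃ S, n • S = 0 ∧
    ∀ σ, ξ σ - η σ = pm W (σ : AlgebraicClosure ℚ →+* AlgebraicClosure ℚ) S - S

/-- The order of the `2 ^ k`-Selmer group is at most a constant times `2 ^ (r k)`; this says that
the `2 ^ ∞`-Selmer group has corank at most `r`. -/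
def CorankLE (W : WeierstrassCurve ℚ) (r : ℕ) : Prop :=
  ∃ C : ℕ, ∀ (k : ℕ) (s : Finset (AbsGal ℚ → Pts W (AlgebraicClosure ℚ))),
    (∀ ξ ∈ s, IsSel W (2 ^ k) ξ) → (∀ ξ ∈ s, ∀ η ∈ s, Cohom W (2 ^ k) ξ η → ξ = η) →
    s.card ≤ C * 2 ^ (r * k)

end Pool.Agent.Lib.MP_696deb_nt.B2.Stmt
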