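import Pool.Agent.Lib.MP_696deb_nt.B2.CH2

set_option autoImplicit false

open scoped Classical
open NumberTheorySymbols

namespace Pool.Agent.Lib.MP_696deb_nt.B2

theorem m_cheb : ChebStmt := cheb

end Pool.Agent.Lib.MP_696deb_nt.B2
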