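import Pool.Agent.Lib.MP_696deb_nt.B2.MU1
import Pool.Agent.Lib.MP_696deb_nt.B2.D1

/-! Quadratic characters of ring class fields are genus characters. -/

set_option autoImplicit false

open scoped NNReal Classical

namespace Pool.Agent.Lib.MP_696deb_nt.B2

theorem quad : QuadStmt := by
  intro n c χ hn c0 hc h1 h2 h3 h4
  have m4 := hn.mod4
  have n0 : 0 < n := by omega
  have k0 := cc_notMem n0
  obtain ⟨χ', s1, s2, s3, -⟩ := exists_ext n0 0 h1 h2 fun g hg => by
    have k1 : cc * g ∉ GK n := fun h => k0 (by simpa using mul_mem h (inv_mem hg))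
    have := h3 _ k1
    rw [← mul_assoc, h2 _ (conj_cc_mem hg) g hg] at this
    linear_combination this - mu1_two (χ g)
  obtain ⟨e, e1, e2, e3, e4⟩ := quad_class (n := n * c)
    (by exact_mod_cast (Nat.odd_iff.2 (by omega)).mul hc) s1 s2 fun w hw σ hσ => by
      have k1 := ine_le_GK' m4 (fun k => hw (k.mul_right _)) hσ
      rw [s3 σ k1, h4 w (fun k => hw (Dvd.dvd.mul_left (by exact_mod_cast k) _)) σ ⟨k1, hσ⟩]
  exact ⟨e, e3, e1, e2, fun g hg => (s3 g hg).symm.trans (e4 g)⟩

end Pool.Agent.Lib.MP_696deb_nt.B2
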