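import Pool.Agent.Lib.MP_696deb_nt.B2.PAb

set_option autoImplicit false

open scoped Classical
open Finset Matrix PowerSeries Filter Submodule LinearMap

namespace Pool.Agent.Lib.MP_696deb_nt.B2.PA

theorem pad_cnt {J : Type} {r : ℕ} (R : Submodule Lam (Fr J)) (e : Fin r → J)
    (he : R ⊔ span Lam (Set.range fun i => sg (e i)) = ⊤) (I : Ideal Lam) :
    cnt R I = cnt (R.comap (Ev e)) I := by
  have hs : Function.Surjective (R.mkQ ∘ₗ Ev e) := by
    rw [← LinearMap.range_eq_top, LinearMap.range_comp, Ev, Fintype.range_linearCombination,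
      Submodule.map_mkQ_eq_top, he]
  have hk : ker (R.mkQ ∘ₗ Ev e) = R.comap (Ev e) := by rw [LinearMap.ker_comp, ker_mkQ]
  refine Nat.card_eq_of_bijective (fun t => ⟨t.1 ∘ₗ Ev e, fun x hx => t.2 hx⟩) ⟨?_, ?_⟩
  · intro t t' h
    have h1 : t.1 ∘ₗ Ev e = t'.1 ∘ₗ Ev e := congrArg Subtype.val h
    refine Subtype.ext (LinearMap.ext fun x => ?_)
    obtain ⟨y, hy⟩ := hs (R.mkQ x)
    have h2 : x - Ev e y ∈ R := by
      rw [← Submodule.Quotient.eq]
      exact hy.symm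
    have h3 := t.2 h2
    have h4 := t'.2 h2
    rw [LinearMap.mem_ker, map_sub, sub_eq_zero] at h3 h4
    rw [h3, h4]
    exact LinearMap.congr_fun h1 y
  · intro t
    refine ⟨⟨((ker (R.mkQ ∘ₗ Ev e)).liftQ t.1 (hk.le.trans t.2)) ∘ₗ
      ((R.mkQ ∘ₗ Ev e).quotKerEquivOfSurjective hs).symm.toLinearMap ∘ₗ R.mkQ, fun x hx => ?_⟩,
      Subtype.ext (LinearMap.ext fun x => ?_)⟩
    · rw [LinearMap.mem_ker, LinearMap.comp_apply, LinearMap.comp_apply, mkQ_apply,
        (Submodule.Quotient.mk_eq_zero _).2 hx, map_zero, map_zero]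
    · have : ((R.mkQ ∘ₗ Ev e).quotKerEquivOfSurjective hs).symm (R.mkQ (Ev e x)) =
          Submodule.Quotient.mk x := by
        rw [LinearEquiv.symm_apply_eq]
        rfl
      simp only [LinearMap.comp_apply, LinearEquiv.coe_coe, this, liftQ_apply]

theorem pad_res (c : Lam) : c ∈ aa 1 1 ∨ c - 1 ∈ aa 1 1 := by
  have h : ∀ x : ℤ_[2], PadicInt.toZMod x = 0 ↔ (2 : ℤ_[2]) ^ 1 ∣ x := fun x => by
    rw [← RingHom.mem_ker, PadicInt.ker_toZMod, PadicInt.maximalIdeal_eq_span_p,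
      Ideal.mem_span_singleton, Nat.cast_ofNat, pow_one]
  have h2 : ∀ y : ZMod 2, y = 0 ∨ y - 1 = 0 := by decide
  rcases h2 (PadicInt.toZMod (coeff 0 c)) with h0 | h0
  · refine Or.inl (mem_aa.2 fun n hn => ?_)
    obtain rfl : n = 0 := by omega
    exact (h _).1 h0
  · refine Or.inr (mem_aa.2 fun n hn => ?_)
    obtain rfl : n = 0 := by omega
    refine (h _).1 ?_
    rw [map_sub, map_sub, coeff_zero_one, map_one]
    exact h0

theorem pad_kill {k : ℕ} (hk : 1 ≤ k) {b : Lam} (hb : b ∈ aa 1 1) :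
    b • (Ideal.Quotient.mk (aa k k) ((2 * X) ^ (k - 1))) = 0 :=
  Ideal.Quotient.eq_zero_iff_mem.2
    ((soc_iff hk).1 (mem_sup_right (Ideal.mem_span_singleton_self _)) b hb)

theorem pad_soc {k : ℕ} (hk : 1 ≤ k) {x : Ak k}
    (hx : Ideal.Quotient.factor (le_sup_left (b := Ideal.span {(2 * X) ^ (k - 1)})) x = 0) :
    x = 0 ∨ x = Ideal.Quotient.mk (aa k k) ((2 * X) ^ (k - 1)) := by
  obtain ⟨x, rfl⟩ := Ideal.Quotient.mk_surjective x
  rw [Ideal.Quotient.factor_mk, Ideal.Quotient.eq_zero_iff_mem] at hx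
  obtain ⟨y, hy, z, hz, rfl⟩ := Submodule.mem_sup.1 hx
  obtain ⟨c, rfl⟩ := Ideal.mem_span_singleton'.1 hz
  rw [map_add, Ideal.Quotient.eq_zero_iff_mem.2 hy, zero_add]
  rcases pad_res c with h | h
  · exact Or.inl (pad_kill hk h)
  · have := pad_kill hk h
    rw [sub_smul, one_smul, sub_eq_zero] at this
    exact Or.inr this

theorem pad_min {F : Type} [AddCommGroup F] [Module Lam F] (R A : Submodule Lam F) (hR : R.FG)
    (hA : A ≤ R) : ∃ (n : ℕ) (g : Fin n → F), R = span Lam (Set.range g) ⊔ A ∧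
      ∀ c : Fin n → Lam, ∑ i, c i • g i ∈ A → ∀ i, c i ∈ aa 1 1 := by
  have h0 : ∃ n, ∃ g : Fin n → F, R = span Lam (Set.range g) ⊔ A := by
    obtain ⟨n, g, hg⟩ := Submodule.fg_iff_exists_fin_generating_family.1 hR
    exact ⟨n, g, by rw [hg, sup_eq_left.2 hA]⟩
  obtain ⟨g, hg⟩ := Nat.find_spec h0
  have h1 := fun m => Nat.find_min h0 (m := m)
  generalize Nat.find h0 = n at g hg h1
  refine ⟨n, g, hg, fun c hc j => by_contra fun hj => ?_⟩
  obtain ⟨n, rfl⟩ : ∃ m, n = m + 1 := ⟨n - 1, by have := j.pos; omega⟩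
  rw [← max_eq, IsLocalRing.notMem_maximalIdeal] at hj
  refine h1 n n.lt_succ_self ⟨fun i => g (j.succAbove i), le_antisymm ?_ ?_⟩
  · rw [hg, sup_le_iff, span_le]
    refine ⟨?_, le_sup_right⟩
    have h2 : ∀ i, g (j.succAbove i) ∈ span Lam (Set.range fun i => g (j.succAbove i)) ⊔ A :=
      fun i => mem_sup_left (subset_span ⟨i, rfl⟩)
    rintro _ ⟨i, rfl⟩
    refine Fin.succAboveCases j ?_ h2 i
    rw [Fin.sum_univ_succAbove _ j] at hc
    have h3 := sub_mem (mem_sup_right hc) (sum_mem fun i (_ : i ∈ univ) =>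
      smul_mem _ (c (j.succAbove i)) (h2 i))
    rw [add_sub_cancel_right] at h3
    exact (smul_mem_iff_of_isUnit _ hj).1 h3
  · rw [hg]
    refine sup_le_sup_right (span_mono ?_) _
    rintro _ ⟨i, rfl⟩
    exact ⟨_, rfl⟩

theorem pad_fun {F : Type} [AddCommGroup F] [Module Lam F] {k n : ℕ} (hk : 1 ≤ k) (g : Fin n → F)
    (hg : ∀ c : Fin n → Lam, ∑ i, c i • g i ∈ (aa k k • ⊤ : Submodule Lam F) → ∀ i, c i ∈ aa 1 1)
    (ε : Fin n → Bool) : ∃ t : F →ₗ[Lam] Ak k, ∀ i,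
      t (g i) = if ε i then Ideal.Quotient.mk (aa k k) ((2 * X) ^ (k - 1)) else 0 := by
  let φ := (aa k k • ⊤ : Submodule Lam F).mkQ ∘ₗ Fintype.linearCombination Lam g
  let ψ : (Fin n → Lam) →ₗ[Lam] Ak k := Fintype.linearCombination Lam fun i =>
    if ε i then Ideal.Quotient.mk (aa k k) ((2 * X) ^ (k - 1)) else 0
  have h1 : ker φ ≤ ker ψ := fun c hc => by
    rw [LinearMap.mem_ker, LinearMap.comp_apply, mkQ_apply, Submodule.Quotient.mk_eq_zero,
      Fintype.linearCombination_apply] at hc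
    rw [LinearMap.mem_ker, Fintype.linearCombination_apply]
    refine sum_eq_zero fun i _ => ?_
    split_ifs
    · exact pad_kill hk (hg c hc i)
    · exact smul_zero _
  obtain ⟨t, ht⟩ := frob_ext (k := k) (M := F ⧸ (aa k k • ⊤ : Submodule Lam F)) (fun a ha y => by
    obtain ⟨y, rfl⟩ := Submodule.Quotient.mk_surjective _ y
    rw [← Submodule.Quotient.mk_smul, Submodule.Quotient.mk_eq_zero]
    exact smul_mem_smul ha mem_top) (range φ)
    ((ker φ).liftQ ψ h1 ∘ₗ φ.quotKerEquivRange.symm.toLinearMap)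
  refine ⟨t ∘ₗ mkQ _, fun i => ?_⟩
  have h2 : t (φ (Pi.single i 1)) = (ker φ).liftQ ψ h1 (φ.quotKerEquivRange.symm
    ⟨φ (Pi.single i 1), mem_range_self _ _⟩) := ht ⟨φ (Pi.single i 1), mem_range_self _ _⟩
  rw [LinearMap.quotKerEquivRange_symm_apply_image, mkQ_apply, liftQ_apply] at h2
  simpa [φ, ψ, Fintype.linearCombination_apply_single] using h2

theorem pad_fin {r : ℕ} {B : Type} [AddCommGroup B] [Module Lam B] [Finite B] :
    Finite ((Fin r → Lam) →ₗ[Lam] B) :=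
  Finite.of_injective (fun t i => t (Pi.basisFun Lam (Fin r) i))
    fun _ _ h => (Pi.basisFun Lam (Fin r)).ext fun i => congrFun h i

theorem pad_le {k r n : ℕ} (hk : 1 ≤ k) (R : Submodule Lam (Fin r → Lam))
    (g : Fin n → Fin r → Lam) (hR : R = span Lam (Set.range g) ⊔ aa k k • ⊤)
    (hg : ∀ c : Fin n → Lam, ∑ i, c i • g i ∈ (aa k k • ⊤ : Submodule Lam (Fin r → Lam)) →
      ∀ i, c i ∈ aa 1 1)
    (h : cnt R (aa k k ⊔ Ideal.span {(2 * X) ^ (k - 1)}) ≤ cnt R (aa k k)) : n ≤ r := by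
  choose t ht using pad_fun hk g hg
  set I : Ideal Lam := aa k k ⊔ Ideal.span {(2 * X) ^ (k - 1)} with hI
  have hle : aa k k ≤ I := le_sup_left
  let π : Ak k →ₗ[Lam] Lam ⧸ I := Submodule.factor hle
  have hπ : ∀ x, π x = Ideal.Quotient.factor hle x := fun x => by
    obtain ⟨x, rfl⟩ := Ideal.Quotient.mk_surjective x
    rfl
  have hs : Function.Surjective π := Submodule.factor_surjective hle
  have : Finite (Lam ⧸ I) := Finite.of_surjective π hs
  have f1 := pad_fin (r := r) (B := Lam ⧸ I)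
  have f2 := pad_fin (r := r) (B := Ak k)
  obtain ⟨σ, hσ⟩ := hs.hasRightInverse
  have hne : Ideal.Quotient.mk (aa k k) ((2 * X) ^ (k - 1)) ≠ 0 :=
    fun h => soc_ne hk (Ideal.Quotient.eq_zero_iff_mem.1 h)
  have hgR : ∀ i, g i ∈ R := fun i => hR ▸ mem_sup_left (subset_span ⟨i, rfl⟩)
  have h1 : ∀ ε, R ≤ ker (π ∘ₗ t ε) := fun ε => by
    rw [hR, sup_le_iff, span_le]
    constructor
    · rintro _ ⟨i, rfl⟩
      rw [SetLike.mem_coe, LinearMap.mem_ker, LinearMap.comp_apply, ht]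
      split_ifs
      · rw [hπ, Ideal.Quotient.factor_mk, Ideal.Quotient.eq_zero_iff_mem]
        exact mem_sup_right (Ideal.mem_span_singleton_self _)
      · exact map_zero _
    · refine smul_le.2 fun a ha x _ => ?_
      rw [LinearMap.mem_ker, map_smul]
      obtain ⟨y, hy⟩ := Ideal.Quotient.mk_surjective ((π ∘ₗ t ε) x)
      rw [← hy]
      exact Ideal.Quotient.eq_zero_iff_mem.2 (I.mul_mem_right y (hle ha))
  let Φ : (Fin n → Bool) × {u : (Fin r → Lam) →ₗ[Lam] Ak k // R ≤ ker u} →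
      (Fin r → Bool) × {u : (Fin r → Lam) →ₗ[Lam] Lam ⧸ I // R ≤ ker u} := fun p =>
    (fun i => decide ((t p.1 + p.2.1) (Pi.basisFun Lam (Fin r) i) =
        σ (π ((t p.1 + p.2.1) (Pi.basisFun Lam (Fin r) i)))),
      ⟨π ∘ₗ (t p.1 + p.2.1), fun x hx => by
        have a1 : π (t p.1 x) = 0 := h1 p.1 hx
        have a2 : p.2.1 x = 0 := p.2.2 hx
        rw [LinearMap.mem_ker, LinearMap.comp_apply, LinearMap.add_apply, a2, add_zero, a1]⟩)
  have hΦ : Function.Injective Φ := fun p q hpq => by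
    have a1 := congrArg Prod.fst hpq
    have a2 := congrArg (fun z => z.2.1) hpq
    have a3 : t p.1 + p.2.1 = t q.1 + q.2.1 := (Pi.basisFun Lam (Fin r)).ext fun i => by
      have b1 := congrFun a1 i
      have b2 : π ((t p.1 + p.2.1) (Pi.basisFun Lam (Fin r) i)) =
        π ((t q.1 + q.2.1) (Pi.basisFun Lam (Fin r) i)) := LinearMap.congr_fun a2 _
      simp only [Φ, decide_eq_decide] at b1
      generalize (t p.1 + p.2.1) (Pi.basisFun Lam (Fin r) i) = x at b1 b2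
      generalize (t q.1 + q.2.1) (Pi.basisFun Lam (Fin r) i) = y at b1 b2
      have c : ∀ z, z - σ (π z) = 0 ∨
          z - σ (π z) = Ideal.Quotient.mk (aa k k) ((2 * X) ^ (k - 1)) := fun z =>
        pad_soc hk (by rw [← hπ, map_sub, hσ, sub_self])
      by_cases d : x = σ (π x)
      · rw [d, b2, ← b1.1 d]
      · have d1 := (c x).resolve_left (mt sub_eq_zero.1 d)
        have d2 := (c y).resolve_left (mt sub_eq_zero.1 (mt b1.2 d))
        rw [b2, ← d2] at d1
        exact sub_left_injective d1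
    have a4 : p.1 = q.1 := funext fun i => by
      have b1 := LinearMap.congr_fun a3 (g i)
      have b2 : p.2.1 (g i) = 0 := p.2.2 (hgR i)
      have b3 : q.2.1 (g i) = 0 := q.2.2 (hgR i)
      rw [LinearMap.add_apply, LinearMap.add_apply, b2, b3, add_zero, add_zero, ht, ht] at b1
      cases hp : p.1 i <;> cases hq : q.1 i <;> simp_all
    rw [a4, add_right_inj] at a3
    exact Prod.ext a4 (Subtype.ext a3)
  have h2 := Nat.card_le_card_of_injective Φ hΦ
  rw [Nat.card_prod, Nat.card_prod, Nat.card_fun, Nat.card_fun, Nat.card_eq_fintype_card,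
    Fintype.card_bool, Nat.card_fin, Nat.card_fin] at h2
  have h3 : 0 < cnt R (aa k k) := by
    have : Nonempty {u : (Fin r → Lam) →ₗ[Lam] Ak k // R ≤ ker u} := ⟨⟨0, by simp⟩⟩
    exact Nat.card_pos
  have h4 : 2 ^ n * cnt R (aa k k) ≤ 2 ^ r * cnt R (aa k k) :=
    h2.trans (Nat.mul_le_mul_left _ h)
  exact (Nat.pow_le_pow_iff_right one_lt_two).1 (Nat.le_of_mul_le_mul_right h4 h3)

theorem sq_pres {J : Type} {k r0 : ℕ} (hk : 1 ≤ k) (R : Submodule Lam (Fr J))
    (hR : aa k k • ⊤ ≤ R) (hG : PGen r0 R)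
    (h : cnt R (aa k k ⊔ Ideal.span {(2 * X) ^ (k - 1)}) ≤ cnt R (aa k k)) : SqP r0 k R := by
  obtain ⟨e, he⟩ := hG
  rw [pad_cnt R e he, pad_cnt R e he] at h
  obtain ⟨n, g, h1, h2⟩ := pad_min (R.comap (Ev e)) (aa k k • ⊤) (IsNoetherian.noetherian _)
    (smul_le.2 fun a ha x _ => by
      rw [Submodule.mem_comap, map_smul]
      exact hR (smul_mem_smul ha mem_top))
  have h3 := pad_le hk _ g h1 h2 h
  refine ⟨r0, le_rfl, e, Matrix.of fun i j => if hj : j.1 < n then g ⟨j, hj⟩ i else 0, he, ?_⟩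
  rw [h1, Matrix.range_mulVecLin]
  congr 1
  refine le_antisymm (span_mono ?_) (span_le.2 ?_)
  · rintro _ ⟨i, rfl⟩
    exact ⟨⟨i, i.2.trans_le h3⟩, funext fun j => by simp [Matrix.col]⟩
  · rintro _ ⟨j, rfl⟩
    by_cases hj : j.1 < n
    · exact subset_span ⟨⟨j, hj⟩, funext fun i => by simp [Matrix.col, hj]⟩
    · have : (Matrix.of fun i j : Fin r0 => if hj : j.1 < n then g ⟨j, hj⟩ i else 0).col j = 0 :=
        funext fun i => by simp [Matrix.col, hj]
      rw [this]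
      exact zero_mem _

end Pool.Agent.Lib.MP_696deb_nt.B2.PA
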