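import Pool.Agent.Lib.MP_696deb_nt.B2.PAa

set_option autoImplicit false

open scoped Classical
open Finset Matrix PowerSeries Filter Submodule LinearMap

namespace Pool.Agent.Lib.MP_696deb_nt.B2.PA

theorem PAg2_inj {π : Lam} [(Ideal.span {π}).IsPrime] :
    Function.Injective (algebraMap Lam (Localization.AtPrime (Ideal.span {π}))) :=
  IsLocalization.injective _ (Ideal.span {π}).primeCompl_le_nonZeroDivisors

theorem PAg2_max {π : Lam} [(Ideal.span {π}).IsPrime] :
    IsLocalRing.maximalIdeal (Localization.AtPrime (Ideal.span {π})) =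
      Ideal.span {algebraMap Lam (Localization.AtPrime (Ideal.span {π})) π} := by
  rw [← Localization.AtPrime.map_eq_maximalIdeal, Ideal.map_span, Set.image_singleton]

theorem PAg2_dvd {π : Lam} (hπ : Prime π) [(Ideal.span {π}).IsPrime] (f : Lam) (n : ℕ) :
    π ^ n ∣ f ↔ algebraMap Lam (Localization.AtPrime (Ideal.span {π})) π ^ n ∣
      algebraMap Lam (Localization.AtPrime (Ideal.span {π})) f := by
  refine ⟨fun h => map_pow (algebraMap Lam (Localization.AtPrime (Ideal.span {π}))) π n ▸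
    map_dvd _ h, ?_⟩
  rintro ⟨c, hc⟩
  obtain ⟨⟨a, b⟩, h⟩ := IsLocalization.surj (Ideal.span {π}).primeCompl c
  refine hπ.pow_dvd_of_dvd_mul_right n (fun hb => b.2 (Ideal.mem_span_singleton.2 hb))
    ⟨a, PAg2_inj (π := π) ?_⟩
  rw [map_mul, map_mul, map_pow, hc, mul_assoc, h]

theorem PAg2_two {f : Lam} (h : (2 : Lam) ∣ f) : PowerSeries.map PadicInt.toZMod f = 0 := by
  obtain ⟨c, rfl⟩ := h
  have h2 : (2 : PowerSeries (ZMod 2)) = 0 := by
    rw [← map_ofNat (C (R := ZMod 2)) 2, show (2 : ZMod 2) = 0 from rfl, map_zero]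
  rw [map_mul, map_ofNat, h2, zero_mul]

theorem dvr_at {π : Lam} (hπ : Prime π) [(Ideal.span {π}).IsPrime] :
    IsDiscreteValuationRing (Localization.AtPrime (Ideal.span {π})) := by
  have h : ¬IsField (Localization.AtPrime (Ideal.span {π})) := fun h => by
    have h1 := IsLocalRing.isField_iff_maximalIdeal_eq.1 h
    rw [PAg2_max, Ideal.span_singleton_eq_bot] at h1
    exact hπ.ne_zero (PAg2_inj (h1.trans (map_zero _).symm))
  have h2 : (IsLocalRing.maximalIdeal (Localization.AtPrime (Ideal.span {π}))).IsPrincipal :=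
    ⟨⟨_, PAg2_max⟩⟩
  exact ((IsDiscreteValuationRing.TFAE _ h).out 0 4).2 h2

theorem ord_at {π : Lam} (hπ : Prime π) [(Ideal.span {π}).IsPrime] (f : Lam) (n : ℕ) :
    π ^ n ∣ f ↔ (n : ℕ∞) ≤ Ring.ord (Localization.AtPrime (Ideal.span {π}))
      (algebraMap Lam (Localization.AtPrime (Ideal.span {π})) f) := by
  have := dvr_at hπ
  rw [Ring.ord_eq_addVal, PAg2_dvd hπ, ← IsDiscreteValuationRing.addVal_le_iff_dvd,
    IsDiscreteValuationRing.addVal_pow, IsDiscreteValuationRing.addVal_uniformizer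
      ((IsDiscreteValuationRing.irreducible_iff_uniformizer _).2 PAg2_max), nsmul_one]

theorem dvd_of_primes {f g : Lam} (hf : lamb f ≠ ⊤)
    (h : ∀ π : Lam, Prime π → ¬ π ∣ 2 → ∀ n, π ^ n ∣ f → π ^ n ∣ g) : f ∣ g := by
  have h2 : ¬(2 : Lam) ∣ f := fun h2 => hf (by rw [lamb, PAg2_two h2, order_zero])
  refine (UniqueFactorizationMonoid.dvd_iff_emultiplicity_le fun h0 => h2 ⟨0, by simp [h0]⟩).2
    fun p hp => emultiplicity_le_emultiplicity_iff.2 fun n hn => ?_
  by_cases h3 : p ∣ 2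
  · rcases n with _ | n
    · rw [pow_zero]
      exact one_dvd _
    · exact absurd ((hp.associated_of_dvd prime_two h3).symm.dvd.trans
        ((dvd_pow_self p n.succ_ne_zero).trans hn)) h2
  · exact h p hp h3 n hn

theorem unit_ref {f w : Lam} {m : ℕ} (hf : f ∈ aa m 1) (hg : f * w ∉ aa (m + 1) 1) :
    IsUnit w := by
  by_contra h
  have h1 : w ∈ aa 1 1 := max_eq ▸ (IsLocalRing.mem_maximalIdeal w).2 h
  refine hg (mem_aa.2 fun n hn => ?_)
  obtain rfl : n = 0 := by omega
  rw [coeff_zero_eq_constantCoeff_apply, map_mul, ← coeff_zero_eq_constantCoeff_apply,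
    ← coeff_zero_eq_constantCoeff_apply, pow_add]
  exact mul_dvd_mul (mem_aa.1 hf 0 hn) (mem_aa.1 h1 0 hn)

theorem lamb_mul (f g : Lam) : lamb (f * g) = lamb f + lamb g := by
  rw [lamb, map_mul, order_mul, lamb, lamb]

theorem lamb_congr {f g : Lam} (h : f - g ∈ Ideal.span {(2 : Lam)}) : lamb f = lamb g := by
  have h1 := PAg2_two (Ideal.mem_span_singleton.1 h)
  rw [map_sub, sub_eq_zero] at h1
  rw [lamb, h1, lamb]

theorem lamb_eq_zero {w : Lam} : lamb w = 0 ↔ IsUnit w := by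
  rw [← not_iff_not, lamb, ← Ne, order_ne_zero_iff_constCoeff_eq_zero, isUnit_iff_constantCoeff,
    ← mem_nonunits_iff, ← IsLocalRing.mem_maximalIdeal, ← PadicInt.ker_toZMod, RingHom.mem_ker,
    ← coeff_zero_eq_constantCoeff_apply, coeff_map, coeff_zero_eq_constantCoeff_apply]

theorem lamb_zero : lamb 0 = ⊤ := by
  rw [lamb, map_zero, order_zero]

end Pool.Agent.Lib.MP_696deb_nt.B2.PA
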