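import Pool.Agent.Lib.MP_696deb_nt.B2.PA1

set_option autoImplicit false

open scoped Classical
open Finset Matrix PowerSeries Filter Submodule LinearMap

namespace Pool.Agent.Lib.MP_696deb_nt.B2.PA

theorem mem_aa {j i : ℕ} {f : Lam} : f ∈ aa j i ↔ ∀ n < i, (2 : ℤ_[2]) ^ j ∣ coeff n f := by
  have h2 : (2 : Lam) ^ j = C ((2 : ℤ_[2]) ^ j) := by rw [map_pow, map_ofNat]
  rw [aa, Ideal.mem_span_pair]
  constructor
  · rintro ⟨a, b, rfl⟩ n hn
    rw [map_add, coeff_mul_X_pow', if_neg hn.not_ge, add_zero, h2, coeff_mul_C]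
    exact dvd_mul_left _ _
  · intro h
    choose! c hc using h
    obtain ⟨g, hg⟩ : (X : Lam) ^ i ∣ f - PowerSeries.mk c * 2 ^ j := X_pow_dvd_iff.2 fun n hn => by
      rw [map_sub, h2, coeff_mul_C, coeff_mk, hc n hn, mul_comm, sub_self]
    exact ⟨PowerSeries.mk c, g, by rw [mul_comm g, ← hg, add_sub_cancel]⟩

theorem aa_anti {j i j' i' : ℕ} (hj : j ≤ j') (hi : i ≤ i') : aa j' i' ≤ aa j i := by
  intro f hf
  rw [mem_aa] at hf ⊢
  exact fun n hn => (pow_dvd_pow _ hj).trans (hf n (hn.trans_le hi))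

theorem card_quot (j i : ℕ) : Nat.card (Lam ⧸ aa j i) = 2 ^ (j * i) := by
  let φ : Lam →+ (Fin i → ZMod (2 ^ j)) :=
    { toFun := fun f n => PadicInt.toZModPow j (coeff n f)
      map_zero' := by ext; simp
      map_add' := fun f g => by ext; simp }
  have hs : Function.Surjective φ := fun v => by
    refine ⟨PowerSeries.mk fun n => if h : n < i then ((v ⟨n, h⟩).val : ℤ_[2]) else 0, ?_⟩
    ext n
    simp [φ]
  have hk : φ.ker = (aa j i).toAddSubgroup := by
    ext f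
    rw [AddMonoidHom.mem_ker, Submodule.mem_toAddSubgroup, mem_aa, funext_iff]
    have : ∀ x : ℤ_[2], PadicInt.toZModPow j x = 0 ↔ (2 : ℤ_[2]) ^ j ∣ x := fun x => by
      rw [← RingHom.mem_ker, PadicInt.ker_toZModPow, Ideal.mem_span_singleton, Nat.cast_ofNat]
    exact ⟨fun h n hn => (this _).1 (h ⟨n, hn⟩), fun h n => (this _).2 (h n n.2)⟩
  have e := (QuotientAddGroup.quotientAddEquivOfEq hk.symm).trans
    (QuotientAddGroup.quotientKerEquivOfSurjective φ hs)
  rw [show Nat.card (Lam ⧸ aa j i) = Nat.card (Fin i → ZMod (2 ^ j)) from Nat.card_congr e.toEquiv,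
    Nat.card_fun, Nat.card_zmod, Nat.card_eq_fintype_card, Fintype.card_fin, pow_mul]

instance fin_quot (j i : ℕ) : Finite (Lam ⧸ aa j i) :=
  Nat.finite_of_card_ne_zero (by rw [card_quot]; positivity)

theorem max_eq : IsLocalRing.maximalIdeal Lam = aa 1 1 := by
  ext f
  rw [IsLocalRing.mem_maximalIdeal, mem_nonunits_iff, isUnit_iff_constantCoeff, mem_aa,
    ← mem_nonunits_iff, ← IsLocalRing.mem_maximalIdeal, PadicInt.maximalIdeal_eq_span_p,
    Ideal.mem_span_singleton]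
  simp

theorem ul_spec (y : ℕ → Lam) (j : ℕ) : ∀ᶠ k in UU, y k - ul y ∈ aa j j := by
  have h : ∀ n, ∀ᶠ k in UU, (2 : ℤ_[2]) ^ j ∣ coeff n (y k - ul y) := fun n => by
    have h1 := Ultrafilter.le_nhds_lim ((hyperfilter ℕ).map fun k => coeff n (y k))
    have h2 := h1 (Metric.closedBall_mem_nhds _ (ε := ((2 : ℕ) : ℝ) ^ (-j : ℤ)) (by positivity))
    refine Eventually.mono h2 fun k hk => ?_
    rw [map_sub, ul, coeff_mk, ← Ideal.mem_span_singleton]
    exact (PadicInt.norm_le_pow_iff_mem_span_pow _ j).1 (mem_closedBall_iff_norm.1 hk)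
  exact ((eventually_all_finite (Set.finite_lt_nat j)).2 fun n _ => h n).mono
    fun k hk => mem_aa.2 hk

theorem aa_le_pow (j : ℕ) : aa j j ≤ IsLocalRing.maximalIdeal Lam ^ j := by
  rw [max_eq, aa, Ideal.span_le]
  rintro _ (rfl | rfl) <;> refine Ideal.pow_mem_pow (Ideal.subset_span ?_) j <;> simp

theorem aa_closed {M : Type} [AddCommGroup M] [Module Lam M] [Module.Finite Lam M]
    (W : Submodule Lam M) {x : M} (h : ∀ j, x ∈ W ⊔ aa j j • ⊤) : x ∈ W := by
  rw [← Submodule.Quotient.mk_eq_zero, ← Submodule.mem_bot Lam,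
    ← Ideal.iInf_pow_smul_eq_bot_of_isLocalRing _ (IsLocalRing.maximalIdeal.isMaximal Lam).ne_top,
    Submodule.mem_iInf]
  intro j
  have h1 := Submodule.mem_map_of_mem (f := W.mkQ) (h j)
  rw [Submodule.map_sup, Submodule.mkQ_map_self, bot_sup_eq, Submodule.map_smul''] at h1
  exact Submodule.smul_mono (aa_le_pow j) le_top h1

theorem closedI (I : Ideal Lam) {x : Lam} (h : ∀ j, x ∈ I ⊔ aa j j) : x ∈ I := by
  exact aa_closed I fun j => by
    rw [smul_eq_mul, Ideal.mul_top]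
    exact h j

theorem closedM {r : ℕ} (W : Submodule Lam (Fin r → Lam)) {x : Fin r → Lam}
    (h : ∀ j, x ∈ W ⊔ aa j j • ⊤) : x ∈ W := by
  exact aa_closed W h

theorem ul_eq {y : ℕ → Lam} {a : Lam} (h : ∀ j, ∀ᶠ k in UU, y k - a ∈ aa j j) : ul y = a := by
  refine sub_eq_zero.1 (closedI ⊥ fun j => ?_)
  obtain ⟨k, h1, h2⟩ := ((h j).and (ul_spec y j)).exists
  rw [bot_sup_eq, show ul y - a = (y k - a) - (y k - ul y) by ring]
  exact sub_mem h1 h2

theorem ul_const (a : Lam) : ul (fun _ => a) = a := by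
  exact ul_eq fun j => Eventually.of_forall fun k => by simp

theorem ul_add (y z : ℕ → Lam) : ul (y + z) = ul y + ul z := by
  refine ul_eq fun j => ((ul_spec y j).and (ul_spec z j)).mono fun k hk => ?_
  rw [Pi.add_apply, add_sub_add_comm]
  exact add_mem hk.1 hk.2

theorem ul_mul (y z : ℕ → Lam) : ul (y * z) = ul y * ul z := by
  refine ul_eq fun j => ((ul_spec y j).and (ul_spec z j)).mono fun k hk => ?_
  rw [Pi.mul_apply, show y k * z k - ul y * ul z = z k * (y k - ul y) + ul y * (z k - ul z) by ring]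
  exact add_mem (Ideal.mul_mem_left _ _ hk.1) (Ideal.mul_mem_left _ _ hk.2)

/-- The limit as a homomorphism of rings. -/
noncomputable def ulH : (ℕ → Lam) →+* Lam where
  toFun := ul
  map_one' := ul_const 1
  map_zero' := ul_const 0
  map_add' := ul_add
  map_mul' := ul_mul

theorem ulH_apply (y : ℕ → Lam) : ulH y = ul y := rfl

theorem ul_mem (I : Ideal Lam) {y : ℕ → Lam} (h : ∀ j, ∀ᶠ k in UU, y k ∈ I ⊔ aa j j) :
    ul y ∈ I := by
  refine closedI I fun j => ?_
  obtain ⟨k, h1, h2⟩ := ((h j).and (ul_spec y j)).exists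
  rw [← sub_sub_cancel (y k) (ul y)]
  exact sub_mem h1 (Submodule.mem_sup_right h2)

theorem diag {p : ℕ → ℕ → Prop} (h : ∀ j, ∀ᶠ k in UU, p j k) :
    ∃ jj : ℕ → ℕ, (∀ k, jj k ≤ k) ∧ (∀ᶠ k in UU, p (jj k) k) ∧ ∀ j, ∀ᶠ k in UU, j ≤ jj k := by
  have hg : ∀ j, ∀ᶠ k in UU, j ≤ k := fun j => Nat.hyperfilter_le_atTop (eventually_ge_atTop j)
  exact ⟨fun k => Nat.findGreatest (fun j => p j k) k, fun k => Nat.findGreatest_le k,
    (h 0).mono fun k hk => Nat.findGreatest_spec (P := fun j => p j k) (Nat.zero_le k) hk,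
    fun j => ((h j).and (hg j)).mono fun k hk => Nat.le_findGreatest hk.2 hk.1⟩

theorem ev_ge (j : ℕ) : ∀ᶠ k in UU, j ≤ k := by
  exact Nat.hyperfilter_le_atTop (eventually_ge_atTop j)

theorem ev_lv {lv : ℕ → ℕ} (hlv : ∀ k, k < lv k) (j : ℕ) :
    ∀ᶠ k in UU, aa (lv k) (lv k) ≤ aa j j := by
  exact (ev_ge j).mono fun k hk => aa_anti (hk.trans (hlv k).le) (hk.trans (hlv k).le)

theorem ev_const {α : Type} [Finite α] (a : ℕ → α) : ∃ b, ∀ᶠ k in UU, a k = b := by
  obtain ⟨b, hb⟩ := ((hyperfilter ℕ).map a).eq_pure_of_finite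
  refine ⟨b, ?_⟩
  have : {b} ∈ (hyperfilter ℕ).map a := hb ▸ Ultrafilter.mem_pure.2 rfl
  exact this

theorem ul_zero {lv : ℕ → ℕ} (hlv : ∀ k, k < lv k) {y : ℕ → Lam}
    (h : ∀ k, y k ∈ aa (lv k) (lv k)) : ul y = 0 := by
  exact ul_eq fun j => (ev_lv hlv j).mono fun k hk => by
    rw [sub_zero]
    exact hk (h k)

theorem ul_dvd {lv : ℕ → ℕ} (hlv : ∀ k, k < lv k) {y : ℕ → Lam} {e : ℕ}
    (h : ∀ k, Ideal.Quotient.mk (aa (lv k) (lv k)) (y k) ∣ 2 ^ e) : ul y ∣ 2 ^ e := by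
  have h1 : ∀ k, ∃ t, 2 ^ e - y k * t ∈ aa (lv k) (lv k) := fun k => by
    obtain ⟨c, hc⟩ := h k
    obtain ⟨t, rfl⟩ := Ideal.Quotient.mk_surjective c
    refine ⟨t, Ideal.Quotient.eq.1 ?_⟩
    rw [map_mul, ← hc, map_pow, map_ofNat]
  choose t ht using h1
  refine ⟨ul t, ?_⟩
  rw [← ul_mul]
  refine (ul_eq fun j => (ev_lv hlv j).mono fun k hk => ?_).symm
  rw [← neg_sub]
  exact neg_mem (hk (ht k))

theorem prime_X : Prime (X : Lam) := by
  exact PowerSeries.X_prime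

theorem prime_two : Prime (2 : Lam) := by
  have h2 : (2 : Lam) = C (2 : ℤ_[2]) := (map_ofNat _ 2).symm
  have h0 : (2 : Lam) ≠ 0 := fun h => by
    have := congrArg constantCoeff h
    rw [map_ofNat, map_zero] at this
    exact two_ne_zero this
  rw [← Ideal.span_singleton_prime h0]
  suffices hk : Ideal.span {(2 : Lam)} = RingHom.ker (PowerSeries.map (PadicInt.toZMod (p := 2))) by
    rw [hk]
    exact RingHom.ker_isPrime _
  ext f
  have : ∀ x : ℤ_[2], PadicInt.toZMod x = 0 ↔ (2 : ℤ_[2]) ∣ x := fun x => by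
    rw [← RingHom.mem_ker, PadicInt.ker_toZMod, PadicInt.maximalIdeal_eq_span_p,
      Ideal.mem_span_singleton, Nat.cast_ofNat]
  simp only [Ideal.mem_span_singleton, RingHom.mem_ker, PowerSeries.ext_iff, coeff_map, map_zero,
    this]
  constructor
  · rintro ⟨g, rfl⟩ n
    rw [h2, coeff_C_mul]
    exact dvd_mul_right _ _
  · intro h
    choose c hc using h
    exact ⟨PowerSeries.mk c, PowerSeries.ext fun n => by rw [h2, coeff_C_mul, coeff_mk, hc]⟩

theorem two_notMem : (2 : Lam) ∉ Ideal.span {(X : Lam)} := by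
  rw [Ideal.mem_span_singleton, X_dvd_iff, map_ofNat]
  exact two_ne_zero

theorem one_add_X_sq : (1 + X : Lam) * (1 + X) ≠ 1 := by
  intro h
  have h1 : (X : Lam) * (2 + X) = 0 := by linear_combination h
  have := congrArg constantCoeff ((mul_eq_zero.1 h1).resolve_left X_ne_zero)
  rw [map_add, map_ofNat, constantCoeff_X, add_zero, map_zero] at this
  exact two_ne_zero this

end Pool.Agent.Lib.MP_696deb_nt.B2.PA
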