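import Pool.Agent.Lib.MP_696deb_nt.B2.PAl
import Pool.Agent.Lib.MP_696deb_nt.B2.PAa

set_option autoImplicit false

open scoped Classical
open Finset Matrix PowerSeries Filter Submodule LinearMap

namespace Pool.Agent.Lib.MP_696deb_nt.B2.PA

variable {r : ℕ}

/-- Functionals that kill `R` are functionals on the quotient. -/
noncomputable def pam_q {O F B : Type} [CommRing O] [AddCommGroup F] [Module O F] [AddCommGroup B]
    [Module O B] (R : Submodule O F) : {t : F →ₗ[O] B // R ≤ ker t} ≃ ((F ⧸ R) →ₗ[O] B) where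
  toFun t := R.liftQ t.1 t.2
  invFun s := ⟨s ∘ₗ R.mkQ, fun x hx => by
    rw [LinearMap.mem_ker, LinearMap.comp_apply, mkQ_apply, (Submodule.Quotient.mk_eq_zero R).2 hx,
      map_zero]⟩
  left_inv t := Subtype.ext (R.liftQ_mkQ t.1 t.2)
  right_inv s := R.linearMap_qext (R.liftQ_mkQ _ _)

/-- Solutions of the linear system are functionals that kill the columns. -/
noncomputable def pam_v {O : Type} [CommRing O] (M : Matrix (Fin r) (Fin r) O) (I : Ideal O) :
    {v : Fin r → O ⧸ I // v ᵥ* M.map (Ideal.Quotient.mk I) = 0} ≃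
      {t : (Fin r → O) →ₗ[O] O ⧸ I // LinearMap.range M.mulVecLin ≤ ker t} :=
  Equiv.subtypeEquiv ((Pi.basisFun O (Fin r)).constr ℕ).toEquiv fun v => by
    have e : ∀ j, (((Pi.basisFun O (Fin r)).constr ℕ v) ∘ₗ M.mulVecLin) (Pi.basisFun O (Fin r) j) =
        (v ᵥ* M.map (Ideal.Quotient.mk I)) j := fun j => by
      rw [LinearMap.comp_apply, Module.Basis.constr_apply_fintype]
      simp only [vecMul, dotProduct, Matrix.map_apply, Pi.basisFun_apply, mulVecLin_apply,
        mulVec_single_one, Pi.basisFun_equivFun, LinearEquiv.refl_apply, col_apply]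
      refine sum_congr rfl fun i _ => ?_
      rw [Algebra.smul_def, mul_comm]
      rfl
    rw [range_le_ker_iff]
    constructor
    · intro h
      exact (Pi.basisFun O (Fin r)).ext fun j => (e j).trans (by rw [h]; rfl)
    · intro h
      funext j
      exact (e j).symm.trans (congrArg (fun t => t (Pi.basisFun O (Fin r) j)) h)

theorem pam_iso {O O' : Type} [CommRing O] [CommRing O'] (φ : O →+* O')
    (hφ : Function.Surjective φ) (I' : Ideal O') : ∃ ψ : (O ⧸ I'.comap φ) ≃+* (O' ⧸ I'),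
      ∀ x, ψ (Ideal.Quotient.mk _ x) = Ideal.Quotient.mk _ (φ x) :=
  ⟨RingEquiv.ofBijective (Ideal.quotientMap I' φ le_rfl)
    ⟨Ideal.quotientMap_injective, Ideal.quotientMap_surjective hφ⟩, fun _ => rfl⟩

theorem cnt_cok {O F : Type} [CommRing O] [AddCommGroup F] [Module O F] (R : Submodule O F)
    (M : Matrix (Fin r) (Fin r) O) (e : (F ⧸ R) ≃ₗ[O] Cok M) (I : Ideal O) :
    cnt R I = cntM M I := by
  rw [cnt, Nat.card_congr (pam_q R), cntM, Nat.card_congr (pam_v M I), Nat.card_congr (pam_q _)]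
  exact Nat.card_congr ⟨fun s => s ∘ₗ e.symm.toLinearMap, fun s => s ∘ₗ e.toLinearMap,
    fun s => LinearMap.ext fun x => by simp, fun s => LinearMap.ext fun x => by simp⟩

theorem cntM_map {O O' : Type} [CommRing O] [CommRing O'] (φ : O →+* O')
    (hφ : Function.Surjective φ) (M : Matrix (Fin r) (Fin r) O) (I' : Ideal O') :
    cntM M (I'.comap φ) = cntM (M.map φ) I' := by
  obtain ⟨ψ, hψ⟩ := pam_iso φ hφ I'
  refine Nat.card_congr (Equiv.subtypeEquiv (Equiv.piCongrRight fun _ => ψ.toEquiv) fun v => ?_)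
  have e : ∀ i, ψ ((v ᵥ* M.map (Ideal.Quotient.mk (I'.comap φ))) i) =
      ((fun k => ψ (v k)) ᵥ* (M.map φ).map (Ideal.Quotient.mk I')) i := fun i => by
    simp only [vecMul, dotProduct, Matrix.map_apply, map_sum, map_mul, hψ]
  constructor
  · intro h
    funext i
    exact (e i).symm.trans (by rw [h, Pi.zero_apply, map_zero]; rfl)
  · intro h
    funext i
    exact ψ.injective ((e i).trans ((congrFun h i).trans (map_zero ψ).symm))

/-- Reduction modulo two. -/
noncomputable def pam_red : Lam →+* PowerSeries (ZMod 2) := PowerSeries.map PadicInt.toZMod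

/-- The constant coefficient. -/
noncomputable def pam_cc : Lam →+* ℤ_[2] := constantCoeff

theorem pam_red_surj : Function.Surjective pam_red :=
  PowerSeries.map_surjective _ (ZMod.ringHom_surjective _)

theorem pam_cc_surj : Function.Surjective pam_cc := constantCoeff_surj

theorem pam_aa_red (j : ℕ) : aa 1 j = (Ideal.span {X ^ j}).comap pam_red := by
  have h : ∀ x : ℤ_[2], PadicInt.toZMod x = 0 ↔ (2 : ℤ_[2]) ∣ x := fun x => by
    rw [← RingHom.mem_ker, PadicInt.ker_toZMod, PadicInt.maximalIdeal_eq_span_p,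
      Ideal.mem_span_singleton, Nat.cast_ofNat]
  ext f
  rw [mem_aa, Ideal.mem_comap, Ideal.mem_span_singleton, X_pow_dvd_iff]
  simp only [pam_red, coeff_map, h, pow_one]

theorem pam_aa_cc (j : ℕ) : aa j 1 = (Ideal.span {2 ^ j}).comap pam_cc := by
  ext f
  rw [mem_aa, Ideal.mem_comap, Ideal.mem_span_singleton]
  simp only [pam_cc, Nat.lt_one_iff, forall_eq, coeff_zero_eq_constantCoeff_apply]

theorem pam_card_red : Nat.card (PowerSeries (ZMod 2) ⧸ Ideal.span {(X : PowerSeries (ZMod 2))}) =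
    2 := by
  obtain ⟨ψ, -⟩ := pam_iso pam_red pam_red_surj (Ideal.span {X ^ 1})
  have h := Nat.card_congr ψ.toEquiv
  rw [← pam_aa_red, card_quot, pow_one X] at h
  exact h.symm

theorem pam_card_cc : Nat.card (ℤ_[2] ⧸ Ideal.span {(2 : ℤ_[2])}) = 2 := by
  obtain ⟨ψ, -⟩ := pam_iso pam_cc pam_cc_surj (Ideal.span {2 ^ 1})
  have h := Nat.card_congr ψ.toEquiv
  rw [← pam_aa_cc, card_quot, pow_one] at h
  exact h.symm

theorem pam_dvd_iff (M : Matrix (Fin r) (Fin r) Lam) (n : ℕ) :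
    X ^ n ∣ (M.map pam_red).det ↔ (n : ℕ∞) ≤ lamb M.det := by
  have e : (M.map pam_red).det = pam_red M.det := (RingHom.map_det pam_red M).symm
  rw [e, X_pow_dvd_iff]
  exact ⟨fun h => nat_le_order _ n h,
    fun h m hm => coeff_of_lt_order m (lt_of_lt_of_le (Nat.cast_lt.2 hm) h)⟩

theorem cnt_two_le (M : Matrix (Fin r) (Fin r) Lam) {n : ℕ} (hn : lamb M.det ≤ n) (j : ℕ) :
    cntM M (aa 1 j) ≤ 2 ^ n := by
  rw [pam_aa_red, cntM_map pam_red pam_red_surj]
  refine cntM_le X_prime.irreducible pam_card_red _ (fun h => ?_) j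
  have h1 := ((pam_dvd_iff M (n + 1)).1 h).trans hn
  have h2 : n + 1 ≤ n := Nat.cast_le.1 h1
  omega

theorem cnt_two_ge (M : Matrix (Fin r) (Fin r) Lam) {n j : ℕ} (hn : (n : ℕ∞) ≤ lamb M.det)
    (hj : n ≤ j) : 2 ^ n ≤ cntM M (aa 1 j) := by
  rw [pam_aa_red, cntM_map pam_red pam_red_surj]
  exact cntM_ge X_prime.irreducible pam_card_red _ ((pam_dvd_iff M n).2 hn) hj

theorem cnt_zero (M : Matrix (Fin r) (Fin r) Lam) {m j : ℕ} (h : 2 ^ m ≤ cntM M (aa j 1)) :
    M.det ∈ aa m 1 := by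
  rw [pam_aa_cc, cntM_map pam_cc pam_cc_surj] at h
  rw [pam_aa_cc, Ideal.mem_comap, Ideal.mem_span_singleton, RingHom.map_det]
  by_contra hn
  cases m with
  | zero => exact hn (by rw [pow_zero]; exact one_dvd _)
  | succ n =>
    have h2 : Irreducible (2 : ℤ_[2]) := PadicInt.irreducible_p
    have h3 := h.trans (cntM_le h2 pam_card_cc (M.map pam_cc) hn j)
    have h4 : 2 ^ n < 2 ^ (n + 1) := Nat.pow_lt_pow_right (by norm_num) (Nat.lt_succ_self n)
    omega

theorem lamb_ne_top (M : Matrix (Fin r) (Fin r) Lam) {C : ℕ} (h : ∀ j, cntM M (aa 1 j) ≤ C) :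
    lamb M.det ≠ ⊤ := by
  intro e
  have h1 := (cnt_two_ge M (n := C) (e ▸ le_top) le_rfl).trans (h C)
  have h2 : C < 2 ^ C := Nat.lt_two_pow_self
  omega

theorem pam_le {r' : ℕ} (M : Matrix (Fin r) (Fin r) Lam) (M' : Matrix (Fin r') (Fin r') Lam)
    (h : ∀ j, cntM M (aa 1 j) = cntM M' (aa 1 j)) : lamb M.det ≤ lamb M'.det := by
  refine ENat.forall_natCast_le_iff_le.1 fun m hm => ?_
  by_contra hn
  cases m with
  | zero => exact hn (by simp)
  | succ n =>
    have h1 : lamb M'.det ≤ n := by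
      rw [not_le, Nat.cast_succ] at hn
      exact Order.le_of_lt_add_one hn
    have h2 := cnt_two_ge M hm le_rfl
    have h3 := cnt_two_le M' h1 (n + 1)
    have h4 : 2 ^ n < 2 ^ (n + 1) := Nat.pow_lt_pow_right (by norm_num) (Nat.lt_succ_self n)
    rw [h] at h2
    omega

theorem lamb_eq {r' : ℕ} (M : Matrix (Fin r) (Fin r) Lam) (M' : Matrix (Fin r') (Fin r') Lam)
    (h : ∀ j, cntM M (aa 1 j) = cntM M' (aa 1 j)) : lamb M.det = lamb M'.det := by
  exact le_antisymm (pam_le M M' h) (pam_le M' M fun j => (h j).symm)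

end Pool.Agent.Lib.MP_696deb_nt.B2.PA
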