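import Pool.Agent.Lib.MP_696deb_nt.B2.PAh2

set_option autoImplicit false

open scoped Classical
open Finset Matrix PowerSeries Filter Submodule LinearMap

namespace Pool.Agent.Lib.MP_696deb_nt.B2.PA

theorem pah3_range {O F ι : Type} [CommRing O] [IsDomain O] [AddCommGroup F] [Module O F]
    (P : Ideal O) [P.IsPrime] (R : Submodule O F) (x : ι → F) :
    lR P (R ⊔ span O (Set.range x)) = lR P R ⊔ span (LO P) (Set.range (lm P ∘ x)) := by
  rw [lR_sup, lR_span, Set.range_comp]

theorem pah3_tau {O B : Type} [CommRing O] [CommRing B] (φ : O →+* B) :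
    (tauM O).map φ = tauM B := by
  ext i j
  fin_cases i <;> fin_cases j <;> simp [tauM]

theorem pah3_one_add {O B : Type} [CommRing O] [CommRing B] (φ : O →+* B)
    (A : Matrix (Fin 2) (Fin 2) O) : (1 + A).map φ = 1 + A.map φ := by
  rw [← RingHom.mapMatrix_apply, map_add, map_one, RingHom.mapMatrix_apply]

theorem pah3_rel {O F : Type} [CommRing O] [IsDomain O] [AddCommGroup F] [Module O F]
    (P : Ideal O) [P.IsPrime] {R : Submodule O F} {x : F} {y : Fin 2 → F}
    {A : Matrix (Fin 2) (Fin 2) O} {i : Fin 2} (h : x - ∑ j, A i j • y j ∈ R) :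
    lm P x - ∑ j, A.map (algebraMap O (LO P)) i j • lm P (y j) ∈ lR P R := by
  have e := lm_mem P h
  rw [map_sub, map_sum] at e
  simpa only [lm_smul, Matrix.map_apply] using e

theorem Sys.loc {O F Γ : Type} [CommRing O] [IsDomain O] [AddCommGroup F] [Module O F]
    {P : Ideal O} [P.IsPrime] [Group Γ] {N : Subgroup Γ} {par : Prop} {f h q0 q1 : O}
    {k0 : Γ → Fin 2 → O} (S : Sys O P Γ N F par f h q0 q1 k0) :
    ∃ S' : Sys (LO P) (LM P) Γ N (LF F P) par (algebraMap O (LO P) f) (algebraMap O (LO P) h)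
      (algebraMap O (LO P) q0) (algebraMap O (LO P) q1) fun g i => algebraMap O (LO P) (k0 g i),
      S'.R S'.n0 = lR P (S.R S.n0) := by
  choose κ hκ hκR using fun n => l_asc P (Algebra.linearMap O (LO P) ∘ₗ S.kap n)
  replace hκ : ∀ n x, κ n (lm P x) = algebraMap O (LO P) (S.kap n x) := hκ
  have fin : ∀ {n} {Rq : Submodule O F} {x : Fin 2 → F}, S.R n = Rq ⊔ span O (Set.range x) →
      Module.Finite O (F ⧸ Rq) := fun {n Rq x} e => fg_of_sup x (e ▸ S.fg n)
  refine ⟨{
    θ := S.θ
    normal := S.normal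
    θN := S.θN
    two := by rw [← map_ofNat (algebraMap O (LO P)) 2]; exact (lo_notMem P).2 S.two
    ev := fun g => lm P ∘ S.ev g
    z := S.z
    u := algebraMap O (LO P) S.u
    hu := fun e => S.hu (lo_inj P (by rw [map_mul, map_one, e]))
    un := S.un
    nm := fun v => (S.nm v).map (algebraMap O (LO P))
    nm_sq := fun v => by rw [← Matrix.map_mul, S.nm_sq, Matrix.map_zero _ (map_zero _)]
    nm_tr := by
      rw [← Matrix.map_mul, ← AddMonoidHom.map_trace]
      exact (lo_notMem P).2 S.nm_tr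
    St := S.St
    R := fun n => lR P (S.R n)
    kap := κ
    kap_R := fun n => hκR n _ ((S.kap_R n).trans (LinearMap.ker_le_ker_comp _ _))
    fg := fun n => have := S.fg n; lR_fg P _
    gen := fun n y => ?_
    add := fun n σ a σ' b i => by
      simpa only [Function.comp_apply, map_sub, map_add] using lm_mem P (S.add n σ a σ' b i)
    eq_un := fun n v σ a i => by
      rw [← pah3_one_add]
      exact pah3_rel P (S.eq_un n v σ a i)
    eq_unθ := fun n v σ a i => by
      rw [← pah3_one_add, ← pah3_tau (algebraMap O (LO P)), ← Matrix.map_mul, ← Matrix.map_mul]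
      exact pah3_rel P (S.eq_unθ n v σ a i)
    eq_z := fun n σ a i => by
      simpa only [Function.comp_apply, map_sub, lm_smul] using lm_mem P (S.eq_z n σ a i)
    eq_zθ := fun n σ a i => by
      simpa only [Function.comp_apply, map_sub, lm_smul] using lm_mem P (S.eq_zθ n σ a i)
    step := fun n σ a => ?_
    n0 := S.n0
    R0 := lR P S.R0
    φ0 := S.φ0
    s0 := S.s0
    R_n0 := by rw [S.R_n0, pah3_range]
    iso0 := have := fin S.R_n0; S.iso0.loc
    kap_h := ?_
    kap_k0 := fun g i => by rw [Function.comp_apply, hκ, S.kap_k0]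
    RF := lR P S.RF
    nu := lm P ∘ S.nu
    nu0 := by simpa only [Function.comp_apply, lm_smul] using lm_mem P S.nu0
    nu1 := by simpa only [Function.comp_apply, lm_smul] using lm_mem P S.nu1
    RF_eq := by
      rw [← pah3_range, S.RF_eq, lR_sup, lR_span, Set.image_pair, map_sub, map_add]
      rfl
    r := S.r
    M := S.M.map (algebraMap O (LO P))
    det := by rw [← RingHom.mapMatrix_apply, ← RingHom.map_det, S.det]
    pres := by
      obtain ⟨p, a, b⟩ := S.pres
      exact l_pres P _ _ p a b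
    dim := fun a => have := S.fg S.n0; (S.dim a).loc }, rfl⟩
  · obtain ⟨b, hb, x, e⟩ := lm_surj P y
    obtain ⟨t, ht, e'⟩ := S.gen n x
    refine ⟨algebraMap O (LO P) t * algebraMap O (LO P) b, ?_, ?_⟩
    · rw [← map_mul]
      exact (lo_notMem P).2 fun k => (Ideal.IsPrime.mem_or_mem ‹_› k).elim ht hb
    · have k := lm_mem P e'
      rw [lR_sup, lR_span, lm_smul, ← e, ← mul_smul] at k
      refine (sup_le_sup_left (span_mono ?_) _ : _ ≤ lR P (S.R n) ⊔ _) k
      rintro _ ⟨_, ⟨σ, a, i, rfl⟩, rfl⟩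
      exact ⟨σ, a, i, rfl⟩
  · obtain ⟨n', Rq, φ, s, u0, u1, u2, a1, a2, a3, a4, a5, a6, a7, a8, a9, b1, b2, b3, b4⟩ :=
      S.step n σ a
    have := fin a2
    refine ⟨n', lR P Rq, φ, s, algebraMap O (LO P) u0, algebraMap O (LO P) u1,
      algebraMap O (LO P) u2, a1, by rw [a2, pah3_range], by rw [a3, pah3_range],
      (lo_notMem P).2 a4, (lo_notMem P).2 a5, (lo_notMem P).2 a6, fun i => ?_, fun i => ?_, ?_,
      b1.loc, b2.loc, b3.loc, fun k => (b4 k).loc⟩
    · simpa only [Function.comp_apply, map_sub, lm_smul, map_add] using lm_mem P (a7 i)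
    · simpa only [Function.comp_apply, map_add] using lm_mem P (a8 i)
    · funext i
      have e := congrArg (algebraMap O (LO P)) (congrFun a9 i)
      rw [Pi.smul_apply, Pi.smul_apply, smul_eq_mul, smul_eq_mul, map_mul, map_mul,
        RingHom.map_mulVec, pah3_tau] at e
      have e1 : κ n ∘ lm P ∘ S.ev φ = algebraMap O (LO P) ∘ S.kap n ∘ S.ev φ :=
        funext fun j => hκ n _
      rw [Pi.smul_apply, Pi.smul_apply, smul_eq_mul, smul_eq_mul, e1, ← e]
      exact congrArg _ (hκ n' _)
  · obtain ⟨a, ha, e⟩ := S.kap_h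
    exact ⟨algebraMap O (LO P) a, (lo_notMem P).2 ha, by
      rw [Function.comp_apply, Function.comp_apply, hκ, hκ, ← map_sub, e, map_mul]⟩

end Pool.Agent.Lib.MP_696deb_nt.B2.PA
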