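import Pool.Agent.Lib.MP_696deb_nt.B2.PA1

set_option autoImplicit false

open scoped Classical
open Finset Matrix PowerSeries Filter Submodule LinearMap

namespace Pool.Agent.Lib.MP_696deb_nt.B2.PA

variable {O : Type} [CommRing O] [IsDomain O] [IsDiscreteValuationRing O] {r : ℕ}

theorem pal_pivot {ι : Type} (s : Finset ι) (hs : s.Nonempty) (f : ι → O) :
    ∃ i ∈ s, ∀ j ∈ s, f i ∣ f j := by
  induction hs using Finset.Nonempty.cons_induction with
  | singleton a => exact ⟨a, Finset.mem_singleton_self a, fun j hj => by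
      rw [Finset.mem_singleton.1 hj]⟩
  | cons a s ha hs ih =>
    obtain ⟨i, h1, h2⟩ := ih
    rcases ValuationRing.dvd_total (f a) (f i) with h | h
    · refine ⟨a, Finset.mem_cons_self _ _, fun j hj => ?_⟩
      rcases Finset.mem_cons.1 hj with rfl | hj
      exacts [dvd_rfl, h.trans (h2 j hj)]
    · refine ⟨i, Finset.mem_cons_of_mem h1, fun j hj => ?_⟩
      rcases Finset.mem_cons.1 hj with rfl | hj
      exacts [h, h2 j hj]

theorem smith (M : Matrix (Fin r) (Fin r) O) : ∃ (U V : Matrix (Fin r) (Fin r) O) (d : Fin r → O),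
    IsUnit U ∧ IsUnit V ∧ M = U * diagonal d * V := by
  induction r with
  | zero => exact ⟨1, 1, 0, isUnit_one, isUnit_one, Subsingleton.elim _ _⟩
  | succ r ih =>
    have key : ∀ M : Matrix (Fin (r + 1)) (Fin (r + 1)) O, (∀ i j, M 0 0 ∣ M i j) →
        ∃ (U V : Matrix (Fin (r + 1)) (Fin (r + 1)) O) (d : Fin (r + 1) → O),
          IsUnit U ∧ IsUnit V ∧ M = U * diagonal d * V := by
      intro M h
      choose c hc using h
      obtain ⟨U, V, d, hU, hV, e⟩ :=
        ih (of fun i j => M i.succ j.succ - c i.succ 0 * M 0 0 * c 0 j.succ)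
      refine ⟨of (Fin.cons (Fin.cons 1 0) fun i => Fin.cons (c i.succ 0) (U i)),
        of (Fin.cons (Fin.cons 1 fun j => c 0 j.succ) fun i => Fin.cons 0 (V i)),
        Fin.cons (M 0 0) d, ?_, ?_, ?_⟩
      · rw [Matrix.isUnit_iff_isUnit_det] at hU ⊢
        rw [det_succ_row_zero, Fin.sum_univ_succ]
        simp only [of_apply, Fin.cons_zero, Fin.cons_succ, Pi.zero_apply, mul_zero, zero_mul,
          sum_const_zero, add_zero, Fin.val_zero, pow_zero, one_mul, Fin.succAbove_zero]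
        exact hU
      · rw [Matrix.isUnit_iff_isUnit_det] at hV ⊢
        rw [det_succ_column_zero, Fin.sum_univ_succ]
        simp only [of_apply, Fin.cons_zero, Fin.cons_succ, mul_zero, zero_mul,
          sum_const_zero, add_zero, Fin.val_zero, pow_zero, one_mul, Fin.succAbove_zero]
        exact hV
      · ext i j
        rw [Matrix.mul_apply, Fin.sum_univ_succ]
        simp only [mul_diagonal, of_apply, Fin.cons_zero, Fin.cons_succ]
        refine Fin.cases ?_ (fun i => ?_) i <;> refine Fin.cases ?_ (fun j => ?_) j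
        · simp
        · simpa using hc 0 j.succ
        · simpa [mul_comm] using hc i.succ 0
        · have := congrFun (congrFun e i) j
          rw [Matrix.mul_apply] at this
          simp only [mul_diagonal, of_apply] at this
          simp only [Fin.cons_zero, Fin.cons_succ, ← this]
          ring
    obtain ⟨p, -, hp⟩ := pal_pivot univ univ_nonempty
      fun p : Fin (r + 1) × Fin (r + 1) => M p.1 p.2
    obtain ⟨U, V, d, hU, hV, e⟩ := key (M.submatrix (Equiv.swap 0 p.1) (Equiv.swap 0 p.2))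
      fun i j => by simpa using hp (Equiv.swap 0 p.1 i, Equiv.swap 0 p.2 j) (mem_univ _)
    refine ⟨U.submatrix (Equiv.swap 0 p.1) _root_.id, V.submatrix _root_.id (Equiv.swap 0 p.2), d,
      ?_, ?_, ?_⟩
    · rw [Matrix.isUnit_iff_isUnit_det] at hU ⊢
      rw [det_permute]
      exact (((Equiv.Perm.sign _).isUnit.map (Int.castRingHom O))).mul hU
    · rw [Matrix.isUnit_iff_isUnit_det] at hV ⊢
      rw [det_permute']
      exact (((Equiv.Perm.sign _).isUnit.map (Int.castRingHom O))).mul hV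
    · ext i j
      have := congrFun (congrFun e (Equiv.swap 0 p.1 i)) (Equiv.swap 0 p.2 j)
      simp only [submatrix_apply, Equiv.swap_apply_self] at this
      rw [this]
      simp only [Matrix.mul_apply, submatrix_apply, id_eq]

theorem pal_ord_prod {ι : Type} (s : Finset ι) (d : ι → O) :
    Ring.ord O (∏ i ∈ s, d i) = ∑ i ∈ s, Ring.ord O (d i) := by
  induction s using Finset.cons_induction with
  | empty => simp
  | cons a s ha ih =>
    rw [prod_cons, sum_cons, ← ih]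
    simp only [Ring.ord_eq_addVal, IsDiscreteValuationRing.addVal_mul]

theorem len_cok (M : Matrix (Fin r) (Fin r) O) : Module.length O (Cok M) = Ring.ord O M.det := by
  obtain ⟨U, V, d, ⟨U, rfl⟩, ⟨V, rfl⟩, rfl⟩ := smith M
  let g : (Fin r → O) →ₗ[O] ∀ i, O ⧸ Ideal.span {d i} :=
    LinearMap.pi (fun i => (Ideal.span {d i}).mkQ ∘ₗ LinearMap.proj i) ∘ₗ
      (↑U⁻¹ : Matrix (Fin r) (Fin r) O).mulVecLin
  have hs : Function.Surjective g := by
    intro y
    choose x hx using fun i => Submodule.mkQ_surjective (Ideal.span {d i}) (y i)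
    refine ⟨(U : Matrix (Fin r) (Fin r) O) *ᵥ x, funext fun i => ?_⟩
    simp only [g, LinearMap.comp_apply, mulVecLin_apply, mulVec_mulVec, Units.inv_mul, one_mulVec,
      LinearMap.pi_apply, LinearMap.proj_apply, hx]
  have hk : LinearMap.range ((U : Matrix (Fin r) (Fin r) O) * diagonal d * V).mulVecLin =
      LinearMap.ker g := by
    ext x
    simp only [g, LinearMap.mem_range, LinearMap.mem_ker, LinearMap.comp_apply, mulVecLin_apply,
      funext_iff, LinearMap.pi_apply, LinearMap.proj_apply, mkQ_apply, Pi.zero_apply,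
      Submodule.Quotient.mk_eq_zero, Ideal.mem_span_singleton]
    constructor
    · rintro ⟨y, hy⟩ i
      rw [← funext hy, mulVec_mulVec, ← Matrix.mul_assoc, ← Matrix.mul_assoc, Units.inv_mul,
        Matrix.one_mul, ← mulVec_mulVec, mulVec_diagonal]
      exact dvd_mul_right _ _
    · intro h
      choose y hy using h
      refine ⟨(↑V⁻¹ : Matrix (Fin r) (Fin r) O) *ᵥ y, funext_iff.1 ?_⟩
      have : diagonal d *ᵥ y = (↑U⁻¹ : Matrix (Fin r) (Fin r) O) *ᵥ x :=
        funext fun i => by rw [mulVec_diagonal, hy]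
      rw [mulVec_mulVec, Matrix.mul_assoc, Units.mul_inv, Matrix.mul_one, ← mulVec_mulVec, this,
        mulVec_mulVec, Units.mul_inv, one_mulVec]
  rw [((Submodule.quotEquivOfEq _ _ hk).trans (g.quotKerEquivOfSurjective hs)).length_eq,
    Module.length_pi_of_fintype, det_mul, det_mul,
    Ring.ord_mul_of_isUnit_right ((Matrix.isUnit_iff_isUnit_det _).1 V.isUnit),
    Ring.ord_mul_of_isUnit_left ((Matrix.isUnit_iff_isUnit_det _).1 U.isUnit), det_diagonal,
    pal_ord_prod]
  rfl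

theorem pal_card {ϖ : O} (hϖ : Irreducible ϖ) (h2 : Nat.card (O ⧸ Ideal.span {ϖ}) = 2) (m : ℕ) :
    Nat.card (O ⧸ Ideal.span {ϖ ^ m}) = 2 ^ m := by
  have : (Ideal.span {ϖ}).IsPrime := (Ideal.span_singleton_prime hϖ.ne_zero).2 hϖ.prime
  have h := cardQuot_pow_of_prime (P := Ideal.span {ϖ}) 
    (fun e => hϖ.ne_zero (Ideal.span_singleton_eq_bot.1 e)) (i := m)
  rw [Ideal.span_singleton_pow, cardQuot_apply, cardQuot_apply] at h
  exact h.trans (congrArg (· ^ m) h2)

theorem pal_ann {ϖ : O} (hϖ : Irreducible ϖ) (h2 : Nat.card (O ⧸ Ideal.span {ϖ}) = 2) (j : ℕ)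
    (d : O) : ∃ m ≤ j, ϖ ^ m ∣ d ∧ (m < j → d ∣ ϖ ^ m) ∧
      Nat.card {x : O ⧸ Ideal.span {ϖ ^ j} // x * Ideal.Quotient.mk _ d = 0} = 2 ^ m := by
  have key : ∀ m t, j = m + t → ϖ ^ m ∣ d → (∀ y, ϖ ^ j ∣ y * d → ϖ ^ t ∣ y) →
      Nat.card {x : O ⧸ Ideal.span {ϖ ^ j} // x * Ideal.Quotient.mk _ d = 0} = 2 ^ m := by
    intro m t hj h1 h3
    let g : O →ₗ[O] O ⧸ Ideal.span {ϖ ^ j} :=
      (Ideal.span {ϖ ^ j}).mkQ ∘ₗ LinearMap.mulLeft O (ϖ ^ t)
    have hg : ∀ y, g y = Ideal.Quotient.mk _ (ϖ ^ t * y) := fun y => rfl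
    have hk : Ideal.span {ϖ ^ m} = LinearMap.ker g := by
      ext y
      rw [LinearMap.mem_ker, hg, Ideal.Quotient.eq_zero_iff_mem, Ideal.mem_span_singleton,
        Ideal.mem_span_singleton, hj, add_comm, pow_add,
        mul_dvd_mul_iff_left (pow_ne_zero t hϖ.ne_zero)]
    rw [← pal_card hϖ h2 m,
      Nat.card_congr ((Submodule.quotEquivOfEq _ _ hk).trans g.quotKerEquivRange).toEquiv]
    refine Nat.card_congr (Equiv.subtypeEquivRight fun x => ?_)
    obtain ⟨x, rfl⟩ := Ideal.Quotient.mk_surjective x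
    rw [← map_mul, Ideal.Quotient.eq_zero_iff_mem, Ideal.mem_span_singleton]
    constructor
    · intro h
      obtain ⟨y, rfl⟩ := h3 x h
      exact ⟨y, rfl⟩
    · rintro ⟨y, hy⟩
      rw [hg, Ideal.Quotient.eq, Ideal.mem_span_singleton] at hy
      have e : x * d = y * (d * ϖ ^ t) - (ϖ ^ t * y - x) * d := by ring
      rw [e]
      refine dvd_sub (Dvd.dvd.mul_left ?_ _) (hy.mul_right _)
      rw [hj, pow_add]
      exact mul_dvd_mul_right h1 _
  by_cases h : ϖ ^ j ∣ d
  · exact ⟨j, le_rfl, h, fun h => absurd h (lt_irrefl _), key j 0 rfl h fun y _ => by simp⟩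
  · obtain ⟨m, hm⟩ := IsDiscreteValuationRing.associated_pow_irreducible
      (show d ≠ 0 from fun e => h (e ▸ dvd_zero _)) hϖ
    have hmj : m ≤ j := by
      by_contra c
      exact h ((pow_dvd_pow ϖ (not_le.1 c).le).trans hm.symm.dvd)
    obtain ⟨t, ht⟩ := Nat.exists_eq_add_of_le hmj
    refine ⟨m, hmj, hm.symm.dvd, fun _ => hm.dvd, key m t ht hm.symm.dvd fun y hy => ?_⟩
    have := hy.trans (mul_dvd_mul_left y hm.dvd)
    rwa [ht, pow_add, mul_comm y, mul_dvd_mul_iff_left (pow_ne_zero m hϖ.ne_zero)] at this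

omit [IsDomain O] [IsDiscreteValuationRing O] in
theorem pal_cnt (U V : (Matrix (Fin r) (Fin r) O)ˣ) (d : Fin r → O) (I : Ideal O) :
    cntM ((U : Matrix (Fin r) (Fin r) O) * diagonal d * (V : Matrix (Fin r) (Fin r) O)) I =
      ∏ i, Nat.card {x : O ⧸ I // x * Ideal.Quotient.mk I (d i) = 0} := by
  rw [← Nat.card_pi, cntM]
  let f := (Ideal.Quotient.mk I).mapMatrix (m := Fin r)
  have hf : ∀ A B : Matrix (Fin r) (Fin r) O, A * B = 1 → f A * f B = 1 := fun A B h => by
    rw [← map_mul, h, map_one]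
  let e : (Fin r → O ⧸ I) ≃ (Fin r → O ⧸ I) :=
    ⟨fun v => v ᵥ* f U, fun v => v ᵥ* f ↑U⁻¹,
      fun v => by simp only [vecMul_vecMul, hf _ _ U.mul_inv, vecMul_one],
      fun v => by simp only [vecMul_vecMul, hf _ _ U.inv_mul, vecMul_one]⟩
  refine Nat.card_congr ((e.subtypeEquiv fun v => ?_).trans Equiv.subtypePiEquivPi)
  have e1 : ((U : Matrix (Fin r) (Fin r) O) * diagonal d * (V : Matrix (Fin r) (Fin r) O)).map
      (Ideal.Quotient.mk I) =
      f U * diagonal (fun i => Ideal.Quotient.mk I (d i)) * f V := by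
    rw [← RingHom.mapMatrix_apply, map_mul, map_mul]
    congr 2
    exact diagonal_map (map_zero _)
  rw [e1, ← vecMul_vecMul, ← vecMul_vecMul]
  constructor
  · intro h i
    have := congrArg (· ᵥ* f ↑V⁻¹) h
    simp only [vecMul_vecMul _ (f V), hf _ _ V.mul_inv, vecMul_one, zero_vecMul] at this
    exact (vecMul_diagonal _ _ i).symm.trans (congrFun this i)
  · intro h
    have : v ᵥ* f U ᵥ* diagonal (fun i => Ideal.Quotient.mk I (d i)) = 0 :=
      funext fun i => by rw [vecMul_diagonal]; exact h i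
    rw [this, zero_vecMul]

theorem cntM_le {ϖ : O} (hϖ : Irreducible ϖ) (h2 : Nat.card (O ⧸ Ideal.span {ϖ}) = 2)
    (M : Matrix (Fin r) (Fin r) O) {n : ℕ} (hn : ¬ ϖ ^ (n + 1) ∣ M.det) (j : ℕ) :
    cntM M (Ideal.span {ϖ ^ j}) ≤ 2 ^ n := by
  obtain ⟨U, V, d, ⟨U, rfl⟩, ⟨V, rfl⟩, rfl⟩ := smith M
  choose m m1 m2 m3 m4 using fun i => pal_ann hϖ h2 j (d i)
  rw [pal_cnt, prod_congr rfl fun i _ => m4 i, prod_pow_eq_pow_sum]
  refine Nat.pow_le_pow_right two_pos (not_lt.1 fun h => hn ?_)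
  rw [det_mul, det_mul, det_diagonal]
  refine ((pow_dvd_pow ϖ h).trans ?_).mul_left _ |>.mul_right _
  rw [← prod_pow_eq_pow_sum]
  exact prod_dvd_prod_of_dvd _ _ fun i _ => m2 i

theorem cntM_ge {ϖ : O} (hϖ : Irreducible ϖ) (h2 : Nat.card (O ⧸ Ideal.span {ϖ}) = 2)
    (M : Matrix (Fin r) (Fin r) O) {n j : ℕ} (hn : ϖ ^ n ∣ M.det) (hj : n ≤ j) :
    2 ^ n ≤ cntM M (Ideal.span {ϖ ^ j}) := by
  obtain ⟨U, V, d, ⟨U, rfl⟩, ⟨V, rfl⟩, rfl⟩ := smith M
  choose m m1 m2 m3 m4 using fun i => pal_ann hϖ h2 j (d i)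
  rw [pal_cnt, prod_congr rfl fun i _ => m4 i, prod_pow_eq_pow_sum]
  refine Nat.pow_le_pow_right two_pos ?_
  by_cases h : ∀ i, m i < j
  · rw [det_mul, det_mul, det_diagonal,
      ((Matrix.isUnit_iff_isUnit_det _).1 V.isUnit).dvd_mul_right,
      ((Matrix.isUnit_iff_isUnit_det _).1 U.isUnit).dvd_mul_left] at hn
    have := hn.trans (prod_dvd_prod_of_dvd _ _ fun i _ => m3 i (h i))
    rwa [prod_pow_eq_pow_sum, pow_dvd_pow_iff hϖ.ne_zero hϖ.not_isUnit] at this
  · push Not at h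
    obtain ⟨i, hi⟩ := h
    exact hj.trans (hi.trans (single_le_sum (fun _ _ => Nat.zero_le _) (mem_univ i)))

end Pool.Agent.Lib.MP_696deb_nt.B2.PA
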