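import Pool.Agent.Lib.MP_696deb_nt.B2.PAp
import Pool.Agent.Lib.MP_696deb_nt.B2.PAl

set_option autoImplicit false

open scoped Classical
open Finset Matrix PowerSeries Filter Submodule LinearMap

namespace Pool.Agent.Lib.MP_696deb_nt.B2.PA

variable {O F : Type} [CommRing O] [IsDomain O] [IsDiscreteValuationRing O] [AddCommGroup F]
  [Module O F]

theorem bridge {R0 : Submodule O F} {p s : Fin 2 → F} {κ : F →ₗ[O] O}
    (hκ : R0 ⊔ span O (Set.range s) ≤ ker κ) (rk : Rk1 (R0 ⊔ span O (Set.range s)))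
    (ne : κ (p 1) - κ (p 0) ≠ 0) (iso : IsoS (IsLocalRing.maximalIdeal O) R0 p s) :
    rl (R0 ⊔ span O {p 1 - p 0, s 0 + s 1}) ⊤ + 2 * rl (range κ) ⊤ ≤
      rl (R0 ⊔ span O (Set.range s)) (ker κ) + 2 * Ring.ord O (κ (p 1) - κ (p 0)) := by
  obtain ⟨g, a, hg, hR, a0, rfl, ha, -⟩ := prim (fun k => ne (by rw [k]; simp)) hκ rk
  obtain ⟨u, hu, h1⟩ := iso
  have h2 := h1 g (le_sup_left.trans hR)
  have h3 : ∀ i, g (s i) = 0 := fun i =>
    hR (mem_sup_right (subset_span (Set.mem_range_self i)))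
  rw [smul_mem_iff_of_isUnit _ (IsLocalRing.notMem_maximalIdeal.1 hu)] at h2
  simp only [jv, Function.comp, h3, zero_smul, zero_add] at h2
  obtain ⟨b, hb⟩ : ∃ b, b = g (p 1) - g (p 0) := ⟨_, rfl⟩
  have e1 : (a • g) (p 1) - (a • g) (p 0) = a * b := by
    rw [hb, LinearMap.smul_apply, LinearMap.smul_apply, smul_eq_mul, smul_eq_mul, mul_sub]
  have e2 : ker (a • g) = ker g := by
    ext x
    simp [a0]
  generalize hL : R0 ⊔ span O {p 1 - p 0, s 0 + s 1} = L
  have l0 : R0 ≤ L := hL ▸ le_sup_left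
  have l1 : p 1 - p 0 ∈ L := hL ▸ mem_sup_right (subset_span (by simp))
  have l2 : s 0 + s 1 ∈ L := hL ▸ mem_sup_right (subset_span (by simp))
  have h4 : b • s 0 ∈ L := by
    have h5 := sub_mem (l0 h2) (smul_mem _ (g (p 0)) l2)
    rwa [show g (p 1) • s 0 + g (p 0) • s 1 - g (p 0) • (s 0 + s 1) = b • s 0 by
      rw [hb]; module] at h5
  have h5 := rl_sup_cyc h4
  generalize hY : L ⊔ span O {s 0} = Y at h5
  have y0 : L ≤ Y := hY ▸ le_sup_left
  have y1 : s 0 ∈ Y := hY ▸ mem_sup_right (mem_span_singleton_self _)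
  have y2 : R0 ⊔ span O (Set.range s) ≤ Y := by
    refine sup_le (l0.trans y0) (span_le.2 ?_)
    rintro _ ⟨i, rfl⟩
    fin_cases i
    · exact y1
    · simpa using sub_mem (y0 l2) y1
  have y3 : Submodule.comap g (Ideal.span {b} : Ideal O) ≤ Y ⊔ ker g := by
    intro x hx
    obtain ⟨c, hc⟩ := Ideal.mem_span_singleton'.1 (mem_comap.1 hx)
    rw [← add_sub_cancel (c • (p 1 - p 0)) x]
    refine add_mem (mem_sup_left (smul_mem _ c (y0 l1))) (mem_sup_right ?_)
    rw [LinearMap.mem_ker, map_sub, map_smul, map_sub, ← hb, smul_eq_mul, hc, sub_self]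
  have h6 : rl (Y ⊔ ker g) ⊤ ≤ Ring.ord O b := by
    refine (rl_anti y3 ⊤).trans_eq ?_
    rw [rl_map, Submodule.map_top, range_eq_top.2 hg, rl_ord]
  have h7 : rl Y ⊤ ≤ rl (R0 ⊔ span O (Set.range s)) (ker g) + Ring.ord O b := by
    rw [rl_add (le_sup_left : Y ≤ Y ⊔ ker g) le_top, rl_sup]
    exact add_le_add (rl_anti y2 _) h6
  have b0 : b ≠ 0 := fun k => ne (by rw [e1, k, mul_zero])
  rw [ha, e1, e2, Ring.ord_mul O (mem_nonZeroDivisors_of_ne_zero b0)]
  calc rl L ⊤ + 2 * Ring.ord O a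
      ≤ rl (R0 ⊔ span O (Set.range s)) (ker g) + Ring.ord O b + Ring.ord O b +
        2 * Ring.ord O a := add_le_add (h5.trans (add_le_add h7 le_rfl)) le_rfl
    _ = _ := by ring

theorem ord_le_pres {r : ℕ} (M : Matrix (Fin r) (Fin r) O) {RF : Submodule O F}
    (p : F →ₗ[O] Cok M) (hp : Function.Surjective p) (hR : RF ≤ ker p) {nu : Fin 2 → F}
    {q0 q1 : O} (h0 : q0 • nu 0 ∈ RF) (h1 : q1 • nu 1 ∈ RF) :
    Ring.ord O M.det ≤ rl (RF ⊔ span O (Set.range nu)) ⊤ + Ring.ord O q0 + Ring.ord O q1 := by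
  have h2 : Ring.ord O M.det ≤ rl RF ⊤ := by
    rw [← len_cok, rl_top]
    refine Module.length_le_of_surjective (RF.liftQ p hR) fun y => ?_
    obtain ⟨x, rfl⟩ := hp y
    exact ⟨RF.mkQ x, rfl⟩
  have h3 := rl_sup_cyc h0
  have h4 := rl_sup_cyc (A := RF ⊔ span O {nu 0}) (mem_sup_left h1)
  have h5 : rl (RF ⊔ span O {nu 0} ⊔ span O {nu 1}) ⊤ ≤ rl (RF ⊔ span O (Set.range nu)) ⊤ := by
    refine rl_anti (sup_le (le_sup_left.trans le_sup_left) (span_le.2 ?_)) ⊤
    rintro _ ⟨i, rfl⟩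
    fin_cases i
    · exact mem_sup_left (mem_sup_right (mem_span_singleton_self _))
    · exact mem_sup_right (mem_span_singleton_self _)
  calc Ring.ord O M.det
      ≤ rl (RF ⊔ span O (Set.range nu)) ⊤ + Ring.ord O q1 + Ring.ord O q0 :=
        h2.trans (h3.trans (add_le_add (h4.trans (add_le_add h5 le_rfl)) le_rfl))
    _ = _ := add_right_comm _ _ _

theorem paq_dual {R : Submodule O F} {x : F}
    (h : ∀ t : F →ₗ[O] O ⧸ IsLocalRing.maximalIdeal O, R ≤ ker t → t x = 0) :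
    x ∈ R ⊔ IsLocalRing.maximalIdeal O • ⊤ := by
  generalize hN : R ⊔ IsLocalRing.maximalIdeal O • (⊤ : Submodule O F) = N
  have ht : Module.IsTorsionBySet O (F ⧸ N) (IsLocalRing.maximalIdeal O : Set O) := by
    rintro y ⟨a, ha⟩
    obtain ⟨z, rfl⟩ := N.mkQ_surjective y
    change a • N.mkQ z = 0
    rw [← map_smul, mkQ_apply, Quotient.mk_eq_zero, ← hN]
    exact mem_sup_right (smul_mem_smul ha mem_top)
  let _ := ht.module
  let _ := Ideal.Quotient.field (IsLocalRing.maximalIdeal O)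
  have := ht.isScalarTower (S := O)
  refine (Quotient.mk_eq_zero N).1
    ((Module.forall_dual_apply_eq_zero_iff (O ⧸ IsLocalRing.maximalIdeal O) _).1 fun φ => ?_)
  refine h (φ.restrictScalars O ∘ₗ N.mkQ) fun y hy => ?_
  rw [LinearMap.mem_ker, LinearMap.comp_apply, mkQ_apply,
    (Quotient.mk_eq_zero N).2 (hN ▸ mem_sup_left hy), map_zero]

/-- If the residual functionals are multiples of one, the module is free of rank one. -/
theorem base_case {R : Submodule O F} [Module.Finite O (F ⧸ R)] {g : F →ₗ[O] O}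
    (hg : Function.Surjective g) (hR : R ≤ ker g)
    (h : ∀ t : F →ₗ[O] O ⧸ IsLocalRing.maximalIdeal O, R ≤ ker t →
      ∃ b : O, t = b • ((IsLocalRing.maximalIdeal O).mkQ ∘ₗ g)) : ker g ≤ R := by
  have h1 : ker g ≤ R ⊔ IsLocalRing.maximalIdeal O • ⊤ := fun x hx => paq_dual fun t ht => by
    obtain ⟨b, rfl⟩ := h t ht
    rw [LinearMap.smul_apply, LinearMap.comp_apply, LinearMap.mem_ker.1 hx, map_zero, smul_zero]
  obtain ⟨x0, hx0⟩ := hg 1
  let π : F →ₗ[O] F := LinearMap.id - g.smulRight x0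
  have π1 : ∀ x ∈ ker g, π x = x := fun x hx => by simp [π, LinearMap.mem_ker.1 hx]
  have π2 : Submodule.map π ⊤ ≤ ker g := by
    rintro _ ⟨x, -, rfl⟩
    simp [π, hx0]
  have h2 : (ker g).map R.mkQ ≤ ⊥ ⊔ IsLocalRing.maximalIdeal O • (ker g).map R.mkQ := by
    rintro _ ⟨x, hx, rfl⟩
    obtain ⟨y, hy, z, hz, rfl⟩ := Submodule.mem_sup.1 (h1 hx)
    have h3 : π z ∈ IsLocalRing.maximalIdeal O • ker g := by
      refine smul_mono_right _ π2 ?_
      rw [← map_smul'']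
      exact mem_map_of_mem hz
    rw [bot_sup_eq, ← π1 _ hx, map_add, π1 y (hR hy), map_add, mkQ_apply,
      (Quotient.mk_eq_zero R).2 hy, zero_add, ← map_smul'']
    exact mem_map_of_mem h3
  have h3 := le_of_le_smul_of_le_jacobson_bot (IsNoetherian.noetherian _)
    (IsLocalRing.maximalIdeal_le_jacobson ⊥) h2
  intro x hx
  exact (Quotient.mk_eq_zero R).1 (h3 (mem_map_of_mem hx))

end Pool.Agent.Lib.MP_696deb_nt.B2.PA
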