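import Pool.Agent.Lib.MP_696deb_nt.B2.GWn

/-! The formula of Greenberg and Wiles, as stated in the interface. -/

set_option autoImplicit false

namespace Pool.Agent.Lib.MP_696deb_nt.B2

theorem gw (F : CFT) (su : SUStmt) (ch : ChebStmt) : GWStmt F :=
  fun _ _ _ _ _ _ _ _ _ _ _ _ _ _ _ _ _ hH hT h2 hd hs e d1 d2 d3 ho hg hL =>
    gw_fin F su ch hH hT (finH_two hH hT h2) hd hs e d1 d2 d3 ho hg hL

end Pool.Agent.Lib.MP_696deb_nt.B2
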