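import Pool.Agent.Lib.MP_696deb_nt.B2.GW0

/-! Pairings of finite abelian groups. -/

set_option autoImplicit false

open scoped NNReal Classical
open Finset

namespace Pool.Agent.Lib.MP_696deb_nt.B2

variable {A B : Type} [AddCommGroup A] [AddCommGroup B] {n : ℕ}

theorem GWa_card_inf (S K : AddSubgroup A) :
    Nat.card (K.addSubgroupOf S) = Nat.card (S ⊓ K : AddSubgroup A) := by
  rw [← AddSubgroup.inf_addSubgroupOf_left]
  exact Nat.card_congr (AddSubgroup.addSubgroupOfEquivOfLe inf_le_left).toEquiv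

theorem GWa_card_rel (S K : AddSubgroup A) :
    Nat.card S = Nat.card (S ⊓ K : AddSubgroup A) * K.relIndex S := by
  rw [← GWa_card_inf, AddSubgroup.relIndex, AddSubgroup.card_mul_index]

theorem card_map_inf (f : A →+ B) (S : AddSubgroup A) :
    Nat.card S = Nat.card (S ⊓ f.ker : AddSubgroup A) * Nat.card (S.map f) := 
  (GWa_card_rel S f.ker).trans (by rw [AddSubgroup.relIndex_ker])

theorem card_ker_range (f : A →+ B) : Nat.card A = Nat.card f.ker * Nat.card f.range := by
  rw [← AddSubgroup.index_ker, AddSubgroup.card_mul_index]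

theorem finite_of_map (f : A →+ B) (S : AddSubgroup A)
    (h1 : Finite (S ⊓ f.ker : AddSubgroup A)) (h2 : Finite (S.map f)) : Finite S := by
  refine Nat.finite_of_card_ne_zero ?_
  rw [card_map_inf f S]
  exact (Nat.mul_pos Nat.card_pos Nat.card_pos).ne'

theorem card_inf_sup (U W : AddSubgroup A) :
    Nat.card (U ⊓ W : AddSubgroup A) * Nat.card (U ⊔ W : AddSubgroup A) =
      Nat.card U * Nat.card W := by
  have h1 := GWa_card_rel U W
  have h2 := GWa_card_rel (U ⊔ W) W
  rw [AddSubgroup.relIndex_sup_right, inf_eq_right.2 le_sup_right] at h2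
  rw [h2, h1]
  ring

theorem finite_hom [Finite A] [NeZero n] : Finite (A →+ ZMod n) := 
  Finite.of_injective (fun f : A →+ ZMod n => (f : A → ZMod n)) DFunLike.coe_injective

theorem card_hom_le [Finite A] [NeZero n] : Nat.card (A →+ ZMod n) ≤ Nat.card A := by
  have := Fintype.ofFinite A
  have h := Nat.card_le_card_of_injective
    (fun f : A →+ ZMod n => (ZMod.stdAddChar (N := n)).compAddMonoidHom f)
    (fun f g h => AddMonoidHom.ext fun x =>
      ZMod.injective_stdAddChar (DFunLike.congr_fun h x))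
  rwa [Nat.card_eq_fintype_card (α := AddChar A ℂ), AddChar.card_eq,
    ← Nat.card_eq_fintype_card] at h

theorem GWa_range_le [Finite A] [Finite B] [NeZero n] (P : A →+ B →+ ZMod n) :
    Nat.card P.range ≤ Nat.card P.flip.range := by
  have : Finite (B ⧸ P.flip.ker →+ ZMod n) := finite_hom
  have hk : ∀ φ : P.range, P.flip.ker ≤ φ.1.ker := by
    rintro ⟨φ, x, rfl⟩ y hy
    exact DFunLike.congr_fun (AddMonoidHom.mem_ker.1 hy) x
  have h := Nat.card_le_card_of_injective
    (fun φ : P.range => QuotientAddGroup.lift P.flip.ker φ.1 (hk φ))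
    (fun φ ψ h => Subtype.ext (AddMonoidHom.ext fun y =>
      DFunLike.congr_fun h (QuotientAddGroup.mk y)))
  rw [← AddSubgroup.index_ker P.flip]
  exact h.trans card_hom_le

theorem pair_card [Finite A] [Finite B] [NeZero n] (P : A →+ B →+ ZMod n) :
    Nat.card A * Nat.card P.flip.ker = Nat.card B * Nat.card P.ker := by
  have h : Nat.card P.range = Nat.card P.flip.range :=
    (GWa_range_le P).antisymm (GWa_range_le P.flip)
  rw [card_ker_range P, card_ker_range P.flip, h]
  ring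

theorem card_ann [Finite A] [Finite B] [NeZero n] (P : A →+ B →+ ZMod n) (W : AddSubgroup A) :
    Nat.card W * Nat.card (ann P W) = Nat.card B * Nat.card (W ⊓ P.ker : AddSubgroup A) := by
  have h := pair_card (P.comp W.subtype)
  have h1 : (P.comp W.subtype).flip.ker = ann P W := by
    ext y
    exact ⟨fun hy x hx => DFunLike.congr_fun (AddMonoidHom.mem_ker.1 hy) ⟨x, hx⟩,
      fun hy => AddMonoidHom.mem_ker.2 (AddMonoidHom.ext fun x => hy x.1 x.2)⟩
  have h2 : (P.comp W.subtype).ker = P.ker.addSubgroupOf W := rfl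
  rwa [h1, h2, GWa_card_inf] at h

theorem ann_sup (P : A →+ B →+ ZMod n) (U W : AddSubgroup A) :
    ann P (U ⊔ W) = ann P U ⊓ ann P W := by
  ext y
  refine ⟨fun h => ⟨fun x hx => h x (AddSubgroup.mem_sup_left hx),
    fun x hx => h x (AddSubgroup.mem_sup_right hx)⟩, fun h x hx => ?_⟩
  obtain ⟨u, hu, w, hw, rfl⟩ := AddSubgroup.mem_sup.1 hx
  rw [map_add, AddMonoidHom.add_apply, h.1 u hu, h.2 w hw, add_zero]

/-- An orthogonal subgroup of the right size is the annihilator. -/
theorem eq_ann [Finite A] [Finite B] [NeZero n] (P : A →+ B →+ ZMod n) {W : AddSubgroup A}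
    {W' : AddSubgroup B} (h : W' ≤ ann P W)
    (h' : Nat.card B * Nat.card (W ⊓ P.ker : AddSubgroup A) ≤ Nat.card W * Nat.card W') :
    W' = ann P W := by
  rw [← card_ann] at h'
  exact AddSubgroup.eq_of_le_of_card_ge h (Nat.le_of_mul_le_mul_left h' Nat.card_pos)

/-- The double annihilator. -/
theorem ann_ann [Finite A] [Finite B] [NeZero n] (P : A →+ B →+ ZMod n) (W : AddSubgroup A) :
    ann P.flip (ann P W) = W ⊔ P.ker := by
  refine (eq_ann P.flip ?_ ?_).symm
  · refine sup_le (fun x hx y hy => hy x hx) fun x hx y _ => ?_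
    exact DFunLike.congr_fun (AddMonoidHom.mem_ker.1 hx) y
  · have h1 : ann P W ⊓ P.flip.ker = P.flip.ker :=
      inf_eq_right.2 fun y hy x _ => DFunLike.congr_fun (AddMonoidHom.mem_ker.1 hy) x
    rw [h1, pair_card]
    refine (Nat.eq_of_mul_eq_mul_left (Nat.card_pos (α := W)) ?_).le
    rw [← mul_assoc (Nat.card W) (Nat.card (ann P W)), card_ann, mul_assoc, card_inf_sup]
    ring

/-- Orthogonal subgroups for the standard scalar product. -/
theorem dot_card_le {ι : Type} [Fintype ι] (W W' : AddSubgroup (ι → Z2))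
    (h : ∀ x ∈ W, ∀ y ∈ W', ∑ i, x i * y i = 0) :
    Nat.card W * Nat.card W' ≤ 2 ^ Fintype.card ι := by
  let P : (ι → Z2) →+ (ι → Z2) →+ ZMod (2 ^ 1) := AddMonoidHom.mk'
    (fun x => AddMonoidHom.mk' (fun y => ∑ i, x i * y i) fun y z => by
      simp only [Pi.add_apply, mul_add, Finset.sum_add_distrib])
    fun x z => AddMonoidHom.ext fun y => by
      simp only [Pi.add_apply, add_mul, Finset.sum_add_distrib, AddMonoidHom.mk'_apply,
        AddMonoidHom.add_apply]
  have hP : ∀ x y, P x y = ∑ i, x i * y i := fun _ _ => rfl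
  have hk : P.ker = ⊥ := by
    refine eq_bot_iff.2 fun x hx => AddSubgroup.mem_bot.2 (funext fun i => ?_)
    have h1 : P x (Pi.single i 1) = 0 := DFunLike.congr_fun (AddMonoidHom.mem_ker.1 hx) _
    rw [hP, Finset.sum_eq_single i (fun j _ hj => by rw [Pi.single_eq_of_ne hj, mul_zero])
      (fun hi => absurd (Finset.mem_univ i) hi), Pi.single_eq_same, mul_one] at h1
    exact h1
  have h1 := card_ann P W
  have h2 : Nat.card Z2 = 2 := Nat.card_zmod _
  rw [hk, inf_bot_eq, AddSubgroup.card_bot, mul_one, Nat.card_fun, h2,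
    Nat.card_eq_fintype_card (α := ι)] at h1
  rw [← h1]
  exact Nat.mul_le_mul_left _ (AddSubgroup.card_le_of_le (show W' ≤ ann P W from
    fun y hy x hx => h x hx y hy))

theorem GWa_up_zero (n : ℕ) : up n 0 = 0 := by
  rw [up, ZMod.val_zero, Nat.cast_zero, mul_zero]

theorem GWa_up_one (n : ℕ) : up n 1 = 2 ^ n := by
  have h : (1 : Z2).val = 1 := by decide
  rw [up, h, Nat.cast_one, mul_one]

theorem GWa_two (n : ℕ) : (2 ^ n + 2 ^ n : ZMod (2 ^ (1 + n))) = 0 := by
  have h := ZMod.natCast_self (2 ^ (1 + n))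
  rw [Nat.cast_pow, Nat.cast_ofNat] at h
  rw [← h]
  ring

theorem GWa_ne (n : ℕ) : (2 ^ n : ZMod (2 ^ (1 + n))) ≠ 0 := by
  intro h
  have h1 : ((2 ^ n : ℕ) : ZMod (2 ^ (1 + n))) = 0 := by
    rw [Nat.cast_pow, Nat.cast_ofNat]
    exact h
  have h2 := (Nat.pow_dvd_pow_iff_le_right (by norm_num : 1 < 2)).1
    ((ZMod.natCast_eq_zero_iff _ _).1 h1)
  omega

theorem up_add (n : ℕ) (s t : Z2) : up n (s + t) = up n s + up n t := by
  rcases Z2.cases s with rfl | rfl
  · rw [zero_add, GWa_up_zero, zero_add]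
  rcases Z2.cases t with rfl | rfl
  · rw [add_zero, GWa_up_zero, add_zero]
  · rw [Z2.add_self, GWa_up_zero, GWa_up_one, GWa_two]

theorem up_zero (n : ℕ) : up n 0 = 0 := GWa_up_zero n

theorem up_eq_zero {n : ℕ} {t : Z2} : up n t = 0 ↔ t = 0 := by
  refine ⟨fun h => ?_, fun h => by rw [h, up_zero]⟩
  rcases Z2.cases t with rfl | rfl
  · rfl
  · rw [GWa_up_one] at h
    exact absurd h (GWa_ne n)

theorem up_sum {ι : Type} (n : ℕ) (s : Finset ι) (t : ι → Z2) :
    up n (∑ i ∈ s, t i) = ∑ i ∈ s, up n (t i) := 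
  map_sum (AddMonoidHom.mk' (up n) (up_add n)) t s

theorem GWa_up_nat (n k : ℕ) : up n (k : Z2) = 2 ^ n * (k : ZMod (2 ^ (1 + n))) := by
  induction k with
  | zero => rw [Nat.cast_zero, Nat.cast_zero, up_zero, mul_zero]
  | succ k ih => rw [Nat.cast_succ, Nat.cast_succ, up_add, ih, GWa_up_one, mul_add, mul_one]

theorem exists_up {n : ℕ} {x : ZMod (2 ^ (1 + n))} (h : x + x = 0) : ∃ t, up n t = x := by
  have h1 : ((x.val + x.val : ℕ) : ZMod (2 ^ (1 + n))) = 0 := by
    rw [Nat.cast_add, ZMod.natCast_zmod_val]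
    exact h
  have h2 : 2 * 2 ^ n ∣ 2 * x.val := by
    rw [two_mul x.val, ← pow_succ', add_comm n 1]
    exact (ZMod.natCast_eq_zero_iff _ _).1 h1
  obtain ⟨k, hk⟩ := Nat.dvd_of_mul_dvd_mul_left two_pos h2
  refine ⟨k, ?_⟩
  rw [GWa_up_nat, ← ZMod.natCast_zmod_val x, hk, Nat.cast_mul, Nat.cast_pow, Nat.cast_ofNat]

theorem cy_mul_up (n : ℕ) (g : Gam) (t : Z2) : cy (1 + n) g * up n t = up n t := by
  have hu : IsUnit (cy (1 + n) g) := (cyc_unit g).map (PadicInt.toZModPow (1 + n))
  rcases Z2.cases t with rfl | rfl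
  · rw [up_zero, mul_zero]
  have h1 := GWa_up_nat n (cy (1 + n) g).val
  rw [ZMod.natCast_zmod_val, mul_comm, ← GWa_up_one] at h1
  rcases Z2.cases ((cy (1 + n) g).val : Z2) with h | h
  · rw [h, up_zero, GWa_up_one] at h1
    exact absurd ((hu.mul_right_eq_zero).1 h1.symm) (GWa_ne n)
  · rw [h] at h1
    exact h1.symm

end Pool.Agent.Lib.MP_696deb_nt.B2
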