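import Pool.Agent.Lib.MP_696deb_nt.B2.PAa

set_option autoImplicit false

open scoped Classical
open Finset Matrix PowerSeries Filter Submodule LinearMap

namespace Pool.Agent.Lib.MP_696deb_nt.B2.PA

variable {k : ℕ} {M : Type} [AddCommGroup M] [Module Lam M]

theorem pab_coeff (k n : ℕ) (c : ℤ_[2]) :
    coeff n (C c * (2 * X) ^ k : Lam) = if n = k then 2 ^ k * c else 0 := by
  rw [mul_pow, show (2 : Lam) ^ k = C ((2 : ℤ_[2]) ^ k) by rw [map_pow, map_ofNat], coeff_C_mul,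
    coeff_C_mul, coeff_X_pow]
  split_ifs <;> ring

theorem pab_ne (k : ℕ) : ((2 * X) ^ k : Lam) ∉ aa (k + 1) (k + 1) := fun h => by
  have h1 := mem_aa.1 h k k.lt_succ_self
  rw [← one_mul ((2 * X) ^ k : Lam), ← map_one C, pab_coeff, if_pos rfl, pow_succ,
    mul_dvd_mul_iff_left (pow_ne_zero _ two_ne_zero), ← isUnit_iff_dvd_one] at h1
  exact (PadicInt.prime_p (p := 2)).not_isUnit (by exact_mod_cast h1)

theorem pab_key {a : Lam} (ha : a ∉ aa (k + 1) (k + 1)) :
    ∃ b, b * a - (2 * X) ^ k ∈ aa (k + 1) (k + 1) := by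
  rw [mem_aa] at ha
  push Not at ha
  obtain ⟨h1, h2⟩ := Nat.find_spec ha
  have h3 := fun m => Nat.find_min ha (m := m)
  generalize Nat.find ha = n at h1 h2 h3
  obtain ⟨d, hd⟩ : coeff n a ∣ 2 ^ k := by
    rcases ValuationRing.dvd_total (coeff n a) (2 ^ k) with h | ⟨c, hc⟩
    · exact h
    · have : IsUnit c := by
        by_contra hu
        rw [← mem_nonunits_iff, ← IsLocalRing.mem_maximalIdeal, PadicInt.maximalIdeal_eq_span_p,
          Ideal.mem_span_singleton, Nat.cast_ofNat] at hu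
        exact h2 (by rw [hc, pow_succ]; exact mul_dvd_mul_left _ hu)
      rw [hc]
      exact this.mul_right_dvd.2 dvd_rfl
  refine ⟨C d * X ^ (k - n), mem_aa.2 fun m hm => ?_⟩
  rw [← one_mul ((2 * X) ^ k : Lam), ← map_one C, map_sub, pab_coeff, mul_assoc, coeff_C_mul,
    coeff_X_pow_mul']
  by_cases e : m = k
  · rw [if_pos e, if_pos (by omega), show m - (k - n) = n by omega, mul_one, hd, mul_comm, sub_self]
    exact dvd_zero _
  · rw [if_neg e, sub_zero]
    split_ifs with e2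
    · exact Dvd.dvd.mul_left (by_contra fun h => h3 (m - (k - n)) (by omega) ⟨by omega, h⟩) _
    · simp

theorem pab_chi (k : ℕ) : ∃ χ : CharacterModule (Ak k), ∀ a : Ak k,
    (∀ b : Lam, χ (b • a) = 0) → a = 0 := by
  rcases k with _ | k
  · refine ⟨0, fun a _ => ?_⟩
    obtain ⟨a, rfl⟩ := Ideal.Quotient.mk_surjective a
    exact Ideal.Quotient.eq_zero_iff_mem.2 (mem_aa.2 fun n hn => absurd hn n.not_lt_zero)
  obtain ⟨χ, hχ⟩ := CharacterModule.exists_character_apply_ne_zero_of_ne_zero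
    (A := Ak (k + 1)) (a := Ideal.Quotient.mk _ ((2 * X) ^ k))
    fun h => pab_ne k (Ideal.Quotient.eq_zero_iff_mem.1 h)
  refine ⟨χ, fun a h => ?_⟩
  obtain ⟨a, rfl⟩ := Ideal.Quotient.mk_surjective a
  by_contra h0
  obtain ⟨b, hb⟩ := pab_key (mt Ideal.Quotient.eq_zero_iff_mem.2 h0)
  exact hχ (Ideal.Quotient.eq.2 hb ▸ h b)

theorem pab_card (A : Type) [AddCommGroup A] [Finite A] :
    Finite (CharacterModule A) ∧ Nat.card (CharacterModule A) ≤ Nat.card A := by
  let ι : AddCircle (1 : ℚ) →+ AddCircle (1 : ℝ) :=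
    QuotientAddGroup.map _ _ (Rat.castHom ℝ).toAddMonoidHom (by
      rw [AddSubgroup.zmultiples_le]
      simp)
  have hι : Function.Injective ι := (injective_iff_map_eq_zero ι).2 fun x hx => by
    induction x using QuotientAddGroup.induction_on with
    | H x =>
      obtain ⟨n, hn⟩ := (AddCircle.coe_eq_zero_iff (1 : ℝ) (x := (x : ℝ))).1 hx
      refine (AddCircle.coe_eq_zero_iff _).2 ⟨n, ?_⟩
      rw [zsmul_one] at hn ⊢
      exact_mod_cast hn
  let F : CharacterModule A → AddChar A ℂ := fun χ =>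
    { toFun := fun a => (ι (χ a)).toCircle
      map_zero_eq_one' := by simp
      map_add_eq_mul' := fun a b => by simp [AddCircle.toCircle_add] }
  have hF : Function.Injective F := fun χ χ' h => CharacterModule.ext _ fun a =>
    hι (AddCircle.injective_toCircle one_ne_zero (Subtype.ext (DFunLike.congr_fun h a)))
  cases nonempty_fintype A
  refine ⟨Finite.of_injective F hF, (Nat.card_le_card_of_injective F hF).trans ?_⟩
  rw [Nat.card_eq_fintype_card, Nat.card_eq_fintype_card]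
  exact AddChar.card_addChar_le _ _

theorem pab_card_eq (A : Type) [AddCommGroup A] [Finite A] :
    Nat.card (CharacterModule A) = Nat.card A := by
  obtain ⟨h1, h2⟩ := pab_card A
  obtain ⟨h3, h4⟩ := pab_card (CharacterModule A)
  let F : A →+ CharacterModule (CharacterModule A) :=
    { toFun := fun a => AddMonoidHom.mk' (fun χ => χ a) fun _ _ => rfl
      map_zero' := CharacterModule.ext _ fun χ => map_zero χ
      map_add' := fun a b => CharacterModule.ext _ fun χ => map_add χ a b }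
  exact h2.antisymm ((Nat.card_le_card_of_injective F ((injective_iff_map_eq_zero F).2
    fun a ha => CharacterModule.eq_zero_of_character_apply
      fun χ => DFunLike.congr_fun ha χ)).trans h4)

theorem pab_inj {χ : CharacterModule (Ak k)} (hχ : ∀ a : Ak k, (∀ b : Lam, χ (b • a) = 0) → a = 0)
    {f g : M →ₗ[Lam] Ak k} (h : ∀ x, χ (f x) = χ (g x)) : f = g :=
  LinearMap.ext fun x => sub_eq_zero.1 (hχ _ fun b => by
    rw [smul_sub, map_sub, ← map_smul, ← map_smul, h, sub_self])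

theorem pab_surj {χ : CharacterModule (Ak k)}
    (hχ : ∀ a : Ak k, (∀ b : Lam, χ (b • a) = 0) → a = 0)
    (hM : ∀ a ∈ aa k k, ∀ x : M, a • x = 0) (ψ : CharacterModule M) :
    ∃ g : M →ₗ[Lam] Ak k, ∀ x, χ (g x) = ψ x := by
  obtain ⟨h1, h2⟩ := pab_card (Ak k)
  let E : Ak k → CharacterModule (Ak k) := fun a => CharacterModule.dual (mulRight Lam a) χ
  have hE : ∀ a (b : Lam), E a (Ideal.Quotient.mk _ b) = χ (b • a) := fun a b => rfl
  have hi : Function.Injective E := fun a a' h => sub_eq_zero.1 (hχ _ fun b => by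
    rw [smul_sub, map_sub, ← hE, ← hE, h, sub_self])
  have hs := ((Nat.bijective_iff_injective_and_card E).2 ⟨hi, (pab_card_eq _).symm⟩).2
  have h3 : ∀ x : M, ∃ a : Ak k, ∀ b : Lam, χ (b • a) = ψ (b • x) := fun x => by
    obtain ⟨a, ha⟩ := hs (CharacterModule.dual
      ((aa k k).liftQ (toSpanSingleton Lam M x) fun b hb => hM b hb x) ψ)
    exact ⟨a, fun b => by rw [← hE, ha]; rfl⟩
  choose g hg using h3
  refine ⟨⟨⟨g, fun x y => sub_eq_zero.1 (hχ _ fun b => ?_)⟩,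
    fun c x => sub_eq_zero.1 (hχ _ fun b => ?_)⟩, fun x => ?_⟩
  · rw [smul_sub, smul_add, map_sub, map_add, hg, hg, hg, smul_add, map_add, sub_self]
  · rw [smul_sub, map_sub, RingHom.id_apply, smul_smul, hg, hg, smul_smul, sub_self]
  · have := hg x 1
    rwa [one_smul, one_smul] at this

theorem frob_ext (hM : ∀ a ∈ aa k k, ∀ x : M, a • x = 0) (W : Submodule Lam M)
    (f : W →ₗ[Lam] Ak k) : ∃ g : M →ₗ[Lam] Ak k, ∀ x : W, g x = f x := by
  obtain ⟨χ, hχ⟩ := pab_chi k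
  obtain ⟨ψ, hψ⟩ := CharacterModule.dual_surjective_of_injective _ W.injective_subtype
    (CharacterModule.dual f χ)
  obtain ⟨g, hg⟩ := pab_surj hχ hM ψ
  exact ⟨g, LinearMap.congr_fun (pab_inj hχ (f := g ∘ₗ W.subtype) (g := f)
    fun x => (hg x).trans (DFunLike.congr_fun hψ x))⟩

theorem frob_cog (hM : ∀ a ∈ aa k k, ∀ x : M, a • x = 0) {x : M}
    (hx : ∀ f : M →ₗ[Lam] Ak k, f x = 0) : x = 0 := by
  obtain ⟨χ, hχ⟩ := pab_chi k
  refine CharacterModule.eq_zero_of_character_apply fun ψ => ?_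
  obtain ⟨g, hg⟩ := pab_surj hχ hM ψ
  rw [← hg, hx, map_zero]

theorem frob_card [Finite M] (hM : ∀ a ∈ aa k k, ∀ x : M, a • x = 0) :
    Nat.card (M →ₗ[Lam] Ak k) = Nat.card M := by
  obtain ⟨χ, hχ⟩ := pab_chi k
  rw [← pab_card_eq M]
  refine Nat.card_eq_of_bijective (fun f => CharacterModule.dual f χ)
    ⟨fun f g h => pab_inj hχ fun x => DFunLike.congr_fun h x, fun ψ => ?_⟩
  obtain ⟨g, hg⟩ := pab_surj hχ hM ψ
  exact ⟨g, CharacterModule.ext _ hg⟩

theorem mem_of_ann (R : Submodule Lam M) {x : M}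
    (hx : ∀ t : M →ₗ[Lam] Ak k, R ≤ ker t → t x = 0) : x ∈ R ⊔ aa k k • ⊤ := by
  rw [← Submodule.Quotient.mk_eq_zero]
  refine frob_cog (k := k) (fun a ha y => ?_) fun f => hx (f ∘ₗ (R ⊔ aa k k • ⊤).mkQ) fun y hy => ?_
  · obtain ⟨y, rfl⟩ := Submodule.Quotient.mk_surjective _ y
    rw [← Submodule.Quotient.mk_smul, Submodule.Quotient.mk_eq_zero]
    exact mem_sup_right (smul_mem_smul ha mem_top)
  · rw [LinearMap.mem_ker, LinearMap.comp_apply, mkQ_apply,
      (Submodule.Quotient.mk_eq_zero _).2 (mem_sup_left hy), map_zero]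

theorem cog {I : Ideal Lam} (hI : aa k k ≤ I) {x : Lam ⧸ I}
    (hx : ∀ ι : (Lam ⧸ I) →ₗ[Lam] Ak k, ι x = 0) : x = 0 := by
  refine frob_cog (fun a ha y => ?_) hx
  obtain ⟨y, rfl⟩ := Ideal.Quotient.mk_surjective y
  exact Ideal.Quotient.eq_zero_iff_mem.2 (I.mul_mem_right y (hI ha))

/-- The socle is the unique minimal ideal. -/
theorem soc_iff (hk : 1 ≤ k) {a : Lam} :
    a ∈ aa k k ⊔ Ideal.span {(2 * X) ^ (k - 1)} ↔ ∀ b ∈ aa 1 1, b * a ∈ aa k k := by
  obtain ⟨k, rfl⟩ : ∃ n, k = n + 1 := ⟨k - 1, by omega⟩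
  rw [Nat.add_sub_cancel]
  have g1 : (2 : Lam) ^ (k + 1) ∈ aa (k + 1) (k + 1) := Ideal.subset_span (by simp)
  have g2 : (X : Lam) ^ (k + 1) ∈ aa (k + 1) (k + 1) := Ideal.subset_span (by simp)
  constructor
  · intro h b hb
    obtain ⟨x, hx, y, hy, rfl⟩ := Submodule.mem_sup.1 h
    obtain ⟨c, rfl⟩ := Ideal.mem_span_singleton'.1 hy
    obtain ⟨u, v, rfl⟩ := Ideal.mem_span_pair.1 hb
    rw [show (u * 2 ^ 1 + v * X ^ 1) * (x + c * (2 * X) ^ k) = (u * 2 ^ 1 + v * X ^ 1) * x +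
      (u * c * X ^ k * 2 ^ (k + 1) + v * c * 2 ^ k * X ^ (k + 1)) by ring]
    exact add_mem (Ideal.mul_mem_left _ _ hx)
      (add_mem (Ideal.mul_mem_left _ _ g1) (Ideal.mul_mem_left _ _ g2))
  · intro h
    have h1 := mem_aa.1 (h 2 (Ideal.subset_span (by simp))) k k.lt_succ_self
    have h2 := mem_aa.1 (h X (Ideal.subset_span (by simp)))
    rw [show (2 : Lam) = C (2 : ℤ_[2]) from (map_ofNat _ 2).symm, coeff_C_mul, pow_succ',
      mul_dvd_mul_iff_left two_ne_zero] at h1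
    obtain ⟨c, hc⟩ := h1
    rw [← sub_add_cancel a (C c * (2 * X) ^ k)]
    refine add_mem_sup (mem_aa.2 fun n hn => ?_)
      (Ideal.mul_mem_left _ _ (Ideal.mem_span_singleton_self _))
    rw [map_sub, pab_coeff]
    split_ifs with e
    · rw [e, hc, sub_self]
      exact dvd_zero _
    · rw [sub_zero, ← coeff_succ_X_mul]
      exact h2 _ (by omega)

theorem soc_ne (hk : 1 ≤ k) : ((2 * X) ^ (k - 1) : Lam) ∉ aa k k := by
  obtain ⟨k, rfl⟩ : ∃ n, k = n + 1 := ⟨k - 1, by omega⟩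
  exact pab_ne k

end Pool.Agent.Lib.MP_696deb_nt.B2.PA
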