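import Pool.Agent.Lib.MP_696deb_nt.B2.XLa
import Pool.Agent.Lib.MP_696deb_nt.B2.PAb
import Pool.Agent.Lib.MP_696deb_nt.B2.GWa

/-! Perfect pairings. -/

set_option autoImplicit false

open scoped NNReal Classical
open Finset Matrix NumberTheorySymbols PowerSeries

namespace Pool.Agent.Lib.MP_696deb_nt.B2

variable {T : Tate} {n k : ℕ} {lam w : Plc} {ψ : Gam → Lam} {Q : Finset Plc} {ty : Plc → Ty}
  {R : Finset (Fin 5)} {B B' : Type} [AddCommGroup B] [Module Lam B] [AddCommGroup B']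
  [Module Lam B'] {c : Gam → Fin 2 → B} {g : Gam}

theorem XSa_sep {A : Type} [AddCommGroup A] [Finite A] {N : ℕ} [NeZero N]
    (h : ∀ x : A, N • x = 0) {x : A} (hx : ∀ f : A →+ ZMod N, f x = 0) : x = 0 := by
  by_contra h0
  obtain ⟨χ, hχ⟩ := AddChar.exists_apply_ne_zero.2 h0
  have h1 : ∀ y, ∃ t : ZMod N, ZMod.stdAddChar t = χ y := fun y => by
    obtain ⟨i, -, hi⟩ := (Complex.isPrimitiveRoot_exp N (NeZero.ne N)).eq_pow_of_pow_eq_one
      (ξ := χ y) (by rw [← AddChar.map_nsmul_eq_pow, h, AddChar.map_zero_eq_one])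
    refine ⟨((i : ℤ) : ZMod N), ?_⟩
    rw [← hi, ZMod.stdAddChar_coe, ← Complex.exp_nat_mul]
    congr 1
    push_cast
    ring
  choose t ht using h1
  have h2 : t x = 0 := hx (AddMonoidHom.mk' t fun y z => ZMod.injective_stdAddChar (by
    rw [AddChar.map_add_eq_mul, ht, ht, ht, AddChar.map_add_eq_mul]))
  exact hχ (by rw [← ht, h2, AddChar.map_zero_eq_one])

/-- Every module of level `k` has a dual. -/
theorem exists_perf (hB : Kil k B) [Finite B] : ∃ (B' : Type) (_ : AddCommGroup B')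
    (_ : Module Lam B') (_ : Finite B') (β : B →+ B' →+ ZMod (2 ^ k)), Kil k B' ∧ Perf β := by
  let inst : Module Lam (B →+ ZMod (2 ^ k)) :=
    { smul := fun a f => f.comp (DistribSMul.toAddMonoidHom B a)
      one_smul := fun f => AddMonoidHom.ext fun x => congrArg f (one_smul Lam x)
      mul_smul := fun a b f => AddMonoidHom.ext fun x =>
        congrArg f ((mul_smul a b x).trans (smul_comm a b x))
      smul_zero := fun _ => rfl
      smul_add := fun _ _ _ => rfl
      add_smul := fun a b f => AddMonoidHom.ext fun x =>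
        (congrArg f (add_smul a b x)).trans (map_add f _ _)
      zero_smul := fun f => AddMonoidHom.ext fun x =>
        (congrArg f (zero_smul Lam x)).trans (map_zero f) }
  exact ⟨B →+ ZMod (2 ^ k), inferInstance, inst, finite_hom, AddMonoidHom.eval,
    fun a ha f => AddMonoidHom.ext fun x => (congrArg f (hB a ha x)).trans (map_zero f),
    fun _ _ _ => rfl, fun x hx => XSa_sep hB.two hx, fun f hf => AddMonoidHom.ext hf⟩

/-- The quotients by the standard ideals are self-dual. -/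
theorem perf_aa (j i : ℕ) : ∃ t : (Lam ⧸ aa j i) →+ ZMod (2 ^ j),
    Perf (m := j) ((AddMonoidHom.mul (R := Lam ⧸ aa j i)).compr₂ t) := by
  have hz : ∀ x : ℤ_[2], PadicInt.toZModPow j x = 0 ↔ (2 : ℤ_[2]) ^ j ∣ x := fun x => by
    rw [← RingHom.mem_ker, PadicInt.ker_toZModPow, Ideal.mem_span_singleton, Nat.cast_ofNat]
  obtain ⟨t, ht⟩ : ∃ t : (Lam ⧸ aa j i) →+ ZMod (2 ^ j), ∀ x, (∀ y, t (x * y) = 0) → x = 0 := by
    rcases i with _ | i
    · refine ⟨0, fun x _ => ?_⟩
      obtain ⟨a, rfl⟩ := Ideal.Quotient.mk_surjective x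
      exact Ideal.Quotient.eq_zero_iff_mem.2 (PA.mem_aa.2 fun n hn => absurd hn n.not_lt_zero)
    refine ⟨QuotientAddGroup.lift (aa j (i + 1)).toAddSubgroup
      ((PadicInt.toZModPow j).toAddMonoidHom.comp (coeff (R := ℤ_[2]) i).toAddMonoidHom)
      fun f hf => (hz _).2 (PA.mem_aa.1 hf i i.lt_succ_self), fun x hx => ?_⟩
    obtain ⟨a, rfl⟩ := Ideal.Quotient.mk_surjective x
    refine Ideal.Quotient.eq_zero_iff_mem.2 (PA.mem_aa.2 fun n hn => ?_)
    have h1 : (2 : ℤ_[2]) ^ j ∣ coeff i (a * X ^ (i - n)) :=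
      (hz _).1 (hx (Ideal.Quotient.mk _ (X ^ (i - n))))
    rwa [coeff_mul_X_pow', if_pos (Nat.sub_le _ _), show i - (i - n) = n by omega] at h1
  exact ⟨t, fun a x y => congrArg t ((smul_mul_assoc a x y).trans (mul_smul_comm a x y).symm), ht,
    fun y hy => ht y fun x => (congrArg t (mul_comm y x)).trans (hy x)⟩

end Pool.Agent.Lib.MP_696deb_nt.B2
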