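import Pool.Agent.Lib.MP_696deb_nt.B2.XLc
import Pool.Agent.Lib.MP_696deb_nt.B2.XSa
import Pool.Agent.Lib.MP_696deb_nt.B2.GW
import Pool.Agent.Lib.MP_696deb_nt.B2.LO3b

/-! Global duality for Selmer structures. -/

set_option autoImplicit false

open scoped NNReal Classical
open Finset Matrix NumberTheorySymbols PowerSeries

namespace Pool.Agent.Lib.MP_696deb_nt.B2

variable {T : Tate} {n k : ℕ} {lam w : Plc} {ψ : Gam → Lam} {Q : Finset Plc} {ty : Plc → Ty}
  {R : Finset (Fin 5)} {B B' : Type} [AddCommGroup B] [Module Lam B] [AddCommGroup B']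
  [Module Lam B'] {c : Gam → Fin 2 → B} {g : Gam}

/-- The conjugate character. -/
noncomputable def cjc (ψ : Gam → Lam) (g : Gam) : Lam := ψ (cc * g * cc)

theorem cjc_cjc (ψ : Gam → Lam) : cjc (cjc ψ) = ψ := funext fun g => congrArg ψ (cc_cc g)

theorem xsb_mem : cc * g * cc ∈ GK n ↔ g ∈ GK n :=
  ⟨fun h => cc_cc g ▸ conj_cc_mem h, conj_cc_mem⟩

theorem Chr0.cjc (h : Chr0 n k lam ψ) : Chr0 n k lam (cjc ψ) where
  sm := h.sm.conj cc cc fun _ => conj_cc_mem
  one := by rw [B2.cjc, _root_.mul_one, cc_mul_cc]; exact h.one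
  mul g hg g' hg' := by
    rw [B2.cjc, cc_mul]
    exact h.mul _ (conj_cc_mem hg) _ (conj_cc_mem hg')
  res g := h.res _
  dih g hg := by
    rw [B2.cjc, cc_mul]
    exact h.dih _ fun e => hg (xsb_mem.1 e)
  unr w hw σ hσ := h.unr (cc • w) hw _ ⟨conj_cc_mem hσ.1, mem_Ine_cc.2 hσ.2⟩

theorem SOk0.cjc (h : SOk0 T n k lam ψ Q) : SOk0 T n k lam (cjc ψ) Q :=
  ⟨h.nok, h.adm, h.chr.cjc, fun w hw => ⟨(h.deep w hw).adm, (h.deep w hw).ne, (h.deep w hw).rho, by
    have := sub_mem (h.chr.mul_cj h.nok.pos ((h.deep w hw).adm.cc_fr h.nok.pos))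
      (Ideal.mul_mem_right (ψ (cc * (cc * fr w) * cc)) _ (h.deep w hw).psi)
    convert this using 1
    rw [B2.cjc]
    ring⟩, h.inj⟩

/-- Complex conjugation on the Tate module with coefficients. -/
noncomputable def tauB (T : Tate) (B : Type) [AddCommGroup B] [Module Lam B] :
    (Fin 2 → B) →ₗ[Lam] (Fin 2 → B) := mact B ((T.ρ cc).map C)

theorem tauB_zero (x : Fin 2 → B) : tauB T B x 0 = x 0 := by
  simp [tauB, mact_apply, T.conj]

theorem tauB_one (x : Fin 2 → B) : tauB T B x 1 = -x 1 := by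
  simp [tauB, mact_apply, T.conj]

theorem tauB_tauB (x : Fin 2 → B) : tauB T B (tauB T B x) = x := funext fun i => by
  fin_cases i
  · exact (tauB_zero _).trans (tauB_zero _)
  · exact (tauB_one _).trans (by rw [tauB_one, neg_neg]; rfl)

theorem tauB_inj : Function.Injective (tauB T B) := Function.LeftInverse.injective tauB_tauB

theorem tauB_act (x : Fin 2 → B) :
    tauB T B (act T ψ B (cc * g * cc) x) = act T (cjc ψ) B g (tauB T B x) := by
  rw [act_eq, act_eq, map_smul, tauB, ← mact_mul, ← mact_mul, ← Matrix.map_mul, ← Matrix.map_mul,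
    ← map_mul, ← map_mul, ← mul_assoc, ← mul_assoc, cc_mul_cc, one_mul]
  rfl

/-- Complex conjugation on cochains. -/
noncomputable def twc (T : Tate) (c : Gam → Fin 2 → B) (g : Gam) : Fin 2 → B :=
  tauB T B (c (cc * g * cc))

theorem twc_inj : Function.Injective (twc T : (Gam → Fin 2 → B) → _) := fun c c' e =>
  funext fun g => tauB_inj (T := T) (by simpa only [twc, cc_cc] using congrFun e (cc * g * cc))

theorem Coc.twc (h : Coc (GK n) (act T ψ B) c) : Coc (GK n) (act T (cjc ψ) B) (twc T c) :=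
  ⟨(h.1.conj cc cc fun _ => conj_cc_mem).comp (tauB T B), fun g hg g' hg' => by
    rw [B2.twc, cc_mul, h.2 _ (conj_cc_mem hg) _ (conj_cc_mem hg'), map_add, tauB_act]
    rfl⟩

theorem twc_Z1 (h : c ∈ Z1 (GK n) (act T ψ B)) : twc T c ∈ Z1 (GK n) (act T (cjc ψ) B) :=
  ⟨h.1.twc, fun g hg => by rw [twc, h.2 _ fun e => hg (xsb_mem.1 e), map_zero]⟩

theorem SOk0.twc_unr (h : SOk0 T n k lam ψ Q)
    (u : ∀ w, Away (GK n) (pls lam Q) w → ∀ σ ∈ GK n ⊓ Ine w, c σ = 0) :
    ∀ w, Away (GK n) (pls lam Q) w → ∀ σ ∈ GK n ⊓ Ine w, twc T c σ = 0 := fun w hw σ hσ => by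
  rw [twc, u _ (h.away_cc hw cc) _ ⟨conj_cc_mem hσ.1, mem_Ine_cc.2 hσ.2⟩, map_zero]

theorem xsb_conj {M : Type} [AddCommGroup M] {H : Subgroup Gam} {a : Gam → M →+ M} {c : Gam → M}
    (h : Coc H a c) {γ : Gam} (hγ : γ ∈ H) (hg : g ∈ H) :
    c g = a γ (c (γ⁻¹ * g * γ)) - cob a (c γ) g := by
  have h1 := h.2 _ hγ _ (mul_mem (mul_mem (inv_mem hγ) hg) hγ)
  rw [show γ * (γ⁻¹ * g * γ) = g * γ by group, h.2 _ hg _ hγ] at h1
  rw [cob, ← sub_eq_iff_eq_add'.2 h1]
  abel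

theorem xsb_cob {M : Type} [AddCommGroup M] {H : Subgroup Gam} {a : Gam → M →+ M} {c : Gam → M}
    (ha : Act H a) (h : Coc H a c) {γ : Gam} (hγ : γ ∈ H) {x : M}
    (e : ∀ g ∈ H ⊓ Dec w, c g = cob a x g) (hg : g ∈ H ⊓ Dec (γ • w)) :
    c g = cob a (a γ x - c γ) g := by
  have h1 := mul_mem (mul_mem (inv_mem hγ) hg.1) hγ
  rw [xsb_conj h hγ hg.1, e _ ⟨h1, mem_Dec_smul.1 hg.2⟩]
  simp only [cob, map_sub]
  rw [← ha.mul _ hγ _ h1, ← ha.mul _ hg.1 _ hγ, show γ * (γ⁻¹ * g * γ) = g * γ by group]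
  abel

theorem xsb_twc_cob {x : Fin 2 → B}
    (e : ∀ g ∈ GK n ⊓ Dec (cc • w), c g = cob (act T ψ B) x g) (hg : g ∈ GK n ⊓ Dec w) :
    twc T c g = cob (act T (cjc ψ) B) (tauB T B x) g := by
  rw [twc, e _ ⟨conj_cc_mem hg.1, mem_Dec_cc.2 hg.2⟩, cob, cob, map_sub, tauB_act]

theorem xsb_fr (w : Plc) : (cc * fr w) • w = cc • w := by
  rw [mul_smul, show fr w • w = w from (fr_spec w).1]

theorem SOk0.exists_bar (h : SOk0 T n k lam ψ Q) (j : Fin 5) :
    ∃ γ ∈ GK n, γ • sp lam (bar j) = cc • sp lam j := by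
  rcases sp_cases lam j with ⟨v, b, e, e'⟩ | rfl
  · exact ⟨1, one_mem _, by rw [e, e', cc_bq, one_smul]⟩
  · exact ⟨_, h.adm.cc_fr h.nok.pos, xsb_fr lam⟩

theorem SOk0.twc_kum (h : SOk0 T n k lam ψ Q) (hB : Kil k B) (hc : Coc (GK n) (act T ψ B) c)
    (e : KumC T (GK n ⊓ Dec w2) c) : KumC T (GK n ⊓ Dec w2) (twc T c) := fun m f => by
  have hγ := mul_mem_GK (cc_notMem h.nok.pos) (h.nok.out_two w2_p)
  have e0 := xsb_fr w2
  generalize cc * fr w2 = γ at hγ e0
  obtain ⟨S, hS⟩ := e m (f.comp (DistribSMul.toAddMonoidHom B (ψ γ)))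
  have key : ∀ (g : Gam) (x : Fin 2 → B), T.emb m (fun i => f (mact B ((T.ρ g).map C) x i)) =
      g • T.emb m fun i => f (x i) := fun g x => by
    rw [T.smul, ← tAct_of (T := T) (ψ := fun _ => 1) (D := ⊤) hB (fun _ _ => by simp) m f g trivial,
      act_eq, one_smul]
  refine ⟨cc • (γ • S - T.emb m fun i => f (c γ i)), fun g hg => ?_⟩
  have h1 : cc * g * cc ∈ GK n ⊓ Dec (γ • w2) := ⟨conj_cc_mem hg.1, e0 ▸ mem_Dec_cc.2 hg.2⟩
  have h2 := hS _ ⟨(GK n).mul_mem ((GK n).mul_mem ((GK n).inv_mem hγ) h1.1) hγ,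
    mem_Dec_smul.1 h1.2⟩
  have h3 := h.chr.tAct (T := T) h.nok h.adm.ne.1 hB (w := γ • w2) w2_p m f _ h1 (c γ)
  have h4 : (fun i => f (c (cc * g * cc) i)) =
      (fun i => f (mact B ((T.ρ γ).map C) (ψ γ • c (γ⁻¹ * (cc * g * cc) * γ)) i)) -
        ((fun i => f (act T ψ B (cc * g * cc) (c γ) i)) - fun i => f (c γ i)) := funext fun i => by
    rw [xsb_conj hc hγ h1.1, cob, act_eq, ← map_smul]
    simp only [Pi.sub_apply, map_sub]
  rw [show T.emb m (fun i => f (twc T c g i)) = _ from key cc _, h4, map_sub, map_sub, key, h3,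
    ← T.smul, show (T.emb m fun i => f ((ψ γ • c (γ⁻¹ * (cc * g * cc) * γ)) i)) = _ from h2]
  simp only [smul_sub, smul_smul]
  rw [show cc * (γ * (γ⁻¹ * (cc * g * cc) * γ)) = cc * cc * (g * (cc * γ)) by group,
    show cc * (cc * g * cc) = cc * cc * (g * cc) by group, cc_mul_cc, one_mul, one_mul]
  abel

/-- Selmer groups with arbitrary conditions at the deep places. -/
noncomputable def SelN (T : Tate) (n : ℕ) (lam : Plc) (ψ : Gam → Lam) (R : Finset (Fin 5))
    (Q : Finset Plc) (N : Plc → AddSubgroup ((Fin 2 → B) × (Fin 2 → B))) : AddSubgroup (Co B) :=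
  Sel (GK n) (act T ψ B) (pls lam Q) (R.image (sp lam)) (insert w2 Q) fun w =>
    if w = w2 then LK T (GK n ⊓ Dec w) B else Ldp (GK n ⊓ Dec w) (act T ψ B) (fq w) (gn w) (N w)

theorem SOk0.mem_SelN (h : SOk0 T n k lam ψ Q) {N : Plc → AddSubgroup ((Fin 2 → B) × (Fin 2 → B))}
    {z : Co B} : z ∈ SelN T n lam ψ R Q N ↔ z.1 ∈ Z1 (GK n) (act T ψ B) ∧
      (∀ w, Away (GK n) (pls lam Q) w → ∀ σ ∈ GK n ⊓ Ine w, z.1 σ = 0) ∧
      (∀ i ∈ R, ∀ g ∈ GK n ⊓ Dec (sp lam i), z.1 g = cob (act T ψ B) (z.2 (sp lam i)) g) ∧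
      (∀ w ∉ R.image (sp lam), z.2 w = 0) ∧ KumC T (GK n ⊓ Dec w2) z.1 ∧
      ∀ w ∈ Q, (z.1 (fq w), z.1 (gn w)) ∈ N w := by
  refine and_congr_right fun h1 => and_congr Iff.rfl (and_congr forall_mem_image
    (and_congr Iff.rfl ?_))
  beta_reduce
  rw [forall_mem_insert, if_pos rfl, rs_mem_LK]
  refine and_congr Iff.rfl (forall₂_congr fun w hw => ?_)
  have t := (h.deep w hw).adm.tm'
  rw [if_neg (h.deep w hw).ne_w2, mem_Ldp, rs_of_mem t.φ_mem, rs_of_mem t.τ_mem]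
  exact and_iff_right (h1.1.lo_mono inf_le_left).lo_rs

/-- Complex conjugation on the two values at a deep place. -/
noncomputable def tw2 (T : Tate) (B : Type) [AddCommGroup B] [Module Lam B] :
    ((Fin 2 → B) × (Fin 2 → B)) →+ ((Fin 2 → B) × (Fin 2 → B)) :=
  (tauB T B).toAddMonoidHom.prodMap (-(tauB T B).toAddMonoidHom)

theorem tw2_apply (z : (Fin 2 → B) × (Fin 2 → B)) :
    tw2 T B z = (tauB T B z.1, -tauB T B z.2) := rfl

theorem tw2_tw2 (z : (Fin 2 → B) × (Fin 2 → B)) : tw2 T B (tw2 T B z) = z := by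
  simp only [tw2_apply, map_neg, tauB_tauB, neg_neg]

theorem SOk0.twc_deep (h : SOk0 T n k lam ψ Q) (hB : Kil k B) (hw : w ∈ Q)
    (hc : Coc (GK n) (act T ψ B) c) :
    (twc T c (fq w), twc T c (gn w)) = tw2 T B (c (fq w), c (gn w)) := by
  rw [twc, twc, (h.conj_deep hB hw hc).1, (h.conj_deep hB hw hc).2, map_neg, tw2_apply]

theorem SOk0.emb (h : SOk0 T n k lam ψ Q) (hB : Kil k B) {R' : Finset (Fin 5)}
    (hR : ∀ i, i ∈ R' ↔ bar i ∈ R) {N N' : Plc → AddSubgroup ((Fin 2 → B) × (Fin 2 → B))}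
    (hN : ∀ w, ∀ z ∈ N w, tw2 T B z ∈ N' w) :
    Nonempty (SelN T n lam ψ R Q N ↪ SelN T n lam (B2.cjc ψ) R' Q N') := by
  choose γ hγ e using h.exists_bar
  have ha := h.chr.act T hB
  have inv := Function.leftInverse_invFun (sp_inj h.nok h.adm)
  let y : Co B → Fin 5 → Fin 2 → B := fun z j =>
    tauB T B (act T ψ B (γ j) (z.2 (sp lam (bar j))) - z.1 (γ j))
  refine ⟨⟨fun z => ⟨(twc T z.1.1, fun w => if w ∈ R'.image (sp lam) then
    y z.1 (Function.invFun (sp lam) w) else 0), ?_⟩, fun z z' k => ?_⟩⟩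
  · obtain ⟨h1, h2, h3, -, h5, h6⟩ := h.mem_SelN.1 z.2
    refine h.cjc.mem_SelN.2 ⟨twc_Z1 h1, h.twc_unr h2, fun i hi g hg => ?_, fun w hw => if_neg hw,
      h.twc_kum hB h1.1 h5, fun w hw => ?_⟩
    · simp only [if_pos (mem_image_of_mem _ hi), inv i]
      exact xsb_twc_cob (fun g hg => xsb_cob ha h1.1 (hγ i) (h3 _ ((hR i).1 hi)) (e i ▸ hg)) hg
    · rw [h.twc_deep hB hw h1.1]
      exact hN w _ (h6 w hw)
  · have k1 : z.1.1 = z'.1.1 := twc_inj (congrArg (fun z => z.1.1) k)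
    refine Subtype.ext (Prod.ext k1 (funext fun w => ?_))
    by_cases hw : w ∈ R.image (sp lam)
    · obtain ⟨i, hi, rfl⟩ := mem_image.1 hw
      have k2 := congrFun (congrArg (fun z => z.1.2) k) (sp lam (bar i))
      simp only [if_pos (mem_image_of_mem _ ((hR _).2 (by rwa [bar_bar]))), inv (bar i), y,
        bar_bar, k1] at k2
      rw [← ha.lo_inv (hγ (bar i)) (z.1.2 _), sub_left_inj.1 (tauB_inj k2), ha.lo_inv (hγ _)]
    · rw [(h.mem_SelN.1 z.2).2.2.2.1 w hw, (h.mem_SelN.1 z'.2).2.2.2.1 w hw]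

theorem SOk0.card_cjc (h : SOk0 T n k lam ψ Q) (hB : Kil k B)
    (N : Plc → AddSubgroup ((Fin 2 → B) × (Fin 2 → B))) :
    Nat.card (SelN T n lam (B2.cjc ψ) R Q fun w => (N w).comap (tw2 T B)) =
      Nat.card (SelN T n lam ψ (R.image bar) Q N) := by
  have e : ∀ i, i ∈ R.image bar ↔ bar i ∈ R := fun i =>
    ⟨fun h => by obtain ⟨j, hj, rfl⟩ := mem_image.1 h; rwa [bar_bar],
      fun h => mem_image.2 ⟨_, h, bar_bar i⟩⟩
  obtain ⟨f⟩ := h.cjc.emb hB e (N := fun w => (N w).comap (tw2 T B)) (N' := N) fun _ _ h => h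
  obtain ⟨f'⟩ := h.emb hB (R := R.image bar) (R' := R) (fun i => by rw [e, bar_bar]) (N := N)
    (N' := fun w => (N w).comap (tw2 T B)) fun _ _ h => by rwa [AddSubgroup.mem_comap, tw2_tw2]
  rw [cjc_cjc] at f
  obtain ⟨e⟩ := f.antisymm f'
  exact Nat.card_congr e

section

variable {m : ℕ} {β : B →+ B' →+ ZMod (2 ^ m)}

/-- The alternating pairing. -/
def detb (β : B →+ B' →+ ZMod (2 ^ m)) : (Fin 2 → B) →+ (Fin 2 → B') →+ ZMod (2 ^ m) :=
  AddMonoidHom.mk' (fun x => AddMonoidHom.mk' (fun y => β (x 0) (y 1) - β (x 1) (y 0)) fun y y' => by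
    simp only [Pi.add_apply, map_add]
    ring) fun x x' => AddMonoidHom.ext fun y => by
    simp only [Pi.add_apply, map_add, AddMonoidHom.add_apply, AddMonoidHom.mk'_apply]
    ring

omit [Module Lam B] [Module Lam B'] in
theorem detb_apply (x : Fin 2 → B) (y : Fin 2 → B') :
    detb β x y = β (x 0) (y 1) - β (x 1) (y 0) := rfl

theorem Perf.detb_bal (h : Perf β) (a : Lam) (x : Fin 2 → B) (y : Fin 2 → B') :
    detb β (a • x) y = detb β x (a • y) := by
  simp only [detb_apply, Pi.smul_apply, h.bal]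

theorem Perf.two (h : Perf β) (x : B) : 2 ^ m • x = 0 := h.left _ fun y => by
  rw [map_nsmul, AddMonoidHom.nsmul_apply, nsmul_eq_mul, ZMod.natCast_self, zero_mul]

theorem Perf.two' (h : Perf β) (y : B') : 2 ^ m • y = 0 := h.right _ fun x => by
  rw [map_nsmul, nsmul_eq_mul, ZMod.natCast_self, zero_mul]

theorem Perf.card (h : Perf β) [Finite B] [Finite B'] : Nat.card B' = Nat.card B := by
  have := pair_card β
  rwa [(AddMonoidHom.ker_eq_bot_iff _).2 ((injective_iff_map_eq_zero β).2 fun x e =>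
    h.left x fun y => by rw [e]; rfl), (AddMonoidHom.ker_eq_bot_iff _).2
    ((injective_iff_map_eq_zero β.flip).2 fun y e => h.right y fun x => DFunLike.congr_fun e x),
    AddSubgroup.card_bot, AddSubgroup.card_bot, mul_one, mul_one, eq_comm] at this

theorem Chr0.dual (h : Chr0 n k lam ψ) (hn : 0 < n) (T : Tate) (hB : Kil k B) (hB' : Kil k B')
    (hβ : Perf β) : Dual m (GK n) (B2.act T ψ B) (B2.act T (B2.cjc ψ) B') (detb β) where
  act := h.act T hB
  act' := h.cjc.act T hB'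
  eqv g hg x y := by
    have e1 : ∀ z x y, β ((C z : Lam) • x) y = PadicInt.toZModPow m z * β x y := fun z x y =>
      la_hom_C (β.flip y) (hB.two x) z
    have e2 : ∀ z x y, β x ((C z : Lam) • y) = PadicInt.toZModPow m z * β x y := fun z x y =>
      la_hom_C (β x) (hB'.two y) z
    rw [act_eq, act_eq, hβ.detb_bal, smul_smul, B2.cjc, hB'.pi.congr (h.mul_cj hn hg), one_smul,
      cy, ← T.det, det_fin_two]
    simp only [detb_apply, mact_apply, Matrix.map_apply, map_add, AddMonoidHom.add_apply, e1, e2,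
      map_sub, map_mul]
    ring
  left x e := funext fun i => by
    fin_cases i
    · exact hβ.left _ fun y => by simpa [detb_apply] using e ![0, y]
    · exact hβ.left _ fun y => by simpa [detb_apply] using e ![y, 0]
  right y e := funext fun i => by
    fin_cases i
    · exact hβ.right _ fun x => by simpa [detb_apply] using e ![0, x]
    · exact hβ.right _ fun x => by simpa [detb_apply] using e ![x, 0]

omit [Module Lam B] in
theorem detb_tw2 (z : (Fin 2 → B) × (Fin 2 → B)) (z' : (Fin 2 → B') × (Fin 2 → B')) :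
    detb β z.1 (tw2 T B' z').2 - detb β z.2 (tw2 T B' z').1 = pair β z z' := by
  simp only [detb_apply, tw2_apply, pair, tauB_zero, tauB_one, map_neg]
  ring

theorem pair_dual (t : Ty) {z : (Fin 2 → B) × (Fin 2 → B)} {z' : (Fin 2 → B') × (Fin 2 → B')}
    (h : z ∈ t.cond B) (h' : z' ∈ t.dual.cond B') : pair β z z' = 0 := by
  cases t <;> simp only [Ty.cond, Ty.dual, Submodule.mem_bot, Submodule.mem_prod, mem_dgP, mem_dgM,
    Submodule.mem_top, true_and, and_true, ← eq_neg_iff_add_eq_zero] at h h' <;>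
    simp [pair, h, h']

end

theorem card_dgP : Nat.card (dgP B) = Nat.card B :=
  Nat.card_congr
    { toFun := fun x => x.1 0
      invFun := fun x => ⟨![x, x], rfl⟩
      left_inv := fun x => Subtype.ext (funext fun i => by
        fin_cases i
        · rfl
        · exact x.2.symm)
      right_inv := fun _ => rfl }

theorem card_dgM : Nat.card (dgM B) = Nat.card B :=
  Nat.card_congr
    { toFun := fun x => x.1 0
      invFun := fun x => ⟨![x, -x], add_neg_cancel x⟩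
      left_inv := fun x => Subtype.ext (funext fun i => by
        fin_cases i
        · rfl
        · exact neg_eq_of_add_eq_zero_right x.2)
      right_inv := fun _ => rfl }

theorem xsb_card_prod {M : Type} [AddCommGroup M] [Module Lam M] (U V : Submodule Lam M) :
    Nat.card (U.prod V) = Nat.card U * Nat.card V :=
  (Nat.card_congr (Equiv.Set.prod (U : Set M) (V : Set M))).trans (Nat.card_prod _ _)

theorem card_cond (t : Ty) : Nat.card (t.cond B) =
    Nat.card B ^ (match t with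
      | .rel => 4 | .str => 0 | .fl => 1 | .sh => 3 | _ => 2) := by
  have e1 : ∀ {M : Type} [AddCommGroup M] [Module Lam M],
    Nat.card (⊤ : Submodule Lam M) = Nat.card M := Nat.card_congr Submodule.topEquiv.toEquiv
  have e2 : ∀ {M : Type} [AddCommGroup M] [Module Lam M], Nat.card (⊥ : Submodule Lam M) = 1 :=
    Nat.card_unique
  cases t <;> simp only [Ty.cond, xsb_card_prod, e1, e2, card_dgP, card_dgM, Nat.card_prod,
    Nat.card_fun, Nat.card_eq_fintype_card, Fintype.card_fin] <;> ring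

theorem card_cond_dual (t : Ty) (e : Nat.card B' = Nat.card B) :
    Nat.card (t.cond B) * Nat.card (t.dual.cond B') = Nat.card B ^ 4 := by
  rw [card_cond, card_cond, e, ← pow_add]
  cases t <;> rfl

/-- The formula of Greenberg and Wiles. -/
theorem sel_count (F : CFT) (su : SUStmt) (ch : ChebStmt) (h : SOk T n k lam ψ Q) (hB : Kil k B)
    (hB' : Kil k B') [Finite B] [Finite B'] {m : ℕ} (hm : m ≤ k) {β : B →+ B' →+ ZMod (2 ^ m)}
    (hβ : Perf β) : Finite (SelB T n lam ψ ⟨R, Q, ty⟩ B) ∧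
      Nat.card (SelB T n lam ψ ⟨R, Q, ty⟩ B) * Nat.card B ^ (2 * Q.card) =
        Nat.card (SelB T n lam ψ (Str.dual ⟨R, Q, ty⟩) B') * ∏ w ∈ Q, Nat.card ((ty w).cond B) := by
  have h0 := h.sok0
  have hn := h.nok.pos
  have hd := h0.chr.dual hn T hB hB' hβ
  have e := hβ.card
  have eM : Nat.card (Fin 2 → B) = Nat.card B ^ 2 := by simp [Nat.card_fun]
  have t2 := maxIso_LK (ld F) h.nok.m8 w2_p (h0.chr.tAct (T := T) h.nok h.adm.ne.1 hB w2_p)
    (h0.chr.cjc.tAct h.nok h.adm.ne.1 hB' w2_p) hβ.two hβ.two' β detb_apply (hd.mono inf_le_left)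
  have dj : ∀ R : Finset (Fin 5), Disjoint (R.image (sp lam)) (insert w2 Q) := fun R =>
    disjoint_left.2 fun w k l => by
      obtain ⟨i, -, rfl⟩ := mem_image.1 k
      exact h.sp_notMem i l
  obtain ⟨f, k0⟩ := gw F su ch m (GK n) _ _ _ _ (detb β) (pls lam Q) (R.image (sp lam))
    (Rᶜ.image (sp lam)) (insert w2 Q) (Lc B T n ψ ty) (fun w => if w = w2 then
      LK T (GK n ⊓ Dec w) B' else Ldp (GK n ⊓ Dec w) (act T (cjc ψ) B') (fq w) (gn w)
        ((((ty w).dual.cond B').toAddSubgroup).comap (tw2 T B')))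
    (op_GK n) (tc_of_le hn le_rfl) (index_GK hn) hd h0.apart
    (by rw [← image_union, union_compl]; rfl) ((disjoint_image h.sp_inj).2 disjoint_compl_right)
    (dj _) (dj _)
    (fun w hw => by
      rw [← image_union] at hw
      obtain ⟨i, -, rfl⟩ := mem_image.1 hw
      exact sp_ne_two h.adm i)
    (fun w hw => h0.good hB hw)
    (fun w hw => by
      rcases mem_insert.1 hw with rfl | hw
      · rwa [Lc, if_pos rfl, if_pos rfl]
      have d := h.deep w hw
      rw [Lc, if_neg d.ne_w2, if_neg d.ne_w2]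
      refine d.adm.tm'.maxIso_Ldp (d.hq (by omega)) F hd.pow_smul hd.flip.pow_smul
        (fun g hg => d.triv h0.chr hB hg) (fun g hg => (h0.cjc.deep w hw).triv h0.chr.cjc hB' hg) _
        (fun z hz z' hz' => ?_) ?_
      · rw [← sub_eq_zero, ← pair_dual (β := β) _ hz hz', ← detb_tw2 (T := T), tw2_tw2]
      · refine le_of_eq ?_
        rw [eM, ← pow_mul, ← card_cond_dual (ty w) e]
        congr 1
        exact Nat.card_congr
          { toFun := fun z => ⟨tw2 T B' z.1, by rw [AddSubgroup.mem_comap, tw2_tw2]; exact z.2⟩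
            invFun := fun z => ⟨tw2 T B' z.1, z.2⟩
            left_inv := fun z => Subtype.ext (tw2_tw2 _)
            right_inv := fun z => Subtype.ext (tw2_tw2 _) })
  refine ⟨f, ?_⟩
  have k1 := h0.card_cjc (R := Rᶜ) hB' fun w => ((ty w).dual.cond B').toAddSubgroup
  have k2 : Nat.card (LK T (GK n ⊓ Dec w2) B) = Nat.card B ^ 4 := by
    obtain ⟨f1, l⟩ := ld F m _ w2 _ _ _ _ _ _ (op_GK n) (hd.mono inf_le_left) t2.loc
    have f2 := (ld_core F (op_GK n) (hd.mono inf_le_left : Dual m (GK n ⊓ Dec w2) _ _ _).flip).1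
    have := Finite.of_injective _ (AddSubgroup.inclusion_injective t2.loc.1)
    have := Finite.of_injective _ (AddSubgroup.inclusion_injective t2.loc'.1)
    rw [← t2.perp (op_GK n) (hd.mono inf_le_left), ldeg_two h.nok.m8 w2_p, eM] at l
    refine le_antisymm (Nat.le_of_mul_le_mul_right ?_ (pow_pos (Nat.card_pos (α := B)) 4))
      (card_LK h.nok.m8 w2_p hβ.two)
    calc _ ≤ _ := Nat.mul_le_mul_left _ (e ▸ card_LK (T := T) h.nok.m8 w2_p hβ.two')
      _ = _ := l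
      _ = _ := by ring
  have k3 : ∏ w ∈ Q, Nat.card (Lc B T n ψ ty w) = ∏ w ∈ Q, Nat.card ((ty w).cond B) :=
    prod_congr rfl fun w hw => by
      have d := h.deep w hw
      rw [Lc, if_neg d.ne_w2]
      exact d.adm.tm'.card_Ldp (d.hq (by omega)) hd.pow_smul (fun g hg => d.triv h0.chr hB hg) _
  rw [prod_insert h.w2_notMem, card_insert_of_notMem h.w2_notMem, index_GK hn, eM, k3, Lc,
    if_pos rfl, k2] at k0
  refine Nat.eq_of_mul_eq_mul_right (pow_pos (Nat.card_pos (α := B)) 4) ?_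
  rw [show Nat.card (SelB T n lam ψ (Str.dual ⟨R, Q, ty⟩) B') = _ from k1.symm]
  refine Eq.trans ?_ (k0.trans ?_)
  · rw [mul_assoc, ← pow_add, ← pow_mul]
    rfl
  · rw [mul_comm (_ ^ 4), ← mul_assoc]
    rfl

/-- The reciprocity law.  At each of the five special places one of the two classes becomes
trivial after multiplication by `a`. -/
theorem sel_iso (F : CFT) (h : SOk T n k lam ψ Q) (hB : Kil k B) (hB' : Kil k B') {m : ℕ}
    (hm : m ≤ k) {β : B →+ B' →+ ZMod (2 ^ m)} [Finite B] [Finite B'] (hβ : Perf β)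
    {ty' : Plc → Ty} {c' : Gam → Fin 2 → B'} (hc : c ∈ SU T n lam ψ Q ty B)
    (hc' : c' ∈ SU T n lam ψ Q ty' B') (hw : w ∈ Q) (ht : ∀ v ∈ Q, v ≠ w → ty' v = (ty v).dual)
    {a : Lam} (ha : ∀ i, (∃ x, ∀ g ∈ GK n ⊓ Dec (sp lam i), a • c g = cob (act T ψ B) x g) ∨
      ∃ x, ∀ g ∈ GK n ⊓ Dec (sp lam (bar i)), a • c' g = cob (act T ψ B') x g) :
    pair β (a • c (fq w), a • c (gn w)) (c' (fq w), c' (gn w)) = 0 := by
  have h0 := h.sok0
  have hn := h.nok.pos
  have hd := h0.chr.dual hn T hB hB' hβ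
  have hl : ∀ v, Dual m (GK n ⊓ Dec v) _ _ _ := fun v => hd.mono inf_le_left
  obtain ⟨c1, c2, -, -, c3, c4⟩ :=
    (h0.mem_SelB (s := ⟨∅, Q, ty⟩)).1 ((SU T n lam ψ Q ty B).smul_mem a hc)
  obtain ⟨d1, d2, -, -, d3, d4⟩ := (h0.mem_SelB (s := ⟨∅, Q, ty'⟩)).1 hc'
  have c0 := ((h0.mem_SelB (s := ⟨∅, Q, ty⟩)).1 hc).1
  dsimp only at c0 c1 c2 c3 c4 d1 d2 d3 d4
  have key : ∀ v ∈ Q, ∃ u : (ZMod (2 ^ m))ˣ,
      F.inv m (GK n) v (cupb (detb β) (act T (cjc ψ) B') (a • c) (twc T c')) =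
        u * pair β (a • c (fq v), a • c (gn v)) (c' (fq v), c' (gn v)) := fun v hv => by
    have d := h.deep v hv
    obtain ⟨u, hu⟩ := d.adm.tm'.deep_inv (m := m) (d.hq (by omega))
    refine ⟨u, ?_⟩
    rw [hu F _ _ _ _ _ _ _ hd.pow_smul hd.flip.pow_smul (fun g hg => d.triv h0.chr hB hg)
      (fun g hg => (h0.cjc.deep v hv).triv h0.chr.cjc hB' hg) (c1.1.mono inf_le_left)
      (d1.1.twc.mono inf_le_left), ← detb_tw2 (T := T), ← h0.twc_deep hB' hv d1.1]
    rfl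
  have r := gw_recip F (op_GK n) (tc_of_le hn le_rfl) hd h0.apart (fun w hw => h0.good hB hw) c1.1
    d1.1.twc c2 (h0.twc_unr d2)
  rw [sum_eq_single_of_mem w (mem_pls.2 (.inr (.inr hw)))] at r
  · obtain ⟨u, hu⟩ := key w hw
    exact (Units.mul_right_eq_zero u).1 (hu.symm.trans r)
  intro v hv hvw
  rcases mem_pls.1 hv with ⟨i, rfl⟩ | rfl | hv
  · rcases ha i with ⟨x, hx⟩ | ⟨x, hx⟩
    · exact inv_cupb_left F (op_GK n) (hl _) hx (d1.1.twc.mono inf_le_left)
    · obtain ⟨γ, hγ, e⟩ := h0.exists_bar i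
      refine Eq.trans (congrArg _ (funext₂ fun g g' => ?_)) (inv_cupb_right F (op_GK n) (hl _)
        (c0.1.mono inf_le_left) (c' := twc T (a • c')) fun g hg => xsb_twc_cob (fun g hg =>
          xsb_cob (h0.chr.act T hB') (Z1_smul T ψ d1 a).1 hγ hx (e ▸ hg)) hg)
      rw [cupb, cupb, Pi.smul_apply, hβ.detb_bal, twc, twc, Pi.smul_apply, (tauB T B').map_smul,
        act_smul]
  · rw [← inv_cupb_rs]
    exact (maxIso_LK (ld F) h.nok.m8 w2_p (h0.chr.tAct (T := T) h.nok h.adm.ne.1 hB w2_p)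
      (h0.chr.cjc.tAct h.nok h.adm.ne.1 hB' w2_p) hβ.two hβ.two' β detb_apply (hl _)).iso _
      (rs_mem_LK.2 c3) _ (rs_mem_LK.2 (h0.twc_kum hB' d1.1 d3))
  · obtain ⟨u, hu⟩ := key v hv
    exact hu.trans ((congrArg _ (pair_dual (ty v) (c4 v hv) (ht v hv hvw ▸ d4 v hv))).trans
      (mul_zero _))

theorem sel_finite (F : CFT) (su : SUStmt) (ch : ChebStmt) (h : SOk T n k lam ψ Q) (hB : Kil k B)
    [Finite B] : Finite (SelB T n lam ψ ⟨R, Q, ty⟩ B) ∧ Finite (SM T n lam ψ Q ty B) ∧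
      Finite (SU T n lam ψ Q ty B) := by
  obtain ⟨B', _, _, _, β, hB', hβ⟩ := exists_perf hB
  have f := fun R => (sel_count (R := R) (ty := ty) F su ch h hB hB' le_rfl hβ).1
  have g : ∀ R, Finite (SR0 T n lam ψ ⟨R, Q, ty⟩ B) := fun R =>
    Finite.of_injective (fun c => (⟨(c.1, 0), c.2⟩ : SelB T n lam ψ ⟨R, Q, ty⟩ B)) fun _ _ e =>
      Subtype.ext (congrArg (fun z => z.1.1) e)
  exact ⟨f R, g _, g _⟩

end Pool.Agent.Lib.MP_696deb_nt.B2
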