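import Pool.Agent.Lib.MP_696deb_nt.B2.LO1

/-! Places where the decomposition group acts trivially: cocycles and the local pairing. -/

set_option autoImplicit false

open scoped NNReal Classical
open Finset

namespace Pool.Agent.Lib.MP_696deb_nt.B2

variable {M M' : Type} [AddCommGroup M] [AddCommGroup M'] {D H : Subgroup Gam}
  {a : Gam → M →+ M} {a' : Gam → M' →+ M'} {c : Gam → M} {w : Plc} {q m : ℕ} {φ τ g σ : Gam}

theorem act_triv (h : ∀ g ∈ D, ∀ x, a g x = x) : Act D a :=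
  ⟨(Sm.const (AddMonoidHom.id M)).congr fun g hg => AddMonoidHom.ext fun x => (h g hg x).symm,
    h 1 D.one_mem, fun g hg k hk x => by rw [h _ (mul_mem hg hk), h k hk, h g hg],
    fun g hg => ⟨0, h _ (pow_mem hg _)⟩⟩

theorem coc_triv (h : ∀ g ∈ D, ∀ x, a g x = x) : Coc D a c ↔ Sm D c ∧ IsHom D c :=
  and_congr_right fun _ => forall₂_congr fun g hg => forall₂_congr fun _ _ => by rw [h g hg]

theorem lo2_sq {l : ℕ} (hl : Odd l) (h : 2 ^ m ∣ l + 1) :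
    ((l ^ 2 : ℕ) : ZMod (2 ^ (m + 1))) = 1 := by
  obtain ⟨k, rfl⟩ := hl
  obtain ⟨j, hj⟩ := h
  have e : (2 * k + 1) ^ 2 = 2 ^ (m + 1) * (j * k) + 1 := by
    rw [pow_succ 2 m, show 2 ^ m * 2 * (j * k) = 2 ^ m * j * (2 * k) by ring, ← hj]
    ring
  rw [e, Nat.cast_add, Nat.cast_mul, ZMod.natCast_self, zero_mul, zero_add, Nat.cast_one]

theorem lo2_red (hq : (q : ZMod (2 ^ (m + 1))) = 1) : (q : ZMod (2 ^ m)) = 1 := by
  have := congrArg (ZMod.castHom (pow_dvd_pow 2 (Nat.le_succ m)) (ZMod (2 ^ m))) hq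
  rwa [map_natCast, map_one] at this

theorem Tm.cy_one (t : Tm H w q φ τ) (hq : (q : ZMod (2 ^ m)) = 1) (hg : g ∈ H ⊓ Dec w) :
    cy m g = 1 := by
  obtain ⟨U, u1, -, u3⟩ := sm_cy (H := H ⊓ Dec w) m
  obtain ⟨n, σ, hσ, k⟩ := t.dg hg u1
  have e : ∀ n : ℕ, cyc (φ ^ n) = (q : ℤ_[2]) ^ n := fun n => by
    rw [cyc_frob t.odd (t.frob.pow n), Nat.cast_pow]
  rw [← u3 _ (mul_mem (pow_mem t.φ_mem n) (t.ine_le hσ)) g hg k, cy, cyc_mul, e, cyc_ine t.odd hσ,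
    mul_one, map_pow, map_natCast, hq, one_pow]

theorem lo2_c2 {χ χ' : Gam → ZMod (2 ^ m)} (hD : ∀ g ∈ D, cy m g = 1) (h : Sm D χ ∧ IsHom D χ)
    (h' : Sm D χ' ∧ IsHom D χ') : C2 m D fun g k => χ g * χ' k :=
  ⟨h.1.left.comp₂ h'.1.right (· * ·), fun g hg k hk l hl => by
    simp only [hD g hg, h.2 g hg k hk, h'.2 k hk l hl]
    ring⟩

theorem lo2_flip (F : CFT) (hH : Op H) {χ χ' : Gam → ZMod (2 ^ m)}
    (hD : ∀ g ∈ H ⊓ Dec w, cy m g = 1) (h : Sm (H ⊓ Dec w) χ ∧ IsHom (H ⊓ Dec w) χ)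
    (h' : Sm (H ⊓ Dec w) χ' ∧ IsHom (H ⊓ Dec w) χ') :
    F.inv m H w (fun g k => χ g * χ' k) + F.inv m H w (fun g k => χ' g * χ k) = 0 := by
  rw [← F.add hH (lo2_c2 hD h h') (lo2_c2 hD h' h),
    F.zero_iff hH ((lo2_c2 hD h h').add (lo2_c2 hD h' h))]
  refine ⟨fun g => -(χ g * χ' g), h.1.comp₂ h'.1 fun x y => -(x * y), fun g hg k hk => ?_⟩
  simp only [Pi.add_apply, hD g hg, h.2 g hg k hk, h'.2 g hg k hk]
  ring

theorem lo2_unit {κ : Gam → ZMod (2 ^ (m + 1))} (hτ : Gen w τ) (h : τ ∈ D)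
    (hκ : Kum (m + 1) D w.p κ) : Odd (κ τ).val := by
  obtain ⟨r, r0, r1, r2⟩ := hκ
  have e := chi_spec (a := w.p) (x := r ^ 2 ^ m) (by rw [← pow_mul, ← pow_succ, r1]; simp) τ
  have z : zeta (m + 1) ^ 2 ^ m = -1 :=
    ((zeta_prim (m + 1)).pow (by positivity) (pow_succ 2 m)).eq_neg_one_of_two_right
  rw [hτ.2, map_pow, r2 τ h, mul_pow, ← pow_mul, mul_comm (κ τ).val, pow_mul, z] at e
  by_contra k
  rw [(Nat.not_odd_iff_even.1 k).neg_one_pow] at e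
  have : (2 : Qbar) * r ^ 2 ^ m = 0 := by
    simp only [Units.val_neg, Units.val_one, Int.cast_neg, Int.cast_one] at e
    linear_combination e
  exact pow_ne_zero _ r0 ((mul_eq_zero.1 this).resolve_left two_ne_zero)

theorem lo2_half (x : ZMod (2 ^ (m + 1))) (h : x + x = 0) :
    ZMod.castHom (pow_dvd_pow 2 (Nat.le_succ m)) (ZMod (2 ^ m)) x = 0 := by
  rw [← ZMod.natCast_zmod_val x, ← Nat.cast_add, ZMod.natCast_eq_zero_iff, ← mul_two] at h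
  rw [← ZMod.natCast_zmod_val x, map_natCast, ZMod.natCast_eq_zero_iff]
  exact Nat.dvd_of_mul_dvd_mul_right two_pos h

/-- A symplectic basis of the characters of the decomposition group. -/
theorem Tm.basis (t : Tm H w q φ τ) (hq : (q : ZMod (2 ^ (m + 1))) = 1) :
    ∃ ω κ : Gam → ZMod (2 ^ m), (Sm (H ⊓ Dec w) ω ∧ IsHom (H ⊓ Dec w) ω) ∧
      (Sm (H ⊓ Dec w) κ ∧ IsHom (H ⊓ Dec w) κ) ∧ ω φ = 1 ∧ ω τ = 0 ∧ IsUnit (κ τ) ∧ ∀ F : CFT,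
      F.inv m H w (fun g k => ω g * ω k) = 0 ∧ F.inv m H w (fun g k => ω g * κ k) = 1 ∧
      F.inv m H w (fun g k => κ g * ω k) = -1 ∧ F.inv m H w (fun g k => κ g * κ k) = 0 := by
  obtain ⟨ω, o1, o2, o3, o4⟩ := t.exists_om (m + 1)
  obtain ⟨κ, hκ⟩ := exists_kum (H := H ⊓ Dec w) (a := (w.p : Qbar)) (m + 1)
    (by exact_mod_cast w.prime.ne_zero) fun g _ => map_natCast g _
  have hD : ∀ g ∈ H ⊓ Dec w, cy (m + 1) g = 1 := fun g hg => t.cy_one hq hg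
  have k2 : Sm (H ⊓ Dec w) κ ∧ IsHom (H ⊓ Dec w) κ :=
    ⟨hκ.sm, fun g hg k hk => by rw [hκ.coc g hg k hk, hD g hg, one_mul]⟩
  set π := ZMod.castHom (pow_dvd_pow 2 (Nat.le_succ m)) (ZMod (2 ^ m)) with hπ
  have hh : ∀ {χ : Gam → ZMod (2 ^ (m + 1))}, Sm (H ⊓ Dec w) χ ∧ IsHom (H ⊓ Dec w) χ →
      Sm (H ⊓ Dec w) (fun g => π (χ g)) ∧ IsHom (H ⊓ Dec w) fun g => π (χ g) := fun h =>
    ⟨h.1.comp π, fun g hg k hk => by simp only [h.2 g hg k hk, map_add]⟩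
  refine ⟨fun g => π (ω g), fun g => π (κ g), hh ⟨o1, o2⟩, hh k2, by simp only [o3, map_one],
    by simp only [o4 τ t.gen.1, map_zero], ?_, fun F => ?_⟩
  · refine IsUnit.map π ?_
    rw [← ZMod.natCast_zmod_val (κ τ), ZMod.isUnit_iff_coprime]
    exact Nat.Coprime.pow_right _ (Nat.coprime_two_right.2 (lo2_unit t.gen t.τ_mem hκ))
  have red : ∀ {χ χ' : Gam → ZMod (2 ^ (m + 1))}, Sm (H ⊓ Dec w) χ ∧ IsHom (H ⊓ Dec w) χ →
      Sm (H ⊓ Dec w) χ' ∧ IsHom (H ⊓ Dec w) χ' →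
      F.inv m H w (fun g k => π (χ g) * π (χ' k)) =
        π (F.inv (m + 1) H w fun g k => χ g * χ' k) := fun h h' => by
    rw [← F.red (Nat.le_succ m) t.op (lo2_c2 hD h h')]
    simp only [map_mul, hπ]
  have e1 : F.inv (m + 1) H w (fun g k => ω g * κ k) = 1 := by
    have := F.kum (κ := κ) 1 t.op t.ine t.mem (t.deg ▸ t.frob) o1 o2 o4 hκ (by
      rw [w.hV, zpow_one])
    rw [o3, Int.cast_one, mul_one] at this
    rw [← this]
    exact F.congr fun g hg k _ => by rw [cup, hD g hg, mul_one]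
  have e2 := lo2_flip F t.op hD ⟨o1, o2⟩ k2
  rw [red ⟨o1, o2⟩ ⟨o1, o2⟩, red ⟨o1, o2⟩ k2, red k2 ⟨o1, o2⟩, red k2 k2]
  refine ⟨lo2_half _ (lo2_flip F t.op hD ⟨o1, o2⟩ ⟨o1, o2⟩), by rw [e1, map_one], ?_,
    lo2_half _ (lo2_flip F t.op hD k2 k2)⟩
  rw [eq_neg_of_add_eq_zero_right e2, e1, map_neg, map_one]

theorem lo2_coc [Module (ZMod (2 ^ m)) M] {ω κ : Gam → ZMod (2 ^ m)} (h : Sm D ω ∧ IsHom D ω)
    (h' : Sm D κ ∧ IsHom D κ) (x y : M) :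
    Sm D (fun g => ω g • x + κ g • y) ∧ IsHom D fun g => ω g • x + κ g • y :=
  ⟨h.1.comp₂ h'.1 fun s t => s • x + t • y, fun g hg k hk => by
    simp only [h.2 g hg k hk, h'.2 g hg k hk, add_smul]
    abel⟩

/-- Cocycles with prescribed values at the two generators. -/
theorem Tm.exists_coc (t : Tm H w q φ τ) (hq : (q : ZMod (2 ^ (m + 1))) = 1)
    (hM : ∀ x : M, 2 ^ m • x = 0) (ha : ∀ g ∈ H ⊓ Dec w, ∀ x, a g x = x) (x y : M) :
    ∃ c ∈ Z1 (H ⊓ Dec w) a, c φ = x ∧ c τ = y := by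
  obtain ⟨ω, κ, o, k, o1, o2, ⟨u, hu⟩, -⟩ := t.basis hq
  let _ := AddCommGroup.zmodModule hM
  refine ⟨_, ((coc_triv ha).2 (lo2_coc o k (x - κ φ • (u⁻¹ • y)) (u⁻¹ • y))).lo_rs, ?_, ?_⟩
  · rw [rs_of_mem t.φ_mem, o1, one_smul, sub_add_cancel]
  · rw [rs_of_mem t.τ_mem, o2, zero_smul, zero_add, ← hu, ← Units.smul_def, smul_inv_smul]

/-- The explicit formula for the local pairing. -/
theorem Tm.deep_inv (t : Tm H w q φ τ) (hq : (q : ZMod (2 ^ (m + 1))) = 1) :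
    ∃ u : (ZMod (2 ^ m))ˣ, ∀ (F : CFT) (M M' : Type) [AddCommGroup M] [AddCommGroup M']
      (b : M →+ M' →+ ZMod (2 ^ m)) (a : Gam → M →+ M) (a' : Gam → M' →+ M') (c : Gam → M)
      (c' : Gam → M'), (∀ x : M, 2 ^ m • x = 0) → (∀ y : M', 2 ^ m • y = 0) →
      (∀ g ∈ H ⊓ Dec w, ∀ x, a g x = x) → (∀ g ∈ H ⊓ Dec w, ∀ y, a' g y = y) →
      Coc (H ⊓ Dec w) a c → Coc (H ⊓ Dec w) a' c' →
      F.inv m H w (cupb b a' c c') = u * (b (c φ) (c' τ) - b (c τ) (c' φ)) := by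
  obtain ⟨ω, κ, o, k, o1, o2, ⟨u, hu⟩, hF⟩ := t.basis hq
  refine ⟨u⁻¹, fun F M M' _ _ b a a' c c' hM hM' ha ha' hc hc' => ?_⟩
  obtain ⟨f1, f2, f3, f4⟩ := hF F
  let _ := AddCommGroup.zmodModule hM
  let _ := AddCommGroup.zmodModule hM'
  have hD : ∀ g ∈ H ⊓ Dec w, cy m g = 1 := fun g hg => t.cy_one (lo2_red hq) hg
  have key : ∀ {N : Type} [AddCommGroup N] [Module (ZMod (2 ^ m)) N] {e : Gam → N →+ N}
      {z : Gam → N}, (∀ x : N, 2 ^ m • x = 0) → (∀ g ∈ H ⊓ Dec w, ∀ x, e g x = x) →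
      Coc (H ⊓ Dec w) e z → ∀ g ∈ H ⊓ Dec w,
        z g = ω g • (z φ - κ φ • (u⁻¹ • z τ)) + κ g • (u⁻¹ • z τ) := fun hN he hz g hg => by
    refine t.ext hN (act_triv he) hz ((coc_triv he).2 (lo2_coc o k _ _)) ?_ ?_ hg
    · rw [o2, zero_smul, zero_add, ← hu, ← Units.smul_def, smul_inv_smul]
    · rw [o1, one_smul, sub_add_cancel]
  set y := u⁻¹ • c τ with hy
  set y' := u⁻¹ • c' τ with hy'
  set x := c φ - κ φ • y with hx
  set x' := c' φ - κ φ • y' with hx'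
  have bl : ∀ (s : ZMod (2 ^ m)) (z : M) (z' : M'), b (s • z) z' = s * b z z' := fun s z z' =>
    ZMod.map_smul (b.flip z') s z
  have br : ∀ (s : ZMod (2 ^ m)) (z : M) (z' : M'), b z (s • z') = s * b z z' := fun s z z' =>
    ZMod.map_smul (b z) s z'
  have e : F.inv m H w (cupb b a' c c') = F.inv m H w
      (((fun g k => b x x' * (ω g * ω k)) + fun g k => b x y' * (ω g * κ k)) +
        ((fun g k => b y x' * (κ g * ω k)) + fun g k => b y y' * (κ g * κ k))) :=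
    F.congr fun g hg l hl => by
      rw [cupb, ha' g hg, key hM ha hc g hg, key hM' ha' hc' l hl]
      simp only [Pi.add_apply, map_add, AddMonoidHom.add_apply, bl, br, ← hx, ← hx', ← hy, ← hy']
      ring
  have c1 := lo2_c2 hD o o
  have c2 := lo2_c2 hD o k
  have c3 := lo2_c2 hD k o
  have c4 := lo2_c2 hD k k
  rw [e, F.add t.op ((c1.smul _).add (c2.smul _)) ((c3.smul _).add (c4.smul _)),
    F.add t.op (c1.smul _) (c2.smul _), F.add t.op (c3.smul _) (c4.smul _), F.smul t.op c1,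
    F.smul t.op c2, F.smul t.op c3, F.smul t.op c4, f1, f2, f3, f4]
  simp only [hx, hx', hy, hy', map_sub, AddMonoidHom.sub_apply, Units.smul_def, bl, br]
  ring

theorem Tm.card_Ldp (t : Tm H w q φ τ) (hq : (q : ZMod (2 ^ (m + 1))) = 1)
    (hM : ∀ x : M, 2 ^ m • x = 0) (ha : ∀ g ∈ H ⊓ Dec w, ∀ x, a g x = x)
    (N : AddSubgroup (M × M)) : Nat.card (Ldp (H ⊓ Dec w) a φ τ N) = Nat.card N := by
  refine Nat.card_eq_of_bijective (fun c => ⟨(c.1 φ, c.1 τ), c.2.2⟩) ⟨fun c c' e => ?_, fun z => ?_⟩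
  · have e' := Prod.mk.inj (congrArg Subtype.val e)
    refine Subtype.ext (funext fun g => ?_)
    by_cases hg : g ∈ H ⊓ Dec w
    · exact t.ext hM (act_triv ha) c.2.1.1 c'.2.1.1 e'.2 e'.1 hg
    · rw [c.2.1.2 g hg, c'.2.1.2 g hg]
  · obtain ⟨c, h1, h2, h3⟩ := t.exists_coc hq hM ha z.1.1 z.1.2
    have e : (c φ, c τ) = z.1 := Prod.ext h2 h3
    exact ⟨⟨c, h1, show (c φ, c τ) ∈ N from e ▸ z.2⟩, Subtype.ext e⟩

theorem locC_Ldp (ha : ∀ g ∈ H ⊓ Dec w, ∀ x, a g x = x) (φ τ : Gam) (N : AddSubgroup (M × M)) :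
    LocC H w a (Ldp (H ⊓ Dec w) a φ τ N) := by
  refine ⟨inf_le_left, fun x => ?_⟩
  have : rs (H ⊓ Dec w) (cob a x) = 0 := funext fun g => by
    by_cases hg : g ∈ H ⊓ Dec w
    · rw [rs_of_mem hg, cob, ha g hg, sub_self, Pi.zero_apply]
    · exact rs_of_notMem hg _
  exact this ▸ zero_mem _

/-- Orthogonal conditions on the two values give orthogonal local conditions. -/
theorem Tm.maxIso_Ldp (t : Tm H w q φ τ) (hq : (q : ZMod (2 ^ (m + 1))) = 1) (F : CFT)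
    (hM : ∀ x : M, 2 ^ m • x = 0) (hM' : ∀ y : M', 2 ^ m • y = 0)
    (ha : ∀ g ∈ H ⊓ Dec w, ∀ x, a g x = x) (ha' : ∀ g ∈ H ⊓ Dec w, ∀ y, a' g y = y)
    (b : M →+ M' →+ ZMod (2 ^ m)) {N : AddSubgroup (M × M)} {N' : AddSubgroup (M' × M')}
    (h : ∀ z ∈ N, ∀ z' ∈ N', b z.1 z'.2 = b z.2 z'.1)
    (k : Nat.card M ^ 2 ≤ Nat.card N * Nat.card N') :
    MaxIso F m H w a a' b (Ldp (H ⊓ Dec w) a φ τ N) (Ldp (H ⊓ Dec w) a' φ τ N') := by
  obtain ⟨u, hu⟩ := t.deep_inv hq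
  refine ⟨locC_Ldp ha φ τ N, locC_Ldp ha' φ τ N', fun c hc c' hc' => ?_, ?_⟩
  · have e : b (c φ) (c' τ) = b (c τ) (c' φ) := h _ hc.2 _ hc'.2
    rw [hu F M M' b a a' c c' hM hM' ha ha' hc.1.1 hc'.1.1, e, sub_self, mul_zero]
  · rwa [t.card_Ldp hq hM ha, t.card_Ldp hq hM' ha', ldeg, if_neg t.odd]

end Pool.Agent.Lib.MP_696deb_nt.B2
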