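import Pool.Agent.Lib.MP_696deb_nt.B2.D2b
import Pool.Agent.Lib.MP_696deb_nt.B2.LO2

/-! The action on the Tate module with coefficients: basic properties. -/

set_option autoImplicit false

open scoped NNReal Classical
open Finset Matrix NumberTheorySymbols PowerSeries

namespace Pool.Agent.Lib.MP_696deb_nt.B2

variable {T : Tate} {n k m : ℕ} {lam w : Plc} {ψ ψ' : Gam → Lam} {B B' : Type} [AddCommGroup B]
  [Module Lam B] [AddCommGroup B'] [Module Lam B'] {g h : Gam}

theorem two_mem_aa (j i : ℕ) : (2 : Lam) ^ j ∈ aa j i := Ideal.subset_span (by simp)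

theorem X_mem_aa (j i : ℕ) : (X : Lam) ^ i ∈ aa j i := Ideal.subset_span (by simp)

theorem Kil.two (hB : Kil k B) (x : B) : 2 ^ k • x = 0 := by
  have := hB _ (two_mem_aa k k) x
  rwa [← Nat.cast_ofNat, ← Nat.cast_pow, Nat.cast_smul_eq_nsmul] at this

theorem Kil.two' (hB : Kil k B) (x : Fin 2 → B) : 2 ^ k • x = 0 := funext fun i => hB.two (x i)

theorem Kil.congr (hB : Kil k B) {a a' : Lam} (e : a - a' ∈ aa k k) (x : B) : a • x = a' • x := by
  rw [← sub_eq_zero, ← sub_smul, hB _ e]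

theorem Kil.pi (hB : Kil k B) : Kil k (Fin 2 → B) := fun a ha x => funext fun i => hB a ha (x i)

theorem kil_quot {I : Ideal Lam} (hI : aa k k ≤ I) : Kil k (Lam ⧸ I) := fun a ha x => by
  obtain ⟨x, rfl⟩ := Ideal.Quotient.mk_surjective x
  exact Ideal.Quotient.eq_zero_iff_mem.2 (I.mul_mem_right x (hI ha))

theorem kil_Ak (k : ℕ) : Kil k (Ak k) := kil_quot le_rfl

theorem la_C_mem {z z' : ℤ_[2]} (e : PadicInt.toZModPow k z = PadicInt.toZModPow k z') (i : ℕ) :
    (C z : Lam) - C z' ∈ aa k i := by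
  have : z - z' ∈ RingHom.ker (PadicInt.toZModPow k) := by
    rw [RingHom.mem_ker, map_sub, e, sub_self]
  rw [PadicInt.ker_toZModPow, Ideal.mem_span_singleton] at this
  obtain ⟨y, hy⟩ := this
  rw [← map_sub, hy, map_mul, map_pow, map_natCast]
  exact Ideal.mul_mem_right _ _ (two_mem_aa k i)

theorem la_C_smul {x : B} (hx : 2 ^ m • x = 0) (z : ℤ_[2]) :
    (C z : Lam) • x = (PadicInt.toZModPow m z).val • x := by
  have e : z - ((PadicInt.toZModPow m z).val : ℤ_[2]) ∈ RingHom.ker (PadicInt.toZModPow m) := by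
    simp [RingHom.mem_ker]
  rw [PadicInt.ker_toZModPow, Ideal.mem_span_singleton'] at e
  obtain ⟨y, hy⟩ := e
  rw [eq_add_of_sub_eq hy.symm, map_add, map_mul, map_pow, map_natCast, map_natCast, add_smul,
    mul_smul, ← Nat.cast_pow, Nat.cast_smul_eq_nsmul, hx, smul_zero, zero_add,
    Nat.cast_smul_eq_nsmul, ← eq_add_of_sub_eq hy.symm]

theorem la_hom_C (f : B →+ ZMod (2 ^ m)) {x : B} (hx : 2 ^ k • x = 0) (z : ℤ_[2]) :
    f ((C z : Lam) • x) = PadicInt.toZModPow m z * f x := by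
  rw [la_C_smul (m := m + k) (by rw [pow_add, mul_nsmul', hx, nsmul_zero]), map_nsmul,
    nsmul_eq_mul, ZMod.natCast_val, PadicInt.cast_toZModPow _ _ (Nat.le_add_right m k)]

theorem mact_mul (A A' : Matrix (Fin 2) (Fin 2) Lam) (x : Fin 2 → B) :
    mact B (A * A') x = mact B A (mact B A' x) := funext fun i => by
  simp only [mact_apply, mul_apply, Fin.sum_univ_two, add_smul, smul_add, mul_smul]
  abel

theorem mact_one (x : Fin 2 → B) : mact B 1 x = x := funext fun i => by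
  fin_cases i <;> simp [mact_apply]

theorem mact_smul (a : Lam) (A : Matrix (Fin 2) (Fin 2) Lam) (x : Fin 2 → B) :
    mact B (a • A) x = a • mact B A x := funext fun i => by
  simp only [mact_apply, Matrix.smul_apply, Pi.smul_apply, smul_eq_mul, mul_smul, smul_add]

theorem mact_sub (A A' : Matrix (Fin 2) (Fin 2) Lam) (x : Fin 2 → B) :
    mact B (A - A') x = mact B A x - mact B A' x := funext fun i => by
  simp only [mact_apply, Matrix.sub_apply, Pi.sub_apply, sub_smul]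
  abel

theorem mact_add (A A' : Matrix (Fin 2) (Fin 2) Lam) (x : Fin 2 → B) :
    mact B (A + A') x = mact B A x + mact B A' x := funext fun i => by
  simp only [mact_apply, Matrix.add_apply, Pi.add_apply, add_smul]
  abel

theorem mact_congr' (hB : Kil k B) {A A' : Matrix (Fin 2) (Fin 2) Lam}
    (e : ∀ i j, A i j - A' i j ∈ aa k k) (x : Fin 2 → B) : mact B A x = mact B A' x :=
  funext fun i => by rw [mact_apply, mact_apply, hB.congr (e i 0), hB.congr (e i 1)]

theorem mact_map (φ : B →ₗ[Lam] B') (A : Matrix (Fin 2) (Fin 2) Lam) (x : Fin 2 → B) :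
    (fun i => φ (mact B A x i)) = mact B' A fun i => φ (x i) := funext fun i => by
  simp only [mact_apply, map_add, map_smul]

theorem act_eq (x : Fin 2 → B) : act T ψ B g x = ψ g • mact B ((T.ρ g).map C) x :=
  mact_smul _ _ x

theorem act_smul (a : Lam) (x : Fin 2 → B) : act T ψ B g (a • x) = a • act T ψ B g x :=
  map_smul (mact B _) a x

theorem act_map (φ : B →ₗ[Lam] B') (x : Fin 2 → B) :
    (fun i => φ (act T ψ B g x i)) = act T ψ B' g fun i => φ (x i) := mact_map φ _ x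

theorem cob_smul (a : Lam) (x : Fin 2 → B) :
    cob (act T ψ B) (a • x) g = a • cob (act T ψ B) x g := by
  rw [cob, cob, act_smul, smul_sub]

theorem mact_mred (hB : Kil k B) {A A' : Matrix (Fin 2) (Fin 2) ℤ_[2]} (e : mred k A = mred k A')
    (x : Fin 2 → B) : mact B (A.map C) x = mact B (A'.map C) x :=
  mact_congr' hB (fun i j => la_C_mem (congrFun (congrFun e i) j) k) x

theorem act_congr' (hB : Kil k B) (e : ψ g - ψ' h ∈ aa k k)
    (e' : mred k (T.ρ g) = mred k (T.ρ h)) (x : Fin 2 → B) :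
    act T ψ B g x = act T ψ' B h x := by
  rw [act_eq, act_eq, mact_mred hB e', hB.pi.congr e]

theorem la_mred_one (m : ℕ) : mred m 1 = 1 := Matrix.map_one _ (map_zero _) (map_one _)

theorem la_mred_mul (m : ℕ) (A A' : Matrix (Fin 2) (Fin 2) ℤ_[2]) :
    mred m (A * A') = mred m A * mred m A' := Matrix.map_mul

theorem la_mred_le (hk : k ≤ m) {A A' : Matrix (Fin 2) (Fin 2) ℤ_[2]}
    (e : mred m A = mred m A') : mred k A = mred k A' := by
  ext i j
  have := congrArg (ZMod.cast : ZMod (2 ^ m) → ZMod (2 ^ k)) (congrFun (congrFun e i) j)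
  simpa only [mred, Matrix.map_apply, PadicInt.cast_toZModPow _ _ hk] using this

theorem act_scalar (hB : Kil k B) (e' : mred k (T.ρ g) = 1) (x : Fin 2 → B) :
    act T ψ B g x = ψ g • x := by
  rw [act_eq, mact_mred hB (e'.trans (la_mred_one k).symm), Matrix.map_one _ (map_zero _)
    (map_one _), mact_one]

theorem act_id (hB : Kil k B) (e : ψ g - 1 ∈ aa k k) (e' : mred k (T.ρ g) = 1) (x : Fin 2 → B) :
    act T ψ B g x = x := by
  rw [act_scalar hB e', hB.pi.congr e, one_smul]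

/-- Characters of level `k` that are dihedral and unramified outside `lam`, without a condition
at `lam`. -/
structure Chr0 (n k : ℕ) (lam : Plc) (ψ : Gam → Lam) : Prop where
  sm : Sm (GK n) ψ
  one : ψ 1 - 1 ∈ aa k k
  mul : ∀ g ∈ GK n, ∀ h ∈ GK n, ψ (g * h) - ψ g * ψ h ∈ aa k k
  res : ∀ g, ψ g - 1 ∈ aa 1 1
  dih : ∀ g ∉ GK n, ψ (g * g) - 1 ∈ aa k k
  unr : ∀ w : Plc, w.p ≠ lam.p → ∀ σ ∈ GK n ⊓ Ine w, ψ σ - 1 ∈ aa k k

theorem Chr.chr0 (h : Chr n k lam ψ) : Chr0 n k lam ψ := ⟨h.sm, h.one, h.mul, h.res, h.dih, h.unr⟩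

theorem Chr0.act_mul (hψ : Chr0 n k lam ψ) (hB : Kil k B) (hg : g ∈ GK n) (hh : h ∈ GK n)
    (x : Fin 2 → B) : act T ψ B (g * h) x = act T ψ B g (act T ψ B h x) := by
  rw [act_eq, act_eq, act_eq, hB.pi.congr (hψ.mul g hg h hh), map_mul, Matrix.map_mul, mact_mul,
    map_smul, mul_smul]

theorem la_pow_le (k : ℕ) : aa 1 1 ^ (k + k) ≤ aa k k := by
  have e : aa 1 1 = Ideal.span {2} ⊔ Ideal.span {X} := by
    rw [aa, pow_one, pow_one, Ideal.span_insert]
  rw [e, aa, Ideal.span_insert, ← Ideal.span_singleton_pow, ← Ideal.span_singleton_pow]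
  exact Ideal.sup_pow_add_le_pow_sup_pow

theorem la_pow_mem {A : Matrix (Fin 2) (Fin 2) Lam} (h : ∀ i j, (A - 1) i j ∈ aa 1 1) (r : ℕ) :
    ∀ i j, (A ^ 2 ^ r - 1 : Matrix (Fin 2) (Fin 2) Lam) i j ∈ aa 1 1 ^ (r + 1) := by
  induction r with
  | zero => simpa using h
  | succ r ih =>
    intro i j
    have e : A ^ 2 ^ (r + 1) - 1 =
        (A ^ 2 ^ r - 1) * (A ^ 2 ^ r - 1) + (2 : Lam) • (A ^ 2 ^ r - 1) := by
      rw [pow_succ, pow_mul, two_smul]
      noncomm_ring
    rw [e, Matrix.add_apply, mul_apply, Matrix.smul_apply, smul_eq_mul, pow_succ' _ (r + 1)]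
    exact add_mem (sum_mem fun l _ => Ideal.mul_mem_mul
      (Ideal.pow_le_self r.succ_ne_zero (ih i l)) (ih l j))
      (Ideal.mul_mem_mul (by simpa using two_mem_aa 1 1) (ih i j))

theorem Chr0.act (hψ : Chr0 n k lam ψ) (T : Tate) (hB : Kil k B) : Act (GK n) (act T ψ B) := by
  have h1 : ∀ x, B2.act T ψ B 1 x = x :=
    act_id hB hψ.one (by rw [map_one, la_mred_one])
  refine ⟨?_, h1, fun g hg h hh => hψ.act_mul hB hg hh, fun g hg => ⟨k + k, fun x => ?_⟩⟩
  · obtain ⟨U, u1, u2, u3⟩ := hψ.sm.comp₂ ((T.sm k).mono le_top) Prod.mk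
    refine ⟨U, u1, u2, fun g hg h hh e => AddMonoidHom.ext fun x => ?_⟩
    have := Prod.mk.inj (u3 g hg h hh e)
    exact act_congr' hB (by rw [this.1, sub_self]; exact zero_mem _) this.2 x
  have e : ∀ (r : ℕ) (x : Fin 2 → B), B2.act T ψ B (g ^ r) x = mact B (rep T ψ g ^ r) x :=
    fun r => by
      induction r with
      | zero => intro x; rw [pow_zero, pow_zero, h1, mact_one]
      | succ r ih =>
        intro x
        rw [pow_succ, hψ.act_mul hB (pow_mem hg r) hg, ih, pow_succ, mact_mul, act_apply]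
  rw [e, mact_congr' hB (A' := 1) (fun i j => la_pow_le k (Ideal.pow_le_pow_right (Nat.le_succ _)
    (la_pow_mem (fun i j => ?_) _ i j))), mact_one]
  have e1 := la_C_mem (k := 1) (z := T.ρ g i j) (z' := (1 : Matrix (Fin 2) (Fin 2) ℤ_[2]) i j)
    (congrFun (congrFun ((T.mod2 g).trans (la_mred_one 1).symm) i) j) 1
  have e2 : (rep T ψ g - 1) i j = (ψ g - 1) * C (T.ρ g i j) +
      (C (T.ρ g i j) - C ((1 : Matrix (Fin 2) (Fin 2) ℤ_[2]) i j)) := by
    simp only [rep, Matrix.sub_apply, Matrix.smul_apply, Matrix.map_apply, smul_eq_mul, one_apply,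
      apply_ite (C : ℤ_[2] → Lam), map_one, map_zero]
    ring
  exact e2 ▸ add_mem (Ideal.mul_mem_right _ _ (hψ.res g)) e1

theorem Chr0.inv_mul (hψ : Chr0 n k lam ψ) (hg : g ∈ GK n) : ψ g⁻¹ * ψ g - 1 ∈ aa k k := by
  have := sub_mem hψ.one (hψ.mul _ (inv_mem hg) _ hg)
  rw [inv_mul_cancel] at this
  convert this using 1
  ring

theorem Chr0.mul_one (hψ : Chr0 n k lam ψ) (hg : g ∈ GK n) (hh : h ∈ GK n)
    (e : ψ g - 1 ∈ aa k k) (e' : ψ h - 1 ∈ aa k k) : ψ (g * h) - 1 ∈ aa k k := by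
  have := add_mem (add_mem (hψ.mul g hg h hh) (Ideal.mul_mem_right (ψ h) _ e)) e'
  convert this using 1
  ring

theorem Chr0.mul_cj (hψ : Chr0 n k lam ψ) (hn : 0 < n) (hg : g ∈ GK n) :
    ψ g * ψ (cc * g * cc) - 1 ∈ aa k k := by
  have h1 := hψ.dih (g * cc) fun e => cc_notMem hn ((mul_mem_cancel_left hg).1 e)
  have := sub_mem h1 (hψ.mul g hg _ (conj_cc_mem hg))
  rw [show g * cc * (g * cc) = g * (cc * g * cc) by group] at this
  convert this using 1
  ring

/-- The character is trivial on the decomposition group of an inert unramified place. -/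
theorem Chr0.dec (hψ : Chr0 n k lam ψ) (hw : w.p ≠ lam.p) (hI : Ine w ≤ GK n) {φ : Gam}
    (hφ : IsFrob w w.p φ) (h' : φ ∉ GK n) (hg : g ∈ GK n ⊓ Dec w) : ψ g - 1 ∈ aa k k := by
  obtain ⟨U, u1, -, u3⟩ := hψ.sm
  obtain ⟨j, σ, hσ, e⟩ := dec_gen_inert hφ h' hI hg u1
  have h1 := mul_mem_GK h' h'
  rw [← u3 _ (mul_mem (pow_mem h1 j) (hI hσ)) g hg.1 e.1]
  refine hψ.mul_one (pow_mem h1 j) (hI hσ) ?_ (hψ.unr w hw σ ⟨hI hσ, hσ⟩)
  clear e
  induction j with
  | zero => simpa using hψ.one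
  | succ j ih => rw [pow_succ]; exact hψ.mul_one (pow_mem h1 j) h1 ih (hψ.dih φ h')

theorem tAct_of {D : Subgroup Gam} (hB : Kil k B) (e : ∀ g ∈ D, ψ g - 1 ∈ aa k k) :
    TAct T D (act T ψ B) := fun m f g hg x => funext fun i => by
  rw [act_eq, hB.pi.congr (e g hg), one_smul, mact_apply, map_add, Matrix.map_apply,
    Matrix.map_apply, la_hom_C f (hB.two _), la_hom_C f (hB.two _)]
  simp [mred, mulVec, dotProduct, Fin.sum_univ_two]

end Pool.Agent.Lib.MP_696deb_nt.B2
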