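import Pool.Agent.Lib.MP_696deb_nt.B2.LO0
import Pool.Agent.Lib.MP_696deb_nt.B2.CLe

/-! Cocycles on tame decomposition groups. -/

set_option autoImplicit false

open scoped NNReal Classical
open Finset

namespace Pool.Agent.Lib.MP_696deb_nt.B2

variable {M : Type} [AddCommGroup M] {D H : Subgroup Gam} {a : Gam → M →+ M} {c : Gam → M}
  {w : Plc} {q m : ℕ} {φ τ g σ : Gam}

theorem Act.lo_mono {D' : Subgroup Gam} (h : Act D a) (k : D' ≤ D) : Act D' a :=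
  ⟨h.sm.mono k, h.one, fun g hg g' hg' => h.mul g (k hg) g' (k hg'), fun g hg => h.two g (k hg)⟩

theorem Coc.lo_mono {D' : Subgroup Gam} (h : Coc D a c) (k : D' ≤ D) : Coc D' a c :=
  ⟨h.1.mono k, fun g hg g' hg' => h.2 g (k hg) g' (k hg')⟩

theorem Coc.lo_congr {c' : Gam → M} (h : Coc D a c) (k : ∀ g ∈ D, c' g = c g) : Coc D a c' :=
  ⟨h.1.congr fun g hg => (k g hg).symm, fun g hg g' hg' => by
    rw [k _ (mul_mem hg hg'), k g hg, k g' hg', h.2 g hg g' hg']⟩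

theorem Coc.lo_sub {c' : Gam → M} (h : Coc D a c) (k : Coc D a c') : Coc D a (c - c') := by
  rw [sub_eq_add_neg]
  exact h.add k.neg

theorem Coc.lo_one (ha : Act D a) (h : Coc D a c) : c 1 = 0 := by
  have := h.2 1 D.one_mem 1 D.one_mem
  rwa [mul_one, ha.one, left_eq_add] at this

theorem lo_coc_cob (ha : Act D a) (x : M) : Coc D a (cob a x) :=
  ⟨ha.sm.comp fun f => f x - x, fun g hg h hh => by
    simp only [cob, ha.mul g hg h hh, map_sub]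
    abel⟩

theorem Coc.lo_rs (h : Coc D a c) : rs D c ∈ Z1 D a :=
  ⟨h.lo_congr fun _ hg => rs_of_mem hg c, fun _ hg => rs_of_notMem hg c⟩

theorem Act.lo_inv (ha : Act D a) (hg : g ∈ D) (x : M) : a g⁻¹ (a g x) = x := by
  rw [← ha.mul _ (inv_mem hg) _ hg, inv_mul_cancel, ha.one]

theorem Act.lo_inv' (ha : Act D a) (hg : g ∈ D) (x : M) : a g (a g⁻¹ x) = x := by
  rw [← ha.mul _ hg _ (inv_mem hg), mul_inv_cancel, ha.one]

theorem Coc.lo_inv (ha : Act D a) (h : Coc D a c) (hg : g ∈ D) : c g⁻¹ = -a g⁻¹ (c g) := by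
  have := h.2 _ (inv_mem hg) _ hg
  rw [inv_mul_cancel, h.lo_one ha] at this
  exact eq_neg_of_add_eq_zero_left this.symm

theorem Coc.lo_pow (ha : Act D a) (h : Coc D a c) (hg : g ∈ D) (k : ℕ) :
    c (g ^ k) = ∑ i ∈ range k, a (g ^ i) (c g) := by
  induction k with
  | zero => simpa using h.lo_one ha
  | succ k ih => rw [pow_succ, h.2 _ (pow_mem hg k) _ hg, ih, sum_range_succ]

theorem Coc.lo_pow_fix (ha : Act D a) (h : Coc D a c) (hg : g ∈ D) (e : a g (c g) = c g) (k : ℕ) :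
    c (g ^ k) = k • c g := by
  induction k with
  | zero => simpa using h.lo_one ha
  | succ k ih => rw [pow_succ', h.2 _ hg _ (pow_mem hg k), ih, map_nsmul, e, succ_nsmul']

theorem Act.lo_pow_mem (ha : Act D a) (hg : g ∈ D) {N : AddSubgroup M} (hN : ∀ x ∈ N, a g x ∈ N)
    (k : ℕ) : ∀ x ∈ N, a (g ^ k) x ∈ N := by
  induction k with
  | zero => intro x hx; rwa [pow_zero, ha.one]
  | succ k ih => intro x hx; rw [pow_succ, ha.mul _ (pow_mem hg k) _ hg]; exact ih _ (hN x hx)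

theorem Coc.lo_pow_mem (ha : Act D a) (h : Coc D a c) (hg : g ∈ D) {N : AddSubgroup M}
    (hN : ∀ x ∈ N, a g x ∈ N) (e : c g ∈ N) (k : ℕ) : c (g ^ k) ∈ N := by
  rw [h.lo_pow ha hg]
  exact sum_mem fun i _ => ha.lo_pow_mem hg hN i _ e

/-- The affine action attached to a cocycle. -/
noncomputable def loAff (ha : Act D a) (h : Coc D a c) (g : Gam) : Equiv.Perm M :=
  if hg : g ∈ D then ⟨fun x => c g + a g x, fun x => c g⁻¹ + a g⁻¹ x, fun x => by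
      simp only [map_add, ha.lo_inv hg, h.lo_inv ha hg]
      abel, fun x => by
      simp only [map_add, map_neg, ha.lo_inv' hg, h.lo_inv ha hg]
      abel⟩ else 1

theorem loAff_apply (ha : Act D a) (h : Coc D a c) (hg : g ∈ D) (x : M) :
    loAff ha h g x = c g + a g x := by
  rw [loAff, dif_pos hg]
  rfl

theorem loAff_mul (ha : Act D a) (h : Coc D a c) : IsMul D (loAff ha h) := fun g hg k hk => by
  ext x
  simp only [Equiv.Perm.mul_apply, loAff_apply ha h (mul_mem hg hk), loAff_apply ha h hg,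
    loAff_apply ha h hk, h.2 g hg k hk, ha.mul g hg k hk, map_add, add_assoc]

theorem loAff_pow (ha : Act D a) (h : Coc D a c) (hg : g ∈ D) (k : ℕ) :
    loAff ha h (g ^ k) = loAff ha h g ^ k := by
  induction k with
  | zero =>
    ext x
    simp [loAff_apply ha h D.one_mem, h.lo_one ha, ha.one]
  | succ k ih => rw [pow_succ, loAff_mul ha h _ (pow_mem hg k) _ hg, ih, pow_succ]

theorem loAff_sm (ha : Act D a) (h : Coc D a c) : Sm D (loAff ha h) := by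
  obtain ⟨U, u1, u2, u3⟩ := h.1.comp₂ ha.sm Prod.mk
  refine ⟨U, u1, u2, fun g hg k hk e => ?_⟩
  have := Prod.mk.inj (u3 g hg k hk e)
  ext x
  rw [loAff_apply ha h hg, loAff_apply ha h hk, this.1, this.2]

theorem loAff_two (hM : ∀ x : M, 2 ^ m • x = 0) (ha : Act D a) (h : Coc D a c) (hg : g ∈ D) :
    ∃ n : ℕ, loAff ha h g ^ 2 ^ n = 1 := by
  obtain ⟨n, hn⟩ := ha.two g hg
  have h1 := pow_mem hg (2 ^ n)
  refine ⟨n + m, ?_⟩
  rw [← loAff_pow ha h hg, pow_add, pow_mul]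
  ext x
  have e : ∀ k, a ((g ^ 2 ^ n) ^ k) x = x := fun k => by
    induction k with
    | zero => rw [pow_zero, ha.one]
    | succ k ih => rw [pow_succ, ha.mul _ (pow_mem h1 k) _ h1, hn, ih]
  rw [loAff_apply ha h (pow_mem h1 _), h.lo_pow_fix ha h1 (hn _), hM, e, zero_add]
  rfl

theorem loAff_eq (ha : Act D a) (h : Coc D a c) {k : Gam} (hg : g ∈ D) (hk : k ∈ D)
    (e : loAff ha h g = loAff ha h k) : c g = c k ∧ ∀ x, a g x = a k x := by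
  have e1 : ∀ x, c g + a g x = c k + a k x := fun x => by
    rw [← loAff_apply ha h hg, e, loAff_apply ha h hk]
  have e2 : c g = c k := by simpa using e1 0
  exact ⟨e2, fun x => add_left_cancel (e2 ▸ e1 x)⟩

theorem Tm.φ_mem (t : Tm H w q φ τ) : φ ∈ H ⊓ Dec w := ⟨t.mem, t.frob.1⟩

theorem Tm.ine_le (t : Tm H w q φ τ) : Ine w ≤ H ⊓ Dec w := le_inf t.ine (Ine_le w)

theorem Tm.τ_mem (t : Tm H w q φ τ) : τ ∈ H ⊓ Dec w := t.ine_le t.gen.1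

theorem Tm.odd_q (t : Tm H w q φ τ) : Odd q := t.deg ▸ (w.prime.odd_of_ne_two t.odd).pow

theorem Tm.mul_ine (t : Tm H w q φ τ) (hσ : σ ∈ Ine w) : Tm H w q (φ * σ) τ :=
  ⟨t.op, t.odd, t.ine, mul_mem t.mem (t.ine hσ), t.frob.mul_ine hσ, t.deg, t.gen⟩

theorem Tm.frob_LD (t : Tm H w q φ τ) (L : LD H w) : IsFrob w q L.φ := by
  have e : L.e = 1 := by
    rw [← L.e_eq, inf_eq_right.2 t.ine, Subgroup.relIndex_self]
  rw [t.deg, L.ef, e, one_mul]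
  exact L.frob

/-- The decomposition group is generated by the Frobenius element and the inertia group. -/
theorem Tm.dg (t : Tm H w q φ τ) (hg : g ∈ H ⊓ Dec w) {U : Subgroup Gam} (hU : Op U) :
    ∃ (n : ℕ) (σ : Gam), σ ∈ Ine w ∧ (φ ^ n * σ)⁻¹ * g ∈ U := by
  obtain ⟨L⟩ := exists_LD t.op w
  obtain ⟨j, σ, h1, h2⟩ := L.gen g hg U hU
  refine ⟨j, (φ ^ j)⁻¹ * L.φ ^ j * σ,
    mul_mem ((t.frob.pow j).inv_mul_mem ((t.frob_LD L).pow j)) h1.2, ?_⟩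
  rw [← mul_assoc, mul_inv_cancel_left]
  exact h2.1

/-- The unramified character. -/
theorem Tm.exists_om (t : Tm H w q φ τ) (m : ℕ) : ∃ ω : Gam → ZMod (2 ^ m), Sm (H ⊓ Dec w) ω ∧
    IsHom (H ⊓ Dec w) ω ∧ ω φ = 1 ∧ ∀ σ ∈ Ine w, ω σ = 0 := by
  obtain ⟨L⟩ := exists_LD t.op w
  have k : ∀ σ ∈ Ine w, L.om m σ = 0 := fun σ hσ => L.om_ine m ⟨t.ine hσ, hσ⟩
  refine ⟨L.om m, L.om_sm m, L.om_hom m, ?_, k⟩
  have h1 := (t.frob_LD L).inv_mul_mem t.frob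
  have h2 := L.om_hom m _ L.φ_mem' _ (t.ine_le h1)
  rwa [mul_inv_cancel_left, L.om_φ, k _ h1, add_zero] at h2

variable (hM : ∀ x : M, 2 ^ m • x = 0)
include hM

/-- Elements of the inertia group act like powers of the generator. -/
theorem Gen.lo_pow (hw : w.p ≠ 2) (hτ : Gen w τ) (ha : Act (Ine w) a) (h : Coc (Ine w) a c)
    (hσ : σ ∈ Ine w) : ∃ k : ℕ, c σ = c (τ ^ k) ∧ ∀ x, a σ x = a (τ ^ k) x := by
  obtain ⟨k, hk⟩ := tame_gen hw hτ (loAff_sm ha h) (loAff_mul ha h)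
    (fun g hg => loAff_two hM ha h hg) hσ
  exact ⟨k, loAff_eq ha h hσ (pow_mem hτ.1 k) (by rw [hk, loAff_pow ha h hτ.1])⟩

theorem Tm.ine_pow (t : Tm H w q φ τ) (ha : Act (H ⊓ Dec w) a) (h : Coc (H ⊓ Dec w) a c)
    (hσ : σ ∈ Ine w) : ∃ k : ℕ, c σ = c (τ ^ k) ∧ ∀ x, a σ x = a (τ ^ k) x :=
  t.gen.lo_pow hM t.odd (ha.lo_mono t.ine_le) (h.lo_mono t.ine_le) hσ

theorem Tm.mem_ine (t : Tm H w q φ τ) (ha : Act (H ⊓ Dec w) a) (h : Coc (H ⊓ Dec w) a c)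
    {N : AddSubgroup M} (hN : ∀ x ∈ N, a τ x ∈ N) (e : c τ ∈ N) (hσ : σ ∈ Ine w) : c σ ∈ N := by
  obtain ⟨k, hk, -⟩ := t.ine_pow hM ha h hσ
  exact hk ▸ h.lo_pow_mem ha t.τ_mem hN e k

theorem Tm.zero_ine (t : Tm H w q φ τ) (ha : Act (H ⊓ Dec w) a) (h : Coc (H ⊓ Dec w) a c)
    (e : c τ = 0) (hσ : σ ∈ Ine w) : c σ = 0 :=
  t.mem_ine hM ha h (N := ⊥) (fun x hx => by rw [AddSubgroup.mem_bot.1 hx, map_zero]; rfl) e hσ

/-- The values of a cocycle lie in a stable subgroup as soon as the two generating values do. -/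
theorem Tm.mem_of (t : Tm H w q φ τ) (ha : Act (H ⊓ Dec w) a) (h : Coc (H ⊓ Dec w) a c)
    {N : AddSubgroup M} (hN : ∀ x ∈ N, a τ x ∈ N) (hN' : ∀ x ∈ N, a φ x ∈ N) (e : c τ ∈ N)
    (e' : c φ ∈ N) (hg : g ∈ H ⊓ Dec w) : c g ∈ N := by
  obtain ⟨U, u1, -, u3⟩ := h.1
  obtain ⟨n, σ, hσ, k⟩ := t.dg hg u1
  have h1 := pow_mem t.φ_mem n
  rw [← u3 _ (mul_mem h1 (t.ine_le hσ)) g hg k, h.2 _ h1 _ (t.ine_le hσ)]
  exact add_mem (h.lo_pow_mem ha t.φ_mem hN' e' n)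
    (ha.lo_pow_mem t.φ_mem hN' n _ (t.mem_ine hM ha h hN e hσ))

theorem Tm.eq_zero (t : Tm H w q φ τ) (ha : Act (H ⊓ Dec w) a) (h : Coc (H ⊓ Dec w) a c)
    (e : c τ = 0) (e' : c φ = 0) (hg : g ∈ H ⊓ Dec w) : c g = 0 :=
  have k : ∀ g, ∀ x ∈ (⊥ : AddSubgroup M), a g x ∈ (⊥ : AddSubgroup M) := fun g x hx => by
    rw [AddSubgroup.mem_bot.1 hx, map_zero]; rfl
  t.mem_of hM ha h (k τ) (k φ) e e' hg

theorem Tm.ext (t : Tm H w q φ τ) (ha : Act (H ⊓ Dec w) a) {c' : Gam → M}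
    (h : Coc (H ⊓ Dec w) a c) (h' : Coc (H ⊓ Dec w) a c') (e : c τ = c' τ) (e' : c φ = c' φ)
    (hg : g ∈ H ⊓ Dec w) : c g = c' g :=
  sub_eq_zero.1 (t.eq_zero hM ha (h.lo_sub h') (sub_eq_zero.2 e) (sub_eq_zero.2 e') hg)

theorem Tm.eq_cob (t : Tm H w q φ τ) (ha : Act (H ⊓ Dec w) a) (h : Coc (H ⊓ Dec w) a c) {x : M}
    (e : c τ = a τ x - x) (e' : c φ = a φ x - x) (hg : g ∈ H ⊓ Dec w) : c g = cob a x g :=
  t.ext hM ha h (lo_coc_cob ha x) e e' hg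

/-- An element fixed by the two generators is fixed by the decomposition group. -/
theorem Tm.fix (t : Tm H w q φ τ) (ha : Act (H ⊓ Dec w) a) {x : M} (e : a τ x = x)
    (e' : a φ x = x) (hg : g ∈ H ⊓ Dec w) : a g x = x :=
  sub_eq_zero.1 (t.eq_zero hM ha (lo_coc_cob ha x) (sub_eq_zero.2 e) (sub_eq_zero.2 e') hg)

theorem Tm.conj' (t : Tm H w q φ τ) (ha : Act (H ⊓ Dec w) a) (h : Coc (H ⊓ Dec w) a c) {n : ℕ}
    {ψ : Gam} (hψ : IsFrob w n ψ) (hσ : σ ∈ Ine w) :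
    c (ψ * σ * ψ⁻¹) = c (σ ^ n) ∧ ∀ x, a (ψ * σ * ψ⁻¹) x = a (σ ^ n) x := by
  have k : H ⊓ Ine w ≤ H ⊓ Dec w := inf_le_inf_left H (Ine_le w)
  have h1 := conj_mem_Ine hψ.1 hσ
  have ha' := ha.lo_mono k
  have h' := h.lo_mono k
  have hσ' : σ ∈ H ⊓ Ine w := ⟨t.ine hσ, hσ⟩
  have := tame_frob t.odd (loAff_sm ha' h') (loAff_mul ha' h') (fun g hg => loAff_two hM ha' h' hg)
    t.op hψ hσ' (t.ine h1)
  exact loAff_eq ha' h' ⟨t.ine h1, h1⟩ (pow_mem hσ' n) (by rw [this, loAff_pow ha' h' hσ'])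

theorem Tm.conj (t : Tm H w q φ τ) (ha : Act (H ⊓ Dec w) a) (h : Coc (H ⊓ Dec w) a c)
    (hσ : σ ∈ Ine w) : c (φ * σ * φ⁻¹) = c (σ ^ q) ∧ ∀ x, a (φ * σ * φ⁻¹) x = a (σ ^ q) x :=
  t.conj' hM ha h t.frob hσ

/-- The tame relation. -/
theorem Tm.rel (t : Tm H w q φ τ) (ha : Act (H ⊓ Dec w) a) (h : Coc (H ⊓ Dec w) a c)
    (hσ : σ ∈ Ine w) : c φ + a φ (c σ) = c (σ ^ q) + a (σ ^ q) (c φ) := by
  obtain ⟨e1, e2⟩ := t.conj hM ha h hσ
  rw [← e1, ← e2, ← h.2 _ t.φ_mem _ (t.ine_le hσ),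
    ← h.2 _ (t.ine_le (conj_mem_Ine t.frob.1 hσ)) _ t.φ_mem, inv_mul_cancel_right]

theorem Tm.act_rel (t : Tm H w q φ τ) (ha : Act (H ⊓ Dec w) a) (hσ : σ ∈ Ine w) (x : M) :
    a φ (a σ x) = a (σ ^ q) (a φ x) := by
  rw [← (t.conj hM ha (Coc.zero _ a) hσ).2, ← ha.mul _ t.φ_mem _ (t.ine_le hσ),
    ← ha.mul _ (t.ine_le (conj_mem_Ine t.frob.1 hσ)) _ t.φ_mem, inv_mul_cancel_right]

end Pool.Agent.Lib.MP_696deb_nt.B2
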