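import Pool.Agent.Lib.MP_696deb_nt.B2.LOK0
import Pool.Agent.Lib.MP_696deb_nt.B2.LO1

/-! The Kummer condition: change of level, spanning, cocycle property, isotropy. -/

set_option autoImplicit false

open scoped NNReal Classical
open Finset Matrix

namespace Pool.Agent.Lib.MP_696deb_nt.B2

variable {T : Tate} {D : Subgroup Gam} {m k : ℕ} {B B' : Type} [AddCommGroup B] [AddCommGroup B']

theorem lo3_coord [Finite B] (hB : ∀ x : B, 2 ^ m • x = 0) :
    ∃ (ι : Type) (_ : Fintype ι) (k : ι → ℕ) (e : ι → B) (p : ∀ i, B →+ ZMod (2 ^ k i)),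
      (∀ i, k i ≤ m) ∧ (∀ i, 2 ^ k i • e i = 0) ∧ ∀ x, x = ∑ i, (p i x).val • e i := by
  obtain ⟨ι, _, n, -, ⟨E⟩⟩ := AddCommGroup.equiv_directSum_zmod_of_finite' B
  let E' : B ≃+ ∀ i, ZMod (n i) := E.trans (DirectSum.addEquivProd _)
  have h : ∀ i, ∃ k ≤ m, n i = 2 ^ k := fun i => by
    have := congrFun (congrArg E' (hB (E'.symm (Pi.single i 1)))) i
    rw [map_nsmul, E'.apply_symm_apply, map_zero, Pi.smul_apply, Pi.single_eq_same, nsmul_eq_mul,
      mul_one, Pi.zero_apply, ZMod.natCast_eq_zero_iff] at this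
    exact (Nat.dvd_prime_pow Nat.prime_two).1 this
  choose k hk e using h
  obtain rfl : n = fun i => 2 ^ k i := funext e
  refine ⟨ι, inferInstance, k, fun i => E'.symm (Pi.single i 1),
    fun i => (Pi.evalAddMonoidHom _ i).comp E'.toAddMonoidHom, hk, fun i => ?_, fun x => ?_⟩
  · rw [← map_nsmul, ← Pi.single_smul, nsmul_eq_mul, ZMod.natCast_self, zero_mul, Pi.single_zero,
      map_zero]
  · apply E'.injective
    simp only [map_sum, map_nsmul, E'.apply_symm_apply, ← Pi.single_smul, nsmul_eq_mul, mul_one,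
      ZMod.natCast_zmod_val]
    exact (univ_sum_single _).symm

theorem lo3_sep [Finite B] (hB : ∀ x : B, 2 ^ m • x = 0) {x y : B}
    (h : ∀ (k : ℕ) (f : B →+ ZMod (2 ^ k)), f x = f y) : x = y := by
  obtain ⟨ι, _, k, e, p, -, -, hp⟩ := lo3_coord hB
  rw [hp x, hp y]
  exact sum_congr rfl fun i _ => by rw [h]

theorem lo3_nsmul {n a : ℕ} [NeZero n] {x : ZMod n} {e : B} (he : n • e = 0)
    (h : (a : ZMod n) = x) : a • e = x.val • e := by
  rw [← h, ZMod.val_natCast, ← nsmul_eq_mod_nsmul a he]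

theorem Tate.emb_nat (T : Tate) {j N : ℕ} (h : m + j = N) (x : Fin 2 → ℕ) :
    2 ^ j • T.emb N (fun i => x i) = T.emb m fun i => x i := by
  subst h
  rw [T.two]
  simp only [map_natCast]

theorem Tate.emb_pow (T : Tate) (x : Fin 2 → ZMod (2 ^ m)) : 2 ^ m • T.emb m x = 0 := by
  rw [← map_nsmul, ← T.emb m |>.map_zero]
  congr 1
  ext i
  rw [Pi.smul_apply, nsmul_eq_mul, ZMod.natCast_self, zero_mul, Pi.zero_apply]

theorem Tate.emb_smul (T : Tate) {t : ZMod (2 ^ k)} (ht : 2 ^ m • t = 0) :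
    ∃ n : ℕ, ∀ x : Fin 2 → ZMod (2 ^ m), T.emb k (fun i => (x i).val • t) = n • T.emb m x := by
  rw [← ZMod.natCast_zmod_val t, nsmul_eq_mul, ← Nat.cast_mul, ZMod.natCast_eq_zero_iff] at ht
  obtain ⟨n, hn⟩ := ht
  refine ⟨n, fun x => ?_⟩
  have e1 := T.emb_nat (j := m) (m := k) rfl fun i => (x i).val * t.val
  have e2 := T.emb_nat (j := k) (m := m) (add_comm m k) fun i => (x i).val
  simp only [ZMod.natCast_zmod_val] at e2
  simp only [Nat.cast_mul, ZMod.natCast_zmod_val] at e1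
  simp only [nsmul_eq_mul]
  rw [← e1, ← e2, ← map_nsmul, ← map_nsmul, ← map_nsmul]
  congr 1
  ext i
  have := congrArg (Nat.cast : ℕ → ZMod (2 ^ (k + m))) hn
  rw [Pi.smul_apply, Pi.smul_apply, Pi.smul_apply]
  simp only [nsmul_eq_mul, Nat.cast_mul] at this ⊢
  linear_combination ((x i).val : ZMod (2 ^ (k + m))) * this

theorem Tate.exists_up (T : Tate) (h : k ≤ m) : ∃ u : ZMod (2 ^ k) →+ ZMod (2 ^ m),
    Function.Injective u ∧ ∀ x : Fin 2 → ZMod (2 ^ k), T.emb m (fun i => u (x i)) = T.emb k x := by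
  obtain ⟨j, rfl⟩ := Nat.exists_eq_add_of_le h
  have h0 : 2 ^ k • (2 ^ j : ZMod (2 ^ (k + j))) = 0 := by
    have := ZMod.natCast_self (2 ^ (k + j))
    rw [nsmul_eq_mul]
    push_cast at this ⊢
    rw [← pow_add, this]
  let u : ZMod (2 ^ k) →+ ZMod (2 ^ (k + j)) :=
    AddMonoidHom.mk' (fun s => s.val • (2 ^ j : ZMod (2 ^ (k + j)))) fun s t => by
      rw [← add_nsmul, lo3_nsmul h0 (a := s.val + t.val) (x := s + t) (by simp)]
  have e : ∀ x : Fin 2 → ZMod (2 ^ k), T.emb (k + j) (fun i => u (x i)) = T.emb k x := fun x => by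
    have := T.emb_nat (m := k) (j := j) rfl fun i => (x i).val
    simp only [ZMod.natCast_zmod_val] at this
    rw [← this, ← map_nsmul]
    congr 1
    ext i
    simp [u, mul_comm]
  refine ⟨u, (injective_iff_map_eq_zero u).2 fun s hs => ?_, e⟩
  have := e fun _ => s
  rw [hs, show (fun _ => 0) = (0 : Fin 2 → ZMod (2 ^ (k + j))) from rfl, map_zero] at this
  exact congrFun ((injective_iff_map_eq_zero _).1 (T.inj k) _ this.symm) 0

theorem lo3_half (j : ℕ) (S : EE) : ∃ S', 2 ^ j • S' = S := by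
  induction j with
  | zero => exact ⟨S, by simp⟩
  | succ j ih =>
    obtain ⟨P, rfl⟩ := ih
    obtain ⟨Q, rfl⟩ := exists_half P
    exact ⟨Q, by rw [pow_succ, mul_nsmul']⟩

theorem KumP.smul_val {x : Gam → Fin 2 → ZMod (2 ^ m)} (h : KumP T m D x) {t : ZMod (2 ^ k)}
    (ht : 2 ^ m • t = 0) : KumP T k D fun g i => (x g i).val • t := by
  obtain ⟨S, h⟩ := h
  obtain ⟨n, hn⟩ := T.emb_smul ht
  exact ⟨n • S, fun g hg => by rw [hn, h g hg, smul_comm g n S, nsmul_sub]⟩

theorem KumP.lift {x : Gam → Fin 2 → ZMod (2 ^ k)} (h : KumP T k D x) (hk : k ≤ m) :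
    ∃ y, KumP T m D y ∧ ∀ g ∈ D, ∀ i, ((y g i).val : ZMod (2 ^ k)) = x g i := by
  obtain ⟨j, rfl⟩ := Nat.exists_eq_add_of_le hk
  obtain ⟨S, h⟩ := h
  obtain ⟨S, rfl⟩ := lo3_half j S
  have e : ∀ g ∈ D, 2 ^ j • (g • S - S) = T.emb k (x g) := fun g hg => by
    rw [h g hg, smul_comm g, nsmul_sub]
  have : ∀ g, ∃ y, g ∈ D → T.emb (k + j) y = g • S - S := fun g => by
    by_cases hg : g ∈ D
    · exact (T.surj (k + j) (g • S - S) (by rw [pow_add, mul_nsmul', e g hg, T.emb_pow])).imp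
        fun _ h _ => h
    · exact ⟨0, fun h => absurd h hg⟩
  choose y hy using this
  refine ⟨y, ⟨S, hy⟩, fun g hg => congrFun (T.inj k ?_)⟩
  rw [← e g hg, ← hy g hg, ← T.emb_nat (j := j) rfl]
  simp only [ZMod.natCast_zmod_val]

theorem KumP.coc {x : Gam → Fin 2 → ZMod (2 ^ m)} (h : KumP T m D x) :
    Sm D x ∧ ∀ g ∈ D, ∀ k ∈ D, x (g * k) = x g + mred m (T.ρ g) *ᵥ x k := by
  obtain ⟨S, h⟩ := h
  obtain ⟨U, u1, u2, u3⟩ := sm_pt D S
  refine ⟨⟨U, u1, u2, fun g hg k hk e => T.inj m ?_⟩, fun g hg k hk => T.inj m ?_⟩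
  · rw [h g hg, h k hk, show g • S = k • S from u3 g hg k hk e]
  · rw [map_add, ← T.smul, h _ (mul_mem hg hk), h g hg, h k hk, mul_smul, smul_sub]
    abel

/-- Elementary classes satisfy the Kummer condition. -/
theorem KumC.of_smul {x : Gam → Fin 2 → ZMod (2 ^ m)} (h : KumP T m D x) {e : B}
    (he : 2 ^ m • e = 0) : KumC T D fun g i => (x g i).val • e := fun _ f =>
  (h.smul_val (t := f e) (by rw [← map_nsmul, he, map_zero])).congr fun _ _ =>
    funext fun _ => map_nsmul f _ _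

theorem KumC.sum {ι : Type*} (s : Finset ι) {c : ι → Gam → Fin 2 → B}
    (h : ∀ i ∈ s, KumC T D (c i)) : KumC T D fun g j => ∑ i ∈ s, c i g j :=
  (sum_induction c (KumC T D) (fun _ _ => KumC.add) KumC.zero h).congr fun g _ => by
    ext j
    simp only [Finset.sum_apply]

/-- Every class that satisfies the Kummer condition is a sum of elementary classes. -/
theorem KumC.span [Finite B] (hB : ∀ x : B, 2 ^ m • x = 0) {c : Gam → Fin 2 → B}
    (h : KumC T D c) : ∃ (ι : Type) (_ : Fintype ι) (x : ι → Gam → Fin 2 → ZMod (2 ^ m))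
      (e : ι → B), (∀ i, KumP T m D (x i)) ∧ ∀ g ∈ D, ∀ j, c g j = ∑ i, (x i g j).val • e i := by
  obtain ⟨ι, _, k, e, p, hk, he, hp⟩ := lo3_coord hB
  choose x h1 h2 using fun i => (h (k i) (p i)).lift (hk i)
  exact ⟨ι, inferInstance, x, e, h1, fun g hg j =>
    (hp _).trans (sum_congr rfl fun i _ => (lo3_nsmul (he i) (h2 i g hg j)).symm)⟩

variable {a : Gam → (Fin 2 → B) →+ Fin 2 → B} {a' : Gam → (Fin 2 → B') →+ Fin 2 → B'}

theorem KumC.coc [Finite B] (hB : ∀ x : B, 2 ^ m • x = 0) (ha : TAct T D a)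
    {c : Gam → Fin 2 → B} (h : KumC T D c) : Coc D a c := by
  refine ⟨?_, fun g hg k hk => funext fun j => lo3_sep hB fun n f => ?_⟩
  · obtain ⟨ι, _, x, e, h1, h2⟩ := h.span hB
    exact ((Sm.pi fun i => (h1 i).coc.1).comp fun z j => ∑ i, (z i j).val • e i).congr
      fun g hg => funext fun j => (h2 g hg j).symm
  · rw [Pi.add_apply, map_add, congrFun (ha n f g hg (c k)) j]
    exact congrFun ((h n f).coc.2 g hg k hk) j

theorem KumC.cob (ha : TAct T D a) (x : Fin 2 → B) : KumC T D (cob a x) := fun n f =>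
  ⟨T.emb n fun i => f (x i), fun g hg => by
    rw [T.smul, ← ha n f g hg, ← map_sub]
    congr 1
    ext i
    exact map_sub f _ _⟩

theorem locC_LK {H : Subgroup Gam} {w : Plc} [Finite B] (hB : ∀ x : B, 2 ^ m • x = 0)
    (ha : TAct T (H ⊓ Dec w) a) : LocC H w a (LK T (H ⊓ Dec w) B) :=
  ⟨fun _ h => ⟨h.1.coc hB ha, h.2⟩, fun x =>
    ⟨(KumC.cob ha x).congr fun _ hg => rs_of_mem hg _, fun _ hg => rs_of_notMem hg _⟩⟩

theorem rs_mem_LK {c : Gam → Fin 2 → B} : rs D c ∈ LK T D B ↔ KumC T D c :=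
  ⟨fun h => h.1.congr fun _ hg => (rs_of_mem hg _).symm, fun h =>
    ⟨h.congr fun _ hg => rs_of_mem hg _, fun _ hg => rs_of_notMem hg _⟩⟩

theorem lo3_spl_sum {ι : Type*} (s : Finset ι) {c : ι → Gam → Gam → ZMod (2 ^ m)}
    {c' : Gam → Gam → ZMod (2 ^ m)} (h : ∀ i ∈ s, Spl m D (c i))
    (e : ∀ g ∈ D, ∀ k ∈ D, c' g k = ∑ i ∈ s, c i g k) : Spl m D c' := by
  have : Spl m D (∑ i ∈ s, c i) := by
    refine sum_induction c (Spl m D) ?_ ⟨0, Sm.const 0, by simp⟩ h
    rintro x y ⟨b, b1, b2⟩ ⟨b', b1', b2'⟩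
    refine ⟨b + b', b1.comp₂ b1' (· + ·), fun g hg k hk => ?_⟩
    simp only [Pi.add_apply, b2 g hg k hk, b2' g hg k hk]
    ring
  obtain ⟨b, b1, b2⟩ := this
  exact ⟨b, b1, fun g hg k hk => by
    rw [e g hg k hk, ← b2 g hg k hk, Finset.sum_apply, Finset.sum_apply]⟩

/-- The cup product of two Kummer classes splits. -/
theorem KumC.iso [Finite B] (hB : ∀ x : B, 2 ^ m • x = 0) (hD : IsClosed (D : Set Gam))
    (ha' : TAct T D a') (β : B →+ B' →+ ZMod (2 ^ m))
    {b : (Fin 2 → B) →+ (Fin 2 → B') →+ ZMod (2 ^ m)}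
    (hb : ∀ x y, b x y = β (x 0) (y 1) - β (x 1) (y 0)) {c : Gam → Fin 2 → B}
    {c' : Gam → Fin 2 → B'} (h : KumC T D c) (h' : KumC T D c') : Spl m D (cupb b a' c c') := by
  obtain ⟨ι, _, x, e, h1, h2⟩ := h.span hB
  refine lo3_spl_sum univ (c := fun i g k =>
    det2 (x i g) (mred m (T.ρ g) *ᵥ fun j => β (e i) (c' k j))) (fun i _ => ?_) fun g hg k _ => ?_
  · obtain ⟨S, hS⟩ := h1 i
    obtain ⟨S', hS'⟩ := h' m (β (e i))
    exact T.iso m D _ _ S S' hD hS hS'
  · simp only [cupb, hb, h2 g hg, map_sum, map_nsmul, AddMonoidHom.finsetSum_apply,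
      AddMonoidHom.nsmul_apply, nsmul_eq_mul, ZMod.natCast_zmod_val, ← sum_sub_distrib]
    exact sum_congr rfl fun i _ => by rw [← ha' m (β (e i)) g hg, det2]

theorem lo3_indep {F V : Type} [Field F] [Fintype F] [AddCommGroup V] [Module F V] (K : Set V)
    (r : ℕ) (h : ((Fintype.card F ^ r : ℕ) : ℕ∞) ≤ K.encard) :
    ∃ y : Fin r → V, (∀ i, y i ∈ K) ∧ LinearIndependent F y := by
  induction r with
  | zero => exact ⟨0, fun i => i.elim0, linearIndependent_empty_type⟩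
  | succ r ih =>
    have lt : Fintype.card F ^ r < Fintype.card F ^ (r + 1) :=
      Nat.pow_lt_pow_right Fintype.one_lt_card r.lt_succ_self
    obtain ⟨y, h1, h2⟩ := ih (le_trans (by exact_mod_cast lt.le) h)
    have : ¬ K ⊆ Submodule.span F (Set.range y) := fun k => by
      have e := h.trans (Set.encard_le_encard k)
      rw [← Fintype.range_linearCombination, LinearMap.coe_range, ← Set.image_univ] at e
      have e2 := e.trans (Set.encard_image_le _ _)
      rw [Set.encard_univ, ENat.card_eq_coe_fintype_card, Fintype.card_fun, Fintype.card_fin,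
        Nat.cast_le] at e2
      exact absurd lt (not_lt.2 e2)
    obtain ⟨z, z1, z2⟩ := Set.not_subset.1 this
    exact ⟨Fin.cons z y, Fin.cases z1 h1, h2.finCons z2⟩

theorem lo3_inj {X : Type} {r : ℕ} {y : Fin r → X → Fin 2 → ZMod (2 ^ 1)}
    (hy : LinearIndependent (ZMod 2) (show Fin r → X → Fin 2 → ZMod 2 from y))
    {x : Fin r → X → Fin 2 → ℕ} (hx : ∀ i s j, (x i s j : ZMod (2 ^ 1)) = y i s j)
    (hB : ∀ x : B, 2 ^ m • x = 0) {b : Fin r → B} (h : ∀ s j, ∑ i, x i s j • b i = 0) : b = 0 := by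
  have key : ∀ b : Fin r → B, (∀ i, 2 • b i = 0) → (∀ s j, ∑ i, x i s j • b i = 0) → b = 0 := by
    intro b h2 h
    let K := (nsmulAddMonoidHom (α := B) 2).ker
    let _ : Module (ZMod 2) K := AddCommGroup.zmodModule fun z => Subtype.ext z.2
    ext i
    have : (⟨b i, h2 i⟩ : K) = 0 := by
      refine (Module.forall_dual_apply_eq_zero_iff (ZMod 2) _).1 fun φ => ?_
      refine Fintype.linearIndependent_iff.1 hy (fun i => φ ⟨b i, h2 i⟩) ?_ i
      ext s j
      have e : ∑ i, x i s j • (⟨b i, h2 i⟩ : K) = 0 := Subtype.ext (by simpa using h s j)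
      have e2 := congrArg φ e
      simp only [map_sum, map_nsmul, map_zero, nsmul_eq_mul] at e2
      simp only [Finset.sum_apply, Pi.smul_apply, smul_eq_mul, Pi.zero_apply]
      rw [← e2]
      exact sum_congr rfl fun i _ => by rw [mul_comm]; exact congrArg (· * _) (hx i s j).symm
    exact congrArg Subtype.val this
  have : ∀ n, (∀ i, 2 ^ n • b i = 0) → b = 0 := fun n => by
    induction n with
    | zero => intro k; ext i; simpa using k i
    | succ n ih =>
      intro k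
      refine ih (congrFun (key (fun i => 2 ^ n • b i) (fun i => ?_) fun s j => ?_))
      · rw [← mul_nsmul, ← pow_succ, k]
      · simp only [smul_comm _ (2 ^ n), ← smul_sum, h s j, smul_zero]
  exact this m fun i => hB _

/-- The number of Kummer classes at two. -/
theorem card_LK {n : ℕ} {w : Plc} (hn : n % 8 = 3) (hw : w.p = 2) (hB : ∀ x : B, 2 ^ m • x = 0)
    [Finite (LK T (GK n ⊓ Dec w) B)] : Nat.card B ^ 4 ≤ Nat.card (LK T (GK n ⊓ Dec w) B) := by
  obtain ⟨y, y1, y2⟩ := lo3_indep (F := ZMod 2) (V := Gam → Fin 2 → ZMod 2) _ 4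
    (le_trans (by simp) (T.kumc n 1 w hn hw))
  choose x x1 x2 using fun i => KumP.lift (T := T) (k := 1) (y1 i).2 (Nat.le_add_left 1 m)
  have hB' : ∀ x : B, 2 ^ (m + 1) • x = 0 := fun x => by rw [pow_succ, mul_nsmul, hB, nsmul_zero]
  let Φ : (Fin 4 → B) → LK T (GK n ⊓ Dec w) B := fun b =>
    ⟨rs _ fun g j => ∑ i, (x i g j).val • b i,
      rs_mem_LK.2 (KumC.sum _ fun i _ => KumC.of_smul (x1 i) (hB' _))⟩
  have : Function.Injective Φ := fun b b' e => by
    refine sub_eq_zero.1 (lo3_inj (y := y) y2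
      (x := fun i g j => if g ∈ GK n ⊓ Dec w then (x i g j).val else 0) (fun i g j => ?_) hB
      fun g j => ?_)
    · split_ifs with hg
      · exact x2 i g hg j
      · rw [(y1 i).1 g hg, Nat.cast_zero, Pi.zero_apply]
    · split_ifs with hg
      · have := congrFun (congrFun (congrArg Subtype.val e) g) j
        simp only [Φ, rs_of_mem hg] at this
        simp only [Pi.sub_apply, nsmul_sub, sum_sub_distrib, this, sub_self]
      · simp
  simpa [Nat.card_fun] using Nat.card_le_card_of_injective Φ this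

theorem lo3_inert {n : ℕ} {w : Plc} (hn : n % 8 = 3) (hw : w.p = 2) {φ : Gam}
    (hφ : IsFrob w 2 φ) : φ ∉ GK n := by
  have h1 := chi_dec_two (a := -n * 5) hw (by omega) hφ.1
  rw [chi_mul (by omega) (by omega), chi_frob_two hw hφ] at h1
  rw [B4c_mem]
  intro h
  rw [h] at h1
  exact absurd h1 (by decide)

theorem ldeg_two {n : ℕ} {w : Plc} (hn : n % 8 = 3) (hw : w.p = 2) : ldeg (GK n) w = 2 := by
  obtain ⟨φ, hφ⟩ := exists_frob w
  rw [ldeg, if_pos hw, relIndex_inert hφ.1 (lo3_inert hn hw (hw ▸ hφ))]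

end Pool.Agent.Lib.MP_696deb_nt.B2
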