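import Pool.Agent.Lib.MP_696deb_nt.B2.LA
import Pool.Agent.Lib.MP_696deb_nt.B2.LO3

/-! The places of a Selmer structure. -/

set_option autoImplicit false

open scoped NNReal Classical
open Finset Matrix NumberTheorySymbols PowerSeries

namespace Pool.Agent.Lib.MP_696deb_nt.B2

variable {T : Tate} {n k m : ℕ} {lam w : Plc} {ψ : Gam → Lam} {B : Type} [AddCommGroup B]
  [Module Lam B] {g h : Gam} {Q : Finset Plc}

theorem Nok.pos (hn : Nok n) : 0 < n := by
  have := hn.m8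
  omega

theorem w2_p : w2.p = 2 := pl_p 2 Nat.prime_two

theorem bp_p (v : Fin 2) : (bp v).p = ![3, 5] v := by
  fin_cases v
  · exact pl_p 3 Nat.prime_three
  · exact pl_p 5 Nat.prime_five

theorem bq_p (v : Fin 2) (b : Bool) : (bq v b).p = ![3, 5] v := by
  cases b <;> exact bp_p v

theorem bq_or (v : Fin 2) (b : Bool) : (bq v b).p = 3 ∨ (bq v b).p = 5 := by
  cases b <;> exact bp_or v

theorem cc_bq (v : Fin 2) (b : Bool) : cc • bq v b = bq v (!b) := by
  cases b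
  · exact (smul_smul _ _ _).trans (by rw [cc_mul_cc, one_smul]; rfl)
  · rfl

theorem mem_Dec_cc : cc * g * cc ∈ Dec (cc • w) ↔ g ∈ Dec w := by
  rw [mem_Dec_smul, cc_inv, show cc * (cc * g * cc) * cc = cc * cc * g * (cc * cc) by group,
    cc_mul_cc, one_mul, mul_one]

theorem mem_Ine_cc : cc * g * cc ∈ Ine (cc • w) ↔ g ∈ Ine w := by
  rw [mem_Ine_smul, cc_inv, show cc * (cc * g * cc) * cc = cc * cc * g * (cc * cc) by group,
    cc_mul_cc, one_mul, mul_one]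

theorem cc_cc (g : Gam) : cc * (cc * g * cc) * cc = g := by
  rw [show cc * (cc * g * cc) * cc = cc * cc * g * (cc * cc) by group, cc_mul_cc, one_mul, mul_one]

theorem cc_mul (g h : Gam) : cc * (g * h) * cc = cc * g * cc * (cc * h * cc) := by
  rw [show cc * g * cc * (cc * h * cc) = cc * g * (cc * cc) * h * cc by group, cc_mul_cc]
  group

theorem ori_not (b : Bool) (g : Gam) : ori (!b) g = cc * ori b g * cc := by
  cases b
  · exact (cc_cc g).symm
  · rfl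

theorem Nok.split (hn : Nok n) (hw : w.p = 3 ∨ w.p = 5) : Dec w ≤ GK n := by
  obtain ⟨r, hr⟩ := hn.root
  have c := hn.good.cop
  have : Fact w.p.Prime := ⟨w.prime⟩
  have h1 : (w.p : ℤ) ∣ r ^ 2 + n := by
    rcases hw with h | h <;> rw [h] <;> exact dvd_trans (by norm_num) hr
  have h2 : ¬ w.p ∣ n := fun k => by
    exact w.prime.ne_one (Nat.eq_one_of_dvd_coprimes c k (show w.p ∣ 15 by
      rcases hw with h | h <;> rw [h] <;> norm_num))
  refine dec_le_split (by omega) ?_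
  rw [tw_jac (y := r ^ 2) (by rw [← dvd_neg, neg_sub, sub_neg_eq_add]; exact h1), jacobiSym.sq_one']
  rw [← Int.isCoprime_iff_gcd_eq_one, isCoprime_comm,
    (Nat.prime_iff_prime_int.1 w.prime).irreducible.coprime_iff_not_dvd]
  exact fun k => h2 (Int.natCast_dvd_natCast.1 ((dvd_add_right (k.pow two_ne_zero)).1 h1))

theorem Gen.smul {τ : Gam} (hτ : Gen w τ) (g : Gam) : Gen (g • w) (g * τ * g⁻¹) :=
  ⟨mem_Ine_smul.2 (by simpa [mul_assoc] using hτ.1), by
    rw [smul_p, map_mul, map_mul, map_inv, hτ.2, mul_right_comm, mul_inv_cancel, one_mul]⟩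

theorem frob_bq (v : Fin 2) (b : Bool) : IsFrob (bq v b) (bq v b).p (ori b (fr (bp v))) := by
  cases b
  · have := (fr_spec (bp v)).smul cc
    rwa [cc_inv] at this
  · exact fr_spec _

theorem gen_bq (v : Fin 2) (b : Bool) : Gen (bq v b) (nsg v b) := by
  have h := gn_spec (w := bp v) (by rcases bp_or v with h | h <;> omega)
  cases b
  · have := h.smul cc
    rwa [cc_inv] at this
  · exact h

theorem Nok.tm_bq' (hn : Nok n) (v : Fin 2) (b : Bool) :
    Tm (GK n) (bq v b) (bq v b).p (ori b (fr (bp v))) (nsg v b) :=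
  tm_split (op_GK n) (by rcases bq_or v b with h | h <;> omega) (hn.split (bq_or v b))
    (frob_bq v b) (gen_bq v b)

theorem Adm.nd30 (h : Adm n w.p) : ¬ w.p ∣ 30 := (h.2 _ w.prime dvd_rfl).1

theorem Adm.ne (h : Adm n w.p) : w.p ≠ 2 ∧ w.p ≠ 3 ∧ w.p ≠ 5 := by
  have := h.nd30
  refine ⟨?_, ?_, ?_⟩ <;> intro e <;> rw [e] at this <;> omega

theorem Adm.nd (h : Adm n w.p) : ¬ (w.p : ℤ) ∣ 2 * -n :=
  B4c_not_dvd h.ne.1 (by rw [(h.2 _ w.prime dvd_rfl).2]; decide)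

theorem Adm.ine (h : Adm n w.p) : Ine w ≤ GK n := fun _ hg => B4c_mem.2 (chi_ine h.nd hg)

theorem Adm.out (h : Adm n w.p) {φ : Gam} (hφ : IsFrob w w.p φ) : φ ∉ GK n := fun k => by
  have := chi_frob h.nd hφ
  rw [B4c_mem.1 k, (h.2 _ w.prime dvd_rfl).2] at this
  exact absurd this (by decide)

theorem Adm.tm0 (h : Adm n w.p) {z : Gam} (hz : Gen w z) : Tm (GK n) w (w.p ^ 2) (fq w) z :=
  tm_inert h.ne.1 h.ine (fr_spec w) (h.out (fr_spec w)) hz

theorem Adm.tm' (h : Adm n w.p) : Tm (GK n) w (w.p ^ 2) (fq w) (gn w) := h.tm0 (gn_spec h.ne.1)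

theorem Adm.cc_fr (h : Adm n w.p) (hn : 0 < n) : cc * fr w ∈ GK n :=
  mul_mem_GK (cc_notMem hn) (h.out (fr_spec w))

theorem Nok.ine_two (hn : Nok n) (hw : w.p = 2) : Ine w ≤ GK n := fun _ hg =>
  B4c_mem.2 (chi_ine_two hw (by have := hn.m8; omega) hg)

theorem Nok.out_two (hn : Nok n) (hw : w.p = 2) : fr w ∉ GK n :=
  lo3_inert hn.m8 hw (hw ▸ fr_spec w)

theorem Chr0.tAct (hψ : Chr0 n k lam ψ) (hn : Nok n) (hl : lam.p ≠ 2) (hB : Kil k B)
    (hw : w.p = 2) : TAct T (GK n ⊓ Dec w) (B2.act T ψ B) :=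
  tAct_of hB fun _ hg => hψ.dec (by omega) (hn.ine_two hw) (fr_spec w) (hn.out_two hw) hg

theorem DpL.rho_fr (h : DpL n k T lam ψ w) : mred (k + 2) (T.ρ (fr w)) = mred (k + 2) (T.ρ cc) := by
  rw [← mul_one (mred _ (T.ρ cc)), ← h.rho, ← la_mred_mul, ← map_mul, ← mul_assoc, cc_mul_cc,
    one_mul]

theorem DpL.rho_fq (h : DpL n k T lam ψ w) : mred (k + 2) (T.ρ (fq w)) = 1 := by
  rw [fq, map_mul, la_mred_mul, h.rho_fr, ← la_mred_mul, ← map_mul, cc_mul_cc, map_one, la_mred_one]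

theorem DpL.dvd1 (h : DpL n k T lam ψ w) : 2 ^ (k + 2) ∣ w.p + 1 := by
  have e : ∀ A : Matrix (Fin 2) (Fin 2) ℤ_[2], (mred (k + 2) A).det =
    PadicInt.toZModPow (k + 2) A.det := fun A => (RingHom.map_det _ A).symm
  have h1 := congrArg Matrix.det h.rho_fr
  rw [e, e, T.det, T.det, cyc_frob h.adm.ne.1 (fr_spec w), cyc_cc, map_natCast, map_neg,
    map_one] at h1
  rw [← ZMod.natCast_eq_zero_iff, Nat.cast_add, h1, Nat.cast_one, neg_add_cancel]

theorem DpL.hq (h : DpL n k T lam ψ w) (hm : m ≤ k + 2) :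
    ((w.p ^ 2 : ℕ) : ZMod (2 ^ (m + 1))) = 1 :=
  lo2_sq (w.prime.odd_of_ne_two h.adm.ne.1) ((pow_dvd_pow 2 hm).trans h.dvd1)

theorem DpL.act_fr (h : DpL n k T lam ψ w) (hB : Kil k B) (x : Fin 2 → B) :
    act T ψ B (cc * fr w) x = x :=
  act_id hB h.psi ((la_mred_le (Nat.le_add_right k 2) (h.rho.trans (la_mred_one _).symm)).trans
    (la_mred_one k)) x

/-- The decomposition group of a deep place acts trivially. -/
theorem DpL.triv (h : DpL n k T lam ψ w) (hψ : Chr0 n k lam ψ) (hB : Kil k B)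
    (hg : g ∈ GK n ⊓ Dec w) (x : Fin 2 → B) : act T ψ B g x = x := by
  have t := h.adm.tm'
  refine t.fix hB.two' ((hψ.act T hB).lo_mono inf_le_left) (act_id hB
    (hψ.unr w h.ne _ ⟨t.τ_mem.1, t.gen.1⟩) ?_ x) (act_id hB (hψ.dih _ (h.adm.out (fr_spec w))) ?_ x) hg
  · rw [T.unr w h.adm.nd30 _ t.gen.1, la_mred_one]
  · exact (la_mred_le (Nat.le_add_right k 2) (h.rho_fq.trans (la_mred_one _).symm)).trans
      (la_mred_one k)

/-- The hypotheses on the places, which are stable under conjugation of the character. -/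
structure SOk0 (T : Tate) (n k : ℕ) (lam : Plc) (ψ : Gam → Lam) (Q : Finset Plc) : Prop where
  nok : Nok n
  adm : Adm n lam.p
  chr : Chr0 n k lam ψ
  deep : ∀ w ∈ Q, DpL n k T lam ψ w
  inj : ∀ w ∈ Q, ∀ v ∈ Q, w.p = v.p → w = v

theorem SOk.sok0 (h : SOk T n k lam ψ Q) : SOk0 T n k lam ψ Q :=
  ⟨h.nok, h.adm, h.chr.chr0, h.deep, h.inj⟩

theorem SOk0.mono (h : SOk0 T n k lam ψ Q) {Q' : Finset Plc} (e : Q' ⊆ Q) : SOk0 T n k lam ψ Q' :=
  ⟨h.nok, h.adm, h.chr, fun w hw => h.deep w (e hw), fun w hw v hv => h.inj w (e hw) v (e hv)⟩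

/-- The set of all places of a structure. -/
noncomputable def pls (lam : Plc) (Q : Finset Plc) : Finset Plc :=
  univ.image (sp lam) ∪ insert w2 Q

theorem mem_pls : w ∈ pls lam Q ↔ (∃ i, sp lam i = w) ∨ w = w2 ∨ w ∈ Q := by
  simp only [pls, mem_union, mem_image, mem_univ, true_and, mem_insert]

theorem sp_p (lam : Plc) (i : Fin 5) : (sp lam i).p = ![3, 3, 5, 5, lam.p] i := by
  fin_cases i
  exacts [bq_p 0 true, bq_p 0 false, bq_p 1 true, bq_p 1 false, rfl]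

theorem bar_bar (i : Fin 5) : bar (bar i) = i := by fin_cases i <;> rfl

theorem bar_inj : Function.Injective bar := Function.LeftInverse.injective bar_bar

theorem sp_cases (lam : Plc) (i : Fin 5) : (∃ v b, sp lam i = bq v b ∧ sp lam (bar i) = bq v (!b)) ∨
    i = 4 := by
  fin_cases i
  exacts [.inl ⟨0, true, rfl, rfl⟩, .inl ⟨0, false, rfl, rfl⟩, .inl ⟨1, true, rfl, rfl⟩,
    .inl ⟨1, false, rfl, rfl⟩, .inr rfl]

theorem Nok.bq_apart (hn : Nok n) {v : Fin 2} {b b' : Bool} (hg : g ∈ GK n)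
    (e : g • bq v b = bq v b') : b = b' := by
  by_contra k
  exact not_conj_cc hn.pos (hn.split (bq_or v b)) hg (by
    rw [e, cc_bq, Bool.eq_not_of_ne (Ne.symm k)])

theorem sp_apart (hn : Nok n) (hl : Adm n lam.p) {i j : Fin 5} (hg : g ∈ GK n)
    (e : g • sp lam i = sp lam j) : i = j := by
  have h1 : (sp lam i).p = (sp lam j).p := (smul_p g _).symm.trans (congrArg Plc.p e)
  have h2 := hl.ne
  have a0 : ∀ v : Fin 2, g • bq v true ≠ bq v false := fun v e => by simpa using hn.bq_apart hg e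
  have a1 : ∀ v : Fin 2, g • bq v false ≠ bq v true := fun v e => by simpa using hn.bq_apart hg e
  rw [sp_p, sp_p] at h1
  fin_cases i <;> fin_cases j <;> first
    | rfl
    | exact absurd e (a0 0)
    | exact absurd e (a0 1)
    | exact absurd e (a1 0)
    | exact absurd e (a1 1)
    | simp at h1 <;> omega

theorem sp_inj (hn : Nok n) (hl : Adm n lam.p) : Function.Injective (sp lam) := fun _ _ e =>
  sp_apart hn hl (one_mem _) ((one_smul _ _).trans e)

theorem sp_ne_two (hl : Adm n lam.p) (i : Fin 5) : (sp lam i).p ≠ 2 := by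
  have := hl.ne
  rw [sp_p]
  fin_cases i <;> simp [this.1]

theorem DpL.ne_sp (h : DpL n k T lam ψ w) (i : Fin 5) : w.p ≠ (sp lam i).p := by
  have := h.adm.ne
  have := h.ne
  rw [sp_p]
  fin_cases i <;> simp <;> omega

theorem DpL.ne_w2 (h : DpL n k T lam ψ w) : w ≠ w2 := fun e => h.adm.ne.1 (e ▸ w2_p)

theorem SOk0.w2_notMem (h : SOk0 T n k lam ψ Q) : w2 ∉ Q := fun e => (h.deep _ e).ne_w2 rfl

theorem SOk0.sp_notMem (h : SOk0 T n k lam ψ Q) (i : Fin 5) : sp lam i ∉ insert w2 Q := fun e =>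
  (mem_insert.1 e).elim (fun e => sp_ne_two h.adm i (e ▸ w2_p)) fun e => (h.deep _ e).ne_sp i rfl

theorem SOk0.apart (h : SOk0 T n k lam ψ Q) : Apart (GK n) (pls lam Q) := by
  intro v hv w hw g hg e
  have h1 : v.p = w.p := (smul_p g _).symm.trans (congrArg Plc.p e)
  rcases mem_pls.1 hv with ⟨i, rfl⟩ | rfl | hv <;> rcases mem_pls.1 hw with ⟨j, rfl⟩ | rfl | hw
  · rw [sp_apart h.nok h.adm hg e]
  · exact absurd (h1.trans w2_p) (sp_ne_two h.adm i)
  · exact absurd h1.symm ((h.deep _ hw).ne_sp i)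
  · exact absurd (h1.symm.trans w2_p) (sp_ne_two h.adm j)
  · rfl
  · exact absurd (h1.symm.trans w2_p) (h.deep _ hw).adm.ne.1
  · exact absurd h1 ((h.deep _ hv).ne_sp j)
  · exact absurd (h1.trans w2_p) (h.deep _ hv).adm.ne.1
  · exact h.inj v hv w hw h1

theorem SOk0.away_iff (h : SOk0 T n k lam ψ Q) : Away (GK n) (pls lam Q) w ↔
    ¬ w.p ∣ 30 ∧ w.p ≠ lam.p ∧ ∀ v ∈ Q, w.p ≠ v.p := by
  constructor
  · intro a
    have inert : ∀ v ∈ pls lam Q, fr v ∉ GK n → w.p ≠ v.p := fun v hv o e => by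
      obtain ⟨g, hg, e'⟩ := conj_of_inert e (fr_spec v).1 o
      exact a v hv g hg e'
    have split : ∀ v : Fin 2, w.p ≠ (bp v).p := fun v e => by
      obtain ⟨g, hg, e' | e'⟩ := conj_or h.nok.pos e
      · refine a _ (mem_pls.2 (.inl ?_)) g hg e'
        fin_cases v
        exacts [⟨0, rfl⟩, ⟨2, rfl⟩]
      · refine a _ (mem_pls.2 (.inl ?_)) g hg e'
        fin_cases v
        exacts [⟨1, rfl⟩, ⟨3, rfl⟩]
    refine ⟨fun e => ?_, inert _ (mem_pls.2 (.inl ⟨4, rfl⟩)) (h.adm.out (fr_spec _)),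
      fun v hv => inert v (mem_pls.2 (.inr (.inr hv))) ((h.deep v hv).adm.out (fr_spec _))⟩
    have h2 := inert w2 (mem_pls.2 (.inr (.inl rfl))) (h.nok.out_two w2_p)
    have h3 := split 0
    have h5 := split 1
    rw [w2_p] at h2
    rw [bp_p] at h3 h5
    rcases (w.prime.dvd_mul (m := 2) (n := 15)).1 e with e | e
    · exact h2 ((Nat.prime_dvd_prime_iff_eq w.prime Nat.prime_two).1 e)
    rcases (w.prime.dvd_mul (m := 3) (n := 5)).1 e with e | e
    · exact h3 ((Nat.prime_dvd_prime_iff_eq w.prime Nat.prime_three).1 e)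
    · exact h5 ((Nat.prime_dvd_prime_iff_eq w.prime Nat.prime_five).1 e)
  · rintro ⟨h1, h2, h3⟩ v hv g - rfl
    rw [smul_p] at h1 h2 h3
    rcases mem_pls.1 hv with ⟨i, rfl⟩ | rfl | hv
    · rw [sp_p] at h1 h2
      fin_cases i <;> simp at h1 h2
    · exact h1 (by rw [w2_p]; norm_num)
    · exact h3 v hv rfl

theorem SOk0.away_cc (h : SOk0 T n k lam ψ Q) (a : Away (GK n) (pls lam Q) w) (g : Gam) :
    Away (GK n) (pls lam Q) (g • w) := h.away_iff.2 (h.away_iff (w := w).1 a)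

/-- Away from the places of a structure the action is unramified. -/
theorem SOk0.good (h : SOk0 T n k lam ψ Q) (hB : Kil k B) (a : Away (GK n) (pls lam Q) w) :
    w.p ≠ 2 ∧ ∀ σ ∈ GK n ⊓ Ine w, ∀ x, act T ψ B σ x = x := by
  obtain ⟨h1, h2, -⟩ := h.away_iff.1 a
  exact ⟨fun e => h1 (by rw [e]; norm_num), fun σ hσ => act_id hB (h.chr.unr w h2 σ hσ)
    (by rw [T.unr w h1 σ hσ.2, la_mred_one])⟩

/-- The conditions that define a Selmer group. -/
theorem SOk0.mem_SelB {s : Str} (h : SOk0 T n k lam ψ s.Q) {z : Co B} :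
    z ∈ SelB T n lam ψ s B ↔ z.1 ∈ Z1 (GK n) (act T ψ B) ∧
      (∀ w, Away (GK n) (pls lam s.Q) w → ∀ σ ∈ GK n ⊓ Ine w, z.1 σ = 0) ∧
      (∀ i ∈ s.R, ∀ g ∈ GK n ⊓ Dec (sp lam i), z.1 g = cob (act T ψ B) (z.2 (sp lam i)) g) ∧
      (∀ w ∉ s.R.image (sp lam), z.2 w = 0) ∧ KumC T (GK n ⊓ Dec w2) z.1 ∧
      ∀ w ∈ s.Q, (z.1 (fq w), z.1 (gn w)) ∈ (s.ty w).cond B := by
  refine and_congr_right fun h1 => and_congr Iff.rfl (and_congr forall_mem_image
    (and_congr Iff.rfl ?_))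
  rw [forall_mem_insert, Lc, if_pos rfl, rs_mem_LK]
  refine and_congr Iff.rfl (forall₂_congr fun w hw => ?_)
  have t := (h.deep w hw).adm.tm'
  rw [Lc, if_neg (h.deep w hw).ne_w2, mem_Ldp, rs_of_mem t.φ_mem, rs_of_mem t.τ_mem]
  exact and_iff_right (h1.1.lo_mono inf_le_left).lo_rs

end Pool.Agent.Lib.MP_696deb_nt.B2
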