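import Pool.Agent.Lib.MP_696deb_nt.B2.D1b
import Pool.Agent.Lib.MP_696deb_nt.B2.Base

/-! Bases of the Tate module and the function that computes the Weil pairing. -/

set_option autoImplicit false

open scoped NNReal Classical
open Matrix

namespace Pool.Agent.Lib.MP_696deb_nt.B2

/-- Two-adic matrices. -/
abbrev M2 : Type := Matrix (Fin 2) (Fin 2) ℤ_[2]

/-- The quotient `σ(2u+v) σ(v)^3 / (σ(u+2v) σ(u)^3)`. -/
noncomputable def ps2 (A B : EE) : Qbar := (xco (A + B) - xco A) / (xco (A + B) - xco B)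

/-- The quotient `σ(nu+v) / σ(u+nv)` for `n = 2 ^ m`, up to functions of one variable. -/
noncomputable def wpsi : ℕ → EE → EE → Qbar
  | 0, _, _ => 1
  | m + 1, A, B => wpsi m (2 • A) B * ps2 A (2 ^ m • B)

/-- Neither point is a multiple of the other. -/
def Gn (P Q : EE) : Prop := P ∉ AddSubgroup.zmultiples Q ∧ Q ∉ AddSubgroup.zmultiples P

/-- The conditions under which `wpsi` has neither a zero nor a pole. -/
def Gw (m : ℕ) (A B : EE) : Prop :=
  2 ^ m • A ≠ 0 ∧ 2 ^ m • B ≠ 0 ∧ ∀ i j, i ≤ m → j ≤ m → 2 ^ i • A + 2 ^ j • B ≠ 0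

/-- A basis of the Tate module. -/
structure Emb where
  emb : (m : ℕ) → (Fin 2 → ZMod (2 ^ m)) →+ EE
  inj : ∀ m, Function.Injective (emb m)
  surj : ∀ m P, 2 ^ m • P = 0 → ∃ x, emb m x = P
  two : ∀ m k x, 2 ^ k • emb (m + k) x =
    emb m fun i => ZMod.castHom (pow_dvd_pow 2 (Nat.le_add_right m k)) (ZMod (2 ^ m)) (x i)
  weil : ∀ m, ∃ u : (ZMod (2 ^ m))ˣ, ∀ A B x y, Gn (2 ^ m • A) (2 ^ m • B) →
    wpsi m (A + emb m x) (B + emb m y) * wpsi m A B =
      zeta m ^ (u * det2 x y).val * (wpsi m A (B + emb m y) * wpsi m (A + emb m x) B)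

/-- A basis with the Galois representation. -/
structure TB extends Emb where
  ρ : Gam →* M2
  smul : ∀ m g x, g • emb m x = emb m (mred m (ρ g) *ᵥ x)

/-- A normalised basis. -/
structure TN extends TB where
  e0 : emb 1 ![1, 0] = T3
  e1 : emb 1 ![0, 1] = T1
  conj : ρ cc = !![1, 0; 0, -1]
  mod8 : ∀ g, chi (-1) g = 1 → ∃ a b c d : ℤ_[2], ρ g = !![1 + 4 * a, 4 * b; 4 * c, 1 + 4 * d] ∧
    PadicInt.toZMod a = xi 5 g ∧ PadicInt.toZMod b = xi 15 g ∧ PadicInt.toZMod c = xi 5 g ∧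
      PadicInt.toZMod d = xi 10 g

/-- Kummer cocycles with values in the points of order two. -/
def KL (D : Subgroup Gam) (α β : Gam → ZMod (2 ^ 1)) : Prop :=
  ∃ S : EE, ∀ g ∈ D, g • S - S = (α g).val • T2 + (β g).val • T1

theorem Gn.gw {m : ℕ} {A B : EE} (h : Gn (2 ^ m • A) (2 ^ m • B)) : Gw m A B := by
  have k : ∀ {A B : EE} {i j : ℕ}, i ≤ j → i ≤ m → 2 ^ i • A + 2 ^ j • B = 0 →
      2 ^ m • A ∈ AddSubgroup.zmultiples (2 ^ m • B) := fun {A B i j} h1 h2 e => by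
    obtain ⟨a, rfl⟩ := Nat.exists_eq_add_of_le h1
    obtain ⟨b, rfl⟩ := Nat.exists_eq_add_of_le h2
    have e' : 2 ^ (i + b) • A = -(2 ^ a • 2 ^ (i + b) • B : EE) := by
      rw [add_comm i b, pow_add, mul_smul, eq_neg_of_add_eq_zero_left e, smul_neg, ← mul_smul,
        ← mul_smul, pow_add, mul_comm (2 ^ a), mul_assoc]
    rw [e']
    exact neg_mem (nsmul_mem (AddSubgroup.mem_zmultiples _) _)
  refine ⟨fun e => h.1 (e ▸ zero_mem _), fun e => h.2 (e ▸ zero_mem _), fun i j hi hj e => ?_⟩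
  rcases le_total i j with h1 | h1
  exacts [h.1 (k h1 hi e), h.2 (k h1 hj ((add_comm _ _).trans e))]

theorem Gw.succ {m : ℕ} {A B : EE} (h : Gw (m + 1) A B) : Gw m (2 • A) B ∧ A ≠ 0 ∧
    2 ^ m • B ≠ 0 ∧ A + 2 ^ m • B ≠ 0 ∧ 2 • A + 2 ^ m • B ≠ 0 ∧ A + 2 • 2 ^ m • B ≠ 0 := by
  have hB : 2 ^ m • B ≠ 0 := fun e => h.2.1 (by rw [pow_succ', mul_smul, e, smul_zero])
  refine ⟨⟨by rw [← mul_smul, ← pow_succ]; exact h.1, hB, fun i j hi hj => ?_⟩,
    fun e => h.1 (by rw [e, smul_zero]), hB, by simpa using h.2.2 0 m (by omega) (by omega),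
    by simpa using h.2.2 1 m (by omega) (by omega), ?_⟩
  · rw [← mul_smul, ← pow_succ]
    exact h.2.2 _ _ (by omega) (by omega)
  · rw [← mul_smul, ← pow_succ']
    simpa using h.2.2 0 (m + 1) (by omega) le_rfl

theorem eq_or_of_xco {P Q : EE} (hP : P ≠ 0) (hQ : Q ≠ 0) (h : xco P = xco Q) :
    P = Q ∨ P = -Q := by
  rcases P with _ | ⟨x, y, hp⟩
  · exact absurd rfl hP
  rcases Q with _ | ⟨x', y', hq⟩
  · exact absurd rfl hQ
  exact WeierstrassCurve.Affine.Point.X_eq_iff.1 h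

theorem tw_one (g : Gam) (P : EE) : tw 1 g P = g • P := by
  rw [tw, show chi 1 g = 1 by simpa using chi_sq 1 g, Units.val_one, one_smul]

theorem mred_apply (m : ℕ) (A : M2) (i j : Fin 2) : mred m A i j = PadicInt.toZModPow m (A i j) :=
  rfl

theorem mred_mul (m : ℕ) (A B : M2) : mred m (A * B) = mred m A * mred m B := Matrix.map_mul

theorem mred_one (m : ℕ) : mred m 1 = 1 := Matrix.map_one _ (map_zero _) (map_one _)

theorem mred_det (m : ℕ) (A : M2) : (mred m A).det = PadicInt.toZModPow m A.det :=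
  (RingHom.map_det _ _).symm

theorem red_eq_iff {m : ℕ} {x y : ℤ_[2]} :
    PadicInt.toZModPow m x = PadicInt.toZModPow m y ↔ 2 ^ m ∣ x - y := by
  rw [← sub_eq_zero, ← map_sub, ← RingHom.mem_ker, PadicInt.ker_toZModPow,
    Ideal.mem_span_singleton, Nat.cast_ofNat]

theorem red_two_iff {x y : ℤ_[2]} : PadicInt.toZMod x = PadicInt.toZMod y ↔ 2 ∣ x - y := by
  rw [← sub_eq_zero, ← map_sub, ← RingHom.mem_ker, PadicInt.ker_toZMod,
    PadicInt.maximalIdeal_eq_span_p, Ideal.mem_span_singleton, Nat.cast_ofNat]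

theorem isUnit_iff_red {x : ℤ_[2]} : IsUnit x ↔ PadicInt.toZMod x = 1 := by
  rw [← IsLocalRing.notMem_maximalIdeal, ← PadicInt.ker_toZMod, RingHom.mem_ker]
  generalize PadicInt.toZMod x = y
  revert y
  decide

theorem eq_of_dvd {x y : ℤ_[2]} (h : ∀ m : ℕ, 2 ^ m ∣ x - y) : x = y :=
  PadicInt.ext_of_toZModPow.1 fun m => red_eq_iff.2 (h m)

theorem mred_eq_iff {m : ℕ} {A B : M2} : mred m A = mred m B ↔ ∃ C : M2, A = B + 2 ^ m • C := by
  constructor
  · intro h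
    choose C hC using fun i j => red_eq_iff.1 (congrFun (congrFun h i) j)
    refine ⟨of C, Matrix.ext fun i j => ?_⟩
    rw [Matrix.add_apply, Matrix.smul_apply, of_apply, nsmul_eq_mul, Nat.cast_pow, Nat.cast_ofNat, ← hC]
    ring
  · rintro ⟨C, rfl⟩
    refine Matrix.ext fun i j => red_eq_iff.2 ⟨C i j, ?_⟩
    rw [Matrix.add_apply, Matrix.smul_apply, nsmul_eq_mul, Nat.cast_pow, Nat.cast_ofNat]
    ring

theorem mred_ext {A B : M2} (h : ∀ m, mred m A = mred m B) : A = B :=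
  Matrix.ext fun i j => PadicInt.ext_of_toZModPow.1 fun m => congrFun (congrFun (h m) i) j

theorem Emb.tors (E : Emb) (m : ℕ) (x : Fin 2 → ZMod (2 ^ m)) : 2 ^ m • E.emb m x = 0 := by
  rw [← map_nsmul, show 2 ^ m • x = 0 from funext fun i => by
    rw [Pi.smul_apply, nsmul_eq_mul, ZMod.natCast_self, zero_mul, Pi.zero_apply], map_zero]

theorem TB.mred_eq (T : TB) {m : ℕ} {g : Gam} {A : Matrix (Fin 2) (Fin 2) (ZMod (2 ^ m))}
    (h : ∀ x, g • T.emb m x = T.emb m (A *ᵥ x)) : mred m (T.ρ g) = A :=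
  Matrix.ext_of_mulVec_single fun _ => T.inj m ((T.smul m g _).symm.trans (h _))

theorem TB.mred_eq_one (T : TB) {m : ℕ} {g : Gam} (h : ∀ P : EE, 2 ^ m • P = 0 → g • P = P) :
    mred m (T.ρ g) = 1 :=
  T.mred_eq fun x => by rw [one_mulVec, h _ (T.tors m x)]

theorem TB.mod2 (T : TB) (g : Gam) : mred 1 (T.ρ g) = 1 :=
  T.mred_eq_one fun P h => by
    rcases two_eq_zero.1 h with rfl | rfl | rfl | rfl
    exacts [smul_zero g, smul_T1 g, smul_T2 g, smul_T3 g]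

theorem TN.mod4 (T : TN) (g : Gam) (h : chi (-1) g = 1) : mred 2 (T.ρ g) = 1 := by
  obtain ⟨a, b, c, d, e, -⟩ := T.mod8 g h
  rw [← mred_one 2, mred_eq_iff]
  refine ⟨!![a, b; c, d], ?_⟩
  rw [e]
  ext i j
  fin_cases i <;> fin_cases j <;> simp

end Pool.Agent.Lib.MP_696deb_nt.B2
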