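import Pool.Agent.Lib.MP_696deb_nt.B2.TW1
import Pool.Agent.Lib.MP_696deb_nt.B2.CL0
import Pool.Agent.Lib.MP_696deb_nt.B2.TA0

/-! Deep primes. -/

set_option autoImplicit false

open scoped NNReal Classical
open Finset Matrix NumberTheorySymbols

namespace Pool.Agent.Lib.MP_696deb_nt.B2

variable {N : Subgroup Gam} {n : ℕ} {w : Plc} {φ : Gam}

theorem op_kerOn {A : Type} [AddGroup A] {x : Gam → A} (hN : Op N) (h1 : Sm N x) (h2 : IsHom N x) :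
    Op (kerOn N x h2) := by
  obtain ⟨U, u1, -, u3⟩ := h1
  refine Subgroup.isOpen_mono (H₁ := U ⊓ N) (fun g hg => ⟨hg.2, ?_⟩) (u1.inf hN)
  rw [← u3 1 (one_mem _) g hg.2 (by simpa using hg.1), h2.one]

theorem conj_cc_mem' (hn : N.Normal) {g : Gam} (hg : g ∈ N) : cc * g * cc ∈ N := by
  simpa only [cc_inv] using hn.conj_mem g hg cc

/-- The choice of a prime with prescribed Frobenius element. -/
theorem exists_deep (ch : ChebStmt) (hN : Op N) (hn : N.Normal) {A : Type} [AddCommGroup A]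
    {k : ℕ} (hA : ∀ y : A, 2 ^ k • y = 0) {x : Gam → A} (h1 : Sm N x) (h2 : IsHom N x) {σ : Gam}
    (hσ : σ ∈ N) (B : Finset ℕ) : ∃ (w : Plc) (φ : Gam) (a : ℕ), w.p ∉ B ∧ IsFrob w w.p φ ∧
      Odd a ∧ cc * φ ∈ N ∧ Ine w ≤ N ∧ x (φ * φ) = a • (x σ + x (cc * σ * cc)) := by
  obtain ⟨V, v1, v2, v3⟩ := exists_normal_le (op_kerOn hN h1 h2)
  obtain ⟨B', hB⟩ := finite_ram hN
  have m1 := conj_cc_mem' hn hσ
  have m2 : cc * σ * (cc * σ) ∈ N := by simpa only [mul_assoc] using mul_mem m1 hσ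
  have hU : Op (kerOn N x h2).normalCore :=
    Subgroup.isOpen_mono (Subgroup.normal_le_normalCore.2 v3) v1
  obtain ⟨w, φ, a, k1, k2, ⟨j, rfl⟩, k4⟩ := ch _ (cc * σ) (k + 1) (B ∪ B') hU inferInstance
    fun h => by
      have m3 := hn.conj_mem _ m2 h
      have e : h * (cc * σ) ^ 2 ^ (k + 1) * h⁻¹ = (h * (cc * σ * (cc * σ)) * h⁻¹) ^ 2 ^ k := by
        rw [conj_pow, pow_succ', pow_mul, pow_two]
      rw [e]
      exact ⟨pow_mem m3 _, by rw [tw_hom_pow h2 m3, hA]⟩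
  obtain ⟨u, hu, e⟩ : ∃ u ∈ (kerOn N x h2).normalCore, φ = (cc * σ) ^ (2 * j + 1) * u :=
    ⟨_, inv_mem k4, by group⟩
  have k5 := Subgroup.normalCore_le _ hu
  have k6 := Subgroup.normalCore_le _ ((Subgroup.normalCore_normal _).conj_mem _ hu
    ((cc * σ) ^ (2 * j + 1))⁻¹)
  refine ⟨w, φ, 2 * j + 1, fun h => k1 (mem_union_left _ h), k2, ⟨j, rfl⟩, ?_,
    hB w fun h => k1 (mem_union_right _ h), ?_⟩
  · rw [e, pow_succ', pow_mul, pow_two, ← mul_assoc, ← mul_assoc, ← mul_assoc, cc_mul_cc, one_mul]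
    exact mul_mem (mul_mem hσ (pow_mem m2 j)) k5.1
  · have e2 : φ * φ = (cc * σ * (cc * σ)) ^ (2 * j + 1) * (((cc * σ) ^ (2 * j + 1))⁻¹ * u *
        ((cc * σ) ^ (2 * j + 1))⁻¹⁻¹ * u) := by
      rw [← pow_two (cc * σ), ← pow_mul, two_mul (2 * j + 1), pow_add _ (2 * j + 1), e]
      generalize (cc * σ) ^ (2 * j + 1) = y
      group
    rw [e2, h2 _ (pow_mem m2 _) _ (mul_mem k6.1 k5.1), h2 _ k6.1 _ k5.1, k6.2, k5.2, add_zero,
      add_zero, tw_hom_pow h2 m2, ← mul_assoc, h2 _ m1 _ hσ, add_comm (x σ)]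

/-- The same for a finite family of functions. -/
theorem exists_deep' (ch : ChebStmt) (hN : Op N) (hn : N.Normal) {A : Type} [AddCommGroup A]
    {k : ℕ} (hA : ∀ y : A, 2 ^ k • y = 0) {Z : Set (Gam → A)} (hZ : Z.Finite)
    (h : ∀ c ∈ Z, Sm N c ∧ IsHom N c) {σ : Gam} (hσ : σ ∈ N) (B : Finset ℕ) :
    ∃ (w : Plc) (φ : Gam) (a : ℕ), w.p ∉ B ∧ IsFrob w w.p φ ∧ Odd a ∧ cc * φ ∈ N ∧ Ine w ≤ N ∧
      ∀ c ∈ Z, c (φ * φ) = a • (c σ + c (cc * σ * cc)) := by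
  have := hZ.to_subtype
  obtain ⟨w, φ, a, k1, k2, k3, k4, k5, k6⟩ := exists_deep ch hN hn (A := Z → A) (k := k)
    (fun y => funext fun i => hA _) (x := fun g i => i.1 g) (Sm.pi fun i => (h i.1 i.2).1)
    (fun g hg u hu => funext fun i => (h i.1 i.2).2 g hg u hu) hσ B
  exact ⟨w, φ, a, k1, k2, k3, k4, k5, fun c hc => congrFun k6 ⟨c, hc⟩⟩

theorem deep_sq (hn : N.Normal) (h : cc * φ ∈ N) : φ * φ ∈ N := by
  have := mul_mem (conj_cc_mem' hn h) h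
  simpa [mul_assoc, ← mul_assoc cc cc, cc_mul_cc] using this

theorem deep_out (hn : 0 < n) (hN : N ≤ GK n) (h : cc * φ ∈ N) : φ ∉ GK n := fun k =>
  cc_notMem hn (by simpa using mul_mem (hN h) (inv_mem k))

/-- Conjugation by complex conjugation and by the Frobenius element agree on characters. -/
theorem deep_conj (hn : N.Normal) {A : Type*} [AddCommGroup A] {x : Gam → A} (h2 : IsHom N x)
    (h : cc * φ ∈ N) {g : Gam} (hg : g ∈ N) : x (cc * g * cc) = x (φ * g * φ⁻¹) := by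
  have m1 := conj_cc_mem' hn h
  have m2 := conj_cc_mem' hn hg
  have e : φ * g * φ⁻¹ = cc * (cc * φ) * cc * (cc * g * cc) * (cc * (cc * φ) * cc)⁻¹ := by
    simp [mul_assoc, ← mul_assoc cc cc, cc_mul_cc, cc_inv]
  rw [e, h2 _ (mul_mem m1 m2) _ (inv_mem m1), h2 _ m1 _ m2, h2.inv m1]
  abel

/-- The tame relation for a character. -/
theorem hom_tame (hN : Op N) (hw : w.p ≠ 2) {A : Type*} [AddCommGroup A] {k : ℕ}
    (hA : ∀ y : A, 2 ^ k • y = 0) {x : Gam → A} (h1 : Sm (N ⊓ Ine w) x) (h2 : IsHom (N ⊓ Ine w) x)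
    {q : ℕ} (hφ : IsFrob w q φ) {s : Gam} (hs : s ∈ N ⊓ Ine w) (hs' : φ * s * φ⁻¹ ∈ N) :
    x (φ * s * φ⁻¹) = q • x s :=
  tame_frob (F := Multiplicative A) hw (π := fun g => Multiplicative.ofAdd (x g)) (h1.comp _)
    (fun g hg u hu => congrArg Multiplicative.ofAdd (h2 g hg u hu))
    (fun g _ => ⟨k, congrArg Multiplicative.ofAdd (hA (x g))⟩) hN hφ hs hs'

theorem deep_ine (hN : Op N) (hn : N.Normal) (hw : w.p ≠ 2) {A : Type*} [AddCommGroup A] {k : ℕ}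
    (hA : ∀ y : A, 2 ^ k • y = 0) {x : Gam → A} (h1 : Sm N x) (h2 : IsHom N x)
    (hφ : IsFrob w w.p φ) (h : cc * φ ∈ N) (hk : 2 ^ k ∣ w.p + 1) {s : Gam} (hs : s ∈ N ⊓ Ine w) :
    x (cc * s * cc) = -x s := by
  obtain ⟨c, e⟩ := hk
  rw [deep_conj hn h2 h hs.1, hom_tame hN hw hA (h1.mono inf_le_left)
    (fun g hg u hu => h2 g hg.1 u hu.1) hφ hs (hn.conj_mem _ hs.1 _), eq_neg_iff_add_eq_zero,
    ← succ_nsmul, e, mul_comm, mul_smul, hA, smul_zero]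

theorem mred_trace (m : ℕ) (A : Matrix (Fin 2) (Fin 2) ℤ_[2]) :
    (mred m A).trace = PadicInt.toZModPow m A.trace := by
  simp [mred, Matrix.trace_fin_two]

theorem Tate.mred_cc (T : Tate) (m : ℕ) : mred m (T.ρ cc) = !![1, 0; 0, -1] := by
  rw [T.conj]
  ext i j
  fin_cases i <;> fin_cases j <;> simp [mred]

theorem deep_rho (T : Tate) {m : ℕ} (h : mred m (T.ρ (cc * φ)) = 1) :
    mred m (T.ρ φ) = !![1, 0; 0, -1] := by
  rw [← T.mred_cc, ← mul_one (mred m (T.ρ cc)), ← h, ← mred_mul, ← map_mul, ← mul_assoc, cc_mul_cc,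
    one_mul]

theorem deep_dvd (T : Tate) {m : ℕ} (hw : ¬ w.p ∣ 30) (hφ : IsFrob w w.p φ)
    (h : mred m (T.ρ (cc * φ)) = 1) : 2 ^ m ∣ w.p + 1 ∧ (2 : ℤ) ^ m ∣ a15 w.p := by
  have h1 := congrArg Matrix.det (deep_rho T h)
  have h2 := congrArg Matrix.trace (deep_rho T h)
  rw [mred_det, T.det, cyc_frob (fun k => hw (by rw [k]; norm_num)) hφ, map_natCast] at h1
  rw [mred_trace, T.tr w φ hw hφ, map_intCast] at h2
  refine ⟨(ZMod.natCast_eq_zero_iff _ _).1 ?_, ?_⟩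
  · push_cast
    rw [h1]
    simp
  · have := (ZMod.intCast_zmod_eq_zero_iff_dvd _ _).1 (h2.trans (by simp))
    exact_mod_cast this

/-- The data of a deep prime. -/
structure TwD (n m : ℕ) (N : Subgroup Gam) (w : Plc) (φ s : Gam) : Prop where
  nd30 : ¬ w.p ∣ 30
  nd : ¬ (w.p : ℤ) ∣ n
  inert : J(-n | w.p) = -1
  frob : IsFrob w w.p φ
  mem : cc * φ ∈ N
  out : φ ∉ GK n
  sq : φ * φ ∈ N
  ine : Ine w ≤ N
  gen : Gen w s
  dvd : 2 ^ m ∣ w.p + 1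
  dvd_a : (2 : ℤ) ^ m ∣ a15 w.p

theorem exists_TwD (ch : ChebStmt) (T : Tate) (h0 : 0 < n) (hN : Op N) (hn : N.Normal)
    (hK : N ≤ GK n) {m : ℕ} (hρ : ∀ g ∈ N, mred m (T.ρ g) = 1) {A : Type} [AddCommGroup A]
    {k : ℕ} (hA : ∀ y : A, 2 ^ k • y = 0) {Z : Set (Gam → A)} (hZ : Z.Finite)
    (h : ∀ c ∈ Z, Sm N c ∧ IsHom N c) {σ : Gam} (hσ : σ ∈ N) (B : ℕ) :
    ∃ (w : Plc) (φ s : Gam) (a : ℕ), B < w.p ∧ TwD n m N w φ s ∧ Odd a ∧
      ∀ c ∈ Z, c (φ * φ) = a • (c σ + c (cc * σ * cc)) := by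
  obtain ⟨w, φ, a, k1, k2, k3, k4, k5, k6⟩ :=
    exists_deep' ch hN hn hA hZ h hσ (range (B + 2 * n + 31))
  rw [mem_range, not_lt] at k1
  have nd30 : ¬ w.p ∣ 30 := fun k => by
    have := Nat.le_of_dvd (by norm_num) k
    omega
  have nd : ¬ (w.p : ℤ) ∣ 2 * n := fun k => by
    have := Int.le_of_dvd (by omega) k
    omega
  obtain ⟨s, hs⟩ := exists_gen (w := w) (by omega)
  have out := deep_out h0 hK k4
  obtain ⟨d1, d2⟩ := deep_dvd T nd30 k2 (hρ _ k4)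
  exact ⟨w, φ, s, a, by omega, ⟨nd30, fun k => nd (k.mul_left 2), inert_of_frob k2 out nd, k2, k4,
    out, deep_sq hn k4, k5, hs, d1, d2⟩, k3, k6⟩

/-- A deep prime enlarges an admissible conductor. -/
theorem Adm.mul {c p : ℕ} (h : Adm n c) (hp : p.Prime) (h1 : ¬ p ∣ c) (h2 : ¬ p ∣ 30)
    (h3 : J(-n | p) = -1) : Adm n (c * p) :=
  ⟨(Nat.squarefree_mul ((Nat.coprime_comm.1 (hp.coprime_iff_not_dvd.2 h1)))).2 ⟨h.1, hp.squarefree⟩,
    fun l hl k => (hl.dvd_mul.1 k).elim (h.2 l hl) fun k => by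
      obtain rfl := (Nat.prime_dvd_prime_iff_eq hl hp).1 k
      exact ⟨h2, h3⟩⟩

theorem Adm.of_dvd {c c' : ℕ} (h : Adm n c') (k : c ∣ c') : Adm n c :=
  ⟨h.1.squarefree_of_dvd k, fun l hl k' => h.2 l hl (k'.trans k)⟩

theorem adm_one (n : ℕ) : Adm n 1 :=
  ⟨squarefree_one, fun _ hl k => absurd (Nat.dvd_one.1 k) hl.ne_one⟩

end Pool.Agent.Lib.MP_696deb_nt.B2
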