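import Pool.Agent.Lib.MP_696deb_nt.B2.PA0
import Pool.Agent.Lib.MP_696deb_nt.B2.LOK0
import Pool.Agent.Lib.MP_696deb_nt.B2.TW2

/-! Selmer structures with coefficients in finite modules over the ring of power series. -/

set_option autoImplicit false

open scoped NNReal Classical
open Finset Matrix NumberTheorySymbols PowerSeries

namespace Pool.Agent.Lib.MP_696deb_nt.B2

/-- Modules of level `k`. -/
def Kil (k : ℕ) (B : Type) [AddCommGroup B] [Module Lam B] : Prop :=
  ∀ a ∈ aa k k, ∀ x : B, a • x = 0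

/-- A matrix acts on pairs of elements of a module. -/
noncomputable def mact (B : Type) [AddCommGroup B] [Module Lam B] (A : Matrix (Fin 2) (Fin 2) Lam) :
    (Fin 2 → B) →ₗ[Lam] (Fin 2 → B) :=
  LinearMap.pi fun i => ∑ j, A i j • LinearMap.proj j

theorem mact_apply {B : Type} [AddCommGroup B] [Module Lam B] (A : Matrix (Fin 2) (Fin 2) Lam)
    (x : Fin 2 → B) (i : Fin 2) : mact B A x i = A i 0 • x 0 + A i 1 • x 1 := by
  simp [mact, Fin.sum_univ_two]

/-- The Tate module twisted by `ψ`. -/
noncomputable def rep (T : Tate) (ψ : Gam → Lam) (g : Gam) : Matrix (Fin 2) (Fin 2) Lam :=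
  ψ g • (T.ρ g).map C

/-- The action on the Tate module with coefficients in `B`. -/
noncomputable def act (T : Tate) (ψ : Gam → Lam) (B : Type) [AddCommGroup B] [Module Lam B]
    (g : Gam) : (Fin 2 → B) →+ (Fin 2 → B) := (mact B (rep T ψ g)).toAddMonoidHom

theorem act_apply (T : Tate) (ψ : Gam → Lam) {B : Type} [AddCommGroup B] [Module Lam B] (g : Gam)
    (x : Fin 2 → B) : act T ψ B g x = mact B (rep T ψ g) x := rfl

/-- A place above a prime. -/
noncomputable def pl (p : ℕ) (hp : p.Prime) : Plc := (exists_plc hp).choose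

theorem pl_p (p : ℕ) (hp : p.Prime) : (pl p hp).p = p := (exists_plc hp).choose_spec

/-- The place above two. -/
noncomputable def w2 : Plc := pl 2 Nat.prime_two

/-- A Frobenius element. -/
noncomputable def fr (w : Plc) : Gam := (exists_frob w).choose

theorem fr_spec (w : Plc) : IsFrob w w.p (fr w) := (exists_frob w).choose_spec

/-- Its square. -/
noncomputable def fq (w : Plc) : Gam := fr w * fr w

/-- A generator of the pro-two part of the inertia group. -/
noncomputable def gn (w : Plc) : Gam := if h : w.p ≠ 2 then (exists_gen h).choose else 1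

theorem gn_spec {w : Plc} (h : w.p ≠ 2) : Gen w (gn w) := by
  rw [gn, dif_pos h]
  exact (exists_gen h).choose_spec

/-- The places above three and five. -/
noncomputable def bp : Fin 2 → Plc := ![pl 3 Nat.prime_three, pl 5 Nat.prime_five]

theorem bp_or (v : Fin 2) : (bp v).p = 3 ∨ (bp v).p = 5 := by
  fin_cases v
  · exact .inl (pl_p 3 Nat.prime_three)
  · exact .inr (pl_p 5 Nat.prime_five)

/-- An element, or its conjugate by complex conjugation. -/
noncomputable def ori (b : Bool) (g : Gam) : Gam := if b then g else cc * g * cc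

/-- A place above three or five, or its complex conjugate. -/
noncomputable def bq (v : Fin 2) (b : Bool) : Plc := if b then bp v else cc • bp v

/-- The places above three, five and the prime of the tower. -/
noncomputable def sp (lam : Plc) : Fin 5 → Plc :=
  ![bq 0 true, bq 0 false, bq 1 true, bq 1 false, lam]

/-- Complex conjugation on these places. -/
def bar : Fin 5 → Fin 5 := ![1, 0, 3, 2, 4]

/-- The rigid places of the conjugate of the dual structure. -/
def dualR (R : Finset (Fin 5)) : Finset (Fin 5) := Rᶜ.image bar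

/-- The basis that is adapted to the inertia group above three or five. -/
noncomputable def mB (T : Tate) (v : Fin 2) : Matrix (Fin 2) (Fin 2) ℤ_[2] :=
  (T.mult (bp v) (bp_or v)).choose

/-- Generators of inertia above three and five. -/
noncomputable def nsg (v : Fin 2) (b : Bool) : Gam := ori b (gn (bp v))

/-- The projection to the unramified quotient. -/
noncomputable def nlf (T : Tate) (v : Fin 2) (b : Bool) : Fin 2 → Lam :=
  ![-C (mB T v 1 0), if b then C (mB T v 0 0) else -C (mB T v 0 0)]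

/-- The singular part of a cochain above three or five. -/
noncomputable def nu (T : Tate) {B : Type} [AddCommGroup B] [Module Lam B] (v : Fin 2) (b : Bool)
    (c : Gam → Fin 2 → B) : B := ∑ i, nlf T v b i • c (nsg v b) i

/-- The Euler factors above three and five. -/
noncomputable def QQ (ψ : Gam → Lam) (v : Fin 2) (b : Bool) : Lam :=
  (![-1, 1] : Fin 2 → Lam) v * ψ (ori b (fr (bp v))) - (![3, 5] : Fin 2 → Lam) v

/-- Characters of level `k` that are dihedral and unramified outside `lam`. -/
structure Chr (n k : ℕ) (lam : Plc) (ψ : Gam → Lam) : Prop where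
  sm : Sm (GK n) ψ
  one : ψ 1 - 1 ∈ aa k k
  mul : ∀ g ∈ GK n, ∀ h ∈ GK n, ψ (g * h) - ψ g * ψ h ∈ aa k k
  res : ∀ g, ψ g - 1 ∈ aa 1 1
  dih : ∀ g ∉ GK n, ψ (g * g) - 1 ∈ aa k k
  unr : ∀ w : Plc, w.p ≠ lam.p → ∀ σ ∈ GK n ⊓ Ine w, ψ σ - 1 ∈ aa k k
  gen : ∃ z, Gen lam z ∧ ψ z - (1 + X) ∈ aa k k

/-- Inert places that are deep for the level `k`. -/
structure DpL (n k : ℕ) (T : Tate) (lam : Plc) (ψ : Gam → Lam) (w : Plc) : Prop where
  adm : Adm n w.p
  ne : w.p ≠ lam.p
  rho : mred (k + 2) (T.ρ (cc * fr w)) = 1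
  psi : ψ (cc * fr w) - 1 ∈ aa k k

/-- The local conditions at deep places. -/
inductive Ty
  | rel | str | ur | tr | lag | fl | sh
  deriving DecidableEq

/-- The dual condition. -/
def Ty.dual : Ty → Ty
  | .rel => .str
  | .str => .rel
  | .fl => .sh
  | .sh => .fl
  | t => t

section

variable (B : Type) [AddCommGroup B] [Module Lam B]

/-- The diagonal. -/
def dgP : Submodule Lam (Fin 2 → B) where
  carrier := {x | x 1 = x 0}
  zero_mem' := rfl
  add_mem' h h' := congrArg₂ (· + ·) h h'
  smul_mem' a _ h := congrArg (a • ·) h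

/-- The antidiagonal. -/
def dgM : Submodule Lam (Fin 2 → B) where
  carrier := {x | x 0 + x 1 = 0}
  zero_mem' := add_zero _
  add_mem' {x y} h h' := by
    rw [Set.mem_ofPred_eq, Pi.add_apply, Pi.add_apply, add_add_add_comm, h, h', add_zero]
  smul_mem' a x h := by
    rw [Set.mem_ofPred_eq, Pi.smul_apply, Pi.smul_apply, ← smul_add, h, smul_zero]

theorem mem_dgP {x : Fin 2 → B} : x ∈ dgP B ↔ x 1 = x 0 := Iff.rfl

theorem mem_dgM {x : Fin 2 → B} : x ∈ dgM B ↔ x 0 + x 1 = 0 := Iff.rfl

/-- The condition on the values at the square of Frobenius and at the generator of inertia. -/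
noncomputable def Ty.cond : Ty → Submodule Lam ((Fin 2 → B) × (Fin 2 → B))
  | .rel => ⊤
  | .str => ⊥
  | .ur => Submodule.prod ⊤ ⊥
  | .tr => Submodule.prod ⊥ ⊤
  | .lag => Submodule.prod (dgP B) (dgM B)
  | .fl => Submodule.prod (dgP B) ⊥
  | .sh => Submodule.prod ⊤ (dgM B)

/-- The local conditions. -/
noncomputable def Lc (T : Tate) (n : ℕ) (ψ : Gam → Lam) (ty : Plc → Ty) (w : Plc) :
    AddSubgroup (Gam → Fin 2 → B) :=
  if w = w2 then LK T (GK n ⊓ Dec w) B
  else Ldp (GK n ⊓ Dec w) (act T ψ B) (fq w) (gn w) ((ty w).cond B).toAddSubgroup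

end

/-- A Selmer structure: rigid places, deep places and their types. -/
structure Str where
  R : Finset (Fin 5)
  Q : Finset Plc
  ty : Plc → Ty

/-- The conjugate of the dual structure. -/
def Str.dual (s : Str) : Str := ⟨dualR s.R, s.Q, fun w => (s.ty w).dual⟩

/-- Cochains together with vectors at all places. -/
abbrev Co (B : Type) : Type := (Gam → Fin 2 → B) × (Plc → Fin 2 → B)

section

variable (T : Tate) (n : ℕ) (lam : Plc) (ψ : Gam → Lam)

/-- The Selmer group of a structure. -/
noncomputable def SelB (s : Str) (B : Type) [AddCommGroup B] [Module Lam B] : AddSubgroup (Co B) :=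
  Sel (GK n) (act T ψ B) (univ.image (sp lam) ∪ insert w2 s.Q) (s.R.image (sp lam))
    (insert w2 s.Q) (Lc B T n ψ s.ty)

theorem Z1_smul {B : Type} [AddCommGroup B] [Module Lam B] {D : Subgroup Gam}
    {c : Gam → Fin 2 → B} (h : c ∈ Z1 D (act T ψ B)) (a : Lam) : a • c ∈ Z1 D (act T ψ B) :=
  ⟨⟨h.1.1.comp (a • ·), fun g hg k hk => by
    simp only [Pi.smul_apply, h.1.2 g hg k hk, act_apply, map_smul, smul_add]⟩,
    fun g hg => by rw [Pi.smul_apply, h.2 g hg, smul_zero]⟩

theorem SelB_smul {s : Str} {B : Type} [AddCommGroup B] [Module Lam B] {z : Co B}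
    (h : z ∈ SelB T n lam ψ s B) (a : Lam) : a • z ∈ SelB T n lam ψ s B := by
  obtain ⟨h1, h2, h3, h4, h5⟩ := h
  refine ⟨Z1_smul T ψ h1 a, fun w hw σ hσ => by simp [h2 w hw σ hσ], fun w hw g hg => ?_,
    fun w hw => by simp [h4 w hw], fun w hw => ?_⟩
  · simp only [Prod.smul_fst, Prod.smul_snd, Pi.smul_apply, h3 w hw g hg, cob, act_apply, map_smul,
      smul_sub]
  have e : rs (GK n ⊓ Dec w) (a • z).1 = a • rs (GK n ⊓ Dec w) z.1 := funext fun g => by
    by_cases k : g ∈ GK n ⊓ Dec w
    · rw [rs_of_mem k, Pi.smul_apply, rs_of_mem k]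
      rfl
    · rw [rs_of_notMem k, Pi.smul_apply, rs_of_notMem k, smul_zero]
  have k := h5 w hw
  rw [e]
  unfold Lc at k ⊢
  split_ifs at k ⊢
  · exact ⟨k.1.map (DistribSMul.toAddMonoidHom B a), fun g hg => by
      rw [Pi.smul_apply, k.2 g hg, smul_zero]⟩
  · exact ⟨Z1_smul T ψ k.1 a, Submodule.smul_mem _ a k.2⟩

/-- The cocycles of a structure whose rigid vectors vanish. -/
noncomputable def SR0 (s : Str) (B : Type) [AddCommGroup B] [Module Lam B] :
    Submodule Lam (Gam → Fin 2 → B) where
  carrier := {c | (c, 0) ∈ SelB T n lam ψ s B}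
  zero_mem' := (SelB T n lam ψ s B).zero_mem
  add_mem' h h' := by simpa using (SelB T n lam ψ s B).add_mem h h'
  smul_mem' a c h := by simpa using SelB_smul T n lam ψ h a

theorem mem_SR0 {s : Str} {B : Type} [AddCommGroup B] [Module Lam B] {c : Gam → Fin 2 → B} :
    c ∈ SR0 T n lam ψ s B ↔ (c, 0) ∈ SelB T n lam ψ s B := Iff.rfl

/-- The cocycles that vanish at the prime of the tower. -/
noncomputable def SM (Q : Finset Plc) (ty : Plc → Ty) (B : Type) [AddCommGroup B] [Module Lam B] :
    Submodule Lam (Gam → Fin 2 → B) := SR0 T n lam ψ ⟨{4}, Q, ty⟩ B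

/-- The cocycles without conditions above fifteen and at the prime of the tower. -/
noncomputable def SU (Q : Finset Plc) (ty : Plc → Ty) (B : Type) [AddCommGroup B] [Module Lam B] :
    Submodule Lam (Gam → Fin 2 → B) := SR0 T n lam ψ ⟨∅, Q, ty⟩ B

/-- Restriction to the group of the quadratic field. -/
noncomputable def resK (M : Type) [AddCommGroup M] [Module Lam M] :
    (Gam → M) →ₗ[Lam] (GK n → M) := LinearMap.funLeft Lam M Subtype.val

/-- An element as a member of the group of the quadratic field. -/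
noncomputable def toK (g : Gam) : GK n := if h : g ∈ GK n then ⟨g, h⟩ else 1

theorem toK_coe {g : Gam} (h : g ∈ GK n) : (toK n g : Gam) = g := by rw [toK, dif_pos h]

/-- Complex conjugation on the group of the quadratic field. -/
noncomputable def thK : GK n →* GK n where
  toFun g := ⟨cc * g * cc, conj_cc_mem g.2⟩
  map_one' := Subtype.ext (by simp [cc_mul_cc])
  map_mul' g h := Subtype.ext (by simp [mul_assoc, ← mul_assoc cc cc, cc_mul_cc])

theorem thK_coe (g : GK n) : (thK n g : Gam) = cc * g * cc := rfl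

/-- The orientation conditions of the patching argument. -/
noncomputable def OriK (k : ℕ) (o : Fin 2 → Bool) : Submodule Lam (GK n → Fin 2 → Ak k) :=
  Ori k (fun v b => toK n (nsg v b)) (nlf T) o

/-- The modules of the patching argument. -/
noncomputable def SS (k : ℕ) (Q : Finset Plc) (ty : Plc → Ty) :
    Submodule Lam (GK n → Fin 2 → Ak k) := (SM T n lam ψ Q ty (Ak k)).map (resK n _)

end

/-- The hypotheses under which Selmer groups are studied. -/
structure SOk (T : Tate) (n k : ℕ) (lam : Plc) (ψ : Gam → Lam) (Q : Finset Plc) : Prop where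
  nok : Nok n
  adm : Adm n lam.p
  dvd : 2 ^ (2 * k + 4) ∣ lam.p + 1
  j5 : J(5 | lam.p) = -1
  chr : Chr n k lam ψ
  deep : ∀ w ∈ Q, DpL n k T lam ψ w
  inj : ∀ w ∈ Q, ∀ v ∈ Q, w.p = v.p → w = v

/-- The value at zero. -/
noncomputable def ev (k i : ℕ) (hi : k = 0 ∨ i ≠ 0) : Lam ⧸ aa k i →+* ZMod (2 ^ k) :=
  Ideal.Quotient.lift _ ((PadicInt.toZModPow k).comp constantCoeff) fun a ha => by
    refine Submodule.span_induction (p := fun a _ => (PadicInt.toZModPow k).comp constantCoeff a = 0)
      ?_ (map_zero _) (fun x y _ _ hx hy => by rw [map_add, hx, hy, add_zero])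
      (fun x y _ hy => by rw [smul_eq_mul, map_mul, hy, mul_zero]) ha
    rintro x (rfl | rfl)
    · rw [map_pow, map_ofNat]
      exact_mod_cast ZMod.natCast_self (2 ^ k)
    · rcases hi with rfl | hi
      · exact Subsingleton.elim (α := ZMod 1) _ _
      · simp [hi]

/-- The value at zero on the ring of level `k`. -/
noncomputable def evk (k : ℕ) : Ak k →+* ZMod (2 ^ k) := ev k k (eq_or_ne k 0)

/-- The symmetric pairing at a deep place. -/
def pair {B B' E : Type} [AddCommGroup B] [AddCommGroup B'] [AddCommGroup E] (β : B →+ B' →+ E)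
    (z : (Fin 2 → B) × (Fin 2 → B)) (z' : (Fin 2 → B') × (Fin 2 → B')) : E :=
  β (z.1 0) (z'.2 1) + β (z.1 1) (z'.2 0) + β (z.2 0) (z'.1 1) + β (z.2 1) (z'.1 0)

/-- Perfect balanced pairings. -/
structure Perf {B B' : Type} [AddCommGroup B] [AddCommGroup B'] [Module Lam B] [Module Lam B']
    {m : ℕ} (β : B →+ B' →+ ZMod (2 ^ m)) : Prop where
  bal : ∀ (a : Lam) x y, β (a • x) y = β x (a • y)
  left : ∀ x, (∀ y, β x y = 0) → x = 0
  right : ∀ y, (∀ x, β x y = 0) → y = 0

section

variable {n : ℕ} (S : HS n) (T : Tate) (k : ℕ) (lam : Plc)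

/-- The primes of the tower at level `k`. -/
def HS.Tw (a b : ℤ) : Prop := ∃ φ z, TwP S a b (2 * k + 3) lam φ z

/-- The character of the branch `e` on the class group. -/
noncomputable def HS.Psi (e : ℤ) (x : S.C lam.p) : Lam :=
  ((S.gen e (S.pr 1 lam.p x) : ℤ) : Lam) * (1 + X) ^ (S.ν lam.p (2 * k + 3) x).toAdd.val

/-- The character of the branch `e` on the Galois group. -/
noncomputable def HS.psi (e : ℤ) (g : Gam) : Lam := S.Psi k lam e (S.ψ lam.p g)

/-- The elements that act trivially at level `k` on all branches. -/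
noncomputable def HS.N : Subgroup Gam where
  carrier := {z | z ∈ GK n ∧ mred (k + 2) (T.ρ z) = 1 ∧ (Adm n lam.p → S.ψ lam.p z = 1)}
  one_mem' := ⟨one_mem _, by simp [mred], fun h =>
    by simpa using S.mul _ h 1 (one_mem _) 1 (one_mem _)⟩
  mul_mem' := fun {x y} hx hy => ⟨mul_mem hx.1 hy.1, by
    have h1 := hx.2.1
    have h2 := hy.2.1
    unfold mred at h1 h2 ⊢
    rw [map_mul, Matrix.map_mul, h1, h2, one_mul], fun h => by
    rw [S.mul _ h x hx.1 y hy.1, hx.2.2 h, hy.2.2 h, one_mul]⟩
  inv_mem' := fun {x} hx => ⟨inv_mem hx.1, by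
    have h1 := hx.2.1
    have h2 := congrArg (mred (k + 2)) (map_mul T.ρ x⁻¹ x)
    unfold mred at h1 h2 ⊢
    rw [Matrix.map_mul, h1, mul_one, inv_mul_cancel, map_one] at h2
    rw [← h2]
    simp, fun h => by
    have h1 := S.mul _ h _ (inv_mem hx.1) _ hx.1
    have h2 := S.mul _ h 1 (one_mem _) 1 (one_mem _)
    rw [mul_one, left_eq_mul] at h2
    rw [inv_mul_cancel, h2, hx.2.2 h, mul_one] at h1
    exact h1.symm⟩

/-- Places that are deep for all branches. -/
structure HS.Dp (w : Plc) : Prop where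
  adm : Adm n w.p
  ne : w.p ≠ lam.p
  mem : cc * fr w ∈ S.N T k lam

/-- Sets of deep places above different primes. -/
structure HS.DpS (Q : Finset Plc) : Prop where
  dp : ∀ w ∈ Q, S.Dp T k lam w
  inj : ∀ w ∈ Q, ∀ v ∈ Q, w.p = v.p → w = v

/-- Properties of deep places that hold outside of a proper subgroup. -/
def HS.Often (P : Plc → Prop) : Prop := ∃ (m : ℕ) (c : Gam → ZMod (2 ^ m)), Sm (GK n) c ∧
  IsHom (S.N T k lam) c ∧ (∃ z ∈ S.N T k lam, c z + c (cc * z * cc) ≠ 0) ∧
    ∀ w, S.Dp T k lam w → c (fq w) ≠ 0 → P w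

end

end Pool.Agent.Lib.MP_696deb_nt.B2
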