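import Pool.Agent.Lib.MP_696deb_nt.B2.MU0

/-! Invariant unramified classes with values in the dual numbers over the field with two
elements have trivial top character. -/

set_option autoImplicit false

open scoped NNReal Classical
open Finset NumberTheorySymbols

namespace Pool.Agent.Lib.MP_696deb_nt.B2

/-- The factorisation `-n = a b` and the first layer `ξ` of the dihedral tower: the primes of `a`
and the primes of `b` give the two classes of reflections, and the matrix of Legendre symbols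
between them is invertible. -/
structure MuD (n : ℕ) (a b : ℤ) (ξ : Gam → ZMod 2) : Prop where
  sqf : Squarefree n
  mod4 : n % 4 = 3
  mul : a * b = -n
  hom : IsHom (GK n) ξ
  dih : ∀ g ∈ GK n, ξ (cc * g * cc) = ξ g
  ram : ∀ w : Plc, (w.p : ℤ) ∣ n → ∀ g ∈ GK n, g * cc ∈ Ine w → (ξ g = 1 ↔ (w.p : ℤ) ∣ a)
  dec : ∀ w : Plc, (w.p : ℤ) ∣ n → ∀ g ∈ GK n ⊓ Dec w, ξ g = 0
  nda : ∀ c : ℤ, c ∣ a → c % 4 = 1 → (∀ q : ℕ, q.Prime → (q : ℤ) ∣ b → J(c | q) = 1) → c = 1
  ndb : ∀ c : ℤ, c ∣ b → c % 4 = 1 → (∀ q : ℕ, q.Prime → (q : ℤ) ∣ a → J(c | q) = 1) → c = 1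

theorem mu1_two (x : ZMod 2) : x + x = 0 := by revert x; decide

theorem mu1_or (x : ZMod 2) : x = 0 ∨ x = 1 := by revert x; decide

theorem cc_inv : cc⁻¹ = cc := inv_eq_of_mul_eq_one_right cc_mul_cc

theorem conj_cc_mem {n : ℕ} {g : Gam} (hg : g ∈ GK n) : cc * g * cc ∈ GK n := by
  simpa only [cc_inv] using (normal_GK n).conj_mem g hg cc

theorem IsHom.one {H : Subgroup Gam} {A : Type*} [AddGroup A] {x : Gam → A} (h : IsHom H x) :
    x 1 = 0 := by
  simpa using h 1 (one_mem _) 1 (one_mem _)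

theorem IsHom.inv {H : Subgroup Gam} {A : Type*} [AddGroup A] {x : Gam → A} (h : IsHom H x)
    {g : Gam} (hg : g ∈ H) : x g⁻¹ = -x g := by
  have := h g hg g⁻¹ (inv_mem hg)
  rw [mul_inv_cancel, h.one] at this
  exact eq_neg_of_add_eq_zero_right this.symm

theorem ine_le_GK' {n : ℕ} (h4 : n % 4 = 3) {w : Plc} (hw : ¬ (w.p : ℤ) ∣ n) : Ine w ≤ GK n :=
  fun _ hg => mem_GK.2 (xi_ine (by omega) (by simpa using hw) hg)

theorem exists_ine_notMem {n : ℕ} (hn : Squarefree n) (h4 : n % 4 = 3) {w : Plc}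
    (hw : (w.p : ℤ) ∣ n) : w.p ≠ 2 ∧ ∃ s ∈ Ine w, s ∉ GK n := by
  have h2 : w.p ≠ 2 := fun h => by rw [h] at hw; omega
  obtain ⟨s, hs⟩ := exists_gen h2
  exact ⟨h2, s, hs.1, notMem_GK.2 (xi_gen h2 (Int.squarefree_natAbs.1 (by simpa using hn))
    (by simpa using hw) hs)⟩

/-- The extension to the whole group of an invariant character. -/
theorem exists_ext {n : ℕ} (hn : 0 < n) {x : Gam → ZMod 2} (m : ZMod 2) (sx : Sm (GK n) x)
    (hx : IsHom (GK n) x) (ix : ∀ g ∈ GK n, x (cc * g * cc) = x g) :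
    ∃ χ : Gam → ZMod 2, Sm ⊤ χ ∧ IsHom ⊤ χ ∧ (∀ g ∈ GK n, χ g = x g) ∧ χ cc = m := by
  have c0 := cc_notMem hn
  refine ⟨fun g => if g ∈ GK n then x g else x (g * cc) + m, ?_, fun g _ k _ => ?_,
    fun g hg => if_pos hg, ?_⟩
  · obtain ⟨U, h1, h2, h3⟩ := sx
    have := normal_GK n
    refine ⟨U ⊓ GK n, h1.inf (op_GK n), inferInstance, fun g _ k _ h => ?_⟩
    by_cases hg : g ∈ GK n
    · have hk : k ∈ GK n := by simpa using mul_mem hg h.2
      simp only [if_pos hg, if_pos hk, h3 g hg k hk h.1]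
    · have hk : k ∉ GK n := fun hk => hg (by simpa using mul_mem hk (inv_mem h.2))
      simp only [if_neg hg, if_neg hk]
      rw [h3 _ (mul_mem_GK hg c0) _ (mul_mem_GK hk c0)]
      simpa [mul_assoc] using h2.conj_mem _ h.1 cc⁻¹
  · by_cases hg : g ∈ GK n <;> by_cases hk : k ∈ GK n
    · simp only [if_pos hg, if_pos hk, if_pos (mul_mem hg hk), hx g hg k hk]
    · have h1 : g * k ∉ GK n := fun h => hk (by simpa using mul_mem (inv_mem hg) h)
      simp only [if_pos hg, if_neg hk, if_neg h1]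
      rw [mul_assoc, hx g hg _ (mul_mem_GK hk c0), add_assoc]
    · have h1 : g * k ∉ GK n := fun h => hg (by simpa using mul_mem h (inv_mem hk))
      simp only [if_neg hg, if_pos hk, if_neg h1]
      rw [show g * k * cc = g * cc * (cc * k * cc) by simp [mul_assoc, ← mul_assoc cc cc, cc_mul_cc],
        hx _ (mul_mem_GK hg c0) _ (conj_cc_mem hk), ix k hk]
      ring
    · simp only [if_neg hg, if_neg hk, if_pos (mul_mem_GK hg hk)]
      rw [show g * k = g * cc * (cc * (k * cc) * cc) by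
          simp [mul_assoc, ← mul_assoc cc cc, cc_mul_cc],
        hx _ (mul_mem_GK hg c0) _ (conj_cc_mem (mul_mem_GK hk c0)), ix _ (mul_mem_GK hk c0)]
      linear_combination -mu1_two m
  · simp only [if_neg c0, cc_mul_cc, hx.one, zero_add]

theorem mu_two {n : ℕ} {a b : ℤ} {ξ : Gam → ZMod 2} (h : MuD n a b ξ) {x y : Gam → ZMod 2}
    {ε m : ZMod 2} (sx : Sm (GK n) x) (hx : IsHom (GK n) x)
    (hy : ∀ g ∈ GK n, ∀ k ∈ GK n, y (g * k) = y g + y k + ξ g * x k)
    (ix : ∀ g ∈ GK n, x (cc * g * cc) = x g)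
    (iy : ∀ g ∈ GK n, y (cc * g * cc) + ε * x g = y g + ξ g * m) (em : ε * m = 0)
    (ux : ∀ w : Plc, ∀ σ ∈ GK n ⊓ Ine w, x σ = 0)
    (uy : ∀ w : Plc, (w.p : ℤ) ∣ n → ∀ σ ∈ GK n ⊓ Ine w, y σ = 0) : ∀ g ∈ GK n, x g = 0 := by
  have h4 := h.mod4
  have hn : 0 < n := by omega
  have c0 := cc_notMem hn
  obtain ⟨χ, s1, s2, s3, s4⟩ := exists_ext hn m sx hx ix
  have y1 : y 1 = 0 := by simpa [hx.one] using hy 1 (one_mem _) 1 (one_mem _)
  have free : ∀ w : Plc, (w.p : ℤ) ∣ n → (ε = 0 ↔ (w.p : ℤ) ∣ a) → ∀ g ∈ Dec w, χ g = 0 := by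
    intro w hw he
    obtain ⟨-, s, hs, k0⟩ := exists_ine_notMem h.sqf h4 hw
    obtain ⟨g, rfl⟩ : ∃ g, s = g * cc := ⟨s * cc, by rw [mul_assoc, cc_mul_cc, mul_one]⟩
    have hg : g ∈ GK n := by simpa [mul_assoc, cc_mul_cc] using mul_mem_GK k0 c0
    have e1 : ε + ξ g = 1 := by
      have := (h.ram w hw g hg hs).trans he.symm
      rcases mu1_or ε with k | k <;> rcases mu1_or (ξ g) with k' | k' <;> simp [k, k'] at this ⊢
    have f1 : χ (g * cc) = 0 := by
      have k1 := uy w hw _ ⟨mul_mem_GK k0 k0, mul_mem hs hs⟩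
      rw [show g * cc * (g * cc) = g * (cc * g * cc) by simp only [mul_assoc],
        hy g hg _ (conj_cc_mem hg), ix g hg] at k1
      have k2 := iy g hg
      rw [s2 _ trivial _ trivial, s3 g hg, s4]
      linear_combination k1 - k2 - (x g + m) * e1 + em - mu1_two (y g) + mu1_two (ε * x g)
        + mu1_two (ξ g * m) - mu1_two (ξ g * m) - mu1_two (ε * x g) + mu1_two (ε * x g)
    have f2 : ∀ k ∈ GK n ⊓ Dec w, χ k = 0 := fun k hk => by
      have k1 : g * cc * k * (g * cc)⁻¹ * k⁻¹ ∈ GK n ⊓ Ine w := Subgroup.mem_inf.2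
        ⟨mul_mem ((normal_GK n).conj_mem k hk.1 _) ((GK n).inv_mem hk.1), by
          have := mul_mem hs (conj_mem_Ine hk.2 (inv_mem hs))
          simpa only [mul_assoc] using this⟩
      have k2 := hy _ k1.1 k hk.1
      have k3 := conj_cc_mem hk.1
      rw [uy w hw _ k1, h.dec w hw _ ⟨k1.1, Ine_le w k1.2⟩, inv_mul_cancel_right,
        show g * cc * k * (g * cc)⁻¹ = g * (cc * k * cc * g⁻¹) by simp [mul_assoc, cc_inv],
        hy g hg _ (mul_mem k3 (inv_mem hg)), hy _ k3 _ (inv_mem hg), hx _ k3 _ (inv_mem hg),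
        h.dih k hk.1, h.dec w hw k hk, ix k hk.1] at k2
      have k4 := hy g hg _ (inv_mem hg)
      rw [mul_inv_cancel, y1] at k4
      have k5 := iy k hk.1
      rw [h.dec w hw k hk] at k5
      rw [s3 k hk.1]
      linear_combination k2 + k4 - k5 - x k * e1 + mu1_two (ε * x k)
    intro k hk
    by_cases k1 : k ∈ GK n
    · exact f2 k ⟨k1, hk⟩
    · have k2 : (g * cc)⁻¹ ∉ GK n := fun h => k0 (by simpa using inv_mem h)
      have := s2 (k * (g * cc)⁻¹) trivial (g * cc) trivial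
      rwa [inv_mul_cancel_right, f1,
        f2 _ (Subgroup.mem_inf.2 ⟨mul_mem_GK k1 k2, mul_mem hk (inv_mem (Ine_le w hs))⟩),
        add_zero] at this
  have main : ∀ f r : ℤ, f * r = -n →
      (∀ c : ℤ, c ∣ r → c % 4 = 1 → (∀ q : ℕ, q.Prime → (q : ℤ) ∣ f → J(c | q) = 1) → c = 1) →
      (∀ w : Plc, (w.p : ℤ) ∣ f → ∀ g ∈ Dec w, χ g = 0) → ∀ g, χ g = 0 := fun f r e nd k => by
    have sq : Squarefree (f * r) := Int.squarefree_natAbs.1 (by simpa [e] using h.sqf)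
    have od : Odd (f * r) := by rw [e, Int.odd_iff]; omega
    obtain ⟨c, c1, c2, -, c4⟩ := quad_class (Int.odd_mul.1 od).2 s1 s2 fun w hw σ hσ => by
      by_cases k1 : (w.p : ℤ) ∣ f
      · exact k w k1 σ (Ine_le w hσ)
      · have k2 : ¬ (w.p : ℤ) ∣ n := fun k2 =>
          ((Nat.prime_iff_prime_int.1 w.prime).dvd_or_dvd (e ▸ dvd_neg.2 k2)).elim k1 hw
        have k3 := ine_le_GK' h4 k2 hσ
        rw [s3 σ k3, ux w σ ⟨k3, hσ⟩]
    obtain rfl := nd c c1 c2 fun q hq hf => by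
      obtain ⟨w, rfl⟩ := exists_plc hq
      refine jac_of_dec (fun k2 => ?_) (fun k2 => ?_) fun g hg => (c4 g).symm.trans (k w hf g hg)
      · rw [k2] at hf
        have := Int.odd_iff.1 (Int.odd_mul.1 od).1
        omega
      · exact (Nat.prime_iff_prime_int.1 hq).not_isUnit (sq _ (mul_dvd_mul hf (k2.trans c1)))
    exact fun g => (c4 g).trans (xi_one g)
  have sq : Squarefree (a * b) := Int.squarefree_natAbs.1 (by simpa [h.mul] using h.sqf)
  intro g hg
  rw [← s3 g hg]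
  rcases mu1_or ε with k | k
  · exact main a b h.mul h.ndb (fun w hw => free w
      (dvd_neg.1 (h.mul ▸ hw.mul_right b)) (iff_of_true k hw)) g
  · refine main b a (by rw [mul_comm, h.mul]) h.nda (fun w hw => free w
      (dvd_neg.1 (h.mul ▸ hw.mul_left a)) (iff_of_false (by simp [k]) fun k2 => ?_)) g
    exact (Nat.prime_iff_prime_int.1 w.prime).not_isUnit (sq _ (mul_dvd_mul k2 hw))

end Pool.Agent.Lib.MP_696deb_nt.B2
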