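import Pool.Agent.Lib.MP_696deb_nt.B2.TA0
import Pool.Agent.Shared.Weier.Leg

/-! The period lattice gives a basis of the Tate module. -/

set_option autoImplicit false

open scoped NNReal Classical Real PeriodPair
open Matrix NumberTheorySymbols Complex Pool.Agent.Shared.Weier

namespace Pool.Agent.Lib.MP_696deb_nt.B2

open Unif

theorem taa_alg (m : ℕ) {R : Pt W15 ℂ} (h : 2 ^ m • R = 0) : ∃ P : EE, pmap jC P = R := by
  induction m generalizing R with
  | zero => exact ⟨0, (map_zero _).trans ((one_smul ℕ R).symm.trans h).symm⟩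
  | succ m ih =>
    obtain ⟨P, hP⟩ := ih (R := 2 • R) (by rw [← mul_smul, ← pow_succ, h])
    obtain ⟨Q, rfl⟩ := exists_half P
    have e : 2 • (R - pmap jC Q) = 0 := by rw [smul_sub, ← map_nsmul, hP, sub_self]
    suffices ∃ P : EE, pmap jC P = R - pmap jC Q by
      obtain ⟨P, hP⟩ := this
      exact ⟨P + Q, by rw [map_add, hP, sub_add_cancel]⟩
    generalize R - pmap jC Q = R at e
    rcases R with _ | ⟨x, y, hR⟩
    · exact ⟨0, map_zero _⟩
    have k : x * (4 * x + 9) * (x - 4) = 0 := by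
      by_contra k
      obtain ⟨_, _, e'⟩ := two_nsmul_some hR fun e => k (by
        rw [dup2, W15_b₂, W15_b₄, W15_b₆] at e
        linear_combination e)
      exact WeierstrassCurve.Affine.Point.some_ne_zero _ (e'.symm.trans e)
    obtain ⟨r, hr⟩ : ∃ r : ℚ, x = algebraMap ℚ ℂ r := by
      rcases mul_eq_zero.1 k with k | k
      · rcases mul_eq_zero.1 k with k | k
        · exact ⟨0, by simpa using k⟩
        · exact ⟨-9 / 4, by simp only [eq_ratCast]; push_cast; linear_combination k / 4⟩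
      · exact ⟨4, by simp only [eq_ratCast]; push_cast; linear_combination k⟩
    exact exists_pt_of_alg (hr ▸ isAlgebraic_algebraMap r)

/-- The sigma function. -/
noncomputable abbrev taaS : ℂ → ℂ := Shared.Weier.sig L15

/-- A lattice vector. -/
noncomputable def taaV (a b : ℤ) : ℂ := a * L15.ω₁ + b * L15.ω₂

theorem taa_mem (a b : ℤ) : taaV a b ∈ L15.lattice := PeriodPair.mem_lattice.2 ⟨a, b, rfl⟩

theorem taa_ne (m : ℕ) : (2 : ℂ) ^ m ≠ 0 := pow_ne_zero _ two_ne_zero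

theorem taa_nsmul (m : ℕ) (u : ℂ) : 2 ^ m • u15 u = u15 (2 ^ m * u) := by
  rw [← map_nsmul, nsmul_eq_mul, Nat.cast_pow, Nat.cast_ofNat]

theorem taa_iff {m : ℕ} {a b c d : ℤ} : u15 (taaV a b / 2 ^ m) = u15 (taaV c d / 2 ^ m) ↔
    (a : ZMod (2 ^ m)) = c ∧ (b : ZMod (2 ^ m)) = d := by
  rw [u15_eq_iff, PeriodPair.mem_lattice, eq_comm, ZMod.intCast_eq_intCast_iff_dvd_sub,
    eq_comm (a := (b : ZMod (2 ^ m))), ZMod.intCast_eq_intCast_iff_dvd_sub]
  have := taa_ne m
  constructor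
  · rintro ⟨s, t, e⟩
    obtain ⟨h1, h2⟩ := LinearIndependent.pair_iff.1 L15.indep (a - c - 2 ^ m * s)
      (b - d - 2 ^ m * t) (by
        simp only [real_smul, taaV] at e ⊢
        field_simp at e
        push_cast
        linear_combination -e)
    exact ⟨⟨s, by exact_mod_cast sub_eq_zero.1 h1⟩, t, by exact_mod_cast sub_eq_zero.1 h2⟩
  · rintro ⟨⟨s, hs⟩, t, ht⟩
    refine ⟨s, t, ?_⟩
    rw [eq_add_of_sub_eq hs, eq_add_of_sub_eq ht, taaV, taaV]
    push_cast
    field_simp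
    ring

theorem taa_ex (m : ℕ) (x : Fin 2 → ZMod (2 ^ m)) : ∃ P : EE, ∀ a b : ℤ, (a : ZMod (2 ^ m)) = x 0 →
    (b : ZMod (2 ^ m)) = x 1 → pmap jC P = u15 (taaV a b / 2 ^ m) := by
  obtain ⟨P, hP⟩ := taa_alg m (R := u15 (taaV (x 0).val (x 1).val / 2 ^ m)) (by
    rw [taa_nsmul, mul_div_cancel₀ _ (taa_ne m), u15_eq_zero_iff]
    exact taa_mem _ _)
  exact ⟨P, fun a b ha hb => hP.trans (taa_iff.2 ⟨by simp [ha], by simp [hb]⟩)⟩

theorem taa_int {m : ℕ} (z : ZMod (2 ^ m)) : ((z.val : ℤ) : ZMod (2 ^ m)) = z := by simp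

/-- The torsion points. -/
noncomputable def taaE (m : ℕ) : (Fin 2 → ZMod (2 ^ m)) →+ EE :=
  AddMonoidHom.mk' (fun x => (taa_ex m x).choose) fun x y => pmap_injective jC (by
    rw [map_add, (taa_ex m x).choose_spec _ _ (taa_int _) (taa_int _),
      (taa_ex m y).choose_spec _ _ (taa_int _) (taa_int _),
      (taa_ex m (x + y)).choose_spec ((x 0).val + (y 0).val) ((x 1).val + (y 1).val) (by simp)
        (by simp), ← map_add, taaV, taaV, taaV]
    push_cast
    ring_nf)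

theorem taa_spec {m : ℕ} {x : Fin 2 → ZMod (2 ^ m)} {a b : ℤ} (ha : (a : ZMod (2 ^ m)) = x 0)
    (hb : (b : ZMod (2 ^ m)) = x 1) : pmap jC (taaE m x) = u15 (taaV a b / 2 ^ m) :=
  (taa_ex m x).choose_spec a b ha hb

variable {A B : EE} {u v : ℂ}

theorem taa_sig (h : pmap jC A = u15 u) (h0 : A ≠ 0) : u ∉ L15.lattice := fun k =>
  h0 (pmap_injective jC (by rw [h, u15_eq_zero_iff.2 k, map_zero]))

theorem taa_x (h : pmap jC A = u15 u) (h0 : A ≠ 0) : jC (xco A) = ℘[L15] u + 7 / 12 := by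
  rw [← xco_pmap, h, u15, isPer15.unif_of_notMem (taa_sig h h0), xco_some, ux, W15_b₂]
  ring

theorem taa_add (h : pmap jC A = u15 u) (k : pmap jC B = u15 v) :
    pmap jC (A + B) = u15 (u + v) := by rw [map_add, map_add, h, k]

theorem taa_pow (h : pmap jC A = u15 u) (m : ℕ) : pmap jC (2 ^ m • A) = u15 (2 ^ m * u) := by
  rw [map_nsmul, h, taa_nsmul]

theorem taa_two (h : pmap jC A = u15 u) : pmap jC (2 • A) = u15 (2 * u) := by
  simpa using taa_pow h 1

theorem taa_ps2 (h : pmap jC A = u15 u) (k : pmap jC B = u15 v) (h1 : A ≠ 0) (h2 : B ≠ 0)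
    (h3 : A + B ≠ 0) (h4 : A + 2 • B ≠ 0) : jC (ps2 A B) =
      taaS (2 * u + v) * taaS v ^ 3 / (taaS (u + 2 * v) * taaS u ^ 3) := by
  have a1 := taa_sig h h1
  have a2 := taa_sig k h2
  have a3 := taa_sig (taa_add h k) h3
  have := sig_ne (taa_sig (taa_add h (taa_two k)) h4)
  have := sig_ne a1
  have := sig_ne a2
  have := sig_ne a3
  rw [ps2, map_div₀, map_sub, map_sub, taa_x h h1, taa_x k h2, taa_x (taa_add h k) h3,
    add_sub_add_right_eq_sub, add_sub_add_right_eq_sub, wp_sub a3 a1, wp_sub a3 a2,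
    show u + v + u = 2 * u + v by ring, show u + v + v = u + 2 * v by ring, add_sub_cancel_left,
    add_sub_cancel_right]
  field_simp

/-- The factor that depends on one variable. -/
noncomputable def taaF (m : ℕ) (u : ℂ) : ℂ := ∏ i ∈ Finset.range m, taaS (2 ^ i * u) ^ 3

theorem taa_psi (m : ℕ) (h : pmap jC A = u15 u) (k : pmap jC B = u15 v) (hw : Gw m A B) :
    jC (wpsi m A B) =
      taaS (2 ^ m * u + v) / taaS (u + 2 ^ m * v) * taaF m v * (taaF m u)⁻¹ := by
  induction m generalizing A u with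
  | zero =>
    have := sig_ne (taa_sig (taa_add h k) (by simpa using hw.2.2 0 0 le_rfl le_rfl))
    simp [wpsi, taaF, this]
  | succ m ih =>
    obtain ⟨w0, w1, w2, w3, w4, w5⟩ := hw.succ
    have := sig_ne (taa_sig (taa_add (taa_two h) (taa_pow k m)) w4)
    rw [wpsi, map_mul, ih (taa_two h) w0, taa_ps2 h (taa_pow k m) w1 w2 w3 w5,
      show taaF (m + 1) v = taaF m v * taaS (2 ^ m * v) ^ 3 from Finset.prod_range_succ _ _,
      show taaF (m + 1) u = taaF m (2 * u) * taaS u ^ 3 by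
        simp only [taaF, Finset.prod_range_succ', pow_succ (2 : ℂ), mul_assoc, pow_zero,
          one_mul],
      mul_inv, ← mul_assoc (2 ^ m), ← mul_assoc 2, ← pow_succ, ← pow_succ']
    generalize (taaF m (2 * u))⁻¹ = c
    simp only [div_eq_mul_inv, mul_inv]
    linear_combination (taaS (2 ^ (m + 1) * u + v) * taaF m v * c * taaS (2 ^ m * v) ^ 3 *
      (taaS (u + 2 ^ (m + 1) * v))⁻¹ * (taaS u ^ 3)⁻¹) * mul_inv_cancel₀ this

theorem taa_root (m : ℕ) : ∃ k : ℕ, k.Coprime (2 ^ m) ∧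
    jC (zeta m) ^ k = cexp (leg L15 / 2 ^ m) := by
  have h1 : IsPrimitiveRoot (jC (zeta m)) (2 ^ m) := (zeta_prim m).map_of_injective jC.injective
  have h2 := isPrimitiveRoot_exp (2 ^ m) (by positivity)
  have h3 : IsPrimitiveRoot (cexp (leg L15 / 2 ^ m)) (2 ^ m) := by
    rcases legendre (L := L15) with e | e <;> rw [e]
    · simpa using h2
    · simpa [neg_div, exp_neg] using h2.inv
  obtain ⟨k, -, e⟩ := h1.eq_pow_of_pow_eq_one h3.pow_eq_one
  exact ⟨k, (h1.pow_iff_coprime (by positivity) k).1 (e ▸ h3), e⟩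

theorem taa_weil (m : ℕ) : ∃ u : (ZMod (2 ^ m))ˣ, ∀ A B x y, Gn (2 ^ m • A) (2 ^ m • B) →
    wpsi m (A + taaE m x) (B + taaE m y) * wpsi m A B =
      zeta m ^ (u * det2 x y).val * (wpsi m A (B + taaE m y) * wpsi m (A + taaE m x) B) := by
  obtain ⟨k, k1, k2⟩ := taa_root m
  refine ⟨ZMod.unitOfCoprime k k1, fun A B x y h => jC.injective ?_⟩
  obtain ⟨u, hu⟩ := u15_surjective (pmap jC A)
  obtain ⟨v, hv⟩ := u15_surjective (pmap jC B)
  obtain ⟨a, ha⟩ := ZMod.intCast_surjective (x 0)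
  obtain ⟨b, hb⟩ := ZMod.intCast_surjective (x 1)
  obtain ⟨c, hc⟩ := ZMod.intCast_surjective (y 0)
  obtain ⟨d, hd⟩ := ZMod.intCast_surjective (y 1)
  have n0 := taa_ne m
  have t : ∀ (A : EE) x, 2 ^ m • (A + taaE m x) = 2 ^ m • A := fun A x => by
    rw [smul_add, ← map_nsmul, show 2 ^ m • x = 0 from funext fun i => by
      rw [Pi.smul_apply, nsmul_eq_mul, ZMod.natCast_self, zero_mul, Pi.zero_apply], map_zero,
      add_zero]
  have hu' := taa_add hu.symm (taa_spec ha hb)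
  have hv' := taa_add hv.symm (taa_spec hc hd)
  have g2 : Gn (2 ^ m • (A + taaE m x)) (2 ^ m • B) := by rwa [t]
  have s1 := sig_ne (taa_sig (taa_add hu.symm (taa_pow hv.symm m))
    (by simpa using h.gw.2.2 0 m (by omega) le_rfl))
  have s2 := sig_ne (taa_sig (taa_add hu' (taa_pow hv.symm m))
    (by simpa using g2.gw.2.2 0 m (by omega) le_rfl))
  have z : jC (zeta m ^ (ZMod.unitOfCoprime k k1 * det2 x y).val) =
      cexp (Shared.Weier.eta L15 (taaV a b) * (taaV c d / 2 ^ m) - Shared.Weier.eta L15 (taaV c d) * (taaV a b / 2 ^ m)) := by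
    obtain ⟨s, hs⟩ := (ZMod.intCast_eq_intCast_iff_dvd_sub
      ((ZMod.unitOfCoprime k k1 * det2 x y).val : ℤ) (k * (a * d - b * c)) (2 ^ m)).1 (by
        simp [det2, ha, hb, hc, hd])
    have z0 : jC (zeta m) ^ 2 ^ m = 1 := by rw [← map_pow, (zeta_prim m).pow_eq_one, map_one]
    have z1 : jC (zeta m) ≠ 0 := fun e => by simp [e] at z0
    rw [map_pow, ← zpow_natCast, ← sub_eq_iff_eq_add.2 (sub_eq_iff_eq_add'.1 hs), zpow_sub₀ z1,
      _root_.zpow_mul, _root_.zpow_mul, zpow_natCast, zpow_natCast, z0, k2, _root_.one_zpow, div_one,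
      ← exp_int_mul, taaV, taaV, eta_lattice, eta_lattice, leg]
    congr 1
    push_cast
    ring
  obtain ⟨e, -, -, e1⟩ := sig_add (taa_mem a b)
  obtain ⟨e', he, -, e2⟩ := sig_add (taa_mem c d)
  have e0 : e' ≠ 0 := by rcases he with rfl | rfl <;> simp
  rw [map_mul, map_mul, map_mul, z, taa_psi m hu' hv' (Gn.gw (by rwa [t, t])),
    taa_psi m hu.symm hv.symm h.gw, taa_psi m hu.symm hv' (Gn.gw (by rwa [t])),
    taa_psi m hu' hv.symm g2.gw]
  generalize taaV a b = l at *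
  generalize taaV c d = l' at *
  simp only [mul_add (2 ^ m : ℂ), mul_div_cancel₀ _ n0, add_right_comm _ l, ← add_assoc _ _ l', e1,
    e2]
  generalize (taaF m u)⁻¹ = c1
  generalize (taaF m (u + l / 2 ^ m))⁻¹ = c2
  simp only [mul_add, exp_add, exp_sub]
  field_simp

theorem exists_emb : Nonempty Emb := by
  refine ⟨⟨taaE, fun m x y h => ?_, fun m P h => ?_, fun m k x => pmap_injective jC ?_, taa_weil⟩⟩
  · have e := congrArg (pmap jC) h
    rw [taa_spec (taa_int _) (taa_int _), taa_spec (taa_int _) (taa_int _), taa_iff, taa_int,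
      taa_int, taa_int, taa_int] at e
    funext i
    fin_cases i
    exacts [e.1, e.2]
  · obtain ⟨u, hu⟩ := u15_surjective (pmap jC P)
    obtain ⟨a, b, e⟩ := PeriodPair.mem_lattice.1 (u15_eq_zero_iff.1
      ((taa_pow hu.symm m).symm.trans (by rw [h, map_zero])))
    refine ⟨![a, b], pmap_injective jC ?_⟩
    rw [taa_spec (a := a) (b := b) rfl rfl, taaV, e, mul_div_cancel_left₀ _ (taa_ne m), hu]
  · rw [taa_pow (taa_spec (taa_int _) (taa_int _)),
      taa_spec (a := (x 0).val) (b := (x 1).val) (by simp) (by simp), pow_add (2 : ℂ)]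
    congr 1
    have := taa_ne m
    have := taa_ne k
    field_simp

end Pool.Agent.Lib.MP_696deb_nt.B2
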