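import Pool.Agent.Lib.MP_696deb_nt.B2.TAb

/-! Kummer cocycles are orthogonal for the Weil pairing. -/

set_option autoImplicit false

open scoped NNReal Classical
open Matrix NumberTheorySymbols

namespace Pool.Agent.Lib.MP_696deb_nt.B2

variable (T : TB) {m : ℕ} {D : Subgroup Gam} {x y z : Gam → Fin 2 → ZMod (2 ^ m)} {S S' R : EE}

/-- `x` is the Kummer cocycle of `S`. -/
def TacK (D : Subgroup Gam) (x : Gam → Fin 2 → ZMod (2 ^ m)) (S : EE) : Prop :=
  ∀ g ∈ D, T.emb m (x g) = g • S - S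

/-- The cup product. -/
noncomputable def tacU (x y : Gam → Fin 2 → ZMod (2 ^ m)) (g h : Gam) : ZMod (2 ^ m) :=
  det2 (x g) (mred m (T.ρ g) *ᵥ y h)

theorem tac_det (g : Gam) (a b : Fin 2 → ZMod (2 ^ m)) :
    det2 (mred m (T.ρ g) *ᵥ a) (mred m (T.ρ g) *ᵥ b) = cy m g * det2 a b := by
  rw [det2_mulVec, mred_det, T.det, cy]

theorem tac_mul (g h : Gam) (a : Fin 2 → ZMod (2 ^ m)) :
    mred m (T.ρ (g * h)) *ᵥ a = mred m (T.ρ g) *ᵥ mred m (T.ρ h) *ᵥ a := by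
  rw [map_mul, mred_mul, mulVec_mulVec]

variable {T}

theorem TacK.coc (hx : TacK T D x S) {g h : Gam} (hg : g ∈ D) (hh : h ∈ D) :
    x (g * h) = x g + mred m (T.ρ g) *ᵥ x h := T.inj m (by
  rw [map_add, ← T.smul, hx _ hg, hx _ hh, hx _ (mul_mem hg hh), smul_sub, mul_smul]
  abel)

theorem TacK.sm (hx : TacK T D x S) : Sm D x :=
  ((sm_pt D S).comp fun P => Function.invFun (T.emb m) (P - S)).congr fun g hg => by
    rw [← hx g hg, Function.leftInverse_invFun (T.inj m)]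

theorem TacK.fix (hx : TacK T D x S) {g : Gam} (hg : g ∈ D) : g • 2 ^ m • S = 2 ^ m • S := by
  rw [smul_comm, ← sub_eq_zero, ← smul_sub, ← hx g hg, T.tors]

theorem TacK.add (hx : TacK T D x S) (hy : TacK T D y S') : TacK T D (x + y) (S + S') :=
  fun g hg => by
    rw [Pi.add_apply, map_add, hx g hg, hy g hg, smul_add]
    abel

theorem tac_ex (h : ∀ g : Gam, g • 2 ^ m • R = 2 ^ m • R) :
    ∃ z : Gam → Fin 2 → ZMod (2 ^ m), TacK T D z R := by
  choose z hz using fun g : Gam => T.surj m (g • R - R) (by rw [smul_sub, smul_comm, h, sub_self])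
  exact ⟨z, fun g _ => hz g⟩

theorem tac_c2 (hx : TacK T D x S) (hy : TacK T D y S') : C2 m D (tacU T x y) := by
  refine ⟨((hx.sm.comp₂ ((T.sm m).mono le_top) Prod.mk).left.comp₂ hy.sm.right
    fun a b => det2 a.1 (a.2 *ᵥ b)), fun g hg h hh k hk => ?_⟩
  simp only [tacU]
  rw [← tac_det, hx.coc hg hh, hy.coc hh hk, tac_mul, mulVec_add]
  simp only [det2, Pi.add_apply]
  ring

theorem tac_lin {c c' c'' : Gam → Gam → ZMod (2 ^ m)} (h : Spl m D c) (h' : Spl m D c')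
    (a a' : ZMod (2 ^ m)) (e : ∀ g ∈ D, ∀ k ∈ D, c'' g k = a * c g k + a' * c' g k) :
    Spl m D c'' := by
  obtain ⟨b, b1, b2⟩ := h
  obtain ⟨b', b1', b2'⟩ := h'
  refine ⟨fun g => a * b g + a' * b' g, b1.comp₂ b1' fun s t => a * s + a' * t,
    fun g hg k hk => ?_⟩
  rw [e g hg k hk, b2 g hg k hk, b2' g hg k hk]
  ring

theorem tac_swap (hx : TacK T D x S) (hy : TacK T D y S') (h : Spl m D (tacU T y x)) :
    Spl m D (tacU T x y) := by
  refine tac_lin h (c' := fun g k => tacU T x y g k - tacU T y x g k)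
    ⟨fun g => det2 (y g) (x g), hy.sm.comp₂ hx.sm det2, fun g hg k hk => ?_⟩ 1 1
    fun _ _ _ _ => by ring
  simp only [tacU]
  rw [← tac_det, hx.coc hg hk, hy.coc hg hk]
  simp only [det2, Pi.add_apply]
  ring

theorem tac_cob (hx : TacK T D x S) (hy : TacK T D y S') (h1 : ∀ g ∈ D, g • R = R)
    (h2 : 2 ^ m • (S' - R) = 0) : Spl m D (tacU T x y) := by
  obtain ⟨s, hs⟩ := T.surj m _ h2
  have e : ∀ g ∈ D, y g = mred m (T.ρ g) *ᵥ s - s := fun g hg => T.inj m (by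
    rw [map_sub, ← T.smul, hs, hy g hg, smul_sub, h1 g hg]
    abel)
  refine ⟨fun g => -det2 (x g) (mred m (T.ρ g) *ᵥ s),
    hx.sm.comp₂ ((T.sm m).mono le_top) fun a b => -det2 a (b *ᵥ s), fun g hg k hk => ?_⟩
  simp only [tacU]
  rw [mul_neg, ← tac_det, hx.coc hg hk, e k hk, tac_mul, mulVec_sub]
  simp only [det2, Pi.add_apply, Pi.sub_apply]
  ring

theorem tac_gen (hD : IsClosed (D : Set Gam)) (hx : TacK T D x S) (hy : TacK T D y S')
    (h : Gn (2 ^ m • S) (2 ^ m • S')) : Spl m D (tacU T x y) := by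
  obtain ⟨u, hu⟩ := T.weil m
  have k1 : ∀ g ∈ D, Gn (2 ^ m • S) (2 ^ m • g • S') := fun g hg => by
    rwa [smul_comm, hy.fix hg]
  have k0 := wpsi_ne h.gw
  have key : Spl m D fun g k => u * tacU T x y g k := by
    refine (spl_iff hD ((tac_c2 hx hy).smul u)).2
      ⟨fun g => if g ∈ D then wpsi m S (g • S') / wpsi m S S' else 1,
        ((sm_pt D S').comp fun P => wpsi m S P / wpsi m S S').congr fun g hg => (if_pos hg).symm,
        fun g => ?_, fun g hg k hk => ?_⟩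
    · dsimp only
      split_ifs with hg
      exacts [div_ne_zero (wpsi_ne (k1 g hg).gw) k0, one_ne_zero]
    · have e := hu S (g • S') (x g) (mred m (T.ρ g) *ᵥ y k) (k1 g hg)
      have k2 : wpsi m (g • S) (g • S') ≠ 0 := by
        rw [← wpsi_smul]
        exact (map_ne_zero g).2 k0
      rw [← T.smul, hx g hg, hy k hk, smul_sub, add_sub_cancel, add_sub_cancel] at e
      simp only [if_pos hg, if_pos hk, if_pos (mul_mem hg hk), tacU]
      rw [map_div₀, wpsi_smul, wpsi_smul, mul_smul]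
      field_simp
      linear_combination -e
  exact tac_lin key key ↑u⁻¹ 0 fun g _ k _ => by simp

theorem tac_two (Q : EE) : ∃ t : EE, (∀ g : Gam, g • t = t) ∧ 2 • t = 0 ∧
    t ∉ AddSubgroup.zmultiples Q := by
  by_contra hc
  push Not at hc
  obtain ⟨a, ha⟩ := AddSubgroup.mem_zmultiples_iff.1 (hc T1 smul_T1 two_T1)
  obtain ⟨b, hb⟩ := AddSubgroup.mem_zmultiples_iff.1 (hc T2 smul_T2 two_T2)
  have h2 : (2 : ℤ) • (a.gcd b : ℤ) • Q = 0 := by
    rw [Int.gcd_eq_gcd_ab, add_smul, mul_comm a, mul_comm b, mul_smul, mul_smul, ha, hb, smul_add,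
      smul_comm 2, smul_comm 2, two_zsmul, two_zsmul, ← two_nsmul, ← two_nsmul, two_T1, two_T2]
    simp
  have k : ∀ c : ℤ, (a.gcd b : ℤ) ∣ c → c • Q ≠ 0 → c • Q = (a.gcd b : ℤ) • Q := by
    rintro _ ⟨c, rfl⟩ h
    rw [mul_comm, mul_smul] at h ⊢
    obtain ⟨k, rfl | rfl⟩ := Int.even_or_odd' c
    · exact absurd (by rw [mul_comm, mul_smul, h2, smul_zero]) h
    · rw [add_smul, mul_comm, mul_smul, h2, smul_zero, zero_add, one_smul]
  exact T_ne.2.2.2.1 (by rw [← ha, ← hb, k a (Int.gcd_dvd_left ..) (ha ▸ T_ne.1),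
    k b (Int.gcd_dvd_right ..) (hb ▸ T_ne.2.1)])

theorem tac_half (m : ℕ) (P : EE) : ∃ R : EE, 2 ^ m • R = P := by
  induction m with
  | zero => exact ⟨P, one_smul _ _⟩
  | succ m ih =>
    obtain ⟨R, rfl⟩ := ih
    obtain ⟨R, rfl⟩ := exists_half R
    exact ⟨R, by rw [pow_succ, mul_smul]⟩

theorem tac_mem (hD : IsClosed (D : Set Gam)) (hx : TacK T D x S) (hy : TacK T D y S')
    (h : 2 ^ m • S ∈ AddSubgroup.zmultiples (2 ^ m • S')) : Spl m D (tacU T x y) := by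
  by_cases ho : ∃ k : ℤ, (2 * k + 1) • 2 ^ m • S' = 0
  · obtain ⟨k, hk⟩ := ho
    obtain ⟨a, b, e⟩ : IsCoprime ((2 : ℤ) ^ m) (2 * k + 1) :=
      IsCoprime.pow_left ⟨-k, 1, by ring⟩
    refine tac_cob hx hy (R := a • 2 ^ m • S') (fun g hg => by rw [smul_comm, hy.fix hg]) ?_
    rw [smul_sub, ← natCast_zsmul (a • _), ← mul_smul, Nat.cast_pow, Nat.cast_ofNat, mul_comm,
      eq_sub_of_add_eq e, sub_smul, mul_smul b, hk, one_smul, smul_zero, sub_zero, sub_self]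
  obtain ⟨t, t1, t2, t3⟩ := tac_two (2 ^ m • S')
  obtain ⟨R, hR⟩ := tac_half m t
  obtain ⟨z, hz⟩ := tac_ex (T := T) (D := D) (hR ▸ t1)
  have k : ∀ P ∈ AddSubgroup.zmultiples (2 ^ m • S'), Gn (P + t) (2 ^ m • S') := fun P hP => by
    refine ⟨fun e => t3 (by simpa using sub_mem e hP), fun e => ?_⟩
    obtain ⟨a, rfl⟩ := AddSubgroup.mem_zmultiples_iff.1 hP
    obtain ⟨c, e⟩ := AddSubgroup.mem_zmultiples_iff.1 e
    have t4 : ∀ k : ℤ, (2 * k) • t = 0 := fun k => by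
      rw [mul_comm, mul_smul, two_zsmul, ← two_nsmul, t2, smul_zero]
    obtain ⟨k, rfl | rfl⟩ := Int.even_or_odd' c
    · refine ho ⟨-(k * a), ?_⟩
      rw [smul_add, t4, add_zero, ← mul_smul] at e
      rw [add_smul, one_smul, mul_neg, neg_smul, ← mul_assoc, e, neg_add_cancel]
    · rw [smul_add, add_smul _ _ t, t4, zero_add, one_smul] at e
      rw [eq_sub_of_add_eq' e] at t3
      exact t3 (sub_mem (AddSubgroup.mem_zmultiples _) (zsmul_mem hP _))
  refine tac_lin (tac_gen hD (hx.add hz) hy (by rw [smul_add, hR]; exact k _ h))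
    (tac_gen hD hz hy (by simpa [hR] using k 0 (zero_mem _))) 1 (-1) fun g _ k _ => ?_
  simp only [tacU, det2, Pi.add_apply]
  ring

theorem TB.iso (T : TB) (m : ℕ) (D : Subgroup Gam) (x y : Gam → Fin 2 → ZMod (2 ^ m)) (S S' : EE)
    (hD : IsClosed (D : Set Gam)) (hx : ∀ g ∈ D, T.emb m (x g) = g • S - S)
    (hy : ∀ g ∈ D, T.emb m (y g) = g • S' - S') :
    Spl m D fun g h => det2 (x g) (mred m (T.ρ g) *ᵥ y h) := by
  by_cases h1 : 2 ^ m • S ∈ AddSubgroup.zmultiples (2 ^ m • S')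
  · exact tac_mem hD hx hy h1
  by_cases h2 : 2 ^ m • S' ∈ AddSubgroup.zmultiples (2 ^ m • S)
  · exact tac_swap hx hy (tac_mem hD hy hx h2)
  · exact tac_gen hD hx hy ⟨h1, h2⟩

end Pool.Agent.Lib.MP_696deb_nt.B2
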