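import Pool.Agent.Lib.MP_696deb_nt.B2.CFa

/-! Units outside a finite set of places, modulo squares. -/

set_option autoImplicit false

open scoped NNReal Classical
open Filter Topology Finset

namespace Pool.Agent.Lib.MP_696deb_nt.B2

open Pool.Agent.Lib.MP_580eba_nt (index_ES mem_ES mem_map_pw)

theorem cfc_prod {M : Type} [CommMonoid M] {k : ℕ} (x : M) (a : Fin k → M)
    (t : Finset (Fin (k + 1))) : ∏ i ∈ t, (Fin.cons x a : Fin (k + 1) → M) i =
      (if 0 ∈ t then x else 1) * ∏ i ∈ univ.filter fun i : Fin k => i.succ ∈ t, a i := by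
  rw [← Finset.prod_ite_mem_eq, Fin.prod_univ_succ, prod_filter]
  rfl

/-- Independent elements modulo squares. -/
theorem exists_indep {M : Type} [CommGroup M] (E : Subgroup M) {n : ℕ}
    (h : (E.map (powMonoidHom 2)).relIndex E = 2 ^ n) : ∃ a : Fin n → M, (∀ i, a i ∈ E) ∧
      ∀ t : Finset (Fin n), ∏ i ∈ t, a i ∈ E.map (powMonoidHom 2) → t = ∅ := by
  have key : ∀ k, k ≤ n → ∃ a : Fin k → M, (∀ i, a i ∈ E) ∧
      ∀ t : Finset (Fin k), ∏ i ∈ t, a i ∈ E.map (powMonoidHom 2) → t = ∅ := by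
    intro k
    induction k with
    | zero => exact fun _ => ⟨Fin.elim0, fun i => i.elim0, fun t _ => Subsingleton.elim _ _⟩
    | succ k ih =>
      intro hk
      obtain ⟨a, ha, hi⟩ := ih (by omega)
      let f : Finset (Fin k) → E ⧸ (E.map (powMonoidHom 2)).subgroupOf E := fun t =>
        QuotientGroup.mk ⟨∏ i ∈ t, a i, E.prod_mem fun i _ => ha i⟩
      have hf : ¬Function.Surjective f := fun hs => by
        have h1 := Nat.card_le_card_of_surjective f hs
        have h2 : Nat.card (E ⧸ (E.map (powMonoidHom 2)).subgroupOf E) = 2 ^ n := h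
        rw [h2, Nat.card_eq_fintype_card, Fintype.card_finset, Fintype.card_fin] at h1
        have := (pow_le_pow_iff_right₀ (by norm_num : (1 : ℕ) < 2)).1 h1
        omega
      obtain ⟨q, hq⟩ := not_forall.1 hf
      obtain ⟨x, rfl⟩ := QuotientGroup.mk_surjective q
      refine ⟨Fin.cons x.1 a, Fin.forall_fin_succ.2 ⟨x.2, ha⟩, fun t ht => ?_⟩
      rw [cfc_prod] at ht
      by_cases h0 : (0 : Fin (k + 1)) ∈ t
      · refine (hq ⟨univ.filter fun i => i.succ ∈ t, Eq.symm (QuotientGroup.eq.2 ?_)⟩).elim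
        rw [if_pos h0] at ht
        have h3 : (x.1⁻¹) ^ 2 ∈ E.map (powMonoidHom 2) := ⟨x.1⁻¹, E.inv_mem x.2, rfl⟩
        have h4 := Subgroup.mul_mem _ h3 ht
        rw [pow_two, mul_assoc, inv_mul_cancel_left] at h4
        exact h4
      · rw [if_neg h0, one_mul] at ht
        have h3 := hi _ ht
        refine eq_empty_of_forall_notMem fun i => Fin.cases h0 (fun j hj => ?_) i
        exact notMem_empty j (h3 ▸ mem_filter.2 ⟨mem_univ j, hj⟩)
  exact key n le_rfl

theorem su : SUStmt := by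
  intro H s hH hT hs
  have := nf_Kf hH
  have := tc_Kf hH hT
  choose u hu using fun w : Plc => exists_un (H := H) w
  have h1 : (s.image u).card = s.card := card_image_of_injOn fun v hv w hw h => by
    obtain ⟨g, hg, e⟩ := Un.conj hH (hu v) (h ▸ hu w)
    exact hs v hv w hw g hg e
  have h2 : Fintype.card (NumberField.InfinitePlace (Kf H)) = H.index / 2 := by
    rw [NumberField.InfinitePlace.card_eq_nrRealPlaces_add_nrComplexPlaces,
      NumberField.IsTotallyComplex.nrRealPlaces_eq_zero, ← finrank_Kf hH,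
      NumberField.IsTotallyComplex.finrank]
    omega
  have h3 := index_ES (s.image u)
  rw [h1, h2, add_comm] at h3
  obtain ⟨a, ha, hi⟩ := exists_indep _ h3
  refine ⟨fun i => ((a i : Kf H) : Qbar), fun i => ⟨?_, fx_Kf _, fun w hw => ?_⟩, fun t ht => ?_⟩
  · exact fun h => (a i).ne_zero (Subtype.ext h)
  · refine ((hu w).eq_one _).1 (mem_ES.1 (ha i) _ fun h => ?_)
    obtain ⟨v, hv, e⟩ := mem_image.1 h
    obtain ⟨g, hg, e'⟩ := Un.conj hH (hu v) (e ▸ hu w)
    exact hw v hv g hg e'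
  · obtain ⟨b, hb, e⟩ := ht
    refine hi t (mem_map_pw (Subgroup.prod_mem _ fun i _ => ha i) ⟨⟨b, b3a_fx.1 hb⟩, ?_⟩)
    refine Subtype.ext ?_
    rw [Units.coe_prod, SubmonoidClass.coe_finsetProd]
    exact e.trans (pow_two b)

end Pool.Agent.Lib.MP_696deb_nt.B2
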