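import Pool.Agent.Lib.MP_696deb_nt.B2.B4a
import Pool.Agent.Lib.MP_696deb_nt.B2.B3c

set_option autoImplicit false

open scoped NNReal Classical NumberTheorySymbols
open Filter Topology Finset

namespace Pool.Agent.Lib.MP_696deb_nt.B2

variable {H : Subgroup Gam} {w : Plc}

theorem b4b_cases (x : ZMod 2) : x = 0 ∨ x = 1 := by revert x; decide

theorem b4b_kum {D : Subgroup Gam} {a y : Qbar} {κ : Gam → ZMod 2} {n : ℤ} (h : Kum 1 D a κ)
    (hy : Fx D y) (e : a = n * y ^ 2) : ∀ g ∈ D, κ g = xi n g := by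
  obtain ⟨r, r0, r1, r2⟩ := h
  intro g hg
  have y0 : y ≠ 0 := by
    rintro rfl
    rw [e] at r1
    exact r0 (by simpa using r1)
  have h1 : (r / y) ^ 2 = n := by
    rw [div_pow, div_eq_iff (pow_ne_zero 2 y0), ← e, ← r1, pow_one]
  have h2 := chi_spec h1 g
  rw [map_div₀, hy g hg, r2 g hg, mul_div_right_comm, mul_comm,
    mul_left_inj' (div_ne_zero r0 y0)] at h2
  change (-1 : Qbar) ^ (κ g).val = _ at h2
  rcases b4b_cases (κ g) with k | k <;> rcases Int.units_eq_one_or (chi n g) with c | c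
  · rw [k, xi_eq_zero.2 c]
  · rw [k, c] at h2
    norm_num at h2
  · rw [k, c, ZMod.val_one] at h2
    norm_num at h2
  · rw [k, xi_eq_one.2 c]

theorem b4b_xi_pow {a : ℤ} (ha : a ≠ 0) (e : ℕ) (g : Gam) : xi (a ^ e) g = e * xi a g := by
  induction e with
  | zero => simpa using xi_eq_zero.2 (chi_sq 1 g)
  | succ e ih => rw [pow_succ, xi_mul (pow_ne_zero e ha) ha, ih]; push_cast; ring

theorem b4b_class (w : Plc) {a : Qbar} (h0 : a ≠ 0) (ha : Fx (Dec w) a) :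
    ∃ (e : ℕ) (m : ℤ) (y : Qbar), ¬ (w.p : ℤ) ∣ m ∧ Fx (Dec w) y ∧
      a = ((w.p : ℤ) ^ e * m : ℤ) * y ^ 2 := by
  have v0 : 0 < w.V a := pos_iff_ne_zero.2 (w.V.ne_zero_iff.2 h0)
  have v4 : 0 < w.V 4 := pos_iff_ne_zero.2 (w.V.ne_zero_iff.2 (by norm_num))
  have v5 : w.V 4 ≤ 1 := by simpa using w.V_int_le 4
  obtain ⟨r, hr⟩ := approx_rat ha (mul_pos v0 v4)
  have h1 : w.V r = w.V a :=
    w.V.map_eq_of_sub_lt (by
      rw [w.V.map_sub_swap]; exact hr.trans_le (mul_le_of_le_one_right' v5))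
  have r0 : (r : Qbar) ≠ 0 := fun h => v0.ne' (by rw [← h1, h, map_zero])
  obtain ⟨s, s1, s2, -⟩ := exists_sqrt (D := Dec w) le_rfl (a := a / r)
    (fun g hg => by rw [map_div₀, ha g hg, map_ratCast]) (by
      rw [div_sub_one r0, map_div₀, h1, div_lt_iff₀ v0, mul_comm]
      exact hr)
  have n0 : r.num * r.den ≠ 0 :=
    mul_ne_zero (Rat.num_ne_zero.2 fun h => r0 (by simp [h])) (by exact_mod_cast r.den_ne_zero)
  have p1 : ¬ IsUnit (w.p : ℤ) := by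
    rw [Int.isUnit_iff_natAbs_eq]
    simpa using w.prime.ne_one
  obtain ⟨e, m, hm, he⟩ := WfDvdMonoid.max_power_factor' n0 p1
  have d0 : (r.den : Qbar) ≠ 0 := by exact_mod_cast r.den_ne_zero
  refine ⟨e, m, s / r.den, hm, fun g hg => by rw [map_div₀, s1 g hg, map_natCast], ?_⟩
  rw [← he, div_pow, s2, Rat.cast_def r]
  rw [Rat.cast_def r] at r0
  have n1 : (r.num : Qbar) ≠ 0 := fun h => r0 (by rw [h, zero_div])
  push_cast
  field_simp

theorem b4b_ne {p : ℕ} {m : ℤ} (h : ¬ (p : ℤ) ∣ m) : m ≠ 0 := fun k => h (k ▸ dvd_zero _)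

theorem b4b_xi (w : Plc) {a : Qbar} {κ : Gam → ZMod 2} (h : Kum 1 (Dec w) a κ) :
    ∃ (e : ℕ) (m : ℤ) (y : Qbar), ¬ (w.p : ℤ) ∣ m ∧ Fx (Dec w) y ∧
      a = ((w.p : ℤ) ^ e * m : ℤ) * y ^ 2 ∧ ∀ g ∈ Dec w, κ g = e * xi w.p g + xi m g := by
  obtain ⟨e, m, y, h1, h2, h3⟩ := b4b_class w h.fx.1 h.fx.2
  have p0 : (w.p : ℤ) ≠ 0 := by exact_mod_cast w.prime.ne_zero
  refine ⟨e, m, y, h1, h2, h3, fun g hg => ?_⟩
  rw [b4b_kum h h2 h3 g hg, xi_mul (pow_ne_zero e p0) (b4b_ne h1), b4b_xi_pow p0]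

theorem b4b_eq {x y : ZMod 2} (h : x + y = 0) : y = x := by revert x y; decide

theorem b4b_odd (hw : w.p = 2) {m : ℤ} (hm : ¬ (2 : ℤ) ∣ m) :
    ∃ x y : ZMod 2, ∀ g ∈ Dec w, xi m g = x * xi (-1) g + y * xi 5 g := by
  have m0 : m ≠ 0 := fun k => hm (k ▸ dvd_zero _)
  have key : ∀ u : ℤ, u ≠ 0 → (u * m) % 8 = 1 → ∀ g ∈ Dec w, xi m g = xi u g := fun u u0 h g hg =>
    b4b_eq (by rw [← xi_mul u0 m0]; exact xi_eq_zero.2 (chi_dec_two hw h hg))
  rcases (by omega : m % 8 = 1 ∨ m % 8 = 5 ∨ m % 8 = 7 ∨ m % 8 = 3) with h | h | h | h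
  · exact ⟨0, 0, fun g hg => by simpa using xi_eq_zero.2 (chi_dec_two hw h hg)⟩
  · exact ⟨0, 1, fun g hg => by simpa using key 5 (by norm_num) (by omega) g hg⟩
  · exact ⟨1, 0, fun g hg => by simpa using key (-1) (by norm_num) (by omega) g hg⟩
  · refine ⟨1, 1, fun g hg => ?_⟩
    rw [key (-1 * 5) (by norm_num) (by omega) g hg, xi_mul (by norm_num) (by norm_num), one_mul,
      one_mul]

theorem b4b_coc {D : Subgroup Gam} {χ : Gam → ZMod 2} (h : IsHom D χ) :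
    ∀ g ∈ D, ∀ k ∈ D, (χ (g * k) : ZMod (2 ^ 1)) = χ g + cy 1 g * χ k := fun g hg k hk => by
  rw [cy_one_eq, one_mul]
  exact h g hg k hk

/-- The quadratic characters of the decomposition group at two. -/
theorem hom_dec_two (hw : w.p = 2) {χ : Gam → ZMod 2} (h1 : Sm (Dec w) χ) (h2 : IsHom (Dec w) χ) :
    ∃ a b c : ZMod 2, ∀ g ∈ Dec w, χ g = a * xi (-1) g + b * xi 5 g + c * xi 2 g := by
  obtain ⟨a, ha⟩ := kum_surj (closed_Dec w) (m := 1) h1 (b4b_coc h2)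
  obtain ⟨e, m, -, k1, -, -, k2⟩ := b4b_xi w ha
  rw [hw] at k1 k2
  obtain ⟨x, y, k3⟩ := b4b_odd hw k1
  exact ⟨x, y, e, fun g hg => by rw [k2 g hg, k3 g hg, add_comm]; rfl⟩

theorem b4b_ine (hw : w.p = 2) (a c : ZMod 2) :
    ∃ σ ∈ Ine w, xi (-1) σ = a ∧ xi 5 σ = 0 ∧ xi 2 σ = c := by
  obtain ⟨σ, h1, h2, h3⟩ := exists_ine_two hw (if a = 0 then 1 else -1) (if c = 0 then 1 else -1)
  refine ⟨σ, h1, ?_, xi_eq_zero.2 (chi_ine_two hw (by norm_num) h1), ?_⟩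
  · rcases b4b_cases a with rfl | rfl
    · exact xi_eq_zero.2 h2
    · exact xi_eq_one.2 h2
  · rcases b4b_cases c with rfl | rfl
    · exact xi_eq_zero.2 h3
    · exact xi_eq_one.2 h3

theorem indep_dec_two (hw : w.p = 2) (a b c : ZMod 2) :
    ∃ g ∈ Dec w, xi (-1) g = a ∧ xi 5 g = b ∧ xi 2 g = c := by
  rcases b4b_cases b with rfl | rfl
  · obtain ⟨σ, h1, h2⟩ := b4b_ine hw a c
    exact ⟨σ, Ine_le w h1, h2⟩
  · obtain ⟨φ, hφ⟩ := exists_frob w
    obtain ⟨σ, h1, h2, h3, h4⟩ := b4b_ine hw (a - xi (-1) φ) (c - xi 2 φ)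
    refine ⟨φ * σ, mul_mem hφ.1 (Ine_le w h1), ?_, ?_, ?_⟩
    · rw [xi_hom, h2, add_sub_cancel]
    · rw [xi_hom, h3, add_zero]
      exact xi_eq_one.2 (chi_frob_two hw (hw ▸ hφ))
    · rw [xi_hom, h4, add_sub_cancel]

/-- A unit at two has a Kummer character without the component of two. -/
theorem kum_unit_two (hw : w.p = 2) {a : Qbar} {κ : Gam → ZMod (2 ^ 1)} (h : Kum 1 (Dec w) a κ)
    (ha : w.V a = 1) : ∃ x y : ZMod 2, ∀ g ∈ Dec w, κ g = x * xi (-1) g + y * xi 5 g := by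
  obtain ⟨e, m, y, k1, k2, k3, k4⟩ := b4b_xi w h
  have y0 : y ≠ 0 := by
    rintro rfl
    exact h.fx.1 (by simpa using k3)
  obtain ⟨k, hk⟩ := V_of_fx_ine (fun g hg => k2 g (Ine_le w hg)) y0
  have he : (e : ZMod 2) = 0 := by
    rw [k3] at ha
    push_cast at ha
    rw [map_mul, map_mul, map_pow, map_pow, w.hV, hk, w.V_int_eq_one.2 k1, mul_one, hw,
      ← zpow_neg, ← zpow_natCast, ← zpow_natCast, ← zpow_mul, inv_zpow', ← zpow_add₀ (by simp),
      zpow_eq_one_iff_right₀ (by simp) (by simp)] at ha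
    rw [ZMod.natCast_eq_zero_iff]
    push_cast at ha
    omega
  rw [hw] at k1
  obtain ⟨x, z, k5⟩ := b4b_odd hw k1
  refine ⟨x, z, fun g hg => ?_⟩
  rw [← k5 g hg, ← zero_add (xi m g), ← zero_mul (xi w.p g), ← he]
  exact k4 g hg

/-- The quadratic characters of the decomposition group at an odd place. -/
theorem hom_dec_odd (hw : w.p ≠ 2) {u : ℤ} (hu : J(u | w.p) = -1) {χ : Gam → ZMod 2}
    (h1 : Sm (Dec w) χ) (h2 : IsHom (Dec w) χ) :
    ∃ a b : ZMod 2, ∀ g ∈ Dec w, χ g = a * xi u g + b * xi w.p g := by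
  obtain ⟨a, ha⟩ := kum_surj (closed_Dec w) (m := 1) h1 (b4b_coc h2)
  obtain ⟨e, m, -, k1, -, -, k2⟩ := b4b_xi w ha
  have hp : Prime (w.p : ℤ) := Nat.prime_iff_prime_int.1 w.prime
  have p2 : ∀ n : ℤ, ¬ (w.p : ℤ) ∣ n → ¬ (w.p : ℤ) ∣ 2 * n := fun n hn h =>
    (hp.dvd_or_dvd h).elim (fun h' => hw ((Nat.prime_dvd_prime_iff_eq w.prime Nat.prime_two).1
      (by exact_mod_cast h'))) hn
  have co : ∀ n : ℤ, n.gcd w.p = 1 ↔ ¬ (w.p : ℤ) ∣ n := fun n => by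
    rw [← Int.isCoprime_iff_gcd_eq_one, isCoprime_comm, hp.coprime_iff_not_dvd]
  have u1 : ¬ (w.p : ℤ) ∣ u := by
    rw [← co]
    by_contra h
    rw [jacobiSym.eq_zero_iff.2 ⟨w.prime.ne_zero, h⟩] at hu
    norm_num at hu
  rcases jacobiSym.eq_one_or_neg_one ((co m).2 k1) with h | h
  · refine ⟨0, e, fun g hg => ?_⟩
    rw [k2 g hg, xi_eq_zero.2 (chi_dec (p2 m k1) h hg)]
    ring
  · refine ⟨1, e, fun g hg => ?_⟩
    have h3 := xi_eq_zero.2 (chi_dec (a := u * m) (p2 _ fun k => (hp.dvd_or_dvd k).elim u1 k1)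
      (by rw [jacobiSym.mul_left, hu, h]; norm_num) hg)
    rw [xi_mul (b4b_ne u1) (b4b_ne k1)] at h3
    rw [k2 g hg, b4b_eq h3]
    ring

/-- Smooth quadratic characters. -/
def B4bG (D : Subgroup Gam) (x : Gam → ZMod 2) : Prop := Sm D x ∧ IsHom D x

theorem B4bG.xi (D : Subgroup Gam) (a : ℤ) : B4bG D (xi a) := ⟨sm_xi a, fun g _ h _ => xi_hom a g h⟩

theorem B4bG.add {D : Subgroup Gam} {x y : Gam → ZMod 2} (hx : B4bG D x) (hy : B4bG D y) :
    B4bG D fun g => x g + y g :=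
  ⟨hx.1.comp₂ hy.1 (· + ·), fun g hg h hh => by
    simp only [hx.2 g hg h hh, hy.2 g hg h hh]; ring⟩

theorem B4bG.smul {D : Subgroup Gam} {x : Gam → ZMod 2} (hx : B4bG D x) (a : ZMod 2) :
    B4bG D fun g => a * x g :=
  ⟨hx.1.comp (a * ·), fun g hg h hh => by simp only [hx.2 g hg h hh]; ring⟩

theorem b4b_cup (x y : Gam → ZMod 2) : cup 1 x y = (fun g k => x g * y k : Gam → Gam → ZMod 2) := by
  funext g k
  rw [cup, cy_one_eq, mul_one]

theorem B4bG.c2 {D : Subgroup Gam} {x y : Gam → ZMod 2} (hx : B4bG D x) (hy : B4bG D y) :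
    C2 1 D (fun g k => x g * y k : Gam → Gam → ZMod 2) :=
  b4b_cup x y ▸ c2_cup (m := 1) hx.1 hx.2 hy.1 (b4b_coc hy.2)

/-- The symbol of two quadratic characters. -/
def b4bS (F : CFT) (H : Subgroup Gam) (w : Plc) (x y : Gam → ZMod 2) : ZMod 2 :=
  F.inv 1 H w (fun g k => x g * y k : Gam → Gam → ZMod 2)

section symb

variable (F : CFT) (hH : Op H) {x y z : Gam → ZMod 2}

include hH

theorem b4bS_add_left (hx : B4bG (H ⊓ Dec w) x) (hy : B4bG (H ⊓ Dec w) y)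
    (hz : B4bG (H ⊓ Dec w) z) :
    b4bS F H w (fun g => x g + y g) z = b4bS F H w x z + b4bS F H w y z :=
  (F.congr fun _ _ _ _ => add_mul _ _ _).trans (F.add hH (hx.c2 hz) (hy.c2 hz))

theorem b4bS_add_right (hx : B4bG (H ⊓ Dec w) x) (hy : B4bG (H ⊓ Dec w) y)
    (hz : B4bG (H ⊓ Dec w) z) :
    b4bS F H w x (fun g => y g + z g) = b4bS F H w x y + b4bS F H w x z :=
  (F.congr fun _ _ _ _ => mul_add _ _ _).trans (F.add hH (hx.c2 hy) (hx.c2 hz))

theorem b4bS_smul_left (hx : B4bG (H ⊓ Dec w) x) (hy : B4bG (H ⊓ Dec w) y) (a : ZMod 2) :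
    b4bS F H w (fun g => a * x g) y = a * b4bS F H w x y :=
  (F.congr fun _ _ _ _ => mul_assoc _ _ _).trans (F.smul hH (hx.c2 hy) a)

theorem b4bS_smul_right (hx : B4bG (H ⊓ Dec w) x) (hy : B4bG (H ⊓ Dec w) y) (a : ZMod 2) :
    b4bS F H w x (fun g => a * y g) = a * b4bS F H w x y :=
  (F.congr fun _ _ _ _ => mul_left_comm _ _ _).trans (F.smul hH (hx.c2 hy) a)

theorem b4bS_symm (hx : B4bG (H ⊓ Dec w) x) (hy : B4bG (H ⊓ Dec w) y) :
    b4bS F H w y x = b4bS F H w x y := by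
  refine b4b_eq ((F.add hH (hx.c2 hy) (hy.c2 hx)).symm.trans
    ((F.zero_iff hH ((hx.c2 hy).add (hy.c2 hx))).2
      ⟨(fun g => x g * y g : Gam → ZMod 2), hx.1.comp₂ hy.1 (· * ·), fun g hg h hh => ?_⟩))
  rw [cy_one_eq, one_mul]
  change (x g * y h + y g * x h : ZMod 2) = x g * y g + x h * y h - x (g * h) * y (g * h)
  rw [hx.2 g hg h hh, hy.2 g hg h hh]
  generalize x g = a, x h = b, y g = c, y h = d
  revert a b c d
  decide

theorem b4bS_norm {a b : ℤ} (s t : ℤ) (ha : a ≠ 0) (hb : b ≠ 0) (h : b = s ^ 2 - a * t ^ 2) :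
    b4bS F H w (xi a) (xi b) = 0 := by
  refine (F.zero_iff hH ((B4bG.xi _ a).c2 (B4bG.xi _ b))).2 ?_
  rw [← b4b_cup]
  refine spl_of_norm (x := s) (y := t) (kum_xi ha) (kum_xi hb) ?_ (fun g _ => map_intCast g s)
    (fun g _ => map_intCast g t) (by exact_mod_cast h)
  exact hH.closed.inter (closed_Dec w)

end symb

/-- The Hilbert symbol at two on the basis minus one, five, two. -/
theorem hilbert_two (F : CFT) (hH : Op H) (hw : w.p = 2) (hD : Dec w ≤ H)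
    (a b c a' b' c' : ZMod 2) :
    F.inv 1 H w (fun g k => (a * xi (-1) g + b * xi 5 g + c * xi 2 g) *
      (a' * xi (-1) k + b' * xi 5 k + c' * xi 2 k) : Gam → Gam → ZMod 2) =
      (a * a' + b * c' + c * b' : ZMod 2) := by
  have G := B4bG.xi (H ⊓ Dec w)
  have s15 : b4bS F H w (xi (-1)) (xi 5) = 0 :=
    b4bS_norm F hH 1 2 (by norm_num) (by norm_num) (by norm_num)
  have s12 : b4bS F H w (xi (-1)) (xi 2) = 0 :=
    b4bS_norm F hH 1 1 (by norm_num) (by norm_num) (by norm_num)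
  have s55 : b4bS F H w (xi 5) (xi 5) = 0 :=
    b4bS_norm F hH 5 2 (by norm_num) (by norm_num) (by norm_num)
  have s22 : b4bS F H w (xi 2) (xi 2) = 0 :=
    b4bS_norm F hH 2 1 (by norm_num) (by norm_num) (by norm_num)
  have s51 := (b4bS_symm F hH (G (-1)) (G 5)).trans s15
  have s21 := (b4bS_symm F hH (G (-1)) (G 2)).trans s12
  have s52 : b4bS F H w (xi 5) (xi 2) = 1 := by
    obtain ⟨φ, hφ⟩ := exists_frob w
    have h1 := F.kum (m := 1) (χ := xi 5) (κ := xi 2) (a := ((2 : ℤ) : Qbar)) 1 hH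
      ((Ine_le w).trans hD) (hD hφ.1)
      (by rwa [inf_eq_right.2 hD, Subgroup.relIndex_self, pow_one]) (G 5).1 (G 5).2
      (fun σ hσ => xi_eq_zero.2 (chi_ine_two hw (by norm_num) hσ)) (kum_xi two_ne_zero)
      (by rw [zpow_one, ← w.hV, hw]; norm_num)
    rw [b4b_cup, xi_eq_one.2 (chi_frob_two hw (hw ▸ hφ))] at h1
    exact h1
  have s25 := (b4bS_symm F hH (G 5) (G 2)).trans s52
  have s11 : b4bS F H w (xi (-1)) (xi (-1)) = 1 := by
    have h1 : b4bS F H w (xi 3) (xi (-1 * 2)) = 0 :=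
      b4bS_norm F hH 1 1 (by norm_num) (by norm_num) (by norm_num)
    have h2 : b4bS F H w (xi 3) (xi (-1 * 2)) =
        b4bS F H w (fun g => xi (-1) g + xi 5 g) fun g => xi (-1) g + xi 2 g := by
      refine F.congr fun g hg k _ => ?_
      have h3 := xi_eq_zero.2 (chi_dec_two (a := -1 * 5 * 3) hw (by norm_num) hg.2)
      rw [xi_mul (by norm_num) (by norm_num), xi_mul (by norm_num) (by norm_num)] at h3
      change (xi 3 g * xi (-1 * 2) k : ZMod 2) = _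
      rw [b4b_eq h3, xi_mul (by norm_num) (by norm_num)]
    rw [h2, b4bS_add_left F hH (G _) (G _) ((G _).add (G _)), b4bS_add_right F hH (G _) (G _) (G _),
      b4bS_add_right F hH (G _) (G _) (G _), s12, s51, s52, add_zero, zero_add] at h1
    exact (b4b_eq h1).symm
  have G1 := fun (t : ZMod 2) (n : ℤ) => (G n).smul t
  have G3 := ((G1 a' (-1)).add (G1 b' 5)).add (G1 c' 2)
  have lin : ∀ n : ℤ, b4bS F H w (xi n) (fun k => a' * xi (-1) k + b' * xi 5 k + c' * xi 2 k) =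
      a' * b4bS F H w (xi n) (xi (-1)) + b' * b4bS F H w (xi n) (xi 5) +
        c' * b4bS F H w (xi n) (xi 2) := fun n => by
    rw [b4bS_add_right F hH (G n) ((G1 a' (-1)).add (G1 b' 5)) (G1 c' 2),
      b4bS_add_right F hH (G n) (G1 a' (-1)) (G1 b' 5), b4bS_smul_right F hH (G n) (G _),
      b4bS_smul_right F hH (G n) (G _), b4bS_smul_right F hH (G n) (G _)]
  change b4bS F H w (fun g => a * xi (-1) g + b * xi 5 g + c * xi 2 g)
    (fun k => a' * xi (-1) k + b' * xi 5 k + c' * xi 2 k) = _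
  rw [b4bS_add_left F hH ((G1 a (-1)).add (G1 b 5)) (G1 c 2) G3,
    b4bS_add_left F hH (G1 a (-1)) (G1 b 5) G3, b4bS_smul_left F hH (G _) G3,
    b4bS_smul_left F hH (G _) G3, b4bS_smul_left F hH (G _) G3, lin, lin, lin, s11, s15, s12, s51,
    s55, s52, s21, s25, s22]
  ring

end Pool.Agent.Lib.MP_696deb_nt.B2
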