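import Pool.Agent.Lib.MP_696deb_nt.B2.CMa

/-! Invertible lattices and primitive forms. -/

set_option autoImplicit false

open scoped Classical

namespace Pool.Agent.Lib.MP_696deb_nt.B2.CM

variable {n c : ℕ} {I : Lt} {m b k : ℤ} {σ : ℂ ≃+* ℂ}

theorem cmb_sq (h : b ^ 2 + n * c ^ 2 = 4 * m * k) :
    be n c b * be n c b = b * be n c b - m * k := by
  rw [← sq, be_sq (h.trans (mul_assoc _ _ _)), Int.cast_mul]

theorem cmb_neg (n c : ℕ) (b : ℤ) : be n c (-b) = be n c b - b := by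
  linear_combination -be_sub n c b

theorem cmb_ot (hn : n % 4 = 3) (h : b ^ 2 + n * c ^ 2 = 4 * m * k) :
    ot (Oc n c) = sp2 1 (be n c b) := ot_Oc hn (two_dvd_sub hn (h.trans (mul_assoc _ _ _)))

theorem cmb_comm (p q : ℂ) : sp2 p q = sp2 q p := by rw [sp2, sp2, Set.pair_comm]

theorem cmb_sp2_neg (p q : ℂ) : sp2 p (-q) = sp2 p q :=
  le_antisymm (sp2_le.2 ⟨left_mem_sp2 _ _, neg_mem (right_mem_sp2 _ _)⟩)
    (sp2_le.2 ⟨left_mem_sp2 _ _, neg_mem_iff.1 (right_mem_sp2 _ _)⟩)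

theorem cmb_mul_sp2 {u p q : ℂ} (h1 : u * p ∈ I) (h2 : u * q ∈ I) : ∀ z ∈ sp2 p q, u * z ∈ I :=
  fun z hz => (sp2_le.2 ⟨h1, h2⟩ : sp2 (u * p) (u * q) ≤ I) (by
    rw [← sc_sp2]
    exact mem_sc.2 ⟨z, hz, rfl⟩)

theorem cmb_mul_sc {u a : ℂ} (h : ∀ z ∈ I, u * z ∈ I) : ∀ z ∈ sc a I, u * z ∈ sc a I := by
  intro z hz
  obtain ⟨y, hy, rfl⟩ := mem_sc.1 hz
  exact mem_sc.2 ⟨_, h y hy, mul_left_comm _ _ _⟩

theorem cmb_gcd (m b k : ℤ) : ∃ g x y z m' b' k' : ℤ, x * m + y * b + z * k = g ∧ m = g * m' ∧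
    b = g * b' ∧ k = g * k' := by
  obtain ⟨m', h1⟩ := (Int.gcd_dvd_left (Int.gcd m b) k).trans (Int.gcd_dvd_left m b)
  obtain ⟨b', h2⟩ := (Int.gcd_dvd_left (Int.gcd m b) k).trans (Int.gcd_dvd_right m b)
  obtain ⟨k', h3⟩ := Int.gcd_dvd_right (Int.gcd m b) k
  refine ⟨_, Int.gcdA m b * Int.gcdA (Int.gcd m b) k, Int.gcdB m b * Int.gcdA (Int.gcd m b) k,
    Int.gcdB (Int.gcd m b) k, m', b', k', ?_, h1, h2, h3⟩
  linear_combination -Int.gcd_eq_gcd_ab (Int.gcd m b) k -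
    Int.gcdA (Int.gcd m b) k * Int.gcd_eq_gcd_ab m b

theorem idl_mul_ot (hn : n % 4 = 3) (h : b ^ 2 + n * c ^ 2 = 4 * m * k) :
    idl n c m b * ot (Oc n c) = idl n c m b := by
  refine le_antisymm ?_ fun z hz => by
    simpa using Submodule.mul_mem_mul (N := ot (Oc n c)) hz (Oc n c).one_mem
  rw [cmb_ot hn h]
  exact sp2_mul_le.2 ⟨mem_sp2.2 ⟨1, 0, by simp⟩, mem_sp2.2 ⟨0, m, by simp⟩,
    mem_sp2.2 ⟨0, 1, by simp⟩, mem_sp2.2 ⟨-k, b, by rw [cmb_sq h]; push_cast; ring⟩⟩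

theorem idl_le (hn : n % 4 = 3) (h : b ^ 2 + n * c ^ 2 = 4 * m * k) : idl n c m b ≤ ot (Oc n c) := by
  rw [cmb_ot hn h]
  exact sp2_le.2 ⟨mem_sp2.2 ⟨m, 0, by simp⟩, right_mem_sp2 _ _⟩

theorem idl_mul_neg (hn : n % 4 = 3) (h : b ^ 2 + n * c ^ 2 = 4 * m * k)
    (hp : ∃ x y z : ℤ, x * m + y * b + z * k = 1) :
    idl n c m b * idl n c m (-b) = sc m (ot (Oc n c)) := by
  obtain ⟨x, y, z, hp⟩ := hp
  have hp' : (x : ℂ) * m + y * b + z * k = 1 := by exact_mod_cast hp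
  have e := cmb_sq h
  rw [cmb_ot hn h, sc_sp2, idl, idl, cmb_neg]
  refine le_antisymm (sp2_mul_le.2 ⟨mem_sp2.2 ⟨m, 0, by simp⟩,
    mem_sp2.2 ⟨-b, 1, by push_cast; ring⟩, mem_sp2.2 ⟨0, 1, by push_cast; ring⟩,
    mem_sp2.2 ⟨-k, 0, by push_cast; linear_combination e⟩⟩) ?_
  obtain ⟨h1, h2, h3, h4⟩ := sp2_mul_le.1
    (le_refl (sp2 (m : ℂ) (be n c b) * sp2 (m : ℂ) (be n c b - b)))
  refine sp2_le.2 ⟨?_, by rwa [mul_comm (m : ℂ)]⟩
  convert sub_mem (add_mem (int_mul_mem h1 x) (int_mul_mem (sub_mem h3 h2) y))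
    (int_mul_mem h4 z) using 1
  linear_combination -m * hp' + z * e

theorem isIv_idl (hn : n % 4 = 3) (h : b ^ 2 + n * c ^ 2 = 4 * m * k) (hm : m ≠ 0)
    (hp : ∃ x y z : ℤ, x * m + y * b + z * k = 1) : IsIv (Oc n c) (idl n c m b) := by
  refine ⟨idl_mul_ot hn h, sc (m : ℂ)⁻¹ (idl n c m (-b)), ?_⟩
  rw [mul_sc, idl_mul_neg hn h hp, sc_inv_sc (Int.cast_ne_zero.2 hm)]

theorem cl_idl_neg (hn : n % 4 = 3) (h : b ^ 2 + n * c ^ 2 = 4 * m * k) (hm : m ≠ 0)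
    (hp : ∃ x y z : ℤ, x * m + y * b + z * k = 1) :
    cl (Oc n c) (idl n c m (-b)) = (cl (Oc n c) (idl n c m b))⁻¹ := by
  have h1 := isIv_idl hn h hm hp
  have h2 := idl_mul_neg hn h hp
  obtain ⟨x, y, z, hp⟩ := hp
  exact cl_inv h1 (isIv_idl hn (b := -b) (by rwa [neg_sq]) hm
    ⟨x, -y, z, by linear_combination hp⟩) (Int.cast_ne_zero.2 hm) h2

/-- Every lattice with complex multiplication comes from a form. -/
theorem exists_idl (h : Ok n c) (hI : IsLat I) (hm : ∀ a ∈ Oc n c, ∀ z ∈ I, a * z ∈ I) :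
    ∃ (a : ℂ) (m b k : ℤ), a ≠ 0 ∧ 0 < m ∧ b ^ 2 + n * c ^ 2 = 4 * m * k ∧
      I = sc a (idl n c m b) := by
  obtain ⟨τ, a, hτ, ha, rfl⟩ := hI.exists_tau
  have hn : 0 < n := by have := h.gt; omega
  have h1 : ∀ z ∈ sp2 τ 1, be n c c * z ∈ sp2 τ 1 := fun z hz => (mul_mem_sc ha).1 (by
    rw [mul_left_comm]
    exact hm _ (be_mem h.m4 (by simp)) _ ((mul_mem_sc ha).2 hz))
  obtain ⟨A, B, e1⟩ := mem_sp2.1 (h1 _ (right_mem_sp2 _ _))
  obtain ⟨C, D, e2⟩ := mem_sp2.1 (h1 _ (left_mem_sp2 _ _))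
  have hA : 0 < A := by
    have h2 := congrArg Complex.im e1
    have h3 := mul_pos (Nat.cast_pos.2 (Nat.pos_of_ne_zero h.ne) : (0 : ℝ) < c) (dl_im hn)
    simp [be] at h2
    exact_mod_cast ((mul_pos_iff_of_pos_right hτ).1 (by linarith) : (0 : ℝ) < A)
  have hA' : (A : ℂ) ≠ 0 := Int.cast_ne_zero.2 hA.ne'
  have e3 : be n c (c - 2 * B) = A * τ := by
    simp only [be] at e1 ⊢
    push_cast at e1 ⊢
    linear_combination e1
  have e4 : (2 * be n c (c - 2 * B) - (c - 2 * B)) ^ 2 = -(n * c ^ 2) := by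
    simp only [be]
    push_cast
    linear_combination (c : ℂ) ^ 2 * dl_sq n
  have e5 := (be_indep hn h.ne (b := c - 2 * B) (x := 4 * A * D + (c - 2 * B) ^ 2 + n * c ^ 2)
    (y := 4 * (C - B - (c - 2 * B))) (by
      rw [e3] at e4 ⊢
      push_cast
      linear_combination e4 + 4 * A * τ * e1 - 4 * A * e2)).1
  refine ⟨a / A, A, c - 2 * B, -D, div_ne_zero ha hA', hA, by linear_combination e5, ?_⟩
  rw [idl, e3, sc_sp2, sc_sp2, cmb_comm, div_mul_cancel₀ _ hA', ← mul_assoc,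
    div_mul_cancel₀ _ hA', mul_one]

theorem prim_of_mult (h : Ok n c) (e : b ^ 2 + n * c ^ 2 = 4 * m * k)
    (hm : ∀ a : ℂ, (∀ z ∈ idl n c m b, a * z ∈ idl n c m b) → a ∈ Oc n c) :
    ∃ x y z : ℤ, x * m + y * b + z * k = 1 := by
  have hn : 0 < n := by have := h.gt; omega
  obtain ⟨g, x, y, z, m', b', k', e1, e2, e3, e4⟩ := cmb_gcd m b k
  have hg : g ≠ 0 := by
    rintro rfl
    rw [e2, e3] at e
    have h1 : (n : ℤ) * c ^ 2 = 0 := by linear_combination e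
    simp [h.ne, hn.ne'] at h1
  have hg' : (g : ℂ) ≠ 0 := Int.cast_ne_zero.2 hg
  have h1 : be n c b / g ∈ ot (Oc n c) := hm _ (cmb_mul_sp2 (mem_sp2.2 ⟨0, m', by
    rw [e2]
    push_cast
    field_simp
    ring⟩) (mem_sp2.2 ⟨-k', b', by
    have e5 : (b : ℂ) = g * b' := by exact_mod_cast e3
    have e6 : (k : ℂ) = g * k' := by exact_mod_cast e4
    rw [div_mul_eq_mul_div, cmb_sq e, e5, e6]
    push_cast
    field_simp
    ring⟩))
  rw [cmb_ot h.m4 e] at h1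
  obtain ⟨u, v, h1⟩ := mem_sp2.1 h1
  rw [div_eq_iff hg'] at h1
  have h2 := (be_indep hn h.ne (b := b) (x := u * g) (y := v * g - 1) (by
    push_cast
    linear_combination -h1)).2
  exact ⟨v * x, v * y, v * z, by linear_combination v * e1 + h2⟩

theorem cmb_ex (h : Ok n c) (hI : IsLat I) (hm : ∀ a : ℂ, (∀ z ∈ I, a * z ∈ I) ↔ a ∈ Oc n c) :
    ∃ (a : ℂ) (m b k : ℤ), a ≠ 0 ∧ 0 < m ∧ b ^ 2 + n * c ^ 2 = 4 * m * k ∧
      (∃ x y z : ℤ, x * m + y * b + z * k = 1) ∧ I = sc a (idl n c m b) := by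
  obtain ⟨a, m, b, k, h1, h2, h3, rfl⟩ := exists_idl h hI fun a => (hm a).2
  exact ⟨a, m, b, k, h1, h2, h3, prim_of_mult h h3 fun u hu => (hm u).1 (cmb_mul_sc hu), rfl⟩

theorem isIv_of_mult (h : Ok n c) (hI : IsLat I)
    (hm : ∀ a : ℂ, (∀ z ∈ I, a * z ∈ I) ↔ a ∈ Oc n c) : IsIv (Oc n c) I := by
  obtain ⟨a, m, b, k, h1, h2, h3, h4, rfl⟩ := cmb_ex h hI hm
  exact (isIv_idl h.m4 h3 h2.ne' h4).sc h1

theorem IsIv.exists_idl (h : Ok n c) (hI : IsIv (Oc n c) I) :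
    ∃ (a : ℂ) (m b k : ℤ), a ≠ 0 ∧ 0 < m ∧ b ^ 2 + n * c ^ 2 = 4 * m * k ∧
      (∃ x y z : ℤ, x * m + y * b + z * k = 1) ∧ I = CM.sc a (idl n c m b) := by
  exact cmb_ex h (hI.isLat h) fun a => ⟨hI.mem_of_mul, fun ha z hz => hI.mul_mem ha hz⟩

theorem isIv_of_sqf (h : Ok n 1) (hs : Squarefree n) (hI : IsLat I)
    (hm : ∀ a ∈ Oc n 1, ∀ z ∈ I, a * z ∈ I) : IsIv (Oc n 1) I := by
  obtain ⟨a, m, b, k, h1, h2, h3, rfl⟩ := CM.exists_idl h hI hm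
  obtain ⟨g, x, y, z, m', b', k', e1, e2, e3, e4⟩ := cmb_gcd m b k
  obtain ⟨u, hu⟩ := (Int.squarefree_natCast.2 hs g ⟨4 * m' * k' - b' ^ 2, by
    rw [e2, e3, e4] at h3
    push_cast at h3
    linear_combination h3⟩).exists_left_inv
  exact (isIv_idl h.m4 h3 h2.ne' ⟨u * x, u * y, u * z, by linear_combination u * e1 + hu⟩).sc h1

theorem cmb_be_pos (hσ : σ (dl n) = dl n) (c : ℕ) (b : ℤ) : σ (be n c b) = be n c b := by
  simp [be, hσ, map_ofNat]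

theorem cmb_be_neg (hσ : σ (dl n) = -dl n) (c : ℕ) (b : ℤ) : σ (be n c b) = -be n c (-b) := by
  simp [be, hσ, map_ofNat]
  ring

theorem mp_Oc (hn : n % 4 = 3) (hσ : σ (dl n) = dl n ∨ σ (dl n) = -dl n) :
    mp σ (ot (Oc n c)) = ot (Oc n c) := by
  have h1 := ot_Oc (c := c) (b := c) hn (by simp)
  rcases hσ with hσ | hσ
  · rw [h1, mp_sp2, map_one, cmb_be_pos hσ]
  · rw [h1, mp_sp2, map_one, cmb_be_neg hσ, cmb_sp2_neg, ← h1, ← ot_Oc hn ⟨-c, by ring⟩]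

theorem IsIv.mp (hn : n % 4 = 3) (hσ : σ (dl n) = dl n ∨ σ (dl n) = -dl n)
    (h : IsIv (Oc n c) I) : IsIv (Oc n c) (mp σ I) := by
  obtain ⟨h0, J, h1⟩ := h
  have h2 := mp_mul σ I (ot (Oc n c))
  rw [h0, mp_Oc hn hσ] at h2
  exact ⟨h2.symm, CM.mp σ J, by rw [← mp_mul, h1, mp_Oc hn hσ]⟩

theorem cl_mp_pos (h : Ok n c) (hσ : σ (dl n) = dl n) (hI : IsIv (Oc n c) I) :
    cl (Oc n c) (mp σ I) = cl (Oc n c) I := by
  obtain ⟨a, m, b, k, h1, h2, h3, h4, rfl⟩ := hI.exists_idl h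
  have h5 := isIv_idl h.m4 h3 h2.ne' h4
  have h6 : mp σ (idl n c m b) = idl n c m b := by
    rw [idl, mp_sp2, map_intCast, cmb_be_pos hσ]
  rw [mp_sc, h6, cl_sc h5 h1, cl_sc h5 ((map_ne_zero σ).2 h1)]

theorem cl_mp_neg (h : Ok n c) (hσ : σ (dl n) = -dl n) (hI : IsIv (Oc n c) I) :
    cl (Oc n c) (mp σ I) = (cl (Oc n c) I)⁻¹ := by
  obtain ⟨a, m, b, k, h1, h2, h3, h4, rfl⟩ := hI.exists_idl h
  have h5 := isIv_idl h.m4 h3 h2.ne' h4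
  have h6 : mp σ (idl n c m b) = idl n c m (-b) := by
    rw [idl, mp_sp2, map_intCast, cmb_be_neg hσ, cmb_sp2_neg, idl]
  rw [mp_sc, cl_sc h5 h1, cl_sc (h5.mp h.m4 (Or.inr hσ)) ((map_ne_zero σ).2 h1), h6,
    cl_idl_neg h.m4 h3 h2.ne' h4]

theorem subsingleton_Pc_zero (n : ℕ) : Subsingleton (Pc n 0) := by
  have h0 : ∀ z : ℂ, z ∈ ot (Oc n 0) ↔ ∃ t : ℤ, t = z := fun z => by
    simp [mem_ot, Oc, Algebra.mem_bot]
  refine ⟨fun x y => ?_⟩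
  suffices h : ∀ x : Pc n 0, x = 1 by rw [h x, h y]
  intro x
  obtain ⟨I, hI, rfl⟩ := cl_surj x
  obtain ⟨J, hJ, e⟩ := hI.exists_inv
  obtain ⟨u, hu, hu0⟩ := hJ.exists_ne
  obtain ⟨d, hd⟩ := (IsPrincipalIdealRing.principal
    ((sc u I).comap (Algebra.linearMap ℤ ℂ) : Ideal ℤ)).principal
  have h1 : ∀ t : ℤ, (t : ℂ) ∈ sc u I ↔ d ∣ t := fun t => by
    rw [← Ideal.mem_span_singleton, Ideal.span, ← hd]
    rfl
  have h2 : sc u I = sc d (ot (Oc n 0)) := by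
    refine le_antisymm (fun z hz => ?_) fun z hz => ?_
    · obtain ⟨w, hw, rfl⟩ := mem_sc.1 hz
      have h3 := Submodule.mul_mem_mul hw hu
      rw [e, mul_comm] at h3
      obtain ⟨t, ht⟩ := (h0 _).1 h3
      rw [← ht] at hz ⊢
      obtain ⟨r, rfl⟩ := (h1 t).1 hz
      exact mem_sc.2 ⟨r, (h0 _).2 ⟨r, rfl⟩, (Int.cast_mul _ _).symm⟩
    · obtain ⟨w, hw, rfl⟩ := mem_sc.1 hz
      obtain ⟨t, rfl⟩ := (h0 _).1 hw
      rw [← Int.cast_mul]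
      exact (h1 _).2 (dvd_mul_right _ _)
  have h3 : (d : ℂ) ≠ 0 := fun h3 => by
    obtain ⟨z, hz, hz0⟩ := (hI.sc hu0).exists_ne
    rw [h2] at hz
    obtain ⟨w, -, rfl⟩ := mem_sc.1 hz
    exact hz0 (by rw [h3, zero_mul])
  rw [← cl_sc hI hu0, h2, cl_sc (isIv_one _) h3, cl_one]

theorem cmb_shift (n c : ℕ) (m b t : ℤ) : idl n c m (b + 2 * m * t) = idl n c m b := by
  have e : be n c (b + 2 * m * t) = be n c b + m * t := by
    simp only [be]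
    push_cast
    ring
  rw [idl, idl, e]
  exact le_antisymm (sp2_le.2 ⟨left_mem_sp2 _ _, mem_sp2.2 ⟨t, 1, by push_cast; ring⟩⟩)
    (sp2_le.2 ⟨left_mem_sp2 _ _, mem_sp2.2 ⟨-t, 1, by push_cast; ring⟩⟩)

theorem cmb_swap (hn : n % 4 = 3) (h : b ^ 2 + n * c ^ 2 = 4 * m * k) (hm : m ≠ 0) (hk : k ≠ 0)
    (hp : ∃ x y z : ℤ, x * m + y * b + z * k = 1) :
    cl (Oc n c) (idl n c k (-b)) = cl (Oc n c) (idl n c m b) := by
  have hm' : (m : ℂ) ≠ 0 := Int.cast_ne_zero.2 hm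
  have e : be n c (-b) * be n c b = -k * m := by
    rw [cmb_neg]
    linear_combination cmb_sq h
  have h1 : be n c (-b) ≠ 0 :=
    left_ne_zero_of_mul (e ▸ mul_ne_zero (neg_ne_zero.2 (Int.cast_ne_zero.2 hk)) hm')
  rw [← cl_sc (isIv_idl hn h hm hp) (div_ne_zero h1 hm'), idl, idl, sc_sp2,
    div_mul_cancel₀ _ hm', div_mul_eq_mul_div, e, mul_div_cancel_right₀ _ hm', cmb_sp2_neg,
    cmb_comm]

theorem cmb_red (h : Ok n c) (N : ℕ) : ∀ m b k : ℤ, m.toNat = N → 0 < m →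
    b ^ 2 + n * c ^ 2 = 4 * m * k → (∃ x y z : ℤ, x * m + y * b + z * k = 1) →
    ∃ m' ∈ Set.Icc (0 : ℤ) (n * c ^ 2), ∃ b' ∈ Set.Icc (-(n * c ^ 2) : ℤ) (n * c ^ 2),
      cl (Oc n c) (idl n c m' b') = cl (Oc n c) (idl n c m b) := by
  induction N using Nat.strong_induction_on with
  | _ N ih =>
    rintro m b k rfl hm e ⟨x, y, z, hp⟩
    obtain ⟨t, t1, t2⟩ : ∃ t, -m ≤ b + 2 * m * t ∧ b + 2 * m * t ≤ m := by
      have h1 := Int.emod_nonneg (b + m) (show 2 * m ≠ 0 by omega)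
      have h2 := Int.emod_lt_of_pos (b + m) (show 0 < 2 * m by omega)
      have h3 := Int.emod_add_mul_ediv (b + m) (2 * m)
      exact ⟨-((b + m) / (2 * m)), by linarith, by linarith⟩
    rw [← cmb_shift n c m b t]
    have e' : (b + 2 * m * t) ^ 2 + n * c ^ 2 = 4 * m * (k + b * t + m * t ^ 2) := by
      linear_combination e
    have hp' : (x - 2 * t * y + z * t ^ 2) * m + (y - z * t) * (b + 2 * m * t) +
        z * (k + b * t + m * t ^ 2) = 1 := by linear_combination hp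
    generalize b + 2 * m * t = b' at *
    generalize k + b * t + m * t ^ 2 = k' at *
    by_cases hk : m ≤ k'
    · have h1 : m ≤ n * c ^ 2 := by nlinarith
      exact ⟨m, ⟨hm.le, h1⟩, b', ⟨by linarith, by linarith⟩, rfl⟩
    · have h1 : (0 : ℤ) < n * c ^ 2 := by
        have h2 := h.gt
        have h3 := Nat.pos_of_ne_zero h.ne
        positivity
      have h2 : 0 < k' := by nlinarith
      rw [← cmb_swap h.m4 e' hm.ne' h2.ne' ⟨_, _, _, hp'⟩]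
      exact ih k'.toNat (by omega) k' (-b') m rfl h2 (by linear_combination e')
        ⟨z, -(y - z * t), x - 2 * t * y + z * t ^ 2, by linear_combination hp'⟩

/-- The class number is finite. -/
theorem finite_Pc (hn : n % 4 = 3) (h3 : 3 < n) (c : ℕ) : Finite (Pc n c) := by
  rcases eq_or_ne c 0 with rfl | hc
  · have := subsingleton_Pc_zero n
    infer_instance
  have h : Ok n c := ⟨hn, h3, hc⟩
  refine Set.finite_univ_iff.1 ((((Set.finite_Icc (0 : ℤ) (n * c ^ 2)).prod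
    (Set.finite_Icc (-(n * c ^ 2) : ℤ) (n * c ^ 2))).image
      fun p => cl (Oc n c) (idl n c p.1 p.2)).subset fun x _ => ?_)
  obtain ⟨I, hI, rfl⟩ := cl_surj x
  obtain ⟨a, m, b, k, h1, h2, h4, h5, rfl⟩ := hI.exists_idl h
  obtain ⟨m', hm', b', hb', e⟩ := cmb_red h _ m b k rfl h2 h4 h5
  exact ⟨(m', b'), ⟨hm', hb'⟩, e.trans (cl_sc (isIv_idl hn h4 h2.ne' h5) h1).symm⟩

end Pool.Agent.Lib.MP_696deb_nt.B2.CM
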