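import Pool.Agent.Lib.MP_696deb_nt.B2.CM1
import Pool.Agent.Lib.MP_696deb_nt.B2.CMb
import Pool.Agent.Lib.MP_f8d36e_nt.CMLat

/-! Conjugate lattices and their invariants. -/

set_option autoImplicit false

open scoped Classical

namespace Pool.Agent.Lib.MP_696deb_nt.B2.CM

variable {n c : ℕ} {I I' I'' J J' : Lt} {σ : ℂ ≃+* ℂ} {a τ z : ℂ}

theorem dl_eq (n : ℕ) : dl n = Gal.del (-n) := by
  simp [dl, Gal.del]

theorem del_eq (n c : ℕ) : Gal.del (-(n * c ^ 2)) = c * dl n := by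
  have h : √(-((-(n * c ^ 2) : ℤ) : ℝ)) = c * √(n : ℝ) := by
    push_cast
    rw [neg_neg, Real.sqrt_mul' _ (sq_nonneg _), Real.sqrt_sq (Nat.cast_nonneg _), mul_comm]
  rw [Gal.del, h, dl]
  push_cast
  ring

theorem alp_eq (n c : ℕ) (b : ℤ) : Gal.alp (-(n * c ^ 2)) b = be n c b := by
  rw [Gal.alp, del_eq, be]

theorem exists_cjS (σ : ℂ ≃+* ℂ) (h : IsLat I) : ∃ I', CjS σ I I' := by
  obtain ⟨L, rfl⟩ := h
  obtain ⟨L', h⟩ := Gal.exists_cj σ L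
  exact ⟨_, L, L', rfl, rfl, h⟩

theorem CjS.left (h : CjS σ I I') : IsLat I := by
  obtain ⟨L, -, e, -⟩ := h
  exact ⟨L, e⟩

theorem CjS.right (h : CjS σ I I') : IsLat I' := by
  obtain ⟨-, L, -, e, -⟩ := h
  exact ⟨L, e⟩

theorem CjS.cj (h : CjS σ I I') {L L' : PeriodPair} (e : L.lattice = I) (e' : L'.lattice = I') :
    Gal.Cj σ L L' := by
  obtain ⟨M, M', rfl, rfl, h⟩ := h
  exact h.of_sc (Gal.sc_one e.symm) (by simpa using Gal.sc_one e'.symm)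

theorem CjS.symm (h : CjS σ I I') : CjS σ.symm I' I := by
  obtain ⟨M, M', e, e', h⟩ := h
  exact ⟨M', M, e', e, h.symm⟩

theorem CjS.unique (h : CjS σ I I') (h' : CjS σ I I'') : I' = I'' := by
  obtain ⟨M, M', rfl, rfl, h⟩ := h
  obtain ⟨N, rfl⟩ := h'.right
  exact h.unique (h'.cj rfl rfl)

theorem CjS.mul_mem (h : CjS σ I I') (h' : CjS σ J J') (k : ∀ z ∈ I, a * z ∈ J) (hz : z ∈ I') :
    σ a * z ∈ J' := by
  obtain ⟨M, M', rfl, rfl, h⟩ := h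
  obtain ⟨N, N', rfl, rfl, h'⟩ := h'
  rcases eq_or_ne a 0 with rfl | ha
  · simp
  · exact h.isog_mem h' ha k hz

theorem cmg_le (h : CjS σ I I') (h' : CjS σ J J') {A : Lt} (k : A * I ≤ J) :
    mp σ A * I' ≤ J' := by
  refine Submodule.mul_le.2 fun x hx z hz => ?_
  obtain ⟨y, hy, rfl⟩ := mem_mp.1 hx
  exact h.mul_mem h' (fun w hw => k (Submodule.mul_mem_mul hy hw)) hz

theorem cmg_ne (h : IsLat I) : I ≠ ⊥ := by
  obtain ⟨τ, a, -, ha, rfl⟩ := h.exists_tau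
  exact (Submodule.ne_bot_iff _).2 ⟨a * 1, (mul_mem_sc ha).2 (right_mem_sp2 _ _), by simpa using ha⟩

/-- Conjugation commutes with multiplication of lattices. -/
theorem CjS.mul (h : CjS σ I I') (A : Lt) (hA : IsLat (A * I)) : CjS σ (A * I) (mp σ A * I') := by
  obtain ⟨M', hM⟩ := exists_cjS σ hA
  obtain ⟨a, ha, h0⟩ := (Submodule.ne_bot_iff A).1 fun e => cmg_ne hA (by
    rw [e, Submodule.bot_mul])
  have h1 : mp σ A * I' ≤ M' := cmg_le h hM le_rfl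
  have h2 : CM.sc (σ a) I' ≤ mp σ A * I' := fun w hw => by
    obtain ⟨y, hy, rfl⟩ := mem_sc.1 hw
    exact Submodule.mul_mem_mul (mem_mp.2 ⟨a, ha, rfl⟩) hy
  obtain ⟨N, hN⟩ := exists_cjS σ.symm
    ((h.right.sc (by simpa using h0)).mid hM.right h2 h1)
  have h3 := cmg_le h.symm hN le_rfl
  rw [mp_symm_mp] at h3
  obtain rfl : A * I = N := le_antisymm h3 fun w hw => by
    simpa using hN.mul_mem hM.symm (a := 1) (fun v hv => by simpa using h1 hv) hw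
  exact hN.symm

theorem cmg_sc {L M : PeriodPair} (h : Gal.Sc a L M) : M.lattice = sc a L.lattice := by
  ext w
  refine ⟨fun hw => mem_sc.2 ⟨a⁻¹ * w, (h.mem _).1 ?_, mul_inv_cancel_left₀ h.ne w⟩, fun hw => ?_⟩
  · rwa [mul_inv_cancel_left₀ h.ne]
  · obtain ⟨y, hy, rfl⟩ := mem_sc.1 hw
    exact (h.mem y).2 hy

theorem CjS.sc (h : CjS σ I I') (ha : a ≠ 0) : CjS σ (sc a I) (sc (σ a) I') := by
  obtain ⟨M, M', rfl, rfl, h⟩ := h
  have h1 := Gal.sc_scale M ha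
  have h2 := Gal.sc_scale M' (c := σ a) (by simpa using ha)
  exact ⟨_, _, cmg_sc h1, cmg_sc h2, h.of_sc h1 h2⟩

theorem CjS.isIv (h : CjS σ I I') (ok : Ok n c) (hσ : σ (dl n) = dl n ∨ σ (dl n) = -dl n)
    (k : IsIv (Oc n c) I) : IsIv (Oc n c) I' := by
  have e := mp_Oc (c := c) ok.m4 hσ
  refine isIv_of_mult ok h.right fun a => ⟨fun ha => ?_, fun ha w hw => ?_⟩
  · rw [← mem_ot, ← e]
    exact mem_mp.2 ⟨σ.symm a, k.mem_of_mul fun w hw => h.symm.mul_mem h.symm ha hw, by simp⟩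
  · rw [← mem_ot, ← e] at ha
    obtain ⟨y, hy, rfl⟩ := mem_mp.1 ha
    exact h.mul_mem h (fun v hv => k.mul_mem hy hv) hw

theorem cjS_conj (h : IsLat I) : CjS starRingAut I (mp starRingAut I) := by
  obtain ⟨L, rfl⟩ := h
  exact ⟨L, Gal.cjL L, rfl, (mp_sp2 starRingAut L.ω₁ L.ω₂).symm, (Gal.rel_conj L 0).1⟩

theorem jL_lattice (L : PeriodPair) : jL L.lattice = jPer L := by
  have h : IsLat L.lattice := ⟨L, rfl⟩
  have k := Gal.sc_one h.choose_spec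
  rw [jL, dif_pos h, jPer, jPer, k.g₂, k.g₃]
  simp

theorem CjS.jL (h : CjS σ I I') : jL I' = σ (jL I) := by
  obtain ⟨L, L', rfl, rfl, h⟩ := h
  rw [jL_lattice, jL_lattice, jPer, jPer, h.h2, h.h3]
  simp [map_ofNat]

theorem jL_sc (h : IsLat I) (ha : a ≠ 0) : jL (sc a I) = jL I := by
  obtain ⟨L, rfl⟩ := h
  have k := Gal.sc_scale L ha
  rw [← cmg_sc k, jL_lattice, jL_lattice, jPer, jPer, k.g₂, k.g₃,
    ← mul_div_mul_left (1728 * L.g₂ ^ 3) _ (pow_ne_zero 12 (inv_ne_zero ha))]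
  exact congrArg₂ _ (by ring) (by ring)

theorem jL_tau (hτ : 0 < τ.im) : jL (sp2 τ 1) = jf τ := by
  have e : (Unif.pairOf ⟨τ, hτ⟩ one_ne_zero).lattice = sp2 τ 1 := by
    change sp2 (1 * τ) 1 = _
    rw [one_mul]
  rw [← e, jL_lattice, jPer, div_eq_iff (Shared.Weier.disc_ne_zero _)]
  exact MP_f8d36e_nt.cmlat_j ⟨τ, hτ⟩ one_ne_zero

theorem sp2_act {g : MZ} (hg : g.det ≠ 0) (hτ : 0 < τ.im) :
    sc (den g τ) (sp2 (act g τ) 1) = sp2 (g 0 0 * τ + g 0 1) (g 1 0 * τ + g 1 1) := by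
  have h := den_ne' hg hτ
  rw [den] at h
  rw [sc_sp2, mul_one, act, mob, den, mul_div_cancel₀ _ h]

theorem jL_inj (h : IsLat I) (h' : IsLat J) (e : jL I = jL J) : ∃ a : ℂ, a ≠ 0 ∧ J = sc a I := by
  obtain ⟨L, rfl⟩ := h
  obtain ⟨M, rfl⟩ := h'
  have dL := Shared.Weier.disc_ne_zero L
  have dM := Shared.Weier.disc_ne_zero M
  rw [jL_lattice, jL_lattice, jPer, jPer, div_eq_div_iff dL dM] at e
  obtain ⟨c, hc, h2, h3⟩ := exists_scale (x := 3 * M.g₂) (y := 27 * M.g₃) (a := 3 * L.g₂)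
    (b := 27 * L.g₃) (div_ne_zero dM dL)
    (by rw [div_mul_eq_mul_div, eq_div_iff dL]; linear_combination (-1 / 64 : ℂ) * e)
    (by rw [div_mul_eq_mul_div, eq_div_iff dL]; linear_combination (-1 / 64 : ℂ) * e)
    fun h => dL (by linear_combination (1 / 27 : ℂ) * h)
  have k := Gal.sc_scale L (inv_ne_zero hc)
  refine ⟨c⁻¹, inv_ne_zero hc, (Gal.lattice_eq_of_g ?_ ?_).trans (cmg_sc k)⟩
  · rw [k.g₂, inv_inv]
    linear_combination (1 / 3 : ℂ) * h2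
  · rw [k.g₃, inv_inv]
    linear_combination (1 / 27 : ℂ) * h3

theorem jP_cl (ok : Ok n c) (h : IsIv (Oc n c) I) : jP n c (cl _ I) = jL I := by
  obtain ⟨h1, h2⟩ := (cl_surj (cl (Oc n c) I)).choose_spec
  obtain ⟨a, ha, e⟩ := (cl_eq_iff h h1).1 h2.symm
  rw [jP, e, jL_sc (h.isLat ok) ha]

theorem jP_inj (ok : Ok n c) : Function.Injective (jP n c) := by
  intro x y e
  obtain ⟨I, hI, rfl⟩ := cl_surj x
  obtain ⟨J, hJ, rfl⟩ := cl_surj y
  rw [jP_cl ok hI, jP_cl ok hJ] at e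
  exact (cl_eq_iff hI hJ).2 (jL_inj (hI.isLat ok) (hJ.isLat ok) e)

theorem isCM_tau (ok : Ok n c) (hτ : 0 < τ.im) (ha : a ≠ 0) (h : IsIv (Oc n c) (sc a (sp2 τ 1))) :
    IsCM (-(n * c ^ 2)) τ := by
  have h1 := h.sc (inv_ne_zero ha)
  rw [sc_inv_sc ha] at h1
  have hw : be n c c ∈ Oc n c := be_mem ok.m4 (by simp)
  obtain ⟨p, q, e1⟩ := mem_sp2.1 (h1.mul_mem hw (left_mem_sp2 _ _))
  obtain ⟨r, s, e2⟩ := mem_sp2.1 (h1.mul_mem hw (right_mem_sp2 _ _))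
  obtain ⟨k, hk⟩ : ∃ k : ℤ, (n : ℤ) + 1 = 4 * k := ⟨(n + 1) / 4, by have := ok.m4; omega⟩
  have e3 := be_sq (n := n) (c := c) (b := c) (N := c ^ 2 * k) (by linear_combination c ^ 2 * hk)
  have hn : 0 < n := by have := ok.gt; omega
  obtain ⟨e4, e5⟩ := be_indep (b := c) hn ok.ne (x := p * s - r * q - c ^ 2 * k) (y := c - p - s)
    (by
      push_cast at e3 ⊢
      linear_combination r * e1 + (be n c c - p) * e2 - e3)
  have e6 : (s - p) ^ 2 - 4 * r * -q = -(n * c ^ 2) := by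
    linear_combination -4 * e4 - (c + p + s) * e5 + c ^ 2 * hk
  have e7 : (0 : ℤ) < n * c ^ 2 := by have := ok.ne; positivity
  rw [← e6]
  exact isCM_of_form hτ (by omega) (by push_cast; linear_combination e1 - τ * e2)

theorem val_jP {Γ : Type*} [LinearOrderedCommGroupWithZero Γ] (V : Valuation ℂ Γ) (ok : Ok n c)
    (x : Pc n c) : V (jP n c x) ≤ 1 := by
  obtain ⟨I, hI, rfl⟩ := cl_surj x
  obtain ⟨τ, a, hτ, ha, rfl⟩ := (hI.isLat ok).exists_tau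
  rw [jP_cl ok hI, jL_sc (isLat_sp2 hτ.ne') ha, jL_tau hτ]
  exact (isCM_tau ok hτ ha hI).val_jf V

theorem alg_jP (ok : Ok n c) (x : Pc n c) : IsAlgebraic ℚ (jP n c x) := by
  exact ((MP_f8d36e_nt.cmlat_int fun V => val_jP V.valuation ok x).tower_top (A := ℚ)).isAlgebraic

end Pool.Agent.Lib.MP_696deb_nt.B2.CM
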