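import Pool.Agent.Lib.MP_696deb_nt.B2.CM0

/-! Lattices and quadratic orders. -/

set_option autoImplicit false

open scoped Classical

namespace Pool.Agent.Lib.MP_696deb_nt.B2.CM

variable {n c : ℕ} {I J L M : Lt} {a τ z : ℂ} {b : ℤ}

theorem dl_sq (n : ℕ) : dl n ^ 2 = -n := by
  rw [dl, mul_pow, Complex.I_sq, ← Complex.ofReal_pow, Real.sq_sqrt (Nat.cast_nonneg n)]
  simp

theorem dl_im (hn : 0 < n) : 0 < (dl n).im := by
  simpa [dl] using hn

theorem conj_dl (n : ℕ) : starRingEnd ℂ (dl n) = -dl n := by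
  simp [dl]

theorem dl_indep (hn : 0 < n) {x y : ℚ} (h : (x : ℂ) + y * dl n = 0) : x = 0 ∧ y = 0 := by
  have h1 : y = 0 := by simpa [(dl_im hn).ne'] using congrArg Complex.im h
  exact ⟨by simpa [h1] using h, h1⟩

theorem be_sq {N : ℤ} (h : b ^ 2 + n * c ^ 2 = 4 * N) : be n c b ^ 2 = b * be n c b - N := by
  have h1 : (b : ℂ) ^ 2 + n * c ^ 2 = 4 * N := by exact_mod_cast h
  rw [be]
  linear_combination (c : ℂ) ^ 2 / 4 * dl_sq n - h1 / 4

theorem be_sub (n c : ℕ) (b : ℤ) : be n c b - be n c (-b) = b := by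
  simp only [be]
  push_cast
  ring

theorem be_mul (n c l : ℕ) (b : ℤ) : be n (c * l) (b * l) = l * be n c b := by
  simp only [be]
  push_cast
  ring

theorem cma_im (hn : 0 < n) (hc : c ≠ 0) : (be n c b).im ≠ 0 := by
  simpa [be, hc] using (dl_im hn).ne'

theorem be_indep (hn : 0 < n) (hc : c ≠ 0) {x y : ℤ} (h : (x : ℂ) + y * be n c b = 0) :
    x = 0 ∧ y = 0 := by
  have h1 : y = 0 := by simpa [cma_im hn hc] using congrArg Complex.im h
  exact ⟨by simpa [h1] using h, h1⟩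

theorem two_dvd_sub (hn : n % 4 = 3) {N : ℤ} (h : b ^ 2 + n * c ^ 2 = 4 * N) : 2 ∣ b - c := by
  obtain ⟨m, rfl⟩ : ∃ m, n = 4 * m + 3 := ⟨n / 4, by omega⟩
  have h1 : (2 : ℤ) ∣ (b - c) ^ 2 := ⟨2 * N - (2 * m + 1) * c ^ 2 - b * c, by
    push_cast at h
    linear_combination h⟩
  exact Int.prime_two.dvd_of_dvd_pow h1

theorem cma_four (hn : n % 4 = 3) : 4 * (((n : ℤ) + 1) / 4) = n + 1 := by omega

theorem el_mul_el (hn : n % 4 = 3) (x y : ℤ) : el n x y * el n (x + y) (-y) = nrm n x y := by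
  have h := be_sq (n := n) (c := 1) (b := 1) (N := (n + 1) / 4)
    (by rw [cma_four hn]; push_cast; ring)
  simp only [el, nrm, Int.cast_add, Int.cast_mul, Int.cast_pow, Int.cast_neg]
  rw [Int.cast_one] at h
  linear_combination -(y : ℂ) ^ 2 * h

theorem four_nrm (hn : n % 4 = 3) (x y : ℤ) : 4 * nrm n x y = (2 * x + y) ^ 2 + n * y ^ 2 := by
  rw [nrm]
  linear_combination y ^ 2 * cma_four hn

theorem tau_indep (h : τ.im ≠ 0) {x y : ℤ} (e : x * τ + y = 0) : x = 0 ∧ y = 0 := by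
  have h1 : x = 0 := by simpa [h] using congrArg Complex.im e
  exact ⟨h1, by simpa [h1] using e⟩

theorem isLat_sp2 (h : τ.im ≠ 0) : IsLat (sp2 τ 1) := by
  refine ⟨⟨τ, 1, LinearIndependent.pair_iff.2 fun s t e => ?_⟩, rfl⟩
  have h1 : s = 0 := by simpa [h] using congrArg Complex.im e
  exact ⟨h1, by simpa [h1] using e⟩

theorem IsLat.sc (h : IsLat I) (ha : a ≠ 0) : IsLat (sc a I) := by
  obtain ⟨L, rfl⟩ := h
  refine ⟨⟨a * L.ω₁, a * L.ω₂, LinearIndependent.pair_iff.2 fun s t e =>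
    LinearIndependent.pair_iff.1 L.indep s t (mul_left_cancel₀ ha ?_)⟩, (sc_sp2 a _ _).symm⟩
  rw [mul_add, mul_smul_comm, mul_smul_comm, e, mul_zero]

theorem IsLat.exists_tau (h : IsLat I) : ∃ τ a : ℂ, 0 < τ.im ∧ a ≠ 0 ∧ I = CM.sc a (sp2 τ 1) := by
  obtain ⟨L, rfl⟩ := h
  have hi := LinearIndependent.pair_iff.1 L.indep
  have h2 : L.ω₂ ≠ 0 := fun h => by simpa using (hi 0 1 (by simp [h])).2
  have h1 : (L.ω₁ / L.ω₂).im ≠ 0 := fun h => by
    have h3 : L.ω₁ / L.ω₂ = ((L.ω₁ / L.ω₂).re : ℂ) := Complex.ext (by simp) (by simp [h])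
    have h4 := (hi 1 (-(L.ω₁ / L.ω₂).re) (by
      simp only [Complex.real_smul, Complex.ofReal_neg, ← h3]
      field_simp
      simp)).1
    simp at h4
  rcases h1.lt_or_gt with h | h
  · refine ⟨-(L.ω₁ / L.ω₂), L.ω₂, by simpa using h, h2, ?_⟩
    rw [sc_sp2, mul_neg, mul_div_cancel₀ _ h2, mul_one]
    exact le_antisymm (sp2_le.2 ⟨by simpa using neg_mem (left_mem_sp2 (-L.ω₁) L.ω₂),
      right_mem_sp2 _ _⟩) (sp2_le.2 ⟨neg_mem L.ω₁_mem_lattice, L.ω₂_mem_lattice⟩)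
  · exact ⟨L.ω₁ / L.ω₂, L.ω₂, h, h2, by rw [sc_sp2, mul_div_cancel₀ _ h2, mul_one]; rfl⟩

/-- A group between two lattices is a lattice. -/
theorem IsLat.mid (hL : IsLat L) (hM : IsLat M) (h1 : L ≤ I) (h2 : I ≤ M) : IsLat I := by
  obtain ⟨L, rfl⟩ := hL
  obtain ⟨M, rfl⟩ := hM
  have : DiscreteTopology I :=
    DiscreteTopology.of_subset (inferInstanceAs (DiscreteTopology M.lattice)) h2
  have : IsZLattice ℝ I := ⟨top_le_iff.1 ((IsZLattice.span_top (K := ℝ) (L := L.lattice)).ge.trans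
    (Submodule.span_mono h1))⟩
  have := ZLattice.module_finite ℝ I
  have := ZLattice.module_free ℝ I
  let b := Module.finBasisOfFinrankEq ℤ I (n := 2)
    (by rw [ZLattice.rank ℝ I, Complex.finrank_real_complex])
  have e : ![b.ofZLatticeBasis ℝ I 0, b.ofZLatticeBasis ℝ I 1] = b.ofZLatticeBasis ℝ I := by
    funext i
    fin_cases i <;> rfl
  refine ⟨⟨_, _, e ▸ (b.ofZLatticeBasis ℝ I).linearIndependent⟩, ?_⟩
  refine Eq.trans ?_ (b.ofZLatticeBasis_span ℝ I)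
  rw [← congrArg Set.range e, PeriodPair.lattice]
  simp [Set.pair_comm]

theorem cma_cc (n c : ℕ) : c * be n 1 1 = be n c c := by
  simpa using (be_mul n 1 c 1).symm

theorem cma_ot (hn : n % 4 = 3) : ot (Oc n c) = sp2 1 (be n c c) := by
  have h := be_sq (n := n) (c := c) (b := c) (N := (n + 1) / 4 * c ^ 2)
    (by rw [← mul_assoc, cma_four hn]; ring)
  have h1 : sp2 1 (be n c c) * sp2 1 (be n c c) ≤ sp2 1 (be n c c) := sp2_mul_le.2
    ⟨by simpa using left_mem_sp2 _ _, by simpa using right_mem_sp2 _ _,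
      by simpa using right_mem_sp2 _ _,
      mem_sp2.2 ⟨-((n + 1) / 4 * c ^ 2), c, by rw [← sq, h, Int.cast_neg]; ring⟩⟩
  rw [Oc, cma_cc]
  refine le_antisymm (fun z hz => ?_)
    (sp2_le.2 ⟨one_mem (Algebra.adjoin ℤ _), Algebra.self_mem_adjoin_singleton ℤ _⟩)
  exact Algebra.adjoin_le (S := (sp2 1 (be n c c)).toSubalgebra (left_mem_sp2 _ _)
    fun _ _ hx hy => h1 (Submodule.mul_mem_mul hx hy))
    (Set.singleton_subset_iff.2 (right_mem_sp2 _ _)) hz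

theorem ot_Oc (hn : n % 4 = 3) (hb : 2 ∣ b - c) : ot (Oc n c) = sp2 1 (be n c b) := by
  obtain ⟨t, ht⟩ := hb
  have e : be n c b = t * 1 + be n c c := by
    rw [be, be, eq_add_of_sub_eq ht]
    push_cast
    ring
  rw [cma_ot hn]
  exact le_antisymm (sp2_le.2 ⟨left_mem_sp2 _ _, mem_sp2.2 ⟨-t, 1, by rw [e]; push_cast; ring⟩⟩)
    (sp2_le.2 ⟨left_mem_sp2 _ _, mem_sp2.2 ⟨t, 1, by rw [e]; push_cast; ring⟩⟩)

theorem be_mem (hn : n % 4 = 3) (hb : 2 ∣ b - c) : be n c b ∈ Oc n c := by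
  rw [← mem_ot, ot_Oc hn hb]
  exact right_mem_sp2 _ _

theorem mem_Oc (hn : n % 4 = 3) : z ∈ Oc n c ↔ ∃ x y : ℤ, (c : ℤ) ∣ y ∧ z = el n x y := by
  rw [← mem_ot, cma_ot hn, mem_sp2, ← cma_cc]
  constructor
  · rintro ⟨x, y, rfl⟩
    exact ⟨x, c * y, dvd_mul_right _ _, by rw [el]; push_cast; ring⟩
  · rintro ⟨x, _, ⟨y, rfl⟩, rfl⟩
    exact ⟨x, y, by rw [el]; push_cast; ring⟩

theorem el_inj (hn : 0 < n) {x y x' y' : ℤ} (h : el n x y = el n x' y') : x = x' ∧ y = y' := by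
  have h1 := be_indep (b := 1) hn one_ne_zero (x := x - x') (y := y - y') (by
    rw [el, el] at h
    push_cast
    linear_combination h)
  exact ⟨sub_eq_zero.1 h1.1, sub_eq_zero.1 h1.2⟩

theorem isLat_Oc (h : Ok n c) : IsLat (ot (Oc n c)) := by
  rw [cma_ot h.m4, sp2, Set.pair_comm]
  exact isLat_sp2 (cma_im (by have := h.gt; omega) h.ne)

theorem IsIv.isLat (h : Ok n c) (k : IsIv (Oc n c) I) : IsLat I := by
  obtain ⟨J, hJ, e⟩ := k.exists_inv
  obtain ⟨x, hx, x0⟩ := k.exists_ne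
  obtain ⟨y, hy, y0⟩ := hJ.exists_ne
  refine ((isLat_Oc h).sc x0).mid ((isLat_Oc h).sc (inv_ne_zero y0)) (fun z hz => ?_)
    fun z hz => mem_sc.2 ⟨z * y, e ▸ Submodule.mul_mem_mul hz hy, by field_simp⟩
  obtain ⟨u, hu, rfl⟩ := mem_sc.1 hz
  rw [mul_comm]
  exact k.mul_mem hu hx

theorem cma_conj (n : ℕ) (x y : ℤ) : starRingEnd ℂ (el n x y) = el n (x + y) (-y) := by
  simp only [el, be, map_add, map_mul, map_div₀, map_intCast, map_natCast, map_ofNat, conj_dl]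
  push_cast
  ring

theorem unit_Oc (h : Ok n c) (k : sc a (ot (Oc n c)) = ot (Oc n c)) : a = 1 ∨ a = -1 := by
  have h1 : a ∈ ot (Oc n c) := k ▸ mem_sc.2 ⟨1, one_mem (Oc n c), mul_one a⟩
  obtain ⟨a', h2, e⟩ := mem_sc.1 (k.ge (one_mem (Oc n c)))
  obtain ⟨x, y, -, rfl⟩ := (mem_Oc h.m4).1 h1
  obtain ⟨x', y', -, rfl⟩ := (mem_Oc h.m4).1 h2
  have h3 : nrm n x y * nrm n x' y' = 1 := by
    have h4 := congrArg (starRingEnd ℂ) e
    rw [map_mul, cma_conj, cma_conj, map_one] at h4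
    refine Int.cast_injective (α := ℂ) ?_
    rw [Int.cast_mul, ← el_mul_el h.m4, ← el_mul_el h.m4, mul_mul_mul_comm, e, h4, mul_one,
      Int.cast_one]
  have h4 := four_nrm h.m4 x y
  have h5 : (7 : ℤ) ≤ n := by
    have := h.m4
    have := h.gt
    omega
  have h6 : nrm n x y ≤ 1 := by rcases Int.eq_one_or_neg_one_of_mul_eq_one h3 with e | e <;> omega
  have h7 : y = 0 := by
    by_contra h0
    have := (one_le_sq_iff_one_le_abs y).2 (Int.one_le_abs h0)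
    nlinarith [sq_nonneg (2 * x + y)]
  subst h7
  have h8 : x * (x * nrm n x' y') = 1 := by
    rw [← h3, nrm, nrm]
    ring
  rcases Int.eq_one_or_neg_one_of_mul_eq_one h8 with e | e <;> simp [el, e]

theorem IsIv.unit (h : Ok n c) (k : IsIv (Oc n c) I) (e : CM.sc a I = I) : a = 1 ∨ a = -1 := by
  obtain ⟨-, J, k⟩ := k
  exact unit_Oc h (by rw [← k, ← sc_mul, e])

end Pool.Agent.Lib.MP_696deb_nt.B2.CM
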