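import Pool.Agent.Lib.MP_696deb_nt.B2.D0

/-! Finite Galois modules, Selmer groups with rigidifications, and the statements of local duality
and of the formula of Greenberg and Wiles. -/

set_option autoImplicit false

open scoped NNReal Classical
open Finset

namespace Pool.Agent.Lib.MP_696deb_nt.B2

section

variable {M M' : Type} [AddCommGroup M] [AddCommGroup M']

/-- An action of `H` through a finite two-group. -/
structure Act (H : Subgroup Gam) (a : Gam → M →+ M) : Prop where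
  sm : Sm H a
  one : ∀ x, a 1 x = x
  mul : ∀ g ∈ H, ∀ h ∈ H, ∀ x, a (g * h) x = a g (a h x)
  two : ∀ g ∈ H, ∃ n : ℕ, ∀ x, a (g ^ 2 ^ n) x = x

/-- Smooth one-cocycles on `H`. -/
def Coc (H : Subgroup Gam) (a : Gam → M →+ M) (c : Gam → M) : Prop :=
  Sm H c ∧ ∀ g ∈ H, ∀ h ∈ H, c (g * h) = c g + a g (c h)

theorem Coc.zero (H : Subgroup Gam) (a : Gam → M →+ M) : Coc H a 0 :=
  ⟨⟨⊤, isOpen_univ, inferInstance, fun _ _ _ _ _ => rfl⟩, by simp⟩

theorem Coc.add {H : Subgroup Gam} {a : Gam → M →+ M} {c c' : Gam → M} (h : Coc H a c)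
    (h' : Coc H a c') : Coc H a (c + c') := by
  obtain ⟨⟨U, u1, u2, u3⟩, h⟩ := h
  obtain ⟨⟨V, v1, v2, v3⟩, h'⟩ := h'
  refine ⟨⟨U ⊓ V, u1.inter v1, inferInstance, fun g hg k hk e => ?_⟩, fun g hg k hk => ?_⟩
  · rw [Pi.add_apply, Pi.add_apply, u3 g hg k hk e.1, v3 g hg k hk e.2]
  · simp only [Pi.add_apply, h g hg k hk, h' g hg k hk, map_add]
    abel

theorem Coc.neg {H : Subgroup Gam} {a : Gam → M →+ M} {c : Gam → M} (h : Coc H a c) :
    Coc H a (-c) := by
  obtain ⟨⟨U, u1, u2, u3⟩, h⟩ := h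
  refine ⟨⟨U, u1, u2, fun g hg k hk e => ?_⟩, fun g hg k hk => ?_⟩
  · rw [Pi.neg_apply, Pi.neg_apply, u3 g hg k hk e]
  · simp only [Pi.neg_apply, h g hg k hk, map_neg]
    abel

/-- The group of cocycles, normalised to vanish outside of `H`. -/
def Z1 (H : Subgroup Gam) (a : Gam → M →+ M) : AddSubgroup (Gam → M) where
  carrier := {c | Coc H a c ∧ ∀ g ∉ H, c g = 0}
  zero_mem' := ⟨Coc.zero H a, fun _ _ => rfl⟩
  add_mem' := fun h h' => ⟨h.1.add h'.1, fun g hg => by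
    rw [Pi.add_apply, h.2 g hg, h'.2 g hg, add_zero]⟩
  neg_mem' := fun h => ⟨h.1.neg, fun g hg => by rw [Pi.neg_apply, h.2 g hg, neg_zero]⟩

/-- Restriction to `D`, extended by zero. -/
noncomputable def rs (D : Subgroup Gam) : (Gam → M) →+ (Gam → M) where
  toFun c g := if g ∈ D then c g else 0
  map_zero' := funext fun g => by simp
  map_add' c c' := funext fun g => by
    by_cases h : g ∈ D <;> simp [h]

theorem rs_of_mem {D : Subgroup Gam} {g : Gam} (h : g ∈ D) (c : Gam → M) : rs D c g = c g :=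
  if_pos h

theorem rs_of_notMem {D : Subgroup Gam} {g : Gam} (h : g ∉ D) (c : Gam → M) : rs D c g = 0 :=
  if_neg h

/-- Coboundaries. -/
def cob (a : Gam → M →+ M) (x : M) (g : Gam) : M := a g x - x

/-- The cup product along a pairing. -/
def cupb {m : ℕ} (b : M →+ M' →+ ZMod (2 ^ m)) (a' : Gam → M' →+ M') (c : Gam → M) (c' : Gam → M')
    (g h : Gam) : ZMod (2 ^ m) := b (c g) (a' g (c' h))

/-- Two modules in duality with values in the roots of unity of order `2 ^ m`. -/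
structure Dual (m : ℕ) (H : Subgroup Gam) (a : Gam → M →+ M) (a' : Gam → M' →+ M')
    (b : M →+ M' →+ ZMod (2 ^ m)) : Prop where
  act : Act H a
  act' : Act H a'
  eqv : ∀ g ∈ H, ∀ x y, b (a g x) (a' g y) = cy m g * b x y
  left : ∀ x, (∀ y, b x y = 0) → x = 0
  right : ∀ y, (∀ x, b x y = 0) → y = 0

/-- Cocycles that are unramified away from `s`, are rigidly trivial at the places in `R`, and
satisfy the local condition `L w` at the places in `T`. -/
def Sel (H : Subgroup Gam) (a : Gam → M →+ M) (s R T : Finset Plc)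
    (L : Plc → AddSubgroup (Gam → M)) : AddSubgroup ((Gam → M) × (Plc → M)) where
  carrier := {z | z.1 ∈ Z1 H a ∧ (∀ w, Away H s w → ∀ σ ∈ H ⊓ Ine w, z.1 σ = 0) ∧
    (∀ w ∈ R, ∀ g ∈ H ⊓ Dec w, z.1 g = cob a (z.2 w) g) ∧ (∀ w ∉ R, z.2 w = 0) ∧
    ∀ w ∈ T, rs (H ⊓ Dec w) z.1 ∈ L w}
  zero_mem' := ⟨zero_mem _, fun _ _ _ _ => rfl, fun _ _ _ _ => by simp [cob], fun _ _ => rfl,
    fun w _ => by simp⟩
  add_mem' := fun h h' => ⟨add_mem h.1 h'.1,
    fun w hw σ hσ => by simp [h.2.1 w hw σ hσ, h'.2.1 w hw σ hσ],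
    fun w hw g hg => by
      simp only [Prod.fst_add, Prod.snd_add, Pi.add_apply, h.2.2.1 w hw g hg, h'.2.2.1 w hw g hg,
        cob, map_add]
      abel,
    fun w hw => by simp [h.2.2.2.1 w hw, h'.2.2.2.1 w hw],
    fun w hw => by simpa using add_mem (h.2.2.2.2 w hw) (h'.2.2.2.2 w hw)⟩
  neg_mem' := fun h => ⟨neg_mem h.1, fun w hw σ hσ => by simp [h.2.1 w hw σ hσ],
    fun w hw g hg => by
      simp only [Prod.fst_neg, Prod.snd_neg, Pi.neg_apply, h.2.2.1 w hw g hg, cob, map_neg]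
      abel,
    fun w hw => by simp [h.2.2.2.1 w hw], fun w hw => by simpa using neg_mem (h.2.2.2.2 w hw)⟩

/-- The local degree at places above two. -/
noncomputable def ldeg (H : Subgroup Gam) (w : Plc) : ℕ :=
  if w.p = 2 then (H ⊓ Dec w).relIndex (Dec w) else 0

/-- A local condition: a group of local cocycles that contains the coboundaries. -/
def LocC (H : Subgroup Gam) (w : Plc) (a : Gam → M →+ M) (L : AddSubgroup (Gam → M)) : Prop :=
  L ≤ Z1 (H ⊓ Dec w) a ∧ ∀ x, rs (H ⊓ Dec w) (cob a x) ∈ L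

/-- The local cocycles that are orthogonal to `L`. -/
def Perp (F : CFT) (m : ℕ) (H : Subgroup Gam) (w : Plc) (a' : Gam → M' →+ M')
    (b : M →+ M' →+ ZMod (2 ^ m)) (L : AddSubgroup (Gam → M)) : Set (Gam → M') :=
  {c' | c' ∈ Z1 (H ⊓ Dec w) a' ∧ ∀ c ∈ L, F.inv m H w (cupb b a' c c') = 0}

/-- Two local conditions that are orthogonal and as large as possible. -/
structure MaxIso (F : CFT) (m : ℕ) (H : Subgroup Gam) (w : Plc) (a : Gam → M →+ M)
    (a' : Gam → M' →+ M') (b : M →+ M' →+ ZMod (2 ^ m)) (L : AddSubgroup (Gam → M))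
    (L' : AddSubgroup (Gam → M')) : Prop where
  loc : LocC H w a L
  loc' : LocC H w a' L'
  iso : ∀ c ∈ L, ∀ c' ∈ L', F.inv m H w (cupb b a' c c') = 0
  big : Nat.card M ^ (2 + ldeg H w) ≤ Nat.card L * Nat.card L'

end

/-- Local duality. -/
def LDStmt (F : CFT) : Prop := ∀ (m : ℕ) (H : Subgroup Gam) (w : Plc) (M M' : Type)
  [AddCommGroup M] [AddCommGroup M'] [Finite M] [Finite M'] (a : Gam → M →+ M)
  (a' : Gam → M' →+ M') (b : M →+ M' →+ ZMod (2 ^ m)) (L : AddSubgroup (Gam → M)),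
  Op H → Dual m (H ⊓ Dec w) a a' b → LocC H w a L →
  Finite (Z1 (H ⊓ Dec w) a) ∧
    Nat.card L * Nat.card (Perp F m H w a' b L) = Nat.card M ^ (2 + ldeg H w)

/-- The formula of Greenberg and Wiles. -/
def GWStmt (F : CFT) : Prop := ∀ (m : ℕ) (H : Subgroup Gam) (M M' : Type)
  [AddCommGroup M] [AddCommGroup M'] [Finite M] [Finite M'] (a : Gam → M →+ M)
  (a' : Gam → M' →+ M') (b : M →+ M' →+ ZMod (2 ^ m)) (s R X T : Finset Plc)
  (L : Plc → AddSubgroup (Gam → M)) (L' : Plc → AddSubgroup (Gam → M')),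
  Op H → TC H → H.index = 2 → Dual m H a a' b → Apart H s → s = R ∪ X ∪ T → Disjoint R X → Disjoint R T →
  Disjoint X T → (∀ w ∈ R ∪ X, w.p ≠ 2) →
  (∀ w, Away H s w → w.p ≠ 2 ∧ ∀ σ ∈ H ⊓ Ine w, ∀ x, a σ x = x) →
  (∀ w ∈ T, MaxIso F m H w a a' b (L w) (L' w)) →
  Finite (Sel H a s R T L) ∧
    Nat.card (Sel H a s R T L) * Nat.card M ^ (T.card + H.index / 2) =
      Nat.card (Sel H a' s X T L') * ∏ w ∈ T, Nat.card (L w)

end Pool.Agent.Lib.MP_696deb_nt.B2
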