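import Pool.Agent.Lib.MP_696deb_nt.B2.Base
import Pool.Agent.Lib.MP_696deb_nt.B2.D2a

/-! Tame local data and local conditions given by the values at two generators. -/

set_option autoImplicit false

open scoped NNReal Classical

namespace Pool.Agent.Lib.MP_696deb_nt.B2

/-- An odd place that is unramified in the fixed field of `H`, the order `q` of the residue field,
a Frobenius element and a generator of the tame inertia group. -/
structure Tm (H : Subgroup Gam) (w : Plc) (q : ℕ) (φ τ : Gam) : Prop where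
  op : Op H
  odd : w.p ≠ 2
  ine : Ine w ≤ H
  mem : φ ∈ H
  frob : IsFrob w q φ
  deg : q = w.p ^ (H ⊓ Dec w).relIndex (Dec w)
  gen : Gen w τ

theorem tm_split {H : Subgroup Gam} {w : Plc} {φ τ : Gam} (hH : Op H) (hw : w.p ≠ 2)
    (hD : Dec w ≤ H) (hφ : IsFrob w w.p φ) (hτ : Gen w τ) : Tm H w w.p φ τ :=
  ⟨hH, hw, (Ine_le w).trans hD, hD hφ.1, hφ, by
    rw [inf_eq_right.2 hD, Subgroup.relIndex_self, pow_one], hτ⟩

theorem tm_inert {n : ℕ} {w : Plc} {φ τ : Gam} (hw : w.p ≠ 2) (hI : Ine w ≤ GK n)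
    (hφ : IsFrob w w.p φ) (h' : φ ∉ GK n) (hτ : Gen w τ) : Tm (GK n) w (w.p ^ 2) (φ * φ) τ :=
  ⟨op_GK n, hw, hI, mul_mem_GK h' h', by rw [sq]; exact hφ.mul hφ, by
    rw [relIndex_inert hφ.1 h'], hτ⟩

variable {M : Type} [AddCommGroup M]

/-- The values of a cochain at two elements. -/
def ev2 (φ τ : Gam) : (Gam → M) →+ M × M where
  toFun c := (c φ, c τ)
  map_zero' := rfl
  map_add' _ _ := rfl

@[simp] theorem ev2_apply (φ τ : Gam) (c : Gam → M) : ev2 φ τ c = (c φ, c τ) := rfl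

/-- Local cocycles whose values at `φ` and `τ` lie in `N`. -/
def Ldp (D : Subgroup Gam) (a : Gam → M →+ M) (φ τ : Gam) (N : AddSubgroup (M × M)) :
    AddSubgroup (Gam → M) := Z1 D a ⊓ N.comap (ev2 φ τ)

theorem mem_Ldp {D : Subgroup Gam} {a : Gam → M →+ M} {φ τ : Gam} {N : AddSubgroup (M × M)}
    {c : Gam → M} : c ∈ Ldp D a φ τ N ↔ c ∈ Z1 D a ∧ (c φ, c τ) ∈ N := Iff.rfl

end Pool.Agent.Lib.MP_696deb_nt.B2
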