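import Pool.Agent.Lib.MP_696deb_nt.B2.Ctx
import Pool.Agent.Lib.MP_696deb_nt.B2.MU0
import Pool.Agent.Lib.MP_696deb_nt.Redei

/-! The auxiliary twist with small Selmer group: definitions. -/

set_option autoImplicit false

open scoped NNReal Classical
open Finset NumberTheorySymbols

namespace Pool.Agent.Lib.MP_696deb_nt.B2

/-- The pair of characters comes from a point of order dividing two. -/
def TorK (G : Subgroup Gam) (D : ℤ) (α β : Gam → ZMod 2) : Prop :=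
  ∃ u v : ZMod 2, ∀ g ∈ G, α g = u * xi D g ∧ β g = u * xi (-1) g + v * xi (-D) g

/-- The pair of characters comes from a point of order not dividing two. -/
def GenK (G : Subgroup Gam) (D : ℤ) (α β : Gam → ZMod 2) : Prop :=
  ∃ X z : Qbar, Fx G X ∧ Fx G z ∧ z ≠ 0 ∧ z ^ 2 = D * X * (4 * X + 9) * (X - 4) ∧
    Kum 1 G (D * (4 * X + 9)) α ∧ Kum 1 G (D * X) β

/-- The pair of characters comes from a point. -/
def LocK (G : Subgroup Gam) (D : ℤ) (α β : Gam → ZMod 2) : Prop := TorK G D α β ∨ GenK G D α β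

/-- Pairs of characters in the Selmer group of level two. -/
structure SelK (D : ℤ) (α β : Gam → ZMod 2) : Prop where
  sa : Sm ⊤ α
  ha : IsHom ⊤ α
  sb : Sm ⊤ β
  hb : IsHom ⊤ β
  loc : ∀ w : Plc, LocK (Dec w) D α β
  inf : LocK (Subgroup.zpowers cc) D α β

/-- The linear equations for the exponents of a Selmer class. -/
structure SelV {ι : Type} [Fintype ι] (l : ι → ℕ) (x y : ι → ZMod 2) (a c s : ZMod 2) : Prop where
  e1 : ∀ i, a * aleg (l i) (-3) + c * aleg (l i) 5 +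
    ∑ k, aleg (l i) (pstar (l k)) * (x k + x i) = 0
  e2 : ∀ i, (s + x i + y i) * aleg (l i) (-1) + a * aleg (l i) (-3) +
    ∑ k, aleg (l i) (pstar (l k)) * (y k + y i) = 0
  e3 : a + ∑ i, aleg (l i) (-1) * x i =
    (∑ i, aleg (l i) (-1)) * (s + a + ∑ i, aleg (l i) (-1) * y i)
  e4 : (∑ i, aleg (l i) 5) * c = 0
  e5 : (1 + ∑ i, aleg (l i) 5) * (a + ∑ i, aleg (l i) 5 * y i) = 0

/-- The primes of the auxiliary field. -/
structure Fam (d : ℤ) {R P : Type} [Fintype R] [Fintype P] (p q : R ⊕ P → ℕ) (k₁ k₃ : R) :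
    Prop where
  pp : ∀ j, (p j).Prime ∧ ¬ p j ∣ 30
  qp : ∀ j, (q j).Prime ∧ ¬ q j ∣ 30
  inj : Function.Injective (Sum.elim p q)
  odd : Odd (Fintype.card (R ⊕ P))
  deq : d = ∏ j, pstar (p (.inr j))
  q8 : ∀ j, q j % 8 = 1
  pq : ∀ i j, aleg (q j) (p i) = if i = j then 1 else 0
  qq : ∀ i j, i ≠ j → aleg (q j) (q i) = 1
  ne : k₁ ≠ k₃
  q5 : ∀ j, aleg (q j) 5 = if j = .inl k₁ ∨ j = .inl k₃ then 1 else 0
  q3 : ∀ j, aleg (q j) 3 = if j = .inl k₃ then 1 else 0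
  r1 : p (.inl k₁) % 120 = 31
  r3 : p (.inl k₃) % 120 = 97
  rr : ∀ k, k ≠ k₃ → aleg (p (.inl k₃)) (p (.inl k)) = 0
  pa : (∏ j, p j) % 120 = 19
  qb : (∏ j, q j) % 120 = 89

/-- The primes of the auxiliary twist. -/
def famL {R P : Type} (p q : R ⊕ P → ℕ) : R ⊕ (R ⊕ P) → ℕ := Sum.elim (fun k => p (.inl k)) q

end Pool.Agent.Lib.MP_696deb_nt.B2
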