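import Pool.Agent.Lib.MP_696deb_nt.B2.AX0

/-! Local conditions at the odd places. -/

set_option autoImplicit false

open scoped NNReal Classical
open Finset NumberTheorySymbols

namespace Pool.Agent.Lib.MP_696deb_nt.B2

variable {G : Subgroup Gam} {w : Plc} {D : ℤ} {α β κ : Gam → ZMod 2}

theorem Fx.xmul {x y : Qbar} (h : Fx G x) (k : Fx G y) : Fx G (x * y) := fun g hg => by
  rw [map_mul, h g hg, k g hg]

theorem Fx.xdiv {x y : Qbar} (h : Fx G x) (k : Fx G y) : Fx G (x / y) := fun g hg => by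
  rw [map_div₀, h g hg, k g hg]

theorem Fx.xsub {x y : Qbar} (h : Fx G x) (k : Fx G y) : Fx G (x - y) := fun g hg => by
  rw [map_sub, h g hg, k g hg]

theorem axb_ofNat (n : ℕ) [n.AtLeastTwo] : Fx G (OfNat.ofNat n) := fun g _ => map_ofNat g n

theorem axb_fx1 : Fx G 1 := fun g _ => map_one g

theorem kum_sq {u y : Qbar} (h : Kum 1 G (u * y ^ 2) κ) (hy : Fx G y) : Kum 1 G u κ := by
  obtain ⟨r, r0, hr, k⟩ := h
  have y0 : y ≠ 0 := fun e => pow_ne_zero _ r0 (by rw [hr, e]; simp)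
  refine ⟨r / y, div_ne_zero r0 y0, ?_, fun g hg => ?_⟩
  · rw [div_pow, hr, pow_one, mul_div_cancel_right₀ _ (pow_ne_zero _ y0)]
  · rw [map_div₀, k g hg, hy g hg, div_mul_eq_mul_div]

/-- The character of a number that is close to an integer times a square. -/
theorem kum_near (hG : G ≤ Dec w) {a y t : Qbar} {n : ℤ} (h : Kum 1 G a κ) (hy : Fx G y)
    (ht : w.V (t - 1) < w.V 4) (e : a = n * y ^ 2 * t) : ∀ g ∈ G, κ g = xi n g := by
  obtain ⟨a0, ha⟩ := h.fx
  have k : (n : Qbar) * y ^ 2 ≠ 0 := left_ne_zero_of_mul (e ▸ a0)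
  obtain ⟨r, h1, h2, -⟩ := exists_sqrt hG (a := t) (fun g hg => by
    rw [show t = a / (n * y ^ 2) by rw [e, mul_div_cancel_left₀ _ k], map_div₀, map_mul, map_pow,
      map_intCast, ha g hg, hy g hg]) ht
  exact b4b_kum h (hy.xmul h1) (by rw [e, ← h2]; ring)

/-- The character of a unit times a square is unramified. -/
theorem kum_unit (hw : w.p ≠ 2) {a u y : Qbar} (h : Kum 1 (Dec w) a κ) (hy : Fx (Dec w) y)
    (hu : w.V u = 1) (e : a = u * y ^ 2) : ∀ σ ∈ Ine w, κ σ = 0 := fun σ hσ =>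
  (kum_sq (e ▸ h) hy).unr hw hu σ ⟨Ine_le w hσ, hσ⟩

theorem axb_int {n : ℤ} (h : ¬ (w.p : ℤ) ∣ n) {m : ℤ} (k : m ∣ n) : w.V m = 1 :=
  w.V_int_eq_one.2 fun e => h (e.trans k)

theorem axb_two {n : ℤ} (h : ¬ (w.p : ℤ) ∣ 2 * n) : w.p ≠ 2 := fun e => h (by simp [e])

theorem axb_near (v4 : w.V 4 = 1) {a y t : Qbar} {n : ℤ} (h : Kum 1 (Dec w) a κ)
    (hy : Fx (Dec w) y) (ht : w.V (t - 1) < 1) (e : a = n * y ^ 2 * t) :
    ∀ g ∈ Dec w, κ g = xi n g := kum_near le_rfl h hy (v4 ▸ ht) e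

theorem axb_add {x : Qbar} (h : w.V x < 1) : w.V (1 + x - 1) < 1 := by simpa using h

theorem axb_one {t : Qbar} (h : w.V (t - 1) < 1) : w.V t = 1 := by
  simpa using w.V.map_one_add_of_lt h

theorem axb_inv {t : Qbar} (h : w.V (t - 1) < 1) : w.V (t⁻¹ - 1) < 1 := by
  have t1 := axb_one h
  have t0 : t ≠ 0 := fun e => by simp [e] at t1
  rw [show t⁻¹ - 1 = -((t - 1) / t) by field_simp; ring, Valuation.map_neg, map_div₀, t1, div_one]
  exact h

theorem axb_mul {t u : Qbar} (h : w.V (t - 1) < 1) (k : w.V (u - 1) < 1) :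
    w.V (t * u - 1) < 1 := by
  rw [show t * u - 1 = t * (u - 1) + (t - 1) by ring]
  exact w.V.map_add_lt (by rwa [map_mul, axb_one h, one_mul]) h

theorem axb_div {c x : Qbar} (h : w.V c < w.V x) : w.V (1 + c / x - 1) < 1 :=
  axb_add (by rw [map_div₀]; exact (div_lt_one (zero_le.trans_lt h)).2 h)

theorem axb_ne {c x : Qbar} (h : w.V c < w.V x) : x ≠ 0 := fun e => by simp [e] at h

theorem axb_ne' {X z : Qbar} (z0 : z ≠ 0) (e : z ^ 2 = D * X * (4 * X + 9) * (X - 4)) :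
    (D : Qbar) ≠ 0 ∧ X ≠ 0 ∧ X * 4 + 9 ≠ 0 ∧ X - 4 ≠ 0 := by
  have := pow_ne_zero 2 z0
  rw [e, mul_comm 4] at this
  simpa only [ne_eq, mul_eq_zero, not_or, and_assoc] using this

theorem loc_bad (hw : ¬ w.p ∣ 30) (hD : Squarefree D) (h : (w.p : ℤ) ∣ D)
    (k : LocK (Dec w) D α β) : TorK (Dec w) D α β := by
  refine k.elim id ?_
  rintro ⟨X, z, hX, hz, z0, e, hA, hB⟩
  obtain ⟨D0, X0, A0, Y0⟩ := axb_ne' z0 e
  have hv : ∀ m : ℤ, m ∣ 30 ^ 4 → w.V m = 1 := fun m => axb_int fun k =>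
    hw (w.prime.dvd_of_dvd_pow (n := 4) (by exact_mod_cast k))
  have v4 : w.V 4 = 1 := by simpa using hv 4 (by norm_num)
  have v9 : w.V 9 = 1 := by simpa using hv 9 (by norm_num)
  have v25 : w.V 25 = 1 := by simpa using hv 25 (by norm_num)
  have m4 : ∀ x, w.V (4 * x) = w.V x := fun x => by rw [map_mul, v4, one_mul]
  have f2 : Fx (Dec w) 2 := axb_ofNat 2
  rcases lt_trichotomy (w.V X) 1 with h1 | h1 | h1
  · have t1 := axb_div (w := w) (c := 4 * X) (x := 9) (by rwa [m4, v9])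
    have t2 := axb_div (w := w) (c := -X) (x := 4) (by rwa [Valuation.map_neg, v4])
    refine ⟨1, 0, fun g hg => ?_⟩
    rw [axb_near v4 hA (n := D) (axb_ofNat 3) t1 (by ring) g hg,
      axb_near v4 hB (n := -1) (hz.xdiv (axb_ofNat 6)) (axb_inv (axb_mul t1 t2)) (by
        rw [div_pow, e, show (1 + 4 * X / 9) * (1 + -X / 4) = -((4 * X + 9) * (X - 4) / 36) by ring]
        push_cast
        field_simp
        norm_num) g hg]
    simp
  · by_cases h2 : w.V (4 * X + 9) < 1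
    · have t1 := axb_div (w := w) (c := -(4 * X + 9)) (x := 9) (by rwa [Valuation.map_neg, v9])
      have t2 := axb_div (w := w) (c := -(4 * X + 9)) (x := 25) (by rwa [Valuation.map_neg, v25])
      refine ⟨0, 1, fun g hg => ?_⟩
      rw [axb_near v4 hB (n := -D) ((axb_ofNat 3).xdiv f2) t1 (by push_cast; ring) g hg,
        axb_near v4 hA (n := 1) (((axb_ofNat 4).xmul hz).xdiv (axb_ofNat 15)) (axb_inv (axb_mul t1 t2))
          (by
            rw [div_pow, mul_pow, e, show (1 + -(4 * X + 9) / 9) * (1 + -(4 * X + 9) / 25) =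
              16 * (X * (X - 4)) / 225 by ring]
            push_cast
            field_simp
            ring) g hg, xi_one]
      simp
    by_cases h3 : w.V (X - 4) < 1
    · have t1 := axb_div (w := w) (c := 4 * (X - 4)) (x := 25) (by rwa [m4, v25])
      have t2 := axb_div (w := w) (c := X - 4) (x := 4) (by rwa [v4])
      refine ⟨1, 1, fun g hg => ?_⟩
      rw [axb_near v4 hA (n := D) (axb_ofNat 5) t1 (by ring) g hg,
        axb_near v4 hB (n := D) f2 t2 (by ring) g hg, one_mul, one_mul, one_mul,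
        ← xi_mul (by norm_num) (neg_ne_zero.2 hD.ne_zero)]
      simp
    exfalso
    have h4 : w.V (4 * X + 9) = 1 :=
      (w.V.map_add_le (by rw [m4, h1]) v9.le).antisymm (not_lt.1 h2)
    have h5 : w.V (X - 4) = 1 := (w.V.map_sub_le h1.le v4.le).antisymm (not_lt.1 h3)
    obtain ⟨c, rfl⟩ := h
    have hc : ¬ (w.p : ℤ) ∣ c := fun k =>
      (Nat.prime_iff_prime_int.1 w.prime).not_isUnit (hD _ (mul_dvd_mul_left _ k))
    obtain ⟨j, hj⟩ := b3a_dec hz z0
    have h6 := congrArg w.V e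
    simp only [map_mul, map_pow, h1, h4, h5, Int.cast_mul, Int.cast_natCast, w.hV,
      w.V_int_eq_one.2 hc, mul_one, hj, inv_pow, inv_inj] at h6
    rw [← zpow_natCast, ← zpow_mul] at h6
    have := zpow_right_injective₀ (one_pos.trans (b3a_p w)) (b3a_p w).ne' (h6.trans (zpow_one _).symm)
    omega
  · have t1 := axb_div (w := w) (c := 9) (x := 4 * X) (by rwa [m4, v9])
    have t2 := axb_div (w := w) (c := -4) (x := X) (by rwa [Valuation.map_neg, v4])
    refine ⟨0, 0, fun g hg => ?_⟩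
    rw [axb_near v4 hA (n := 1) (hz.xdiv hX) (axb_inv t2) (by
        rw [div_pow, e, show 1 + -4 / X = (X - 4) / X by field_simp; ring]
        push_cast
        field_simp) g hg,
      axb_near v4 hB (n := 1) (hz.xdiv (f2.xmul hX)) (axb_inv (axb_mul t1 t2)) (by
        rw [div_pow, e, show (1 + 9 / (4 * X)) * (1 + -4 / X) = (4 * X + 9) * (X - 4) / (4 * X ^ 2) by
          field_simp; ring]
        push_cast
        field_simp
        norm_num) g hg, xi_one]
    simp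

theorem axb_tor (h : ¬ (w.p : ℤ) ∣ 2 * D) {σ : Gam} (hσ : σ ∈ Ine w) :
    xi (-1) σ = 0 ∧ xi D σ = 0 ∧ xi (-D) σ = 0 :=
  ⟨xi_eq_zero.2 (chi_ine (fun k => h (Dvd.dvd.mul_right (by simpa using k) _)) hσ),
    xi_eq_zero.2 (chi_ine h hσ), xi_eq_zero.2 (chi_ine (by simpa using h) hσ)⟩

theorem loc_beta (h : ¬ (w.p : ℤ) ∣ 6 * D) (k : LocK (Dec w) D α β) : ∀ σ ∈ Ine w, β σ = 0 := by
  have h2 : ¬ (w.p : ℤ) ∣ 2 * D := fun k => h (k.trans ⟨3, by ring⟩)
  have hw := axb_two h2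
  rcases k with ⟨u, v, k⟩ | ⟨X, z, hX, hz, z0, e, hA, hB⟩
  · exact fun σ hσ => by rw [(k σ (Ine_le w hσ)).2, (axb_tor h2 hσ).1, (axb_tor h2 hσ).2.2]; simp
  obtain ⟨D0, X0, A0, Y0⟩ := axb_ne' z0 e
  have h3 : ¬ (w.p : ℤ) ∣ 36 := fun k => h
    (((Nat.prime_iff_prime_int.1 w.prime).dvd_of_dvd_pow (n := 2) (a := 6) k).mul_right _)
  have v4 : w.V 4 = 1 := by simpa using axb_int h3 (m := 4) (by norm_num)
  have v9 : w.V 9 = 1 := by simpa using axb_int h3 (m := 9) (by norm_num)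
  have m4 : ∀ x, w.V (4 * x) = w.V x := fun x => by rw [map_mul, v4, one_mul]
  rcases lt_trichotomy (w.V X) 1 with h1 | h1 | h1
  · refine kum_unit hw hB hz (u := ((4 * X + 9) * (X - 4))⁻¹) ?_ (by rw [e]; field_simp)
    rw [map_inv₀, map_mul, w.V.map_add_eq_of_lt_right (by rwa [m4, v9]),
      w.V.map_sub_eq_of_lt_right (by rwa [v4]), v4, v9]
    simp
  · exact kum_unit hw hB axb_fx1 (u := D * X)
      (by rw [map_mul, h1, axb_int h (Dvd.intro_left _ rfl), one_mul]) (by ring)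
  · refine kum_unit hw hB (hz.xdiv hX) (u := X ^ 2 / ((4 * X + 9) * (X - 4))) ?_
      (by rw [div_pow, e]; field_simp)
    rw [map_div₀, map_mul, w.V.map_add_eq_of_lt_left (by rwa [m4, v9]),
      w.V.map_sub_eq_of_lt_left (by rwa [v4]), m4, map_pow, pow_two,
      div_self (mul_ne_zero (one_pos.trans h1).ne' (one_pos.trans h1).ne')]

theorem loc_sum (h : ¬ (w.p : ℤ) ∣ 10 * D) (k : LocK (Dec w) D α β) :
    ∀ σ ∈ Ine w, α σ + β σ = 0 := by
  have h2 : ¬ (w.p : ℤ) ∣ 2 * D := fun k => h (k.trans ⟨5, by ring⟩)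
  have hw := axb_two h2
  rcases k with ⟨u, v, k⟩ | ⟨X, z, hX, hz, z0, e, hA, hB⟩
  · exact fun σ hσ => by
      rw [(k σ (Ine_le w hσ)).1, (k σ (Ine_le w hσ)).2, (axb_tor h2 hσ).1, (axb_tor h2 hσ).2.1,
        (axb_tor h2 hσ).2.2]
      simp
  obtain ⟨D0, X0, A0, Y0⟩ := axb_ne' z0 e
  have h3 : ¬ (w.p : ℤ) ∣ 100 := fun k => h
    (((Nat.prime_iff_prime_int.1 w.prime).dvd_of_dvd_pow (n := 2) (a := 10) k).mul_right _)
  have v4 : w.V 4 = 1 := by simpa using axb_int h3 (m := 4) (by norm_num)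
  have v25 : w.V 25 = 1 := by simpa using axb_int h3 (m := 25) (by norm_num)
  have vD : w.V D = 1 := axb_int h (Dvd.intro_left _ rfl)
  have m4 : ∀ x, w.V (4 * x) = w.V x := fun x => by rw [map_mul, v4, one_mul]
  have hC := hA.mul hB
  have fY : Fx (Dec w) (X - 4) := hX.xsub (axb_ofNat 4)
  have fD : Fx (Dec w) D := fun g _ => map_intCast g D
  have e1 : X * (4 * X + 9) = (X - 4 + 4) * (4 * (X - 4) + 25) := by ring
  rcases lt_trichotomy (w.V (X - 4)) 1 with h1 | h1 | h1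
  · refine kum_unit hw hC fD (u := X * (4 * X + 9)) ?_ (by ring)
    rw [e1, map_mul, w.V.map_add_eq_of_lt_right (by rwa [v4]),
      w.V.map_add_eq_of_lt_right (by rwa [m4, v25]), v4, v25, one_mul]
  · exact kum_unit hw hC hz (u := D / (X - 4)) (by rw [map_div₀, h1, vD, div_one])
      (by rw [e]; field_simp)
  · refine kum_unit hw hC (fD.xmul fY) (u := X * (4 * X + 9) / (X - 4) ^ 2) ?_ (by field_simp)
    rw [e1, map_div₀, map_mul, w.V.map_add_eq_of_lt_left (by rwa [v4]),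
      w.V.map_add_eq_of_lt_left (by rwa [m4, v25]), m4, map_pow, pow_two,
      div_self (mul_ne_zero (one_pos.trans h1).ne' (one_pos.trans h1).ne')]

theorem axb_five (hw : w.p = 5) : w.V 4 = 1 ∧ w.V 25 < 1 :=
  ⟨by simpa using (w.V_int_eq_one (a := 4)).2 (by rw [hw]; decide),
    by simpa using (b2c_lt (w := w) (a := 25)).2 (by rw [hw]; decide)⟩

theorem axb_big (hw : w.p = 5) {X z : Qbar} (hX : Fx (Dec w) X) (hz : Fx (Dec w) z) (z0 : z ≠ 0)
    (e : z ^ 2 = D * X * (4 * X + 9) * (X - 4)) (hB : Kum 1 (Dec w) (D * X) β)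
    (h : w.V 25 < w.V (X - 4)) : ∀ g ∈ Dec w, β g = 0 := fun g hg => by
  obtain ⟨D0, X0, A0, Y0⟩ := axb_ne' z0 e
  have v4 := (axb_five hw).1
  rw [axb_near v4 hB (n := 1) (hz.xdiv ((axb_ofNat 2).xmul (hX.xsub (axb_ofNat 4))))
    (axb_inv (axb_div (c := 25) (x := 4 * (X - 4)) (by rwa [map_mul, v4, one_mul]))) (by
      rw [div_pow, e, show 1 + 25 / (4 * (X - 4)) = (4 * X + 9) / (4 * (X - 4)) by field_simp; ring]
      push_cast
      field_simp
      norm_num) g hg, xi_one]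

theorem axb_small (hw : w.p = 5) {X : Qbar} (hB : Kum 1 (Dec w) (D * X) β)
    (h : w.V (X - 4) < 1) : ∀ g ∈ Dec w, β g = xi D g :=
  axb_near (axb_five hw).1 hB (axb_ofNat 2)
    (axb_div (c := X - 4) (x := 4) (by rwa [(axb_five hw).1])) (by ring)

theorem loc_five_pos (hw : w.p = 5) (h : J(D | 5) = 1) (k : LocK (Dec w) D α β) :
    ∀ g ∈ Dec w, β g = 0 := by
  have h2 : w.p ≠ 2 := by omega
  have hD : ∀ g ∈ Dec w, xi D g = 0 := fun g hg => xi_dec h2 (hw ▸ h) hg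
  rcases k with ⟨u, v, k⟩ | ⟨X, z, hX, hz, z0, e, hA, hB⟩
  · intro g hg
    rw [(k g hg).2, xi_dec h2 (c := -1) (by rw [hw]; norm_num) hg,
      xi_dec h2 (c := -D) (by rw [hw, jacobiSym.neg _ (by decide), h]; decide) hg]
    simp
  rcases lt_or_ge (w.V 25) (w.V (X - 4)) with h1 | h1
  · exact axb_big hw hX hz z0 e hB h1
  · exact fun g hg => (axb_small hw hB (h1.trans_lt (axb_five hw).2) g hg).trans (hD g hg)

theorem loc_five_neg (hw : w.p = 5) (h : J(D | 5) = -1) (k : LocK (Dec w) D α β) :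
    ∀ σ ∈ Ine w, α σ = 0 := by
  have h2 : w.p ≠ 2 := by omega
  have h3 : ¬ (w.p : ℤ) ∣ 2 * D := B4c_not_dvd h2 (by rw [hw, h]; decide)
  rcases k with ⟨u, v, k⟩ | ⟨X, z, hX, hz, z0, e, hA, hB⟩
  · exact fun σ hσ => by rw [(k σ (Ine_le w hσ)).1, (axb_tor h3 hσ).2.1, mul_zero]
  obtain ⟨D0, X0, A0, Y0⟩ := axb_ne' z0 e
  obtain ⟨v4, v25⟩ := axb_five hw
  have vD : w.V D = 1 := axb_int h3 (Dvd.intro_left _ rfl)
  have m4 : ∀ x, w.V (4 * x) = w.V x := fun x => by rw [map_mul, v4, one_mul]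
  have e1 : 4 * X + 9 = 4 * (X - 4) + 25 := by ring
  have e2 : X = X - 4 + 4 := by ring
  have n25 : w.V 25 ≠ 0 := w.V.ne_zero_iff.2 (by norm_num)
  rcases lt_trichotomy (w.V (X - 4)) 1 with h1 | h1 | h1
  · rcases lt_trichotomy (w.V (X - 4)) (w.V 25) with h4 | h4 | h4
    · refine kum_unit h2 hA (axb_ofNat 5) (u := D * ((4 * X + 9) / 25)) ?_ (by ring)
      rw [map_mul, vD, map_div₀, e1, w.V.map_add_eq_of_lt_right (by rwa [m4]), div_self n25,
        one_mul]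
    · refine kum_unit h2 hA (hz.xdiv (axb_ofNat 5)) (u := 25 / (X * (X - 4))) ?_
        (by rw [div_pow, e]; field_simp; norm_num)
      rw [map_div₀, map_mul, h4, e2, w.V.map_add_eq_of_lt_right (by rwa [v4]), v4, one_mul,
        div_self n25]
    · have := jac_of_dec h2 (fun k => h3 (k.mul_left _)) fun g hg =>
        (axb_small hw hB h1 g hg).symm.trans (axb_big hw hX hz z0 e hB h4 g hg)
      rw [hw, h] at this
      exact absurd this (by decide)
  · exact kum_unit h2 hA axb_fx1 (u := D * (4 * X + 9))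
      (by rw [map_mul, vD, e1, w.V.map_add_eq_of_lt_left (by rwa [m4, h1]), m4, h1, one_mul])
      (by ring)
  · refine kum_unit h2 hA (hz.xdiv (hX.xsub (axb_ofNat 4))) (u := (X - 4) / X) ?_
      (by rw [div_pow, e]; field_simp)
    have : w.V X = w.V (X - 4) := by
      conv_lhs => rw [e2, w.V.map_add_eq_of_lt_left (by rwa [v4])]
    rw [map_div₀, this, div_self (one_pos.trans h1).ne']

end Pool.Agent.Lib.MP_696deb_nt.B2
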