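import Pool.Agent.Lib.MP_696deb_nt.B2.AXc

/-! The exponents of a Selmer class. -/

set_option autoImplicit false

open scoped NNReal Classical
open Finset NumberTheorySymbols

namespace Pool.Agent.Lib.MP_696deb_nt.B2

variable {ι : Type} [Fintype ι] {l : ι → ℕ}

theorem xi_frob {w : Plc} {φ : Gam} {a : ℤ} (h : ¬ (w.p : ℤ) ∣ 2 * a) (hφ : IsFrob w w.p φ) :
    xi a φ = aleg w.p a := by
  have := Fact.mk w.prime
  have h1 := chi_frob h hφ
  rw [aleg_eq_legendre fun k => h (k.mul_left _), jacobiSym.legendreSym.to_jacobiSym, ← h1]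
  rcases b4b_cases (xi a φ) with k | k
  · rw [k, xi_eq_zero.1 k, if_pos (by decide)]
  · rw [k, xi_eq_one.1 k, if_neg (by decide)]

theorem axd_ine {p : ℕ} (hp : p.Prime ∧ p ≠ 2) {w : Plc} (h : p ≠ w.p) {σ : Gam} (hσ : σ ∈ Ine w) :
    xi (pstar p) σ = 0 :=
  xi_ine (pstar_emod (hp.1.eq_two_or_odd.resolve_left hp.2))
    (not_dvd_of_natAbs_eq w.prime hp.1 h.symm (natAbs_pstar p)) hσ

theorem axd_gen {w : Plc} (hw : w.p ≠ 2) {τ : Gam} (hτ : Gen w τ) : xi (pstar w.p) τ = 1 :=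
  xi_gen hw (Int.squarefree_natAbs.1 (by rw [natAbs_pstar]; exact w.prime.squarefree))
    (Int.natCast_dvd.2 (by rw [natAbs_pstar])) hτ

theorem axd_sum (hl : ∀ i, (l i).Prime ∧ l i ≠ 2) (hi : Function.Injective l) {w : Plc} {i : ι}
    (hw : w.p = l i) {τ : Gam} (hτ : Gen w τ) (x : ι → ZMod 2) :
    ∑ k, x k * xi (pstar (l k)) τ = x i := by
  rw [Fintype.sum_eq_single i fun k hk => by
    rw [axd_ine (hl k) (fun e => hk (hi (e.trans hw))) hτ.1, mul_zero], ← hw,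
    axd_gen (hw ▸ (hl i).2) hτ, mul_one]

/-- Characters unramified outside a set of odd primes. -/
theorem ax_span (hl : ∀ i, (l i).Prime ∧ l i ≠ 2) (hi : Function.Injective l) {χ : Gam → ZMod 2}
    (h1 : Sm ⊤ χ) (h2 : IsHom ⊤ χ) (h3 : ∀ w : Plc, (∀ i, l i ≠ w.p) → ∀ σ ∈ Ine w, χ σ = 0) :
    ∃ x : ι → ZMod 2, ∀ g, χ g = ∑ i, x i * xi (pstar (l i)) g := by
  obtain ⟨w, hw⟩ := Classical.skolem.1 fun i => exists_plc (hl i).1
  obtain ⟨τ, hτ⟩ := Classical.skolem.1 fun i => exists_gen (w := w i) (hw i ▸ (hl i).2)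
  have hn : Odd (∏ i, (l i : ℤ)) := prod_induction _ Odd (fun _ _ => Odd.mul) odd_one fun i _ => by
    exact_mod_cast (hl i).1.odd_of_ne_two (hl i).2
  obtain ⟨c, c1, c2, c3, e⟩ := quad_class hn
    (χ := fun g => χ g + ∑ i, χ (τ i) * xi (pstar (l i)) g)
    (h1.comp₂ (Sm.pi fun i => sm_xi (pstar (l i))) fun a b => a + ∑ i, χ (τ i) * b i)
    (fun g _ k _ => by
      simp only [h2 g trivial k trivial, xi_hom, mul_add, sum_add_distrib]
      ring) fun v hv σ hσ => by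
      have k : ∀ i, l i ≠ v.p := fun i e => hv (e ▸ dvd_prod_of_mem _ (mem_univ i))
      simp only [h3 v k σ hσ, axd_ine (hl _) (k _) hσ, mul_zero, sum_const_zero, add_zero]
  have hc : c = 1 := by
    by_contra h
    obtain ⟨p, hp, h4⟩ := Nat.exists_prime_and_dvd (n := c.natAbs) (by omega)
    rw [← Int.natCast_dvd] at h4
    obtain ⟨i, -, h5⟩ := (Prime.dvd_finsetProd_iff (Nat.prime_iff_prime_int.1 hp) _).1 (h4.trans c1)
    obtain rfl : p = l i := (Nat.prime_dvd_prime_iff_eq hp (hl i).1).1 (by exact_mod_cast h5)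
    have h6 := e (τ i)
    rw [xi_gen (hw i ▸ (hl i).2) c3 (hw i ▸ h4) (hτ i), axd_sum hl hi (hw i) (hτ i), mu1_two] at h6
    exact zero_ne_one h6
  refine ⟨fun i => χ (τ i), fun g => CharTwo.add_eq_zero.1 ?_⟩
  rw [e, hc, xi_one]

theorem axd_prod {κ : Type} (t : Finset κ) {a : κ → ℤ} (ha : ∀ i, a i ≠ 0) (g : Gam) :
    xi (∏ i ∈ t, a i) g = ∑ i ∈ t, xi (a i) g := by
  induction t using Finset.induction_on with
  | empty => simpa using xi_one g
  | insert i t hi ih =>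
    rw [prod_insert hi, sum_insert hi, xi_mul (ha i) (prod_ne_zero_iff.2 fun j _ => ha j), ih]

theorem axd_cc {p : ℕ} (hp : p.Prime ∧ p ≠ 2) : xi (pstar p) cc = aleg p (-1) := by
  have := Fact.mk hp.1
  have h : aleg p (-1) = 0 ↔ p % 4 ≠ 3 := by
    rw [aleg_eq_zero_iff]
    push_cast
    exact ZMod.exists_sq_eq_neg_one_iff
  have h0 : (0 : ℤ) < p := by exact_mod_cast hp.1.pos
  have h1 := hp.1.eq_two_or_odd.resolve_left hp.2
  unfold pstar
  split_ifs with k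
  · rw [xi_cc h0, h.2 (by omega)]
  · rw [xi_cc_neg (neg_neg_of_pos h0), (b4b_cases _).resolve_left fun e => h.1 e (by omega)]

theorem axd_span (hl : ∀ i, (l i).Prime ∧ ¬ l i ∣ 30) (hi : Function.Injective l)
    {χ : Gam → ZMod 2} (h1 : Sm ⊤ χ) (h2 : IsHom ⊤ χ)
    (h3 : ∀ w : Plc, (∀ i, l i ≠ w.p) → w.p ≠ 3 → w.p ≠ 5 → ∀ σ ∈ Ine w, χ σ = 0) :
    ∃ (x : ι → ZMod 2) (a c : ZMod 2), ∀ g,
      χ g = a * xi (-3) g + c * xi 5 g + ∑ i, x i * xi (pstar (l i)) g := by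
  have n2 : ∀ i, l i ≠ 2 ∧ l i ≠ 3 ∧ l i ≠ 5 := fun i => by
    refine ⟨?_, ?_, ?_⟩ <;> exact fun e => (hl i).2 (by rw [e]; norm_num)
  obtain ⟨x, hx⟩ := ax_span (l := Sum.elim (fun b : Bool => if b then 3 else 5) l) (by
      rintro ((_ | _) | i)
      · simp [Nat.prime_five]
      · simp [Nat.prime_three]
      · exact ⟨(hl i).1, (n2 i).1⟩) (by
      rintro ((_ | _) | i) ((_ | _) | j) e <;>
        simp_all [hi.eq_iff, (n2 _).2.1.symm, (n2 _).2.2.symm]) h1 h2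
    fun w k => h3 w (fun i => k (.inr i)) (k (.inl true)).symm (k (.inl false)).symm
  exact ⟨fun i => x (.inr i), x (.inl true), x (.inl false), fun g => by
    simp [hx, show pstar 3 = -3 from rfl, show pstar 5 = 5 from rfl]⟩

theorem ax_expand (hl : ∀ i, (l i).Prime ∧ ¬ l i ∣ 30) (hi : Function.Injective l)
    {α β : Gam → ZMod 2} (h : SelK (∏ i, pstar (l i)) α β) :
    ∃ (x y : ι → ZMod 2) (a c s : ZMod 2), SelV l x y a c s ∧ ∀ g,
      α g = a * xi (-3) g + c * xi 5 g + ∑ i, x i * xi (pstar (l i)) g ∧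
      β g = s * xi (-1) g + a * xi (-3) g + ∑ i, y i * xi (pstar (l i)) g := by
  have n2 : ∀ i, l i ≠ 2 ∧ l i ≠ 3 ∧ l i ≠ 5 := fun i => by
    refine ⟨?_, ?_, ?_⟩ <;> exact fun e => (hl i).2 (by rw [e]; norm_num)
  have hl2 : ∀ i, (l i).Prime ∧ l i ≠ 2 := fun i => ⟨(hl i).1, (n2 i).1⟩
  have p0 : ∀ i, pstar (l i) ≠ 0 := fun i =>
    Int.natAbs_ne_zero.1 (by rw [natAbs_pstar]; exact (hl i).1.ne_zero)
  set D := ∏ i, pstar (l i) with hD
  have xD : ∀ g, xi D g = ∑ i, xi (pstar (l i)) g := axd_prod univ p0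
  have D4 : D % 4 = 1 := prod_induction _ (· % 4 = 1)
    (fun a b ha hb => by rw [Int.mul_emod, ha, hb]; rfl) rfl
    fun i _ => pstar_emod ((hl i).1.eq_two_or_odd.resolve_left (n2 i).1)
  have nD : ∀ (p : ℕ) (m : ℤ), p.Prime → (∀ i, l i ≠ p) → ¬ (p : ℤ) ∣ m → ¬ (p : ℤ) ∣ m * D :=
    fun p m hp h1 h2 k => ((Nat.prime_iff_prime_int.1 hp).dvd_or_dvd k).elim h2 fun k => by
      obtain ⟨i, -, k⟩ := (Prime.dvd_finsetProd_iff (Nat.prime_iff_prime_int.1 hp) _).1 k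
      exact not_dvd_of_natAbs_eq hp (hl i).1 (h1 i).symm (natAbs_pstar _) k
  have sD : Squarefree D := Int.squarefree_natAbs.1 (by
    rw [hD, ← Int.natAbsHom_apply, map_prod]
    simp only [Int.natAbsHom_apply, natAbs_pstar]
    exact Finset.squarefree_prod_of_pairwise_isCoprime (fun i _ j _ e =>
      Nat.coprime_iff_isRelPrime.1 ((Nat.coprime_primes (hl i).1 (hl j).1).2 fun k => e (hi k)))
      fun i _ => (hl i).1.squarefree)
  have small : ∀ (v : Plc) (m : ℕ), m ∣ 30 → v.p ≠ 2 → v.p ≠ 3 → v.p ≠ 5 → ¬ (v.p : ℤ) ∣ m :=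
    fun v m hm a b c k => by
      have k1 : v.p ∣ 2 * 3 * 5 := (Int.natCast_dvd_natCast.1 k).trans hm
      simp only [v.prime.dvd_mul, Nat.prime_dvd_prime_iff_eq v.prime, Nat.prime_two,
        Nat.prime_three, Nat.prime_five] at k1
      tauto
  obtain ⟨w2, h2⟩ := exists_plc Nat.prime_two
  obtain ⟨w3, h3⟩ := exists_plc Nat.prime_three
  obtain ⟨w5, h5⟩ := exists_plc Nat.prime_five
  obtain ⟨s, hs⟩ := loc_two_beta h2 D4 (h.loc w2)
  have hb : IsHom ⊤ fun g => β g + s * xi (-1) g := fun g _ k _ => by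
    simp only [h.hb g trivial k trivial, xi_hom]
    ring
  obtain ⟨x, a, c, ea⟩ := axd_span hl hi h.sa h.ha fun v k1 k3 k5 σ hσ => by
    by_cases k2 : v.p = 2
    · exact loc_two_alpha k2 D4 (h.loc v) σ hσ
    · simpa [loc_beta (nD _ _ v.prime k1 (small v 6 (by norm_num) k2 k3 k5)) (h.loc v) σ hσ] using
        loc_sum (nD _ _ v.prime k1 (small v 10 (by norm_num) k2 k3 k5)) (h.loc v) σ hσ
  obtain ⟨y, a', c', eb⟩ := axd_span hl hi (h.sb.comp₂ (sm_xi (-1)) fun b t => b + s * t) hb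
    fun v k1 k3 k5 σ hσ => by
      by_cases k2 : v.p = 2
      · obtain ⟨g, rfl⟩ := plc_conj (h2.trans k2.symm)
        have k4 := mem_Ine_smul.1 hσ
        have k6 := hb (g⁻¹ * σ) trivial g trivial
        rw [hb g⁻¹ trivial σ trivial] at k6
        simp only [hs _ k4, mu1_two, hb.inv (g := g) trivial] at k6
        linear_combination -k6
      · rw [loc_beta (nD _ _ v.prime k1 (small v 6 (by norm_num) k2 k3 k5)) (h.loc v) σ hσ,
          xi_eq_zero.2 (chi_ine (by simpa using small v 2 (by norm_num) k2 k3 k5) hσ), mul_zero,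
          add_zero]
  have i3 : ∀ {v : Plc} {σ : Gam}, v.p ≠ 3 → σ ∈ Ine v → xi (-3) σ = 0 := fun k hσ =>
    axd_ine (p := 3) (by norm_num) k.symm hσ
  have i5 : ∀ {v : Plc} {σ : Gam}, v.p ≠ 5 → σ ∈ Ine v → xi 5 σ = 0 := fun k hσ =>
    axd_ine (p := 5) (by norm_num) k.symm hσ
  have i1 : ∀ {v : Plc} {σ : Gam}, v.p ≠ 2 → σ ∈ Ine v → xi (-1) σ = 0 := fun {v _} k hσ =>
    xi_eq_zero.2 (chi_ine (fun e => mu0_ndvd k (not_dvd_of_natAbs_eq' v.prime) e) hσ)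
  obtain ⟨τ3, t3⟩ := exists_gen (w := w3) (by omega)
  obtain ⟨τ5, t5⟩ := exists_gen (w := w5) (by omega)
  have g3 : xi (-3) τ3 = 1 := by simpa [h3, pstar] using axd_gen (by omega) t3
  have g5 : xi 5 τ5 = 1 := by simpa [h5, pstar] using axd_gen (by omega) t5
  have l3 : ∀ i, xi (pstar (l i)) τ3 = 0 := fun i => axd_ine (hl2 i) (h3 ▸ (n2 i).2.1) t3.1
  have l5 : ∀ i, xi (pstar (l i)) τ5 = 0 := fun i => axd_ine (hl2 i) (h5 ▸ (n2 i).2.2) t5.1
  have n5 : ∀ m : ℤ, ¬ 5 ∣ m → ¬ (w5.p : ℤ) ∣ m * D := fun m k =>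
    nD _ _ w5.prime (fun i => h5 ▸ (n2 i).2.2) (by rwa [h5])
  obtain rfl : c' = 0 := by
    simpa [loc_beta (n5 6 (by decide)) (h.loc w5) τ5 t5.1, i1 (by omega) t5.1, i3 (by omega) t5.1,
      g5, l5] using (eb τ5).symm
  obtain rfl : a = a' := by
    have k1 := loc_sum (nD _ 10 w3.prime (fun i => h3 ▸ (n2 i).2.1) (by rw [h3]; decide))
      (h.loc w3) τ3 t3.1
    have k2 := eb τ3
    rw [ea] at k1
    simp only [i1 (by omega) t3.1, i5 (by omega) t3.1, g3, l3, mul_zero, mul_one, add_zero,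
      sum_const_zero] at k1 k2
    rw [← k2]
    exact CharTwo.add_eq_zero.1 k1
  have eb' : ∀ g, β g = s * xi (-1) g + a * xi (-3) g + ∑ i, y i * xi (pstar (l i)) g := fun g => by
    linear_combination eb g - mu1_two (s * xi (-1) g)
  have bad : ∀ i, ∃ (w : Plc) (φ : Gam), w.p = l i ∧ IsFrob w w.p φ ∧ α φ = x i * xi D φ ∧
      β φ = x i * xi (-1) φ + y i * (xi (-1) φ + xi D φ) := fun i => by
    obtain ⟨w, hw⟩ := exists_plc (hl i).1
    have k2 : w.p ≠ 2 := hw ▸ (n2 i).1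
    obtain ⟨τ, hτ⟩ := exists_gen k2
    obtain ⟨φ, hφ⟩ := exists_frob w
    have k1 : (w.p : ℤ) ∣ D := (Int.natCast_dvd.2 (by rw [natAbs_pstar, hw])).trans
      (dvd_prod_of_mem _ (mem_univ i))
    obtain ⟨u, v, k⟩ := loc_bad (hw ▸ (hl i).2) sD k1 (h.loc w)
    have e1 := k τ (Ine_le w hτ.1)
    rw [ea, eb', axd_sum hl2 hi hw hτ, axd_sum hl2 hi hw hτ, i1 k2 hτ.1, i3 (hw ▸ (n2 i).2.1) hτ.1,
      i5 (hw ▸ (n2 i).2.2) hτ.1, xi_gen k2 sD k1 hτ,
      xi_gen k2 (Int.squarefree_natAbs.1 (by simpa using sD)) (dvd_neg.2 k1) hτ] at e1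
    simp only [mul_zero, mul_one, zero_add] at e1
    refine ⟨w, φ, hw, hφ, e1.1 ▸ (k φ hφ.1).1, ?_⟩
    rw [(k φ hφ.1).2, e1.1, e1.2, ← xi_mul (by norm_num) sD.ne_zero, neg_one_mul]
  have fr : ∀ (i : ι) (w : Plc) (φ : Gam), w.p = l i → IsFrob w w.p φ →
      (xi (-1) φ = aleg (l i) (-1) ∧ xi (-3) φ = aleg (l i) (-3) ∧ xi 5 φ = aleg (l i) 5) ∧
      ∀ v : ι → ZMod 2, ∑ k, aleg (l i) (pstar (l k)) * (v k + v i) =
        ∑ k, v k * xi (pstar (l k)) φ + v i * xi D φ := fun i w φ hw hφ => by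
    have k := fun m hm => small w m hm (hw ▸ (n2 i).1) (hw ▸ (n2 i).2.1) (hw ▸ (n2 i).2.2)
    rw [← hw]
    refine ⟨⟨xi_frob (by simpa using k 2 (by norm_num)) hφ,
      xi_frob (by simpa using k 6 (by norm_num)) hφ,
      xi_frob (by simpa using k 10 (by norm_num)) hφ⟩, fun v => ?_⟩
    rw [xD, mul_sum, ← sum_add_distrib]
    refine sum_congr rfl fun j _ => ?_
    by_cases e : j = i
    · rw [e, mu1_two, mu1_two, mul_zero]
    · rw [xi_frob (mu0_ndvd (hw ▸ (n2 i).1) (not_dvd_of_natAbs_eq w.prime (hl j).1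
        (fun e' => e (hi (e'.symm.trans hw))) (natAbs_pstar _))) hφ]
      ring
  obtain ⟨φ, hφ⟩ := exists_frob w5
  have f5 : ∀ i, xi (pstar (l i)) φ = aleg (l i) 5 := fun i => by
    rw [xi_frob (mu0_ndvd (by omega) (not_dvd_of_natAbs_eq w5.prime (hl i).1
      (h5 ▸ (n2 i).2.2.symm) (natAbs_pstar _))) hφ, h5,
      aleg_pstar Nat.prime_five (hl i).1 (by norm_num) (n2 i).1 (n2 i).2.2.symm]
    rfl
  have j5 : (chi D φ : ℤ) = J(D | 5) := h5 ▸ chi_frob (n5 2 (by decide)) hφ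
  have d5 : ∑ i, aleg (l i) 5 = xi D φ := by simp only [xD, f5]
  refine ⟨x, y, a, c, s, ⟨fun i => ?_, fun i => ?_, ?_, ?_, ?_⟩, fun g => ⟨ea g, eb' g⟩⟩
  · obtain ⟨w, φ, hw, hφ, e1, -⟩ := bad i
    obtain ⟨⟨-, k3, k5⟩, k⟩ := fr i w φ hw hφ
    rw [k, ← k3, ← k5]
    linear_combination e1 - ea φ + mu1_two (x i * xi D φ)
  · obtain ⟨w, φ, hw, hφ, -, e1⟩ := bad i
    obtain ⟨⟨k1, k3, -⟩, k⟩ := fr i w φ hw hφ
    rw [k, ← k3, ← k1]
    linear_combination e1 - eb' φ + mu1_two (y i * xi D φ) + mu1_two ((x i + y i) * xi (-1) φ)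
  · have k : ∀ i, xi (pstar (l i)) cc = aleg (l i) (-1) := fun i => axd_cc (hl2 i)
    simpa only [ea, eb', xD, k, xi_cc_neg (a := -1) (by norm_num), xi_cc_neg (a := -3) (by norm_num),
      xi_cc (a := 5) (by norm_num), mul_one, mul_zero, add_zero, mul_comm (aleg _ _)] using
      loc_inf sD.ne_zero h.inf
  · rw [d5]
    rcases b4b_cases (xi D φ) with k | k
    · rw [k, zero_mul]
    · have := loc_five_neg h5 (by rw [← j5, xi_eq_one.1 k]; rfl) (h.loc w5) τ5 t5.1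
      simpa [ea, i3 (by omega) t5.1, g5, l5, k] using this
  · rw [d5]
    rcases b4b_cases (xi D φ) with k | k
    · have := loc_five_pos h5 (by rw [← j5, xi_eq_zero.1 k]; rfl) (h.loc w5) φ hφ.1
      rw [eb', xi_dec (c := -1) (by omega) (by rw [h5]; norm_num) hφ.1,
        xi_eq_one.2 (Units.ext (by
          rw [chi_frob (by rw [h5]; decide) hφ, h5]; norm_num) : chi (-3) φ = -1)] at this
      simp only [f5, mul_zero, mul_one, zero_add, mul_comm (y _)] at this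
      rw [this, mul_zero]
    · rw [k, mu1_two, zero_mul]

end Pool.Agent.Lib.MP_696deb_nt.B2
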