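import Pool.Agent.Lib.MP_696deb_nt.B2.AX0

/-! The linear equations have at most eight solutions. -/

set_option autoImplicit false

open scoped NNReal Classical
open Finset NumberTheorySymbols

namespace Pool.Agent.Lib.MP_696deb_nt.B2

theorem SelV.add {ι : Type} [Fintype ι] {l : ι → ℕ} {x y x' y' : ι → ZMod 2}
    {a c s a' c' s' : ZMod 2} (h : SelV l x y a c s) (h' : SelV l x' y' a' c' s') :
    SelV l (x + x') (y + y') (a + a') (c + c') (s + s') := by
  have k : ∀ (u v v' : ι → ZMod 2) (i : ι), ∑ k, u k * ((v + v') k + (v + v') i) =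
      ∑ k, u k * (v k + v i) + ∑ k, u k * (v' k + v' i) := fun u v v' i => by
    rw [← sum_add_distrib]
    exact sum_congr rfl fun k _ => by simp only [Pi.add_apply]; ring
  have k' : ∀ u v v' : ι → ZMod 2, ∑ k, u k * (v + v') k = ∑ k, u k * v k + ∑ k, u k * v' k :=
    fun u v v' => by simp only [Pi.add_apply, mul_add, sum_add_distrib]
  refine ⟨fun i => ?_, fun i => ?_, ?_, ?_, ?_⟩
  · rw [k]
    linear_combination h.e1 i + h'.e1 i
  · rw [k, Pi.add_apply, Pi.add_apply]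
    linear_combination h.e2 i + h'.e2 i
  · rw [k', k']
    linear_combination h.e3 + h'.e3
  · linear_combination h.e4 + h'.e4
  · rw [k']
    linear_combination h.e5 + h'.e5

theorem axe_two (x : ZMod 2) : x + x = 0 := CharTwo.add_self_eq_zero x

theorem axe_neg_one {p : ℕ} (hp : p.Prime) : aleg p (-1) = if p % 4 = 3 then 1 else 0 := by
  have := Fact.mk hp
  have h : aleg p (-1) = 0 ↔ p % 4 ≠ 3 := by
    rw [aleg_eq_zero_iff]
    push_cast
    exact ZMod.exists_sq_eq_neg_one_iff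
  split_ifs with k
  · exact (zmod_two_cases _).resolve_left fun e => h.1 e k
  · exact h.2 k

theorem axe_neg {p : ℕ} (hp : p.Prime) (h4 : p % 4 = 1) {a : ℤ} (ha : ¬ (p : ℤ) ∣ a) :
    aleg p (-a) = aleg p a := by
  rw [neg_eq_neg_one_mul, aleg_mul hp (not_dvd_of_natAbs_eq' hp) ha, axe_neg_one hp,
    if_neg (by omega), zero_add]

theorem axe_pstar {p q : ℕ} (hp : p.Prime) (h4 : p % 4 = 1) (hq : q.Prime) (h : p ≠ q) :
    aleg p (pstar q) = aleg p q := by
  unfold pstar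
  split_ifs
  · rfl
  · exact axe_neg hp h4 (not_dvd_of_natAbs_eq hp hq h (by simp))

theorem axe_ne {p : ℕ} (h : ¬ p ∣ 30) : p ≠ 2 ∧ p ≠ 3 ∧ p ≠ 5 := by
  refine ⟨?_, ?_, ?_⟩ <;> rintro rfl <;> exact h (by norm_num)

theorem axe_three {p : ℕ} (hp : p.Prime) (h : ¬ p ∣ 30) (h3 : p % 3 = 1) : aleg p (-3) = 0 := by
  rw [show (-3 : ℤ) = pstar 3 from rfl,
    aleg_pstar hp Nat.prime_three (axe_ne h).1 (by norm_num) (axe_ne h).2.1, aleg_eq_zero_iff,
    Int.cast_natCast, ← ZMod.natCast_mod, h3]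
  exact IsSquare.one

theorem axe_five {p : ℕ} (hp : p.Prime) (h : ¬ p ∣ 30) (h5 : p % 5 = 2) : aleg p 5 = 1 := by
  rw [show (5 : ℤ) = pstar 5 from rfl,
    aleg_pstar hp Nat.prime_five (axe_ne h).1 (by norm_num) (axe_ne h).2.2]
  exact (zmod_two_cases _).resolve_left fun e =>
    not_isSquare_five (z := p) (by omega) (aleg_eq_zero_iff.1 e)

variable {d : ℤ} {R P : Type} [Fintype R] [Fintype P] {p q : R ⊕ P → ℕ} {k₁ k₃ : R}

theorem Fam.pq_ne (F : Fam d p q k₁ k₃) (i j : R ⊕ P) : p i ≠ q j := fun e => by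
  simpa using F.inj (a₁ := .inl i) (a₂ := .inr j) e

theorem Fam.p_inj (F : Fam d p q k₁ k₃) : Function.Injective p := fun i j e => by
  simpa using F.inj (a₁ := .inl i) (a₂ := .inl j) e

theorem Fam.q_inj (F : Fam d p q k₁ k₃) : Function.Injective q := fun i j e => by
  simpa using F.inj (a₁ := .inr i) (a₂ := .inr j) e

/-- The sum of symbols at one of the primes `q`. -/
theorem Fam.sum_q (F : Fam d p q k₁ k₃) {v : R ⊕ (R ⊕ P) → ZMod 2} (hv : ∑ j, v (.inr j) = 0)
    (j : R ⊕ P) : ∑ k, aleg (famL p q (.inr j)) (pstar (famL p q k)) * (v k + v (.inr j)) =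
      Sum.elim (fun k => v (.inl k)) (fun i => v (.inr (.inr i))) j := by
  have h4 : q j % 4 = 1 := by have := F.q8 j; omega
  have e1 : ∑ i, aleg (q j) (pstar (q i)) * (v (.inr i) + v (.inr j)) = v (.inr j) := by
    have : ∀ i, aleg (q j) (pstar (q i)) * (v (.inr i) + v (.inr j)) =
        v (.inr i) + v (.inr j) := fun i => by
      by_cases e : i = j
      · rw [e, axe_two, mul_zero]
      · rw [axe_pstar (F.qp j).1 h4 (F.qp i).1 fun k => e (F.q_inj k).symm, F.qq i j e, one_mul]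
    obtain ⟨m, hm⟩ := F.odd
    rw [sum_congr rfl fun i _ => this i, sum_add_distrib, hv, sum_const, card_univ, hm,
      nsmul_eq_mul]
    push_cast
    linear_combination m * axe_two (v (.inr j))
  rw [Fintype.sum_sum_type]
  simp only [famL, Sum.elim_inl, Sum.elim_inr, e1]
  simp only [axe_pstar (F.qp j).1 h4 (F.pp _).1 (F.pq_ne _ j).symm, F.pq]
  rcases j with k | i
  · simp [add_assoc, axe_two]
  · simp

/-- The sum of symbols at one of the primes `p`. -/
theorem Fam.sum_p (F : Fam d p q k₁ k₃) (v : R ⊕ (R ⊕ P) → ZMod 2) (k : R) :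
    ∑ i, aleg (famL p q (.inl k)) (pstar (famL p q i)) * (v i + v (.inl k)) =
      ∑ i, aleg (p (.inl k)) (pstar (p (.inl i))) * (v (.inl i) + v (.inl k)) +
        (v (.inr (.inl k)) + v (.inl k)) := by
  rw [Fintype.sum_sum_type]
  simp only [famL, Sum.elim_inl, Sum.elim_inr]
  simp only [aleg_pstar (F.pp _).1 (F.qp _).1 (axe_ne (F.pp _).2).1 (axe_ne (F.qp _).2).1
    (F.pq_ne _ _), F.pq]
  simp

theorem Fam.zero (F : Fam d p q k₁ k₃) {x y : R ⊕ (R ⊕ P) → ZMod 2} {a c s : ZMod 2}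
    (h : SelV (famL p q) x y a c s) (hx : ∑ j, x (.inr j) = 0) (hy : ∑ j, y (.inr j) = 0)
    (hs : s = a) : x = 0 ∧ y = 0 ∧ a = 0 ∧ c = 0 ∧ s = 0 := by
  subst hs
  have r1 := F.r1
  have r3 := F.r3
  have h4 : ∀ j, q j % 4 = 1 := fun j => by have := F.q8 j; omega
  have q3 : ∀ j, aleg (q j) (-3) = if j = .inl k₃ then 1 else 0 := fun j => by
    rw [axe_neg (F.qp j).1 (h4 j) (not_dvd_of_natAbs_eq (F.qp j).1 Nat.prime_three
      (axe_ne (F.qp j).2).2.1 rfl), F.q3]
  have q1 : ∀ j, aleg (q j) (-1) = 0 := fun j => by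
    rw [axe_neg_one (F.qp j).1, if_neg (by have := h4 j; omega)]
  have a1 := fun j => h.e1 (.inr j)
  have a2 := fun j => h.e2 (.inr j)
  have b1 := fun k => h.e1 (.inl k)
  have b2 := fun k => h.e2 (.inl k)
  simp only [F.sum_q hx] at a1
  simp only [F.sum_q hy] at a2
  simp only [F.sum_p] at b1 b2
  simp only [famL, Sum.elim_inl, Sum.elim_inr, q1, q3, F.q5, mul_zero, zero_add] at a1 a2 b1 b2
  have n1 := F.ne
  have n3 := F.ne.symm
  have xr : ∀ k, x (.inl k) = (if k = k₃ then s else 0) + if k = k₁ ∨ k = k₃ then c else 0 :=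
    fun k => by simpa using (CharTwo.add_eq_zero.1 (a1 (.inl k))).symm
  have yr : ∀ k, y (.inl k) = if k = k₃ then s else 0 :=
    fun k => by simpa using (CharTwo.add_eq_zero.1 (a2 (.inl k))).symm
  have ε1 : aleg (p (.inl k₁)) (-1) = 1 := by rw [axe_neg_one (F.pp _).1, if_pos (by omega)]
  have ε3 : aleg (p (.inl k₃)) (-1) = 0 := by rw [axe_neg_one (F.pp _).1, if_neg (by omega)]
  have two : ∀ u v : R → ZMod 2, (∀ k, k ≠ k₁ → k ≠ k₃ → v k = 0) →
      ∑ k, u k * v k = u k₁ * v k₁ + u k₃ * v k₃ := fun u v hv =>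
    Fintype.sum_eq_add k₁ k₃ n1 fun k hk => by rw [hv k hk.1 hk.2, mul_zero]
  have x0 : ∀ k, k ≠ k₁ → k ≠ k₃ → x (.inl k) = 0 := fun k e e' => by simp [xr, e, e']
  have y0 : ∀ k, k ≠ k₁ → k ≠ k₃ → y (.inl k) = 0 := fun k _ e' => by simp [yr, e']
  have x1 : x (.inl k₁) = c := by simp [xr, n1]
  have y1 : y (.inl k₁) = 0 := by simp [yr, n1]
  have y3 : y (.inl k₃) = s := by simp [yr]
  have hc : c = s := by
    have e := h.e3
    simp only [Fintype.sum_sum_type (α₁ := R) (α₂ := R ⊕ P), famL, Sum.elim_inl, Sum.elim_inr, q1,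
      zero_mul, sum_const_zero, add_zero] at e
    rw [two _ _ x0, two _ _ y0, ε1, ε3, x1, y1] at e
    linear_combination e - axe_two s + (∑ k, aleg (p (.inl k)) (-1)) * axe_two s
  subst hc
  have ρ3 : ∀ k, k ≠ k₃ → aleg (p (.inl k₃)) (pstar (p (.inl k))) = 0 := fun k e => by
    rw [axe_pstar (F.pp _).1 (by omega) (F.pp _).1 fun e' => e (by simpa using (F.p_inj e').symm),
      F.rr k e]
  have z1 : y (.inr (.inl k₁)) = 0 := by
    have e := b2 k₁
    rw [y1, x1, axe_three (F.pp _).1 (F.pp _).2 (by omega), two _ _ (by simpa using y0),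
      aleg_pstar (F.pp _).1 (F.pp (.inl k₃)).1 (axe_ne (F.pp _).2).1 (axe_ne (F.pp _).2).1
        fun e' => n1 (by simpa using F.p_inj e'), F.rr k₁ n1, y1] at e
    simpa [axe_two] using e
  have z3 : y (.inr (.inl k₃)) = c := by
    have e := b2 k₃
    rw [ε3, axe_three (F.pp _).1 (F.pp _).2 (by omega), sum_eq_zero fun k _ => by
      by_cases e' : k = k₃
      · rw [e', axe_two, mul_zero]
      · rw [ρ3 k e', zero_mul], y3] at e
    simpa [CharTwo.add_eq_zero] using e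
  have hc : c = 0 := by
    have e := h.e5
    have e' : ∑ i, aleg (famL p q i) 5 * y i = 0 := by
      rw [Fintype.sum_sum_type]
      simp only [famL, Sum.elim_inl, Sum.elim_inr, F.q5]
      rw [two _ _ y0, y1, y3, axe_five (F.pp (.inl k₃)).1 (F.pp _).2 (by omega),
        Fintype.sum_eq_add (.inl k₁) (.inl k₃) (by simpa using n1) fun j hj => by
          simp [hj.1, hj.2], z1, z3]
      simp [axe_two]
    rw [e'] at e
    linear_combination e - h.e4
  subst hc
  have x2 : ∀ k, x (.inl k) = 0 := fun k => by simp [xr]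
  have y2 : ∀ k, y (.inl k) = 0 := fun k => by simp [yr]
  refine ⟨funext ?_, funext ?_, rfl, rfl, rfl⟩
  · rintro (k | k | i)
    · exact x2 k
    · simpa [x2] using b1 k
    · simpa using a1 (.inr i)
  · have x3 : ∀ k, y (.inr (.inl k)) = 0 := fun k => by simpa [x2, y2] using b2 k
    rintro (k | k | i)
    · exact y2 k
    · exact x3 k
    · simpa using a2 (.inr i)

theorem Fam.card_le (F : Fam d p q k₁ k₃) :
    (univ.filter fun v : (R ⊕ (R ⊕ P) → ZMod 2) × (R ⊕ (R ⊕ P) → ZMod 2) × ZMod 2 × ZMod 2 × ZMod 2 =>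
      SelV (famL p q) v.1 v.2.1 v.2.2.1 v.2.2.2.1 v.2.2.2.2).card ≤ 8 := by
  refine (card_le_card_of_injOn (t := (univ : Finset (ZMod 2 × ZMod 2 × ZMod 2)))
    (fun v => (∑ j, v.1 (.inr j), ∑ j, v.2.1 (.inr j), v.2.2.2.2 + v.2.2.1))
    (fun _ _ => mem_univ _) ?_).trans (by simp)
  rintro ⟨x, y, a, c, s⟩ h ⟨x', y', a', c', s'⟩ h' e
  simp only [coe_filter, mem_univ, true_and, Set.mem_ofPred_eq, Prod.mk.injEq] at h h' e
  obtain ⟨e1, e2, e3, e4, e5⟩ := F.zero (h.add h')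
    (by simp only [Pi.add_apply, sum_add_distrib, e.1, axe_two])
    (by simp only [Pi.add_apply, sum_add_distrib, e.2.1, axe_two])
    (by linear_combination e.2.2 - axe_two a + axe_two s')
  have k : ∀ {u v : R ⊕ (R ⊕ P) → ZMod 2}, u + v = 0 → u = v := fun e =>
    funext fun i => CharTwo.add_eq_zero.1 (congrFun e i)
  rw [k e1, k e2, CharTwo.add_eq_zero.1 e3, CharTwo.add_eq_zero.1 e4, CharTwo.add_eq_zero.1 e5]

end Pool.Agent.Lib.MP_696deb_nt.B2
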