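import Pool.Agent.Lib.MP_696deb_nt.B2.AX0

/-! Primes with prescribed quadratic residue symbols. -/

set_option autoImplicit false

open scoped NNReal Classical
open Finset NumberTheorySymbols

namespace Pool.Agent.Lib.MP_696deb_nt.B2

theorem axf_congr {p a b : ℕ} (h : a ≡ b [MOD p]) : aleg p a = aleg p b := by
  rw [aleg, aleg, Int.cast_natCast, Int.cast_natCast, (ZMod.natCast_eq_natCast_iff _ _ _).2 h]

theorem axf_symm {p q : ℕ} (hp : p.Prime ∧ ¬ p ∣ 30) (hq : q.Prime ∧ ¬ q ∣ 30) (h : p ≠ q)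
    (h4 : p % 4 = 1 ∨ q % 4 = 1) : aleg p q = aleg q p := by
  have p2 : p ≠ 2 := fun e => hp.2 (by rw [e]; norm_num)
  have q2 : q ≠ 2 := fun e => hq.2 (by rw [e]; norm_num)
  rcases h4 with k | k
  · rw [← aleg_pstar hq.1 hp.1 q2 p2 h.symm, pstar, if_pos k]
  · rw [← aleg_pstar hp.1 hq.1 p2 q2 h, pstar, if_pos k]

theorem exists_prime_aleg (S : Finset ℕ) (hS : ∀ p ∈ S, p.Prime ∧ ¬ p ∣ 30) (ε : ℕ → ZMod 2)
    {a : ℕ} (ha : a.Coprime 120) (N : ℕ) :
    ∃ q > N, q.Prime ∧ q % 120 = a % 120 ∧ ∀ p ∈ S, aleg p q = ε p := by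
  have h1 : ∀ p ∈ S, ∃ b : ℕ, ¬ p ∣ b ∧ aleg p b = ε p := fun p hp => by
    have := Fact.mk (hS p hp).1
    rcases zmod_two_cases (ε p) with e | e
    · exact ⟨1, (hS p hp).1.not_dvd_one, by rw [e, Nat.cast_one, aleg_one]⟩
    obtain ⟨b, hb⟩ := FiniteField.exists_nonsquare (F := ZMod p) (by
      rw [ZMod.ringChar_zmod_n]
      rintro rfl
      exact (hS 2 hp).2 (by norm_num))
    refine ⟨b.val, fun k => hb ?_, ?_⟩
    · rw [← ZMod.natCast_zmod_val b, (ZMod.natCast_eq_zero_iff _ _).2 k]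
      exact IsSquare.zero
    · rw [e, aleg, if_neg (by simpa using hb)]
  choose! b hb using h1
  obtain ⟨k, hk⟩ := Nat.chineseRemainderOfFinset b id S (fun p hp => (hS p hp).1.ne_zero)
    fun p hp q hq e => (Nat.coprime_primes (hS p hp).1 (hS q hq).1).mpr e
  have h2 : (∏ p ∈ S, p).Coprime 120 := Nat.Coprime.prod_left fun p hp =>
    (((hS p hp).1.coprime_iff_not_dvd.2 (hS p hp).2).pow_right 3).coprime_dvd_right (by norm_num)
  obtain ⟨m, m1, m2⟩ := Nat.chineseRemainder h2 k a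
  have h3 : ∀ p ∈ S, m ≡ b p [MOD p] := fun p hp =>
    (m1.of_dvd (dvd_prod_of_mem _ hp)).trans (hk p hp)
  obtain ⟨l, h5, h6, h7⟩ := Nat.forall_exists_prime_gt_and_modEq N (q := (∏ p ∈ S, p) * 120) (a := m)
    (mul_ne_zero (prod_ne_zero_iff.mpr fun p hp => (hS p hp).1.ne_zero) (by norm_num))
    (Nat.Coprime.mul_right (Nat.Coprime.prod_right fun p hp =>
      ((hS p hp).1.coprime_iff_not_dvd.2 fun k => (hb p hp).1 (((h3 p hp).dvd_iff dvd_rfl).1 k)).symm)
      (by rwa [Nat.Coprime, m2.gcd_eq]))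
  exact ⟨l, h5, h6, (h7.of_mul_left _).trans m2, fun p hp => (hb p hp).2 ▸
    axf_congr (((h7.of_mul_right _).of_dvd (dvd_prod_of_mem _ hp)).trans (h3 p hp))⟩

theorem exists_primes {ι : Type} [Fintype ι] (S : Finset ℕ) (hS : ∀ p ∈ S, p.Prime ∧ ¬ p ∣ 30)
    (c : ι → ℕ) (hc : ∀ i, (c i).Coprime 120) (E : ι → ℕ → ZMod 2) (M : ι → ι → ZMod 2)
    (hM : ∀ i j, M i j = M j i) : ∃ l : ι → ℕ, Function.Injective l ∧
      (∀ i, (l i).Prime ∧ ¬ l i ∣ 30 ∧ l i ∉ S ∧ l i % 120 = c i % 120 ∧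
        ∀ p ∈ S, aleg p (l i) = E i p) ∧
      ∀ i j, i ≠ j → c i % 4 = 1 ∨ c j % 4 = 1 → aleg (l i) (l j) = M i j := by
  have key : ∀ t : Finset ι, ∃ l : ι → ℕ, Set.InjOn l t ∧
      (∀ i ∈ t, (l i).Prime ∧ ¬ l i ∣ 30 ∧ l i ∉ S ∧ l i % 120 = c i % 120 ∧
        ∀ p ∈ S, aleg p (l i) = E i p) ∧
      ∀ i ∈ t, ∀ j ∈ t, i ≠ j → c i % 4 = 1 ∨ c j % 4 = 1 → aleg (l i) (l j) = M i j := by
    intro t
    induction t using Finset.induction_on with
    | empty => exact ⟨0, by simp, by simp, by simp⟩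
    | insert a t ha ih =>
      obtain ⟨l, h1, h2, h3⟩ := ih
      obtain ⟨r, r1, r2, r3, r4⟩ := exists_prime_aleg (S ∪ t.image l) (fun p hp => by
          rcases mem_union.1 hp with hp | hp
          · exact hS p hp
          · obtain ⟨i, hi, rfl⟩ := mem_image.1 hp
            exact ⟨(h2 i hi).1, (h2 i hi).2.1⟩)
        (fun p => if p ∈ S then E a p else ∑ i ∈ t with l i = p, M i a) (hc a)
        ((S ∪ t.image l).sup id + 30)
      have r5 : r ∉ S ∪ t.image l := fun h => by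
        have : r ≤ (S ∪ t.image l).sup id := le_sup (f := id) h
        omega
      have r6 : ¬ r ∣ 30 := fun h => by
        have := Nat.le_of_dvd (by norm_num) h
        omega
      have r7 : ∀ i ∈ t, l i ≠ r := fun i hi e => r5 (mem_union_right _ (e ▸ mem_image_of_mem l hi))
      have r8 : ∀ i ∈ t, aleg (l i) r = M i a := fun i hi => by
        rw [r4 _ (mem_union_right _ (mem_image_of_mem l hi)), if_neg (h2 i hi).2.2.1,
          sum_eq_single_of_mem i (by simp [hi]) fun j hj e => absurd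
            (h1 (mem_filter.1 hj).1 hi (mem_filter.1 hj).2) e]
      have u : ∀ i ∈ t, Function.update l a r i = l i := fun i hi =>
        Function.update_of_ne (by rintro rfl; exact ha hi) _ _
      refine ⟨Function.update l a r, ?_, ?_, ?_⟩
      · intro i hi' j hj' e
        rcases mem_insert.1 hi' with rfl | hi <;> rcases mem_insert.1 hj' with rfl | hj
        · rfl
        · exact absurd (by rwa [Function.update_self, u j hj, eq_comm] at e) (r7 j hj)
        · exact absurd (by rwa [Function.update_self, u i hi] at e) (r7 i hi)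
        · exact h1 hi hj (by rwa [u i hi, u j hj] at e)
      · intro i hi
        rcases mem_insert.1 hi with rfl | hi
        · rw [Function.update_self]
          exact ⟨r2, r6, fun h => r5 (mem_union_left _ h), r3, fun p hp => by
            rw [r4 p (mem_union_left _ hp), if_pos hp]⟩
        · rw [u i hi]
          exact h2 i hi
      · intro i hi' j hj' e k
        rcases mem_insert.1 hi' with rfl | hi <;> rcases mem_insert.1 hj' with rfl | hj
        · exact absurd rfl e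
        · have := (h2 j hj).2.2.2.1
          rw [Function.update_self, u j hj, hM, ← r8 j hj]
          exact axf_symm ⟨r2, r6⟩ ⟨(h2 j hj).1, (h2 j hj).2.1⟩ (r7 j hj).symm (by omega)
        · rw [Function.update_self, u i hi, r8 i hi]
        · rw [u i hi, u j hj, h3 i hi j hj e k]
  obtain ⟨l, h1, h2, h3⟩ := key univ
  exact ⟨l, fun i j e => h1 (by simp) (by simp) e, fun i => h2 i (mem_univ _),
    fun i j => h3 i (mem_univ _) j (mem_univ _)⟩

theorem axf_fam {R : Type} [Fintype R] (S : Finset ℕ) (hS : ∀ p ∈ S, p.Prime ∧ ¬ p ∣ 30)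
    {k₁ k₃ : R} (n : k₁ ≠ k₃) (c : R → ℕ) (hc : ∀ k, (c k).Coprime 120) (c1 : c k₁ = 31)
    (c3 : c k₃ = 97) (hp : ((∏ k, c k) * ∏ j : S, (j : ℕ)) % 120 = 19)
    (ho : Odd (Fintype.card (R ⊕ S))) :
    ∃ p q : R ⊕ S → ℕ, Fam (∏ j : S, pstar j) p q k₁ k₃ := by
  obtain ⟨c', e1, e3, e0⟩ : ∃ c' : R ⊕ S → ℕ, c' (.inl k₁) = 97 ∧ c' (.inl k₃) = 17 ∧
      ∀ j, j ≠ .inl k₁ → j ≠ .inl k₃ → c' j = 1 :=
    ⟨fun j => if j = .inl k₁ then 97 else if j = .inl k₃ then 17 else 1, by simp, by simp [n.symm],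
      fun j a b => by simp [a, b]⟩
  have cc : ∀ j, j = .inl k₁ ∧ c' j = 97 ∨ j = .inl k₃ ∧ c' j = 17 ∨
      (j ≠ .inl k₁ ∧ j ≠ .inl k₃) ∧ c' j = 1 := fun j => by
    by_cases a : j = .inl k₁
    · exact .inl ⟨a, a ▸ e1⟩
    by_cases b : j = .inl k₃
    · exact .inr (.inl ⟨b, b ▸ e3⟩)
    · exact .inr (.inr ⟨⟨a, b⟩, e0 j a b⟩)
  obtain ⟨l, h1, h2, h3⟩ := exists_primes (ι := R ⊕ R ⊕ S) S hS (Sum.elim c c')
    (by
      rintro (k | j)
      · exact hc k
      · rcases cc j with a | a | a <;> rw [Sum.elim_inr, a.2] <;> norm_num)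
    (Sum.elim 0 fun j p => if ∃ h, j = .inr ⟨p, h⟩ then 1 else 0)
    (Sum.elim (fun k => Sum.elim 0 fun j => if .inl k = j then 1 else 0)
      fun j => Sum.elim (fun k => if .inl k = j then 1 else 0) 1)
    (by rintro (k | j) (k' | j') <;> rfl)
  have qc : ∀ j, l (.inr j) % 120 = c' j % 120 := fun j => (h2 (.inr j)).2.2.2.1
  have rc : ∀ k, l (.inl k) % 120 = c k % 120 := fun k => (h2 (.inl k)).2.2.2.1
  have c4 : ∀ j, c' j % 4 = 1 := fun j => by have := cc j; omega
  have q8 : ∀ j, l (.inr j) % 8 = 1 := fun j => by have := cc j; have := qc j; omega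
  have q4 : ∀ j, l (.inr j) % 4 = 1 := fun j => by have := q8 j; omega
  have lp : ∀ i, (l i).Prime ∧ ¬ l i ∣ 30 := fun i => ⟨(h2 i).1, (h2 i).2.1⟩
  have k : ∀ (i) (p : S), l i ≠ p := fun i p e => (h2 i).2.2.1 (e ▸ p.2)
  have m5 : ∀ j b, c' j % 5 = b % 5 → aleg (l (.inr j)) 5 = aleg 5 b := fun j b e => by
    have := q8 j
    have := qc j
    rw [show (5 : ℤ) = pstar 5 from rfl, aleg_pstar (lp _).1 Nat.prime_five (by omega)
      (by norm_num) (by omega), axf_congr (b := b) (by rw [Nat.ModEq]; omega)]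
  have m3 : ∀ j b, c' j % 3 = b % 3 → aleg (l (.inr j)) 3 = aleg 3 b := fun j b e => by
    have := q8 j
    have := qc j
    rw [show (3 : ℤ) = (3 : ℕ) from rfl, ← aleg_pstar Nat.prime_three (lp _).1 (by norm_num)
      (by omega) (by omega), pstar, if_pos (q4 j), axf_congr (b := b) (by rw [Nat.ModEq]; omega)]
  have a5 : aleg 5 (2 : ℕ) = 1 := if_neg (by decide)
  have a3 : aleg 3 (2 : ℕ) = 1 := if_neg (by decide)
  refine ⟨Sum.elim (fun k => l (.inl k)) (fun p => p), fun j => l (.inr j), ?_, fun j => lp _, ?_,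
    ho, rfl, q8, ?_, fun i j e => h3 (.inr j) (.inr i) (by simpa using e.symm) (.inl (c4 j)), n,
    fun j => ?_, fun j => ?_, (rc k₁).trans (by rw [c1]), (rc k₃).trans (by rw [c3]),
    fun k hk => h3 (.inl k₃) (.inl k) (by simpa using hk.symm) (.inl (by rw [Sum.elim_inl, c3])),
    ?_, ?_⟩
  · rintro (k | p)
    · exact lp _
    · exact hS p p.2
  · rintro ((a | a) | a) ((b | b) | b) e
    · simpa using h1 e
    · exact absurd e (k _ _)
    · simpa using h1 e
    · exact absurd e.symm (k _ _)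
    · rw [Subtype.ext e]
    · exact absurd e.symm (k _ _)
    · simpa using h1 e
    · exact absurd e (k _ _)
    · simpa using h1 e
  · rintro (i | p) j
    · exact (h3 (.inr j) (.inl i) (by simp) (.inl (c4 j))).trans (by by_cases e : .inl i = j <;> simp [e])
    · rw [Sum.elim_inr, axf_symm (lp _) (hS p p.2) (k _ _) (.inl (q4 j)), (h2 _).2.2.2.2 p p.2]
      simp [eq_comm]
  · rcases cc j with ⟨a, b⟩ | ⟨a, b⟩ | ⟨a, b⟩
    · rw [if_pos (.inl a), m5 j 2 (by omega), a5]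
    · rw [if_pos (.inr a), m5 j 2 (by omega), a5]
    · rw [if_neg (not_or.2 a), m5 j 1 (by omega), Nat.cast_one, aleg_one]
  · rcases cc j with ⟨a, b⟩ | ⟨a, b⟩ | ⟨a, b⟩
    · rw [if_neg (by simp [a, n]), m3 j 1 (by omega), Nat.cast_one, aleg_one]
    · rw [if_pos a, m3 j 2 (by omega), a3]
    · rw [if_neg a.2, m3 j 1 (by omega), Nat.cast_one, aleg_one]
  · rw [Fintype.prod_sum_type, ← hp]
    exact (Nat.ModEq.prod fun k _ => rc k).mul_right _
  · refine Eq.trans (Nat.ModEq.prod fun j _ => qc j) ?_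
    rw [Fintype.prod_eq_mul (.inl k₁) (.inl k₃) (by simpa using n) fun j a => e0 j a.1 a.2, e1, e3]
    norm_num

theorem exists_fam {d : ℤ} (h : Cls0 d) : ∃ (R P : Type) (_ : Fintype R) (_ : Fintype P)
    (p q : R ⊕ P → ℕ) (k₁ k₃ : R), Fam d p q k₁ k₃ := by
  have hN : Squarefree d.natAbs := Int.squarefree_natAbs.2 h.sqf
  have h4 := h.m4
  have hS : ∀ p ∈ d.natAbs.primeFactors, p.Prime ∧ ¬ p ∣ 30 := fun p hp => by
    have hp' := Nat.mem_primeFactors.1 hp
    refine ⟨hp'.1, fun k => ?_⟩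
    have k1 := Int.natCast_dvd.2 hp'.2.1
    have k2 : p ∣ 2 * 3 * 5 := k
    simp only [hp'.1.dvd_mul, Nat.prime_dvd_prime_iff_eq hp'.1, Nat.prime_two, Nat.prime_three,
      Nat.prime_five] at k2
    rcases k2 with (rfl | rfl) | rfl
    · omega
    · exact h.m3 k1
    · exact h.m5 k1
  have hP : ∏ j : d.natAbs.primeFactors, (j : ℕ) = d.natAbs := by
    rw [prod_coe_sort _ fun p => p, Nat.prod_primeFactors_of_squarefree hN]
  have hc : d.natAbs.Coprime 120 := hP ▸ Nat.Coprime.prod_left fun p _ =>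
    (((hS p p.2).1.coprime_iff_not_dvd.2 (hS p p.2).2).pow_right 3).coprime_dvd_right (by norm_num)
  obtain ⟨m, -, hm⟩ := Nat.exists_mul_mod_eq_of_coprime 37 hc (by norm_num)
  have mc : m.Coprime 120 := Nat.Coprime.coprime_mul_left (k := d.natAbs) (by
    rw [Nat.Coprime, Nat.gcd_comm, Nat.gcd_rec, hm]
    norm_num)
  obtain ⟨p, q, F⟩ := axf_fam (R := Fin 3 ⊕ Fin (d.natAbs.primeFactors.card % 2)) _ hS
    (k₁ := .inl 0) (k₃ := .inl 2) (by simp) (Sum.elim ![31, m, 97] 1)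
    (by
      rintro (k | k)
      · fin_cases k
        · exact (by norm_num : Nat.Coprime 31 120)
        · exact mc
        · exact (by norm_num : Nat.Coprime 97 120)
      · exact Nat.coprime_one_left _) rfl rfl
    (by
      rw [hP, Fintype.prod_sum_type, Fin.prod_univ_three]
      simp only [Sum.elim_inl, Sum.elim_inr, Pi.one_apply, prod_const_one]
      change 31 * m * 97 * 1 * d.natAbs % 120 = 19
      rw [show 31 * m * 97 * 1 * d.natAbs = 3007 * (d.natAbs * m) by ring, Nat.mul_mod, hm])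
    (by
      simp only [Fintype.card_sum, Fintype.card_fin, Fintype.card_coe, Nat.odd_iff]
      omega)
  rw [eq_of_natAbs_eq_of_emod ((natAbs_prod_signed natAbs_pstar _).trans hP)
    (prod_emod_four _ _ fun p _ => pstar_emod ((hS p p.2).1.eq_two_or_odd.resolve_left fun k =>
      (hS p p.2).2 (by rw [k]; norm_num))) h4] at F
  exact ⟨_, _, _, _, p, q, _, _, F⟩

end Pool.Agent.Lib.MP_696deb_nt.B2
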