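import Pool.Agent.Lib.MP_696deb_nt.B2.AXe

/-! The auxiliary field. -/

set_option autoImplicit false

open scoped NNReal Classical
open Finset NumberTheorySymbols

namespace Pool.Agent.Lib.MP_696deb_nt.B2

variable {d : ℤ} {R P : Type} [Fintype R] [Fintype P] {p q : R ⊕ P → ℕ} {k₁ k₃ : R}

theorem axg_sqf {ι : Type} [Fintype ι] {l : ι → ℕ} (hp : ∀ i, (l i).Prime)
    (hi : Function.Injective l) : Squarefree (∏ i, l i) :=
  Finset.squarefree_prod_of_pairwise_isCoprime (fun i _ j _ e =>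
    Nat.coprime_iff_isRelPrime.1 ((Nat.coprime_primes (hp i) (hp j)).2 fun h => e (hi h)))
    fun i _ => (hp i).squarefree

theorem axg_mem {ι : Type} [Fintype ι] {l : ι → ℕ} (hp : ∀ i, (l i).Prime) {r : ℕ} (hr : r.Prime)
    (h : r ∣ ∏ i, l i) : ∃ i, l i = r := by
  obtain ⟨i, -, k⟩ := (Prime.dvd_finsetProd_iff hr.prime _).1 h
  exact ⟨i, ((Nat.prime_dvd_prime_iff_eq hr (hp i)).1 k).symm⟩

theorem axg_condB {ι : Type} [Fintype ι] {l : ι → ℕ} (hp : ∀ i, (l i).Prime)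
    (hi : Function.Injective l) (h : ∀ v : ι → ZMod 2,
      (∀ i, ∑ j, aleg (l i) (l j) * (v j + v i) = 0) → ∃ t, ∀ i, v i = t) :
    CondB ((∏ i, l i : ℕ) : ℤ) := by
  have hN := axg_sqf hp hi
  set N := ∏ i, l i
  have hm : ∀ i, l i ∈ N.primeFactors := fun i =>
    Nat.mem_primeFactors.2 ⟨hp i, dvd_prod_of_mem _ (mem_univ i), hN.ne_zero⟩
  let e : ι ≃ N.primeFactors := Equiv.ofBijective (fun i => ⟨l i, hm i⟩) ⟨fun i j k =>
    hi (congrArg Subtype.val k), fun r => (axg_mem hp (Nat.mem_primeFactors.1 r.2).1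
      (Nat.mem_primeFactors.1 r.2).2.1).imp fun _ => Subtype.ext⟩
  rw [condB_iff hN, condS_iff (fun p hp => (Nat.mem_primeFactors.mp hp).1) (fun q => by simp)]
  intro x hx
  obtain ⟨t, ht⟩ := h (x ∘ e) fun i => by
    have k := congrFun hx (e i)
    simp only [Matrix.mulVec, dotProduct, Pi.zero_apply] at k
    rw [← add_sum_erase _ _ (mem_univ (e i)), sum_congr rfl fun j hj => by
      rw [redei, if_neg (ne_of_mem_erase hj).symm], redei, if_pos rfl, sum_mul,
      ← sum_add_distrib] at k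
    rw [← k, eq_comm, ← sum_erase (a := i) _ (by rw [axe_two, mul_zero])]
    refine (sum_equiv e (by simp) fun j _ => ?_).symm
    rw [mul_add, add_comm]
    rfl
  refine (zmod_two_cases t).imp (fun k => ?_) fun k => ?_ <;>
    exact funext fun r => by simpa [k] using ht (e.symm r)

theorem axg_div {ι : Type} {l : ι → ℕ} (hp : ∀ i, (l i).Prime) (s : Finset ι) :
    ∀ {c : ℕ}, c ∣ ∏ i ∈ s, l i → ∃ t : Finset ι, ∏ i ∈ t, l i = c := by
  suffices ∀ c : ℕ, c ∣ ∏ i ∈ s, l i → ∃ t ⊆ s, ∏ i ∈ t, l i = c from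
    fun {_} h => (this _ h).imp fun _ => And.right
  induction s using Finset.induction_on with
  | empty => exact fun c h => ⟨∅, Subset.rfl, by simpa [eq_comm] using h⟩
  | insert a s ha ih =>
    intro c h
    rw [prod_insert ha] at h
    obtain ⟨u, v, hu, hv, rfl⟩ := exists_dvd_and_dvd_of_dvd_mul h
    obtain ⟨t, ht, rfl⟩ := ih v hv
    rcases (Nat.dvd_prime (hp a)).1 hu with rfl | rfl
    · exact ⟨t, ht.trans (subset_insert _ _), (one_mul _).symm⟩
    · exact ⟨insert a t, insert_subset_insert _ ht, prod_insert fun k => ha (ht k)⟩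

/-- The symbol of a divisor of a product of primes. -/
theorem axg_one {ι : Type} [Fintype ι] {l : ι → ℕ} (hp : ∀ i, (l i).Prime) {c : ℤ} (h0 : 0 < c)
    (h : c ∣ (∏ i, l i : ℕ)) (r : ι → ℕ) (hr : ∀ i, (r i).Prime) (ne : ∀ i j, r i ≠ l j)
    (hs : ∀ i j, aleg (r i) (l j) = if i = j then 1 else 0) (k : ∀ i, J(c | r i) = 1) : c = 1 := by
  lift c to ℕ using h0.le
  obtain ⟨t, rfl⟩ := axg_div hp univ (Int.natCast_dvd_natCast.1 h)
  rw [eq_empty_of_forall_notMem (s := t) fun i hi => ?_, prod_empty, Nat.cast_one]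
  have := Fact.mk (hr i)
  have e := aleg_eq_zero_iff.2 (ZMod.isSquare_of_jacobiSym_eq_one (k i))
  rw [Nat.cast_prod, aleg_prod (hr i) _ _ fun j _ =>
    not_dvd_of_natAbs_eq (hr i) (hp j) (ne i j) (by simp)] at e
  simp [hs, hi] at e

theorem Fam.qp' (F : Fam d p q k₁ k₃) (i j : R ⊕ P) :
    aleg (p i) (q j) = if i = j then 1 else 0 := by
  have := F.q8 j
  rw [← F.pq, ← aleg_pstar (F.pp i).1 (F.qp j).1 (axe_ne (F.pp _).2).1 (axe_ne (F.qp _).2).1
    (F.pq_ne _ _), pstar, if_pos (by omega)]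

theorem Fam.condB (F : Fam d p q k₁ k₃) : CondB (((∏ j, p j) * ∏ j, q j : ℕ) : ℤ) := by
  rw [← show ∏ i, Sum.elim p q i = (∏ j, p j) * ∏ j, q j by simp [Fintype.prod_sum_type]]
  refine axg_condB (by rintro (i | i); exacts [(F.pp i).1, (F.qp i).1]) F.inj fun v hv => ?_
  have h1 : ∀ j, v (.inl j) = ∑ i, v (.inr i) := fun j => by
    have h := hv (.inr j)
    have k : ∀ i, aleg (q j) (q i) * (v (.inr i) + v (.inr j)) = v (.inr i) + v (.inr j) :=
      fun i => by
        by_cases e : i = j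
        · rw [e, axe_two, mul_zero]
        · rw [F.qq i j e, one_mul]
    obtain ⟨m, hm⟩ := F.odd
    simp only [Fintype.sum_sum_type (α₁ := R ⊕ P) (α₂ := R ⊕ P), Sum.elim_inl, Sum.elim_inr, F.pq,
      k, ite_mul, one_mul, zero_mul, sum_ite_eq', mem_univ, if_true, sum_add_distrib, sum_const,
      card_univ, hm, nsmul_eq_mul] at h
    push_cast at h
    linear_combination h - axe_two (∑ i, v (.inr i)) - (m + 1) * axe_two (v (.inr j))
  have h2 : ∀ i, v (.inr i) = ∑ i, v (.inr i) := fun i => by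
    have h := hv (.inl i)
    simp only [Fintype.sum_sum_type (α₁ := R ⊕ P) (α₂ := R ⊕ P), Sum.elim_inl, Sum.elim_inr, F.qp',
      h1, axe_two, mul_zero, sum_const_zero, zero_add, ite_mul, one_mul, zero_mul, sum_ite_eq,
      mem_univ, if_true] at h
    exact CharTwo.add_eq_zero.1 h
  exact ⟨_, by rintro (i | i); exacts [h1 i, h2 i]⟩

theorem Fam.ctx (F : Fam d p q k₁ k₃) : Ctx d (∏ i, pstar (famL p q i)) ((∏ j, p j) * ∏ j, q j)
    (-(∏ j, p j : ℕ)) (∏ j, q j : ℕ) := by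
  have pa := F.pa
  have qb := F.qb
  have n11 : ((∏ j, p j) * ∏ j, q j) % 120 = 11 := by rw [Nat.mul_mod, pa, qb]
  have ps : ∀ j, pstar (p j) % 4 = 1 := fun j =>
    pstar_emod ((F.pp j).1.eq_two_or_odd.resolve_left (axe_ne (F.pp j).2).1)
  have e1 : ∏ j, pstar (p j) = -(∏ j, p j : ℕ) :=
    eq_of_natAbs_eq_of_emod (by
      rw [← Int.natAbsHom_apply, map_prod]
      simp only [Int.natAbsHom_apply, natAbs_pstar, Int.natAbs_neg, Int.natAbs_natCast])
      (prod_emod_four _ _ fun j _ => ps j) (by omega)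
  have e2 : ∀ j, pstar (q j) = q j := fun j => if_pos (by have := F.q8 j; omega)
  have dq : ∀ j, (q j : ℤ) ∣ (∏ j, q j : ℕ) := fun j =>
    Int.natCast_dvd_natCast.2 (dvd_prod_of_mem _ (mem_univ j))
  have jac : ∀ j c, aleg (q j) c = 1 → J(c | q j) = -1 := fun j c h =>
    have := Fact.mk (F.qp j).1
    ZMod.nonsquare_iff_jacobiSym_eq_neg_one.2 fun k => by simp [aleg_eq_zero_iff.2 k] at h
  refine ⟨⟨⟨?_, by omega, ?_⟩, by omega, ⟨7, by omega⟩, F.condB⟩, ?_, ?_, by push_cast; ring,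
    by omega, fun r hr h => ?_, ?_, ?_, fun c h0 h k => ?_, fun c h0 h k => ?_, ?_⟩
  · simpa [Fintype.prod_sum_type (f := Sum.elim p q)] using
      axg_sqf (by rintro (i | i); exacts [(F.pp i).1, (F.qp i).1]) F.inj
  · rw [Nat.Coprime, Nat.gcd_comm, Nat.gcd_rec, show _ % 15 = 11 by omega]
    norm_num
  · rw [Fintype.prod_sum_type, F.deq, Nat.cast_mul, ← neg_mul, ← e1,
      Fintype.prod_sum_type (f := fun j => pstar (p j))]
    simp only [famL, Sum.elim_inl, Sum.elim_inr, e2, Nat.cast_prod]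
    ring
  · exact F.deq ▸ prod_emod_four _ _ fun j _ => ps _
  · obtain ⟨j, rfl⟩ := axg_mem (fun j => (F.qp j).1) hr (Int.natCast_dvd_natCast.1 h)
    have := F.q8 j
    omega
  · rw [jacobiSym.mod_left' (a₂ := 1) (by omega), jacobiSym.one_left]
  · rw [Int.natAbs_neg, Int.natAbs_natCast, ← prod_image (f := fun x => x) F.p_inj.injOn,
      Nat.primeFactors_prod (forall_mem_image.2 fun j _ => (F.pp j).1), card_image_of_injective _ F.p_inj]
    exact F.odd
  · exact axg_one (fun j => (F.pp j).1) h0 (dvd_neg.1 h) q (fun j => (F.qp j).1)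
      (fun i j => (F.pq_ne j i).symm) (fun i j => by simp [F.pq, eq_comm])
      fun j => k _ (F.qp j).1 (dq j)
  · exact axg_one (fun j => (F.qp j).1) h0 h p (fun j => (F.pp j).1) F.pq_ne
      (fun i j => by simp [F.qp']) fun j => k _ (F.pp j).1
        (dvd_neg.2 (Int.natCast_dvd_natCast.2 (dvd_prod_of_mem _ (mem_univ j))))
  · rintro c (rfl | rfl | rfl)
    · exact ⟨_, (F.qp _).1, dq _, jac (.inl k₃) _ (by simp [F.q3])⟩
    · exact ⟨_, (F.qp _).1, dq _, jac (.inl k₁) _ (by simp [F.q5])⟩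
    · refine ⟨_, (F.qp _).1, dq _, jac (.inl k₁) _ ?_⟩
      rw [show (15 : ℤ) = 3 * 5 from rfl, aleg_mul (F.qp _).1
        (not_dvd_of_natAbs_eq (F.qp _).1 Nat.prime_three (axe_ne (F.qp _).2).2.1 rfl)
        (not_dvd_of_natAbs_eq (F.qp _).1 Nat.prime_five (axe_ne (F.qp _).2).2.2 rfl), F.q3, F.q5]
      simp [F.ne]

end Pool.Agent.Lib.MP_696deb_nt.B2
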