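import Pool.Agent.Lib.MP_696deb_nt.B2.D0

set_option autoImplicit false

open scoped NNReal Classical NumberTheorySymbols
open Filter Topology Finset

namespace Pool.Agent.Lib.MP_696deb_nt.B2

variable {α β γ : Type*} {H H' : Subgroup Gam}

theorem b1a_inf (h : Op H) (h' : Op H') : Op (H ⊓ H') := IsOpen.inter h h'

theorem b1a_nhds {W : Set Gam} (h : W ∈ 𝓝 (1 : Gam)) :
    ∃ U : Subgroup Gam, Op U ∧ U.Normal ∧ (U : Set Gam) ⊆ W := by
  obtain ⟨V, h1, h2, h3⟩ := mem_nhds_iff.1 h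
  obtain ⟨U, hU⟩ := ProfiniteGrp.exist_openNormalSubgroup_sub_open_nhds_of_one h2 h3
  exact ⟨U.toSubgroup, U.isOpen, U.isNormal', hU.trans h1⟩

theorem b1a_coset {U : Subgroup Gam} (hU : Op U) (x : Gam) : {g | x⁻¹ * g ∈ U} ∈ 𝓝 x :=
  (hU.preimage (continuous_const_mul x⁻¹)).mem_nhds (by simp)

theorem b1a_nhds' {x : Gam} {W : Set Gam} (h : W ∈ 𝓝 x) :
    ∃ U : Subgroup Gam, Op U ∧ U.Normal ∧ ∀ g, x⁻¹ * g ∈ U → g ∈ W := by
  have h1 : (fun g => x * g) ⁻¹' W ∈ 𝓝 (1 : Gam) :=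
    (continuous_const_mul x).continuousAt.preimage_mem_nhds (by simpa using h)
  obtain ⟨U, k1, k2, k3⟩ := b1a_nhds h1
  exact ⟨U, k1, k2, fun g hg => by simpa using k3 hg⟩

theorem b1a_open {f : Gam → α} (U : Subgroup Gam) (hU : Op U)
    (h : ∀ g ∈ H, ∀ k ∈ H, g⁻¹ * k ∈ U → f g = f k) : Sm H f := by
  obtain ⟨V, h1, h2, h3⟩ := b1a_nhds (hU.mem_nhds U.one_mem)
  exact ⟨V, h1, h2, fun g hg k hk e => h g hg k hk (h3 e)⟩

theorem Sm.mono {f : Gam → α} (h : Sm H f) (k : H' ≤ H) : Sm H' f := by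
  obtain ⟨U, h1, h2, h3⟩ := h
  exact ⟨U, h1, h2, fun g hg g' hg' => h3 g (k hg) g' (k hg')⟩

theorem Sm.congr {f f' : Gam → α} (h : Sm H f) (k : ∀ g ∈ H, f g = f' g) : Sm H f' := by
  obtain ⟨U, h1, h2, h3⟩ := h
  exact ⟨U, h1, h2, fun g hg g' hg' e => by rw [← k g hg, ← k g' hg', h3 g hg g' hg' e]⟩

theorem Sm.comp {f : Gam → α} (h : Sm H f) (φ : α → β) : Sm H fun g => φ (f g) := by
  obtain ⟨U, h1, h2, h3⟩ := h
  exact ⟨U, h1, h2, fun g hg g' hg' e => congrArg φ (h3 g hg g' hg' e)⟩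

theorem Sm.comp₂ {f : Gam → α} {f' : Gam → β} (h : Sm H f) (h' : Sm H f') (φ : α → β → γ) :
    Sm H fun g => φ (f g) (f' g) := by
  obtain ⟨U, h1, h2, h3⟩ := h
  obtain ⟨V, k1, -, k3⟩ := h'
  exact b1a_open _ (b1a_inf h1 k1) fun g hg g' hg' e =>
    congrArg₂ φ (h3 g hg g' hg' e.1) (k3 g hg g' hg' e.2)

theorem Sm.const (a : α) : Sm H fun _ => a := ⟨⊤, isOpen_univ, inferInstance, fun _ _ _ _ _ => rfl⟩

theorem Sm.pi {ι : Type*} [Finite ι] {δ : ι → Type*} {f : ∀ i, Gam → δ i} (h : ∀ i, Sm H (f i)) :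
    Sm H fun g i => f i g := by
  choose U h1 _ h3 using h
  refine b1a_open (⨅ i, U i) ?_ fun g hg g' hg' e =>
    funext fun i => h3 i g hg g' hg' (Subgroup.mem_iInf.1 e i)
  rw [Op, Subgroup.coe_iInf]
  exact isOpen_iInter_of_finite h1

/-- Translates and conjugates of smooth functions. -/
theorem Sm.conj {f : Gam → α} (h : Sm H f) (a b : Gam) (k : ∀ g ∈ H', a * g * b ∈ H) :
    Sm H' fun g => f (a * g * b) := by
  obtain ⟨U, h1, h2, h3⟩ := h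
  refine ⟨U, h1, h2, fun g hg g' hg' e => h3 _ (k g hg) _ (k g' hg') ?_⟩
  rw [show (a * g * b)⁻¹ * (a * g' * b) = b⁻¹ * (g⁻¹ * g') * b⁻¹⁻¹ by group]
  exact h2.conj_mem _ e _

theorem Sm.finite_range {f : Gam → α} (h : Sm H f) : (f '' (H : Set Gam)).Finite := by
  obtain ⟨U, h1, -, h3⟩ := h
  have : Finite (Gam ⧸ U) := U.quotient_finite_of_isOpen h1
  refine (Set.finite_range fun c : Gam ⧸ U =>
    f (if e : ∃ g ∈ H, (g : Gam ⧸ U) = c then e.choose else 1)).subset ?_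
  rintro _ ⟨g, hg, rfl⟩
  have e : ∃ g' ∈ H, (g' : Gam ⧸ U) = (g : Gam ⧸ U) := ⟨g, hg, rfl⟩
  refine ⟨g, ?_⟩
  beta_reduce
  rw [dif_pos e]
  exact h3 _ e.choose_spec.1 _ hg (QuotientGroup.eq.1 e.choose_spec.2)

theorem sm_apply (x : Qbar) : Sm H fun g => g x :=
  b1a_open _ (stabilizer_isOpen_of_isIntegral (K := ℚ) x) fun g _ k _ e => by
    have e1 : g⁻¹ (k x) = x := e
    rw [← e1]
    nth_rw 2 [e1]
    exact g.apply_symm_apply _

theorem Sm.of_continuousOn [TopologicalSpace α] [DiscreteTopology α] {f : Gam → α}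
    (hH : IsClosed (H : Set Gam)) (h : ContinuousOn f H) : Sm H f := by
  refine hH.isCompact.induction_on (p := fun s => ∃ U : Subgroup Gam, Op U ∧ U.Normal ∧
    ∀ g ∈ s, ∀ k ∈ H, g⁻¹ * k ∈ U → f g = f k) ⟨⊤, isOpen_univ, inferInstance, by simp⟩ ?_ ?_ ?_
  · rintro s t hst ⟨U, h1, h2, h3⟩
    exact ⟨U, h1, h2, fun g hg => h3 g (hst hg)⟩
  · rintro s t ⟨U, h1, h2, h3⟩ ⟨V, k1, k2, k3⟩
    exact ⟨U ⊓ V, b1a_inf h1 k1, inferInstance, fun g hg k hk e =>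
      hg.elim (fun a => h3 g a k hk e.1) fun a => k3 g a k hk e.2⟩
  · intro x hx
    have h1 : f ⁻¹' {f x} ∈ 𝓝[H] x :=
      (h x hx).preimage_mem_nhdsWithin ((isOpen_discrete _).mem_nhds rfl)
    obtain ⟨W, hW, h2⟩ := mem_nhdsWithin_iff_exists_mem_nhds_inter.1 h1
    obtain ⟨U, k1, k2, k3⟩ := b1a_nhds' hW
    refine ⟨{g | x⁻¹ * g ∈ U} ∩ H, inter_mem (mem_nhdsWithin_of_mem_nhds (b1a_coset k1 x))
      self_mem_nhdsWithin, U, k1, k2, fun g hg k hk e => ?_⟩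
    have e1 : f g = f x := h2 ⟨k3 g hg.1, hg.2⟩
    have e2 : f k = f x := h2 ⟨k3 k (by simpa [mul_assoc] using U.mul_mem hg.1 e), hk⟩
    rw [e1, e2]

theorem Sm.continuousOn [TopologicalSpace α] {f : Gam → α} (h : Sm H f) : ContinuousOn f H := by
  obtain ⟨U, h1, -, h3⟩ := h
  intro x hx
  refine (continuousWithinAt_const (b := f x)).congr_of_eventuallyEq ?_ rfl
  filter_upwards [mem_nhdsWithin_of_mem_nhds (b1a_coset h1 x), self_mem_nhdsWithin] with g a b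
  exact (h3 x hx g b a).symm

/-- A function that is smooth on a subgroup agrees there with a smooth function on the group. -/
theorem Sm.extend {f : Gam → α} (h : Sm H f) : ∃ f', Sm ⊤ f' ∧ ∀ g ∈ H, f' g = f g := by
  obtain ⟨U, h1, h2, h3⟩ := h
  refine ⟨fun g => f (if e : ∃ k ∈ H, (k : Gam ⧸ U) = (g : Gam ⧸ U) then e.choose else 1),
    ⟨U, h1, h2, fun g _ g' _ e => ?_⟩, fun g hg => ?_⟩
  · simp only [QuotientGroup.eq.2 e]
  · have e : ∃ g' ∈ H, (g' : Gam ⧸ U) = (g : Gam ⧸ U) := ⟨g, hg, rfl⟩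
    beta_reduce
    rw [dif_pos e]
    exact h3 _ e.choose_spec.1 _ hg (QuotientGroup.eq.1 e.choose_spec.2)

/-- A function that is invariant under a relatively open subgroup is smooth. -/
theorem Sm.of_open {f : Gam → α} (U : Subgroup Gam) (hU : Op U)
    (h : ∀ g ∈ H, ∀ u ∈ H ⊓ U, f (g * u) = f g) : Sm H f :=
  b1a_open U hU fun g hg k hk e => by
    rw [← h g hg _ ⟨H.mul_mem (H.inv_mem hg) hk, e⟩, mul_inv_cancel_left]

theorem Sm2.mono {c : Gam → Gam → α} (h : Sm2 H c) (k : H' ≤ H) : Sm2 H' c := by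
  obtain ⟨U, h1, h2, h3⟩ := h
  exact ⟨U, h1, h2, fun a ha b hb d hd e he => h3 a (k ha) b (k hb) d (k hd) e (k he)⟩

theorem Sm2.comp {c : Gam → Gam → α} (h : Sm2 H c) (φ : α → β) : Sm2 H fun g k => φ (c g k) := by
  obtain ⟨U, h1, h2, h3⟩ := h
  exact ⟨U, h1, h2, fun a ha b hb d hd e he x y => congrArg φ (h3 a ha b hb d hd e he x y)⟩

theorem Sm2.comp₂ {c : Gam → Gam → α} {c' : Gam → Gam → β} (h : Sm2 H c) (h' : Sm2 H c')
    (φ : α → β → γ) : Sm2 H fun g k => φ (c g k) (c' g k) := by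
  obtain ⟨U, h1, h2, h3⟩ := h
  obtain ⟨V, k1, k2, k3⟩ := h'
  exact ⟨U ⊓ V, b1a_inf h1 k1, inferInstance, fun a ha b hb d hd e he x y =>
    congrArg₂ φ (h3 a ha b hb d hd e he x.1 y.1) (k3 a ha b hb d hd e he x.2 y.2)⟩

theorem Sm.left {f : Gam → α} (h : Sm H f) : Sm2 H fun g _ => f g := by
  obtain ⟨U, h1, h2, h3⟩ := h
  exact ⟨U, h1, h2, fun a ha b hb _ _ _ _ x _ => h3 a ha b hb x⟩

theorem Sm.right {f : Gam → α} (h : Sm H f) : Sm2 H fun _ k => f k := by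
  obtain ⟨U, h1, h2, h3⟩ := h
  exact ⟨U, h1, h2, fun _ _ _ _ a ha b hb _ x => h3 a ha b hb x⟩

theorem Sm.mul {f : Gam → α} (h : Sm H f) : Sm2 H fun g k => f (g * k) := by
  obtain ⟨U, h1, h2, h3⟩ := h
  refine ⟨U, h1, h2, fun a ha b hb d hd e he x y =>
    h3 _ (H.mul_mem ha hd) _ (H.mul_mem hb he) ?_⟩
  rw [show (a * d)⁻¹ * (b * e) = d⁻¹ * (a⁻¹ * b) * d⁻¹⁻¹ * (d⁻¹ * e) by group]
  exact U.mul_mem (h2.conj_mem _ x _) y

theorem exists_normal_le (h : Op H) : ∃ U : Subgroup Gam, Op U ∧ U.Normal ∧ U ≤ H :=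
  b1a_nhds (h.mem_nhds H.one_mem)

theorem Op.index_ne_zero (h : Op H) : H.index ≠ 0 := by
  have : Finite (Gam ⧸ H) := H.quotient_finite_of_isOpen h
  exact Subgroup.index_ne_zero_of_finite

theorem Op.closed (h : Op H) : IsClosed (H : Set Gam) := H.isClosed_of_isOpen h

theorem Op.inf (h : Op H) (h' : Op H') : Op (H ⊓ H') := b1a_inf h h'

/-- A closed subgroup contains every element that it approximates. -/
theorem mem_of_approx (hH : IsClosed (H : Set Gam)) {g : Gam}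
    (h : ∀ U : Subgroup Gam, Op U → U.Normal → ∃ k ∈ H, k⁻¹ * g ∈ U) : g ∈ H := by
  by_contra hg
  obtain ⟨U, h1, h2, h3⟩ := b1a_nhds' (hH.isOpen_compl.mem_nhds hg)
  obtain ⟨k, hk, e⟩ := h U h1 h2
  exact h3 k (by simpa using U.inv_mem e) hk

/-- Galois theory: a closed subgroup is determined by the numbers it fixes. -/
theorem mem_of_fx (hH : IsClosed (H : Set Gam)) {g : Gam} (h : ∀ x, Fx H x → g x = x) : g ∈ H := by
  have e := InfiniteGalois.fixingSubgroup_fixedField (k := ℚ) (K := Qbar) ⟨H, hH⟩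
  have e1 : g ∈ (IntermediateField.fixedField H).fixingSubgroup :=
    (IntermediateField.mem_fixingSubgroup_iff _ _).2 fun x hx =>
      h x ((IntermediateField.mem_fixedField_iff _ _).1 hx)
  exact e.le e1

theorem fx_top {x : Qbar} (h : Fx ⊤ x) : ∃ r : ℚ, x = r := by
  obtain ⟨r, hr⟩ := (InfiniteGalois.mem_range_algebraMap_iff_fixed (k := ℚ) x).2
    fun g => h g trivial
  exact ⟨r, hr.symm⟩

end Pool.Agent.Lib.MP_696deb_nt.B2
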