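import Pool.Agent.Lib.MP_696deb_nt.B2.CL0

/-! Global class field theory: definitions. -/

set_option autoImplicit false

open scoped NNReal Classical
open Filter Topology Finset

namespace Pool.Agent.Lib.MP_696deb_nt.B2

/-- The number field of an open subgroup. -/
noncomputable abbrev Kf (H : Subgroup Gam) : IntermediateField ℚ Qbar := IntermediateField.fixedField H

/-- `a` is represented by the norm form of the square root of `d` over the fixed field of `D`. -/
def Nq (D : Subgroup Gam) (d a : Qbar) : Prop :=
  ∃ x y, Fx D x ∧ Fx D y ∧ a = x ^ 2 - d * y ^ 2

end Pool.Agent.Lib.MP_696deb_nt.B2
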