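import Pool.Agent.Lib.MP_696deb_nt.B2.CFa

/-! The norm theorem of Hasse for quadratic extensions of totally complex fields. -/

set_option autoImplicit false

open scoped NNReal Classical
open Filter Topology Finset

namespace Pool.Agent.Lib.MP_696deb_nt.B2

open Pool.Agent.Lib.MP_580eba_nt (Pl val)

variable {H D : Subgroup Gam} {d a : Qbar}

open Pool.Agent.Lib.MP_580eba_nt in
theorem cfb_nm {K M : Type} [Field K] [Field M] [Algebra K M] (Q : QD K M) (s t : K) :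
    (algebraMap K M s + algebraMap K M t * Q.r) * Q.σ • (algebraMap K M s + algebraMap K M t * Q.r) =
      algebraMap K M (s ^ 2 - Q.a * t ^ 2) := by
  have h1 : Q.σ Q.r = -Q.r := Q.σr
  rw [AlgEquiv.smul_def, map_add, map_mul, Q.σ.commutes, Q.σ.commutes, h1, map_sub, map_mul, map_pow,
    map_pow, ← Q.sq]
  ring

open Pool.Agent.Lib.MP_580eba_nt in
/-- The case of an extension that splits above two. -/
theorem hasse_tame {K : Type} [Field K] [NumberField K] [NumberField.IsTotallyComplex K] {d a : K}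
    (hd : d ≠ 0) (ha : a ≠ 0) (h2 : ∀ v : Pl K, val v (2 : K) < 1 → val v (d - 1) < val v (4 : K))
    (h : ∀ v : Pl K, ∃ x y : K, val v (a - (x ^ 2 - d * y ^ 2)) < val v a) :
    ∃ x y : K, a = x ^ 2 - d * y ^ 2 := by
  by_cases hs : IsSquare d
  · obtain ⟨s, rfl⟩ := hs
    have h0 : s ≠ 0 := left_ne_zero_of_mul hd
    exact ⟨(a + 1) / 2, (a - 1) / (2 * s), by field_simp; ring⟩
  obtain ⟨M, _, _, _, Q, hQ⟩ := exists_QD (Units.mk0 d hd) hs
  have hQ' : (Q.a : K) = d := by rw [hQ]; rfl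
  have ht : Q.Tame := Q.tame_of fun v hv => mem_SQ.2 ⟨1, mem_U4.2 (by simpa [hQ'] using h2 v hv)⟩
  obtain ⟨y, hy⟩ := Q.hasse ht (b := Units.mk0 a ha) fun v => by
    obtain ⟨x, y, hv⟩ := h v
    have h3 : val v (x ^ 2 - d * y ^ 2) = val v a := by
      rw [Valuation.map_sub_swap] at hv
      exact Valuation.map_eq_of_sub_lt _ hv
    have h4 : x ^ 2 - d * y ^ 2 ≠ 0 := fun e => by
      rw [e, sub_zero] at hv
      exact hv.false
    have h5 := cfb_nm Q x y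
    rw [hQ'] at h5
    have h6 : algebraMap K M x + algebraMap K M y * Q.r ≠ 0 := fun e => by
      rw [e, zero_mul] at h5
      exact h4 ((map_eq_zero _).1 h5.symm)
    have h7 : Units.mk0 _ h4 ∈ Q.Loc v :=
      Q.mem_Loc_of_nm (y := Units.mk0 _ h6) (Units.ext (by rw [Q.nm_val]; exact h5.symm)) v
    have h8 : Units.mk0 a ha / Units.mk0 _ h4 ∈ U1 v := by
      rw [mem_U1, Units.val_div_eq_div_val, Units.val_mk0, Units.val_mk0, div_sub_one h4, map_div₀, h3]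
      exact (div_lt_one₀ (zero_lt_iff.2 ((Valuation.ne_zero_iff _).2 ha))).2 hv
    have := mul_mem (Q.U1_le_Loc v h8) h7
    rwa [div_mul_cancel] at this
  obtain ⟨s, t, e⟩ := Q.span y
  refine ⟨s, t, (algebraMap K M).injective ?_⟩
  have h1 := congrArg Units.val hy
  rw [Q.nm_val, e, cfb_nm, hQ'] at h1
  exact h1.symm

theorem Nq_iff (hd : d ≠ 0) (ha : a ≠ 0) (h1 : Fx D d) (h2 : Fx D a) :
    Nq D d a ↔ ∃ u v, Fx D u ∧ Fx D v ∧ d * u ^ 2 + a * v ^ 2 = 1 := by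
  simp only [Nq, b3a_fx] at *
  have k2 : (2 : Qbar) ∈ IntermediateField.fixedField D := natCast_mem _ 2
  constructor
  · rintro ⟨x, y, hx, hy, e⟩
    rcases eq_or_ne x 0 with rfl | h0
    · have h0 : y ≠ 0 := by
        rintro rfl
        exact ha (by rw [e]; ring)
      refine ⟨(d⁻¹ + 1) / 2, (d⁻¹ - 1) / (2 * y), div_mem (add_mem (inv_mem h1) (one_mem _)) k2,
        div_mem (sub_mem (inv_mem h1) (one_mem _)) (mul_mem k2 hy), ?_⟩
      rw [e]
      field_simp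
      ring
    · refine ⟨y / x, x⁻¹, div_mem hy hx, inv_mem hx, ?_⟩
      rw [e]
      field_simp
      ring
  · rintro ⟨u, v, hu, hv, e⟩
    rcases eq_or_ne v 0 with rfl | h0
    · refine ⟨(a + 1) / 2, (a - 1) * u / 2, div_mem (add_mem h2 (one_mem _)) k2,
        div_mem (mul_mem (sub_mem h2 (one_mem _)) hu) k2, ?_⟩
      linear_combination (a - 1) ^ 2 / 4 * e
    · refine ⟨v⁻¹, u / v, inv_mem hv, div_mem hu hv, ?_⟩
      field_simp
      linear_combination e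

theorem cfb_fx (h1 : Fx D d) (h2 : Fx D a) {x y : Qbar} (hx : Fx D x) (hy : Fx D y) :
    Fx D (d * x ^ 2 + a * y ^ 2) := fun g hg => by
  rw [map_add, map_mul, map_mul, map_pow, map_pow, h1 g hg, h2 g hg, hx g hg, hy g hg]

theorem cfb_mul {x y : Qbar} (hx : Fx D x) (hy : Fx D y) : Fx D (x * y) := fun g hg => by
  rw [map_mul, hx g hg, hy g hg]

/-- Changing the binary form with coefficients `d` and `a` into an equivalent one. -/
theorem Nq_change (hd : d ≠ 0) (ha : a ≠ 0) (h1 : Fx D d) (h2 : Fx D a) {x y : Qbar} (hx : Fx D x)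
    (hy : Fx D y) (h0 : d * x ^ 2 + a * y ^ 2 ≠ 0) :
    Nq D d a ↔ Nq D (d * x ^ 2 + a * y ^ 2) (d * a * (d * x ^ 2 + a * y ^ 2)) := by
  have h3 := cfb_fx h1 h2 hx hy
  rw [Nq_iff hd ha h1 h2, Nq_iff h0 (mul_ne_zero (mul_ne_zero hd ha) h0) h3
    (cfb_mul (cfb_mul h1 h2) h3)]
  simp only [b3a_fx] at *
  constructor
  · rintro ⟨u, v, hu, hv, e⟩
    refine ⟨(d * x * u + a * y * v) / (d * x ^ 2 + a * y ^ 2),
      (x * v - y * u) / (d * x ^ 2 + a * y ^ 2),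
      div_mem (add_mem (mul_mem (mul_mem h1 hx) hu) (mul_mem (mul_mem h2 hy) hv)) h3,
      div_mem (sub_mem (mul_mem hx hv) (mul_mem hy hu)) h3, ?_⟩
    have k : (d * x * u + a * y * v) ^ 2 + d * a * (x * v - y * u) ^ 2 = d * x ^ 2 + a * y ^ 2 := by
      linear_combination (d * x ^ 2 + a * y ^ 2) * e
    generalize d * x ^ 2 + a * y ^ 2 = c at *
    field_simp
    linear_combination k
  · rintro ⟨s, t, hs, ht, e⟩
    exact ⟨x * s + a * y * t, y * s - d * x * t,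
      add_mem (mul_mem hx hs) (mul_mem (mul_mem h2 hy) ht),
      sub_mem (mul_mem hy hs) (mul_mem (mul_mem h1 hx) ht), by linear_combination e⟩

theorem cfb_cont1 (V : Valuation Qbar ℝ≥0) (c u : Qbar) {δ : ℝ≥0} (hδ : 0 < δ) :
    ∃ ε : ℝ≥0, 0 < ε ∧ ∀ x, V (u - x) < ε → V (c * u ^ 2 - c * x ^ 2) < δ := by
  have hM : 0 < (V c + 1) * (V (2 * u) + 1) := by positivity
  refine ⟨min 1 (δ / ((V c + 1) * (V (2 * u) + 1))), lt_min one_pos (div_pos hδ hM), fun x hx => ?_⟩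
  rw [lt_min_iff, lt_div_iff₀ hM] at hx
  have h1 : V (2 * u - (u - x)) ≤ V (2 * u) + 1 :=
    V.map_sub_le le_self_add (hx.1.le.trans le_add_self)
  refine lt_of_le_of_lt ?_ hx.2
  rw [show c * u ^ 2 - c * x ^ 2 = (u - x) * (c * (2 * u - (u - x))) by ring, map_mul, map_mul]
  gcongr
  exact le_self_add

theorem cfb_cont (V : Valuation Qbar ℝ≥0) (c e u v : Qbar) {δ : ℝ≥0} (hδ : 0 < δ) :
    ∃ ε : ℝ≥0, 0 < ε ∧ ∀ x y, V (u - x) < ε → V (v - y) < ε →
      V (c * u ^ 2 + e * v ^ 2 - (c * x ^ 2 + e * y ^ 2)) < δ := by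
  obtain ⟨ε, h1, h2⟩ := cfb_cont1 V c u hδ
  obtain ⟨ε', h3, h4⟩ := cfb_cont1 V e v hδ
  refine ⟨min ε ε', lt_min h1 h3, fun x y hx hy => ?_⟩
  rw [add_sub_add_comm]
  exact V.map_add_lt (h2 x (hx.trans_le (min_le_left _ _))) (h4 y (hy.trans_le (min_le_right _ _)))

theorem cfb_min {ι : Type*} (s : Finset ι) (ε : ι → ℝ≥0) (h : ∀ i, 0 < ε i) :
    ∃ η : ℝ≥0, 0 < η ∧ ∀ i ∈ s, η ≤ ε i := by
  induction s using Finset.induction_on with
  | empty => exact ⟨1, one_pos, by simp⟩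
  | insert i s _ ih =>
    obtain ⟨η, h1, h2⟩ := ih
    refine ⟨min η (ε i), lt_min h1 (h i), fun j hj => ?_⟩
    rcases mem_insert.1 hj with rfl | hj
    · exact min_le_right _ _
    · exact (min_le_left _ _).trans (h2 j hj)

/-- The form represents a number that is close to one at all places above two. -/
theorem cfb_two (hH : Op H) (hd : d ≠ 0) (ha : a ≠ 0) (h1 : Fx H d) (h2 : Fx H a)
    (h : ∀ w : Plc, Nq (H ⊓ Dec w) d a) : ∃ x y, Fx H x ∧ Fx H y ∧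
      ∀ w : Plc, w.p = 2 → w.V (d * x ^ 2 + a * y ^ 2 - 1) < w.V 4 := by
  obtain ⟨T, hT, -, hT'⟩ := exists_reps hH {2}
  choose u v hu hv e using fun w : Plc => (Nq_iff (D := H ⊓ Dec w) hd ha (fun g hg => h1 g hg.1)
    (fun g hg => h2 g hg.1)).1 (h w)
  choose ε hε k using fun w : Plc => cfb_cont w.V d a (u w) (v w) (δ := w.V 4)
    (zero_lt_iff.2 ((Valuation.ne_zero_iff _).2 (by norm_num)))
  obtain ⟨η, hη, k'⟩ := cfb_min T ε hε
  obtain ⟨x, hx, kx⟩ := approx_weak hH T hT u (fun w _ => hu w) hη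
  obtain ⟨y, hy, ky⟩ := approx_weak hH T hT v (fun w _ => hv w) hη
  refine ⟨x, y, hx, hy, fun w hw => ?_⟩
  have h3 := hT' w (mem_singleton.2 hw)
  simp only [Away, not_forall, not_not] at h3
  obtain ⟨w₀, hw₀, g, hg, rfl⟩ := h3
  have h4 := k w₀ x y ((kx w₀ hw₀).trans_le (k' w₀ hw₀)) ((ky w₀ hw₀).trans_le (k' w₀ hw₀))
  rw [e, Valuation.map_sub_swap] at h4
  rwa [smul_V, smul_V, map_sub, map_one, map_ofNat, cfb_fx h1 h2 hx hy _ (inv_mem hg)]

/-- The tame case for the fixed field of an open subgroup. -/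
theorem cfb_tame (hH : Op H) (hT : TC H) (hd : d ≠ 0) (ha : a ≠ 0) (h1 : Fx H d) (h2 : Fx H a)
    (h4 : ∀ w : Plc, w.p = 2 → w.V (d - 1) < w.V 4)
    (h : ∀ w : Plc, Nq (H ⊓ Dec w) d a) : Nq H d a := by
  have := nf_Kf hH
  have := tc_Kf hH hT
  obtain ⟨x, y, e⟩ := hasse_tame (K := Kf H) (d := ⟨d, b3a_fx.1 h1⟩) (a := ⟨a, b3a_fx.1 h2⟩)
    (fun e => hd (congrArg Subtype.val e)) (fun e => ha (congrArg Subtype.val e))
    (fun v hv => by
      obtain ⟨w, hw⟩ := exists_over v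
      have k1 : w.V ((2 : ℤ) : Qbar) < 1 := by
        have : w.V 2 < w.V 1 := (hw 2 1).1 (by rwa [map_one])
        rwa [map_one, ← Int.cast_ofNat] at this
      have k2 : (w.p : ℤ) ∣ 2 := by_contra fun k => k1.ne (w.V_int_eq_one.2 k)
      have k3 : w.p = 2 := (Nat.prime_dvd_prime_iff_eq w.prime Nat.prime_two).1 (by exact_mod_cast k2)
      exact (hw _ _).2 (h4 w k3))
    (fun v => by
      obtain ⟨w, hw⟩ := exists_over v
      obtain ⟨x, y, hx, hy, e⟩ := h w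
      obtain ⟨ε, hε, k⟩ := cfb_cont w.V 1 (-d) x y (δ := w.V a)
        (zero_lt_iff.2 ((Valuation.ne_zero_iff _).2 ha))
      obtain ⟨x', hx', kx⟩ := approx hH hx hε
      obtain ⟨y', hy', ky⟩ := approx hH hy hε
      refine ⟨⟨x', b3a_fx.1 hx'⟩, ⟨y', b3a_fx.1 hy'⟩, (hw _ _).2 ?_⟩
      have k1 := k x' y' kx ky
      rw [show 1 * x ^ 2 + -d * y ^ 2 - (1 * x' ^ 2 + -d * y' ^ 2) = a - (x' ^ 2 - d * y' ^ 2) by
        rw [e]; ring] at k1
      exact k1)
  exact ⟨x, y, fx_Kf x, fx_Kf y, congrArg Subtype.val e⟩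

theorem hnt (hH : Op H) (hT : TC H) (hd : d ≠ 0) (ha : a ≠ 0) (h1 : Fx H d) (h2 : Fx H a)
    (h : ∀ w : Plc, Nq (H ⊓ Dec w) d a) : Nq H d a := by
  obtain ⟨x, y, hx, hy, k⟩ := cfb_two hH hd ha h1 h2 h
  have h0 : d * x ^ 2 + a * y ^ 2 ≠ 0 := fun e => by
    obtain ⟨w, hw⟩ := exists_plc Nat.prime_two
    have k1 := k w hw
    rw [e, zero_sub, Valuation.map_neg, map_one] at k1
    exact k1.not_ge (by exact_mod_cast w.V_int_le 4)
  have h3 := cfb_fx h1 h2 hx hy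
  refine (Nq_change hd ha h1 h2 hx hy h0).2 (cfb_tame hH hT h0 (mul_ne_zero (mul_ne_zero hd ha) h0) h3
    (cfb_mul (cfb_mul h1 h2) h3) k fun w => ?_)
  exact (Nq_change (D := H ⊓ Dec w) hd ha (fun g hg => h1 g hg.1) (fun g hg => h2 g hg.1)
    (fun g hg => hx g hg.1) (fun g hg => hy g hg.1) h0).1 (h w)

end Pool.Agent.Lib.MP_696deb_nt.B2
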