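import Pool.Agent.Lib.MP_696deb_nt.B2.CFb
import Pool.Agent.Lib.MP_696deb_nt.B2.CLc
import Pool.Agent.Lib.MP_696deb_nt.B2.CRb

/-! The theorem of Albert, Brauer, Hasse and Noether. -/

set_option autoImplicit false

open scoped NNReal Classical
open Filter Topology Finset

namespace Pool.Agent.Lib.MP_696deb_nt.B2

variable {G H : Subgroup Gam} {m : ℕ} {c : Gam → Gam → ZMod (2 ^ m)} {γ : Gam → Gam → Qbar}

theorem spl_iff_coh (hG : IsClosed (G : Set Gam)) (hc : C2 m G c) :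
    Spl m G c ↔ Coh G (zc m c) 1 :=
  (spl_iff hG hc).trans coh_one_iff.symm

theorem Cy_two_iff (hG : IsClosed (G : Set Gam)) {χ : Gam → ZMod (2 ^ 1)} {d a : Qbar}
    (h : Kum 1 G d χ) (h0 : a ≠ 0) (ha : Fx G a) : Coh G (Cy (2 ^ 1) χ a) 1 ↔ Nq G d a := by
  obtain ⟨κ, hκ⟩ := exists_kum 1 h0 ha
  have h1 := cup_coh h.sm (b3b_hom h) hκ
  have h2 := spl_iff_coh hG (c2_cup h.sm (b3b_hom h) hκ.sm hκ.coc)
  exact ⟨fun hs => norm_of_spl h hκ hG (h2.2 (h1.trans hs)),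
    fun ⟨x, y, hx, hy, e⟩ => h1.symm.trans (h2.1 (spl_of_norm h hκ hG hx hy e))⟩

theorem closed_cc : IsClosed (Subgroup.zpowers cc : Set Gam) :=
  (isOfFinOrder_iff_pow_eq_one.2 ⟨2, two_pos, by rw [sq, cc_mul_cc]⟩).finite_zpowers.isClosed

theorem cfd_val {w : Plc} (h4 : w.p % 4 = 3) {x y a : Qbar} (hx : Fx (Dec w) x)
    (hy : Fx (Dec w) y) (h : w.V y ≤ w.V x) (a0 : a ≠ 0) (e : a = x ^ 2 + y ^ 2) :
    ∃ k : ℤ, w.V a = ((w.p : ℝ≥0) ^ k)⁻¹ ^ 2 := by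
  have x0 : x ≠ 0 := by
    rintro rfl
    rw [map_zero, nonpos_iff_eq_zero, map_eq_zero] at h
    exact a0 (by simp [e, h])
  obtain ⟨k, hk⟩ := b3a_dec hx x0
  obtain ⟨t, rfl⟩ : ∃ t, y = x * t := ⟨y / x, by field_simp⟩
  have t1 : w.V t ≤ 1 := by
    rw [map_mul] at h
    exact (mul_le_iff_le_one_right (b3a_pos w x0)).1 h
  have h1 : w.V (1 + t ^ 2) = 1 := by
    by_contra h2
    have h3 : w.V (t ^ 2 - -1) < 1 := by
      rw [sub_neg_eq_add, add_comm]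
      exact lt_of_le_of_ne (w.V.map_add_le (map_one _).le (b2a_pow_le w t1 2)) h2
    obtain ⟨φ, f1, f2⟩ := exists_frob w
    have h5 := f2 t t1
    have h6 : φ t = t := mul_left_cancel₀ x0 (by rw [← hy φ f1, map_mul, hx φ f1])
    have h7 := b2a_mul_lt w t1 (b2a_pow_sub w (b2a_pow_le w t1 2) (by simp) h3 (2 * (w.p / 4) + 1))
    have h8 := w.V.map_add_lt h5 h7
    rw [h6, Odd.neg_one_pow ⟨_, rfl⟩, mul_sub, ← pow_mul, ← pow_succ',
      show 2 * (2 * (w.p / 4) + 1) + 1 = w.p by omega,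
      show t - t ^ w.p + (t ^ w.p - t * -1) = (2 : ℤ) * t by push_cast; ring, map_mul,
      w.V_int_eq_one.2 fun a => by have := Int.le_of_dvd two_pos a; omega, one_mul] at h8
    exact h2 (w.V.map_one_add_of_lt (by rw [sq]; exact b2a_mul_lt w t1 h8))
  exact ⟨k, by rw [e, show x ^ 2 + (x * t) ^ 2 = x ^ 2 * (1 + t ^ 2) by ring, map_mul, h1, mul_one,
    map_pow, hk]⟩

/-- Sums of two squares. -/
theorem hnt_rat {a : ℚ} (h0 : 0 < a) (h : ∀ w : Plc, Nq (Dec w) (-1) a) : Nq ⊤ (-1) a := by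
  have hq : ∀ q ∈ (a.num.natAbs * a.den).primeFactors, q % 4 = 3 →
      Even (padicValNat q (a.num.natAbs * a.den)) := by
    intro q hq h4
    obtain ⟨w, rfl⟩ := exists_plc (Nat.prime_of_mem_primeFactors hq)
    obtain ⟨x, y, hx, hy, e⟩ := h w
    have a0 : (a : Qbar) ≠ 0 := Rat.cast_ne_zero.2 h0.ne'
    obtain ⟨k, hk⟩ : ∃ k : ℤ, w.V a = ((w.p : ℝ≥0) ^ k)⁻¹ ^ 2 := by
      rcases le_total (w.V y) (w.V x) with h5 | h5
      · exact cfd_val h4 hx hy h5 a0 (by rw [e]; ring)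
      · exact cfd_val h4 hy hx h5 a0 (by rw [e]; ring)
    rw [w.V_rat h0.ne', inv_pow, inv_inj, ← zpow_natCast, ← zpow_mul] at hk
    have h5 := zpow_right_injective₀ (zero_lt_one.trans (b3a_p w)) (b3a_p w).ne' hk
    have := Fact.mk w.prime
    rw [padicValNat.mul (Int.natAbs_ne_zero.2 (Rat.num_ne_zero.2 h0.ne')) a.den_nz,
      Nat.even_iff]
    rw [padicValRat, padicValInt] at h5
    omega
  obtain ⟨x, y, e⟩ := Nat.eq_sq_add_sq_iff.2 hq
  have e1 : a = (x / a.den) ^ 2 + (y / a.den) ^ 2 := by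
    have e2 : (a.num * a.den : ℚ) = x ^ 2 + y ^ 2 := by
      rw [← Int.natAbs_of_nonneg (Rat.num_pos.2 h0).le]
      exact_mod_cast e
    rw [div_pow, div_pow, ← add_div, ← e2, sq, mul_div_mul_right _ _ (Nat.cast_ne_zero.2 a.den_nz),
      Rat.num_div_den]
  refine ⟨(x / a.den : ℚ), (y / a.den : ℚ), fun g _ => map_ratCast g _,
    fun g _ => map_ratCast g _, ?_⟩
  rw [neg_one_mul, sub_neg_eq_add]
  exact_mod_cast e1

theorem abhn_tc (hH : Op H) (hT : TC H) (hγ : CQ H γ) (hm : Coh H (γ ^ 2 ^ m) 1)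
    (h : ∀ w : Plc, Coh (H ⊓ Dec w) γ 1) : Coh H γ 1 := by
  obtain ⟨U, hU, hn, hs⟩ := hγ.exists_split
  obtain ⟨H', a1, a2, a3, a4⟩ := devissage ⊤ (fun H' => Coh H' γ 1) hH hU hn
    (fun H' _ b1 b2 => hs.mono (le_inf (by simpa using b2) b1)) fun H' H'' b1 b2 b3 b4 b5 => by
      have c1 : Op H' := Subgroup.isOpen_mono b2 b1
      obtain ⟨χ, s, c2, c3, c4, c5, c6⟩ := exists_quad (G := H') b1 rfl
        (by simpa [Subgroup.inf_relIndex_right] using b4)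
      obtain ⟨d, hd⟩ := kum_surj (m := 1) c1.closed c2 fun g hg k hk => by
        rw [cy_one_eq, one_mul]
        exact c3 g hg k hk
      obtain ⟨a, a0, ha, c7⟩ := coh_Cy (n := 2 ^ 1) c1.closed c2 c3 c4 c5 (hγ.mono b3)
        (b5.mono fun g hg => ((c6 g hg.1).1 hg.2).1)
      exact c7.trans ((Cy_two_iff c1.closed hd a0 ha).2 (hnt c1 (fun g c8 c9 => hT g c8 (b3 c9))
        hd.fx.1 a0 hd.fx.2 ha fun w => (Cy_two_iff (c1.closed.inter (closed_Dec w))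
          (hd.mono inf_le_left) a0 fun g hg => ha g hg.1).1
            ((c7.mono inf_le_left).symm.trans ((h w).mono (inf_le_inf_right _ b3)))))
  exact coh_of_odd a1 hγ (a4.mono inf_le_left)
    (by simpa [Subgroup.inf_relIndex_right] using a3) hm

theorem abhn_spl (hH : Op H) (hc : C2 m H c) (hi : AtInf m H c)
    (h : ∀ w : Plc, Spl m (H ⊓ Dec w) c) : Spl m H c := by
  have hm : ∀ K, Coh K (zc m c ^ 2 ^ m) 1 := fun K => zc_pow m c ▸ Coh.refl K 1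
  have h1 : ∀ w : Plc, Coh (H ⊓ Dec w) (zc m c) 1 := fun w =>
    (spl_iff_coh (hH.closed.inter (closed_Dec w)) (hc.mono inf_le_left)).1 (h w)
  rw [spl_iff_coh hH.closed hc]
  rcases hi with hT | ⟨rfl, hs⟩
  · exact abhn_tc hH hT hc.cq (hm _) h1
  have h2 : chi (-1) cc = -1 := by rw [chi_cc (by norm_num), if_neg (by norm_num)]
  have h3 : TC (chi (-1)).ker := fun g hg hk => by
    obtain ⟨k, rfl⟩ := hg.conj
    rw [MonoidHom.mem_ker, map_mul, map_mul, map_inv, mul_inv_cancel_comm, h2] at hk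
    exact absurd hk (by decide)
  have h4 := abhn_tc (op_ker_chi (-1)) h3 (hc.cq.mono le_top) (hm _) fun w =>
    (h1 w).mono (inf_le_inf_right _ le_top)
  have h5 : Kum 1 ⊤ (-1) (xi (-1)) := by simpa using kum_xi (H := ⊤) (a := -1) (by norm_num)
  obtain ⟨a, a0, ha, h6⟩ := coh_Cy (n := 2 ^ 1) hH.closed h5.sm (b3b_hom h5) (Subgroup.mem_top cc)
    (xi_eq_one.2 h2) hc.cq (h4.mono fun g hg => xi_eq_zero.1 hg.2)
  obtain ⟨r, rfl⟩ := fx_top ha
  have h7 : 0 < r := pos_of_split (b3b_hom h5) (fun e => b3b_one ((xi_eq_one.2 h2).symm.trans e))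
    (Rat.cast_ne_zero.1 a0) ((h6.mono le_top).symm.trans ((spl_iff_coh closed_cc (hc.mono le_top)).1 hs))
  exact h6.trans ((Cy_two_iff hH.closed h5 a0 ha).2 (hnt_rat h7 fun w =>
    (Cy_two_iff (closed_Dec w) (h5.mono le_top) a0 fun g _ => ha g trivial).1
      ((h6.mono le_top).symm.trans ((h1 w).mono (le_inf le_top le_rfl)))))

end Pool.Agent.Lib.MP_696deb_nt.B2
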