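import Pool.Agent.Lib.MP_aed2da_nt.QCheb

/-! Primes of degree one with a prescribed quadratic residue symbol. -/

set_option autoImplicit false

open scoped Classical
open Filter Topology Finset NumberField Asymptotics

namespace Pool.Agent.Lib.MP_696deb_nt.B2

open Pool.Agent.Lib.MP_aed2da_nt.QC (w pw w_nonneg pw_nonneg summable_pw P_bigO w_anti w_le_half)

variable {K : Type*} [Field K] [NumberField K]

theorem ch1_card {p : ℕ} (hp : p.Prime) (t : Finset (Ideal (𝓞 K)))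
    (ht : ∀ Q ∈ t, Prime Q ∧ (p : 𝓞 K) ∈ Q ∧ p ≤ Ideal.absNorm Q) :
    t.card ≤ Module.finrank ℤ (𝓞 K) := by
  have h1 := prod_primes_dvd (Ideal.span {(p : 𝓞 K)}) (fun Q hQ => (ht Q hQ).1) fun Q hQ =>
    Ideal.dvd_span_singleton.2 (ht Q hQ).2.1
  have h2 := map_dvd Ideal.absNorm h1
  rw [Ideal.absNorm_span_natCast, map_prod] at h2
  have h3 := (pow_card_le_prod t _ p fun Q hQ => (ht Q hQ).2.2).trans
    (Nat.le_of_dvd (Nat.pow_pos hp.pos) h2)
  exact (Nat.pow_le_pow_iff_right hp.one_lt).1 h3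

/-- The primes of degree at least two contribute a bounded amount. -/
theorem ch1_high {s : ℝ} (hs : 1 < s) (u : Finset (Ideal (𝓞 K)))
    (hu : ∀ Q ∈ u, Q.IsMaximal ∧ ¬ (Ideal.absNorm Q).Prime) :
    ∑ Q ∈ u, w s Q ≤ Module.finrank ℤ (𝓞 K) * ∑' p : ℕ, 1 / (p : ℝ) ^ 2 := by
  have hg := Real.summable_one_div_nat_pow.2 one_lt_two
  have hex : ∀ Q ∈ u, ∃ p : ℕ, p.Prime ∧ (p : 𝓞 K) ∈ Q ∧
      p ≤ Ideal.absNorm Q ∧ w s Q ≤ 1 / (p : ℝ) ^ 2 := by
    intro Q hQ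
    obtain ⟨hm, hn⟩ := hu Q hQ
    obtain ⟨p, n, h0, h1, hp, h2⟩ := Ideal.exists_prime_and_absNorm_eq_pow Q
    refine ⟨p, hp, h1, h2 ▸ Nat.le_self_pow h0.ne' _, (w_anti one_pos hs.le Q).trans ?_⟩
    have hp1 : (1 : ℝ) ≤ p := by exact_mod_cast hp.one_lt.le
    have h3 : 2 ≤ n := by
      by_contra h3
      obtain rfl : n = 1 := by omega
      rw [pow_one] at h2
      exact hn (h2 ▸ hp)
    rw [w, Real.rpow_neg_one, ← one_div, h2]
    push_cast
    gcongr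
  choose! π h1 h2 h3 h4 using hex
  rw [← sum_fiberwise_of_maps_to (t := u.image π) (g := π) fun Q hQ => mem_image_of_mem _ hQ]
  refine le_trans (sum_le_sum (g := fun p : ℕ => Module.finrank ℤ (𝓞 K) * (1 / (p : ℝ) ^ 2))
    fun p hp => ?_) ?_
  · refine (sum_le_card_nsmul _ _ (1 / (p : ℝ) ^ 2) fun Q hQ => ?_).trans ?_
    · obtain ⟨h5, rfl⟩ := mem_filter.1 hQ
      exact h4 Q h5
    · rw [nsmul_eq_mul]
      refine mul_le_mul_of_nonneg_right (Nat.cast_le.2 ?_) (by positivity)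
      obtain ⟨Q, hQ, rfl⟩ := mem_image.1 hp
      refine ch1_card (h1 Q hQ) _ fun Q' hQ' => ?_
      obtain ⟨h5, h6⟩ := mem_filter.1 hQ'
      have h7 := (hu Q' h5).1
      exact ⟨Ideal.prime_of_isPrime (Ring.ne_bot_of_isMaximal_of_not_isField h7
        (RingOfIntegers.not_isField K)) h7.isPrime, h6 ▸ h2 Q' h5, h6 ▸ h3 Q' h5⟩
  · rw [← mul_sum]
    exact mul_le_mul_of_nonneg_left (hg.sum_le_tsum _ fun p _ => by positivity) (Nat.cast_nonneg _)

theorem ch1_log : ¬ (fun s : ℝ => Real.log (s - 1)) =O[𝓝[>] 1] fun _ => (1 : ℝ) := by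
  intro h3
  have h4 : Tendsto (fun s : ℝ => Real.log (s - 1)) (𝓝[>] 1) atBot := by
    refine Real.tendsto_log_nhdsGT_zero.comp ?_
    refine tendsto_nhdsWithin_iff.2 ⟨?_, ?_⟩
    · have : Tendsto (fun s : ℝ => s - 1) (𝓝 1) (𝓝 (1 - 1)) := tendsto_id.sub_const 1
      rw [sub_self] at this
      exact this.mono_left nhdsWithin_le_nhds
    · filter_upwards [self_mem_nhdsWithin] with s hs
      exact sub_pos.2 (show 1 < s from hs)
  obtain ⟨c, hc⟩ := h3.bound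
  obtain ⟨s, h5, h6⟩ := (hc.and (h4.eventually_lt_atBot (-c))).exists
  rw [norm_one, mul_one, Real.norm_eq_abs, abs_le] at h5
  linarith [h5.1]

/-- A bounded function with a bounded prime sum is not one at some large prime of degree one. -/
theorem exists_deg_one (c : Ideal (𝓞 K) → ℝ) (hc : ∀ Q, |c Q| ≤ 1)
    (h : (fun s : ℝ => ∑' Q, c Q * pw s Q) =O[𝓝[>] 1] fun _ => (1 : ℝ)) (B : Finset ℕ) :
    ∃ P : Ideal (𝓞 K), P.IsMaximal ∧ (Ideal.absNorm P).Prime ∧ Ideal.absNorm P ∉ B ∧ c P ≠ 1 := by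
  by_contra hcon
  have hfin : {Q : Ideal (𝓞 K) | Ideal.absNorm Q ∈ B}.Finite :=
    (B.finite_toSet.biUnion fun n _ => Ideal.finite_setOfPred_absNorm_eq (S := 𝓞 K) n).subset
      fun Q hQ => Set.mem_biUnion hQ rfl
  have hsc : ∀ s : ℝ, 1 < s → Summable fun Q => c Q * pw s Q := fun s hs => by
    refine (summable_pw hs).of_norm_bounded fun Q => ?_
    rw [norm_mul, Real.norm_eq_abs, Real.norm_of_nonneg (pw_nonneg _ _)]
    exact mul_le_of_le_one_left (pw_nonneg _ _) (hc Q)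
  have h0 : ∀ (s : ℝ) (Q : Ideal (𝓞 K)), 0 ≤ pw s Q - c Q * pw s Q := fun s Q =>
    sub_nonneg.2 (mul_le_of_le_one_left (pw_nonneg _ _) (abs_le.1 (hc Q)).2)
  have h1 : (fun s : ℝ => ∑' Q : Ideal (𝓞 K), (pw s Q - c Q * pw s Q)) =O[𝓝[>] 1]
      fun _ => (1 : ℝ) := by
    refine IsBigO.of_bound (hfin.toFinset.card +
      2 * (Module.finrank ℤ (𝓞 K) * ∑' p : ℕ, 1 / (p : ℝ) ^ 2)) ?_
    filter_upwards [self_mem_nhdsWithin] with s hs
    have hs : 1 < s := hs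
    rw [norm_one, mul_one, Real.norm_of_nonneg (tsum_nonneg (h0 s))]
    refine ((summable_pw hs).sub (hsc s hs)).tsum_le_of_sum_le fun u => ?_
    have h2 : ∀ Q ∈ u, pw s Q - c Q * pw s Q ≤ (if Q ∈ hfin.toFinset then 1 else 0) +
        2 * if Q.IsMaximal ∧ ¬ (Ideal.absNorm Q).Prime then w s Q else 0 := by
      intro Q _
      have k0 := w_nonneg s Q
      have k1 : (0 : ℝ) ≤ if Q ∈ hfin.toFinset then 1 else 0 := by positivity
      have k2 : 0 ≤ if Q.IsMaximal ∧ ¬ (Ideal.absNorm Q).Prime then w s Q else 0 := by positivity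
      by_cases hm : Q.IsMaximal
      · have k3 : pw s Q - c Q * pw s Q ≤ 2 * w s Q := by
          rw [pw, if_pos hm]
          nlinarith [(abs_le.1 (hc Q)).1]
        by_cases hp : (Ideal.absNorm Q).Prime
        · by_cases hB : Ideal.absNorm Q ∈ B
          · rw [if_pos (hfin.mem_toFinset.2 hB)]
            linarith [w_le_half hs.le hm]
          · have k4 : c Q = 1 := by_contra fun k => hcon ⟨Q, hm, hp, hB, k⟩
            rw [k4]
            linarith
        · rw [if_pos (⟨hm, hp⟩ : Q.IsMaximal ∧ ¬ (Ideal.absNorm Q).Prime)]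
          linarith
      · rw [pw, if_neg hm]
        linarith
    refine (sum_le_sum h2).trans ?_
    rw [sum_add_distrib, ← mul_sum, ← sum_filter, ← sum_filter]
    refine add_le_add ?_ (mul_le_mul_of_nonneg_left
      (ch1_high hs _ fun Q hQ => (mem_filter.1 hQ).2) zero_le_two)
    rw [sum_const, nsmul_eq_mul, mul_one]
    exact Nat.cast_le.2 (card_le_card fun Q hQ => (mem_filter.1 hQ).2)
  refine ch1_log (((P_bigO K).sub (h1.add h)).congr' ?_ EventuallyEq.rfl)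
  filter_upwards [self_mem_nhdsWithin] with s hs
  have hs : 1 < s := hs
  rw [(summable_pw hs).tsum_sub (hsc s hs)]
  ring

theorem exists_deg_one' (K : Type*) [Field K] [NumberField K] (B : Finset ℕ) :
    ∃ P : Ideal (𝓞 K), P.IsMaximal ∧ (Ideal.absNorm P).Prime ∧ Ideal.absNorm P ∉ B := by
  obtain ⟨P, h1, h2, h3, -⟩ := exists_deg_one (K := K) (fun _ => 0) (fun _ => by simp)
    (by simp only [zero_mul, tsum_zero]; exact isBigO_zero _ _) B
  exact ⟨P, h1, h2, h3⟩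

theorem exists_deg_one_nonres {d : 𝓞 K} (hd : ¬ IsSquare (d : K)) (B : Finset ℕ) :
    ∃ P : Ideal (𝓞 K), P.IsMaximal ∧ (Ideal.absNorm P).Prime ∧ Ideal.absNorm P ∉ B ∧
      (d ∈ P ∨ ¬ ∃ r : 𝓞 K, d - r ^ 2 ∈ P) := by
  obtain ⟨P, h1, h2, h3, h4⟩ := exists_deg_one (fun Q => MP_aed2da_nt.QC.chi Q d)
    (fun Q => MP_aed2da_nt.QC.abs_chi_le Q d) (MP_aed2da_nt.QC.chi_bigO hd) B
  refine ⟨P, h1, h2, h3, ?_⟩
  by_contra h5
  rw [not_or, not_not] at h5
  exact h4 (by rw [MP_aed2da_nt.QC.chi, if_neg h5.1, if_pos h5.2])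

end Pool.Agent.Lib.MP_696deb_nt.B2
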