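import Pool.Agent.Lib.MP_696deb_nt.B2.CL0

/-! The ramification index is the index of the inertia group. -/

set_option autoImplicit false

open scoped NNReal Classical
open Filter Topology Finset

namespace Pool.Agent.Lib.MP_696deb_nt.B2

variable {H : Subgroup Gam} {w : Plc}

theorem cld_teich (w : Plc) {x : Qbar} (hx : w.V x ≤ 1) :
    ∃ t, Fx (Ine w) t ∧ w.V t ≤ 1 ∧ w.V (x - t) < 1 := by
  obtain ⟨n, n0, hn⟩ := w.exists_pow hx
  have h1 : 1 < w.p ^ n := Nat.one_lt_pow n0.ne' w.prime.one_lt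
  have hN : ¬ w.p ∣ w.p ^ n - 1 := fun h =>
    w.prime.one_lt.ne' (Nat.dvd_one.1 (by
      simpa [Nat.sub_sub_self h1.le] using Nat.dvd_sub (dvd_pow_self w.p n0.ne') h))
  have hM : 0 < w.p ^ n - 1 := by omega
  by_cases h0 : w.V x < 1
  · exact ⟨0, fun g _ => map_zero g, by simp, by simpa using h0⟩
  have hx1 : w.V x = 1 := hx.antisymm (not_lt.1 h0)
  have h2 : w.V (x ^ (w.p ^ n - 1) - 1) < 1 := by
    have e : x ^ w.p ^ n - x = x * (x ^ (w.p ^ n - 1) - 1) := by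
      rw [mul_sub, mul_one, ← pow_succ', Nat.sub_add_cancel h1.le]
    rwa [e, map_mul, hx1, one_mul] at hn
  have : NeZero ((w.p ^ n - 1 : ℕ) : Qbar) := ⟨Nat.cast_ne_zero.2 hM.ne'⟩
  obtain ⟨ζ, hζ⟩ := HasEnoughRootsOfUnity.exists_primitiveRoot Qbar (w.p ^ n - 1)
  have e := congrArg (Polynomial.eval x) (Polynomial.X_pow_sub_one_eq_prod hM hζ)
  simp only [Polynomial.eval_sub, Polynomial.eval_pow, Polynomial.eval_X, Polynomial.eval_one,
    Polynomial.eval_prod, Polynomial.eval_C] at e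
  rw [e, map_prod] at h2
  obtain ⟨t, ht, kt⟩ : ∃ t ∈ Polynomial.nthRootsFinset (w.p ^ n - 1) (1 : Qbar),
      w.V (x - t) < 1 := by
    by_contra hc
    push Not at hc
    exact h2.not_ge (one_le_prod' hc)
  rw [Polynomial.mem_nthRootsFinset hM] at ht
  exact ⟨t, fun g hg => by simpa using b3a_frob (isFrob_one.2 hg) hN ht,
    (w.V_root_of_unity hM.ne' ht).le, kt⟩

theorem cld_trans (G : Subgroup Gam) (hH : Op H) :
    ∃ (ι : Type) (_ : Fintype ι) (r : ι → Gam), Fintype.card ι = (H ⊓ G).relIndex G ∧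
      0 < Fintype.card ι ∧ (∀ i, r i ∈ G) ∧ (∀ i j, (r i)⁻¹ * r j ∈ H → i = j) ∧
      ∀ h ∈ G, ∃ e : ι ≃ ι, ∀ i z, Fx (H ⊓ G) z → h (r i z) = r (e i) z := by
  have : H.FiniteIndex := ⟨hH.index_ne_zero⟩
  let F : Fintype (G ⧸ H.subgroupOf G) := Fintype.ofFinite _
  refine ⟨G ⧸ H.subgroupOf G, F, fun q => (q.out : G), ?_, ?_,
    fun q => q.out.2, fun i j h => ?_,
    fun h hh => ⟨MulAction.toPerm (⟨h, hh⟩ : G), fun q z hz => ?_⟩⟩
  · rw [Subgroup.inf_relIndex_right, ← Nat.card_eq_fintype_card]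
    rfl
  · rw [← Nat.card_eq_fintype_card]
    exact Nat.card_pos
  · rw [← i.out_eq', ← j.out_eq', QuotientGroup.eq]
    exact h
  · obtain ⟨d, hd⟩ := QuotientGroup.mk_out_eq_mul (H.subgroupOf G) ((⟨h, hh⟩ : G) • q.out)
    rw [MulAction.Quotient.mk_smul_out] at hd
    beta_reduce
    rw [MulAction.toPerm_apply, hd]
    exact congrArg (fun t => h ((q.out : G).1 t)) (hz d ⟨d.2, d.1.2⟩).symm

/-- One step of the expansion in powers of the uniformizer. -/
theorem cld_step {π : Qbar} (h1 : Fx H π) (h2 : 0 < w.V π) (h3 : w.V π < 1)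
    (h4 : ∀ x, Fx (H ⊓ Ine w) x → x ≠ 0 → ∃ k : ℤ, w.V x = w.V π ^ k) {e : ℕ} (e0 : 0 < e)
    (he : w.V π ^ e = w.V w.p) {x : Qbar} (hx : Fx (H ⊓ Ine w) x) {k : ℤ}
    (hk : w.V x ≤ w.V π ^ k) : ∃ (t : Qbar) (i : ℕ), Fx (Ine w) t ∧ i < e ∧
      w.V (x - t * π ^ i) ≤ w.V π ^ (k + 1) := by
  have π0 : π ≠ 0 := fun h => by simp [h] at h2
  have p0 : (w.p : Qbar) ≠ 0 := Nat.cast_ne_zero.2 w.prime.ne_zero
  have e1 : (0 : ℤ) < e := by exact_mod_cast e0
  obtain ⟨i, hi⟩ := Int.eq_ofNat_of_zero_le (Int.emod_nonneg k e1.ne')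
  have i1 : i < e := by
    have := Int.emod_lt_of_pos k e1
    omega
  set s : Qbar := (w.p : Qbar) ^ (k / e) * π ^ i with hs
  have s0 : s ≠ 0 := mul_ne_zero (zpow_ne_zero _ p0) (pow_ne_zero _ π0)
  have s1 : w.V s = w.V π ^ k := by
    rw [hs, map_mul, map_zpow₀, map_pow, ← he, ← zpow_natCast, ← zpow_natCast, ← zpow_mul,
      ← zpow_add₀ h2.ne', ← hi, Int.mul_ediv_add_emod]
  have s2 : Fx (H ⊓ Ine w) s := fun g hg => by
    rw [hs, map_mul, map_zpow₀, map_pow, map_natCast, h1 g hg.1]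
  have pos : 0 < w.V π ^ k := zpow_pos h2 k
  obtain ⟨t, t1, -, t3⟩ := cld_teich w (x := x / s) (by rwa [map_div₀, s1, div_le_one pos])
  refine ⟨t * (w.p : Qbar) ^ (k / e), i, fun g hg => by
    rw [map_mul, map_zpow₀, map_natCast, t1 g hg], i1, ?_⟩
  have e2 : x - t * (w.p : Qbar) ^ (k / e) * π ^ i = (x / s - t) * s := by
    rw [sub_mul, div_mul_cancel₀ _ s0, hs, mul_assoc]
  rw [e2, map_mul, s1, zpow_add_one₀ h2.ne', mul_comm]
  refine mul_le_mul_right ?_ _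
  rcases eq_or_ne (x / s - t) 0 with h0 | h0
  · simp [h0]
  obtain ⟨j, hj⟩ := h4 _ (fun g hg => by
    rw [map_sub, map_div₀, hx g hg, s2 g hg, t1 g hg.2]) h0
  rw [hj] at t3 ⊢
  have j0 : 1 ≤ j := (zpow_lt_one_iff_right_of_lt_one₀ h2 h3).1 t3
  simpa using zpow_le_zpow_right_of_le_one₀ h2 h3.le j0

/-- A relation between conjugates that holds on the first powers of the uniformizer holds
everywhere. -/
theorem cld_all {π : Qbar} (h1 : Fx H π) (h2 : 0 < w.V π) (h3 : w.V π < 1)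
    (h4 : ∀ x, Fx (H ⊓ Ine w) x → x ≠ 0 → ∃ k : ℤ, w.V x = w.V π ^ k) {e : ℕ} (e0 : 0 < e)
    (he : w.V π ^ e = w.V w.p) {ι : Type} [Fintype ι] {r : ι → Gam} (hr : ∀ i, r i ∈ Ine w)
    {c : ι → Qbar} (hc : ∀ i < e, ∑ j, c j * r j (π ^ i) = 0) {x : Qbar}
    (hx : Fx (H ⊓ Ine w) x) : ∑ j, c j * r j x = 0 := by
  rcases eq_or_ne x 0 with rfl | x0
  · simp
  obtain ⟨k, hk⟩ := h4 x hx x0
  have key : ∀ n : ℕ, ∃ y, Fx (H ⊓ Ine w) y ∧ w.V y ≤ w.V π ^ (k + n) ∧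
      ∑ j, c j * r j x = ∑ j, c j * r j y := by
    intro n
    induction n with
    | zero => exact ⟨x, hx, by simp [hk], rfl⟩
    | succ n ih =>
      obtain ⟨y, y1, y2, y3⟩ := ih
      obtain ⟨t, i, t1, i1, t2⟩ := cld_step h1 h2 h3 h4 e0 he y1 y2
      refine ⟨y - t * π ^ i, fun g hg => by
        rw [map_sub, map_mul, map_pow, y1 g hg, t1 g hg.2, h1 g hg.1], by
          rwa [Nat.cast_succ, ← add_assoc], ?_⟩
      have e3 : ∀ j, c j * r j (y - t * π ^ i) = c j * r j y - t * (c j * r j (π ^ i)) := by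
        intro j
        rw [map_sub, map_mul, t1 _ (hr j)]
        ring
      simp only [e3]
      rw [sum_sub_distrib, ← mul_sum, hc i i1, mul_zero, sub_zero, y3]
  by_contra hne
  obtain ⟨n, hn⟩ := (b3a_small ((∑ j, w.V (c j)) * w.V π ^ k) h3 (b3a_pos w hne)).exists
  obtain ⟨y, -, y2, y3⟩ := key n
  refine hn.not_ge ?_
  rw [y3]
  refine w.V.map_sum_le fun j _ => ?_
  rw [map_mul, mem_Dec.1 (hr j).1, mul_assoc, ← zpow_natCast, ← zpow_add₀ h2.ne']
  exact mul_le_mul' (single_le_sum (f := fun j => w.V (c j)) (fun _ _ => zero_le) (mem_univ j)) y2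

/-- Independence of characters. -/
theorem cld_indep {G : Subgroup Gam} (hG : IsClosed (G : Set Gam)) {ι : Type} [Fintype ι]
    {r : ι → Gam} (hr : ∀ i j, (r i)⁻¹ * r j ∈ G → i = j) {c : ι → Qbar}
    (hc : ∀ x, Fx G x → ∑ j, c j * r j x = 0) : c = 0 := by
  let f : ι → (IntermediateField.fixedField G →* Qbar) := fun j =>
    { toFun := fun x => r j x
      map_one' := by simp
      map_mul' := fun x y => by simp }
  have hf : Function.Injective f := fun i j h => hr i j (mem_of_fx hG fun x hx => by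
    have h1 : r i x = r j x := DFunLike.congr_fun h ⟨x, b3a_fx.1 hx⟩
    rw [AlgEquiv.mul_apply, ← h1]
    exact (r i).symm_apply_apply x)
  have h := (linearIndependent_monoidHom (IntermediateField.fixedField G) Qbar).comp f hf
  refine funext (Fintype.linearIndependent_iff.1 h c (funext fun x => ?_))
  simpa [f] using hc x (b3a_fx.2 x.2)

theorem ram_eq (hH : Op H) {π : Qbar} (h1 : Fx H π) (h2 : 0 < w.V π) (h3 : w.V π < 1)
    (h4 : ∀ x, Fx (H ⊓ Ine w) x → x ≠ 0 → ∃ k : ℤ, w.V x = w.V π ^ k) :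
    w.V π ^ (H ⊓ Ine w).relIndex (Ine w) = (w.p : ℝ≥0)⁻¹ := by
  have π0 : π ≠ 0 := fun h => by simp [h] at h2
  obtain ⟨k, hk⟩ := h4 w.p (fun g _ => map_natCast g _) (Nat.cast_ne_zero.2 w.prime.ne_zero)
  have k0 : 0 < k := (zpow_lt_one_iff_right_of_lt_one₀ h2 h3).1 (hk ▸ b2a_p_lt w)
  obtain ⟨e, rfl⟩ := Int.eq_ofNat_of_zero_le k0.le
  have e0 : 0 < e := by exact_mod_cast k0
  rw [zpow_natCast] at hk
  obtain ⟨ι, _, r, r0, r1, r2, r3, r4⟩ := cld_trans (Ine w) hH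
  rw [← r0, ← w.hV, hk]
  congr 1
  refine le_antisymm ?_ ?_
  · let M : Matrix (Fin e) ι Qbar := fun i j => r j (π ^ (i : ℕ))
    have hM : Function.Injective M.mulVecLin := by
      rw [injective_iff_map_eq_zero]
      intro c hc
      refine cld_indep (G := H ⊓ Ine w) (hH.closed.inter (closed_Ine w))
        (fun i j h => r3 i j h.1) fun x hx => cld_all h1 h2 h3 h4 e0 hk.symm r2 (fun i hi => ?_) hx
      have h5 : ∑ j, r j (π ^ i) * c j = 0 := congrFun hc ⟨i, hi⟩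
      simpa only [mul_comm] using h5
    simpa using LinearMap.finrank_le_finrank_of_injective hM
  · obtain ⟨a, ha⟩ := V_of_fx_ine (w := w) (x := ∏ i, r i π) (fun h hh => by
      obtain ⟨ε, hε⟩ := r4 h hh
      rw [map_prod, ← ε.prod_comp fun i => r i π]
      exact prod_congr rfl fun i _ => hε i π fun g hg => h1 g hg.1)
      (prod_ne_zero_iff.2 fun i _ => (map_ne_zero _).2 π0)
    rw [map_prod, prod_congr rfl fun i _ => mem_Dec.1 (r2 i).1 π, prod_const, card_univ,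
      ← inv_zpow, ← w.hV, hk, ← zpow_natCast, ← zpow_natCast, ← zpow_mul] at ha
    have h6 : (Fintype.card ι : ℤ) = e * a := zpow_right_injective₀ h2 h3.ne ha
    exact Nat.le_of_dvd r1 (Int.natCast_dvd_natCast.1 ⟨a, h6⟩)

/-- Every integral number is congruent to a number fixed by inertia. -/
theorem exists_teich (w : Plc) {x : Qbar} (hx : w.V x ≤ 1) :
    ∃ t, Fx (Ine w) t ∧ w.V t ≤ 1 ∧ w.V (x - t) < 1 := cld_teich w hx


end Pool.Agent.Lib.MP_696deb_nt.B2
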