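import Mathlib

/-! Invertible lattices for a subring of the complex numbers, and their class group. -/

set_option autoImplicit false

open scoped Classical

namespace Pool.Agent.Lib.MP_696deb_nt.B2.CM

/-- Subgroups of the complex numbers, with their multiplication. -/
abbrev Lt : Type := Submodule ℤ ℂ

/-- The group generated by two numbers. -/
def sp2 (a b : ℂ) : Lt := Submodule.span ℤ {a, b}

/-- The homothetic group. -/
def sc (a : ℂ) (I : Lt) : Lt := Submodule.span ℤ {a} * I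

/-- The image under an automorphism. -/
def mp (σ : ℂ ≃+* ℂ) (I : Lt) : Lt := I.map (σ : ℂ →+* ℂ).toIntAlgHom.toLinearMap

/-- Lattices. -/
def IsLat (I : Lt) : Prop := ∃ L : PeriodPair, L.lattice = I

/-- The additive group of a subring. -/
def ot (A : Subalgebra ℤ ℂ) : Lt := Subalgebra.toSubmodule A

theorem mem_sp2 {a b z : ℂ} : z ∈ sp2 a b ↔ ∃ m n : ℤ, z = m * a + n * b := by
  simp only [sp2, Submodule.mem_span_pair, zsmul_eq_mul, eq_comm]

theorem left_mem_sp2 (a b : ℂ) : a ∈ sp2 a b := Submodule.subset_span (by simp)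

theorem right_mem_sp2 (a b : ℂ) : b ∈ sp2 a b := Submodule.subset_span (by simp)

theorem sp2_le {a b : ℂ} {I : Lt} : sp2 a b ≤ I ↔ a ∈ I ∧ b ∈ I := by
  simp [sp2, Submodule.span_le, Set.insert_subset_iff]

theorem sp2_mul_le {a b c d : ℂ} {I : Lt} :
    sp2 a b * sp2 c d ≤ I ↔ a * c ∈ I ∧ a * d ∈ I ∧ b * c ∈ I ∧ b * d ∈ I := by
  rw [sp2, sp2, Submodule.span_mul_span, Submodule.span_le]
  simp [Set.mul_subset_iff, and_assoc]

theorem int_mul_mem {I : Lt} {z : ℂ} (h : z ∈ I) (k : ℤ) : k * z ∈ I := by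
  simpa only [zsmul_eq_mul] using I.smul_mem k h

theorem mem_sc {a z : ℂ} {I : Lt} : z ∈ sc a I ↔ ∃ y ∈ I, a * y = z :=
  Submodule.mem_span_singleton_mul

theorem mul_mem_sc {a z : ℂ} {I : Lt} (ha : a ≠ 0) : a * z ∈ sc a I ↔ z ∈ I :=
  ⟨fun h => by
    obtain ⟨y, hy, e⟩ := mem_sc.1 h
    rwa [← mul_left_cancel₀ ha e], fun h => mem_sc.2 ⟨z, h, rfl⟩⟩

theorem sc_mul (a : ℂ) (I J : Lt) : sc a I * J = sc a (I * J) := mul_assoc _ _ _

theorem mul_sc (a : ℂ) (I J : Lt) : I * sc a J = sc a (I * J) := mul_left_comm _ _ _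

theorem sc_sc (a b : ℂ) (I : Lt) : sc a (sc b I) = sc (a * b) I := by
  rw [sc, sc, sc, ← mul_assoc, Submodule.span_mul_span, Set.singleton_mul_singleton]

theorem sc_one (I : Lt) : sc 1 I = I := by rw [sc, ← Submodule.one_eq_span, one_mul]

theorem sc_inv_sc {a : ℂ} (ha : a ≠ 0) (I : Lt) : sc a⁻¹ (sc a I) = I := by
  rw [sc_sc, inv_mul_cancel₀ ha, sc_one]

theorem sc_sp2 (a b c : ℂ) : sc a (sp2 b c) = sp2 (a * b) (a * c) := by
  rw [sc, sp2, sp2, Submodule.span_mul_span, Set.singleton_mul, Set.image_pair]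

theorem mem_mp {σ : ℂ ≃+* ℂ} {I : Lt} {z : ℂ} : z ∈ mp σ I ↔ ∃ y ∈ I, σ y = z := Iff.rfl

theorem mp_mul (σ : ℂ ≃+* ℂ) (I J : Lt) : mp σ (I * J) = mp σ I * mp σ J :=
  Submodule.map_mul _ _ _

theorem mp_sp2 (σ : ℂ ≃+* ℂ) (a b : ℂ) : mp σ (sp2 a b) = sp2 (σ a) (σ b) := by
  rw [mp, sp2, sp2, Submodule.map_span, Set.image_pair]; rfl

theorem mp_sc (σ : ℂ ≃+* ℂ) (a : ℂ) (I : Lt) : mp σ (sc a I) = sc (σ a) (mp σ I) := by
  rw [sc, mp_mul, sc, mp, Submodule.map_span, Set.image_singleton]; rfl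

theorem mp_symm_mp (σ : ℂ ≃+* ℂ) (I : Lt) : mp σ.symm (mp σ I) = I := by
  ext z
  simp [mem_mp]

variable {A B : Subalgebra ℤ ℂ} {I J : Lt}

theorem mem_ot {z : ℂ} : z ∈ ot A ↔ z ∈ A := Iff.rfl

theorem ot_mul_ot (h : A ≤ B) : ot A * ot B = ot B :=
  le_antisymm (Submodule.mul_le.2 fun _ ha _ hb => B.mul_mem (h ha) hb) fun z hz => by
    simpa using Submodule.mul_mem_mul (M := ot A) A.one_mem hz

/-- Invertible modules. -/
def IsIv (A : Subalgebra ℤ ℂ) (I : Lt) : Prop := I * ot A = I ∧ ∃ J, I * J = ot A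

theorem isIv_one (A : Subalgebra ℤ ℂ) : IsIv A (ot A) :=
  ⟨ot_mul_ot le_rfl, _, ot_mul_ot le_rfl⟩

theorem IsIv.mul (h : IsIv A I) (k : IsIv A J) : IsIv A (I * J) := by
  obtain ⟨-, I', h⟩ := h
  obtain ⟨k0, J', k⟩ := k
  exact ⟨by rw [mul_assoc, k0], I' * J', by rw [mul_mul_mul_comm, h, k, ot_mul_ot le_rfl]⟩

theorem IsIv.sc (h : IsIv A I) {a : ℂ} (ha : a ≠ 0) : IsIv A (sc a I) := by
  obtain ⟨h0, I', h⟩ := h
  exact ⟨by rw [sc_mul, h0], CM.sc a⁻¹ I', by rw [mul_sc, sc_mul, sc_inv_sc ha, h]⟩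

theorem IsIv.ext (h : IsIv A I) (k : A ≤ B) : IsIv B (I * ot B) := by
  obtain ⟨-, I', h⟩ := h
  exact ⟨by rw [mul_assoc, ot_mul_ot le_rfl], I', by rw [mul_right_comm, h, ot_mul_ot k]⟩

theorem IsIv.exists_inv (h : IsIv A I) : ∃ J, IsIv A J ∧ I * J = ot A := by
  obtain ⟨h0, J, h⟩ := h
  have e : I * (J * ot A) = ot A := by rw [← mul_assoc, h, ot_mul_ot le_rfl]
  exact ⟨J * ot A, ⟨by rw [mul_assoc, ot_mul_ot le_rfl], I, by rw [mul_comm, e]⟩, e⟩

theorem IsIv.mul_mem (h : IsIv A I) {a z : ℂ} (ha : a ∈ A) (hz : z ∈ I) : a * z ∈ I := by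
  rw [← h.1, mul_comm a]; exact Submodule.mul_mem_mul hz ha

theorem IsIv.mem_of_mul (h : IsIv A I) {a : ℂ} (ha : ∀ z ∈ I, a * z ∈ I) : a ∈ A := by
  obtain ⟨-, J, h⟩ := h
  have h1 : CM.sc a I ≤ I := fun z hz => by
    obtain ⟨y, hy, rfl⟩ := mem_sc.1 hz
    exact ha y hy
  have h2 := mul_le_mul_left h1 J
  rw [sc_mul, h] at h2
  exact h2 (mem_sc.2 ⟨1, A.one_mem, mul_one a⟩)

theorem IsIv.exists_ne (h : IsIv A I) : ∃ z ∈ I, z ≠ 0 := by
  obtain ⟨-, J, h⟩ := h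
  rw [← Submodule.ne_bot_iff]
  rintro rfl
  rw [Submodule.bot_mul] at h
  have : (1 : ℂ) ∈ (⊥ : Lt) := h ▸ A.one_mem
  simp at this

/-- The group of invertible modules. -/
def Iv (A : Subalgebra ℤ ℂ) : Type := {I : Lt // IsIv A I}

noncomputable instance : CommGroup (Iv A) where
  mul I J := ⟨I.1 * J.1, I.2.mul J.2⟩
  one := ⟨ot A, isIv_one A⟩
  inv I := ⟨I.2.exists_inv.choose, I.2.exists_inv.choose_spec.1⟩
  mul_assoc _ _ _ := Subtype.ext (mul_assoc _ _ _)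
  mul_comm _ _ := Subtype.ext (mul_comm _ _)
  one_mul I := Subtype.ext ((mul_comm _ _).trans I.2.1)
  mul_one I := Subtype.ext I.2.1
  inv_mul_cancel I := Subtype.ext ((mul_comm _ _).trans I.2.exists_inv.choose_spec.2)

/-- Principal modules. -/
noncomputable def pri (A : Subalgebra ℤ ℂ) : ℂˣ →* Iv A :=
  MonoidHom.mk' (fun a => ⟨sc a (ot A), (isIv_one A).sc a.ne_zero⟩) fun a b => Subtype.ext (by
    change sc (a * b) (ot A) = sc a (ot A) * sc b (ot A)
    rw [sc_mul, mul_sc, sc_sc, ot_mul_ot le_rfl])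

/-- The class group. -/
def Pic (A : Subalgebra ℤ ℂ) : Type := Iv A ⧸ (pri A).range

noncomputable instance : CommGroup (Pic A) := inferInstanceAs (CommGroup (Iv A ⧸ (pri A).range))

/-- The class of an invertible module. -/
noncomputable def cl (A : Subalgebra ℤ ℂ) (I : Lt) : Pic A :=
  if h : IsIv A I then QuotientGroup.mk (s := (pri A).range) ⟨I, h⟩ else 1

theorem cl_eq (h : IsIv A I) : cl A I = QuotientGroup.mk (s := (pri A).range) ⟨I, h⟩ := dif_pos h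

theorem cl_mul (h : IsIv A I) (k : IsIv A J) : cl A (I * J) = cl A I * cl A J := by
  rw [cl_eq h, cl_eq k, cl_eq (h.mul k)]; rfl

theorem cl_one : cl A (ot A) = 1 := cl_eq (isIv_one A)

theorem cl_surj (x : Pic A) : ∃ I, IsIv A I ∧ cl A I = x := by
  obtain ⟨I, rfl⟩ := QuotientGroup.mk_surjective (s := (pri A).range) x
  exact ⟨I.1, I.2, cl_eq I.2⟩

theorem cl_eq_iff (h : IsIv A I) (k : IsIv A J) :
    cl A I = cl A J ↔ ∃ a : ℂ, a ≠ 0 ∧ J = sc a I := by
  rw [cl_eq h, cl_eq k]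
  refine QuotientGroup.eq.trans ⟨fun ⟨a, e⟩ => ⟨a, a.ne_zero, ?_⟩, fun ⟨a, ha, e⟩ =>
    ⟨Units.mk0 a ha, eq_inv_mul_of_mul_eq (G := Iv A) (Subtype.ext ?_)⟩⟩
  · have := congrArg Subtype.val (mul_eq_of_eq_inv_mul (G := Iv A) e)
    change I * sc a (ot A) = J at this
    rw [← this, mul_sc, h.1]
  · change I * sc a (ot A) = J
    rw [e, mul_sc, h.1]

theorem cl_sc (h : IsIv A I) {a : ℂ} (ha : a ≠ 0) : cl A (sc a I) = cl A I :=
  ((cl_eq_iff h (h.sc ha)).2 ⟨a, ha, rfl⟩).symm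

theorem cl_inv (h : IsIv A I) (k : IsIv A J) {a : ℂ} (ha : a ≠ 0) (e : I * J = sc a (ot A)) :
    cl A J = (cl A I)⁻¹ :=
  eq_inv_of_mul_eq_one_right (by rw [← cl_mul h k, e, cl_sc (isIv_one A) ha, cl_one])

/-- Extension of the ring. -/
noncomputable def ivj (h : A ≤ B) : Iv A →* Iv B :=
  MonoidHom.mk' (fun I => ⟨I.1 * ot B, I.2.ext h⟩) fun I J => Subtype.ext (by
    change I.1 * J.1 * ot B = I.1 * ot B * (J.1 * ot B)
    rw [mul_mul_mul_comm, ot_mul_ot le_rfl])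

/-- Extension of the ring, on classes. -/
noncomputable def picj (h : A ≤ B) : Pic A →* Pic B :=
  QuotientGroup.map (pri A).range (pri B).range (ivj h) (by
    rintro _ ⟨a, rfl⟩
    refine ⟨a, Subtype.ext ?_⟩
    change sc a (ot B) = sc a (ot A) * ot B
    rw [sc_mul, ot_mul_ot h])

theorem picj_cl (h : A ≤ B) (k : IsIv A I) : picj h (cl A I) = cl B (I * ot B) := by
  rw [cl_eq k, cl_eq (k.ext h)]; rfl

/-- The square root of `-n`. -/
noncomputable def dl (n : ℕ) : ℂ := √(n : ℝ) * Complex.I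

/-- The numbers `(b + c √(-n)) / 2`. -/
noncomputable def be (n c : ℕ) (b : ℤ) : ℂ := (b + c * dl n) / 2

/-- The order of conductor `c` in the field of discriminant `-n`. -/
noncomputable def Oc (n c : ℕ) : Subalgebra ℤ ℂ := Algebra.adjoin ℤ {c * be n 1 1}

/-- The ring class group. -/
abbrev Pc (n c : ℕ) : Type := Pic (Oc n c)

theorem Oc_le (n : ℕ) {c c' : ℕ} (h : c ∣ c') : Oc n c' ≤ Oc n c := by
  obtain ⟨k, rfl⟩ := h
  refine Algebra.adjoin_le (Set.singleton_subset_iff.2 ?_)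
  rw [Nat.cast_mul, mul_comm (c : ℂ), mul_assoc]
  exact mul_mem (natCast_mem _ k) (Algebra.self_mem_adjoin_singleton ℤ _)

/-- The projection between ring class groups. -/
noncomputable def pj (n c c' : ℕ) : Pc n c' →* Pc n c :=
  if h : c ∣ c' then picj (Oc_le n h) else 1

theorem pj_cl {n c c' : ℕ} (h : c ∣ c') (k : IsIv (Oc n c') I) :
    pj n c c' (cl _ I) = cl _ (I * ot (Oc n c)) := by rw [pj, dif_pos h, picj_cl _ k]

/-- The ideal attached to the form with first coefficients `m`, `b`. -/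
noncomputable def idl (n c : ℕ) (m b : ℤ) : Lt := sp2 m (be n c b)

/-- The lattices between an order and its multiple by `l`. -/
noncomputable def Iu (n c l : ℕ) (u : ℂ) : Lt := Submodule.span ℤ {u} ⊔ sc l (ot (Oc n c))

/-- The `l + 1` sublattices of index `l`. -/
noncomputable def nb (l : ℕ) (s : ℤ) (τ : ℂ) : Option (Fin l) → Lt
  | none => sp2 (l * τ) 1
  | some k => sp2 (τ + s * (k : ℕ)) l

/-- The integers of the quadratic field. -/
noncomputable def el (n : ℕ) (x y : ℤ) : ℂ := x + y * be n 1 1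

/-- Their norms. -/
def nrm (n : ℕ) (x y : ℤ) : ℤ := x ^ 2 + x * y + y ^ 2 * ((n + 1) / 4)

/-- The standing hypotheses on the discriminant and the conductor. -/
structure Ok (n c : ℕ) : Prop where
  m4 : n % 4 = 3
  gt : 3 < n
  ne : c ≠ 0

/-- The elements of odd order. -/
def oddP (G : Type) [CommGroup G] : Subgroup G where
  carrier := {x | ∃ k : ℕ, Odd k ∧ x ^ k = 1}
  one_mem' := ⟨1, odd_one, one_pow _⟩
  mul_mem' := by
    rintro x y ⟨k, hk, h⟩ ⟨l, hl, h'⟩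
    exact ⟨k * l, hk.mul hl, by rw [mul_pow, pow_mul, h, mul_comm k, pow_mul, h', one_pow, one_pow,
      one_mul]⟩
  inv_mem' := by
    rintro x ⟨k, hk, h⟩
    exact ⟨k, hk, by rw [inv_pow, h, inv_one]⟩

/-- The quotient by the elements of odd order. -/
abbrev Tw (G : Type) [CommGroup G] : Type := G ⧸ oddP G

/-- The projection. -/
def tq (G : Type) [CommGroup G] : G →* Tw G := QuotientGroup.mk' (oddP G)

/-- The induced map. -/
def twm {G H : Type} [CommGroup G] [CommGroup H] (f : G →* H) : Tw G →* Tw H :=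
  QuotientGroup.map _ _ f fun x ⟨k, hk, h⟩ => ⟨k, hk, by rw [← map_pow, h, map_one]⟩

theorem twm_tq {G H : Type} [CommGroup G] [CommGroup H] (f : G →* H) (x : G) :
    twm f (tq G x) = tq H (f x) := rfl

end Pool.Agent.Lib.MP_696deb_nt.B2.CM
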