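import Pool.Agent.Lib.MP_696deb_nt.B2.Ctx
import Pool.Agent.Lib.MP_696deb_nt.CntDefs
import Pool.Agent.Lib.MP_696deb_nt.UnifPt

/-! The link with the complex uniformization. -/

set_option autoImplicit false

open scoped Classical

namespace Pool.Agent.Lib.MP_696deb_nt.B2

/-- The Heegner points of the system are those of the complex theory. -/
def HS.Link {n : ℕ} (S : HS n) (r : ℤ) : Prop := ∀ (T : Finset Fm) (e : ℤ), FReps (-n) r T →
  e ∣ n → e % 4 = 1 → ∃ s : ℤ, (s = 1 ∨ s = -1) ∧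
    pmap jC (S.ychi e) = s • Unif.u15 (hP e.natAbs T)

/-- The neighbours of a point of the upper half plane for the Hecke correspondence. -/
noncomputable def nb (p : ℕ) (τ : ℂ) : Option (Fin p) → ℂ
  | none => p * τ
  | some j => (τ + (j : ℕ)) / p

/-- The congruence relation of Kronecker, Eichler and Shimura. -/
def KronStmt : Prop := ∀ (w : Plc) (φ : Gam) (τ : ℂ) (P : EE), ¬ w.p ∣ 30 → IsFrob w w.p φ →
  0 < τ.im → pmap jC P = pt τ → ∃ N : Option (Fin w.p) → EE,
    (∀ i, pmap jC (N i) = pt (nb w.p τ i)) ∧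
    ∃ i, N i - φ • P ∈ K1 w ∧ ∀ j ≠ i, φ • N j - P ∈ K1 w

end Pool.Agent.Lib.MP_696deb_nt.B2
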