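import Pool.Agent.Lib.MP_696deb_nt.B2.CMp
import Pool.Agent.Lib.MP_696deb_nt.B2.CMd
import Pool.Agent.Lib.MP_696deb_nt.B2.D1b

/-! The norm relation and the congruence relation for Heegner points. -/

set_option autoImplicit false

open scoped Classical NumberTheorySymbols

namespace Pool.Agent.Lib.MP_696deb_nt.B2.CM

variable {n c l : ℕ} {r : ℤ} {I : Lt} {Q : Fm}

theorem OkR.of_mul (ok : OkR n (c * l) r) : OkR n c r := by
  exact ⟨⟨ok.m4, ok.gt, left_ne_zero_of_mul ok.ne⟩, ok.root,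
    ok.cop.coprime_dvd_left ⟨l, (mul_assoc n c l).symm⟩⟩

theorem cmn_not_dvd (ok : OkR n (c * l) r) (hl : l.Prime) : ¬ l ∣ 15 :=
  hl.coprime_iff_not_dvd.1 (ok.cop.coprime_dvd_left ⟨n * c, by ring⟩)

theorem hg_nb (ok : OkR n (c * l) r) (h : IsHg (-(n * c ^ 2)) (r * c) Q) (i : Option (Fin l)) :
    ∃ Q', Hg n (c * l) r (nb l 15 (15 * froot Q) i) Q' ∧ froot Q' = hk l (froot Q) i := by
  have hl : 0 < l := Nat.pos_of_ne_zero (right_ne_zero_of_mul ok.ne)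
  have l0 : (0 : ℤ) < l := by exact_mod_cast hl
  have l1 : (0 : ℝ) < l := by exact_mod_cast hl
  have l2 : (l : ℂ) ≠ 0 := by exact_mod_cast hl.ne'
  have hD : fdisc Q < 0 := h.disc ▸ ok.of_mul.neg
  have ht := im_froot_pos hD h.pos
  have hr := froot_root hD h.pos
  have hd := h.disc
  obtain ⟨u, hu⟩ := h.lev
  obtain ⟨v, hv⟩ := h.res
  have key : ∀ (Q' : Fm) (t : ℂ), IsHg (-(n * (c * l : ℕ) ^ 2)) (r * (c * l : ℕ)) Q' → 0 < t.im →
      (Q'.1 : ℂ) * t ^ 2 + Q'.2.1 * t + Q'.2.2 = 0 → froot Q' = t := fun Q' t k1 k2 k3 =>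
    (eq_froot (k1.disc ▸ ok.neg) k1.pos k2 k3).symm
  rw [fdisc] at hd
  rcases i with _ | k
  · have k1 : IsHg (-(n * (c * l : ℕ) ^ 2)) (r * (c * l : ℕ)) (Q.1, l * Q.2.1, l ^ 2 * Q.2.2) :=
      ⟨by rw [fdisc]; push_cast; linear_combination (l : ℤ) ^ 2 * hd, h.pos, h.lev,
        l * v, by push_cast; linear_combination (l : ℤ) * hv⟩
    have k2 := key _ (l * froot Q) k1 (by simpa using mul_pos l1 ht)
      (by push_cast; linear_combination (l : ℂ) ^ 2 * hr)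
    refine ⟨_, ⟨k1, 1, one_ne_zero, ?_⟩, k2⟩
    rw [k2, sc_one, nb, mul_left_comm]
  · have k1 : IsHg (-(n * (c * l : ℕ) ^ 2)) (r * (c * l : ℕ))
        (Q.1 * l ^ 2, l * (Q.2.1 - 2 * Q.1 * (k : ℕ)),
          Q.1 * (k : ℕ) ^ 2 - Q.2.1 * (k : ℕ) + Q.2.2) :=
      ⟨by rw [fdisc]; push_cast; linear_combination (l : ℤ) ^ 2 * hd,
        mul_pos h.pos (pow_pos l0 2), h.lev.mul_right _,
        l * (v - u * (k : ℕ)), by
          push_cast; linear_combination (l : ℤ) * hv - 2 * (l : ℤ) * ((k : ℕ) : ℤ) * hu⟩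
    have k2 := key _ ((froot Q + (k : ℕ)) / l) k1 (by simpa using div_pos ht l1)
      (by push_cast; field_simp; linear_combination hr)
    refine ⟨_, ⟨k1, l, l2, ?_⟩, k2⟩
    rw [k2, sc_sp2, nb, mul_one, mul_left_comm, mul_div_cancel₀ _ l2, mul_add, Int.cast_ofNat]

/-- The points above a given point are its Hecke neighbours. -/
theorem exists_fib (ok : OkR n (c * l) r) (hl : l.Prime) (h2 : l ≠ 2) (hJ : J(-n | l) = -1)
    (hc : ¬ l ∣ c) (z : Pc n c) :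
    ∃ (τ : ℂ) (e : Option (Fin l) → Pc n (c * l)), 0 < τ.im ∧ yP n c r z = pt τ ∧
      Function.Injective e ∧ (∀ x, pj n c (c * l) x = z ↔ ∃ i, e i = x) ∧
      ∀ i, yP n (c * l) r (e i) = pt (hk l τ i) := by
  obtain ⟨I, hI, rfl⟩ := cl_surj z
  have ok' := ok.of_mul
  obtain ⟨Q, hQ⟩ := exists_hg ok' hI
  have ht := hQ.im_pos ok'
  have e0 := yP_cl ok' hI hQ
  obtain ⟨h0, a, ha, rfl⟩ := hQ
  have hs : ¬ (l : ℤ) ∣ 15 := by exact_mod_cast cmn_not_dvd ok hl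
  have hτ : (15 * froot Q).im ≠ 0 := by simpa using ht.ne'
  have k := nb_isIv (s := 15) ok'.toOk hl h2 hJ hc hτ ha hI
  refine ⟨froot Q, fun i => cl _ (sc a (nb l 15 (15 * froot Q) i)), ht, e0,
    nb_cl_inj ok'.toOk hl h2 hJ hc hs hτ ha hI, fun x => ⟨fun h => ?_, ?_⟩, fun i => ?_⟩
  · exact (nb_cl_surj ok'.toOk hl hs hτ ha hI h).imp fun i e => e.symm
  · rintro ⟨i, rfl⟩
    exact (k i).2
  · obtain ⟨Q', h1, h3⟩ := hg_nb ok h0 i
    rw [← h3]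
    exact yP_cl ok (k i).1 (h1.sc ha)

theorem trace_yQ [Fintype (Pc n (c * l))] (ok : OkR n (c * l) r) (hl : l.Prime) (h2 : l ≠ 2) (hJ : J(-n | l) = -1)
    (hc : ¬ l ∣ c) (z : Pc n c) :
    ∑ x with pj n c (c * l) x = z, yQ n (c * l) r x = a15 l • yQ n c r z := by
  obtain ⟨τ, e, ht, e0, he, e1, e2⟩ := exists_fib ok hl h2 hJ hc z
  have e3 : (Finset.univ.filter fun x => pj n c (c * l) x = z) = Finset.univ.map ⟨e, he⟩ := by
    ext x
    simp [e1]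
  refine pmap_injective jC ?_
  rw [e3, Finset.sum_map, map_sum, map_zsmul, jC_yQ ok.of_mul, e0,
    ← Unif.pt_hecke hl (cmn_not_dvd ok hl) ht, Fintype.sum_option,
    ← Fin.sum_univ_eq_sum_range fun j => pt ((τ + j) / l)]
  simp only [Function.Embedding.coeFn_mk, jC_yQ ok, e2, hk]

theorem kron_yQ (hK : KronStmt) {w : Plc} {φ : Gam} (ok : OkR n (c * w.p) r) (h2 : w.p ≠ 2)
    (hJ : J(-n | w.p) = -1) (hc : ¬ w.p ∣ c) (hφ : IsFrob w w.p φ) (x : Pc n (c * w.p)) :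
    yQ n (c * w.p) r x - φ • yQ n c r (pj n c (c * w.p) x) ∈ K1 w := by
  have hl := w.prime
  obtain ⟨τ, e, ht, e0, -, e1, e2⟩ := exists_fib ok hl h2 hJ hc (pj n c (c * w.p) x)
  obtain ⟨j, rfl⟩ := (e1 x).1 rfl
  have d2 : ¬ w.p ∣ 2 := fun h => h2 ((Nat.prime_dvd_prime_iff_eq hl Nat.prime_two).1 h)
  have h30 : ¬ w.p ∣ 30 := fun h =>
    ((hl.dvd_mul (m := 2) (n := 15)).1 h).elim d2 (cmn_not_dvd ok hl)
  obtain ⟨N, hN, i, k1, k2⟩ := hK w φ τ _ h30 hφ ht ((jC_yQ ok.of_mul _).trans e0)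
  have e3 : yQ n (c * w.p) r (e j) = N j := pmap_injective jC (by
    rw [jC_yQ ok, e2, hN]
    cases j <;> rfl)
  rw [e3]
  by_cases hj : j = i
  · exact hj ▸ k1
  have hn : ¬ (w.p : ℤ) ∣ 2 * (-n : ℤ) := fun h => by
    rcases (Nat.prime_iff_prime_int.1 hl).dvd_or_dvd h with h | h
    · exact d2 (by exact_mod_cast h)
    · have : NeZero w.p := ⟨hl.ne_zero⟩
      have k := jacobiSym.eq_zero_iff_not_coprime (a := -n) (b := w.p)
      rw [hJ] at k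
      refine absurd (k.2 fun g => ?_) (by norm_num)
      exact (Nat.prime_iff_prime_int.1 hl).not_isUnit
        ((Int.isCoprime_iff_gcd_eq_one.2 g).isUnit_of_dvd' h dvd_rfl)
  have hg : φ ∉ GK n := fun h => by
    have k := chi_frob hn hφ
    rw [hJ, MonoidHom.mem_ker.1 h] at k
    norm_num at k
  have hg2 : φ * φ ∈ GK n := MonoidHom.mem_ker.2 (by rw [map_mul, Int.units_mul_self])
  refine (K1_smul hφ.1).1 ?_
  rw [smul_sub, smul_smul, smul_yQ ok.of_mul hg2, rho_sq ok.of_mul.toOk hg, one_mul]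
  exact k2 j hj

end Pool.Agent.Lib.MP_696deb_nt.B2.CM
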