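import Pool.Agent.Lib.MP_696deb_nt.B2.D1

/-! The auxiliary imaginary quadratic field. -/

set_option autoImplicit false

open NumberTheorySymbols

namespace Pool.Agent.Lib.MP_696deb_nt.B2

/-- Odd fundamental discriminants prime to fifteen. -/
structure Cls0 (d : ℤ) : Prop where
  sqf : Squarefree d
  m4 : d % 4 = 1
  m3 : ¬ 3 ∣ d
  m5 : ¬ 5 ∣ d

/-- The discriminant `-n = d d' = a b` of the auxiliary field. -/
structure Ctx (d d' : ℤ) (n : ℕ) (a b : ℤ) : Prop where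
  nok : Nok n
  mul : d * d' = -n
  d4 : d % 4 = 1
  ab : a * b = -n
  neg : a < 0
  b4 : ∀ q : ℕ, q.Prime → (q : ℤ) ∣ b → q % 4 = 1
  a5 : J(a | 5) = 1
  odd : Odd a.natAbs.primeFactors.card
  m1 : ∀ c : ℤ, 0 < c → c ∣ a → (∀ q : ℕ, q.Prime → (q : ℤ) ∣ b → J(c | q) = 1) → c = 1
  m2 : ∀ c : ℤ, 0 < c → c ∣ b → (∀ p : ℕ, p.Prime → (p : ℤ) ∣ a → J(c | p) = 1) → c = 1
  ind : ∀ c : ℤ, c = 3 ∨ c = 5 ∨ c = 15 → ∃ q : ℕ, q.Prime ∧ (q : ℤ) ∣ b ∧ J(c | q) = -1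

end Pool.Agent.Lib.MP_696deb_nt.B2
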