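import Pool.Agent.Lib.MP_696deb_nt.B2.MFI

set_option autoImplicit false

open scoped Classical
open Finset NumberTheorySymbols

namespace Pool.Agent.Lib.MP_696deb_nt.B2

/-- What a genus point of infinite order gives on the complex side and for the twists. -/
theorem fi_split {d d' a b : ℤ} {n : ℕ} (h0 : Cls0 d) (hc : Ctx d d' n a b) {r : ℤ}
    (hr : 60 ∣ r ^ 2 + n) (S : HS n) (hL : S.Link r) (hy : ¬ IsOfFinAddOrder (S.ychi d)) :
    n = d.natAbs * d'.natAbs ∧ J(-15 | d.natAbs) * J(-15 | d'.natAbs) = -1 ∧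
    (∃ T, FReps (-n) r T ∧ ¬ Tors (hP d.natAbs T) ∧ ¬ Tors (hP d'.natAbs T)) ∧
    (J(-15 | d.natAbs) = -1 → ∃ P : EE, ¬ IsOfFinAddOrder P ∧ ∀ g, tw d g P = P) := by
  have hn := hc.nok.good
  have d4 := h0.m4
  have hm := hc.mul
  have n4 := hn.mod4
  have d4' : d' % 4 = 1 := by
    have := Int.mul_emod d d' 4
    rw [hm, d4] at this
    omega
  have e : d.natAbs * d'.natAbs = n := by rw [← Int.natAbs_mul, hm]; simp
  obtain ⟨T, hT⟩ := exists_freps hn.neg r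
  have he : d ∣ n := ⟨-d', by rw [mul_neg, hm, neg_neg]⟩
  have k := fi_link hL hT he d4 hy
  have hs : hP d.natAbs T = hP d'.natAbs T := Finset.sum_congr rfl fun Q hQ => by
    rw [gch_swap (e ▸ hn.sqf) (e ▸ hn.adm.odd) (.inr ⟨e ▸ (hT.fam Q hQ).2.1, hT.pos Q hQ⟩)]
  refine ⟨e.symm, ?_, ⟨T, hT, k, hs ▸ k⟩, fun hJ => fi_nz hn ((mul_comm _ _).trans hm) d4' d4 hL hT hJ
    hs.symm fun h => ?_⟩
  · have := TYZ.jac15 hn hr
    rwa [← e, jacobiSym.mul_right' _ (by omega) (by omega)] at this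
  · obtain ⟨s, hs', h1⟩ := hL T d' hT ⟨-d, by rw [mul_neg, mul_comm, hm, neg_neg]⟩ d4'
    rw [← fi_jC, h1, ← hs] at h
    rcases hs' with rfl | rfl
    · exact k (fi_tors.mp (by simpa using h))
    · exact k (fi_tors.mp (by simpa using h))

end Pool.Agent.Lib.MP_696deb_nt.B2
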