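import Pool.Agent.Lib.MP_696deb_nt.C5Final
import Pool.Agent.Lib.MP_696deb_nt.ReFinal

/-! Consequences of a twisted Heegner point of infinite order for periods and for Heegner points of
smaller fields. -/

set_option autoImplicit false

open Finset NumberTheorySymbols

namespace Pool.Agent.Lib.MP_696deb_nt.B2

variable {A B : ℕ} {r : ℤ} {T : Finset Fm}

theorem fi_tq {k l : ℤ} {z w : ℂ} (h : Tors (k * z - l * w)) (hl : l ≠ 0) (hw : ¬ Tors w) :
    k ≠ 0 ∧ ¬ Tors z := by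
  rw [← tq_eq, tq_mul, tq_mul] at h
  have key : k • tq z ≠ 0 := fun e => hw (tq_eq_zero.mp (tq_cancel hl (h ▸ e)))
  exact ⟨fun e => key (by rw [e, zero_smul]), fun e => key (by rw [tq_eq_zero.mpr e, smul_zero])⟩

theorem fi_one (hn : Good (A * B)) (hr : 60 ∣ r ^ 2 + (A * B : ℕ)) (hT : FReps (-(A * B : ℕ)) r T)
    (h1 : 1 < A) (hA : A % 60 = 1 ∨ A % 60 = 49) (hy : ¬ Tors (hP B T)) :
    ∃ (ρ β : ℤ) (T' : Finset Fm), 60 ∣ ρ ^ 2 + B ∧ FReps (-B) ρ T' ∧ ¬ Tors (hP 1 T') ∧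
      60 ∣ β ^ 2 - A ∧ th (wG 1 A β) ≠ 0 := by
  have a := hn.adm_left
  have b := hn.adm_right
  have A4 : A % 4 = 1 := by omega
  have hb : Good B := ⟨b.sqf, by
    have := hn.mod4
    rw [Nat.mul_mod, A4] at this
    omega, b.cop⟩
  obtain ⟨β, γ, i, j, hi, hj⟩ : ∃ β γ i j : ℤ, β ^ 2 - A = 60 * i ∧ β * γ - 1 = 60 * j := by
    rcases hA with h | h
    exacts [⟨1, 1, -(A / 60), 0, by omega, rfl⟩, ⟨7, 43, -(A / 60), 5, by omega, rfl⟩]
  obtain ⟨l, hl⟩ := id hr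
  push_cast at hl
  have h2 : 60 ∣ (11 * r * γ) ^ 2 + B :=
    ⟨121 * γ ^ 2 * (l + B * i) - 2 * B - 121 * B * (2 * j + 60 * j ^ 2), by
      linear_combination 121 * γ ^ 2 * hl + 121 * γ ^ 2 * B * hi -
        121 * B * (β * γ + 1 + 60 * j) * hj⟩
  obtain ⟨T', hT'⟩ := exists_freps hb.neg (11 * r * γ)
  obtain ⟨s, -, k1⟩ := gkz_one hb (d := A) (β := β) (ρ' := r) (by omega) (by omega)
    (GkV.not_sq a.sqf h1) h2 ⟨i, hi⟩ ⟨22 * r * j, by linear_combination 11 * r * hj⟩ hT'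
    (by simpa [mul_comm] using hT)
  obtain ⟨k2, k3⟩ := fi_tq (k := s * 2 * th (wG 1 A β)) (l := 1) (z := hP 1 T') (w := hP B T) (by
    rw [← tq_eq] at k1 ⊢
    simpa using k1.symm) one_ne_zero hy
  exact ⟨_, β, T', h2, hT', k3, ⟨i, hi⟩, right_ne_zero_of_mul k2⟩

theorem fi_thA (hA : Squarefree A) (hc : A.Coprime 30) (h1 : 1 < A) (h0 : perA A = 0) (q : ℕ) :
    thA q (wV A) = 0 := by
  obtain ⟨s, -, g⟩ := geo_wV hA hc h1
  have key : ∀ a b d : ℤ, a * d - b * (15 * 1) = 1 → thw (wV A) a 15 = 0 := fun a b d h => by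
    have := g.cls a b 1 d h
    rw [h0] at this
    simpa using this
  unfold thA
  split_ifs
  exacts [key 4 1 4 (by norm_num), key 7 6 13 (by norm_num)]

theorem fi_two (hn : Good (A * B)) (hr : 60 ∣ r ^ 2 + (A * B : ℕ)) (hT : FReps (-(A * B : ℕ)) r T)
    (hB : J(-15 | B) = -1) (a1 : 1 < A) (h : ¬ (A % 60 = 1 ∨ A % 60 = 49))
    (hy : ¬ Tors (hP B T)) : perA A ≠ 0 := fun h0 => by
  have hc := hn.cop.coprime_mul_right
  have ho : Odd A := hn.adm_left.odd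
  have hJ := GkV.jac_left hn hr hB
  have a2 := Nat.odd_iff.mp ho
  have a3 := (GInd.jac15_iff a2 hc).mp hJ
  obtain ⟨q, q1, q2, q3⟩ := Nat.forall_exists_prime_gt_and_modEq (A * B) (q := 60) (a := A)
    (by norm_num) (Nat.Coprime.mul_right (m := 2 ^ 2) (n := 15)
      (Nat.Coprime.pow_right 2 (by simpa using ho)) hc)
  have m2 : q % 2 = A % 2 := q3.of_dvd (by norm_num)
  have m3 : q % 3 = A % 3 := q3.of_dvd (by norm_num)
  have m4 : q % 4 = A % 4 := q3.of_dvd (by norm_num)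
  have m5 : q % 5 = A % 5 := q3.of_dvd (by norm_num)
  have m12 : q % 12 ≠ 1 := by
    rw [show q % 12 = A % 12 from q3.of_dvd (by norm_num)]
    clear q1 q3 m2 m3 m4 m5 hr
    omega
  have q5 : q.Coprime (A * B) := (Nat.coprime_of_lt_prime hn.sqf.ne_zero q1 q2)
  have q6 : q.Coprime 15 := by
    rw [Nat.Coprime, (q3.of_dvd (by norm_num : 15 ∣ 60)).gcd_eq]; exact hc
  have gq : Good (q * B) := ⟨(Nat.squarefree_mul q5.coprime_mul_left_right).mpr
    ⟨q2.squarefree, hn.sqf.of_mul_right⟩, by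
      rw [← hn.mod4]; exact (q3.of_dvd (by norm_num)).mul_right B,
    q6.mul_left hn.cop.coprime_mul_left⟩
  obtain ⟨k, hk⟩ : ∃ k : ℤ, (q : ℤ) = A + 60 * k := (q3.symm.dvd).imp fun k hk => by
    linear_combination hk
  have q7 : 60 ∣ r ^ 2 + (q * B : ℕ) :=
    Gal.dvd_eq (dvd_add hr (dvd_mul_right 60 (k * B))) (by push_cast; rw [hk]; ring)
  have q8 : Squarefree (q * A) :=
    (Nat.squarefree_mul q5.coprime_mul_right_right).mpr ⟨q2.squarefree, hn.sqf.of_mul_left⟩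
  obtain ⟨T', hT'⟩ := exists_freps gq.neg r
  obtain ⟨s, hs, e⟩ := gkz_A gq q2.one_lt hB (x := A) (β := 11 * A) (ρ' := r) (T' := T) (by omega)
    (by exact_mod_cast GkV.not_sq q8 (by nlinarith [q2.one_lt])) q7 ⟨-22 * k * r, by rw [hk]; ring⟩
    hT' (by simpa [mul_comm] using hT)
    fun k => (Gal.not_dvd_r hn hr).1 (Dvd.dvd.trans (by norm_num) k)
  have qJ : J(-15 | q) = 1 := (GInd.jac15_iff (m2.trans a2) q6).mpr (by rwa [m3, m5])
  obtain ⟨s1, P, hs1, hO, e1⟩ := GkV.thA_wV (A := q) q2.squarefree (Nat.odd_iff.mpr (m2.trans a2))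
    q6 q2.one_lt qJ rfl
  have c2 : 0 < cT q := by unfold cT; split_ifs <;> norm_num
  have p0 : P ≠ 0 := by
    rintro rfl
    simpa using hO q2 m12
  have p1 : s * thA q (wV q) ≠ 0 := by
    rw [e1]
    refine mul_ne_zero (by omega) (mul_ne_zero (mul_ne_zero (by omega) c2.ne') (by positivity))
  obtain ⟨k2, k3⟩ := fi_tq (by simpa using e) p1 hy
  have e4 := th_sq gq hn q5.coprime_mul_right_right q2.one_lt a1 m4 hB q7 (β := 11 * A)
    ⟨2 * A ^ 2 - k * A, by push_cast; rw [hk]; ring⟩ hT' k3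
  rw [fi_thA hn.sqf.of_mul_left (Nat.Coprime.mul_right (m := 2) (n := 15) (by simpa using ho) hc)
    a1 h0, mul_zero, abs_zero, Nat.cast_mul] at e4
  exact k2 (pow_eq_zero_iff two_ne_zero |>.mp e4)

/-- The twisted period does not vanish. -/
theorem fi_per (hn : Good (A * B)) (hr : 60 ∣ r ^ 2 + (A * B : ℕ)) (hT : FReps (-(A * B : ℕ)) r T)
    (hB : J(-15 | B) = -1) (a1 : 1 < A) (hy : ¬ Tors (hP B T)) : perA A ≠ 0 := by
  by_cases h : A % 60 = 1 ∨ A % 60 = 49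
  swap
  · exact fi_two hn hr hT hB a1 h hy
  obtain ⟨-, β, -, -, -, -, hβ, h0⟩ := fi_one hn hr hT a1 h hy
  obtain ⟨aa, bb, H, ha, hb⟩ := symbols_per
  rw [hb A ⟨hn.adm_left.sqf, by omega, hn.adm_left.cop, a1⟩]
  exact mul_ne_zero (by exact_mod_cast fun k => h0 (Re.th_one H ha hn.adm_left.sqf h a1 hβ k).1)
    (by exact_mod_cast wp_neg.ne)

/-- The statement in rank one. -/
theorem fi_rank_one {ρ : ℤ} (hn : Good B) (hr : 60 ∣ ρ ^ 2 + B) (hT : FReps (-B) ρ T)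
    (hy : ¬ Tors (hP 1 T)) (hf : Module.Finite ℤ (twist15 (-(B : ℤ))).toAffine.Point)
    (hle : Module.finrank ℤ (twist15 (-(B : ℤ))).toAffine.Point ≤ 1) :
    BSD (-12987 * (B : ℤ) ^ 2) (263466 * (B : ℤ) ^ 3) 1 := by
  obtain ⟨P, hP'⟩ := exists_point_heeg hn hT.hreps (by simpa [hP, gch] using hy)
  obtain ⟨F, h1, h2, h6, h7⟩ := bsd_of_deriv hn (perA_eq_zero hn (TYZ.jac15 hn hr))
    (by simpa only [sum_Ico_zero] using gz hn hr hT hy
          (matchB hn hr hT) (nData.one hn hr hT) (exists_aux_disc nData hn))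
    (le_antisymm hle (RankOne.one_le_finrank hP')) rfl rfl
  exact ⟨F, h1, h2, h6, twist15_eq rfl rfl ▸ hf, h7⟩

/-- The statement in rank zero. -/
theorem fi_rank_zero {d : ℤ} (hd : Squarefree d) (h4 : d % 4 = 1) (h0 : perA d.natAbs ≠ 0)
    (hf : Module.Finite ℤ (twist15 d).toAffine.Point)
    (hz : Module.finrank ℤ (twist15 d).toAffine.Point = 0) :
    BSD (-12987 * d ^ 2) (-263466 * d ^ 3) 0 := by
  obtain ⟨G, τ, g1, g2, -, g3⟩ := exists_entire_jacobi (N := d.natAbs) (Nat.odd_iff.mpr (by omega))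
    (Int.squarefree_natAbs.mpr hd)
  have g4 : G 1 ≠ 0 := fun k => h0 (by rw [perA, ← g3, k, mul_zero])
  obtain ⟨N, rfl | rfl⟩ := Int.eq_nat_or_neg d
  · obtain ⟨F, f1, f2, -, f3⟩ := Re.exists_entire_real (N := N) (by omega) rfl rfl G g1 g2 g4
    exact ⟨F, f1, f2, by rw [f3]; exact_mod_cast hz.symm, hf, f3⟩
  · rw [Int.natAbs_neg, Int.natAbs_natCast] at g2
    obtain ⟨F, f1, f2, -, f3⟩ := exists_entire_of_ne_zero (N := N) (a := -12987 * (-N) ^ 2)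
      (b := -263466 * (-N) ^ 3) (by omega) (by ring) (by ring) G g1 g2 g4
    exact ⟨F, f1, f2, by rw [f3]; exact_mod_cast hz.symm, hf, f3⟩

end Pool.Agent.Lib.MP_696deb_nt.B2
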