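import Pool.Agent.Lib.MP_696deb_nt.B2.D1b
import Pool.Agent.Lib.MP_696deb_nt.B2.B4c
import Pool.Agent.Lib.MP_696deb_nt.ThV2
import Pool.Agent.Lib.MP_696deb_nt.VDefs

/-! The genus point is, up to torsion, a rational point of a quadratic twist. -/

set_option autoImplicit false

open scoped Classical
open Finset NumberTheorySymbols

namespace Pool.Agent.Lib.MP_696deb_nt.B2

theorem fi_tw_mul (d : ℤ) (g h : Gam) (P : EE) : tw d (g * h) P = tw d g (tw d h P) := by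
  simp only [tw, map_mul, Units.val_mul, mul_smul, smul_comm g (chi d h : ℤ)]

theorem fi_tw_nsmul (d : ℤ) (g : Gam) (m : ℕ) (P : EE) : tw d g (m • P) = m • tw d g P := by
  simp only [tw, smul_comm g m, smul_comm (chi d g : ℤ) m]

theorem fi_tors {z : ℂ} : IsOfFinAddOrder (Unif.u15 z) ↔ Tors z := by
  simp only [isOfFinAddOrder_iff_nsmul_eq_zero, tors_iff, ← map_nsmul, Unif.u15_eq_zero_iff,
    nsmul_eq_mul]

theorem fi_jC {P : EE} : IsOfFinAddOrder (pmap jC P) ↔ IsOfFinAddOrder P :=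
  (pmap_injective jC).isOfFinAddOrder_iff

variable {n : ℕ} {r e : ℤ} {T : Finset Fm} {S : HS n}

theorem fi_adm (n : ℕ) : Adm n 1 := ⟨squarefree_one, fun _ hl h => absurd h hl.not_dvd_one⟩

theorem fi_link (hL : S.Link r) (hT : FReps (-n) r T) (he : e ∣ n) (h4 : e % 4 = 1)
    (hy : ¬ IsOfFinAddOrder (S.ychi e)) : ¬ Tors (hP e.natAbs T) := fun k => by
  obtain ⟨s, -, h⟩ := hL T e hT he h4
  exact hy (fi_jC.mp (h ▸ (fi_tors.mpr k).zsmul))

theorem fi_gk (he : e ∣ n) (h4 : e % 4 = 1) {g : Gam} (hg : g ∈ GK n) :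
    tw e g (S.ychi e) = S.ychi e := by
  rw [tw, HS.ychi, smul_sum, smul_sum, ← Equiv.sum_comp (Equiv.mulLeft (S.ψ 1 g))
    fun a => (S.gen e a : ℤ) • S.y 1 a]
  refine sum_congr rfl fun a _ => ?_
  rw [smul_comm g, S.gal 1 (fi_adm n) g hg, smul_smul, Equiv.coe_mulLeft, map_mul,
    S.gen_ψ e he h4 g hg, Units.val_mul]

theorem fi_nz {d d' : ℤ} (hn : Good n) (hd : d * d' = -n) (h4 : d % 4 = 1) (h4' : d' % 4 = 1)
    (hL : S.Link r) (hT : FReps (-n) r T) (hB : J(-15 | d'.natAbs) = -1)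
    (hs : hP d.natAbs T = hP d'.natAbs T) (hy : ¬ IsOfFinAddOrder (S.ychi d)) :
    ∃ P : EE, ¬ IsOfFinAddOrder P ∧ ∀ g, tw d' g P = P := by
  have he : d ∣ n := ⟨-d', by rw [mul_neg, hd, neg_neg]⟩
  have he' : d'.natAbs ∣ n := Int.natAbs_dvd_natAbs.mpr ⟨-d, by rw [mul_neg, mul_comm, hd, neg_neg]⟩
  have h1 : ∀ g ∈ GK n, tw d' g (S.ychi d) = S.ychi d := fun g hg => by
    have k := B4c_mem.mp hg
    rw [← hd, chi_mul (by omega) (by omega)] at k
    rw [tw, ← inv_eq_of_mul_eq_one_right k, Int.units_inv_eq_self]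
    exact fi_gk he h4 hg
  have ho : Odd d'.natAbs := Nat.odd_iff.mpr (by omega)
  have h2 : IsOfFinAddOrder (tw d' cc (S.ychi d) - S.ychi d) := by
    obtain ⟨s, -, h⟩ := hL T d hT he h4
    rw [← fi_jC, map_sub, tw, map_zsmul, jC_cc_pt, h, map_zsmul, ← Unif.u15_conj, smul_comm,
      ← smul_sub, ← map_zsmul, ← map_sub, hs]
    refine (fi_tors.mpr ?_).zsmul
    rw [← tq_eq, map_zsmul, hT.tq_conj (by have := hn.mod4; omega) ⟨hn.sqf.squarefree_of_dvd he', ho,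
      hn.cop.coprime_dvd_left he'⟩ (dvd_neg.mpr (Int.natCast_dvd_natCast.mpr he')), smul_smul]
    rw [jacobiSym.neg _ ho] at hB
    suffices (chi d' cc : ℤ) * -J(15 | d'.natAbs) = 1 by rw [this, one_smul]
    rw [chi_cc (by omega)]
    split_ifs with k
    · rw [ZMod.χ₄_nat_one_mod_four (by omega)] at hB
      simp only [Units.val_one]
      omega
    · rw [ZMod.χ₄_nat_three_mod_four (by omega)] at hB
      simp only [Units.val_neg, Units.val_one]
      omega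
  obtain ⟨m, m0, hm⟩ := isOfFinAddOrder_iff_nsmul_eq_zero.mp h2
  rw [smul_sub, sub_eq_zero, ← fi_tw_nsmul] at hm
  refine ⟨m • S.ychi d, fun k => hy (k.of_nsmul m0.ne'), fun g => ?_⟩
  by_cases hg : g ∈ GK n
  · rw [fi_tw_nsmul, h1 g hg]
  · rw [← mul_one g, ← cc_mul_cc, ← mul_assoc, fi_tw_mul, hm, fi_tw_nsmul,
      h1 _ (mul_mem_GK hg (cc_notMem (by have := hn.mod4; omega)))]

end Pool.Agent.Lib.MP_696deb_nt.B2
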