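import Pool.Agent.Lib.MP_696deb_nt.B2.D2a
import Pool.Agent.Lib.MP_696deb_nt.B2.Base
import Pool.Agent.Lib.MP_696deb_nt.B2.CLe

/-! Duality for finite Galois modules: definitions. -/

set_option autoImplicit false

open scoped NNReal Classical
open Finset

namespace Pool.Agent.Lib.MP_696deb_nt.B2

/-- The group with two elements, in the form that is used by the local invariants. -/
abbrev Z2 : Type := ZMod (2 ^ 1)

theorem Z2.cases (t : Z2) : t = 0 ∨ t = 1 := by
  revert t
  decide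

theorem Z2.add_self (t : Z2) : t + t = 0 := by
  revert t
  decide

/-- The trivial action on the group with two elements. -/
def tr (_ : Gam) : Z2 →+ Z2 := AddMonoidHom.id Z2

@[simp] theorem tr_apply (g : Gam) (t : Z2) : tr g t = t := rfl

/-- Multiplication as a pairing. -/
def mu2 : Z2 →+ Z2 →+ ZMod (2 ^ 1) := AddMonoidHom.mul

@[simp] theorem mu2_apply (s t : Z2) : mu2 s t = s * t := rfl

/-- The embedding of the group with two elements into a cyclic group. -/
def up (n : ℕ) (t : Z2) : ZMod (2 ^ (1 + n)) := 2 ^ n * (t.val : ZMod (2 ^ (1 + n)))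

section

variable {A B : Type} [AddCommGroup A] [AddCommGroup B] {n : ℕ}

/-- The annihilator of a subgroup. -/
def ann (P : A →+ B →+ ZMod n) (W : AddSubgroup A) : AddSubgroup B where
  carrier := {y | ∀ x ∈ W, P x y = 0}
  zero_mem' := fun x _ => map_zero _
  add_mem' := fun h h' x hx => by rw [map_add, h x hx, h' x hx, add_zero]
  neg_mem' := fun h x hx => by rw [map_neg, h x hx, neg_zero]

theorem mem_ann {P : A →+ B →+ ZMod n} {W : AddSubgroup A} {y : B} :
    y ∈ ann P W ↔ ∀ x ∈ W, P x y = 0 := Iff.rfl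

end

section

variable {M M' N N' : Type} [AddCommGroup M] [AddCommGroup M'] [AddCommGroup N] [AddCommGroup N']

/-- The invariants. -/
def H0 (D : Subgroup Gam) (a : Gam → M →+ M) : AddSubgroup M where
  carrier := {x | ∀ g ∈ D, a g x = x}
  zero_mem' := fun _ _ => map_zero _
  add_mem' := fun h h' g hg => by rw [map_add, h g hg, h' g hg]
  neg_mem' := fun h g hg => by rw [map_neg, h g hg]

theorem mem_H0 {D : Subgroup Gam} {a : Gam → M →+ M} {x : M} :
    x ∈ H0 D a ↔ ∀ g ∈ D, a g x = x := Iff.rfl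

/-- The coboundary map. -/
noncomputable def cobH (D : Subgroup Gam) (a : Gam → M →+ M) : M →+ (Gam → M) :=
  (rs D).comp
    { toFun := cob a
      map_zero' := funext fun g => by simp [cob]
      map_add' := fun x y => funext fun g => by
        simp only [cob, map_add, Pi.add_apply]
        abel }

theorem cobH_apply (D : Subgroup Gam) (a : Gam → M →+ M) (x : M) :
    cobH D a x = rs D (cob a x) := rfl

/-- The group of coboundaries. -/
noncomputable def B1 (D : Subgroup Gam) (a : Gam → M →+ M) : AddSubgroup (Gam → M) :=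
  (cobH D a).range

theorem mem_B1 {D : Subgroup Gam} {a : Gam → M →+ M} {c : Gam → M} :
    c ∈ B1 D a ↔ ∃ x, rs D (cob a x) = c := Iff.rfl

/-- The cocycles that are unramified away from `s`. -/
def Zu (H : Subgroup Gam) (a : Gam → M →+ M) (s : Finset Plc) : AddSubgroup (Gam → M) where
  carrier := {c | c ∈ Z1 H a ∧ ∀ w, Away H s w → ∀ σ ∈ H ⊓ Ine w, c σ = 0}
  zero_mem' := ⟨zero_mem _, fun _ _ _ _ => rfl⟩
  add_mem' := fun h h' => ⟨add_mem h.1 h'.1, fun w hw σ hσ => by
    simp [h.2 w hw σ hσ, h'.2 w hw σ hσ]⟩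
  neg_mem' := fun h => ⟨neg_mem h.1, fun w hw σ hσ => by simp [h.2 w hw σ hσ]⟩

theorem mem_Zu {H : Subgroup Gam} {a : Gam → M →+ M} {s : Finset Plc} {c : Gam → M} :
    c ∈ Zu H a s ↔ c ∈ Z1 H a ∧ ∀ w, Away H s w → ∀ σ ∈ H ⊓ Ine w, c σ = 0 := Iff.rfl

/-- The cocycles that are unramified away from `s` and satisfy a condition at each place of `s`. -/
noncomputable def Zc (H : Subgroup Gam) (a : Gam → M →+ M) (s : Finset Plc)
    (U : Plc → AddSubgroup (Gam → M)) : AddSubgroup (Gam → M) :=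
  Zu H a s ⊓ ⨅ w ∈ s, (U w).comap (rs (H ⊓ Dec w))

theorem mem_Zc {H : Subgroup Gam} {a : Gam → M →+ M} {s : Finset Plc}
    {U : Plc → AddSubgroup (Gam → M)} {c : Gam → M} :
    c ∈ Zc H a s U ↔ c ∈ Zu H a s ∧ ∀ w ∈ s, rs (H ⊓ Dec w) c ∈ U w := by
  simp [Zc, AddSubgroup.mem_iInf]

/-- The cocycles that are rigidly trivial at all places of `s`. -/
def Rs (H : Subgroup Gam) (a : Gam → M →+ M) (s : Finset Plc) :
    AddSubgroup ((Gam → M) × (Plc → M)) := Sel H a s s ∅ fun _ => ⊤

/-- Away from `s` all places are odd and inertia acts trivially. -/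
def GoodA (H : Subgroup Gam) (a : Gam → M →+ M) (s : Finset Plc) : Prop :=
  ∀ w, Away H s w → w.p ≠ 2 ∧ ∀ σ ∈ H ⊓ Ine w, ∀ x, a σ x = x

/-- The finiteness of the set of quadratic characters with bounded ramification. -/
def FinH (H : Subgroup Gam) : Prop := ∀ s : Finset Plc, Finite (Zu H tr s)

/-- Generators of the pro-two quotient of inertia. -/
def TG (H : Subgroup Gam) (w : Plc) (τ : Gam) : Prop :=
  τ ∈ H ⊓ Ine w ∧ ∀ (F : Type) [Group F] (π : Gam → F), Sm (H ⊓ Ine w) π → IsMul (H ⊓ Ine w) π →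
    (∀ g ∈ H ⊓ Ine w, ∃ n : ℕ, π g ^ 2 ^ n = 1) → ∀ σ ∈ H ⊓ Ine w, ∃ k : ℕ, π σ = π τ ^ k

theorem exists_TG {H : Subgroup Gam} {w : Plc} (hH : Op H) (hw : w.p ≠ 2) : ∃ τ, TG H w τ :=
  tame_cyc hH hw

/-- A submodule of order two, the quotient, and the dual sequence. -/
structure Step (n : ℕ) (H : Subgroup Gam) (a : Gam → M →+ M) (a' : Gam → M' →+ M')
    (b : M →+ M' →+ ZMod (2 ^ (1 + n))) (a2 : Gam → N →+ N) (a2' : Gam → N' →+ N')
    (b2 : N →+ N' →+ ZMod (2 ^ (1 + n))) (ι : Z2 →+ M) (π : M →+ N) (j : N' →+ M')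
    (ε : M' →+ Z2) : Prop where
  dual : Dual (1 + n) H a a' b
  dual2 : Dual (1 + n) H a2 a2' b2
  ι_inj : Function.Injective ι
  π_surj : Function.Surjective π
  ex : ∀ x, π x = 0 ↔ ∃ t, ι t = x
  j_inj : Function.Injective j
  ε_surj : Function.Surjective ε
  ex' : ∀ y, ε y = 0 ↔ ∃ z, j z = y
  aι : ∀ g ∈ H, ∀ t, a g (ι t) = ι t
  πa : ∀ g ∈ H, ∀ x, π (a g x) = a2 g (π x)
  ja : ∀ g ∈ H, ∀ z, j (a2' g z) = a' g (j z)
  εa : ∀ g ∈ H, ∀ y, ε (a' g y) = ε y
  bj : ∀ x z, b x (j z) = b2 (π x) z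
  bι : ∀ t y, b (ι t) y = up n (t * ε y)

/-- The obstruction to lifting a cocycle. -/
noncomputable def ob (a : Gam → M →+ M) (ι : Z2 →+ M) (π : M →+ N) (c : Gam → N) (g h : Gam) :
    Z2 :=
  Function.invFun ι (Function.invFun π (c g) + a g (Function.invFun π (c h)) -
    Function.invFun π (c (g * h)))

/-- The image of the rigidly trivial cocycles in the group of order two. -/
noncomputable def imR (H : Subgroup Gam) (a' : Gam → M' →+ M') (s : Finset Plc) (ε : M' →+ Z2) :
    AddSubgroup ((Gam → Z2) × (Plc → Z2)) :=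
  (Rs H a' s).map (AddMonoidHom.prodMap (ε.compLeft Gam) (ε.compLeft Plc))

/-- The part of the image with trivial character. -/
noncomputable def R0 (H : Subgroup Gam) (a' : Gam → M' →+ M') (s : Finset Plc) (ε : M' →+ Z2) :
    AddSubgroup ((Gam → Z2) × (Plc → Z2)) := imR H a' s ε ⊓ (AddMonoidHom.fst _ _).ker

/-- The characters in the image. -/
noncomputable def SR (H : Subgroup Gam) (a' : Gam → M' →+ M') (s : Finset Plc) (ε : M' →+ Z2) :
    AddSubgroup (Gam → Z2) := (imR H a' s ε).map (AddMonoidHom.fst _ _)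

/-- The cocycles that have a lift, possibly with more ramification. -/
noncomputable def KLift (H : Subgroup Gam) (a : Gam → M →+ M) (a2 : Gam → N →+ N) (s : Finset Plc)
    (π : M →+ N) : AddSubgroup (Gam → N) := Zu H a2 s ⊓ (Z1 H a).map (π.compLeft Gam)

end

end Pool.Agent.Lib.MP_696deb_nt.B2
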