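import Pool.Agent.Lib.MP_696deb_nt.B2.GWc

/-! Composition series of finite modules. -/

set_option autoImplicit false

open scoped NNReal Classical
open Finset

namespace Pool.Agent.Lib.MP_696deb_nt.B2

variable {M M' N N' : Type} [AddCommGroup M] [AddCommGroup M'] [AddCommGroup N] [AddCommGroup N']
  {n : ℕ} {H D : Subgroup Gam} {w : Plc} {a : Gam → M →+ M} {a' : Gam → M' →+ M'}
  {b : M →+ M' →+ ZMod (2 ^ (1 + n))} {a2 : Gam → N →+ N} {a2' : Gam → N' →+ N'}
  {b2 : N →+ N' →+ ZMod (2 ^ (1 + n))} {ι : Z2 →+ M} {π : M →+ N} {j : N' →+ M'} {ε : M' →+ Z2}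

/-- A nonzero module has a fixed element of order two. -/
theorem exists_fixed [Finite M] [Nontrivial M] (ha : Act H a) {m : ℕ} (hm : ∀ x : M, 2 ^ m • x = 0) :
    ∃ x : M, x ≠ 0 ∧ x + x = 0 ∧ ∀ g ∈ H, a g x = x := by
  have key : ∀ (m : ℕ) (x : M), x ≠ 0 → 2 ^ m • x = 0 → ∃ k : ℕ, k • x ≠ 0 ∧ k • x + k • x = 0 := by
    intro m
    induction m with
    | zero => intro x hx h; exact absurd (by simpa using h) hx
    | succ m ih =>
      intro x hx h
      by_cases h2 : x + x = 0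
      · exact ⟨1, by simpa using hx, by simpa using h2⟩
      · obtain ⟨k, k1, k2⟩ := ih (2 • x) (by rwa [two_nsmul]) (by rwa [← mul_nsmul', ← pow_succ])
        exact ⟨k * 2, by rwa [mul_nsmul'], by rwa [mul_nsmul']⟩
  let _ : MulAction H M :=
    { smul := fun g x => a g x
      one_smul := fun x => ha.one x
      mul_smul := fun g h x => ha.mul g g.2 h h.2 x }
  have e : ∀ (g : H) (x : M), MulAction.toPermHom H M g x = a g x := fun _ _ => rfl
  have hG : IsPGroup 2 (MulAction.toPermHom H M).range := by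
    rintro ⟨_, g, rfl⟩
    obtain ⟨k, hk⟩ := ha.two g g.2
    refine ⟨k, Subtype.ext (Equiv.ext fun x => ?_)⟩
    rw [Subgroup.coe_pow, ← map_pow, e]
    exact hk x
  obtain ⟨x, hx⟩ := exists_ne (0 : M)
  obtain ⟨k, k1, k2⟩ := key m x hx (hm x)
  have h2 : 2 ∣ Nat.card M := by
    rw [← addOrderOf_eq_prime (p := 2) (by rwa [two_nsmul]) k1]
    exact addOrderOf_dvd_natCard _
  have h0 : (0 : M) ∈ MulAction.fixedPoints (MulAction.toPermHom H M).range M := by
    rintro ⟨_, g, rfl⟩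
    exact (e g 0).trans (map_zero _)
  obtain ⟨y, hy, y0⟩ := hG.exists_fixed_point_of_prime_dvd_card_of_fixed_point M h2 h0
  obtain ⟨l, l1, l2⟩ := key m y y0.symm (hm y)
  refine ⟨l • y, l1, l2, fun g hg => ?_⟩
  rw [map_nsmul]
  exact congrArg _ (hy ⟨_, ⟨g, hg⟩, rfl⟩)

theorem Act.of_surj (ha : Act H a) (hπ : Function.Surjective π)
    (k : ∀ g ∈ H, ∀ x, π (a g x) = a2 g (π x)) : Act H a2 := by
  obtain ⟨U, u1, u2, u3⟩ := ha.sm
  refine ⟨⟨U, u1, u2, fun g hg h hh e => AddMonoidHom.ext fun x => ?_⟩, fun x => ?_,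
    fun g hg h hh x => ?_, fun g hg => ?_⟩
  · obtain ⟨x, rfl⟩ := hπ x
    rw [← k g hg, ← k h hh, u3 g hg h hh e]
  · obtain ⟨x, rfl⟩ := hπ x
    rw [← k 1 (one_mem _), ha.one]
  · obtain ⟨x, rfl⟩ := hπ x
    rw [← k _ (mul_mem hg hh), ← k h hh, ← k g hg, ha.mul g hg h hh]
  · obtain ⟨l, hl⟩ := ha.two g hg
    refine ⟨l, fun x => ?_⟩
    obtain ⟨x, rfl⟩ := hπ x
    rw [← k _ (pow_mem hg _), hl]

theorem Act.of_inj (ha : Act H a') (hj : Function.Injective j)
    (k : ∀ g ∈ H, ∀ z, j (a2' g z) = a' g (j z)) : Act H a2' := by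
  obtain ⟨U, u1, u2, u3⟩ := ha.sm
  refine ⟨⟨U, u1, u2, fun g hg h hh e => AddMonoidHom.ext fun x => hj ?_⟩, fun x => hj ?_,
    fun g hg h hh x => hj ?_, fun g hg => ?_⟩
  · rw [k g hg, k h hh, u3 g hg h hh e]
  · rw [k 1 (one_mem _), ha.one]
  · rw [k _ (mul_mem hg hh), k g hg, k h hh, ha.mul g hg h hh]
  · obtain ⟨l, hl⟩ := ha.two g hg
    exact ⟨l, fun x => hj (by rw [k _ (pow_mem hg _), hl])⟩

theorem up_inj {s t : Z2} (h : up n s = up n t) : s = t := by
  have h1 : s + t = 0 := up_eq_zero.1 (by rw [up_add, h, ← up_add, Z2.add_self, up_zero])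
  rw [← add_zero s, ← Z2.add_self t, ← add_assoc, h1, zero_add]

theorem exists_step [Finite M] [Finite M'] [Nontrivial M] (hd : Dual (1 + n) H a a' b) :
    ∃ (N N' : Type) (_ : AddCommGroup N) (_ : AddCommGroup N') (_ : Finite N) (_ : Finite N')
      (a2 : Gam → N →+ N) (a2' : Gam → N' →+ N') (b2 : N →+ N' →+ ZMod (2 ^ (1 + n)))
      (ι : Z2 →+ M) (π : M →+ N) (j : N' →+ M') (ε : M' →+ Z2),
      Step n H a a' b a2 a2' b2 ι π j ε := by
  obtain ⟨x0, h0, h2, hf⟩ := exists_fixed hd.act hd.pow_smul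
  have h10 : (1 : Z2) ≠ 0 := by decide
  have h11 : (1 : Z2) + 1 = 0 := Z2.add_self 1
  let W := AddSubgroup.zmultiples x0
  let π : M →+ M ⧸ W := QuotientAddGroup.mk' W
  have hπ : Function.Surjective π := QuotientAddGroup.mk'_surjective W
  let j : (b x0).ker →+ M' := (b x0).ker.subtype
  have hj : Function.Injective j := Subtype.val_injective
  obtain ⟨ι, i1⟩ : ∃ ι : Z2 →+ M, ι 1 = x0 := by
    refine ⟨AddMonoidHom.mk' (fun t => if t = 0 then 0 else x0) fun s t => ?_, by simp [h10]⟩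
    rcases Z2.cases s with rfl | rfl <;> rcases Z2.cases t with rfl | rfl <;> simp [h10, h11, h2]
  obtain ⟨ε, e1⟩ : ∃ ε : M' →+ Z2, ∀ y, up n (ε y) = b x0 y := by
    choose f hf using fun y => exists_up (n := n) (x := b x0 y)
      (by rw [← AddMonoidHom.add_apply, ← map_add, h2, map_zero, AddMonoidHom.zero_apply])
    exact ⟨AddMonoidHom.mk' f fun s t => up_inj (n := n) (by rw [up_add, hf, hf, hf, map_add]), hf⟩
  have hb : ∀ g ∈ H, ∀ y, b x0 (a' g y) = b x0 y := fun g hg y => by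
    have := hd.eqv g hg x0 y
    rwa [hf g hg, ← e1 y, cy_mul_up, e1] at this
  have A2 : ∀ g, ∃ f : M ⧸ W →+ M ⧸ W, g ∈ H → ∀ x, π (a g x) = f (π x) := fun g => by
    by_cases hg : g ∈ H
    · refine ⟨QuotientAddGroup.map W W (a g) ?_, fun _ _ => rfl⟩
      rw [AddSubgroup.zmultiples_le, AddSubgroup.mem_comap, hf g hg]
      exact AddSubgroup.mem_zmultiples x0
    · exact ⟨0, fun h => absurd h hg⟩
  have A2' : ∀ g, ∃ f : (b x0).ker →+ (b x0).ker, g ∈ H → ∀ z, j (f z) = a' g (j z) := fun g => by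
    by_cases hg : g ∈ H
    · exact ⟨((a' g).comp j).codRestrict _ fun z => (hb g hg _).trans z.2, fun _ _ => rfl⟩
    · exact ⟨0, fun h => absurd h hg⟩
  choose a2 πa using A2
  choose a2' ja using A2'
  obtain ⟨b2, bj⟩ : ∃ b2 : M ⧸ W →+ (b x0).ker →+ ZMod (2 ^ (1 + n)),
      ∀ x z, b x (j z) = b2 (π x) z := by
    refine ⟨QuotientAddGroup.lift W (b.compl₂ j) ?_, fun _ _ => rfl⟩
    rw [AddSubgroup.zmultiples_le]
    exact AddMonoidHom.ext fun z => z.2
  have ex : ∀ x, π x = 0 ↔ ∃ t, ι t = x := fun x => by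
    rw [show π x = 0 ↔ x ∈ W from QuotientAddGroup.eq_zero_iff x]
    constructor
    · rintro ⟨k, rfl⟩
      exact ⟨k • 1, by rw [map_zsmul, i1]⟩
    · rintro ⟨t, rfl⟩
      rcases Z2.cases t with rfl | rfl
      · rw [map_zero]
        exact zero_mem _
      · rw [i1]
        exact AddSubgroup.mem_zmultiples x0
  have ex' : ∀ y, ε y = 0 ↔ ∃ z, j z = y := fun y => by
    rw [← up_eq_zero (n := n), e1]
    exact ⟨fun h => ⟨⟨y, h⟩, rfl⟩, fun ⟨z, hz⟩ => hz ▸ z.2⟩
  have bι : ∀ t y, b (ι t) y = up n (t * ε y) := fun t y => by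
    rcases Z2.cases t with rfl | rfl
    · rw [map_zero, map_zero, zero_mul, up_zero, AddMonoidHom.zero_apply]
    · rw [i1, one_mul, e1]
  obtain ⟨y0, y1⟩ : ∃ y, ε y = 1 := by
    by_contra hn
    refine h0 (hd.left x0 fun y => ?_)
    rw [← e1, (Z2.cases (ε y)).resolve_right fun h => hn ⟨y, h⟩, up_zero]
  refine ⟨M ⧸ W, (b x0).ker, inferInstance, inferInstance, inferInstance, inferInstance, a2, a2', b2,
    ι, π, j, ε, hd, ⟨hd.act.of_surj hπ πa, hd.act'.of_inj hj ja, fun g hg x z => ?_, fun x hx => ?_,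
      fun z hz => hj ?_⟩, (injective_iff_map_eq_zero ι).2 fun t ht => ?_, hπ, ex, hj, fun t => ?_,
    ex', fun g hg t => ?_, πa, ja, fun g hg y => up_inj (n := n) ?_, bj, bι⟩
  · obtain ⟨x, rfl⟩ := hπ x
    rw [← πa g hg, ← bj, ← bj, ja g hg, hd.eqv g hg]
  · obtain ⟨x, rfl⟩ := hπ x
    have hz : ∀ y, ε y = 0 → b x y = 0 := fun y hy => by
      obtain ⟨z, rfl⟩ := (ex' y).1 hy
      rw [bj, hx]
    obtain ⟨t, ht⟩ := exists_up (n := n) (x := b x y0)
      (by rw [← map_add]; exact hz _ (by rw [map_add, y1, h11]))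
    refine (ex x).2 ⟨t, sub_eq_zero.1 (hd.left _ fun y => ?_)⟩
    rw [map_sub, AddMonoidHom.sub_apply, bι]
    rcases Z2.cases (ε y) with h | h
    · rw [h, hz y h, mul_zero, up_zero, sub_zero]
    · have := hz (y - y0) (by rw [map_sub, h, y1, sub_self])
      rw [map_sub, sub_eq_zero] at this
      rw [h, mul_one, ht, this, sub_self]
  · rw [map_zero]
    exact hd.right _ fun x => by rw [bj, hz]
  · exact (Z2.cases t).resolve_right fun h => h0 (by rw [← i1, ← h, ht])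
  · rcases Z2.cases t with rfl | rfl
    · exact ⟨0, map_zero _⟩
    · exact ⟨y0, y1⟩
  · rcases Z2.cases t with rfl | rfl
    · rw [map_zero, map_zero]
    · rw [i1, hf g hg]
  · rw [e1, e1, hb g hg]

theorem Dual.subsingleton_zero {b : M →+ M' →+ ZMod (2 ^ 0)} (hd : Dual 0 H a a' b) :
    Subsingleton M := by
  have : Subsingleton (ZMod (2 ^ 0)) := inferInstanceAs (Subsingleton (ZMod 1))
  exact subsingleton_of_forall_eq 0 fun x => hd.left x fun y => Subsingleton.elim _ _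

theorem Step.mono (S : Step n H a a' b a2 a2' b2 ι π j ε) (k : D ≤ H) :
    Step n D a a' b a2 a2' b2 ι π j ε :=
  ⟨S.dual.mono k, S.dual2.mono k, S.ι_inj, S.π_surj, S.ex, S.j_inj, S.ε_surj, S.ex',
    fun g hg => S.aι g (k hg), fun g hg => S.πa g (k hg), fun g hg => S.ja g (k hg),
    fun g hg => S.εa g (k hg), S.bj, S.bι⟩

theorem Step.card (S : Step n H a a' b a2 a2' b2 ι π j ε) : Nat.card M = 2 * Nat.card N := by
  have h1 : π.ker = ι.range := AddSubgroup.ext S.ex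
  rw [card_ker_range π, h1, AddMonoidHom.range_eq_top.2 S.π_surj, AddSubgroup.card_top,
    ← Nat.card_congr (AddMonoidHom.ofInjective S.ι_inj).toEquiv, Nat.card_zmod, pow_one]

theorem Step.card' (S : Step n H a a' b a2 a2' b2 ι π j ε) : Nat.card M' = 2 * Nat.card N' := by
  have h1 : ε.ker = j.range := AddSubgroup.ext S.ex'
  rw [card_ker_range ε, h1, AddMonoidHom.range_eq_top.2 S.ε_surj, AddSubgroup.card_top,
    ← Nat.card_congr (AddMonoidHom.ofInjective S.j_inj).toEquiv, Nat.card_zmod, pow_one, mul_comm]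

theorem Step.good (S : Step n H a a' b a2 a2' b2 ι π j ε) {s : Finset Plc} (k : GoodA H a s) :
    GoodA H a2 s := fun w hw => ⟨(k w hw).1, fun σ hσ x => by
  obtain ⟨x, rfl⟩ := S.π_surj x
  rw [← S.πa σ hσ.1, (k w hw).2 σ hσ]⟩

theorem Step.ι_invFun (S : Step n H a a' b a2 a2' b2 ι π j ε) {x : M} (h : π x = 0) :
    ι (Function.invFun ι x) = x := Function.invFun_eq ((S.ex x).1 h)

theorem Step.invFun_add (S : Step n H a a' b a2 a2' b2 ι π j ε) {x y : M} (h : π x = 0)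
    (h' : π y = 0) : Function.invFun ι (x + y) = Function.invFun ι x + Function.invFun ι y :=
  S.ι_inj (by
    rw [map_add, S.ι_invFun h, S.ι_invFun h', S.ι_invFun (by rw [map_add, h, h', add_zero])])

theorem Step.invFun_ι (S : Step n H a a' b a2 a2' b2 ι π j ε) (t : Z2) :
    Function.invFun ι (ι t) = t := Function.leftInverse_invFun S.ι_inj t

/-- Induction along a composition series. -/
theorem dual_ind {H : Subgroup Gam} {n : ℕ}
    {P : ∀ (M M' : Type) [AddCommGroup M] [AddCommGroup M'], (Gam → M →+ M) → (Gam → M' →+ M') →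
      (M →+ M' →+ ZMod (2 ^ (1 + n))) → Prop}
    (h0 : ∀ (M M' : Type) [AddCommGroup M] [AddCommGroup M'] [Subsingleton M] [Subsingleton M']
      (a : Gam → M →+ M) (a' : Gam → M' →+ M') (b : M →+ M' →+ ZMod (2 ^ (1 + n))), P M M' a a' b)
    (h1 : ∀ (M M' N N' : Type) [AddCommGroup M] [AddCommGroup M'] [AddCommGroup N]
      [AddCommGroup N'] [Finite M] [Finite M'] [Finite N] [Finite N'] (a : Gam → M →+ M)
      (a' : Gam → M' →+ M') (b : M →+ M' →+ ZMod (2 ^ (1 + n))) (a2 : Gam → N →+ N)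
      (a2' : Gam → N' →+ N') (b2 : N →+ N' →+ ZMod (2 ^ (1 + n))) (ι : Z2 →+ M) (π : M →+ N)
      (j : N' →+ M') (ε : M' →+ Z2), Step n H a a' b a2 a2' b2 ι π j ε → P N N' a2 a2' b2 →
      P M M' a a' b)
    (M M' : Type) [AddCommGroup M] [AddCommGroup M'] [Finite M] [Finite M'] (a : Gam → M →+ M)
    (a' : Gam → M' →+ M') (b : M →+ M' →+ ZMod (2 ^ (1 + n))) (hd : Dual (1 + n) H a a' b) :
    P M M' a a' b := by
  induction hk : Nat.card M using Nat.strong_induction_on generalizing M M' with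
  | _ k ih =>
    rcases subsingleton_or_nontrivial M with h | h
    · have : Subsingleton M' := subsingleton_of_forall_eq 0 fun y => hd.right y fun x => by
        rw [Subsingleton.elim x 0, map_zero, AddMonoidHom.zero_apply]
      exact h0 M M' a a' b
    · obtain ⟨N, N', _, _, _, _, a2, a2', b2, ι, π, j, ε, S⟩ := exists_step hd
      refine h1 M M' N N' a a' b a2 a2' b2 ι π j ε S (ih (Nat.card N) ?_ N N' a2 a2' b2 S.dual2 rfl)
      have := S.card
      have := Nat.card_pos (α := N)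
      omega

end Pool.Agent.Lib.MP_696deb_nt.B2
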