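import Pool.Agent.Lib.MP_696deb_nt.B2.GWe
import Pool.Agent.Lib.MP_696deb_nt.B2.GWf
import Pool.Agent.Lib.MP_696deb_nt.B2.GWg

/-! Local duality. -/

set_option autoImplicit false

open scoped NNReal Classical
open Finset

namespace Pool.Agent.Lib.MP_696deb_nt.B2

variable {M M' : Type} [AddCommGroup M] [AddCommGroup M'] {m : ℕ} {H D : Subgroup Gam} {w : Plc}
  {a : Gam → M →+ M} {a' : Gam → M' →+ M'} {b : M →+ M' →+ ZMod (2 ^ m)} {c c₁ : Gam → M}
  {c' c₁' : Gam → M'}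

/-- The two statements that are proved by induction. -/
def LDcore (F : CFT) (H : Subgroup Gam) (w : Plc) (a : Gam → M →+ M) (a' : Gam → M' →+ M')
    (b : M →+ M' →+ ZMod (2 ^ m)) : Prop :=
  Finite (Z1 (H ⊓ Dec w) a) ∧
    Nat.card (Z1 (H ⊓ Dec w) a) = Nat.card M ^ (1 + ldeg H w) * Nat.card (H0 (H ⊓ Dec w) a') ∧
    ∀ c, Coc (H ⊓ Dec w) a c →
      (∀ c', Coc (H ⊓ Dec w) a' c' → F.inv m H w (cupb b a' c c') = 0) →
      ∃ x, ∀ g ∈ H ⊓ Dec w, c g = cob a x g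

section

variable {N N' : Type} [AddCommGroup N] [AddCommGroup N'] {n : ℕ}
  {b : M →+ M' →+ ZMod (2 ^ (1 + n))} {a2 : Gam → N →+ N} {a2' : Gam → N' →+ N'}
  {b2 : N →+ N' →+ ZMod (2 ^ (1 + n))} {ι : Z2 →+ M} {π : M →+ N} {j : N' →+ M'} {ε : M' →+ Z2}

theorem GWh_card_Z2 : Nat.card Z2 = 2 := by simp [Z2]

theorem GWh_card_sub (U : AddSubgroup Z2) : (U = ⊥ ∧ Nat.card U = 1) ∨ ((1 : Z2) ∈ U ∧ Nat.card U = 2) := by
  by_cases h : (1 : Z2) ∈ U
  · refine Or.inr ⟨h, ?_⟩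
    have : U = ⊤ := by
      rw [eq_top_iff]
      intro t _
      rcases Z2.cases t with rfl | rfl
      exacts [zero_mem _, h]
    rw [this, AddSubgroup.card_top, GWh_card_Z2]
  · have : U = ⊥ := by
      rw [eq_bot_iff]
      intro t ht
      rcases Z2.cases t with rfl | rfl
      exacts [zero_mem _, absurd ht h]
    exact Or.inl ⟨this, by rw [this, AddSubgroup.card_bot]⟩

theorem GWh_H0 (S : Step n D a a' b a2 a2' b2 ι π j ε) :
    Nat.card (H0 D a') = Nat.card (H0 D a2') * Nat.card ((H0 D a').map ε) := by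
  rw [card_map_inf ε (H0 D a')]
  congr 1
  have e : (H0 D a' ⊓ ε.ker : AddSubgroup M') = (H0 D a2').map j := by
    ext y
    constructor
    · rintro ⟨h1, h2⟩
      obtain ⟨z, rfl⟩ := (S.ex' y).1 h2
      exact ⟨z, fun g hg => S.j_inj (by rw [S.ja g hg]; exact h1 g hg), rfl⟩
    · rintro ⟨z, hz, rfl⟩
      exact ⟨fun g hg => by rw [← S.ja g hg, hz g hg], (S.ex' _).2 ⟨z, rfl⟩⟩
  rw [e]
  exact Nat.card_congr ((H0 D a2').equivMapOfInjective j S.j_inj).symm.toEquiv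

/-- The number of cocycles. -/
theorem GWh_card (S : Step n (H ⊓ Dec w) a a' b a2 a2' b2 ι π j ε) (F : CFT) (hH : Op H)
    [Finite M] [Finite M'] (h1 : LDcore F H w a2 a2' b2) (h2 : LDcore F H w a2' a2 b2.flip) :
    Finite (Z1 (H ⊓ Dec w) a) ∧ Nat.card (Z1 (H ⊓ Dec w) a) =
      Nat.card M ^ (1 + ldeg H w) * Nat.card (H0 (H ⊓ Dec w) a') := by
  have := h1.1
  let o : Z1 (H ⊓ Dec w) a2 →+ Z2 := AddMonoidHom.mk' (fun c => F.inv 1 H w (ob a ι π c)) fun c c₁ =>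
    S.inv_ob_add F hH c.2.1 c₁.2.1
  have e1 : (Z1 (H ⊓ Dec w) a).map (π.compLeft Gam) = o.ker.map (Z1 (H ⊓ Dec w) a2).subtype := by
    ext c
    constructor
    · rintro ⟨c₁, hc, rfl⟩
      have hc2 : Coc (H ⊓ Dec w) a2 fun g => π (c₁ g) := hc.1.map π S.πa
      refine ⟨⟨_, hc2, fun g hg => ?_⟩, ?_, rfl⟩
      · show π (c₁ g) = 0
        rw [hc.2 g hg, map_zero]
      · exact (F.zero_iff hH (S.ob_c2 hc2)).2 ((S.ob_spl hc2).2 ⟨c₁, hc.1, fun _ _ => rfl⟩)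
    · rintro ⟨c, hc, rfl⟩
      obtain ⟨c₁, k1, k2⟩ := (S.ob_spl c.2.1).1 ((F.zero_iff hH (S.ob_c2 c.2.1)).1 hc)
      refine ⟨rs (H ⊓ Dec w) c₁, rs_mem_Z1 k1, funext fun g => ?_⟩
      show π (rs (H ⊓ Dec w) c₁ g) = c.1 g
      by_cases hg : g ∈ H ⊓ Dec w
      · rw [rs_of_mem hg, k2 g hg]
      · rw [rs_of_notMem hg, map_zero, c.2.2 g hg]
  have e2 : Nat.card ((Z1 (H ⊓ Dec w) a).map (π.compLeft Gam)) = Nat.card o.ker := by
    rw [e1]
    exact Nat.card_congr (o.ker.equivMapOfInjective _ (Z1 (H ⊓ Dec w) a2).subtype_injective).symm.toEquiv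
  have f1 : Finite (Z1 (H ⊓ Dec w) a) := by
    refine finite_of_map (π.compLeft Gam) _ (S.card_ker.2 (finite_Z1_tr hH w)) ?_
    rw [e1]
    exact Finite.of_equiv _ (o.ker.equivMapOfInjective _ (Z1 (H ⊓ Dec w) a2).subtype_injective).toEquiv
  refine ⟨f1, ?_⟩
  have e3 : Nat.card o.range * Nat.card ((H0 (H ⊓ Dec w) a').map ε) = 2 := by
    rcases GWh_card_sub ((H0 (H ⊓ Dec w) a').map ε) with ⟨k1, k2⟩ | ⟨⟨y, hy, hy1⟩, k2⟩
    · rcases GWh_card_sub o.range with ⟨k3, -⟩ | ⟨-, k3⟩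
      · exfalso
        obtain ⟨y, hy⟩ := S.ε_surj 1
        have k4 : ∀ g ∈ H ⊓ Dec w, j (Function.invFun j (cob a' y g)) = cob a' y g := fun g hg =>
          Function.invFun_eq ((S.ex' _).1 (by rw [cob, map_sub, S.εa g hg, sub_self]))
        have k5 : Coc (H ⊓ Dec w) a2' fun g => Function.invFun j (cob a' y g) :=
          (cob_coc S.dual.act' y).of_map j S.j_inj S.ja k4
        obtain ⟨z, hz⟩ := h2.2.2 _ k5 fun c hc => by
          rw [inv_cupb_flip F hH S.dual2 hc k5, S.inv_ob_cup F hH hc k4, neg_eq_zero, up_eq_zero]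
          have k6 : o ⟨rs (H ⊓ Dec w) c, rs_mem_Z1 hc⟩ = 0 := by
            have : o ⟨rs (H ⊓ Dec w) c, rs_mem_Z1 hc⟩ ∈ o.range := ⟨_, rfl⟩
            rwa [k3, AddSubgroup.mem_bot] at this
          have k7 : F.inv 1 H w (ob a ι π c) = F.inv 1 H w (ob a ι π (rs (H ⊓ Dec w) c)) :=
            F.congr fun g hg k hk => by
              simp only [ob, rs_of_mem hg, rs_of_mem hk, rs_of_mem (mul_mem hg hk)]
          rw [k7]
          exact mul_eq_zero_of_right _ k6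
        have k8 : ε (y - j z) ∈ (H0 (H ⊓ Dec w) a').map ε := ⟨y - j z, fun g hg => by
          have := k4 g hg
          rw [hz g hg, cob, cob, map_sub, S.ja g hg] at this
          rw [map_sub]
          exact sub_eq_sub_iff_sub_eq_sub.1 this.symm, rfl⟩
        rw [k1, AddSubgroup.mem_bot, map_sub, hy, (S.ex' _).2 ⟨z, rfl⟩, sub_zero] at k8
        exact absurd k8 (by decide)
      · rw [k2, k3]
    · have k3 : o.range = ⊥ := by
        rw [eq_bot_iff]
        rintro _ ⟨c, rfl⟩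
        have k4 := S.inv_ob_cup F hH c.2.1 (c' := 0) (y := y) fun g hg => by
          simp [cob, hy g hg]
        rw [inv_cupb_right F hH S.dual2 c.2.1 (y := 0) (fun g _ => by simp [cob]), hy1, one_mul,
          eq_comm, up_eq_zero] at k4
        exact k4
      rw [k3, k2, AddSubgroup.card_bot]
  have e4 := card_map_inf (π.compLeft Gam) (Z1 (H ⊓ Dec w) a)
  rw [S.card_ker.1, card_Z1_tr hH w, e2] at e4
  have e5 := card_ker_range o
  rw [h1.2.1] at e5
  refine Nat.eq_of_mul_eq_mul_right two_pos ?_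
  rw [GWh_H0 S, S.card, e4]
  generalize Nat.card o.ker = x at *
  generalize Nat.card o.range = y at *
  generalize Nat.card ((H0 (H ⊓ Dec w) a').map ε) = z at *
  calc 2 ^ (2 + ldeg H w) * x * 2 = 2 ^ (2 + ldeg H w) * x * (y * z) := by rw [e3]
    _ = 2 ^ (2 + ldeg H w) * (x * y) * z := by ring
    _ = _ := by rw [← e5]; ring

theorem GWh_comap (S : Step n D a a' b a2 a2' b2 ι π j ε) {U : AddSubgroup (Gam → M)}
    (hU : U ≤ Z1 D a) :
    Nat.card (U.comap ((ι.compLeft Gam).comp (Z1 D tr).subtype)) =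
      Nat.card (U ⊓ (π.compLeft Gam).ker : AddSubgroup (Gam → M)) := by
  have hi : Function.Injective ((ι.compLeft Gam).comp (Z1 D tr).subtype) := fun χ κ h =>
    Subtype.ext (funext fun g => S.ι_inj (congrFun h g))
  have e : (U ⊓ (π.compLeft Gam).ker : AddSubgroup (Gam → M)) =
      (U.comap ((ι.compLeft Gam).comp (Z1 D tr).subtype)).map
        ((ι.compLeft Gam).comp (Z1 D tr).subtype) := by
    ext c
    constructor
    · rintro ⟨h1, h2⟩
      have k : ∀ g, ι (Function.invFun ι (c g)) = c g := fun g => S.ι_invFun (congrFun h2 g)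
      have k1 : (fun g => Function.invFun ι (c g)) ∈ Z1 D tr :=
        ⟨(hU h1).1.of_map ι S.ι_inj (fun g hg t => (S.aι g hg t).symm) fun g _ => k g,
          fun g hg => S.ι_inj (by rw [k, (hU h1).2 g hg, map_zero])⟩
      have k2 : ((ι.compLeft Gam).comp (Z1 D tr).subtype) ⟨_, k1⟩ = c := funext k
      exact ⟨⟨_, k1⟩, by rw [AddSubgroup.coe_comap, Set.mem_preimage, k2]; exact h1, k2⟩
    · rintro ⟨χ, h1, rfl⟩
      exact ⟨h1, funext fun g => (S.ex _).2 ⟨_, rfl⟩⟩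
  rw [e]
  exact Nat.card_congr (AddSubgroup.equivMapOfInjective _ _ hi).toEquiv

theorem GWh_B1_map (S : Step n D a a' b a2 a2' b2 ι π j ε) :
    (B1 D a).map (π.compLeft Gam) = B1 D a2 := by
  have k : ∀ x, π.compLeft Gam (rs D (cob a x)) = rs D (cob a2 (π x)) := fun x => funext fun g => by
    show π (rs D (cob a x) g) = _
    by_cases hg : g ∈ D
    · rw [rs_of_mem hg, rs_of_mem hg, cob, cob, map_sub, S.πa g hg]
    · rw [rs_of_notMem hg, rs_of_notMem hg, map_zero]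
  ext c
  constructor
  · rintro ⟨_, ⟨x, rfl⟩, rfl⟩
    exact ⟨π x, (k x).symm⟩
  · rintro ⟨z, rfl⟩
    obtain ⟨x, rfl⟩ := S.π_surj z
    exact ⟨_, ⟨x, rfl⟩, k x⟩

/-- The kernel of the pairing. -/
theorem GWh_ker (S : Step n (H ⊓ Dec w) a a' b a2 a2' b2 ι π j ε) (F : CFT) (hH : Op H)
    [Finite M] [Finite M'] [Finite N] [Finite N'] (h1 : LDcore F H w a2 a2' b2)
    (h2 : LDcore F H w a2' a2 b2.flip)
    (h3 : Nat.card (Z1 (H ⊓ Dec w) a') = Nat.card M' ^ (1 + ldeg H w) * Nat.card (H0 (H ⊓ Dec w) a))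
    (c : Gam → M) (hc : Coc (H ⊓ Dec w) a c)
    (h : ∀ c', Coc (H ⊓ Dec w) a' c' → F.inv (1 + n) H w (cupb b a' c c') = 0) :
    ∃ x, ∀ g ∈ H ⊓ Dec w, c g = cob a x g := by
  have := finite_Z1_tr hH w
  obtain ⟨z, hz⟩ := h1.2.2 _ (hc.map π S.πa) fun c' hc' => by
    rw [← S.inv_cup_j F]
    exact h _ (hc'.map j S.ja)
  obtain ⟨x, rfl⟩ := S.π_surj z
  have kc := hc.sub (cob_coc S.dual.act x)
  obtain ⟨χ, k0, k1⟩ : ∃ χ : Gam → Z2, (∀ g ∈ H ⊓ Dec w, ι (χ g) = (c - cob a x) g) ∧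
      Coc (H ⊓ Dec w) tr χ := by
    have k0 : ∀ g ∈ H ⊓ Dec w, ι (Function.invFun ι ((c - cob a x) g)) = (c - cob a x) g :=
      fun g hg => S.ι_invFun (by
        rw [Pi.sub_apply, map_sub, hz g hg, cob, cob, map_sub, S.πa g hg, sub_self])
    exact ⟨_, k0, kc.of_map ι S.ι_inj (fun g hg t => (S.aι g hg t).symm) k0⟩
  obtain ⟨P, hP⟩ := exists_lp F hH (dual_tr (H ⊓ Dec w))
  have p1 : P.ker = ⊥ := by
    rw [eq_bot_iff]
    intro κ hκ
    refine Subtype.ext (funext fun g => ?_)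
    by_cases hg : g ∈ H ⊓ Dec w
    · refine nondeg_tr F hH κ.2.1 (fun κ' hκ' => ?_) g hg
      have := DFunLike.congr_fun (show P κ = 0 from hκ) ⟨_, rs_mem_Z1 hκ'⟩
      rw [hP] at this
      exact (inv_cupb_congr F (fun _ _ => rfl) fun g hg => (rs_of_mem hg _).symm).trans this
    · exact κ.2.2 g hg
  let W : AddSubgroup (Z1 (H ⊓ Dec w) tr) := (B1 (H ⊓ Dec w) a).comap ((ι.compLeft Gam).comp (Z1 (H ⊓ Dec w) tr).subtype)
  let W0 : AddSubgroup (Gam → Z2) := (Z1 (H ⊓ Dec w) a').map (ε.compLeft Gam)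
  have w0 : W0 ≤ Z1 (H ⊓ Dec w) tr := by
    rintro _ ⟨c', hc', rfl⟩
    refine ⟨hc'.1.map ε S.εa, fun g hg => ?_⟩
    show ε (c' g) = 0
    rw [hc'.2 g hg, map_zero]
  let W' : AddSubgroup (Z1 (H ⊓ Dec w) tr) := W0.addSubgroupOf _
  have key : ∀ κ : Gam → Z2, Coc (H ⊓ Dec w) tr κ → ∀ c', Coc (H ⊓ Dec w) a' c' →
      F.inv (1 + n) H w (cupb b a' (fun g => ι (κ g)) c') = 0 →
      F.inv 1 H w (cupb mu2 tr κ fun g => ε (c' g)) = 0 := fun κ hκ c' hc' e => by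
    rwa [S.inv_cup_ι F hH hκ hc', up_eq_zero] at e
  have w1 : W' ≤ ann P W := by
    rintro κ' ⟨c', hc', e⟩ κ hκ
    obtain ⟨y, hy⟩ := hκ
    rw [hP, ← show (fun g => ε (c' g)) = κ'.1 from e]
    refine key _ κ.2.1 c' hc'.1 (inv_cupb_left F hH S.dual (x := y) (fun g hg => ?_) hc'.1)
    have := congrFun hy g
    rw [cobH_apply, rs_of_mem hg] at this
    exact this.symm
  have c1 : Nat.card (Z1 (H ⊓ Dec w) a') = Nat.card (Z1 (H ⊓ Dec w) a2') * Nat.card W' := by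
    rw [card_map_inf (ε.compLeft Gam) (Z1 (H ⊓ Dec w) a'), S.card_ker']
    congr 1
    exact (Nat.card_congr (AddSubgroup.addSubgroupOfEquivOfLe w0).toEquiv).symm
  have c2 : Nat.card (B1 (H ⊓ Dec w) a) = Nat.card W * Nat.card (B1 (H ⊓ Dec w) a2) := by
    rw [card_map_inf (π.compLeft Gam) (B1 (H ⊓ Dec w) a), GWh_B1_map S, GWh_comap S (B1_le S.dual.act)]
  have c3 := card_H0_B1 (H ⊓ Dec w) a
  have c4 := card_H0_B1 (H ⊓ Dec w) a2
  have c5 := h2.2.1
  have w2 : W' = ann P W := by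
    refine eq_ann P w1 ?_
    rw [p1, inf_bot_eq, AddSubgroup.card_bot, mul_one, card_Z1_tr hH w]
    have q1 : 0 < Nat.card N' ^ (1 + ldeg H w) := pow_pos Nat.card_pos _
    have q2 : 0 < Nat.card N := Nat.card_pos
    refine le_of_eq (Nat.eq_of_mul_eq_mul_left (Nat.mul_pos q1 q2) ?_)
    rw [h3, c5, S.card'] at c1
    rw [c2, S.card] at c3
    generalize Nat.card W = x1 at *
    generalize Nat.card W' = x2 at *
    generalize Nat.card (H0 (H ⊓ Dec w) a) = x3 at *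
    generalize Nat.card (H0 (H ⊓ Dec w) a2) = x4 at *
    generalize Nat.card (B1 (H ⊓ Dec w) a2) = x5 at *
    calc Nat.card N' ^ (1 + ldeg H w) * Nat.card N * 2 ^ (2 + ldeg H w)
        = (2 * Nat.card N') ^ (1 + ldeg H w) * (2 * Nat.card N) := by ring
      _ = (2 * Nat.card N') ^ (1 + ldeg H w) * x3 * (x1 * x5) := by rw [← c3]; ring
      _ = _ := by rw [c1, ← c4]; ring
  have w3 : (⟨rs (H ⊓ Dec w) χ, rs_mem_Z1 k1⟩ : Z1 (H ⊓ Dec w) tr) ∈ ann P.flip (ann P W) := by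
    rw [← w2]
    rintro κ' ⟨c', hc', e⟩
    rw [AddMonoidHom.flip_apply, hP, ← show (fun g => ε (c' g)) = κ'.1 from e]
    refine (inv_cupb_congr F (fun g hg => rs_of_mem hg _) fun _ _ => rfl).trans
      (key χ k1 c' hc'.1 ?_)
    rw [inv_cupb_congr F (c₁ := c - cob a x) (c₁' := c') k0 fun _ _ => rfl]
    have := inv_cupb_add_left F hH S.dual kc (cob_coc S.dual.act x) hc'.1
    rw [sub_add_cancel, h c' hc'.1, inv_cupb_left F hH S.dual (x := x) (fun _ _ => rfl) hc'.1,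
      add_zero] at this
    exact this.symm
  rw [ann_ann, p1, sup_bot_eq] at w3
  obtain ⟨y, hy⟩ := w3
  refine ⟨x + y, fun g hg => ?_⟩
  have k2 := congrFun hy g
  rw [cobH_apply, rs_of_mem hg] at k2
  have k3 : cob a y g = (c - cob a x) g := by
    rw [k2, ← k0 g hg]
    show ι (rs (H ⊓ Dec w) χ g) = _
    rw [rs_of_mem hg]
  rw [Pi.sub_apply, cob, cob] at k3
  rw [cob, map_add, ← sub_add_cancel (c g) (a g x - x), ← k3]
  abel

end

theorem GWh_triv (F : CFT) [Subsingleton M] [Subsingleton M'] : LDcore F H w a a' b :=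
  ⟨inferInstance, by
    rw [Nat.card_of_subsingleton (0 : Z1 (H ⊓ Dec w) a), Nat.card_of_subsingleton (0 : M),
      Nat.card_of_subsingleton (0 : H0 (H ⊓ Dec w) a'), one_pow, one_mul],
    fun _ _ _ => ⟨0, fun _ _ => Subsingleton.elim _ _⟩⟩

theorem GWh_ind (F : CFT) (hH : Op H) (n k : ℕ) : ∀ (M M' : Type) [AddCommGroup M]
    [AddCommGroup M'] [Finite M] [Finite M'] (a : Gam → M →+ M) (a' : Gam → M' →+ M')
    (b : M →+ M' →+ ZMod (2 ^ (1 + n))), Nat.card M = k → Dual (1 + n) (H ⊓ Dec w) a a' b →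
    LDcore F H w a a' b := by
  induction k using Nat.strong_induction_on with
  | _ k ih =>
  intro M M' _ _ _ _ a a' b hk hd
  rcases subsingleton_or_nontrivial M with hM | hM
  · have : Subsingleton M' := ⟨fun y y' => sub_eq_zero.1 (hd.right _ fun x => by
      rw [Subsingleton.elim x 0, map_zero, AddMonoidHom.zero_apply])⟩
    exact GWh_triv F
  have hM' : Nontrivial M' := by
    rw [← Finite.one_lt_card_iff_nontrivial, hd.card_eq]
    exact Finite.one_lt_card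
  obtain ⟨N, N', _, _, _, _, a2, a2', b2, ι, π, j, ε, S⟩ := exists_step hd
  obtain ⟨K, K', _, _, _, _, a3, a3', b3, ι', π', j', ε', S'⟩ := exists_step hd.flip
  have n1 : Nat.card N < k := by
    have := S.card
    have := Nat.card_pos (α := N)
    omega
  have n2 : Nat.card K < k := by
    have := S'.card
    have := hd.card_eq
    have := Nat.card_pos (α := K)
    omega
  have i1 := ih _ n1 N N' a2 a2' b2 rfl S.dual2
  have i2 := ih _ n1 N' N a2' a2 b2.flip S.dual2.card_eq S.dual2.flip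
  have i3 := ih _ n2 K K' a3 a3' b3 rfl S'.dual2
  have i4 := ih _ n2 K' K a3' a3 b3.flip S'.dual2.card_eq S'.dual2.flip
  have r := GWh_card S F hH i1 i2
  exact ⟨r.1, r.2, GWh_ker S F hH i1 i2 (GWh_card S' F hH i3 i4).2⟩

theorem ld_core (F : CFT) (hH : Op H) [Finite M] [Finite M'] (hd : Dual m (H ⊓ Dec w) a a' b) :
    LDcore F H w a a' b := by
  rcases Nat.eq_zero_or_pos m with rfl | hm
  · have := hd.subsingleton_zero
    have := hd.flip.subsingleton_zero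
    exact GWh_triv F
  · obtain ⟨n, rfl⟩ := Nat.exists_eq_add_of_le hm
    exact GWh_ind F hH n _ M M' a a' b rfl hd

theorem GWh_lp (F : CFT) (hH : Op H) [Finite M] [Finite M'] (hd : Dual m (H ⊓ Dec w) a a' b)
    {P : Z1 (H ⊓ Dec w) a →+ Z1 (H ⊓ Dec w) a' →+ ZMod (2 ^ m)}
    (hP : ∀ c c', P c c' = F.inv m H w (cupb b a' c c')) :
    P.ker = (B1 (H ⊓ Dec w) a).addSubgroupOf _ := by
  ext c
  rw [AddMonoidHom.mem_ker, AddSubgroup.mem_addSubgroupOf, ← rs_eq_self c.2, rs_mem_B1]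
  constructor
  · intro h
    refine (ld_core F hH hd).2.2 _ c.2.1 fun c' hc' => ?_
    have := DFunLike.congr_fun h ⟨_, rs_mem_Z1 hc'⟩
    rw [hP] at this
    exact (inv_cupb_congr F (fun _ _ => rfl) fun g hg => (rs_of_mem hg _).symm).trans this
  · rintro ⟨x, hx⟩
    ext c'
    rw [hP]
    exact inv_cupb_left F hH hd hx c'.2.1

theorem lp_ker (F : CFT) (hH : Op H) [Finite M] [Finite M'] (hd : Dual m (H ⊓ Dec w) a a' b)
    {P : Z1 (H ⊓ Dec w) a →+ Z1 (H ⊓ Dec w) a' →+ ZMod (2 ^ m)}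
    (hP : ∀ c c', P c c' = F.inv m H w (cupb b a' c c')) :
    P.ker = (B1 (H ⊓ Dec w) a).addSubgroupOf _ ∧
      P.flip.ker = (B1 (H ⊓ Dec w) a').addSubgroupOf _ := by
  refine ⟨GWh_lp F hH hd hP, ?_⟩
  rw [← GWh_lp F hH hd.flip (P := -P.flip) fun c' c => by
    rw [inv_cupb_flip F hH hd c.2.1 c'.2.1, ← hP]
    rfl]
  ext c
  simp only [AddMonoidHom.mem_ker, AddMonoidHom.neg_apply, neg_eq_zero]

theorem card_Z1_B1 (F : CFT) (hH : Op H) [Finite M] [Finite M'] (hd : Dual m (H ⊓ Dec w) a a' b) :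
    Nat.card (Z1 (H ⊓ Dec w) a') * Nat.card (B1 (H ⊓ Dec w) a) = Nat.card M ^ (2 + ldeg H w) := by
  rw [(ld_core F hH hd.flip).2.1, mul_assoc, card_H0_B1, hd.card_eq]
  ring

theorem ld (F : CFT) : LDStmt F := by
  intro m H w M M' _ _ _ _ a a' b L hH hd hL
  have f1 := (ld_core F hH hd).1
  have f2 := (ld_core F hH hd.flip).1
  refine ⟨f1, ?_⟩
  obtain ⟨P, hP⟩ := exists_lp F hH hd
  have h1 := card_ann P (L.addSubgroupOf _)
  have h2 : (L.addSubgroupOf _ ⊓ P.ker : AddSubgroup (Z1 (H ⊓ Dec w) a)) = (B1 (H ⊓ Dec w) a).addSubgroupOf _ := by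
    rw [(lp_ker F hH hd hP).1]
    refine inf_eq_right.2 fun c hc => ?_
    obtain ⟨x, hx⟩ := hc
    rw [AddSubgroup.mem_addSubgroupOf, ← show rs (H ⊓ Dec w) (cob a x) = c.1 from hx]
    exact hL.2 x
  rw [h2, Nat.card_congr (AddSubgroup.addSubgroupOfEquivOfLe hL.1).toEquiv,
    Nat.card_congr (AddSubgroup.addSubgroupOfEquivOfLe (B1_le hd.act)).toEquiv,
    card_Z1_B1 F hH hd] at h1
  rw [← h1]
  congr 1
  refine Nat.card_congr
    { toFun := fun c => ⟨⟨c.1, c.2.1⟩, fun x hx => by rw [hP]; exact c.2.2 x hx⟩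
      invFun := fun c => ⟨c.1.1, c.1.2, fun x hx => by
        rw [← hP ⟨x, hL.1 hx⟩]; exact c.2 _ hx⟩
      left_inv := fun _ => rfl
      right_inv := fun _ => rfl }

end Pool.Agent.Lib.MP_696deb_nt.B2
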