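import Pool.Agent.Lib.MP_696deb_nt.B2.GWe
import Pool.Agent.Lib.MP_696deb_nt.B2.GWf

/-! Finiteness, separation by places, and the count of units. -/

set_option autoImplicit false

open scoped NNReal Classical
open Finset

namespace Pool.Agent.Lib.MP_696deb_nt.B2

variable {H : Subgroup Gam}

theorem GWi_sq (n : ℤ) : ∃ a b : ℤ, b ^ 2 * a = n ∧ Squarefree a := by
  obtain ⟨a, b, h, k⟩ := Nat.sq_mul_squarefree n.natAbs
  rcases Int.natAbs_eq n with e | e
  · exact ⟨a, b, by rw [e, ← h]; push_cast; rfl, Int.squarefree_natAbs.1 (by simpa using k)⟩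
  · exact ⟨-a, b, by rw [e, ← h]; push_cast; ring, Int.squarefree_natAbs.1 (by simpa using k)⟩

theorem GWi_coc {χ : Gam → Z2} (h : Coc H tr χ) :
    ∀ g ∈ H, ∀ k ∈ H, χ (g * k) = χ g + χ k := h.2

theorem GWi_one {χ : Gam → Z2} (h : Coc H tr χ) : χ 1 = 0 := h.one (act_tr H)

theorem GWi_conj {χ : Gam → Z2} (h : Coc H tr χ) {g k : Gam} (hg : g ∈ H) (hk : k ∈ H) :
    χ (g⁻¹ * k * g) = χ k := by
  have h1 := GWi_coc h g⁻¹ (inv_mem hg) g hg
  rw [inv_mul_cancel, GWi_one h] at h1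
  rw [GWi_coc h _ (mul_mem (inv_mem hg) hk) g hg, GWi_coc h _ (inv_mem hg) k hk, add_right_comm,
    ← h1, zero_add]

theorem GWi_odd {χ : Gam → Z2} (h : Coc H tr χ) {g : Gam} (hg : g ∈ H) {n : ℕ} (hn : Odd n) :
    χ (g ^ n) = χ g := by
  obtain ⟨k, rfl⟩ := hn
  rw [pow_succ, GWi_coc h _ (pow_mem hg _) g hg, two_mul, pow_add,
    GWi_coc h _ (pow_mem hg _) _ (pow_mem hg _), Z2.add_self, zero_add]

theorem GWi_away {s : Finset Plc} {w : Plc} (h : w.p ∉ s.image Plc.p) : Away H s w := by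
  intro v hv g _ e
  exact h (mem_image.2 ⟨v, hv, by rw [← e, smul_p]⟩)

/-- The quadratic characters of the rational numbers. -/
theorem hom_top {χ : Gam → Z2} (h : Coc ⊤ tr χ) :
    ∃ a : ℤ, Squarefree a ∧ ∀ g, χ g = xi a g := by
  obtain ⟨x, hx⟩ := kum_surj (H := ⊤) (m := 1) (κ := χ) isClosed_univ h.1 fun g hg k hk => by
    rw [cy_one_eq, one_mul, GWi_coc h g hg k hk]
  obtain ⟨r, rfl⟩ := fx_top hx.fx.2
  have r0 : r ≠ 0 := by
    rintro rfl
    exact hx.fx.1 (by simp)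
  obtain ⟨a, b, hab, ha⟩ := GWi_sq (r.num * r.den)
  have b0 : b ≠ 0 := by
    rintro rfl
    have : r.num * r.den = 0 := by rw [← hab]; simp
    rcases mul_eq_zero.1 this with e | e
    · exact r0 (Rat.num_eq_zero.1 e)
    · exact r.den_nz (by exact_mod_cast e)
  have d0 : (r.den : ℚ) ≠ 0 := by exact_mod_cast r.den_nz
  have e : r = a * ((b : ℚ) / r.den) ^ 2 := by
    have h1 : (b : ℚ) ^ 2 * a = r.num * r.den := by exact_mod_cast hab
    have h2 : (r.num : ℚ) = r * r.den := by rw [Rat.mul_den_eq_num]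
    rw [h2] at h1
    field_simp
    linear_combination -h1
  obtain ⟨y, y0, hy, ky⟩ := kum_xi (H := ⊤) ha.ne_zero
  have t0 : (((b : ℚ) / r.den : ℚ) : Qbar) ≠ 0 := by
    exact_mod_cast div_ne_zero (by exact_mod_cast b0 : (b : ℚ) ≠ 0) d0
  have hk : Kum 1 ⊤ (r : Qbar) (xi a) := by
    refine ⟨y * (((b : ℚ) / r.den : ℚ) : Qbar), mul_ne_zero y0 t0, ?_, fun g hg => ?_⟩
    · rw [mul_pow, hy]
      conv_rhs => rw [e]
      push_cast
      ring
    · rw [map_mul, ky g hg, map_ratCast]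
      ring
  obtain ⟨z, hz⟩ := hx.sub hk
  refine ⟨a, ha, fun g => ?_⟩
  have h3 := hz g trivial
  rw [cy_one_eq, sub_self, zero_mul] at h3
  exact sub_eq_zero.1 h3

theorem not_dvd_of_unr {a : ℤ} (ha : Squarefree a) {w : Plc} (hw : w.p ≠ 2)
    (h : ∀ σ ∈ Ine w, xi a σ = 0) : ¬ (w.p : ℤ) ∣ a := by
  rintro ⟨b, rfl⟩
  have pp : Prime (w.p : ℤ) := Nat.prime_iff_prime_int.1 w.prime
  have hb : ¬ (w.p : ℤ) ∣ 2 * b := by
    intro k
    rcases pp.dvd_or_dvd k with k | k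
    · exact hw ((Nat.prime_dvd_prime_iff_eq w.prime Nat.prime_two).1 (by exact_mod_cast k))
    · exact pp.not_isUnit (ha _ (mul_dvd_mul_left _ k))
  obtain ⟨τ, t1, t2⟩ := exists_gen hw
  have b0 : b ≠ 0 := right_ne_zero_of_mul ha.ne_zero
  have h1 := xi_eq_zero.1 (h τ t1)
  rw [chi_mul pp.ne_zero b0, t2, chi_ine hb t1] at h1
  exact absurd h1 (by decide)

theorem finH_top : FinH ⊤ := by
  intro s
  set B : Finset ℕ := insert 2 (s.image Plc.p) with hB
  set N : ℕ := ∏ p ∈ B, p with hN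
  have N0 : 0 < N := prod_pos fun p hp => by
    rcases mem_insert.1 hp with rfl | hp
    · exact two_pos
    · obtain ⟨v, -, rfl⟩ := mem_image.1 hp
      exact v.prime.pos
  refine Set.Finite.to_subtype (((Set.finite_Icc (-(N : ℤ)) N).image
    fun a => (xi a : Gam → Z2)).subset fun χ hχ => ?_)
  obtain ⟨a, ha, e⟩ := hom_top (mem_Zu.1 hχ).1.1
  refine ⟨a, ?_, (funext e).symm⟩
  have h1 : a.natAbs.primeFactors ⊆ B := by
    intro p hp
    obtain ⟨w, rfl⟩ := exists_plc (Nat.prime_of_mem_primeFactors hp)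
    by_contra k
    rw [hB, mem_insert, not_or] at k
    refine not_dvd_of_unr ha k.1 (fun σ hσ => ?_)
      (Int.natCast_dvd.2 (Nat.dvd_of_mem_primeFactors hp))
    exact (e σ).symm.trans ((mem_Zu.1 hχ).2 w (GWi_away k.2) σ ⟨trivial, hσ⟩)
  have h2 : a.natAbs ∣ N := by
    rw [← Nat.prod_primeFactors_of_squarefree (Int.squarefree_natAbs.2 ha)]
    exact prod_dvd_prod_of_subset _ _ _ h1
  have h3 := Nat.le_of_dvd N0 h2
  constructor <;> omega

/-- The invariant characters with bounded ramification extend to the whole group. -/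
theorem GWi_inv (hH : Op H) (hT : TC H) (h2 : H.index = 2) (B : Finset ℕ)
    (hB : ∀ w : Plc, w.p ∉ B → Ine w ≤ H) :
    {χ : Gam → Z2 | χ ∈ Z1 H tr ∧ (∀ w : Plc, w.p ∉ B → ∀ σ ∈ H ⊓ Ine w, χ σ = 0) ∧
      ∀ g, χ (cc * g * cc) = χ g}.Finite := by
  obtain ⟨t, -, -, ht⟩ := exists_reps (H := ⊤) isOpen_univ B
  have hc : cc ∉ H := hT cc isCC_cc
  have := finH_top t
  refine ((Set.toFinite (Zu ⊤ tr t : Set (Gam → Z2))).image (rs H)).subset ?_
  rintro χ ⟨⟨h, h0⟩, hu, hi⟩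
  have m1 : ∀ {g}, g ∉ H → g * cc ∈ H := fun hg =>
    (Subgroup.mul_mem_iff_of_index_two h2).2 (iff_of_false hg hc)
  have m2 : ∀ {g}, g ∈ H → cc * g * cc ∈ H := fun hg => m1 fun k =>
    hc (by simpa using mul_mem k (inv_mem hg))
  have hom : IsHom ⊤ fun g => if g ∈ H then χ g else χ (g * cc) := by
    intro g _ k _
    by_cases hg : g ∈ H <;> by_cases hk : k ∈ H
    · simp only [if_pos hg, if_pos hk, if_pos (mul_mem hg hk), GWi_coc h g hg k hk]
    · have e : g * k ∉ H := fun e => hk ((mul_mem_cancel_left hg).1 e)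
      simp only [if_pos hg, if_neg hk, if_neg e]
      rw [mul_assoc, GWi_coc h g hg _ (m1 hk)]
    · have e : g * k ∉ H := fun e => hg ((mul_mem_cancel_right hk).1 e)
      simp only [if_neg hg, if_pos hk, if_neg e]
      rw [← hi k, ← GWi_coc h _ (m1 hg) _ (m2 hk)]
      congr 1
      simp only [mul_assoc]
      rw [← mul_assoc cc cc, cc_mul_cc, one_mul]
    · have e : g * k ∈ H := (Subgroup.mul_mem_iff_of_index_two h2).2 (iff_of_false hg hk)
      simp only [if_neg hg, if_neg hk, if_pos e]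
      rw [← hi (k * cc), ← GWi_coc h _ (m1 hg) _ (m2 (m1 hk))]
      congr 1
      rw [mul_assoc cc, mul_assoc k, cc_mul_cc, mul_one, ← mul_assoc, mul_assoc g, cc_mul_cc,
        mul_one]
  obtain ⟨U, u1, -, u3⟩ := h.1
  refine ⟨fun g => if g ∈ H then χ g else χ (g * cc), mem_Zu.2 ⟨⟨coc_tr.2 ⟨?_, hom⟩, ?_⟩, ?_⟩, ?_⟩
  · refine Sm.of_open (U ⊓ H) (u1.inf hH) fun g hg u hu => ?_
    have e := hom g hg u trivial
    have e' : χ u = 0 := by
      rw [← u3 1 (one_mem _) u hu.2.2 (by simpa using hu.2.1), GWi_one h]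
    have hu' : u ∈ H := hu.2.2
    simp only [if_pos hu', e', add_zero] at e
    exact e
  · exact fun g hg => absurd trivial hg
  · intro w hw σ hσ
    have k : w.p ∉ B := fun k => ht w k hw
    have k' : σ ∈ H := hB w k hσ.2
    simp only [if_pos k']
    exact hu w k σ ⟨k', hσ.2⟩
  · funext g
    by_cases hg : g ∈ H
    · rw [rs_of_mem hg, if_pos hg]
    · rw [rs_of_notMem hg, h0 g hg]

theorem finH_two (hH : Op H) (hT : TC H) (h2 : H.index = 2) : FinH H := by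
  intro s
  obtain ⟨B₀, hB₀⟩ := finite_ram hH
  set B : Finset ℕ := B₀ ∪ s.image Plc.p with hB
  have fin := GWi_inv hH hT h2 B fun w hw => hB₀ w fun k => hw (mem_union_left _ k)
  have hc : cc ∉ H := hT cc isCC_cc
  have ci : cc⁻¹ = cc := inv_eq_of_mul_eq_one_right cc_mul_cc
  have m2 : ∀ g, cc * g * cc ∈ H ↔ g ∈ H := fun g => by
    simp [Subgroup.mul_mem_iff_of_index_two h2, hc]
  have cc2 : ∀ g, cc * (cc * g * cc) * cc = g := fun g => by
    rw [← mul_assoc, ← mul_assoc, cc_mul_cc, one_mul, mul_assoc, cc_mul_cc, mul_one]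
  have unr : ∀ χ ∈ Zu H tr s, ∀ w : Plc, w.p ∉ B → ∀ σ ∈ H ⊓ Ine w, χ σ = 0 := fun χ h w hw =>
    (mem_Zu.1 h).2 w (GWi_away fun k => hw (mem_union_right _ k))
  let f : (Gam → Z2) →+ (Gam → Z2) :=
    { toFun := fun χ g => χ g + χ (cc * g * cc)
      map_zero' := funext fun g => by simp
      map_add' := fun χ ψ => funext fun g => by
        simp only [Pi.add_apply]
        abel }
  refine finite_of_map f _ (Set.Finite.to_subtype (fin.subset ?_))
    (Set.Finite.to_subtype (fin.subset ?_))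
  · rintro χ ⟨h, k⟩
    refine ⟨(mem_Zu.1 h).1, unr χ h, fun g => ?_⟩
    have e : χ g + χ (cc * g * cc) = 0 := congrFun (show f χ = 0 from k) g
    rw [← add_zero (χ g), ← Z2.add_self (χ (cc * g * cc)), ← add_assoc, e, zero_add]
  · rintro _ ⟨χ, h, rfl⟩
    obtain ⟨⟨h1, h0⟩, -⟩ := mem_Zu.1 h
    have h3 : (fun g => χ (cc * g * cc)) ∈ Z1 H tr := by
      refine ⟨coc_tr.2 ⟨h1.1.conj cc cc fun g hg => (m2 g).2 hg, fun g hg k hk => ?_⟩,
        fun g hg => h0 _ fun k => hg ((m2 g).1 k)⟩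
      rw [← GWi_coc h1 _ ((m2 g).2 hg) _ ((m2 k).2 hk)]
      simp only [mul_assoc]
      rw [← mul_assoc cc cc, cc_mul_cc, one_mul]
    refine ⟨add_mem (⟨h1, h0⟩ : χ ∈ Z1 H tr) h3, fun w hw σ hσ => ?_, fun g => ?_⟩
    · show χ σ + χ (cc * σ * cc) = 0
      rw [unr χ h w hw σ hσ, unr χ h (cc • w) hw _ ⟨(m2 σ).2 hσ.1, ?_⟩, add_zero]
      refine mem_Ine_smul.2 ?_
      rw [ci, cc2]
      exact hσ.2
    · show χ (cc * g * cc) + χ (cc * (cc * g * cc) * cc) = χ g + χ (cc * g * cc)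
      rw [cc2, add_comm]

theorem finite_Zu (hf : FinH H) {M M' : Type} [AddCommGroup M] [AddCommGroup M'] [Finite M]
    [Finite M'] {m : ℕ} {a : Gam → M →+ M} {a' : Gam → M' →+ M'} {b : M →+ M' →+ ZMod (2 ^ m)}
    (hd : Dual m H a a' b) (s : Finset Plc) : Finite (Zu H a s) := by
  obtain rfl | ⟨n, rfl⟩ : m = 0 ∨ ∃ n, m = 1 + n := by
    rcases m with _ | n
    · exact Or.inl rfl
    · exact Or.inr ⟨n, add_comm _ _⟩
  · have := hd.subsingleton_zero
    infer_instance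
  · refine dual_ind (P := fun _ _ _ _ a _ _ => Finite (Zu H a s)) ?_ ?_ M M' a a' b hd
    · intro M M' _ _ _ _ a a' b
      infer_instance
    · intro M M' N N' _ _ _ _ _ _ _ _ a a' b a2 a2' b2 ι π j ε S ih
      refine finite_of_map (π.compLeft Gam) _ ((S.card_ker_Zu s).2 (hf s))
        (Set.Finite.to_subtype ((Set.toFinite (Zu H a2 s : Set (Gam → N))).subset ?_))
      rintro _ ⟨c, hc, rfl⟩
      obtain ⟨⟨h1, h0⟩, hu⟩ := mem_Zu.1 hc
      refine mem_Zu.2 ⟨⟨h1.map π S.πa, fun g hg => ?_⟩, fun w hw σ hσ => ?_⟩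
      · show π (c g) = 0
        rw [h0 g hg, map_zero]
      · show π (c σ) = 0
        rw [hu w hw σ hσ, map_zero]

theorem finite_Sel {M : Type} [AddCommGroup M] [Finite M] {a : Gam → M →+ M} {s : Finset Plc}
    (h : Finite (Zu H a s)) (R T : Finset Plc) (L : Plc → AddSubgroup (Gam → M)) :
    Finite (Sel H a s R T L) := by
  refine Finite.of_injective (β := Zu H a s × (R → M))
    (fun z => (⟨z.1.1, mem_Zu.2 ⟨z.2.1, z.2.2.1⟩⟩, fun w => z.1.2 w)) fun z z' e => ?_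
  refine Subtype.ext (Prod.ext (congrArg (fun x => x.1.1) e) (funext fun w => ?_))
  by_cases hw : w ∈ R
  · exact congrFun (congrArg Prod.snd e) ⟨w, hw⟩
  · rw [z.2.2.2.2.1 w hw, z'.2.2.2.2.1 w hw]

/-- A nonzero character is nonzero on infinitely many decomposition groups. -/
theorem exists_plc_ne (ch : ChebStmt) (hH : Op H) {χ : Gam → Z2} (h : Coc H tr χ) {g : Gam}
    (hg : g ∈ H) (h1 : χ g ≠ 0) (B : Finset ℕ) :
    ∃ w : Plc, w.p ∉ B ∧ ∃ φ ∈ H ⊓ Dec w, χ φ ≠ 0 := by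
  obtain ⟨U, u1, u2, u3⟩ := h.1
  obtain ⟨V, v1, v2, v3⟩ := exists_normal_le hH
  have o : Op (U ⊓ V) := u1.inf v1
  obtain ⟨k, u, hu, e⟩ := Nat.exists_eq_two_pow_mul_odd o.index_ne_zero
  have p1 : (g ^ u) ^ 2 ^ k ∈ U ⊓ V := by
    rw [← pow_mul, mul_comm, ← e]
    exact Subgroup.pow_index_mem _ g
  obtain ⟨w, φ, n, hw, hφ, hn, k1⟩ := ch (U ⊓ V) (g ^ u) k B o inferInstance p1
  have g1 : (g ^ u) ^ n ∈ H := pow_mem (pow_mem hg _) _
  have f1 : φ ∈ H := inv_mem_iff.1 ((mul_mem_cancel_right g1).1 (v3 k1.2))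
  refine ⟨w, hw, φ, ⟨f1, hφ.1⟩, ?_⟩
  rw [u3 φ f1 _ g1 k1.1, GWi_odd h (pow_mem hg _) hn, GWi_odd h hg hu]
  exact h1

/-- Finitely many new places separate finitely many characters. -/
theorem exists_sep (ch : ChebStmt) (hH : Op H) {s : Finset Plc} (hs : Apart H s) (B : Finset ℕ)
    (W : AddSubgroup (Gam → Z2)) [Finite W] (hW : W ≤ Z1 H tr) :
    ∃ s' : Finset Plc, s ⊆ s' ∧ Apart H s' ∧ (∀ w : Plc, w.p ∈ B → ¬ Away H s' w) ∧
      ∀ χ ∈ W, (∀ w ∈ s', w ∉ s → ∀ g ∈ H ⊓ Dec w, χ g = 0) → χ = 0 := by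
  have key : ∀ χ : W, ∃ p : ℕ, χ.1 ≠ 0 → ∃ w : Plc, w.p = p ∧ w.p ∉ s.image Plc.p ∧
      ∃ φ ∈ H ⊓ Dec w, χ.1 φ ≠ 0 := by
    intro χ
    by_cases h0 : χ.1 = 0
    · exact ⟨0, fun k => absurd h0 k⟩
    · obtain ⟨g, hg⟩ := Function.ne_iff.1 h0
      have hH' : g ∈ H := by
        by_contra k
        exact hg ((hW χ.2).2 g k)
      obtain ⟨w, h1, h2⟩ := exists_plc_ne ch hH (hW χ.2).1 hH' hg (s.image Plc.p)
      exact ⟨w.p, fun _ => ⟨w, rfl, h1, h2⟩⟩
  choose p hp using key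
  have := Fintype.ofFinite W
  obtain ⟨s', h1, h2, h3⟩ := gw_exists_ext hH hs (B ∪ univ.image p)
  refine ⟨s', h1, h2, fun w hw => h3 w (mem_union_left _ hw), fun χ hχ h => ?_⟩
  by_contra h0
  obtain ⟨w, e, k1, φ, k2, k3⟩ := hp ⟨χ, hχ⟩ h0
  refine h3 w (mem_union_right _ (mem_image.2 ⟨_, mem_univ _, e.symm⟩)) fun v hv g hg e' => ?_
  subst e'
  refine k3 ?_
  have k5 : g⁻¹ * φ * g ∈ H := mul_mem (mul_mem (inv_mem hg) k2.1) hg
  have k4 := h v hv (fun k => k1 (mem_image.2 ⟨v, k, rfl⟩)) (g⁻¹ * φ * g)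
    ⟨k5, mem_Dec_smul.1 k2.2⟩
  rwa [GWi_conj (hW hχ).1 hg k2.1] at k4

theorem GWi_kum_prod {ι : Type} {a : ι → Qbar} {κ : ι → Gam → Z2} (h : ∀ i, Kum 1 H (a i) (κ i))
    (t : Finset ι) : Kum 1 H (∏ i ∈ t, a i) (∑ i ∈ t, κ i) := by
  induction t using Finset.induction_on with
  | empty => exact ⟨1, one_ne_zero, by simp, fun g _ => by simp⟩
  | insert i t hi ih =>
    rw [prod_insert hi, sum_insert hi]
    exact (h i).mul ih

theorem GWi_sum {ι : Type} [Fintype ι] (κ : ι → Gam → Z2) (x : ι → Z2) :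
    (fun g => ∑ i, x i * κ i g) = ∑ i ∈ univ.filter fun i => x i = 1, κ i := by
  funext g
  rw [Finset.sum_apply, sum_filter]
  refine sum_congr rfl fun i _ => ?_
  rcases Z2.cases (x i) with e | e
  · rw [e, zero_mul, if_neg (by decide)]
  · rw [e, one_mul, if_pos rfl]

theorem su_card (su : SUStmt) (hH : Op H) (hT : TC H) (hf : FinH H) {s : Finset Plc}
    (hs : Apart H s) (h2 : ∀ w, Away H s w → w.p ≠ 2) :
    2 ^ (H.index / 2 + s.card) ≤ Nat.card (Zu H tr s) := by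
  obtain ⟨a, ha, hi⟩ := su H s hH hT hs
  choose κ hκ using fun i => exists_kum 1 (ha i).1 (ha i).2.1
  have := hf s
  let f : (Fin (H.index / 2 + s.card) → Z2) →+ (Gam → Z2) := (rs H).comp
    { toFun := fun x g => ∑ i, x i * κ i g
      map_zero' := funext fun g => by simp
      map_add' := fun x y => funext fun g => by simp [add_mul, sum_add_distrib] }
  have hf' : ∀ x, f x = rs H (∑ i ∈ univ.filter fun i => x i = 1, κ i) := fun x =>
    congrArg (rs H) (GWi_sum κ x)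
  have mem : ∀ x, f x ∈ Zu H tr s := fun x => by
    rw [hf']
    refine mem_Zu.2 ⟨rs_mem_Z1 (GWi_kum_prod hκ _).coc_tr, fun w hw σ hσ => ?_⟩
    rw [rs_of_mem hσ.1]
    refine (GWi_kum_prod hκ _).unr (h2 w hw) ?_ σ hσ
    rw [map_prod]
    exact prod_eq_one fun i _ => (ha i).2.2 w hw
  have inj : Function.Injective f := by
    refine (injective_iff_map_eq_zero f).2 fun x hx => ?_
    obtain ⟨r, r1, r2⟩ := (GWi_kum_prod hκ (univ.filter fun i => x i = 1)).pow_iff.2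
      ⟨0, fun g hg => by
        rw [mul_zero, ← rs_of_mem hg (∑ i ∈ univ.filter fun i => x i = 1, κ i), ← hf', hx]
        rfl⟩
    have e := hi _ ⟨r, r1, by simpa using r2.symm⟩
    funext i
    refine (Z2.cases (x i)).resolve_right fun k => ?_
    exact eq_empty_iff_forall_notMem.1 e i (mem_filter.2 ⟨mem_univ _, k⟩)
  have le := Nat.card_le_card_of_injective (fun x => (⟨f x, mem x⟩ : Zu H tr s))
    fun x y e => inj (congrArg Subtype.val e)
  simpa [Nat.card_eq_fintype_card] using le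

end Pool.Agent.Lib.MP_696deb_nt.B2
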