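import Pool.Agent.Lib.MP_696deb_nt.B2.GWe
import Pool.Agent.Lib.MP_696deb_nt.B2.GWf

/-! The global step, first half. -/

set_option autoImplicit false

open scoped NNReal Classical
open Finset

namespace Pool.Agent.Lib.MP_696deb_nt.B2

variable {M M' N N' : Type} [AddCommGroup M] [AddCommGroup M'] [AddCommGroup N] [AddCommGroup N']
  {n : ℕ} {H D : Subgroup Gam} {w : Plc} {a : Gam → M →+ M} {a' : Gam → M' →+ M'}
  {b : M →+ M' →+ ZMod (2 ^ (1 + n))} {a2 : Gam → N →+ N} {a2' : Gam → N' →+ N'}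
  {b2 : N →+ N' →+ ZMod (2 ^ (1 + n))} {ι : Z2 →+ M} {π : M →+ N} {j : N' →+ M'} {ε : M' →+ Z2}

theorem GWj_mem {s : Finset Plc} {c : Gam → M} {μ : Plc → M} : (c, μ) ∈ Rs H a s ↔
    c ∈ Zu H a s ∧ (∀ w ∈ s, ∀ g ∈ H ⊓ Dec w, c g = cob a (μ w) g) ∧ ∀ w ∉ s, μ w = 0 :=
  ⟨fun h => ⟨⟨h.1, h.2.1⟩, h.2.2.1, h.2.2.2.1⟩,
    fun h => ⟨h.1.1, h.1.2, h.2.1, h.2.2, fun _ k => absurd k (notMem_empty _)⟩⟩

theorem Step.GWj_lift (S : Step n H a a' b a2 a2' b2 ι π j ε) {s : Finset Plc} {c : Gam → M'}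
    (h : c ∈ Zu H a' s) (h0 : ∀ g, ε (c g) = 0) : ∃ c2 ∈ Zu H a2' s, ∀ g, j (c2 g) = c g := by
  choose c2 hc using fun g => (S.ex' _).1 (h0 g)
  have z : ∀ g, c g = 0 → c2 g = 0 := fun g e => S.j_inj (by rw [hc, e, map_zero])
  exact ⟨c2, ⟨⟨h.1.1.of_map j S.j_inj S.ja fun g _ => hc g, fun g hg => z g (h.1.2 g hg)⟩,
    fun w hw σ hσ => z σ (h.2 w hw σ hσ)⟩, hc⟩

theorem Step.card_Rs (S : Step n H a a' b a2 a2' b2 ι π j ε) (s : Finset Plc) :
    Nat.card (Rs H a' s) =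
      Nat.card (Rs H a2' s) * Nat.card (R0 H a' s ε) * Nat.card (SR H a' s ε) := by
  have jc : ∀ x, ∀ g ∈ H, j (cob a2' x g) = cob a' (j x) g := fun x g hg => by
    rw [cob, cob, map_sub, S.ja g hg]
  have e : (Rs H a2' s).map (AddMonoidHom.prodMap (j.compLeft Gam) (j.compLeft Plc)) =
      Rs H a' s ⊓ (AddMonoidHom.prodMap (ε.compLeft Gam) (ε.compLeft Plc)).ker := by
    refine le_antisymm ?_ ?_
    · rintro _ ⟨⟨c, μ⟩, h, rfl⟩
      obtain ⟨⟨h1, h2⟩, h3, h4⟩ := GWj_mem.1 h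
      have z : ∀ {x}, x = 0 → j x = 0 := fun h => h ▸ map_zero j
      exact ⟨(GWj_mem (c := fun g => j (c g)) (μ := fun w => j (μ w))).2
        ⟨⟨⟨h1.1.map j S.ja, fun g hg => z (h1.2 g hg)⟩, fun w hw σ hσ => z (h2 w hw σ hσ)⟩,
          fun w hw g hg => (congrArg j (h3 w hw g hg)).trans (jc _ g hg.1),
          fun w hw => z (h4 w hw)⟩, Prod.ext (funext fun g => (S.ex' _).2 ⟨_, rfl⟩)
          (funext fun w => (S.ex' _).2 ⟨_, rfl⟩)⟩
    · rintro ⟨c, μ⟩ ⟨h, h5⟩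
      obtain ⟨h1, h3, h4⟩ := GWj_mem.1 h
      obtain ⟨c2, k1, k2⟩ := S.GWj_lift h1 (congrFun (congrArg Prod.fst h5))
      choose μ2 k3 using fun w => (S.ex' (μ w)).1 (congrFun (congrArg Prod.snd h5) w)
      exact ⟨(c2, μ2), GWj_mem.2 ⟨k1, fun w hw g hg => S.j_inj (by
        rw [jc _ g hg.1, k2, k3, h3 w hw g hg]), fun w hw => S.j_inj (by
        rw [k3, map_zero, h4 w hw])⟩, Prod.ext (funext k2) (funext k3)⟩
  have i : Function.Injective (AddMonoidHom.prodMap (j.compLeft Gam) (j.compLeft Plc)) :=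
    fun x y h => Prod.ext (funext fun g => S.j_inj (congrFun (congrArg Prod.fst h) g))
      (funext fun w => S.j_inj (congrFun (congrArg Prod.snd h) w))
  rw [card_map_inf (AddMonoidHom.prodMap (ε.compLeft Gam) (ε.compLeft Plc)) (Rs H a' s), ← e,
    AddSubgroup.card_map_of_injective i, mul_assoc, R0, SR,
    ← card_map_inf (AddMonoidHom.fst _ _) (imR H a' s ε), imR]

/-- The first obstruction: local invariants at the places of `s`. -/
theorem Step.card_KLift (S : Step n H a a' b a2 a2' b2 ι π j ε) (F : CFT) (hH : Op H) (hT : TC H)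
    {s : Finset Plc} (hs : Apart H s) (hg : GoodA H a s) [Finite (Zu H a2 s)] :
    Nat.card (Zu H a2 s) * Nat.card (R0 H a' s ε) ≤ 2 ^ s.card * Nat.card (KLift H a a2 s π) := by
  have S' := fun w : Plc => S.mono (inf_le_left : H ⊓ Dec w ≤ H)
  obtain ⟨P, hP⟩ : ∃ P : Zu H a2 s →+ (s → Z2) →+ ZMod (2 ^ 1),
      ∀ c x, P c x = ∑ v : s, x v * F.inv 1 H v (ob a ι π c) :=
    ⟨AddMonoidHom.mk' (fun c => AddMonoidHom.mk' (fun x => ∑ v : s, x v * F.inv 1 H v (ob a ι π c))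
      fun x y => by simp only [Pi.add_apply, add_mul, sum_add_distrib]) fun c c' =>
        AddMonoidHom.ext fun x => by
          simp only [AddMonoidHom.mk'_apply, AddMonoidHom.add_apply, ← sum_add_distrib, ← mul_add]
          exact sum_congr rfl fun v _ => congrArg _ ((S' v).inv_ob_add F hH
            (c.2.1.1.mono inf_le_left) (c'.2.1.1.mono inf_le_left)), fun _ _ => rfl⟩
  have h1 : ∀ c : P.ker, c.1.1 ∈ KLift H a a2 s π := by
    rintro ⟨⟨c, hc⟩, h0⟩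
    have c2 := S.ob_c2 hc.1.1
    obtain ⟨c₁, k1, k2⟩ := (S.ob_spl hc.1.1).1 (F.abhn hH c2 (Or.inl hT) fun w => by
      by_cases hw : Away H s w
      · exact (S' w).inv_ob_unr F hH (hc.1.1.mono inf_le_left) (hg w hw).2 (hc.2 w hw)
      · simp only [Away, not_forall, not_not] at hw
        obtain ⟨v, hv, g, hg, rfl⟩ := hw
        have := hP ⟨c, hc⟩ (Pi.single ⟨v, hv⟩ 1)
        rw [show P ⟨c, hc⟩ = 0 from h0, sum_eq_single ⟨v, hv⟩
          (fun u _ e => by rw [Pi.single_eq_of_ne e, zero_mul]) (by simp), Pi.single_eq_same,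
          one_mul] at this
        rw [F.inv_smul hH hT c2 hg, ← this]
        rfl)
    refine ⟨hc, rs H c₁, rs_mem_Z1 k1, funext fun g => ?_⟩
    change π (rs H c₁ g) = c g
    by_cases hg : g ∈ H
    · rw [rs_of_mem hg, k2 g hg]
    · rw [rs_of_notMem hg, map_zero, hc.1.2 g hg]
  have h2 : ∀ z : R0 H a' s ε, (fun v : s => z.1.2 v) ∈ P.flip.ker := by
    rintro ⟨_, ⟨⟨c', μ⟩, ⟨k1, k2, k3, -⟩, rfl⟩, k5⟩
    obtain ⟨c2, l1, l2⟩ := S.GWj_lift ⟨k1, k2⟩ (congrFun k5)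
    refine AddMonoidHom.ext fun c => (hP c _).trans ?_
    have := gw_recip F hH hT S.dual2 hs (S.good hg) c.2.1.1 l1.1.1 c.2.2 l1.2
    rw [sum_congr rfl fun w hw => (S' w).inv_ob_cup F hH (c.2.1.1.mono inf_le_left)
      fun g hg => (l2 g).trans (k3 w hw g hg), ← up_sum, up_eq_zero, ← sum_coe_sort] at this
    exact this
  have h3 : Nat.card (R0 H a' s ε) ≤ Nat.card P.flip.ker :=
    Nat.card_le_card_of_injective (fun z => ⟨_, h2 z⟩) fun z z' e => by
      refine Subtype.ext (Prod.ext (z.2.2.trans z'.2.2.symm) (funext fun w => ?_))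
      by_cases hw : w ∈ s
      · exact congrFun (congrArg Subtype.val e) ⟨w, hw⟩
      · have k : ∀ z : R0 H a' s ε, z.1.2 w = 0 := by
          rintro ⟨_, ⟨x, hx, rfl⟩, -⟩
          exact (congrArg ε (hx.2.2.2.1 w hw)).trans (map_zero ε)
        rw [k, k]
  have : Finite (KLift H a a2 s π) :=
    Finite.of_injective _ (AddSubgroup.inclusion_injective (inf_le_left : KLift H a a2 s π ≤ _))
  have h4 : Nat.card P.ker ≤ Nat.card (KLift H a a2 s π) :=
    Nat.card_le_card_of_injective (fun c => ⟨_, h1 c⟩) fun c c' e =>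
      Subtype.ext (Subtype.ext (Subtype.mk.inj e))
  refine (Nat.mul_le_mul_left _ h3).trans ((pair_card P).trans_le (Nat.mul_le_mul ?_ h4))
  simp

end Pool.Agent.Lib.MP_696deb_nt.B2
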