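import Pool.Agent.Lib.MP_696deb_nt.B2.GWg
import Pool.Agent.Lib.MP_696deb_nt.B2.GWi

/-! The global step, second half. -/

set_option autoImplicit false

open scoped NNReal Classical
open Finset

namespace Pool.Agent.Lib.MP_696deb_nt.B2

variable {M M' N N' : Type} [AddCommGroup M] [AddCommGroup M'] [AddCommGroup N] [AddCommGroup N']
  {n : ℕ} {H D : Subgroup Gam} {w : Plc} {a : Gam → M →+ M} {a' : Gam → M' →+ M'}
  {b : M →+ M' →+ ZMod (2 ^ (1 + n))} {a2 : Gam → N →+ N} {a2' : Gam → N' →+ N'}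
  {b2 : N →+ N' →+ ZMod (2 ^ (1 + n))} {ι : Z2 →+ M} {π : M →+ N} {j : N' →+ M'} {ε : M' →+ Z2}

/-- The local invariant at a place where only the bottom layer ramifies. -/
theorem Step.inv_ram (S : Step n (H ⊓ Dec w) a a' b a2 a2' b2 ι π j ε) (F : CFT) (hH : Op H)
    (hw : w.p ≠ 2) (L : LD H w) {τ : Gam} (hτ : TG H w τ) (k : ∀ σ ∈ H ⊓ Ine w, ∀ x, a σ x = x)
    {c : Gam → M} (h : Coc (H ⊓ Dec w) a c) (u : π (c τ) = 0) {c' : Gam → M'}
    (h' : Coc (H ⊓ Dec w) a' c') (u' : ∀ σ ∈ H ⊓ Ine w, c' σ = 0) :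
    F.inv (1 + n) H w (cupb b a' c c') = up n (Function.invFun ι (c τ) * ε (c' L.φ)) := by
  obtain ⟨κ, hκ⟩ := exists_kum (H := H ⊓ Dec w) 1 L.π_ne fun g hg => L.π_fx g hg.1
  obtain ⟨t, ht⟩ : ∃ t, t = Function.invFun ι (c τ) := ⟨_, rfl⟩
  have h1 : Coc (H ⊓ Dec w) tr fun g => t * κ g :=
    hκ.coc_tr.map (AddMonoidHom.mulLeft t) fun _ _ _ => rfl
  have h2 : Coc (H ⊓ Dec w) a fun g => ι (t * κ g) := h1.map ι fun g hg x => (S.aι g hg x).symm
  have h3 := h.sub h2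
  have h4 := hτ.unr h3 S.dual.pow_smul k (by
    rw [Pi.sub_apply, hτ.kum_unif hH hw L hκ, mul_one, ht, S.ι_invFun u, sub_self])
  have k' : ∀ σ ∈ H ⊓ Ine w, ∀ y, a' σ y = y := fun σ hσ =>
    S.dual.ine hw (fun σ hσ => k σ ⟨hσ.1.1, hσ.2⟩) σ ⟨⟨hσ.1, Ine_le w hσ.2⟩, hσ.2⟩
  have h5 := inv_cupb_add_left F hH S.dual h3 h2 h'
  rw [sub_add_cancel, inv_cupb_unr F hH S.dual k' h3 h' h4 u', zero_add, S.inv_cup_ι F hH h1 h',
    inv_tr_unr F hH hw L hτ h1 (h'.map ε fun g hg y => S.εa g hg y)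
      (fun σ hσ => by rw [u' σ hσ, map_zero]), hτ.kum_unif hH hw L hκ, mul_one] at h5
  rw [h5, ht]

/-- The second obstruction: ramification at auxiliary places. -/
theorem Step.card_Zu (S : Step n H a a' b a2 a2' b2 ι π j ε) [Finite M] [Finite M'] [Finite N]
    [Finite N'] (F : CFT) (su : SUStmt) (ch : ChebStmt) (hH : Op H) (hT : TC H) (hf : FinH H)
    {s : Finset Plc} (hs : Apart H s) (hg : GoodA H a s) :
    Nat.card (KLift H a a2 s π) * 2 ^ (H.index / 2 + s.card) * Nat.card (SR H a' s ε) ≤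
      Nat.card (Zu H a s) := by
  have f1 := finite_Zu hf S.dual s
  have f2 := finite_Zu hf S.dual2 s
  have f3 := hf s
  have f4 : Finite (KLift H a a2 s π) := Finite.Set.subset (Zu H a2 s) fun _ h => h.1
  have : Fintype (KLift H a a2 s π) := Fintype.ofFinite _
  choose lf l1 l2 using fun x : KLift H a a2 s π => AddSubgroup.mem_map.1 x.2.2
  choose B hB using fun x => (l1 x).1.finite_ram S.dual.act
  obtain ⟨s', s1, s2, s3, s4⟩ := exists_sep ch hH hs (univ.biUnion B) (Zu H tr s) fun _ h => h.1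
  have hg' := hg.mono s1
  have f5 := finite_Zu hf S.dual s'
  obtain ⟨K, hK⟩ : ∃ K, K = Zu H a s' ⊓ (Zu H a2 s).comap (π.compLeft Gam) := ⟨_, rfl⟩
  have mK : ∀ c, c ∈ K ↔ c ∈ Zu H a s' ∧ π.compLeft Gam c ∈ Zu H a2 s := fun c => by
    rw [hK]
    rfl
  have f6 : Finite K := Finite.Set.subset (Zu H a s') fun c h => ((mK c).1 h).1
  have c1 : Nat.card (KLift H a a2 s π) * 2 ^ (H.index / 2 + s'.card) ≤ Nat.card K := by
    have e : K ⊓ (π.compLeft Gam).ker = Zu H a s' ⊓ (π.compLeft Gam).ker :=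
      le_antisymm (fun c h => ⟨((mK c).1 h.1).1, h.2⟩) fun c h =>
        ⟨(mK c).2 ⟨h.1, by rw [AddMonoidHom.mem_ker.1 h.2]; exact zero_mem _⟩, h.2⟩
    have f7 : Finite (K.map (π.compLeft Gam)) :=
      Finite.Set.finite_image (K : Set (Gam → M)) (π.compLeft Gam)
    rw [card_map_inf (π.compLeft Gam) K, e, (S.card_ker_Zu s').1, mul_comm]
    refine Nat.mul_le_mul (su_card su hH hT hf s2 fun w hw => (hg' w hw).1)
      (AddSubgroup.card_le_of_le fun x hx => ⟨lf ⟨x, hx⟩, (mK _).2 ⟨⟨l1 _, fun w hw => ?_⟩, ?_⟩,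
        l2 _⟩)
    · exact hB _ w fun h => s3 w (mem_biUnion.2 ⟨_, mem_univ _, h⟩) hw
    · rw [l2]
      exact hx.1
  have aw : ∀ v : (s' \ s : Finset Plc), Away H s v := fun v =>
    s2.away s1 (mem_sdiff.1 v.2).1 (mem_sdiff.1 v.2).2
  choose τ hτ using fun v : (s' \ s : Finset Plc) => exists_TG hH (hg _ (aw v)).1
  have L : ∀ v : Plc, LD H v := fun v => (exists_LD hH v).some
  have p0 : ∀ c : K, ∀ v, π (c.1 (τ v)) = 0 := fun c v =>
    ((mK _).1 c.2).2.2 _ (aw v) _ (hτ v).1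
  let ram : K →+ ((s' \ s : Finset Plc) → Z2) := AddMonoidHom.mk'
    (fun c v => Function.invFun ι (c.1 (τ v))) fun c d => funext fun v =>
      S.invFun_add (p0 c v) (p0 d v)
  have c2 : Nat.card ram.ker ≤ Nat.card (Zu H a s) := by
    refine Nat.card_le_card_of_injective (fun c => ⟨c.1.1, ((mK _).1 c.1.2).1.1, fun w hw => ?_⟩)
      fun c d e => Subtype.ext (Subtype.ext (Subtype.mk.inj e))
    have hc := ((mK _).1 c.1.2).1
    by_cases h : Away H s' w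
    · exact hc.2 w h
    simp only [Away, not_forall, not_not] at h
    obtain ⟨v, hv, g, hgH, rfl⟩ := h
    have hv' : v ∈ s' \ s := mem_sdiff.2 ⟨hv, fun h => hw v h g hgH rfl⟩
    have k := (hg _ (aw ⟨v, hv'⟩)).2
    refine hc.1.1.unr_smul S.dual.act k
      ((hτ ⟨v, hv'⟩).unr (hc.1.1.mono inf_le_left) S.dual.pow_smul k ?_) hgH
    have e : Function.invFun ι (c.1.1 (τ ⟨v, hv'⟩)) = 0 := congrFun c.2 ⟨v, hv'⟩
    rw [← S.ι_invFun (p0 c.1 _), e, map_zero]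
  have mS : ∀ χ ∈ SR H a' s ε, ∃ z ∈ Rs H a' s, ε.compLeft Gam z.1 = χ := by
    rintro _ ⟨_, ⟨z, hz, rfl⟩, rfl⟩
    exact ⟨z, hz, rfl⟩
  have hS : SR H a' s ε ≤ Zu H tr s := fun χ h => by
    obtain ⟨z, hz, rfl⟩ := mS χ h
    exact ⟨⟨hz.1.1.map ε fun g hg y => S.εa g hg y, fun g hg => by
      simp [hz.1.2 g hg]⟩, fun w hw σ hσ => by simp [hz.2.1 w hw σ hσ]⟩
  let fr : SR H a' s ε →+ ((s' \ s : Finset Plc) → Z2) := AddMonoidHom.mk'
    (fun χ v => χ.1 (L v).φ) fun _ _ => rfl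
  have c3 : Nat.card (SR H a' s ε) = Nat.card fr.range := by
    refine Nat.card_congr (AddMonoidHom.ofInjective ((injective_iff_map_eq_zero fr).2
      fun χ h => Subtype.ext (s4 _ (hS χ.2) fun v h1 h2 => ?_))).toEquiv
    have hv : v ∈ s' \ s := mem_sdiff.2 ⟨h1, h2⟩
    exact (L v).unr_zero (act_tr _) ((hS χ.2).1.1.mono inf_le_left)
      ((hS χ.2).2 v (aw ⟨v, hv⟩)) (congrFun h ⟨v, hv⟩)
  have c4 := dot_card_le ram.range fr.range (by
    rintro _ ⟨c, rfl⟩ _ ⟨⟨χ, hχ⟩, rfl⟩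
    obtain ⟨z, hz, rfl⟩ := mS χ hχ
    have hc := ((mK _).1 c.2).1
    have r := gw_recip F hH hT S.dual s2 hg' hc.1.1 hz.1.1 hc.2
      fun w hw => hz.2.1 w fun v hv => hw v (s1 hv)
    rw [← sum_sdiff s1, sum_eq_zero (s := s) fun w hw => inv_cupb_right F hH
      (S.dual.mono inf_le_left) (hc.1.1.mono inf_le_left) (hz.2.2.1 w hw), add_zero,
      ← sum_coe_sort, sum_congr rfl fun v _ => (S.mono inf_le_left).inv_ram F hH (hg _ (aw v)).1
        (L v) (hτ v) (hg _ (aw v)).2 (hc.1.1.mono inf_le_left) (p0 c v) (hz.1.1.mono inf_le_left)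
        (hz.2.1 _ (aw v)), ← up_sum, up_eq_zero] at r
    exact r)
  rw [Fintype.card_coe, ← c3] at c4
  rw [card_ker_range ram, ← card_sdiff_add_card_eq_card s1] at c1
  refine Nat.le_of_mul_le_mul_right ?_ (Nat.two_pow_pos (s' \ s).card)
  calc _ = Nat.card (KLift H a a2 s π) * 2 ^ (H.index / 2 + ((s' \ s).card + s.card)) *
        Nat.card (SR H a' s ε) := by ring
    _ ≤ Nat.card (Zu H a s) * Nat.card ram.range * Nat.card (SR H a' s ε) :=
      Nat.mul_le_mul_right _ (c1.trans (Nat.mul_le_mul_right _ c2))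
    _ ≤ _ := by
      rw [mul_assoc]
      exact Nat.mul_le_mul_left _ c4

end Pool.Agent.Lib.MP_696deb_nt.B2
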