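import Pool.Agent.Lib.MP_696deb_nt.B2.GWb
import Pool.Agent.Lib.MP_696deb_nt.B2.GWh
import Pool.Agent.Lib.MP_696deb_nt.B2.GWj
import Pool.Agent.Lib.MP_696deb_nt.B2.GWk
import Pool.Agent.Lib.MP_696deb_nt.B2.GWl

/-! Global duality. -/

set_option autoImplicit false

open scoped NNReal Classical
open Finset

namespace Pool.Agent.Lib.MP_696deb_nt.B2

variable {M M' : Type} [AddCommGroup M] [AddCommGroup M'] {m : ℕ} {H D : Subgroup Gam} {w : Plc}
  {a : Gam → M →+ M} {a' : Gam → M' →+ M'} {b : M →+ M' →+ ZMod (2 ^ m)} {c c₁ : Gam → M}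
  {c' c₁' : Gam → M'}

theorem GWm_triv [Subsingleton M] [Subsingleton M'] (s : Finset Plc) (k : ℕ) :
    Nat.card (Rs H a' s) * Nat.card M ^ k ≤ Nat.card (Zu H a s) := by
  rw [Nat.card_of_subsingleton (0 : Rs H a' s), Nat.card_of_subsingleton (0 : M),
    Nat.card_of_subsingleton (0 : Zu H a s), one_pow, one_mul]

/-- The basic inequality. -/
theorem gw_ineq (F : CFT) (su : SUStmt) (ch : ChebStmt) (hH : Op H) (hT : TC H) (hf : FinH H)
    [Finite M] [Finite M'] (hd : Dual m H a a' b) {s : Finset Plc} (hs : Apart H s)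
    (hg : GoodA H a s) :
    Nat.card (Rs H a' s) * Nat.card M ^ (H.index / 2) ≤ Nat.card (Zu H a s) := by
  rcases Nat.eq_zero_or_pos m with rfl | hm
  · have := hd.subsingleton_zero
    have := hd.flip.subsingleton_zero
    exact GWm_triv s _
  obtain ⟨n, rfl⟩ := Nat.exists_eq_add_of_le hm
  refine dual_ind (H := H) (n := n) (P := fun M M' _ _ a a' _ => GoodA H a s →
    Nat.card (Rs H a' s) * Nat.card M ^ (H.index / 2) ≤ Nat.card (Zu H a s))
    (fun M M' _ _ _ _ a a' _ _ => GWm_triv s _) ?_ M M' a a' b hd hg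
  intro M M' N N' _ _ _ _ _ _ _ _ a a' b a2 a2' b2 ι π j ε S ih hg
  have f := finite_Zu hf S.dual2 s
  have h1 := ih (S.good hg)
  have h2 := S.card_KLift F hH hT hs hg
  have h3 := S.card_Zu F su ch hH hT hf hs hg
  rw [S.card_Rs, S.card]
  calc _ = Nat.card (Rs H a2' s) * Nat.card N ^ (H.index / 2) * Nat.card (R0 H a' s ε) *
        (Nat.card (SR H a' s ε) * 2 ^ (H.index / 2)) := by ring
    _ ≤ Nat.card (Zu H a2 s) * Nat.card (R0 H a' s ε) *
        (Nat.card (SR H a' s ε) * 2 ^ (H.index / 2)) := by gcongr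
    _ ≤ 2 ^ s.card * Nat.card (KLift H a a2 s π) *
        (Nat.card (SR H a' s ε) * 2 ^ (H.index / 2)) := by gcongr
    _ = Nat.card (KLift H a a2 s π) * 2 ^ (H.index / 2 + s.card) * Nat.card (SR H a' s ε) := by
        ring
    _ ≤ _ := h3

/-- Localisation. -/
noncomputable def GWm_loc (H : Subgroup Gam) (a : Gam → M →+ M) (s : Finset Plc) (w : Plc) :
    Zu H a s →+ Z1 (H ⊓ Dec w) a :=
  ((rs (H ⊓ Dec w)).comp (Zu H a s).subtype).codRestrict _ fun z =>
    rs_mem_Z1 (z.2.1.1.mono inf_le_left)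

theorem GWm_card (s : Finset Plc) (U : Plc → AddSubgroup (Gam → M))
    (W : ∀ i : s, AddSubgroup (Z1 (H ⊓ Dec i.1) a)) (h : ∀ i c, c ∈ W i ↔ c.1 ∈ U i.1) :
    Nat.card {z // ∀ i : s, GWm_loc H a s i.1 z ∈ W i} = Nat.card (Zc H a s U) :=
  Nat.card_congr
    { toFun := fun z => ⟨z.1.1, mem_Zc.2 ⟨z.1.2, fun w hw => (h ⟨w, hw⟩ _).1 (z.2 ⟨w, hw⟩)⟩⟩
      invFun := fun z => ⟨⟨z.1, (mem_Zc.1 z.2).1⟩, fun i => (h i _).2 ((mem_Zc.1 z.2).2 i.1 i.2)⟩
      left_inv := fun _ => rfl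
      right_inv := fun _ => rfl }

theorem GWm_arith {μ c c' h h' z z' v' β β' s d k : ℕ} (hμ : 0 < μ) (hh' : 0 < h') (hz : 0 < z)
    (hz' : 0 < z') (i1 : c' * h' * μ ^ k ≤ z) (i2 : c * h * μ ^ k ≤ z') (e1 : v' = μ ^ (s + d) * h)
    (e2 : h' * β' = μ ^ s) (e3 : v' * β = μ ^ (2 * s + d)) (hd : d ≤ 2 * k) :
    c * c' * v' ≤ z * z' * β' ∧ (c * c' * v' = z * z' * β' → ∀ x y u : ℕ,
      x * (v' * β * c') = z * u * y * β' → x * μ ^ (s + k) = y * u) := by
  have a1 : c * c' * v' * h' ≤ c' * h' * μ ^ k * (c * h * μ ^ k) * μ ^ s := by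
    calc _ = c * c' * h * h' * μ ^ s * μ ^ d := by rw [e1]; ring
      _ ≤ c * c' * h * h' * μ ^ s * μ ^ (2 * k) := by gcongr
      _ = _ := by ring
  have a2 : c' * h' * μ ^ k * (c * h * μ ^ k) * μ ^ s ≤ z * z' * μ ^ s := by gcongr
  have a3 : z * z' * μ ^ s = z * z' * β' * h' := by rw [← e2]; ring
  refine ⟨Nat.le_of_mul_le_mul_right (a1.trans (a2.trans a3.le)) hh', fun e x y u e' => ?_⟩
  have b1 : c * c' * v' * h' = c' * h' * μ ^ k * (c * h * μ ^ k) * μ ^ s :=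
    le_antisymm a1 (by rw [e, ← a3]; exact a2)
  have b2 : c' * h' * μ ^ k * (c * h * μ ^ k) = z * z' :=
    Nat.eq_of_mul_eq_mul_right (pow_pos hμ s) (by rw [← b1, e, a3])
  have b3 : c' * h' * μ ^ k = z := by
    refine le_antisymm i1 (Nat.le_of_mul_le_mul_right ?_ hz')
    rw [← b2]
    gcongr
  have b4 : 0 < c * c' * h * h' * μ ^ s := by
    have : 0 < c' * h' * μ ^ k * (c * h * μ ^ k) := by rw [b2]; positivity
    simp only [CanonicallyOrderedAdd.mul_pos] at this ⊢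
    exact ⟨⟨⟨⟨this.2.1.1, this.1.1.1⟩, this.2.1.2⟩, hh'⟩, pow_pos hμ s⟩
  have b5 : μ ^ d = μ ^ (2 * k) := by
    refine Nat.eq_of_mul_eq_mul_left b4 ?_
    calc _ = c * c' * v' * h' := by rw [e1]; ring
      _ = _ := by rw [b1]; ring
  have b6 : 0 < c' := by
    rw [← b3] at hz
    exact Nat.pos_of_mul_pos_right (Nat.pos_of_mul_pos_right hz)
  refine Nat.eq_of_mul_eq_mul_right (mul_pos b6 (pow_pos hμ (s + k))) ?_
  calc _ = x * (μ ^ (2 * s) * μ ^ (2 * k) * c') := by ring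
    _ = x * (v' * β * c') := by rw [e3, pow_add, b5]
    _ = c' * μ ^ k * u * y * (h' * β') := by rw [e', ← b3]; ring
    _ = _ := by rw [e2]; ring

/-- The formula for classical local conditions at all places. -/
theorem gw_core (F : CFT) (su : SUStmt) (ch : ChebStmt) (hH : Op H) (hT : TC H) (hf : FinH H)
    [Finite M] [Finite M'] (hd : Dual m H a a' b) {s : Finset Plc} (hs : Apart H s)
    (hg : GoodA H a s) {U : Plc → AddSubgroup (Gam → M)} {U' : Plc → AddSubgroup (Gam → M')}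
    (hU : ∀ w ∈ s, LocC H w a (U w)) (hU' : ∀ w ∈ s, (U' w : Set (Gam → M')) = Perp F m H w a' b (U w)) :
    Nat.card (Zc H a s U) * Nat.card M ^ (s.card + H.index / 2) =
      Nat.card (Zc H a' s U') * ∏ w ∈ s, Nat.card (U w) := by
  have hl : ∀ w, Dual m (H ⊓ Dec w) a a' b := fun w => hd.mono inf_le_left
  have f1 := finite_Zu hf hd s
  have f2 := finite_Zu hf hd.flip s
  have f3 : ∀ i : s, Finite (Z1 (H ⊓ Dec i.1) a) := fun i => (ld_core F hH (hl i)).1
  have f4 : ∀ i : s, Finite (Z1 (H ⊓ Dec i.1) a') := fun i => (ld_core F hH (hl i).flip).1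
  choose p hp using fun w => exists_lp F hH (hl w)
  have k1 := fun w => (lp_ker F hH (hl w) (hp w)).1
  have k2 := fun w => (lp_ker F hH (hl w) (hp w)).2
  have c1 : Nat.card {z // ∀ i : s, GWm_loc H a s i.1 z ∈ (p i.1).ker} =
      Nat.card (Zc H a s fun w => B1 (H ⊓ Dec w) a) :=
    GWm_card s _ _ fun i c => by rw [k1]; rfl
  have c2 : Nat.card {z // ∀ i : s, GWm_loc H a' s i.1 z ∈ (p i.1).flip.ker} =
      Nat.card (Zc H a' s fun w => B1 (H ⊓ Dec w) a') :=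
    GWm_card s _ _ fun i c => by rw [k2]; rfl
  have c3 : ∏ i : s, Nat.card (p i.1).ker = ∏ w ∈ s, Nat.card (B1 (H ⊓ Dec w) a) := by
    rw [← prod_coe_sort s]
    refine prod_congr rfl fun i _ => ?_
    rw [k1]
    exact Nat.card_congr (AddSubgroup.addSubgroupOfEquivOfLe (B1_le (hl i).act)).toEquiv
  have c4 : ∏ i : s, Nat.card (p i.1).flip.ker = ∏ w ∈ s, Nat.card (B1 (H ⊓ Dec w) a') := by
    rw [← prod_coe_sort s]
    refine prod_congr rfl fun i _ => ?_
    rw [k2]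
    exact Nat.card_congr (AddSubgroup.addSubgroupOfEquivOfLe (B1_le (hl i).act')).toEquiv
  have c5 : ∏ i : s, Nat.card (Z1 (H ⊓ Dec i.1) a') = ∏ w ∈ s, Nat.card (Z1 (H ⊓ Dec w) a') :=
    prod_coe_sort s fun w => Nat.card (Z1 (H ⊓ Dec w) a')
  have i1 := gw_ineq F su ch hH hT hf hd hs hg
  have i2 := gw_ineq F su ch hH hT hf hd.flip hs (hg.dual hd)
  rw [card_Rs] at i1 i2
  rw [hd.card_eq] at i2
  have ar := GWm_arith (μ := Nat.card M) (s := s.card) (d := ∑ w ∈ s, ldeg H w)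
    (v' := ∏ w ∈ s, Nat.card (Z1 (H ⊓ Dec w) a')) (β := ∏ w ∈ s, Nat.card (B1 (H ⊓ Dec w) a))
    (β' := ∏ w ∈ s, Nat.card (B1 (H ⊓ Dec w) a')) Nat.card_pos
    (prod_pos fun _ _ => Nat.card_pos) Nat.card_pos Nat.card_pos i1 i2
    (by
      rw [card_eq_sum_ones, ← sum_add_distrib, ← prod_pow_eq_pow_sum, ← prod_mul_distrib]
      exact prod_congr rfl fun w _ => by rw [(ld_core F hH (hl w).flip).2.1, hd.card_eq])
    (by
      rw [← prod_mul_distrib, ← prod_const]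
      exact prod_congr rfl fun w _ => by rw [card_H0_B1, hd.card_eq])
    (by
      rw [card_eq_sum_ones, mul_sum, ← sum_add_distrib, ← prod_pow_eq_pow_sum, ← prod_mul_distrib]
      exact prod_congr rfl fun w _ => card_Z1_B1 F hH (hl w))
    (by
      rw [Nat.two_mul_div_two_of_even (even_index hH hT)]
      exact sum_ldeg_le hH hs)
  have pt := pt_pi (ι := s) (V := fun i => Z1 (H ⊓ Dec i.1) a) (V' := fun i => Z1 (H ⊓ Dec i.1) a')
    (fun i => p i.1) (fun i => GWm_loc H a s i.1) (fun i => GWm_loc H a' s i.1)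
    (fun z z' => by
      rw [← gw_recip F hH hT hd hs hg z.2.1.1 z'.2.1.1 z.2.2 z'.2.2, ← sum_coe_sort s]
      exact sum_congr rfl fun i _ => (hp _ _ _).trans (inv_cupb_rs F))
    (by rw [c1, c2, c4, c5]; exact ar.1)
  have p2 := pt.2 (fun i => (U i.1).addSubgroupOf _) fun i => by
    rw [k1]
    rintro c ⟨x, hx⟩
    rw [AddSubgroup.mem_addSubgroupOf, ← show rs (H ⊓ Dec i.1) (cob a x) = c.1 from hx]
    exact (hU _ i.2).2 x
  have c6 : ∏ i : s, Nat.card ((U i.1).addSubgroupOf (Z1 (H ⊓ Dec i.1) a)) =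
      ∏ w ∈ s, Nat.card (U w) := by
    rw [← prod_coe_sort s]
    exact prod_congr rfl fun i _ =>
      Nat.card_congr (AddSubgroup.addSubgroupOfEquivOfLe (hU _ i.2).1).toEquiv
  have c7 : Nat.card {z // ∀ i : s, GWm_loc H a' s i.1 z ∈
      ann (p i.1) ((U i.1).addSubgroupOf _)} = Nat.card (Zc H a' s U') :=
    GWm_card s _ _ fun i c => by
      rw [← SetLike.mem_coe (p := U' i.1), hU' _ i.2]
      exact ⟨fun h => ⟨c.2, fun x hx => by rw [← hp _ ⟨x, (hU _ i.2).1 hx⟩]; exact h _ hx⟩,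
        fun h x hx => by rw [hp]; exact h.2 _ hx⟩
  have p1 := pt.1
  rw [c1, c2, c4, c5] at p1
  rw [GWm_card s U _ fun _ _ => Iff.rfl, c2, c3, c4, c5, c6, c7] at p2
  exact ar.2 p1 _ _ _ p2

end Pool.Agent.Lib.MP_696deb_nt.B2
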