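import Pool.Agent.Lib.MP_696deb_nt.B2.GWm

/-! The formula of Greenberg and Wiles. -/

set_option autoImplicit false

open scoped NNReal Classical
open Finset

namespace Pool.Agent.Lib.MP_696deb_nt.B2

variable {M M' : Type} [AddCommGroup M] [AddCommGroup M'] {m : ℕ} {H D : Subgroup Gam} {w : Plc}
  {a : Gam → M →+ M} {a' : Gam → M' →+ M'} {b : M →+ M' →+ ZMod (2 ^ m)} {c c₁ : Gam → M}
  {c' c₁' : Gam → M'}

theorem MaxIso.perp {F : CFT} (hH : Op H) [Finite M] [Finite M'] (hd : Dual m (H ⊓ Dec w) a a' b)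
    {L : AddSubgroup (Gam → M)} {L' : AddSubgroup (Gam → M')} (h : MaxIso F m H w a a' b L L') :
    (L' : Set (Gam → M')) = Perp F m H w a' b L := by
  obtain ⟨f1, e⟩ := ld F m H w M M' a a' b L hH hd h.loc
  have f2 := (ld_core F hH hd.flip).1
  have f3 : Finite L := Finite.of_injective _ (AddSubgroup.inclusion_injective h.loc.1)
  have f4 : (Perp F m H w a' b L).Finite :=
    Set.Finite.subset (s := (Z1 (H ⊓ Dec w) a' : Set (Gam → M'))) f2 fun _ k => k.1
  refine Set.eq_of_subset_of_ncard_le (fun c' k => ⟨h.loc'.1 k, fun c l => h.iso c l c' k⟩) ?_ f4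
  exact Nat.le_of_mul_le_mul_left (e.le.trans h.big) Nat.card_pos

theorem perp_B1 (F : CFT) (hH : Op H) (hd : Dual m (H ⊓ Dec w) a a' b) :
    (Z1 (H ⊓ Dec w) a' : Set (Gam → M')) = Perp F m H w a' b (B1 (H ⊓ Dec w) a) := by
  refine Set.Subset.antisymm (fun c' k => ⟨k, ?_⟩) fun _ k => k.1
  rintro _ ⟨x, rfl⟩
  exact inv_cupb_left F hH hd (x := x) (fun g hg => rs_of_mem hg _) k.1

theorem perp_Z1 (F : CFT) (hH : Op H) [Finite M] [Finite M'] (hd : Dual m (H ⊓ Dec w) a a' b) :
    (B1 (H ⊓ Dec w) a' : Set (Gam → M')) = Perp F m H w a' b (Z1 (H ⊓ Dec w) a) := by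
  refine Set.Subset.antisymm ?_ fun c' k => ?_
  · rintro _ ⟨y, rfl⟩
    exact ⟨B1_le hd.act' ⟨y, rfl⟩, fun c l =>
      inv_cupb_right F hH hd l.1 (y := y) fun g hg => rs_of_mem hg _⟩
  · have := rs_mem_B1.2 ((ld_core F hH hd.flip).2.2 c' k.1.1 fun c l => by
      rw [inv_cupb_flip F hH hd l k.1.1, neg_eq_zero, ← k.2 _ (rs_mem_Z1 l)]
      exact inv_cupb_congr F (fun g hg => (rs_of_mem hg _).symm) fun _ _ => rfl)
    rwa [rs_eq_self k.1] at this

/-- The formula of Greenberg and Wiles. -/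
theorem gw_fin (F : CFT) (su : SUStmt) (ch : ChebStmt) [Finite M] [Finite M'] {s R X T : Finset Plc}
    {L : Plc → AddSubgroup (Gam → M)} {L' : Plc → AddSubgroup (Gam → M')} (hH : Op H) (hT : TC H)
    (hf : FinH H) (hd : Dual m H a a' b) (hs : Apart H s) (e : s = R ∪ X ∪ T) (d1 : Disjoint R X)
    (d2 : Disjoint R T) (d3 : Disjoint X T) (ho : ∀ w ∈ R ∪ X, w.p ≠ 2) (hg : GoodA H a s)
    (hL : ∀ w ∈ T, MaxIso F m H w a a' b (L w) (L' w)) :
    Finite (Sel H a s R T L) ∧
      Nat.card (Sel H a s R T L) * Nat.card M ^ (T.card + H.index / 2) =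
        Nat.card (Sel H a' s X T L') * ∏ w ∈ T, Nat.card (L w) := by
  have hl : ∀ w, Dual m (H ⊓ Dec w) a a' b := fun w => hd.mono inf_le_left
  have sR : R ⊆ s := e ▸ subset_union_left.trans subset_union_left
  have sX : X ⊆ s := e ▸ subset_union_right.trans subset_union_left
  have sT : T ⊆ s := e ▸ subset_union_right
  have RX : ∀ w ∈ X, w ∉ R := fun w k l => disjoint_left.1 d1 l k
  have RT : ∀ w ∈ T, w ∉ R := fun w k l => disjoint_left.1 d2 l k
  have XT : ∀ w ∈ T, w ∉ X := fun w k l => disjoint_left.1 d3 l k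
  have k0 := gw_core F su ch hH hT hf hd hs hg
    (U := fun w => if w ∈ R then B1 (H ⊓ Dec w) a else if w ∈ T then L w else Z1 (H ⊓ Dec w) a)
    (U' := fun w =>
      if w ∈ X then B1 (H ⊓ Dec w) a' else if w ∈ T then L' w else Z1 (H ⊓ Dec w) a')
    (fun w _ => by
      split_ifs with k l
      · exact ⟨B1_le (hl w).act, fun x => ⟨x, rfl⟩⟩
      · exact (hL w l).loc
      · exact ⟨le_rfl, fun x => rs_mem_Z1 (cob_coc (hl w).act x)⟩)
    (fun w hw => by
      rw [e, mem_union, mem_union] at hw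
      rcases hw with (k | k) | k
      · rw [if_pos k, if_neg fun l => RX w l k, if_neg fun l => RT w l k]
        exact perp_B1 F hH (hl w)
      · rw [if_pos k, if_neg (RX w k), if_neg fun l => XT w l k]
        exact perp_Z1 F hH (hl w)
      · rw [if_neg (RT w k), if_neg (XT w k), if_pos k, if_pos k]
        exact (hL w k).perp hH (hl w))
  have k1 := card_Sel H a sR sT d2 L
  have k2 := card_Sel H a' sX sT d3 L'
  rw [Zc_congr (U' := fun w => if w ∈ R then B1 (H ⊓ Dec w) a else if w ∈ T then L w else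
    Z1 (H ⊓ Dec w) a) fun w _ => by split_ifs <;> simp] at k1
  rw [Zc_congr (U' := fun w => if w ∈ X then B1 (H ⊓ Dec w) a' else if w ∈ T then L' w else
    Z1 (H ⊓ Dec w) a') fun w _ => by split_ifs <;> simp] at k2
  have dd : Disjoint (R ∪ X) T := disjoint_union_left.2 ⟨d2, d3⟩
  have k3 : ∏ w ∈ s, Nat.card (if w ∈ R then B1 (H ⊓ Dec w) a else if w ∈ T then L w else
      Z1 (H ⊓ Dec w) a : AddSubgroup (Gam → M)) = (∏ w ∈ R, Nat.card (B1 (H ⊓ Dec w) a)) *
        (Nat.card M ^ X.card * ∏ w ∈ X, Nat.card (H0 (H ⊓ Dec w) a')) *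
        ∏ w ∈ T, Nat.card (L w) := by
    rw [e, prod_union dd, prod_union d1, ← prod_const, ← prod_mul_distrib]
    congr 1
    · congr 1
      · exact prod_congr rfl fun w k => by rw [if_pos k]
      · refine prod_congr rfl fun w k => ?_
        rw [if_neg (RX w k), if_neg fun l => XT w l k, (ld_core F hH (hl w)).2.1, ldeg,
          if_neg (ho w (mem_union_right _ k)), add_zero, pow_one]
    · exact prod_congr rfl fun w k => by rw [if_neg (RT w k), if_pos k]
  have k4 : (∏ w ∈ R, Nat.card (H0 (H ⊓ Dec w) a)) * ∏ w ∈ R, Nat.card (B1 (H ⊓ Dec w) a) =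
      Nat.card M ^ R.card := by
    rw [← prod_mul_distrib, ← prod_const]
    exact prod_congr rfl fun w _ => card_H0_B1 _ _
  have k5 : s.card = R.card + X.card + T.card := by
    rw [e, card_union_of_disjoint dd, card_union_of_disjoint d1]
  have f1 := finite_Zu hf hd s
  rw [k3, k5] at k0
  constructor
  · refine Nat.finite_of_card_ne_zero ?_
    rw [k1]
    refine mul_ne_zero ?_ (prod_ne_zero_iff.2 fun w _ => Nat.card_pos.ne')
    have f2 : ∀ U, Finite (Zc H a s U) := fun U => Finite.of_injective _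
      (AddSubgroup.inclusion_injective (show Zc H a s U ≤ Zu H a s from inf_le_left))
    exact Nat.card_pos.ne'
  · refine Nat.eq_of_mul_eq_mul_left (pow_pos (Nat.card_pos (α := M)) (R.card + X.card)) ?_
    rw [k1, k2]
    generalize Nat.card (Zc H a s _) = z at k0
    generalize Nat.card (Zc H a' s _) = z' at k0
    calc _ = z * Nat.card M ^ (R.card + X.card + T.card + H.index / 2) *
          ∏ w ∈ R, Nat.card (H0 (H ⊓ Dec w) a) := by ring
      _ = _ := by rw [k0, pow_add, ← k4]; ring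

end Pool.Agent.Lib.MP_696deb_nt.B2
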