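import Pool.Agent.Lib.MP_696deb_nt.B2.GWg

/-! Deep places. -/

set_option autoImplicit false

open scoped NNReal Classical
open Finset

namespace Pool.Agent.Lib.MP_696deb_nt.B2

variable {M M' : Type} [AddCommGroup M] [AddCommGroup M'] {m : ℕ} {H D : Subgroup Gam} {w : Plc}
  {a : Gam → M →+ M} {a' : Gam → M' →+ M'} {b : M →+ M' →+ ZMod (2 ^ m)} {c c₁ : Gam → M}
  {c' c₁' : Gam → M'}

theorem GWo_zeta (n k : ℕ) : zeta (n + k) ^ 2 ^ k = zeta n := by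
  induction k with
  | zero => simp
  | succ k ih => rw [pow_succ', pow_mul, ← add_assoc, zeta_succ_sq, ih]

theorem GWo_cast {n : ℕ} (h : n ≤ m) (t : ZMod (2 ^ m)) :
    ZMod.castHom (pow_dvd_pow 2 h) (ZMod (2 ^ n)) t = (t.val : ZMod (2 ^ n)) := by
  rw [ZMod.castHom_apply, ZMod.natCast_val]

theorem GWo_red {n : ℕ} (h : n ≤ m) {x : Qbar} {κ : Gam → ZMod (2 ^ m)} (hκ : Kum m D x κ) :
    Kum n D x fun g => ZMod.castHom (pow_dvd_pow 2 h) (ZMod (2 ^ n)) (κ g) := by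
  obtain ⟨k, rfl⟩ := Nat.exists_eq_add_of_le h
  obtain ⟨r, r0, hr, h1⟩ := hκ
  refine ⟨r ^ 2 ^ k, pow_ne_zero _ r0, by rw [← pow_mul, ← pow_add, add_comm k n, hr],
    fun g hg => ?_⟩
  beta_reduce
  rw [map_pow, h1 g hg, mul_pow, GWo_cast h, b1b_zeta_cast, ← pow_mul, mul_comm (κ g).val, pow_mul,
    GWo_zeta]

theorem GWo_unit {t : ZMod (2 ^ m)}
    (h : ∀ k : 1 ≤ m, ZMod.castHom (pow_dvd_pow 2 k) (ZMod (2 ^ 1)) t = 1) : IsUnit t := by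
  rcases Nat.eq_zero_or_pos m with rfl | hm
  · have : Subsingleton (ZMod (2 ^ 0)) := inferInstanceAs (Subsingleton (ZMod 1))
    exact isUnit_of_subsingleton t
  · have h1 := h hm
    rw [GWo_cast hm] at h1
    have h2 : t.val % 2 = 1 := by
      have h3 := (ZMod.natCast_eq_natCast_iff' t.val 1 (2 ^ 1)).1 (by rw [h1, Nat.cast_one])
      simpa using h3
    rw [← ZMod.natCast_zmod_val t, ZMod.isUnit_iff_coprime]
    exact Nat.Coprime.pow_right _ (Nat.coprime_two_right.2 (Nat.odd_iff.2 h2))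

theorem GWo_cy (hc : ∀ g ∈ D, cy (m + 1) g = 1) : ∀ g ∈ D, cy m g = 1 := fun g hg => by
  have h := congrArg (ZMod.castHom (pow_dvd_pow 2 (Nat.le_succ m)) (ZMod (2 ^ m))) (hc g hg)
  rw [map_one] at h
  rw [← h]
  exact (DFunLike.congr_fun (PadicInt.zmod_cast_comp_toZModPow m (m + 1) (Nat.le_succ m))
    (cyc g)).symm

theorem GWo_hom {x : Qbar} {κ : Gam → ZMod (2 ^ m)} (hκ : Kum m D x κ)
    (hc : ∀ g ∈ D, cy m g = 1) : IsHom D κ := fun g hg k hk => by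
  rw [hκ.coc g hg k hk, hc g hg, one_mul]

theorem GWo_act (ha : ∀ g ∈ D, ∀ x, a g x = x) : Act D a where
  sm := (Sm.const (AddMonoidHom.id M)).congr fun g hg => AddMonoidHom.ext fun x => (ha g hg x).symm
  one := ha 1 (one_mem _)
  mul := fun g hg h hh x => by rw [ha _ (mul_mem hg hh), ha g hg, ha h hh]
  two := fun g hg => ⟨0, ha _ (pow_mem hg _)⟩

theorem GWo_ine (L : LD H w) {φ : Gam} (hφ : φ ∈ H) (hφ' : IsFrob w (w.p ^ L.f) φ) :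
    L.φ⁻¹ * φ ∈ H ⊓ Ine w :=
  ⟨H.mul_mem (H.inv_mem L.φ_mem) hφ, L.frob.inv_mul_mem hφ'⟩

theorem GWo_le {σ : Gam} (h : σ ∈ H ⊓ Ine w) : σ ∈ H ⊓ Dec w := ⟨h.1, Ine_le w h.2⟩

theorem GWo_om (L : LD H w) {φ : Gam} (hφ : φ ∈ H) (hφ' : IsFrob w (w.p ^ L.f) φ) :
    L.om m φ = 1 := by
  have h := L.om_hom m _ L.φ_mem' _ (GWo_le (GWo_ine L hφ hφ'))
  rw [mul_inv_cancel_left, L.om_ine m (GWo_ine L hφ hφ'), L.om_φ, add_zero] at h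
  exact h

theorem GWo_uniq (L : LD H w) {τ φ : Gam} (hτ : TG H w τ) (hφ : φ ∈ H)
    (hφ' : IsFrob w (w.p ^ L.f) φ) (hm : ∀ x : M, 2 ^ m • x = 0)
    (ha : ∀ g ∈ H ⊓ Dec w, ∀ x, a g x = x) (h : Coc (H ⊓ Dec w) a c) (h1 : c φ = 0)
    (h2 : c τ = 0) : ∀ g ∈ H ⊓ Dec w, c g = 0 := by
  have u := hτ.unr h hm (fun σ hσ => ha σ (GWo_le hσ)) h2
  refine L.unr_zero (GWo_act ha) h u ?_
  have h3 := h.2 _ L.φ_mem' _ (GWo_le (GWo_ine L hφ hφ'))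
  rw [mul_inv_cancel_left, u _ (GWo_ine L hφ hφ'), map_zero, add_zero] at h3
  rw [← h3, h1]

theorem GWo_coc [Module (ZMod (2 ^ m)) M] (ha : ∀ g ∈ D, ∀ x, a g x = x)
    {χ κ : Gam → ZMod (2 ^ m)} (h1 : Sm D χ) (h2 : IsHom D χ) (h3 : Sm D κ) (h4 : IsHom D κ)
    (x y : M) : Coc D a fun g => χ g • x + κ g • y := by
  refine ⟨h1.comp₂ h3 fun s t => s • x + t • y, fun g hg k hk => ?_⟩
  beta_reduce
  rw [ha g hg, h2 g hg k hk, h4 g hg k hk, add_smul, add_smul]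
  abel

theorem GWo_tau (hH : Op H) (hw : w.p ≠ 2) (L : LD H w) {τ : Gam} (hτ : TG H w τ)
    {κ : Gam → ZMod (2 ^ m)} (hκ : Kum m (H ⊓ Dec w) L.π κ) : IsUnit (κ τ) :=
  GWo_unit fun k => hτ.kum_unif hH hw L (GWo_red k hκ)

theorem GWo_fx (L : LD H w) : Fx (H ⊓ Dec w) L.π := fun g hg => L.π_fx g hg.1

/-- At a deep place a cocycle is a free choice of two values. -/
theorem Z1_deep (hH : Op H) (hw : w.p ≠ 2) (L : LD H w) {τ φ : Gam} (hτ : TG H w τ) (hφ : φ ∈ H)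
    (hφ' : IsFrob w (w.p ^ L.f) φ) (hm : ∀ x : M, 2 ^ m • x = 0)
    (ha : ∀ g ∈ H ⊓ Dec w, ∀ x, a g x = x) (hc : ∀ g ∈ H ⊓ Dec w, cy m g = 1) :
    (∀ x y : M, ∃ c ∈ Z1 (H ⊓ Dec w) a, c φ = x ∧ c τ = y) ∧
      ∀ c, Coc (H ⊓ Dec w) a c → c φ = 0 → c τ = 0 → ∀ g ∈ H ⊓ Dec w, c g = 0 := by
  refine ⟨fun x y => ?_, fun c h h1 h2 => GWo_uniq L hτ hφ hφ' hm ha h h1 h2⟩
  let _ : Module (ZMod (2 ^ m)) M := AddCommGroup.zmodModule hm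
  obtain ⟨κ, hκ⟩ := exists_kum m L.π_ne (GWo_fx L)
  obtain ⟨t, ht⟩ := GWo_tau hH hw L hτ hκ
  refine ⟨_, rs_mem_Z1 (GWo_coc ha (L.om_sm m) (L.om_hom m) hκ.sm (GWo_hom hκ hc)
    (x - κ φ • ((t⁻¹ : (ZMod (2 ^ m))ˣ) : ZMod (2 ^ m)) • y)
    (((t⁻¹ : (ZMod (2 ^ m))ˣ) : ZMod (2 ^ m)) • y)), ?_, ?_⟩
  · rw [rs_of_mem (show φ ∈ H ⊓ Dec w from ⟨hφ, hφ'.1⟩), GWo_om L hφ hφ', one_smul,
      sub_add_cancel]
  · rw [rs_of_mem (GWo_le hτ.1), L.om_ine m hτ.1, zero_smul, zero_add, ← ht, smul_smul,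
      Units.mul_inv, one_smul]

theorem GWo_c2 (hc : ∀ g ∈ D, cy m g = 1) {χ κ : Gam → ZMod (2 ^ m)} (h1 : Sm D χ)
    (h2 : IsHom D χ) (h3 : Sm D κ) (h4 : IsHom D κ) : C2 m D fun g h => χ g * κ h := by
  refine ⟨h1.left.comp₂ h3.right fun s t => s * t, fun g hg h hh k hk => ?_⟩
  beta_reduce
  rw [hc g hg, h2 g hg h hh, h4 h hh k hk]
  ring

theorem GWo_flip (F : CFT) (hH : Op H) (hc : ∀ g ∈ H ⊓ Dec w, cy m g = 1)
    {χ κ : Gam → ZMod (2 ^ m)} (h1 : Sm (H ⊓ Dec w) χ) (h2 : IsHom (H ⊓ Dec w) χ)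
    (h3 : Sm (H ⊓ Dec w) κ) (h4 : IsHom (H ⊓ Dec w) κ) :
    F.inv m H w (fun g h => κ g * χ h) = -F.inv m H w fun g h => χ g * κ h := by
  have k1 := GWo_c2 hc h1 h2 h3 h4
  have k2 := GWo_c2 hc h3 h4 h1 h2
  rw [eq_neg_iff_add_eq_zero, ← F.add hH k2 k1]
  refine (F.zero_iff hH (k2.add k1)).2 ⟨fun g => -(χ g * κ g),
    h1.comp₂ h3 fun s t => -(s * t), fun g hg h hh => ?_⟩
  simp only [Pi.add_apply]
  rw [hc g hg, h2 g hg h hh, h4 g hg h hh]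
  ring

theorem GWo_choose (x y : ℕ) : (x + y).choose 2 = x.choose 2 + y.choose 2 + x * y := by
  induction y with
  | zero => simp
  | succ y ih =>
    rw [← add_assoc, Nat.choose_succ_succ' (x + y) 1, Nat.choose_succ_succ' y 1, ih,
      Nat.choose_one_right, Nat.choose_one_right]
    ring

theorem GWo_q (s t : ZMod (2 ^ (m + 1))) : (((s + t).val.choose 2 : ℕ) : ZMod (2 ^ m)) =
    (s.val.choose 2 : ℕ) + (t.val.choose 2 : ℕ) + (s.val : ZMod (2 ^ m)) * t.val := by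
  obtain ⟨k, hk⟩ : ∃ k, (s + t).val + 2 * (2 ^ m * k) = s.val + t.val := by
    refine ⟨(s.val + t.val) / 2 ^ (m + 1), ?_⟩
    rw [ZMod.val_add, ← mul_assoc, ← pow_succ']
    exact Nat.mod_add_div _ _
  have h1 := GWo_choose s.val t.val
  rw [← hk, GWo_choose, Nat.choose_two_right (2 * (2 ^ m * k)), mul_assoc 2,
    Nat.mul_div_cancel_left _ two_pos] at h1
  have h2 := congrArg (Nat.cast : ℕ → ZMod (2 ^ m)) h1
  have h3 : ((2 ^ m : ℕ) : ZMod (2 ^ m)) = 0 := ZMod.natCast_self _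
  simp only [Nat.cast_add, Nat.cast_mul, h3, zero_mul, mul_zero, add_zero] at h2
  exact h2

theorem GWo_self (F : CFT) (hH : Op H) (hc : ∀ g ∈ H ⊓ Dec w, cy m g = 1)
    {κ : Gam → ZMod (2 ^ m)} {κ₁ : Gam → ZMod (2 ^ (m + 1))} (h1 : Sm (H ⊓ Dec w) κ₁)
    (h2 : IsHom (H ⊓ Dec w) κ₁) (h3 : Sm (H ⊓ Dec w) κ) (h4 : IsHom (H ⊓ Dec w) κ)
    (e : ∀ g, κ g = ((κ₁ g).val : ZMod (2 ^ m))) : F.inv m H w (fun g h => κ g * κ h) = 0 := by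
  refine (F.zero_iff hH (GWo_c2 hc h3 h4 h3 h4)).2
    ⟨fun g => -(((κ₁ g).val.choose 2 : ℕ) : ZMod (2 ^ m)),
      h1.comp fun s => -((s.val.choose 2 : ℕ) : ZMod (2 ^ m)), fun g hg h hh => ?_⟩
  simp only
  rw [hc g hg, h2 g hg h hh, GWo_q, e g, e h]
  ring

theorem GWo_dec [Module (ZMod (2 ^ m)) M] (L : LD H w) {τ φ : Gam} (hτ : TG H w τ) (hφ : φ ∈ H)
    (hφ' : IsFrob w (w.p ^ L.f) φ) (hm : ∀ x : M, 2 ^ m • x = 0)
    (ha : ∀ g ∈ H ⊓ Dec w, ∀ x, a g x = x) (h : Coc (H ⊓ Dec w) a c) {κ : Gam → ZMod (2 ^ m)}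
    (h3 : Sm (H ⊓ Dec w) κ) (h4 : IsHom (H ⊓ Dec w) κ) {t : (ZMod (2 ^ m))ˣ} (ht : ↑t = κ τ) :
    ∃ x y : M, ∀ g ∈ H ⊓ Dec w, c g = L.om m g • x + κ g • y := by
  refine ⟨c φ - κ φ • ((t⁻¹ : (ZMod (2 ^ m))ˣ) : ZMod (2 ^ m)) • c τ,
    ((t⁻¹ : (ZMod (2 ^ m))ˣ) : ZMod (2 ^ m)) • c τ, fun g hg => ?_⟩
  refine sub_eq_zero.1 (GWo_uniq L hτ hφ hφ' hm ha
    (h.sub (GWo_coc ha (L.om_sm m) (L.om_hom m) h3 h4 _ _)) ?_ ?_ g hg)
  · rw [Pi.sub_apply, GWo_om L hφ hφ', one_smul, sub_add_cancel, sub_self]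
  · rw [Pi.sub_apply, L.om_ine m hτ.1, zero_smul, zero_add, ← ht, smul_smul, Units.mul_inv,
      one_smul, sub_self]

/-- The local pairing at a deep place. -/
theorem inv_deep (F : CFT) (hH : Op H) (hw : w.p ≠ 2) (L : LD H w) {τ : Gam} (hτ : TG H w τ)
    (hc : ∀ g ∈ H ⊓ Dec w, cy (m + 1) g = 1) : ∃ u : (ZMod (2 ^ m))ˣ,
    ∀ (M M' : Type) [AddCommGroup M] [AddCommGroup M'] [Finite M] (a : Gam → M →+ M)
      (a' : Gam → M' →+ M') (b : M →+ M' →+ ZMod (2 ^ m)) (c : Gam → M) (c' : Gam → M') (φ : Gam),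
      (∀ x : M, 2 ^ m • x = 0) → (∀ y : M', 2 ^ m • y = 0) →
      (∀ g ∈ H ⊓ Dec w, ∀ x, a g x = x) → (∀ g ∈ H ⊓ Dec w, ∀ y, a' g y = y) →
      Coc (H ⊓ Dec w) a c → Coc (H ⊓ Dec w) a' c' → φ ∈ H → IsFrob w (w.p ^ L.f) φ →
      F.inv m H w (cupb b a' c c') = u * (b (c φ) (c' τ) - b (c τ) (c' φ)) := by
  have hc0 := GWo_cy hc
  obtain ⟨κ₁, hκ₁⟩ := exists_kum (m + 1) L.π_ne (GWo_fx L)
  obtain ⟨κ, hκ, e⟩ : ∃ κ, Kum m (H ⊓ Dec w) L.π κ ∧ ∀ g, κ g = ((κ₁ g).val : ZMod (2 ^ m)) :=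
    ⟨_, GWo_red (Nat.le_succ m) hκ₁, fun g => GWo_cast (Nat.le_succ m) _⟩
  obtain ⟨t, ht⟩ := GWo_tau hH hw L hτ hκ
  have o1 := L.om_sm m
  have o2 := L.om_hom m
  have k1 := hκ.sm
  have k2 := GWo_hom hκ hc0
  have cA := GWo_c2 hc0 o1 o2 o1 o2
  have cB := GWo_c2 hc0 o1 o2 k1 k2
  have cC := GWo_c2 hc0 k1 k2 o1 o2
  have cE := GWo_c2 hc0 k1 k2 k1 k2
  have hA : F.inv m H w (fun g h => L.om m g * L.om m h) = 0 :=
    F.unr hH cA fun g hg h hh σ hσ σ' hσ' => by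
      rw [o2 g hg σ (GWo_le hσ), o2 h hh σ' (GWo_le hσ'), L.om_ine m hσ, L.om_ine m hσ', add_zero,
        add_zero]
  have hC := GWo_flip F hH hc0 o1 o2 k1 k2
  have hE := GWo_self F hH hc0 hκ₁.sm (GWo_hom hκ₁ hc) k1 k2 e
  obtain ⟨u, hu⟩ : IsUnit (F.inv m H w fun g h => L.om m g * κ h) := by
    refine GWo_unit fun k => ?_
    rw [← F.red k hH cB, ← inv_om_unif F hH L (GWo_red k hκ)]
    refine F.congr fun g _ h _ => ?_
    rw [map_mul, GWo_cast k (L.om m g), ← L.om_red k g]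
    rfl
  refine ⟨u * t⁻¹, fun M M' _ _ _ a a' b c c' φ hm hm' ha ha' h h' hφ hφ' => ?_⟩
  let _ : Module (ZMod (2 ^ m)) M := AddCommGroup.zmodModule hm
  let _ : Module (ZMod (2 ^ m)) M' := AddCommGroup.zmodModule hm'
  obtain ⟨x, y, hx⟩ := GWo_dec L hτ hφ hφ' hm ha h k1 k2 ht
  obtain ⟨x', y', hx'⟩ := GWo_dec L hτ hφ hφ' hm' ha' h' k1 k2 ht
  have hb : ∀ (s s' r r' : ZMod (2 ^ m)), b (s • x + s' • y) (r • x' + r' • y') =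
      b x x' * (s * r) + b x y' * (s * r') + (b y x' * (s' * r) + b y y' * (s' * r')) := by
    intro s s' r r'
    have e1 : ∀ (s : ZMod (2 ^ m)) (p : M) (q : M'), b (s • p) q = s * b p q := fun s p q =>
      ZMod.map_smul (b.flip q) s p
    have e2 : ∀ (s : ZMod (2 ^ m)) (p : M) (q : M'), b p (s • q) = s * b p q := fun s p q =>
      ZMod.map_smul (b p) s q
    simp only [map_add, AddMonoidHom.add_apply, e1, e2]
    ring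
  have hD : φ ∈ H ⊓ Dec w := ⟨hφ, hφ'.1⟩
  have e3 : F.inv m H w (cupb b a' c c') = F.inv m H w
      (((fun g h => b x x' * (L.om m g * L.om m h)) + fun g h => b x y' * (L.om m g * κ h)) +
        ((fun g h => b y x' * (κ g * L.om m h)) + fun g h => b y y' * (κ g * κ h))) :=
    F.congr fun g hg k hk => by
      simp only [cupb, Pi.add_apply]
      rw [ha' g hg, hx g hg, hx' k hk, hb]
  rw [e3, F.add hH ((cA.smul _).add (cB.smul _)) ((cC.smul _).add (cE.smul _)),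
    F.add hH (cA.smul _) (cB.smul _), F.add hH (cC.smul _) (cE.smul _), F.smul hH cA,
    F.smul hH cB, F.smul hH cC, F.smul hH cE, hA, hC, hE, ← hu, hx φ hD, hx' φ hD,
    hx τ (GWo_le hτ.1), hx' τ (GWo_le hτ.1), hb, hb, GWo_om L hφ hφ', L.om_ine m hτ.1, ← ht,
    Units.val_mul]
  have h5 : ((t⁻¹ : (ZMod (2 ^ m))ˣ) : ZMod (2 ^ m)) * t = 1 := Units.inv_mul t
  linear_combination (-(u : ZMod (2 ^ m)) * (b x y' - b y x')) * h5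

/-- If inertia lies in `H`, the generators are the usual ones. -/
theorem Gen.tg (hw : w.p ≠ 2) (hI : Ine w ≤ H) {τ : Gam} (h : Gen w τ) : TG H w τ := by
  unfold TG
  rw [inf_eq_right.2 hI]
  exact ⟨h.1, fun F _ π h1 h2 h3 σ hσ => tame_gen hw h h1 h2 h3 hσ⟩

theorem LD.f_eq (L : LD H w) (hI : Ine w ≤ H) : L.f = (H ⊓ Dec w).relIndex (Dec w) := by
  rw [L.ef, ← L.e_eq, inf_eq_right.2 hI, Subgroup.relIndex_self, one_mul]

end Pool.Agent.Lib.MP_696deb_nt.B2
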