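import Pool.Agent.Lib.MP_696deb_nt.CntLines

set_option autoImplicit false

open Finset NumberTheorySymbols

namespace Pool.Agent.Lib.MP_696deb_nt.B2

section

variable {A B : ℕ} {x ρ β t e : ℤ} {T : Finset Fm}

theorem gza_wZ (n : ℕ) {D : ℤ} (hD : D < 0) (hT : FReps D ρ T) (he : e < 0) (ht : t ≤ 0)
    (m : Fm → ℤ) : cntP T m (wZ n e β) t =
      cntP T m (wG n e β) t + J(-1 | n) * cntP T m (wG n e (-β)) t := by
  rw [cntP, cntP, cntP, mul_sum, ← sum_add_distrib]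
  refine sum_congr rfl fun Q hQ => ?_
  have h1 : fdisc Q < 0 := (hT.fam Q hQ).2.1 ▸ hD
  have h2 : ∀ β, (Function.support fun R => if fbil Q R = t then wG n e β R else 0).Finite :=
    fun β => (finite_fbil h1 (hT.pos Q hQ) he t).subset fun R hR => by
      have h3 : fbil Q R = t := by_contra fun h => hR (if_neg h)
      exact ⟨(fam_of_wG fun h => hR ((if_pos h3).trans h)).2.1, h3⟩
  rw [mul_left_comm, ← mul_add, mul_finsum _ J(-1 | n), ← finsum_add_distrib (h2 _)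
    ((h2 (-β)).subset fun R hR => right_ne_zero_of_mul hR)]
  refine congr_arg _ (finsum_congr fun R => ?_)
  beta_reduce
  split_ifs with h3
  swap
  · simp
  rw [wZ]
  split_ifs with h4
  · rfl
  have h5 : ∀ β, wG n e β R = 0 := fun β =>
    if_neg fun h : Fam _ _ _ => h4 (pos_of_fbil h1 (hT.pos Q hQ) (h.2.1 ▸ he) (h3 ▸ ht))
  rw [h5, h5, mul_zero, add_zero]

theorem gza_P (hB : Squarefree B) (t a e : ℤ) : ∏ p ∈ B.primeFactors, muP p t (-a) (-e) =
    J(-1 | B) * ∏ p ∈ B.primeFactors, muP p t a e := by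
  rw [jac_eq_prod _ hB, ← prod_mul_distrib]
  refine prod_congr rfl fun p hp => ?_
  have h1 := Nat.prime_of_mem_primeFactors hp
  simpa using muP_scale h1 (c := -1) (by rw [dvd_neg]; exact_mod_cast h1.not_dvd_one) t a (-e)

theorem gza_neg_neg (hn : Good (A * B)) (t a e : ℤ) :
    muW B A t (-a) (-e) = -muW B A t a e := by
  have h : J(-1 | A * B) = -1 := by
    rw [jacobiSym.at_neg_one hn.adm.odd, ZMod.χ₄_nat_three_mod_four hn.mod4]
  have hA := hn.sqf.of_mul_left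
  have hB := hn.sqf.of_mul_right
  have k : ∏ p ∈ A.primeFactors, (if (p : ℤ) ∣ -a then J(-e | p) else J(15 * -a | p)) =
      J(-1 | A) * ∏ p ∈ A.primeFactors, if (p : ℤ) ∣ a then J(e | p) else J(15 * a | p) := by
    rw [jac_eq_prod _ hA, ← prod_mul_distrib]
    refine prod_congr rfl fun p _ => ?_
    simp only [dvd_neg]
    split_ifs <;> rw [← jacobiSym.mul_left] <;> congr 1 <;> ring
  rw [jacobiSym.mul_right' _ hA.ne_zero hB.ne_zero] at h
  rw [muW, muW, gza_P hB, k, mul_mul_mul_comm, mul_comm J(-1 | B), h, neg_one_mul]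

theorem gza_neg_left (hB : Squarefree B) (A : ℕ) (t a e : ℤ) :
    muW B A (-t) a e = J(-1 | B) * muW B A t a e := by
  rw [muW, muW, ← muW_one, muW_neg_left, muW_one, gza_P hB, mul_assoc]

theorem gza_cntL (hn : Good (A * B)) (hs : J(-15 | B) = -1) {M : ℕ} (h0 : 0 < M)
    (hM : t ^ 2 - B ^ 2 * (A * x) = 60 * M) :
    cntL B (Ico (0 : ℤ) B) (fun k => J(k | B)) (wG A (A * x) β) t =
      if 30 ∣ t - B * β then -2 * J(15 | A) * CF (A * B) B t M else 0 := by
  split_ifs with h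
  swap
  · exact sum_eq_zero fun k _ => mul_eq_zero_of_right _ (finsum_eq_zero_of_forall_eq_zero fun R =>
      ite_eq_right_iff.mpr fun h3 => by rw [wG_eq_zero h h3, zero_mul])
  have h1 := sum_lines (K := ℤ) (A := B) (B := A) (mul_comm A B ▸ hn) (by simp) hM.symm (by omega)
    h fun a _ => a.sign
  have h2 := sum_muW (A := B) (B := A) (t := t) (M := M) (mul_comm A B ▸ hn) ⟨A * x, by linarith⟩
  rw [Int.divisorsAntidiag_natCast, sum_disjUnion, sum_map, sum_map, ← sum_add_distrib,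
    sum_congr rfl (g := fun z : ℕ × ℕ => 2 * muW B A t z.1 z.2) fun z hz => by
      have : (0 : ℤ) < z.1 := mod_cast Nat.pos_of_mem_divisors
        (Nat.fst_mem_divisors_of_mem_antidiagonal hz)
      simp [gza_neg_neg hn, Int.sign_eq_one_of_pos this, two_mul], ← mul_sum, h2, hs,
    mul_comm B A] at h1
  rw [cntL, sum_Ico_zero]
  refine Eq.trans (sum_congr rfl fun k _ => congr_arg _ (finsum_congr fun R => ?_))
    (h1.trans (by ring))
  by_cases h3 : wG A (A * x) β R = 0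
  · simp [h3]
  obtain ⟨a, ha⟩ := (fam_of_wG h3).1
  simp [ha, Int.sign_mul, show Int.sign 15 = 1 from rfl]

theorem gza_sq (hA : MP_696deb_nt.Adm A) : J(15 | A) ^ 2 = 1 :=
  jacobiSym.sq_one (by simpa [Int.gcd] using hA.cop.symm)

theorem gza_CF (hn : Good (A * B)) (hs : J(-15 | B) = -1) {M : ℕ}
    (h : (B : ℤ) ^ 2 ∣ t ^ 2 - 60 * M) :
    CF (A * B) B (-t) M = J(-1 | B) * CF (A * B) B t M := by
  have h1 := sum_muW (A := B) (B := A) (t := t) (M := M) (mul_comm A B ▸ hn) h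
  have h2 := sum_muW (A := B) (B := A) (t := -t) (M := M) (mul_comm A B ▸ hn) (by simpa using h)
  simp only [gza_neg_left hn.sqf.of_mul_right, ← mul_sum, h1, hs, mul_comm B A] at h2
  linear_combination J(15 | A) * h2 -
    (CF (A * B) B (-t) M - J(-1 | B) * CF (A * B) B t M) * gza_sq hn.adm_left

end

/-- The counts of pairs of points and of pairs of geodesics agree. -/
theorem match_B2 {A B : ℕ} (hn : Good (A * B)) (hB : J(-15 | B) = -1) {x ρ ρ' β t : ℤ} (hx : 0 < x)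
    (hρ : 60 ∣ ρ ^ 2 + (A * B : ℕ)) (h : 30 ∣ B * β + ρ * ρ') {T T' : Finset Fm}
    (hT : FReps (-(A * B : ℕ)) ρ T) (hT' : FReps (-(A * B : ℕ)) (-ρ) T') (h0 : 0 ≤ t)
    (ht : B ^ 2 * (A * x) < t ^ 2) :
    cntP (T ∪ T') (wZ B (-(A * B : ℕ)) ρ) (wZ B (-(B * x)) ρ') (-t) = -(J(15 | A) * J(-1 | B)) *
      (cntL B (Ico (0 : ℤ) B) (fun k => J(k | B)) (wG A (A * x) β) t +
        cntL B (Ico (0 : ℤ) B) (fun k => J(k | B)) (wG A (A * x) β) (-t)) := by
  have h15 : ¬ 15 ∣ ρ := fun h => (Gal.not_dvd_r hn hρ).1 (by omega)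
  have hD : -(B * x : ℤ) < 0 :=
    neg_neg_of_pos (mul_pos (mod_cast hn.sqf.of_mul_right.ne_zero.bot_lt) hx)
  have h1 : cntP (T ∪ T') (wZ B (-(A * B : ℕ)) ρ) (wZ B (-(B * x)) ρ') (-t) =
      cntP T (gch B) (wZ B (-(B * x)) ρ') (-t) +
        J(-1 | B) * cntP T' (gch B) (wZ B (-(B * x)) ρ') (-t) := by
    rw [cntP, cntP, cntP, sum_union (disjoint_left.mpr fun Q h1 h2 =>
      (hT.fam Q h1).not_neg h15 (hT'.fam Q h2)), mul_sum]
    congr 1 <;> refine sum_congr rfl fun Q hQ => ?_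
    · rw [wZ, if_pos (hT.pos Q hQ), wG, wG, if_pos (hT.fam Q hQ),
        if_neg ((hT.fam Q hQ).not_neg h15), mul_zero, add_zero]
    · rw [wZ, if_pos (hT'.pos Q hQ), wG, wG, if_pos (hT'.fam Q hQ),
        if_neg fun h => h.not_neg h15 (hT'.fam Q hQ), zero_add, mul_assoc]
  rw [h1, gza_wZ B hn.neg hT hD (by omega), gza_wZ B hn.neg hT' hD (by omega)]
  by_cases h2 : 60 ∣ t ^ 2 - B ^ 2 * (A * x)
  swap
  · have k1 : ∀ {ρ β : ℤ} {T : Finset Fm}, FReps (-(A * B : ℕ)) ρ T →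
        cntP T (gch B) (wG B (-(B * x)) β) (-t) = 0 := fun hT => sum_eq_zero fun Q hQ =>
      mul_eq_zero_of_right _ (finsum_eq_zero_of_forall_eq_zero fun R => ite_eq_right_iff.mpr
        fun h3 => if_neg fun h4 => h2 (by
          convert ((hT.fam Q hQ).fbil h4).2 using 1; rw [h3]; push_cast; ring))
    have k2 : ∀ {s : ℤ}, s ^ 2 = t ^ 2 →
        cntL B (Ico (0 : ℤ) B) (fun k => J(k | B)) (wG A (A * x) β) s = 0 := fun hs => sum_eq_zero
      fun k _ => mul_eq_zero_of_right _ (finsum_eq_zero_of_forall_eq_zero fun R =>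
        ite_eq_right_iff.mpr fun h3 => mul_eq_zero_of_left (if_neg fun ⟨⟨a, ha⟩, h5, _⟩ =>
          h2 ⟨a * fval R k B, by rw [← hs, ← h3, ← h5, fbil_line, ha]; ring⟩) _)
    rw [k1 hT, k1 hT, k1 hT', k1 hT', k2 rfl, k2 (neg_sq t)]
    simp
  obtain ⟨M, hM⟩ := h2
  lift M to ℕ using by omega
  have h3 : 0 < M := by omega
  have k1 := fun {ρ β : ℤ} {T : Finset Fm} (hρ : 60 ∣ ρ ^ 2 + (A * B : ℕ))
    (hT : FReps (-(A * B : ℕ)) ρ T) => cntP_eq hn (dvd_mul_left B A) hρ hT (e := -(B * x)) (β := β)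
      (t := -t) (by simp) h3 (by push_cast; linarith)
  have hρ' : 60 ∣ (-ρ) ^ 2 + (A * B : ℕ) := by rwa [neg_sq]
  rw [k1 hρ hT, k1 hρ hT, k1 hρ' hT', k1 hρ' hT', gza_cntL hn hB h3 hM,
    gza_cntL hn hB h3 (t := -t) (by rwa [neg_sq]), gza_CF hn hB ⟨A * x, by linarith⟩]
  have j1 := sq_eq_one_iff.mp (gza_sq hn.adm_left)
  have j2 : J(-1 | B) = 1 ∨ J(-1 | B) = -1 := jacobiSym.eq_one_or_neg_one (by simp)
  simp only [mul_neg, neg_mul, neg_neg]
  generalize ρ * ρ' = u at h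
  generalize B * β = v at h
  rcases j1 with j1 | j1 <;> rcases j2 with j2 | j2 <;> rw [j1, j2] <;> split_ifs <;> omega

theorem perA_eq_zero2 {B : ℕ} (hB : MP_696deb_nt.Adm B) (h : J(-15 | B) = -1) : perA B = 0 := by
  classical
  have h0 : (0 : ℤ) < B := mod_cast hB.sqf.ne_zero.bot_lt
  have h15 : IsCoprime (15 : ℤ) B := Nat.isCoprime_iff_coprime.mpr hB.cop.symm
  have ex : ∀ k : ℤ, IsCoprime k B → ∃ j ∈ Ico (0 : ℤ) B, (B : ℤ) ∣ 15 * k * j + 1 := fun k hk => by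
    obtain ⟨u, v, e⟩ := h15.mul_left hk
    refine ⟨-u % B, mem_Ico.mpr ⟨Int.emod_nonneg _ h0.ne', Int.emod_lt_of_pos _ h0⟩,
      v - 15 * k * (-u / B), ?_⟩
    rw [Int.emod_def]; linear_combination -e
  choose! g g1 g2 using ex
  have c : ∀ {k j : ℤ}, (B : ℤ) ∣ 15 * k * j + 1 → IsCoprime j B := fun {k j} ⟨b, hb⟩ =>
    ⟨-15 * k, b, by linear_combination -hb⟩
  have key : ∀ k : ℤ, IsCoprime k B → (J(k | B) : ℂ) * ms k B + J(g k | B) * ms (g k) B = 0 := by
    intro k hk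
    obtain ⟨b, hb⟩ := g2 k hk
    have h1 := ms_AL15 (a := g k) (b := -b) (c := B) (d := -k) (x := k) (y := B)
      (by linear_combination -hb) (.inr h0.ne')
    rw [show 15 * (B : ℤ) * k + 15 * -k * B = 0 by ring, ms_zero, eq_neg_add_iff_add_eq,
      add_zero] at h1
    have h2 : J(-15 | B) * (J(k | B) * J(g k | B)) = 1 := by
      rw [← jacobiSym.mul_left, ← jacobiSym.mul_left, ← jacobiSym.one_left B]
      exact jac_congr ⟨-b, by linear_combination -hb⟩
    have h3 := jacobiSym.sq_one (Int.isCoprime_iff_gcd_eq_one.mp hk)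
    rw [h1, ← add_mul, ← Int.cast_add, show J(k | B) + J(g k | B) = 0 by
      rw [h] at h2; linear_combination -J(k | B) * h2 - J(g k | B) * h3, Int.cast_zero, zero_mul]
  rw [perA, ← sum_Ico_zero B fun k => (J(k | B) : ℂ) * ms k B, ← sum_filter_of_ne
    (p := fun k : ℤ => IsCoprime k B) fun k _ hk => by_contra fun h1 => hk (by
      have : NeZero B := ⟨by omega⟩
      rw [jacobiSym.eq_zero_iff_not_coprime.mpr (mt Int.isCoprime_iff_gcd_eq_one.mpr h1),
        Int.cast_zero, zero_mul])]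
  refine sum_involution (fun k _ => g k) (fun k hk => key k (mem_filter.mp hk).2)
    (fun k hk h1 h2 => h1 ?_) (fun k hk => mem_filter.mpr ⟨g1 k (mem_filter.mp hk).2,
      c (g2 k (mem_filter.mp hk).2)⟩) fun k hk => ?_
  · have := key k (mem_filter.mp hk).2
    rwa [h2, add_self_eq_zero] at this
  · obtain ⟨h1, h2⟩ := mem_filter.mp hk
    have h3 := c (g2 k h2)
    have h4 := (h15.mul_left h3).symm.dvd_of_dvd_mul_left (z := g (g k) - k) (by
      convert dvd_sub (g2 _ h3) (g2 k h2) using 1; ring)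
    have h5 := g1 _ h3
    rw [mem_Ico] at h1 h5
    exact sub_eq_zero.mp (Int.eq_zero_of_abs_lt_dvd h4 (abs_lt.mpr ⟨by omega, by omega⟩))

end Pool.Agent.Lib.MP_696deb_nt.B2
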