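import Pool.Agent.Lib.MP_696deb_nt.CntLines

set_option autoImplicit false

open Finset NumberTheorySymbols

namespace Pool.Agent.Lib.MP_696deb_nt.B2

open Tern

section

variable {A B n p l d x : ℕ} {t a e M β : ℤ}

theorem gzb_scale (hn : Good (A * B)) {c : ℤ} (hc : J(c | A * B) = 1) (t a e : ℤ) :
    muW B A t (c * a) e = muW B A t a (c * e) := by
  have hA := hn.sqf.of_mul_left
  have hB := hn.sqf.of_mul_right
  have h0 : ∀ p : ℕ, p.Prime → p ∣ A * B → ¬ (p : ℤ) ∣ c := fun p hp h1 h2 => by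
    rw [jac_eq_prod _ hn.sqf, prod_eq_zero (Nat.mem_primeFactors.mpr ⟨hp, h1, hn.sqf.ne_zero⟩)
      (jac_zero_of_dvd hp h2)] at hc
    exact zero_ne_one hc
  rw [jacobiSym.mul_right' c hA.ne_zero hB.ne_zero, jac_eq_prod _ hA, jac_eq_prod _ hB] at hc
  rw [muW, muW, ← one_mul ((∏ p ∈ _, muP p t a _) * _), ← hc, mul_comm (∏ p ∈ A.primeFactors, J(c | p)),
    mul_mul_mul_comm, ← prod_mul_distrib, ← prod_mul_distrib]
  congr 1
  · exact prod_congr rfl fun p hp => muP_scale (Nat.prime_of_mem_primeFactors hp)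
      (h0 p (Nat.prime_of_mem_primeFactors hp) ((Nat.dvd_of_mem_primeFactors hp).mul_left _)) ..
  · refine prod_congr rfl fun p hp => ?_
    have hp' := Nat.prime_of_mem_primeFactors hp
    have h1 := h0 p hp' ((Nat.dvd_of_mem_primeFactors hp).mul_right _)
    have h2 : J(c | p) ^ 2 = 1 := jacobiSym.sq_one (Int.isCoprime_iff_gcd_eq_one.mp
      ((Nat.prime_iff_prime_int.mp hp').irreducible.coprime_iff_not_dvd.mpr h1).symm)
    simp only [(Nat.prime_iff_prime_int.mp hp').dvd_mul, h1, false_or]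
    split_ifs
    · rw [jacobiSym.mul_left, ← mul_assoc, ← sq, h2, one_mul]
    · rw [← jacobiSym.mul_left, mul_left_comm]

theorem gzb_swap (hn : Good (A * B)) (h15 : J(15 | A * B) = 1) (hA : A.Coprime x)
    (h : 60 * (a * e) = t ^ 2 - B ^ 2 * (A * x)) : muW B A t e a = muW B A t a e := by
  have kA := hn.sqf.of_mul_left
  have kB := hn.sqf.of_mul_right
  have h30 := Good.coprime30 hn
  rw [jacobiSym.mul_right' 15 kA.ne_zero kB.ne_zero, jac_eq_prod _ kA, jac_eq_prod _ kB] at h15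
  rw [muW, muW, ← one_mul ((∏ p ∈ _, muP p t a _) * _), ← h15,
    mul_comm (∏ p ∈ A.primeFactors, J(15 | p)), mul_mul_mul_comm, ← prod_mul_distrib,
    ← prod_mul_distrib]
  congr 1
  · exact prod_congr rfl fun p hp => muP_swap h30.coprime_mul_left hp
      (dvd_of_mem ⟨B * (A * x), by linear_combination -h⟩ hp)
  · refine prod_congr rfl fun p hp => ?_
    have hp' := Nat.prime_of_mem_primeFactors hp
    have hP := Nat.prime_iff_prime_int.mp hp'
    have pA := Nat.dvd_of_mem_primeFactors hp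
    have h1 : ∀ k : ℕ, k ∣ 30 → ¬ (p : ℤ) ∣ k := fun k hk h1 => hp'.one_lt.ne'
      (Nat.eq_one_of_dvd_coprimes h30 (pA.mul_right _) ((Int.natCast_dvd_natCast.mp h1).trans hk))
    have h2 : J(15 | p) ^ 2 = 1 := jacobiSym.sq_one (Int.isCoprime_iff_gcd_eq_one.mp
      (hP.irreducible.coprime_iff_not_dvd.mpr (h1 15 (by norm_num))).symm)
    obtain ⟨A, rfl⟩ := pA
    split_ifs with k1 k2 k2
    · obtain ⟨⟨a, rfl⟩, e, rfl⟩ := And.intro k2 k1
      have h0 : (p : ℤ) ≠ 0 := hP.ne_zero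
      push_cast at h
      obtain ⟨t, rfl⟩ : (p : ℤ) ∣ t := hP.dvd_of_dvd_pow (n := 2)
        ⟨60 * (a * (p * e)) + B ^ 2 * (A * x), by linear_combination -h⟩
      have h3 : (p : ℤ) ∣ B ^ 2 * (A * x) := ⟨t ^ 2 - 60 * (a * e), mul_left_cancel₀ h0 (by
        linear_combination h)⟩
      exfalso
      rcases hP.dvd_or_dvd h3 with h4 | h4
      · exact hp'.prime.not_isUnit (hn.sqf p (mul_dvd_mul (dvd_mul_right _ _)
          (mod_cast hP.dvd_of_dvd_pow h4)))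
      rcases hP.dvd_or_dvd h4 with h4 | h4
      · exact hp'.prime.not_isUnit (kA p (mul_dvd_mul_left _ (mod_cast h4)))
      · exact hp'.one_lt.ne' (Nat.eq_one_of_dvd_coprimes hA (dvd_mul_right _ _) (mod_cast h4))
    · rw [jacobiSym.mul_left, ← mul_assoc, ← sq, h2, one_mul]
    · rw [jacobiSym.mul_left]
    · rw [jacobiSym.mul_left 15 a, ← mul_assoc, ← sq, h2, one_mul]
      refine jac_eq_of_sq hp' (k := 2) (l := t) (fun h3 => (hP.dvd_or_dvd h3).elim
        (h1 15 (by norm_num)) k1) k2 (h1 2 (by norm_num)) ⟨-(B ^ 2 * (A * x)), ?_⟩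
      push_cast at h
      linear_combination h

theorem gzb_sign (hn : Good (A * B)) (h15 : J(15 | A * B) = 1) (hA : A.Coprime x) (hM : M < 0)
    (h : 60 * M = t ^ 2 - B ^ 2 * (A * x)) :
    ∑ z ∈ M.divisorsAntidiag, muW B A t z.1 z.2 * z.1.sign = 0 := by
  have key : ∀ z ∈ M.divisorsAntidiag,
      muW B A t z.1 z.2 * z.1.sign + muW B A t z.swap.1 z.swap.2 * z.swap.1.sign = 0 := by
    rintro ⟨a, e⟩ hx
    obtain ⟨rfl, -⟩ := Int.mem_divisorsAntidiag.mp hx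
    simp only [Prod.swap]
    rw [gzb_swap hn h15 hA h, ← mul_add]
    rcases mul_neg_iff.mp hM with ⟨h1, h2⟩ | ⟨h1, h2⟩ <;>
      simp [Int.sign_eq_one_of_pos, Int.sign_eq_neg_one_of_neg, h1, h2]
  exact sum_involution (fun z _ => z.swap) key (fun z hz h1 h2 => h1 (by
    simpa only [h2, add_self_eq_zero] using key z hz))
    (fun z hz => Int.swap_mem_divisorsAntidiag.mpr hz) fun z _ => rfl

theorem gzb_split (hn : Good (A * B)) (hl : l.Prime) (hc : J((l : ℤ) | A * B) = 1) (t M : ℤ) :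
    ∑ x ∈ M.divisorsAntidiag, muW B A t x.1 x.2 * x.1.sign *
      (padicValInt l x.2 - padicValInt l x.1) = 0 := by
  have h0 : (0 : ℤ) < l := mod_cast hl.pos
  let g : ℤ × ℤ → ℤ × ℤ := fun x => (l ^ padicValInt l x.2 * (x.1 / l ^ padicValInt l x.1),
    l ^ padicValInt l x.1 * (x.2 / l ^ padicValInt l x.2))
  have hg : ∀ {a e : ℤ} (i j : ℕ), ¬ (l : ℤ) ∣ a → ¬ (l : ℤ) ∣ e →
      g (l ^ i * a, l ^ j * e) = (l ^ j * a, l ^ i * e) := fun i j ha he => by
    simp only [g, padicValInt_pow_mul hl ha, padicValInt_pow_mul hl he,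
      Int.mul_ediv_cancel_left _ (pow_ne_zero _ h0.ne')]
  have ex : ∀ x ∈ M.divisorsAntidiag, ∃ (i j : ℕ) (a e : ℤ), ¬ (l : ℤ) ∣ a ∧ ¬ (l : ℤ) ∣ e ∧
      x = (l ^ i * a, l ^ j * e) := by
    rintro ⟨a, e⟩ hx
    obtain ⟨rfl, h⟩ := Int.mem_divisorsAntidiag.mp hx
    obtain ⟨i, a, ha, rfl⟩ := exists_pow_mul hl (left_ne_zero_of_mul h)
    obtain ⟨j, e, he, rfl⟩ := exists_pow_mul hl (right_ne_zero_of_mul h)
    exact ⟨i, j, a, e, ha, he, rfl⟩
  have h1 : ∀ i : ℕ, J((l : ℤ) ^ i | A * B) = 1 := fun i => by rw [jacobiSym.pow_left, hc, one_pow]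
  have key : ∀ x ∈ M.divisorsAntidiag, muW B A t x.1 x.2 * x.1.sign *
      (padicValInt l x.2 - padicValInt l x.1) + muW B A t (g x).1 (g x).2 * (g x).1.sign *
      (padicValInt l (g x).2 - padicValInt l (g x).1) = 0 := fun x hx => by
    obtain ⟨i, j, a, e, ha, he, rfl⟩ := ex x hx
    simp only [hg i j ha he, padicValInt_pow_mul hl ha, padicValInt_pow_mul hl he,
      gzb_scale hn (h1 _), Int.sign_mul, Int.sign_eq_one_of_pos (pow_pos h0 _),
      mul_left_comm ((l : ℤ) ^ j)]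
    ring
  refine sum_involution (fun x _ => g x) key (fun x hx h1 h2 => h1 (by
    simpa only [h2, add_self_eq_zero] using key x hx)) (fun x hx => ?_) fun x hx => ?_ <;>
    obtain ⟨i, j, a, e, ha, he, rfl⟩ := ex x hx
  · rw [hg i j ha he]
    rw [Int.mem_divisorsAntidiag] at hx ⊢
    exact ⟨by rw [← hx.1]; ring, hx.2⟩
  · rw [hg i j ha he, hg j i ha he]

theorem gzb_ram (hn : Squarefree n) (h30 : n.Coprime 30) (hd : Squarefree d)
    (hl : l.Prime) (h1 : l ∣ n) (h2 : l ∣ d)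
    (h : 60 * (a * e) = t ^ 2 - n ^ 2 * d) (h0 : muP l t a e ≠ 0) :
    padicValInt l e = padicValInt l a := by
  have := Fact.mk hl
  have hP := Nat.prime_iff_prime_int.mp hl
  obtain ⟨m, rfl⟩ := h1
  obtain ⟨c, rfl⟩ := h2
  have hl0 : (l : ℤ) ≠ 0 := mod_cast hl.ne_zero
  have key : ∀ {t a e k : ℤ}, 60 * (a * e) = t ^ 2 - l * k → ¬ (l : ℤ) ∣ t →
      ¬ (l : ℤ) ∣ a ∧ ¬ (l : ℤ) ∣ e := fun {t a e k} h ht => by
    rw [← not_or, ← hP.dvd_mul]
    exact fun h1 => ht (hP.dvd_of_dvd_pow ((dvd_sub_left (dvd_mul_right _ k)).mp (h ▸ h1.mul_left 60)))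
  push_cast at h
  by_cases ht : (l : ℤ) ∣ t
  swap
  · obtain ⟨h1, h2⟩ := key (k := l * m ^ 2 * (l * c)) (by rw [h]; ring) ht
    rw [padicValInt.eq_zero_of_not_dvd h1, padicValInt.eq_zero_of_not_dvd h2]
  obtain ⟨⟨a, rfl⟩, e, rfl⟩ : (l : ℤ) ∣ a ∧ (l : ℤ) ∣ e := by
    by_contra h1
    exact h0 (by rw [muP, if_pos ht, if_neg h1])
  obtain ⟨t, rfl⟩ := ht
  replace h : 60 * (a * e) = t ^ 2 - l * (m ^ 2 * c) :=
    mul_left_cancel₀ (pow_ne_zero 2 hl0) (by linear_combination h)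
  by_cases ht : (l : ℤ) ∣ t
  swap
  · obtain ⟨h1, h2⟩ := key h ht
    simpa using (padicValInt_pow_mul hl h2 1).trans (padicValInt_pow_mul hl h1 1).symm
  refine (h0 ?_).elim
  have h3 : ¬ ((l : ℤ) ∣ a ∧ (l : ℤ) ∣ e) := by
    rintro ⟨⟨a, rfl⟩, e, rfl⟩
    obtain ⟨t, rfl⟩ := ht
    have h4 : (l : ℤ) ∣ m ^ 2 * c := ⟨t ^ 2 - 60 * (a * e), mul_left_cancel₀ hl0 (by
      linear_combination h)⟩
    rcases hP.dvd_or_dvd h4 with h4 | h4
    · exact hl.prime.not_isUnit (hn l (mul_dvd_mul_left _ (mod_cast hP.dvd_of_dvd_pow h4)))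
    · exact hl.prime.not_isUnit (hd l (mul_dvd_mul_left _ (mod_cast h4)))
  obtain ⟨h2, k3, k5⟩ := small_ne_zero h30 hl (dvd_mul_right _ _)
  have h4 := congr_arg (Int.cast : ℤ → ZMod l) h
  simp only [← ZMod.intCast_zmod_eq_zero_iff_dvd] at ht h3
  simp only [Int.cast_mul, Int.cast_sub, Int.cast_pow, ht, Int.cast_natCast, ZMod.natCast_self,
    zero_mul, show ((60 : ℤ) : ZMod l) = 2 * 2 * 3 * 5 by norm_num, ne_eq, OfNat.ofNat_ne_zero,
    not_false_eq_true, zero_pow, sub_zero, mul_eq_zero, h2, k3, k5, false_or] at h4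
  rw [muP_mul]
  refine sum_eq_zero fun k _ => ite_eq_right_iff.mpr fun hk => ?_
  rw [show (15 : ZMod l) = 3 * 5 by norm_num] at hk
  rcases h4 with h4 | h4
  · exact (h3 ⟨h4, by simpa [h4, ht] using hk⟩).elim
  · have : (a : ZMod l) ≠ 0 := fun h5 => h3 ⟨h5, h4⟩
    obtain rfl : k = 0 := by simpa [h4, ht, k3, k5, this] using hk
    simp

theorem gzb_inert (hn : Good (A * B)) (hd : Odd x) (hl : l.Prime) (h : ¬ l ∣ A * B * x) {y : ℤ}
    (hx : 4 * (l : ℤ) ∣ y ^ 2 + (B * x : ℕ)) (hc : J((l : ℤ) | A * B) ≠ 1)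
    (hM : 60 * M = t ^ 2 - B ^ 2 * (A * x)) : ¬ (l : ℤ) ∣ M := by
  rintro ⟨M, rfl⟩
  obtain ⟨k, hk⟩ := hx
  have h1 : ¬ l ∣ A * B := fun e => h (e.mul_right _)
  have h2 : Odd (A * B) := Nat.odd_iff.mpr (by have := hn.mod4; omega)
  obtain ⟨u, v, e⟩ : IsCoprime (4 * (l : ℤ)) (B * x) :=
    (IsCoprime.pow_left (x := 2) (m := 2) (Int.isCoprime_two_left.mpr
      (mod_cast (Nat.odd_mul.mp h2).2.mul hd))).mul_left
      (mod_cast hl.coprime_iff_not_dvd.mpr fun k => h (mul_assoc A B x ▸ k.mul_left A))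
  push_cast at hk
  exact hc (jac_of_split hn hl h1 (x := v * t * y) ⟨v ^ 2 * (15 * M * (4 * l * k - B * x) +
    B ^ 2 * (A * x) * k) + A * B * u * (1 + v * B * x), by
    push_cast
    linear_combination v ^ 2 * t ^ 2 * hk - v ^ 2 * (4 * l * k - B * x) * hM -
      A * B * (1 + v * B * x) * e⟩)

end

open Tern in
/-- The prime l does not occur in the logarithmic terms. -/
theorem log_terms2 {A B x l : ℕ} (hn : Good (A * B)) (h15 : J(15 | A * B) = 1) (hx : Squarefree x)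
    (ho : Odd x) (hA : A.Coprime x) (β : ℤ) (hl : l.Prime)
    (hc : J((l : ℤ) | A * B) = 1 ∨ (l ∣ B ∧ l ∣ x) ∨
      (¬ l ∣ A * B * x ∧ ∃ y : ℤ, 4 * (l : ℤ) ∣ y ^ 2 + (B * x : ℕ))) :
    (∑ k ∈ Ico (0 : ℤ) B, (J(k | B) : ℝ) * ∑ᶠ R : Fm, if R.1 * fval R k B < 0 then
      (wG A (A * x) β R * R.1.sign : ℝ) * (Real.log |(fval R k B : ℝ)| - Real.log |(R.1 : ℝ)|) / 2
      else 0) ∈ LogS l := by
  classical
  have hw := wt_wG (A := A) (e := A * x)
    (Nat.odd_mul.mp (Nat.odd_iff.mpr (by have := hn.mod4; omega) : Odd (A * B))).1 (by simp) β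
  let φ : ℤ → ℤ → ℝ := fun a e => a.sign * (Real.log e - Real.log a - Real.log 15) / 2
  set T : Finset ℤ := (Icc (-(B ^ 2 * (A * x) : ℤ)) (B ^ 2 * (A * x))).filter fun t => t ^ 2 < B ^ 2 * (A * x) with hT
  have hTm : ∀ t, t ∈ T ↔ t ^ 2 < B ^ 2 * (A * x) := fun t => by
    rw [hT, mem_filter, mem_Icc, and_iff_right_iff_imp, ← abs_le]
    intro h
    have := Int.le_self_sq |t|
    rw [sq_abs] at this
    linarith
  have h1 : ∀ k : ℤ, (∑ᶠ R : Fm, if R.1 * fval R k B < 0 then (wG A (A * x) β R * R.1.sign : ℝ) *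
      (Real.log |(fval R k B : ℝ)| - Real.log |(R.1 : ℝ)|) / 2 else 0) = ∑ t ∈ T, ∑ᶠ R : Fm,
      if fbil (0, B, -k) R = t then (wG A (A * x) β R : ℝ) * φ (R.1 / 15) (fval R k B) else 0 := by
    intro k
    have h2 : ∀ R, wG A (A * x) β R ≠ 0 → (fbil (0, B, -k) R ∈ T ↔ R.1 * fval R k B < 0) := fun R hR => by
      have := fbil_line B k R
      rw [hw.disc R hR] at this
      rw [hTm]
      constructor <;> intro h <;> linarith
    rw [← finsum_sum_comm _ _ fun t ht => (finite_cross (x := k) (y := B) hw).subset fun R hR => by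
      have h3 : fbil (0, B, -k) R = t := by_contra fun h => hR (if_neg h)
      have h4 : wG A (A * x) β R ≠ 0 := fun h => hR (by simp [h])
      exact ⟨h4, (h2 R h4).mp (h3 ▸ ht)⟩]
    refine finsum_congr fun R => ?_
    rw [sum_ite_eq]
    by_cases h3 : wG A (A * x) β R = 0
    · simp [h3]
    refine if_ctx_congr (h2 R h3).symm (fun h4 => ?_) fun _ => rfl
    obtain ⟨a, ha⟩ := (fam_of_wG h3).1
    have h5 : a ≠ 0 := by rintro rfl; simpa [ha] using (h2 R h3).mp h4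
    simp only [φ, ha, Int.mul_ediv_cancel_left _ (by norm_num : (15 : ℤ) ≠ 0), Real.log_abs,
      Int.sign_mul, Int.cast_mul, Int.cast_ofNat]
    rw [Real.log_mul (by norm_num) (mod_cast h5), show Int.sign 15 = 1 from rfl]
    push_cast
    ring
  simp only [h1, mul_sum]
  rw [sum_comm]
  refine Submodule.sum_mem _ fun t ht => ?_
  by_cases h2 : 30 ∣ t - B * β ∧ 60 ∣ t ^ 2 - B ^ 2 * (A * x)
  swap
  · convert (LogS l).zero_mem
    refine sum_eq_zero fun k _ => mul_eq_zero_of_right _ (finsum_eq_zero_of_forall_eq_zero fun R =>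
      ite_eq_right_iff.mpr fun h3 => mul_eq_zero_of_left (Int.cast_eq_zero.mpr (by_contra fun h4 =>
        h2 ⟨by_contra fun h5 => h4 (wG_eq_zero h5 h3), ?_⟩)) _)
    obtain ⟨⟨a, ha⟩, h5, -⟩ := fam_of_wG h4
    exact ⟨a * fval R k B, by rw [← h3, ← h5, fbil_line, ha]; ring⟩
  obtain ⟨h2, M, hM⟩ := h2
  have h3 : M < 0 := by have := (hTm t).mp ht; omega
  rw [sum_Ico_zero, sum_lines (B := A) (mul_comm A B ▸ hn) (by simp) hM.symm h3.ne h2]
  have h4 := gzb_sign hn h15 hA h3 hM.symm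
  have h5 : ∑ z ∈ M.divisorsAntidiag, muW B A t z.1 z.2 * z.1.sign *
      (padicValInt l z.2 - padicValInt l z.1) = 0 := by
    by_cases h5 : J((l : ℤ) | A * B) = 1
    · exact gzb_split hn hl h5 t M
    refine sum_eq_zero fun z hz => ?_
    obtain ⟨h6, -⟩ := Int.mem_divisorsAntidiag.mp hz
    rcases hc.resolve_left h5 with ⟨k1, k2⟩ | ⟨k1, y, k2⟩
    · by_cases h7 : muP l t z.1 z.2 = 0
      · rw [muW, prod_eq_zero (Nat.mem_primeFactors.mpr ⟨hl, k1, hn.sqf.of_mul_right.ne_zero⟩) h7,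
          zero_mul, zero_mul, zero_mul]
      · rw [gzb_ram (d := A * x) hn.sqf.of_mul_right (Good.coprime30 hn).coprime_mul_left
          ((Nat.squarefree_mul hA).mpr ⟨hn.sqf.of_mul_left, hx⟩) hl k1 (k2.mul_left A)
          (by push_cast; exact h6 ▸ hM.symm) h7, sub_self, mul_zero]
    · have h7 := gzb_inert hn ho hl k1 k2 h5 hM.symm
      rw [padicValInt.eq_zero_of_not_dvd fun e => h7 (h6 ▸ e.mul_left _),
        padicValInt.eq_zero_of_not_dvd fun e => h7 (h6 ▸ e.mul_right _), sub_self, mul_zero]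
  convert Submodule.sum_mem _ (t := M.divisorsAntidiag) fun z _ => LogS.rat_mul
    ((muW B A t z.1 z.2 * z.1.sign : ℤ) / 2) (sub_mem (log_int_sub_mem hl z.2)
      (log_int_sub_mem hl z.1)) using 1
  replace h4 := congr_arg (fun z : ℤ => (z : ℝ) * (Real.log 15 / 2)) h4
  replace h5 := congr_arg (fun z : ℤ => (z : ℝ) * (Real.log l / 2)) h5
  simp only [Int.cast_sum, sum_mul, Int.cast_zero, zero_mul] at h4 h5
  rw [← add_zero (∑ _ ∈ _, _), ← h4, ← add_zero (∑ _ ∈ _, ((_ : ℚ) : ℝ) * _), ← h5, ← sum_add_distrib,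
    ← sum_add_distrib]
  refine sum_congr rfl fun z _ => ?_
  simp only [φ]
  push_cast
  ring

end Pool.Agent.Lib.MP_696deb_nt.B2
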