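import Pool.Agent.Lib.MP_696deb_nt.B2.GZa
import Pool.Agent.Lib.MP_696deb_nt.B2.GZb
import Pool.Agent.Lib.MP_696deb_nt.C5Final

set_option autoImplicit false

open Finset NumberTheorySymbols

namespace Pool.Agent.Lib.MP_696deb_nt.B2

/-- Some genus point with the even factor x has infinite order. -/
def NV (x : ℕ) : Prop := ∃ (B : ℕ) (ρ : ℤ) (T : Finset Fm), Good (x * B) ∧ J(-15 | B) = -1 ∧
  60 ∣ ρ ^ 2 + (x * B : ℕ) ∧ FReps (-(x * B : ℕ)) ρ T ∧ ¬ Tors (hP B T)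

/-- Auxiliary discriminants with a prescribed behaviour at one prime. -/
def Aux2 (A B : ℕ) : Prop := ∀ l : ℕ, l.Prime → ∃ x : ℕ, x % 60 = A % 60 ∧ NV x ∧
  (l ∣ B → l ∣ x ∧ ∃ y : ℤ, 4 * (l : ℤ) ∣ y ^ 2 + (B / l * (x / l) : ℕ)) ∧
  (¬ l ∣ B → ¬ l ∣ x ∧ (¬ l ∣ 15 → ∃ y : ℤ, 4 * (l : ℤ) ∣ y ^ 2 + (B * x : ℕ)))

theorem gzc_pair {z w u : ℂ} (hz : Unif.u15 z ∈ Alg W15) (hw : Unif.u15 w ∈ Alg W15)
    (hu : Unif.u15 u ∈ Alg W15) {a b : ℤ} (h : a • tq z = b • tq w) :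
    a * hpair (Unif.u15 z) (Unif.u15 u) = b * hpair (Unif.u15 w) (Unif.u15 u) := by
  rw [← tq_mul, ← tq_mul, tq_eq, tors_iff_u15, map_sub, ← zsmul_eq_mul, ← zsmul_eq_mul, map_zsmul,
    map_zsmul] at h
  have h5 := hbil_eq_zero_of_isOfFinAddOrder (P := a • ⟨_, hz⟩ - b • ⟨_, hw⟩)
    ((Alg W15).subtype_injective.isOfFinAddOrder_iff.mp h) ⟨_, hu⟩
  rwa [map_sub, map_zsmul, map_zsmul, AddMonoidHom.sub_apply, AddMonoidHom.zsmul_apply,
    AddMonoidHom.zsmul_apply, hbil_apply, hbil_apply, sub_eq_zero, zsmul_eq_mul,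
    zsmul_eq_mul] at h5

theorem gzc_good {q x B : ℕ} (h : Good (x * B)) (hq : q.Prime) (hB : B < q)
    (e : q % 60 = x % 60) {ρ : ℤ} (hρ : 60 ∣ ρ ^ 2 + (x * B : ℕ)) :
    Good (q * B) ∧ 60 ∣ ρ ^ 2 + (q * B : ℕ) ∧ 30 ∣ ρ * (11 * x) - 11 * q * ρ := by
  have q3 : q ≡ x [MOD 60] := e
  have q5 : q.Coprime B := Nat.coprime_of_lt_prime h.sqf.of_mul_right.ne_zero hB hq
  have q6 : q.Coprime 15 := by
    rw [Nat.Coprime, (q3.of_dvd (by norm_num : 15 ∣ 60)).gcd_eq]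
    exact h.cop.coprime_mul_right
  obtain ⟨k, hk⟩ : ∃ k : ℤ, (q : ℤ) = x + 60 * k := (q3.symm.dvd).imp fun k hk => by
    linear_combination hk
  exact ⟨⟨(Nat.squarefree_mul q5).mpr ⟨hq.squarefree, h.sqf.of_mul_right⟩, by
      rw [← h.mod4]; exact (q3.of_dvd (by norm_num)).mul_right B,
    q6.mul_left h.cop.coprime_mul_left⟩,
    Gal.dvd_eq (dvd_add hρ (dvd_mul_right 60 (k * B))) (by push_cast; rw [hk]; ring),
    ⟨-22 * k * ρ, by rw [hk]; ring⟩⟩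

theorem gzc_nsq {q x : ℕ} (hq : q.Prime) (hx : Squarefree x) (h : x < q) :
    ¬ IsSquare ((q : ℤ) * x) := by
  have h0 := Nat.pos_of_ne_zero hx.ne_zero
  exact_mod_cast GkV.not_sq ((Nat.squarefree_mul (Nat.coprime_of_lt_prime hx.ne_zero h hq)).mpr
    ⟨hq.squarefree, hx⟩) (by nlinarith [hq.one_lt])

/-- The height pairing of two genus points, when the derivative vanishes. -/
theorem gzc_log {q B x l : ℕ} (gq : Good (q * B)) (hB : J(-15 | B) = -1) (hq : q.Prime)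
    (d1 : Squarefree x) (ho : Odd x) (x1 : 1 < x) (hxq : x < q) (hl : l.Prime) (hlq : l < q) {ρ : ℤ}
    (hρ : 60 ∣ ρ ^ 2 + (q * B : ℕ)) (h30 : 30 ∣ (B : ℤ) * x + ρ * ρ) {T T' : Finset Fm}
    (hT : FReps (-(q * B : ℕ)) ρ T) (hT' : FReps (-(B * x)) ρ T')
    (d7 : l ∣ B → l ∣ x ∧ ∃ y : ℤ, 4 * (l : ℤ) ∣ y ^ 2 + (B / l * (x / l) : ℕ))
    (d8 : ¬ l ∣ B → ¬ l ∣ x ∧ (¬ l ∣ 15 → ∃ y : ℤ, 4 * (l : ℤ) ∣ y ^ 2 + (B * x : ℕ)))
    (h0 : deriv (fun s => ∑ k ∈ Ico (0 : ℤ) B, (J(k | B) : ℂ) * Ladd k B s) 1 = 0) :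
    hpair (Unif.u15 (yZ B T)) (Unif.u15 (yZ B T')) ∈ LogS l := by
  have ha := gq.adm_right
  have B1 : 1 < B := by
    rcases B with _ | _ | B
    · exact absurd rfl ha.sqf.ne_zero
    · simp at hB
    · omega
  have h15 : ¬ 15 ∣ ρ := fun h => (Gal.not_dvd_r gq hρ).1 (by omega)
  have hd : (0 : ℤ) < q * x := mul_pos (by exact_mod_cast hq.pos) (by omega)
  have hD : -(B * x : ℤ) < 0 := neg_neg_of_pos (mul_pos (by omega) (by omega))
  have hsq := gzc_nsq hq d1 hxq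
  have hsq' : ¬ IsSquare (-((q * B : ℕ) : ℤ) * -(B * x)) := fun h =>
    hsq (isSquare_of_mul_sq (d := B) (by omega) (by convert h using 1; push_cast; ring))
  obtain ⟨X, -, hx, hh⟩ := height_wZ ha hB hT h15 gq.neg (by simp) hT' h15 hD (by simp) hsq'
  obtain ⟨κ, hκ⟩ := geo_wG (A := q) gq.adm_left.odd (dvd_mul_right _ _) hd hsq x
  have hg := (geo_line hκ (A := B) (by omega) (Nat.isCoprime_iff_coprime.mpr ha.cop)
    (S := Ico (0 : ℤ) B) (χ := fun k => J(k | B))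
    (by rw [sum_Ico_zero, sum_jac_eq_zero ha.sqf ha.odd B1])
    (fun k _ hk => by
      have : NeZero B := ⟨by omega⟩
      exact Int.isCoprime_iff_gcd_eq_one.mpr (not_not.mp (mt jacobiSym.eq_zero_iff_not_coprime.mpr hk)))
    (fun k _ R hR => fval_ne hsq (hκ.disc R hR) (.inr (by omega)))
    (by rw [sum_Ico_zero]; exact perA_eq_zero2 ha hB)).2
  rw [h0, mul_zero, Complex.zero_re, zero_sub] at hg
  obtain rfl := tendsto_nhds_unique hx
    ((hg.const_mul ((-(J(15 | q) * J(-1 | B)) : ℤ) : ℝ)).congr fun ε => by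
    rw [← tsum_mul_left]
    refine tsum_congr fun t => ?_
    have e : √((-(q * B : ℕ) : ℤ) * (-(B * x) : ℤ) : ℝ) = (B : ℤ) * √((q * x : ℤ) : ℝ) := by
      rw [← Real.sqrt_sq (x := (B : ℤ)) (by positivity), ← Real.sqrt_mul (sq_nonneg _)]
      congr 1
      push_cast
      ring
    rw [e]
    by_cases h1 : (B : ℤ) ^ 2 * (q * x) < (t : ℤ) ^ 2
    · rw [symS, match_B2 gq hB (by omega) hρ h30 hT hT.cj.1 (by omega) h1, ← mul_assoc,
        ← Int.cast_mul (-(J(15 | q) * J(-1 | B)))]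
    · rw [kerK, if_neg, mul_zero, mul_zero, mul_zero]
      rw [← e, not_lt]
      refine div_le_one_of_le₀ (Real.le_sqrt_of_sq_le ?_) (Real.sqrt_nonneg _)
      exact_mod_cast (not_lt.mp h1).trans_eq
        (show _ = -((q * B : ℕ) : ℤ) * -(B * x) by push_cast; ring))
  have hJ : J(15 | q * B) = 1 := by
    rw [jac_fifteen (TYZ.jac15 gq hρ) gq.adm.odd, jacobiSym.at_neg_one gq.adm.odd,
      ZMod.χ₄_nat_three_mod_four gq.mod4, neg_neg]
  have hZ := Nat.prime_iff_prime_int.mp hl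
  obtain ⟨k1, k2⟩ : NoP l (symS T') (wZ B (-(B * x)) ρ) (-(B * x)) ∧
      (J((l : ℤ) | q * B) = 1 ∨ (l ∣ B ∧ l ∣ x) ∨
        (¬ l ∣ q * B * x ∧ ∃ y : ℤ, 4 * (l : ℤ) ∣ y ^ 2 + (B * x : ℕ))) := by
    by_cases h1 : l ∣ B
    · obtain ⟨⟨c, rfl⟩, y, h5⟩ := d7 h1
      obtain ⟨m, rfl⟩ := h1
      rw [Nat.mul_div_cancel_left _ hl.pos, Nat.mul_div_cancel_left _ hl.pos] at h5
      refine ⟨.inl ⟨fun h => hl.one_lt.ne' (Nat.eq_one_of_dvd_coprimes ha.cop (dvd_mul_right _ _) h),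
        l, -(m * c), y, by push_cast; ring, fun h => ?_, by simpa using h5⟩,
        .inr (.inl ⟨dvd_mul_right _ _, dvd_mul_right _ _⟩)⟩
      rcases hZ.dvd_or_dvd (dvd_neg.mp h) with h | h
      · exact hl.prime.not_isUnit (ha.sqf l (mul_dvd_mul_left _ (mod_cast h)))
      · exact hl.prime.not_isUnit (d1 l (mul_dvd_mul_left _ (mod_cast h)))
    obtain ⟨h2, h3⟩ := d8 h1
    have h5 : ¬ l ∣ B * x := fun h => (hl.dvd_mul.mp h).elim h1 h2
    have h6 : ¬ (l : ℤ) ∣ -(B * x) := by rw [dvd_neg]; exact_mod_cast h5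
    have h9 : ¬ l ∣ q := fun h => hlq.ne ((Nat.prime_dvd_prime_iff_eq hl hq).mp h)
    by_cases h7 : l ∣ 15
    · exact ⟨hT'.noP h15 h7 h6 (hT'.sum_gch hD ha (by simp) hB fun _ h => GkV.not_sq d1 x1
        (isSquare_of_mul_sq (d := B) (by omega) (by convert h using 1; ring))),
        .inl (jac_of_split gq hl (fun h => (hl.dvd_mul.mp h).elim h9 h1)
          ((mul_dvd_mul_left 4 (Int.natCast_dvd_natCast.mpr h7)).trans hρ))⟩
    · obtain ⟨y, h8⟩ := h3 h7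
      exact ⟨.inl ⟨h7, 1, _, y, by ring, h6, by simpa using h8⟩,
        .inr (.inr ⟨fun h => (hl.dvd_mul.mp (mul_assoc q B x ▸ h)).elim h9 h5, y, h8⟩)⟩
  have h1 := add_mem (hh l hl (.inr k1)) (LogS.int_mul (2 * -(J(15 | q) * J(-1 | B)))
    (log_terms2 gq hJ d1 ho (Nat.coprime_of_lt_prime d1.ne_zero hxq hq) x hl k2))
  convert h1 using 1
  push_cast
  ring

/-- The formula of Gross and Zagier for genus characters, in qualitative form. -/
theorem gz2 {A B : ℕ} (hn : Good (A * B)) (hB : J(-15 | B) = -1) (h12 : A % 12 ≠ 1) {ρ : ℤ}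
    (hρ : 60 ∣ ρ ^ 2 + (A * B : ℕ)) {T : Finset Fm} (hT : FReps (-(A * B : ℕ)) ρ T)
    (hy : ¬ Tors (hP B T)) (hA : Aux2 A B) :
    deriv (fun s => ∑ k ∈ range B, (J((k : ℤ) | B) : ℂ) * Ladd k B s) 1 ≠ 0 := by
  intro h0
  have ha := hn.adm_right
  have aA := hn.adm_left
  have h15 : ¬ 15 ∣ ρ := fun h => (Gal.not_dvd_r hn hρ).1 (by omega)
  have a0 := hT.alg_yZ h15 hn.neg B
  refine hy (tq_eq_zero.mp (tq_cancel two_ne_zero ?_))
  rw [← hT.tq_yZ hn.neg ha (by simp) hB, tq_eq_zero, tors_iff_u15]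
  refine isOfFinAddOrder_of_hpair a0 (eq_zero_of_mem_LogS fun l hl => ?_)
  obtain ⟨x, x60, ⟨B', ρ', T'', g', hB', hρ', hT'', hy'⟩, d7, d8⟩ := hA l hl
  have ax := g'.adm_left
  have x0 := ax.sqf.ne_zero
  have B0 := ha.sqf.ne_zero
  obtain ⟨q, q1, q2, q3⟩ := Nat.forall_exists_prime_gt_and_modEq (l + x + A + B + B') (q := 60)
    (a := A) (by norm_num) (Nat.Coprime.mul_right (m := 2 ^ 2) (n := 15)
      (Nat.Coprime.pow_right 2 (by simpa using aA.odd)) aA.cop)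
  have q4 : q % 60 = A % 60 := q3
  have q12 : q % 12 ≠ 1 := by
    rwa [show q % 12 = A % 12 from q3.of_dvd (by norm_num)]
  have x1 : 1 < x := by
    rw [← show x % 12 = A % 12 from (show x ≡ A [MOD 60] from x60).of_dvd (by norm_num)] at h12
    rcases x with _ | _ | x
    exacts [absurd rfl x0, absurd rfl h12, by simp]
  obtain ⟨gq, q7, q8⟩ := gzc_good hn q2 (by omega) q4 hρ
  obtain ⟨gq', q7', q8'⟩ := gzc_good g' q2 (by omega) (q4.trans x60.symm) hρ'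
  obtain ⟨k, hk⟩ : ∃ k : ℤ, (q : ℤ) = x + 60 * k := ⟨(q - x) / 60, by omega⟩
  have c0 : thA q (wV q) ≠ 0 := by
    obtain ⟨s, P, hs, hO, e⟩ := GkV.thA_wV (A := q) q2.squarefree gq.adm_left.odd gq.adm_left.cop
      q2.one_lt (GkV.jac_left gq q7 hB) rfl
    have p0 : P ≠ 0 := by
      rintro rfl
      simpa using hO q2 q12
    have c2 : 0 < cT q := by unfold cT; split_ifs <;> norm_num
    rw [e]
    exact mul_ne_zero (mul_ne_zero (by omega) c2.ne') (by positivity)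
  have hD : -(B * x : ℤ) < 0 := neg_neg_of_pos (mul_pos (by omega) (by omega))
  obtain ⟨T1, hT1⟩ := exists_freps gq.neg ρ
  obtain ⟨T2, hT2⟩ := exists_freps hD ρ
  obtain ⟨T3, hT3⟩ := exists_freps gq'.neg ρ'
  obtain ⟨s1, hs1, e1⟩ := gkz_A gq q2.one_lt hB (x := A) (β := 11 * A) (ρ' := ρ) (T' := T)
    (by have := aA.sqf.ne_zero; omega) (gzc_nsq q2 aA.sqf (by omega)) q7 q8 hT1
    (by simpa [mul_comm] using hT) h15
  obtain ⟨s2, hs2, e2⟩ := gkz_A gq' q2.one_lt hB' (x := x) (β := 11 * x) (ρ' := ρ') (T' := T'')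
    (by omega) (gzc_nsq q2 ax.sqf (by omega)) q7' q8' hT3 (by simpa [mul_comm] using hT'')
    fun h => (Gal.not_dvd_r g' hρ').1 (Dvd.dvd.trans (by norm_num) h)
  obtain ⟨s3, hs3, e3⟩ := gkz_A gq q2.one_lt hB (x := x) (β := 11 * x) (ρ' := ρ) (T' := T2)
    (by omega) (gzc_nsq q2 ax.sqf (by omega)) q7 ⟨-22 * k * ρ, by rw [hk]; ring⟩ hT1 hT2 h15
  rw [← tq_eq, ← Int.cast_mul, tq_mul, tq_mul] at e1 e2 e3
  have c1 : thA q (wG q (q * x) (11 * x)) ≠ 0 := fun e => by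
    rw [e, zero_smul] at e2
    exact hy' (tq_eq_zero.mp (tq_cancel (mul_ne_zero (by omega) c0) e2.symm))
  have a1 := hT1.alg_yZ h15 gq.neg B
  have a2 := hT2.alg_yZ h15 hD B
  have f1 : thA q (wG q (q * A) (11 * A)) • tq (yZ B T1) = (s1 * thA q (wV q)) • tq (yZ B T) := by
    rw [hT1.tq_yZ gq.neg ha (by simp) hB, hT.tq_yZ hn.neg ha (by simp) hB, smul_comm, e1, smul_comm]
  have f3 : thA q (wG q (q * x) (11 * x)) • tq (yZ B T1) = (s3 * thA q (wV q)) • tq (yZ B T2) := by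
    rw [hT1.tq_yZ gq.neg ha (by simp) hB, hT2.tq_yZ hD ha (by simp) hB, smul_comm, e3, smul_comm]
  have p1 := gzc_pair a1 a0 a0 f1
  have p2 := gzc_pair a1 a0 a1 f1
  have p3 := gzc_pair a1 a2 a1 f3
  have hL := gzc_log gq hB q2 ax.sqf ax.odd x1 (by omega) hl (by omega) q7
    (by
      obtain ⟨j, hj⟩ := q7
      exact ⟨2 * j - 2 * k * B, by push_cast at hj; rw [hk] at hj; linear_combination hj⟩)
    hT1 hT2 d7 d8 (by simpa only [sum_Ico_zero] using h0)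
  rw [hpair_comm] at hL
  rw [hpair_comm (Unif.u15 (yZ B T))] at p2
  generalize thA q (wG q (q * A) (11 * A)) = a at p1 p2
  generalize thA q (wG q (q * x) (11 * x)) = c at p3 c1
  have s0 : s1 * thA q (wV q) ≠ 0 := mul_ne_zero (by omega) c0
  generalize s1 * thA q (wV q) = b at p1 p2 s0
  generalize s3 * thA q (wV q) = b' at p3
  refine LogS.of_mul (r := (c * b ^ 2 : ℤ)) (by exact_mod_cast mul_ne_zero c1 (pow_ne_zero 2 s0)) ?_
  convert LogS.int_mul (a ^ 2 * b') hL using 1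
  push_cast
  linear_combination a ^ 2 * p3 - c * a * p2 - c * b * p1

end Pool.Agent.Lib.MP_696deb_nt.B2
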