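import Pool.Agent.Lib.MP_696deb_nt.B2.D0

set_option autoImplicit false

open scoped Classical
open Finset

namespace Pool.Agent.Lib.MP_696deb_nt.B2

theorem gze_cnt {m k : ℕ} (a N : ℕ) (hk : k.Coprime m) :
    (((range N).filter fun j => k * k ∣ a + m * j).card : ℝ) ≤ N * ((k : ℝ) ^ 2)⁻¹ + 1 := by
  have h : ((range N).filter fun j => k * k ∣ a + m * j).card ≤ (range (N / (k * k) + 1)).card := by
    refine card_le_card_of_injOn (fun j => j / (k * k)) (fun j hj => ?_) fun j hj j' hj' e => ?_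
    · have h1 := mem_range.1 (mem_filter.1 hj).1
      exact mem_coe.2 (mem_range.2 (Nat.lt_succ_of_le (Nat.div_le_div_right h1.le)))
    · have h1 : a + m * j ≡ a + m * j' [MOD k * k] :=
        ((Nat.modEq_zero_iff_dvd).2 (mem_filter.1 hj).2).trans
          ((Nat.modEq_zero_iff_dvd).2 (mem_filter.1 hj').2).symm
      exact Nat.ext_div_modEq e (Nat.ModEq.cancel_left_of_coprime (hk.mul_left hk)
        (Nat.ModEq.add_left_cancel' a h1))
  rw [card_range] at h
  refine (Nat.cast_le.2 h).trans ?_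
  rw [Nat.cast_add, Nat.cast_one, ← div_eq_mul_inv, sq, ← Nat.cast_mul]
  exact add_le_add_left Nat.cast_div_le 1

theorem gze_low {m a : ℕ} (h30 : 30 ∣ m) (ha : a.Coprime m) (h : a < m) {N : ℕ} (hN : 9 * m ≤ N) :
    (N : ℝ) / 2 ≤ ((range N).filter fun j => Squarefree (a + m * j)).card := by
  have h1 : range N ⊆ ((range N).filter fun j => Squarefree (a + m * j)) ∪
      ((Ioc 6 (6 + Nat.sqrt (m * N))).filter fun k => k.Coprime m).biUnion
        fun k => (range N).filter fun j => k * k ∣ a + m * j := fun j hj => by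
    rw [mem_union, or_iff_not_imp_left]
    intro k
    rw [mem_filter, Nat.squarefree_iff_prime_squarefree, not_and] at k
    have k1 := k hj
    push Not at k1
    obtain ⟨p, hp, k2⟩ := k1
    have k3 : ¬ p ∣ m := fun e => hp.one_lt.ne' (Nat.eq_one_of_dvd_coprimes ha
      ((Nat.dvd_add_left (e.mul_right j)).1 ((dvd_mul_right p p).trans k2)) e)
    have k4 : 6 < p := by
      by_contra k5
      refine k3 (Dvd.dvd.trans ?_ h30)
      have k6 : p ≤ 6 := not_lt.1 k5
      interval_cases p <;> first | decide | exact absurd hp (by decide)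
    have a0 : a ≠ 0 := by
      rintro rfl
      rw [Nat.coprime_zero_left] at ha
      omega
    have k5 : p ≤ Nat.sqrt (m * N) := Nat.le_sqrt.2 ((Nat.le_of_dvd (by omega) k2).trans (by
      have := Nat.mul_le_mul_left m (Nat.succ_le_of_lt (mem_range.1 hj))
      rw [Nat.mul_succ] at this
      omega))
    exact mem_biUnion.2 ⟨p, mem_filter.2 ⟨mem_Ioc.2 ⟨k4, by omega⟩, hp.coprime_iff_not_dvd.2 k3⟩,
      mem_filter.2 ⟨hj, k2⟩⟩
  have h2 := (card_le_card h1).trans ((card_union_le _ _).trans (add_le_add_right card_biUnion_le _))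
  rw [card_range] at h2
  have h3 : (N : ℝ) ≤ _ := Nat.cast_le.2 h2
  rw [Nat.cast_add, Nat.cast_sum] at h3
  have h4 := (sum_le_sum fun k (hk : k ∈ (Ioc 6 (6 + Nat.sqrt (m * N))).filter
    fun k => k.Coprime m) => gze_cnt a N (mem_filter.1 hk).2).trans
    (sum_le_sum_of_subset_of_nonneg (filter_subset _ _) fun _ _ _ => by positivity)
  rw [sum_add_distrib, ← mul_sum, sum_const, Nat.card_Ioc, Nat.add_sub_cancel_left,
    nsmul_one] at h4
  have h5 := sum_Ioc_inv_sq_le_sub (α := ℝ) (k := 6) (n := 6 + Nat.sqrt (m * N)) (by norm_num)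
    (by omega)
  have h6 : (0 : ℝ) ≤ ((6 + Nat.sqrt (m * N) : ℕ) : ℝ)⁻¹ := by positivity
  have h7 : 3 * Nat.sqrt (m * N) ≤ N := by
    have := Nat.sqrt_le (m * N)
    by_contra k
    nlinarith
  have h8 : 3 * (Nat.sqrt (m * N) : ℝ) ≤ N := by exact_mod_cast h7
  have h9 := mul_le_mul_of_nonneg_left (h5.trans (sub_le_self _ h6)) (Nat.cast_nonneg (α := ℝ) N)
  norm_num at h9
  linarith

/-- A property that holds for almost all squarefree numbers holds for one in each progression. -/
theorem exists_in_class {P : ℤ → Prop} (hP : ∀ ε : ℝ, 0 < ε → ∃ X0 : ℕ, ∀ X ≥ X0,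
      (((Icc (-(X : ℤ)) X).filter fun d => Squarefree d ∧ ¬ P d).card : ℝ) ≤ ε * X)
    {s : ℤ} (hs : s = 1 ∨ s = -1) {c m a : ℕ} (hc : Squarefree c) (hm : m ≠ 0) (h30 : 30 ∣ m)
    (hcm : c ∣ m) (ha : a.Coprime m) :
    ∃ x : ℕ, x % m = a % m ∧ Squarefree (c * x) ∧ P (s * (c * x : ℕ)) := by
  by_contra hx
  push Not at hx
  have c0 := Nat.pos_of_ne_zero hc.ne_zero
  have m0 := Nat.pos_of_ne_zero hm
  obtain ⟨X0, h1⟩ := hP (1 / (4 * (c * m))) (by positivity)
  have ha' : (a % m).Coprime m := by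
    rw [Nat.Coprime, (Nat.mod_modEq a m).gcd_eq]
    exact ha
  have h2 := gze_low h30 ha' (Nat.mod_lt _ m0)
    (N := X0 + 9 * m) (by omega)
  have h3 := h1 (c * m * (X0 + 9 * m)) (le_trans (by omega) (Nat.le_mul_of_pos_left _ (by positivity)))
  generalize hN : X0 + 9 * m = N at h2 h3
  have h4 : ((range N).filter fun j => Squarefree (a % m + m * j)).card ≤
      ((Icc (-((c * m * N : ℕ) : ℤ)) (c * m * N : ℕ)).filter fun d => Squarefree d ∧ ¬ P d).card := by
    refine card_le_card_of_injOn (fun j => s * (c * (a % m + m * j) : ℕ)) (fun j hj => ?_)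
      fun j _ j' _ e => ?_
    · obtain ⟨k1, k2⟩ := mem_filter.1 hj
      have k3 : Squarefree (c * (a % m + m * j)) := by
        refine (Nat.squarefree_mul (Nat.Coprime.coprime_dvd_left hcm ?_)).2 ⟨hc, k2⟩
        rw [Nat.coprime_add_mul_left_right]
        exact ha'.symm
      have k4 : c * (a % m + m * j) ≤ c * m * N := by
        rw [mul_assoc]
        refine Nat.mul_le_mul_left c ?_
        have := Nat.mul_le_mul_left m (Nat.succ_le_of_lt (mem_range.1 k1))
        have := Nat.mod_lt a m0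
        rw [Nat.mul_succ] at *
        omega
      refine mem_coe.2 (mem_filter.2 ⟨mem_Icc.2 ?_, ?_, hx _ (by simp) k3⟩)
      · dsimp only
        rcases hs with rfl | rfl <;> omega
      · rw [← Int.squarefree_natAbs, Int.natAbs_mul, Int.natAbs_natCast]
        rcases hs with rfl | rfl <;> simpa using k3
    · have k1 := mul_left_cancel₀ (show s ≠ 0 by omega) e
      exact Nat.eq_of_mul_eq_mul_left m0
        (Nat.add_left_cancel (Nat.eq_of_mul_eq_mul_left c0 (Nat.cast_injective k1)))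
  have h5 := h2.trans ((Nat.cast_le.2 h4).trans h3)
  have h6 : (1 / (4 * (c * m)) : ℝ) * (c * m * N : ℕ) = N / 4 := by
    push_cast
    field_simp
  have h7 : (0 : ℝ) < N := Nat.cast_pos.2 (by omega)
  linarith

end Pool.Agent.Lib.MP_696deb_nt.B2
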