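import Pool.Agent.Lib.MP_696deb_nt.B2.GZc
import Pool.Agent.Lib.MP_696deb_nt.B2.GZe
import Pool.Agent.Lib.MP_696deb_nt.B2.Ctx

set_option autoImplicit false

open scoped Classical
open Finset NumberTheorySymbols

namespace Pool.Agent.Lib.MP_696deb_nt.B2

/-- Almost all twists have Selmer corank at most one. -/
def SmithStmt : Prop := ∀ ε : ℝ, 0 < ε → ∃ X0 : ℕ, ∀ X ≥ X0,
  (((Icc (-(X : ℤ)) X).filter fun d => Squarefree d ∧ ¬ Cork d).card : ℝ) ≤ ε * X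

theorem gzf_core (hS : SmithStmt)
    (hN : ∀ d : ℤ, Cls0 d → J(-15 | d.natAbs) = 1 → Cork d → NV d.natAbs) {A c m a : ℕ}
    (hA : MP_696deb_nt.Adm A) (hJ : J(-15 | A) = 1) (hc : Squarefree c) (hm : m ≠ 0) (h60 : 60 ∣ m)
    (hcm : c ∣ m) (ha : a.Coprime m) (e : c * a ≡ A [MOD 60]) :
    ∃ x : ℕ, x ≡ a [MOD m] ∧ c * x % 60 = A % 60 ∧ NV (c * x) := by
  have a2 := Nat.odd_iff.1 hA.odd
  have a3 : ¬ 3 ∣ A := fun h => absurd (Nat.eq_one_of_dvd_coprimes hA.cop h (by decide)) (by decide)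
  have a5 : ¬ 5 ∣ A := fun h => absurd (Nat.eq_one_of_dvd_coprimes hA.cop h (by decide)) (by decide)
  obtain ⟨s, hs, h4⟩ : ∃ s : ℤ, (s = 1 ∨ s = -1) ∧ s % 4 = A % 4 := by
    by_cases h : A % 4 = 1
    exacts [⟨1, .inl rfl, by omega⟩, ⟨-1, .inr rfl, by omega⟩]
  obtain ⟨x, h1, h2, h3⟩ := exists_in_class hS hs hc hm (Dvd.dvd.trans (by decide) h60) hcm ha
  have h5 : c * x % 60 = A % 60 := ((Nat.ModEq.of_dvd h60 h1).mul_left c).trans e
  refine ⟨x, h1, h5, ?_⟩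
  generalize c * x = y at h2 h3 h5
  have h6 : (s * y).natAbs = y := by rcases hs with rfl | rfl <;> simp
  rw [← h6]
  refine hN _ ⟨by rwa [← Int.squarefree_natAbs, h6], ?_, ?_, ?_⟩ ?_ h3
  iterate 3 rcases hs with rfl | rfl <;> omega
  rw [h6, GInd.jac15_mod (by omega), show y % 15 = A % 15 by omega, ← GInd.jac15_mod a2, hJ]

theorem gzf_main (hS : SmithStmt)
    (hN : ∀ d : ℤ, Cls0 d → J(-15 | d.natAbs) = 1 → Cork d → NV d.natAbs) {A b c l : ℕ}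
    (hn : Good (A * (c * b))) (hJ : J(-15 | A) = 1) (hl : l ≠ 0) (h15 : l.Coprime 15)
    (hcl : c ∣ l) (hb : b.Coprime l) :
    ∃ x : ℕ, c * x % 60 = A % 60 ∧ NV (c * x) ∧ 4 * l ∣ b * x + 1 := by
  have hA := hn.adm_left
  have hB := hn.adm_right
  have b4 : b.Coprime (4 * l) := Nat.Coprime.mul_right (m := 2 ^ 2)
    (Nat.Coprime.pow_right 2 (by simpa using (Nat.odd_mul.1 hB.odd).2)) hb
  obtain ⟨a1, -, e1⟩ := Nat.exists_mul_mod_eq_of_coprime A hB.cop.coprime_mul_right (by decide)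
  obtain ⟨a2, -, e2⟩ := Nat.exists_mul_mod_eq_of_coprime (4 * l - 1) b4 (by omega)
  obtain ⟨a, e3, e4⟩ := Nat.chineseRemainder (Nat.Coprime.mul_left (by decide : Nat.Coprime 4 15) h15)
    a2 a1
  have e5 : c * a ≡ A [MOD 15] := (e4.mul_left c).trans e1
  have e6 : ∀ x, x ≡ a [MOD 4 * l] → 4 * l ∣ b * x + 1 := fun x hx => by
    have := ((((hx.trans e3).mul_left b).trans e2).add_right 1).symm
    rw [show 4 * l - 1 + 1 = 4 * l by omega] at this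
    exact (this.dvd_iff dvd_rfl).1 dvd_rfl
  have e7 : c * a ≡ A [MOD 4] := by
    have k1 : b * a % 4 = 3 := by
      have := (dvd_mul_right 4 l).trans (e6 a rfl)
      omega
    have k2 := hn.mod4
    have k3 := Nat.odd_iff.1 (Nat.odd_mul.1 hB.odd).1
    rw [Nat.mul_mod, Nat.mul_mod c] at k2
    rw [Nat.mul_mod] at k1
    rw [Nat.ModEq, Nat.mul_mod]
    have k4 : c % 4 = 1 ∨ c % 4 = 3 := by omega
    have k5 := Nat.mod_lt a (by decide : 0 < 4)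
    have k6 := Nat.mod_lt b (by decide : 0 < 4)
    have k7 := Nat.mod_lt A (by decide : 0 < 4)
    generalize a % 4 = u, b % 4 = v, A % 4 = w at *
    rcases k4 with k4 | k4 <;> rw [k4] at k2 ⊢ <;> interval_cases u <;> interval_cases v <;> omega
  obtain ⟨x, h1, h2, h3⟩ := gzf_core hS hN hA hJ hB.sqf.of_mul_left (m := 4 * l * 15) (a := a)
    (by omega) ⟨l, by ring⟩ ((hcl.mul_left 4).mul_right 15)
    (Nat.Coprime.mul_right (Nat.Coprime.coprime_dvd_right (e6 a rfl) (by simp))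
      (Nat.Coprime.coprime_mul_left (k := c) (by rw [Nat.Coprime, e5.gcd_eq]; exact hA.cop)))
    ((Nat.modEq_and_modEq_iff_modEq_mul (by decide : Nat.Coprime 4 15)).1 ⟨e7, e5⟩)
  exact ⟨x, h2, h3, e6 x (h1.of_mul_right 15)⟩

theorem aux2_of (hS : SmithStmt)
    (hN : ∀ d : ℤ, Cls0 d → J(-15 | d.natAbs) = 1 → Cork d → NV d.natAbs) {A B : ℕ}
    (hn : Good (A * B)) (hB : J(-15 | B) = -1) {ρ : ℤ} (hρ : 60 ∣ ρ ^ 2 + (A * B : ℕ)) :
    Aux2 A B := by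
  intro l hl
  have hJ := GkV.jac_left hn hρ hB
  have hA := hn.adm_left
  have hb := hn.adm_right
  have key : ∀ n : ℕ, 4 * l ∣ n + 1 → ∃ y : ℤ, 4 * (l : ℤ) ∣ y ^ 2 + n := fun n h =>
    ⟨1, by rw [one_pow, add_comm]; exact_mod_cast h⟩
  by_cases h15 : l ∣ 15
  · obtain ⟨x, h1, h2, h3⟩ := gzf_core hS hN hA hJ squarefree_one (m := 60) (a := A) (by decide)
      dvd_rfl (one_dvd _) (Nat.Coprime.mul_right (m := 2 ^ 2) (n := 15)
        (Nat.Coprime.pow_right 2 (by simpa using hA.odd)) hA.cop) (by rw [one_mul])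
    exact ⟨x, h1, one_mul x ▸ h3,
      fun h => absurd (Nat.eq_one_of_dvd_coprimes hb.cop h h15) hl.one_lt.ne',
      fun _ => ⟨fun h => hl.one_lt.ne' (Nat.eq_one_of_dvd_coprimes hA.cop
        ((h1.dvd_iff (h15.trans (by decide))).1 h) h15), fun h => absurd h15 h⟩⟩
  have hc := hl.coprime_iff_not_dvd.2 h15
  by_cases h : l ∣ B
  · obtain ⟨b, rfl⟩ := h
    obtain ⟨x, h1, h2, h3⟩ := gzf_main hS hN hn hJ hl.ne_zero hc dvd_rfl
      (Nat.coprime_of_squarefree_mul hb.sqf).symm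
    refine ⟨l * x, h1, h2, fun _ => ⟨dvd_mul_right _ _, ?_⟩, fun h => absurd (dvd_mul_right _ _) h⟩
    rw [Nat.mul_div_cancel_left _ hl.pos, Nat.mul_div_cancel_left _ hl.pos]
    exact key _ h3
  · obtain ⟨x, h1, h2, h3⟩ := gzf_main hS hN (c := 1) (b := B) (by rwa [one_mul]) hJ hl.ne_zero hc
      (one_dvd _) (hl.coprime_iff_not_dvd.2 h).symm
    rw [one_mul] at h1 h2
    exact ⟨x, h1, h2, fun k => absurd k h, fun _ => ⟨fun k => hl.one_lt.ne' (Nat.dvd_one.1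
      ((Nat.dvd_add_right (k.mul_left B)).1 ((dvd_mul_left l 4).trans h3))), fun _ => key _ h3⟩⟩

end Pool.Agent.Lib.MP_696deb_nt.B2
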