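import Pool.Agent.Lib.MP_696deb_nt.B2.XTW
import Pool.Agent.Lib.MP_696deb_nt.B2.XLc

/-! Weighted sums of Heegner points and their derivatives. -/

set_option autoImplicit false

open scoped NNReal Classical
open Finset Matrix NumberTheorySymbols PowerSeries

namespace Pool.Agent.Lib.MP_696deb_nt.B2

variable {n k l c c' c'' q : ℕ} {S : HS n} {T : Tate} {g h : Gam} {w : Plc} {P : EE}

theorem kd_pr (h : Adm n c'') (h1 : c ∣ c') (h2 : c' ∣ c'') (a : S.C c'') :
    S.pr c c' (S.pr c' c'' a) = S.pr c c'' a := by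
  obtain ⟨g, hg, rfl⟩ := S.surj _ h a
  rw [S.pr_ψ _ _ h h2 g hg, S.pr_ψ _ _ (h.of_dvd h2) h1 g hg, S.pr_ψ _ _ h (h1.trans h2) g hg]

theorem kd_pr_self (h : Adm n c) (a : S.C c) : S.pr c c a = a := by
  obtain ⟨g, hg, rfl⟩ := S.surj _ h a
  exact S.pr_ψ _ _ h dvd_rfl g hg

theorem kd_one (h : Adm n c) : S.ψ c 1 = 1 := by
  simpa using S.mul _ h 1 (one_mem _) 1 (one_mem _)

theorem kd_inv (h : Adm n c) (hg : g ∈ GK n) : S.ψ c g⁻¹ = (S.ψ c g)⁻¹ := by
  rw [_root_.eq_inv_iff_mul_eq_one, ← S.mul _ h _ (inv_mem hg) _ hg, inv_mul_cancel, kd_one h]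

theorem kd_ker (h : Adm n c') (h1 : c ∣ c') (hg : g ∈ GK n) (e : S.ψ c' g = 1) : S.ψ c g = 1 := by
  rw [← S.pr_ψ _ _ h h1 g hg, e, map_one]

/-- The class of an element of the decomposition group of an inert prime is trivial. -/
theorem kd_dec (h : Adm n c) (hw : ¬ w.p ∣ c) (hI : Ine w ≤ GK n) (h' : fr w ∉ GK n)
    (hg : g ∈ GK n ⊓ Dec w) : S.ψ c g = 1 := by
  obtain ⟨U, u1, -, u3⟩ := S.sm c h
  obtain ⟨m, σ, hσ, e, -⟩ := dec_gen_inert (fr_spec w) h' hI hg u1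
  have h2 := mul_mem_GK h' h'
  have h3 : ∀ m : ℕ, S.ψ c ((fr w * fr w) ^ m) = 1 := fun m => by
    induction m with
    | zero => rw [pow_zero, kd_one h]
    | succ m ih => rw [pow_succ, S.mul _ h _ (pow_mem h2 m) _ h2, ih, S.dih c h _ h', one_mul]
  rw [← u3 _ (mul_mem (pow_mem h2 m) (hI hσ)) g hg.1 e, S.mul _ h _ (pow_mem h2 m) _ (hI hσ), h3,
    S.unr c w h hw σ ⟨hI hσ, hσ⟩, one_mul]

/-- The points that are defined over the ring class field. -/
noncomputable def HS.Fx (S : HS n) (c : ℕ) : AddSubgroup EE where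
  carrier := {P | ∀ g ∈ GK n, S.ψ c g = 1 → g • P = P}
  zero_mem' g _ _ := smul_zero g
  add_mem' h k g hg e := by rw [smul_add, h g hg e, k g hg e]
  neg_mem' h g hg e := by rw [smul_neg, h g hg e]

theorem kd_fx_le (h : Adm n c') (h1 : c ∣ c') : S.Fx c ≤ S.Fx c' :=
  fun _ hP g hg e => hP g hg (kd_ker h h1 hg e)

theorem kd_y (h : Adm n c) (a : S.C c) : S.y c a ∈ S.Fx c := fun g hg e => by
  rw [S.gal c h g hg, e, one_mul]

theorem kd_fx_smul (h : Adm n c) (hg : g ∈ GK n) (hP : P ∈ S.Fx c) : g • P ∈ S.Fx c := by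
  intro s hs e
  have h1 : g⁻¹ * s * g ∈ GK n := mul_mem (mul_mem (inv_mem hg) hs) hg
  have h2 := hP _ h1 (by
    rw [S.mul _ h _ (mul_mem (inv_mem hg) hs) _ hg, S.mul _ h _ (inv_mem hg) _ hs, e, kd_inv h hg,
      mul_one, inv_mul_cancel])
  rw [mul_smul, mul_smul, inv_smul_eq_iff] at h2
  exact h2

/-- Torsion points over ring class fields are killed by four. -/
theorem kd_four (T : Tate) (hn : Nok n) (h : Adm n c) (hP : P ∈ S.Fx c) (e : 2 ^ k • P = 0) :
    4 • P = 0 := by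
  refine (T.fix_I30 e fun g hg => ?_).1
  have key : I30 ≤ (MulAction.stabilizer Gam P) := iSup_le fun v σ hσ => by
    have h1 : σ ∈ GK n := hn.I30_le (Subgroup.mem_iSup_of_mem v hσ)
    exact hP σ h1 (S.unr c v.1 h (fun k => (h.2 _ v.1.prime k).1 v.2) σ ⟨h1, hσ⟩)
  exact key hg

theorem kd_uniq (T : Tate) (hn : Nok n) (h : Adm n c) {P' : EE} (hP : P ∈ S.Fx c)
    (hP' : P' ∈ S.Fx c) (e : 2 ^ k • P = 2 ^ k • P') : 4 • P = 4 • P' := by
  rw [← sub_eq_zero, ← smul_sub]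
  exact kd_four T hn h (sub_mem hP hP') (by rw [smul_sub, e, sub_self])

/-- Weighted traces. -/
noncomputable def HS.F (S : HS n) (l c : ℕ) (W : S.C c → ℤ) (x : S.C l) : EE :=
  ∑ a with S.pr l c a = x, W a • S.y c a

theorem kd_F_fx (h : Adm n c) (W : S.C c → ℤ) (x : S.C l) : S.F l c W x ∈ S.Fx c :=
  sum_mem fun a _ => zsmul_mem (kd_y h a) _

theorem kd_F_add (W W' : S.C c → ℤ) (x : S.C l) :
    S.F l c (fun a => W a + W' a) x = S.F l c W x + S.F l c W' x := by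
  simp only [HS.F, add_smul, sum_add_distrib]

theorem kd_F_sub (W W' : S.C c → ℤ) (x : S.C l) :
    S.F l c (fun a => W a - W' a) x = S.F l c W x - S.F l c W' x := by
  simp only [HS.F, sub_smul, sum_sub_distrib]

theorem kd_F_mul (m : ℤ) (W : S.C c → ℤ) (x : S.C l) :
    S.F l c (fun a => m * W a) x = m • S.F l c W x := by
  simp only [HS.F, mul_smul, smul_sum]

theorem kd_F_smul (h : Adm n c) (hl : l ∣ c) (hg : g ∈ GK n) (W : S.C c → ℤ) (x : S.C l) :
    g • S.F l c W ((S.ψ l g)⁻¹ * x) = S.F l c (fun a => W ((S.ψ c g)⁻¹ * a)) x := by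
  unfold HS.F
  rw [smul_sum]
  refine sum_bijective (fun a => S.ψ c g * a) (Group.mulLeft_bijective _) (fun a => ?_)
    fun a _ => ?_
  · simp only [mem_filter, mem_univ, true_and, map_mul, S.pr_ψ _ _ h hl g hg]
    exact eq_inv_mul_iff_mul_eq
  · simp only [smul_comm g, S.gal c h g hg, inv_mul_cancel_left]

/-- Sums over the fibres of two projections. -/
theorem kd_fib (h : Adm n c') (hl : l ∣ c) (h1 : c ∣ c') {M : Type} [AddCommMonoid M]
    (f : S.C c' → M) (x : S.C l) : ∑ a with S.pr l c' a = x, f a =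
      ∑ b with S.pr l c b = x, ∑ a with S.pr c c' a = b, f a := by
  rw [← sum_fiberwise_of_maps_to (t := univ.filter fun b => S.pr l c b = x) (g := S.pr c c')]
  · refine sum_congr rfl fun b hb => sum_congr ?_ fun _ _ => rfl
    ext a
    simp only [mem_filter, mem_univ, true_and] at hb ⊢
    exact ⟨fun e => e.2, fun e => ⟨by rw [← kd_pr h hl h1, e, hb], e⟩⟩
  · intro a ha
    simp only [mem_filter, mem_univ, true_and] at ha ⊢
    rw [kd_pr h hl h1, ha]

theorem kd_F_pr (hq : q.Prime) (h : Adm n (c * q)) (hl : l ∣ c) (W : S.C c → ℤ) (x : S.C l) :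
    S.F l (c * q) (fun a => W (S.pr c (c * q) a)) x = a15 q • S.F l c W x := by
  unfold HS.F
  rw [kd_fib h hl (dvd_mul_right c q), smul_sum]
  refine sum_congr rfl fun b _ => ?_
  rw [smul_comm, ← S.trace c q hq h b, smul_sum]
  exact sum_congr rfl fun a ha => by simp only [(mem_filter.1 ha).2]

/-- Weights whose traces are divisible over the ring class field. -/
def HS.Dv (S : HS n) (k l c : ℕ) (W : S.C c → ℤ) : Prop :=
  ∀ x, ∃ P ∈ S.Fx c, 2 ^ k • P = S.F l c W x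

theorem HS.Dv.add {W W' : S.C c → ℤ} (h : S.Dv k l c W) (h' : S.Dv k l c W') :
    S.Dv k l c fun a => W a + W' a := fun x => by
  obtain ⟨P, h1, h2⟩ := h x
  obtain ⟨P', h3, h4⟩ := h' x
  exact ⟨P + P', add_mem h1 h3, by rw [smul_add, h2, h4, kd_F_add]⟩

theorem kd_dv_two (h : Adm n c) {W : S.C c → ℤ} (e : ∀ a, (2 : ℤ) ^ k ∣ W a) : S.Dv k l c W := by
  choose V hV using e
  intro x
  refine ⟨_, kd_F_fx h V x, ?_⟩
  rw [show W = fun a => 2 ^ k * V a from funext hV, kd_F_mul, ← natCast_zsmul, Nat.cast_pow,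
    Nat.cast_ofNat]

theorem kd_dv_sum (h : Adm n c) {ι : Type} (s : Finset ι) {W : ι → S.C c → ℤ}
    (e : ∀ i ∈ s, S.Dv k l c (W i)) : S.Dv k l c fun a => ∑ i ∈ s, W i a := by
  induction s using Finset.induction_on with
  | empty => exact kd_dv_two h fun _ => by simp
  | insert i s hi ih =>
    simp only [sum_insert hi]
    exact (e i (mem_insert_self _ _)).add (ih fun j hj => e j (mem_insert_of_mem hj))

theorem kd_dv_pr (hq : q.Prime) (h : Adm n c') (e : c' = c * q) (hl : l ∣ c)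
    (ha : (2 : ℤ) ^ k ∣ a15 q) (W : S.C c → ℤ) : S.Dv k l c' fun a => W (S.pr c c' a) := by
  subst e
  obtain ⟨m, hm⟩ := ha
  intro x
  refine ⟨m • S.F l c W x, zsmul_mem (kd_fx_le h (dvd_mul_right c q)
    (kd_F_fx (h.of_dvd (dvd_mul_right c q)) W x)) m, ?_⟩
  rw [kd_F_pr hq h hl, hm, mul_smul, ← natCast_zsmul, Nat.cast_pow, Nat.cast_ofNat]

end Pool.Agent.Lib.MP_696deb_nt.B2
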