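import Pool.Agent.Lib.MP_696deb_nt.B2.KDa

/-! The torsion valued cocycles of Kolyvagin. -/

set_option autoImplicit false

open scoped NNReal Classical
open Finset Matrix NumberTheorySymbols PowerSeries

namespace Pool.Agent.Lib.MP_696deb_nt.B2

variable {n k l c c' q : ℕ} {S : HS n} {T : Tate} {g h : Gam} {w : Plc} {P : EE}

/-- Roots of a weighted trace and of its derivatives. -/
structure KD (S : HS n) (k l c : ℕ) (W : S.C c → ℤ) (R : S.C l → EE)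
    (D : S.C c → S.C l → EE) : Prop where
  nok : Nok n
  adm : Adm n c
  dvd : l ∣ c
  hR : ∀ x, 2 ^ k • R x = S.F l c W x
  hD : ∀ b x, 2 ^ k • D b x = S.F l c (fun a => W (b⁻¹ * a) - W a) x
  fx : ∀ b x, D b x ∈ S.Fx c

/-- The cocycle. -/
noncomputable def HS.tt (S : HS n) (l c : ℕ) (R : S.C l → EE) (D : S.C c → S.C l → EE) (g : Gam)
    (x : S.C l) : EE := 4 • (g • R ((S.ψ l g)⁻¹ * x) - R x - D (S.ψ c g) x)

variable {W : S.C c → ℤ} {R : S.C l → EE} {D : S.C c → S.C l → EE}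

theorem exists_KD (hn : Nok n) (h : Adm n c) (hl : l ∣ c)
    (e : ∀ b, S.Dv k l c fun a => W (b⁻¹ * a) - W a) : ∃ R D, KD S k l c W R D := by
  choose D h1 h2 using e
  choose R hR using fun x => lo3_half k (S.F l c W x)
  exact ⟨R, D, hn, h, hl, hR, h2, h1⟩

theorem KD.tors (K : KD S k l c W R D) (hg : g ∈ GK n) (x : S.C l) :
    2 ^ k • S.tt l c R D g x = 0 := by
  rw [HS.tt, smul_comm, smul_sub (2 ^ k), smul_sub (2 ^ k), smul_comm _ g, K.hR, K.hR, K.hD,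
    kd_F_smul K.adm K.dvd hg, kd_F_sub, sub_self, smul_zero]

theorem KD.one (K : KD S k l c W R D) (T : Tate) (x : S.C l) : 4 • D 1 x = 0 :=
  kd_four T K.nok K.adm (K.fx 1 x) (k := k) (by simp [K.hD, HS.F])

theorem KD.of_ker (K : KD S k l c W R D) (T : Tate) (hg : g ∈ GK n) (e : S.ψ c g = 1)
    (x : S.C l) : S.tt l c R D g x = g • 4 • R x - 4 • R x := by
  rw [HS.tt, kd_ker K.adm K.dvd hg e, e, smul_sub, K.one T, inv_one, one_mul, sub_zero, smul_sub,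
    smul_comm g]

theorem KD.coc (K : KD S k l c W R D) (T : Tate) (hg : g ∈ GK n) (hh : h ∈ GK n) (x : S.C l) :
    S.tt l c R D (g * h) x = S.tt l c R D g x + g • S.tt l c R D h ((S.ψ l g)⁻¹ * x) := by
  have e : 4 • D (S.ψ c (g * h)) x =
      4 • (D (S.ψ c g) x + g • D (S.ψ c h) ((S.ψ l g)⁻¹ * x)) := by
    refine kd_uniq T K.nok K.adm (K.fx _ _) (add_mem (K.fx _ _) (kd_fx_smul K.adm hg (K.fx _ _)))
      (k := k) ?_
    rw [smul_add, smul_comm _ g, K.hD, K.hD, K.hD, kd_F_smul K.adm K.dvd hg, ← kd_F_add,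
      S.mul _ K.adm g hg h hh]
    congr 1
    funext a
    rw [_root_.mul_inv_rev, mul_assoc]
    ring
  unfold HS.tt
  rw [smul_sub, e, S.mul _ (K.adm.of_dvd K.dvd) g hg h hh, _root_.mul_inv_rev, mul_assoc, mul_smul,
    smul_comm g 4, ← smul_sub, ← smul_add, smul_sub g, smul_sub g]
  congr 1
  abel

theorem KD.sm (K : KD S k l c W R D) : Sm (GK n) (S.tt l c R D) := by
  have h1 : Sm (GK n) fun (g : Gam) (x : S.C l) => g • R x := Sm.pi fun x => sm_pt _ _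
  obtain ⟨U, u1, u2, u3⟩ := Sm.comp₂ h1 (S.sm c K.adm) Prod.mk
  refine ⟨U, u1, u2, fun g hg h hh e => funext fun x => ?_⟩
  have e1 := u3 g hg h hh e
  have e2 : S.ψ c g = S.ψ c h := congrArg Prod.snd e1
  have e3 : ∀ x, g • R x = h • R x := congrFun (congrArg Prod.fst e1)
  unfold HS.tt
  rw [e3, ← S.pr_ψ _ _ K.adm K.dvd g hg, ← S.pr_ψ _ _ K.adm K.dvd h hh, e2]

theorem KD.unr (K : KD S k l c W R D) (T : Tate) (h30 : ¬ w.p ∣ 30) (hc : ¬ w.p ∣ c)
    (hg : g ∈ GK n ⊓ Ine w) (x : S.C l) : S.tt l c R D g x = 0 := by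
  refine K1_tors (w := w) (fun e => h30 (e ▸ by norm_num)) ?_ (K.tors hg.1 x)
  rw [K.of_ker T hg.1 (S.unr c w K.adm hc g hg)]
  exact K1_ine (fun e => h30 (e.trans (by norm_num))) hg.2 _

/-- The normalised discrete logarithm at a deep place. -/
noncomputable def HS.th (S : HS n) (k : ℕ) (w : Plc) (a : S.C w.p) : ZMod (2 ^ k) :=
  Ring.inverse (S.ν w.p k (S.ψ w.p (gn w))).toAdd * (S.ν w.p k a).toAdd

theorem kd_th_mul (a b : S.C w.p) : S.th k w (a * b) = S.th k w a + S.th k w b := by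
  simp only [HS.th, map_mul, toAdd_mul, mul_add]

theorem kd_th_inv (a : S.C w.p) : S.th k w a⁻¹ = -S.th k w a := by
  simp only [HS.th, map_inv, toAdd_inv, mul_neg]

theorem kd_unit (h : Adm n w.p) (e : 2 ^ (k + 1) ∣ w.p + 1) :
    IsUnit (S.ν w.p k (S.ψ w.p (gn w))).toAdd := S.ν_gen w k _ h e (gn_spec h.ne.1)

/-- The weights of Kolyvagin. -/
noncomputable def HS.Wt (S : HS n) (k : ℕ) (Q : Finset Plc) (c : ℕ) (a : S.C c) : ℤ :=
  ∏ w ∈ Q, ((S.th k w (S.pr w.p c a)).val : ℤ)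

variable {Q : Finset Plc}

theorem kd_Wt_pr (h : Adm n c') (h1 : c ∣ c') (e : ∀ w ∈ Q, w.p ∣ c) (a : S.C c') :
    S.Wt k Q c (S.pr c c' a) = S.Wt k Q c' a :=
  prod_congr rfl fun w hw => by rw [kd_pr h (e w hw) h1]

theorem kd_dv_Wt (h : Adm n c') (e : ∀ w ∈ Q, ∃ c, c' = c * w.p ∧ l ∣ c ∧
      (∀ v ∈ Q, v ≠ w → v.p ∣ c) ∧ (2 : ℤ) ^ k ∣ a15 w.p) (b : S.C c') :
    S.Dv k l c' fun a => S.Wt k Q c' (b⁻¹ * a) - S.Wt k Q c' a := by
  let m : Plc → ℤ := fun w => (S.th k w (S.pr w.p c' b⁻¹)).val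
  have h1 : S.Dv k l c' fun a => S.Wt k Q c' (b⁻¹ * a) -
      ∏ w ∈ Q, (((S.th k w (S.pr w.p c' a)).val : ℤ) + m w) := kd_dv_two h fun a => by
    have := (ZMod.intCast_zmod_eq_zero_iff_dvd (S.Wt k Q c' (b⁻¹ * a) -
      ∏ w ∈ Q, (((S.th k w (S.pr w.p c' a)).val : ℤ) + m w)) (2 ^ k)).1 (by
        simp only [HS.Wt, m, map_mul, kd_th_mul, Int.cast_sub, Int.cast_prod, Int.cast_add,
          Int.cast_natCast, ZMod.natCast_zmod_val, add_comm, sub_self])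
    exact_mod_cast this
  have h2 : S.Dv k l c' fun a => ∑ t ∈ Q.powerset.erase Q, S.Wt k t c' a * ∏ w ∈ Q \ t, m w := by
    refine kd_dv_sum h _ fun t ht => ?_
    obtain ⟨t1, t2⟩ := mem_erase.1 ht
    obtain ⟨w, w1, w2⟩ := exists_of_ssubset (ssubset_of_subset_of_ne (mem_powerset.1 t2) t1)
    obtain ⟨c, e1, e2, e3, e4⟩ := e w w1
    have := kd_dv_pr (S := S) w.prime h e1 e2 e4 fun a => S.Wt k t c a * ∏ w ∈ Q \ t, m w
    simpa only [kd_Wt_pr h (Dvd.intro _ e1.symm) fun v hv =>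
      e3 v (mem_powerset.1 t2 hv) fun e => w2 (e ▸ hv)] using this
  convert h1.add h2 using 2 with a
  rw [prod_add, ← add_sum_erase _ _ (mem_powerset_self Q), Finset.sdiff_self, prod_empty, mul_one]
  simp only [HS.Wt]
  ring

end Pool.Agent.Lib.MP_696deb_nt.B2
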