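import Pool.Agent.Lib.MP_696deb_nt.B2.KDb

/-! The classes of Kolyvagin at the primes that divide the conductor. -/

set_option autoImplicit false

open scoped NNReal Classical
open Finset Matrix NumberTheorySymbols PowerSeries

namespace Pool.Agent.Lib.MP_696deb_nt.B2

variable {n k l c c' M : ℕ} {S : HS n} {T : Tate} {w : Plc} {m : ℤ}

theorem kd_card (h : Adm n (c * w.p)) (e : 2 ^ (k + 1) ∣ w.p + 1) (hM : w.p + 1 = 2 ^ k * M)
    (b : S.C c) (j : ZMod (2 ^ k)) : (univ.filter fun a => S.pr c (c * w.p) a = b ∧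
      S.th k w (S.pr w.p (c * w.p) a) = j).card * ordCompl[2] (w.p + 1) = M := by
  have hu := kd_unit (S := S) (h.of_dvd (dvd_mul_left _ _)) e
  have h1 := S.ν_fib c w.p k w.prime h e b
    (Multiplicative.ofAdd ((S.ν w.p k (S.ψ w.p (gn w))).toAdd * j))
  have h2 : ∀ a, S.th k w a = j ↔
      S.ν w.p k a = Multiplicative.ofAdd ((S.ν w.p k (S.ψ w.p (gn w))).toAdd * j) := fun a => by
    rw [HS.th, Ring.inverse_mul_eq_iff_eq_mul _ _ _ hu]
    rfl
  simp only [h2]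
  refine Nat.eq_of_mul_eq_mul_left (Nat.two_pow_pos k) ?_
  rw [← mul_assoc, mul_comm (2 ^ k), h1, Nat.ordProj_mul_ordCompl_eq_self, hM]

/-- The congruence relation for weighted traces. -/
theorem kd_cong (h : Adm n (c * w.p)) (hl : l ∣ c) (e : 2 ^ (k + 1) ∣ w.p + 1)
    (hM : w.p + 1 = 2 ^ k * M) (V : ZMod (2 ^ k) → ℤ) (W : S.C c → ℤ) (x : S.C l) :
    S.F l (c * w.p) (fun a => V (S.th k w (S.pr w.p (c * w.p) a)) * W (S.pr c (c * w.p) a)) x -
      ((∑ j, V j) * M) • fr w • S.F l c W x ∈ K1 w := by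
  unfold HS.F
  rw [kd_fib h hl (dvd_mul_right _ _), smul_sum, smul_sum, ← sum_sub_distrib]
  refine sum_mem fun b _ => ?_
  have h1 : ∑ a with S.pr c (c * w.p) a = b, V (S.th k w (S.pr w.p (c * w.p) a)) *
      (ordCompl[2] (w.p + 1) : ℕ) = (∑ j, V j) * M := by
    rw [← sum_fiberwise_of_maps_to (t := univ) (g := fun a => S.th k w (S.pr w.p (c * w.p) a))
      (fun _ _ => mem_univ _), sum_mul]
    refine sum_congr rfl fun j _ => ?_
    rw [sum_congr rfl (g := fun _ => V j * (ordCompl[2] (w.p + 1) : ℕ)) fun a ha => by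
      rw [(mem_filter.1 ha).2], sum_const, filter_filter, ← kd_card h e hM b j, nsmul_eq_mul,
      Nat.cast_mul]
    ring
  rw [← h1, sum_smul, ← sum_sub_distrib]
  refine sum_mem fun a ha => ?_
  have h2 := zsmul_mem (S.kron c w _ h (fr_spec w) a) (V (S.th k w (S.pr w.p (c * w.p) a)) * W b)
  simp only [(mem_filter.1 ha).2] at h2 ⊢
  convert h2 using 1
  rw [smul_comm (fr w), ← natCast_zsmul]
  generalize fr w • S.y c b = P
  module

theorem kd_es (T : Tate) (h : ¬ w.p ∣ 30) (hM : w.p + 1 = 2 ^ k * M) (hm : a15 w.p = 2 ^ k * m)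
    (R : EE) : fq w • R - R - (m • fr w • 2 ^ k • R - M • 2 ^ k • R) ∈ K1 w := by
  convert T.es w _ R h (fr_spec w) using 1
  have h1 : (w.p : ℤ) = 2 ^ k * M - 1 := by
    rw [eq_sub_iff_add_eq]
    exact_mod_cast hM
  rw [fq, mul_smul, smul_comm (fr w) (2 ^ k), hm, ← natCast_zsmul _ w.p, h1,
    ← natCast_zsmul _ M, ← natCast_zsmul _ (2 ^ k), ← natCast_zsmul _ (2 ^ k), Nat.cast_pow,
    Nat.cast_ofNat]
  generalize fr w • R = P
  generalize fr w • P = P'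
  module

theorem kd_gauss (k : ℕ) : (2 : ℤ) ^ k ∣ (∑ j : ZMod (2 ^ k), (j.val : ℤ)) * 2 := by
  have := (ZMod.intCast_zmod_eq_zero_iff_dvd ((∑ j : ZMod (2 ^ k), (j.val : ℤ)) * 2) (2 ^ k)).1 (by
    simp only [Int.cast_mul, Int.cast_sum, Int.cast_natCast, ZMod.natCast_zmod_val, Int.cast_ofNat]
    have h : ∑ x : ZMod (2 ^ k), -x = ∑ x, x := Equiv.sum_comp (Equiv.neg _) id
    rw [Finset.sum_neg_distrib] at h
    linear_combination -h)
  exact_mod_cast this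

theorem kd_fq (h : Adm n c) (hw : Adm n w.p) : fq w ∈ GK n ∧ S.ψ c (fq w) = 1 :=
  ⟨mul_mem_GK hw.fr_notMem hw.fr_notMem, S.dih c h _ hw.fr_notMem⟩

theorem kd_fq_fr (P : EE) : fq w • fr w • P = fr w • fq w • P := by
  simp only [fq, mul_smul]

variable {W : S.C c → ℤ} {W' : S.C c' → ℤ} {R R' : S.C l → EE} {D : S.C c → S.C l → EE}
  {D' : S.C c' → S.C l → EE}

/-- The classes vanish at the square of Frobenius at the primes that divide the conductor. -/
theorem KD.tr (K : KD S k l c' W' R' D') (T : Tate) (e : c' = c * w.p) (hl : l ∣ c)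
    (h1 : 2 ^ (k + 1) ∣ w.p + 1) (h2 : (2 : ℤ) ^ k ∣ a15 w.p)
    (hW : ∀ a, W' a = (S.th k w (S.pr w.p c' a)).val * W (S.pr c c' a)) (x : S.C l) :
    S.tt l c' R' D' (fq w) x = 0 := by
  subst e
  have hw : Adm n w.p := K.adm.of_dvd (dvd_mul_left _ _)
  have hc : Adm n c := K.adm.of_dvd (dvd_mul_right _ _)
  have hq := kd_fq (S := S) K.adm hw
  obtain ⟨M, hM⟩ := id h1
  obtain ⟨m, hm⟩ := h2
  obtain ⟨s, hs⟩ := kd_gauss k
  rw [pow_succ, mul_assoc] at hM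
  refine K1_tors hw.ne.1 ?_ (K.tors hq.1 x)
  have h3 := kd_cong K.adm hl h1 hM (fun j => (j.val : ℤ)) W x
  rw [← funext hW, ← K.hR, Nat.cast_mul, Nat.cast_ofNat, ← mul_assoc, hs] at h3
  obtain ⟨Y, hY⟩ : ∃ Y, Y = (s * M) • fr w • S.F l c W x := ⟨_, rfl⟩
  have h4 : 2 ^ k • (R' x - Y) ∈ K1 w := by
    convert h3 using 1
    rw [hY, ← natCast_zsmul _ (2 ^ k), ← natCast_zsmul _ (2 ^ k), Nat.cast_pow, Nat.cast_ofNat]
    generalize fr w • S.F l c W x = P
    module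
  have h5 : fq w • Y = Y := by
    rw [hY, smul_comm, kd_fq_fr, kd_F_fx hc W x _ hq.1 (kd_fq hc hw).2]
  have h6 := add_mem (kd_es T hw.nd30 hM hm (R' x - Y))
    (sub_mem (zsmul_mem ((K1_smul (fr_spec w).1).2 h4) m) (nsmul_mem h4 (2 * M)))
  rw [sub_add_cancel, smul_sub, h5, sub_sub_sub_cancel_right] at h6
  rw [K.of_ker T hq.1 hq.2, smul_comm, ← smul_sub]
  exact nsmul_mem h6 4

theorem kd_val (N : ℕ) [NeZero N] (j : ZMod N) :
    (((-1 + j).val : ℕ) : ℤ) - j.val = -1 + N * if j = 0 then 1 else 0 := by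
  split_ifs with h
  · obtain ⟨N, rfl⟩ := Nat.exists_eq_succ_of_ne_zero (NeZero.ne N)
    rw [h, add_zero, ZMod.val_neg_one, ZMod.val_zero]
    push_cast
    ring
  · obtain ⟨i, hi⟩ := Nat.exists_eq_succ_of_ne_zero (mt (ZMod.val_eq_zero j).1 h)
    have h1 : -1 + j = (i : ZMod N) := by
      rw [← ZMod.natCast_zmod_val j, hi]
      push_cast
      ring
    have h2 := ZMod.val_lt j
    rw [h1, ZMod.val_cast_of_lt (by omega), hi]
    push_cast
    ring

/-- The relation between the singular part and the finite part. -/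
theorem KD.step (K : KD S k l c W R D) (K' : KD S k l c' W' R' D') (T : Tate) (e : c' = c * w.p)
    (hc : ¬ w.p ∣ c) (h1 : 2 ^ (k + 1) ∣ w.p + 1) (h2 : (2 : ℤ) ^ k ∣ a15 w.p)
    (hW : ∀ a, W' a = (S.th k w (S.pr w.p c' a)).val * W (S.pr c c' a)) (x : S.C l) :
    fr w • S.tt l c' R' D' (gn w) x = S.tt l c R D (fq w) x := by
  subst e
  have hw : Adm n w.p := K'.adm.of_dvd (dvd_mul_left _ _)
  have hq := kd_fq (S := S) K.adm hw
  have hs := (gn_spec hw.ne.1).1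
  have hs' := hw.ine hs
  obtain ⟨M, hM⟩ := (pow_dvd_pow 2 k.le_succ).trans h1
  obtain ⟨m, hm⟩ := h2
  have p1 : S.ψ c (gn w) = 1 := S.unr c w K.adm hc _ ⟨hs', hs⟩
  have p2 : S.th k w (S.ψ w.p (gn w)) = 1 := Ring.inverse_mul_cancel _ (kd_unit hw h1)
  obtain ⟨Z, hZ⟩ : ∃ Z, Z = S.F l (c * w.p) (fun a =>
    (if S.th k w (S.pr w.p (c * w.p) a) = 0 then 1 else 0) * W (S.pr c (c * w.p) a)) x := ⟨_, rfl⟩
  have h3 : Z - M • fr w • 2 ^ k • R x ∈ K1 w := by
    have := kd_cong K'.adm K.dvd h1 hM (fun j => if j = 0 then 1 else 0) W x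
    rwa [← hZ, ← K.hR, sum_ite_eq', if_pos (mem_univ _), one_mul, natCast_zsmul] at this
  have h4 : 4 • D' (S.ψ _ (gn w)) x = 4 • (Z - m • 2 ^ k • R x) := by
    refine kd_uniq T K.nok K'.adm (K'.fx _ _) (sub_mem (hZ ▸ kd_F_fx K'.adm _ _) (zsmul_mem
      (K.hR x ▸ kd_fx_le K'.adm (dvd_mul_right _ _) (kd_F_fx K.adm _ _)) _)) (k := k) ?_
    have h5 : 2 ^ k • (Z - m • 2 ^ k • R x) = (2 : ℤ) ^ k • Z - a15 w.p • S.F l c W x := by
      rw [hm, K.hR, ← natCast_zsmul _ (2 ^ k), Nat.cast_pow, Nat.cast_ofNat]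
      module
    rw [h5, K'.hD, hZ, ← kd_F_mul, ← kd_F_pr w.prime K'.adm K.dvd, ← kd_F_sub]
    congr 1
    funext a
    rw [hW, hW, map_mul, map_mul, map_inv, map_inv, S.pr_ψ _ _ K'.adm (dvd_mul_left _ _) _ hs',
      S.pr_ψ _ _ K'.adm (dvd_mul_right _ _) _ hs', p1, kd_th_mul, kd_th_inv, p2, inv_one, one_mul,
      ← sub_mul, kd_val]
    push_cast
    ring
  have h5 : S.tt l _ R' D' (gn w) x - 4 • (m • 2 ^ k • R x - M • fr w • 2 ^ k • R x) ∈ K1 w := by
    have := sub_mem (nsmul_mem (K1_ine (fun e => hw.nd30 (e.trans (by norm_num))) hs (R' x)) 4)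
      (nsmul_mem h3 4)
    convert this using 1
    rw [HS.tt, kd_ker K.adm K.dvd hs' p1, inv_one, one_mul, smul_sub, h4]
    generalize fr w • 2 ^ k • R x = P
    generalize gn w • R' x = P'
    module
  have h6 : fr w • fr w • 2 ^ k • R x = 2 ^ k • R x := by
    rw [K.hR, ← mul_smul]
    exact kd_F_fx K.adm W x _ hq.1 hq.2
  have h7 := sub_mem ((K1_smul (fr_spec w).1).2 h5) (nsmul_mem (kd_es T hw.nd30 hM hm (R x)) 4)
  rw [← sub_eq_zero]
  refine K1_tors hw.ne.1 ?_ (m := k) (by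
    rw [smul_sub, smul_comm, K'.tors hs', K.tors hq.1, smul_zero, sub_zero])
  convert h7 using 1
  rw [K.of_ker T hq.1 hq.2, smul_sub (fr w), smul_comm (fr w) 4, smul_sub (fr w),
    smul_comm (fr w) m, smul_comm (fr w) M, h6, smul_comm (fq w) 4]
  generalize fr w • 2 ^ k • R x = P
  generalize fq w • R x = P'
  generalize fr w • S.tt l _ R' D' (gn w) x = P''
  module

end Pool.Agent.Lib.MP_696deb_nt.B2
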