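import Pool.Agent.Lib.MP_696deb_nt.B2.KDc

/-! The classes of Kolyvagin with coefficients in the rings of finite level. -/

set_option autoImplicit false

open scoped NNReal Classical
open Finset Matrix NumberTheorySymbols PowerSeries

namespace Pool.Agent.Lib.MP_696deb_nt.B2

variable {n k c c' : ℕ} {S : HS n} {T : Tate} {lam w : Plc} {a b e : ℤ} {g h : Gam} {P P' : EE}
  {Q : Finset Plc}

/-- Coordinates of torsion points. -/
noncomputable def Tate.crd (T : Tate) (k : ℕ) (P : EE) : Fin 2 → ZMod (2 ^ k) :=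
  Function.invFun (T.emb k) P

theorem kd_emb (hP : 2 ^ k • P = 0) : T.emb k (T.crd k P) = P :=
  Function.invFun_eq (T.surj k P hP)

theorem kd_crd_zero : T.crd k 0 = 0 := T.inj k (by rw [kd_emb (smul_zero _), map_zero])

theorem kd_crd_add (hP : 2 ^ k • P = 0) (hP' : 2 ^ k • P' = 0) :
    T.crd k (P + P') = T.crd k P + T.crd k P' :=
  T.inj k (by rw [kd_emb (by rw [smul_add, hP, hP', add_zero]), map_add, kd_emb hP, kd_emb hP'])

theorem kd_crd_nsmul (hP : 2 ^ k • P = 0) (m : ℕ) : T.crd k (m • P) = m • T.crd k P :=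
  T.inj k (by rw [kd_emb (by rw [smul_comm, hP, smul_zero]), map_nsmul, kd_emb hP])

theorem kd_crd_smul (hP : 2 ^ k • P = 0) (g : Gam) :
    T.crd k (g • P) = mred k (T.ρ g) *ᵥ T.crd k P :=
  T.inj k (by rw [kd_emb (by rw [smul_comm, hP, smul_zero]), ← T.smul, kd_emb hP])

/-- The structure map of the ring of level `k`. -/
noncomputable def kdI (k : ℕ) : ZMod (2 ^ k) →+* Ak k :=
  ZMod.castHom (ringChar.dvd (R := Ak k) (by
    simpa using (kil_Ak k).two (1 : Ak k))) (Ak k)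

theorem kdI_mul (u : ZMod (2 ^ k)) (y : Ak k) : kdI k u * y = u.val • y := by
  rw [nsmul_eq_mul, ← map_natCast (kdI k), ZMod.natCast_zmod_val]

theorem kdI_C (z : ℤ_[2]) :
    kdI k (PadicInt.toZModPow k z) = Ideal.Quotient.mk (aa k k) (C z) := by
  rw [← mul_one (kdI k _), kdI_mul, ← la_C_smul ((kil_Ak k).two 1), Algebra.smul_def, mul_one]
  rfl

/-- Twisted sums of vectors. -/
noncomputable def HS.cmb (S : HS n) (k : ℕ) (lam : Plc) (e : ℤ)
    (v : S.C lam.p → Fin 2 → ZMod (2 ^ k)) (i : Fin 2) : Ak k :=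
  ∑ x, kdI k (v x i) * Ideal.Quotient.mk (aa k k) (S.Psi k lam e x)

theorem kd_cmb_mul (A : Matrix (Fin 2) (Fin 2) (ZMod (2 ^ k)))
    (v : S.C lam.p → Fin 2 → ZMod (2 ^ k)) :
    S.cmb k lam e (fun x => A *ᵥ v x) = A.map (kdI k) *ᵥ S.cmb k lam e v := by
  funext i
  simp only [HS.cmb, mulVec, dotProduct, Fin.sum_univ_two, map_add, map_mul, map_apply, mul_sum,
    ← sum_add_distrib]
  exact sum_congr rfl fun x _ => by ring

theorem kd_Psi_mul (h : S.Tw k lam a b) (x y : S.C lam.p) :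
    Ideal.Quotient.mk (aa k k) (S.Psi k lam e (x * y)) =
      Ideal.Quotient.mk (aa k k) (S.Psi k lam e x) * Ideal.Quotient.mk (aa k k) (S.Psi k lam e y) := by
  obtain ⟨g, hg, rfl⟩ := S.surj _ h.adm x
  obtain ⟨g', hg', rfl⟩ := S.surj _ h.adm y
  rw [← S.mul _ h.adm g hg g' hg', ← map_mul, Ideal.Quotient.eq]
  exact (h.chr e).mul g hg g' hg'

theorem kd_cmb_act (h : S.Tw k lam a b) (v : S.C lam.p → Fin 2 → ZMod (2 ^ k)) :
    S.cmb k lam e (fun x => mred k (T.ρ g) *ᵥ v ((S.ψ lam.p g)⁻¹ * x)) =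
      act T (S.psi k lam e) (Ak k) g (S.cmb k lam e v) := by
  have h1 : S.cmb k lam e (fun x => v ((S.ψ lam.p g)⁻¹ * x)) =
      Ideal.Quotient.mk (aa k k) (S.psi k lam e g) • S.cmb k lam e v := by
    funext i
    rw [Pi.smul_apply, smul_eq_mul, HS.cmb, HS.cmb, mul_sum,
      ← Equiv.sum_comp (Equiv.mulLeft (S.ψ lam.p g))]
    refine sum_congr rfl fun x _ => ?_
    rw [Equiv.coe_mulLeft, inv_mul_cancel_left, kd_Psi_mul h, HS.psi]
    ring
  rw [kd_cmb_mul, h1, act_quot, mulVec_smul, ← smul_mulVec]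
  congr 1
  ext i j
  simp only [rep, mred, map_apply, Matrix.smul_apply, smul_eq_mul, map_mul, kdI_C]

/-- The class of a torsion valued cochain. -/
noncomputable def HS.kap (S : HS n) (T : Tate) (k : ℕ) (lam : Plc) (e : ℤ)
    (t : Gam → S.C lam.p → EE) (g : Gam) : Fin 2 → Ak k :=
  if g ∈ GK n then S.cmb k lam e fun x => T.crd k (t g x) else 0

theorem kd_kap (hg : g ∈ GK n) (t : Gam → S.C lam.p → EE) :
    S.kap T k lam e t g = S.cmb k lam e fun x => T.crd k (t g x) := if_pos hg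

theorem kd_kap_zero {t : Gam → S.C lam.p → EE} (h : ∀ x, t g x = 0) : S.kap T k lam e t g = 0 := by
  unfold HS.kap
  split_ifs
  · funext i
    simp [HS.cmb, h, kd_crd_zero]
  · rfl

variable {W : S.C c → ℤ} {R : S.C lam.p → EE} {D : S.C c → S.C lam.p → EE}

theorem KD.z1 (K : KD S k lam.p c W R D) (h : S.Tw k lam a b) :
    S.kap T k lam e (S.tt lam.p c R D) ∈ Z1 (GK n) (act T (S.psi k lam e) (Ak k)) := by
  refine ⟨⟨(K.sm.comp fun t => S.cmb k lam e fun x => T.crd k (t x)).congr fun g hg =>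
    (kd_kap hg _).symm, fun g hg g' hg' => ?_⟩, fun g hg => if_neg hg⟩
  rw [kd_kap hg, kd_kap hg', kd_kap (mul_mem hg hg'), ← kd_cmb_act h]
  funext i
  simp only [HS.cmb, Pi.add_apply, ← sum_add_distrib]
  refine sum_congr rfl fun x _ => ?_
  rw [K.coc T hg hg', kd_crd_add (K.tors hg x) (by rw [smul_comm, K.tors hg', smul_zero]),
    kd_crd_smul (K.tors hg' _), Pi.add_apply, map_add, add_mul]

theorem KD.kum (K : KD S k lam.p c W R D) :
    KumC T (GK n ⊓ Dec w2) (S.kap T k lam e (S.tt lam.p c R D)) := by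
  refine (KumC.sum univ fun x _ => KumC.of_smul (m := k) (x := fun g => T.crd k (S.tt _ c R D g x))
    ⟨4 • R x, fun g hg => ?_⟩ ((kil_Ak k).two (Ideal.Quotient.mk (aa k k) (S.Psi k lam e x)))).congr
    fun g hg => ?_
  · rw [kd_emb (K.tors hg.1 x)]
    exact K.of_ker T hg.1 (kd_dec K.adm (fun e => (K.adm.2 _ w2.prime e).1 (w2_p ▸ by norm_num))
      K.nok.fr_w2.2 K.nok.fr_w2.1 hg) x
  · funext i
    simp only [kd_kap hg.1, HS.cmb, kdI_mul]

/-- The conductors. -/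
def cQ (lam : Plc) (Q : Finset Plc) : ℕ := lam.p * ∏ w ∈ Q, w.p

theorem cQ_insert (hw : w ∉ Q) : cQ lam (insert w Q) = cQ lam Q * w.p := by
  rw [cQ, cQ, prod_insert hw]
  ring

theorem dvd_cQ (hw : w ∈ Q) : w.p ∣ cQ lam Q := (dvd_prod_of_mem _ hw).mul_left _

theorem not_dvd_cQ (h1 : w.p ≠ lam.p) (h2 : ∀ v ∈ Q, w.p ≠ v.p) : ¬ w.p ∣ cQ lam Q := fun h => by
  rcases w.prime.dvd_mul.1 h with h | h
  · exact h1 ((Nat.prime_dvd_prime_iff_eq w.prime lam.prime).1 h)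
  · obtain ⟨v, hv, h⟩ := (w.prime.prime.dvd_finsetProd_iff _).1 h
    exact h2 v hv ((Nat.prime_dvd_prime_iff_eq w.prime v.prime).1 h)

theorem HS.DpS.kd_mono (h : S.DpS T k lam Q) {Q' : Finset Plc} (e : Q' ⊆ Q) : S.DpS T k lam Q' :=
  ⟨fun w hw => h.dp w (e hw), fun w hw v hv => h.inj w (e hw) v (e hv)⟩

theorem HS.DpS.kd_nd (h : S.DpS T k lam (insert w Q)) (hw : w ∉ Q) : ¬ w.p ∣ cQ lam Q :=
  not_dvd_cQ (h.dp w (mem_insert_self _ _)).ne fun v hv e =>
    hw (h.inj w (mem_insert_self _ _) v (mem_insert_of_mem hv) e ▸ hv)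

theorem HS.DpS.kd_adm (h : S.DpS T k lam Q) (hl : Adm n lam.p) : Adm n (cQ lam Q) := by
  induction Q using Finset.induction_on with
  | empty => simpa [cQ] using hl
  | insert w Q hw ih =>
    have h1 := (h.dp w (mem_insert_self _ _)).adm.2 _ w.prime dvd_rfl
    rw [cQ_insert hw]
    exact (ih (h.kd_mono (subset_insert _ _))).mul w.prime (h.kd_nd hw) h1.1 h1.2

theorem HS.Dp.kd_dvd (h : S.Dp T k lam w) (hl : Adm n lam.p) :
    2 ^ (k + 1) ∣ w.p + 1 ∧ (2 : ℤ) ^ k ∣ a15 w.p :=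
  ⟨(pow_dvd_pow 2 (by omega)).trans (h.deep hl 1).dvd.1,
    (pow_dvd_pow 2 (by omega)).trans (h.deep hl 1).dvd.2⟩

theorem HS.DpS.kd_ex (h : S.DpS T k lam Q) (hn : Nok n) (hl : Adm n lam.p) :
    ∃ R D, KD S k lam.p (cQ lam Q) (S.Wt k Q _) R D := by
  refine exists_KD hn (h.kd_adm hl) (dvd_mul_right _ _) (kd_dv_Wt (h.kd_adm hl) fun w hw =>
    ⟨cQ lam (Q.erase w), ?_, dvd_mul_right _ _, fun v hv e => dvd_cQ (mem_erase.2 ⟨e, hv⟩),
      ((h.dp w hw).kd_dvd hl).2⟩)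
  rw [← cQ_insert (notMem_erase w Q), insert_erase hw]

theorem kd_Wt_insert {Q' : Finset Plc} (h : Adm n (cQ lam Q')) (hw : w ∉ Q) (e : Q' = insert w Q)
    (x : S.C (cQ lam Q')) : S.Wt k Q' _ x =
      (S.th k w (S.pr w.p _ x)).val * S.Wt k Q (cQ lam Q) (S.pr _ _ x) := by
  subst e
  rw [kd_Wt_pr h (Dvd.intro _ (cQ_insert hw).symm) fun v hv => dvd_cQ hv, HS.Wt, prod_insert hw]
  rfl

end Pool.Agent.Lib.MP_696deb_nt.B2
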