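import Pool.Agent.Lib.MP_696deb_nt.B2.D1b
import Pool.Agent.Lib.MP_696deb_nt.HeightMain

/-! The Hecke correspondence on the modular curve of level fifteen and its reduction. -/

set_option autoImplicit false

open PowerSeries Filter Topology Complex

namespace Pool.Agent.Lib.MP_696deb_nt.B2

open Unif

variable {p : ℕ} {τ : ℂ}

theorem kr_nb (z : ℂ) (i : Option (Fin p)) : nb p z i = act (rP p i) z := by
  cases i <;> simp [nb, rP, ut, act_of, mob]

theorem kr_pos (hp : p.Prime) (hτ : 0 < τ.im) (i : Option (Fin p)) : 0 < (nb p τ i).im :=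
  kr_nb τ i ▸ act_pos (rP_pos hp i) hτ

theorem kr_cop (hp : p.Prime) (h15 : ¬ p ∣ 15) : IsCoprime (15 : ℤ) p :=
  Nat.isCoprime_iff_coprime.mpr ((Nat.Prime.coprime_iff_not_dvd hp).mpr h15).symm

theorem kr_perm (hp : p.Prime) (h15 : ¬ p ∣ 15) {a b c d : ℤ} (h : a * d - b * (15 * c) = 1) :
    ∃ σ : Equiv.Perm (Option (Fin p)), ∀ z : ℂ, 0 < z.im → ∀ i,
      Eqv (nb p z (σ i)) (nb p (mob a b (15 * c) d z) i) := by
  have h1 : Matrix.det !![a, b; 15 * c, d] = 1 := by rwa [Matrix.det_fin_two_of]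
  obtain ⟨σ, hσ⟩ := (isReps_rP hp).perm h1
  refine ⟨σ, fun z hz i => ?_⟩
  obtain ⟨g, g1, g2⟩ := hσ i
  obtain ⟨e, he⟩ : (15 : ℤ) ∣ g 1 0 := by
    have h2 := congrFun (congrFun g2 1) 0
    generalize σ i = j at h2
    have h3 : (15 : ℤ) ∣ g 1 0 * rP p j 0 0 := ⟨rP p i 1 1 * c, by
      cases i <;> cases j <;> simp [rP, ut, Matrix.mul_apply] at h2 ⊢ <;> linear_combination -h2⟩
    cases j
    · exact (kr_cop hp h15).dvd_of_dvd_mul_right (by simpa [rP, ut] using h3)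
    · simpa [rP, ut] using h3
  refine ⟨g 0 0, g 0 1, e, g 1 1, by rwa [← he, ← Matrix.det_fin_two], ?_⟩
  rw [kr_nb, kr_nb, ← act_of, ← act_mul _ (by omega) hz, g2, act_mul _ (rP_pos hp _).ne' hz, ← he]
  rfl

theorem kr_ms {a c q : ℤ} (hq : q ∣ 15) (hq' : Prime q) (ha : q ∣ a) (hc : ¬ 15 * q ∣ c) :
    ms a c ∉ L15.lattice := fun h => by
  obtain ⟨g, a, b, c, d, hg, rfl, rfl, hd⟩ := exists_SL (a := a) (c := c)
    (.inr fun k => hc (k ▸ dvd_zero _))
  rw [ms_scale hg.ne', ms_mem_iff hd] at h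
  rcases hq'.dvd_or_dvd ha with k | k
  · exact hq'.not_dvd_one (hd ▸ (k.mul_right _).sub ((hq.trans h).mul_left _))
  · exact hc (mul_dvd_mul h k)

theorem kr_bdd (hp : p.Prime) (h15 : ¬ p ∣ 15) (k : Option (Fin p)) {i : Fin 4} (hi : i ≠ 0) :
    Bdd (fun z => t15 (nb p (al i z) k)) ∧ Bdd fun z => Y15 (nb p (al i z) k) := by
  obtain ⟨q, q1, q2, q3, q4⟩ : ∃ q : ℤ, q ∣ 15 ∧ Prime q ∧ q ∣ (alM i).1 ∧ (alM i).2.2.1 = 15 := by
    fin_cases i
    · exact absurd rfl hi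
    · exact ⟨3, by norm_num, Int.prime_three, by simp [alM], by simp [alM]⟩
    · exact ⟨5, by norm_num, Nat.prime_iff_prime_int.mp Nat.prime_five, by simp [alM], by simp [alM]⟩
    · exact ⟨3, by norm_num, Int.prime_three, by simp [alM], by simp [alM]⟩
  set W : MZ := !![(alM i).1, (alM i).2.1; (alM i).2.2.1, (alM i).2.2.2] with hW
  have w1 : 0 < W.det := by rw [hW, Matrix.det_fin_two_of]; exact alM_det i
  have w2 : 0 < (rP p k * W).det := by rw [Matrix.det_mul]; exact mul_pos (rP_pos hp k) w1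
  have w3 : ∀ z : ℂ, 0 < z.im → nb p (al i z) k = act (rP p k * W) z := fun z hz => by
    rw [act_mul _ w1.ne' hz, kr_nb]
    rfl
  have w4 : ms ((rP p k * W) 0 0) ((rP p k * W) 1 0) ∉ L15.lattice := by
    have h1 : ¬ 15 * q ∣ 15 * p := fun h => q2.not_isUnit ((kr_cop hp h15).isUnit_of_dvd' q1
      ((mul_dvd_mul_iff_left (by norm_num)).mp h))
    refine kr_ms q1 q2 ?_ fun h => h1 ?_
    · cases k
      · simpa [hW, rP, ut, Matrix.mul_apply] using q3.mul_left _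
      · simpa [hW, rP, ut, Matrix.mul_apply, q4] using q3.add (q1.mul_left _)
    · cases k
      · exact Dvd.dvd.mul_right (by simpa [hW, rP, ut, Matrix.mul_apply, q4] using h) _
      · simpa [hW, rP, ut, Matrix.mul_apply, q4, mul_comm] using h
  have w5 := tendsto_Fi_mob (by rwa [Matrix.det_fin_two] at w2)
  have b1 := Bdd.of_tendsto ((hasDerivAt_P L15 w4).continuousAt.tendsto.comp w5)
  have b2 := Bdd.of_tendsto ((hasDerivAt_dP L15 w4).continuousAt.tendsto.comp w5)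
  have b3 : Bdd fun z => t15 (nb p (al i z) k) := (b1.add (Bdd.const (7 / 12))).congr fun z hz => by
    rw [w3 z hz, Function.comp_apply, ← act, P_Fi (act_pos w2 hz), sub_add_cancel]
  exact ⟨b3, ((b2.sub b3).mul (Bdd.const (1 / 2))).congr fun z hz => by
    rw [w3 z hz, Function.comp_apply, ← act, dP_Fi (act_pos w2 hz), Y15]; ring⟩

/-- Functions that are bounded at infinity. -/
def BR : Subring (ℂ → ℂ) where
  carrier := {F | Bdd F}
  mul_mem' := Bdd.mul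
  one_mem' := Bdd.const 1
  add_mem' := Bdd.add
  zero_mem' := Bdd.const 0
  neg_mem' := Asymptotics.IsBigO.neg_left

/-- Invariant functions that are bounded at the cusps other than infinity. -/
def IB : Subring (ℂ → ℂ) where
  carrier := {F | (∀ a b c d : ℤ, a * d - b * (15 * c) = 1 → ∀ z : ℂ, 0 < z.im →
    F (mob a b (15 * c) d z) = F z) ∧ ∀ i : Fin 4, i ≠ 0 → Bdd fun z => F (al i z)}
  mul_mem' h k := ⟨fun a b c d e z hz => by
    simp only [Pi.mul_apply, h.1 a b c d e z hz, k.1 a b c d e z hz],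
    fun i hi => (h.2 i hi).mul (k.2 i hi)⟩
  one_mem' := ⟨fun _ _ _ _ _ _ _ => rfl, fun _ _ => Bdd.const 1⟩
  add_mem' h k := ⟨fun a b c d e z hz => by
    simp only [Pi.add_apply, h.1 a b c d e z hz, k.1 a b c d e z hz],
    fun i hi => (h.2 i hi).add (k.2 i hi)⟩
  zero_mem' := ⟨fun _ _ _ _ _ _ _ => rfl, fun _ _ => Bdd.const 0⟩
  neg_mem' h := ⟨fun a b c d e z hz => by simp only [Pi.neg_apply, h.1 a b c d e z hz],
    fun i hi => (h.2 i hi).neg_left⟩

theorem ib_const (c : ℂ) : (fun _ => c) ∈ IB := ⟨fun _ _ _ _ _ _ _ => rfl, fun _ _ => Bdd.const c⟩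

theorem ib_t : t15 ∈ IB := ⟨m15_t15.inv, m15_t15.bdd⟩

theorem ib_Y : Y15 ∈ IB := ⟨fun a b c d h _ hz => Y15_mob a b c d h hz,
  fun _ hi => Bdd.of_tendsto (tendsto_Y15_al hi)⟩

theorem ib_prod (hp : p.Prime) (h15 : ¬ p ∣ 15) (c₀ c₁ c₂ : ℂ) :
    (fun z => ∏ k, (c₀ - c₁ * t15 (nb p z k) - c₂ * Y15 (nb p z k))) ∈ IB := by
  refine ⟨fun a b c d h z hz => ?_, fun i hi => ?_⟩
  · obtain ⟨σ, hσ⟩ := kr_perm hp h15 h
    refine Eq.trans (Finset.prod_congr rfl fun k _ => ?_)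
      (Equiv.prod_comp σ fun k => c₀ - c₁ * t15 (nb p z k) - c₂ * Y15 (nb p z k))
    rw [Y15, Y15, (hσ z hz k).t15_eq (kr_pos hp hz _), (hσ z hz k).psi15_eq (kr_pos hp hz _)]
  · have := BR.prod_mem (t := Finset.univ) fun k _ => ((Bdd.const c₀).sub ((Bdd.const c₁).mul
      (kr_bdd hp h15 k hi).1)).sub ((Bdd.const c₂).mul (kr_bdd hp h15 k hi).2)
    exact Bdd.congr this fun z _ => by simp

theorem lz_t : LZ t15 := ⟨2, _, qe_t15⟩

theorem lz_Y : LZ Y15 := exists_Ys.elim fun Ys h => ⟨3, Ys, h.2⟩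

variable {Γ : Type*} [LinearOrderedCommGroupWithZero Γ] {V : Valuation ℂ Γ} {F : ℂ → ℂ}

theorem kr_y (hτ : 0 < τ.im) (hx : V (t15 τ) ≤ 1) : V (Y15 τ) ≤ 1 := by
  by_contra! k
  have h1 : t15 τ ^ 3 - 2 * t15 τ ^ 2 - 9 * t15 τ ∈ V.integer :=
    sub_mem (sub_mem (pow_mem hx 3) (mul_mem (ofNat_mem _ 2) (pow_mem hx 2)))
      (mul_mem (ofNat_mem _ 9) hx)
  rw [← eqn15 hτ, Valuation.mem_integer_iff, show Y15 τ ^ 2 + t15 τ * Y15 τ =
    Y15 τ * (Y15 τ + t15 τ) by ring, map_mul, V.map_add_eq_of_lt_left (hx.trans_lt k)] at h1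
  exact (one_lt_mul'' k k).not_ge h1

theorem kr_val (hp : p.Prime) (h : LE (V.ltAddSubgroup 1) fun z => F (p * z)) (hF : F ∈ IB)
    (hτ : 0 < τ.im) (hx : V (t15 τ) ≤ 1) : V (F τ) < 1 := by
  obtain ⟨n, A, h1, h2⟩ := h.of_comp hp.ne_zero fun z hz => by
    simpa [mob] using hF.1 1 1 0 1 (by norm_num) z hz
  obtain ⟨P, Q, p1, p2, -, -, -, p3⟩ := M15.exists_poly ⟨hF.1, h1, hF.2⟩ h2
  rw [p3 τ hτ]
  exact V.map_add_lt (val_eval_lt V p1 hx) (by
    rw [map_mul]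
    exact mul_lt_one_of_nonneg_of_lt_one_left zero_le (val_eval_lt V p2 hx) (kr_y hτ hx))

theorem kr_some (hp : p.Prime) (k : Fin p) (z : ℂ) :
    nb p (p * z) (some k) = (1 : ℕ) * z + ((((k : ℕ) : ℤ) / p : ℝ) : ℂ) := by
  rw [kr_nb, act_some hp]

variable (V) in
/-- The expansions of the values at the neighbours. -/
noncomputable def Xn (h : LZ F) (hp : p.Prime) (k : Option (Fin p)) : LR V.integer :=
  ⟨fun z => F (nb p (p * z) k), by
    rcases k with _ | k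
    · exact h.sq_mem hp
    · simpa only [kr_some hp] using h.some_mem hp (k : ℕ)⟩

variable (V) in
/-- The expansion of the value at the centre. -/
noncomputable def Xc (h : LZ F) (hp : p.Prime) : LR V.integer :=
  ⟨fun z => F (p * z), h.expand_mem V hp.ne_zero⟩

theorem kr_int (hp : p.Prime) (h15 : ¬ p ∣ 15) (hτ : 0 < τ.im) (hx : V (t15 τ) ≤ 1)
    (i : Option (Fin p)) : V (t15 (nb p τ i)) ≤ 1 := by
  by_contra! k
  set x := t15 (nb p τ i) with hxe
  have hx0 : x ≠ 0 := fun h0 => by simp [h0] at k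
  have h1 : V x⁻¹ < 1 := by rw [map_inv₀]; exact inv_lt_one_of_one_lt₀ k
  have h2 : red V (∏ k, (1 - ⟨_, const_mem V h1.le⟩ * Xn V lz_t hp k) - 1) = 0 := by
    simp only [map_sub, map_prod, map_mul, red_const h1, zero_mul, map_one, sub_zero,
      Finset.prod_const_one, sub_self]
  have h4 := kr_val hp (le_of_red h2 fun z => by
    simp only [map_sub, map_mul, map_prod, map_one, Pi.sub_apply, zero_mul, sub_zero]; rfl)
    (sub_mem (ib_prod hp h15 1 x⁻¹ 0) (one_mem _)) hτ hx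
  rw [Pi.sub_apply, Finset.prod_eq_zero (Finset.mem_univ i) (by
    rw [inv_mul_cancel₀ hx0, sub_self, zero_mul, sub_zero])] at h4
  simp at h4

theorem kr_red (h : LZ F) (hp : p.Prime) (hV : V p < 1) : ∃ u, red V (Xc V h hp) = u ^ p ∧
    red V (Xn V h hp none) = red V (Xc V h hp) ^ p ∧ ∀ k, red V (Xn V h hp (some k)) = u := by
  refine ⟨red V ⟨F, h.mem _⟩, ?_, ?_, fun k => ?_⟩
  · exact (Ideal.Quotient.eq.mpr (h.frob V hp hV)).trans (map_pow _ _ _)
  · exact (Ideal.Quotient.eq.mpr ((h.frob V hp hV).expand hp.ne_zero)).trans (map_pow _ _ _)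
  · refine Ideal.Quotient.eq.mpr (LE.congr (h.affine_sub V one_ne_zero
      (val_root_sub_one V hp hV (q1_div_pow_eq_one (k : ℕ) hp.ne_zero))) fun z _ => ?_)
    change F _ - F _ = _
    rw [kr_some hp, Nat.cast_one, one_mul]

theorem kr_sub_pow {R : Type*} [CommRing R] (hp : p.Prime) (h : (p : R) = 0) (a b : R) :
    (a - b) ^ p = a ^ p - b ^ p := by
  obtain ⟨r, hr⟩ := exists_add_pow_prime_eq hp (a - b) b
  rw [sub_add_cancel, h] at hr
  linear_combination -hr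

theorem kr_congr (hp : p.Prime) (h15 : ¬ p ∣ 15) (hV : V p < 1) (hτ : 0 < τ.im)
    (hx : V (t15 τ) ≤ 1) {Y S : ℂ} (hY : V Y ≤ 1) (hS : V S ≤ 1) :
    V (∏ i, (Y - t15 (nb p τ i) - S * Y15 (nb p τ i)) -
      (Y - t15 τ ^ p - S * Y15 τ ^ p) * (Y ^ p - t15 τ - S ^ p * Y15 τ)) < 1 := by
  let y : LR V.integer := ⟨_, const_mem V hY⟩
  let s : LR V.integer := ⟨_, const_mem V hS⟩
  have h1 : red V (∏ i, (y - Xn V lz_t hp i - s * Xn V lz_Y hp i) -
      (y - Xc V lz_t hp ^ p - s * Xc V lz_Y hp ^ p) *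
        (y ^ p - Xc V lz_t hp - s ^ p * Xc V lz_Y hp)) = 0 := by
    obtain ⟨u, u1, u2, u3⟩ := kr_red lz_t hp hV
    obtain ⟨v, v1, v2, v3⟩ := kr_red lz_Y hp hV
    simp only [map_sub, map_mul, map_prod, map_pow, Fintype.prod_option, u2, u3, v2, v3,
      Finset.prod_const, Finset.card_univ, Fintype.card_fin, kr_sub_pow hp (red_nat hV), mul_pow,
      ← u1, ← v1, sub_self]
  have h2 := kr_val hp (le_of_red h1 fun z => by
    simp only [map_sub, map_mul, map_prod, map_pow, Pi.sub_apply, Pi.mul_apply, Pi.pow_apply,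
      one_mul]; rfl)
    (sub_mem (ib_prod hp h15 Y 1 S) (mul_mem
      (sub_mem (sub_mem (ib_const Y) (pow_mem ib_t p)) (mul_mem (ib_const S) (pow_mem ib_Y p)))
      (sub_mem (sub_mem (ib_const (Y ^ p)) ib_t) (mul_mem (ib_const (S ^ p)) ib_Y)))) hτ hx
  simpa only [Pi.sub_apply, Pi.mul_apply, Pi.pow_apply, one_mul] using h2

theorem kr_symm (hp : p.Prime) (hτ : 0 < τ.im) (i : Option (Fin p)) :
    ∃ j, t15 (nb p (nb p τ i) j) = t15 τ := by
  have h0 : (p : ℂ) ≠ 0 := by exact_mod_cast hp.ne_zero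
  rcases i with _ | k
  · exact ⟨some ⟨0, hp.pos⟩, by simp [nb, mul_div_cancel_left₀ _ h0]⟩
  · refine ⟨none, ?_⟩
    rw [nb, nb, mul_div_cancel₀ _ h0]
    exact_mod_cast (Eqv.add_int τ (k : ℕ)).t15_eq hτ

end Pool.Agent.Lib.MP_696deb_nt.B2
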