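import Pool.Agent.Lib.MP_696deb_nt.B2.LKb
import Pool.Agent.Lib.MP_696deb_nt.RankOne

/-! The rank is bounded by the corank of the Selmer group. -/

set_option autoImplicit false

open scoped Classical
open Height WeierstrassCurve WeierstrassCurve.Affine

namespace Pool.Agent.Lib.MP_696deb_nt.B2

variable {d : ℤ}

/-- The cocycle of a point. -/
noncomputable def lkC (d : ℤ) (Q : EE) (g : Gam) : EE := lkT d g Q - Q

theorem lkC_sel (Q : EE) : hSel d (lkC d Q) where
  sm := (sm_chi d).comp₂ (sm_pt ⊤ Q) fun a P => (a : ℤ) • P - Q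
  coc g h := by
    simp only [lkC, ← lkT_apply, map_sub]
    rw [lkT_apply (g * h), lk_tw_mul]
    exact (sub_add_sub_cancel' _ _ _).symm
  loc _ := ⟨Q, fun _ _ => rfl⟩
  inf := ⟨Q, rfl⟩

theorem lkC_kill {Q : EE} {n : ℕ} (h : ∀ g, tw d g (n • Q) = n • Q) (g : Gam) :
    n • lkC d Q g = 0 := by
  rw [lkC, smul_sub, ← map_nsmul, lkT_apply, h, sub_self]

theorem lkC_eq {Q Q' : EE} (h : lkC d Q = lkC d Q') (g : Gam) : tw d g (Q - Q') = Q - Q' := by
  rw [← lkT_apply, map_sub]
  exact sub_eq_sub_iff_sub_eq_sub.1 (congrFun h g)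

theorem lk_weak {G : Type*} [AddCommGroup G] (f : G →+ EE) (hf : Function.Injective f)
    (hr : ∀ P, P ∈ f.range ↔ ∀ g, tw d g P = P) (h : Cork d) :
    (nsmulAddMonoidHom (α := G) 2).range.FiniteIndex := by
  obtain ⟨C, hC⟩ := h
  choose half hh using exists_half
  have : Finite (G ⧸ (nsmulAddMonoidHom (α := G) 2).range) := by
    have inj : Function.Injective fun x : G ⧸ (nsmulAddMonoidHom (α := G) 2).range =>
        lkC d (half (f x.out)) := fun x y e => by
      obtain ⟨R, hR⟩ := (hr _).2 (lkC_eq e.symm)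
      rw [← x.out_eq, ← y.out_eq]
      refine QuotientAddGroup.eq.2 ⟨R, hf ?_⟩
      rw [nsmulAddMonoidHom_apply, map_nsmul, hR, smul_sub, hh, hh, map_add, map_neg,
        neg_add_eq_sub]
    by_contra k
    rw [not_finite_iff_infinite] at k
    obtain ⟨s, hs⟩ := Infinite.exists_subset_card_eq
      (G ⧸ (nsmulAddMonoidHom (α := G) 2).range) (C * 8 ^ 1 + 1)
    have := hC 1 (s.map ⟨_, inj⟩) fun ξ hξ => by
      obtain ⟨x, -, rfl⟩ := Finset.mem_map.1 hξ
      exact ⟨lkC_sel _, lkC_kill fun g => by rw [pow_one, hh]; exact (hr _).1 ⟨_, rfl⟩ g⟩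
    rw [Finset.card_map, hs] at this
    omega
  exact AddSubgroup.finiteIndex_of_finite_quotient

theorem lk_root (m : ℕ) (P : EE) : ∃ Q, 2 ^ m • Q = P := by
  induction m generalizing P with
  | zero => exact ⟨P, by simp⟩
  | succ m ih =>
    obtain ⟨Q, rfl⟩ := ih P
    obtain ⟨R, rfl⟩ := exists_half Q
    exact ⟨R, by rw [pow_succ, mul_nsmul']⟩

theorem lk_rank {G : Type*} [AddCommGroup G] [Module.Finite ℤ G] (f : G →+ EE)
    (hf : Function.Injective f) (hr : ∀ P, P ∈ f.range ↔ ∀ g, tw d g P = P) (h : Cork d) :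
    Module.finrank ℤ G ≤ 1 := by
  by_contra k
  obtain ⟨π, hπ⟩ := lk_surj (G := G) (n := 2) (by omega)
  choose P hP using hπ
  obtain ⟨C, hC⟩ := h
  let t := (lk_finite_tors (G := G)).toFinset
  have main : ∀ m : ℕ, 16 ^ m ≤ t.card * (C * 8 ^ m) := fun m => by
    choose Q hQ using lk_root m
    have fin : Finite (nsmulAddMonoidHom (α := EE) (2 ^ m)).ker :=
      Nat.finite_of_card_ne_zero (by rw [lk_card]; positivity)
    have := Fintype.ofFinite (nsmulAddMonoidHom (α := EE) (2 ^ m)).ker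
    let F : (Fin 2 → Fin (2 ^ m)) × (nsmulAddMonoidHom (α := EE) (2 ^ m)).ker → EE := fun x =>
      Q (f (P fun i => ((x.1 i : ℕ) : ℤ))) + x.2
    have hF : ∀ x, 2 ^ m • F x = f (P fun i => ((x.1 i : ℕ) : ℤ)) := fun x => by
      have : 2 ^ m • x.2.1 = 0 := x.2.2
      rw [smul_add, hQ, this, add_zero]
    have h1 : Fintype.card ((Fin 2 → Fin (2 ^ m)) × (nsmulAddMonoidHom (α := EE) (2 ^ m)).ker) ≤
        t.card * (Finset.univ.image fun x => lkC d (F x)).card := by
      refine Finset.card_le_mul_card_image _ _ fun q hq => ?_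
      obtain ⟨y, -, rfl⟩ := Finset.mem_image.1 hq
      have key : ∀ x, lkC d (F x) = lkC d (F y) → x.1 = y.1 ∧ ∃ R ∈ t, f R = x.2 - y.2 :=
        fun x e => by
          obtain ⟨R, hR⟩ := (hr _).2 (lkC_eq e)
          have a1 := congrArg (2 ^ m • ·) hR
          simp only [smul_sub, hF, ← map_nsmul, ← map_sub] at a1
          have a2 := congrArg π (hf a1)
          rw [map_nsmul, map_sub, hP, hP] at a2
          have a3 : x.1 = y.1 := funext fun i => Fin.ext (by
            have a4 := congrFun a2 i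
            simp only [Pi.smul_apply, Pi.sub_apply, nsmul_eq_mul] at a4
            exact (Nat.modEq_iff_dvd.2 ⟨_, a4.symm⟩).symm.eq_of_lt_of_lt (x.1 i).2 (y.1 i).2)
          refine ⟨a3, R, ?_, by rw [hR]; simp only [F, a3, add_sub_add_left_eq_sub]⟩
          refine (Set.Finite.mem_toFinset _).2
            (isOfFinAddOrder_iff_nsmul_eq_zero.2 ⟨2 ^ m, by positivity, hf ?_⟩)
          rw [a1, a3, sub_self]
      choose a R b c using key
      refine Finset.card_le_card_of_injOn
        (fun x => if e : lkC d (F x) = lkC d (F y) then R x e else 0) (fun x hx => ?_)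
        fun x hx x' hx' e => ?_
      · have e := (Finset.mem_filter.1 hx).2
        simpa only [dif_pos e, Finset.mem_coe] using b x e
      · have e1 := (Finset.mem_filter.1 hx).2
        have e2 := (Finset.mem_filter.1 hx').2
        simp only [dif_pos e1, dif_pos e2] at e
        exact Prod.ext ((a x e1).trans (a x' e2).symm)
          (Subtype.ext (sub_left_inj.1 ((c x e1).symm.trans (e ▸ c x' e2))))
    have h2 := hC m (Finset.univ.image fun x => lkC d (F x)) fun ξ hξ => by
      obtain ⟨x, -, rfl⟩ := Finset.mem_image.1 hξ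
      exact ⟨lkC_sel _, lkC_kill fun g => by rw [hF]; exact (hr _).1 ⟨_, rfl⟩ g⟩
    rw [Fintype.card_prod,
      ← Nat.card_eq_fintype_card (α := (nsmulAddMonoidHom (α := EE) (2 ^ m)).ker), lk_card] at h1
    refine le_trans (le_of_eq ?_) (h1.trans (Nat.mul_le_mul_left _ h2))
    rw [Fintype.card_fun, Fintype.card_fin, Fintype.card_fin, ← pow_mul, mul_comm m, pow_mul,
      ← mul_pow]
    rfl
  have h3 := main (t.card * C)
  rw [← mul_assoc, show 16 = 2 * 8 from rfl, mul_pow] at h3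
  exact (Nat.le_of_mul_le_mul_right h3 (by positivity)).not_gt Nat.lt_two_pow_self

theorem lk_fg (hd : d ≠ 0) (h : Cork d) : Module.Finite ℤ (twist15 d).toAffine.Point := by
  have := (split_twist15 hd).isElliptic
  obtain ⟨C, hC⟩ := approx_parallelogram (twist15 d)
  have e : naiveHeight (twist15 d) = fun P => logHeight₁ (xco P) :=
    funext fun P => logHeight_xRep P
  rw [Module.Finite.iff_addGroup_fg]
  refine AddCommGroup.fg_of_descent' (h := naiveHeight (twist15 d)) (C := C)
    (lk_weak _ (lk_vcQ hd).hom_injective (lk_pts hd) h) (fun P => logHeight_nonneg _) ?_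
  rw [e]
  exact hC

theorem lk_nz {G : Type*} [AddCommGroup G] [Module.Finite ℤ G] (f : G →+ EE)
    (hf : Function.Injective f) (hr : ∀ P, P ∈ f.range ↔ ∀ g, tw d g P = P) :
    Nz d ↔ ∃ P : EE, ¬ IsOfFinAddOrder P ∧ ∀ g, tw d g P = P := by
  constructor
  · rintro ⟨P, h1, h2⟩
    exact ⟨P, by simpa using h2 0 ((hr _).1 (zero_mem _)), h1⟩
  · rintro ⟨P, h1, h2⟩
    obtain ⟨P, rfl⟩ := (hr _).2 h2
    obtain ⟨π, hπ⟩ := lk_surj (RankOne.one_le_finrank fun k => h1 (f.isOfFinAddOrder k))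
    obtain ⟨R, hR⟩ := hπ 1
    refine ⟨f R, (hr _).1 ⟨_, rfl⟩, fun Q hQ k => ?_⟩
    obtain ⟨Q, rfl⟩ := (hr _).2 hQ
    rw [← map_nsmul, ← map_sub, hf.isOfFinAddOrder_iff] at k
    have := congrFun (π.isOfFinAddOrder k).eq_zero' 0
    rw [map_sub, map_nsmul, hR] at this
    change 1 - 2 * π Q 0 = 0 at this
    omega

end Pool.Agent.Lib.MP_696deb_nt.B2
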