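import Pool.Agent.Lib.MP_696deb_nt.B2.AXa
import Pool.Agent.Lib.MP_696deb_nt.B2.AXd
import Pool.Agent.Lib.MP_696deb_nt.B2.AXe
import Pool.Agent.Lib.MP_696deb_nt.B2.AXf
import Pool.Agent.Lib.MP_696deb_nt.B2.AXg

set_option autoImplicit false

open scoped Classical
open NumberTheorySymbols

namespace Pool.Agent.Lib.MP_696deb_nt.B2

theorem m_aux (hd : DescStmt) {d : ℤ} (h : Cls0 d) :
    ∃ (d' : ℤ) (n : ℕ) (a b : ℤ), Ctx d d' n a b ∧ Cork d' := by
  obtain ⟨R, P, _, _, p, q, k₁, k₃, F⟩ := exists_fam h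
  refine ⟨_, _, _, _, F.ctx, cork_of_card fun s hs => le_trans ?_ F.card_le⟩
  have hl : ∀ i, (famL p q i).Prime ∧ ¬ famL p q i ∣ 30 := by
    rintro (k | j)
    · exact F.pp _
    · exact F.qp _
  have hi : Function.Injective (famL p q) := by
    rintro (k | j) (k' | j') e
    · simpa using F.inj (a₁ := .inl (.inl k)) (a₂ := .inl (.inl k')) e
    · simpa using F.inj (a₁ := .inl (.inl k)) (a₂ := .inr j') e
    · simpa using F.inj (a₁ := .inr j) (a₂ := .inl (.inl k')) e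
    · simpa using F.inj (a₁ := .inr j) (a₂ := .inr j') e
  have D0 : ∏ i, pstar (famL p q i) ≠ 0 := Finset.prod_ne_zero_iff.2 fun i _ =>
    Int.natAbs_ne_zero.1 (by rw [natAbs_pstar]; exact (hl i).1.ne_zero)
  refine Finset.card_le_card_of_surjOn (fun v g =>
    (v.2.2.1 * xi (-3) g + v.2.2.2.1 * xi 5 g + ∑ i, v.1 i * xi (pstar (famL p q i)) g).val • T2 +
    (v.2.2.2.2 * xi (-1) g + v.2.2.1 * xi (-3) g +
      ∑ i, v.2.1 i * xi (pstar (famL p q i)) g).val • T1) fun ξ hξ => ?_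
  obtain ⟨α, β, h1, h2⟩ := ax_pair hd D0 (hs ξ hξ).1 (hs ξ hξ).2
  obtain ⟨x, y, a, c, t, h3, h4⟩ := ax_expand hl hi h1
  refine ⟨(x, y, a, c, t), by simpa using h3, funext fun g => ?_⟩
  rw [h2, (h4 g).1, (h4 g).2]

end Pool.Agent.Lib.MP_696deb_nt.B2
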