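import Pool.Agent.Lib.MP_696deb_nt.B2.CMz

set_option autoImplicit false

open scoped Classical
open NumberTheorySymbols

namespace Pool.Agent.Lib.MP_696deb_nt.B2

open CM in
theorem m_hs (F : CFT) (hk : KronStmt) (hq : QuadStmt) {n : ℕ} (hn : Nok n) {r : ℤ}
    (hr : 60 ∣ r ^ 2 + n) : ∃ S : HS n, S.Link r := by
  have _ := hq
  have i0 := cmz_fin hn
  let i1 : ∀ c, Fintype (Pc n c) := fun c => Fintype.ofFinite _
  let i2 : ∀ c, Fintype (Tw (Pc n c)) := fun c => Fintype.ofFinite _
  choose ν hν using exists_nu_psi F hn hr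
  choose θ hθ using exists_gen_psi hn hr
  refine ⟨{
    C := fun c => Tw (Pc n c)
    pr := fun c c' => twm (pj n c c')
    ψ := psi n
    y := fun c => yT n c r
    ν := ν
    gen := θ
    two := fun _ => tw_two
    sm := fun c _ => (sm_rho _ n c).comp (tq _)
    mul := fun _ h => psi_mul (cmz_ok hn h)
    surj := fun _ h => psi_surj (cmz_ok hn h)
    pr_ψ := fun _ _ h k g _ => pr_psi (cmz_ok hn h) k g
    dih := fun _ h _ hg => by rw [psi, rho_sq (cmz_ok hn h) hg, map_one]
    unr := fun _ _ h k _ hg => psi_unr F hn h k hg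
    gal := fun _ h _ hg => smul_yT (cmz_okR hn hr h) hg
    conj := fun _ h => cc_yT (cmz_okR hn hr h)
    trace := fun _ _ hl h a => by convert trace_yT hn hr hl h a
    kron := fun _ _ _ h hg => kron_yT hk hn hr h hg
    ν_gen := fun w s τ h k hτ => (hν _ s w.prime h k).2 w τ rfl hτ
    ν_ram := fun l s _ hl h k hw _ hg =>
      (hν l s hl h k).1 _ (tq_rho_ram_sq (cmz_ok hn h) hn.good.sqf hw hg)
    ν_fib := fun c l s hl h k a x => by
      convert nu_fib F hn hl h (ν l s) (hν l s hl (cmz_dvd h (dvd_mul_left l c)) k).2 a x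
    gen_ψ := hθ }, fun T e hT he h4 => link_yT hn hr hT he h4 (θ e) (hθ e he h4)⟩

end Pool.Agent.Lib.MP_696deb_nt.B2
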