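import Pool.Agent.Lib.MP_696deb_nt.B2.PAu
import Pool.Agent.Lib.MP_696deb_nt.B2.PAd
import Pool.Agent.Lib.MP_696deb_nt.B2.PAh3
import Pool.Agent.Lib.MP_696deb_nt.B2.PAr
import Pool.Agent.Lib.MP_696deb_nt.B2.PAm
import Pool.Agent.Lib.MP_696deb_nt.B2.PAg2

set_option autoImplicit false

open scoped Classical
open Finset Matrix PowerSeries Filter Submodule LinearMap

namespace Pool.Agent.Lib.MP_696deb_nt.B2.PA

variable {G : Type} [Group G] {θ : G →* G} {e : ℕ} {lv : ℕ → ℕ} (hlv : ∀ k, k < lv k)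
  (T : ∀ k, Lev G θ e (lv k))

/-- The limit of the analytic side. -/
noncomputable def gi : Lam := ul fun k => (T k).g

theorem gi_eq (o : Fin 2 → Bool) : gi T =
    hi T ^ 2 * (Qi T 0 (o 0) * Qi T 1 (o 1)) * (Qi T 0 (!o 0) * Qi T 1 (!o 1)) := by
  have h : gi T = hi T * hi T * (Qi T 0 true * Qi T 0 false * (Qi T 1 true * Qi T 1 false)) := by
    simp only [gi, hi, Qi, ← ul_mul, Lev.g, sq]
    rfl
  rw [h]
  cases o 0 <;> cases o 1 <;> simp only [Bool.not_true, Bool.not_false] <;> ring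

include hlv in
theorem lim_span {a b : ℕ → Lam}
    (h : ∀ k, 2 ^ e ∈ Ideal.span {a k, b k} ⊔ aa (lv k) (lv k)) :
    2 ^ e ∈ Ideal.span {ul a, ul b} := by
  choose x hx y hy hxy using fun k => Submodule.mem_sup.1 (h k)
  choose s t hst using fun k => Ideal.mem_span_pair.1 (hx k)
  refine Ideal.mem_span_pair.2 ⟨ul s, ul t, ?_⟩
  rw [← ul_mul, ← ul_mul, ← ul_add, ← add_zero (ul _), ← ul_zero hlv hy, ← ul_add,
    ← ul_const (2 ^ e)]
  refine congrArg _ (funext fun k => ?_)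
  rw [← hxy k, ← hst k]
  rfl

include hlv in
theorem exists_ori {P : Ideal Lam} [hP : P.IsPrime] (h2 : (2 : Lam) ∉ P) :
    ∃ o : Fin 2 → Bool, ∀ v, Qi T v (!o v) ∉ P := by
  have h : ∀ v, ∃ b, Qi T v (!b) ∉ P := fun v => by
    by_contra hc
    push Not at hc
    refine h2 (hP.mem_of_pow_mem e (Ideal.span_le.2 ?_ (lim_span hlv fun k => (T k).Q_cop v)))
    rintro _ (rfl | rfl)
    · exact hc false
    · exact hc true
  choose o ho using h
  exact ⟨o, ho⟩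

include hlv in
theorem Qi_notMem (v : Fin 2) (b : Bool) : Qi T v b ∉ Ideal.span {(X : Lam)} := fun hm => by
  have hP : (Ideal.span {(X : Lam)}).IsPrime := (Ideal.span_singleton_prime prime_X.ne_zero).2 prime_X
  have h := lim_span hlv (b := fun _ => X) fun k => (T k).Q_T v b
  rw [ul_const] at h
  refine two_notMem (hP.mem_of_pow_mem e (Ideal.span_le.2 ?_ h))
  rintro _ (rfl | rfl)
  · exact hm
  · exact Ideal.subset_span rfl

include hlv in
/-- The square presentation in the limit. -/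
theorem branch_pres {C : ℕ} (hC : ∀ k, Nat.card (Wk (T k).SF (aa 1 1)) ≤ C) :
    (∀ k, PGen C (perp (T k).SF)) ∧ ∃ (r : ℕ) (M : Matrix (Fin r) (Fin r) Lam),
      Nonempty ((Fr (ℕ → G × Fin 2) ⧸ RFi T) ≃ₗ[Lam] Cok M) := by
  have h1 : ∀ k, 1 ≤ lv k := fun k => (Nat.zero_le k).trans_lt (hlv k)
  have hf : ∀ k, Finite (T k).SF := fun k =>
    have := (T k).fin0
    Finite.of_injective _ (Submodule.inclusion_injective (inf_le_left : (T k).SF ≤ (T k).S0))
  have hG : ∀ k, PGen C (perp (T k).SF) := fun k => by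
    have := fin_perp (S := (T k).SF)
    refine gen_of_cnt _ ?_
    rw [cnt_perp (aa_anti (h1 k) (h1 k))]
    exact (hC k).trans Nat.lt_two_pow_self.le
  refine ⟨hG, U_sq (r0 := C) hlv fun k => sq_pres (h1 k) _ (aa_le_perp _) (hG k) ?_⟩
  rw [cnt_perp le_sup_left, cnt_self]
  exact (T k).sq

theorem tame_SF {r0 : ℕ} (hG : ∀ k, PGen r0 (perp (T k).SF)) : Tame fun k => (T k).SF :=
  (tame_S0 T hG).le fun _ => inf_le_left

section

variable {r0 : ℕ} (hG : ∀ k, PGen r0 (perp (T k).SF)) {r : ℕ} (M : Matrix (Fin r) (Fin r) Lam)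
  (E : (Fr (ℕ → G × Fin 2) ⧸ RFi T) ≃ₗ[Lam] Cok M)
include hlv hG E

theorem cntM_lim (j i : ℕ) : ∀ᶠ k in UU, j ≤ lv k ∧ i ≤ lv k ∧
    cntM M (aa j i) = Nat.card (Wk (T k).SF (aa j i)) := by
  rw [← cnt_cok _ M E]
  exact cnt_lim hlv (tame_SF T hG) j i

theorem branch_dvd (hf : lamb M.det ≠ ⊤) (hg : gi T ≠ 0) : M.det ∣ gi T := by
  refine dvd_of_primes hf fun π hπ h2 n hn => ?_
  have hP : (Ideal.span {π}).IsPrime := (Ideal.span_singleton_prime hπ.ne_zero).2 hπ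
  have h2' : (2 : Lam) ∉ Ideal.span {π} := fun h => h2 (Ideal.mem_span_singleton.1 h)
  obtain ⟨o, ho⟩ := exists_ori hlv T h2'
  rw [gi_eq T o] at hg ⊢
  have hg' := left_ne_zero_of_mul hg
  have hQ : ∀ v, Qi T v (o v) ≠ 0 := Fin.forall_fin_two.2
    ⟨left_ne_zero_of_mul (right_ne_zero_of_mul hg'), right_ne_zero_of_mul (right_ne_zero_of_mul hg')⟩
  obtain ⟨S, -⟩ := sys_of hlv T hG M E h2' ho hQ (par := False) False.elim
  obtain ⟨S', -⟩ := S.loc
  have := dvr_at hπ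
  have h := S'.upper fun h0 => hg' (by
    rw [(map_eq_zero_iff _ (lo_inj _)).1 h0]
    simp)
  refine Dvd.dvd.mul_right ((ord_at hπ _ n).2 (((ord_at hπ _ n).1 hn).trans ?_)) _
  simpa only [map_mul, map_pow] using h

theorem branch_fin (hg : gi T ≠ 0) (hd : gi T ∣ M.det) (hc : ∃ C, ∀ k j, j ≤ lv k →
      Nat.card (Wk ((T k).S (T k).n0) (aa j 1)) ≤ C * 4 ^ j) :
    (∃ σ ∈ NN T, ∃ i, k0i T σ i ∉ Ideal.span {(X : Lam)}) ∧
      ∃ C, ∀ j, ∃ k, j ≤ lv k ∧ Nat.card (Wk ((T k).S (T k).n0) (aa j 1)) ≤ C * 2 ^ j := by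
  have hP : (Ideal.span {(X : Lam)}).IsPrime := (Ideal.span_singleton_prime prime_X.ne_zero).2 prime_X
  set o : Fin 2 → Bool := fun _ => true
  have hQ : ∀ v, Qi T v (o v) ≠ 0 := fun v h => Qi_notMem hlv T v (o v) (h ▸ zero_mem _)
  obtain ⟨S, hS⟩ := sys_of hlv T hG M E two_notMem (fun v => Qi_notMem hlv T v (!o v)) hQ
    (par := True) fun _ => ⟨rfl, hc⟩
  obtain ⟨S', hS'⟩ := S.loc
  have := dvr_at prime_X
  rw [gi_eq T o] at hg hd
  have hg' := left_ne_zero_of_mul hg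
  have hg'' : algebraMap Lam (LO (Ideal.span {(X : Lam)})) (hi T ^ 2 * (Qi T 0 (o 0) * Qi T 1 (o 1)))
      ≠ 0 := (map_ne_zero_iff _ (lo_inj _)).2 hg'
  have hd' := Ring.ord_le_ord_of_dvd
    (map_dvd (algebraMap Lam (LO (Ideal.span {(X : Lam)}))) (dvd_of_mul_right_dvd hd))
  rw [map_mul, map_mul, map_pow] at hg'' hd'
  constructor
  · obtain ⟨σ, hσ, i, hi⟩ := S'.surj trivial hg'' hd'
    exact ⟨σ, hσ, i, (lo_notMem _).1 hi⟩
  · have h1 := S'.dim1 trivial fun h0 => hg'' (by rw [h0]; simp)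
    rw [hS', hS] at h1
    have h2 := Dim1.of_loc h1
    have hn0 : Tame fun k => (T k).S (T k).n0 :=
      (tame_S0 T hG).le fun k => (T k).S_n0.trans_le inf_le_left
    have h3 : Dim1 (Ideal.span {(X : Lam)}) (PRel fun k => perp ((T k).S (T k).n0)) := by
      have key : ∀ t : Fr (ℕ → G × Fin 2) →ₗ[Lam] Lam ⧸ Ideal.span {(X : Lam)},
          (PRel fun k => perp ((T k).S (T k).n0)) ≤ LinearMap.ker t →
          Ro T o (fun k => (T k).S (T k).n0) ≤ LinearMap.ker t := fun t ht => by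
        rw [Ro, rel_ori T hn0.1]
        refine sup_le ht (span_le.2 ?_)
        rintro _ ⟨v, rfl⟩
        have h := ht (rel_nu T o v fun k c hc => (T k).Q_nu _ c hc v (o v))
        rw [LinearMap.mem_ker, map_smul, Algebra.smul_def] at h
        exact (mul_eq_zero.1 h).resolve_left fun h0 =>
          Qi_notMem hlv T v (o v) (Ideal.Quotient.eq_zero_iff_mem.1 h0)
      exact fun t t' ht ht' => h2 t t' (key t ht) (key t' ht')
    obtain ⟨r, hr⟩ := hn0.2
    have := U_fg hr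
    obtain ⟨C, hC⟩ := cnt_of_dim1 _ h3
    refine ⟨C, fun j => ?_⟩
    obtain ⟨k, h4, -, h5⟩ := (cnt_lim hlv hn0 j 1).exists
    exact ⟨k, h4, h5 ▸ hC j⟩

end

theorem pa : PAStmt := by
  intro G _ θ e lv T R hlv ⟨C, hC⟩ hsame hcong ⟨j0, href⟩ hc
  have h1 : ∀ k, 1 ≤ lv k := fun k => (Nat.zero_le k).trans_lt (hlv k)
  obtain ⟨hGR, rR, MR, ⟨ER⟩⟩ := branch_pres hlv R fun k => hC k 1 (h1 k)
  obtain ⟨hGT, rT, MT, ⟨ET⟩⟩ := branch_pres hlv T (C := C) fun k => by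
    rw [hsame k 1 (h1 k)]
    exact hC k 1 (h1 k)
  have lR : lamb MR.det ≠ ⊤ := lamb_ne_top MR (C := C) fun j => by
    obtain ⟨k, -, h3, h4⟩ := (cntM_lim hlv R hGR MR ER 1 j).exists
    exact h4 ▸ hC k j h3
  have lT : lamb MT.det = lamb MR.det := lamb_eq MT MR fun j => by
    obtain ⟨k, ⟨-, h3, h4⟩, -, -, h5⟩ :=
      ((cntM_lim hlv T hGT MT ET 1 j).and (cntM_lim hlv R hGR MR ER 1 j)).exists
    rw [h4, h5, hsame k j h3]
  obtain ⟨k, ⟨h3, -, h4⟩, h5⟩ :=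
    ((cntM_lim hlv R hGR MR ER j0 1).and (ul_spec (fun k => (R k).g) j0)).exists
  obtain ⟨m, hm, hg, hcard⟩ := href k h3
  have gR : gi R ∉ aa (m + 1) 1 := fun h => hg (by
    have := add_mem (aa_anti (j := m + 1) (i := 1) hm ((Nat.zero_le m).trans_lt hm) h5) h
    rwa [gi, sub_add_cancel] at this)
  have fR : MR.det ∈ aa m 1 := cnt_zero MR (h4 ▸ hcard)
  obtain ⟨w, hw⟩ := branch_dvd hlv R hGR MR ER lR fun h => gR (h ▸ zero_mem _)
  have lg : lamb (gi R) = lamb MR.det := by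
    rw [hw, lamb_mul, lamb_eq_zero.2 (unit_ref (w := w) fR (hw ▸ gR)), add_zero]
  have lgT : lamb (gi T) = lamb MT.det := by
    rw [lT, ← lg]
    refine lamb_congr ?_
    rw [gi, gi, ← ulH_apply, ← ulH_apply, ← map_sub]
    refine ul_mem _ fun j => (ev_ge j).mono fun k hk => ?_
    have h6 : aa 1 (lv k) ≤ Ideal.span {2} ⊔ aa j j := Ideal.span_le.2 (by
      rintro _ (rfl | rfl)
      · exact mem_sup_left (Ideal.subset_span (by simp))
      · exact mem_sup_right (aa_anti (hk.trans (hlv k).le) (hk.trans (hlv k).le)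
          (Ideal.subset_span (by simp))))
    exact h6 (hcong k)
  have gT : gi T ≠ 0 := fun h => lR (by rw [← lT, ← lgT, h, lamb_zero])
  obtain ⟨w', hw'⟩ := branch_dvd hlv T hGT MT ET (lT ▸ lR) gT
  have uw : IsUnit w' := lamb_eq_zero.1 (by
    rw [hw', lamb_mul] at lgT
    exact WithTop.add_left_cancel (lT ▸ lR) (lgT.trans (add_zero _).symm))
  obtain ⟨⟨σ, hσ, i, hi⟩, h7⟩ :=
    branch_fin hlv T hGT MT ET gT (hw' ▸ uw.mul_right_dvd.2 dvd_rfl) hc
  refine ⟨fun ⟨a, ha⟩ => hi ?_, h7⟩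
  have hP : (Ideal.span {(X : Lam)}).IsPrime := (Ideal.span_singleton_prime prime_X.ne_zero).2 prime_X
  refine (hP.mem_or_mem (x := 2 ^ a) ?_).resolve_left fun h => two_notMem (hP.mem_of_pow_mem a h)
  choose t ht using fun k => Ideal.mem_span_singleton'.1 (ha k (σ k) ((mem_NN T).1 hσ k) i)
  have h8 := congrArg (lim hlv) (funext ht :
    (t * fun k => Ideal.Quotient.mk (aa (lv k) (lv k)) X) =
      2 ^ a * fun k => (T k).kap (T k).n0 (σ k) i)
  rw [map_mul, map_mul, lim_mk hlv fun _ => X, ul_const, map_pow, map_ofNat] at h8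
  rw [k0i, kapi_evi hlv, ← h8]
  exact Ideal.mul_mem_left _ _ (Ideal.subset_span rfl)

end Pool.Agent.Lib.MP_696deb_nt.B2.PA
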