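import Pool.Agent.Lib.MP_696deb_nt.B2.KDd

set_option autoImplicit false

open scoped NNReal Classical
open Finset Matrix NumberTheorySymbols PowerSeries

namespace Pool.Agent.Lib.MP_696deb_nt.B2

section

variable {n k c : ℕ} {S : HS n} {T : Tate} {lam : Plc} {e : ℤ} {g : Gam} {R : S.C lam.p → EE}
  {D : S.C c → S.C lam.p → EE}

theorem xkc_tors (K : KD S k lam.p c (S.Wt k ∅ c) R D) (hg : g ∈ GK n) (x : S.C lam.p) :
    2 ^ k • (g • R ((S.ψ lam.p g)⁻¹ * x) - R x) = 0 := by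
  rw [smul_sub, smul_comm, K.hR, K.hR, kd_F_smul K.adm K.dvd hg]
  exact sub_self _

theorem xkc_four (K : KD S k lam.p c (S.Wt k ∅ c) R D) (T : Tate) (g : Gam) (x : S.C lam.p) :
    S.tt lam.p c R D g x = 4 • (g • R ((S.ψ lam.p g)⁻¹ * x) - R x) := by
  rw [HS.tt, smul_sub, kd_four T K.nok K.adm (K.fx _ x) (k := k) (by simp [K.hD, HS.F, HS.Wt]),
    sub_zero]

theorem xkc_tr {l : ℕ} {R : S.C l → EE} {D : S.C c → S.C l → EE} (hl : l.Prime)
    (K : KD S k l c (S.Wt k ∅ c) R D) (hc : c = 1 * l) (e : ℤ) :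
    2 ^ k • ∑ x, (S.gen e (S.pr 1 l x) : ℤ) • R x = a15 l • S.ychi e := by
  subst hc
  have h1 : ∀ x, 2 ^ k • (S.gen e (S.pr 1 l x) : ℤ) • R x =
      ∑ a with S.pr l (1 * l) a = x, (S.gen e (S.pr 1 (1 * l) a) : ℤ) • S.y (1 * l) a := fun x => by
    rw [smul_comm, K.hR, HS.F, smul_sum]
    refine sum_congr rfl fun a ha => ?_
    rw [← (mem_filter.1 ha).2, kd_pr K.adm (one_dvd _) K.dvd, HS.Wt, prod_empty, one_smul]
  rw [smul_sum, sum_congr rfl fun x _ => h1 x,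
    sum_fiberwise_of_maps_to (g := S.pr l (1 * l)) (fun _ _ => mem_univ _),
    ← sum_fiberwise_of_maps_to (t := univ) (g := S.pr 1 (1 * l)) (fun _ _ => mem_univ _),
    HS.ychi, smul_sum]
  refine sum_congr rfl fun b _ => ?_
  rw [smul_comm, ← S.trace 1 l hl K.adm b, smul_sum]
  exact sum_congr rfl fun a ha => by rw [(mem_filter.1 ha).2]

theorem xkc_ev (v : S.C lam.p → Fin 2 → ZMod (2 ^ k)) :
    T.emb k (fun i => evk k (S.cmb k lam e v i)) =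
      ∑ x, (S.gen e (S.pr 1 lam.p x) : ℤ) • T.emb k (v x) := by
  have h1 : ∀ u, evk k (kdI k u) = u := fun u => by
    rw [← ZMod.natCast_zmod_val u, map_natCast, map_natCast]
  have h2 : ∀ x, evk k (Ideal.Quotient.mk (aa k k) (S.Psi k lam e x)) =
      (S.gen e (S.pr 1 lam.p x) : ℤ) := fun x => by
    rw [evk, ev, Ideal.Quotient.lift_mk]
    simp [HS.Psi]
  simp only [← map_zsmul, ← map_sum]
  congr 1
  funext i
  simp only [HS.cmb, map_sum, map_mul, h1, h2, Finset.sum_apply, Pi.smul_apply]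
  exact sum_congr rfl fun x _ => by rw [zsmul_eq_mul, mul_comm]

theorem xkc_two (hl : Adm n lam.p) (v : S.C lam.p → Fin 2 → ZMod (2 ^ k)) (i : Fin 2) :
    S.cmb k lam e v i - S.cmb k lam 1 v i ∈ Ideal.span {(2 : Ak k)} := by
  rw [HS.cmb, HS.cmb, ← sum_sub_distrib]
  refine sum_mem fun x _ => ?_
  obtain ⟨g, -, rfl⟩ := S.surj _ hl x
  obtain ⟨u, hu⟩ := Ideal.mem_span_singleton.1 (HS.psi_two (S := S) (k := k) (lam := lam) e g)
  rw [← mul_sub, ← map_sub]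
  refine Ideal.mul_mem_left _ _ (Ideal.mem_span_singleton.2 ⟨Ideal.Quotient.mk _ u, ?_⟩)
  rw [← map_ofNat (Ideal.Quotient.mk (aa k k)), ← map_mul, ← hu]
  rfl

end

/-- The classes of Kolyvagin. -/
theorem kc {n k : ℕ} (S : HS n) (T : Tate) (hn : Nok n) {lam : Plc} {a b : ℤ}
    (h : S.Tw k lam a b) : ∃ (κ : ℤ → Finset Plc → Gam → Fin 2 → Ak k)
      (κ₀ : ℤ → Gam → Fin 2 → Ak k) (R : ℤ → EE),
    (∀ e Q, S.DpS T k lam Q → κ e Q ∈ SU T n lam (S.psi k lam e) Q (fun _ => .tr) (Ak k)) ∧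
    (∀ e Q w, w ∉ Q → S.DpS T k lam (insert w Q) →
      κ e (insert w Q) (gn w) = tauM _ *ᵥ κ e Q (fq w)) ∧
    (∀ e, ∀ g ∈ GK n, κ e ∅ g = 4 • κ₀ e g) ∧
    (∀ e, ∀ g ∈ GK n, ∀ i, κ₀ e g i - κ₀ 1 g i ∈ Ideal.span {(2 : Ak k)}) ∧
    ∀ e, 2 ^ k • R e = a15 lam.p • S.ychi e ∧
      ∀ g ∈ S.N T k lam, T.emb k (fun i => evk k (κ₀ e g i)) = g • R e - R e := by
  have hl := h.adm
  have ex : ∀ Q, ∃ R D, S.DpS T k lam Q → KD S k lam.p (cQ lam Q) (S.Wt k Q _) R D := fun Q => by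
    by_cases hQ : S.DpS T k lam Q
    · obtain ⟨R, D, K⟩ := hQ.kd_ex hn hl
      exact ⟨R, D, fun _ => K⟩
    · exact ⟨0, 0, fun k => absurd k hQ⟩
  choose R D K using ex
  have K0 := K ∅ ⟨by simp, by simp⟩
  refine ⟨fun e Q => S.kap T k lam e (S.tt _ _ (R Q) (D Q)),
    fun e => S.kap T k lam e fun g x => g • R ∅ ((S.ψ lam.p g)⁻¹ * x) - R ∅ x,
    fun e => ∑ x, (S.gen e (S.pr 1 lam.p x) : ℤ) • R ∅ x, fun e Q hQ => ?_,
    fun e Q w hw hQ => ?_, fun e g hg => ?_, fun e g hg i => ?_,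
    fun e => ⟨xkc_tr lam.prime K0 (by simp [cQ]) e, fun g hg => ?_⟩⟩
  · refine ((h.sok hn hQ e).mem_SU (kil_Ak k)).2 ⟨(K Q hQ).z1 h, fun w h1 h2 h3 σ hσ =>
      kd_kap_zero ((K Q hQ).unr T h1 (not_dvd_cQ h2 h3) hσ), (K Q hQ).kum, fun w hw =>
        ⟨(Submodule.mem_bot _).2 (kd_kap_zero ?_), trivial⟩⟩
    have e1 := (insert_erase hw).symm
    have h1 := (hQ.dp w hw).kd_dvd hl
    exact (K Q hQ).tr T (c := cQ lam (Q.erase w)) (by rw [← cQ_insert (notMem_erase w Q), ← e1])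
      (dvd_mul_right _ _) h1.1 h1.2 (kd_Wt_insert (K Q hQ).adm (notMem_erase w Q) e1)
  · have hd := hQ.dp w (mem_insert_self _ _)
    have K1 := K Q (hQ.kd_mono (subset_insert _ _))
    have h1 := hd.kd_dvd hl
    have h2 := hd.adm.ine (gn_spec hd.adm.ne.1).1
    have h3 := K1.step (K _ hQ) T (cQ_insert hw) (hQ.kd_nd hw) h1.1 h1.2
      (kd_Wt_insert (K _ hQ).adm hw rfl)
    have h4 : mred k (T.ρ (fr w)) = !![1, 0; 0, -1] :=
      (la_mred_le (by omega) (hd.deep hl 1).rho_fr).trans (T.mred_cc k)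
    simp only [kd_kap h2, kd_kap (kd_fq (S := S) hl hd.adm).1, ← h3,
      kd_crd_smul ((K _ hQ).tors h2 _), kd_cmb_mul, h4, mulVec_mulVec]
    rw [show tauM (Ak k) * (!![1, 0; 0, -1] : Matrix (Fin 2) (Fin 2) _).map (kdI k) = 1 by
      ext i j
      fin_cases i <;> fin_cases j <;> simp [tauM, Matrix.mul_apply], one_mulVec]
  · funext i
    simp only [kd_kap hg, xkc_four K0 T, kd_crd_nsmul (xkc_tors K0 hg _), HS.cmb, Pi.smul_apply,
      smul_sum, map_nsmul, smul_mul_assoc]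
  · simp only [kd_kap hg]
    exact xkc_two hl _ i
  · simp only [kd_kap hg.1]
    rw [xkc_ev, smul_sum, ← sum_sub_distrib]
    refine sum_congr rfl fun x _ => ?_
    rw [kd_emb (xkc_tors K0 hg.1 x), hg.2.2 hl, inv_one, one_mul, smul_sub, smul_comm g]

end Pool.Agent.Lib.MP_696deb_nt.B2
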