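import Pool.Agent.Lib.MP_696deb_nt.B2.XTW

/-! Elements of the deep subgroup with a prescribed image, and a trivial choice of places. -/

set_option autoImplicit false

open scoped Classical
open Finset Matrix

namespace Pool.Agent.Lib.MP_696deb_nt.B2

variable {n k : ℕ} {S : HS n} {T : Tate} {lam : Plc}

theorem HS.psi_one (S : HS n) {l : ℕ} (h : Adm n l) : S.ψ l 1 = 1 := by
  simpa using S.mul _ h 1 (one_mem _) 1 (one_mem _)

theorem HS.mu9_psi (S : HS n) (hn : Nok n) (hl : Adm n lam.p) {g : Gam} (hg : g ∈ I30) :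
    S.ψ lam.p g = 1 := by
  let U : Subgroup Gam :=
    { carrier := {g | g ∈ GK n ∧ S.ψ lam.p g = 1}
      one_mem' := ⟨one_mem _, S.psi_one hl⟩
      mul_mem' := fun {x y} hx hy =>
        ⟨mul_mem hx.1 hy.1, by rw [S.mul _ hl x hx.1 y hy.1, hx.2, hy.2, one_mul]⟩
      inv_mem' := fun {x} hx => ⟨inv_mem hx.1, by
        have := S.mul _ hl _ (inv_mem hx.1) _ hx.1
        rw [inv_mul_cancel, S.psi_one hl, hx.2, mul_one] at this
        exact this.symm⟩ }
  have le : I30 ≤ U := iSup_le fun w σ hσ =>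
    have m := hn.I30_le (le_iSup (fun w : {w : Plc // w.p ∣ 30} => Ine w.1) w hσ)
    ⟨m, S.unr _ w.1 hl (fun e => hl.nd30 ((Nat.prime_dvd_prime_iff_eq w.1.prime lam.prime).1 e ▸ w.2))
      σ ⟨m, hσ⟩⟩
  exact (le hg).2

theorem HS.exists_img (S : HS n) (T : Tate) (hn : Nok n) (hl : Adm n lam.p)
    {A : Matrix (Fin 2) (Fin 2) ℤ_[2]} (hA : mred 5 A = 1) (m : ℕ) :
    ∃ g ∈ GK n, S.ψ lam.p g = 1 ∧ mred m (T.ρ g) = mred m A := by
  obtain ⟨g, h1, h2⟩ := T.big A hA m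
  exact ⟨g, hn.I30_le h1, S.mu9_psi hn hl h1, h2⟩

theorem mu9_zero {m m' : ℕ} (h : m ≤ m') : PadicInt.toZModPow m ((2 : ℤ_[2]) ^ m') = 0 := by
  rw [map_pow, map_ofNat]
  exact pow_eq_zero_of_le h (by exact_mod_cast ZMod.natCast_self (2 ^ m))

theorem HS.often_of_forall (hn : Nok n) (hl : Adm n lam.p) (hk : 3 ≤ k) {P : Plc → Prop}
    (h : ∀ w, S.Dp T k lam w → P w) : S.Often T k lam P := by
  have d : ∀ g ∈ S.N T k lam, ∃ y, cy (k + 4) g = 1 + 2 ^ (k + 2) * y := fun g hg => by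
    have h1 := congrArg det hg.2.1
    rw [mred, ← RingHom.mapMatrix_apply, ← RingHom.map_det, T.det, det_one,
      ← map_one (PadicInt.toZModPow (k + 2)), cle_eq_iff] at h1
    obtain ⟨y, hy⟩ := h1
    exact ⟨PadicInt.toZModPow _ y, by
      rw [cy, eq_add_of_sub_eq' hy, map_add, map_one, map_mul, map_pow, map_ofNat]⟩
  have z : (2 : ZMod (2 ^ (k + 4))) ^ (k + 4) = 0 := by exact_mod_cast ZMod.natCast_self (2 ^ (k + 4))
  have one : ∀ m ≤ k + 2, mred m !![1 + 2 ^ (k + 2), 0; 0, 1] = 1 := fun m hm => by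
    ext i j
    fin_cases i <;> fin_cases j <;> simp [mred, -map_pow, mu9_zero hm]
  obtain ⟨g, h1, h2, h3⟩ := S.exists_img T hn hl (one 5 (by omega)) (k + 4)
  refine ⟨k + 4, fun g => cy (k + 4) g - 1, (sm_cy _).comp (· - 1), fun x hx y hy => ?_,
    ⟨g, ⟨h1, (la_mred_le (by omega) h3).trans (one _ le_rfl), fun _ => h2⟩, fun e => ?_⟩,
    fun w hw _ => h w hw⟩
  · obtain ⟨u, hu⟩ := d x hx
    obtain ⟨v, hv⟩ := d y hy
    simp only [B3c_cy_mul, hu, hv]
    linear_combination (2 ^ k * u * v) * z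
  · have h4 := congrArg det h3
    rw [mred, mred, ← RingHom.mapMatrix_apply, ← RingHom.mapMatrix_apply, ← RingHom.map_det,
      ← RingHom.map_det, T.det, det_fin_two_of] at h4
    have h5 : cy (k + 4) (cc * g * cc) = cy (k + 4) g := by
      rw [B3c_cy_mul, B3c_cy_mul, mul_right_comm, ← B3c_cy_mul, ← B3c_cy_mul, cc_mul_cc, one_mul]
    simp only [h5] at e
    rw [cy, h4] at e
    have h6 : ((2 ^ (k + 3) : ℕ) : ZMod (2 ^ (k + 4))) = 0 := by
      simp only [mul_one, mul_zero, sub_zero, map_add, map_one, map_pow, map_ofNat] at e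
      push_cast
      linear_combination e
    exact absurd (Nat.le_of_dvd (by positivity) ((ZMod.natCast_eq_zero_iff _ _).1 h6))
      (not_le.2 (Nat.pow_lt_pow_right one_lt_two (by omega)))

end Pool.Agent.Lib.MP_696deb_nt.B2
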