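import Pool.Agent.Lib.MP_696deb_nt.B2.MU8
import Pool.Agent.Lib.MP_696deb_nt.B2.MU9
import Pool.Agent.Lib.MP_696deb_nt.B2.XLc

set_option autoImplicit false

open scoped NNReal Classical
open Finset Matrix NumberTheorySymbols PowerSeries

namespace Pool.Agent.Lib.MP_696deb_nt.B2

variable {n k : ℕ} {d d' a b : ℤ} {S : HS n} {T : Tate} {lam w : Plc} {φ z : Gam}

theorem trunc_aa (j : ℕ) : Trunc (Ideal.Quotient.mk (aa 1 j) X) j := by
  refine ⟨?_, ?_, fun i hi h => ?_, fun x => ?_⟩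
  · rw [← map_ofNat (Ideal.Quotient.mk (aa 1 j)) 2, Ideal.Quotient.eq_zero_iff_mem]
    simpa using two_mem_aa 1 j
  · rw [← map_pow, Ideal.Quotient.eq_zero_iff_mem]
    exact X_mem_aa 1 j
  · rw [← map_pow, Ideal.Quotient.eq_zero_iff_mem, PA.mem_aa] at h
    have := h i hi
    rw [coeff_X_pow_self, pow_one] at this
    exact PadicInt.prime_p.not_dvd_one this
  · obtain ⟨f, rfl⟩ := Ideal.Quotient.mk_surjective x
    have key : ∀ g : Lam, PadicInt.toZModPow 1 (constantCoeff g) = 0 →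
        Ideal.Quotient.mk (aa 1 j) X ∣ Ideal.Quotient.mk (aa 1 j) g := fun g hg => by
      obtain ⟨y, hy⟩ : (X : Lam) ∣ g - C (constantCoeff g) := X_dvd_iff.2 (by simp)
      have := la_C_mem (hg.trans (map_zero _).symm) j
      rw [map_zero, sub_zero, ← Ideal.Quotient.eq_zero_iff_mem] at this
      exact ⟨Ideal.Quotient.mk _ y, by rw [← map_mul, ← hy, map_sub, this, sub_zero]⟩
    rcases Z2.cases (PadicInt.toZModPow 1 (constantCoeff f)) with h | h
    · exact .inl (key f h)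
    · exact .inr (by simpa using key (f - 1) (by simp [h]))

section

variable {A : Type} [CommRing A] {t : A} {j s : ℕ}

theorem Trunc.pow_val (h : Trunc t j) (l : j ≤ 2 ^ s) (x y : ZMod (2 ^ s)) :
    (1 + t) ^ (x + y).val = (1 + t) ^ x.val * (1 + t) ^ y.val := by
  have : ∀ k : ℕ, (1 + t) ^ 2 ^ k = 1 + t ^ 2 ^ k := fun k => by
    induction k with
    | zero => simp
    | succ k ih =>
      rw [pow_succ, pow_mul, pow_mul, ih]
      linear_combination t ^ 2 ^ k * h.two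
  rw [ZMod.val_add, ← pow_add, ← pow_eq_pow_mod _
    (by rw [this, pow_eq_zero_of_le l h.nil, add_zero])]

theorem TwP.muA (h : TwP S a b s lam φ z) (hn : 0 < n) (ht : Trunc t j) (l : j ≤ 2 ^ s)
    (hs : 0 < s) : MuA t n (xi (-(a * lam.p))) (fun g => (S.ex lam.p s g).val) lam := by
  have : Fact (1 < 2 ^ s) := ⟨Nat.one_lt_two_pow hs.ne'⟩
  refine ⟨(S.ex_sm h.adm s).comp _, h.par, fun g hg u hu => by
    rw [S.ex_hom h.adm s g hg u hu, ht.pow_val l], fun g hg => by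
    rw [← ht.pow_val l, S.ex_cc h.adm hn s hg, neg_add_cancel, ZMod.val_zero, pow_zero],
    fun w hw σ hσ => by
    rw [S.ex_ine h.adm s (mt (Nat.prime_dvd_prime_iff_eq w.prime lam.prime).1 hw) hσ,
      ZMod.val_zero, pow_zero], h.nd, ⟨φ, h.frob.1, h.out⟩, z, h.gen.1, ?_⟩
  rw [← h.par z (h.ine h.gen.1), h.ex_z, ZMod.val_one, Nat.cast_one]

theorem TwP.muN (h : TwP S a b s lam φ z) (T : Tate) (k : ℕ) (t : A) :
    MuN t n (fun g => (S.ex lam.p s g).val) z (S.N T k lam) := by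
  have m := h.ine h.gen.1
  refine ⟨HS.N_le, ⟨fun _ hx g => HS.N_conj hx g⟩, fun σ hσ => by
    rw [S.ex_of s (hσ.2.2 h.adm), ZMod.val_zero, pow_zero], fun g hg =>
    ⟨mul_mem (inv_mem (mul_mem hg m)) (mul_mem m hg), ?_, fun _ => ?_⟩⟩
  · rw [map_mul, map_mul, T.unr lam h.nd30 z h.gen.1, one_mul, ← one_mul (T.ρ g),
      ← mul_one 1, ← mul_assoc, _root_.mul_inv_rev, map_mul, mul_one, mul_one, mul_assoc, ← map_mul,
      inv_mul_cancel, map_one, mul_one, T.unr lam h.nd30 _ (inv_mem h.gen.1), la_mred_one]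
  · have := S.mul _ h.adm _ (mul_mem hg m) _ (mul_mem (inv_mem (mul_mem hg m)) (mul_mem m hg))
    rw [mul_inv_cancel_left, S.mul _ h.adm z m g hg, S.mul _ h.adm g hg z m, mul_comm] at this
    exact left_eq_mul.1 this

end

theorem TwP.muP (h : TwP S a b (2 * k + 3) lam φ z) (hn : Nok n) (T : Tate) :
    MuP n (xi (-(a * lam.p))) lam z w2 (univ.image (sp lam)) := by
  have ok : SOk T n k lam (S.psi k lam 1) ∅ :=
    HS.Tw.sok ⟨φ, z, h⟩ hn ⟨by simp, by simp⟩ 1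
  have par := (h.muA hn.pos trunc_one Nat.one_le_two_pow (by omega)).par z (h.ine h.gen.1)
  have : Fact (1 < 2 ^ (2 * k + 3)) := ⟨Nat.one_lt_two_pow (by omega)⟩
  simp only [h.ex_z, ZMod.val_one, Nat.cast_one] at par
  refine ⟨hn.m8, w2_p, by simpa using ok.apart, mem_image.2 ⟨4, mem_univ _, rfl⟩, fun w hw => ?_,
    h.gen, par.symm⟩
  obtain ⟨i, -, rfl⟩ := mem_image.1 hw
  refine ⟨sp_ne_two h.adm i, ?_⟩
  rcases sp_cases lam i with ⟨v, c, e, -⟩ | rfl
  · rw [e]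
    exact ⟨_, ⟨hn.dec_bq v c (frob_bq v c).1, (frob_bq v c).1⟩, h.bad _ _ (bq_or v c) (frob_bq v c)⟩
  · exact ⟨z, ⟨h.ine h.gen.1, Ine_le _ h.gen.1⟩, par.symm⟩

theorem xmu_act (S : HS n) (T : Tate) (k : ℕ) (lam : Plc) (j : ℕ) (g : Gam)
    (x : Fin 2 → Lam ⧸ aa 1 j) (i : Fin 2) : act T (S.psi k lam 1) _ g x i =
      aT (Ideal.Quotient.mk (aa 1 j) X) (fun g => (S.ex lam.p (2 * k + 3) g).val) g (x i) := by
  have h := trunc_aa j
  have e : ∀ (c : ℤ_[2]) (y : Lam ⧸ aa 1 j), (C c : Lam) • y = (PadicInt.toZModPow 1 c).val • y :=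
    fun c y => la_C_smul (h.smul_zero y) c
  have m : ∀ i l, PadicInt.toZModPow 1 (T.ρ g i l) = (1 : Matrix (Fin 2) (Fin 2) _) i l :=
    fun i l => congrFun (congrFun (T.mod2 g) i) l
  have e1 : mact _ ((T.ρ g).map C) x i = x i := by
    rw [mact_apply, map_apply, map_apply, e, e, m, m]
    revert i
    simp only [Fin.forall_fin_two, one_apply_eq, one_apply_ne zero_ne_one, one_apply_ne one_ne_zero,
      show (1 : ZMod (2 ^ 1)).val = 1 from rfl, ZMod.val_zero, one_smul, zero_smul, add_zero,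
      zero_add, and_self]
  rw [act_eq, Pi.smul_apply, e1, aT_apply, HS.psi, HS.Psi, mul_smul, Algebra.smul_def (_ ^ _),
    Ideal.Quotient.algebraMap_eq, map_pow, map_add, map_one]
  rcases Int.units_eq_one_or (S.gen 1 (S.pr 1 lam.p (S.ψ lam.p g))) with l | l <;> rw [l]
  · simp [HS.ex]
  · simpa [HS.ex] using neg_eq_of_add_eq_zero_left (h.add_self _)

theorem xmu_card (F : CFT) (su : SUStmt) (ch : ChebStmt) (hn : Nok n)
    (h : TwP S a b (2 * k + 3) lam φ z) (hw : S.Dp T k lam w) (hk : 1 ≤ k) {j : ℕ} (hj : j ≤ k) :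
    Nat.card (SM T n lam (S.psi k lam 1) {w} (fun _ => .lag) (Lam ⧸ aa 1 j)) ≤
      2 ^ ((univ.image (sp lam)).card + 1) * Nat.card (SB F n (Ideal.Quotient.mk (aa 1 j) X)
        (fun g => (S.ex lam.p (2 * k + 3) g).val) w2 (univ.image (sp lam)) {fq w, z}) ^ 2 := by
  have ok : SOk T n k lam (S.psi k lam 1) {w} :=
    HS.Tw.sok ⟨φ, z, h⟩ hn ⟨by simpa using hw, by simp⟩ 1
  have ht := trunc_aa j
  have E := h.muA hn.pos ht (s := 2 * k + 3) (hj.trans (Nat.lt_two_pow_self.le.trans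
    (Nat.pow_le_pow_right two_pos (by omega)))) (by omega)
  have P := h.muP hn T
  have ha := xmu_act S T k lam j
  generalize Ideal.Quotient.mk (aa 1 j) X = t at ht E ha ⊢
  generalize (fun g => (S.ex lam.p (2 * k + 3) g).val) = e at E ha ⊢
  have hB : Kil k (Lam ⧸ aa 1 j) := kil_quot (aa_le hk (.inl hj))
  have es : univ.image (sp lam) ∪ insert w2 {w} = insert w2 (insert w (univ.image (sp lam))) := by
    ext x
    simp only [mem_union, mem_insert, mem_singleton]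
    tauto
  have h1 := card_SA F su ch ht E P (es ▸ ok.apart) hw.adm.ne.1 hw.ne (fun e => by
    obtain ⟨i, -, e⟩ := mem_image.1 e
    exact ok.sp_notMem i (by simp [e])) hw.adm.ine (fr_spec w) hw.adm.fr_notMem
  rw [sq, ← mul_assoc]
  refine le_trans ?_ (Nat.mul_le_mul_right _ h1)
  rw [← Nat.card_prod]
  have := finite_ZZ (R := ∅) (v := w2) (L := Lur (GK n) w2 (aT t e)) (Φ := {z})
    (E.finite ht hn.pos (insert w2 (insert w (univ.image (sp lam)))))
  have := finite_ZZ (R := ∅) (v := w2) (L := Lun F (op_GK n) w2 (aT t e)) (Φ := {fq w, z})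
    (E.finite ht hn.pos (insert w2 (univ.image (sp lam))))
  have key : ∀ c ∈ SM T n lam (S.psi k lam 1) {w} (fun _ => .lag) (Lam ⧸ aa 1 j), _ ∧ _ :=
      fun c hc => by
    obtain ⟨p0, p5⟩ := (ok.mem_SM hB).1 hc
    obtain ⟨p1, p2, p3, p4⟩ := (ok.mem_SU hB).1 p0
    obtain ⟨q1, q2⟩ := p3.two F hn.m8 w2_p fun _ => ht.sep
    obtain ⟨q3, q4⟩ := p4 w (mem_singleton_self w)
    have q5 := p5 z ⟨h.ine h.gen.1, Ine_le _ h.gen.1⟩
    have c0 : ∀ i, Coc (GK n) (aT t e) fun g => c g i := fun i =>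
      p1.1.map (Pi.evalAddMonoidHom _ i) fun g _ x => ha g x i
    have c1 : Coc (GK n) (aT t e) fun g => c g 0 + c g 1 := (c0 0).add (c0 1)
    refine And.intro (a := (fun g => c g 0) ∈ ZZ (GK n) (aT t e) (insert w2 (insert w (univ.image (sp lam)))) ∅
      w2 (Lur (GK n) w2 (aT t e)) {z}) (b := (fun g => c g 0 + c g 1) ∈ SB F n t e w2
      (univ.image (sp lam)) {fq w, z}) (mem_ZZ.2 ⟨⟨⟨c0 0, fun g hg => congrFun (p1.2 g hg) 0⟩,
        fun v hv σ hσ => ?_⟩, by simp, (rs_mem_Lur (c0 0)).2 q1, fun g hg => by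
          rw [hg]; exact congrFun q5 0⟩) (mem_ZZ.2 ⟨⟨⟨c1, fun g hg => by simp [p1.2 g hg]⟩,
        fun v hv σ hσ => ?_⟩, by simp, (rs_mem_Lun c1).2 q2, ?_⟩)
    · obtain ⟨r1, r2, r3⟩ := ok.away.1 (es ▸ hv)
      exact congrFun (p2 v r1 r2 r3 σ hσ) 0
    · obtain ⟨r1, r2, -⟩ := (ok.mono (empty_subset _)).away.1 (show Away _ _ v by simpa using hv)
      by_cases r3 : v.p = w.p
      · obtain ⟨g, r4, rfl⟩ := conj_of_inert r3 (fr_spec w).1 hw.adm.fr_notMem
        exact c1.unr_smul (E.act ht) (fun σ hσ => E.triv ht hn.pos hw.ne hw.adm.ine (fr_spec w)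
          hw.adm.fr_notMem σ (mu5_ine _ _ hσ)) (fun σ hσ => (hw.adm.tm_gn hn).zero_ine ht.smul_zero
            ((E.act ht).mono inf_le_left) (c1.mono inf_le_left) q4 hσ.2) r4 σ hσ
      · simp [p2 v r1 r2 (by simpa using r3) σ hσ]
    · rintro g (rfl | rfl)
      · exact (congrArg _ q3).trans (ht.add_self _)
      · simp [q5]
  exact Nat.card_le_card_of_injective (fun c => (⟨_, (key c.1 c.2).1⟩, ⟨_, (key c.1 c.2).2⟩))
    fun c c' e => Subtype.ext (funext fun g => by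
      have e0 : c.1 g 0 = c'.1 g 0 := congrFun (congrArg (·.1.1) e) g
      have e1 : c.1 g 0 + c.1 g 1 = c'.1 g 0 + c'.1 g 1 := congrFun (congrArg (·.2.1) e) g
      rw [e0, add_right_inj] at e1
      exact funext (Fin.forall_fin_two.2 ⟨e0, e1⟩))

theorem card_SB_mono (F : CFT) {A A' : Type} [CommRing A] [CommRing A'] {t : A} {t' : A'}
    {j i : ℕ} {ξ : Gam → ZMod 2} {e : Gam → ℕ} {v : Plc} {Y : Finset Plc} (h : Trunc t j)
    (h' : Trunc t' i) (l : i ≤ j) (E : MuA t n ξ e lam) (hn : 0 < n) (Φ : Set Gam) :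
    Nat.card (SB F n t' e v Y Φ) ≤ Nat.card (SB F n t e v Y Φ) := by
  obtain ⟨ι, r, p1, p2, -⟩ := h.exists_emb h' l
  have : Finite (SB F n t e v Y Φ) := finite_ZZ (E.finite h hn _)
  exact Nat.card_le_card_of_injective (fun c => ⟨_, SB_map F c.2 ι
    ((mem_ZZ.1 c.2).1.1.1.map ι fun g _ x => mu4_pow p2 _ x)⟩) fun c c' l => Subtype.ext
      (funext fun g => Function.LeftInverse.injective p1 (congrFun (congrArg Subtype.val l) g))

/-- The vanishing of the invariant mu. -/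
theorem mu_bound (F : CFT) (su : SUStmt) (ch : ChebStmt) (T : Tate) (hc : Ctx d d' n a b)
    (S : HS n) : ∃ C k₀ : ℕ, ∀ k, k₀ ≤ k → ∀ lam, S.Tw k lam a b → S.Often T k lam fun w =>
      ∀ j ≤ k, Nat.card (SM T n lam (S.psi k lam 1) {w} (fun _ => .lag) (Lam ⧸ aa 1 j)) ≤ C := by
  refine ⟨2 ^ (5 + 1) * (2 ^ (5 + 1) * muC n ^ 4 * 2 ^ 3) ^ 2, 3, fun k hk lam ⟨φ, z, h⟩ => ?_⟩
  have ht := trunc_aa k
  have E := h.muA hc.pos ht (s := 2 * k + 3) (Nat.lt_two_pow_self.le.trans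
    (Nat.pow_le_pow_right two_pos (by omega))) (by omega)
  have c5 : (univ.image (sp lam)).card ≤ 5 := card_image_le.trans (by simp)
  have key : ∀ w, S.Dp T k lam w → Nat.card (SB F n (Ideal.Quotient.mk (aa 1 k) X)
      (fun g => (S.ex lam.p (2 * k + 3) g).val) w2 (univ.image (sp lam)) {fq w, z}) ≤
      2 ^ ((univ.image (sp lam)).card + 1) * muC n ^ 4 * 2 ^ 3 → ∀ j ≤ k,
      Nat.card (SM T n lam (S.psi k lam 1) {w} (fun _ => .lag) (Lam ⧸ aa 1 j)) ≤
        2 ^ (5 + 1) * (2 ^ (5 + 1) * muC n ^ 4 * 2 ^ 3) ^ 2 := fun w hw l j hj => by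
    refine (xmu_card F su ch hc.nok h hw (by omega) hj).trans ?_
    have := (card_SB_mono F ht (trunc_aa j) hj E hc.pos _).trans l
    gcongr
    · norm_num
    · refine this.trans ?_
      gcongr
      norm_num
  rcases mu_choice F su ch ht h.mud E (h.muP hc.nok T) (h.muN T k _) with l | ⟨c, c1, c2, c3, c4⟩
  · exact HS.often_of_forall hc.nok h.adm hk fun w hw => key w hw (l _)
  · exact ⟨1, c, c1, c2, c3, fun w hw l => key w hw (c4 _ l)⟩

end Pool.Agent.Lib.MP_696deb_nt.B2
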