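import Pool.Agent.Lib.MP_696deb_nt.B2.TW3
import Pool.Agent.Lib.MP_696deb_nt.B2.LOK0

/-! Local triviality of cocycles with values in torsion points. -/

set_option autoImplicit false

open scoped NNReal Classical
open Finset Matrix

namespace Pool.Agent.Lib.MP_696deb_nt.B2

variable {T : Tate} {d d' a b : ℤ} {m n : ℕ} {w : Plc} {g : Gam} {x : Gam → Vm m}
  {D H : Subgroup Gam}

theorem Ctx.chi_mul (hc : Ctx d d' n a b) (g : Gam) : chi (-n) g = chi d g * chi d' g := by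
  have h1 := hc.d4
  have h2 := hc.d'_mod
  rw [← hc.mul, B2.chi_mul (by omega) (by omega)]

theorem Ctx.chi_eq (hc : Ctx d d' n a b) (hg : g ∈ GK n) : chi d' g = chi d g := by
  have h := (hc.chi_mul g).symm.trans (B4c_mem.1 hg)
  rw [← Int.units_inv_eq_self (chi d g)]
  exact eq_inv_of_mul_eq_one_right h

theorem Ctx.chi_ne (hc : Ctx d d' n a b) (hg : g ∉ GK n) : chi d' g = -chi d g := by
  have h := (hc.chi_mul g).symm.trans (B4c_notMem.1 hg)
  rw [← Int.units_inv_eq_self (chi d g), eq_inv_mul_of_mul_eq h, mul_neg_one]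

theorem Ctx.chi_ine (hc : Ctx d d' n a b) (hg : g ∈ GK n ⊓ Ine w) : chi d g = 1 := by
  by_cases h : (w.p : ℤ) ∣ d
  · rw [← hc.chi_eq hg.1]
    refine xi_eq_zero.1 (xi_ine hc.d'_mod (fun k => ?_) hg.2)
    exact (Nat.prime_iff_prime_int.1 w.prime).not_isUnit
      (hc.sqf _ (hc.ab ▸ hc.mul ▸ mul_dvd_mul h k))
  · exact xi_eq_zero.1 (xi_ine hc.d4 h hg.2)

theorem chi_GK_two (h4 : d % 4 = 1) (h8 : n % 8 = 3) (hw : w.p = 2) (hg : g ∈ GK n ⊓ Dec w) :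
    chi d g = 1 := by
  by_cases h : d % 8 = 1
  · exact chi_dec_two hw h hg.2
  · have := chi_dec_two (a := d * -n) hw (by
      rw [Int.mul_emod, show d % 8 = 5 by omega, show -(n : ℤ) % 8 = 5 by omega]; rfl) hg.2
    rwa [chi_mul (by omega) (by omega), B4c_mem.1 hg.1, mul_one] at this

/-- Two is inert. -/
theorem frob_two_out (h8 : n % 8 = 3) (hw : w.p = 2) {φ : Gam} (hφ : IsFrob w w.p φ) :
    φ ∉ GK n := fun k => by
  have := chi_GK_two (d := 5) rfl h8 hw ⟨k, hφ.1⟩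
  rw [chi_frob_two hw (hw ▸ hφ)] at this
  exact absurd this (by decide)

theorem lt_of_kum (h4 : d % 4 = 1) (h8 : n % 8 = 3) (hw : w.p = 2)
    (h : KumP T m (GK n ⊓ Dec w) x) : LTv T d m (GK n ⊓ Dec w) x :=
  h.imp fun S h g hg => by rw [h g hg, tw, chi_GK_two h4 h8 hw hg, Units.val_one, one_smul]

theorem lt_conj (h : Coc H (tv T d m) x) (hn : H.Normal) (k : LTv T d m (H ⊓ Dec w) x) {u : Gam}
    (hu : u ∈ H) : LTv T d m (H ⊓ Dec (u • w)) x := by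
  obtain ⟨S, k⟩ := k
  refine ⟨tw d u S - T.emb m (x u), fun g hg => ?_⟩
  have h1 : u⁻¹ * g * u ∈ H := by simpa using hn.conj_mem g hg.1 u⁻¹
  have h2 := congrArg (T.emb m) ((h.2 g hg.1 u hu).symm.trans
    ((congrArg x (by group)).trans (h.2 u hu _ h1)))
  rw [map_add, map_add, emb_tv, emb_tv, k _ ⟨h1, mem_Dec_smul.1 hg.2⟩, ← lkT_apply u, map_sub,
    lkT_apply, ← lk_tw_mul, show u * (u⁻¹ * g * u) = g * u by group, lk_tw_mul] at h2
  simp only [← lkT_apply, map_sub] at h2 ⊢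
  linear_combination (norm := abel1) h2

theorem lt_of_LD (L : LD H w) (h : Coc (H ⊓ Dec w) (tv T d m) x) {S : EE}
    (e1 : T.emb m (x L.φ) = tw d L.φ S - S)
    (e2 : ∀ σ ∈ H ⊓ Ine w, T.emb m (x σ) = tw d σ S - S) : LTv T d m (H ⊓ Dec w) x := by
  have k1 : ∀ g ∈ H ⊓ Dec w, ∀ u ∈ H ⊓ Dec w, T.emb m (x g) = tw d g S - S →
      T.emb m (x u) = tw d u S - S → T.emb m (x (g * u)) = tw d (g * u) S - S :=
    fun g hg u hu e e' => by
      rw [h.2 g hg u hu, map_add, emb_tv, e, e', lk_tw_mul, ← lkT_apply g (_ - _), map_sub]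
      exact sub_add_sub_cancel' _ _ _
  have k0 : L.φ ∈ H ⊓ Dec w := ⟨L.φ_mem, L.frob.1⟩
  have k2 : ∀ j : ℕ, T.emb m (x (L.φ ^ j)) = tw d (L.φ ^ j) S - S := fun j => by
    induction j with
    | zero => exact e2 _ (pow_zero L.φ ▸ one_mem _)
    | succ j ih => rw [pow_succ]; exact k1 _ (pow_mem k0 j) _ k0 ih e1
  obtain ⟨U, u1, -, u3⟩ := (h.1.comp₂ (sm_chi d) Prod.mk).comp₂ (sm_pt _ S)
    fun z P => T.emb m z.1 - ((z.2 : ℤ) • P - S)
  refine ⟨S, fun g hg => ?_⟩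
  obtain ⟨j, σ, hσ, k⟩ := L.gen g hg U u1
  have k3 : σ ∈ H ⊓ Dec w := ⟨hσ.1, Ine_le w hσ.2⟩
  exact sub_eq_zero.1 ((u3 _ (mul_mem (pow_mem k0 j) k3) g hg k.1).symm.trans
    (sub_eq_zero.2 (k1 _ (pow_mem k0 j) _ k3 (k2 j) (e2 σ hσ))))

/-- A matrix with nonzero determinant acts surjectively on the torsion points. -/
theorem exists_pre (T : Tate) {A : Matrix (Fin 2) (Fin 2) ℤ_[2]} (hA : A.det ≠ 0) (v : Vm m) :
    ∃ (k : ℕ) (y : Vm k), T.emb k (mred k A *ᵥ y) = T.emb m v := by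
  obtain ⟨u, N, e⟩ : ∃ (u : ℤ_[2]ˣ) (N : ℕ), A.det = u * 2 ^ N :=
    ⟨_, _, PadicInt.unitCoeff_spec hA⟩
  refine ⟨m + N, mred _ ((↑u⁻¹ : ℤ_[2]) • A.adjugate) *ᵥ fun i => ((v i).val : ZMod _), ?_⟩
  rw [mulVec_mulVec, ← mred_mul, Matrix.mul_smul, mul_adjugate, smul_smul, e,
    Units.inv_mul_cancel_left]
  refine Eq.trans ?_ ((T.two m N fun i => ((v i).val : ZMod _)).trans (congrArg _ ?_))
  · rw [← map_nsmul]
    refine congrArg _ (funext fun i => ?_)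
    fin_cases i <;> simp [mred, mulVec, dotProduct, map_ofNat]
  · exact funext fun i => by rw [map_natCast, ZMod.natCast_zmod_val]

theorem det_smul_sub {R : Type*} [CommRing R] (u : R) (A : Matrix (Fin 2) (Fin 2) R) :
    (u • A - 1).det = u ^ 2 * A.det - u * A.trace + 1 := by
  simp [det_fin_two, trace_fin_two]
  ring

theorem trace_sq {R : Type*} [CommRing R] (A : Matrix (Fin 2) (Fin 2) R) :
    (A * A).trace = A.trace ^ 2 - 2 * A.det := by
  simp [det_fin_two, trace_fin_two, mul_apply]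
  ring

theorem ne_two_of (hw : ¬ w.p ∣ 30) : w.p ≠ 2 := fun k => hw (by rw [k]; norm_num)

theorem Tate.frob_sq (T : Tate) (hw : ¬ w.p ∣ 30) {φ : Gam} (hφ : IsFrob w w.p φ) :
    (T.ρ (φ * φ)).det = (w.p : ℤ_[2]) ^ 2 ∧ (T.ρ (φ * φ)).trace = a15 w.p ^ 2 - 2 * w.p := by
  rw [map_mul, det_mul, trace_sq, T.det, cyc_frob (ne_two_of hw) hφ, T.tr w φ hw hφ]
  exact ⟨(sq _).symm, rfl⟩

theorem Tate.det_frob_sq (T : Tate) (hw : ¬ w.p ∣ 30) {φ : Gam} (hφ : IsFrob w w.p φ) :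
    (T.ρ (φ * φ) - 1).det = (((w.p + 1 - a15 w.p) * (w.p + 1 + a15 w.p) : ℤ) : ℤ_[2]) := by
  have := det_smul_sub 1 (T.ρ (φ * φ))
  rw [one_smul] at this
  rw [this, (T.frob_sq hw hφ).1, (T.frob_sq hw hφ).2]
  push_cast
  ring

theorem det_LD (T : Tate) (hw : ¬ w.p ∣ 30) (L : LD (GK n) w) (u : ℤˣ) :
    (((u : ℤ) : ℤ_[2]) • T.ρ L.φ - 1).det ≠ 0 := by
  obtain ⟨φ, hφ⟩ := exists_frob w
  have h1 : T.ρ L.φ = T.ρ (φ ^ L.f) := by
    have := T.unr w hw _ ((hφ.pow L.f).inv_mul_mem L.frob)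
    rw [← mul_inv_cancel_left (φ ^ L.f) L.φ, map_mul, this, mul_one]
  have h2 := abs_le.1 (T.hasse w.p w.prime hw)
  have h3 : (2 : ℤ) ≤ w.p := by exact_mod_cast w.prime.two_le
  have h4 := L.dvd 2 (φ ^ 2) (B4c_mem.2 (by rw [map_pow, Int.units_sq])) (hφ.pow 2)
  rw [det_smul_sub, h1]
  rcases (Nat.dvd_prime Nat.prime_two).1 h4 with e | e <;> rw [e]
  · rw [pow_one, T.det, cyc_frob (ne_two_of hw) hφ, T.tr w φ hw hφ]
    have : (u : ℤ) ^ 2 * w.p - u * a15 w.p + 1 ≠ 0 := by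
      rcases Int.units_eq_one_or u with rfl | rfl <;> simp <;> omega
    exact_mod_cast this
  · rw [sq φ, (T.frob_sq hw hφ).1, (T.frob_sq hw hφ).2]
    have : (u : ℤ) ^ 2 * w.p ^ 2 - u * (a15 w.p ^ 2 - 2 * w.p) + 1 ≠ 0 := by
      rcases Int.units_eq_one_or u with rfl | rfl <;> simp <;> nlinarith
    exact_mod_cast this

theorem mred_smul_sub (m : ℕ) (u : ℤ) (A : Matrix (Fin 2) (Fin 2) ℤ_[2]) (y : Vm m) :
    mred m ((u : ℤ_[2]) • A - 1) *ᵥ y = u • (mred m A *ᵥ y) - y := by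
  funext i
  fin_cases i <;> simp [mred, mulVec, dotProduct] <;> ring

theorem tv_ine (hc : Ctx d d' n a b) (hw : ¬ w.p ∣ 30) (hg : g ∈ GK n ⊓ Ine w) (v : Vm m) :
    tv T d m g v = v := by
  rw [tv_apply, hc.chi_ine hg, T.unr w hw g hg.2, mred_one, one_mulVec, Units.val_one, one_smul]

/-- Unramified cocycles are locally trivial at the good places. -/
theorem lt_unr (hc : Ctx d d' n a b) (hw : ¬ w.p ∣ 30) (h : Coc (GK n ⊓ Dec w) (tv T d m) x)
    (h0 : ∀ σ ∈ GK n ⊓ Ine w, x σ = 0) : LTv T d m (GK n ⊓ Dec w) x := by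
  obtain ⟨L⟩ := exists_LD (op_GK n) w
  obtain ⟨k, y, e⟩ := exists_pre T (det_LD T hw L (chi d L.φ)) (x L.φ)
  refine lt_of_LD L h (S := T.emb k y) ?_ fun σ hσ => ?_
  · rw [← e, mred_smul_sub, map_sub, ← tv_apply, emb_tv]
  · rw [h0 σ hσ, map_zero, ← emb_tv, tv_ine hc hw hσ, sub_self]

theorem tw_alg {R : Type*} [CommRing R] {p α c ci q β r k x0 x1 y0 y1 : R}
    (h1 : y1 + α * x1 = p * x1 + y1)
    (h2 : y0 + (α * p * x0 + β * x1) = p * x0 + r * x1 + (y0 + 4 * c * p * y1))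
    (h3 : q * p = 1) (h4 : ci * c = 1) (h5 : k * ((α - p) * (α * p - 1)) = 16) :
    ∃ m0 m1, 64 * x0 = m0 + 4 * c * m1 - m0 ∧ 64 * x1 = m1 - m1 ∧
      64 * y0 = α * p * m0 + β * m1 - m0 ∧ 64 * y1 = α * m1 - m1 := by
  have h6 : (α - p) * x1 = 0 := by linear_combination h1
  have h7 : (α - p) * ((α - 1) * x0 - 4 * c * y1) = 0 := by
    linear_combination (α - p) * q * h2 + q * (r - β) * h6 -
      (α - p) * ((α - 1) * x0 - 4 * c * y1) * h3
  refine ⟨ci * k * (α - p) * (4 * c * y0 - β * x0), ci * k * (α - p) * (α * p - 1) * x0,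
    ?_, ?_, ?_, ?_⟩
  · linear_combination -4 * x0 * h5 - 4 * k * (α - p) * (α * p - 1) * x0 * h4
  · linear_combination -4 * x1 * h5 + 4 * k * (α * p - 1) * h6
  · linear_combination -4 * y0 * h5 - 4 * k * (α - p) * (α * p - 1) * y0 * h4
  · linear_combination -4 * y1 * h5 - 4 * k * (α - p) * (α * p - 1) * y1 * h4 -
      ci * k * (α * p - 1) * h7

theorem exists_inv_odd (m : ℕ) {p : ℕ} (h : Odd p) : ∃ q : ZMod (2 ^ m), q * p = 1 :=
  ((ZMod.isUnit_iff_coprime p (2 ^ m)).2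
    (Nat.Coprime.pow_right m (Nat.coprime_two_right.2 h))).exists_left_inv

/-- At three and five all cocycles are coboundaries up to a bounded factor. -/
theorem lt_bad (hw : w.p = 3 ∨ w.p = 5) (h4 : d % 4 = 1) (hd : ¬ (w.p : ℤ) ∣ d)
    (h : Coc ⊤ (tv T d m) x) : LTv T d m (Dec w) (64 • x) := by
  obtain ⟨B, hB, -, h1, h2⟩ := T.mult w hw
  have w2 : w.p ≠ 2 := by omega
  obtain ⟨σ, hσ⟩ := exists_gen w2
  obtain ⟨φ, hφ⟩ := exists_frob w
  obtain ⟨c, e1, c1⟩ := h1 σ hσ.1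
  obtain ⟨β, e2⟩ := h2 φ hφ
  have t := tm_split (H := ⊤) isOpen_univ w2 le_top hφ hσ
  obtain ⟨ε, e3, hε⟩ : ∃ ε : ℤ, T.ρ φ * B = B * !![(ε : ℤ_[2]) * w.p, β; 0, ε] ∧
      (ε = 1 ∨ ε = -1) := by
    rcases hw with k | k
    · exact ⟨-1, by rw [e2, if_pos k, k]; norm_num, .inr rfl⟩
    · exact ⟨1, by rw [e2, if_neg (by omega), k]; norm_num, .inl rfl⟩
  obtain ⟨f, hf⟩ : ∃ f : Vm m →+ Vm m, ∀ v, f v = mred m B *ᵥ v :=
    ⟨(mulVecLin (mred m B)).toAddMonoidHom, fun _ => rfl⟩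
  have fl : ∀ v, mred m B.adjugate *ᵥ f v = v := fun v => by
    rw [hf, mulVec_mulVec, ← mred_mul, adjugate_mul, hB, one_smul, mred_one, one_mulVec]
  have fi : Function.Injective f := Function.LeftInverse.injective fl
  have fs : Function.Surjective f := Finite.surjective_of_injective fi
  obtain ⟨c', hc'⟩ : ∃ c', PadicInt.toZModPow m c = c' := ⟨_, rfl⟩
  obtain ⟨β', hβ'⟩ : ∃ β', (chi d φ : ℤ) * PadicInt.toZModPow m β = β' := ⟨_, rfl⟩
  obtain ⟨α, hα⟩ : ∃ α : ZMod (2 ^ m), (((chi d φ : ℤ) * ε : ℤ) : ZMod _) = α := ⟨_, rfl⟩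
  have aσ : ∀ v, tv T d m σ (f v) = f ![v 0 + 4 * c' * v 1, v 1] := fun v => by
    rw [tv_apply, xi_eq_zero.1 (xi_ine h4 hd hσ.1), Units.val_one, one_smul, hf, hf, mulVec_mulVec,
      ← mred_mul, e1, mred_mul, ← mulVec_mulVec]
    refine congrArg _ (funext fun i => ?_)
    fin_cases i <;> simp [mred, mulVec, dotProduct, map_ofNat, hc']
  have aφ : ∀ v, tv T d m φ (f v) = f ![α * w.p * v 0 + β' * v 1, α * v 1] := fun v => by
    rw [tv_apply, hf, mulVec_mulVec, ← mred_mul, e3, mred_mul, ← mulVec_mulVec, ← hf, ← map_zsmul]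
    refine congrArg _ (funext fun i => ?_)
    fin_cases i <;> simp [mred, ← hα, ← hβ'] <;> ring
  obtain ⟨y, hy⟩ := fs (x φ)
  obtain ⟨z, hz⟩ := fs (x σ)
  have ha := act_tv T d m
  have p1 : ∀ (k : ℕ) v, tv T d m (σ ^ k) (f v) = f ![v 0 + 4 * c' * k * v 1, v 1] := fun k v => by
    induction k with
    | zero =>
      rw [pow_zero, (ha ⊤).one]
      exact congrArg _ (funext fun i => by fin_cases i <;> simp)
    | succ k ih =>
      rw [pow_succ', (ha ⊤).mul _ trivial _ trivial, ih, aσ]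
      exact congrArg _ (funext fun i => by fin_cases i <;> simp; ring)
  have p2 : ∀ k : ℕ, ∃ r, x (σ ^ k) = f ![k * z 0 + r * z 1, k * z 1] := fun k => by
    induction k with
    | zero =>
      refine ⟨0, ?_⟩
      rw [pow_zero, h.lo_one (ha ⊤), ← map_zero f]
      exact congrArg _ (funext fun i => by fin_cases i <;> simp)
    | succ k ih =>
      obtain ⟨r, ih⟩ := ih
      refine ⟨r + 4 * c' * k, ?_⟩
      rw [pow_succ', h.2 _ trivial _ trivial, ih, aσ, ← hz, ← map_add]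
      exact congrArg _ (funext fun i => by fin_cases i <;> simp <;> ring)
  obtain ⟨r, hr⟩ := p2 w.p
  have rel := t.rel Vm_kill (ha _) (h.lo_mono le_top) hσ.1
  rw [hr, ← hy, ← hz, aφ, p1, ← map_add, ← map_add] at rel
  obtain ⟨q, hq⟩ := exists_inv_odd m (w.prime.odd_of_ne_two w2)
  obtain ⟨ci, hci⟩ := (hc' ▸ (c1 hσ).map (PadicInt.toZModPow m)).exists_left_inv
  obtain ⟨k, hk⟩ : ∃ k, k * ((α - w.p) * (α * w.p - 1)) = 16 := by
    obtain ⟨s, hs⟩ := exists_inv_odd m (p := 9) (by decide)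
    have : α = 1 ∨ α = -1 := by
      rcases Int.units_eq_one_or (chi d φ) with k | k <;> rcases hε with k' | k' <;>
        simp [← hα, k, k']
    rcases hw with k | k <;> rcases this with rfl | rfl <;> rw [k] <;> push_cast at hs ⊢
    exacts [⟨-4, by ring⟩, ⟨1, by ring⟩, ⟨-1, by ring⟩, ⟨4 * s, by linear_combination 16 * hs⟩]
  obtain ⟨m0, m1, k1, k2, k3, k4⟩ := tw_alg (congrFun (fi rel) 1) (congrFun (fi rel) 0) hq hci hk
  refine ⟨T.emb m (f ![m0, m1]), fun g hg => ?_⟩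
  rw [t.eq_cob Vm_kill (ha _) ((h.lo_mono le_top).nsmul 64) (x := f ![m0, m1]) ?_ ?_ ⟨trivial, hg⟩,
    cob, map_sub, emb_tv]
  · rw [Pi.smul_apply, ← hz, aσ, ← map_nsmul, ← map_sub]
    exact congrArg _ (funext fun i => by fin_cases i <;> simp [k1, k2])
  · rw [Pi.smul_apply, ← hy, aφ, ← map_nsmul, ← map_sub]
    exact congrArg _ (funext fun i => by fin_cases i <;> simp [k3, k4])

end Pool.Agent.Lib.MP_696deb_nt.B2
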