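import Pool.Agent.Lib.MP_696deb_nt.B2.XTW
import Pool.Agent.Lib.MP_696deb_nt.B2.XSb
import Pool.Agent.Lib.MP_696deb_nt.B2.XLe
import Pool.Agent.Lib.MP_696deb_nt.B2.TW4

set_option autoImplicit false

open scoped NNReal Classical
open Finset Matrix NumberTheorySymbols PowerSeries

namespace Pool.Agent.Lib.MP_696deb_nt.B2

variable {n : ℕ} {d d' a b : ℤ}

theorem xnz_bij (j : ℕ) : Function.Bijective (ev j 1 (.inr one_ne_zero)) :=
  (Nat.bijective_iff_surjective_and_card _).2 ⟨ZMod.ringHom_surjective _, by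
    rw [PA.card_quot, Nat.card_zmod, mul_one]⟩

/-- The torsion point with given coordinates. -/
noncomputable def xnzE (T : Tate) (j : ℕ) : (Fin 2 → Lam ⧸ aa j 1) →+ EE :=
  (T.emb j).comp ((ev j 1 (.inr one_ne_zero)).toAddMonoidHom.compLeft (Fin 2))

theorem xnzE_apply (T : Tate) (j : ℕ) (x : Fin 2 → Lam ⧸ aa j 1) :
    xnzE T j x = T.emb j fun i => ev j 1 (.inr one_ne_zero) (x i) := rfl

theorem xnzE_inj (T : Tate) (j : ℕ) : Function.Injective (xnzE T j) := fun _ _ e =>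
  funext fun i => (xnz_bij j).1 (congrFun (T.inj j e) i)

theorem xnzE_surj (T : Tate) (j : ℕ) {P : EE} (h : 2 ^ j • P = 0) : ∃ x, xnzE T j x = P := by
  obtain ⟨y, rfl⟩ := T.surj j P h
  choose x hx using fun i => (xnz_bij j).2 (y i)
  exact ⟨x, congrArg (T.emb j) (funext hx)⟩

theorem xnzE_act (T : Tate) (j : ℕ) {ψ : Gam → Lam} {g : Gam}
    (h : ψ g - ((chi d g : ℤ) : Lam) ∈ Ideal.span {(X : Lam)}) (x : Fin 2 → Lam ⧸ aa j 1) :
    xnzE T j (act T ψ _ g x) = tw d g (xnzE T j x) := by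
  have e : constantCoeff (ψ g) = ((chi d g : ℤ) : ℤ_[2]) := by
    have := X_dvd_iff.1 (Ideal.mem_span_singleton.1 h)
    rwa [map_sub, map_intCast, sub_eq_zero] at this
  have e2 : ∀ z : Lam, ev j 1 (.inr one_ne_zero) (Ideal.Quotient.mk _ z) =
      PadicInt.toZModPow j (constantCoeff z) := fun _ => rfl
  rw [xnzE_apply, xnzE_apply, ← emb_tv, tv_apply, act_quot]
  refine congrArg _ (funext fun i => ?_)
  simp only [mulVec, dotProduct, Fin.sum_univ_two, Matrix.map_apply, map_add, map_mul, e2, rep,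
    Matrix.smul_apply, smul_eq_mul, e, constantCoeff_C, map_intCast, Pi.smul_apply, mred,
    zsmul_eq_mul]
  ring

/-- The Kummer cocycle of a point that is defined over the quadratic field. -/
theorem xnz_kum {T : Tate} {k j : ℕ} {lam : Plc} {ψ : Gam → Lam} (hc : Ctx d d' n a b)
    (h : SOk T n k lam ψ ∅) (hj : j ≤ k)
    (hψ : ∀ g ∈ GK n, ψ g - ((chi d g : ℤ) : Lam) ∈ Ideal.span {(X : Lam)}) {R : EE}
    (hR : ∀ g ∈ GK n, tw d g R = R) :
    ∃ c ∈ SM T n lam ψ ∅ (fun _ => .tr) (Lam ⧸ aa j 1), ∃ W : EE, 2 ^ j • W = 64 • R ∧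
      ∀ g ∈ GK n, xnzE T j (c g) = tw d g W - W := by
  have hB : Kil k (Lam ⧸ aa j 1) := kil_quot (aa_le hj (by omega))
  obtain ⟨Y, rfl⟩ := lo3_half j R
  have e0 : ∀ g ∈ GK n, 2 ^ j • (tw d g Y - Y) = 0 := fun g hg => by
    rw [smul_sub, ← lkT_apply, ← map_nsmul, lkT_apply, hR g hg, sub_self]
  have : ∀ g, ∃ x, (g ∈ GK n → xnzE T j x = tw d g Y - Y) ∧ (g ∉ GK n → x = 0) := fun g => by
    by_cases hg : g ∈ GK n
    · exact (xnzE_surj T j (e0 g hg)).imp fun _ h => ⟨fun _ => h, fun k => absurd hg k⟩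
    · exact ⟨0, fun k => absurd k hg, fun _ => rfl⟩
  choose c c1 c2 using this
  have hcU : c ∈ SU T n lam ψ ∅ (fun _ => .tr) (Lam ⧸ aa j 1) := by
    refine (h.mem_SU hB).2 ⟨⟨⟨?_, fun g hg u hu => xnzE_inj T j ?_⟩, c2⟩,
      fun w hw _ _ σ hσ => xnzE_inj T j ?_, ?_, fun w hw => absurd hw (notMem_empty w)⟩
    · obtain ⟨U, u1, u2, u3⟩ := (sm_chi (H := GK n) d).comp₂ (sm_pt (GK n) Y)
        fun e P => (e : ℤ) • P - Y
      exact ⟨U, u1, u2, fun g hg u hu e => xnzE_inj T j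
        ((c1 g hg).trans ((u3 g hg u hu e).trans (c1 u hu).symm))⟩
    · rw [map_add, xnzE_act T j (hψ g hg), c1 _ (mul_mem hg hu), c1 g hg, c1 u hu, lk_tw_mul,
        ← lkT_apply g (_ - _), map_sub]
      exact (sub_add_sub_cancel' _ _ _).symm
    · have e1 := e0 σ hσ.1
      rw [map_zero, c1 σ hσ.1]
      rw [tw, hc.chi_ine hσ, Units.val_one, one_smul] at e1 ⊢
      exact K1_tors (ne_two_of hw) (K1_ine (fun e => hw (e.trans (by norm_num))) hσ.2 Y) e1
    · have e1 : KumP T j (GK n ⊓ Dec w2) fun g i => ev j 1 (.inr one_ne_zero) (c g i) :=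
        ⟨Y, fun g hg => (c1 g hg.1).trans (by
          rw [tw, chi_GK_two hc.d4 hc.nok.m8 (pl_p 2 _) hg, Units.val_one, one_smul])⟩
      refine (KumC.of_smul e1 (e := (1 : Lam ⧸ aa j 1)) ((xnz_bij j).1 ?_)).congr
        fun g _ => funext fun i => (xnz_bij j).1 ?_
      · rw [map_nsmul, map_one, map_zero, nsmul_eq_mul, ZMod.natCast_self, zero_mul]
      · rw [map_nsmul, map_one, nsmul_eq_mul, mul_one, ZMod.natCast_zmod_val]
  obtain ⟨x, hx⟩ := h.norm hB hcU
  refine ⟨_, hx, 64 • Y - xnzE T j x, ?_, fun g hg => ?_⟩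
  · rw [smul_sub, xnzE_apply, emb_kill, sub_zero, smul_comm]
  · rw [Pi.sub_apply, Pi.smul_apply, rs_of_mem hg, cob, ofNat_smul_eq_nsmul, map_sub, map_sub,
      map_nsmul, xnzE_act T j (hψ g hg), c1 g hg, ← lkT_apply g (_ - _), map_sub, map_nsmul,
      lkT_apply, lkT_apply]
    abel

/-- Primitive points are only divisible in the obvious way. -/
theorem xnz_prim {P : EE} (hP : ∀ g, tw d g P = P)
    (h : ∀ Q : EE, (∀ g, tw d g Q = Q) → ¬ IsOfFinAddOrder (P - 2 • Q)) {W : EE}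
    (hW : ∀ g, tw d g W = W) (j : ℕ) : ∀ α : ℤ, IsOfFinAddOrder (2 ^ j • W - α • P) →
      2 ^ j ∣ α := by
  induction j with
  | zero => exact fun α _ => by simp
  | succ j ih =>
    intro α hα
    rcases Int.even_or_odd' α with ⟨t, rfl | rfl⟩
    · rw [pow_succ']
      refine mul_dvd_mul_left 2 (ih t (IsOfFinAddOrder.of_nsmul (n := 2) ?_ two_ne_zero))
      convert hα using 1
      module
    · refine absurd ?_ (h (2 ^ j • W - t • P) fun g => ?_)
      · convert hα.neg using 1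
        module
      · rw [← lkT_apply, map_sub, map_nsmul, map_zsmul, lkT_apply, lkT_apply, hW, hP]

/-- The trace from the quadratic field. -/
theorem xnz_plus (hn : 0 < n) {P P' W : EE} (hP : ∀ g, tw d g P = P)
    (h : ∀ Q : EE, (∀ g, tw d g Q = Q) → ¬ IsOfFinAddOrder (P - 2 • Q)) (hP' : tw d cc P' = -P')
    (hW : ∀ g ∈ GK n, tw d g W = W) {j : ℕ} {α β : ℤ} (e : 2 ^ j • W = α • P + β • P') :
    2 ^ j ∣ 2 * α := by
  have e1 : ∀ g ∈ GK n, tw d g (W + tw d cc W) = W + tw d cc W := fun g hg => by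
    rw [← lkT_apply, map_add, lkT_apply, lkT_apply, hW g hg, ← lk_tw_mul,
      show g * cc = cc * (cc * g * cc) by rw [← mul_assoc, ← mul_assoc, cc_mul_cc, one_mul],
      lk_tw_mul, hW _ (conj_cc_mem hg)]
  refine xnz_prim hP h (W := W + tw d cc W) (fun g => ?_) j _ ?_
  · by_cases hg : g ∈ GK n
    · exact e1 g hg
    · rw [show g = g * cc * cc by rw [mul_assoc, cc_mul_cc, mul_one], lk_tw_mul (g * cc),
        ← lkT_apply cc (_ + _), map_add, lkT_apply, lkT_apply, ← lk_tw_mul cc cc, cc_mul_cc,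
        lk_tw_one, add_comm]
      exact e1 _ (mul_mem_GK hg (cc_notMem hn))
  · rw [smul_add, ← lkT_apply, ← map_nsmul, e, map_add, map_zsmul, map_zsmul, lkT_apply,
      lkT_apply, hP, hP']
    convert IsOfFinAddOrder.zero (G := EE) using 1
    module

theorem xnz_eq {j : ℕ} {u v : Fin (2 ^ (j - 7))} (h : (2 : ℤ) ^ j ∣ 2 * (64 * ((u : ℤ) - v))) :
    u = v := by
  have h1 : (2 : ℤ) ^ (j - 7) ∣ (u : ℤ) - v := by
    generalize (u : ℤ) - v = t at h
    clear u v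
    rcases le_total j 7 with hj | hj
    · rw [Nat.sub_eq_zero_of_le hj, pow_zero]
      exact one_dvd _
    · obtain ⟨i, rfl⟩ := Nat.exists_eq_add_of_le hj
      rw [Nat.add_sub_cancel_left]
      rw [pow_add, ← mul_assoc] at h
      exact Int.dvd_of_mul_dvd_mul_left (by norm_num) h
  have h2 : ((u : ℕ) : ℤ) < 2 ^ (j - 7) := by exact_mod_cast u.2
  have h3 : ((v : ℕ) : ℤ) < 2 ^ (j - 7) := by exact_mod_cast v.2
  have h4 := Int.eq_zero_of_abs_lt_dvd h1 (abs_lt.2 ⟨by omega, by omega⟩)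
  exact Fin.ext (by omega)

/-- Points on both twists give rank two. -/
theorem nz_bound (F : CFT) (su : SUStmt) (ch : ChebStmt) (T : Tate) (hc : Ctx d d' n a b)
    (S : HS n) (h : Nz d) (h' : Nz d') : ∃ C : ℕ, ∀ k lam, S.Tw k lam a b → ∀ j ≤ k,
      4 ^ j ≤ C * Nat.card (SM T n lam (S.psi k lam d) ∅ (fun _ => .tr) (Lam ⧸ aa j 1)) := by
  obtain ⟨P, hP, h⟩ := h
  obtain ⟨P', hP', h'⟩ := h'
  refine ⟨4 ^ 7, fun k lam hT j hj => ?_⟩
  have ok : SOk T n k lam (S.psi k lam d) ∅ :=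
    hT.sok hc.nok ⟨fun w hw => absurd hw (notMem_empty w), fun w hw => absurd hw (notMem_empty w)⟩ d
  have fin := (sel_finite (R := ∅) (ty := fun _ => .tr) F su ch ok
    (kil_quot (I := aa j 1) (aa_le hj (by omega)))).2.1
  have e1 : ∀ g ∈ GK n, ∀ Q, tw d' g Q = tw d g Q := fun g hg Q => by
    rw [tw, tw, hc.chi_eq hg]
  have e2 : ∀ Q, tw d' cc Q = -tw d cc Q := fun Q => by
    rw [tw, tw, hc.chi_ne (cc_notMem hc.nok.pos), Units.val_neg, neg_smul]
  have key := fun z : Fin (2 ^ (j - 7)) × Fin (2 ^ (j - 7)) =>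
    xnz_kum hc ok hj (R := (z.1 : ℤ) • P + (z.2 : ℤ) • P')
      (fun g hg => HS.psi_X hT.adm (dvd_neg.1 ⟨d', hc.mul.symm⟩) hc.d4 hg) fun g hg => by
        rw [← lkT_apply, map_add, map_zsmul, map_zsmul, lkT_apply, lkT_apply, hP, ← e1 g hg, hP']
  choose c hc1 W hW1 hW2 using key
  have inj : Function.Injective fun z => (⟨c z, hc1 z⟩ :
      SM T n lam (S.psi k lam d) ∅ (fun _ => .tr) (Lam ⧸ aa j 1)) := fun z y e => by
    have e3 : c z = c y := congrArg Subtype.val e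
    have e4 : ∀ g ∈ GK n, tw d g (W z - W y) = W z - W y := fun g hg => by
      have := (hW2 z g hg).symm.trans (e3 ▸ hW2 y g hg)
      rw [← lkT_apply, map_sub, lkT_apply, lkT_apply]
      linear_combination (norm := abel1) this
    have e5 : 2 ^ j • (W z - W y) =
        (64 * ((z.1 : ℤ) - y.1)) • P + (64 * ((z.2 : ℤ) - y.2)) • P' := by
      rw [smul_sub, hW1, hW1]
      module
    refine Prod.ext (xnz_eq (xnz_plus hc.nok.pos hP h ?_ e4 e5))
      (xnz_eq (xnz_plus (P' := P) hc.nok.pos hP' h' ?_ (fun g hg => (e1 g hg _).trans (e4 g hg))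
        (e5.trans (add_comm _ _))))
    · rw [← neg_neg (tw d cc P'), ← e2, hP']
    · rw [e2, hP]
  have le := Nat.card_le_card_of_injective _ inj
  rw [Nat.card_prod, Nat.card_fin, ← mul_pow] at le
  refine le_trans ?_ (Nat.mul_le_mul_left _ le)
  rw [show 2 * 2 = 4 from rfl, ← pow_add]
  exact Nat.pow_le_pow_right (by norm_num) (by omega)

end Pool.Agent.Lib.MP_696deb_nt.B2
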