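import Pool.Agent.Lib.MP_696deb_nt.B2.RL0
import Pool.Agent.Lib.MP_696deb_nt.B2.MU9

/-! The Kummer cocycle of a primitive point. -/

set_option autoImplicit false

open scoped NNReal Classical
open Finset Matrix PowerSeries

namespace Pool.Agent.Lib.MP_696deb_nt.B2

variable {T : Tate} {n k i u I : ℕ} {lam w : Plc} {ψ : Gam → Lam} {y P Q : EE}
  {δ : Gam → Fin 2 → Zi i}

theorem rl4_cc (hP : ∀ g ∈ GK n, g • P = P) : ∀ g ∈ GK n, g • cc • P = cc • P := fun g hg =>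
  calc g • cc • P = cc • (cc * g * cc) • P := by
        rw [smul_smul, smul_smul, ← mul_assoc, ← mul_assoc, cc_mul_cc, one_mul]
    _ = _ := by rw [hP _ (conj_cc_mem hg)]

theorem rl4_red {m : ℕ} {g : Gam} (hm : m ≤ k + 2) (h : mred (k + 2) (T.ρ g) = 1) :
    mred m (T.ρ g) = 1 := (la_mred_le hm (h.trans (la_mred_one _).symm)).trans (la_mred_one _)

theorem rl4_fix {m : ℕ} {g : Gam} (hm : m ≤ k + 2) (h : mred (k + 2) (T.ρ g) = 1)
    (e : 2 ^ m • P = 0) : g • P = P := by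
  obtain ⟨x, rfl⟩ := T.surj m P e
  rw [T.smul, rl4_red hm h, one_mulVec]

theorem rl4_y (S : HS n) : S.ychi 1 = ∑ a, S.y 1 a := sum_congr rfl fun a _ => by
  obtain ⟨g, hg, rfl⟩ := S.surj 1 (adm_one n) a
  rw [S.gen_ψ 1 (one_dvd _) rfl g hg, show chi 1 g = 1 by simpa using chi_sq 1 g,
    Units.val_one, one_smul]

theorem exists_prim (T : Tate) (hn : Nok n) (S : HS n) (hr : S.RefDiv) :
    ∃ (P : EE) (u I : ℕ), Prim n (S.ychi 1) P u I := by
  obtain ⟨y, hy⟩ : ∃ y, y = S.ychi 1 := ⟨_, rfl⟩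
  have f1 : ∀ g ∈ GK n, g • y = y := fun g hg => by
    rw [hy, rl4_y, smul_sum, ← Equiv.sum_comp (Equiv.mulLeft (S.ψ 1 g)) (S.y 1)]
    exact sum_congr rfl fun a _ => S.gal 1 (adm_one n) g hg a
  have f2 : 4 • (cc • y + y) = 0 := by
    obtain ⟨b, t, h1, h2⟩ := S.conj 1 (adm_one n)
    rw [hy, rl4_y, smul_sum, ← Equiv.sum_comp ((Equiv.inv _).trans (Equiv.mulLeft b)) (S.y 1),
      ← sum_add_distrib, smul_sum]
    exact sum_eq_zero fun a _ => by rw [h2, ← h1]; exact congrArg _ (sub_add_cancel _ _)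
  have f3 : ∀ I, (∃ P : EE, (∀ g ∈ GK n, g • P = P) ∧ IsOfFinAddOrder (y - 2 ^ I • P)) →
      I + 2 ≤ n.primeFactors.card := fun I ⟨P, h1, h2⟩ => not_lt.1 fun h => by
    obtain ⟨d, rfl⟩ := Nat.exists_eq_add_of_le (show n.primeFactors.card - 1 ≤ I by omega)
    refine hr (2 ^ d • P) (fun g hg => by rw [smul_comm, h1 g hg]) ?_
    rwa [← hy, smul_smul, ← pow_add]
  obtain ⟨I, h1, h2⟩ := Nat.exists_not_and_succ_of_not_zero_of_exists (p := fun I =>
    ¬ ∃ P : EE, (∀ g ∈ GK n, g • P = P) ∧ IsOfFinAddOrder (y - 2 ^ I • P))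
    (not_not.2 ⟨y, f1, by simp⟩) ⟨_, fun h => absurd (f3 n.primeFactors.card h) (by omega)⟩
  obtain ⟨P, h3, h4⟩ := not_not.1 h1
  obtain ⟨m, hm, h5⟩ := isOfFinAddOrder_iff_nsmul_eq_zero.1 h4
  obtain ⟨r, u, hu, rfl⟩ := Nat.exists_eq_two_pow_mul_odd hm.ne'
  have h6 : ∀ g ∈ GK n, g • u • P = u • P := fun g hg => by rw [smul_comm, h3 g hg]
  rw [← hy]
  refine ⟨u • P, u, I, h6, fun P' k1 k2 => ?_, hu, f3 I ⟨P, h3, h4⟩, (T.fix_I30 (m := r) ?_
    fun g hg => ?_).1, (T.fix_I30 (m := r + 2 + I) ?_ fun g hg => ?_).1⟩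
  · obtain ⟨v, rfl⟩ := hu
    refine h2 ⟨P' - v • P, fun g hg => by rw [smul_sub, smul_comm, k1 g hg, h3 g hg], ?_⟩
    rw [show y - 2 ^ (I + 1) • (P' - v • P) =
      y - 2 ^ I • P + 2 ^ I • ((2 * v + 1) • P - 2 • P') by module]
    exact h4.add k2.nsmul
  · linear_combination (norm := module) h5
  · rw [smul_sub, smul_comm g, smul_comm g, f1 g (hn.I30_le hg), h6 g (hn.I30_le hg)]
  · have h7 := congrArg (cc • ·) h5
    simp only [smul_comm cc, smul_sub cc, smul_zero] at h7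
    rw [smul_comm cc]
    generalize cc • y = A, cc • P = B at f2 h7 ⊢
    linear_combination (norm := module) (2 ^ r * u) • f2 - 4 • h5 - 4 • h7
  · rw [smul_add, rl4_cc h6 g (hn.I30_le hg), h6 g (hn.I30_le hg)]

theorem exists_del (T : Tate) (i : ℕ) (hP : ∀ g ∈ GK n, g • P = P) :
    ∃ (Q : EE) (δ : Gam → Fin 2 → Zi i), Del T n i P Q δ := by
  obtain ⟨Q, rfl⟩ := lo3_half i P
  have : ∀ g, ∃ x, (g ∈ GK n → T.emb i x = g • Q - Q) ∧ (g ∉ GK n → x = 0) := fun g => by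
    by_cases hg : g ∈ GK n
    · exact (T.surj i (g • Q - Q) (by rw [smul_sub, smul_comm, hP g hg, sub_self])).imp
        fun _ h => ⟨fun _ => h, fun e => absurd hg e⟩
    · exact ⟨0, fun h => absurd h hg, fun _ => rfl⟩
  choose δ h1 h2 using this
  exact ⟨Q, δ, rfl, h1, h2⟩

theorem Del.mem_SU (hd : Del T n i P Q δ) (h : ROk T n k lam ψ w) (hi : i ≤ k) :
    δ ∈ SU T n lam ψ {w} (fun _ => .ur) (Zi i) := by
  obtain ⟨c1, c2⟩ := KumP.coc ⟨Q, hd.emb⟩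
  have ur : ∀ v : Plc, ¬ v.p ∣ 30 → ∀ σ ∈ GK n ⊓ Ine v, δ σ = 0 := fun v hv σ hσ =>
    T.inj i ((K1_tors (w := v) (fun e => hv (by rw [e]; norm_num))
      (hd.emb σ hσ.1 ▸ K1_ine (fun e => hv (e.trans (by norm_num))) hσ.2 Q)
      (T.emb_pow _)).trans (map_zero _).symm)
  refine (h.ok.mem_SU (h.kil hi)).2 ⟨⟨⟨c1, fun g hg s hs => by rw [c2 g hg s hs, h.act hg]⟩, hd.out⟩,
    fun v hv _ _ => ur v hv, KumP.kumC ⟨Q, fun g hg => hd.emb g hg.1⟩, fun v hv => ?_⟩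
  have a := (h.ok.deep v hv).adm
  exact ⟨trivial, ur v a.nd30 _ ⟨a.ine (gn_spec a.ne.1).1, (gn_spec a.ne.1).1⟩⟩

theorem Del.not_cob (hd : Del T n i P Q δ) (hp : Prim n y P u I) (hi : 1 ≤ i) (x : Fin 2 → Zi i) :
    ¬ ∀ g ∈ GK n, 2 ^ (i - 1) • δ g = mred i (T.ρ g) *ᵥ x - x := by
  intro h
  obtain ⟨j, rfl⟩ := Nat.exists_eq_add_of_le' hi
  refine hp.prim (2 ^ j • Q - T.emb _ x) (fun g hg => ?_)
    (isOfFinAddOrder_iff_nsmul_eq_zero.2 ⟨2 ^ (j + 1), by positivity, ?_⟩)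
  · have e := congrArg (T.emb _) (h g hg)
    rw [map_nsmul, map_sub, ← T.smul, hd.emb g hg, Nat.add_sub_cancel] at e
    rw [smul_sub, smul_comm g]
    generalize g • Q = A, g • T.emb _ x = B at e ⊢
    linear_combination (norm := module) e
  · rw [← hd.eq]
    linear_combination (norm := module) 2 • T.emb_pow x

theorem Del.often (hd : Del T n i P Q δ) (hp : Prim n y P u I) (S : HS n) (hn : Nok n)
    (hl : Adm n lam.p) (h12 : 12 ≤ i) (hi : i ≤ k) :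
    S.Often T k lam fun w => 2 ^ (i - 12) • (δ (fq w) 1 - δ (fq w) 0) ≠ 0 := by
  obtain ⟨c1, c2⟩ := KumP.coc ⟨Q, hd.emb⟩
  have a1 : ∀ z ∈ S.N T k lam, ∀ g ∈ GK n, δ (z * g) = δ z + δ g := fun z hz g hg => by
    rw [c2 z hz.1 g hg, rl4_red (by omega) hz.2.1, one_mulVec]
  have a2 : ∀ z ∈ S.N T k lam, ∀ g ∈ GK n, δ (g * z * g⁻¹) = mred i (T.ρ g) *ᵥ δ z :=
    fun z hz g hg => by
      have e := a1 _ (HS.N_conj hz g) g hg
      rw [inv_mul_cancel_right, c2 g hg z hz.1, add_comm] at e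
      exact (add_right_cancel e).symm
  have a3 : ∀ z ∈ S.N T k lam, δ (cc * z * cc) = -(!![1, 0; 0, -1] *ᵥ δ z) := fun z hz => by
    have e : z • (cc • Q + Q) = cc • Q + Q := rl4_fix (m := i + 2) (by omega) hz.2.1 (by
      rw [← hp.conj, ← hd.eq, smul_comm cc, ← smul_add, smul_smul, pow_add, mul_comm]
      rfl)
    have e' := congrArg (cc • ·) e
    simp only [smul_add, smul_smul cc cc, cc_mul_cc, one_smul] at e'
    refine T.inj i ?_
    rw [map_neg, ← T.mred_cc, ← T.smul, hd.emb _ (conj_cc_mem hz.1), hd.emb z hz.1, mul_smul,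
      mul_smul, smul_sub, eq_sub_of_add_eq e']
    abel
  obtain ⟨j, hj, hj'⟩ : ∃ j, i - 12 = j ∧ i - 1 = j + 11 := ⟨_, rfl, by omega⟩
  rw [hj]
  refine ⟨i, fun g => 2 ^ j • (δ g 1 - δ g 0), c1.comp fun x => 2 ^ j • (x 1 - x 0),
    fun x hx z hz => ?_, by_contra fun h => ?_, fun w _ h => h⟩
  · simp only [a1 x hx z hz.1, Pi.add_apply]
    module
  have b1 : ∀ z ∈ S.N T k lam, 2 ^ (j + 1) * δ z 1 = 0 := fun z hz => by
    have e := not_not.1 fun e => h ⟨z, hz, e⟩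
    simp [a3 z hz, dotProduct] at e
    linear_combination e
  obtain ⟨g, g1, -, g2⟩ := S.exists_img T hn hl (A := !![1, 0; 32, 1]) (by
    ext r s
    fin_cases r <;> fin_cases s <;> simp [mred, map_ofNat]
    rfl) i
  have b2 : ∀ z ∈ S.N T k lam, 2 ^ (j + 6) • δ z = 0 := fun z hz => by
    have e := b1 _ (HS.N_conj hz g)
    have e' := b1 z hz
    rw [a2 z hz g g1, g2] at e
    simp [mred, mulVec, dotProduct, map_ofNat, -mul_eq_zero] at e
    ext r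
    fin_cases r <;> simp
    · linear_combination e - e'
    · linear_combination 32 * e'
  obtain ⟨z, z1, z2, -, z3⟩ := S.exists_scalar (T := T) (k := k) hn hl
  refine hd.not_cob hp (by omega) (2 ^ (j + 6) • δ z) fun s hs => ?_
  have e := a1 _ (z3 s hs) _ (mul_mem hs z1)
  have e0 : mred i ((33 : ℤ_[2]) • 1) *ᵥ δ s = 33 • δ s := by
    ext r
    fin_cases r <;> simp [mred, mulVec, dotProduct, map_ofNat]
  rw [show z * s * z⁻¹ * s⁻¹ * (s * z) = z * s by group, c2 z z1 s hs, c2 s hs z z1,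
    la_mred_le (by omega) z2, e0] at e
  have e1 := b2 _ (z3 s hs)
  rw [mulVec_smul, hj']
  generalize mred i (T.ρ s) *ᵥ δ z = A, δ (z * s * z⁻¹ * s⁻¹) = B, δ s = D, δ z = E at e e1 ⊢
  linear_combination (norm := module) 2 ^ (j + 6) • e + e1

theorem Del.value (hd : Del T n i P Q δ) (hp : Prim n y P u I) (hi : i ≤ k) {φ : Gam}
    (hφ : φ ∈ GK n) (hρ : mred (k + 2) (T.ρ φ) = 1) {a : ℤ} {R : EE} {x : Fin 2 → Zi k}
    (h1 : 2 ^ k • R = a • y) (h2 : T.emb k x = φ • R - R) (r : Fin 2) :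
    (u : Zi i) * ZMod.castHom (pow_dvd_pow 2 hi) (Zi i) (x r) = a * 2 ^ I * δ φ r := by
  obtain ⟨d, rfl⟩ := Nat.exists_eq_add_of_le hi
  have e1 := T.two i d x
  have e2 : φ • (u • 2 ^ d • R - (a * 2 ^ I) • Q) = u • 2 ^ d • R - (a * 2 ^ I) • Q :=
    rl4_fix (m := i + 2) (by omega) hρ (by
      have e := hp.eq
      rw [← hd.eq] at e
      linear_combination (norm := module) (4 * u) • h1 + a • e)
  rw [smul_sub, smul_comm φ, smul_comm φ, smul_comm φ] at e2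
  have e3 := congrFun (T.inj i (show T.emb i (u • fun r => ZMod.castHom (pow_dvd_pow 2 hi) (Zi i)
      (x r)) = T.emb i ((a * 2 ^ I) • δ φ) by
    rw [map_nsmul, map_zsmul, ← e1, h2, hd.emb φ hφ]
    generalize φ • R = A, φ • Q = B at e2 ⊢
    linear_combination (norm := module) e2)) r
  simpa only [Pi.smul_apply, nsmul_eq_mul, zsmul_eq_mul, Int.cast_mul, Int.cast_pow,
    Int.cast_ofNat] using e3

end Pool.Agent.Lib.MP_696deb_nt.B2
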