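import Pool.Agent.Lib.MP_696deb_nt.B2.RL0

/-! The classes of genus characters. -/

set_option autoImplicit false

open scoped NNReal Classical
open Finset Matrix PowerSeries

namespace Pool.Agent.Lib.MP_696deb_nt.B2

variable {T : Tate} {n k i : ℕ} {lam w : Plc} {ψ : Gam → Lam}

/-- The prime discriminant of an odd prime. -/
def rl5_st (p : ℕ) : ℤ := if p % 4 = 1 then p else -p

theorem rl5_abs (p : ℕ) : (rl5_st p).natAbs = p := by
  unfold rl5_st
  split_ifs <;> simp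

theorem rl5_mod {p : ℕ} (h : p % 2 = 1) : rl5_st p % 4 = 1 := by
  unfold rl5_st
  split_ifs <;> omega

theorem rl5_dvd {p : ℕ} (hp : p.Prime) (v : Plc) : (v.p : ℤ) ∣ rl5_st p ↔ v.p = p := by
  rw [Int.natCast_dvd, rl5_abs, Nat.prime_dvd_prime_iff_eq v.prime hp]

theorem rl5_nd (hn : Nok n) {p : ℕ} (hp : p ∈ n.primeFactors) : p % 2 = 1 ∧ ¬ p ∣ 30 := by
  obtain ⟨h1, h2, -⟩ := Nat.mem_primeFactors.1 hp
  have h3 : p ≠ 2 := fun e => by
    have := hn.m8
    subst e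
    omega
  refine ⟨h1.eq_two_or_odd.resolve_left h3, fun e => ?_⟩
  rcases (h1.dvd_mul (m := 2) (n := 15)).1 e with e | e
  · exact h3 ((Nat.prime_dvd_prime_iff_eq h1 Nat.prime_two).1 e)
  · exact h1.one_lt.ne' (Nat.eq_one_of_dvd_coprimes hn.good.cop h2 e)

theorem rl5_unr (hn : Nok n) {p : ℕ} (hp : p ∈ n.primeFactors) {v : Plc} {σ : Gam}
    (hσ : σ ∈ GK n ⊓ Ine v) : xi (rl5_st p) σ = 0 := by
  obtain ⟨h1, h2, h3⟩ := Nat.mem_primeFactors.1 hp
  have h4 := rl5_mod (rl5_nd hn hp).1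
  by_cases e : v.p = p
  swap
  · exact xi_ine h4 (fun k => e ((rl5_dvd h1 v).1 k)) hσ.2
  obtain ⟨c, hc⟩ : rl5_st p ∣ -(n : ℤ) := by
    rw [dvd_neg, ← Int.natAbs_dvd_natAbs, rl5_abs]
    exact h2
  have h5 : c % 4 = 1 := by
    have h6 : (-(n : ℤ)) % 4 = 1 := by have := hn.m8; omega
    rwa [hc, Int.mul_emod, h4, one_mul, Int.emod_emod] at h6
  have h6 : ¬ (v.p : ℤ) ∣ c := fun k => by
    have h7 := mul_dvd_mul ((rl5_dvd h1 v).2 e) k
    rw [← hc, dvd_neg, ← Nat.cast_mul, Int.natCast_dvd_natCast] at h7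
    exact v.prime.not_isUnit (hn.good.sqf _ h7)
  have h7 := mem_GK.1 hσ.1
  rwa [hc, xi_mul (by omega) (by omega), xi_ine h5 h6 hσ.2, add_zero] at h7

/-- Independent genus characters. -/
theorem exists_genus (T : Tate) (hn : Nok n) : ∃ (ι : Type) (_ : Fintype ι) (χ : ι → Gam → Zi 1)
    (g : ι → Gam), Fintype.card ι = n.primeFactors.card - 1 ∧
      (∀ p, Sm ⊤ (χ p) ∧ IsHom ⊤ (χ p) ∧ ∀ v : Plc, ∀ σ ∈ GK n ⊓ Ine v, χ p σ = 0) ∧
      (∀ p, g p ∈ GK n ∧ T.ρ (g p) = 1) ∧ ∀ p q, χ p (g q) = if p = q then 1 else 0 := by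
  obtain ⟨p0, h0⟩ : n.primeFactors.Nonempty :=
    Nat.nonempty_primeFactors.2 (by have := hn.m8; omega)
  have key : ∀ q ∈ n.primeFactors, ∃ τ, τ ∉ GK n ∧ T.ρ τ = 1 ∧
      ∀ p ∈ n.primeFactors, xi (rl5_st p) τ = if p = q then 1 else 0 := fun q hq => by
    obtain ⟨h1, h2, -⟩ := Nat.mem_primeFactors.1 hq
    obtain ⟨v, rfl⟩ := exists_plc h1
    have h3 := rl5_nd hn hq
    have h4 : v.p ≠ 2 := by omega
    have h5 := gn_spec h4
    refine ⟨gn v, notMem_GK.2 (xi_gen h4 (Int.squarefree_natAbs.1 (by simpa using hn.good.sqf))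
      (by simpa [Int.natCast_dvd_natCast] using h2) h5), T.unr v h3.2 _ h5.1, fun p hp => ?_⟩
    have h6 := (Nat.mem_primeFactors.1 hp).1
    split_ifs with e
    · exact xi_gen h4 (Int.squarefree_natAbs.1 (by rw [rl5_abs]; exact h6.squarefree))
        ((rl5_dvd h6 v).2 e.symm) h5
    · exact xi_ine (rl5_mod (rl5_nd hn hp).1) (fun k => e ((rl5_dvd h6 v).1 k).symm) h5.1
  choose! τ t1 t2 t3 using key
  refine ⟨n.primeFactors.erase p0, inferInstance, fun p => xi (rl5_st p), fun q => τ q * τ p0,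
    by rw [Fintype.card_coe, card_erase_of_mem h0], fun p => ⟨sm_xi _,
      fun g _ h _ => xi_hom _ g h, fun v σ hσ => rl5_unr hn (mem_of_mem_erase p.2) hσ⟩,
    fun q => ⟨mul_mem_GK (t1 _ (mem_of_mem_erase q.2)) (t1 _ h0), by
      rw [map_mul, t2 _ (mem_of_mem_erase q.2), t2 _ h0, one_mul]⟩, fun p q => ?_⟩
  have := xi_hom (rl5_st p) (τ q) (τ p0)
  rw [t3 _ (mem_of_mem_erase q.2) _ (mem_of_mem_erase p.2), t3 _ h0 _ (mem_of_mem_erase p.2),
    if_neg (ne_of_mem_erase p.2), add_zero] at this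
  simp only [Subtype.ext_iff]
  exact this

theorem rl5_half {j : ℕ} {y : Zi (j + 1)} (h : 2 • y = 0) : ∃ s, y = 2 ^ j * s := by
  obtain ⟨a, rfl⟩ := ZMod.natCast_zmod_surjective y
  rw [nsmul_eq_mul, ← Nat.cast_mul, ZMod.natCast_eq_zero_iff, pow_succ'] at h
  obtain ⟨s, rfl⟩ := Nat.dvd_of_mul_dvd_mul_left two_pos h
  exact ⟨s, by push_cast; rfl⟩

theorem rl5_conj {A B N : Matrix (Fin 2) (Fin 2) ℤ_[2]} (h : A * B = B * N) (x : Fin 2 → Zi i) :
    mred i A *ᵥ (mred i B *ᵥ x) - mred i B *ᵥ x = mred i B *ᵥ (mred i N *ᵥ x - x) := by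
  rw [mulVec_sub, mulVec_mulVec, mulVec_mulVec, ← la_mred_mul, ← la_mred_mul, h]

/-- Unramified classes of order two are locally trivial above three and five. -/
theorem rl_bad (T : Tate) (hi : 4 ≤ i) {v : Plc} (hv : v.p = 3 ∨ v.p = 5) {φ τ : Gam}
    (hφ : IsFrob v v.p φ) (hτ : τ ∈ Ine v) {y : Fin 2 → Zi i} (hy : 2 • y = 0)
    (h5 : v.p = 5 → y 0 = y 1) :
    ∃ x, mred i (T.ρ τ) *ᵥ x - x = 0 ∧ mred i (T.ρ φ) *ᵥ x - x = y := by
  obtain ⟨j, rfl⟩ := Nat.exists_eq_add_of_le' hi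
  obtain ⟨B, b1, b2, b3, b4⟩ := T.mult v hv
  obtain ⟨c, hc, -⟩ := b3 τ hτ
  obtain ⟨b, hb⟩ := b4 φ hφ
  have z : (2 : Zi (j + 4)) ^ (j + 4) = 0 := Zi_two _
  have e : ∀ y : Fin 2 → Zi (j + 4), mred _ B *ᵥ (mred _ B.adjugate *ᵥ y) = y := fun y => by
    rw [mulVec_mulVec, ← la_mred_mul, mul_adjugate, b1, one_smul, la_mred_one, one_mulVec]
  suffices ∃ x y', mred (j + 4) B *ᵥ y' = y ∧ mred _ !![1, 4 * c; 0, 1] *ᵥ x - x = 0 ∧
      mred _ (if v.p = 3 then !![-3, b; 0, -1] else !![5, b; 0, 1]) *ᵥ x - x = y' by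
    obtain ⟨x, y', h1, h2, h3⟩ := this
    exact ⟨_, by rw [rl5_conj hc x, h2, mulVec_zero], by rw [rl5_conj hb x, h3, h1]⟩
  set f := PadicInt.toZModPow (p := 2) (j + 4) with hf
  rcases hv with hv | hv
  · have h2 : 2 • mred _ B.adjugate *ᵥ y = 0 := by rw [← mulVec_smul, hy, mulVec_zero]
    obtain ⟨s, hs⟩ := rl5_half (j := j + 3) (congrFun h2 0)
    obtain ⟨t, ht⟩ := rl5_half (j := j + 3) (congrFun h2 1)
    refine ⟨![2 ^ j * (f b * t - 2 * s), 2 ^ (j + 2) * t], _, e y, ?_, ?_⟩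
    · ext r
      fin_cases r
      · simp [mred, map_ofNat, ← hf]
        linear_combination (f c * t) * z
      · simp [mred, map_ofNat]
    · rw [if_pos hv]
      ext r
      fin_cases r
      · simp only [Fin.zero_eta, hs]
        simp [mred, map_ofNat, ← hf]
        ring
      · simp only [Fin.mk_one, ht]
        simp [mred, map_ofNat, ← hf]
        linear_combination (-t) * z
  · have h3 : ¬ v.p = 3 := by omega
    rw [if_neg h3] at b2 ⊢
    obtain ⟨s, hs⟩ := rl5_half (j := j + 3) (congrFun hy 0)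
    have h1 : ∀ r, ∃ a, f (B r 0) = 1 + 2 * a := fun r => by
      have h2 : PadicInt.toZModPow 1 (B r 0 - 1) = 0 := by
        have := congrFun b2 r
        fin_cases r <;> simpa [mred, mulVec, dotProduct, sub_eq_zero] using this
      rw [← RingHom.mem_ker, PadicInt.ker_toZModPow, Ideal.mem_span_singleton] at h2
      obtain ⟨a, ha⟩ := h2
      exact ⟨f a, by rw [eq_add_of_sub_eq' ha]; simp [map_ofNat]⟩
    refine ⟨![2 ^ (j + 1) * s, 0], ![2 ^ (j + 3) * s, 0], ?_, ?_, ?_⟩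
    · ext r
      obtain ⟨a, ha⟩ := h1 r
      have : y r = 2 ^ (j + 3) * s := by fin_cases r <;> simp [← hs, h5 hv]
      simp [mred, mulVec, dotProduct, ← hf, ha, this]
      linear_combination (a * s) * z
    · ext r
      fin_cases r <;> simp [mred, map_ofNat]
    · ext r
      fin_cases r
      · simp [mred, map_ofNat]
        ring
      · simp [mred, map_ofNat]

theorem rl5_inert {χ : Gam → Zi 1} (h1 : Sm ⊤ χ) (h2 : IsHom ⊤ χ) {v : Plc}
    (h3 : ∀ σ ∈ GK n ⊓ Ine v, χ σ = 0) (hI : Ine v ≤ GK n) (h' : fr v ∉ GK n) {g : Gam}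
    (hg : g ∈ GK n ⊓ Dec v) : χ g = 0 := by
  obtain ⟨U, u1, -, u3⟩ := h1
  obtain ⟨j, σ, hσ, e⟩ := dec_gen_inert (fr_spec v) h' hI hg u1
  rw [← u3 _ trivial g trivial e.1, h2 _ trivial _ trivial, h3 σ ⟨hI hσ, hσ⟩, add_zero]
  clear e
  induction j with
  | zero => simpa using h2 1 trivial 1 trivial
  | succ j ih =>
    rw [pow_succ, h2 _ trivial _ trivial, ih, h2 _ trivial _ trivial, zero_add, ← two_nsmul]
    exact Zi_kill (i := 1) _

theorem rl5_span (T : Tate) (hn : Nok n) : ∃ (ι : Type) (_ : Fintype ι)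
    (L : (ι → Zi 1) →+ Gam → Zi 1) (g : ι → Gam), Fintype.card ι = n.primeFactors.card - 1 ∧
      (∀ p, Sm ⊤ (L p) ∧ IsHom ⊤ (L p) ∧ ∀ v : Plc, ∀ σ ∈ GK n ⊓ Ine v, L p σ = 0) ∧
      (∀ p, g p ∈ GK n ∧ T.ρ (g p) = 1) ∧ ∀ p q, L p (g q) = p q := by
  obtain ⟨ι, _, χ, g, h1, h2, h3, h4⟩ := exists_genus T hn
  refine ⟨ι, inferInstance, AddMonoidHom.mk' (fun x s => ∑ p, x p * χ p s) fun x y =>
    funext fun s => by simp [add_mul, sum_add_distrib], g, h1, fun x => ⟨?_, fun s _ t _ => ?_,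
      fun v σ hσ => sum_eq_zero fun p _ => by rw [(h2 p).2.2 v σ hσ, mul_zero]⟩, h3,
    fun x q => by simp [h4]⟩
  · exact (Sm.pi fun p => (h2 p).1).comp fun y => ∑ p, x p * y p
  · simp [fun p => (h2 p).2.1 s trivial t trivial, mul_add, sum_add_distrib]

theorem ROk.exists_gen (h : ROk T n k lam ψ w) (h4 : 4 ≤ i) (hi : i ≤ k) :
    ∃ G : AddSubgroup (Gam → Fin 2 → Zi i), G ≤ St T n lam ψ w univ .fl i ∧
      G ⊓ B1 (GK n) (B2.act T ψ (Zi i)) = ⊥ ∧ (∀ c ∈ G, 2 • c = 0) ∧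
      4 ^ (n.primeFactors.card - 1) ≤ 2 * Nat.card G := by
  obtain ⟨ι, _, L, g, l1, l2, l3, l4⟩ := rl5_span T h.ok.nok
  obtain ⟨u, u1, u2⟩ := T.exists_up (k := 1) (m := i) (by omega)
  have hn := h.ok.nok
  have ha := h.isAct hi
  let c : (ι → Zi 1) × (ι → Zi 1) →+ Gam → Fin 2 → Zi i := AddMonoidHom.mk'
    (fun z s r => u (![L z.1 s, L (z.1 + z.2) s] r)) fun z z' => funext fun s => funext fun r => by
      rw [Pi.add_apply, Pi.add_apply, ← map_add]
      fin_cases r <;> simp [add_add_add_comm]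
  have c0 : ∀ z s, (∀ p, L p s = 0) → c z s = 0 := fun z s e => funext fun r => by
    fin_cases r <;> simp [c, e]
  have c2 : ∀ z s, 2 • c z s = 0 := fun z s => funext fun r =>
    (map_nsmul u _ _).symm.trans ((congrArg u (Zi_kill (i := 1) _)).trans (map_zero u))
  have cc : ∀ z, Coc (GK n) (B2.act T ψ (Zi i)) (c z) := fun z =>
    ⟨(((l2 z.1).1.comp₂ (l2 (z.1 + z.2)).1 fun a b r => u (![a, b] r))).mono le_top,
      fun s hs t _ => by
        rw [show B2.act T ψ (Zi i) s (c z t) = c z t from T.inj i (by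
          rw [h.emb hs]
          exact (congrArg (s • ·) (u2 _)).trans (by
            rw [T.smul, T.mod2, one_mulVec]; exact (u2 _).symm))]
        funext r
        refine Eq.trans ?_ (map_add u _ _)
        fin_cases r
        exacts [congrArg u ((l2 _).2.1 s trivial t trivial),
          congrArg u ((l2 _).2.1 s trivial t trivial)]⟩
  have ci : ∀ z (v : Plc), Ine v ≤ GK n → fr v ∉ GK n → ∀ s ∈ GK n ⊓ Dec v, c z s = 0 :=
    fun z v a1 a2 s hs => c0 z s fun p => rl5_inert (l2 p).1 (l2 p).2.1 ((l2 p).2.2 v) a1 a2 hs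
  have cz : ∀ z, (∀ q, c z (g q) = 0) → z = 0 := fun z e => by
    have a : ∀ q r, ![L z.1 (g q), L (z.1 + z.2) (g q)] r = 0 := fun q r =>
      u1 ((congrFun (e q) r).trans (map_zero u).symm)
    have a1 : z.1 = 0 := funext fun q => (l4 _ q).symm.trans (a q 0)
    have a2 : z.1 + z.2 = 0 := funext fun q => (l4 _ q).symm.trans (a q 1)
    exact Prod.ext a1 (by rwa [a1, zero_add] at a2)
  let f : (ι → Zi 1) × (ι → Zi 1) →+ Zi 1 :=
    ((Pi.evalAddMonoidHom _ (fr (bp 1))).comp L).comp (AddMonoidHom.snd _ _)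
  refine ⟨f.ker.map ((rs (GK n)).comp c), ?_, eq_bot_iff.2 ?_, ?_, ?_⟩
  · rintro _ ⟨z, hz, rfl⟩
    change rs (GK n) (c z) ∈ _
    refine mem_St.2 ⟨(h.ok.mem_SU (h.kil hi)).2 ⟨(cc z).lo_rs, fun v _ _ _ σ hσ => ?_,
      KumC.zero.congr fun s hs => ?_, fun v hv => ?_⟩, fun r _ => ?_⟩
    · rw [rs_of_mem hσ.1, c0 z σ fun p => (l2 p).2.2 v σ hσ]
    · rw [rs_of_mem hs.1, ci z w2 hn.fr_w2.2 hn.fr_w2.1 s hs]
      rfl
    · have d := (h.ok.deep v hv).adm
      rw [rs_of_mem d.tm'.φ_mem.1, rs_of_mem d.tm'.τ_mem.1, ci z v d.ine d.fr_notMem _ d.tm'.φ_mem,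
        ci z v d.ine d.fr_notMem _ d.tm'.τ_mem]
      exact zero_mem _
    rcases sp_cases lam r with ⟨v, b, e, -⟩ | rfl
    · have t := hn.tm_bq' v b
      obtain ⟨x, x1, x2⟩ := rl_bad T h4 (bq_or v b) t.frob t.gen.1 (c2 z (ori b (fr (bp v))))
        fun e5 => by
          obtain rfl : v = 1 := by
            rw [bq_p] at e5
            fin_cases v
            · simp at e5
            · rfl
          have a : L z.2 (ori b (fr (bp 1))) = 0 := by
            cases b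
            · change L z.2 (B2.cc * fr (bp 1) * B2.cc) = 0
              rw [(l2 _).2.1 _ trivial _ trivial, (l2 _).2.1 _ trivial _ trivial,
                show L z.2 (fr (bp 1)) = 0 from hz, add_zero, ← two_nsmul]
              exact Zi_kill (i := 1) _
            · exact hz
          simp [c, a]
      rw [e]
      refine ⟨x, fun s hs => (rs_of_mem hs.1 _).trans (t.eq_cob (m := i) Zi_kill'
        (ha.lo_mono inf_le_left) ((cc z).lo_mono inf_le_left) ?_ ?_ hs)⟩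
      · rw [h.act t.τ_mem.1, x1, c0 z _ fun p => (l2 p).2.2 _ _ ⟨t.τ_mem.1, t.gen.1⟩]
      · rw [h.act t.mem, x2]
    · refine ⟨0, fun s hs => ?_⟩
      rw [rs_of_mem hs.1, ci z lam h.ok.adm.ine h.ok.adm.fr_notMem s hs, xlc_cob_zero]
  · rintro _ ⟨⟨z, -, rfl⟩, hb⟩
    obtain ⟨x, hx⟩ := rs_mem_B1.1 hb
    rw [cz z fun q => by
      rw [hx _ (l3 q).1, cob, h.act (l3 q).1, (l3 q).2, la_mred_one, one_mulVec, sub_self], map_zero]
    exact zero_mem _
  · rintro _ ⟨z, -, rfl⟩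
    change 2 • rs (GK n) (c z) = 0
    rw [← map_nsmul, show 2 • c z = 0 from funext (c2 z), map_zero]
  · rw [AddSubgroup.card_map_of_injective ((injective_iff_map_eq_zero _).2 fun z e =>
      cz z fun q => (rs_of_mem (l3 q).1 _).symm.trans (congrFun e _)), ← l1, mul_comm]
    have a := card_ker_range f
    rw [Nat.card_prod, Nat.card_fun, card_Zi, ← mul_pow, Nat.card_eq_fintype_card] at a
    refine (le_of_eq a).trans (Nat.mul_le_mul_left _ ?_)
    exact (AddSubgroup.card_le_card_addGroup _).trans (card_Zi 1).le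

end Pool.Agent.Lib.MP_696deb_nt.B2
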