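import Pool.Agent.Lib.MP_696deb_nt.B2.RL3
import Pool.Agent.Lib.MP_696deb_nt.B2.RL4
import Pool.Agent.Lib.MP_696deb_nt.B2.RL5

set_option autoImplicit false

open scoped NNReal Classical
open Finset Matrix NumberTheorySymbols PowerSeries

namespace Pool.Agent.Lib.MP_696deb_nt.B2

variable {T : Tate} {n k i u I : ℕ} {d d' a b : ℤ} {lam w : Plc} {ψ : Gam → Lam} {y P Q : EE}
  {δ c : Gam → Fin 2 → Zi i} {ty : Ty}

theorem Zi_odd {v : ℕ} (h : Odd v) : IsUnit (v : Zi i) :=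
  (ZMod.isUnit_iff_coprime _ _).2 (Nat.Coprime.pow_right _ (Nat.coprime_two_right.2 h))

theorem Zi_unit {x : Zi i} (h : x ≠ 0) : ∃ (e : ℕ) (v : Zi i), IsUnit v ∧ x = 2 ^ e * v := by
  obtain ⟨e, v, h1, h2⟩ := Nat.exists_eq_two_pow_mul_odd (mt (ZMod.val_eq_zero x).1 h)
  exact ⟨e, v, Zi_odd h1, by rw [← ZMod.natCast_zmod_val x, h2]; push_cast; rfl⟩

theorem Zi_pow {e r : ℕ} (h : i ≤ r + e) (v : Zi i) : 2 ^ r • (2 ^ e * v) = 0 := by
  rw [nsmul_eq_mul, ← mul_assoc, Nat.cast_pow, Nat.cast_ofNat, ← pow_add,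
    pow_eq_zero_of_le h (Zi_two i), zero_mul]

theorem ROk.mem_SU (h : ROk T n k lam ψ w) (hi : i ≤ k) :
    c ∈ SU T n lam ψ {w} (fun _ => ty) (Zi i) ↔ c ∈ SU T n lam ψ {w} (fun _ => .rel) (Zi i) ∧
      (c (fq w), c (gn w)) ∈ ty.cond (Zi i) := by
  simp only [h.ok.mem_SU (h.kil hi), mem_singleton, forall_eq, Ty.cond, Submodule.mem_top, and_true,
    and_assoc]

theorem rf_cob {M : Type} [AddCommGroup M] (α : Gam → M →+ M) (m : ℕ) (x : M) (g : Gam) :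
    cob α (m • x) g = m • cob α x g := by rw [cob, cob, map_nsmul, smul_sub]

theorem Del.not_B1 (hd : Del T n i P Q δ) (hp : Prim n y P u I) (h : ROk T n k lam ψ w)
    (hi : 1 ≤ i) : 2 ^ (i - 1) • δ ∉ B1 (GK n) (act T ψ (Zi i)) := by
  rintro ⟨x, hx⟩
  exact hd.not_cob hp hi x fun g hg => by
    rw [← h.act hg, ← Pi.smul_apply, ← hx, cobH_apply, rs_of_mem hg, cob]

theorem ROk.explicit (h : ROk T n k lam ψ w) (hd : Del T n i P Q δ) (hp : Prim n y P u I)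
    (hi : i ≤ k) {e : ℕ} (he : e + 6 ≤ i) (h0 : 2 ^ (i - e) • (δ (fq w) 1 - δ (fq w) 0) = 0) :
    4 ^ i * 2 ^ (2 * I + e + 14) ≤ GG T n lam ψ w {0, 2, 3, 4} .fl i := by
  obtain ⟨G, g1, g2, g3, g4⟩ := h.exists_gen (by omega) hi
  have := h.finite_St (R := {0, 2, 3, 4}) (ty := .fl) hi
  have m := hd.mem_SU h hi
  have h1 := card_inf_sup G (B1 (GK n) (B2.act T ψ (Zi i)))
  rw [g2, AddSubgroup.card_bot, one_mul] at h1
  have le : G ⊔ B1 (GK n) (B2.act T ψ (Zi i)) ≤ St T n lam ψ w {0, 2, 3, 4} .fl i :=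
    sup_le (fun c hc => mem_St.2 ⟨(mem_St.1 (g1 hc)).1, fun r _ =>
      (mem_St.1 (g1 hc)).2 r (mem_univ r)⟩) (h.B1_le hi)
  have h2 : Nat.card (G ⊔ B1 (GK n) (B2.act T ψ (Zi i)) : AddSubgroup _) * 2 ^ e ≤
      Nat.card (St T n lam ψ w {0, 2, 3, 4} .fl i) * 2 := by
    rcases le_or_gt e 1 with l | l
    · exact Nat.mul_le_mul (AddSubgroup.card_le_of_le le) (Nat.pow_le_pow_right two_pos l)
    obtain ⟨e, rfl⟩ : ∃ r, e = r + 2 := ⟨e - 2, by omega⟩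
    rw [pow_succ, ← mul_assoc]
    refine Nat.mul_le_mul_right _ (rl1_ord le (x := 2 ^ (i - (e + 2)) • δ) (N := i)
      (mem_St.2 ⟨?_, fun r _ => ?_⟩) (funext fun g => Zi_kill' _) fun l => ?_)
    · obtain ⟨p1, -, p2⟩ := (h.mem_SU hi).1 (nsmul_mem m (2 ^ (i - (e + 2))))
      exact (h.mem_SU hi).2 ⟨p1, sub_eq_zero.1 ((smul_sub _ _ _).symm.trans h0), p2⟩
    · obtain ⟨x, hx⟩ := h.kill hi r m.1.1
      exact ⟨2 ^ (i - (e + 2) - 6) • x, fun g hg => by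
        rw [rf_cob, ← hx g hg, smul_smul, ← pow_add, Nat.sub_add_cancel (by omega), Pi.smul_apply]⟩
    · obtain ⟨s, s1, t, t1, l⟩ := AddSubgroup.mem_sup.1 l
      refine hd.not_B1 hp h (by omega) ?_
      rw [show i - 1 = 1 + (e + (i - (e + 2))) by omega, pow_add, pow_add, mul_smul, mul_smul, ← l,
        pow_one, smul_add, g3 s s1, zero_add]
      exact nsmul_mem t1 2
  have h3 : 4 ^ i ≤ hh T n lam ψ i 0 * Nat.card (B1 (GK n) (B2.act T ψ (Zi i))) := by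
    rw [← card_Zi2, ← card_H0_B1 (GK n) (B2.act T ψ (Zi i))]
    exact Nat.mul_le_mul_right _ (AddSubgroup.card_le_of_le fun x hx g hg => hx g hg.1)
  have h4 := h.St_le (R := {0, 2, 3, 4}) (ty := .fl) hi
  rw [prod_insert (by decide), prod_insert (by decide), prod_pair (by decide)] at h4
  have h5 : 4 ^ (I + 1) ≤ 2 * Nat.card G :=
    (Nat.pow_le_pow_right (by norm_num) (by have := hp.le; omega)).trans g4
  have h6 := Nat.mul_le_mul (h.five (i := i) (by omega) (sp_p lam 2)) (Nat.mul_le_mul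
    (h.five (i := i) (by omega) (sp_p lam 3)) (h.tower (i := i) (by omega) hi))
  refine Nat.le_of_mul_le_mul_left (le_trans ?_ (Nat.mul_le_mul_left 4 h4)) (by norm_num)
  rw [h1] at h2
  calc _ = 4 ^ (I + 1) * 4 ^ i * 2 ^ e * (4 ^ 2 * (4 ^ 2 * 4 ^ 3)) := by
        rw [pow_add, pow_add, pow_mul]; ring
    _ ≤ _ := Nat.mul_le_mul (Nat.mul_le_mul_right _ (Nat.mul_le_mul h5 h3)) h6
    _ = 2 * hh T n lam ψ i 0 * (Nat.card G * _ * 2 ^ e) * _ := by congr 1; ring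
    _ ≤ _ := Nat.mul_le_mul_right _ (Nat.mul_le_mul_left _ h2)
    _ = _ := by
        change _ * (hh T n lam ψ i 2 * (hh T n lam ψ i 3 * hh T n lam ψ i 4)) = _
        ring

theorem ROk.dich (h : ROk T n k lam ψ w) (hd : Del T n i P Q δ) (hp : Prim n y P u I)
    (hi : i ≤ k) (h7 : 7 ≤ i) {e : ℕ} (he : e ≤ i) {v : Zi i}
    (h0 : δ (fq w) 1 - δ (fq w) 0 = 2 ^ e * v) :
    Nat.card (A0 T n lam ψ w .sh i) ≤ Nat.card (A0 T n lam ψ w .lag i) * 2 ^ (i - e) ∨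
      2 ^ (i - 6) ≤ Nat.card (A0 T n lam ψ w .lag i) := by
  have := h.finite_A0 (ty := .lag) hi
  let f : (Gam → Fin 2 → Zi i) →+ Zi i := AddMonoidHom.mk' (fun c => c (fq w) 1 - c (fq w) 0)
    fun x y => by simp only [Pi.add_apply]; ring
  by_cases l : (A0 T n lam ψ w .sh i).map f ≤ AddSubgroup.zmultiples (2 ^ e)
  · left
    rw [card_map_inf f]
    refine Nat.mul_le_mul (AddSubgroup.card_le_of_le fun c hc => ?_)
      ((AddSubgroup.card_le_of_le l).trans ?_)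
    · obtain ⟨p1, -, p2⟩ := (h.mem_SU hi).1 (mem_A0.1 hc.1).1
      exact mem_A0.2 ⟨(h.mem_SU hi).2 ⟨p1, sub_eq_zero.1 hc.2, p2⟩, (mem_A0.1 hc.1).2⟩
    · rw [Nat.card_zmultiples]
      exact addOrderOf_le_of_nsmul_eq_zero (by positivity)
        (by simpa using Zi_pow (r := i - e) (e := e) (by omega) 1)
  right
  obtain ⟨_, ⟨c, hc, rfl⟩, l⟩ := SetLike.not_le_iff_exists.1 l
  obtain ⟨r, s, s1, s2⟩ := Zi_unit fun k : f c = 0 => l (k ▸ zero_mem _)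
  have lt : r < e := not_le.1 fun k => l (by
    rw [s2, ← Nat.add_sub_cancel' k, pow_add, mul_assoc, mul_comm,
      ← ZMod.natCast_zmod_val (_ * s), ← nsmul_eq_mul]
    exact AddSubgroup.nsmul_mem_zmultiples _ _)
  obtain ⟨s', s3⟩ := s1.exists_right_inv
  obtain ⟨p1, -, p2⟩ := (h.mem_SU hi).1 (mem_A0.1 hc).1
  obtain ⟨q1, -, q2⟩ := (h.mem_SU hi).1 (hd.mem_SU h hi)
  obtain ⟨x, hx⟩ := h.kill hi 0 q1.1.1
  obtain ⟨q, rfl⟩ : ∃ q, e = q + r + 1 := ⟨e - r - 1, by omega⟩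
  obtain ⟨m, hm⟩ : ∃ m : ℕ, (2 * m) • f c = δ (fq w) 1 - δ (fq w) 0 :=
    ⟨(2 ^ q * s' * v).val, by
      rw [nsmul_eq_mul, Nat.cast_mul, ZMod.natCast_zmod_val, s2, h0]
      push_cast
      linear_combination 2 ^ (q + r + 1) * v * s3⟩
  have z : (2 * m) • c - δ ∈ SU T n lam ψ {w} (fun _ => .lag) (Zi i) :=
    (h.mem_SU hi).2 ⟨sub_mem (nsmul_mem p1 _) q1, ?_, ?_⟩
  rotate_left
  · change (2 * m) • c (fq w) 1 - δ (fq w) 1 = (2 * m) • c (fq w) 0 - δ (fq w) 0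
    rw [sub_eq_sub_iff_sub_eq_sub, ← hm, ← smul_sub]
    rfl
  · change (2 * m) • c (gn w) - δ (gn w) ∈ dgM (Zi i)
    rw [show δ (gn w) = 0 from q2, sub_zero]
    exact nsmul_mem p2 _
  have := rl1_ord (W := ⊥) bot_le (x := 2 ^ 6 • ((2 * m) • c - δ) + cobH (GK n) _ x) (r := i - 7)
    (N := i) (mem_A0.2 ⟨add_mem (nsmul_mem z _) (h.ok.cob_mem (h.kil hi) x), fun g hg => by
      rw [Pi.add_apply, cobH_apply, rs_of_mem hg.1, ← hx g hg, Pi.smul_apply, Pi.sub_apply,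
        Pi.smul_apply, (mem_A0.1 hc).2 g hg, smul_zero, zero_sub, smul_neg, neg_add_cancel]⟩)
    (funext fun g => Zi_kill' _) fun k => hd.not_B1 hp h (by omega) ⟨2 ^ (i - 7) • x, ?_⟩
  · rwa [AddSubgroup.card_bot, one_mul, show i - 7 + 1 = i - 6 by omega] at this
  · rw [AddSubgroup.mem_bot, smul_add, smul_smul, ← pow_add, show i - 7 + 6 = i - 1 by omega,
      smul_sub, smul_smul, ← mul_assoc, ← pow_succ, show i - 1 + 1 = i by omega, mul_smul,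
      show 2 ^ i • m • c = 0 from funext fun g => Zi_kill' _, zero_sub, neg_add_eq_zero] at k
    rw [map_nsmul, k]

theorem ROk.bound (F : CFT) (su : SUStmt) (ch : ChebStmt) (h : ROk T n k lam ψ w)
    (hd : Del T n i P Q δ) (hp : Prim n y P u I) (hi : i + i ≤ k) {e : ℕ}
    (he : 2 * I + e + 14 + e + 6 ≤ i) {v : Zi i} (h0 : δ (fq w) 1 - δ (fq w) 0 = 2 ^ e * v) :
    2 ^ (2 * I + e + 14 + e) ≤ Nat.card (SM T n lam ψ {w} (fun _ => .lag) (Lam ⧸ aa (i + i) 1)) := by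
  have hi' : i ≤ k := by omega
  have h1 : 2 ^ (2 * I + e + 14 + e) ≤ Nat.card (A0 T n lam ψ w .lag i) := by
    refine (h.dich hd hp hi' (by omega) (by omega) h0).elim (fun l => ?_)
      (Nat.pow_le_pow_right two_pos (by omega)).trans
    have h2 := Nat.mul_le_mul_right (2 ^ i) (h.explicit hd hp hi' (e := e) (by omega)
      (h0 ▸ Zi_pow (by omega) v))
    rw [← h.gw_fl F su ch hi'] at h2
    replace h2 := h2.trans ((h.G0_le hi').trans (Nat.mul_le_mul_right _ l))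
    refine Nat.le_of_mul_le_mul_right (le_trans (le_of_eq ?_) (h2.trans (mul_assoc _ _ _).le))
      (by positivity)
    rw [pow_add _ _ e, show 2 ^ i = 2 ^ (i - e) * 2 ^ e by rw [← pow_add]; congr 1; omega]
    ring
  have h2 := h.mono (ty := .lag) F hi
  rw [h.gw_lag F su ch hi] at h2
  obtain ⟨f, hf⟩ := exists_lin_aa (i + i)
  have := (sel_finite (R := ∅) (ty := fun _ => .lag) F su ch h.ok
    (kil_quot (aa_le hi (.inl h.pos)))).2.1
  exact h1.trans ((Nat.le_of_mul_le_mul_right h2 (by positivity)).trans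
    (Nat.card_le_card_of_injective (fun c => ⟨_, SR0_map f c.2⟩) fun c c' l =>
      Subtype.ext (hf.comp_left.comp_left (congrArg Subtype.val l))))

/-- The lower bound on the reference branch. -/
theorem ref_bound (F : CFT) (su : SUStmt) (ch : ChebStmt) (T : Tate) (hc : Ctx d d' n a b)
    (S : HS n) (hr : S.RefDiv) : ∃ j k₀ : ℕ, ∀ k, k₀ ≤ k → ∀ lam, S.Tw k lam a b →
      S.Often T k lam fun w => ∀ (R : EE) (x : Fin 2 → ZMod (2 ^ k)),
        2 ^ k • R = a15 lam.p • S.ychi 1 → T.emb k x = fq w • R - R → ∃ m < j,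
          ¬ (2 : ZMod (2 ^ k)) ^ (m + 1) ∣ 256 * (x 1 - x 0) ^ 2 ∧
          2 ^ m ≤ Nat.card (SM T n lam (S.psi k lam 1) {w} (fun _ => .lag) (Lam ⧸ aa j 1)) := by
  obtain ⟨P, u, I, hp⟩ := exists_prim T hc.nok S hr
  obtain ⟨i, hi⟩ : ∃ i, i = 2 * I + 44 := ⟨_, rfl⟩
  obtain ⟨Q, δ, hd⟩ := exists_del T i hp.fix
  refine ⟨i + i, i + i, fun k hk lam h => ?_⟩
  have hi' : i ≤ k := by omega
  obtain ⟨m, c, c1, c2, c3, c4⟩ := hd.often hp S hc.nok h.adm (by omega) hi'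
  refine ⟨m, c, c1, c2, c3, fun w hw l R x h1 h2 => ?_⟩
  replace l := c4 w hw l
  have ok : ROk T n k lam (S.psi k lam 1) w :=
    ⟨h.sok hc.nok ⟨by simpa using hw, by simp⟩ 1, fun g hg => by
      simpa [xi_eq_zero.1 (xi_one g)] using HS.psi_X h.adm (one_dvd _) rfl hg, by omega⟩
  obtain ⟨e, v, v1, v2⟩ := Zi_unit (x := δ (fq w) 1 - δ (fq w) 0) fun k => l (by rw [k, smul_zero])
  have he : e < 12 := not_le.1 fun k => l (v2 ▸ Zi_pow (by omega) v)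
  refine ⟨2 * I + e + 14 + e, by omega, fun ⟨z, hz⟩ => ?_, ok.bound F su ch hd hp hk (by omega) v2⟩
  obtain ⟨s, s1, s2⟩ := ok.ok.a15_lam
  have p := hd.value hp hi' hw.fq_mem.1 hw.fq_mem.2.1 h1 h2
  replace hz := congrArg (ZMod.castHom (pow_dvd_pow 2 hi') (Zi i)) hz
  simp only [map_mul, map_pow, map_sub, map_ofNat] at hz
  have p0 := p 0
  have p1 := p 1
  rw [s2] at p0 p1
  push_cast at p0 p1
  generalize ZMod.castHom (pow_dvd_pow 2 hi') (Zi i) = π at hz p0 p1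
  have q : (u : Zi i) * (π (x 1) - π (x 0)) = 8 * s * 2 ^ I * (2 ^ e * v) := by
    rw [← v2]
    linear_combination p1 - p0
  have s3 : IsUnit (s : Zi i) := by
    obtain ⟨m, rfl | rfl⟩ := Int.eq_nat_or_neg s
    · exact_mod_cast Zi_odd (i := i) (v := m) (by exact_mod_cast s1)
    · rw [Int.cast_neg, Int.cast_natCast]
      exact (Zi_odd (by exact_mod_cast odd_neg.1 s1)).neg
  have q2 : (2 : Zi i) ^ (2 * I + e + 14 + e) * (s * v) ^ 2 =
      2 ^ (2 * I + e + 14 + e + 1) * (u ^ 2 * π z) := by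
    linear_combination (u : Zi i) ^ 2 * hz -
      256 * (u * (π (x 1) - π (x 0)) + 8 * s * 2 ^ I * (2 ^ e * v)) * q
  have q3 := Zi_pow (i := i) (r := i - 1 - (2 * I + e + 14 + e)) (e := 2 * I + e + 14 + e + 1)
    (by omega) (u ^ 2 * π z)
  rw [← q2, nsmul_eq_mul, ← mul_assoc, ((s3.mul v1).pow 2).mul_left_eq_zero] at q3
  have q4 : ((2 ^ (i - 1) : ℕ) : Zi i) = 0 := by
    rw [← q3, show i - 1 = i - 1 - (2 * I + e + 14 + e) + (2 * I + e + 14 + e) by omega]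
    simp only [Nat.add_sub_cancel, pow_add _ (i - 1 - _), Nat.cast_mul, Nat.cast_pow, Nat.cast_ofNat]
  exact absurd (Nat.le_of_dvd (by positivity) ((ZMod.natCast_eq_zero_iff _ _).1 q4))
    (not_le.2 (Nat.pow_lt_pow_right one_lt_two (by omega)))

end Pool.Agent.Lib.MP_696deb_nt.B2
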