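import Pool.Agent.Lib.MP_696deb_nt.B2.TW4
import Pool.Agent.Lib.MP_696deb_nt.B2.GWi

/-! The Selmer group over the quadratic field is bounded by those of the two twists. -/

set_option autoImplicit false

open scoped NNReal Classical
open Finset Matrix

namespace Pool.Agent.Lib.MP_696deb_nt.B2

variable {T : Tate} {d d' e a b : ℤ} {m n : ℕ} {w : Plc} {g τ : Gam} {x : Gam → Vm m}

/-- Cocycles over the quadratic field without conditions above fifteen. -/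
structure KS (T : Tate) (n : ℕ) (d : ℤ) (m : ℕ) (x : Gam → Vm m) : Prop where
  z : x ∈ Z1 (GK n) (tv T d m)
  unr : ∀ w : Plc, ¬ w.p ∣ 30 → ∀ σ ∈ GK n ⊓ Ine w, x σ = 0
  two : ∀ w : Plc, w.p = 2 → LTv T d m (GK n ⊓ Dec w) x

theorem tv_congr (h : chi e g = chi d g) : tv T e m g = tv T d m g := by rw [tv, tv, h]

theorem not_dvd30_of (h2 : w.p ≠ 2) (h : ¬ (w.p = 3 ∨ w.p = 5)) : ¬ w.p ∣ 30 := fun k => by
  have hp := w.prime
  have := Nat.le_of_dvd (by norm_num) k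
  generalize w.p = p at *
  interval_cases p <;> simp_all (config := { decide := true })

theorem KS.sel (hc : Ctx d d' n a b) (h : KS T n d m x) (he : ∀ g ∈ GK n, chi e g = chi d g)
    (h4 : e % 4 = 1) (hn : e ∣ n) (hτ : τ ∉ GK n) :
    hSel e fun g => T.emb m ((2 • 64 • cor n τ (tv T e m) x) g) := by
  have h1 := coc_cor (act_tv T e m ⊤) (c := x)
    ⟨h.z.1.1, fun g hg u hu => by rw [tv_congr (he g hg), h.z.1.2 g hg u hu]⟩ hτ
  refine hSel_of (h1.nsmul 64) fun w => ?_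
  by_cases hw : w.p = 3 ∨ w.p = 5
  · refine (lt_bad hw h4 (fun k => hc.not_dvd30 w.prime (k.trans hn) ?_) h1).nsmul 2
    rcases hw with k | k <;> rw [k] <;> norm_num
  refine lt_double ((h1.nsmul 64).lo_mono le_top) ((lt_cor he (fun v hv => ?_) rfl τ).nsmul 64)
  by_cases h2 : w.p = 2
  · exact h.two v (hv.trans h2)
  · have := hv ▸ not_dvd30_of h2 hw
    exact lt_unr hc this (h.z.1.lo_mono inf_le_left) (h.unr v this)

theorem cor_add (hc : Ctx d d' n a b) (hτ : τ ∉ GK n) (hg : g ∈ GK n) :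
    cor n τ (tv T d m) x g + cor n τ (tv T d' m) x g = 2 • x g := by
  rw [cor_of_mem hg, cor_of_mem hg, tv_apply, tv_apply, hc.chi_ne hτ, Units.val_neg, neg_smul,
    two_nsmul]
  abel

theorem cor_sq {M : Type} [AddCommGroup M] {A : Gam → M →+ M} {c : Gam → M} (hτ : τ ∉ GK n)
    (h : c (τ * τ) = 0) : cor n τ A c (τ * τ) = 0 := by
  rw [cor_of_mem (mul_mem_GK hτ hτ), inv_mul_cancel_left, h, map_zero, add_zero]

theorem card_two (T : Tate) (hn : 0 < n) (s : Finset Plc) (t : Finset (Gam → Vm m))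
    (h : ∀ x ∈ t, x ∈ Zu (GK n) (tv T d m) s ∧ 2 • x = 0) :
    t.card ≤ Nat.card (Zu (GK n) tr s) ^ 2 := by
  have := finH_two (op_GK n) (tc_of_le hn le_rfl) (index_GK hn) s
  have k0 : ∀ x ∈ t, ∀ g, 2 ^ 1 • T.emb m (x g) = 0 := fun x hx g => by
    rw [← map_nsmul, pow_one, ← Pi.smul_apply, (h x hx).2, Pi.zero_apply, map_zero]
  have k1 : ∀ v : Vm m, ∃ y : Vm 1, 2 ^ 1 • T.emb m v = 0 → T.emb 1 y = T.emb m v := fun v => by
    by_cases k : 2 ^ 1 • T.emb m v = 0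
    · exact (T.surj 1 _ k).imp fun _ e _ => e
    · exact ⟨0, fun e => absurd e k⟩
  choose f hf using k1
  have f0 : f 0 = 0 := T.inj 1 (by rw [hf 0 (by simp), map_zero, map_zero])
  have k2 : ∀ x ∈ t, ∀ i, (fun g => f (x g) i) ∈ Zu (GK n) tr s := fun x hx i => by
    obtain ⟨⟨⟨a1, a2⟩, a3⟩, a4⟩ := (h x hx).1
    refine ⟨⟨⟨a1.comp fun v => f v i, fun g hg u hu => ?_⟩, fun g hg => ?_⟩, fun w hw σ hσ => ?_⟩
    · refine congrFun (T.inj 1 (?_ : _ = T.emb 1 (f (x g) + f (x u)))) i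
      rw [map_add, hf _ (k0 x hx _), hf _ (k0 x hx _), hf _ (k0 x hx _), a2 g hg u hu, map_add,
        emb_tv, tv_two T d g (k0 x hx u)]
    · simp only [a3 g hg, f0, Pi.zero_apply]
    · simp only [a4 w hw σ hσ, f0, Pi.zero_apply]
  rw [← Nat.card_eq_finsetCard]
  refine (Nat.card_le_card_of_injective (β := Fin 2 → Zu (GK n) tr s)
    (fun x i => ⟨_, k2 x.1 x.2 i⟩) fun x y e => ?_).trans_eq (by rw [Nat.card_fun, Nat.card_fin])
  refine Subtype.ext (funext fun g => T.inj m ?_)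
  rw [← hf _ (k0 _ x.2 g), ← hf _ (k0 _ y.2 g)]
  exact congrArg _ (funext fun i => congrFun (congrArg Subtype.val (congrFun e i)) g)

/-- The bound for the Selmer group over the quadratic field. -/
theorem cork_link (T : Tate) (hc : Ctx d d' n a b) (h : Cork d) (h' : Cork d') (r : ℕ) :
    ∃ C : ℕ, ∀ (j : ℕ) (τ : Gam), τ ∉ GK n →
      (∀ v : Vm j, tv T d j (τ * τ) v = v → 2 ^ r • v = 0) → ∀ s : Finset (Gam → Vm j),
      (∀ x ∈ s, KS T n d j x ∧ x (τ * τ) = 0) → s.card ≤ C * 4 ^ j := by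
  obtain ⟨C, hC⟩ := cork_zero T h
  obtain ⟨C', hC'⟩ := cork_zero T h'
  obtain ⟨t, -, -, ht⟩ := exists_reps (op_GK n) {2, 3, 5}
  refine ⟨(Nat.card (Zu (GK n) tr t) ^ 2) ^ 8 * (4 ^ r * C * (4 ^ r * C')),
    fun j τ hτ hv s hs => ?_⟩
  obtain ⟨F, hF⟩ : ∃ F : ℤ → (Gam → Vm j) → Gam → EE,
    ∀ e x, F e x = fun g => T.emb j ((2 • 64 • cor n τ (tv T e j) x) g) := ⟨_, fun _ _ => rfl⟩
  have k1 : ∀ e, (∀ g ∈ GK n, chi e g = chi d g) → e % 4 = 1 → e ∣ n → ∀ ξ ∈ s.image (F e),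
      hSel e ξ ∧ (∀ g, 2 ^ j • ξ g = 0) ∧ ξ (τ * τ) = 0 := fun e h1 h2 h3 ξ hξ => by
    obtain ⟨x, hx, rfl⟩ := mem_image.1 hξ
    rw [hF]
    refine ⟨(hs x hx).1.sel hc h1 h2 h3 hτ, fun g => emb_kill T _, ?_⟩
    simp only [Pi.smul_apply, cor_sq hτ (hs x hx).2, smul_zero, map_zero]
  have k2 := hC j r _ hv _ (k1 d (fun _ _ => rfl) hc.d4 (dvd_neg.1 ⟨d', hc.mul.symm⟩))
  have k3 := hC' j r (τ * τ) (by rwa [tv_congr (hc.chi_eq (mul_mem_GK hτ hτ))]) _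
    (k1 d' (fun _ => hc.chi_eq) hc.d'_mod (dvd_neg.1 (hc.mul ▸ dvd_mul_left d' d)))
  have k4 : ∀ x ∈ s, x ∈ Zu (GK n) (tv T d j) t := fun x hx =>
    ⟨(hs x hx).1.z, fun w hw => (hs x hx).1.unr w (not_dvd30_of
      (fun k => ht w (by simp [k]) hw) fun k => ht w (by simp [k]) hw)⟩
  have k5 : ∀ x g, g ∈ GK n → F d x g + F d' x g = T.emb j (2 ^ 8 • x g) := fun x g hg => by
    simp only [hF, Pi.smul_apply]
    rw [← map_add, ← smul_add, ← smul_add, cor_add hc hτ hg, smul_smul, smul_smul]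
    rfl
  have k6 := card_fib (card_tors _ (card_two T hc.pos t) 8) s (fun x => (F d x, F d' x))
    fun x hx y hy e => ⟨sub_mem (k4 x hx) (k4 y hy), funext fun g => by
      rw [Pi.smul_apply, Pi.sub_apply, smul_sub, Pi.zero_apply, sub_eq_zero]
      by_cases hg : g ∈ GK n
      · refine T.inj j ?_
        rw [← k5 x g hg, ← k5 y g hg, (Prod.mk.inj e).1, (Prod.mk.inj e).2]
      · rw [(hs x hx).1.z.2 g hg, (hs y hy).1.z.2 g hg]⟩
  refine k6.trans ?_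
  rw [mul_assoc]
  refine Nat.mul_le_mul_left _ ((card_le_card (t := s.image (F d) ×ˢ s.image (F d'))
    fun z hz => ?_).trans ?_)
  · simp only [mem_image] at hz
    obtain ⟨x, hx, rfl⟩ := hz
    exact mem_product.2 ⟨mem_image_of_mem _ hx, mem_image_of_mem _ hx⟩
  rw [card_product]
  refine (Nat.mul_le_mul k2 k3).trans (le_of_eq ?_)
  rw [show 4 ^ j = 2 ^ j * 2 ^ j from mul_pow 2 2 j]
  ring

theorem fix_of_det {A : Matrix (Fin 2) (Fin 2) ℤ_[2]} {r : ℕ} {u : ℤ_[2]ˣ} (h : A.det = 2 ^ r * u)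
    {v : Vm m} (hv : mred m A *ᵥ v = 0) : 2 ^ r • v = 0 := by
  have := congrArg (mred m ((↑u⁻¹ : ℤ_[2]) • A.adjugate) *ᵥ ·) hv
  simp only [mulVec_mulVec, ← mred_mul, Matrix.smul_mul, adjugate_mul, smul_smul, h, mulVec_zero,
    mul_comm _ (u : ℤ_[2]), Units.inv_mul_cancel_left] at this
  rw [← this]
  funext i
  fin_cases i <;> simp [mred, mulVec, dotProduct, map_ofNat]

theorem unr_conj (hc : Ctx d d' n a b) (h : Coc (GK n) (tv T d m) x) (hw : ¬ w.p ∣ 30) {u : Gam}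
    (hu : u ∈ GK n) (h0 : ∀ σ ∈ GK n ⊓ Ine w, x σ = 0) {σ : Gam}
    (hσ : σ ∈ GK n ⊓ Ine (u • w)) : x σ = 0 := by
  have h1 := conj_GK hσ.1 u
  have h2 := (h.2 σ hσ.1 u hu).symm.trans ((congrArg x (by group)).trans (h.2 u hu _ h1))
  rwa [h0 _ ⟨h1, mem_Ine_smul.1 hσ.2⟩, map_zero, add_zero, tv_ine hc (w := u • w) hw hσ,
    add_eq_right] at h2

theorem natCard_le {X A : Type*} {P : A → Prop} {N : ℕ}
    (h : ∀ s : Finset A, (∀ x ∈ s, P x) → s.card ≤ N) {f : X → A} (hf : Function.Injective f)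
    (k : ∀ x, P (f x)) : Nat.card X ≤ N := by
  rcases finite_or_infinite X with _ | _
  · have := Fintype.ofFinite X
    rw [Nat.card_eq_fintype_card, ← card_univ, ← card_image_of_injective _ hf]
    exact h _ (forall_mem_image.2 fun x _ => k x)
  · simp

end Pool.Agent.Lib.MP_696deb_nt.B2
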