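import Pool.Agent.Lib.MP_696deb_nt.B2.XTW
import Pool.Agent.Lib.MP_696deb_nt.B2.XSb
import Pool.Agent.Lib.MP_696deb_nt.B2.XLe
import Pool.Agent.Lib.MP_696deb_nt.B2.TW5

set_option autoImplicit false

open scoped NNReal Classical
open Finset Matrix NumberTheorySymbols PowerSeries

namespace Pool.Agent.Lib.MP_696deb_nt.B2

variable {n : ℕ} {d d' a b : ℤ}

theorem ev_mk {k i : ℕ} (hi : k = 0 ∨ i ≠ 0) (x : Lam) :
    ev k i hi (Ideal.Quotient.mk _ x) = PadicInt.toZModPow k (constantCoeff x) := rfl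

theorem ev_inj (j : ℕ) : Function.Injective (ev j 1 (.inr one_ne_zero)) := by
  refine (injective_iff_map_eq_zero _).2 fun x hx => ?_
  obtain ⟨x, rfl⟩ := Ideal.Quotient.mk_surjective x
  rw [ev_mk, ← RingHom.mem_ker, PadicInt.ker_toZModPow, Ideal.mem_span_singleton] at hx
  refine Ideal.Quotient.eq_zero_iff_mem.2 (PA.mem_aa.2 fun i hi => ?_)
  obtain rfl : i = 0 := by omega
  simpa using hx

/-- At zero the action is the twisted action on torsion points. -/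
theorem ev_act {T : Tate} {ψ : Gam → Lam} {g : Gam} {j : ℕ} {e : ℤ}
    (h : ψ g - ((chi e g : ℤ) : Lam) ∈ Ideal.span {(X : Lam)}) (v : Fin 2 → Lam ⧸ aa j 1) :
    (fun i => ev j 1 (.inr one_ne_zero) (act T ψ _ g v i)) =
      tv T e j g fun i => ev j 1 (.inr one_ne_zero) (v i) := by
  obtain ⟨y, hy⟩ := Ideal.mem_span_singleton.1 h
  have k : constantCoeff (ψ g) = ((chi e g : ℤ) : ℤ_[2]) := by
    rw [eq_add_of_sub_eq hy]
    simp
  funext i
  rw [act_quot, tv_apply]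
  fin_cases i <;> simp [mulVec, dotProduct, rep, ev_mk, k, mred, mul_assoc]

/-- The upper bound on the target branch. -/
theorem tg_bound (_F : CFT) (_su : SUStmt) (_ch : ChebStmt) (T : Tate) (hc : Ctx d d' n a b)
    (S : HS n) (h : Cork d) (h' : Cork d') : ∃ C : ℕ, ∀ k lam, S.Tw k lam a b → ∀ j ≤ k,
      Nat.card (SM T n lam (S.psi k lam d) ∅ (fun _ => .tr) (Lam ⧸ aa j 1)) ≤ C * 4 ^ j := by
  obtain ⟨C, hC⟩ := cork_link T hc h h' 6
  refine ⟨C, fun k lam hl j hj => ?_⟩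
  have ok : SOk T n k lam (S.psi k lam d) ∅ :=
    hl.sok hc.nok ⟨fun _ h => absurd h (notMem_empty _), fun _ h => absurd h (notMem_empty _)⟩ d
  have hB : Kil k (Lam ⧸ aa j 1) := kil_quot (aa_le hj (by omega))
  have out := hl.adm.fr_notMem
  obtain ⟨u, hu, -⟩ := ok.det_lam
  refine natCard_le (hC j (fr lam) out fun v hv => fix_of_det (u := u) (hu.trans (by norm_num)) ?_)
    (f := fun c g i => ev j 1 (.inr one_ne_zero) (c.1 g i))
    (fun c c' e => Subtype.ext (funext fun g => funext fun i => ev_inj j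
      (congrFun (congrFun e g) i))) fun c => ?_
  · have := mred_smul_sub j 1 (T.ρ (fq lam)) v
    rw [tv_apply, map_mul, Int.units_mul_self] at hv
    rw [Int.cast_one, one_smul] at this
    exact this.trans (sub_eq_zero.2 hv)
  obtain ⟨h1, h2⟩ := (ok.mem_SM hB).1 c.2
  obtain ⟨⟨⟨a1, a2⟩, a3⟩, a4, a5, -⟩ := (ok.mem_SU hB).1 h1
  have k1 : Coc (GK n) (tv T d j) fun g i => ev j 1 (.inr one_ne_zero) (c.1 g i) :=
    ⟨a1.comp fun v i => ev j 1 (.inr one_ne_zero) (v i), fun g hg u hu => by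
      rw [← ev_act (HS.psi_X (S := S) (k := k) hl.adm (dvd_neg.1 ⟨d', hc.mul.symm⟩) hc.d4 hg)]
      exact funext fun i => (congrArg (fun v => ev j 1 _ (v i)) (a2 g hg u hu)).trans
        (map_add _ _ _)⟩
  have k2 : ∀ g, c.1 g = 0 → (fun i => ev j 1 (.inr one_ne_zero) (c.1 g i)) = 0 := fun g hg =>
    funext fun i => by rw [hg, Pi.zero_apply, map_zero, Pi.zero_apply]
  refine ⟨⟨⟨k1, fun g hg => k2 g (a3 g hg)⟩, fun w hw σ hσ => ?_, fun w hw => ?_⟩,
    k2 _ (h2 _ hl.adm.tm'.φ_mem)⟩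
  · by_cases e : w.p = lam.p
    · obtain ⟨u, hu, rfl⟩ := conj_of_inert e (fr_spec lam).1 out
      exact unr_conj (w := lam) hc k1 hw hu (fun s hs => k2 s (h2 s ⟨hs.1, Ine_le _ hs.2⟩)) hσ
    · exact k2 σ (a4 w hw e (fun _ h => absurd h (notMem_empty _)) σ hσ)
  · obtain ⟨u, hu, rfl⟩ := conj_of_inert (hw.trans w2_p.symm) (fr_spec w2).1 hc.nok.fr_w2.1
    exact lt_conj k1 (normal_GK n) (lt_of_kum hc.d4 hc.nok.m8 w2_p
      (a5 j (ev j 1 (.inr one_ne_zero)).toAddMonoidHom)) hu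

end Pool.Agent.Lib.MP_696deb_nt.B2
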