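import Pool.Agent.Lib.MP_696deb_nt.B2.XAb
import Pool.Agent.Lib.MP_696deb_nt.B2.XKC
import Pool.Agent.Lib.MP_696deb_nt.B2.XMU
import Pool.Agent.Lib.MP_696deb_nt.B2.XRF
import Pool.Agent.Lib.MP_696deb_nt.B2.XTG
import Pool.Agent.Lib.MP_696deb_nt.B2.XNZ
import Pool.Agent.Lib.MP_696deb_nt.B2.PAZ

set_option autoImplicit false

open scoped Classical
open Finset Matrix NumberTheorySymbols PowerSeries

namespace Pool.Agent.Lib.MP_696deb_nt.B2

theorem mco_ev {k : ℕ} (f : Lam) :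
    evk k (Ideal.Quotient.mk _ f) = PadicInt.toZModPow k (constantCoeff f) := rfl

theorem mco_ker {k : ℕ} {x : Ak k} (h : evk k x = 0) :
    x ∈ Ideal.span {Ideal.Quotient.mk (aa k k) X} := by
  obtain ⟨f, rfl⟩ := Ideal.Quotient.mk_surjective x
  obtain ⟨g, hg⟩ : X ∣ f - C (constantCoeff f) := X_dvd_iff.2 (by simp)
  have := Ideal.Quotient.eq.2 (la_C_mem (z' := 0) (h.trans (map_zero _).symm) k)
  rw [eq_add_of_sub_eq hg, map_add, this, map_zero, map_zero, add_zero, map_mul]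
  exact Ideal.mul_mem_right _ _ (Ideal.subset_span rfl)

theorem mco_fix {n k : ℕ} {S : HS n} {T : Tate} {lam : Plc} {σ : Gam} (h : σ ∈ S.N T k lam) {P : EE}
    (hP : 2 ^ k • P = 0) : σ • P = P := by
  obtain ⟨x, rfl⟩ := T.surj k P hP
  rw [T.smul, la_mred_le (Nat.le_add_right k 2) (h.2.1.trans (la_mred_one _).symm), la_mred_one,
    one_mulVec]

theorem mco_pow (C : ℕ) : ∃ j, ¬ 4 ^ j ≤ C * 2 ^ j := ⟨C, fun h => by
  rw [show 4 ^ C = 2 ^ C * 2 ^ C from mul_pow 2 2 C] at h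
  exact absurd (Nat.le_of_mul_le_mul_right h (by positivity)) (not_le.2 Nat.lt_two_pow_self)⟩

theorem m_core (F : CFT) (su : SUStmt) (_li : LIStmt) (ch : ChebStmt) (T : Tate) (_hd : DescStmt)
    (hq : QuadStmt) {d d' a b : ℤ} {n : ℕ} (hc : Ctx d d' n a b) (S : HS n) (hr : S.RefDiv)
    (h : Cork d) (h' : Cork d') : ¬ IsOfFinAddOrder (S.ychi d) ∧ ¬ (Nz d ∧ Nz d') := by
  have hn := hc.nok
  obtain ⟨C1, k1, hmu⟩ := mu_bound F su ch T hc S
  obtain ⟨j0, k2, hrf⟩ := ref_bound F su ch T hc S hr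
  obtain ⟨C2, htg⟩ := tg_bound F su ch T hc S h h'
  obtain ⟨lv, l0, l1, l2⟩ : ∃ lv : ℕ → ℕ, (∀ k, k < lv k) ∧ (∀ k, k1 ≤ lv k) ∧ ∀ k, k2 ≤ lv k :=
    ⟨fun k => k + k1 + k2 + 1, by simp only; omega, by simp only; omega, by simp only; omega⟩
  have l3 : ∀ k, 1 ≤ lv k := fun k => (Nat.zero_le k).trans_lt (l0 k)
  choose lam hl using fun k => exists_Tw hq hc S (lv k)
  choose w w0 w1 w2 using fun k =>
    HS.Often.exists ch hn (hl k).adm (hmu _ (l1 k) _ (hl k)) (hrf _ (l2 k) _ (hl k))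
  choose κ κ₀ R c1 c2 c3 c4 c5 using fun k => kc S T hn (hl k)
  choose f hf using fun k e => Ideal.Quotient.mk_surjective (I := aa (lv k) (lv k))
    (κ₀ k e (fq (w k)) 1 - κ₀ k e (fq (w k)) 0)
  choose L a1 a2 a3 a4 using fun k e =>
    exists_lev F su ch hn (hl k) e (w0 k) (c1 k e) (c2 k e) (c3 k e) (hf k e)
  have o1 : ∀ k e, SOk T n (lv k) (lam k) (S.psi (lv k) (lam k) e) {w k} := fun k e =>
    (hl k).sok hn ⟨by simpa using w0 k, by simp⟩ e
  have o0 : ∀ k e, SOk T n (lv k) (lam k) (S.psi (lv k) (lam k) e) ∅ := fun k e =>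
    (o1 k e).mono (empty_subset _)
  have t2 : ∀ j, Ideal.span {(2 : Lam)} ≤ aa 1 j := fun j =>
    (Ideal.span_singleton_le_iff_mem _).2 (by simpa using two_mem_aa 1 j)
  obtain ⟨p1, C3, p2⟩ := PA.pa (GK n) (thK n) 8 lv (fun k => L k d) (fun k => L k 1) l0
    ⟨C1, fun k j hj => by
      rw [a1, (o1 k 1).card_wk (aa_le (l3 k) (.inl hj))]
      exact w1 k j hj⟩
    (fun k j hj => by
      rw [a1, a1, (o1 k 1).card_wk (aa_le (l3 k) (.inl hj)),
        (o1 k d).card_wk (aa_le (l3 k) (.inl hj))]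
      refine congrArg (fun W : Submodule Lam _ => Nat.card W) (Submodule.ext fun c => ?_)
      rw [SM, SM, mem_SR0, mem_SR0, SelB_congr fun g _ y => ?_]
      obtain ⟨y, rfl⟩ := Ideal.Quotient.mk_surjective y
      exact Ideal.Quotient.eq_zero_iff_mem.2 (Ideal.mul_mem_right _ _ (t2 j (S.psi_two d g))))
    (fun k => by
      have m := HS.N_le (w0 k).fq_mem
      obtain ⟨y, hy⟩ := Ideal.mem_span_singleton'.1 (sub_mem (c4 k d _ m 1) (c4 k d _ m 0))
      obtain ⟨y, rfl⟩ := Ideal.Quotient.mk_surjective y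
      have e1 : f k d - f k 1 - y * 2 ∈ aa (lv k) (lv k) := Ideal.Quotient.eq_zero_iff_mem.1 (by
        rw [map_sub, map_sub, map_mul, map_ofNat, hy, hf, hf]
        ring)
      have e2 : Ideal.Quotient.mk (aa 1 (lv k)) (f k d) = Ideal.Quotient.mk _ (f k 1) :=
        Ideal.Quotient.eq.2 (by
          simpa using add_mem (PA.aa_anti (l3 k) le_rfl e1)
            (t2 _ (Ideal.mul_mem_left _ y (Ideal.subset_span rfl))))
      have e3 : ∀ v b, Ideal.Quotient.mk (aa 1 (lv k)) (QQ (S.psi (lv k) (lam k) d) v b) =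
          Ideal.Quotient.mk _ (QQ (S.psi (lv k) (lam k) 1) v b) := fun v b => by
        simp only [QQ, map_sub, map_mul, Ideal.Quotient.eq.2 (t2 (lv k) (S.psi_two d _))]
      rw [← Ideal.Quotient.eq, a3, a3]
      simp only [map_mul, map_pow, e2, e3])
    ⟨j0, fun k hj => by
      have m := (w0 k).fq_mem
      obtain ⟨m, m1, m2, m3⟩ := w2 k _ _ (c5 k 1).1 ((c5 k 1).2 _ m)
      refine ⟨m, m1, fun hg => m2 ?_, by
        rwa [a1, (o1 k 1).card_wk (aa_le hj (.inl (l3 k)))]⟩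
      have e1 : ∀ v b, constantCoeff (QQ (S.psi (lv k) (lam k) 1) v b) = -4 := fun v b => by
        have := X_dvd_iff.1 (Ideal.mem_span_singleton.1 (S.psi_X (k := lv k) (hl k).adm (one_dvd _)
          rfl (hn.tm_bq v b).mem))
        rw [show chi 1 _ = 1 by simpa using chi_sq 1 _, map_sub, sub_eq_zero] at this
        rw [QQ, map_sub, map_mul, this]
        fin_cases v <;> simp [map_ofNat] <;> norm_num
      have e2 := map_dvd (PadicInt.toZModPow (lv k)) (PA.mem_aa.1 hg 0 one_pos)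
      rw [coeff_zero_eq_constantCoeff, a3] at e2
      simp only [map_mul, map_pow, e1, map_neg, map_ofNat, ← mco_ev, hf, map_sub] at e2
      convert e2 using 1
      ring⟩
    ⟨C2, fun k j hj => by
      rw [a2, (o0 k d).card_wk (aa_le hj (.inl (l3 k)))]
      exact htg _ _ (hl k) j hj⟩
  refine ⟨fun ht => p1 ?_, fun ⟨z, z'⟩ => ?_⟩
  · obtain ⟨N, N0, hN⟩ := isOfFinAddOrder_iff_nsmul_eq_zero.1 ht
    obtain ⟨r, M, hM, rfl⟩ := Nat.exists_eq_two_pow_mul_odd N0.ne'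
    refine ⟨r, fun k σ hσ i => mco_ker ?_⟩
    obtain ⟨s1, s2⟩ := a4 k d σ hσ
    have e1 : (σ : Gam) • (2 ^ r * M) • R k d = (2 ^ r * M) • R k d := mco_fix s1 (by
      rw [smul_comm, (c5 k d).1, smul_comm, hN, smul_zero])
    have e2 := T.inj (lv k) (a₁ := (2 ^ r * M) • fun i => evk _ (κ₀ k d σ i)) (a₂ := 0) (by
      rw [map_nsmul, (c5 k d).2 _ s1, smul_sub, smul_comm, e1, sub_self, map_zero])
    have e3 : (M : ZMod (2 ^ lv k)) * (2 ^ r * evk _ (κ₀ k d σ i)) = 0 := by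
      have := congrFun e2 i
      simp only [Pi.smul_apply, nsmul_eq_mul, Pi.zero_apply] at this
      push_cast at this
      linear_combination this
    have e4 := ((ZMod.isUnit_iff_coprime M _).2
      ((Nat.coprime_two_right.2 hM).pow_right _)).mul_right_eq_zero.1 e3
    rw [s2, Pi.smul_apply, nsmul_eq_mul, map_mul, map_mul, map_pow, map_ofNat, mul_left_comm, e4,
      mul_zero]
  · obtain ⟨C4, hz⟩ := nz_bound F su ch T hc S z z'
    obtain ⟨j, hj⟩ := mco_pow (C4 * C3)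
    obtain ⟨k, q1, q2⟩ := p2 j
    rw [a2, (o0 k d).card_wk (aa_le q1 (.inl (l3 k)))] at q2
    exact hj ((hz _ _ (hl k) j q1).trans (mul_assoc C4 _ _ ▸ Nat.mul_le_mul_left _ q2))

end Pool.Agent.Lib.MP_696deb_nt.B2
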