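import Pool.Agent.Lib.MP_696deb_nt.B2.D1b
import Pool.Agent.Lib.MP_696deb_nt.B2.MLK
import Pool.Agent.Lib.MP_696deb_nt.B2.FIa
import Pool.Agent.Lib.MP_696deb_nt.B2.FIb

set_option autoImplicit false

open scoped Classical
open NumberTheorySymbols

namespace Pool.Agent.Lib.MP_696deb_nt.B2

theorem fi_finrank {d : ℤ} (hd : d ≠ 0) (h : Cork d) (hz : ¬ Nz d) :
    Module.finrank ℤ (twist15 d).toAffine.Point = 0 := by
  have := (m_rank hd h).1
  obtain ⟨f, f1, f2⟩ := m_pts hd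
  rw [← finite_iff_finrank]
  refine Module.finite_of_fg_torsion _ (isAddTorsion_iff_isTorsion_int.mp fun P => ?_)
  by_contra k
  exact hz ((m_nz hd h).mpr ⟨f P, mt f1.isOfFinAddOrder_iff.mp k, (f2 _).mp ⟨P, rfl⟩⟩)

theorem fi_cls {A B : ℕ} {r : ℤ} (hn : Good (A * B)) (hr : 60 ∣ r ^ 2 + (A * B : ℕ))
    (hB : B % 60 = 11 ∨ B % 60 = 59) : A % 60 = 1 ∨ A % 60 = 49 := by
  have h1 := (GInd.jac15_iff (by have := hn.mod4; omega) hn.cop).not.mp
    (by rw [TYZ.jac15 hn hr]; decide)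
  have h2 := (GInd.jac15_iff (Nat.odd_iff.mp hn.adm_left.odd) hn.adm_left.cop).mp
    (GkV.jac_left hn hr ((GInd.jac15_cases hn.adm_right.cop).resolve_left
      ((GInd.jac15_iff (by omega) hn.adm_right.cop).not.mpr (by omega))))
  have h4 := hn.mod4
  have h3 : ¬ (A * B) % 3 = 1 := fun k => by
    have : r ^ 2 % 3 = 0 ∨ r ^ 2 % 3 = 1 := by
      have : r % 3 = 0 ∨ r % 3 = 1 ∨ r % 3 = 2 := by omega
      rcases this with h | h | h <;> simp [pow_two, Int.mul_emod, h]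
    omega
  rw [Nat.mul_mod, show B % 4 = 3 by omega] at h4
  rw [Nat.mul_mod, show B % 3 = 2 by omega] at h3
  omega

theorem m_final {d d' a b : ℤ} {n : ℕ} (h0 : Cls0 d)
    (h2 : J(-15 | d.natAbs) = 1 ∨ d < 0 ∧ (d % 60 = 1 ∨ d % 60 = 49)) (hc : Ctx d d' n a b) {r : ℤ}
    (hr : 60 ∣ r ^ 2 + n) (S : HS n) (hL : S.Link r) (h : Cork d) (h' : Cork d')
    (hy : ¬ IsOfFinAddOrder (S.ychi d)) (hz : ¬ (Nz d ∧ Nz d')) :
    BSD (-12987 * d ^ 2) (-263466 * d ^ 3) (if J(-15 | d.natAbs) = 1 then 0 else 1) := by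
  have hn := hc.nok.good
  have d4 := h0.m4
  have hm := hc.mul
  have n4 := hn.mod4
  have d4' : d' % 4 = 1 := by
    have := Int.mul_emod d d' 4
    rw [hm, d4] at this
    omega
  have d0 : d ≠ 0 := by omega
  have e : d.natAbs * d'.natAbs = n := by rw [← Int.natAbs_mul, hm]; simp
  obtain ⟨T, hT⟩ := exists_freps hn.neg r
  have k := fi_link hL hT ⟨-d', by rw [mul_neg, hm, neg_neg]⟩ d4 hy
  obtain ⟨hf, hle⟩ := m_rank d0 h
  split_ifs with hJ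
  · have hB : J(-15 | d'.natAbs) = -1 := by
      have := TYZ.jac15 hn hr
      rwa [← e, jacobiSym.mul_right' _ (by omega) (by omega), hJ, one_mul] at this
    have hs : hP d.natAbs T = hP d'.natAbs T := Finset.sum_congr rfl fun Q hQ => by
      rw [gch_swap (e ▸ hn.sqf) (e ▸ hn.adm.odd) (.inr ⟨e ▸ (hT.fam Q hQ).2.1, hT.pos Q hQ⟩)]
    have hz' := (m_nz (by omega) h').mpr (fi_nz hn hm d4 d4' hL hT hB hs hy)
    subst e
    refine fi_rank_zero h0.sqf d4 ?_ hf (fi_finrank d0 h fun k => hz ⟨k, hz'⟩)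
    by_cases h1 : d.natAbs = 1
    · rw [h1, perA, Finset.sum_range_one, (by simp :
        ((J(((0 : ℕ) : ℤ) | 1) : ℤ) : ℂ) * ms ((0 : ℕ) : ℤ) ((1 : ℕ) : ℤ) = ms 0 1), ms_zero_one]
      exact_mod_cast ms_zero_one_pos.ne'
    · exact fi_per hn hr hT hB (by omega) (hs ▸ k)
  obtain ⟨d1, d2⟩ := h2.resolve_left hJ
  obtain ⟨B, rfl⟩ : ∃ B : ℕ, d = -B := ⟨d.natAbs, by omega⟩
  rw [Int.natAbs_neg, Int.natAbs_natCast] at e k
  rw [show -12987 * (-B : ℤ) ^ 2 = -12987 * (B : ℤ) ^ 2 by ring,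
    show -263466 * (-B : ℤ) ^ 3 = 263466 * (B : ℤ) ^ 3 by ring]
  generalize d'.natAbs = A at e
  rw [mul_comm] at e
  subst e
  have hb : Good B := ⟨hn.adm_right.sqf, by omega, hn.adm_right.cop⟩
  rcases eq_or_lt_of_le (show 1 ≤ A from hn.adm_left.odd.pos) with rfl | a1
  · rw [one_mul] at hr hT
    exact fi_rank_one hb hr hT (hP_full hb hT ▸ k) hf hle
  obtain ⟨ρ, -, T', k1, k2, k3, -⟩ := fi_one hn hr hT a1 (fi_cls hn hr (by omega)) k
  exact fi_rank_one hb k1 k2 k3 hf hle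

end Pool.Agent.Lib.MP_696deb_nt.B2
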