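import Pool.Agent.Lib.MP_696deb_nt.B2.FI0
import Pool.Agent.Lib.MP_696deb_nt.B2.GZd
import Pool.Agent.Lib.MP_696deb_nt.B2.GZf

set_option autoImplicit false

open scoped Classical
open Finset NumberTheorySymbols

namespace Pool.Agent.Lib.MP_696deb_nt.B2

theorem m_nv {d d' a b : ℤ} {n : ℕ} (h0 : Cls0 d) (hJ : J(-15 | d.natAbs) = 1)
    (hc : Ctx d d' n a b) {r : ℤ} (hr : 60 ∣ r ^ 2 + n) (S : HS n) (hL : S.Link r) (hy : ¬ IsOfFinAddOrder (S.ychi d)) :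
    NV d.natAbs := by
  obtain ⟨e, h1, ⟨T, hT, -, h2⟩, -⟩ := fi_split h0 hc hr S hL hy
  exact ⟨_, r, T, e ▸ hc.nok.good, by rwa [hJ, one_mul] at h1, e ▸ hr, e ▸ hT, h2⟩

theorem m_final2 (hS : SmithStmt)
    (hN : ∀ d : ℤ, Cls0 d → J(-15 | d.natAbs) = 1 → Cork d → NV d.natAbs)
    {d d' a b : ℤ} {n : ℕ} (h0 : Cls0 d) (hJ : J(-15 | d.natAbs) = -1)
    (h2 : ¬ (d < 0 ∧ (d % 60 = 1 ∨ d % 60 = 49))) (hc : Ctx d d' n a b) {r : ℤ}
    (hr : 60 ∣ r ^ 2 + n) (S : HS n) (hL : S.Link r) (h : Cork d)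
    (hy : ¬ IsOfFinAddOrder (S.ychi d)) : BSD (-12987 * d ^ 2) (-263466 * d ^ 3) 1 := by
  obtain ⟨e, -, ⟨T, hT, h3, -⟩, h4⟩ := fi_split h0 hc hr S hL hy
  have d0 := h0.sqf.ne_zero
  obtain ⟨hf, hle⟩ := m_rank d0 h
  obtain ⟨P, hP1, hP2⟩ := h4 hJ
  obtain ⟨f, -, hf2⟩ := m_pts d0
  obtain ⟨Q, rfl⟩ := (hf2 P).2 hP2
  have hn := hc.nok.good
  rw [mul_comm] at e
  have h12 : d'.natAbs % 12 ≠ 1 := fun k => h2 (by
    have m4 := hn.mod4
    have d4 := h0.m4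
    obtain ⟨r3, r5⟩ := Gal.not_dvd_r hn hr
    have n3 : n % 3 = 2 := by
      have : r % 3 = 1 ∨ r % 3 = 2 := by omega
      have : r ^ 2 % 3 = 1 := by rcases this with e | e <;> rw [pow_two, Int.mul_emod, e] <;> rfl
      omega
    have k4 : d.natAbs % 4 = 3 := by
      rw [e, Nat.mul_mod, show d'.natAbs % 4 = 1 by omega] at m4
      omega
    have k3 : d.natAbs % 3 = 2 := by
      rw [e, Nat.mul_mod, show d'.natAbs % 3 = 1 by omega] at n3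
      omega
    have k5 := mt (GInd.jac15_iff (n := d.natAbs) (by omega)
      (e ▸ hn.cop : (d'.natAbs * d.natAbs).Coprime 15).coprime_mul_left).2 (by rw [hJ]; decide)
    have k6 := h0.m5
    have k7 : d = -(d.natAbs : ℤ) := by omega
    generalize d.natAbs = N at k3 k4 k5 k7
    subst k7
    clear * - k3 k4 k5 k6
    have : N % 5 = 1 ∨ N % 5 = 4 := by omega
    omega)
  subst e
  exact bsd_of_deriv2 h0.sqf h0.m4 h0.m3 h0.m5 hJ
    (gz2 hn hJ h12 hr hT h3 (aux2_of hS hN hn hJ hr)) hf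
    (le_antisymm hle (RankOne.one_le_finrank fun k => hP1 (f.isOfFinAddOrder k)))

end Pool.Agent.Lib.MP_696deb_nt.B2
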