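import Pool.Agent.Lib.MP_696deb_nt.B2.RF0
import Pool.Agent.Lib.MP_696deb_nt.B2.Red0
import Pool.Agent.Lib.MP_696deb_nt.Final
import Pool.Agent.Lib.MP_696deb_nt.HRank

/-! The bound for the divisibility by two of the Heegner point. -/

set_option autoImplicit false

open scoped Classical
open Finset NumberTheorySymbols WeierstrassCurve AddCommGroup Pool.Agent.Shared.Weier

namespace Pool.Agent.Lib.MP_696deb_nt

open TYZ in
theorem not_mem_HH {n : ℕ} {r : ℤ} {R : Finset Fm} (hn : Good n) (hB : CondB n)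
    (hr : 60 ∣ r ^ 2 + n) (hR : HReps (-n) r R) :
    4 • u1 (HP n ∅ R) ∉ HH #n.primeFactors := fun h3 => by
  have hG := Gal.galData
  have hT : ∀ P ∈ Nab W1, ∀ j : ℕ, 2 ^ j • P = 0 → ∃ k : ℤ, P = k • T1 := fun _ h => nab_tors h
  obtain ⟨p, hp⟩ := Nat.nonempty_primeFactors.mpr (show 1 < n by have := hn.mod4; omega)
  have h0 : Sgn n fun _ => 1 := ⟨by simp, by simp⟩
  have h1 := (hG.g1 n r R _ _ hn hR h0 h0).2
  obtain ⟨τ, U, u2, u4, hU⟩ := hG.g2 n r R _ hn hB hr hR h0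
  have h2 := sum_all hG hn hR hp
  rw [← add_sum_erase _ _ (empty_mem_powerset _)] at h2
  obtain ⟨a, ha, P, hP, h4⟩ : ∃ a : ℤ, Odd a ∧ ∃ P ∈ Nab W1,
      a • (4 • Zg n R fun _ => 1) - 2 • P ∈ torsion (Pt W1 ℂ) := by
    have h5 : 4 • ∑ T ∈ (n.primeFactors.erase p).powerset.erase ∅,
        u1 (HP n T R) ∈ HH #n.primeFactors := by
      rw [smul_sum]
      refine sum_mem fun T hT => ?_
      have h4 := mem_powerset.mp (mem_of_mem_erase hT)
      exact claim hG vData n r R hn hr hR T (h4.trans (erase_subset _ _)) (ne_of_mem_erase hT)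
        fun h => notMem_erase _ _ (h4 (h ▸ hp))
    obtain ⟨a, ha, P, hP, h4⟩ := add_mem h3 h5
    refine ⟨a, ha, P, hP, IsOfFinAddOrder.of_nsmul (n := 2 ^ #(n.primeFactors.erase p)) ?_
      (by positivity)⟩
    rw [← smul_add, h2, ← card_erase_add_one hp, pow_succ] at h4
    change _ ∈ torsion (Pt W1 ℂ)
    convert h4 using 1
    rw [← natCast_zsmul]
    push_cast
    module
  generalize (4 • Zg n R fun _ => 1) = Z at *
  have h5 := sub_mem (zsmul_mem h1 a) (nsmul_mem hP 2)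
  obtain ⟨m, hm, i, hi⟩ := exists_odd hT h5 h4
  have h6 : (m * a) • U = 2 • (m • (pmap (τ : ℂ →+* ℂ) P + P) + i • T1) := by
    have := congr_arg (pmap (τ : ℂ →+* ℂ)) hi
    simp only [map_zsmul, map_sub, map_nsmul, pmap_T1] at this
    rw [← hU]
    linear_combination (norm := module) this + hi
  obtain ⟨m', hm', j, hj⟩ := exists_odd hT (P := m • (pmap (τ : ℂ →+* ℂ) P + P) + i • T1)
    (add_mem (zsmul_mem (add_mem (pmap_mem τ hP) hP) _)
      (zsmul_mem (show T1 ∈ Nab W1 from ⟨1, by norm_num, fun σ _ => pmap_T1 _⟩) _))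
    (IsOfFinAddOrder.of_nsmul (n := 2) (h6 ▸ (isOfFinAddOrder_iff_nsmul_eq_zero.mpr
      ⟨4, by norm_num, u4⟩).zsmul) two_ne_zero)
  obtain ⟨c, hc⟩ := hm'.mul (hm.mul ha)
  have h7 : (m' * (m * a)) • U = 2 • j • T1 := by rw [mul_smul, h6, smul_comm, hj]
  rw [hc] at h7
  refine u2 ?_
  linear_combination (norm := module) 2 • h7 - c • u4 + j • four_T1

/-- The function whose square is the first coordinate on the isogenous curve. -/
noncomputable def rfG (Q : Pt W1 ℂ) : ℂ := (2 * yco Q + xco Q + 1) / (xco Q + 1)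

/-- A second function that changes sign under the translation. -/
noncomputable def rfR (Q : Pt W1 ℂ) : ℂ := 4 * (xco Q + 1) - 4 / (xco Q + 1)

theorem rfG_pmap (σ : ℂ →+* ℂ) (Q : Pt W1 ℂ) : rfG (pmap σ Q) = σ (rfG Q) := by
  simp [rfG, map_ofNat]

theorem rfR_pmap (σ : ℂ →+* ℂ) (Q : Pt W1 ℂ) : rfR (pmap σ Q) = σ (rfR Q) := by
  simp [rfR, map_ofNat]

theorem rf_eq {Q : Pt W1 ℂ} (h0 : Q ≠ 0) (h1 : xco Q + 1 ≠ 0) :
    8 * (xco Q + 1) = rfG Q ^ 2 + 7 + rfR Q ∧ 2 * yco Q + xco Q + 1 = rfG Q * (xco Q + 1) ∧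
      rfR Q ^ 2 = (rfG Q ^ 2 - 1) * (rfG Q ^ 2 + 15) := by
  rcases Q with _ | ⟨x, y, h⟩
  · exact absurd rfl h0
  have e := (W1_nonsingular _ _).mp h
  simp only [rfG, rfR, xco_some, yco_some] at h1 ⊢
  have e1 : ((2 * y + x + 1) / (x + 1)) ^ 2 = 4 * (x + 1) - 7 + 4 / (x + 1) := by
    field_simp
    linear_combination 4 * e
  refine ⟨by rw [e1]; ring, by field_simp, by rw [e1]; field_simp; ring⟩

theorem rf_ext {Q Q' : Pt W1 ℂ} (h0 : Q ≠ 0) (h1 : xco Q + 1 ≠ 0) (k0 : Q' ≠ 0)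
    (k1 : xco Q' + 1 ≠ 0) (e1 : rfG Q = rfG Q') (e2 : rfR Q = rfR Q') : Q = Q' := by
  obtain ⟨a1, a2, -⟩ := rf_eq h0 h1
  obtain ⟨b1, b2, -⟩ := rf_eq k0 k1
  rw [e1] at a1 a2
  rw [e2] at a1
  have x : xco Q = xco Q' := by linear_combination (a1 - b1) / 8
  have y : yco Q = yco Q' := by rw [x] at a2; linear_combination (a2 - b2) / 2
  rcases Q with _ | ⟨_, _, _⟩
  · exact absurd rfl h0
  rcases Q' with _ | ⟨_, _, _⟩
  · exact absurd rfl k0
  exact IsPer.some_congr x y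

theorem rf_add {Q : Pt W1 ℂ} (h0 : Q ≠ 0) (h1 : xco Q + 1 ≠ 0) :
    Q + 2 • T1 ≠ 0 ∧ xco (Q + 2 • T1) + 1 ≠ 0 ∧ rfG (Q + 2 • T1) = -rfG Q ∧
      rfR (Q + 2 • T1) = -rfR Q := by
  rcases Q with _ | ⟨x, y, h⟩
  · exact absurd rfl h0
  have e := (W1_nonsingular _ _).mp h
  simp only [xco_some] at h1
  have hx : x ≠ -1 := fun k => h1 (by rw [k]; ring)
  rw [two_T1, Affine.Point.add_of_X_ne hx]
  have e1 : (W1.baseChange ℂ).toAffine.addX x (-1) ((W1.baseChange ℂ).toAffine.slope x (-1) y 0) =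
      -x / (x + 1) := by
    rw [Affine.slope_of_X_ne hx]
    simp only [Affine.addX, W1, baseChange, map_a₁, map_a₂, map_one, sub_neg_eq_add, sub_zero]
    field_simp
    linear_combination e
  have e2 : (W1.baseChange ℂ).toAffine.addY x (-1) y
      ((W1.baseChange ℂ).toAffine.slope x (-1) y 0) = -(x + y + 1) / (x + 1) ^ 2 := by
    rw [Affine.addY, Affine.negAddY, Affine.negY, e1, Affine.slope_of_X_ne hx]
    simp only [W1, baseChange, map_a₁, map_a₃, map_one, sub_neg_eq_add, sub_zero]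
    field_simp
    ring
  have e3 : -x / (x + 1) + 1 = 1 / (x + 1) := by field_simp; ring
  refine ⟨Affine.Point.some_ne_zero _, ?_, ?_, ?_⟩ <;>
    simp only [rfG, rfR, xco_some, yco_some, e1, e2, e3]
  · simpa using h1
  · field_simp
    ring
  · field_simp
    ring

theorem rf_move {Q : Pt W1 ℂ} (h0 : Q ≠ 0) (h1 : xco Q + 1 ≠ 0) (σ : ℂ →+* ℂ) (a : ZMod 2)
    (e1 : σ (rfG Q) = (-1) ^ a.val * rfG Q) (e2 : σ (rfR Q) = (-1) ^ a.val * rfR Q) :
    pmap σ Q = Q + a.val • 2 • T1 := by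
  have k0 : pmap σ Q ≠ 0 := fun k => h0 (pmap_injective σ (k.trans (map_zero _).symm))
  have k1 : xco (pmap σ Q) + 1 ≠ 0 := by simpa using (map_ne_zero σ).2 h1
  rw [← rfG_pmap] at e1
  rw [← rfR_pmap] at e2
  rcases B2.mu1_or a with rfl | rfl
  · simpa using rf_ext k0 k1 h0 h1 (by simpa using e1) (by simpa using e2)
  · obtain ⟨b0, b1, b2, b3⟩ := rf_add h0 h1
    simpa [ZMod.val_one] using rf_ext k0 k1 b0 b1 (by simpa [b2, ZMod.val_one] using e1)
      (by simpa [b3, ZMod.val_one] using e2)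

theorem rf_tors {c : ℤ} (hc : c = 5 ∨ c = -3) {s : ℂ} (hs : s ^ 2 = c) :
    ∃ t ∈ torsion (Pt W1 ℂ), ∀ (σ : ℂ →+* ℂ) (a : ZMod 2), σ s = (-1) ^ a.val * s →
      pmap σ t = t + a.val • 2 • T1 := by
  obtain ⟨x, hx⟩ : ∃ x, x = (c - 1 + 4 * s) / 8 := ⟨_, rfl⟩
  have h1 : (x + 1) * (c + 7 - 4 * s) = 8 := by
    rcases hc with rfl | rfl <;> push_cast at hs hx ⊢ <;> rw [hx] <;> linear_combination (-2) * hs
  have h2 : x + 1 ≠ 0 := fun k => by rw [k] at h1; norm_num at h1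
  have h3 : (W1.baseChange ℂ).toAffine.Nonsingular x ((s - 1) * (x + 1) / 2) := by
    rw [W1_nonsingular]
    rcases hc with rfl | rfl <;> push_cast at hs hx <;> rw [hx]
    · linear_combination (s ^ 2 / 16 + s / 4 + 3 / 16) * hs
    · linear_combination (s ^ 2 / 16 - 1 / 16) * hs
  have h4 : dup1 (W1.baseChange ℂ) x = 0 := by
    rw [dup1_W1]
    rcases hc with rfl | rfl <;> push_cast at hs hx
    · rw [show x ^ 2 - x - 1 = 0 by rw [hx]; linear_combination hs / 4, zero_mul]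
    · rw [show x ^ 2 + x + 1 = 0 by rw [hx]; linear_combination hs / 4, mul_zero]
  have g : rfG (.some _ _ h3) = s := by
    simp only [rfG, xco_some, yco_some]
    field_simp
    ring
  have r : rfR (.some _ _ h3) = 4 * s := by
    rw [rfR, xco_some, show 4 / (x + 1) = (c + 7 - 4 * s) / 2 by
      rw [div_eq_iff h2]; linear_combination -h1 / 2, hx]
    ring
  refine ⟨.some _ _ h3, ?_, fun σ a h => rf_move (Affine.Point.some_ne_zero _) h2 σ a
    (by rw [g, h]) (by rw [r, map_mul, h, map_ofNat]; ring)⟩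
  obtain ⟨k, hk⟩ := mem_of_xco (P := 2 • .some _ _ h3) (.inl (by rw [xco_two_nsmul, h4, zero_div]))
  exact IsOfFinAddOrder.of_nsmul (n := 2)
    (hk ▸ (isOfFinAddOrder_iff_nsmul_eq_zero.mpr ⟨4, by norm_num, four_T1⟩).zsmul) two_ne_zero

namespace B2

theorem exists_res (σ : ℂ ≃+* ℂ) : ∃ g : Gam, ∀ x, jC (g x) = σ (jC x) := by
  let j : Qbar →ₐ[ℚ] ℂ := IsAlgClosed.lift
  let _ : Algebra Qbar ℂ := j.toRingHom.toAlgebra
  have : IsScalarTower ℚ Qbar ℂ := IsScalarTower.of_algebraMap_eq fun q => (j.commutes q).symm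
  let s : ℂ ≃ₐ[ℚ] ℂ := AlgEquiv.ofRingEquiv (f := σ) fun q => by simp
  exact ⟨s.restrictNormal Qbar, fun x => AlgEquiv.restrictNormal_commutes s Qbar x⟩

theorem xi_val (c : ℤ) (g : Gam) : g (rt c) = (-1) ^ (xi c g).val * rt c :=
  sg_spec (by rw [rt_sq, map_intCast])

theorem ref_div {n : ℕ} {r : ℤ} {R : Finset Fm} (hn : Good n) (hB : CondB n)
    (hr : 60 ∣ r ^ 2 + n) (hR : HReps (-n) r R)
    (nr : ∀ c ∈ ({-3, 5, -15} : Finset ℤ), ∃ q : ℕ, q.Prime ∧ q ∣ n ∧ J(c | q) = -1)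
    {P : EE} (hP : ∀ g ∈ GK n, g • P = P) : ¬ IsOfFinAddOrder
      (∑ Q ∈ R, pt (froot Q) - 2 ^ (n.primeFactors.card - 1) • pmap jC P) := fun h => by
  have hD := hn.neg
  obtain ⟨z, hz⟩ := Unif.u15_surjective (pmap jC P)
  have hj := jC.injective
  obtain ⟨δ, d1, d2⟩ : ∃ δ : Qbar, jC δ = Gal.del (-n) ∧ ∀ g : Gam, g ∈ GK n ↔ g δ = δ := by
    have : jC (rt (-n)) ^ 2 = Gal.del (-n) ^ 2 := by
      rw [← map_pow, rt_sq, Gal.del_sq hD, map_intCast]
    rcases sq_eq_sq_iff_eq_or_eq_neg.1 this with e | e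
    · exact ⟨_, e, fun g => B4c_mem.trans chi_eq_one⟩
    · exact ⟨-rt (-n), by rw [map_neg, e, neg_neg], fun g => by
        rw [map_neg, neg_inj]; exact B4c_mem.trans chi_eq_one⟩
  have mv : ∀ σ : ℂ ≃+* ℂ, σ (Gal.del (-n)) = Gal.del (-n) →
      ∃ k : ℤ, pmap (σ : ℂ →+* ℂ) (2 • u1 z) = 2 • u1 z + k • 2 • MP_696deb_nt.T1 := fun σ hσ => by
    obtain ⟨g, hg⟩ := exists_res σ
    obtain ⟨z', hz'⟩ := isPer1.unif_surjective (pmap (σ : ℂ →+* ℂ) (u1 z))
    have k1 := Gal.pmap_u15 (σ := σ) (z := z) (z' := z') hz'.symm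
    rw [hz, pmap_pmap, show (σ : ℂ →+* ℂ).comp jC = jC.comp g from RingHom.ext fun x => (hg x).symm,
      ← pmap_pmap, ← smul_pt, hP g ((d2 g).2 (hj (by rw [hg, d1, hσ]))), ← hz, eq_comm,
      Unif.u15_eq_iff] at k1
    obtain ⟨k2, k3⟩ := Gal.u1_L15 k1
    obtain ⟨k, hk⟩ := nab_tors ⟨1, by norm_num, fun σ _ => k3 σ⟩ 2 k2
    refine ⟨k, ?_⟩
    rw [map_nsmul, ← hz', smul_comm k, ← hk, map_sub]
    change 2 • u1 z' = _
    module
  have key : ∃ t ∈ torsion (Pt W1 ℂ), 2 • u1 z - t ∈ Nab W1 := by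
    generalize 2 • u1 z = Q at mv
    by_cases tq : Q ∈ torsion (Pt W1 ℂ)
    · exact ⟨Q, tq, by simp⟩
    have t1 : MP_696deb_nt.T1 ∈ torsion (Pt W1 ℂ) :=
      isOfFinAddOrder_iff_nsmul_eq_zero.mpr ⟨4, by norm_num, four_T1⟩
    have h0 : Q ≠ 0 := fun k => tq (k ▸ zero_mem _)
    have h1 : xco Q + 1 ≠ 0 := fun k => by
      obtain ⟨i, hi⟩ := mem_of_xco (.inr (eq_neg_of_add_eq_zero_left k))
      exact tq (hi ▸ zsmul_mem t1 i)
    obtain ⟨-, a2, a3⟩ := rf_eq h0 h1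
    obtain ⟨b0, b1, b2, b3⟩ := rf_add h0 h1
    have g0 : rfG Q ≠ 0 := fun k => by
      rcases Q with _ | ⟨x, y, hq⟩
      · exact h0 rfl
      refine tq (isOfFinAddOrder_iff_nsmul_eq_zero.mpr ⟨2, two_pos, two_nsmul_eq_zero hq ?_⟩)
      have e := (W1_nonsingular _ _).mp hq
      rw [k, zero_mul, xco_some, yco_some] at a2
      rw [dup2_W1]
      linear_combination (2 * y + x + 1) * a2 - 4 * e
    have fx : ∀ σ : ℂ ≃+* ℂ, σ (Gal.del (-n)) = Gal.del (-n) →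
        σ (rfG Q ^ 2) = rfG Q ^ 2 ∧ σ (rfG Q * rfR Q) = rfG Q * rfR Q := fun σ hσ => by
      obtain ⟨k, hk⟩ := mv σ hσ
      have e1 := rfG_pmap σ Q
      have e2 := rfR_pmap σ Q
      rw [RingHom.coe_coe] at e1 e2
      rw [map_pow, map_mul, ← e1, ← e2, hk]
      obtain ⟨i, rfl | rfl⟩ := Int.even_or_odd' k
      · rw [show (2 * i) • 2 • MP_696deb_nt.T1 = 0 by
          linear_combination (norm := module) i • four_T1, add_zero]
        exact ⟨rfl, rfl⟩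
      · rw [show (2 * i + 1) • 2 • MP_696deb_nt.T1 = 2 • MP_696deb_nt.T1 by
          linear_combination (norm := module) i • four_T1, b2, b3]
        exact ⟨by ring, by ring⟩
    have lift : ∀ x : ℂ, (∀ σ : ℂ ≃+* ℂ, σ (Gal.del (-n)) = Gal.del (-n) → σ x = x) →
        ∃ y, Fx (GK n) y ∧ jC y = x := fun x hx => by
      obtain ⟨a, b, e⟩ := Gal.exists_rat hD hx
      exact ⟨a + b * δ, fun g hg => by simp [(d2 g).1 hg], by simp [e, d1]⟩
    obtain ⟨u, u1, u2⟩ := lift _ fun σ hσ => (fx σ hσ).1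
    obtain ⟨v, v1, v2⟩ := lift _ fun σ hσ => (fx σ hσ).2
    obtain ⟨g, g1, g2⟩ : ∃ g : Qbar, g ^ 2 = u ∧ jC g = rfG Q := by
      obtain ⟨g, hg⟩ := IsAlgClosed.exists_pow_nat_eq u two_pos
      rcases sq_eq_sq_iff_eq_or_eq_neg.1 (show jC g ^ 2 = rfG Q ^ 2 by rw [← map_pow, hg, u2])
        with e | e
      · exact ⟨g, hg, e⟩
      · exact ⟨-g, by rw [neg_sq, hg], by rw [map_neg, e, neg_neg]⟩
    have g3 : g ≠ 0 := fun k => g0 (by rw [← g2, k, map_zero])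
    have r1 : jC (v / g) = rfR Q := by rw [map_div₀, v2, g2, mul_div_cancel_left₀ _ g0]
    have r2 : g * (v / g) = v := mul_div_cancel₀ _ g3
    obtain ⟨c₀, c, c1, c2, c3, c4⟩ := kum_fifteen hn.sqf hn.mod4 hn.cop nr g1 (r := v / g)
      (hj (by simp only [map_pow, r1, a3, map_mul, map_sub, map_add, u2, map_one, map_ofNat])) g3 u1
      (r2.symm ▸ v1)
    have act : ∀ σ : ℂ ≃+* ℂ, (∀ ζ : ℂ, ζ ^ n = 1 → σ ζ = ζ) → ∀ s : Gam,
        (∀ x, jC (s x) = σ (jC x)) →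
        pmap (σ : ℂ →+* ℂ) Q = Q + (xi c₀ s).val • 2 • MP_696deb_nt.T1 := fun σ hσ s hs => by
      have k1 : s ∈ GK n := (d2 s).2 (hj (by
        simpa [hs, d1] using Gal.aut_del (σ := σ) hn (κ := 1) fun ζ e => by simpa using hσ ζ e))
      have k2 : xi c s = 0 := by
        have o : Odd c.natAbs := Int.natAbs_odd.2 (Int.odd_iff.2 (by omega))
        have d : c.natAbs ∣ n := Int.natAbs_dvd_natAbs.2 c2
        have := Gal.aut_sqrt o (hn.sqf.squarefree_of_dvd d) (σ := σ) (a := 1) (x := jC (rt c))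
          (fun ζ e => by
            obtain ⟨i, hi⟩ := d
            simpa using hσ ζ (by rw [hi, pow_mul, e, one_pow])) (by
            rw [← map_pow, rt_sq, map_intCast, jacobiSym.at_neg_one o]
            have : c = ZMod.χ₄ (c.natAbs : ZMod 4) * (c.natAbs : ℤ) := by
              rcases Int.natAbs_eq c with e | e
              · rw [ZMod.χ₄_nat_one_mod_four (by omega)]; omega
              · rw [ZMod.χ₄_nat_three_mod_four (by omega)]; omega
            exact (congrArg (Int.cast : ℤ → ℂ) this).trans (by rw [Int.cast_mul, Int.cast_natCast]))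
        exact xi_eq_zero.2 (chi_eq_one.2 (hj (by simpa [hs] using this)))
      have k3 := sg_spec (σ := s) (x := g) (g1 ▸ u1 s k1)
      rw [c4 s k1, k2, add_zero] at k3
      have k4 : s (v / g) = (-1) ^ (xi c₀ s).val * (v / g) := by
        rw [map_div₀, v1 s k1, k3]
        rcases mu1_or (xi c₀ s) with e | e <;> simp [e, ZMod.val_one, div_neg]
      refine rf_move h0 h1 _ _ ?_ ?_
      · rw [RingHom.coe_coe, ← g2, ← hs, k3]; simp
      · rw [RingHom.coe_coe, ← r1, ← hs, k4]; simp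
    have tt : ∀ c : ℤ, c = 5 ∨ c = -3 → ∃ t ∈ torsion (Pt W1 ℂ), ∀ (σ : ℂ ≃+* ℂ) (s : Gam),
        (∀ x, jC (s x) = σ (jC x)) →
        pmap (σ : ℂ →+* ℂ) t = t + (xi c s).val • 2 • MP_696deb_nt.T1 := fun c hc => by
      obtain ⟨t, k1, k2⟩ := rf_tors hc (s := jC (rt c)) (by rw [← map_pow, rt_sq, map_intCast])
      exact ⟨t, k1, fun σ s hs => k2 _ _ (by rw [RingHom.coe_coe, ← hs, xi_val]; simp)⟩
    obtain ⟨t, k1, k2⟩ : ∃ t ∈ torsion (Pt W1 ℂ), ∀ (σ : ℂ ≃+* ℂ) (s : Gam),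
        (∀ x, jC (s x) = σ (jC x)) →
        pmap (σ : ℂ →+* ℂ) t = t + (xi c₀ s).val • 2 • MP_696deb_nt.T1 := by
      simp only [mem_insert, mem_singleton] at c1
      rcases c1 with rfl | rfl | rfl | rfl
      · exact ⟨0, zero_mem _, fun σ s _ => by simp [xi_one]⟩
      · exact tt _ (.inr rfl)
      · exact tt _ (.inl rfl)
      · obtain ⟨t, k1, k2⟩ := tt _ (.inr rfl)
        obtain ⟨t', k3, k4⟩ := tt _ (.inl rfl)
        refine ⟨t + t', add_mem k1 k3, fun σ s hs => ?_⟩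
        rw [map_add, k2 σ s hs, k4 σ s hs, show (-15 : ℤ) = -3 * 5 by norm_num,
          xi_mul (by norm_num) (by norm_num)]
        rcases mu1_or (xi (-3) s) with e | e <;> rcases mu1_or (xi 5 s) with e' | e' <;>
          simp only [e, e', ZMod.val_one, ZMod.val_zero, mu1_two, zero_add, add_zero]
        · module
        · module
        · module
        · linear_combination (norm := module) four_T1
    refine ⟨t, k1, n, hn.cop30, fun σ hσ => ?_⟩
    obtain ⟨s, hs⟩ := exists_res σ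
    rw [map_sub, act σ hσ s hs, k2 σ s hs, add_sub_add_right_eq_sub]
  obtain ⟨t, t1, t2⟩ := key
  obtain ⟨p, hp⟩ := Nat.nonempty_primeFactors.mpr (show 1 < n by have := hn.mod4; omega)
  obtain ⟨j, hj'⟩ : ∃ j, n.primeFactors.card = j + 1 :=
    ⟨_, (Nat.succ_pred_eq_of_pos (card_pos.2 ⟨p, hp⟩)).symm⟩
  refine not_mem_HH hn hB hr hR ⟨1, odd_one, _, t2, ?_⟩
  rw [hj', Nat.add_sub_cancel, sum_congr rfl fun Q hQ => Unif.pt_eq_u15 ((hR.mem Q hQ).im_pos hD),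
    ← hz, ← map_sum, ← map_nsmul, ← map_sub] at h
  obtain ⟨m, m0, k⟩ := isOfFinAddOrder_iff_nsmul_eq_zero.mp h
  rw [← map_nsmul, Unif.u15_eq_zero_iff, nsmul_eq_mul] at k
  have k1 : u1 _ ∈ torsion (Pt W1 ℂ) := (Gal.tors_u1 _).2 ⟨m, m0, k⟩
  rw [map_sub, map_nsmul] at k1
  convert add_mem (nsmul_mem k1 4) (zsmul_mem t1 (2 ^ (j + 1))) using 1
  rw [hj', show HP n ∅ R = ∑ Q ∈ R, Fi (froot Q) by simp [HP, hilS], ← natCast_zsmul _ (2 ^ j),
    pow_succ]
  push_cast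
  module

end B2

end Pool.Agent.Lib.MP_696deb_nt
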