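import Pool.Agent.Lib.MP_696deb_nt.B2.D1b
import Pool.Agent.Lib.MP_696deb_nt.B2.RF1

set_option autoImplicit false

open scoped Classical
open NumberTheorySymbols

namespace Pool.Agent.Lib.MP_696deb_nt.B2

theorem rd_nr {d d' a b : ℤ} {n : ℕ} (hc : Ctx d d' n a b) :
    ∀ c ∈ ({-3, 5, -15} : Finset ℤ), ∃ q : ℕ, q.Prime ∧ q ∣ n ∧ J(c | q) = -1 := by
  have key : ∀ c : ℤ, c = 3 ∨ c = 5 ∨ c = 15 →
      ∃ q : ℕ, q.Prime ∧ q ∣ n ∧ J(c | q) = -1 ∧ J(-c | q) = -1 := fun c h => by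
    obtain ⟨q, q1, q2, q3⟩ := hc.ind c h
    have q4 := hc.b4 q q1 q2
    refine ⟨q, q1, ?_, q3, ?_⟩
    · have : (q : ℤ) ∣ (n : ℤ) := by
        rw [← dvd_neg, ← hc.ab]
        exact q2.mul_left a
      exact_mod_cast this
    · rw [jacobiSym.neg c (Nat.odd_iff.2 (by omega)), ZMod.χ₄_nat_one_mod_four q4, one_mul, q3]
  intro c h
  simp only [Finset.mem_insert, Finset.mem_singleton] at h
  rcases h with rfl | rfl | rfl
  · obtain ⟨q, q1, q2, -, q3⟩ := key 3 (.inl rfl)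
    exact ⟨q, q1, q2, q3⟩
  · obtain ⟨q, q1, q2, q3, -⟩ := key 5 (.inr (.inl rfl))
    exact ⟨q, q1, q2, q3⟩
  · obtain ⟨q, q1, q2, -, q3⟩ := key 15 (.inr (.inr rfl))
    exact ⟨q, q1, q2, q3⟩

theorem m_refDiv (hd : DescStmt) {d d' a b : ℤ} {n : ℕ} (hc : Ctx d d' n a b) {r : ℤ}
    (hr : 60 ∣ r ^ 2 + n) (S : HS n) (hL : S.Link r) : S.RefDiv := by
  intro P hQ h
  have hn := hc.nok.good
  have hD : (-n : ℤ) < 0 := hn.neg
  obtain ⟨R, hR⟩ := Gal.exists_hreps (-n) r hD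
  obtain ⟨s, hs, e⟩ := hL R 1 hR.freps (one_dvd _) (by norm_num)
  have e1 : Unif.u15 (hP (1 : ℤ).natAbs R) = ∑ Q ∈ R, pt (froot Q) := by
    rw [hP, map_sum]
    refine Finset.sum_congr rfl fun Q k => ?_
    rw [Unif.pt_eq_u15 (im_froot_pos (by rw [(hR.mem Q k).disc]; exact hD) (hR.mem Q k).pos)]
    simp [gch]
  rw [e1] at e
  have h1 := (pmap jC).isOfFinAddOrder h
  rw [map_sub, map_nsmul, e] at h1
  rcases hs with rfl | rfl
  · rw [one_smul] at h1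
    exact ref_div hn hc.nok.condB hr hR (rd_nr hc) hQ h1
  · refine ref_div hn hc.nok.condB hr hR (rd_nr hc) (P := -P)
      (fun g hg => by rw [smul_neg, hQ g hg]) ?_
    have h2 := h1.neg
    convert h2 using 1
    rw [map_neg]
    module

end Pool.Agent.Lib.MP_696deb_nt.B2
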