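import Pool.Agent.Lib.MP_696deb_nt.B2.MU1

/-! Unramified classes along a dihedral tower in characteristic two are killed by a fixed power
of the variable. -/

set_option autoImplicit false

open scoped NNReal Classical
open Finset LaurentPolynomial

namespace Pool.Agent.Lib.MP_696deb_nt.B2

/-- Laurent polynomials over the field with two elements. -/
abbrev LP : Type := LaurentPolynomial (ZMod 2)

/-- The augmentation variable. -/
noncomputable def tL : LP := T 1 + 1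

theorem mu2_two : (2 : LP) = 0 := by
  have : ((2 : ℕ) : LP) = 0 := by
    rw [← map_natCast (C : ZMod 2 →+* LP), show ((2 : ℕ) : ZMod 2) = 0 from rfl, map_zero]
  exact_mod_cast this

theorem mu2_ne : tL ≠ 0 := fun h => by
  have := congrArg (fun f : LP => f.coeff 1) h
  simp [tL, ← T_zero] at this

theorem mu2_T (e : ℤ) : ∃ v, (T e : LP) = 1 + e * tL + tL ^ 2 * v := by
  have h2 := mu2_two
  induction e using Int.induction_on with
  | zero => exact ⟨0, by simp⟩
  | succ e ih =>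
    obtain ⟨v, h⟩ := ih
    refine ⟨e + v + tL * v, ?_⟩
    rw [T_add, h, show (T 1 : LP) = tL + 1 by rw [tL]; linear_combination -h2]
    push_cast
    ring
  | pred e ih =>
    obtain ⟨v, h⟩ := ih
    have h1 : (T (-1) : LP) = 1 - tL + tL ^ 2 * T (-1) := by
      have : (T 1 : LP) * T (-1) = 1 := by rw [← T_add]; rfl
      rw [tL]
      linear_combination (-T 1 - 2) * this - h2
    refine ⟨T (-1) + (e : LP) - (e : LP) * tL * T (-1) + v * T (-1), ?_⟩
    rw [sub_eq_add_neg, T_add, h]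
    push_cast
    linear_combination (1 - e * tL) * h1

theorem mu2_res (x : LP) : tL ∣ x ∨ tL ∣ x - 1 := by
  induction x using LaurentPolynomial.induction_on' with
  | add p q hp hq =>
    rcases hp with hp | hp <;> rcases hq with hq | hq
    · exact .inl (dvd_add hp hq)
    · exact .inr (by simpa [add_sub_assoc] using dvd_add hp hq)
    · exact .inr (by simpa [sub_add_eq_add_sub] using dvd_add hp hq)
    · exact .inl (by convert dvd_add hp hq using 1; linear_combination mu2_two)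
  | C_mul_T n a =>
    obtain ⟨v, h⟩ := mu2_T n
    rcases mu1_or a with rfl | rfl
    · exact .inl (by simp)
    · exact .inr ⟨n + tL * v, by rw [map_one, one_mul, h]; ring⟩

theorem mu2_inv_t : invert tL = T (-1) * tL := by
  rw [tL, map_add, invert_T, map_one, mul_add, ← T_add, mul_one, add_comm]
  rfl

theorem mu2_inv_dvd {k : ℕ} {x : LP} (h : tL ^ k ∣ x) : tL ^ k ∣ invert x := by
  obtain ⟨y, rfl⟩ := h
  rw [map_mul, map_pow, mu2_inv_t, mul_pow]
  exact ((dvd_mul_left _ _).mul_right _)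

theorem mu2_inv_sub (x : LP) : tL ^ 2 ∣ invert x - x := by
  induction x using LaurentPolynomial.induction_on' with
  | add p q hp hq => simpa [add_sub_add_comm] using dvd_add hp hq
  | C_mul_T n a =>
    obtain ⟨v, h⟩ := mu2_T n
    obtain ⟨v', h'⟩ := mu2_T (-n)
    refine ⟨C a * (v' - v), ?_⟩
    rw [map_mul, invert_C, invert_T, h', h]
    push_cast
    linear_combination (-C a * n * tL) * mu2_two

/-- The two lowest coefficients. -/
theorem mu2_coef : ∃ x y : LP → ZMod 2, (∀ f, tL ^ 2 ∣ f - (C (x f) + C (y f) * tL)) ∧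
    ∀ (f : LP) (u v : ZMod 2), tL ^ 2 ∣ f - (C u + C v * tL) → x f = u ∧ y f = v := by
  have nu : ¬ tL ∣ 1 := fun h => by
    have h1 := map_dvd (eval₂ (RingHom.id (ZMod 2)) 1) h
    simp [tL, show (1 : ZMod 2) + 1 = 0 from rfl] at h1
  have e1 : ∀ f : LP, ∃ u : ZMod 2, tL ∣ f - C u := fun f =>
    (mu2_res f).elim (fun h => ⟨0, by simpa using h⟩) fun h => ⟨1, by simpa using h⟩
  have e2 : ∀ f : LP, ∃ u v : ZMod 2, tL ^ 2 ∣ f - (C u + C v * tL) := fun f => by
    obtain ⟨u, g, hg⟩ := e1 f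
    obtain ⟨v, k, hk⟩ := e1 g
    exact ⟨u, v, k, by linear_combination hg + tL * hk⟩
  have u1 : ∀ u : ZMod 2, tL ∣ C u → u = 0 := fun u h =>
    (mu1_or u).resolve_right fun k => nu (by simpa [k] using h)
  choose x y h using e2
  refine ⟨x, y, h, fun f u v k => ?_⟩
  have k1 : tL ^ 2 ∣ C (x f - u) + C (y f - v) * tL := by
    convert dvd_sub k (h f) using 1
    rw [map_sub, map_sub]
    ring
  have k2 := u1 _ ((dvd_add_left (dvd_mul_left _ _)).1 ((dvd_pow_self _ two_ne_zero).trans k1))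
  rw [k2, map_zero, zero_add, pow_two, mul_dvd_mul_iff_right mu2_ne] at k1
  exact ⟨sub_eq_zero.1 k2, sub_eq_zero.1 (u1 _ k1)⟩

theorem mu2_C_cast (e : ℤ) : (C (e : ZMod 2) : LP) = e := map_intCast _ e

/-- `T ^ e - 1` is `t` times a unit modulo `t` for odd `e`. -/
theorem mu2_cancel {e : ℤ} (he : (e : ZMod 2) = 1) {k : ℕ} {m : LP}
    (h : tL ^ (k + 1) ∣ (T e - 1) * m) : tL ^ k ∣ m := by
  obtain ⟨v, hv⟩ := mu2_T e
  rw [← mu2_C_cast, he, map_one] at hv
  rw [show (T e - 1 : LP) * m = tL * ((1 + tL * v) * m) by rw [hv]; ring, pow_succ',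
    mul_dvd_mul_iff_left mu2_ne] at h
  exact IsCoprime.dvd_of_dvd_mul_left (IsCoprime.pow_left ⟨-v, 1, by ring⟩) h

section

variable {n : ℕ} {a b : ℤ} {ξ : Gam → ZMod 2} {e : Gam → ℤ} {w₀ : Plc} {z : Gam}

/-- Cocycles modulo `t ^ k` that vanish on all inertia groups away from `w₀.p` and on that of
`w₀`. -/
structure MuS (n : ℕ) (e : Gam → ℤ) (w₀ : Plc) (k : ℕ) (f : Gam → LP) : Prop where
  sm : Sm (GK n) f
  coc : ∀ g ∈ GK n, ∀ h ∈ GK n, tL ^ k ∣ f (g * h) - (f g + T (e g) * f h)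
  ine : ∀ w : Plc, w.p ≠ w₀.p → ∀ σ ∈ GK n ⊓ Ine w, tL ^ k ∣ f σ
  lam : ∀ σ ∈ Ine w₀, tL ^ k ∣ f σ

/-- The exponents of the dihedral tower modulo `t ^ k`. -/
structure MuE (n : ℕ) (ξ : Gam → ZMod 2) (e : Gam → ℤ) (w₀ : Plc) (z : Gam) (k : ℕ) : Prop where
  sm : Sm (GK n) e
  par : ∀ g ∈ GK n, (e g : ZMod 2) = ξ g
  mul : ∀ g ∈ GK n, ∀ h ∈ GK n, tL ^ k ∣ T (e (g * h)) - T (e g) * T (e h)
  dih : ∀ g ∈ GK n, tL ^ k ∣ T (e (cc * g * cc)) - T (-e g)
  ine : ∀ w : Plc, w.p ≠ w₀.p → ∀ σ ∈ GK n ⊓ Ine w, tL ^ k ∣ T (e σ) - 1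
  nd : ¬ (w₀.p : ℤ) ∣ n
  inert : ∃ φ ∈ Dec w₀, φ ∉ GK n
  zI : z ∈ Ine w₀
  zo : ξ z = 1

theorem MuS.mono {k k' : ℕ} {f : Gam → LP} (h : MuS n e w₀ k f) (l : k' ≤ k) : MuS n e w₀ k' f :=
  ⟨h.sm, fun g hg u hu => (pow_dvd_pow _ l).trans (h.coc g hg u hu),
    fun w hw σ hσ => (pow_dvd_pow _ l).trans (h.ine w hw σ hσ),
    fun σ hσ => (pow_dvd_pow _ l).trans (h.lam σ hσ)⟩

theorem MuE.mono {k k' : ℕ} (h : MuE n ξ e w₀ z k) (l : k' ≤ k) : MuE n ξ e w₀ z k' :=
  ⟨h.sm, h.par, fun g hg u hu => (pow_dvd_pow _ l).trans (h.mul g hg u hu),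
    fun g hg => (pow_dvd_pow _ l).trans (h.dih g hg),
    fun w hw σ hσ => (pow_dvd_pow _ l).trans (h.ine w hw σ hσ), h.nd, h.inert, h.zI, h.zo⟩

theorem MuS.div {k i : ℕ} {f : Gam → LP} (h : MuS n e w₀ (i + k) f) (hI : Ine w₀ ≤ GK n)
    (d : ∀ g ∈ GK n, tL ^ i ∣ f g) :
    ∃ f', MuS n e w₀ k f' ∧ ∀ g ∈ GK n, f g = tL ^ i * f' g := by
  let q : LP → LP := fun x => if h : tL ^ i ∣ x then h.choose else 0
  have hq : ∀ g ∈ GK n, f g = tL ^ i * q (f g) := fun g hg => by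
    simp only [q, dif_pos (d g hg)]
    exact (d g hg).choose_spec
  have c : ∀ x, tL ^ (i + k) ∣ tL ^ i * x → tL ^ k ∣ x := fun x hx => by
    rwa [pow_add, mul_dvd_mul_iff_left (pow_ne_zero _ mu2_ne)] at hx
  refine ⟨fun g => q (f g), ⟨h.sm.comp q, fun g hg u hu => c _ ?_, fun w hw σ hσ => c _ ?_,
    fun σ hσ => c _ ?_⟩, hq⟩
  · convert h.coc g hg u hu using 1
    linear_combination hq g hg + T (e g) * hq u hu - hq _ (mul_mem hg hu)
  · exact hq σ hσ.1 ▸ h.ine w hw σ hσ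
  · exact hq σ (hI hσ) ▸ h.lam σ hσ

/-- The value on a conjugate of an element of the inertia group of `w₀`. -/
theorem MuS.conj {k : ℕ} {f : Gam → LP} (h : MuS n e w₀ k f)
    (hI : Ine w₀ ≤ GK n) {u σ : Gam} (hu : u ∈ GK n) (hσ : σ ∈ Ine w₀) :
    tL ^ k ∣ f (u * σ * u⁻¹) - (1 - T (e (u * σ * u⁻¹))) * f u := by
  have h0 : u * σ * u⁻¹ ∈ GK n := (normal_GK n).conj_mem σ (hI hσ) u
  have h1 := h.coc _ h0 u hu
  rw [inv_mul_cancel_right] at h1
  convert dvd_add (dvd_sub (h.coc u hu σ (hI hσ)) h1) ((h.lam σ hσ).mul_left (T (e u))) using 1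
  ring

theorem exists_conj_ine (hφ : ∃ φ ∈ Dec w₀, φ ∉ GK n) {w : Plc} (hw : w.p = w₀.p) :
    ∃ u ∈ GK n, ∀ σ ∈ Ine w, u⁻¹ * σ * u ∈ Ine w₀ := by
  obtain ⟨φ, h1, h2⟩ := hφ
  obtain ⟨u, hu, rfl⟩ := conj_of_inert hw h1 h2
  exact ⟨u, hu, fun σ hσ => mem_Ine_smul.1 hσ⟩

theorem cc_conj_ine {w : Plc} {σ : Gam} (h : σ ∈ Ine w) : cc * σ * cc ∈ Ine (cc • w) := by
  rw [mem_Ine_smul, cc_inv]
  simpa [mul_assoc, cc_mul_cc, ← mul_assoc cc cc] using h

theorem MuS.top {k : ℕ} {f : Gam → LP} (h : MuS n e w₀ (k + 1) f) (E : MuE n ξ e w₀ z (k + 1))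
    (hI : Ine w₀ ≤ GK n) (w : Plc) {σ : Gam} (hσ : σ ∈ GK n ⊓ Ine w) : tL ∣ f σ := by
  by_cases hw : w.p = w₀.p
  · obtain ⟨u, hu, k1⟩ := exists_conj_ine E.inert hw
    have k2 := (dvd_pow_self tL k.succ_ne_zero).trans (h.conj hI hu (k1 σ hσ.2))
    rw [show u * (u⁻¹ * σ * u) * u⁻¹ = σ by group] at k2
    obtain ⟨v, hv⟩ := mu2_T (e σ)
    refine (dvd_sub_left ?_).1 k2
    exact Dvd.dvd.mul_right ⟨-e σ - tL * v, by rw [hv]; ring⟩ _
  · exact (dvd_pow_self tL k.succ_ne_zero).trans (h.ine w hw σ hσ)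

theorem mu_three (D : MuD n a b ξ) (E : MuE n ξ e w₀ z 3) {f : Gam → LP} (h : MuS n e w₀ 3 f)
    {ε : ℤ} {m : LP}
    (hi : ∀ g ∈ GK n, tL ^ 3 ∣ T ε * invert (f (cc * g * cc)) - (f g + (T (e g) - 1) * m)) :
    ∀ g ∈ GK n, tL ∣ f g := by
  have hI := ine_le_GK' D.mod4 E.nd
  have h2 := mu2_two
  have l : tL ^ 2 ∣ tL ^ 3 := pow_dvd_pow _ (by norm_num)
  obtain ⟨x, y, c1, c2⟩ := mu2_coef
  have hz := hI E.zI
  have km : tL ^ 2 ∣ T ε * invert m + m := by
    refine mu2_cancel (e := -e z) (by rw [Int.cast_neg, E.par z hz, E.zo]; rfl) ?_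
    have k1 := hi _ (conj_cc_mem hz)
    rw [show cc * (cc * z * cc) * cc = z by simp [mul_assoc, cc_mul_cc, ← mul_assoc cc cc]] at k1
    have k2 := (mu2_inv_dvd (hi z hz)).mul_left (T ε)
    simp only [map_sub, map_mul, map_add, invert_T, map_one, involutive_invert _] at k2
    have k3 : (T ε : LP) * T (-ε) = 1 := by rw [← T_add, add_neg_cancel, T_zero]
    convert dvd_add (dvd_add k1 k2) ((E.dih z hz).mul_right m) using 1
    linear_combination (T (-e z) - 1) * (T ε * invert m + m) * h2 - f (cc * z * cc) * k3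
  have t1 : ∀ i : ℤ, tL ^ 2 ∣ (T i : LP) - (1 + C (i : ZMod 2) * tL) := fun i => by
    obtain ⟨v, hv⟩ := mu2_T i
    exact ⟨v, by rw [hv, mu2_C_cast]; ring⟩
  have a1 : ∀ g ∈ GK n, ∀ u ∈ GK n, x (f (g * u)) = x (f g) + x (f u) ∧
      y (f (g * u)) = y (f g) + y (f u) + ξ g * x (f u) := fun g hg u hu => c2 _ _ _ (by
    have k1 := t1 (e g)
    rw [E.par g hg] at k1
    convert dvd_add (dvd_add (dvd_add (dvd_add (l.trans (h.coc g hg u hu)) (c1 (f g)))
      ((c1 (f u)).mul_left (T (e g)))) (k1.mul_right (C (x (f u)) + C (y (f u)) * tL)))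
      (dvd_mul_right _ (C (ξ g) * C (y (f u)))) using 1
    simp only [map_add, map_mul]
    ring)
  have a2 : ∀ g ∈ GK n, x (f (cc * g * cc)) = x (f g) ∧
      y (f (cc * g * cc)) + ε * x (f g) = y (f g) + ξ g * x m := fun g hg => by
    have k1 := t1 (e g)
    rw [E.par g hg] at k1
    set F := f (cc * g * cc)
    have k2 := c2 (T ε * invert F) (x F) (y F + ε * x F) (by
      convert dvd_add (dvd_add (dvd_add ((mu2_inv_sub F).mul_left (T ε)) ((c1 F).mul_left (T ε)))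
        ((t1 ε).mul_right (C (x F) + C (y F) * tL))) (dvd_mul_right _ (C (ε : ZMod 2) * C (y F)))
        using 1
      simp only [map_add, map_mul]
      ring)
    have k3 := c2 (T ε * invert F) (x (f g)) (y (f g) + ξ g * x m) (by
      convert dvd_add (dvd_add (dvd_add (dvd_add (l.trans (hi g hg)) (c1 (f g))) (k1.mul_right m))
        ((c1 m).mul_left (C (ξ g) * tL))) (dvd_mul_right _ (C (ξ g) * C (y m))) using 1
      simp only [map_add, map_mul]
      ring)
    have k4 := k2.1.symm.trans k3.1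
    exact ⟨k4, k4 ▸ k2.2.symm.trans k3.2⟩
  have a3 : (ε : ZMod 2) * x m = 0 := by
    have k2 := c2 (T ε * invert m + m) 0 (ε * x m) (by
      convert dvd_add (dvd_add (dvd_add (dvd_add ((mu2_inv_sub m).mul_left (T ε))
        ((c1 m).mul_left (T ε))) ((t1 ε).mul_right (C (x m) + C (y m) * tL)))
        (dvd_mul_right _ (C (ε : ZMod 2) * C (y m)))) (c1 m) using 1
      simp only [map_mul, map_zero]
      linear_combination (C (x m) + C (y m) * tL) * h2)
    exact k2.2.symm.trans (c2 _ 0 0 (by simpa using km)).2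
  have a4 : ∀ F, tL ∣ F → x F = 0 := fun F ⟨G, hG⟩ => (c2 F 0 (x G) (by
    convert dvd_add ((c1 G).mul_left tL) (dvd_mul_right _ (C (y G))) using 1
    rw [hG, map_zero]
    ring)).1
  have := mu_two D (x := fun g => x (f g)) (y := fun g => y (f g)) (h.sm.comp x)
    (fun g hg u hu => (a1 g hg u hu).1) (fun g hg u hu => (a1 g hg u hu).2)
    (fun g hg => (a2 g hg).1) (fun g hg => (a2 g hg).2) a3
    (fun w σ hσ => a4 _ (h.top E hI w hσ)) fun w hw σ hσ =>
      (c2 _ 0 0 (by simpa using l.trans (h.ine w (fun k => E.nd (k ▸ hw)) σ hσ))).2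
  intro g hg
  have k1 := (dvd_pow_self tL two_ne_zero).trans (c1 (f g))
  rw [show x (f g) = 0 from this g hg, map_zero, zero_add] at k1
  exact (dvd_sub_left (dvd_mul_left _ _)).1 k1

theorem mu_five (D : MuD n a b ξ) (E : MuE n ξ e w₀ z 5) {f : Gam → LP} (h : MuS n e w₀ 5 f) :
    ∀ g ∈ GK n, tL ∣ f g := by
  have hI := ine_le_GK' D.mod4 E.nd
  have h2 := mu2_two
  have hz := hI E.zI
  obtain ⟨u, hu, ku⟩ := exists_conj_ine (w := cc • w₀) E.inert rfl
  let d : Gam → LP := fun g => f g + invert (f (cc * g * cc)) + (T (e g) - 1) * invert (f u)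
  have hd : MuS n e w₀ 5 d := by
    refine ⟨(h.sm.comp₂ (h.sm.conj cc cc fun g hg => conj_cc_mem hg)
      fun p q => p + invert q).comp₂ E.sm fun p q => p + (T q - 1) * invert (f u),
      fun g hg k hk => ?_, fun w hw σ hσ => ?_, fun σ hσ => ?_⟩
    · have k1 := mu2_inv_dvd (h.coc _ (conj_cc_mem hg) _ (conj_cc_mem hk))
      rw [show cc * g * cc * (cc * k * cc) = cc * (g * k) * cc by
        simp [mul_assoc, cc_mul_cc, ← mul_assoc cc cc]] at k1
      have k2 := mu2_inv_dvd (E.dih g hg)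
      simp only [map_sub, map_mul, map_add, invert_T, neg_neg] at k1 k2
      convert dvd_add (dvd_add (dvd_add (h.coc g hg k hk) k1)
        (k2.mul_right (invert (f (cc * k * cc))))) ((E.mul g hg k hk).mul_right (invert (f u)))
        using 1
      simp only [d]
      ring
    · exact dvd_add (dvd_add (h.ine w hw σ hσ) (mu2_inv_dvd (h.ine (cc • w) hw _
        ⟨conj_cc_mem hσ.1, cc_conj_ine hσ.2⟩))) ((E.ine w hw σ hσ).mul_right _)
    · have k1 := mu2_inv_dvd (h.conj hI hu (ku _ (cc_conj_ine hσ)))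
      rw [show u * (u⁻¹ * (cc * σ * cc) * u) * u⁻¹ = cc * σ * cc by group] at k1
      have k2 := mu2_inv_dvd (E.dih σ (hI hσ))
      simp only [map_sub, map_mul, map_one, invert_T, neg_neg] at k1 k2
      convert dvd_sub (dvd_add (h.lam σ hσ) k1) (k2.mul_right (invert (f u))) using 1
      simp only [d]
      ring
  have hi : ∀ g ∈ GK n, tL ^ 5 ∣
      invert (d (cc * g * cc)) - (d g + (T (e g) - 1) * (f u + invert (f u))) := fun g hg => by
    have k2 := mu2_inv_dvd (E.dih g hg)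
    simp only [map_sub, invert_T, neg_neg] at k2
    convert k2.mul_right (f u) using 1
    simp only [d, map_add, map_mul, map_sub, map_one, invert_T, involutive_invert _]
    rw [show cc * (cc * g * cc) * cc = g by simp [mul_assoc, cc_mul_cc, ← mul_assoc cc cc]]
    linear_combination (-(T (e g) - 1) * invert (f u)) * h2
  have step : ∀ i ≤ 2, (∀ g ∈ GK n, tL ^ i ∣ d g) → ∀ g ∈ GK n, tL ^ (i + 1) ∣ d g := by
    intro i l k
    obtain ⟨d', s', e'⟩ := (hd.mono (show i + 3 ≤ 5 by omega)).div hI k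
    have k0 : ∀ g ∈ GK n, tL ^ (i + 3) ∣ tL ^ i * (T (-i) * invert (d' (cc * g * cc)) - d' g) -
        (T (e g) - 1) * (f u + invert (f u)) := fun g hg => by
      convert (pow_dvd_pow _ (show i + 3 ≤ 5 by omega)).trans (hi g hg) using 1
      rw [e' g hg, e' _ (conj_cc_mem hg), map_mul, map_pow, mu2_inv_t, mul_pow, T_pow]
      simp only [mul_neg, mul_one]
      ring
    obtain ⟨m, hm⟩ : tL ^ i ∣ f u + invert (f u) := by
      refine mu2_cancel (e := e z) (by rw [E.par z hz, E.zo]) ((dvd_sub_right ?_).1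
        ((pow_dvd_pow _ (by omega)).trans (k0 z hz)))
      rw [pow_succ]
      refine mul_dvd_mul_left _ (dvd_sub (Dvd.dvd.mul_left ?_ _)
        (s'.top (E.mono (by norm_num)) hI w₀ ⟨hz, E.zI⟩))
      simpa using mu2_inv_dvd (k := 1) (by simpa using (s'.top (E.mono (by norm_num)) hI (cc • w₀)
        ⟨conj_cc_mem hz, cc_conj_ine E.zI⟩))
    intro g hg
    rw [e' g hg, pow_succ]
    refine mul_dvd_mul_left _ (mu_three D (E.mono (by norm_num)) s' (ε := -i) (m := m)
      (fun g hg => ?_) g hg)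
    have := k0 g hg
    rw [hm, pow_add] at this
    refine (mul_dvd_mul_iff_left (pow_ne_zero i mu2_ne)).1 ?_
    convert this using 1
    ring
  have k3 := step 2 le_rfl (step 1 one_le_two (step 0 (by norm_num) fun g _ => by simp))
  refine mu_three D (E.mono (by norm_num)) (h.mono (by norm_num)) (ε := 0) (m := invert (f u))
    fun g hg => ?_
  convert k3 g hg using 1
  simp only [d, T_zero]
  linear_combination (-f g - (T (e g) - 1) * invert (f u)) * h2

theorem mu_lp (D : MuD n a b ξ) {k : ℕ} (E : MuE n ξ e w₀ z (k + 4)) {f : Gam → LP}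
    (h : MuS n e w₀ (k + 4) f) : ∀ g ∈ GK n, tL ^ k ∣ f g := by
  have hI := ine_le_GK' D.mod4 E.nd
  have : ∀ i ≤ k, ∀ g ∈ GK n, tL ^ i ∣ f g := fun i => by
    induction i with
    | zero => exact fun _ g _ => by simp
    | succ i ih =>
      intro l g hg
      obtain ⟨f', s', e'⟩ := (h.mono (show i + 5 ≤ k + 4 by omega)).div hI (ih (by omega))
      rw [e' g hg, pow_succ]
      exact mul_dvd_mul_left _ (mu_five D (E.mono (by omega)) s' g hg)
  exact this k le_rfl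

end

end Pool.Agent.Lib.MP_696deb_nt.B2
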