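import Pool.Agent.Lib.MP_696deb_nt.B2.MU2

/-! The same bound for coefficients in a truncated polynomial ring of characteristic two. -/

set_option autoImplicit false

open scoped NNReal Classical
open Finset LaurentPolynomial

namespace Pool.Agent.Lib.MP_696deb_nt.B2

/-- Rings of the form `F₂[t] / t ^ j`. -/
structure Trunc {A : Type*} [CommRing A] (t : A) (j : ℕ) : Prop where
  two : (2 : A) = 0
  nil : t ^ j = 0
  ne : ∀ i < j, t ^ i ≠ 0
  res : ∀ x, t ∣ x ∨ t ∣ x - 1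

theorem Trunc.exists_hom {A : Type*} [CommRing A] {t : A} {j : ℕ} (h : Trunc t j) (hj : 0 < j) :
    ∃ π : LP →+* A, π tL = t ∧ (∀ k : ℕ, π (T k) = (1 + t) ^ k) ∧ Function.Surjective π ∧
      ∀ f, π f = 0 → tL ^ j ∣ f := by
  have : CharP A 2 := CharTwo.of_one_ne_zero_of_two_eq_zero (by simpa using h.ne 0 hj) h.two
  have hu : IsUnit (1 + t) := IsNilpotent.isUnit_one_add ⟨j, h.nil⟩
  let π : LP →+* A := eval₂ (ZMod.castHom dvd_rfl A) hu.unit
  have h1 : ∀ k : ℕ, π (T k) = (1 + t) ^ k := fun k => by simp only [π, eval₂_T_n, IsUnit.unit_spec]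
  have h0 : π tL = t := by
    rw [tL, map_add, map_one, show (1 : ℤ) = (1 : ℕ) from rfl, h1]
    linear_combination h.two
  refine ⟨π, h0, h1, fun x => ?_, fun f hf => ?_⟩
  · have : ∀ i : ℕ, ∀ x, ∃ f, t ^ i ∣ x - π f := fun i => by
      induction i with
      | zero => exact fun x => ⟨0, by simp⟩
      | succ i ih =>
        intro x
        rcases h.res x with ⟨y, hy⟩ | ⟨y, hy⟩ <;> obtain ⟨f, k, hk⟩ := ih y
        · exact ⟨tL * f, k, by rw [map_mul, h0]; linear_combination hy + t * hk⟩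
        · exact ⟨1 + tL * f, k, by
            rw [map_add, map_mul, h0, map_one]; linear_combination hy + t * hk⟩
    obtain ⟨f, hf⟩ := this j x
    rw [h.nil, zero_dvd_iff, sub_eq_zero] at hf
    exact ⟨f, hf.symm⟩
  · have : ∀ i ≤ j, tL ^ i ∣ f := fun i => by
      induction i with
      | zero => simp
      | succ i ih =>
        intro l
        obtain ⟨y, rfl⟩ := ih (by omega)
        rcases mu2_res y with k | ⟨k, hk⟩
        · rw [pow_succ]
          exact mul_dvd_mul_left _ k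
        · rw [map_mul, map_pow, h0, eq_add_of_sub_eq hk, map_add, map_mul, h0, map_one] at hf
          have h3 : IsUnit (1 + t * π k) :=
            IsNilpotent.isUnit_one_add ⟨j, by rw [mul_pow, h.nil, zero_mul]⟩
          exact absurd ((h3.mul_left_eq_zero).1 (by rw [← hf, add_comm])) (h.ne i l)
    exact this j le_rfl

/-- The action of the dihedral tower on a truncated polynomial ring. -/
structure MuA {A : Type*} [CommRing A] (t : A) (n : ℕ) (ξ : Gam → ZMod 2) (e : Gam → ℕ)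
    (w₀ : Plc) : Prop where
  sm : Sm (GK n) e
  par : ∀ g ∈ GK n, (e g : ZMod 2) = ξ g
  mul : ∀ g ∈ GK n, ∀ h ∈ GK n, (1 + t) ^ e (g * h) = (1 + t) ^ e g * (1 + t) ^ e h
  dih : ∀ g ∈ GK n, (1 + t) ^ e (cc * g * cc) * (1 + t) ^ e g = 1
  ine : ∀ w : Plc, w.p ≠ w₀.p → ∀ σ ∈ GK n ⊓ Ine w, (1 + t) ^ e σ = 1
  nd : ¬ (w₀.p : ℤ) ∣ n
  inert : ∃ φ ∈ Dec w₀, φ ∉ GK n
  ram : ∃ z ∈ Ine w₀, ξ z = 1

/-- Everywhere unramified cocycles are killed by the fourth power of the variable. -/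
theorem mu_core {A : Type*} [CommRing A] {t : A} {j n : ℕ} {a b : ℤ} {ξ : Gam → ZMod 2}
    {e : Gam → ℕ} {w₀ : Plc} (h : Trunc t j) (D : MuD n a b ξ) (E : MuA t n ξ e w₀) {c : Gam → A}
    (sm : Sm (GK n) c) (coc : ∀ g ∈ GK n, ∀ k ∈ GK n, c (g * k) = c g + (1 + t) ^ e g * c k)
    (ine : ∀ w : Plc, w.p ≠ w₀.p → ∀ σ ∈ GK n ⊓ Ine w, c σ = 0) (lam : ∀ σ ∈ Ine w₀, c σ = 0) :
    ∀ g ∈ GK n, t ^ 4 * c g = 0 := by
  intro g hg
  rcases le_or_gt j 4 with l | l
  · rw [pow_eq_zero_of_le l h.nil, zero_mul]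
  obtain ⟨k, rfl⟩ : ∃ k, j = k + 4 := ⟨j - 4, by omega⟩
  obtain ⟨π, p0, p1, p2, p3⟩ := h.exists_hom (by omega)
  choose s hs using p2
  obtain ⟨z, z1, z2⟩ := E.ram
  have E' : MuE n ξ (fun g => e g) w₀ z (k + 4) := by
    refine ⟨E.sm.comp _, fun g hg => by simpa using E.par g hg, fun g hg u hu => p3 _ ?_,
      fun g hg => ?_, fun w hw σ hσ => p3 _ ?_, E.nd, E.inert, z1, z2⟩
    · simp only [map_sub, map_mul, p1, E.mul g hg u hu, sub_self]
    · have := p3 (T (e (cc * g * cc)) * T (e g) - 1) (by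
        simp only [map_sub, map_mul, p1, E.dih g hg, map_one, sub_self])
      convert this.mul_right (T (-e g)) using 1
      rw [sub_mul, mul_T_assoc, add_neg_cancel, T_zero, mul_one, one_mul]
    · simp only [map_sub, p1, E.ine w hw σ hσ, map_one, sub_self]
  obtain ⟨y, hy⟩ := mu_lp D E' (f := fun g => s (c g)) ⟨sm.comp s, fun g hg u hu => p3 _ (by
      simp only [map_sub, map_add, map_mul, p1, hs, coc g hg u hu, sub_self]),
    fun w hw σ hσ => p3 _ (by rw [hs, ine w hw σ hσ]), fun σ hσ => p3 _ (by rw [hs, lam σ hσ])⟩ g hg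
  rw [← hs (c g), hy, map_mul, map_pow, p0, ← mul_assoc, ← pow_add, add_comm, h.nil, zero_mul]

end Pool.Agent.Lib.MP_696deb_nt.B2
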