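import Pool.Agent.Lib.MP_696deb_nt.B2.MU3

/-! Linear algebra over truncated polynomial rings of characteristic two. -/

set_option autoImplicit false

open scoped Classical
open Finset Polynomial

namespace Pool.Agent.Lib.MP_696deb_nt.B2

variable {A A' : Type} [CommRing A] [CommRing A'] {t : A} {t' : A'} {j i : ℕ}

theorem Trunc.add_self (h : Trunc t j) (x : A) : x + x = 0 := by
  rw [← two_mul, h.two, zero_mul]

theorem Trunc.smul_zero (h : Trunc t j) (x : A) : 2 ^ 1 • x = 0 := by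
  rw [pow_one, two_smul, h.add_self]

theorem Trunc.unit (h : Trunc t j) (x : A) : IsUnit (1 + t * x) :=
  IsNilpotent.isUnit_one_add ⟨j, by rw [mul_pow, h.nil, zero_mul]⟩

/-- Every element is a power of the variable times a unit. -/
theorem Trunc.exists_unit (h : Trunc t j) (x : A) : ∃ r ≤ j, ∃ u, IsUnit u ∧ x = t ^ r * u := by
  have : ∀ s ≤ j, (∃ r ≤ j, ∃ u, IsUnit u ∧ x = t ^ r * u) ∨ t ^ s ∣ x := fun s => by
    induction s with
    | zero => exact fun _ => .inr (by simp)
    | succ s ih =>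
      intro l
      rcases ih (by omega) with k | ⟨y, rfl⟩
      · exact .inl k
      rcases h.res y with k | ⟨k, hk⟩
      · exact .inr (pow_succ t s ▸ mul_dvd_mul_left _ k)
      · exact .inl ⟨s, by omega, y, by rw [eq_add_of_sub_eq hk, add_comm]; exact h.unit k, rfl⟩
  refine (this j le_rfl).elim id fun k => ⟨j, le_rfl, 1, isUnit_one, ?_⟩
  rwa [h.nil, zero_dvd_iff, ← zero_mul (1 : A), ← h.nil] at k

theorem Trunc.dvd_of (h : Trunc t j) (l : i ≤ j) {x : A} (hx : t ^ i * x = 0) :
    t ^ (j - i) ∣ x := by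
  obtain ⟨r, -, u, hu, rfl⟩ := h.exists_unit x
  rw [← mul_assoc, hu.mul_left_eq_zero, ← pow_add] at hx
  refine (pow_dvd_pow t ?_).mul_right u
  by_contra k
  exact h.ne _ (by omega) hx

theorem Trunc.exists_map (h : Trunc t j) (hj : 0 < j) : ∃ π : (ZMod 2)[X] →+* A, π X = t ∧
    Function.Surjective π ∧ ∀ f, π f = 0 ↔ X ^ j ∣ f := by
  have : CharP A 2 := CharTwo.of_one_ne_zero_of_two_eq_zero (by simpa using h.ne 0 hj) h.two
  let π : (ZMod 2)[X] →+* A := eval₂RingHom (ZMod.castHom dvd_rfl A) t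
  have h0 : π X = t := eval₂_X _ _
  refine ⟨π, h0, fun x => ?_, fun f => ⟨fun hf => ?_, ?_⟩⟩
  · have : ∀ i : ℕ, ∀ x, ∃ f, t ^ i ∣ x - π f := fun i => by
      induction i with
      | zero => exact fun x => ⟨0, by simp⟩
      | succ i ih =>
        intro x
        rcases h.res x with ⟨y, hy⟩ | ⟨y, hy⟩ <;> obtain ⟨f, k, hk⟩ := ih y
        · exact ⟨X * f, k, by rw [map_mul, h0]; linear_combination hy + t * hk⟩
        · exact ⟨1 + X * f, k, by
            rw [map_add, map_mul, h0, map_one]; linear_combination hy + t * hk⟩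
    obtain ⟨f, hf⟩ := this j x
    rw [h.nil, zero_dvd_iff, sub_eq_zero] at hf
    exact ⟨f, hf.symm⟩
  · have : ∀ i ≤ j, X ^ i ∣ f := fun i => by
      induction i with
      | zero => simp
      | succ i ih =>
        intro l
        obtain ⟨y, rfl⟩ := ih (by omega)
        rcases mu1_or (y.coeff 0) with k | k
        · rw [pow_succ]
          exact mul_dvd_mul_left _ (X_dvd_iff.2 k)
        · rw [← X_mul_divX_add y, k, map_mul, map_pow, h0, map_add, map_mul, h0, C_1, map_one,
            add_comm, (h.unit _).mul_left_eq_zero] at hf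
          exact absurd hf (h.ne i l)
    exact this j le_rfl
  · rintro ⟨y, rfl⟩
    rw [map_mul, map_pow, h0, h.nil, zero_mul]

theorem Trunc.sub0 (h : Trunc t 0) : Subsingleton A :=
  subsingleton_of_zero_eq_one (by simpa using h.nil.symm)

/-- A shorter ring is the kernel of a power of the variable. -/
theorem Trunc.exists_emb (h : Trunc t j) (h' : Trunc t' i) (l : i ≤ j) :
    ∃ (ι : A' →+ A) (r : A →+ A'), (∀ y, r (ι y) = y) ∧ (∀ y, ι (t' * y) = t * ι y) ∧
      ∀ x, t ^ i * x = 0 → ι (r x) = x := by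
  rcases Nat.eq_zero_or_pos i with rfl | hi
  · have := h'.sub0
    exact ⟨0, 0, fun _ => Subsingleton.elim _ _, by simp, fun x hx => by simpa using hx.symm⟩
  obtain ⟨π, p0, p1, p2⟩ := h.exists_map (by omega)
  obtain ⟨π', q0, q1, q2⟩ := h'.exists_map hi
  have e : ∀ f, t ^ (j - i) * π f = 0 ↔ π' f = 0 := fun f => by
    rw [← p0, ← map_pow, ← map_mul, p2, q2]
    nth_rw 1 [show j = j - i + i by omega]
    rw [pow_add, mul_dvd_mul_iff_left (pow_ne_zero _ X_ne_zero)]
  let ι : A' →+ A := (π'.toAddMonoidHom.liftOfSurjective q1)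
    ⟨(AddMonoidHom.mulLeft (t ^ (j - i))).comp π.toAddMonoidHom, fun f hf => (e f).2 hf⟩
  have k : ∀ f, ι (π' f) = t ^ (j - i) * π f := fun f =>
    AddMonoidHom.liftOfRightInverse_comp_apply _ _ _ _ f
  have inj : Function.Injective ι := (injective_iff_map_eq_zero ι).2 fun y hy => by
    obtain ⟨f, rfl⟩ := q1 y
    exact (e f).1 (k f ▸ hy)
  let _ : Module (ZMod 2) A := AddCommGroup.zmodModule fun x => by simpa using h.smul_zero x
  let _ : Module (ZMod 2) A' := AddCommGroup.zmodModule fun x => by simpa using h'.smul_zero x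
  obtain ⟨r, hr⟩ := (ι.toZModLinearMap 2).exists_leftInverse_of_injective
    (LinearMap.ker_eq_bot.2 inj)
  have hr' : ∀ y, r (ι y) = y := fun y => LinearMap.congr_fun hr y
  refine ⟨ι, r.toAddMonoidHom, hr', fun y => ?_, fun x hx => ?_⟩
  · obtain ⟨f, rfl⟩ := q1 y
    rw [← q0, ← map_mul, k, k, map_mul, p0]
    ring
  · obtain ⟨y, rfl⟩ := h.dvd_of l hx
    obtain ⟨f, rfl⟩ := p1 y
    rw [← k]
    exact congrArg ι (hr' _)

theorem mu4_pow {ι : A' →+ A} (h : ∀ y, ι (t' * y) = t * ι y) (e : ℕ) (y : A') :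
    ι ((1 + t') ^ e * y) = (1 + t) ^ e * ι y := by
  induction e generalizing y with
  | zero => simp
  | succ e ih => rw [pow_succ, mul_assoc, ih, add_mul, one_mul, map_add, h]; ring

theorem exists_trunc (i : ℕ) : ∃ (A : Type) (_ : CommRing A) (t : A), Trunc t i := by
  refine ⟨AdjoinRoot (X ^ i : (ZMod 2)[X]), inferInstance, AdjoinRoot.root _, ?_, ?_,
    fun s hs k => ?_, fun x => ?_⟩
  · rw [← map_ofNat (AdjoinRoot.of _) 2, show (OfNat.ofNat 2 : ZMod 2) = 0 from rfl, map_zero]
  · rw [← AdjoinRoot.mk_X, ← map_pow, AdjoinRoot.mk_self]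
  · rw [← AdjoinRoot.mk_X, ← map_pow, AdjoinRoot.mk_eq_zero] at k
    simpa using (X_pow_dvd_iff.1 k) s hs
  · obtain ⟨f, rfl⟩ := AdjoinRoot.mk_surjective x
    rw [← X_mul_divX_add f, ← AdjoinRoot.mk_X]
    rcases mu1_or (f.coeff 0) with k | k <;> rw [k]
    · exact .inl ⟨AdjoinRoot.mk _ f.divX, by simp⟩
    · exact .inr ⟨AdjoinRoot.mk _ f.divX, by simp⟩

theorem trunc_one : Trunc (0 : ZMod (2 ^ 1)) 1 :=
  ⟨rfl, by simp, fun i hi => by
    obtain rfl : i = 0 := by omega
    decide, by decide⟩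

theorem Trunc.card (h : Trunc t j) : Nat.card A = 2 ^ j := by
  rcases Nat.eq_zero_or_pos j with rfl | hj
  · have := h.sub0
    exact Nat.card_unique
  obtain ⟨π, -, p1, p2⟩ := h.exists_map hj
  have e : RingHom.ker π = Ideal.span {X ^ j} := Ideal.ext fun f => by
    rw [RingHom.mem_ker, p2, Ideal.mem_span_singleton]
  rw [← Nat.card_congr (RingHom.quotientKerEquivOfSurjective p1).toEquiv, e]
  have b := (AdjoinRoot.powerBasis' (monic_X_pow j : (X ^ j : (ZMod 2)[X]).Monic)).basis
  refine (Nat.card_congr b.equivFun.toEquiv).trans ?_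
  simp

theorem Trunc.finite (h : Trunc t j) : Finite A :=
  Nat.finite_of_card_ne_zero (by rw [h.card]; positivity)

/-- The number of elements that are killed by a power of the variable. -/
theorem Trunc.card_ker (h : Trunc t j) (i : ℕ) {S : AddSubgroup A} (k : ∀ x ∈ S, t ^ i * x = 0) :
    Nat.card S ≤ 2 ^ i := by
  have := h.finite
  rcases le_total i j with l | l
  · obtain ⟨A', _, t', h'⟩ := exists_trunc i
    obtain ⟨ι, r, -, -, e⟩ := h.exists_emb h' l
    have := h'.finite
    rw [← h'.card]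
    exact Nat.card_le_card_of_injective (fun x : S => r x) fun x y hxy =>
      Subtype.ext (by rw [← e _ (k x x.2), ← e _ (k y y.2), show r x = r y from hxy])
  · exact (Nat.card_le_card_of_injective _ S.subtype_injective).trans
      (h.card ▸ Nat.pow_le_pow_right two_pos l)

/-- A functional that defines a perfect pairing. -/
theorem Trunc.exists_lam (h : Trunc t j) :
    ∃ f : A →+ ZMod (2 ^ 1), ∀ x, (∀ y, f (x * y) = 0) → x = 0 := by
  rcases Nat.eq_zero_or_pos j with rfl | hj
  · have := h.sub0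
    exact ⟨0, fun _ _ => Subsingleton.elim _ _⟩
  obtain ⟨ι, r, -, -, e⟩ := h.exists_emb trunc_one hj
  refine ⟨r, fun x hx => ?_⟩
  obtain ⟨s, l, u, hu, rfl⟩ := h.exists_unit x
  rcases l.eq_or_lt with rfl | l
  · rw [h.nil, zero_mul]
  obtain ⟨v, hv⟩ := hu.exists_right_inv
  have h1 := hx (v * t ^ (j - 1 - s))
  rw [show t ^ s * u * (v * t ^ (j - 1 - s)) = t ^ (s + (j - 1 - s)) * (u * v) by ring, hv, mul_one,
    show s + (j - 1 - s) = j - 1 by omega] at h1
  have h2 := e (t ^ (j - 1)) (by rw [← pow_add, show 1 + (j - 1) = j by omega, h.nil])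
  rw [h1, map_zero] at h2
  exact absurd h2.symm (h.ne _ (by omega))

theorem Trunc.sep (h : Trunc t j) {x : A} (k : ∀ f : A →+ ZMod (2 ^ 1), f x = 0) : x = 0 := by
  obtain ⟨f, hf⟩ := h.exists_lam
  exact hf x fun y => k (f.comp (AddMonoidHom.mulRight y))

/-- The inverse of `1 + t`. -/
theorem Trunc.exists_inv (h : Trunc t j) : ∃ s : A, Trunc s j ∧ (1 + t) * (1 + s) = 1 := by
  obtain ⟨v, hv⟩ := (h.unit 1).exists_right_inv
  rw [mul_one] at hv
  have hu : IsUnit v := .of_mul_eq_one_right _ hv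
  have e : t = t * v * (1 + t) := by rw [mul_assoc, mul_comm v, hv, mul_one]
  refine ⟨t * v, ⟨h.two, by rw [mul_pow, h.nil, zero_mul], fun i hi k => h.ne i hi ?_, fun x => ?_⟩,
    by linear_combination t * hv + t * h.two⟩
  · rwa [mul_pow, (hu.pow i).mul_left_eq_zero] at k
  · exact (h.res x).imp (fun k => (Dvd.intro _ e.symm).trans k) fun k =>
      (Dvd.intro _ e.symm).trans k

/-- An odd power of `1 + t`. -/
theorem Trunc.odd (h : Trunc t j) {e : ℕ} (he : (e : ZMod 2) = 1) :
    ∃ u, IsUnit u ∧ (1 + t) ^ e - 1 = t * u := by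
  obtain ⟨e, rfl⟩ := (ZMod.natCast_eq_one_iff_odd).1 he
  obtain ⟨y, hy⟩ : t * t ∣ (1 + t) ^ (2 * e) - 1 := by
    have := sub_dvd_pow_sub_pow ((1 + t) ^ 2) 1 e
    rwa [one_pow, ← pow_mul, show (1 + t) ^ 2 - 1 = t * t by linear_combination t * h.two] at this
  exact ⟨1 + t * (y * (1 + t)), h.unit _, by rw [pow_succ]; linear_combination (1 + t) * hy⟩

section

variable {M : Type} [AddCommGroup M] {f : M →+ M} {S : AddSubgroup M}

theorem mu4_split (f : M →+ M) (S : AddSubgroup M) :
    Nat.card S = Nat.card (S ⊓ f.ker : AddSubgroup M) * Nat.card (S.map f) := by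
  rw [AddSubgroup.card_eq_card_quotient_mul_card_addSubgroup (f.comp S.subtype).ker, mul_comm,
    Nat.card_congr (QuotientAddGroup.quotientKerEquivRange (f.comp S.subtype)).toEquiv,
    AddMonoidHom.range_comp, AddSubgroup.range_subtype]
  congr 1
  rw [← AddMonoidHom.comap_ker, AddSubgroup.comap_subtype, ← AddSubgroup.inf_addSubgroupOf_left]
  exact Nat.card_congr (AddSubgroup.addSubgroupOfEquivOfLe inf_le_left).toEquiv

/-- An upper bound along the filtration by images. -/
theorem card_le_pow [Finite S] {C r : ℕ} (hS : ∀ x ∈ S, f x ∈ S) (h0 : ∀ x ∈ S, f^[r] x = 0)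
    (hC : Nat.card (S ⊓ f.ker : AddSubgroup M) ≤ C) : Nat.card S ≤ C ^ r := by
  induction r generalizing S with
  | zero => rw [(AddSubgroup.eq_bot_iff_forall S).2 h0]; simp
  | succ r ih =>
    have l : S.map f ≤ S := fun _ ⟨x, hx, e⟩ => e ▸ hS x hx
    have := Finite.Set.subset (S : Set M) l
    have : Finite (S ⊓ f.ker : AddSubgroup M) := Finite.Set.subset (S : Set M) inf_le_left
    rw [mu4_split f S, pow_succ']
    exact Nat.mul_le_mul hC (ih (S := S.map f) (fun x hx => ⟨x, l hx, rfl⟩)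
      (fun _ ⟨x, hx, e⟩ => e ▸ h0 x hx)
      ((AddSubgroup.card_le_of_le (inf_le_inf_right _ l)).trans hC))

/-- A lower bound along the same filtration. -/
theorem pow_le_card [Finite S] {r k : ℕ} (hS : ∀ x ∈ S, f x ∈ S) {y : M} (hy : y ∈ S)
    (h0 : f^[k] y = 0) (h1 : f^[r] y ≠ 0) : 2 ^ (r + 1) ≤ Nat.card S := by
  have two : ∀ {S : AddSubgroup M} [Finite S], (∀ x ∈ S, f x ∈ S) → ∀ k, ∀ y ∈ S, y ≠ 0 →
      f^[k] y = 0 → 2 ≤ Nat.card (S ⊓ f.ker : AddSubgroup M) := fun {S} _ hS k => by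
    have : Finite (S ⊓ f.ker : AddSubgroup M) := Finite.Set.subset (S : Set M) inf_le_left
    induction k with
    | zero => exact fun y _ h h' => absurd h' h
    | succ k ih =>
      intro y hy h h'
      by_cases e : f y = 0
      · exact (AddSubgroup.one_lt_card_iff_ne_bot _).2 fun b =>
          h ((AddSubgroup.eq_bot_iff_forall _).1 b y ⟨hy, e⟩)
      · exact ih _ (hS y hy) e h'
  induction r generalizing S y with
  | zero =>
    exact (AddSubgroup.one_lt_card_iff_ne_bot _).2 fun b =>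
      h1 ((AddSubgroup.eq_bot_iff_forall _).1 b y hy)
  | succ r ih =>
    have l : S.map f ≤ S := fun _ ⟨x, hx, e⟩ => e ▸ hS x hx
    have := Finite.Set.subset (S : Set M) l
    rw [mu4_split f S, pow_succ']
    refine Nat.mul_le_mul (two hS k y hy (fun e => h1 ?_) h0)
      (ih (S := S.map f) (fun x hx => ⟨x, l hx, rfl⟩) ⟨y, hy, rfl⟩ ?_ h1)
    · rw [e, iterate_map_zero]
    · rw [← Function.iterate_succ_apply, Function.iterate_succ_apply', h0, map_zero]

end

end Pool.Agent.Lib.MP_696deb_nt.B2
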