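import Pool.Agent.Lib.MP_696deb_nt.B2.GWh
import Pool.Agent.Lib.MP_696deb_nt.B2.LOK0

/-! Unramified classes and unit classes with coefficients in a group of exponent two. -/

set_option autoImplicit false

open scoped Classical
open Finset

namespace Pool.Agent.Lib.MP_696deb_nt.B2

variable {M M' : Type} [AddCommGroup M] [AddCommGroup M'] {H : Subgroup Gam} {w : Plc}
  {a : Gam → M →+ M} {a' : Gam → M' →+ M'} {b : M →+ M' →+ ZMod (2 ^ 1)} {F : CFT}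

/-- Unramified local cocycles. -/
def Lur (H : Subgroup Gam) (w : Plc) (a : Gam → M →+ M) : AddSubgroup (Gam → M) where
  carrier := {c | c ∈ Z1 (H ⊓ Dec w) a ∧ ∀ σ ∈ H ⊓ Ine w, c σ = 0}
  zero_mem' := ⟨zero_mem _, fun _ _ => rfl⟩
  add_mem' h k := ⟨add_mem h.1 k.1, fun σ hσ => by rw [Pi.add_apply, h.2 σ hσ, k.2 σ hσ, add_zero]⟩
  neg_mem' h := ⟨neg_mem h.1, fun σ hσ => by rw [Pi.neg_apply, h.2 σ hσ, neg_zero]⟩

/-- Cochains whose coordinates are characters that are orthogonal to unramified characters. -/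
def UnK (F : CFT) (H : Subgroup Gam) (w : Plc) (c : Gam → M) : Prop :=
  ∀ f : M →+ Z2, Coc (H ⊓ Dec w) tr (fun g => f (c g)) ∧ ∀ χ : Gam → Z2, Coc (H ⊓ Dec w) tr χ →
    (∀ σ ∈ H ⊓ Ine w, χ σ = 0) → F.inv 1 H w (cupb mu2 tr χ fun g => f (c g)) = 0

theorem UnK.map {c : Gam → M} (h : UnK F H w c) (φ : M →+ M') : UnK F H w fun g => φ (c g) :=
  fun f => h (f.comp φ)

theorem UnK.congr {c c' : Gam → M} (h : UnK F H w c) (k : ∀ g ∈ H ⊓ Dec w, c g = c' g) :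
    UnK F H w c' := fun f =>
  ⟨(h f).1.congr fun g hg => by rw [k g hg], fun χ h1 h2 => by
    rw [← (h f).2 χ h1 h2]
    exact inv_cupb_congr F (fun _ _ => rfl) fun g hg => by rw [k g hg]⟩

theorem UnK.zero (hH : Op H) : UnK F H w (0 : Gam → M) := fun f =>
  ⟨(Coc.zero _ _).congr fun _ _ => (map_zero f).symm, fun χ h1 _ =>
    inv_cupb_right F hH (dual_tr _) h1 (y := 0) fun _ _ => by simp [cob]⟩

theorem UnK.add (hH : Op H) {c c' : Gam → M} (h : UnK F H w c) (k : UnK F H w c') :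
    UnK F H w (c + c') := fun f => by
  have e : (fun g => f ((c + c') g)) = (fun g => f (c g)) + fun g => f (c' g) :=
    funext fun g => map_add f _ _
  rw [e]
  exact ⟨(h f).1.add (k f).1, fun χ h1 h2 => by
    rw [inv_cupb_add_right F hH (dual_tr _) h1 (h f).1 (k f).1, (h f).2 χ h1 h2, (k f).2 χ h1 h2,
      add_zero]⟩

/-- The dual local condition. -/
def Lun (F : CFT) (hH : Op H) (w : Plc) (a : Gam → M →+ M) : AddSubgroup (Gam → M) where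
  carrier := {c | c ∈ Z1 (H ⊓ Dec w) a ∧ UnK F H w c}
  zero_mem' := ⟨zero_mem _, UnK.zero hH⟩
  add_mem' h k := ⟨add_mem h.1 k.1, h.2.add hH k.2⟩
  neg_mem' h := ⟨neg_mem h.1, h.2.map (negAddMonoidHom)⟩

theorem mu5_ine (H : Subgroup Gam) (w : Plc) : H ⊓ Ine w ≤ H ⊓ Dec w :=
  inf_le_inf_left _ (Ine_le w)

theorem rs_mem_Lur {c : Gam → M} (h : Coc H a c) :
    rs (H ⊓ Dec w) c ∈ Lur H w a ↔ ∀ σ ∈ H ⊓ Ine w, c σ = 0 :=
  ⟨fun k σ hσ => rs_of_mem (mu5_ine H w hσ) c ▸ k.2 σ hσ, fun k =>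
    ⟨rs_mem_Z1 (h.mono inf_le_left), fun σ hσ => (rs_of_mem (mu5_ine H w hσ) c).trans (k σ hσ)⟩⟩

theorem rs_mem_Lun {hH : Op H} {c : Gam → M} (h : Coc H a c) :
    rs (H ⊓ Dec w) c ∈ Lun F hH w a ↔ UnK F H w c :=
  ⟨fun k => k.2.congr fun _ hg => rs_of_mem hg c, fun k =>
    ⟨rs_mem_Z1 (h.mono inf_le_left), k.congr fun _ hg => (rs_of_mem hg c).symm⟩⟩

theorem mu5_val (x : M) (hx : 2 ^ 1 • x = 0) (s t : Z2) :
    (s + t).val • x = s.val • x + t.val • x := by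
  have h2 : x + x = 0 := by rwa [pow_one, two_smul] at hx
  have v1 : (1 : Z2).val = 1 := rfl
  rcases Z2.cases s with rfl | rfl <;> rcases Z2.cases t with rfl | rfl <;>
    simp [v1, Z2.add_self, h2]

theorem mu5_mem (ha : ∀ g ∈ H ⊓ Dec w, ∀ x, a g x = x) {χ : Gam → Z2} (h1 : Coc (H ⊓ Dec w) tr χ)
    (h2 : ∀ σ ∈ H ⊓ Ine w, χ σ = 0) {x : M} (hx : 2 ^ 1 • x = 0) :
    rs (H ⊓ Dec w) (fun g => (χ g).val • x) ∈ Lur H w a :=
  ⟨rs_mem_Z1 ⟨h1.1.comp fun s => s.val • x, fun g hg k hk => by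
    simp only [h1.2 g hg k hk, tr_apply, mu5_val x hx, ha g hg]⟩, fun σ hσ => by
    rw [rs_of_mem (mu5_ine H w hσ), h2 σ hσ, ZMod.val_zero, zero_smul]⟩

theorem LD.om_coc (L : LD H w) : Coc (H ⊓ Dec w) tr (L.om 1) := coc_tr.2 ⟨L.om_sm 1, L.om_hom 1⟩

theorem mu5_eq (L : LD H w) (ha : ∀ g ∈ H ⊓ Dec w, ∀ x, a g x = x) (hA : Act (H ⊓ Dec w) a)
    (hM : ∀ x : M, 2 ^ 1 • x = 0) {c : Gam → M} (h : c ∈ Lur H w a) :
    c = rs (H ⊓ Dec w) fun g => (L.om 1 g).val • c L.φ := by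
  have k := sub_mem h (mu5_mem ha L.om_coc (fun _ => L.om_ine 1) (hM (c L.φ)))
  refine sub_eq_zero.1 (funext fun g => ?_)
  by_cases hg : g ∈ H ⊓ Dec w
  · refine L.unr_zero hA k.1.1 k.2 ?_ g hg
    rw [Pi.sub_apply, rs_of_mem L.φ_mem', L.om_φ, show (1 : Z2).val = 1 from rfl, one_smul, sub_self]
  · exact k.1.2 g hg

theorem card_Lur (hH : Op H) (ha : ∀ g ∈ H ⊓ Dec w, ∀ x, a g x = x) (hA : Act (H ⊓ Dec w) a)
    (hM : ∀ x : M, 2 ^ 1 • x = 0) : Nat.card (Lur H w a) = Nat.card M := by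
  obtain ⟨L⟩ := exists_LD hH w
  refine Nat.card_eq_of_bijective (fun c => c.1 L.φ) ⟨fun c c' e => Subtype.ext ?_, fun x =>
    ⟨⟨_, mu5_mem ha L.om_coc (fun _ => L.om_ine 1) (hM x)⟩, ?_⟩⟩
  · rw [mu5_eq L ha hA hM c.2, mu5_eq L ha hA hM c'.2, show c.1 L.φ = c'.1 L.φ from e]
  · simp only [rs_of_mem L.φ_mem', L.om_φ, show (1 : Z2).val = 1 from rfl, one_smul]

theorem mu5_cup (ha' : ∀ g ∈ H ⊓ Dec w, ∀ x, a' g x = x) (χ : Gam → Z2) (x : M) (c' : Gam → M') :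
    F.inv 1 H w (cupb b a' (rs (H ⊓ Dec w) fun g => (χ g).val • x) c') =
      F.inv 1 H w (cupb mu2 tr χ fun g => b x (c' g)) :=
  F.congr fun g hg k _ => by
    simp only [cupb, rs_of_mem hg, ha' g hg, map_nsmul, AddMonoidHom.nsmul_apply, nsmul_eq_mul,
      ZMod.natCast_val, ZMod.cast_id', id, mu2_apply, tr_apply]

theorem maxIso_ur (F : CFT) (hH : Op H) [Finite M] [Finite M'] (hd : Dual 1 (H ⊓ Dec w) a a' b)
    (ha : ∀ g ∈ H ⊓ Dec w, ∀ x, a g x = x) (ha' : ∀ g ∈ H ⊓ Dec w, ∀ x, a' g x = x) :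
    MaxIso F 1 H w a a' b (Lur H w a) (Lun F hH w a') := by
  obtain ⟨L⟩ := exists_LD hH w
  have z : ∀ x, rs (H ⊓ Dec w) (cob a x) = 0 := fun x => funext fun g => by
    by_cases hg : g ∈ H ⊓ Dec w
    · rw [rs_of_mem hg, cob, ha g hg, sub_self, Pi.zero_apply]
    · exact rs_of_notMem hg _
  have z' : ∀ x, rs (H ⊓ Dec w) (cob a' x) = 0 := fun x => funext fun g => by
    by_cases hg : g ∈ H ⊓ Dec w
    · rw [rs_of_mem hg, cob, ha' g hg, sub_self, Pi.zero_apply]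
    · exact rs_of_notMem hg _
  have l : LocC H w a (Lur H w a) := ⟨fun _ h => h.1, fun x => z x ▸ zero_mem _⟩
  have l' : LocC H w a' (Lun F hH w a') := ⟨fun _ h => h.1, fun x => z' x ▸ zero_mem _⟩
  refine ⟨l, l', fun c hc c' hc' => ?_, ?_⟩
  · rw [mu5_eq L ha hd.act hd.pow_smul hc, mu5_cup ha']
    exact (hc'.2 _).2 _ L.om_coc fun _ => L.om_ine 1
  · have := (ld F 1 H w M' M a' a b.flip _ hH hd.flip l').1
    have fin : (Lun F hH w a' : Set (Gam → M')).Finite :=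
      Finite.Set.subset (Z1 (H ⊓ Dec w) a' : Set _) l'.1
    rw [← (ld F 1 H w M M' a a' b _ hH hd l).2]
    refine Nat.mul_le_mul_left _ (Nat.card_mono fin
      fun c' hc' => ⟨hc'.1, fun f => ⟨hc'.1.1.map f fun g hg x => by rw [ha' g hg, tr_apply],
        fun χ h1 h2 => ?_⟩⟩)
    have : Finite (M' →+ ZMod (2 ^ 1)) := finite_hom
    obtain ⟨x, rfl⟩ := ((Nat.bijective_iff_injective_and_card b).2
      ⟨(injective_iff_map_eq_zero b).2 fun x hx => hd.left x fun y => by rw [hx]; rfl,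
        le_antisymm (Nat.card_le_card_of_injective b ((injective_iff_map_eq_zero b).2 fun x hx =>
          hd.left x fun y => by rw [hx]; rfl)) (hd.card_eq ▸ card_hom_le)⟩).2 f
    rw [← mu5_cup ha']
    exact hc'.2 _ (mu5_mem ha h1 h2 (hd.pow_smul x))

/-- The Kummer condition at two in terms of the two isogeny characters. -/
theorem KumC.two (F : CFT) {T : Tate} {n : ℕ} (hn : n % 8 = 3) (hw : w.p = 2)
    {c : Gam → Fin 2 → M} (h : KumC T (GK n ⊓ Dec w) c)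
    (sep : ∀ x : M, (∀ f : M →+ Z2, f x = 0) → x = 0) :
    (∀ σ ∈ GK n ⊓ Ine w, c σ 0 = 0) ∧ UnK F (GK n) w fun g => c g 0 + c g 1 := by
  have key : ∀ f : M →+ Z2, (∀ σ ∈ Ine w, f (c σ 0) = 0) ∧
      ∃ u, w.V u = 1 ∧ Kum 1 (GK n ⊓ Dec w) u fun g => f (c g 0 + c g 1) := fun f => by
    obtain ⟨S, hS⟩ := h 1 f
    refine ((T.kum2 n w (fun g => f (c g 0)) (fun g => f (c g 0 + c g 1)) hn hw).1
      ⟨S, fun g hg => ?_⟩).imp (fun k => k.2.2) id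
    have e : (fun i => f (c g i)) = (f (c g 0)).val • ![1, 0] + (f (c g 1)).val • ![0, 1] := by
      ext i
      fin_cases i <;> simp
    rw [← hS g hg]
    beta_reduce
    rw [e, map_add, map_nsmul, map_nsmul, T.e0, T.e1, map_add,
      mu5_val T1 (by simpa using two_T1), ← T1_add_T2, smul_add]
    abel
  refine ⟨fun σ hσ => sep _ fun f => (key f).1 σ hσ.2, fun f => ?_⟩
  obtain ⟨u, h1, h2⟩ := (key f).2
  exact ⟨h2.coc_tr, fun χ k1 k2 => by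
    rw [cupb_tr]
    exact F.unit (op_GK n) (coc_tr.1 k1).1 (coc_tr.1 k1).2 k2 h2 h1⟩

end Pool.Agent.Lib.MP_696deb_nt.B2
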