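import Pool.Agent.Lib.MP_696deb_nt.B2.MU4
import Pool.Agent.Lib.MP_696deb_nt.B2.MU5
import Pool.Agent.Lib.MP_696deb_nt.B2.GW
import Pool.Agent.Lib.MP_696deb_nt.B2.LO1

/-! Selmer groups of characters of the dihedral tower in characteristic two. -/

set_option autoImplicit false

open scoped Classical
open Finset

namespace Pool.Agent.Lib.MP_696deb_nt.B2

section

variable {M M' : Type} [AddCommGroup M] [AddCommGroup M'] {H : Subgroup Gam} {a : Gam → M →+ M}
  {a' : Gam → M' →+ M'}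

/-- Cocycles that are unramified away from `s`, trivial at the places in `R`, satisfy a condition
at `v`, and vanish on `Φ`. -/
noncomputable def ZZ (H : Subgroup Gam) (a : Gam → M →+ M) (s R : Finset Plc) (v : Plc)
    (L : AddSubgroup (Gam → M)) (Φ : Set Gam) : AddSubgroup (Gam → M) :=
  Zu H a s ⊓ (⨅ w ∈ R, (B1 (H ⊓ Dec w) a).comap (rs (H ⊓ Dec w))) ⊓ L.comap (rs (H ⊓ Dec v)) ⊓
    ⨅ g ∈ Φ, (Pi.evalAddMonoidHom (fun _ => M) g).ker

theorem mem_ZZ {s R : Finset Plc} {v : Plc} {L : AddSubgroup (Gam → M)} {Φ : Set Gam}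
    {c : Gam → M} : c ∈ ZZ H a s R v L Φ ↔ c ∈ Zu H a s ∧
      (∀ w ∈ R, ∃ x, ∀ g ∈ H ⊓ Dec w, c g = cob a x g) ∧ rs (H ⊓ Dec v) c ∈ L ∧
      ∀ g ∈ Φ, c g = 0 := by
  simp only [ZZ, AddSubgroup.mem_inf, AddSubgroup.mem_iInf, AddSubgroup.mem_comap, rs_mem_B1,
    AddMonoidHom.mem_ker, Pi.evalAddMonoidHom_apply, and_assoc]

theorem card_Sel_ZZ {s R : Finset Plc} {v : Plc} (hR : R ⊆ s) (hv : v ∈ s) (hv' : v ∉ R)
    (L : Plc → AddSubgroup (Gam → M)) : Nat.card (Sel H a s R {v} L) =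
      Nat.card (ZZ H a s R v (L v) ∅) * ∏ w ∈ R, Nat.card (H0 (H ⊓ Dec w) a) := by
  rw [card_Sel H a hR (singleton_subset_iff.2 hv) (disjoint_singleton_right.2 hv')]
  congr 3
  ext c
  rw [mem_Zc, mem_ZZ]
  refine and_congr_right fun _ => ⟨fun h => ⟨fun w hw => ?_, ?_, fun _ k => k.elim⟩,
    fun h w _ => ?_⟩
  · have := h w (hR hw)
    rwa [if_pos hw, rs_mem_B1] at this
  · have := h v hv
    rwa [if_neg hv', if_pos (mem_singleton_self v)] at this
  · split_ifs with k k'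
    · exact rs_mem_B1.2 (h.1 w k)
    · rw [mem_singleton.1 k']
      exact h.2.1
    · trivial

theorem ZZ_insert {s R : Finset Plc} {v : Plc} {L : AddSubgroup (Gam → M)} (Φ : Set Gam)
    (z : Gam) : ZZ H a s R v L Φ ⊓ (Pi.evalAddMonoidHom (fun _ => M) z).ker =
      ZZ H a s R v L (insert z Φ) := by
  ext c
  simp only [AddSubgroup.mem_inf, mem_ZZ, AddMonoidHom.mem_ker, Pi.evalAddMonoidHom_apply,
    Set.forall_mem_insert]
  tauto

theorem card_ZZ_le [Finite M] {s R : Finset Plc} {v : Plc} {L : AddSubgroup (Gam → M)}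
    (Φ : Set Gam) (z : Gam) :
    Nat.card (ZZ H a s R v L Φ) ≤ Nat.card (ZZ H a s R v L (insert z Φ)) * Nat.card M := by
  rw [card_map_inf (Pi.evalAddMonoidHom (fun _ => M) z), ZZ_insert]
  exact Nat.mul_le_mul_left _ (Nat.card_le_card_of_injective _ (AddSubgroup.subtype_injective _))

theorem finite_ZZ {s R : Finset Plc} {v : Plc} {L : AddSubgroup (Gam → M)} {Φ : Set Gam}
    (h : Finite (Zu H a s)) : Finite (ZZ H a s R v L Φ) :=
  Finite.Set.subset (Zu H a s : Set (Gam → M)) fun _ k => (mem_ZZ.1 k).1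

/-- The formula of Greenberg and Wiles for characters. -/
theorem mu_gw (F : CFT) (su : SUStmt) (ch : ChebStmt) {n : ℕ} (hn : 0 < n) [Finite M] [Finite M']
    {b : M →+ M' →+ ZMod (2 ^ 1)} (hd : Dual 1 (GK n) a a' b) {s R X : Finset Plc} {v : Plc}
    (hs : Apart (GK n) s) (e : s = R ∪ X ∪ {v}) (d : Disjoint R X) (hv : v.p = 2)
    (ho : ∀ w ∈ R ∪ X, w.p ≠ 2) (hg : GoodA (GK n) a s) (ha : ∀ g ∈ GK n ⊓ Dec v, ∀ x, a g x = x)
    (ha' : ∀ g ∈ GK n ⊓ Dec v, ∀ x, a' g x = x) :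
    Nat.card (ZZ (GK n) a s R v (Lur (GK n) v a) ∅) * (∏ w ∈ R, Nat.card (H0 (GK n ⊓ Dec w) a)) *
      Nat.card M = Nat.card (ZZ (GK n) a' s X v (Lun F (op_GK n) v a') ∅) *
        ∏ w ∈ X, Nat.card (H0 (GK n ⊓ Dec w) a') := by
  have v1 : v ∉ R := fun k => ho v (mem_union_left _ k) hv
  have v2 : v ∉ X := fun k => ho v (mem_union_right _ k) hv
  have k := (gw F su ch 1 (GK n) M M' a a' b s R X {v} (fun w => Lur (GK n) w a)
    (fun w => Lun F (op_GK n) w a') (op_GK n) (tc_of_le hn le_rfl) (index_GK hn) hd hs e d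
    (disjoint_singleton_right.2 v1) (disjoint_singleton_right.2 v2) ho hg fun w hw => by
      rw [mem_singleton.1 hw]
      exact maxIso_ur F (op_GK n) (hd.mono inf_le_left) ha ha').2
  have m : v ∈ s := e ▸ mem_union_right _ (mem_singleton_self v)
  rw [card_Sel_ZZ (e ▸ subset_union_left.trans subset_union_left) m v1,
    card_Sel_ZZ (e ▸ subset_union_right.trans subset_union_left) m v2, index_GK hn,
    prod_singleton, card_Lur (op_GK n) ha (hd.act.mono inf_le_left) hd.pow_smul, card_singleton,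
    pow_succ, ← mul_assoc] at k
  simpa using Nat.eq_of_mul_eq_mul_right Nat.card_pos k

end

variable {A A' : Type} [CommRing A] [CommRing A'] {t s : A} {t' : A'} {j i n : ℕ}
  {ξ : Gam → ZMod 2} {e : Gam → ℕ} {lam w : Plc}

/-- The action through powers of `1 + t`. -/
def aT (t : A) (e : Gam → ℕ) (g : Gam) : A →+ A := AddMonoidHom.mulLeft ((1 + t) ^ e g)

@[simp] theorem aT_apply (t : A) (e : Gam → ℕ) (g : Gam) (x : A) :
    aT t e g x = (1 + t) ^ e g * x := rfl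

theorem MuA.one (E : MuA t n ξ e lam) (h : Trunc t j) : (1 + t) ^ e 1 = 1 := by
  have k := E.mul 1 (one_mem _) 1 (one_mem _)
  rw [mul_one] at k
  exact (((mul_one t ▸ h.unit 1).pow _).mul_right_inj.1 (k.symm.trans (mul_one _).symm))

theorem MuA.pow (E : MuA t n ξ e lam) (h : Trunc t j) {g : Gam} (hg : g ∈ GK n) (k : ℕ) :
    (1 + t) ^ e (g ^ k) = ((1 + t) ^ e g) ^ k := by
  induction k with
  | zero => rw [pow_zero g, E.one h, pow_zero]
  | succ k ih => rw [pow_succ g, E.mul _ (pow_mem hg k) _ hg, ih, pow_succ]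

theorem MuA.act (E : MuA t n ξ e lam) (h : Trunc t j) : Act (GK n) (aT t e) := by
  refine ⟨E.sm.comp fun k => AddMonoidHom.mulLeft ((1 + t) ^ k), fun x => by
    rw [aT_apply, E.one h, one_mul], fun g hg k hk x => by
    simp only [aT_apply, E.mul g hg k hk, mul_assoc], fun g hg => ⟨j, fun x => ?_⟩⟩
  have : ∀ k : ℕ, (1 + t) ^ 2 ^ k = 1 + t ^ 2 ^ k := fun k => by
    induction k with
    | zero => simp
    | succ k ih =>
      rw [pow_succ, pow_mul, pow_mul, ih]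
      linear_combination t ^ 2 ^ k * h.two
  rw [aT_apply, E.pow h hg, ← pow_mul, mul_comm (e g), pow_mul, this,
    pow_eq_zero_of_le Nat.lt_two_pow_self.le h.nil, add_zero, one_pow, one_mul]

theorem MuA.of_le (E : MuA t n ξ e lam) (h : Trunc t j) (h' : Trunc t' i) (l : i ≤ j) :
    MuA t' n ξ e lam := by
  obtain ⟨ι, r, h1, h2, -⟩ := h.exists_emb h' l
  have k : ∀ a b : ℕ, (1 + t) ^ a = (1 + t) ^ b → (1 + t') ^ a = (1 + t') ^ b := fun a b k => by
    rw [← mul_one (_ ^ a), ← mul_one (_ ^ b), ← h1 (_ * 1), mu4_pow h2, k, ← mu4_pow h2, h1]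
  have k0 : ∀ a : ℕ, (1 + t) ^ a = 1 → (1 + t') ^ a = 1 := fun a l =>
    (k a 0 (l.trans (pow_zero _).symm)).trans (pow_zero _)
  exact ⟨E.sm, E.par, fun g hg u hu => by
    rw [← pow_add]
    exact k _ _ (pow_add (1 + t) _ _ ▸ E.mul g hg u hu), fun g hg => by
    rw [← pow_add]
    exact k0 _ (pow_add (1 + t) _ _ ▸ E.dih g hg), fun w hw σ hσ => k0 _ (E.ine w hw σ hσ), E.nd,
    E.inert, E.ram⟩

theorem MuA.dual (E : MuA t n ξ e lam) (h : Trunc t j) (h' : Trunc s j)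
    (k : (1 + t) * (1 + s) = 1) : ∃ b, Dual 1 (GK n) (aT t e) (aT s e) b := by
  obtain ⟨f, hf⟩ := h.exists_lam
  refine ⟨AddMonoidHom.mul.compr₂ f, E.act h, (E.of_le h h' le_rfl).act h', fun g _ x y => ?_,
    hf, fun y hy => hf y fun x => mul_comm x y ▸ hy x⟩
  simp only [AddMonoidHom.compr₂_apply, AddMonoidHom.mul_apply, aT_apply, cy_one_eq, one_mul]
  rw [mul_mul_mul_comm, ← mul_pow, k, one_pow, one_mul]

theorem MuA.sq (E : MuA t n ξ e lam) (hn : 0 < n) {φ : Gam} (h : φ ∉ GK n) :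
    (1 + t) ^ e (φ * φ) = 1 := by
  have k := mul_mem_GK (cc_notMem hn) h
  have l := E.dih _ k
  rw [← E.mul _ (conj_cc_mem k) _ k] at l
  simp only [← mul_assoc, cc_mul_cc, one_mul] at l
  rwa [mul_assoc φ, cc_mul_cc, mul_one] at l

/-- At inert places the action is trivial. -/
theorem MuA.triv (E : MuA t n ξ e lam) (h : Trunc t j) (hn : 0 < n) (hw : w.p ≠ lam.p)
    (hI : Ine w ≤ GK n) {φ : Gam} (hφ : IsFrob w w.p φ) (h' : φ ∉ GK n) :
    ∀ g ∈ GK n ⊓ Dec w, ∀ x, aT t e g x = x := fun g hg x => by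
  obtain ⟨U, u1, -, u3⟩ := E.sm
  obtain ⟨k, σ, h1, h2⟩ := dec_gen_inert hφ h' hI hg u1
  have m := pow_mem (mul_mem_GK h' h') k
  rw [aT_apply, ← u3 _ (mul_mem m (hI h1)) g hg.1 h2.1, E.mul _ m _ (hI h1), E.pow h
    (mul_mem_GK h' h'), E.sq hn h', E.ine w hw σ ⟨hI h1, h1⟩, one_pow, one_mul, one_mul]

theorem MuA.card_H0 (E : MuA t n ξ e lam) (h : Trunc t j) {D : Subgroup Gam} {g : Gam}
    (hg : g ∈ GK n) (hD : g ∈ D) (k : ξ g = 1) : Nat.card (H0 D (aT t e)) ≤ 2 := by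
  obtain ⟨u, h1, h2⟩ := h.odd ((E.par g hg).trans k)
  refine h.card_ker 1 fun x hx => ?_
  have := hx g hD
  rw [aT_apply, ← sub_eq_zero, ← sub_one_mul, h2, mul_comm t, mul_assoc,
    h1.mul_right_eq_zero] at this
  rwa [pow_one]

/-- Normalisation at a generator. -/
theorem MuA.card_norm (E : MuA t n ξ e lam) (h : Trunc t j) {Z : AddSubgroup (Gam → A)} [Finite Z]
    (hZ : B1 (GK n) (aT t e) ≤ Z) {z : Gam} (hz : z ∈ GK n) (k : ξ z = 1) :
    Nat.card (Z ⊓ (Pi.evalAddMonoidHom (fun _ => A) z).ker : AddSubgroup _) * Nat.card A ≤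
      2 * Nat.card Z := by
  have := h.finite
  obtain ⟨u, h1, h2⟩ := h.odd ((E.par z hz).trans k)
  rw [card_map_inf (Pi.evalAddMonoidHom (fun _ => A) z) Z, mul_left_comm,
    card_ker_range (AddMonoidHom.mulLeft (t * u))]
  refine Nat.mul_le_mul_left _ (Nat.mul_le_mul (h.card_ker 1 fun x hx => ?_)
    (AddSubgroup.card_le_of_le ?_))
  · rw [pow_one, ← h1.mul_right_eq_zero, ← mul_assoc, mul_comm u]
    exact hx
  · rintro _ ⟨x, rfl⟩
    refine ⟨_, hZ ⟨x, rfl⟩, ?_⟩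
    rw [Pi.evalAddMonoidHom_apply, cobH_apply, rs_of_mem hz, cob, aT_apply, ← sub_one_mul, h2]
    rfl

end Pool.Agent.Lib.MP_696deb_nt.B2
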