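import Pool.Agent.Lib.MP_696deb_nt.B2.MU6
import Pool.Agent.Lib.MP_696deb_nt.B2.LO3

/-! Uniform bounds for the Selmer groups of the two isogeny characters. -/

set_option autoImplicit false

open scoped Classical
open Finset

namespace Pool.Agent.Lib.MP_696deb_nt.B2

variable {A A' : Type} [CommRing A] [CommRing A'] {t s : A} {t' : A'} {j i n : ℕ} {a b : ℤ}
  {ξ : Gam → ZMod 2} {e : Gam → ℕ} {lam w v : Plc} {Y : Finset Plc} {z : Gam}

/-- Cocycles that are everywhere unramified. -/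
def Sur (n : ℕ) (t : A) (e : Gam → ℕ) (lam : Plc) : AddSubgroup (Gam → A) where
  carrier := {c | c ∈ Z1 (GK n) (aT t e) ∧
    (∀ w : Plc, w.p ≠ lam.p → ∀ σ ∈ GK n ⊓ Ine w, c σ = 0) ∧ ∀ σ ∈ Ine lam, c σ = 0}
  zero_mem' := ⟨zero_mem _, fun _ _ _ _ => rfl, fun _ _ => rfl⟩
  add_mem' h k := ⟨add_mem h.1 k.1, fun w hw σ hσ => by
    rw [Pi.add_apply, h.2.1 w hw σ hσ, k.2.1 w hw σ hσ, add_zero], fun σ hσ => by
    rw [Pi.add_apply, h.2.2 σ hσ, k.2.2 σ hσ, add_zero]⟩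
  neg_mem' h := ⟨neg_mem h.1, fun w hw σ hσ => by rw [Pi.neg_apply, h.2.1 w hw σ hσ, neg_zero],
    fun σ hσ => by rw [Pi.neg_apply, h.2.2 σ hσ, neg_zero]⟩

/-- Multiplication of cochains by a constant. -/
def mT (x : A) : (Gam → A) →+ (Gam → A) := (AddMonoidHom.mulLeft x).compLeft Gam

theorem mT_apply (x : A) (c : Gam → A) (g : Gam) : mT x c g = x * c g := rfl

theorem mT_iter (x : A) (k : ℕ) (c : Gam → A) : (mT x)^[k] c = mT (x ^ k) c := by
  induction k with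
  | zero => exact funext fun g => by simp [mT_apply]
  | succ k ih =>
    rw [Function.iterate_succ_apply', ih]
    exact funext fun g => by simp only [mT_apply, pow_succ', mul_assoc]

theorem mT_coc {H : Subgroup Gam} {c : Gam → A} (h : Coc H (aT t e) c) (x : A) :
    Coc H (aT t e) (mT x c) :=
  h.map (AddMonoidHom.mulLeft x) fun _ _ _ => mul_left_comm _ _ _

theorem MuD.pos (D : MuD n a b ξ) : 0 < n := by
  have := D.mod4
  omega

theorem MuA.away (E : MuA t n ξ e lam) {S : Finset Plc} (h : lam ∈ S) (k : Away (GK n) S w) :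
    w.p ≠ lam.p := fun l => by
  obtain ⟨φ, h1, h2⟩ := E.inert
  obtain ⟨g, h3, h4⟩ := conj_of_inert l h1 h2
  exact k lam h g h3 h4

theorem finH_GK (hn : 0 < n) : FinH (GK n) := finH_two (op_GK n) (tc_of_le hn le_rfl) (index_GK hn)

theorem MuA.finite (E : MuA t n ξ e lam) (h : Trunc t j) (hn : 0 < n) (S : Finset Plc) :
    Finite (Zu (GK n) (aT t e) S) := by
  obtain ⟨s, h', k⟩ := h.exists_inv
  obtain ⟨b, hb⟩ := E.dual h h' k
  have := h.finite
  exact finite_Zu (finH_GK hn) hb S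

/-- The number of everywhere unramified quadratic characters. -/
noncomputable def muC (n : ℕ) : ℕ := Nat.card (Zu (GK n) tr ∅)

theorem muC_pos (hn : 0 < n) : 0 < muC n :=
  have := finH_GK hn ∅
  Nat.card_pos

theorem card_Sur (h : Trunc t j) (D : MuD n a b ξ) (E : MuA t n ξ e lam) :
    Finite (Sur n t e lam) ∧ Nat.card (Sur n t e lam) ≤ muC n ^ 4 := by
  have := E.finite h D.pos {lam}
  have le : Sur n t e lam ≤ Zu (GK n) (aT t e) {lam} :=
    fun c hc => ⟨hc.1, fun w hw => hc.2.1 w (E.away (mem_singleton_self _) hw)⟩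
  have fin : Finite (Sur n t e lam) := Finite.Set.subset (Zu (GK n) (aT t e) {lam} : Set _) le
  refine ⟨fin, card_le_pow (f := mT t) (fun c hc => ⟨⟨mT_coc hc.1.1 t, fun g hg => by
    rw [mT_apply, hc.1.2 g hg, mul_zero]⟩, fun w hw σ hσ => by
    rw [mT_apply, hc.2.1 w hw σ hσ, mul_zero], fun σ hσ => by
    rw [mT_apply, hc.2.2 σ hσ, mul_zero]⟩) (fun c hc => funext fun g => ?_) ?_⟩
  · rw [mT_iter, mT_apply, Pi.zero_apply]
    by_cases hg : g ∈ GK n
    · exact mu_core h D E hc.1.1.1 hc.1.1.2 hc.2.1 hc.2.2 g hg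
    · rw [hc.1.2 g hg, mul_zero]
  rcases Nat.eq_zero_or_pos j with rfl | hj
  · have := h.sub0
    exact Nat.card_unique.le.trans (muC_pos D.pos)
  obtain ⟨ι, r, h1, h2, h3⟩ := h.exists_emb trunc_one hj
  have := finH_GK D.pos ∅
  have k : ∀ c ∈ Sur n t e lam ⊓ (mT t).ker, ∀ g, ι (r (c g)) = c g := fun c hc g =>
    h3 _ (by rw [pow_one]; exact congrFun hc.2 g)
  have m : ∀ c ∈ Sur n t e lam ⊓ (mT t).ker, (fun g => r (c g)) ∈ Zu (GK n) tr ∅ := fun c hc => by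
    have l : Coc (GK n) tr fun g => r (c g) := hc.1.1.1.of_map ι (Function.LeftInverse.injective h1)
      (fun g _ x => by rw [aT_apply, ← mu4_pow h2]; simp) fun g _ => k c hc g
    refine ⟨⟨l, fun g hg => by simp only [hc.1.1.2 g hg, map_zero]⟩, fun w _ σ hσ => ?_⟩
    by_cases hw : w.p = lam.p
    · obtain ⟨φ, p1, p2⟩ := E.inert
      obtain ⟨g, p3, rfl⟩ := conj_of_inert hw p1 p2
      exact l.unr_smul (act_tr _) (fun _ _ _ => rfl)
        (fun σ hσ => by rw [hc.1.2.2 σ hσ.2, map_zero]) p3 σ hσ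
    · simp only [hc.1.2.1 w hw σ hσ, map_zero]
  exact Nat.card_le_card_of_injective (fun c : (Sur n t e lam ⊓ (mT t).ker : AddSubgroup _) =>
    (⟨_, m c c.2⟩ : Zu (GK n) tr ∅)) fun c c' l => Subtype.ext (funext fun g => by
      rw [← k c c.2 g, ← k c' c'.2 g]
      exact congrArg ι (congrFun (congrArg Subtype.val l) g))

/-- The places where conditions are imposed. -/
structure MuP (n : ℕ) (ξ : Gam → ZMod 2) (lam : Plc) (z : Gam) (v : Plc) (Y : Finset Plc) :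
    Prop where
  m8 : n % 8 = 3
  two : v.p = 2
  apart : Apart (GK n) (insert v Y)
  mem : lam ∈ Y
  odd : ∀ w ∈ Y, w.p ≠ 2 ∧ ∃ g ∈ GK n ⊓ Dec w, ξ g = 1
  gen : Gen lam z
  par : ξ z = 1

theorem MuP.pos (P : MuP n ξ lam z v Y) : 0 < n := by
  have := P.m8
  omega

theorem MuP.ine (P : MuP n ξ lam z v Y) (E : MuA t n ξ e lam) : Ine lam ≤ GK n :=
  ine_le_GK' (by have := P.m8; omega) E.nd

theorem MuP.good (P : MuP n ξ lam z v Y) (E : MuA t n ξ e lam) {S : Finset Plc}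
    (h : insert v Y ⊆ S) : GoodA (GK n) (aT t e) S := fun w hw => by
  obtain ⟨φ, hφ⟩ := exists_frob v
  refine ⟨fun k => ?_, fun σ hσ x => ?_⟩
  · obtain ⟨g, h1, h2⟩ := conj_of_inert (k.trans P.two.symm) hφ.1
      (lo3_inert P.m8 P.two (P.two ▸ hφ))
    exact hw v (h (mem_insert_self _ _)) g h1 h2
  · rw [aT_apply, E.ine w (E.away (h (mem_insert_of_mem P.mem)) hw) σ hσ, one_mul]

theorem MuP.triv (P : MuP n ξ lam z v Y) (h : Trunc t j) (E : MuA t n ξ e lam) :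
    ∀ g ∈ GK n ⊓ Dec v, ∀ x, aT t e g x = x := by
  obtain ⟨φ, hφ⟩ := exists_frob v
  have := P.m8
  exact E.triv h P.pos (P.two ▸ (P.odd _ P.mem).1.symm) (ine_le_GK' (by omega) (by
    rw [P.two]; omega)) hφ (lo3_inert P.m8 P.two (P.two ▸ hφ))

theorem MuP.prod (P : MuP n ξ lam z v Y) (h : Trunc t j) (E : MuA t n ξ e lam) :
    ∏ w ∈ Y, Nat.card (H0 (GK n ⊓ Dec w) (aT t e)) ≤ 2 ^ Y.card :=
  prod_le_pow_card _ _ _ fun w hw => by
    obtain ⟨g, h1, h2⟩ := (P.odd w hw).2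
    exact E.card_H0 h h1.1 h1 h2

theorem B1_le_ZZ {M : Type} [AddCommGroup M] {H : Subgroup Gam} {a : Gam → M →+ M}
    {S : Finset Plc} (hA : Act H a) (hg : GoodA H a S) (ha : ∀ g ∈ H ⊓ Dec v, ∀ x, a g x = x)
    (L : AddSubgroup (Gam → M)) : B1 H a ≤ ZZ H a S ∅ v L ∅ := by
  rintro _ ⟨x, rfl⟩
  refine mem_ZZ.2 ⟨⟨B1_le hA ⟨x, rfl⟩, fun w hw σ hσ => ?_⟩, by simp, ?_, by simp⟩
  · rw [cobH_apply, rs_of_mem hσ.1, cob, (hg w hw).2 σ hσ, sub_self]
  · convert L.zero_mem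
    funext g
    by_cases k : g ∈ H ⊓ Dec v
    · rw [rs_of_mem k, cobH_apply, rs_of_mem k.1, cob, ha g k, sub_self, Pi.zero_apply]
    · exact rs_of_notMem k _

theorem MuP.le_Sur (P : MuP n ξ lam z v Y) (h : Trunc t j) (E : MuA t n ξ e lam) :
    ZZ (GK n) (aT t e) (insert v Y) Y v (Lur (GK n) v (aT t e)) {z} ≤ Sur n t e lam := by
  intro c hc
  obtain ⟨⟨h1, h2⟩, h3, h4, h5⟩ := mem_ZZ.1 hc
  refine ⟨h1, fun w hw => ?_, fun σ hσ => ?_⟩
  · by_cases k : Away (GK n) (insert v Y) w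
    · exact h2 w k
    simp only [Away, not_forall, not_not] at k
    obtain ⟨u, hu, g, hg, rfl⟩ := k
    have l : ∀ σ ∈ GK n ⊓ Ine u, ∀ x, aT t e σ x = x := fun σ hσ x => by
      rw [aT_apply, E.ine u hw σ hσ, one_mul]
    refine h1.1.unr_smul (E.act h) l ?_ hg
    rcases mem_insert.1 hu with rfl | hu
    · exact (rs_mem_Lur h1.1).1 h4
    · obtain ⟨x, hx⟩ := h3 u hu
      exact fun σ hσ => by rw [hx σ (mu5_ine _ _ hσ), cob, l σ hσ, sub_self]
  · obtain ⟨k, l, -⟩ := P.gen.lo_pow h.smul_zero (P.odd _ P.mem).1 ((E.act h).mono (P.ine E))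
      (h1.1.mono (P.ine E)) hσ
    rw [l, h1.1.lo_pow_fix (E.act h) (P.ine E P.gen.1) (by rw [h5 z rfl, map_zero]), h5 z rfl,
      smul_zero]

/-- The classes of units that vanish on `Φ`. -/
noncomputable abbrev SB (F : CFT) (n : ℕ) (t : A) (e : Gam → ℕ) (v : Plc) (Y : Finset Plc)
    (Φ : Set Gam) : AddSubgroup (Gam → A) :=
  ZZ (GK n) (aT t e) (insert v Y) ∅ v (Lun F (op_GK n) v (aT t e)) Φ

variable (F : CFT) (su : SUStmt) (ch : ChebStmt)

theorem SB_map {Φ : Set Gam} {c : Gam → A} (hc : c ∈ SB F n t e v Y Φ) (φ : A →+ A')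
    (k : Coc (GK n) (aT t' e) fun g => φ (c g)) : (fun g => φ (c g)) ∈ SB F n t' e v Y Φ := by
  obtain ⟨⟨h1, h2⟩, -, h4, h5⟩ := mem_ZZ.1 hc
  exact mem_ZZ.2 ⟨⟨⟨k, fun g hg => by simp only [h1.2 g hg, map_zero]⟩, fun w hw σ hσ => by
    simp only [h2 w hw σ hσ, map_zero]⟩, by simp, (rs_mem_Lun k).2 (((rs_mem_Lun h1.1).1 h4).map φ),
    fun g hg => by simp only [h5 g hg, map_zero]⟩

theorem SB_mT {Φ : Set Gam} {c : Gam → A} (hc : c ∈ SB F n t e v Y Φ) (x : A) :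
    mT x c ∈ SB F n t e v Y Φ :=
  SB_map F hc (AddMonoidHom.mulLeft x) (mT_coc (mem_ZZ.1 hc).1.1.1 x)

theorem card_SB_le (h : Trunc t j) (h' : Trunc t' i) (l : i ≤ j) (E : MuA t n ξ e lam)
    (hn : 0 < n) (Φ : Set Gam) {S : AddSubgroup (Gam → A)} (h1 : S ≤ SB F n t e v Y Φ)
    (h2 : ∀ c ∈ S, ∀ g, t ^ i * c g = 0) : Nat.card S ≤ Nat.card (SB F n t' e v Y Φ) := by
  obtain ⟨ι, r, p1, p2, p3⟩ := h.exists_emb h' l
  have : Finite (SB F n t' e v Y Φ) := finite_ZZ ((E.of_le h h' l).finite h' hn _)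
  have k : ∀ c ∈ S, ∀ g, ι (r (c g)) = c g := fun c hc g => p3 _ (h2 c hc g)
  exact Nat.card_le_card_of_injective (fun c : S => (⟨_, SB_map F (h1 c.2) r
    ((mem_ZZ.1 (h1 c.2)).1.1.1.of_map ι (Function.LeftInverse.injective p1)
      (fun g _ x => mu4_pow p2 _ x) fun g _ => k c c.2 g)⟩ : SB F n t' e v Y Φ))
    fun c c' l => Subtype.ext (funext fun g => by
      rw [← k c c.2 g, ← k c' c'.2 g]
      exact congrArg ι (congrFun (congrArg Subtype.val l) g))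

include su ch

/-- The classes of units have rank at most one. -/
theorem card_SB (h : Trunc t j) (D : MuD n a b ξ) (E : MuA t n ξ e lam) (P : MuP n ξ lam z v Y) :
    Nat.card (SB F n t e v Y {z}) ≤ 2 ^ (Y.card + 1) * muC n ^ 4 * 2 ^ j := by
  obtain ⟨s, h', k⟩ := h.exists_inv
  have E' := E.of_le h h' le_rfl
  obtain ⟨β, hb⟩ := E'.dual h' h ((mul_comm _ _).trans k)
  have := h.finite
  have h1 := mu_gw F su ch D.pos hb (R := Y) (X := ∅) P.apart (by simp)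
    (disjoint_empty_right _) P.two (fun w hw => (P.odd w (by simpa using hw)).1)
    (P.good E' Subset.rfl) (P.triv h' E') (P.triv h E)
  have : Finite (SB F n t e v Y ∅) := finite_ZZ (E.finite h D.pos _)
  have h2 := E.card_norm h (B1_le_ZZ (E.act h) (P.good E Subset.rfl) (P.triv h E)
    (Lun F (op_GK n) v (aT t e))) (P.ine E P.gen.1) P.par
  obtain ⟨_, h3⟩ := card_Sur h' D E'
  have h4 := card_ZZ_le (H := GK n) (a := aT s e) (s := insert v Y) (R := Y) (v := v)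
    (L := Lur (GK n) v (aT s e)) ∅ z
  rw [ZZ_insert, insert_empty_eq] at h2
  rw [insert_empty_eq] at h4
  rw [prod_empty, mul_one] at h1
  rw [← h1, ← mul_assoc] at h2
  refine (Nat.le_of_mul_le_mul_right h2 Nat.card_pos).trans ?_
  rw [pow_succ', ← h.card, mul_assoc 2, mul_assoc 2, mul_assoc, mul_comm (2 ^ _)]
  exact Nat.mul_le_mul_left _ (Nat.mul_le_mul (h4.trans (Nat.mul_le_mul_right _
    ((AddSubgroup.card_le_of_le (P.le_Sur h' E')).trans h3))) (P.prod h' E'))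

/-- The dual bound. -/
theorem card_SA (h : Trunc t j) (E : MuA t n ξ e lam) (P : MuP n ξ lam z v Y)
    (hs : Apart (GK n) (insert v (insert w Y))) (w1 : w.p ≠ 2) (w2 : w.p ≠ lam.p) (w3 : w ∉ Y)
    (hI : Ine w ≤ GK n) {φ : Gam} (hφ : IsFrob w w.p φ) (h0 : φ ∉ GK n) :
    Nat.card (ZZ (GK n) (aT t e) (insert v (insert w Y)) ∅ v (Lur (GK n) v (aT t e)) {z}) ≤
      2 ^ (Y.card + 1) * Nat.card (SB F n t e v Y {φ * φ, z}) := by
  obtain ⟨s, h', k⟩ := h.exists_inv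
  have E' := E.of_le h h' le_rfl
  obtain ⟨β, hb⟩ := E.dual h h' k
  have := h.finite
  have sub : insert v Y ⊆ insert v (insert w Y) := insert_subset_insert _ (subset_insert _ _)
  have h1 := mu_gw F su ch P.pos hb (R := ∅) (X := insert w Y) hs
    (by rw [empty_union, union_singleton]) (disjoint_empty_left _) P.two (fun u hu => by
      rcases mem_insert.1 (by simpa using hu : u ∈ insert w Y) with rfl | hu
      exacts [w1, (P.odd u hu).1]) (P.good E sub) (P.triv h E) (P.triv h' E')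
  have : Finite (ZZ (GK n) (aT t e) (insert v (insert w Y)) ∅ v (Lur (GK n) v (aT t e)) ∅) :=
    finite_ZZ (E.finite h P.pos _)
  have h2 := E.card_norm h (B1_le_ZZ (E.act h) (P.good E sub) (P.triv h E)
    (Lur (GK n) v (aT t e))) (P.ine E P.gen.1) P.par
  have h4 := card_ZZ_le (H := GK n) (a := aT s e) (s := insert v (insert w Y)) (R := insert w Y)
    (v := v) (L := Lun F (op_GK n) v (aT s e)) ∅ z
  have tv := E'.triv h' P.pos w2 hI hφ h0
  have h5 : Nat.card (ZZ (GK n) (aT s e) (insert v (insert w Y)) (insert w Y) v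
      (Lun F (op_GK n) v (aT s e)) {z}) ≤ Nat.card (SB F n t e v Y {φ * φ, z}) := by
    refine card_SB_le F h' h le_rfl E' P.pos _ (fun c hc => ?_) fun c _ g => by
      rw [h'.nil, zero_mul]
    obtain ⟨⟨p1, p2⟩, p3, p4, p5⟩ := mem_ZZ.1 hc
    obtain ⟨x, hx⟩ := p3 w (mem_insert_self _ _)
    have p6 : ∀ g ∈ GK n ⊓ Dec w, c g = 0 := fun g hg => by rw [hx g hg, cob, tv g hg, sub_self]
    refine mem_ZZ.2 ⟨⟨p1, fun u hu => ?_⟩, by simp, p4, ?_⟩
    · by_cases l : ∃ g ∈ GK n, g • w = u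
      · obtain ⟨g, hg, rfl⟩ := l
        exact p1.1.unr_smul (E'.act h') (fun σ hσ => tv σ (mu5_ine _ _ hσ))
          (fun σ hσ => p6 σ (mu5_ine _ _ hσ)) hg
      refine p2 u fun y hy g hg l' => ?_
      rw [insert_comm] at hy
      rcases mem_insert.1 hy with rfl | hy
      exacts [l ⟨g, hg, l'⟩, hu y hy g hg l']
    · rintro g (rfl | rfl)
      exacts [p6 _ ⟨mul_mem_GK h0 h0, mul_mem hφ.1 hφ.1⟩, p5 _ rfl]
  rw [ZZ_insert, insert_empty_eq] at h2
  rw [insert_empty_eq] at h4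
  rw [prod_empty, mul_one, prod_insert w3] at h1
  have h6 := h1.le.trans (Nat.mul_le_mul (h4.trans (Nat.mul_le_mul_right _ h5)) (Nat.mul_le_mul
    (Nat.card_le_card_of_injective _ (AddSubgroup.subtype_injective _)) (P.prod h' E')))
  rw [← mul_assoc, mul_right_comm] at h6
  refine Nat.le_of_mul_le_mul_right (h2.trans ?_) (Nat.card_pos (α := A))
  refine (Nat.mul_le_mul_left 2 (Nat.le_of_mul_le_mul_right h6 Nat.card_pos)).trans (le_of_eq ?_)
  ring

end Pool.Agent.Lib.MP_696deb_nt.B2
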