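import Pool.Agent.Lib.MP_696deb_nt.B2.MU7

/-! One more condition makes the classes of units uniformly bounded. -/

set_option autoImplicit false

open scoped Classical
open Finset

namespace Pool.Agent.Lib.MP_696deb_nt.B2

variable {A : Type} [CommRing A] {t : A} {j n : ℕ} {a b : ℤ} {ξ : Gam → ZMod 2} {e : Gam → ℕ}
  {lam v : Plc} {Y : Finset Plc} {z : Gam} {N : Subgroup Gam}

/-- A normal subgroup that acts trivially, modulo which `z` is central. -/
structure MuN (t : A) (n : ℕ) (e : Gam → ℕ) (z : Gam) (N : Subgroup Gam) : Prop where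
  le : N ≤ GK n
  normal : N.Normal
  triv : ∀ σ ∈ N, (1 + t) ^ e σ = 1
  comm : ∀ g ∈ GK n, (g * z)⁻¹ * (z * g) ∈ N

theorem MuN.conj (Q : MuN t n e z N) {c : Gam → A} (hc : Coc (GK n) (aT t e) c) {g σ : Gam}
    (hg : g ∈ GK n) (hσ : σ ∈ N) : c (g * σ * g⁻¹) = (1 + t) ^ e g * c σ := by
  have m := Q.normal.conj_mem σ hσ g
  have h1 := hc.2 _ (Q.le m) g hg
  rw [inv_mul_cancel_right, hc.2 g hg σ (Q.le hσ), aT_apply, aT_apply, Q.triv _ m, one_mul,
    add_comm] at h1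
  exact (add_right_cancel h1).symm

theorem MuN.sah (Q : MuN t n e z N) (h : Trunc t j) (E : MuA t n ξ e lam) (hz : z ∈ GK n)
    (par : ξ z = 1) {c : Gam → A} (hc : Coc (GK n) (aT t e) c) (h0 : c z = 0)
    (k : ∀ σ ∈ N, c σ + c (cc * σ * cc) = 0) : ∀ g ∈ GK n, t ^ 3 * c g = 0 := by
  obtain ⟨u, u1, u2⟩ := h.odd ((E.par z hz).trans par)
  have h1 : ∀ σ ∈ N, t ^ 2 * c σ = 0 := fun σ hσ => by
    have m : cc * σ * cc ∈ N := by simpa only [cc_inv] using Q.normal.conj_mem σ hσ cc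
    have p := k _ (Q.normal.conj_mem σ hσ z)
    rw [show cc * (z * σ * z⁻¹) * cc = cc * z * cc * (cc * σ * cc) * (cc * z * cc)⁻¹ by
      simp only [mul_inv_rev, cc_inv, mul_assoc, ← mul_assoc cc cc, cc_mul_cc, one_mul],
      Q.conj hc hz hσ, Q.conj hc (conj_cc_mem hz) m] at p
    rw [← (u1.pow 2).mul_left_eq_zero]
    have q := E.dih z hz
    rw [eq_add_of_sub_eq u2] at p q
    linear_combination (t * u + 1) * p - c (cc * σ * cc) * q - k σ hσ - t * u * c σ * h.two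
  intro g hg
  have p := hc.2 _ (mul_mem hg hz) _ (Q.le (Q.comm g hg))
  rw [mul_inv_cancel_left, hc.2 z hz g hg, hc.2 g hg z hz, h0, map_zero, aT_apply, aT_apply,
    eq_add_of_sub_eq u2] at p
  rw [← u1.mul_left_eq_zero]
  linear_combination t ^ 2 * p + (1 + t) ^ e (g * z) * h1 _ (Q.comm g hg)

theorem mu_choice (F : CFT) (su : SUStmt) (ch : ChebStmt) (h : Trunc t j) (D : MuD n a b ξ)
    (E : MuA t n ξ e lam) (P : MuP n ξ lam z v Y) (Q : MuN t n e z N) :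
    (∀ φ, Nat.card (SB F n t e v Y {φ, z}) ≤ 2 ^ (Y.card + 1) * muC n ^ 4 * 2 ^ 3) ∨
    ∃ c : Gam → ZMod (2 ^ 1), Sm (GK n) c ∧ IsHom N c ∧ (∃ σ ∈ N, c σ + c (cc * σ * cc) ≠ 0) ∧
      ∀ φ, c φ ≠ 0 → Nat.card (SB F n t e v Y {φ, z}) ≤ 2 ^ (Y.card + 1) * muC n ^ 4 * 2 ^ 3 := by
  have fin : Finite (SB F n t e v Y {z}) := finite_ZZ (E.finite h D.pos _)
  have := h.finite
  have ex : ∃ r, ∀ c ∈ SB F n t e v Y {z}, ∀ g, t ^ r * c g = 0 :=
    ⟨j, fun _ _ _ => by rw [h.nil, zero_mul]⟩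
  have le : Nat.find ex ≤ j := Nat.find_min' ex fun _ _ _ => by rw [h.nil, zero_mul]
  obtain ⟨A', _, t', h'⟩ := exists_trunc (Nat.find ex)
  have h1 := (card_SB_le F h h' le E D.pos {z} le_rfl (Nat.find_spec ex)).trans
    (card_SB F su ch h' D (E.of_le h h' le) P)
  rcases le_or_gt (Nat.find ex) 3 with l | l
  · refine .inl fun φ => le_trans ?_ (h1.trans (by gcongr; norm_num))
    exact AddSubgroup.card_le_of_le ((ZZ_insert {z} φ).ge.trans inf_le_left)
  obtain ⟨r, hr⟩ : ∃ r, Nat.find ex = r + 4 := ⟨Nat.find ex - 4, by omega⟩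
  have h2 := Nat.find_min ex (m := r + 3) (by omega)
  simp only [not_forall] at h2
  obtain ⟨c, hc, g, hg⟩ := h2
  have m := SB_mT F hc (t ^ r)
  obtain ⟨⟨p1, -⟩, -, -, p2⟩ := mem_ZZ.1 m
  obtain ⟨σ, s1, s2⟩ : ∃ σ ∈ N, mT (t ^ r) c σ + mT (t ^ r) c (cc * σ * cc) ≠ 0 := by
    by_contra k
    push Not at k
    by_cases l : g ∈ GK n
    · have := Q.sah h E (P.ine E P.gen.1) P.par p1.1 (p2 z rfl) k g l
      rw [mT_apply, ← mul_assoc, ← pow_add, add_comm] at this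
      exact hg this
    · exact hg (by rw [(mem_ZZ.1 hc).1.1.2 g l, mul_zero])
  obtain ⟨f, hf⟩ := not_forall.1 (mt h.sep s2)
  refine .inr ⟨fun g => f (mT (t ^ r) c g), p1.1.1.comp f, fun x hx y hy => by
    simp only [p1.1.2 x (Q.le hx) y (Q.le hy), aT_apply, Q.triv x hx, one_mul, map_add],
    ⟨σ, s1, by rwa [← map_add]⟩, fun φ hφ => ?_⟩
  have h3 : 2 ^ (r + 1) ≤ Nat.card ((SB F n t e v Y {z}).map
      (Pi.evalAddMonoidHom (fun _ => A) φ)) := by
    have it : ∀ (k : ℕ) (x : A), (AddMonoidHom.mulLeft t)^[k] x = t ^ k * x := fun k x => by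
      induction k with
      | zero => simp
      | succ k ih => rw [Function.iterate_succ_apply', ih, pow_succ', mul_assoc]; rfl
    refine pow_le_card (f := AddMonoidHom.mulLeft t) (k := j) ?_ ⟨c, hc, rfl⟩
      (by rw [it, h.nil, zero_mul]) fun k => hφ ?_
    · rintro _ ⟨x, hx, rfl⟩
      exact ⟨_, SB_mT F hx t, rfl⟩
    · rw [it] at k
      exact (congrArg f k).trans (map_zero f)
  rw [card_map_inf (Pi.evalAddMonoidHom (fun _ => A) φ), ZZ_insert, hr,
    show r + 4 = 3 + (r + 1) by omega, pow_add 2 3, ← mul_assoc] at h1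
  exact Nat.le_of_mul_le_mul_right ((Nat.mul_le_mul_left _ h3).trans h1) (by positivity)

end Pool.Agent.Lib.MP_696deb_nt.B2
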