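import Pool.Agent.Lib.MP_696deb_nt.B2.PA0

/-! Internal definitions of the patching argument. -/

set_option autoImplicit false

open scoped Classical
open Finset Matrix PowerSeries Filter Submodule LinearMap

namespace Pool.Agent.Lib.MP_696deb_nt.B2.PA

/-- The ultrafilter that is used. -/
noncomputable abbrev UU : Filter ℕ := (hyperfilter ℕ : Ultrafilter ℕ)

/-- Limits of sequences of power series along the ultrafilter. -/
noncomputable def ul (y : ℕ → Lam) : Lam :=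
  PowerSeries.mk fun n => ((hyperfilter ℕ).map fun k => coeff n (y k)).lim

/-- The free module on a set of evaluations. -/
abbrev Fr (J : Type) : Type := J →₀ Lam

/-- A basis vector. -/
noncomputable abbrev sg {J : Type} (j : J) : Fr J := Finsupp.single j 1

/-- The functional of a function. -/
noncomputable def lc {J B : Type} [AddCommGroup B] [Module Lam B] (c : J → B) :
    Fr J →ₗ[Lam] B := Finsupp.linearCombination Lam c

@[simp] theorem lc_sg {J B : Type} [AddCommGroup B] [Module Lam B] (c : J → B) (j : J) :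
    lc c (sg j) = c j := by simp [lc]

/-- The projection to level `k`. -/
noncomputable def pj {J : Type} (k : ℕ) : Fr (ℕ → J) →ₗ[Lam] Fr J :=
  Finsupp.lmapDomain Lam Lam fun s => s k

@[simp] theorem pj_sg {J : Type} (k : ℕ) (s : ℕ → J) : pj k (sg s) = sg (s k) := by simp [pj]

/-- The relations that hold in the limit. -/
noncomputable def PRel {J : Type} (R : ℕ → Submodule Lam (Fr J)) : Submodule Lam (Fr (ℕ → J)) where
  carrier := {x | ∀ j, ∀ᶠ k in UU, pj k x ∈ R k ⊔ aa j j • ⊤}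
  zero_mem' := fun j => Eventually.of_forall fun k => by simp
  add_mem' := fun {x y} hx hy j => by
    filter_upwards [hx j, hy j] with k h1 h2
    rw [map_add]
    exact add_mem h1 h2
  smul_mem' := fun a x hx j => by
    filter_upwards [hx j] with k h1
    rw [map_smul]
    exact smul_mem _ a h1

theorem mem_PRel {J : Type} {R : ℕ → Submodule Lam (Fr J)} {x : Fr (ℕ → J)} :
    x ∈ PRel R ↔ ∀ j, ∀ᶠ k in UU, pj k x ∈ R k ⊔ aa j j • ⊤ := Iff.rfl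

/-- The quotient by `R` is generated by `r` evaluations. -/
def PGen {J : Type} (r : ℕ) (R : Submodule Lam (Fr J)) : Prop :=
  ∃ e : Fin r → J, R ⊔ span Lam (Set.range fun i => sg (e i)) = ⊤

/-- The map from a free module of finite rank given by evaluations. -/
noncomputable def Ev {J : Type} {r : ℕ} (e : Fin r → J) : (Fin r → Lam) →ₗ[Lam] Fr J :=
  Fintype.linearCombination Lam fun i => sg (e i)

/-- The quotient by `R` has a square presentation at level `k`. -/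
def SqP {J : Type} (r0 k : ℕ) (R : Submodule Lam (Fr J)) : Prop :=
  ∃ r ≤ r0, ∃ (e : Fin r → J) (M : Matrix (Fin r) (Fin r) Lam),
    R ⊔ span Lam (Set.range fun i => sg (e i)) = ⊤ ∧
    R.comap (Ev e) = range M.mulVecLin ⊔ aa k k • ⊤

/-- The cokernel of a matrix. -/
abbrev Cok {O : Type} [CommRing O] {r : ℕ} (M : Matrix (Fin r) (Fin r) O) : Type :=
  (Fin r → O) ⧸ range M.mulVecLin

/-- The number of functionals that kill `R`. -/
noncomputable def cnt {O F : Type} [CommRing O] [AddCommGroup F] [Module O F] (R : Submodule O F)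
    (I : Ideal O) : ℕ := Nat.card {t : F →ₗ[O] O ⧸ I // R ≤ ker t}

/-- The number of solutions of a linear system modulo an ideal. -/
noncomputable def cntM {O : Type} [CommRing O] {r : ℕ} (M : Matrix (Fin r) (Fin r) O)
    (I : Ideal O) : ℕ :=
  Nat.card {v : Fin r → O ⧸ I // v ᵥ* M.map (Ideal.Quotient.mk I) = 0}

/-- The relations satisfied by all members of `S`. -/
noncomputable def perp {G : Type} {k : ℕ} (S : Submodule Lam (G → Fin 2 → Ak k)) :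
    Submodule Lam (Fr (G × Fin 2)) := ⨅ c ∈ S, ker (lc (Function.uncurry c))

theorem mem_perp {G : Type} {k : ℕ} {S : Submodule Lam (G → Fin 2 → Ak k)} {x : Fr (G × Fin 2)} :
    x ∈ perp S ↔ ∀ c ∈ S, lc (Function.uncurry c) x = 0 := by simp [perp]

/-- The order of the reduction modulo two. -/
noncomputable def lamb (f : Lam) : ℕ∞ := (PowerSeries.map PadicInt.toZMod f).order

section

variable {O F : Type} [CommRing O] [AddCommGroup F] [Module O F]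

/-- The functional of pairing with a local class. -/
def jv (p s : Fin 2 → F) (x y : Fin 2 → O) : F :=
  y 1 • p 0 + y 0 • p 1 + (x 1 • s 0 + x 0 • s 1)

/-- The length of `B` modulo `A`. -/
noncomputable def rl (A B : Submodule O F) : ℕ∞ := Module.length O ↥(B.map A.mkQ)

/-- Strong isotropy. -/
def IsoS (P : Ideal O) (R : Submodule O F) (p s : Fin 2 → F) : Prop :=
  ∃ a ∉ P, ∀ t : F →ₗ[O] O, R ≤ ker t → a • jv p s (t ∘ p) (t ∘ s) ∈ R

/-- Strong co-isotropy. -/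
def CoS (P : Ideal O) (R : Submodule O F) (p s : Fin 2 → F) : Prop :=
  ∃ a ∉ P, ∀ x y : Fin 2 → O, jv p s x y ∈ R →
    ∃ t : F →ₗ[O] O, R ≤ ker t ∧ t ∘ p = a • x ∧ t ∘ s = a • y

/-- Residual isotropy. -/
def IsoR (P : Ideal O) (R : Submodule O F) (p s : Fin 2 → F) : Prop :=
  ∀ t t' : F →ₗ[O] O ⧸ P, R ≤ ker t → R ≤ ker t' →
    bb (t ∘ p) (t' ∘ s) + bb (t ∘ s) (t' ∘ p) = 0

/-- Residual co-isotropy. -/
def CoR (P : Ideal O) (R : Submodule O F) (p s : Fin 2 → F) : Prop :=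
  ∃ a ∉ P, ∀ x y : Fin 2 → O, jv p s x y ∈ R ⊔ P • ⊤ →
    ∃ t : F →ₗ[O] O ⧸ P, R ≤ ker t ∧ (∀ i, t (p i) = Ideal.Quotient.mk P (a * x i)) ∧
      ∀ i, t (s i) = Ideal.Quotient.mk P (a * y i)

/-- Any three residual functionals are dependent. -/
def Dim2 (P : Ideal O) (R : Submodule O F) : Prop :=
  ∀ t : Fin 3 → F →ₗ[O] O ⧸ P, (∀ i, R ≤ ker (t i)) →
    ∃ a : Fin 3 → O, (∃ i, a i ∉ P) ∧ ∑ i, a i • t i = 0

/-- Any two residual functionals are dependent. -/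
def Dim1 (P : Ideal O) (R : Submodule O F) : Prop :=
  ∀ t t' : F →ₗ[O] O ⧸ P, R ≤ ker t → R ≤ ker t' →
    ∃ a b : O, (a ∉ P ∨ b ∉ P) ∧ a • t + b • t' = 0

/-- Any two functionals are dependent. -/
def Rk1 (R : Submodule O F) : Prop :=
  ∀ t t' : F →ₗ[O] O, R ≤ ker t → R ≤ ker t' → ∃ a b : O, (a ≠ 0 ∨ b ≠ 0) ∧ a • t + b • t' = 0

/-- The bound of Kolyvagin. -/
def Bd (R : Submodule O F) (κ : F →ₗ[O] O) : Prop := rl R (ker κ) ≤ 2 * rl (range κ) ⊤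

end

/-- Isotropy at finite level. -/
def IsoT {F : Type} [AddCommGroup F] [Module Lam F] (m : ℕ) (a : Lam) (R : Submodule Lam F)
    (p s : Fin 2 → F) : Prop :=
  ∀ I : Ideal Lam, aa m m ≤ I → ∀ t t' : F →ₗ[Lam] Lam ⧸ I, R ≤ ker t → R ≤ ker t' →
    a • (bb (t ∘ p) (t' ∘ s) + bb (t ∘ s) (t' ∘ p)) = 0

/-- Co-isotropy at finite level. -/
def CoT {F : Type} [AddCommGroup F] [Module Lam F] (m : ℕ) (a : Lam) (R : Submodule Lam F)
    (p s : Fin 2 → F) : Prop :=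
  ∀ j i : ℕ, 1 ≤ j → j ≤ m → i = j ∨ i = 1 → ∀ x y : Fin 2 → Lam ⧸ aa j i,
    (∀ t : F →ₗ[Lam] Lam ⧸ aa j i, R ≤ ker t → bb (t ∘ p) y + bb (t ∘ s) x = 0) →
    ∃ t : F →ₗ[Lam] Lam ⧸ aa j i, R ≤ ker t ∧ t ∘ p = a • x ∧ t ∘ s = a • y

/-- Functions on a normal subgroup that are additive and equivariant. -/
structure Eqv {K Γ : Type} [CommRing K] [Group Γ] (N : Subgroup Γ) (θ : Γ →* Γ) (un : Fin 2 → Γ)
    (nm : Fin 2 → Matrix (Fin 2) (Fin 2) K) (c : Γ → Fin 2 → K) : Prop where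
  add : ∀ σ ∈ N, ∀ σ' ∈ N, c (σ * σ') = c σ + c σ'
  un1 : ∀ v, ∀ σ ∈ N, c (un v * σ * (un v)⁻¹) = (1 + nm v) *ᵥ c σ
  un2 : ∀ v, ∀ σ ∈ N, c (θ (un v) * σ * (θ (un v))⁻¹) = (tauM K * (1 + nm v) * tauM K) *ᵥ c σ

/-- The limit system over a ring `O`, with errors outside of the ideal `P`. -/
structure Sys (O : Type) [CommRing O] (P : Ideal O) (Γ : Type) [Group Γ] (N : Subgroup Γ)
    (F : Type) [AddCommGroup F] [Module O F] (par : Prop) (f h q0 q1 : O)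
    (k0 : Γ → Fin 2 → O) where
  θ : Γ →* Γ
  normal : N.Normal
  θN : ∀ σ ∈ N, θ σ ∈ N
  two : (2 : O) ∉ P
  ev : Γ → Fin 2 → F
  z : Γ
  u : O
  hu : u * u ≠ 1
  un : Fin 2 → Γ
  nm : Fin 2 → Matrix (Fin 2) (Fin 2) O
  nm_sq : ∀ v, nm v * nm v = 0
  nm_tr : (nm 0 * nm 1).trace ∉ P
  St : Type
  R : St → Submodule O F
  kap : St → F →ₗ[O] O
  kap_R : ∀ n, R n ≤ ker (kap n)
  fg : ∀ n, Module.Finite O (F ⧸ R n)
  gen : ∀ n x, ∃ t ∉ P, t • x ∈ R n ⊔ span O {y | ∃ σ ∈ N, ∃ i, y = ev σ i}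
  add : ∀ n, ∀ σ ∈ N, ∀ σ' ∈ N, ∀ i, ev (σ * σ') i - (ev σ i + ev σ' i) ∈ R n
  eq_un : ∀ n v, ∀ σ ∈ N, ∀ i,
    ev (un v * σ * (un v)⁻¹) i - ∑ j, (1 + nm v) i j • ev σ j ∈ R n
  eq_unθ : ∀ n v, ∀ σ ∈ N, ∀ i, ev (θ (un v) * σ * (θ (un v))⁻¹) i -
    ∑ j, (tauM O * (1 + nm v) * tauM O) i j • ev σ j ∈ R n
  eq_z : ∀ n, ∀ σ ∈ N, ∀ i, ev (z * σ * z⁻¹) i - u • ev σ i ∈ R n
  eq_zθ : ∀ n, ∀ σ ∈ N, ∀ i, u • ev (θ z * σ * (θ z)⁻¹) i - ev σ i ∈ R n
  step : ∀ n, ∀ σ ∈ N, ∃ (n' : St) (Rq : Submodule O F) (φ s : Γ) (u0 u1 u2 : O), s ∈ N ∧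
    R n = Rq ⊔ span O (Set.range (ev s)) ∧ R n' = Rq ⊔ span O (Set.range (ev φ)) ∧
    u0 ∉ P ∧ u1 ∉ P ∧ u2 ∉ P ∧ (∀ i, ev φ i - u0 • (ev σ i + ev (θ σ) i) ∈ R n) ∧
    (∀ i, ev (θ s) i + ev s i ∈ R n') ∧
    u1 • (kap n' ∘ ev s) = u2 • (tauM O *ᵥ (kap n ∘ ev φ)) ∧
    IsoS P Rq (ev φ) (ev s) ∧ CoS P Rq (ev φ) (ev s) ∧ IsoR P Rq (ev φ) (ev s) ∧
    (par → CoR P Rq (ev φ) (ev s))
  n0 : St
  R0 : Submodule O F
  φ0 : Γ
  s0 : Γ
  R_n0 : R n0 = R0 ⊔ span O (Set.range (ev s0))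
  iso0 : IsoS P R0 (ev φ0) (ev s0)
  kap_h : ∃ a ∉ P, kap n0 (ev φ0 1) - kap n0 (ev φ0 0) = a * h
  kap_k0 : ∀ g i, kap n0 (ev g i) = k0 g i
  RF : Submodule O F
  nu : Fin 2 → F
  nu0 : q0 • nu 0 ∈ RF
  nu1 : q1 • nu 1 ∈ RF
  RF_eq : RF ⊔ span O (Set.range nu) =
    R0 ⊔ span O {ev φ0 1 - ev φ0 0, ev s0 0 + ev s0 1}
  r : ℕ
  M : Matrix (Fin r) (Fin r) O
  det : M.det = f
  pres : ∃ p : F →ₗ[O] Cok M, Function.Surjective p ∧ RF ≤ ker p
  dim : par → Dim2 P (R n0)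

end Pool.Agent.Lib.MP_696deb_nt.B2.PA
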