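import Pool.Agent.Lib.MP_696deb_nt.B2.PAb

set_option autoImplicit false

open scoped Classical
open Finset Matrix PowerSeries Filter Submodule LinearMap

namespace Pool.Agent.Lib.MP_696deb_nt.B2.PA

theorem PAc_kill {I : Ideal Lam} {a : Lam} (ha : a ∈ I) (x : Lam ⧸ I) : a • x = 0 := by
  obtain ⟨y, rfl⟩ := Ideal.Quotient.mk_surjective x
  exact Ideal.Quotient.eq_zero_iff_mem.2 (I.mul_mem_right y ha)

theorem PAc_ext {J B : Type} [AddCommGroup B] [Module Lam B] {t t' : Fr J →ₗ[Lam] B}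
    (h : ∀ j, t (sg j) = t' (sg j)) : t = t' :=
  Finsupp.lhom_ext' fun j => LinearMap.ext_ring (h j)

theorem PAc_lc {G B : Type} [AddCommGroup B] [Module Lam B] (t : Fr (G × Fin 2) →ₗ[Lam] B) :
    lc (Function.uncurry fun g i => t (sg (g, i))) = t :=
  PAc_ext fun j => lc_sg _ j

theorem PAc_comp {G B C : Type} [AddCommGroup B] [Module Lam B] [AddCommGroup C] [Module Lam C]
    (ι : B →ₗ[Lam] C) (c : G → Fin 2 → B) (x : Fr (G × Fin 2)) :
    lc (Function.uncurry fun g i => ι (c g i)) x = ι (lc (Function.uncurry c) x) := by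
  have h : lc (Function.uncurry fun g i => ι (c g i)) = ι.comp (lc (Function.uncurry c)) :=
    PAc_ext fun j => by
      rw [LinearMap.comp_apply, lc_sg, lc_sg]
      rfl
  rw [h, LinearMap.comp_apply]

/-- The functional of a function, as a linear map. -/
noncomputable def PAc_L (G B : Type) [AddCommGroup B] [Module Lam B] :
    (G → Fin 2 → B) →ₗ[Lam] Fr (G × Fin 2) →ₗ[Lam] B where
  toFun c := lc (Function.uncurry c)
  map_add' c c' := PAc_ext fun j => by
    rw [LinearMap.add_apply, lc_sg, lc_sg, lc_sg]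
    rfl
  map_smul' a c := PAc_ext fun j => by
    rw [LinearMap.smul_apply, lc_sg, lc_sg]
    rfl

section

variable {G : Type} {k : ℕ} {S : Submodule Lam (G → Fin 2 → Ak k)}

theorem aa_le_perp (S : Submodule Lam (G → Fin 2 → Ak k)) : aa k k • ⊤ ≤ perp S := by
  refine Submodule.smul_le.2 fun a ha x _ => mem_perp.2 fun c _ => ?_
  rw [map_smul, PAc_kill ha]

theorem perp_anti {S' : Submodule Lam (G → Fin 2 → Ak k)} (h : S' ≤ S) : perp S ≤ perp S' := by
  exact fun x hx => mem_perp.2 fun c hc => mem_perp.1 hx c (h hc)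

theorem PAc_inj (S : Submodule Lam (G → Fin 2 → Ak k)) :
    ∃ f : (Fr (G × Fin 2) ⧸ perp S) →ₗ[Lam] S →ₗ[Lam] Ak k, Function.Injective f := by
  have h : LinearMap.ker ((PAc_L G (Ak k)).comp S.subtype).flip = perp S := by
    ext x
    rw [LinearMap.mem_ker, mem_perp]
    exact ⟨fun h c hc => LinearMap.congr_fun h ⟨c, hc⟩,
      fun h => LinearMap.ext fun c => h c.1 c.2⟩
  exact ⟨(perp S).liftQ _ h.ge, LinearMap.ker_eq_bot.1 (Submodule.ker_liftQ_eq_bot _ _ _ h.le)⟩

theorem fin_perp [Finite S] : Finite (Fr (G × Fin 2) ⧸ perp S) := by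
  obtain ⟨f, hf⟩ := PAc_inj S
  have : Finite (S →ₗ[Lam] Ak k) :=
    Finite.of_injective (fun f : S →ₗ[Lam] Ak k => (f : S → Ak k)) DFunLike.coe_injective
  exact Finite.of_injective f hf

theorem perp_closed [Finite S] {c : G → Fin 2 → Ak k}
    (h : perp S ≤ ker (lc (Function.uncurry c))) : c ∈ S := by
  have hX := fin_perp (S := S)
  obtain ⟨f, hf⟩ := PAc_inj S
  have : Finite (S →ₗ[Lam] Ak k) :=
    Finite.of_injective (fun f : S →ₗ[Lam] Ak k => (f : S → Ak k)) DFunLike.coe_injective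
  have : Finite ((Fr (G × Fin 2) ⧸ perp S) →ₗ[Lam] Ak k) :=
    Finite.of_injective (fun f : (Fr (G × Fin 2) ⧸ perp S) →ₗ[Lam] Ak k =>
      (f : (Fr (G × Fin 2) ⧸ perp S) → Ak k)) DFunLike.coe_injective
  have h1 : Nat.card (S →ₗ[Lam] Ak k) = Nat.card S := frob_card fun a ha x =>
    Subtype.ext (funext fun g => funext fun i => PAc_kill ha (x.1 g i))
  have h2 : Nat.card ((Fr (G × Fin 2) ⧸ perp S) →ₗ[Lam] Ak k) =
      Nat.card (Fr (G × Fin 2) ⧸ perp S) := frob_card fun a ha x => by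
    obtain ⟨y, rfl⟩ := Submodule.Quotient.mk_surjective _ x
    rw [← Submodule.Quotient.mk_smul, Submodule.Quotient.mk_eq_zero]
    exact aa_le_perp S (Submodule.smul_mem_smul ha Submodule.mem_top)
  let ψ : S → (Fr (G × Fin 2) ⧸ perp S) →ₗ[Lam] Ak k := fun c =>
    (perp S).liftQ (lc (Function.uncurry c.1)) fun x hx => mem_perp.1 hx c.1 c.2
  have hψ : Function.Injective ψ := fun c c' hc => Subtype.ext (funext fun g => funext fun i => by
    have h3 : lc (Function.uncurry c.1) (sg (g, i)) = lc (Function.uncurry c'.1) (sg (g, i)) :=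
      LinearMap.congr_fun hc (Submodule.Quotient.mk (sg (g, i)))
    rwa [lc_sg, lc_sg] at h3)
  have h3 := hψ.bijective_of_nat_card_le (by
    rw [h2, ← h1]
    exact Nat.card_le_card_of_injective f hf)
  obtain ⟨c', hc'⟩ := h3.2 ((perp S).liftQ (lc (Function.uncurry c)) h)
  have h4 : c'.1 = c := funext fun g => funext fun i => by
    have h3 : lc (Function.uncurry c'.1) (sg (g, i)) = lc (Function.uncurry c) (sg (g, i)) :=
      LinearMap.congr_fun hc' (Submodule.Quotient.mk (sg (g, i)))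
    rwa [lc_sg, lc_sg] at h3
  exact h4 ▸ c'.2

theorem mem_Wk [Finite S] {I : Ideal Lam} (hI : aa k k ≤ I) {c : G → Fin 2 → Lam ⧸ I} :
    c ∈ Wk S I ↔ perp S ≤ ker (lc (Function.uncurry c)) := by
  refine ⟨fun h x hx => cog hI fun ι => ?_, fun h ι => perp_closed fun x hx => ?_⟩
  · rw [← PAc_comp]
    exact mem_perp.1 hx _ (h ι)
  · rw [LinearMap.mem_ker, PAc_comp, LinearMap.mem_ker.1 (h hx), map_zero]

theorem cnt_perp [Finite S] {I : Ideal Lam} (hI : aa k k ≤ I) :
    cnt (perp S) I = Nat.card (Wk S I) := by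
  refine Nat.card_congr
    { toFun := fun t => ⟨fun g i => t.1 (sg (g, i)), (mem_Wk hI).2 ((PAc_lc t.1).symm ▸ t.2)⟩
      invFun := fun c => ⟨lc (Function.uncurry c.1), (mem_Wk hI).1 c.2⟩
      left_inv := fun t => Subtype.ext (PAc_lc t.1)
      right_inv := fun c => Subtype.ext (funext fun g => funext fun i => lc_sg _ _) }

theorem cnt_self [Finite S] : cnt (perp S) (aa k k) = Nat.card S := by
  rw [cnt_perp le_rfl]
  refine Nat.card_congr (Equiv.subtypeEquivRight fun c => ?_)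
  exact ⟨fun h => h LinearMap.id, fun h => (mem_Wk le_rfl).2 fun x hx => mem_perp.1 hx c h⟩

theorem perp_ker [Finite S] {ι : Type} (x : ι → Fr (G × Fin 2))
    {S' : Submodule Lam (G → Fin 2 → Ak k)}
    (h : ∀ c, c ∈ S' ↔ c ∈ S ∧ ∀ i, lc (Function.uncurry c) (x i) = 0) :
    perp S' = perp S ⊔ span Lam (Set.range x) := by
  refine le_antisymm (fun y hy => ?_) (sup_le (perp_anti fun c hc => ((h c).1 hc).1) ?_)
  · have h1 := mem_of_ann (k := k) (perp S ⊔ span Lam (Set.range x)) (x := y) fun t ht => by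
      rw [← PAc_lc t] at ht ⊢
      exact mem_perp.1 hy _ ((h _).2 ⟨perp_closed (le_sup_left.trans ht), fun i =>
        ht (Submodule.mem_sup_right (Submodule.subset_span ⟨i, rfl⟩))⟩)
    rwa [sup_eq_left.2 ((aa_le_perp S).trans le_sup_left)] at h1
  · rw [Submodule.span_le]
    rintro _ ⟨i, rfl⟩
    exact mem_perp.2 fun c hc => ((h c).1 hc).2 i

theorem perp_van [Finite S] (g : G) :
    perp (S ⊓ Van k g) = perp S ⊔ span Lam (Set.range fun i => sg (g, i)) := by
  refine perp_ker _ fun c => ?_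
  simp only [lc_sg, Submodule.mem_inf, mem_Van, funext_iff]
  rfl

theorem perp_lag [Finite S] (φ s : G) : perp (S ⊓ Lag k φ s) =
    perp S ⊔ span Lam {sg (φ, 1) - sg (φ, 0), sg (s, 0) + sg (s, 1)} := by
  rw [← Matrix.range_cons_cons_empty _ _ ![]]
  refine perp_ker _ fun c => ?_
  simp only [Fin.forall_fin_two, Matrix.cons_val_zero, Matrix.cons_val_one, map_sub, map_add,
    lc_sg, sub_eq_zero]
  rfl

theorem perp_ori [Finite S] (ns : Fin 2 → Bool → G) (nl : Fin 2 → Bool → Fin 2 → Lam)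
    (o : Fin 2 → Bool) : perp (S ⊓ Ori k ns nl o) =
      perp S ⊔ span Lam (Set.range fun v => ∑ i, nl v (o v) i • sg (ns v (o v), i)) := by
  refine perp_ker _ fun c => ?_
  simp only [map_sum, map_smul, lc_sg]
  rfl

theorem fin_of_van (g : G) (h : Finite ↥(S ⊓ Van k g)) : Finite S := by
  let f : S →+ Fin 2 → Ak k := AddMonoidHom.mk' (fun c => c.1 g) fun _ _ => rfl
  refine f.finite_iff_finite_ker_range.2 ⟨?_, inferInstance⟩
  exact Finite.of_injective (fun c : f.ker => (⟨c.1.1, c.1.2, c.2⟩ : ↥(S ⊓ Van k g)))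
    fun c c' hc => Subtype.ext (Subtype.ext (Subtype.mk.inj hc))

theorem isoT_of [Finite S] {a : Lam} {φ s : G} (h : IsoW a S φ s) :
    IsoT k a (perp S) (fun i => sg (φ, i)) fun i => sg (s, i) := by
  intro I hI t t' ht ht'
  exact h I hI (fun g i => t (sg (g, i))) ((mem_Wk hI).2 ((PAc_lc t).symm ▸ ht))
    (fun g i => t' (sg (g, i))) ((mem_Wk hI).2 ((PAc_lc t').symm ▸ ht'))

theorem coT_of [Finite S] {a : Lam} {φ s : G} (h : CoW a S φ s) :
    CoT k a (perp S) (fun i => sg (φ, i)) fun i => sg (s, i) := by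
  intro j i h1 h2 h3 x y hxy
  have hI : aa k k ≤ aa j i := aa_anti h2 (by omega)
  have he : ∀ (c : G → Fin 2 → Lam ⧸ aa j i) (g : G),
      (lc (Function.uncurry c) ∘ fun i => sg (g, i)) = c g := fun c g => funext fun i => lc_sg _ _
  obtain ⟨c, hc, h4, h5⟩ := h j i h1 h2 h3 x y fun c hc => by
    have h4 := hxy _ ((mem_Wk hI).1 hc)
    rwa [he, he] at h4
  exact ⟨lc (Function.uncurry c), (mem_Wk hI).1 hc, (he c φ).trans h4, (he c s).trans h5⟩

end

section

variable {J : Type}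

theorem PGen.mono [Nonempty J] {r r' : ℕ} {R R' : Submodule Lam (Fr J)} (h : PGen r R)
    (hr : r ≤ r') (hR : R ≤ R') : PGen r' R' := by
  obtain ⟨e, he⟩ := h
  refine ⟨fun i => if h : i.1 < r then e ⟨i.1, h⟩ else Classical.arbitrary J,
    top_le_iff.1 (he.ge.trans (sup_le_sup hR (Submodule.span_mono ?_)))⟩
  rintro _ ⟨i, rfl⟩
  exact ⟨Fin.castLE hr i, congrArg sg (dif_pos i.2)⟩

theorem PGen.of_sup {r m : ℕ} {R W : Submodule Lam (Fr J)} (e : Fin m → J)
    (hW : W ≤ span Lam (Set.range fun i => sg (e i))) (h : PGen r (R ⊔ W)) : PGen (r + m) R := by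
  obtain ⟨e', he⟩ := h
  refine ⟨Fin.append e' e, top_le_iff.1 (he.ge.trans (sup_le (sup_le le_sup_left
    (hW.trans (le_sup_of_le_right (Submodule.span_mono ?_))))
    (le_sup_of_le_right (Submodule.span_mono ?_))))⟩
  · rintro _ ⟨i, rfl⟩
    exact ⟨Fin.natAdd r i, congrArg sg (Fin.append_right _ _ i)⟩
  · rintro _ ⟨i, rfl⟩
    exact ⟨Fin.castAdd m i, congrArg sg (Fin.append_left _ _ i)⟩

theorem PAc_fin (R : Submodule Lam (Fr J)) [Finite (Fr J ⧸ R)] (I : Ideal Lam)
    [Finite (Lam ⧸ I)] : Finite {t : Fr J →ₗ[Lam] Lam ⧸ I // R ≤ ker t} :=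
  Finite.of_injective (fun t => (R.liftQ t.1 t.2 : (Fr J ⧸ R) → Lam ⧸ I)) fun _ _ h =>
    Subtype.ext (LinearMap.ext fun x => congrFun h (Submodule.Quotient.mk x))

theorem PAc_top (R : Submodule Lam (Fr J)) [Finite (Fr J ⧸ R)]
    (h : ∀ t : Fr J →ₗ[Lam] Ak 1, R ≤ ker t → t = 0) : R = ⊤ := by
  have h1 : (⊤ : Submodule Lam (Fr J)) ≤ R ⊔ aa 1 1 • ⊤ := fun x _ =>
    mem_of_ann R fun t ht => by rw [h t ht, LinearMap.zero_apply]
  have h2 := Submodule.map_mono (f := R.mkQ) h1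
  rw [Submodule.map_sup, Submodule.mkQ_map_self, bot_sup_eq, Submodule.map_smul'',
    Submodule.map_top, Submodule.range_mkQ] at h2
  have h3 := Submodule.eq_bot_of_le_smul_of_le_jacobson_bot (aa 1 1) ⊤ Module.Finite.fg_top h2
    (max_eq ▸ IsLocalRing.maximalIdeal_le_jacobson _)
  exact Submodule.Quotient.subsingleton_iff.1 (Submodule.subsingleton_iff Lam |>.1
    (subsingleton_of_bot_eq_top h3.symm))

theorem gen_of_cnt [Nonempty J] {r : ℕ} (R : Submodule Lam (Fr J)) [Finite (Fr J ⧸ R)]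
    (h : cnt R (aa 1 1) ≤ 2 ^ r) : PGen r R := by
  induction r generalizing R with
  | zero =>
    have := PAc_fin R (aa 1 1)
    have hs : Subsingleton {t : Fr J →ₗ[Lam] Lam ⧸ aa 1 1 // R ≤ ker t} :=
      Finite.card_le_one_iff_subsingleton.1 h
    refine ⟨Fin.elim0, top_le_iff.1 ((PAc_top R fun t ht => ?_).ge.trans le_sup_left)⟩
    exact congrArg Subtype.val (hs.elim ⟨t, ht⟩ ⟨0, fun _ _ => rfl⟩)
  | succ r ih =>
    by_cases h0 : ∀ t : Fr J →ₗ[Lam] Ak 1, R ≤ ker t → t = 0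
    · exact ⟨fun _ => Classical.arbitrary J,
        top_le_iff.1 ((PAc_top R h0).ge.trans le_sup_left)⟩
    push Not at h0
    obtain ⟨t0, ht0, h1⟩ := h0
    obtain ⟨j, hj⟩ : ∃ j, t0 (sg j) ≠ 0 := by
      by_contra h2
      push Not at h2
      exact h1 (PAc_ext h2)
    have := PAc_fin R (aa 1 1)
    have : Finite (Fr J ⧸ (R ⊔ span Lam (Set.range fun _ : Fin 1 => sg j))) :=
      Finite.of_surjective _ (Submodule.factor_surjective
        (le_sup_left : R ≤ R ⊔ span Lam (Set.range fun _ : Fin 1 => sg j)))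
    refine PGen.of_sup (fun _ : Fin 1 => j) le_rfl (ih _ ?_)
    have hz : ∀ t : {t : Fr J →ₗ[Lam] Lam ⧸ aa 1 1 //
        R ⊔ span Lam (Set.range fun _ : Fin 1 => sg j) ≤ ker t}, t.1 (sg j) = 0 := fun t =>
      t.2 (Submodule.mem_sup_right (Submodule.subset_span ⟨0, rfl⟩))
    let f : {t : Fr J →ₗ[Lam] Lam ⧸ aa 1 1 //
        R ⊔ span Lam (Set.range fun _ : Fin 1 => sg j) ≤ ker t} ⊕
        {t : Fr J →ₗ[Lam] Lam ⧸ aa 1 1 //
        R ⊔ span Lam (Set.range fun _ : Fin 1 => sg j) ≤ ker t} →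
        {t : Fr J →ₗ[Lam] Lam ⧸ aa 1 1 // R ≤ ker t} :=
      Sum.elim (fun t => ⟨t.1, le_sup_left.trans t.2⟩) fun t => ⟨t.1 + t0, fun x hx => by
        rw [LinearMap.mem_ker, LinearMap.add_apply, LinearMap.mem_ker.1 (ht0 hx),
          LinearMap.mem_ker.1 (t.2 (Submodule.mem_sup_left hx)), add_zero]⟩
    have hf : Function.Injective f := by
      refine Function.Injective.sumElim (fun t t' h => Subtype.ext (Subtype.mk.inj h))
        (fun t t' h => Subtype.ext (add_right_cancel (congrArg Subtype.val h))) fun t t' h => ?_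
      have h2 : t.1 (sg j) = t'.1 (sg j) + t0 (sg j) :=
        LinearMap.congr_fun (congrArg Subtype.val h) (sg j)
      rw [hz, hz, zero_add] at h2
      exact hj h2.symm
    have := Finite.of_injective _ (hf.comp Sum.inl_injective)
    have h2 := Nat.card_le_card_of_injective f hf
    rw [Nat.card_sum] at h2
    have h3 := h2.trans h
    rw [pow_succ] at h3
    rw [cnt]
    omega

end

end Pool.Agent.Lib.MP_696deb_nt.B2.PA
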