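import Pool.Agent.Lib.MP_696deb_nt.B2.PAa

set_option autoImplicit false

open scoped Classical
open Finset Matrix PowerSeries Filter Submodule LinearMap

namespace Pool.Agent.Lib.MP_696deb_nt.B2.PA

variable {J : Type} {R : ℕ → Submodule Lam (Fr J)}

theorem PRel_mono {R' : ℕ → Submodule Lam (Fr J)} (h : ∀ k, R k ≤ R' k) : PRel R ≤ PRel R' :=
  fun _ hx j => (hx j).mono fun k hk => sup_le_sup_right (h k) _ hk

theorem pae_near {ι : Type} [Fintype ι] (y : ι → Fr (ℕ → J)) (x : ℕ → ι → Fr J)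
    (h : ∀ i j, ∀ᶠ k in UU, pj k (y i) - x k i ∈ (aa j j • ⊤ : Submodule Lam (Fr J)))
    (a : ι → ℕ → Lam) (j : ℕ) : ∀ᶠ k in UU, pj k (∑ i, ul (a i) • y i) - ∑ i, a i k • x k i ∈
      (aa j j • ⊤ : Submodule Lam (Fr J)) := by
  filter_upwards [eventually_all.2 fun i => h i j, eventually_all.2 fun i => ul_spec (a i) j]
    with k h1 h2
  rw [map_sum, ← sum_sub_distrib]
  refine Submodule.sum_mem _ fun i _ => ?_
  rw [map_smul, show ul (a i) • pj k (y i) - a i k • x k i =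
    ul (a i) • (pj k (y i) - x k i) - (a i k - ul (a i)) • x k i by module]
  exact sub_mem (smul_mem _ _ (h1 i)) (smul_mem_smul (h2 i) mem_top)

theorem pae_sg {ι : Type} (s : ι → ℕ → J) (i : ι) (j : ℕ) :
    ∀ᶠ k in UU, pj k (sg (s i)) - sg (s i k) ∈ (aa j j • ⊤ : Submodule Lam (Fr J)) :=
  Eventually.of_forall fun k => by rw [pj_sg, sub_self]; exact zero_mem _

theorem U_near {ι : Type} [Fintype ι] (s : ι → ℕ → J) (a : ι → ℕ → Lam) (j : ℕ) :
    ∀ᶠ k in UU, pj k (∑ i, ul (a i) • sg (s i)) - ∑ i, a i k • sg (s i k) ∈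
      (aa j j • ⊤ : Submodule Lam (Fr J)) :=
  pae_near (fun i => sg (s i)) (fun k i => sg (s i k)) (pae_sg s) a j

theorem U_rel {ι : Type} [Fintype ι] (s : ι → ℕ → J) (a : ι → ℕ → Lam)
    (h : ∀ᶠ k in UU, ∑ i, a i k • sg (s i k) ∈ R k) : ∑ i, ul (a i) • sg (s i) ∈ PRel R := by
  intro j
  filter_upwards [h, U_near s a j] with k h1 h2
  have := add_mem_sup h1 h2
  rwa [add_sub_cancel] at this

theorem pae_sup {ι : Type} [Fintype ι] (y : ι → Fr (ℕ → J)) (x : ℕ → ι → Fr J)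
    (h : ∀ i j, ∀ᶠ k in UU, pj k (y i) - x k i ∈ (aa j j • ⊤ : Submodule Lam (Fr J))) :
    PRel (fun k => R k ⊔ span Lam (Set.range (x k))) = PRel R ⊔ span Lam (Set.range y) := by
  refine le_antisymm (fun z hz => ?_) (sup_le (PRel_mono fun _ => le_sup_left) (span_le.2 ?_))
  · obtain ⟨jj, -, h1, h2⟩ := diag (mem_PRel.1 hz)
    have h3 : ∀ k, ∃ b : ι → Lam,
        pj k z ∈ R k ⊔ span Lam (Set.range (x k)) ⊔ aa (jj k) (jj k) • ⊤ →
        pj k z - ∑ i, b i • x k i ∈ R k ⊔ aa (jj k) (jj k) • ⊤ := fun k => by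
      by_cases hk : pj k z ∈ R k ⊔ span Lam (Set.range (x k)) ⊔ aa (jj k) (jj k) • ⊤
      · rw [sup_right_comm] at hk
        obtain ⟨u, hu, v, hv, e⟩ := mem_sup.1 hk
        obtain ⟨b, rfl⟩ := (mem_span_range_iff_exists_fun _).1 hv
        exact ⟨b, fun _ => by rwa [← e, add_sub_cancel_right]⟩
      · exact ⟨0, fun k => (hk k).elim⟩
    choose b hb using h3
    have h4 : z - ∑ i, ul (fun k => b k i) • y i ∈ PRel R := fun j => by
      filter_upwards [h1, h2 j, pae_near y x h (fun i k => b k i) j] with k k1 k2 k3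
      have k4 : R k ⊔ aa (jj k) (jj k) • ⊤ ≤ R k ⊔ aa j j • ⊤ :=
        sup_le_sup_left (smul_mono_left (aa_anti k2 k2)) _
      have := sub_mem (k4 (hb k k1)) (mem_sup_right k3)
      rwa [sub_sub_sub_cancel_right, ← map_sub] at this
    have := add_mem_sup h4 (Submodule.sum_mem (span Lam (Set.range y)) fun i (_ : i ∈ univ) =>
      smul_mem _ (ul fun k => b k i) (subset_span (Set.mem_range_self i)))
    rwa [sub_add_cancel] at this
  · rintro _ ⟨i, rfl⟩ j
    filter_upwards [h i j] with k h1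
    have := add_mem_sup (mem_sup_right (S := R k) (subset_span (R := Lam) (Set.mem_range_self i)
      : x k i ∈ _)) h1
    rwa [add_sub_cancel] at this

theorem U_gen {r : ℕ} (e : Fin r → ℕ → J)
    (h : ∀ᶠ k in UU, R k ⊔ span Lam (Set.range fun i => sg (e i k)) = ⊤) :
    PRel R ⊔ span Lam (Set.range fun i => sg (e i)) = ⊤ := by
  rw [← pae_sup (fun i => sg (e i)) (fun k i => sg (e i k)) (pae_sg e), eq_top_iff]
  exact fun z _ j => h.mono fun k hk => mem_sup_left (hk.ge mem_top)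

theorem U_fg {r : ℕ} (h : ∀ k, PGen r (R k)) : Module.Finite Lam (Fr (ℕ → J) ⧸ PRel R) := by
  choose e he using h
  have h1 := U_gen (R := R) (fun i k => e k i) (Eventually.of_forall he)
  rw [Module.finite_def, ← (map_mkQ_eq_top _ _).2 h1]
  exact (fg_span (Set.finite_range _)).map _

theorem U_sup {ι : Type} [Fintype ι] (y : ι → Fr (ℕ → J)) (x : ℕ → ι → Fr J)
    (h : ∀ i j, ∀ᶠ k in UU, pj k (y i) - x k i ∈ (aa j j • ⊤ : Submodule Lam (Fr J))) :
    PRel (fun k => R k ⊔ span Lam (Set.range (x k))) = PRel R ⊔ span Lam (Set.range y) :=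
  pae_sup y x h

theorem pae_lc (c : ℕ → J → Lam) (j : ℕ) (x : Fr (ℕ → J)) : ∀ᶠ k in UU,
    lc (c k) (pj k x) - lc (fun s : ℕ → J => ul fun k => c k (s k)) x ∈ aa j j := by
  induction x using Finsupp.induction_linear with
  | zero => exact Eventually.of_forall fun k => by simp
  | add x y hx hy =>
    filter_upwards [hx, hy] with k h1 h2
    rw [map_add, map_add, map_add, add_sub_add_comm]
    exact add_mem h1 h2
  | single s a =>
    filter_upwards [ul_spec (fun k => c k (s k)) j] with k h1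
    rw [← Finsupp.smul_single_one, map_smul, map_smul, map_smul, pj_sg, lc_sg, lc_sg, ← smul_sub]
    exact smul_mem _ a h1

theorem U_asc (P : Ideal Lam) (c : ℕ → J → Lam)
    (h : ∀ j, ∀ᶠ k in UU, ∀ x ∈ R k, lc (c k) x ∈ P ⊔ aa j j) :
    ∀ x ∈ PRel R, lc (fun s : ℕ → J => ul fun k => c k (s k)) x ∈ P := by
  intro x hx
  refine closedI P fun j => ?_
  obtain ⟨k, h1, h2, h3⟩ := ((h j).and ((hx j).and (pae_lc c j x))).exists
  obtain ⟨u, hu, v, hv, e⟩ := mem_sup.1 h2
  have h4 : lc (c k) v ∈ aa j j := smul_induction_on hv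
    (fun a ha z _ => by rw [map_smul]; exact Ideal.mul_mem_right _ _ ha)
    fun z z' hz hz' => by rw [map_add]; exact add_mem hz hz'
  have := sub_mem (add_mem (h1 u hu) (mem_sup_right h4)) (mem_sup_right h3)
  rwa [← map_add, e, sub_sub_cancel] at this

end Pool.Agent.Lib.MP_696deb_nt.B2.PA
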