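import Pool.Agent.Lib.MP_696deb_nt.B2.PAe

set_option autoImplicit false

open scoped Classical
open Finset Matrix PowerSeries Filter Submodule LinearMap

namespace Pool.Agent.Lib.MP_696deb_nt.B2.PA

section

variable {O A F B : Type} [CommRing O] [AddCommGroup A] [Module O A] [AddCommGroup F] [Module O F]
  [AddCommGroup B] [Module O B] {E : A →ₗ[O] F} {W : Submodule O F}

theorem PAf_surj (h : W ⊔ range E = ⊤) : Function.Surjective (W.mkQ ∘ₗ E) := by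
  rwa [← range_eq_top, range_comp, map_mkQ_eq_top]

theorem PAf_comap (h : W ⊔ range E = ⊤) (I : Ideal O) {y : A} (hy : E y ∈ W ⊔ I • ⊤) :
    y ∈ W.comap E ⊔ I • ⊤ := by
  rw [← h, smul_sup, ← sup_assoc, sup_eq_left.2 (smul_le_right (N := W)), range_eq_map,
    ← Submodule.map_smul''] at hy
  obtain ⟨w, hw, _, ⟨z, hz, rfl⟩, e⟩ := Submodule.mem_sup.1 hy
  refine Submodule.mem_sup.2 ⟨y - z, ?_, z, hz, sub_add_cancel y z⟩
  rwa [Submodule.mem_comap, map_sub, ← e, add_sub_cancel_right]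

theorem PAf_desc (h : W ⊔ range E = ⊤) (s : A →ₗ[O] B) (hs : W.comap E ≤ ker s) :
    ∃ t : F →ₗ[O] B, W ≤ ker t ∧ t ∘ₗ E = s := by
  have hs' : ker (W.mkQ ∘ₗ E) ≤ ker s := by rwa [ker_comp, ker_mkQ]
  refine ⟨((ker (W.mkQ ∘ₗ E)).liftQ s hs' ∘ₗ
    ((W.mkQ ∘ₗ E).quotKerEquivOfSurjective (PAf_surj h)).symm.toLinearMap) ∘ₗ W.mkQ,
    by rw [ker_comp]; exact (ker_mkQ W).ge.trans (ker_le_comap _), LinearMap.ext fun y => ?_⟩
  exact (congrArg ((ker (W.mkQ ∘ₗ E)).liftQ s hs')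
    (quotKerEquivOfSurjective_symm_apply (W.mkQ ∘ₗ E) (PAf_surj h) y)).trans (liftQ_apply _ _ _)

theorem PAf_cnt (h : W ⊔ range E = ⊤) (I : Ideal O) : cnt W I = cnt (W.comap E) I := by
  refine Nat.card_eq_of_bijective (fun t => ⟨t.1 ∘ₗ E, fun y hy => t.2 hy⟩)
    ⟨fun t t' e => Subtype.ext (LinearMap.ext fun x => ?_), fun s => ?_⟩
  · obtain ⟨w, hw, _, ⟨y, rfl⟩, rfl⟩ := Submodule.mem_sup.1 (h.ge (mem_top (x := x)))
    rw [map_add, map_add, t.2 hw, t'.2 hw]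
    exact congrArg _ (LinearMap.congr_fun (congrArg Subtype.val e) y)
  · obtain ⟨t, h1, h2⟩ := PAf_desc h s.1 s.2
    exact ⟨⟨t, h1⟩, Subtype.ext h2⟩

theorem PAf_kill {I I' : Ideal O} (h : I' ≤ I) (t : F →ₗ[O] O ⧸ I) : I' • ⊤ ≤ ker t :=
  smul_le.2 fun a ha x _ => by
    obtain ⟨b, hb⟩ := Ideal.Quotient.mk_surjective (t x)
    rw [LinearMap.mem_ker, map_smul, ← hb]
    exact Ideal.Quotient.eq_zero_iff_mem.2 (I.mul_mem_right b (h ha))

theorem PAf_cnt_sup {I I' : Ideal O} (h : I' ≤ I) : cnt (W ⊔ I' • ⊤) I = cnt W I :=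
  Nat.card_congr (Equiv.subtypeEquivRight fun t =>
    ⟨le_sup_left.trans, fun h' => sup_le h' (PAf_kill h t)⟩)

theorem PAf_pi {r : ℕ} {I : Ideal O} {y : Fin r → O} (h : ∀ i, y i ∈ I) :
    y ∈ I • (⊤ : Submodule O (Fin r → O)) := by
  rw [pi_eq_sum_univ' y]
  exact sum_mem fun i _ => smul_mem_smul (h i) mem_top

theorem PAf_mat {r : ℕ} {I : Ideal O} {M M' : Matrix (Fin r) (Fin r) O}
    (h : ∀ i l, M i l - M' i l ∈ I) : range M.mulVecLin ≤ range M'.mulVecLin ⊔ I • ⊤ := by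
  rintro _ ⟨v, rfl⟩
  refine Submodule.mem_sup.2 ⟨_, ⟨v, rfl⟩, (M - M') *ᵥ v,
    PAf_pi fun i => show ∑ l, (M i l - M' i l) * v l ∈ I from
    I.sum_mem fun l _ => I.mul_mem_right (v l) (h i l), ?_⟩
  rw [mulVecLin_apply, mulVecLin_apply, sub_mulVec, add_sub_cancel]

end

variable {J : Type} {R : ℕ → Submodule Lam (Fr J)}

theorem PAf_ev {r : ℕ} (e : Fin r → J) (y : Fin r → Lam) : Ev e y = ∑ i, y i • sg (e i) :=
  Fintype.linearCombination_apply _ _ _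

theorem PAf_pj {r : ℕ} (e : Fin r → ℕ → J) (k : ℕ) (y : Fin r → Lam) :
    pj k (Ev e y) = Ev (fun i => e i k) y := by
  simp only [PAf_ev, map_sum, map_smul, pj_sg]

theorem PAf_range {r : ℕ} (e : Fin r → J) :
    span Lam (Set.range fun i => sg (e i)) = range (Ev e) := (Fintype.range_linearCombination _ _).symm

theorem U_key {r : ℕ} (e : Fin r → ℕ → J)
    (h : ∀ᶠ k in UU, R k ⊔ span Lam (Set.range fun i => sg (e i k)) = ⊤) (j : ℕ) : ∀ᶠ k in UU,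
    (R k).comap (Ev fun i => e i k) ⊔ aa j j • ⊤ = (PRel R).comap (Ev e) ⊔ aa j j • ⊤ := by
  have h1 : ∀ k, ∃ y ∈ (R k).comap (Ev fun i => e i k), y ∈ (PRel R).comap (Ev e) ⊔ aa j j • ⊤ →
      (R k).comap (Ev fun i => e i k) ≤ (PRel R).comap (Ev e) ⊔ aa j j • ⊤ := fun k => by
    by_cases hk : (R k).comap (Ev fun i => e i k) ≤ (PRel R).comap (Ev e) ⊔ aa j j • ⊤
    · exact ⟨0, zero_mem _, fun _ => hk⟩
    · obtain ⟨y, h1, h2⟩ := SetLike.not_le_iff_exists.1 hk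
      exact ⟨y, h1, fun h3 => absurd h3 h2⟩
  choose y hy hy' using h1
  have h2 : (fun i => ul fun k => y k i) ∈ (PRel R).comap (Ev e) := by
    rw [Submodule.mem_comap, PAf_ev]
    exact U_rel e (fun i k => y k i) (Eventually.of_forall fun k => PAf_ev _ (y k) ▸ hy k)
  obtain ⟨s, hs⟩ := IsNoetherian.noetherian ((PRel R).comap (Ev e))
  filter_upwards [h, eventually_all.2 fun i => ul_spec (fun k => y k i) j,
    (eventually_all_finset s).2 fun z hz => (hs.le (subset_span hz)) j] with k k1 k2 k3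
  refine le_antisymm (sup_le (hy' k (Submodule.mem_sup.2 ⟨_, h2, _, PAf_pi k2, add_sub_cancel _ _⟩))
    le_sup_right) (sup_le (hs.ge.trans (span_le.2 fun z hz => ?_)) le_sup_right)
  exact PAf_comap (PAf_range _ ▸ k1) _ (PAf_pj e k z ▸ k3 z hz)

theorem U_desc {r : ℕ} (hG : ∀ k, PGen r (R k)) {j : ℕ} {I : Ideal Lam} (hI : aa j j ≤ I)
    (t : Fr (ℕ → J) →ₗ[Lam] Lam ⧸ I) (ht : PRel R ≤ ker t) {ι : Type} [Finite ι]
    (x : ι → Fr (ℕ → J)) : ∀ᶠ k in UU, ∃ t' : Fr J →ₗ[Lam] Lam ⧸ I,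
      R k ≤ ker t' ∧ ∀ i, t' (pj k (x i)) = t (x i) := by
  choose e he using hG
  have hg := U_gen (fun i k => e k i) (Eventually.of_forall he)
  rw [PAf_range] at hg
  choose w hw z hz hx using fun i => Submodule.mem_sup.1 (hg.ge (mem_top (x := x i)))
  filter_upwards [U_key (fun i k => e k i) (Eventually.of_forall he) j,
    eventually_all.2 fun i => hw i j] with k k1 k2
  obtain ⟨t', h1, h2⟩ := PAf_desc (PAf_range _ ▸ he k) (t ∘ₗ Ev fun i k => e k i)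
    (le_sup_left.trans (k1.le.trans (sup_le (fun y hy => ht hy) (PAf_kill hI _))))
  refine ⟨t', h1, fun i => ?_⟩
  obtain ⟨y, hy⟩ := hz i
  rw [← hx i, ← hy, map_add, map_add, map_add, ht (hw i), sup_le h1 (PAf_kill hI t') (k2 i), PAf_pj]
  exact congrArg _ (LinearMap.congr_fun h2 y)

theorem U_cnt {r : ℕ} (hG : ∀ k, PGen r (R k)) (j : ℕ) :
    ∀ᶠ k in UU, ∀ I : Ideal Lam, aa j j ≤ I → cnt (PRel R) I = cnt (R k) I := by
  choose e he using hG
  have hg := U_gen (fun i k => e k i) (Eventually.of_forall he)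
  filter_upwards [U_key (fun i k => e k i) (Eventually.of_forall he) j] with k k1 I hI
  rw [PAf_cnt (PAf_range _ ▸ hg), PAf_cnt (W := R k) (PAf_range _ ▸ he k), ← PAf_cnt_sup hI, ← k1,
    PAf_cnt_sup hI]

theorem U_sq {r0 : ℕ} {lv : ℕ → ℕ} (hlv : ∀ k, k < lv k) (h : ∀ k, SqP r0 (lv k) (R k)) :
    ∃ (r : ℕ) (M : Matrix (Fin r) (Fin r) Lam),
      Nonempty ((Fr (ℕ → J) ⧸ PRel R) ≃ₗ[Lam] Cok M) := by
  choose r hr h using h
  obtain ⟨b, hb⟩ := ev_const fun k => (⟨r k, Nat.lt_succ_of_le (hr k)⟩ : Fin (r0 + 1))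
  have h1 : ∀ᶠ k in UU, ∃ p : (Fin b → J) × Matrix (Fin b) (Fin b) Lam,
      R k ⊔ span Lam (Set.range fun i => sg (p.1 i)) = ⊤ ∧
      (R k).comap (Ev p.1) = range p.2.mulVecLin ⊔ aa (lv k) (lv k) • ⊤ := hb.mono fun k hk => by
    subst hk
    obtain ⟨e, M, h1⟩ := h k
    exact ⟨(e, M), h1⟩
  obtain ⟨p, hp⟩ := h1.choice
  have hg := U_gen (fun i k => (p k).1 i) (hp.mono fun k hk => hk.1)
  rw [PAf_range] at hg
  have h2 : ∀ j, (PRel R).comap (Ev fun i k => (p k).1 i) ⊔ aa j j • ⊤ =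
      range (Matrix.of fun i l => ul fun k => (p k).2 i l).mulVecLin ⊔ aa j j • ⊤ := fun j => by
    obtain ⟨k, ⟨k1, k2⟩, k3, k4⟩ := (((U_key (fun i k => (p k).1 i) (hp.mono fun k hk => hk.1) j).and
      hp).and ((ev_lv hlv j).and (eventually_all.2 fun i => eventually_all.2 fun l =>
        ul_spec (fun k => (p k).2 i l) j))).exists
    have e := sup_eq_right.2 (smul_mono_left (N := (⊤ : Submodule Lam (Fin b → Lam))) k3)
    rw [← k1, k2.2, sup_assoc, e]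
    exact le_antisymm (sup_le (PAf_mat k4) le_sup_right)
      (sup_le (PAf_mat fun i l => neg_sub ((p k).2 i l) _ ▸ neg_mem (k4 i l)) le_sup_right)
  refine ⟨b, Matrix.of fun i l => ul fun k => (p k).2 i l,
    ⟨(quotKerEquivOfSurjective _ (PAf_surj hg)).symm.trans (quotEquivOfEq _ _ ?_)⟩⟩
  rw [ker_comp, ker_mkQ]
  exact le_antisymm (fun y hy => closedM _ fun j => (h2 j).le (mem_sup_left hy))
    fun y hy => closedM _ fun j => (h2 j).ge (mem_sup_left hy)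

end Pool.Agent.Lib.MP_696deb_nt.B2.PA
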