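import Pool.Agent.Lib.MP_696deb_nt.B2.PAa

set_option autoImplicit false

open scoped Classical
open Finset Matrix PowerSeries Filter Submodule LinearMap

namespace Pool.Agent.Lib.MP_696deb_nt.B2.PA

/-- An element that is not torsion modulo a prime ideal is detected by a functional. -/
theorem PAg_fun {O F : Type} [CommRing O] [AddCommGroup F] [Module O F] (P : Ideal O)
    [IsDomain (O ⧸ P)] [IsPrincipalIdealRing (O ⧸ P)] (R : Submodule O F)
    [Module.Finite O (F ⧸ R)] {x : F} (hx : ∀ a ∉ P, a • x ∉ R ⊔ P • ⊤) :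
    ∃ t : F →ₗ[O] O ⧸ P, R ≤ ker t ∧ t x ≠ 0 := by
  have hM : Module.IsTorsionBySet O (F ⧸ (R ⊔ P • ⊤)) P := by
    intro y a
    obtain ⟨y, rfl⟩ := Submodule.Quotient.mk_surjective _ y
    exact (Submodule.Quotient.mk_eq_zero _).2
      (Submodule.mem_sup_right (Submodule.smul_mem_smul a.2 Submodule.mem_top))
  let _ := hM.module
  have := hM.isScalarTower (S := O)
  have : Module.Finite O (F ⧸ (R ⊔ P • ⊤)) :=
    Module.Finite.of_surjective (Submodule.factor le_sup_left) (Submodule.factor_surjective _)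
  have : Module.Finite (O ⧸ P) (F ⧸ (R ⊔ P • ⊤)) := Module.Finite.of_restrictScalars_finite O _ _
  have h1 : (torsion (O ⧸ P) (F ⧸ (R ⊔ P • ⊤))).mkQ ((R ⊔ P • ⊤).mkQ x) ≠ 0 := by
    intro h
    obtain ⟨⟨a, ha⟩, h2⟩ := (mem_torsion_iff _).1 ((Submodule.Quotient.mk_eq_zero _).1 h)
    obtain ⟨a, rfl⟩ := Ideal.Quotient.mk_surjective a
    refine hx a (fun k => nonZeroDivisors.ne_zero ha (Ideal.Quotient.eq_zero_iff_mem.2 k)) ?_
    exact (Submodule.Quotient.mk_eq_zero _).1 h2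
  obtain ⟨φ, hφ⟩ := not_forall.1 (mt (Module.forall_dual_apply_eq_zero_iff (O ⧸ P) _).1 h1)
  refine ⟨((φ ∘ₗ (torsion (O ⧸ P) _).mkQ).restrictScalars O) ∘ₗ (R ⊔ P • ⊤).mkQ, fun y hy => ?_, hφ⟩
  rw [LinearMap.mem_ker, LinearMap.comp_apply, mkQ_apply,
    (Submodule.Quotient.mk_eq_zero _).2 (Submodule.mem_sup_left hy), map_zero]

theorem PAg_gen {O F : Type} [CommRing O] [AddCommGroup F] [Module O F] (R : Submodule O F)
    [Module.Finite O (F ⧸ R)] : ∃ (r : ℕ) (y : Fin r → F), ∀ (B : Type) [AddCommGroup B]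
      [Module O B] (t t' : F →ₗ[O] B), R ≤ ker t → R ≤ ker t' → (∀ i, t (y i) = t' (y i)) →
      t = t' := by
  obtain ⟨r, s, hs⟩ := Module.Finite.exists_fin (R := O) (M := F ⧸ R)
  choose y hy using fun i => Submodule.Quotient.mk_surjective R (s i)
  refine ⟨r, y, fun B _ _ t t' h h' e => ?_⟩
  have : R.liftQ t h = R.liftQ t' h' :=
    LinearMap.ext_on hs (by rintro _ ⟨i, rfl⟩; rw [← hy, liftQ_apply, liftQ_apply, e])
  rw [← R.liftQ_mkQ t h, this, liftQ_mkQ]

theorem PAg_memP {f : Lam} : f ∈ Ideal.span {(X : Lam)} ↔ constantCoeff f = 0 :=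
  Ideal.mem_span_singleton.trans PowerSeries.X_dvd_iff

theorem PAg_mem {j : ℕ} {f : Lam} : f ∈ aa j 1 ↔ (2 : ℤ_[2]) ^ j ∣ constantCoeff f := by
  simp [mem_aa]

theorem PAg_le (j : ℕ) : Ideal.span {(X : Lam)} ≤ aa j 1 := fun f hf => by
  rw [PAg_mem, PAg_memP.1 hf]
  exact dvd_zero _

theorem PAg_cc (b : ℕ) (f : Lam) :
    constantCoeff (2 ^ b * f) = (2 : ℤ_[2]) ^ b * constantCoeff f := by
  rw [map_mul, map_pow, map_ofNat]

theorem PAg_cancel {j b : ℕ} {f : Lam} : 2 ^ b * f ∈ aa j 1 ↔ f ∈ aa (j - b) 1 := by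
  rw [PAg_mem, PAg_mem, PAg_cc]
  rcases le_total j b with h | h
  · rw [Nat.sub_eq_zero_of_le h, pow_zero]
    exact iff_of_true ((pow_dvd_pow _ h).mul_right _) (one_dvd _)
  · obtain ⟨k, rfl⟩ := Nat.exists_eq_add_of_le h
    rw [pow_add, Nat.add_sub_cancel_left, mul_dvd_mul_iff_left (pow_ne_zero _ two_ne_zero)]

instance PAg_domain : IsDomain (Lam ⧸ Ideal.span {(X : Lam)}) :=
  (Ideal.Quotient.isDomain_iff_prime _).2 ((Ideal.span_singleton_prime prime_X.ne_zero).2 prime_X)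

instance PAg_pid : IsPrincipalIdealRing (Lam ⧸ Ideal.span {(X : Lam)}) :=
  IsPrincipalIdealRing.of_surjective
    ((Ideal.Quotient.mk (Ideal.span {(X : Lam)})).comp (PowerSeries.C : ℤ_[2] →+* Lam)) fun z => by
      obtain ⟨f, rfl⟩ := Ideal.Quotient.mk_surjective z
      exact ⟨constantCoeff f, Ideal.Quotient.eq.2 (PAg_memP.2 (by simp))⟩

instance PAg_finite (j : ℕ) : Finite (Lam ⧸ aa j 1) :=
  Nat.finite_of_card_ne_zero (by rw [card_quot]; positivity)

theorem PAg_pow {F ι : Type} [AddCommGroup F] [Module Lam F] [Fintype ι] (R : Submodule Lam F)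
    (x : ι → F)
    (h : ∀ i, ∃ a ∉ Ideal.span {(X : Lam)}, a • x i ∈ R ⊔ Ideal.span {(X : Lam)} • ⊤) :
    ∃ b : ℕ, ∀ i, (2 : Lam) ^ b • x i ∈ R ⊔ Ideal.span {(X : Lam)} • ⊤ := by
  have h1 : ∀ i, ∃ b : ℕ, (2 : Lam) ^ b • x i ∈ R ⊔ Ideal.span {(X : Lam)} • ⊤ := fun i => by
    obtain ⟨a, ha, hx⟩ := h i
    obtain ⟨b, u, hu⟩ := IsDiscreteValuationRing.associated_pow_irreducible
      (mt PAg_memP.2 ha) (PadicInt.irreducible_p (p := 2))
    have h2 : (2 : Lam) ^ b - PowerSeries.C (u : ℤ_[2]) * a ∈ Ideal.span {(X : Lam)} := by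
      rw [PAg_memP, map_sub, map_mul, map_pow, map_ofNat, constantCoeff_C, mul_comm, hu]
      simp
    refine ⟨b, ?_⟩
    rw [← sub_add_cancel ((2 : Lam) ^ b) (PowerSeries.C (u : ℤ_[2]) * a), add_smul, mul_smul]
    exact add_mem (Submodule.mem_sup_right (Submodule.smul_mem_smul h2 Submodule.mem_top))
      (Submodule.smul_mem _ _ hx)
  choose b hb using h1
  refine ⟨univ.sup b, fun i => ?_⟩
  obtain ⟨k, hk⟩ := Nat.exists_eq_add_of_le' (Finset.le_sup (f := b) (mem_univ i))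
  rw [hk, pow_add, mul_smul]
  exact Submodule.smul_mem _ _ (hb i)

theorem PAg_kill {F : Type} [AddCommGroup F] [Module Lam F] {I J : Ideal Lam} (h : I ≤ J)
    (t : F →ₗ[Lam] Lam ⧸ J) : I • (⊤ : Submodule Lam F) ≤ ker t :=
  Submodule.smul_le.2 fun a ha x _ => by
    obtain ⟨w, hw⟩ := Ideal.Quotient.mk_surjective (t x)
    rw [LinearMap.mem_ker, map_smul, ← hw]
    exact Ideal.Quotient.eq_zero_iff_mem.2 (J.mul_mem_right w (h ha))

theorem PAg_fin {F : Type} [AddCommGroup F] [Module Lam F] (R : Submodule Lam F)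
    [Module.Finite Lam (F ⧸ R)] (j : ℕ) : Finite {t : F →ₗ[Lam] Lam ⧸ aa j 1 // R ≤ ker t} := by
  obtain ⟨r, y, hy⟩ := PAg_gen R
  exact Finite.of_injective (fun t i => t.1 (y i)) fun t t' e =>
    Subtype.ext (hy _ _ _ t.2 t'.2 (congrFun e))

theorem PAg_tors (j b : ℕ) : ∃ μ : (Lam ⧸ aa b 1) → Lam ⧸ aa j 1,
    ∀ z, (2 : Lam) ^ b • z = 0 → ∃ w, μ w = z := by
  refine ⟨Submodule.mapQ (aa b 1) (aa j 1) (LinearMap.mulLeft Lam (2 ^ (j - b))) fun f hf => ?_,
    fun z hz => ?_⟩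
  · exact PAg_cancel.2 (aa_anti (by omega) le_rfl hf)
  · obtain ⟨f, rfl⟩ := Ideal.Quotient.mk_surjective z
    obtain ⟨w, hw⟩ := PAg_mem.1 (PAg_cancel.1 (Ideal.Quotient.eq_zero_iff_mem.1 hz))
    refine ⟨Ideal.Quotient.mk _ (PowerSeries.C w), Ideal.Quotient.eq.2 (PAg_le j (PAg_memP.2 ?_))⟩
    rw [map_sub, hw, LinearMap.mulLeft_apply, PAg_cc, constantCoeff_C, sub_self]

theorem dim2_of {F : Type} [AddCommGroup F] [Module Lam F] (R : Submodule Lam F)
    [Module.Finite Lam (F ⧸ R)] {C : ℕ} (h : ∀ j, cnt R (aa j 1) ≤ C * 4 ^ j) :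
    Dim2 (Ideal.span {X}) R := by
  intro t ht
  by_contra hn
  have h1 : ∀ i, ∃ a ∉ Ideal.span {(X : Lam)}, a • (Pi.single i 1 : Fin 3 → _) ∈
      LinearMap.range (LinearMap.pi t) ⊔ Ideal.span {(X : Lam)} • ⊤ := fun i => by
    by_contra k
    obtain ⟨s, s1, s2⟩ := PAg_fun (Ideal.span {(X : Lam)}) (LinearMap.range (LinearMap.pi t))
      (x := Pi.single i 1) fun a ha hx => k ⟨a, ha, hx⟩
    choose a ha using fun l : Fin 3 => Ideal.Quotient.mk_surjective (s (Pi.single l 1))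
    refine hn ⟨a, ⟨i, fun k => s2 (ha i ▸ Ideal.Quotient.eq_zero_iff_mem.2 k)⟩,
      LinearMap.ext fun x => ?_⟩
    choose w hw using fun l : Fin 3 => Ideal.Quotient.mk_surjective (t l x)
    have e : LinearMap.pi t x = ∑ l, w l • (Pi.single l 1 : Fin 3 → _) := by
      funext l
      rw [LinearMap.pi_apply, ← hw, Finset.sum_apply, Finset.sum_eq_single l]
      · rw [Pi.smul_apply, Pi.single_eq_same]
        exact (congrArg _ (mul_one (w l))).symm
      · intro m _ hm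
        rw [Pi.smul_apply, Pi.single_eq_of_ne' hm, smul_zero]
      · exact fun h => absurd (mem_univ l) h
    have e2 : s (LinearMap.pi t x) = 0 := s1 ⟨x, rfl⟩
    rw [e, map_sum] at e2
    rw [LinearMap.sum_apply, LinearMap.zero_apply, ← e2]
    refine Finset.sum_congr rfl fun l _ => ?_
    rw [LinearMap.smul_apply, map_smul, ← hw, ← ha]
    exact congrArg _ (mul_comm (a l) (w l))
  obtain ⟨b, hb⟩ := PAg_pow _ _ h1
  have h2 : ∀ i, ∃ x, ∀ l, t l x = (2 : Lam) ^ b • (Pi.single i 1 : Fin 3 → _) l := fun i => by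
    obtain ⟨_, ⟨x, rfl⟩, z, hz, e⟩ := Submodule.mem_sup.1 (hb i)
    refine ⟨x, fun l => ?_⟩
    have e1 : z l = 0 := LinearMap.mem_ker.1 (PAg_kill le_rfl
      (LinearMap.proj l : (Fin 3 → Lam ⧸ Ideal.span {(X : Lam)}) →ₗ[Lam] _) hz)
    have e2 := congrFun e l
    rwa [Pi.add_apply, e1, add_zero] at e2
  choose x hx using h2
  have h3 : ∀ j, 8 ^ j ≤ cnt R (aa (j + b) 1) := fun j => by
    choose g hg using Ideal.Quotient.mk_surjective (I := aa j 1)
    have := PAg_fin R (j + b)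
    have e : ∀ (a : Fin 3 → Lam) (i : Fin 3), (Submodule.factor (PAg_le (j + b)) ∘ₗ
        ∑ l, a l • t l) (x i) = Ideal.Quotient.mk _ (2 ^ b * a i) := fun a i => by
      rw [LinearMap.comp_apply, LinearMap.sum_apply, Finset.sum_eq_single i]
      · rw [LinearMap.smul_apply, hx, Pi.single_eq_same]
        exact congrArg (Ideal.Quotient.mk _) (by simp [mul_comm])
      · intro m _ hm
        rw [LinearMap.smul_apply, hx, Pi.single_eq_of_ne hm, smul_zero, smul_zero]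
      · exact fun h => absurd (mem_univ i) h
    have h4 := Nat.card_le_card_of_injective (β := {t : F →ₗ[Lam] Lam ⧸ aa (j + b) 1 // R ≤ ker t})
      (fun α : Fin 3 → Lam ⧸ aa j 1 => ⟨Submodule.factor (PAg_le (j + b)) ∘ₗ
        ∑ l, g (α l) • t l, fun y hy => by
          rw [LinearMap.mem_ker, LinearMap.comp_apply, LinearMap.sum_apply, Finset.sum_eq_zero,
            map_zero]
          intro l _
          rw [LinearMap.smul_apply, ht l hy, smul_zero]⟩) fun α α' k => funext fun i => by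
      have k1 := LinearMap.congr_fun (congrArg Subtype.val k) (x i)
      rw [e, e, Ideal.Quotient.eq, ← mul_sub, PAg_cancel, Nat.add_sub_cancel,
        ← Ideal.Quotient.eq, hg, hg] at k1
      exact k1
    rw [Nat.card_fun, card_quot, Nat.card_eq_fintype_card, Fintype.card_fin, mul_one, ← pow_mul,
      mul_comm, pow_mul] at h4
    exact h4
  have h5 := (h3 (C * 4 ^ b)).trans (h _)
  have h6 : C * 4 ^ b < 2 ^ (C * 4 ^ b) := Nat.lt_two_pow_self
  rw [show (8 : ℕ) = 2 * 4 from rfl, mul_pow, pow_add, mul_comm (4 ^ _) (4 ^ b), ← mul_assoc] at h5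
  exact absurd (Nat.le_of_mul_le_mul_right h5 (by positivity)) h6.not_ge

theorem cnt_of_dim1 {F : Type} [AddCommGroup F] [Module Lam F] (R : Submodule Lam F)
    [Module.Finite Lam (F ⧸ R)] (h : Dim1 (Ideal.span {X}) R) :
    ∃ C, ∀ j, cnt R (aa j 1) ≤ C * 2 ^ j := by
  have h1 : ∃ y0, ∀ x, ∃ a ∉ Ideal.span {(X : Lam)},
      a • x ∈ (R ⊔ span Lam {y0}) ⊔ Ideal.span {(X : Lam)} • ⊤ := by
    by_cases k : ∃ y0, ∀ a ∉ Ideal.span {(X : Lam)}, a • y0 ∉ R ⊔ Ideal.span {(X : Lam)} • ⊤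
    · obtain ⟨y0, k⟩ := k
      refine ⟨y0, fun x => ?_⟩
      by_contra k'
      have : Module.Finite Lam (F ⧸ (R ⊔ span Lam {y0})) :=
        Module.Finite.of_surjective (Submodule.factor le_sup_left) (Submodule.factor_surjective _)
      obtain ⟨t, t1, t2⟩ := PAg_fun _ R k
      obtain ⟨s, s1, s2⟩ := PAg_fun (Ideal.span {(X : Lam)}) (R ⊔ span Lam {y0}) (x := x)
        fun a ha hx => k' ⟨a, ha, hx⟩
      obtain ⟨a, b, ab, e⟩ := h t s t1 (le_sup_left.trans s1)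
      have s3 : s y0 = 0 := s1 (Submodule.mem_sup_right (mem_span_singleton_self y0))
      have e0 : ∀ (c : Lam) (z : Lam ⧸ Ideal.span {(X : Lam)}), z ≠ 0 → c • z = 0 →
          Ideal.Quotient.mk (Ideal.span {(X : Lam)}) c = 0 := fun c z hz hc =>
        (mul_eq_zero.1 (show Ideal.Quotient.mk _ c * z = 0 from
          (Algebra.smul_def c z).symm.trans hc)).resolve_right hz
      have e1 := LinearMap.congr_fun e y0
      have e2 := LinearMap.congr_fun e x
      simp only [LinearMap.add_apply, LinearMap.smul_apply, LinearMap.zero_apply] at e1 e2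
      rw [s3, smul_zero, add_zero] at e1
      have ha := e0 a _ t2 e1
      have e3 : a • t x = 0 := (Algebra.smul_def a _).trans (mul_eq_zero_of_left ha _)
      rw [e3, zero_add] at e2
      exact ab.elim (fun k => k (Ideal.Quotient.eq_zero_iff_mem.1 ha))
        fun k => k (Ideal.Quotient.eq_zero_iff_mem.1 (e0 b _ s2 e2))
    · refine ⟨0, fun x => ?_⟩
      by_contra k'
      exact k ⟨x, fun a ha hx => k' ⟨a, ha, SetLike.le_def.1 (sup_le_sup_right le_sup_left _) hx⟩⟩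
  obtain ⟨y0, h1⟩ := h1
  obtain ⟨r, y, hy⟩ := PAg_gen R
  obtain ⟨b, hb⟩ := PAg_pow _ y fun i => h1 (y i)
  refine ⟨(2 ^ b) ^ r, fun j => ?_⟩
  obtain ⟨μ, hμ⟩ := PAg_tors j b
  have : Nonempty {t : F →ₗ[Lam] Lam ⧸ aa j 1 // R ≤ ker t} := ⟨⟨0, by simp⟩⟩
  let ev : {t : F →ₗ[Lam] Lam ⧸ aa j 1 // R ≤ ker t} → Lam ⧸ aa j 1 := fun t => t.1 y0
  have h2 : ∀ t i, ∃ w, μ w = t.1 (y i) - (Function.invFun ev (ev t)).1 (y i) := fun t i => by
    refine hμ _ ?_
    have e : R ⊔ span Lam {y0} ⊔ Ideal.span {(X : Lam)} • ⊤ ≤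
        ker (t.1 - (Function.invFun ev (ev t)).1) := by
      refine sup_le (sup_le (fun z hz => ?_) ?_) (PAg_kill (PAg_le j) _)
      · rw [LinearMap.mem_ker, LinearMap.sub_apply, t.2 hz, (Function.invFun ev (ev t)).2 hz,
          sub_zero]
      · rw [span_singleton_le_iff_mem, LinearMap.mem_ker, LinearMap.sub_apply, sub_eq_zero]
        exact (Function.invFun_eq (f := ev) ⟨t, rfl⟩).symm
    have e1 := e (hb i)
    rwa [LinearMap.mem_ker, map_smul, LinearMap.sub_apply] at e1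
  choose w hw using h2
  have h3 := Nat.card_le_card_of_injective (fun t => (w t, ev t)) fun t t' e => by
    obtain ⟨e1, e2⟩ := Prod.ext_iff.1 e
    refine Subtype.ext (hy _ _ _ t.2 t'.2 fun i => ?_)
    have e3 := hw t i
    rw [show w t = w t' from e1, show ev t = ev t' from e2, hw] at e3
    exact (sub_left_inj.1 e3).symm
  rw [Nat.card_prod, Nat.card_fun, card_quot, card_quot, mul_one, mul_one,
    Nat.card_eq_fintype_card (α := Fin r), Fintype.card_fin] at h3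
  exact h3

end Pool.Agent.Lib.MP_696deb_nt.B2.PA
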