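import Pool.Agent.Lib.MP_696deb_nt.B2.PA1

set_option autoImplicit false

open scoped Classical
open Finset Matrix PowerSeries Filter Submodule LinearMap

namespace Pool.Agent.Lib.MP_696deb_nt.B2.PA

variable {O F : Type} [CommRing O] [IsDomain O] [AddCommGroup F] [Module O F] (P : Ideal O)
  [P.IsPrime]

/-- The localised ring. -/
abbrev LO : Type := Localization.AtPrime P

variable (F) in
/-- The localised module. -/
abbrev LF : Type := LocalizedModule P.primeCompl F

/-- The map to the localised module. -/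
noncomputable abbrev lm : F →ₗ[O] LF F P := LocalizedModule.mkLinearMap P.primeCompl F

/-- The localised submodule. -/
noncomputable def lR (R : Submodule O F) : Submodule (LO P) (LF F P) :=
  span (LO P) (lm P '' (R : Set F))

/-- The maximal ideal. -/
abbrev LM : Ideal (LO P) := IsLocalRing.maximalIdeal (LO P)

theorem pah_lR (R : Submodule O F) : lR P R = R.localized' (LO P) P.primeCompl (lm P) :=
  (localized'_eq_span _ _ _ _).symm

theorem lo_notMem {a : O} : algebraMap O (LO P) a ∉ LM P ↔ a ∉ P := by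
  exact (IsLocalization.AtPrime.to_map_mem_maximal_iff (LO P) P a).not

theorem lo_inj : Function.Injective (algebraMap O (LO P)) := by
  exact IsLocalization.injective (LO P) P.primeCompl_le_nonZeroDivisors

theorem lm_smul (a : O) (x : F) : lm P (a • x) = algebraMap O (LO P) a • lm P x := by
  rw [map_smul, algebraMap_smul]

theorem lm_mem {R : Submodule O F} {x : F} (h : x ∈ R) : lm P x ∈ lR P R := by
  exact subset_span ⟨x, h, rfl⟩

theorem lm_mem_iff {R : Submodule O F} {x : F} : lm P x ∈ lR P R ↔ ∃ b ∉ P, b • x ∈ R := by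
  rw [pah_lR]
  constructor
  · rintro ⟨m, hm, s, e⟩
    rw [IsLocalizedModule.mk'_eq_iff, Submonoid.smul_def, ← map_smul] at e
    obtain ⟨c, hc⟩ := IsLocalizedModule.exists_of_eq (S := P.primeCompl) e
    refine ⟨c * s, (c * s).2, ?_⟩
    rw [mul_smul, ← Submonoid.smul_def c, ← hc]
    exact R.smul_mem _ hm
  · rintro ⟨b, hb, h⟩
    exact ⟨_, h, ⟨b, hb⟩, IsLocalizedModule.mk'_cancel (lm P) x (⟨b, hb⟩ : P.primeCompl)⟩

theorem lm_surj (y : LF F P) : ∃ b ∉ P, ∃ x : F, algebraMap O (LO P) b • y = lm P x := by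
  obtain ⟨⟨x, s⟩, h⟩ := IsLocalizedModule.surj P.primeCompl (lm P) y
  exact ⟨s, s.2, x, by rw [algebraMap_smul]; exact h⟩

theorem lR_sup (R R' : Submodule O F) : lR P (R ⊔ R') = lR P R ⊔ lR P R' := by
  simp only [pah_lR]
  exact (localized'gi (LO P) P.primeCompl (lm P)).gc.l_sup

theorem lR_span (s : Set F) : lR P (span O s) = span (LO P) (lm P '' s) := by
  rw [pah_lR, localized'_span]

theorem lR_smul (R : Submodule O F) : lR P (R ⊔ P • ⊤) = lR P R ⊔ LM P • ⊤ := by
  rw [lR_sup, pah_lR P (P • ⊤), localized'_smul, localized'_top, localized'_eq_span, LM,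
    ← Localization.AtPrime.map_eq_maximalIdeal]
  rfl

theorem lR_fg (R : Submodule O F) [Module.Finite O (F ⧸ R)] :
    Module.Finite (LO P) (LF F P ⧸ lR P R) := by
  rw [pah_lR]
  exact Module.Finite.of_isLocalizedModule P.primeCompl
    (R.toLocalizedQuotient' (LO P) P.primeCompl (lm P))

theorem l_asc {B : Type} [AddCommGroup B] [Module O B] [Module (LO P) B]
    [IsScalarTower O (LO P) B] (t : F →ₗ[O] B) : ∃ t' : LF F P →ₗ[LO P] B,
      (∀ x, t' (lm P x) = t x) ∧ ∀ R : Submodule O F, R ≤ ker t → lR P R ≤ ker t' := by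
  have h := IsLocalizedModule.isBaseChange P.primeCompl (LO P) (lm P (F := F))
  refine ⟨h.lift t, h.lift_eq t, fun R hR => span_le.2 ?_⟩
  rintro _ ⟨x, hx, rfl⟩
  exact (h.lift_eq t x).trans (hR hx)

theorem l_desc {B B' : Type} [AddCommGroup B] [Module O B] [AddCommGroup B'] [Module O B']
    [Module (LO P) B'] [IsScalarTower O (LO P) B'] (ι : B →ₗ[O] B') (hι : Function.Injective ι)
    (hs : ∀ y', ∃ b ∉ P, ∃ y, b • y' = ι y) (R : Submodule O F) [Module.Finite O (F ⧸ R)]
    (t' : LF F P →ₗ[LO P] B') (ht : lR P R ≤ ker t') :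
    ∃ b ∉ P, ∃ t : F →ₗ[O] B, R ≤ ker t ∧ ∀ x, ι (t x) = b • t' (lm P x) := by
  let u : F →ₗ[O] B' := t'.restrictScalars O ∘ₗ lm P
  have hu : R ≤ ker u := fun x hx => ht (lm_mem P hx)
  obtain ⟨s, hs'⟩ := Module.Finite.fg_top (R := O) (M := F ⧸ R)
  choose b hb y hy using hs
  have h1 : ∏ q ∈ s, b (R.liftQ u hu q) ∈ P.primeCompl := prod_mem fun q _ => hb _
  have h2 : span O (s : Set (F ⧸ R)) ≤
      (range ι).comap ((∏ q ∈ s, b (R.liftQ u hu q)) • R.liftQ u hu) := span_le.2 fun q hq => by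
    obtain ⟨c, hc⟩ := dvd_prod_of_mem (fun q => b (R.liftQ u hu q)) hq
    refine ⟨c • y (R.liftQ u hu q), ?_⟩
    rw [hc, map_smul, ← hy, LinearMap.smul_apply, mul_comm, mul_smul]
  generalize ∏ q ∈ s, b (R.liftQ u hu q) = c at h1 h2
  have h3 : ∀ x, (c • u) x ∈ range ι := fun x => h2 (hs' ▸ mem_top : R.mkQ x ∈ _)
  have h4 : ∀ x, ι ((LinearEquiv.ofInjective ι hι).symm ⟨_, h3 x⟩) = c • u x := fun x =>
    congrArg Subtype.val ((LinearEquiv.ofInjective ι hι).apply_symm_apply ⟨_, h3 x⟩)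
  refine ⟨c, h1, (LinearEquiv.ofInjective ι hι).symm.toLinearMap ∘ₗ codRestrict _ (c • u) h3,
    fun x hx => hι ?_, h4⟩
  exact (h4 x).trans (by rw [hu hx, smul_zero, map_zero])

/-- The map of residue rings. -/
noncomputable def lq : (O ⧸ P) →+* LO P ⧸ LM P :=
  Ideal.Quotient.lift P ((Ideal.Quotient.mk (LM P)).comp (algebraMap O (LO P))) fun a ha => by
    by_contra h
    exact (lo_notMem P).1 (fun h' => h (Ideal.Quotient.eq_zero_iff_mem.2 h')) ha

theorem lq_mk (a : O) :
    lq P (Ideal.Quotient.mk P a) = Ideal.Quotient.mk (LM P) (algebraMap O (LO P) a) := rfl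

theorem lq_inj : Function.Injective (lq P) := by
  refine (injective_iff_map_eq_zero _).2 fun a ha => ?_
  obtain ⟨a, rfl⟩ := Ideal.Quotient.mk_surjective a
  rw [lq_mk, Ideal.Quotient.eq_zero_iff_mem] at ha
  exact Ideal.Quotient.eq_zero_iff_mem.2 (by_contra fun h => (lo_notMem P).2 h ha)

theorem lq_surj (y' : LO P ⧸ LM P) : ∃ b ∉ P, ∃ y, b • y' = lq P y := by
  obtain ⟨z, rfl⟩ := Ideal.Quotient.mk_surjective y'
  obtain ⟨⟨a, s⟩, h⟩ := IsLocalization.surj P.primeCompl z
  refine ⟨s, s.2, Ideal.Quotient.mk P a, ?_⟩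
  rw [lq_mk, ← h, mul_comm, ← Algebra.smul_def]
  rfl

theorem l_pres {r : ℕ} (M : Matrix (Fin r) (Fin r) O) (R : Submodule O F) (p : F →ₗ[O] Cok M)
    (hp : Function.Surjective p) (hR : R ≤ ker p) :
    ∃ p' : LF F P →ₗ[LO P] Cok (M.map (algebraMap O (LO P))),
      Function.Surjective p' ∧ lR P R ≤ ker p' := by
  let j : (Fin r → O) →ₗ[O] Cok (M.map (algebraMap O (LO P))) :=
    (range (M.map (algebraMap O (LO P))).mulVecLin).mkQ.restrictScalars O ∘ₗ
      (Algebra.linearMap O (LO P)).compLeft (Fin r)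
  have hj : range M.mulVecLin ≤ ker j := by
    rintro _ ⟨v, rfl⟩
    refine (Submodule.Quotient.mk_eq_zero _).2 ⟨algebraMap O (LO P) ∘ v, funext fun i => ?_⟩
    exact (RingHom.map_mulVec (algebraMap O (LO P)) M v i).symm
  obtain ⟨p', h1, h2⟩ := l_asc P ((range M.mulVecLin).liftQ j hj ∘ₗ p)
  refine ⟨p', fun z => ?_, h2 R fun x hx => ?_⟩
  · obtain ⟨z, rfl⟩ := Submodule.mkQ_surjective _ z
    rw [← LinearMap.mem_range, pi_eq_sum_univ' z, map_sum]
    refine sum_mem fun i _ => ?_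
    rw [map_smul]
    refine smul_mem _ _ ?_
    obtain ⟨x, hx⟩ := hp (Submodule.Quotient.mk (Pi.single i 1))
    refine ⟨lm P x, ?_⟩
    rw [h1, LinearMap.comp_apply, hx, liftQ_apply]
    refine congrArg (range (M.map (algebraMap O (LO P))).mulVecLin).mkQ (funext fun k => ?_)
    by_cases e : k = i <;> simp [e]
  · rw [LinearMap.mem_ker, LinearMap.comp_apply, hR hx, map_zero]

end Pool.Agent.Lib.MP_696deb_nt.B2.PA
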