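import Pool.Agent.Lib.MP_696deb_nt.B2.PAh

set_option autoImplicit false

open scoped Classical
open Finset Matrix PowerSeries Filter Submodule LinearMap

namespace Pool.Agent.Lib.MP_696deb_nt.B2.PA

variable {O F : Type} [CommRing O] [IsDomain O] [AddCommGroup F] [Module O F] {P : Ideal O}
  [P.IsPrime] {R : Submodule O F} {p s : Fin 2 → F}

theorem pah2_smul {A M : Type} [CommRing A] [AddCommGroup M] [Module A M] (p s : Fin 2 → M)
    (c : A) (x y : Fin 2 → A) : jv p s (c • x) (c • y) = c • jv p s x y := by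
  simp only [jv, Pi.smul_apply, smul_eq_mul, mul_smul, smul_add]

theorem pah2_jv (x y : Fin 2 → O) : lm P (jv p s x y) =
    jv (lm P ∘ p) (lm P ∘ s) (algebraMap O (LO P) ∘ x) (algebraMap O (LO P) ∘ y) := by
  simp only [jv, map_add, lm_smul, Function.comp_apply]

theorem pah2_unit {b : O} (hb : b ∉ P) : IsUnit (algebraMap O (LO P) b) :=
  IsLocalRing.notMem_maximalIdeal.1 ((lo_notMem P).2 hb)

theorem pah2_cancel {B : Type} [AddCommGroup B] [Module (LO P) B] {b : O} (hb : b ∉ P) {z : B}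
    (h : algebraMap O (LO P) b • z = 0) : z = 0 := (pah2_unit hb).smul_eq_zero.1 h

omit [IsDomain O] in
theorem pah2_den {ι : Type} [Finite ι] (x : ι → LO P) :
    ∃ b ∉ P, ∃ x0 : ι → O, algebraMap O (LO P) ∘ x0 = algebraMap O (LO P) b • x := by
  obtain ⟨b, hb⟩ := IsLocalization.exist_integer_multiples_of_finite P.primeCompl x
  choose x0 h0 using hb
  exact ⟨b, b.2, x0, funext fun i => (h0 i).trans (Algebra.smul_def _ _)⟩

/-- Clearing of denominators in a relation. -/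
theorem pah2_clear {x y : Fin 2 → LO P} (h : jv (lm P ∘ p) (lm P ∘ s) x y ∈ lR P R) :
    ∃ (u : (LO P)ˣ) (x0 y0 : Fin 2 → O), jv p s x0 y0 ∈ R ∧
      (∀ i, algebraMap O (LO P) (x0 i) = u * x i) ∧ ∀ i, algebraMap O (LO P) (y0 i) = u * y i := by
  obtain ⟨b, hb, z, hz⟩ := pah2_den (Sum.elim x y)
  have h1 : algebraMap O (LO P) ∘ (z ∘ Sum.inl) = algebraMap O (LO P) b • x :=
    funext fun i => congrFun hz (Sum.inl i)
  have h2 : algebraMap O (LO P) ∘ (z ∘ Sum.inr) = algebraMap O (LO P) b • y :=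
    funext fun i => congrFun hz (Sum.inr i)
  obtain ⟨c, hc, h3⟩ := (lm_mem_iff P (R := R) (x := jv p s (z ∘ Sum.inl) (z ∘ Sum.inr))).1 (by
    rw [pah2_jv, h1, h2, pah2_smul]
    exact smul_mem _ _ h)
  refine ⟨(pah2_unit hc).unit * (pah2_unit hb).unit, c • (z ∘ Sum.inl), c • (z ∘ Sum.inr),
    by rwa [pah2_smul], fun i => ?_, fun i => ?_⟩
  · rw [Pi.smul_apply, smul_eq_mul, map_mul, Units.val_mul, mul_assoc]
    exact congrArg _ (congrFun h1 i)
  · rw [Pi.smul_apply, smul_eq_mul, map_mul, Units.val_mul, mul_assoc]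
    exact congrArg _ (congrFun h2 i)

variable (P) in
/-- The map of residue rings as a linear map. -/
noncomputable def pah2_lq : (O ⧸ P) →ₗ[O] LO P ⧸ LM P where
  toFun := lq P
  map_add' := map_add _
  map_smul' a y := by
    obtain ⟨y, rfl⟩ := Ideal.Quotient.mk_surjective y
    change lq P (Ideal.Quotient.mk P (a * y)) = Ideal.Quotient.mk (LM P) (a • algebraMap O (LO P) y)
    rw [lq_mk, map_mul (algebraMap O (LO P)), Algebra.smul_def]

theorem pah2_desc [Module.Finite O (F ⧸ R)] (t' : LF F P →ₗ[LO P] LO P ⧸ LM P)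
    (ht : lR P R ≤ ker t') : ∃ b ∉ P, ∃ t : F →ₗ[O] O ⧸ P, R ≤ ker t ∧
      ∀ x, lq P (t x) = algebraMap O (LO P) b • t' (lm P x) := by
  obtain ⟨b, hb, t, h1, h2⟩ := l_desc P (pah2_lq P) (lq_inj P) (lq_surj P) R t' ht
  exact ⟨b, hb, t, h1, fun x => (h2 x).trans (algebraMap_smul _ _ _).symm⟩

theorem pah2_asc (t : F →ₗ[O] O ⧸ P) (ht : R ≤ ker t) : ∃ t' : LF F P →ₗ[LO P] LO P ⧸ LM P,
    lR P R ≤ ker t' ∧ ∀ x, t' (lm P x) = lq P (t x) := by
  obtain ⟨t', h1, h2⟩ := l_asc P (pah2_lq P ∘ₗ t)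
  exact ⟨t', h2 R (ht.trans (ker_le_ker_comp _ _)), h1⟩

theorem pah2_lq_smul (a : O) (y : O ⧸ P) : lq P (a • y) = algebraMap O (LO P) a • lq P y :=
  ((pah2_lq P).map_smul a y).trans (algebraMap_smul _ _ _).symm

theorem IsoS.loc [Module.Finite O (F ⧸ R)] (h : IsoS P R p s) :
    IsoS (LM P) (lR P R) (lm P ∘ p) (lm P ∘ s) := by
  obtain ⟨a, ha, h⟩ := h
  refine ⟨_, (lo_notMem P).2 ha, fun t' ht => ?_⟩
  obtain ⟨b, hb, t, h1, h2⟩ := l_desc P (Algebra.linearMap O (LO P)) (lo_inj P) (fun y => by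
    obtain ⟨b, hb, x, hx⟩ := pah2_den fun _ : Unit => y
    exact ⟨b, hb, x (), (Algebra.smul_def _ _).trans (congrFun hx ()).symm⟩) R t' ht
  have h3 : ∀ q : Fin 2 → F, algebraMap O (LO P) ∘ (t ∘ q) =
      algebraMap O (LO P) b • (t' ∘ (lm P ∘ q)) :=
    fun q => funext fun i => (h2 _).trans (Algebra.smul_def _ _)
  have h4 := lm_mem P (h t h1)
  rwa [lm_smul, pah2_jv, h3, h3, pah2_smul, smul_comm,
    Submodule.smul_mem_iff_of_isUnit _ (pah2_unit hb)] at h4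

theorem CoS.loc (h : CoS P R p s) : CoS (LM P) (lR P R) (lm P ∘ p) (lm P ∘ s) := by
  obtain ⟨a, ha, h⟩ := h
  refine ⟨_, (lo_notMem P).2 ha, fun x y hxy => ?_⟩
  obtain ⟨u, x0, y0, h1, h2, h3⟩ := pah2_clear hxy
  obtain ⟨t, t1, t2, t3⟩ := h x0 y0 h1
  obtain ⟨t', k1, k2⟩ := l_asc P (Algebra.linearMap O (LO P) ∘ₗ t)
  have key : ∀ (z : F) (c : O) (d : LO P), t z = a * c → algebraMap O (LO P) c = u * d →
      ((u⁻¹ : (LO P)ˣ) : LO P) * t' (lm P z) = algebraMap O (LO P) a * d := fun z c d e1 e2 => by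
    rw [k1, LinearMap.comp_apply, e1, Algebra.linearMap_apply, map_mul, e2, mul_left_comm,
      Units.inv_mul_cancel_left]
  exact ⟨((u⁻¹ : (LO P)ˣ) : LO P) • t',
    (k2 R (t1.trans (ker_le_ker_comp _ _))).trans (ker_le_ker_smul _ _),
    funext fun i => key _ _ _ (congrFun t2 i) (h2 i),
    funext fun i => key _ _ _ (congrFun t3 i) (h3 i)⟩

theorem IsoR.loc [Module.Finite O (F ⧸ R)] (h : IsoR P R p s) :
    IsoR (LM P) (lR P R) (lm P ∘ p) (lm P ∘ s) := by
  intro t1' t2' h1 h2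
  obtain ⟨b1, c1, t1, d1, e1⟩ := pah2_desc t1' h1
  obtain ⟨b2, c2, t2, d2, e2⟩ := pah2_desc t2' h2
  have h3 := congrArg (lq P) (h t1 t2 d1 d2)
  simp only [bb, Function.comp_apply, map_add, map_mul, map_zero, e1, e2] at h3
  refine pah2_cancel c2 (pah2_cancel c1 ?_)
  rw [← h3]
  simp only [bb, Function.comp_apply, smul_add, smul_mul_assoc, mul_smul_comm,
    smul_comm (algebraMap O (LO P) b2) (algebraMap O (LO P) b1)]

theorem CoR.loc (h : CoR P R p s) : CoR (LM P) (lR P R) (lm P ∘ p) (lm P ∘ s) := by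
  obtain ⟨a, ha, h⟩ := h
  refine ⟨_, (lo_notMem P).2 ha, fun x y hxy => ?_⟩
  rw [← lR_smul] at hxy
  obtain ⟨u, x0, y0, h1, h2, h3⟩ := pah2_clear hxy
  obtain ⟨t, t1, t2, t3⟩ := h x0 y0 h1
  obtain ⟨t', k1, k2⟩ := pah2_asc t t1
  have key : ∀ (z : F) (c : O) (d : LO P), t z = Ideal.Quotient.mk P (a * c) →
      algebraMap O (LO P) c = u * d → ((u⁻¹ : (LO P)ˣ) : LO P) • t' (lm P z) =
        Ideal.Quotient.mk (LM P) (algebraMap O (LO P) a * d) := fun z c d e1 e2 => by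
    rw [k2, e1, lq_mk]
    change Ideal.Quotient.mk (LM P) (((u⁻¹ : (LO P)ˣ) : LO P) * _) = _
    rw [map_mul (algebraMap O (LO P)), e2, mul_left_comm, Units.inv_mul_cancel_left]
  exact ⟨((u⁻¹ : (LO P)ˣ) : LO P) • t', k1.trans (ker_le_ker_smul _ _),
    fun i => key _ _ _ (t2 i) (h2 i), fun i => key _ _ _ (t3 i) (h3 i)⟩

theorem Dim2.loc [Module.Finite O (F ⧸ R)] (h : Dim2 P R) : Dim2 (LM P) (lR P R) := by
  intro t' ht
  choose b hb t h1 h2 using fun i => pah2_desc (t' i) (ht i)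
  obtain ⟨a, ⟨i, hi⟩, ha⟩ := h t h1
  refine ⟨fun i => algebraMap O (LO P) (a i * b i), ⟨i, (lo_notMem P).2 fun e =>
    (Ideal.IsPrime.mem_or_mem inferInstance e).elim hi (hb i)⟩, LinearMap.ext fun y => ?_⟩
  obtain ⟨c, hc, x, hx⟩ := lm_surj P y
  refine pah2_cancel hc ?_
  have h3 := congrArg (lq P) (LinearMap.congr_fun ha x)
  rw [← map_smul, hx]
  simpa only [LinearMap.sum_apply, LinearMap.smul_apply, map_sum, pah2_lq_smul, h2, map_mul,
    mul_smul, LinearMap.zero_apply, map_zero] using h3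

theorem Dim1.of_loc (h : Dim1 (LM P) (lR P R)) : Dim1 P R := by
  intro t t' h1 h2
  obtain ⟨T, k1, k2⟩ := pah2_asc t h1
  obtain ⟨T', k1', k2'⟩ := pah2_asc t' h2
  obtain ⟨a, b, hab, e⟩ := h T T' k1 k1'
  obtain ⟨c, hc, z, hz⟩ := pah2_den ![a, b]
  have z0 : algebraMap O (LO P) (z 0) = algebraMap O (LO P) c * a := congrFun hz 0
  have z1 : algebraMap O (LO P) (z 1) = algebraMap O (LO P) c * b := congrFun hz 1
  have key : ∀ (u : O) (v : LO P), algebraMap O (LO P) u = algebraMap O (LO P) c * v →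
      v ∉ LM P → u ∉ P := fun u v e1 e2 => (lo_notMem P).1 fun e3 =>
    (Ideal.IsPrime.mem_or_mem inferInstance (e1 ▸ e3)).elim ((lo_notMem P).2 hc) e2
  refine ⟨z 0, z 1, hab.imp (key _ _ z0) (key _ _ z1), LinearMap.ext fun x => lq_inj P ?_⟩
  have h3 := congrArg (algebraMap O (LO P) c • ·) (LinearMap.congr_fun e (lm P x))
  simpa only [LinearMap.add_apply, LinearMap.smul_apply, map_add, pah2_lq_smul, z0, z1, k2, k2',
    mul_smul, smul_add, LinearMap.zero_apply, map_zero, smul_zero] using h3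

omit [IsDomain O] in
theorem fg_of_sup {ι : Type} [Finite ι] (x : ι → F)
    (h : Module.Finite O (F ⧸ (R ⊔ span O (Set.range x)))) : Module.Finite O (F ⧸ R) := by
  have := Module.Finite.span_of_finite O (Set.finite_range x)
  have := Module.Finite.equiv (quotientQuotientEquivQuotientSup R (span O (Set.range x))).symm
  exact Module.Finite.of_submodule_quotient ((span O (Set.range x)).map R.mkQ)

end Pool.Agent.Lib.MP_696deb_nt.B2.PA
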