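import Pool.Agent.Lib.MP_696deb_nt.B2.PA1

set_option autoImplicit false

open scoped Classical
open Finset Matrix PowerSeries Filter Submodule LinearMap

namespace Pool.Agent.Lib.MP_696deb_nt.B2.PA

variable {K Γ : Type} [Field K] [Group Γ] {N : Subgroup Γ} {θ : Γ →* Γ} {un : Fin 2 → Γ}
  {nm : Fin 2 → Matrix (Fin 2) (Fin 2) K}

theorem nil_span (hsq : ∀ v, nm v * nm v = 0) (htr : (nm 0 * nm 1).trace ≠ 0)
    (A : Matrix (Fin 2) (Fin 2) K) :
    ∃ a b c d : K, A = a • 1 + b • nm 0 + c • nm 1 + d • (nm 0 * nm 1) := by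
  have k : ∀ a : K, a • (nm 0 * nm 1) = 0 → a = 0 := fun a h =>
    (smul_eq_zero.1 h).resolve_right fun e => htr (by rw [e, trace_zero])
  have h : LinearIndependent K ![1, nm 0, nm 1, nm 0 * nm 1] := by
    refine Fintype.linearIndependent_iff.2 fun g e => ?_
    simp only [Fin.sum_univ_four, cons_val_zero, cons_val_one, Matrix.cons_val] at e
    have e1 := congrArg (nm 0 * ·) e
    have e2 := congrArg (· * nm 1) e
    have e3 := congrArg (· * nm 1) e1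
    simp only [mul_add, add_mul, mul_smul_comm, smul_mul_assoc, ← mul_assoc, hsq, mul_one,
      zero_mul, mul_zero, smul_zero, add_zero] at e1 e3
    simp only [add_mul, smul_mul_assoc, mul_assoc, hsq, one_mul, zero_mul, mul_zero, smul_zero,
      add_zero] at e2 e3
    have h0 := k _ e3
    rw [h0, zero_smul, zero_add] at e1 e2 e
    have h1 := k _ e2
    have h2 := k _ e1
    rw [h1, h2, zero_smul, zero_smul, zero_add, zero_add] at e
    intro i
    fin_cases i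
    exacts [h0, h1, h2, k _ e]
  have h' := h.span_eq_top_of_card_eq_finrank' (by simp [Module.finrank_matrix])
  obtain ⟨g, e⟩ := (mem_span_range_iff_exists_fun K).1 (h'.ge (mem_top (x := A)))
  exact ⟨g 0, g 1, g 2, g 3, by simpa [Fin.sum_univ_four] using e.symm⟩

theorem pai_key {J : Type} [Fintype J] (hN : N.Normal) (hsq : ∀ v, nm v * nm v = 0)
    (htr : (nm 0 * nm 1).trace ≠ 0) {Φ : Γ → J → Fin 2 → K}
    (hΦ : ∀ v, ∀ σ ∈ N, ∀ j, Φ (un v * σ * (un v)⁻¹) j = (1 + nm v) *ᵥ Φ σ j)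
    (w : J → Fin 2 → K) (h : ∀ σ ∈ N, ∑ j, w j ⬝ᵥ Φ σ j = 0) :
    ∀ σ ∈ N, ∀ a b, ∑ j, w j a * Φ σ j b = 0 := by
  have k : ∀ (v) (w : J → Fin 2 → K), (∀ σ ∈ N, ∑ j, w j ⬝ᵥ Φ σ j = 0) →
      ∀ σ ∈ N, ∑ j, (w j ᵥ* nm v) ⬝ᵥ Φ σ j = 0 := fun v w h σ hσ => by
    have := h _ (hN.conj_mem σ hσ (un v))
    simpa only [hΦ v σ hσ, add_mulVec, one_mulVec, dotProduct_add, sum_add_distrib, h σ hσ,
      zero_add, dotProduct_mulVec] using this
  intro σ hσ a b
  obtain ⟨x, y, z, t, e⟩ := nil_span hsq htr (single a b 1)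
  have : ∀ j, w j a * Φ σ j b = (w j ᵥ* single a b 1) ⬝ᵥ Φ σ j := fun j => by
    fin_cases a <;> fin_cases b <;> simp [vecMul, dotProduct, Fin.sum_univ_two]
  simp only [this, e, vecMul_add, vecMul_smul, vecMul_one, ← vecMul_vecMul, add_dotProduct,
    smul_dotProduct, sum_add_distrib, ← smul_sum, h σ hσ, k _ w h σ hσ, k 1 _ (k 0 w h) σ hσ,
    smul_zero, add_zero]

theorem pai_tau (x : Fin 2 → K) : tauM K *ᵥ x = ![x 0, -x 1] := by
  ext i
  fin_cases i <;> simp [tauM, mulVec, dotProduct, Fin.sum_univ_two]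

theorem pai_sq : tauM K * tauM K = 1 := by
  ext i j
  fin_cases i <;> fin_cases j <;> simp [tauM]

theorem pair_lemma (h2 : (2 : K) ≠ 0) (hN : N.Normal) (hθ : ∀ σ ∈ N, θ σ ∈ N)
    (hsq : ∀ v, nm v * nm v = 0) (htr : (nm 0 * nm 1).trace ≠ 0) {c c' : Γ → Fin 2 → K}
    (hc : Eqv N θ un nm c) (hc' : Eqv N θ un nm c')
    (ind : ∀ a b : K, (∀ σ ∈ N, a • c σ + b • c' σ = 0) → a = 0 ∧ b = 0) :
    (∃ σ ∈ N, (c σ + c (θ σ)) 0 * (c' σ + c' (θ σ)) 1 ≠ (c σ + c (θ σ)) 1 * (c' σ + c' (θ σ)) 0) ∨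
      ∃ ε : K, (ε = 1 ∨ ε = -1) ∧ (∀ σ ∈ N, c (θ σ) = ε • (tauM K *ᵥ c σ)) ∧
        ∀ σ ∈ N, c' (θ σ) = ε • (tauM K *ᵥ c' σ) := by
  refine or_iff_not_imp_left.2 fun H => ?_
  push Not at H
  obtain ⟨d, hd⟩ : ∃ d : Γ → Fin 2 → K, d = fun σ => tauM K *ᵥ c (θ σ) := ⟨_, rfl⟩
  obtain ⟨d', hd'⟩ : ∃ d' : Γ → Fin 2 → K, d' = fun σ => tauM K *ᵥ c' (θ σ) := ⟨_, rfl⟩
  have e : ∀ σ, c (θ σ) = tauM K *ᵥ d σ := fun σ => by
    rw [hd, mulVec_mulVec, pai_sq, one_mulVec]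
  have e' : ∀ σ, c' (θ σ) = tauM K *ᵥ d' σ := fun σ => by
    rw [hd', mulVec_mulVec, pai_sq, one_mulVec]
  have hΦ : ∀ v, ∀ σ ∈ N, ∀ j, ![c, c', d, d'] j (un v * σ * (un v)⁻¹) =
      (1 + nm v) *ᵥ ![c, c', d, d'] j σ := fun v σ hσ j => by
    fin_cases j
    · exact hc.un1 v σ hσ
    · exact hc'.un1 v σ hσ
    · change d _ = _ *ᵥ d σ
      simp only [hd, map_mul, map_inv, hc.un2 v _ (hθ σ hσ), mulVec_mulVec, ← mul_assoc, pai_sq,
        one_mul]
    · change d' _ = _ *ᵥ d' σ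
      simp only [hd', map_mul, map_inv, hc'.un2 v _ (hθ σ hσ), mulVec_mulVec, ← mul_assoc, pai_sq,
        one_mul]
  have K0 := pai_key hN hsq htr (Φ := fun σ j => ![c, c', d, d'] j σ) hΦ
  have k1 : ∀ σ ∈ N, ∀ b, ∀ s ∈ N, (d' s 1 - c' s 1) * (c σ b + d σ b) =
      (d s 1 - c s 1) * (c' σ b + d' σ b) := fun σ hσ b s hs => by
    have := K0 ![![c' s 1 - d' s 1, -(c' s 0 + d' s 0)], ![-(c s 1 - d s 1), c s 0 + d s 0],
      ![c' s 1 - d' s 1, c' s 0 + d' s 0], ![-(c s 1 - d s 1), -(c s 0 + d s 0)]] (fun σ hσ => by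
        have h1 := H σ hσ
        have h2 := H s hs
        have h3 := H _ (mul_mem hσ hs)
        rw [map_mul, hc.add σ hσ s hs, hc'.add σ hσ s hs, hc.add _ (hθ σ hσ) _ (hθ s hs),
          hc'.add _ (hθ σ hσ) _ (hθ s hs)] at h3
        simp only [e, e', pai_tau, Pi.add_apply, cons_val_zero, cons_val_one] at h1 h2 h3
        simp only [Fin.sum_univ_four, dotProduct, Fin.sum_univ_two, cons_val_zero, cons_val_one,
          Matrix.cons_val]
        linear_combination h3 - h1 - h2) σ hσ 0 b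
    simp only [Fin.sum_univ_four, cons_val_zero, cons_val_one, Matrix.cons_val] at this
    linear_combination -this
  have k2 : ∀ σ ∈ N, ∀ b, ∀ s ∈ N, ∀ a, (d' s a - c' s a) * (c σ b + d σ b) =
      (d s a - c s a) * (c' σ b + d' σ b) := fun σ hσ b s hs a => by
    have := K0 ![![0, c' σ b + d' σ b], ![0, -(c σ b + d σ b)], ![0, -(c' σ b + d' σ b)],
      ![0, c σ b + d σ b]] (fun s hs => by
        simp only [Fin.sum_univ_four, dotProduct, Fin.sum_univ_two, cons_val_zero, cons_val_one,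
          Matrix.cons_val]
        linear_combination k1 σ hσ b s hs) s hs 1 a
    simp only [Fin.sum_univ_four, cons_val_zero, cons_val_one, Matrix.cons_val] at this
    linear_combination this
  by_cases h1 : ∀ σ ∈ N, ∀ b, c σ b + d σ b = 0 ∧ c' σ b + d' σ b = 0
  · refine ⟨-1, .inr rfl, fun σ hσ => ?_, fun σ hσ => ?_⟩
    · rw [e, ← mulVec_smul]
      exact congrArg _ (funext fun b => by simpa using eq_neg_of_add_eq_zero_right (h1 σ hσ b).1)
    · rw [e', ← mulVec_smul]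
      exact congrArg _ (funext fun b => by simpa using eq_neg_of_add_eq_zero_right (h1 σ hσ b).2)
  by_cases h3 : ∀ σ ∈ N, ∀ b, d σ b - c σ b = 0 ∧ d' σ b - c' σ b = 0
  · refine ⟨1, .inl rfl, fun σ hσ => ?_, fun σ hσ => ?_⟩
    · rw [e, one_smul]
      exact congrArg _ (funext fun b => sub_eq_zero.1 (h3 σ hσ b).1)
    · rw [e', one_smul]
      exact congrArg _ (funext fun b => sub_eq_zero.1 (h3 σ hσ b).2)
  simp only [not_forall] at h1 h3
  obtain ⟨σ, hσ, b, h1⟩ := h1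
  obtain ⟨s, hs, a, h3⟩ := h3
  refine (h3 ((ind (d' s a - c' s a) (-(d s a - c s a)) fun t ht => funext fun i => ?_).symm.imp
    neg_eq_zero.1 id)).elim
  have k3 := k2 t ht i s hs a
  have k4 := k2 σ hσ b t ht i
  have k5 := k2 σ hσ b s hs a
  have k6 : (d' s a - c' s a) * (d t i - c t i) = (d s a - c s a) * (d' t i - c' t i) := by
    rcases not_and_or.1 h1 with k | k <;> refine mul_left_cancel₀ k ?_
    · linear_combination (d t i - c t i) * k5 - (d s a - c s a) * k4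
    · linear_combination (d' t i - c' t i) * k5 - (d' s a - c' s a) * k4
  simp only [Pi.add_apply, Pi.smul_apply, smul_eq_mul, Pi.zero_apply]
  exact mul_left_cancel₀ h2 (by linear_combination k3 - k6)

theorem coord_ne (hN : N.Normal) (hsq : ∀ v, nm v * nm v = 0) (htr : (nm 0 * nm 1).trace ≠ 0)
    {c : Γ → Fin 2 → K} (hc : Eqv N θ un nm c) (h : ∃ σ ∈ N, c σ ≠ 0) (i : Fin 2) :
    ∃ σ ∈ N, c σ i ≠ 0 := by
  by_contra! H
  obtain ⟨σ, hσ, h⟩ := h
  refine h (funext fun b => ?_)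
  simpa using pai_key hN hsq htr (Φ := fun σ (_ : Unit) => c σ) (fun v σ hσ _ => hc.un1 v σ hσ)
    (fun _ => Pi.single i 1) (fun σ hσ => by simpa using H σ hσ) σ hσ i b

end Pool.Agent.Lib.MP_696deb_nt.B2.PA
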