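import Pool.Agent.Lib.MP_696deb_nt.B2.PA1

set_option autoImplicit false

open scoped Classical
open Finset Matrix PowerSeries Filter Submodule LinearMap

namespace Pool.Agent.Lib.MP_696deb_nt.B2.PA

variable {O F : Type} [CommRing O] [AddCommGroup F] [Module O F] {A B C : Submodule O F}

theorem paj_len {G : Type} [AddCommGroup G] [Module O G] (f : F →ₗ[O] G) (B : Submodule O F) :
    Module.length O (B.map f) = Module.length O (B ⧸ (ker f).comap B.subtype) := by
  rw [← LinearMap.range_domRestrict, ← (f.domRestrict B).quotKerEquivRange.length_eq,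
    LinearMap.ker_domRestrict]

theorem paj_eq (A B : Submodule O F) : rl A B = Module.length O (B ⧸ A.comap B.subtype) := by
  rw [rl, paj_len, ker_mkQ]

theorem rl_sup (A B : Submodule O F) : rl A (A ⊔ B) = rl A B := by
  rw [rl, rl, Submodule.map_sup, mkQ_map_self, bot_sup_eq]

theorem rl_map {F' : Type} [AddCommGroup F'] [Module O F'] (φ : F →ₗ[O] F') (A' : Submodule O F')
    (B : Submodule O F) : rl (A'.comap φ) B = rl A' (B.map φ) := by
  rw [paj_eq, rl, ← Submodule.map_comp, paj_len, LinearMap.ker_comp, ker_mkQ]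

theorem rl_inf (A B : Submodule O F) : rl (A ⊓ B) B = rl A B := by
  rw [paj_eq, paj_eq, Submodule.comap_inf, comap_subtype_self, inf_top_eq]

theorem rl_add (hAB : A ≤ B) (hBC : B ≤ C) : rl A C = rl A B + rl B C := by
  have h : B.map A.mkQ ≤ C.map A.mkQ := Submodule.map_mono hBC
  have e : rl B C = rl (B.map A.mkQ) (C.map A.mkQ) := by
    rw [← rl_map, comap_map_mkQ, sup_eq_right.mpr hAB]
  rw [e, paj_eq (B.map A.mkQ), rl, rl, ← LinearEquiv.length_eq (M := (B.map A.mkQ).comap (C.map A.mkQ).subtype)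
    (N := B.map A.mkQ) (comapSubtypeEquivOfLe h)]
  exact Module.length_eq_add_of_exact _ _ (Submodule.subtype_injective _) (mkQ_surjective _)
    (LinearMap.exact_subtype_mkQ _)

theorem rl_mono (A : Submodule O F) (h : B ≤ C) : rl A B ≤ rl A C := by
  exact Module.length_le_of_injective _
    (Submodule.inclusion_injective (Submodule.map_mono (f := A.mkQ) h))

theorem rl_anti (h : A ≤ B) (C : Submodule O F) : rl B C ≤ rl A C := by
  rw [paj_eq, paj_eq]
  exact Module.length_le_of_surjective _ (factor_surjective (Submodule.comap_mono h))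

theorem rl_eq_zero : rl A B = 0 ↔ B ≤ A := by
  rw [rl, Module.length_eq_zero_iff, subsingleton_iff_eq_bot, ← LinearMap.le_ker_iff_map, ker_mkQ]

theorem rl_top (A : Submodule O F) : rl A ⊤ = Module.length O (F ⧸ A) := by
  rw [rl, Submodule.map_top, range_mkQ, topEquiv.length_eq]

theorem rl_ord (a : O) : rl (Ideal.span {a} : Ideal O) ⊤ = Ring.ord O a := by
  rw [rl_top]
  rfl

theorem rl_cyc {q : O} {x : F} (h : q • x ∈ A) : rl A (span O {x}) ≤ Ring.ord O q := by
  rw [LinearMap.span_singleton_eq_range, LinearMap.range_eq_map, ← rl_map, ← rl_ord]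
  exact rl_anti ((Ideal.span_singleton_le_iff_mem _).mpr (by simpa using h)) _

theorem rl_sup_cyc {q : O} {x : F} (h : q • x ∈ A) :
    rl A ⊤ ≤ rl (A ⊔ span O {x}) ⊤ + Ring.ord O q := by
  rw [rl_add (le_sup_left (b := span O {x})) le_top, rl_sup, add_comm]
  exact add_le_add_right (rl_cyc h) _

theorem half {H : Type} [AddCommGroup H] [Module O H] (Rq : Submodule O F) (j : H →ₗ[O] F)
    (Hf L : Submodule O H) (κ : F →ₗ[O] O) (hκ : Rq ⊔ Hf.map j ≤ ker κ) (hL : L ≤ Rq.comap j)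
    (h1 : rl (L ⊓ Hf) (Rq.comap j ⊓ Hf) = rl (range κ) ⊤)
    (h2 : rl (L ⊔ Hf) (ker (κ ∘ₗ j)) = rl (range (κ ∘ₗ j)) ⊤) :
    2 * rl (range κ) ⊤ + rl (Rq ⊔ range j) ⊤ =
      rl (Rq ⊔ Hf.map j) (ker κ) + rl L (Rq.comap j) := by
  have a1 : Rq ≤ ker κ := le_sup_left.trans hκ
  have a2 : (Rq ⊔ Hf.map j).comap j = Rq.comap j ⊔ Hf := by
    refine le_antisymm (fun x hx => ?_) (sup_le (Submodule.comap_mono le_sup_left)
      (map_le_iff_le_comap.mp le_sup_right))
    obtain ⟨r, hr, _, ⟨y, hy, rfl⟩, e⟩ := mem_sup.mp hx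
    exact mem_sup.mpr ⟨x - y, by rwa [Submodule.mem_comap, map_sub, ← e, add_sub_cancel_right],
      y, hy, sub_add_cancel _ _⟩
  have a3 : Rq.comap j ⊔ Hf ≤ ker (κ ∘ₗ j) := by
    rw [← a2, LinearMap.ker_comp]
    exact Submodule.comap_mono hκ
  have e1 : rl (Rq ⊔ Hf.map j) (ker κ) = rl (Rq.comap j ⊔ Hf) (ker (κ ∘ₗ j)) +
      rl (Rq ⊔ range j) (Rq ⊔ range j ⊔ ker κ) := by
    rw [rl_add (le_inf (sup_le_sup_left LinearMap.map_le_range _) hκ) inf_le_right, rl_inf, rl_sup,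
      sup_inf_assoc_of_le _ a1, ← rl_sup, ← sup_assoc, sup_eq_left.mpr le_sup_left, rl_sup, ← a2,
      rl_map, LinearMap.ker_comp, Submodule.map_comap_eq]
  have e3 : rl (Rq ⊔ range j) ⊤ = rl (Rq ⊔ range j) (Rq ⊔ range j ⊔ ker κ) +
      rl (range (κ ∘ₗ j)) (range κ) := by
    rw [rl_add (le_sup_left (b := ker κ)) le_top, ← Submodule.comap_map_eq κ (Rq ⊔ range j), rl_map,
      Submodule.map_top, Submodule.map_sup, LinearMap.le_ker_iff_map.mp a1, bot_sup_eq,
      LinearMap.range_comp]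
  have e4 := rl_add (LinearMap.range_comp_le_range j κ) le_top
  have e5 := rl_add (sup_le_sup_right hL Hf) a3
  have e6 : rl (L ⊔ Hf) (Rq.comap j ⊔ Hf) = rl (L ⊔ Rq.comap j ⊓ Hf) (Rq.comap j) := by
    rw [← rl_sup, sup_comm (Rq.comap j), ← sup_assoc, sup_assoc L, sup_idem, rl_sup, ← rl_inf,
      sup_inf_assoc_of_le _ hL, inf_comm]
  have e7 : rl L (Rq.comap j) = rl (range κ) ⊤ + rl (L ⊔ Rq.comap j ⊓ Hf) (Rq.comap j) := by
    rw [rl_add (le_sup_left (b := Rq.comap j ⊓ Hf)) (sup_le hL inf_le_left), rl_sup, ← rl_inf,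
      ← inf_assoc, inf_eq_left.mpr hL, h1]
  rw [h2, e4, e6] at e5
  rw [e1, e3, e7, two_mul, add_assoc, add_left_comm _ (rl (Rq ⊔ range j) _), add_comm _
    (rl (range (κ ∘ₗ j)) _), e5]
  abel

end Pool.Agent.Lib.MP_696deb_nt.B2.PA
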