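import Pool.Agent.Lib.MP_696deb_nt.B2.PAj

set_option autoImplicit false

open scoped Classical
open Finset Matrix PowerSeries Filter Submodule LinearMap

namespace Pool.Agent.Lib.MP_696deb_nt.B2.PA

variable {O F : Type} [CommRing O] [IsDomain O] [IsDiscreteValuationRing O] [AddCommGroup F]
  [Module O F]

theorem prim {R : Submodule O F} {κ : F →ₗ[O] O} (hκ : κ ≠ 0) (hR : R ≤ ker κ) (rk : Rk1 R) :
    ∃ (g : F →ₗ[O] O) (a : O), Function.Surjective g ∧ R ≤ ker g ∧ a ≠ 0 ∧ κ = a • g ∧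
      rl (range κ) ⊤ = Ring.ord O a ∧ ∀ t : F →ₗ[O] O, R ≤ ker t → ∃ b : O, t = b • g := by
  obtain ⟨a, ha⟩ := (IsPrincipalIdealRing.principal (range κ : Ideal O)).principal
  have h0 : a ≠ 0 := fun e => hκ (LinearMap.range_eq_bot.1 (by rw [ha, e, span_zero_singleton]))
  have hm : ∀ x, κ x ∈ span O {a} := fun x => ha ▸ mem_range_self κ x
  obtain ⟨g, hg⟩ : ∃ g : F →ₗ[O] O, ∀ x, a * g x = κ x :=
    ⟨(LinearEquiv.coord O O a h0).toLinearMap ∘ₗ κ.codRestrict _ hm, fun x =>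
      (mul_comm _ _).trans (LinearEquiv.coord_apply_smul O O a h0 ⟨κ x, hm x⟩)⟩
  obtain ⟨x0, hx0⟩ : a ∈ range κ := ha ▸ mem_span_singleton_self a
  have g1 : g x0 = 1 := mul_left_cancel₀ h0 (by rw [hg, hx0, mul_one])
  have hRg : R ≤ ker g := fun x hx =>
    (mul_eq_zero.1 ((hg x).trans (hR hx))).resolve_left h0
  refine ⟨g, a, fun c => ⟨c • x0, by simp [g1]⟩, hRg, h0, LinearMap.ext fun x => (hg x).symm,
    ha ▸ rl_ord a, fun t ht => ⟨t x0, LinearMap.ext fun x => ?_⟩⟩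
  obtain ⟨u, v, huv, e⟩ := rk t g ht hRg
  have e1 := LinearMap.congr_fun e x
  have e2 := LinearMap.congr_fun e x0
  simp only [LinearMap.add_apply, LinearMap.smul_apply, smul_eq_mul, LinearMap.zero_apply, g1,
    mul_one] at e1 e2 ⊢
  have hu : u ≠ 0 := fun k => huv.elim (fun h => h k) fun h => h (by simpa [k] using e2)
  exact mul_left_cancel₀ hu (by linear_combination e1 - g x * e2)

/-- The pairing with a vector. -/
def papB (a : Fin 2 → O) : (Fin 2 → O) →ₗ[O] O where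
  toFun y := bb a y
  map_add' x y := by simp only [bb, Pi.add_apply]; ring
  map_smul' c x := by simp only [bb, Pi.smul_apply, smul_eq_mul, RingHom.id_apply]; ring

/-- The pairing with local classes as a linear map. -/
def papJ (p s : Fin 2 → F) : ((Fin 2 → O) × (Fin 2 → O)) →ₗ[O] F where
  toFun z := jv p s z.1 z.2
  map_add' x y := by
    simp only [jv, Prod.fst_add, Prod.snd_add, Pi.add_apply, add_smul]
    abel
  map_smul' c x := by
    simp only [jv, Prod.smul_fst, Prod.smul_snd, Pi.smul_apply, smul_eq_mul, RingHom.id_apply,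
      mul_smul, smul_add]

omit [IsDomain O] [IsDiscreteValuationRing O] in
theorem pap_swap (p s : Fin 2 → F) (x y : Fin 2 → O) : jv s p y x = jv p s x y := add_comm _ _

omit [IsDomain O] [IsDiscreteValuationRing O] in
theorem pap_line {M : Type} [AddCommGroup M] [Module O M] {N : Submodule O M} {v : M} {a : O}
    (h : ∀ c, c • v ∈ N ↔ a ∣ c) : rl N (span O {v}) = Ring.ord O a := by
  rw [← LinearMap.range_toSpanSingleton, ← Submodule.map_top, ← rl_map, ← rl_ord]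
  congr 1
  ext c
  exact (h c).trans Ideal.mem_span_singleton.symm

omit [IsDiscreteValuationRing O] in
theorem pap_mem {v : Fin 2 → O} (hv : v ≠ 0) (d c : O) : c • v ∈ span O {d • v} ↔ d ∣ c := by
  rw [mem_span_singleton]
  refine exists_congr fun e => ?_
  rw [smul_smul, mul_comm, eq_comm]
  exact (smul_left_injective O hv).eq_iff

theorem pap_ord {a : O} (ha : a ≠ 0) : Ring.ord O a ≠ ⊤ :=
  Ring.ord_ne_top (mem_nonZeroDivisors_of_ne_zero ha)

theorem pap_ker {a : Fin 2 → O} (ha : a ≠ 0) :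
    rl (span O {tauM O *ᵥ a}) (ker (papB a)) = rl (range (papB a)) ⊤ ∧
      rl (range (papB a)) ⊤ ≠ ⊤ := by
  obtain ⟨d, b, e, rfl, he⟩ : ∃ (d : O) (b e : Fin 2 → O), a = d • b ∧ bb b e = 1 := by
    rcases ValuationRing.dvd_total (a 0) (a 1) with ⟨c, hc⟩ | ⟨c, hc⟩
    · exact ⟨a 0, ![1, c], ![0, 1], funext (Fin.forall_fin_two.2 ⟨by simp, by simpa using hc⟩),
        by simp [bb]⟩
    · exact ⟨a 1, ![c, 1], ![1, 0], funext (Fin.forall_fin_two.2 ⟨by simpa using hc, by simp⟩),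
        by simp [bb]⟩
  have hd : d ≠ 0 := fun k => ha (by rw [k, zero_smul])
  have e1 : ∀ y, papB (d • b) y = d * bb b y := fun y => by
    simp only [papB, bb, LinearMap.coe_mk, AddHom.coe_mk, Pi.smul_apply, smul_eq_mul]
    ring
  have e2 : tauM O *ᵥ b = ![b 0, -b 1] := by
    ext i
    fin_cases i <;> simp [tauM, Matrix.mulVec, dotProduct]
  have h1 : range (papB (d • b)) = Ideal.span {d} := Submodule.ext fun c =>
    ⟨fun ⟨y, hy⟩ => Ideal.mem_span_singleton.2 ⟨_, hy.symm.trans (e1 y)⟩, fun hc => by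
      obtain ⟨c, rfl⟩ := Ideal.mem_span_singleton.1 hc
      exact ⟨c • e, by rw [map_smul, e1, he, mul_one, smul_eq_mul, mul_comm]⟩⟩
  unfold bb at he e1
  have h2 : ker (papB (d • b)) = span O {tauM O *ᵥ b} := Submodule.ext fun y => by
    rw [LinearMap.mem_ker, e1, mul_eq_zero, or_iff_right hd, mem_span_singleton, e2]
    refine ⟨fun h => ⟨y 0 * e 1 - y 1 * e 0, funext (Fin.forall_fin_two.2 ⟨?_, ?_⟩)⟩, ?_⟩
    · simp only [Pi.smul_apply, smul_eq_mul, Matrix.cons_val_zero]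
      linear_combination y 0 * he - e 0 * h
    · simp only [Pi.smul_apply, smul_eq_mul, Matrix.cons_val_one, Matrix.cons_val_zero]
      linear_combination y 1 * he - e 1 * h
    · rintro ⟨c, rfl⟩
      simp only [Pi.smul_apply, smul_eq_mul, Matrix.cons_val_one, Matrix.cons_val_zero]
      ring
  have h3 : tauM O *ᵥ b ≠ 0 := fun k => by
    have k0 := congrFun k 0
    have k1 := congrFun k 1
    simp only [e2, Matrix.cons_val_one, Matrix.cons_val_zero, Pi.zero_apply, neg_eq_zero] at k0 k1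
    simp [k0, k1] at he
  rw [h1, h2, rl_ord, Matrix.mulVec_smul]
  exact ⟨pap_line (pap_mem h3 d), pap_ord hd⟩

theorem pap_side {Rq : Submodule O F} {p s : Fin 2 → F} {κ κ' : F →ₗ[O] O}
    (hκ : Rq ⊔ span O (Set.range s) ≤ ker κ) (hκ' : Rq ⊔ span O (Set.range p) ≤ ker κ')
    (rk : Rk1 (Rq ⊔ span O (Set.range s)))
    (rel : span O {κ' ∘ s} = span O {tauM O *ᵥ (κ ∘ p)}) (ne : κ ∘ p ≠ 0)
    (hA : ∀ x y, jv p s x y ∈ Rq ↔ ∃ t : F →ₗ[O] O, Rq ≤ ker t ∧ t ∘ p = x ∧ t ∘ s = y) :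
    2 * rl (range κ) ⊤ + rl (Rq ⊔ range (papJ p s)) ⊤ = rl (Rq ⊔ span O (Set.range s)) (ker κ) +
      rl ((span O {κ ∘ p}).prod (span O {κ' ∘ s})) (Rq.comap (papJ p s)) ∧ rl (range κ) ⊤ ≠ ⊤ ∧
      rl ((span O {κ ∘ p}).prod (span O {κ' ∘ s})) (Rq.comap (papJ p s)) ≠ ⊤ := by
  have z : ∀ {v : Fin 2 → F} {t : F →ₗ[O] O}, Rq ⊔ span O (Set.range v) ≤ ker t ↔
      Rq ≤ ker t ∧ t ∘ v = 0 := by
    intro v t
    rw [sup_le_iff, span_le, Set.range_subset_iff, funext_iff]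
    rfl
  obtain ⟨g, a, -, hg, ha, rfl, hc, hp⟩ := prim (fun e => ne (by rw [e]; rfl)) hκ rk
  have e0 : (a • g : F →ₗ[O] O) ∘ p = a • (g ∘ p) := rfl
  have e1 : (ker (snd O (Fin 2 → O) (Fin 2 → O))).map (papJ p s) = span O (Set.range s) := by
    ext w
    rw [mem_span_range_iff_exists_fun]
    constructor
    · rintro ⟨⟨x, y⟩, h : y = 0, rfl⟩
      exact ⟨![x 1, x 0], by simp [papJ, jv, h]⟩
    · rintro ⟨c, rfl⟩
      exact ⟨(![c 1, c 0], 0), rfl, by simp [papJ, jv]⟩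
  have e2 : (a • g) ∘ₗ papJ p s = papB ((a • g : F →ₗ[O] O) ∘ p) ∘ₗ snd O _ _ :=
    LinearMap.ext fun w => by
      have k0 : g (s 0) = 0 := congrFun (z.1 hg).2 0
      have k1 : g (s 1) = 0 := congrFun (z.1 hg).2 1
      simp [papJ, papB, jv, bb, k0, k1]
      ring
  obtain ⟨L, hL⟩ : ∃ L, L = (span O {(a • g : F →ₗ[O] O) ∘ p}).prod (span O {κ' ∘ s}) := ⟨_, rfl⟩
  have l1 : L ≤ Rq.comap (papJ p s) := by
    rw [hL, LinearMap.prod_eq_sup_map, Submodule.map_span, Submodule.map_span,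
      Set.image_singleton, Set.image_singleton, sup_le_iff, span_singleton_le_iff_mem,
      span_singleton_le_iff_mem]
    exact ⟨(hA _ _).2 ⟨_, (z.1 hκ).1, rfl, (z.1 hκ).2⟩, (hA _ _).2 ⟨_, (z.1 hκ').1, (z.1 hκ').2, rfl⟩⟩
  have l2 : Rq.comap (papJ p s) ⊓ ker (snd O _ _) = span O {(g ∘ p, 0)} := by
    refine le_antisymm ?_ ((span_singleton_le_iff_mem _ _).2
      ⟨(hA _ _).2 ⟨_, (z.1 hg).1, rfl, (z.1 hg).2⟩, rfl⟩)
    rintro ⟨x, y⟩ ⟨h1, rfl : y = 0⟩
    obtain ⟨t, h2, rfl, h3⟩ := (hA _ _).1 h1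
    obtain ⟨b, rfl⟩ := hp t (z.2 ⟨h2, h3⟩)
    exact mem_span_singleton.2 ⟨b, Prod.ext rfl (smul_zero b)⟩
  have h1 : rl (L ⊓ ker (snd O _ _)) (Rq.comap (papJ p s) ⊓ ker (snd O _ _)) =
      rl (range (a • g)) ⊤ := by
    rw [l2, hc]
    refine pap_line fun c => Iff.trans ?_ (pap_mem (v := g ∘ p) (fun e => ne ?_) a c)
    · rw [hL, e0]
      simp
    · rw [e0, e, smul_zero]
  obtain ⟨w1, w2⟩ := pap_ker ne
  rw [← range_comp_of_range_eq_top _ (range_snd (R := O) (M := Fin 2 → O)), ← e2] at w1 w2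
  have h2 : rl (L ⊔ ker (snd O _ _)) (ker ((a • g) ∘ₗ papJ p s)) =
      rl (range ((a • g) ∘ₗ papJ p s)) ⊤ := by
    rw [← w1, e2, ker_comp, ← Submodule.comap_map_eq, rl_map,
      map_comap_eq_of_surjective snd_surjective, hL, prod_map_snd, rel]
  have h3 := half Rq (papJ p s) _ L (a • g) (e1.symm ▸ hκ) l1 h1 h2
  rw [e1] at h3
  rw [← hL]
  refine ⟨h3, hc ▸ pap_ord ha, ?_⟩
  rw [rl_add (B := L ⊔ ker (snd O _ _) ⊓ Rq.comap (papJ p s)) le_sup_left (sup_le l1 inf_le_right),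
    rl_sup, ← sup_inf_assoc_of_le _ l1, rl_inf]
  refine WithTop.add_ne_top.2 ⟨?_, ne_top_of_le_ne_top (h2 ▸ w2)
    (rl_mono _ fun w hw => (z.1 hκ).1 hw)⟩
  rw [inf_comm]
  exact ne_top_of_le_ne_top ((h1.trans hc) ▸ pap_ord ha) (rl_anti inf_le_left _)

theorem plane {Rq : Submodule O F} {p s : Fin 2 → F} {κ κ' : F →ₗ[O] O} {u1 u2 : O}
    (hκ : Rq ⊔ span O (Set.range s) ≤ ker κ) (hκ' : Rq ⊔ span O (Set.range p) ≤ ker κ')
    (rk : Rk1 (Rq ⊔ span O (Set.range s))) (rk' : Rk1 (Rq ⊔ span O (Set.range p)))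
    (hu1 : IsUnit u1) (hu2 : IsUnit u2) (rel : u1 • (κ' ∘ s) = u2 • (tauM O *ᵥ (κ ∘ p)))
    (ne : κ ∘ p ≠ 0) (iso : IsoS (IsLocalRing.maximalIdeal O) Rq p s)
    (co : CoS (IsLocalRing.maximalIdeal O) Rq p s)
    (h : Bd (Rq ⊔ span O (Set.range p)) κ') : Bd (Rq ⊔ span O (Set.range s)) κ := by
  obtain ⟨a, ha, iso⟩ := iso
  obtain ⟨b, hb, co⟩ := co
  obtain ⟨a, rfl⟩ := IsLocalRing.notMem_maximalIdeal.1 ha
  obtain ⟨b, rfl⟩ := IsLocalRing.notMem_maximalIdeal.1 hb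
  have hA : ∀ x y, jv p s x y ∈ Rq ↔ ∃ t : F →ₗ[O] O, Rq ≤ ker t ∧ t ∘ p = x ∧ t ∘ s = y := by
    refine fun x y => ⟨fun k => ?_, ?_⟩
    · obtain ⟨t, h1, h2, h3⟩ := co x y k
      refine ⟨(↑b⁻¹ : O) • t, fun w hw => ?_, ?_, ?_⟩
      · rw [LinearMap.mem_ker, LinearMap.smul_apply, h1 hw, smul_zero]
      · exact (congrArg ((↑b⁻¹ : O) • ·) h2).trans (by simp [smul_smul])
      · exact (congrArg ((↑b⁻¹ : O) • ·) h3).trans (by simp [smul_smul])
    · rintro ⟨t, h1, rfl, rfl⟩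
      exact (Rq.smul_mem_iff_of_isUnit a.isUnit).1 (iso t h1)
  have tt : tauM O * tauM O = 1 := by
    ext i j
    fin_cases i <;> fin_cases j <;> simp [tauM, Matrix.mul_apply]
  have rel' : u1 • (tauM O *ᵥ (κ' ∘ s)) = u2 • (κ ∘ p) := by
    rw [← Matrix.mulVec_smul, rel, Matrix.mulVec_smul, Matrix.mulVec_mulVec, tt, Matrix.one_mulVec]
  have ne' : κ' ∘ s ≠ 0 := fun e => ne (by
    rw [e, Matrix.mulVec_zero, smul_zero, eq_comm] at rel'
    exact (smul_eq_zero.1 rel').resolve_left hu2.ne_zero)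
  obtain ⟨h1, -, h2⟩ := pap_side hκ hκ' rk (by
    rw [← span_singleton_smul_eq hu1, rel, span_singleton_smul_eq hu2]) ne hA
  obtain ⟨h3, h4, -⟩ := pap_side hκ' hκ rk' (by
    rw [← span_singleton_smul_eq hu2, ← rel', span_singleton_smul_eq hu1]) ne' fun x y => by
      rw [pap_swap, hA]
      exact exists_congr fun t => and_congr_right fun _ => and_comm
  have e1 : papJ s p = papJ p s ∘ₗ (LinearEquiv.prodComm O (Fin 2 → O) (Fin 2 → O)).toLinearMap :=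
    LinearMap.ext fun w => pap_swap p s w.2 w.1
  have e2 : (span O {κ' ∘ s}).prod (span O {κ ∘ p}) = ((span O {κ ∘ p}).prod
      (span O {κ' ∘ s})).comap (LinearEquiv.prodComm O (Fin 2 → O) (Fin 2 → O)).toLinearMap :=
    Submodule.ext fun w => and_comm
  rw [e1, e2, LinearEquiv.range_comp, Submodule.comap_comp, rl_map,
    map_comap_eq_of_surjective (LinearEquiv.surjective _)] at h3
  have h5 := (ENat.add_le_add_iff_left (WithTop.mul_ne_top (ENat.ofNat_ne_top 2) h4)).1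
    (h3.le.trans (add_le_add h le_rfl))
  exact (ENat.add_le_add_iff_right h2).1 (h1.ge.trans (add_le_add le_rfl h5))

end Pool.Agent.Lib.MP_696deb_nt.B2.PA
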