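import Pool.Agent.Lib.MP_696deb_nt.B2.PAi
import Pool.Agent.Lib.MP_696deb_nt.B2.PAp

set_option autoImplicit false

open scoped Classical
open Finset Matrix PowerSeries Filter Submodule LinearMap

namespace Pool.Agent.Lib.MP_696deb_nt.B2.PA

variable {O F Γ : Type} [CommRing O] [IsDomain O] [IsDiscreteValuationRing O] [AddCommGroup F]
  [Module O F] [Group Γ] {N : Subgroup Γ} {par : Prop} {f h q0 q1 : O} {k0 : Γ → Fin 2 → O}
  (S : Sys O (IsLocalRing.maximalIdeal O) Γ N F par f h q0 q1 k0)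

omit [IsDomain O] [IsDiscreteValuationRing O] in
theorem pak_mat {B : Type} [CommRing B] [Algebra O B] {R : Submodule O F} {t : F →ₗ[O] B}
    (ht : R ≤ ker t) {A : Matrix (Fin 2) (Fin 2) O} {x y : Fin 2 → F}
    (h : ∀ i, y i - ∑ j, A i j • x j ∈ R) : t ∘ y = A.map (algebraMap O B) *ᵥ (t ∘ x) := by
  funext i
  have e := LinearMap.mem_ker.1 (ht (h i))
  rw [map_sub, sub_eq_zero, map_sum] at e
  simp only [Function.comp, e, map_smul, Algebra.smul_def, Matrix.mulVec, dotProduct,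
    Matrix.map_apply]

omit [IsDomain O] [IsDiscreteValuationRing O] in
theorem pak_tau {B : Type} [CommRing B] [Algebra O B] :
    (tauM O).map (algebraMap O B) = tauM B := by
  ext i j
  fin_cases i <;> fin_cases j <;> simp [tauM]

omit [IsDomain O] [IsDiscreteValuationRing O] in
theorem pak_dual {P : Ideal O} [P.IsMaximal] {R : Submodule O F} {w : F}
    (h : ∀ t : F →ₗ[O] O ⧸ P, R ≤ ker t → t w = 0) : w ∈ R ⊔ P • ⊤ := by
  have tor : Module.IsTorsionBySet O (F ⧸ (R ⊔ P • ⊤)) P := fun x a => by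
    obtain ⟨y, rfl⟩ := Submodule.Quotient.mk_surjective _ x
    rw [← Submodule.Quotient.mk_smul, Submodule.Quotient.mk_eq_zero]
    exact Submodule.mem_sup_right (Submodule.smul_mem_smul a.2 trivial)
  let _ := tor.module
  have _ := tor.isScalarTower (S := O)
  let _ := Ideal.Quotient.field P
  rw [← Submodule.Quotient.mk_eq_zero]
  refine (Module.forall_dual_apply_eq_zero_iff (O ⧸ P) _).1 fun φ => ?_
  refine h ((φ.restrictScalars O) ∘ₗ Submodule.mkQ _) fun x hx => ?_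
  rw [LinearMap.mem_ker, LinearMap.comp_apply, Submodule.mkQ_apply,
    (Submodule.Quotient.mk_eq_zero _).2 (Submodule.mem_sup_left hx), map_zero]

theorem Sys.eqv (n : S.St) {B : Type} [CommRing B] [Algebra O B] (t : F →ₗ[O] B)
    (ht : S.R n ≤ ker t) :
    Eqv N S.θ S.un (fun v => (S.nm v).map (algebraMap O B)) fun g => t ∘ S.ev g := by
  have one : ∀ v, (1 + S.nm v).map (algebraMap O B) = 1 + (S.nm v).map (algebraMap O B) :=
    fun v => by rw [Matrix.map_add _ (map_add _), Matrix.map_one _ (map_zero _) (map_one _)]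
  refine ⟨fun σ hσ σ' hσ' => funext fun i => ?_, fun v σ hσ => ?_, fun v σ hσ => ?_⟩
  · have e := LinearMap.mem_ker.1 (ht (S.add n σ hσ σ' hσ' i))
    rwa [map_sub, sub_eq_zero, map_add] at e
  · rw [pak_mat ht (S.eq_un n v σ hσ), one]
  · rw [pak_mat ht (S.eq_unθ n v σ hσ), Matrix.map_mul, Matrix.map_mul, one, pak_tau]

theorem Sys.eq_zero (n : S.St) {B : Type} [AddCommGroup B] [Module O B] (t : F →ₗ[O] B)
    (ht : S.R n ≤ ker t) (h0 : ∀ σ ∈ N, t ∘ S.ev σ = 0) : t = 0 := by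
  ext x
  obtain ⟨a, ha, hx⟩ := S.gen n x
  have k : S.R n ⊔ span O {y | ∃ σ ∈ N, ∃ i, y = S.ev σ i} ≤ ker t := by
    refine sup_le ht (Submodule.span_le.2 ?_)
    rintro y ⟨σ, hσ, i, rfl⟩
    exact congrFun (h0 σ hσ) i
  have e := LinearMap.mem_ker.1 (k hx)
  rw [map_smul] at e
  exact (IsUnit.smul_eq_zero (IsLocalRing.notMem_maximalIdeal.1 ha)).1 e

omit [IsDomain O] [IsDiscreteValuationRing O] in
theorem pak_phi {R : Submodule O F} {t : F →ₗ[O] O} (ht : R ≤ ker t) {p x y : Fin 2 → F} {u : O}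
    (h : ∀ i, p i - u • (x i + y i) ∈ R) : t ∘ p = u • (t ∘ x + t ∘ y) := by
  funext i
  have e := LinearMap.mem_ker.1 (ht (h i))
  rwa [map_sub, sub_eq_zero, map_smul, map_add] at e

omit [IsDomain O] [IsDiscreteValuationRing O] in
theorem pak_tau_zero {B : Type} [CommRing B] {x : Fin 2 → B} (h : tauM B *ᵥ x = 0) : x = 0 := by
  funext i
  have h0 := congrFun h 0
  have h1 := congrFun h 1
  simp [tauM, Matrix.mulVec, dotProduct, Fin.sum_univ_two] at h0 h1
  fin_cases i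
  exacts [h0, h1]

theorem Sys.pak_dep (n : S.St) (hn : S.kap n ≠ 0) (t : F →ₗ[O] O) (ht : S.R n ≤ ker t) :
    ∃ a b : O, (a ≠ 0 ∨ b ≠ 0) ∧ a • S.kap n + b • t = 0 := by
  by_contra hc
  let K := FractionRing O
  let ι : O →ₗ[O] K := Algebra.linearMap O K
  have inj : Function.Injective (algebraMap O K) := IsFractionRing.injective O K
  have hk : ∀ {t : F →ₗ[O] O}, S.R n ≤ ker t → S.R n ≤ ker (ι ∘ₗ t) := fun h x hx => by
    rw [LinearMap.mem_ker, LinearMap.comp_apply, LinearMap.mem_ker.1 (h hx), map_zero]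
  have nz : ∀ {a : O}, a ∉ IsLocalRing.maximalIdeal O → a ≠ 0 := fun h e => h (e ▸ zero_mem _)
  have h2 : (2 : K) ≠ 0 := fun e => nz S.two (inj (by rw [map_ofNat, map_zero, e]))
  have hsq : ∀ v, (S.nm v).map (algebraMap O K) * (S.nm v).map (algebraMap O K) = 0 := fun v => by
    rw [← Matrix.map_mul, S.nm_sq, Matrix.map_zero _ (map_zero _)]
  have htr : ((S.nm 0).map (algebraMap O K) * (S.nm 1).map (algebraMap O K)).trace ≠ 0 := by
    rw [← Matrix.map_mul, ← AddMonoidHom.map_trace]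
    exact fun e => nz S.nm_tr (inj (by rw [map_zero, e]))
  have ind : ∀ a b : K, (∀ σ ∈ N, a • ((ι ∘ₗ S.kap n) ∘ S.ev σ) + b • ((ι ∘ₗ t) ∘ S.ev σ) = 0) →
      a = 0 ∧ b = 0 := by
    intro a b hab
    have z := S.eq_zero n (a • (ι ∘ₗ S.kap n) + b • (ι ∘ₗ t)) (fun x hx => by
      rw [LinearMap.mem_ker, LinearMap.add_apply, LinearMap.smul_apply, LinearMap.smul_apply,
        LinearMap.mem_ker.1 (hk ht hx), LinearMap.mem_ker.1 (hk (S.kap_R n) hx), smul_zero,
        smul_zero, add_zero]) fun σ hσ => hab σ hσ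
    obtain ⟨x, y, hy, rfl⟩ := IsFractionRing.div_surjective (A := O) a
    obtain ⟨x', y', hy', rfl⟩ := IsFractionRing.div_surjective (A := O) b
    have hy0 := nonZeroDivisors.ne_zero hy
    have hy1 := nonZeroDivisors.ne_zero hy'
    have hy2 : algebraMap O K y ≠ 0 := fun e => hy0 (inj (by rw [e, map_zero]))
    have hy3 : algebraMap O K y' ≠ 0 := fun e => hy1 (inj (by rw [e, map_zero]))
    have z' : (x * y') • S.kap n + (x' * y) • t = 0 := by
      ext w
      have e := LinearMap.congr_fun z w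
      simp only [LinearMap.add_apply, LinearMap.smul_apply, LinearMap.comp_apply, ι,
        Algebra.linearMap_apply, smul_eq_mul, LinearMap.zero_apply] at e ⊢
      apply inj
      simp only [map_add, map_mul, map_zero]
      rw [div_mul_eq_mul_div, div_mul_eq_mul_div, div_add_div _ _ hy2 hy3, div_eq_zero_iff] at e
      linear_combination e.resolve_right (mul_ne_zero hy2 hy3)
    by_cases hx : x * y' = 0 ∧ x' * y = 0
    · rw [(mul_eq_zero.1 hx.1).resolve_right hy1, (mul_eq_zero.1 hx.2).resolve_right hy0]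
      simp
    · exact absurd ⟨_, _, not_and_or.1 hx, z'⟩ hc
  rcases pair_lemma h2 S.normal S.θN hsq htr (S.eqv n _ (hk (S.kap_R n))) (S.eqv n _ (hk ht))
    ind with ⟨σ, hσ, hd⟩ | ⟨ε, hε, e, -⟩
  · obtain ⟨n', Rq, φ, s, u0, u1, u2, -, hR, hR', hu0, -, hu2, hφ, -, rel, ⟨a, ha, iso⟩, -⟩ :=
      S.step n σ hσ
    have e1 := pak_phi (S.kap_R n) hφ
    have e2 := pak_phi ht hφ
    have k : ∀ t : F →ₗ[O] O, S.R n ≤ ker t →
        t (S.ev φ 1) * S.kap n' (S.ev s 0) + t (S.ev φ 0) * S.kap n' (S.ev s 1) = 0 := by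
      intro t ht
      rw [hR] at ht
      have hs : ∀ i, t (S.ev s i) = 0 := fun i =>
        ht (Submodule.mem_sup_right (Submodule.subset_span ⟨i, rfl⟩))
      have e := S.kap_R n' (hR' ▸ Submodule.mem_sup_left (iso t (le_sup_left.trans ht)))
      rw [LinearMap.mem_ker, map_smul, smul_eq_mul, mul_eq_zero] at e
      simpa [jv, hs] using e.resolve_left (nz ha)
    have hD : S.kap n (S.ev φ 0) * t (S.ev φ 1) - S.kap n (S.ev φ 1) * t (S.ev φ 0) ≠ 0 := by
      have a0 := congrFun e1 0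
      have a1 := congrFun e1 1
      have b0 := congrFun e2 0
      have b1 := congrFun e2 1
      simp only [Function.comp, Pi.smul_apply, Pi.add_apply, smul_eq_mul] at a0 a1 b0 b1
      rw [a0, a1, b0, b1]
      intro e
      simp only [Function.comp, Pi.add_apply, LinearMap.comp_apply, ι, Algebra.linearMap_apply,
        ← map_add, ← map_mul] at hd
      refine hd (congrArg _ (mul_left_cancel₀ (mul_ne_zero (nz hu0) (nz hu0)) ?_))
      simp only [map_add]
      linear_combination e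
    have s0 : S.kap n' (S.ev s 0) = 0 := mul_left_cancel₀ hD (by
      linear_combination S.kap n (S.ev φ 0) * k t ht - t (S.ev φ 0) * k _ (S.kap_R n))
    have s1 : S.kap n' (S.ev s 1) = 0 := mul_left_cancel₀ hD (by
      linear_combination t (S.ev φ 1) * k _ (S.kap_R n) - S.kap n (S.ev φ 1) * k t ht)
    have z : S.kap n ∘ S.ev φ = 0 :=
      pak_tau_zero ((IsLocalRing.notMem_maximalIdeal.1 hu2).smul_eq_zero.1 (by
        rw [← rel]; funext i; fin_cases i <;> simp [s0, s1]))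
    exact hD (by rw [show S.kap n (S.ev φ 0) = 0 from congrFun z 0,
      show S.kap n (S.ev φ 1) = 0 from congrFun z 1]; ring)
  · refine hn (S.eq_zero n _ (S.kap_R n) fun σ hσ => ?_)
    have hz : S.z * σ * S.z⁻¹ ∈ N := S.normal.conj_mem σ hσ S.z
    have e1 : (ι ∘ₗ S.kap n) ∘ S.ev (S.z * σ * S.z⁻¹) = S.u • ((ι ∘ₗ S.kap n) ∘ S.ev σ) := by
      funext i
      have e := LinearMap.mem_ker.1 (hk (S.kap_R n) (S.eq_z n σ hσ i))
      rwa [map_sub, sub_eq_zero, map_smul] at e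
    have e2 : S.u • ((ι ∘ₗ S.kap n) ∘ S.ev (S.θ (S.z * σ * S.z⁻¹))) =
        (ι ∘ₗ S.kap n) ∘ S.ev (S.θ σ) := by
      funext i
      have e := LinearMap.mem_ker.1 (hk (S.kap_R n) (S.eq_zθ n _ (S.θN σ hσ) i))
      rw [map_sub, sub_eq_zero, map_smul] at e
      rw [map_mul, map_mul, map_inv]
      exact e
    have hε0 : ε ≠ 0 := by rcases hε with rfl | rfl <;> simp
    rw [e _ hz, e _ hσ, e1, smul_comm, Matrix.mulVec_smul, smul_right_inj hε0, smul_smul,
      ← sub_eq_zero, ← Matrix.mulVec_smul, ← Matrix.mulVec_sub] at e2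
    funext i
    have e3 : (S.u * S.u) • ι (S.kap n (S.ev σ i)) - ι (S.kap n (S.ev σ i)) = 0 :=
      congrFun (pak_tau_zero e2) i
    rw [← map_smul, ← map_sub] at e3
    have e4 : (S.u * S.u) • S.kap n (S.ev σ i) - S.kap n (S.ev σ i) = 0 :=
      inj (e3.trans (map_zero _).symm)
    exact (mul_eq_zero.1 (show (S.u * S.u - 1) * S.kap n (S.ev σ i) = 0 by
      rw [sub_mul, one_mul, ← smul_eq_mul, e4])).resolve_left (sub_ne_zero.2 S.hu)

theorem Sys.rk1 (n : S.St) (hn : S.kap n ≠ 0) : Rk1 (S.R n) := by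
  intro t t' ht ht'
  have key : ∀ {a b : O} {t : F →ₗ[O] O}, (a ≠ 0 ∨ b ≠ 0) → a • S.kap n + b • t = 0 → b ≠ 0 := by
    rintro a b t h e rfl
    rw [zero_smul, add_zero] at e
    refine hn (LinearMap.ext fun x => ?_)
    exact (mul_eq_zero.1 (LinearMap.congr_fun e x)).resolve_left (h.resolve_right fun k => k rfl)
  obtain ⟨a, b, h, e⟩ := S.pak_dep n hn t ht
  obtain ⟨a', b', h', e'⟩ := S.pak_dep n hn t' ht'
  by_cases ha : a = 0
  · refine ⟨b, 0, Or.inl (key h e), ?_⟩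
    rw [ha, zero_smul, zero_add] at e
    rw [e, zero_smul, add_zero]
  · refine ⟨a' * b, -(a * b'), Or.inr (neg_ne_zero.2 (mul_ne_zero ha (key h' e'))), ?_⟩
    ext x
    have e1 := LinearMap.congr_fun e x
    have e2 := LinearMap.congr_fun e' x
    simp only [LinearMap.add_apply, LinearMap.smul_apply, smul_eq_mul, LinearMap.zero_apply]
      at e1 e2 ⊢
    linear_combination a' * e1 - a * e2

/-- The state `n'` is a good successor of `n`. -/
def Sys.Good (n n' : S.St) : Prop :=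
  S.kap n' ≠ 0 ∧ (Bd (S.R n') (S.kap n') → Bd (S.R n) (S.kap n))

/-- The step in clean form. -/
theorem Sys.step' (n : S.St) {σ : Γ} (hσ : σ ∈ N)
    (hne : S.kap n ∘ S.ev σ + S.kap n ∘ S.ev (S.θ σ) ≠ 0) :
    ∃ (n' : S.St) (Rq : Submodule O F) (φ s : Γ) (u0 : O), S.Good n n' ∧ s ∈ N ∧
      S.R n = Rq ⊔ span O (Set.range (S.ev s)) ∧ S.R n' = Rq ⊔ span O (Set.range (S.ev φ)) ∧
      IsUnit u0 ∧ (∀ i, S.ev φ i - u0 • (S.ev σ i + S.ev (S.θ σ) i) ∈ S.R n) ∧
      (∀ i, S.ev (S.θ s) i + S.ev s i ∈ S.R n') ∧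
      IsoR (IsLocalRing.maximalIdeal O) Rq (S.ev φ) (S.ev s) ∧
      (par → ∀ x y : Fin 2 → O ⧸ IsLocalRing.maximalIdeal O,
        (∀ t : F →ₗ[O] O ⧸ IsLocalRing.maximalIdeal O, Rq ≤ ker t →
          bb (t ∘ S.ev φ) y + bb (t ∘ S.ev s) x = 0) →
        ∃ t : F →ₗ[O] O ⧸ IsLocalRing.maximalIdeal O, Rq ≤ ker t ∧ t ∘ S.ev φ = x ∧
          t ∘ S.ev s = y) := by
  obtain ⟨n', Rq, φ, s, u0, u1, u2, hs, hR, hR', hu0, hu1, hu2, hφ, hθ, rel, iso, co, isoR, coR⟩ :=
    S.step n σ hσ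
  rw [IsLocalRing.notMem_maximalIdeal] at hu0 hu1 hu2
  have hn : S.kap n ≠ 0 := fun e => hne (by rw [e]; funext i; simp)
  have ne : S.kap n ∘ S.ev φ ≠ 0 := by
    rw [pak_phi (S.kap_R n) hφ]
    exact fun e => hne (hu0.smul_eq_zero.1 e)
  have hn' : S.kap n' ≠ 0 := fun e => ne (pak_tau_zero (hu2.smul_eq_zero.1 (by
    rw [← rel, e]; funext i; simp)))
  refine ⟨n', Rq, φ, s, u0, ⟨hn', ?_⟩, hs, hR, hR', hu0, hφ, hθ, isoR, fun hp x y hxy => ?_⟩
  · rw [hR, hR']
    exact plane (hR ▸ S.kap_R n) (hR' ▸ S.kap_R n') (hR ▸ S.rk1 n hn) (hR' ▸ S.rk1 n' hn') hu1 hu2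
      rel ne iso co
  · obtain ⟨a, ha, co⟩ := coR hp
    obtain ⟨b, hb⟩ := (IsLocalRing.notMem_maximalIdeal.1 ha).exists_right_inv
    choose x0 hx using fun i => Ideal.Quotient.mk_surjective (x i)
    choose y0 hy using fun i => Ideal.Quotient.mk_surjective (y i)
    obtain ⟨t, ht, h1, h2⟩ := co (b • x0) (b • y0) (pak_dual fun t ht => by
      have e := hxy t ht
      simp only [bb, Function.comp, ← hx, ← hy] at e
      simp only [jv, map_add, map_smul, Pi.smul_apply, smul_eq_mul, Algebra.smul_def, map_mul,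
        Ideal.Quotient.algebraMap_eq]
      linear_combination Ideal.Quotient.mk _ b * e)
    refine ⟨t, ht, funext fun i => ?_, funext fun i => ?_⟩
    · rw [Function.comp, h1, Pi.smul_apply, smul_eq_mul, ← mul_assoc, hb, one_mul, hx]
    · rw [Function.comp, h2, Pi.smul_apply, smul_eq_mul, ← mul_assoc, hb, one_mul, hy]

end Pool.Agent.Lib.MP_696deb_nt.B2.PA
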