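import Pool.Agent.Lib.MP_696deb_nt.B2.PAk
import Pool.Agent.Lib.MP_696deb_nt.B2.PAq

set_option autoImplicit false

open scoped Classical
open Finset Matrix PowerSeries Filter Submodule LinearMap

namespace Pool.Agent.Lib.MP_696deb_nt.B2.PA

variable {O F Γ : Type} [CommRing O] [IsDomain O] [IsDiscreteValuationRing O] [AddCommGroup F]
  [Module O F] [Group Γ] {N : Subgroup Γ} {par : Prop} {f h q0 q1 : O} {k0 : Γ → Fin 2 → O}
  (S : Sys O (IsLocalRing.maximalIdeal O) Γ N F par f h q0 q1 k0)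

attribute [local instance] Ideal.Quotient.field

variable (O) in
/-- The residue field. -/
abbrev Kr : Type := O ⧸ IsLocalRing.maximalIdeal O

/-- The residual functionals. -/
def Sys.D (n : S.St) : Submodule (Kr O) (F →ₗ[O] Kr O) where
  carrier := {t | S.R n ≤ ker t}
  zero_mem' := by simp
  add_mem' := fun {t t'} h h' x hx => by
    rw [LinearMap.mem_ker, LinearMap.add_apply, LinearMap.mem_ker.1 (h hx),
      LinearMap.mem_ker.1 (h' hx), add_zero]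
  smul_mem' := fun a t h x hx => by
    rw [LinearMap.mem_ker, LinearMap.smul_apply, LinearMap.mem_ker.1 (h hx), smul_zero]

theorem Sys.mem_D {n : S.St} {t : F →ₗ[O] Kr O} : t ∈ S.D n ↔ S.R n ≤ ker t := Iff.rfl

theorem PAk2_mk_smul (b : O) (t : F →ₗ[O] Kr O) :
    (Ideal.Quotient.mk (IsLocalRing.maximalIdeal O) b) • t = b • t := by
  ext x
  rw [LinearMap.smul_apply, LinearMap.smul_apply, smul_eq_mul, Algebra.smul_def,
    Ideal.Quotient.algebraMap_eq]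

/-- Evaluation of residual functionals on a family. -/
def PAk2ev {ι : Type} (x : ι → F) : (F →ₗ[O] Kr O) →ₗ[Kr O] ι → Kr O where
  toFun := fun t => t ∘ x
  map_add' := fun _ _ => rfl
  map_smul' := fun _ _ => rfl

/-- Evaluation of residual functionals at a point. -/
def PAk2at (x : F) : (F →ₗ[O] Kr O) →ₗ[Kr O] Kr O where
  toFun := fun t => t x
  map_add' := fun _ _ => rfl
  map_smul' := fun _ _ => rfl

instance Sys.finD (n : S.St) : Module.Finite (Kr O) (S.D n) := by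
  have := S.fg n
  obtain ⟨m, e, he⟩ := Module.Finite.exists_fin (R := O) (M := F ⧸ S.R n)
  choose x hx using fun i => (S.R n).mkQ_surjective (e i)
  refine Module.Finite.of_injective ((PAk2ev x) ∘ₗ (S.D n).subtype) ?_
  rw [injective_iff_map_eq_zero]
  rintro ⟨t, ht⟩ h0
  have h1 : ∀ i, t (x i) = 0 := fun i => congrFun h0 i
  have h2 : (S.R n).liftQ t (S.mem_D.1 ht) = 0 := by
    refine LinearMap.ext_on_range he fun i => ?_
    rw [← hx i, Submodule.mkQ_apply, Submodule.liftQ_apply, h1, LinearMap.zero_apply]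
  exact Subtype.ext (LinearMap.ext fun y => LinearMap.congr_fun h2 ((S.R n).mkQ y))

theorem PAk2_rank {K V W : Type} [Field K] [AddCommGroup V] [Module K V] [AddCommGroup W]
    [Module K W] (D : Submodule K V) [Module.Finite K D] (Φ : V →ₗ[K] W) :
    Module.finrank K (D.map Φ) + Module.finrank K ↥(D ⊓ ker Φ) = Module.finrank K D := by
  have h := LinearMap.finrank_range_add_finrank_ker (Φ ∘ₗ D.subtype)
  rw [LinearMap.range_comp, Submodule.range_subtype, LinearMap.ker_comp] at h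
  rw [← h, ← Submodule.map_comap_subtype, Submodule.finrank_map_subtype_eq]

theorem PAk2_mono {K V : Type} [Field K] [AddCommGroup V] [Module K V] {D D' : Submodule K V}
    [Module.Finite K D] (h : D' ≤ D) : Module.finrank K D' ≤ Module.finrank K D :=
  Submodule.finrank_mono h

theorem PAk2_fin {K V : Type} [Field K] [AddCommGroup V] [Module K V] (D D' : Submodule K V)
    [Module.Finite K D] : Module.Finite K ↥(D ⊓ D') :=
  Module.Finite.of_injective (Submodule.inclusion inf_le_left) (Submodule.inclusion_injective _)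

theorem PAk2_pos {K V : Type} [Field K] [AddCommGroup V] [Module K V] (D : Submodule K V)
    [Module.Finite K D] : 0 < Module.finrank K D ↔ ∃ w ∈ D, w ≠ 0 := by
  rw [Module.finrank_pos_iff_exists_ne_zero]
  exact ⟨fun ⟨w, hw⟩ => ⟨w.1, w.2, fun h => hw (Subtype.ext h)⟩,
    fun ⟨w, hw, h0⟩ => ⟨⟨w, hw⟩, fun h => h0 (congrArg Subtype.val h)⟩⟩

theorem PAk2_one {K V : Type} [Field K] [AddCommGroup V] [Module K V] (D : Submodule K V)
    [Module.Finite K D] {g : V} (hg : g ∈ D) (hg0 : g ≠ 0) :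
    Module.finrank K D ≤ 1 ↔ ∀ t ∈ D, ∃ b : K, t = b • g := by
  have hv : (⟨g, hg⟩ : D) ≠ 0 := fun h => hg0 (congrArg Subtype.val h)
  constructor
  · intro h t ht
    obtain ⟨b, hb⟩ := (finrank_eq_one_iff_of_nonzero' _ hv).1
      (le_antisymm h ((PAk2_pos D).2 ⟨g, hg, hg0⟩)) ⟨t, ht⟩
    exact ⟨b, (congrArg Subtype.val hb).symm⟩
  · intro h
    refine ((finrank_eq_one_iff_of_nonzero' _ hv).2 fun w => ?_).le
    obtain ⟨b, hb⟩ := h w.1 w.2
    exact ⟨b, Subtype.ext hb.symm⟩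

theorem PAk2_three {K V : Type} [Field K] [AddCommGroup V] [Module K V] (D : Submodule K V)
    (h : 3 ≤ Module.finrank K D) : ∃ t : Fin 3 → V, (∀ i, t i ∈ D) ∧
      ∀ a : Fin 3 → K, ∑ i, a i • t i = 0 → ∀ i, a i = 0 := by
  obtain ⟨t, ht⟩ := exists_linearIndependent_of_le_finrank h
  refine ⟨fun i => (t i).1, fun i => (t i).2, fun a ha => ?_⟩
  refine Fintype.linearIndependent_iff.1 ht a (Subtype.ext ?_)
  rw [Submodule.coe_sum]
  exact ha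

theorem PAk2_solve {K V : Type} [Field K] [AddCommGroup V] [Module K V] {g t : V} {c b : K}
    (hg : g ≠ 0) (hnt : ¬ ∃ e : K, t = e • g) (h : c • g + b • t = 0) : c = 0 ∧ b = 0 := by
  have hb : b = 0 := by
    by_contra hb
    refine hnt ⟨-(b⁻¹ * c), ?_⟩
    have h2 : b • t = -(c • g) := eq_neg_of_add_eq_zero_right h
    rw [neg_smul, mul_smul, ← smul_neg, ← h2, smul_smul, inv_mul_cancel₀ hb, one_smul]
  rw [hb, zero_smul, add_zero] at h
  exact ⟨(smul_eq_zero.1 h).resolve_right hg, hb⟩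

theorem PAk2_line {K V : Type} [Field K] [AddCommGroup V] [Module K V] (D : Submodule K V)
    (Φ : V →ₗ[K] K) : Module.finrank K (D.map Φ) ≤ 1 ∧
      ∀ g ∈ D, Φ g ≠ 0 → 0 < Module.finrank K (D.map Φ) :=
  ⟨(Submodule.finrank_le _).trans (Module.finrank_self _).le, fun _ hg h0 =>
    (PAk2_pos _).2 ⟨_, Submodule.mem_map_of_mem hg, h0⟩⟩

omit [IsDomain O] [IsDiscreteValuationRing O] in
theorem PAk2_span {B : Type} [AddCommGroup B] [Module O B] {R : Submodule O F} {x : Fin 2 → F}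
    {t : F →ₗ[O] B} : R ⊔ span O (Set.range x) ≤ ker t ↔ R ≤ ker t ∧ t ∘ x = 0 := by
  rw [sup_le_iff, span_le, Set.range_subset_iff]
  exact and_congr_right fun _ => ⟨fun h => funext h, fun h i => congrFun h i⟩

theorem PAk2_phi {R : Submodule O F} {p a b : Fin 2 → F} {u0 : O}
    (hp : ∀ i, p i - u0 • (a i + b i) ∈ R) {t : F →ₗ[O] Kr O} (ht : R ≤ ker t) (i : Fin 2) :
    (t ∘ p) i = Ideal.Quotient.mk _ u0 * (t ∘ a + t ∘ b) i := by
  have h := LinearMap.mem_ker.1 (ht (hp i))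
  rw [map_sub, map_smul, map_add, sub_eq_zero, Algebra.smul_def,
    Ideal.Quotient.algebraMap_eq] at h
  exact h

theorem PAk2_det {K : Type} [Field K] {u : K} (hu : u ≠ 0) {a b a' b' : K} (h : a * b' ≠ b * a') :
    u * a * (u * b') - u * b * (u * a') ≠ 0 := fun h0 =>
  h (mul_left_cancel₀ (mul_ne_zero hu hu) (by linear_combination h0))

theorem PAk2_bb {K : Type} [Field K] {a a' w : Fin 2 → K} (hd : a 0 * a' 1 - a 1 * a' 0 ≠ 0)
    (h1 : bb a w = 0) (h2 : bb a' w = 0) : w = 0 := by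
  unfold bb at h1 h2
  funext i
  refine mul_left_cancel₀ hd ?_
  rw [Pi.zero_apply, mul_zero]
  fin_cases i
  · change _ * w 0 = 0
    linear_combination a 0 * h2 - a' 0 * h1
  · change _ * w 1 = 0
    linear_combination a' 1 * h1 - a 1 * h2

theorem PAk2_sol {K : Type} [Field K] {a a' : Fin 2 → K} (hd : a 0 * a' 1 - a 1 * a' 0 ≠ 0)
    (v : Fin 2 → K) : ∃ x y : K, x • a + y • a' = v := by
  obtain ⟨e, he⟩ : ∃ e, e * (a 0 * a' 1 - a 1 * a' 0) = 1 := ⟨_, inv_mul_cancel₀ hd⟩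
  refine ⟨e * (v 0 * a' 1 - v 1 * a' 0), e * (a 0 * v 1 - a 1 * v 0), ?_⟩
  funext i
  fin_cases i
  · change _ * a 0 + _ * a' 0 = v 0
    linear_combination v 0 * he
  · change _ * a 1 + _ * a' 1 = v 1
    linear_combination v 1 * he

theorem PAk2_bb0 {K : Type} [CommRing K] (a : Fin 2 → K) : bb a 0 = 0 ∧ bb 0 a = 0 := by
  simp [bb]

theorem PAk2_two {K : Type} [Field K] (h2 : (2 : K) ≠ 0) {a b c : K} (hc : c ≠ 0)
    (h : a * 0 + b * c + (c * b + 0 * a) = 0) : b = 0 :=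
  mul_left_cancel₀ (mul_ne_zero h2 hc) (by linear_combination h)

theorem PAk2_unit {u0 : O} (hu : IsUnit u0) :
    Ideal.Quotient.mk (IsLocalRing.maximalIdeal O) u0 ≠ 0 :=
  (hu.map _).ne_zero

/-- The residual dimension. -/
noncomputable def Sys.dd (n : S.St) : ℕ := Module.finrank (Kr O) (S.D n)

/-- The residual dimension can be dropped. -/
def Sys.Drp (n : S.St) : Prop := ∃ σ ∈ N, ∃ t ∈ S.D n, ∃ t' ∈ S.D n,
  (t ∘ S.ev σ + t ∘ S.ev (S.θ σ)) 0 * (t' ∘ S.ev σ + t' ∘ S.ev (S.θ σ)) 1 ≠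
    (t ∘ S.ev σ + t ∘ S.ev (S.θ σ)) 1 * (t' ∘ S.ev σ + t' ∘ S.ev (S.θ σ)) 0 ∧
  S.kap n ∘ S.ev σ + S.kap n ∘ S.ev (S.θ σ) ≠ 0

theorem Sys.drop (n : S.St) (h : S.Drp n) : ∃ n', S.Good n n' ∧ S.dd n' + 2 ≤ S.dd n := by
  obtain ⟨σ, hσ, t, ht, t', ht', hdet, hne⟩ := h
  obtain ⟨n', Rq, φ, s, u0, hg, -, hR, hR', hu, hφ, -, iso, -⟩ := S.step' n hσ hne
  refine ⟨n', hg, ?_⟩
  have hu' := PAk2_unit hu
  have hd : (t ∘ S.ev φ) 0 * (t' ∘ S.ev φ) 1 - (t ∘ S.ev φ) 1 * (t' ∘ S.ev φ) 0 ≠ 0 := by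
    rw [PAk2_phi hφ ht, PAk2_phi hφ ht, PAk2_phi hφ ht', PAk2_phi hφ ht']
    exact PAk2_det hu' hdet
  have ht1 := S.mem_D.1 ht
  have ht1' := S.mem_D.1 ht'
  rw [hR, PAk2_span] at ht1 ht1'
  have hle : S.D n' ≤ S.D n ⊓ ker (PAk2ev (S.ev φ)) := by
    intro w hw
    have hw1 := S.mem_D.1 hw
    rw [hR', PAk2_span] at hw1
    refine ⟨?_, hw1.2⟩
    change S.R n ≤ ker w
    rw [hR, PAk2_span]
    refine ⟨hw1.1, ?_⟩
    have h1 := iso t w ht1.1 hw1.1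
    have h2 := iso t' w ht1'.1 hw1.1
    rw [hw1.2, (PAk2_bb0 _).1, add_zero] at h1 h2
    exact PAk2_bb hd h1 h2
  have htop : (S.D n).map (PAk2ev (S.ev φ)) = ⊤ := by
    rw [eq_top_iff]
    intro v _
    obtain ⟨x, y, hxy⟩ := PAk2_sol hd v
    exact ⟨x • t + y • t', add_mem (smul_mem _ _ ht) (smul_mem _ _ ht'), hxy⟩
  have h1 := PAk2_rank (S.D n) (PAk2ev (S.ev φ))
  rw [htop, finrank_top, Module.finrank_fin_fun] at h1
  have := PAk2_fin (S.D n) (ker (PAk2ev (S.ev φ)))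
  have h2 := PAk2_mono hle
  unfold Sys.dd
  omega

include S in
theorem Sys.two_ne : (2 : Kr O) ≠ 0 := fun h0 =>
  S.two (Ideal.Quotient.eq_zero_iff_mem.1 (by rw [map_ofNat]; exact h0))

theorem Sys.nm_sq' (v : Fin 2) :
    (S.nm v).map (algebraMap O (Kr O)) * (S.nm v).map (algebraMap O (Kr O)) = 0 := by
  rw [← Matrix.map_mul, S.nm_sq, Matrix.map_zero _ (map_zero _)]

theorem Sys.nm_tr' :
    ((S.nm 0).map (algebraMap O (Kr O)) * (S.nm 1).map (algebraMap O (Kr O))).trace ≠ 0 := by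
  rw [← Matrix.map_mul]
  intro h0
  refine S.nm_tr (Ideal.Quotient.eq_zero_iff_mem.1 ?_)
  rw [← h0]
  simp only [Matrix.trace, Matrix.diag, map_sum, Matrix.map_apply, Ideal.Quotient.algebraMap_eq]

/-- There is a nonzero residual class such that every class outside of its line either gives a
drop, or lies in the same eigenspace. -/
theorem Sys.dich (n : S.St) (hn : S.kap n ≠ 0) : ∃ g ∈ S.D n, g ≠ 0 ∧
    (∀ σ, g ∘ S.ev σ + g ∘ S.ev (S.θ σ) ≠ 0 → S.kap n ∘ S.ev σ + S.kap n ∘ S.ev (S.θ σ) ≠ 0) ∧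
    ((∀ t ∈ S.D n, ∃ b : Kr O, t = b • g) → ker (S.kap n) ≤ S.R n) ∧
    ∀ t ∈ S.D n, (¬ ∃ b : Kr O, t = b • g) → S.Drp n ∨ ∃ ε : Kr O, (ε = 1 ∨ ε = -1) ∧
      (∀ σ ∈ N, g ∘ S.ev (S.θ σ) = ε • (tauM _ *ᵥ (g ∘ S.ev σ))) ∧
      ∀ σ ∈ N, t ∘ S.ev (S.θ σ) = ε • (tauM _ *ᵥ (t ∘ S.ev σ)) := by
  obtain ⟨g0, a, hsur, hR, ha, hκ, -, -⟩ := prim hn (S.kap_R n) (S.rk1 n hn)
  set g : F →ₗ[O] Kr O := (IsLocalRing.maximalIdeal O).mkQ ∘ₗ g0 with hg
  have hgx : ∀ x, g x = Ideal.Quotient.mk _ (g0 x) := fun _ => rfl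
  have hgD : g ∈ S.D n := fun x hx => by
    rw [LinearMap.mem_ker, hgx, LinearMap.mem_ker.1 (hR hx), map_zero]
  have hg0 : g ≠ 0 := by
    intro h0
    obtain ⟨x, hx⟩ := hsur 1
    have h1 := hgx x
    rw [h0, hx, map_one, LinearMap.zero_apply] at h1
    exact zero_ne_one h1
  have hne : ∀ σ, g ∘ S.ev σ + g ∘ S.ev (S.θ σ) ≠ 0 →
      S.kap n ∘ S.ev σ + S.kap n ∘ S.ev (S.θ σ) ≠ 0 := by
    intro σ h1 h2
    refine h1 (funext fun i => ?_)
    have h3 := congrFun h2 i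
    rw [hκ] at h3
    have h4 : a * (g0 (S.ev σ i) + g0 (S.ev (S.θ σ) i)) = 0 := by
      rw [mul_add]
      exact h3
    have h5 := (mul_eq_zero.1 h4).resolve_left ha
    change g _ + g _ = 0
    rw [hgx, hgx, ← map_add, h5, map_zero]
  refine ⟨g, hgD, hg0, hne, fun hall => ?_, fun t ht hnt => ?_⟩
  · have := S.fg n
    refine le_trans (fun x hx => ?_) (base_case hsur hR fun t ht => ?_)
    · rw [LinearMap.mem_ker, hκ, LinearMap.smul_apply, smul_eq_mul] at hx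
      exact (mul_eq_zero.1 hx).resolve_left ha
    · obtain ⟨b, hb⟩ := hall t ht
      obtain ⟨b, rfl⟩ := Ideal.Quotient.mk_surjective b
      exact ⟨b, by rw [hb, PAk2_mk_smul]⟩
  · have ind : ∀ a b : Kr O, (∀ σ ∈ N, a • (g ∘ S.ev σ) + b • (t ∘ S.ev σ) = 0) →
        a = 0 ∧ b = 0 := by
      intro c b hcb
      exact PAk2_solve hg0 hnt
        (S.eq_zero n _ (add_mem (smul_mem _ c hgD) (smul_mem _ b ht) : _ ∈ S.D n) hcb)
    rcases pair_lemma S.two_ne S.normal S.θN S.nm_sq' S.nm_tr' (S.eqv n g hgD) (S.eqv n t ht)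
      ind with ⟨σ, hσ, hdet⟩ | h
    · refine Or.inl ⟨σ, hσ, g, hgD, t, ht, hdet, hne σ fun h0 => hdet ?_⟩
      simp only [h0, Pi.zero_apply, zero_mul]
    · exact Or.inr h

theorem Sys.dd_pos (n : S.St) (hn : S.kap n ≠ 0) : 1 ≤ S.dd n := by
  obtain ⟨g, hg, hg0, -⟩ := S.dich n hn
  exact (PAk2_pos (S.D n)).2 ⟨g, hg, hg0⟩

theorem Sys.dd_le_one {n : S.St} {g : F →ₗ[O] Kr O} (hg : g ∈ S.D n) (hg0 : g ≠ 0) :
    S.dd n ≤ 1 ↔ ∀ t ∈ S.D n, ∃ b : Kr O, t = b • g :=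
  PAk2_one (S.D n) hg hg0

theorem Sys.base (n : S.St) (hn : S.kap n ≠ 0) (h : S.dd n ≤ 1) : ker (S.kap n) ≤ S.R n := by
  obtain ⟨g, hg, hg0, -, hb, -⟩ := S.dich n hn
  exact hb ((S.dd_le_one hg hg0).1 h)

/-- The class `t` lies in the eigenspace of `ε`. -/
def Sys.Eig (ε : Kr O) (t : F →ₗ[O] Kr O) : Prop :=
  ∀ σ ∈ N, t ∘ S.ev (S.θ σ) = ε • (tauM _ *ᵥ (t ∘ S.ev σ))

theorem Sys.Eig.smul {ε : Kr O} {t : F →ₗ[O] Kr O} (h : S.Eig ε t) (b : Kr O) :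
    S.Eig ε (b • t) := by
  intro σ hσ
  change b • (t ∘ S.ev (S.θ σ)) = ε • (tauM _ *ᵥ (b • (t ∘ S.ev σ)))
  rw [h σ hσ, Matrix.mulVec_smul, smul_comm]

theorem PAk2_tau {K : Type} [CommRing K] (v : Fin 2 → K) :
    (tauM K *ᵥ v) 0 = v 0 ∧ (tauM K *ᵥ v) 1 = -v 1 := by
  constructor <;> simp [tauM, Matrix.mulVec, dotProduct, Fin.sum_univ_two]

theorem Sys.eig_uniq {n : S.St} {ε ε' : Kr O} {t : F →ₗ[O] Kr O} (ht : t ∈ S.D n) (h0 : t ≠ 0)
    (h : S.Eig ε t) (h' : S.Eig ε' t) : ε = ε' := by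
  by_contra hne
  refine h0 (S.eq_zero n t ht fun σ hσ => ?_)
  have h1 : (ε - ε') • (tauM _ *ᵥ (t ∘ S.ev σ)) = 0 := by
    rw [sub_smul, ← h σ hσ, ← h' σ hσ, sub_self]
  have h2 := (smul_eq_zero.1 h1).resolve_left (sub_ne_zero.2 hne)
  have h3 := PAk2_tau (t ∘ S.ev σ)
  rw [h2] at h3
  funext i
  fin_cases i
  · exact h3.1.symm
  · exact neg_eq_zero.1 h3.2.symm

theorem Sys.eig_all {n : S.St} (hn : S.kap n ≠ 0) (h : ¬ S.Drp n) {ε : Kr O}
    {w : F →ₗ[O] Kr O} (hw : w ∈ S.D n) (hw0 : w ≠ 0) (hε : S.Eig ε w) :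
    ∀ t ∈ S.D n, S.Eig ε t := by
  obtain ⟨g, hg, hg0, -, -, hd⟩ := S.dich n hn
  have hgε : S.Eig ε g := by
    by_cases hm : ∃ b : Kr O, w = b • g
    · obtain ⟨b, hb⟩ := hm
      have hb0 : b ≠ 0 := fun h0 => hw0 (by rw [hb, h0, zero_smul])
      have h1 := hε.smul S b⁻¹
      rwa [hb, smul_smul, inv_mul_cancel₀ hb0, one_smul] at h1
    · obtain ⟨ε', -, h1, h2⟩ := (hd w hw hm).resolve_left h
      rw [S.eig_uniq hw hw0 hε h2]
      exact h1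
  intro t ht
  by_cases hm : ∃ b : Kr O, t = b • g
  · obtain ⟨b, rfl⟩ := hm
    exact hgε.smul S b
  · obtain ⟨ε', -, h1, h2⟩ := (hd t ht hm).resolve_left h
    rw [S.eig_uniq hg hg0 hgε h1]
    exact h2

theorem PAk2_idx {K : Type} [CommRing K] {ε : K} (hε : ε = 1 ∨ ε = -1) : ∃ i0 i1 : Fin 2,
    (∀ x y : Fin 2 → K, bb x y = x i0 * y i1 + x i1 * y i0) ∧
    (∀ v : Fin 2 → K, v i0 = 0 → v i1 = 0 → v = 0) ∧ i1 ≠ i0 ∧
    (∀ v : Fin 2 → K, (ε • (tauM K *ᵥ v)) i0 = v i0) ∧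
    ∀ v : Fin 2 → K, (ε • (tauM K *ᵥ v)) i1 = -v i1 := by
  rcases hε with rfl | rfl
  · refine ⟨0, 1, fun x y => rfl, fun v h0 h1 => ?_, by decide, fun v => ?_, fun v => ?_⟩
    · funext i
      fin_cases i
      exacts [h0, h1]
    · rw [one_smul, (PAk2_tau v).1]
    · rw [one_smul, (PAk2_tau v).2]
  · refine ⟨1, 0, fun x y => add_comm _ _, fun v h0 h1 => ?_, by decide, fun v => ?_,
      fun v => ?_⟩
    · funext i
      fin_cases i
      exacts [h1, h0]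
    · rw [neg_one_smul, Pi.neg_apply, (PAk2_tau v).2, neg_neg]
    · rw [neg_one_smul, Pi.neg_apply, (PAk2_tau v).1]

theorem Sys.neutral (n : S.St) (hn : S.kap n ≠ 0) (h : ¬ S.Drp n) (h2 : 2 ≤ S.dd n) :
    ∃ n', S.Good n n' ∧ S.dd n' ≤ S.dd n ∧ (S.Drp n' ∨ (S.dd n' < S.dd n ∧ ¬ par)) := by
  obtain ⟨g, hg, hg0, hne, -, hd⟩ := S.dich n hn
  have hex : ∃ t ∈ S.D n, ¬ ∃ b : Kr O, t = b • g := by
    by_contra hc
    have h1 := (S.dd_le_one hg hg0).2 fun t ht => by_contra fun h3 => hc ⟨t, ht, h3⟩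
    omega
  obtain ⟨t1, ht1, hm⟩ := hex
  obtain ⟨ε, hε, hgε, -⟩ := (hd t1 ht1 hm).resolve_left h
  have hall := S.eig_all hn h hg hg0 hgε
  obtain ⟨i0, i1, hbb, hz, hi, he0, he1⟩ := PAk2_idx hε
  have hgN : ∃ σ ∈ N, g ∘ S.ev σ ≠ 0 := by
    by_contra hc
    exact hg0 (S.eq_zero n g hg fun σ hσ => by_contra fun h3 => hc ⟨σ, hσ, h3⟩)
  obtain ⟨σ, hσ, hσ0⟩ := coord_ne S.normal S.nm_sq' S.nm_tr' (S.eqv n g hg) hgN i0
  have hs0 : (g ∘ S.ev σ + g ∘ S.ev (S.θ σ)) i0 ≠ 0 := by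
    rw [Pi.add_apply, hgε σ hσ, he0, ← two_mul]
    exact mul_ne_zero S.two_ne hσ0
  obtain ⟨n', Rq, φ, s, u0, hgood, hs, hR, hR', hu, hφ, hθs, iso, co⟩ :=
    S.step' n hσ (hne σ fun h0 => hs0 (by rw [h0, Pi.zero_apply]))
  have hD : ∀ t : F →ₗ[O] Kr O, t ∈ S.D n ↔ Rq ≤ ker t ∧ t ∘ S.ev s = 0 := fun t => by
    rw [S.mem_D, hR, PAk2_span]
  have hD' : ∀ t : F →ₗ[O] Kr O, t ∈ S.D n' ↔ Rq ≤ ker t ∧ t ∘ S.ev φ = 0 := fun t => by
    rw [S.mem_D, hR', PAk2_span]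
  have hφ1 : ∀ t ∈ S.D n, (t ∘ S.ev φ) i1 = 0 := fun t ht => by
    rw [PAk2_phi hφ ht, Pi.add_apply, hall t ht σ hσ, he1, add_neg_cancel, mul_zero]
  have hφ0 : (g ∘ S.ev φ) i0 ≠ 0 := by
    rw [PAk2_phi hφ hg]
    exact mul_ne_zero (PAk2_unit hu) hs0
  have hs1 : ∀ t : F →ₗ[O] Kr O, Rq ≤ ker t → (t ∘ S.ev s) i1 = 0 := fun t ht => by
    have h1 := iso g t ((hD g).1 hg).1 ht
    rw [((hD g).1 hg).2, hbb, hbb, hφ1 g hg] at h1
    simp only [Pi.zero_apply, zero_mul, add_zero] at h1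
    exact (mul_eq_zero.1 h1).resolve_left hφ0
  have hq : S.D n ⊓ ker (PAk2at (S.ev φ i0)) = S.D n' ⊓ ker (PAk2at (S.ev s i0)) := by
    ext t
    constructor
    · rintro ⟨h3, h4⟩
      exact ⟨(hD' t).2 ⟨((hD t).1 h3).1, hz _ h4 (hφ1 t h3)⟩, congrFun ((hD t).1 h3).2 i0⟩
    · rintro ⟨h3, h4⟩
      exact ⟨(hD t).2 ⟨((hD' t).1 h3).1, hz _ h4 (hs1 t ((hD' t).1 h3).1)⟩,
        congrFun ((hD' t).1 h3).2 i0⟩
  have r1 := PAk2_rank (S.D n) (PAk2at (S.ev φ i0))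
  have r2 := PAk2_rank (S.D n') (PAk2at (S.ev s i0))
  have r3 := (PAk2_line (S.D n) (PAk2at (S.ev φ i0))).1
  have r4 := (PAk2_line (S.D n') (PAk2at (S.ev s i0))).1
  have r5 := (PAk2_line (S.D n) (PAk2at (S.ev φ i0))).2 g hg hφ0
  rw [hq] at r1
  unfold Sys.dd at h2 ⊢
  refine ⟨n', hgood, by omega, ?_⟩
  by_cases hA : ∃ t ∈ S.D n', (t ∘ S.ev s) i0 ≠ 0
  · left
    obtain ⟨t, ht, ht0⟩ := hA
    by_contra hnd
    have := PAk2_fin (S.D n') (ker (PAk2at (S.ev s i0)))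
    obtain ⟨w, hw, hw0⟩ := (PAk2_pos (S.D n' ⊓ ker (PAk2at (S.ev s i0)))).1 (by omega)
    have hw' := hw
    rw [← hq] at hw'
    have h3 := S.eig_all hgood.1 hnd hw.1 hw0 (hall w hw'.1) t ht s hs
    have h4 := congrFun h3 i0
    rw [he0] at h4
    have h5 := LinearMap.mem_ker.1 (S.mem_D.1 ht (hθs i0))
    rw [map_add] at h5
    refine mul_ne_zero S.two_ne ht0 ?_
    rw [two_mul]
    nth_rewrite 1 [← h4]
    exact h5
  · right
    have hB : ∀ t ∈ S.D n', (t ∘ S.ev s) i0 = 0 := fun t ht => by_contra fun h3 => hA ⟨t, ht, h3⟩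
    have h3 : S.D n' ⊓ ker (PAk2at (S.ev s i0)) = S.D n' := inf_eq_left.2 hB
    rw [h3] at r1
    refine ⟨by omega, fun hp => ?_⟩
    obtain ⟨t, ht, ht1, ht2⟩ := co hp 0 (Pi.single i0 1) fun t ht => by
      have h4 : (t ∘ S.ev φ) i1 = 0 := by
        by_cases h5 : (t ∘ S.ev s) i0 = 0
        · exact hφ1 t ((hD t).2 ⟨ht, hz _ h5 (hs1 t ht)⟩)
        · have h6 := iso t t ht ht
          rw [hbb, hbb, hs1 t ht] at h6
          exact PAk2_two S.two_ne h5 h6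
      rw [hbb, hbb, h4, Pi.single_eq_of_ne hi]
      simp only [Pi.zero_apply, mul_zero, zero_mul, add_zero]
    have h4 := hB t ((hD' t).2 ⟨ht, ht1⟩)
    rw [ht2, Pi.single_eq_same] at h4
    exact one_ne_zero h4

theorem Sys.bd (n : S.St) (hn : S.kap n ≠ 0) : Bd (S.R n) (S.kap n) := by
  induction hd : S.dd n using Nat.strong_induction_on generalizing n with
  | _ d ih =>
    subst hd
    by_cases h1 : S.dd n ≤ 1
    · unfold Bd
      rw [rl_eq_zero.2 (S.base n hn h1)]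
      exact zero_le
    by_cases h2 : S.Drp n
    · obtain ⟨n', hg, hlt⟩ := S.drop n h2
      exact hg.2 (ih _ (by omega) n' hg.1 rfl)
    obtain ⟨n', hg, hle, h3 | h3⟩ := S.neutral n hn h2 (by omega)
    · obtain ⟨n'', hg', hlt⟩ := S.drop n' h3
      exact hg.2 (hg'.2 (ih _ (by omega) n'' hg'.1 rfl))
    · exact hg.2 (ih _ h3.1 n' hg.1 rfl)

theorem Sys.parity (hp : par) (hn : S.kap S.n0 ≠ 0) : ker (S.kap S.n0) ≤ S.R S.n0 := by
  have h3 : S.dd S.n0 ≤ 2 := by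
    by_contra hc
    obtain ⟨t, ht, hi⟩ := PAk2_three (S.D S.n0) (not_le.1 hc)
    obtain ⟨a, ⟨i, hi'⟩, ha⟩ := S.dim hp t ht
    refine hi' (Ideal.Quotient.eq_zero_iff_mem.1 (hi (fun i => Ideal.Quotient.mk _ (a i)) ?_ i))
    rw [← ha]
    exact Finset.sum_congr rfl fun j _ => PAk2_mk_smul _ _
  by_cases h1 : S.dd S.n0 ≤ 1
  · exact S.base _ hn h1
  exfalso
  by_cases h2 : S.Drp S.n0
  · obtain ⟨n', hg, hlt⟩ := S.drop _ h2
    have := S.dd_pos n' hg.1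
    omega
  obtain ⟨n', hg, hle, h4 | h4⟩ := S.neutral _ hn h2 (by omega)
  · obtain ⟨n'', hg', hlt⟩ := S.drop n' h4
    have := S.dd_pos n'' hg'.1
    omega
  · exact h4.2 hp

end Pool.Agent.Lib.MP_696deb_nt.B2.PA
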