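import Pool.Agent.Lib.MP_696deb_nt.B2.PAe

set_option autoImplicit false

open scoped Classical
open Finset Matrix PowerSeries Filter Submodule LinearMap

namespace Pool.Agent.Lib.MP_696deb_nt.B2.PA

/-- A lift of a residue class. -/
noncomputable def lf {I : Ideal Lam} (a : Lam ⧸ I) : Lam := (Ideal.Quotient.mk_surjective a).choose

theorem mk_lf {I : Ideal Lam} (a : Lam ⧸ I) : Ideal.Quotient.mk I (lf a) = a :=
  (Ideal.Quotient.mk_surjective a).choose_spec

theorem lf_smul {I : Ideal Lam} (a x : Lam ⧸ I) : lf a • x = a * x := by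
  rw [Algebra.smul_def, Ideal.Quotient.algebraMap_eq, mk_lf]

section

variable {lv : ℕ → ℕ} (hlv : ∀ k, k < lv k)
include hlv

theorem ul_congr {y z : ℕ → Lam}
    (h : ∀ k, Ideal.Quotient.mk (aa (lv k) (lv k)) (y k) = Ideal.Quotient.mk _ (z k)) :
    ul y = ul z := by
  have := ul_zero hlv (y := y - z) fun k => Ideal.Quotient.eq.1 (h k)
  rwa [← ulH_apply, map_sub, sub_eq_zero] at this

/-- The limit of a sequence of residue classes. -/
noncomputable def lim : (∀ k, Ak (lv k)) →+* Lam where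
  toFun a := ul fun k => lf (a k)
  map_one' := (ul_congr hlv (z := fun _ => 1) fun k => by simp [mk_lf]).trans (ul_const 1)
  map_zero' := (ul_congr hlv (z := fun _ => 0) fun k => by simp [mk_lf]).trans (ul_const 0)
  map_add' a b := by
    rw [← ul_add]
    exact ul_congr hlv fun k => by simp [mk_lf]
  map_mul' a b := by
    rw [← ul_mul]
    exact ul_congr hlv fun k => by simp [mk_lf]

theorem lim_apply (a : ∀ k, Ak (lv k)) : lim hlv a = ul fun k => lf (a k) := rfl

theorem lim_mk (y : ℕ → Lam) : lim hlv (fun k => Ideal.Quotient.mk _ (y k)) = ul y :=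
  ul_congr hlv fun _ => mk_lf _

theorem lim_dvd {a : ∀ k, Ak (lv k)} {e : ℕ} (h : ∀ k, a k ∣ 2 ^ e) : lim hlv a ∣ 2 ^ e :=
  ul_dvd hlv fun k => by rw [mk_lf]; exact h k

theorem lim_notMem {a : ∀ k, Ak (lv k)} {e : ℕ} (h : ∀ k, a k ∣ 2 ^ e) {P : Ideal Lam}
    [hP : P.IsPrime] (h2 : (2 : Lam) ∉ P) : lim hlv a ∉ P := fun hm => by
  obtain ⟨t, ht⟩ := lim_dvd hlv h
  exact h2 (hP.mem_of_pow_mem e (ht ▸ P.mul_mem_right t hm))

/-- The limit of a sequence of matrices. -/
noncomputable def limM : (∀ k, Matrix (Fin 2) (Fin 2) (Ak (lv k))) →+* Matrix (Fin 2) (Fin 2) Lam :=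
  (lim hlv).mapMatrix.comp (Matrix.piRingEquiv (β := fun k => Ak (lv k))).symm.toRingHom

theorem limM_apply (A : ∀ k, Matrix (Fin 2) (Fin 2) (Ak (lv k))) (i j : Fin 2) :
    limM hlv A i j = ul fun k => lf (A k i j) := rfl

theorem limM_tau : limM hlv (fun _ => tauM _) = tauM Lam := by
  ext1 i j
  change lim hlv (fun k => tauM _ i j) = _
  fin_cases i <;> fin_cases j
  · exact map_one (lim hlv)
  · exact map_zero (lim hlv)
  · exact map_zero (lim hlv)
  · exact (map_neg (lim hlv) 1).trans (by simp [tauM])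

theorem limM_smul (a : Lam) (A : ∀ k, Matrix (Fin 2) (Fin 2) (Ak (lv k))) :
    limM hlv (fun k => a • A k) = a • limM hlv A := by
  ext1 i j
  have h1 : (fun k => (a • A k) i j) =
      (fun k => Ideal.Quotient.mk (aa (lv k) (lv k)) a) * fun k => A k i j := by
    funext k
    simp [Algebra.smul_def]
  change lim hlv (fun k => (a • A k) i j) = a * lim hlv fun k => A k i j
  rw [h1, map_mul, lim_mk hlv fun _ => a, ul_const]

theorem limM_trace (A : ∀ k, Matrix (Fin 2) (Fin 2) (Ak (lv k))) :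
    (limM hlv A).trace = lim hlv fun k => (A k).trace := by
  have h1 : (fun k => (A k).trace) = (fun k => A k 0 0) + fun k => A k 1 1 := by
    funext k
    simp [Matrix.trace_fin_two]
  rw [h1, map_add, Matrix.trace_fin_two]
  rfl

end

section

variable {J : Type}

/-- The sequence `x` represents `y`. -/
def Near (y : Fr (ℕ → J)) (x : ℕ → Fr J) : Prop :=
  ∀ j, ∀ᶠ k in UU, pj k y - x k ∈ (aa j j • ⊤ : Submodule Lam (Fr J))

theorem near_sg (s : ℕ → J) : Near (sg s) fun k => sg (s k) :=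
  fun j => Eventually.of_forall fun k => by simp

theorem Near.add {y y' : Fr (ℕ → J)} {x x' : ℕ → Fr J} (h : Near y x) (h' : Near y' x') :
    Near (y + y') fun k => x k + x' k := fun j => by
  filter_upwards [h j, h' j] with k h1 h2
  rw [map_add, add_sub_add_comm]
  exact add_mem h1 h2

theorem Near.sub {y y' : Fr (ℕ → J)} {x x' : ℕ → Fr J} (h : Near y x) (h' : Near y' x') :
    Near (y - y') fun k => x k - x' k := fun j => by
  filter_upwards [h j, h' j] with k h1 h2
  rw [map_sub, sub_sub_sub_comm]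
  exact sub_mem h1 h2

theorem Near.smul {y : Fr (ℕ → J)} {x : ℕ → Fr J} (a : ℕ → Lam) (h : Near y x) :
    Near (ul a • y) fun k => a k • x k := fun j => by
  filter_upwards [h j, ul_spec a j] with k h1 h2
  have e : pj k (ul a • y) - a k • x k = ul a • (pj k y - x k) - (a k - ul a) • x k := by
    rw [map_smul]
    module
  rw [e]
  exact sub_mem (smul_mem _ _ h1) (smul_mem_smul h2 mem_top)

theorem Near.sum {ι : Type} (s : Finset ι) {y : ι → Fr (ℕ → J)} {x : ι → ℕ → Fr J}
    (h : ∀ i, Near (y i) (x i)) : Near (∑ i ∈ s, y i) fun k => ∑ i ∈ s, x i k := by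
  induction s using Finset.induction_on with
  | empty => exact fun j => Eventually.of_forall fun k => by simp
  | insert a s ha ih => simpa only [sum_insert ha] using (h a).add ih

theorem Near.mem {R : ℕ → Submodule Lam (Fr J)} {y : Fr (ℕ → J)} {x : ℕ → Fr J} (h : Near y x)
    (hx : ∀ᶠ k in UU, x k ∈ R k) : y ∈ PRel R := fun j => by
  filter_upwards [h j, hx] with k h1 h2
  rw [← add_sub_cancel (x k) (pj k y)]
  exact add_mem (mem_sup_left h2) (mem_sup_right h1)

end

section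

variable {G : Type} [Group G] {θ : G →* G} {e k : ℕ} (T : Lev G θ e k) {n : T.St}
  {c : G → Fin 2 → Ak k}

theorem L_one (hc : c ∈ T.S n) : c 1 = 0 := by
  have := T.coc n c hc 1 1
  rw [mul_one, map_one, one_mulVec] at this
  exact left_eq_add.1 this

theorem L_add (hc : c ∈ T.S n) {σ : G} (hσ : σ ∈ T.N) (g : G) : c (σ * g) = c σ + c g := by
  rw [T.coc n c hc, T.actN σ hσ, one_mulVec]

theorem L_conj (hc : c ∈ T.S n) {σ : G} (hσ : σ ∈ T.N) (g : G) :
    c (g * σ * g⁻¹) = T.act g *ᵥ c σ := by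
  have h1 := T.coc n c hc g g⁻¹
  rw [mul_inv_cancel, L_one T hc] at h1
  rw [mul_assoc, T.coc n c hc, L_add T hc hσ, mulVec_add, add_left_comm, ← h1, add_zero]

theorem L_sah0 (hc : c ∈ T.S n) (g : G) :
    (T.d - 1) • c g = c (T.z2 * g * T.z2⁻¹ * g⁻¹) + (T.act g - 1) *ᵥ c T.z2 := by
  have h1 := T.coc n c hc T.z2 g
  have h2 := L_add T hc (T.z2_comm g) (g * T.z2)
  rw [show T.z2 * g * T.z2⁻¹ * g⁻¹ * (g * T.z2) = T.z2 * g by group, h1, T.coc n c hc g, T.act_z2,
    smul_mulVec, one_mulVec] at h2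
  rw [sub_smul, one_smul, sub_mulVec, one_mulVec]
  linear_combination (exp := 1) h2

theorem L_sah (hc : c ∈ T.S n) (g : G) :
    ((T.act T.fl - 1).det * (T.d - 1)) • c g =
      (T.act T.fl - 1).det • c (T.z2 * g * T.z2⁻¹ * g⁻¹) -
        ((T.act g - 1) * (T.act T.fl - 1).adjugate) *ᵥ c (T.z2 * T.fl * T.z2⁻¹ * T.fl⁻¹) := by
  have h1 := L_sah0 T hc T.fl
  rw [T.van n c hc, smul_zero] at h1
  have h2 : c (T.z2 * T.fl * T.z2⁻¹ * T.fl⁻¹) = -((T.act T.fl - 1) *ᵥ c T.z2) :=
    eq_neg_of_add_eq_zero_left h1.symm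
  rw [mul_smul, L_sah0 T hc g, h2, mulVec_neg, mulVec_mulVec, Matrix.mul_assoc, adjugate_mul,
    Matrix.mul_smul, mul_one, smul_mulVec, smul_add, sub_neg_eq_add]

end

end Pool.Agent.Lib.MP_696deb_nt.B2.PA
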