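import Pool.Agent.Lib.MP_696deb_nt.B2.PAf
import Pool.Agent.Lib.MP_696deb_nt.B2.PAb

set_option autoImplicit false

open scoped Classical
open Finset Matrix PowerSeries Filter Submodule LinearMap

namespace Pool.Agent.Lib.MP_696deb_nt.B2.PA

variable {J : Type} {R : ℕ → Submodule Lam (Fr J)} {r : ℕ} {lv : ℕ → ℕ} {p s : Fin 2 → ℕ → J}
  {a : ℕ → Lam}

theorem pav_jv {F : Type} [AddCommGroup F] [Module Lam F] {I : Ideal Lam} (t : F →ₗ[Lam] Lam ⧸ I)
    (p s : Fin 2 → F) (x y : Fin 2 → Lam) : t (jv p s x y) =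
      bb (t ∘ p) (Ideal.Quotient.mk I ∘ y) + bb (t ∘ s) (Ideal.Quotient.mk I ∘ x) := by
  simp only [jv, bb, map_add, map_smul, Function.comp, Algebra.smul_def, Ideal.Quotient.algebraMap_eq]
  ring

theorem pav_pj (k : ℕ) (x y : Fin 2 → Lam) :
    pj k (jv (fun i => sg (p i)) (fun i => sg (s i)) x y) =
      jv (fun i => sg (p i k)) (fun i => sg (s i k)) x y := by
  simp only [jv, map_add, map_smul, pj_sg]

theorem pav_smul {I : Ideal Lam} {a b : Lam} (h : a - b ∈ I) (z : Lam ⧸ I) : a • z = b • z := by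
  rw [Algebra.smul_def, Algebra.smul_def, Ideal.Quotient.algebraMap_eq, Ideal.Quotient.eq.2 h]

theorem pav_kill {F : Type} [AddCommGroup F] [Module Lam F] {I I' : Ideal Lam} (h : I' ≤ I)
    (t : F →ₗ[Lam] Lam ⧸ I) : I' • ⊤ ≤ ker t := Submodule.smul_le.2 fun c hc z _ => by
  rw [LinearMap.mem_ker, map_smul, pav_smul (b := 0) (by rw [sub_zero]; exact h hc), zero_smul]

theorem pav_desc (hG : ∀ k, PGen r (R k)) {j : ℕ} {I : Ideal Lam} (hI : aa j j ≤ I)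
    (t : Fr (ℕ → J) →ₗ[Lam] Lam ⧸ I) (ht : PRel R ≤ ker t) :
    ∀ᶠ k in UU, ∃ t' : Fr J →ₗ[Lam] Lam ⧸ I, R k ≤ ker t' ∧
      (t' ∘ fun i => sg (p i k)) = (t ∘ fun i => sg (p i)) ∧
      (t' ∘ fun i => sg (s i k)) = (t ∘ fun i => sg (s i)) := by
  filter_upwards [U_desc hG hI t ht (Sum.elim (fun i => sg (p i)) fun i => sg (s i))]
  rintro k ⟨t', h1, h2⟩
  exact ⟨t', h1, funext fun i => by simpa only [Sum.elim_inl, pj_sg, Function.comp] using h2 (Sum.inl i),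
    funext fun i => by simpa only [Sum.elim_inr, pj_sg, Function.comp] using h2 (Sum.inr i)⟩

theorem V_isoS (hlv : ∀ k, k < lv k) (hG : ∀ k, PGen r (R k))
    (h : ∀ k, IsoT (lv k) (a k) (R k) (fun i => sg (p i k)) fun i => sg (s i k)) {P : Ideal Lam}
    (ha : ul a ∉ P) : IsoS P (PRel R) (fun i => sg (p i)) fun i => sg (s i) := by
  refine ⟨_, ha, fun t ht => mem_PRel.2 fun j => ?_⟩
  filter_upwards [pav_desc (p := p) (s := s) hG le_rfl ((aa j j).mkQ ∘ₗ t) fun z hz => by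
    rw [LinearMap.mem_ker, LinearMap.comp_apply, show t z = 0 from ht hz, map_zero],
    ev_lv hlv j, ul_spec a j]
  rintro k ⟨t1, h1, h2, h3⟩ h4 h5
  refine mem_of_ann (k := j) _ fun t2 h6 => ?_
  have h7 := h k _ h4 t2 t1 h6 h1
  rw [h2, h3, pav_smul h5] at h7
  rw [map_smul, map_smul, pav_pj, pav_jv]
  exact h7

theorem V_isoR (hlv : ∀ k, k < lv k) (hG : ∀ k, PGen r (R k))
    (h : ∀ k, IsoT (lv k) (a k) (R k) (fun i => sg (p i k)) fun i => sg (s i k)) {P : Ideal Lam}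
    [P.IsPrime] (ha : ul a ∉ P) : IsoR P (PRel R) (fun i => sg (p i)) fun i => sg (s i) := by
  intro t t' ht ht'
  obtain ⟨w, hw⟩ := Ideal.Quotient.mk_surjective
    (bb (t ∘ fun i => sg (p i)) (t' ∘ fun i => sg (s i)) +
      bb (t ∘ fun i => sg (s i)) (t' ∘ fun i => sg (p i)))
  rw [← hw, Ideal.Quotient.eq_zero_iff_mem]
  refine (Ideal.IsPrime.mem_or_mem inferInstance (closedI P fun j => ?_)).resolve_left ha
  let f := Ideal.Quotient.factorₐ Lam (le_sup_left : P ≤ P ⊔ aa j j)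
  have hf : ∀ t : Fr (ℕ → J) →ₗ[Lam] Lam ⧸ P, PRel R ≤ ker t → PRel R ≤ ker (f.toLinearMap ∘ₗ t) :=
    fun t ht z hz => by
      rw [LinearMap.mem_ker, LinearMap.comp_apply, show t z = 0 from ht hz, map_zero]
  obtain ⟨k, ⟨t1, h1, h2, h3⟩, ⟨t2, k1, k2, k3⟩, h4, h5⟩ :=
    ((pav_desc (p := p) (s := s) hG le_sup_right _ (hf t ht)).and
      ((pav_desc (p := p) (s := s) hG le_sup_right _ (hf t' ht')).and
        ((ev_lv hlv j).and (ul_spec a j)))).exists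
  have h7 := h k _ (h4.trans le_sup_right) t1 t2 h1 k1
  rw [h2, h3, k2, k3, pav_smul (mem_sup_right h5)] at h7
  have h8 := congrArg f hw
  simp only [bb, map_add, map_mul] at h8
  rw [← Ideal.Quotient.eq_zero_iff_mem, ← h7]
  exact congrArg (ul a • ·) h8

theorem pav_co (hlv : ∀ k, k < lv k) {b : Lam}
    (h : ∀ k, CoT (lv k) b (R k) (fun i => sg (p i k)) fun i => sg (s i k)) (P : Ideal Lam)
    (ii : ℕ → ℕ) (h1 : ∀ j, ii j = j ∨ ii j = 1) (h2 : ∀ j, P ≤ aa j (ii j))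
    (h3 : ∀ j, aa j (ii j) ≤ P ⊔ aa j j) {x y : Fin 2 → Lam}
    (hxy : jv (fun i => sg (p i)) (fun i => sg (s i)) x y ∈ PRel R ⊔ P • ⊤) :
    ∃ T : Fr (ℕ → J) →ₗ[Lam] Lam, (∀ z ∈ PRel R, T z ∈ P) ∧
      (∀ i, T (sg (p i)) - b * x i ∈ P) ∧ ∀ i, T (sg (s i)) - b * y i ∈ P := by
  obtain ⟨u, hu, v, hv, e⟩ := Submodule.mem_sup.1 hxy
  have anti : ∀ {j j'}, j ≤ j' → P ⊔ aa j' j' ≤ P ⊔ aa j j := fun h =>
    sup_le_sup_left (aa_anti h h) _
  have key : ∀ j, ∀ᶠ k in UU, ∃ c : J → Lam, (∀ z ∈ R k, lc c z ∈ P ⊔ aa j j) ∧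
      (∀ i, c (p i k) - b * x i ∈ P ⊔ aa j j) ∧ ∀ i, c (s i k) - b * y i ∈ P ⊔ aa j j := fun j => by
    filter_upwards [hu (j + 1), ev_ge j] with k h4 h5
    obtain ⟨t, t1, t2, t3⟩ := h k (j + 1) (ii (j + 1)) (by omega) (by have := hlv k; omega) (h1 _)
      (Ideal.Quotient.mk _ ∘ x) (Ideal.Quotient.mk _ ∘ y) fun t ht => by
        rw [← pav_jv, ← pav_pj, ← e, map_add, map_add, show t (pj k u) = 0 from
          sup_le ht (pav_kill (aa_anti le_rfl (by rcases h1 (j + 1) with h | h <;> omega)) t) h4,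
          zero_add]
        exact pav_kill (h2 _) (t ∘ₗ pj k) hv
    choose c hc using fun z => Ideal.Quotient.mk_surjective (t (sg z))
    have h6 : (aa (j + 1) (ii (j + 1))).mkQ ∘ₗ lc c = t :=
      Finsupp.lhom_ext' fun z => LinearMap.ext_ring ((congrArg _ (lc_sg c z)).trans (hc z))
    have h7 := (h3 (j + 1)).trans (anti j.le_succ)
    exact ⟨c, fun z hz => h7 (Ideal.Quotient.eq_zero_iff_mem.1
        ((LinearMap.congr_fun h6 z).trans (t1 hz))),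
      fun i => h7 (Ideal.Quotient.eq.1 ((hc _).trans (congrFun t2 i))),
      fun i => h7 (Ideal.Quotient.eq.1 ((hc _).trans (congrFun t3 i)))⟩
  obtain ⟨jj, -, h4, h5⟩ := diag key
  obtain ⟨c, hc⟩ := h4.choice
  have h7 : ∀ (g : ℕ → Lam) (d : Lam), (∀ᶠ k in UU, g k - d ∈ P ⊔ aa (jj k) (jj k)) →
      ul g - d ∈ P := fun g d hg => closedI P fun j => by
    obtain ⟨k, k1, k2, k3⟩ := (hg.and ((h5 j).and (ul_spec g j))).exists
    rw [show ul g - d = g k - d - (g k - ul g) by ring]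
    exact sub_mem (anti k2 k1) (mem_sup_right k3)
  refine ⟨lc fun s : ℕ → J => ul fun k => c k (s k), U_asc P c fun j => ?_, fun i => ?_,
    fun i => ?_⟩
  · filter_upwards [hc, h5 j] with k k1 k2 z hz using anti k2 (k1.1 z hz)
  · rw [lc_sg]
    exact h7 _ _ (hc.mono fun k k1 => k1.2.1 i)
  · rw [lc_sg]
    exact h7 _ _ (hc.mono fun k k1 => k1.2.2 i)

theorem V_coS (hlv : ∀ k, k < lv k) {b : Lam}
    (h : ∀ k, CoT (lv k) b (R k) (fun i => sg (p i k)) fun i => sg (s i k)) {P : Ideal Lam}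
    (hb : b ∉ P) : CoS P (PRel R) (fun i => sg (p i)) fun i => sg (s i) := by
  refine ⟨b, hb, fun x y hxy => ?_⟩
  obtain ⟨T, h1, h2, h3⟩ := pav_co hlv h ⊥ id (fun _ => Or.inl rfl) (fun _ => bot_le)
    (fun _ => le_sup_right) (mem_sup_left hxy)
  exact ⟨T, h1, funext fun i => sub_eq_zero.1 (h2 i), funext fun i => sub_eq_zero.1 (h3 i)⟩

theorem V_coR (hlv : ∀ k, k < lv k) {b : Lam}
    (h : ∀ k, CoT (lv k) b (R k) (fun i => sg (p i k)) fun i => sg (s i k))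
    (hb : b ∉ Ideal.span {(X : Lam)}) :
    CoR (Ideal.span {X}) (PRel R) (fun i => sg (p i)) fun i => sg (s i) := by
  refine ⟨b, hb, fun x y hxy => ?_⟩
  obtain ⟨T, h1, h2, h3⟩ := pav_co hlv h (Ideal.span {X}) (fun _ => 1) (fun _ => Or.inr rfl)
    (fun _ => Ideal.span_mono (by simp)) (fun j => Ideal.span_le.2 (Set.pair_subset
      (mem_sup_right (Ideal.subset_span (Set.mem_insert _ _)))
      (mem_sup_left (Ideal.subset_span (pow_one _))))) hxy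
  exact ⟨(Ideal.span {(X : Lam)}).mkQ ∘ₗ T, fun z hz => Ideal.Quotient.eq_zero_iff_mem.2 (h1 z hz),
    fun i => Ideal.Quotient.eq.2 (h2 i), fun i => Ideal.Quotient.eq.2 (h3 i)⟩

end Pool.Agent.Lib.MP_696deb_nt.B2.PA
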