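import Pool.Agent.Lib.MP_696deb_nt.B2.PAs
import Pool.Agent.Lib.MP_696deb_nt.B2.PAc
import Pool.Agent.Lib.MP_696deb_nt.B2.PAv
import Pool.Agent.Lib.MP_696deb_nt.B2.PAg

set_option autoImplicit false

open scoped Classical
open Finset Matrix PowerSeries Filter Submodule LinearMap

namespace Pool.Agent.Lib.MP_696deb_nt.B2.PA

variable {G : Type} [Group G] {θ : G →* G} {e : ℕ} {lv : ℕ → ℕ} (hlv : ∀ k, k < lv k)
  (T : ∀ k, Lev G θ e (lv k))

/-- Evaluation along a sequence of group elements. -/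
noncomputable def evi (g : ℕ → G) (i : Fin 2) : Fr (ℕ → G × Fin 2) := sg fun k => (g k, i)

/-- The product of the normal subgroups. -/
def NN : Subgroup (ℕ → G) := Subgroup.pi Set.univ fun k => (T k).N

theorem mem_NN {σ : ℕ → G} : σ ∈ NN T ↔ ∀ k, σ k ∈ (T k).N := by simp [NN, Subgroup.mem_pi]

/-- The limit of the main modules. -/
noncomputable def RFi : Submodule Lam (Fr (ℕ → G × Fin 2)) := PRel fun k => perp (T k).SF

/-- The limit of the Euler factors. -/
noncomputable def Qi (v : Fin 2) (b : Bool) : Lam := ul fun k => (T k).Q v b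

/-- The limit of the local coordinates. -/
noncomputable def hi : Lam := ul fun k => (T k).h

/-- The limit of the classes. -/
noncomputable def kapi (n : ∀ k, (T k).St) : Fr (ℕ → G × Fin 2) →ₗ[Lam] Lam :=
  lc fun s : ℕ → G × Fin 2 => ul fun k => lf (Function.uncurry ((T k).kap (n k)) (s k))

/-- The limit of the local functionals. -/
noncomputable def nui (o : Fin 2 → Bool) (v : Fin 2) : Fr (ℕ → G × Fin 2) :=
  ∑ i, ul (fun k => (T k).nl v (o v) i) • evi (fun k => (T k).ns v (o v)) i

/-- Sequences of modules that are finite and have boundedly many generators. -/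
def Tame (S : ∀ k, Submodule Lam (G → Fin 2 → Ak (lv k))) : Prop :=
  (∀ k, Finite (S k)) ∧ ∃ r, ∀ k, PGen r (perp (S k))

omit [Group G] in
theorem near_evi (g : ℕ → G) (i : Fin 2) : Near (evi g i) fun k => sg (g k, i) := near_sg _

omit [Group G] in
theorem near_mat (A : ∀ k, Matrix (Fin 2) (Fin 2) (Ak (lv k))) (g : ℕ → G) (i : Fin 2) :
    Near (∑ j, limM hlv A i j • evi g j) fun k => ∑ j, lf (A k i j) • sg (g k, j) :=
  Near.sum _ fun j => (near_evi g j).smul fun k => lf (A k i j)

omit [Group G] in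
theorem lc_mat {k : ℕ} (c : G → Fin 2 → Ak k) (A : Matrix (Fin 2) (Fin 2) (Ak k)) (g : G)
    (i : Fin 2) : lc (Function.uncurry c) (∑ j, lf (A i j) • sg (g, j)) = (A *ᵥ c g) i := by
  simp only [map_sum, map_smul, lc_sg, lf_smul]
  rfl

theorem near_nui (o : Fin 2 → Bool) (v : Fin 2) : Near (nui T o v)
    fun k => ∑ i, (T k).nl v (o v) i • sg ((T k).ns v (o v), i) :=
  Near.sum _ fun i => (near_evi _ i).smul fun k => (T k).nl v (o v) i

section

variable {S S' : ∀ k, Submodule Lam (G → Fin 2 → Ak (lv k))}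

omit [Group G] in
theorem rel_of {y : Fr (ℕ → G × Fin 2)} {x : ℕ → Fr (G × Fin 2)} (h : Near y x)
    (hx : ∀ k, ∀ c ∈ S k, lc (Function.uncurry c) (x k) = 0) : y ∈ PRel fun k => perp (S k) :=
  h.mem (Eventually.of_forall fun k => mem_perp.2 (hx k))

theorem Tame.le (h : Tame S) (hS : ∀ k, S' k ≤ S k) : Tame S' := by
  obtain ⟨h1, r, h2⟩ := h
  exact ⟨fun k => Finite.of_injective _ (Submodule.inclusion_injective (hS k)), r,
    fun k => (h2 k).mono le_rfl (perp_anti (hS k))⟩

omit [Group G] in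
theorem Tame.of_van (g : ℕ → G) (h : Tame fun k => S k ⊓ Van (lv k) (g k)) : Tame S := by
  obtain ⟨h1, r, h2⟩ := h
  have h3 : ∀ k, Finite (S k) := fun k => fin_of_van (g k) (h1 k)
  refine ⟨h3, r + 2, fun k => PGen.of_sup (fun i => (g k, i)) le_rfl ?_⟩
  rw [← perp_van]
  exact h2 k

omit [Group G] in
theorem rel_van (h : ∀ k, Finite (S k)) (g : ℕ → G) :
    (PRel fun k => perp (S k ⊓ Van (lv k) (g k))) =
      (PRel fun k => perp (S k)) ⊔ span Lam (Set.range (evi g)) := by
  simp only [perp_van]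
  exact U_sup (evi g) (fun k i => sg (g k, i)) (near_evi g)

theorem rel_ori (h : ∀ k, Finite (S k)) (o : Fin 2 → Bool) :
    (PRel fun k => perp (S k ⊓ Ori (lv k) (T k).ns (T k).nl o)) =
      (PRel fun k => perp (S k)) ⊔ span Lam (Set.range (nui T o)) := by
  simp only [perp_ori]
  exact U_sup (nui T o) _ (near_nui T o)

omit [Group G] in
theorem rel_lag (h : ∀ k, Finite (S k)) (φ s : ℕ → G) :
    (PRel fun k => perp (S k ⊓ Lag (lv k) (φ k) (s k))) =
      (PRel fun k => perp (S k)) ⊔ span Lam {evi φ 1 - evi φ 0, evi s 0 + evi s 1} := by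
  simp only [perp_lag, ← Matrix.range_cons_cons_empty _ _ ![]]
  refine U_sup _ (fun k => ![sg (φ k, 1) - sg (φ k, 0), sg (s k, 0) + sg (s k, 1)]) fun i => ?_
  fin_cases i
  · exact (near_evi φ 1).sub (near_evi φ 0)
  · exact (near_evi s 0).add (near_evi s 1)

theorem rel_nu (o : Fin 2 → Bool) (v : Fin 2)
    (h : ∀ k, ∀ c ∈ S k, (T k).Q v (o v) • ∑ i, (T k).nl v (o v) i • c ((T k).ns v (o v)) i = 0) :
    Qi T v (o v) • nui T o v ∈ PRel fun k => perp (S k) :=
  rel_of ((near_nui T o v).smul fun k => (T k).Q v (o v)) fun k c hc => by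
    simp only [map_sum, map_smul, lc_sg]
    exact h k c hc

end

variable (n : ∀ k, (T k).St)

theorem kapi_evi (g : ℕ → G) (i : Fin 2) :
    kapi T n (evi g i) = lim hlv fun k => (T k).kap (n k) (g k) i := lc_sg _ _

theorem mk_lc {J : Type} {I : Ideal Lam} (c : J → Lam ⧸ I) (y : Fr J) :
    Ideal.Quotient.mk I (lc (fun z => lf (c z)) y) = lc c y := by
  induction y using Finsupp.induction_linear with
  | zero => simp
  | add x y hx hy => simp only [map_add, hx, hy]
  | single s a =>
    rw [← Finsupp.smul_single_one, map_smul, map_smul (lc c), lc_sg, lc_sg, smul_eq_mul, map_mul,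
      mk_lf]
    rfl

include hlv in
theorem kapi_rel : (PRel fun k => perp ((T k).S (n k))) ≤ LinearMap.ker (kapi T n) := by
  intro x hx
  have h := U_asc (R := fun k => perp ((T k).S (n k))) ⊥
    (fun k z => lf (Function.uncurry ((T k).kap (n k)) z)) (fun j => ?_) x hx
  · exact Ideal.mem_bot.1 h
  filter_upwards [ev_lv hlv j] with k hk y hy
  refine mem_sup_right (hk (Ideal.Quotient.eq_zero_iff_mem.1 ?_))
  rw [mk_lc]
  exact mem_perp.1 hy _ ((T k).kap_mem (n k))

theorem rel_add {σ : ℕ → G} (hσ : σ ∈ NN T) (g : ℕ → G) (i : Fin 2) :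
    evi (σ * g) i - (evi σ i + evi g i) ∈ PRel fun k => perp ((T k).S (n k)) :=
  rel_of ((near_evi _ i).sub ((near_evi σ i).add (near_evi g i))) fun k c hc => by
    simp only [map_sub, map_add, lc_sg, Function.uncurry_apply_pair, Pi.mul_apply]
    rw [L_add (T k) hc ((mem_NN T).1 hσ k), Pi.add_apply, sub_self]

theorem rel_conj {σ : ℕ → G} (hσ : σ ∈ NN T) (g : ℕ → G) (i : Fin 2) :
    evi (g * σ * g⁻¹) i - ∑ j, limM hlv (fun k => (T k).act (g k)) i j • evi σ j ∈
      PRel fun k => perp ((T k).S (n k)) :=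
  rel_of ((near_evi _ i).sub (near_mat hlv _ σ i)) fun k c hc => by
    rw [map_sub, lc_mat, lc_sg, Function.uncurry_apply_pair, Pi.mul_apply, Pi.mul_apply,
      Pi.inv_apply, L_conj (T k) hc ((mem_NN T).1 hσ k), sub_self]

theorem rel_gen (x : Fr (ℕ → G × Fin 2)) :
    lim hlv (fun k => ((T k).act (T k).fl - 1).det * ((T k).d - 1)) • x ∈
      (PRel fun k => perp ((T k).S (n k))) ⊔ span Lam {y | ∃ σ ∈ NN T, ∃ i, y = evi σ i} := by
  induction x using Finsupp.induction_linear with
  | zero => simp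
  | add x y hx hy => rw [smul_add]; exact add_mem hx hy
  | single s a =>
    rw [← Finsupp.smul_single_one, smul_comm]
    refine smul_mem _ a ?_
    obtain ⟨i, hi⟩ := ev_const fun k => (s k).2
    set g : ℕ → G := fun k => (s k).1 with hg
    have h1 : sg s - evi g i ∈ PRel fun k => perp ((T k).S (n k)) :=
      ((near_sg s).sub (near_evi g i)).mem (hi.mono fun k hk => by
        rw [← hk, sub_self]
        exact zero_mem _)
    have h2 := rel_of (S := fun k => (T k).S (n k))
      (((near_evi g i).smul fun k => lf (((T k).act (T k).fl - 1).det * ((T k).d - 1))).sub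
        (((near_evi (fun k => (T k).z2 * g k * (T k).z2⁻¹ * (g k)⁻¹) i).smul
          fun k => lf ((T k).act (T k).fl - 1).det).sub
          (near_mat hlv (fun k => ((T k).act (g k) - 1) * ((T k).act (T k).fl - 1).adjugate)
            (fun k => (T k).z2 * (T k).fl * (T k).z2⁻¹ * (T k).fl⁻¹) i))) fun k c hc => by
      rw [map_sub, map_sub, lc_mat, map_smul, map_smul, lc_sg, lc_sg, lf_smul, lf_smul, sub_eq_zero]
      exact congrFun (L_sah (T k) hc (g k)) i
    have h3 : ∀ g : ℕ → G, ∀ j, evi (fun k => (T k).z2 * g k * (T k).z2⁻¹ * (g k)⁻¹) j ∈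
        span Lam {y | ∃ σ ∈ NN T, ∃ i, y = evi σ i} := fun g j =>
      subset_span ⟨_, (mem_NN T).2 fun k => (T k).z2_comm (g k), j, rfl⟩
    have h4 := add_mem (mem_sup_left (T := span Lam {y | ∃ σ ∈ NN T, ∃ i, y = evi σ i})
      (add_mem (smul_mem _ (lim hlv fun k => ((T k).act (T k).fl - 1).det * ((T k).d - 1)) h1) h2))
      (mem_sup_right (sub_mem (smul_mem _ (ul fun k => lf ((T k).act (T k).fl - 1).det) (h3 g i))
        (sum_mem (t := univ) fun j _ => smul_mem _ (limM hlv (fun k => ((T k).act (g k) - 1) *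
          ((T k).act (T k).fl - 1).adjugate) i j) (h3 (fun k => (T k).fl) j))))
    convert h4 using 1
    rw [smul_sub, lim_apply]
    abel

end Pool.Agent.Lib.MP_696deb_nt.B2.PA
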