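import Pool.Agent.Lib.MP_696deb_nt.B2.PAt

set_option autoImplicit false

open scoped Classical
open Finset Matrix PowerSeries Filter Submodule LinearMap

namespace Pool.Agent.Lib.MP_696deb_nt.B2.PA

variable {G : Type} [Group G] {θ : G →* G} {e : ℕ} {lv : ℕ → ℕ} (hlv : ∀ k, k < lv k)
  (T : ∀ k, Lev G θ e (lv k))

/-- The oriented modules. -/
noncomputable def Ro (o : Fin 2 → Bool) (S : ∀ k, Submodule Lam (G → Fin 2 → Ak (lv k))) :
    Submodule Lam (Fr (ℕ → G × Fin 2)) :=
  PRel fun k => perp (S k ⊓ Ori (lv k) (T k).ns (T k).nl o)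

theorem le_Ro (o : Fin 2 → Bool) (S : ∀ k, Submodule Lam (G → Fin 2 → Ak (lv k))) :
    (PRel fun k => perp (S k)) ≤ Ro T o S := PRel_mono fun _ => perp_anti inf_le_left

theorem Ro_van (o : Fin 2 → Bool) {S S' : ∀ k, Submodule Lam (G → Fin 2 → Ak (lv k))}
    (hS : Tame S) {g : ℕ → G} (h : ∀ k, S' k = S k ⊓ Van (lv k) (g k)) :
    Ro T o S' = Ro T o S ⊔ span Lam (Set.range (evi g)) := by
  rw [Ro, Ro, ← rel_van (hS.le fun _ => inf_le_left).1]
  simp only [h, inf_right_comm]

theorem err_notMem {P : Ideal Lam} [hP : P.IsPrime] (h2 : (2 : Lam) ∉ P) {o : Fin 2 → Bool}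
    (ho : ∀ v, Qi T v (!o v) ∉ P) :
    ul (fun k => 2 ^ e * (T k).Q 0 (!o 0) * (T k).Q 1 (!o 1)) ∉ P := by
  have h : ul (fun k => 2 ^ e * (T k).Q 0 (!o 0) * (T k).Q 1 (!o 1)) =
      2 ^ e * Qi T 0 (!o 0) * Qi T 1 (!o 1) := by
    rw [← ul_const (2 ^ e), Qi, Qi, ← ul_mul, ← ul_mul]
    simp only [ul_const]
    rfl
  rw [h]
  intro hm
  rcases hP.mem_or_mem hm with hm | hm
  · rcases hP.mem_or_mem hm with hm | hm
    · exact h2 (hP.mem_of_pow_mem e hm)
    · exact ho 0 hm
  · exact ho 1 hm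

include hlv in
theorem kapi_Ro {o : Fin 2 → Bool} (hQ : ∀ v, Qi T v (o v) ≠ 0) (n : ∀ k, (T k).St)
    (hn : ∀ k, Finite ((T k).S (n k))) :
    Ro T o (fun k => (T k).S (n k)) ≤ LinearMap.ker (kapi T n) := by
  rw [Ro, rel_ori T hn]
  refine sup_le (kapi_rel hlv T n) (span_le.2 ?_)
  rintro _ ⟨v, rfl⟩
  have h := kapi_rel hlv T n (rel_nu T o v fun k c hc => (T k).Q_nu (n k) c hc v (o v))
  rw [LinearMap.mem_ker, map_smul, smul_eq_mul] at h
  exact (mul_eq_zero.1 h).resolve_left (hQ v)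

include hlv in
theorem sys_step {P : Ideal Lam} [hP : P.IsPrime] (h2 : (2 : Lam) ∉ P) {o : Fin 2 → Bool}
    (ho : ∀ v, Qi T v (!o v) ∉ P) {par : Prop} (hpar : par → P = Ideal.span {X})
    (n : ∀ k, (T k).St) (hn : Tame fun k => (T k).S (n k)) {σ : ℕ → G} (hσ : σ ∈ NN T) :
    ∃ (n' : ∀ k, (T k).St) (_ : Tame fun k => (T k).S (n' k))
      (Rq : Submodule Lam (Fr (ℕ → G × Fin 2))) (φ s : ℕ → G) (u0 u1 u2 : Lam), s ∈ NN T ∧
      Ro T o (fun k => (T k).S (n k)) = Rq ⊔ span Lam (Set.range (evi s)) ∧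
      Ro T o (fun k => (T k).S (n' k)) = Rq ⊔ span Lam (Set.range (evi φ)) ∧
      u0 ∉ P ∧ u1 ∉ P ∧ u2 ∉ P ∧
      (∀ i, evi φ i - u0 • (evi σ i + evi (fun k => θ (σ k)) i) ∈
        Ro T o fun k => (T k).S (n k)) ∧
      (∀ i, evi (fun k => θ (s k)) i + evi s i ∈ Ro T o fun k => (T k).S (n' k)) ∧
      u1 • (kapi T n' ∘ evi s) = u2 • (tauM Lam *ᵥ (kapi T n ∘ evi φ)) ∧
      IsoS P Rq (evi φ) (evi s) ∧ CoS P Rq (evi φ) (evi s) ∧ IsoR P Rq (evi φ) (evi s) ∧
      (par → CoR P Rq (evi φ) (evi s)) := by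
  choose n' Sq φ s u0 u1 u2 hs h1 h1' d0 d1 d2 hφ hθ hκ hI using
    fun k => (T k).step (n k) (σ k) ((mem_NN T).1 hσ k)
  have hq : Tame Sq := Tame.of_van s (by simpa only [h1] using hn)
  have hqo : Tame fun k => Sq k ⊓ Ori (lv k) (T k).ns (T k).nl o := hq.le fun _ => inf_le_left
  obtain ⟨hf, r, hr⟩ := hqo
  have hiso := fun k => isoT_of (hI k o).1
  have hco := fun k => coT_of (hI k o).2
  have h2e : (2 ^ e : Lam) ∉ P := fun h => h2 (hP.mem_of_pow_mem e h)
  refine ⟨n', hq.le fun k => (h1' k).trans_le inf_le_left, Ro T o Sq, φ, s, lim hlv u0, lim hlv u1,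
    lim hlv u2, (mem_NN T).2 hs, Ro_van T o hq h1, Ro_van T o hq h1', lim_notMem hlv d0 h2,
    lim_notMem hlv d1 h2, lim_notMem hlv d2 h2, fun i => le_Ro T o _ ?_, fun i => le_Ro T o _ ?_,
    ?_, V_isoS hlv hr hiso (err_notMem T h2 ho), V_coS hlv hco h2e,
    V_isoR hlv hr hiso (err_notMem T h2 ho), fun hp => ?_⟩
  · refine rel_of ((near_evi φ i).sub (((near_evi σ i).add (near_evi _ i)).smul
      fun k => lf (u0 k))) fun k c hc => ?_
    simp only [map_sub, map_smul, map_add, lc_sg, Function.uncurry_apply_pair, lf_smul]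
    rw [hφ k c hc]
    exact sub_self _
  · refine rel_of ((near_evi _ i).add (near_evi s i)) fun k c hc => ?_
    simp only [map_add, lc_sg, Function.uncurry_apply_pair]
    rw [hθ k c hc]
    exact neg_add_cancel _
  · funext i
    have h3 : ∀ k, u1 k * (T k).kap (n' k) (s k) i = u2 k * (tauM _ *ᵥ (T k).kap (n k) (φ k)) i :=
      fun k => congrFun (hκ k) i
    have h4 := congrArg (lim hlv) (funext h3 :
      (u1 * fun k => (T k).kap (n' k) (s k) i) = u2 * fun k => (tauM _ *ᵥ (T k).kap (n k) (φ k)) i)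
    rw [map_mul, map_mul] at h4
    simp only [Pi.smul_apply, Function.comp_apply, smul_eq_mul, kapi_evi hlv]
    rw [h4]
    congr 1
    fin_cases i
    · simp [tauM, kapi_evi hlv, Matrix.mulVec, dotProduct]
    · simp only [tauM, Matrix.mulVec, dotProduct, Fin.sum_univ_two, Function.comp_apply,
        kapi_evi hlv]
      simp only [Fin.mk_one, of_apply, cons_val', cons_val_zero, cons_val_one, cons_val_fin_one,
        zero_mul, zero_add, neg_mul, one_mul]
      exact map_neg (lim hlv) fun k => (T k).kap (n k) (φ k) 1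
  · obtain rfl := hpar hp
    exact V_coR hlv hco h2e

theorem tame_S0 {r0 : ℕ} (hG : ∀ k, PGen r0 (perp (T k).SF)) : Tame fun k => (T k).S0 := by
  refine ⟨fun k => (T k).fin0, r0 + 4, fun k => ?_⟩
  have := (T k).fin0
  have h := hG k
  rw [Lev.SF, perp_lag] at h
  refine PGen.of_sup ![((T k).φ0, 0), ((T k).φ0, 1), ((T k).s0, 0), ((T k).s0, 1)] (span_le.2 ?_) h
  rintro _ (rfl | rfl)
  · exact sub_mem (subset_span ⟨1, rfl⟩) (subset_span ⟨0, rfl⟩)
  · exact add_mem (subset_span ⟨2, rfl⟩) (subset_span ⟨3, rfl⟩)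

omit [Group G] in
include hlv in
theorem cnt_lim {S : ∀ k, Submodule Lam (G → Fin 2 → Ak (lv k))} (hS : Tame S) (j i : ℕ) :
    ∀ᶠ k in UU, j ≤ lv k ∧ i ≤ lv k ∧
      cnt (PRel fun k => perp (S k)) (aa j i) = Nat.card (Wk (S k) (aa j i)) := by
  obtain ⟨hf, r, hr⟩ := hS
  filter_upwards [U_cnt hr (max j i), ev_ge (max j i)] with k hk hk'
  have h1 : j ≤ lv k := ((le_max_left j i).trans hk').trans (hlv k).le
  have h2 : i ≤ lv k := ((le_max_right j i).trans hk').trans (hlv k).le
  exact ⟨h1, h2, by rw [hk _ (aa_anti (le_max_left j i) (le_max_right j i)),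
    cnt_perp (aa_anti h1 h2)]⟩

/-- The values of the class at the initial state. -/
noncomputable def k0i (g : ℕ → G) (i : Fin 2) : Lam := kapi T (fun k => (T k).n0) (evi g i)

include hlv in
theorem sys_of {r0 : ℕ} (hG : ∀ k, PGen r0 (perp (T k).SF)) {r : ℕ}
    (M : Matrix (Fin r) (Fin r) Lam) (E : (Fr (ℕ → G × Fin 2) ⧸ RFi T) ≃ₗ[Lam] Cok M)
    {P : Ideal Lam} [hP : P.IsPrime] (h2 : (2 : Lam) ∉ P) {o : Fin 2 → Bool}
    (ho : ∀ v, Qi T v (!o v) ∉ P) (hQ : ∀ v, Qi T v (o v) ≠ 0) {par : Prop}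
    (hpar : par → P = Ideal.span {X} ∧ ∃ C, ∀ k j, j ≤ lv k →
      Nat.card (Wk ((T k).S (T k).n0) (aa j 1)) ≤ C * 4 ^ j) :
    ∃ S : Sys Lam P (ℕ → G) (NN T) (Fr (ℕ → G × Fin 2)) par M.det (hi T) (Qi T 0 (o 0))
      (Qi T 1 (o 1)) (k0i T), S.R S.n0 = Ro T o fun k => (T k).S (T k).n0 := by
  have h0 := tame_S0 T hG
  have hn0 : Tame fun k => (T k).S (T k).n0 := h0.le fun k => (T k).S_n0.trans_le inf_le_left
  have hu : ∀ v, 1 + limM hlv (fun k => (T k).act ((T k).un v) - 1) =
      limM hlv fun k => (T k).act ((T k).un v) := fun v => by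
    rw [← map_one (limM hlv), ← map_add]
    exact congrArg _ (funext fun k => add_sub_cancel _ _)
  refine ⟨{ θ := MonoidHom.pi fun k => θ.comp (Pi.evalMonoidHom (fun _ => G) k)
            normal := ⟨fun σ hσ g => (mem_NN T).2 fun k =>
              (T k).normal.conj_mem _ ((mem_NN T).1 hσ k) (g k)⟩
            θN := fun σ hσ => (mem_NN T).2 fun k => (T k).θN _ ((mem_NN T).1 hσ k)
            two := h2
            ev := evi
            z := fun k => (T k).z1
            u := 1 + X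
            hu := one_add_X_sq
            un := fun v k => (T k).un v
            nm := fun v => limM hlv fun k => (T k).act ((T k).un v) - 1
            nm_sq := fun v => ?_
            nm_tr := ?_
            St := {n : ∀ k, (T k).St // Tame fun k => (T k).S (n k)}
            R := fun n => Ro T o fun k => (T k).S (n.1 k)
            kap := fun n => kapi T n.1
            kap_R := fun n => kapi_Ro hlv T hQ n.1 n.2.1
            fg := fun n => ?_
            gen := fun n x => ⟨_, ?_, sup_le_sup_right (le_Ro T o _) _ (rel_gen hlv T n.1 x)⟩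
            add := fun n σ hσ σ' _ i => le_Ro T o _ (rel_add T n.1 hσ σ' i)
            eq_un := fun n v σ hσ i => le_Ro T o _ ?_
            eq_unθ := fun n v σ hσ i => le_Ro T o _ ?_
            eq_z := fun n σ hσ i => le_Ro T o _ ?_
            eq_zθ := fun n σ hσ i => le_Ro T o _ ?_
            step := fun n σ hσ => ?_
            n0 := ⟨fun k => (T k).n0, hn0⟩
            R0 := Ro T o fun k => (T k).S0
            φ0 := fun k => (T k).φ0
            s0 := fun k => (T k).s0
            R_n0 := Ro_van T o h0 fun k => (T k).S_n0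
            iso0 := ?_
            kap_h := ?_
            kap_k0 := fun _ _ => rfl
            RF := RFi T
            nu := nui T o
            nu0 := rel_nu T o 0 fun k c hc => (T k).Q_nu0 c hc.1 0 (o 0)
            nu1 := rel_nu T o 1 fun k c hc => (T k).Q_nu0 c hc.1 1 (o 1)
            RF_eq := ?_
            r := r
            M := M
            det := rfl
            pres := ⟨E.toLinearMap ∘ₗ (RFi T).mkQ, E.surjective.comp (mkQ_surjective _),
              fun x hx => by
                rw [LinearMap.mem_ker, LinearMap.comp_apply, mkQ_apply,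
                  (Submodule.Quotient.mk_eq_zero _).2 hx, map_zero]⟩
            dim := fun hp => ?_ }, rfl⟩
  · rw [← map_mul, ← map_zero (limM hlv)]
    exact congrArg _ (funext fun k => (T k).un_sq v)
  · rw [← map_mul, limM_trace]
    exact lim_notMem hlv (fun k => (T k).un_tr) h2
  · obtain ⟨_, r, hr⟩ := n.2.le (S' := fun k => (T k).S (n.1 k) ⊓ Ori (lv k) (T k).ns (T k).nl o)
      fun _ => inf_le_left
    exact U_fg hr
  · exact lim_notMem hlv (e := e + e)
      (fun k => by rw [pow_add]; exact mul_dvd_mul (T k).fl_det (T k).d_dvd) h2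
  · rw [hu]
    exact rel_conj hlv T n.1 hσ _ i
  · have h := rel_conj hlv T n.1 hσ (fun k => θ ((T k).un v)) i
    have h' : limM hlv (fun k => (T k).act (θ ((T k).un v))) =
        tauM Lam * limM hlv (fun k => (T k).act ((T k).un v)) * tauM Lam := by
      rw [← limM_tau hlv, ← map_mul, ← map_mul]
      exact congrArg _ (funext fun k => (T k).un_θ v)
    rw [hu, ← h']
    exact h
  · have h := rel_conj hlv T n.1 hσ (fun k => (T k).z1) i
    have h' : limM hlv (fun k => (T k).act (T k).z1) = (1 + X : Lam) • 1 := by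
      rw [← map_one (limM hlv), ← limM_smul]
      exact congrArg _ (funext fun k => (T k).act_z1)
    rw [h'] at h
    simpa [Matrix.one_apply] using h
  · have h := smul_mem _ (1 + X : Lam) (rel_conj hlv T n.1 hσ (fun k => θ (T k).z1) i)
    have h' : (1 + X : Lam) • limM hlv (fun k => (T k).act (θ (T k).z1)) = 1 := by
      rw [← map_one (limM hlv), ← limM_smul]
      exact congrArg _ (funext fun k => (T k).act_θz1)
    have h'' : (1 + X : Lam) • ∑ j, limM hlv (fun k => (T k).act (θ (T k).z1)) i j • evi σ j =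
        evi σ i := by
      have h3 : ∀ j, (1 + X : Lam) * limM hlv (fun k => (T k).act (θ (T k).z1)) i j =
          (1 : Matrix (Fin 2) (Fin 2) Lam) i j := fun j => congrFun (congrFun h' i) j
      rw [Finset.smul_sum]
      simp only [smul_smul, h3]
      simp [Matrix.one_apply]
    rw [smul_sub, h''] at h
    exact h
  · obtain ⟨n', hn', h⟩ := sys_step hlv T h2 ho (fun hp => (hpar hp).1) n.1 n.2 hσ
    exact ⟨⟨n', hn'⟩, h⟩
  · obtain ⟨hf, r, hr⟩ := h0.le (S' := fun k => (T k).S0 ⊓ Ori (lv k) (T k).ns (T k).nl o)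
      fun _ => inf_le_left
    exact V_isoS hlv hr (fun k => isoT_of ((T k).iso0 o)) (err_notMem T h2 ho)
  · choose u hu1 hu2 using fun k => (T k).kap_h
    refine ⟨lim hlv u, lim_notMem hlv hu1 h2, ?_⟩
    rw [kapi_evi hlv, kapi_evi hlv, ← map_sub, hi, ← lim_mk hlv, ← map_mul]
    exact congrArg _ (funext hu2)
  · have hF : Tame fun k => (T k).SF := h0.le fun _ => inf_le_left
    rw [RFi, ← rel_ori T hF.1, Ro, ← rel_lag (h0.le fun _ => inf_le_left).1]
    simp only [Lev.SF, inf_right_comm]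
  · obtain ⟨rfl, C, hC⟩ := hpar hp
    obtain ⟨r, hr⟩ := hn0.2
    have := U_fg hr
    have h := dim2_of (PRel fun k => perp ((T k).S (T k).n0)) (C := C) fun j => by
      obtain ⟨k, h1, -, h3⟩ := (cnt_lim hlv hn0 j 1).exists
      rw [h3]
      exact hC k j h1
    exact fun t ht => h t fun i => (le_Ro T o _).trans (ht i)

end Pool.Agent.Lib.MP_696deb_nt.B2.PA
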