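import Pool.Agent.Lib.MP_696deb_nt.B2.XTW
import Pool.Agent.Lib.MP_696deb_nt.B2.XSb
import Pool.Agent.Lib.MP_696deb_nt.B2.XLe
import Pool.Agent.Lib.MP_696deb_nt.B2.LO3b

/-! Cyclic coefficients on the reference branch. -/

set_option autoImplicit false

open scoped NNReal Classical
open Finset Matrix PowerSeries

namespace Pool.Agent.Lib.MP_696deb_nt.B2

/-- The cyclic group of order `2 ^ i`. -/
abbrev Zi (i : ℕ) : Type := ZMod (2 ^ i)

/-- The value at zero of a power series. -/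
noncomputable def evL (i : ℕ) : Lam →+* Zi i := (PadicInt.toZModPow i).comp constantCoeff

noncomputable instance zL (i : ℕ) : Module Lam (Zi i) := Module.compHom _ (evL i)

theorem zL_smul {i : ℕ} (a : Lam) (x : Zi i) : a • x = evL i a * x := rfl

theorem evL_C (i : ℕ) (z : ℤ_[2]) : evL i (C z) = PadicInt.toZModPow i z := by simp [evL]

theorem evL_X (i : ℕ) : evL i X = 0 := by simp [evL]

theorem Zi_two (i : ℕ) : (2 : Zi i) ^ i = 0 := by exact_mod_cast ZMod.natCast_self (2 ^ i)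

theorem Zi_kill {i : ℕ} (x : Zi i) : 2 ^ i • x = 0 := by
  rw [nsmul_eq_mul, ZMod.natCast_self, zero_mul]

theorem Zi_kill' {i : ℕ} (x : Fin 2 → Zi i) : 2 ^ i • x = 0 := funext fun r => Zi_kill (x r)

theorem card_Zi (i : ℕ) : Nat.card (Zi i) = 2 ^ i := Nat.card_zmod _

theorem card_Zi2 (i : ℕ) : Nat.card (Fin 2 → Zi i) = 4 ^ i := by
  rw [Nat.card_fun, card_Zi, Nat.card_fin, ← pow_mul, mul_comm, pow_mul]
  rfl

theorem evL_mem {i j l : ℕ} (hj : i ≤ j) (hl : 1 ≤ l) {a : Lam} (h : a ∈ aa j l) : evL i a = 0 := by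
  obtain ⟨y, hy⟩ := PA.mem_aa.1 h 0 hl
  rw [evL, RingHom.comp_apply, ← coeff_zero_eq_constantCoeff_apply, hy, map_mul, map_pow, map_ofNat,
    pow_eq_zero_of_le hj (Zi_two i), zero_mul]

theorem kil_Zi {i k : ℕ} (h : i ≤ k) (hk : 1 ≤ k) : Kil k (Zi i) := fun a ha x => by
  rw [zL_smul, evL_mem h hk ha, zero_mul]

theorem perf_Zi (i : ℕ) : Perf (m := i) (AddMonoidHom.mul (R := Zi i)) :=
  ⟨fun a x y => by simp only [AddMonoidHom.mul_apply, zL_smul]; ring,
    fun x h => by simpa using h 1, fun x h => by simpa using h 1⟩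

/-- Additive maps are linear. -/
noncomputable def zLin {i : ℕ} {B : Type} [AddCommGroup B] [Module Lam B] (u : Zi i →+ B)
    (h : ∀ y : B, (X : Lam) • y = 0) : Zi i →ₗ[Lam] B where
  toFun := u
  map_add' := map_add u
  map_smul' a x := by
    obtain ⟨y, hy⟩ : (X : Lam) ∣ a - C (constantCoeff a) := X_dvd_iff.2 (by simp)
    rw [RingHom.id_apply, eq_add_of_sub_eq hy, add_smul, add_smul, mul_smul, mul_smul, h, zL_smul X,
      evL_X, zero_mul, zero_add, zero_add, la_C_smul (Zi_kill x),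
      la_C_smul (m := i) (by rw [← map_nsmul, Zi_kill, map_zero]), map_nsmul]

theorem zLin_apply {i : ℕ} {B : Type} [AddCommGroup B] [Module Lam B] (u : Zi i →+ B)
    (h : ∀ y : B, (X : Lam) • y = 0) (x : Zi i) : zLin u h x = u x := rfl

theorem X_Zi {i : ℕ} (y : Zi i) : (X : Lam) • y = 0 := by rw [zL_smul, evL_X, zero_mul]

theorem exists_lin_aa (j : ℕ) : ∃ f : Zi j →ₗ[Lam] Lam ⧸ aa j 1, Function.Injective f := by
  have z : (2 : Lam ⧸ aa j 1) ^ j = 0 := by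
    rw [← map_ofNat (Ideal.Quotient.mk (aa j 1)) 2, ← map_pow, Ideal.Quotient.eq_zero_iff_mem]
    exact two_mem_aa j 1
  let u : Zi j →+ Lam ⧸ aa j 1 := ZMod.lift _ ⟨Int.castAddHom _, by simpa using z⟩
  refine ⟨zLin u fun y => ?_, Function.LeftInverse.injective (g := ev j 1 (.inr one_ne_zero))
    fun x => ?_⟩
  · rw [Algebra.smul_def, Ideal.Quotient.algebraMap_eq,
      Ideal.Quotient.eq_zero_iff_mem.2 (by simpa using X_mem_aa j 1), zero_mul]
  · obtain ⟨x, rfl⟩ := ZMod.intCast_surjective x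
    rw [zLin_apply, ZMod.lift_coe]
    exact map_intCast _ x

/-- The hypotheses on the reference branch at one deep place. -/
structure ROk (T : Tate) (n k : ℕ) (lam : Plc) (ψ : Gam → Lam) (w : Plc) : Prop where
  ok : SOk T n k lam ψ {w}
  triv : ∀ g ∈ GK n, ψ g - 1 ∈ Ideal.span {(X : Lam)}
  pos : 1 ≤ k

variable {T : Tate} {n k i : ℕ} {lam w : Plc} {ψ : Gam → Lam} {g : Gam}

theorem rl_evL (h : ψ g - 1 ∈ Ideal.span {(X : Lam)}) (i : ℕ) : evL i (ψ g) = 1 := by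
  obtain ⟨y, hy⟩ := Ideal.mem_span_singleton.1 h
  rw [eq_add_of_sub_eq hy, map_add, map_mul, evL_X, zero_mul, zero_add, map_one]

theorem rl_act (T : Tate) (h : ψ g - 1 ∈ Ideal.span {(X : Lam)}) (x : Fin 2 → Zi i) :
    act T ψ (Zi i) g x = mred i (T.ρ g) *ᵥ x := funext fun r => by
  rw [act_eq, Pi.smul_apply, zL_smul, rl_evL h, one_mul, mact_apply, map_apply, map_apply, zL_smul,
    zL_smul, evL_C, evL_C]
  simp [mred, mulVec, dotProduct]

theorem ROk.act (h : ROk T n k lam ψ w) (hg : g ∈ GK n) (x : Fin 2 → Zi i) :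
    act T ψ (Zi i) g x = mred i (T.ρ g) *ᵥ x := rl_act T (h.triv g hg) x

theorem ROk.emb (h : ROk T n k lam ψ w) (hg : g ∈ GK n) (x : Fin 2 → Zi i) :
    T.emb i (B2.act T ψ (Zi i) g x) = g • T.emb i x := by rw [h.act hg, T.smul]

theorem ROk.kil (h : ROk T n k lam ψ w) (hi : i ≤ k) : Kil k (Zi i) := kil_Zi hi h.pos

theorem ROk.isAct (h : ROk T n k lam ψ w) (hi : i ≤ k) : Act (GK n) (B2.act T ψ (Zi i)) :=
  h.ok.chr.act T (h.kil hi)

/-- The cocycles that are locally trivial at the places in `R`. -/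
noncomputable def St (T : Tate) (n : ℕ) (lam : Plc) (ψ : Gam → Lam) (w : Plc) (R : Finset (Fin 5))
    (ty : Ty) (i : ℕ) : AddSubgroup (Gam → Fin 2 → Zi i) :=
  (SU T n lam ψ {w} (fun _ => ty) (Zi i)).toAddSubgroup ⊓
    ⨅ r ∈ R, (B1 (GK n ⊓ Dec (sp lam r)) (act T ψ (Zi i))).comap (rs (GK n ⊓ Dec (sp lam r)))

theorem mem_St {R : Finset (Fin 5)} {ty : Ty} {c : Gam → Fin 2 → Zi i} :
    c ∈ St T n lam ψ w R ty i ↔ c ∈ SU T n lam ψ {w} (fun _ => ty) (Zi i) ∧
      ∀ r ∈ R, ∃ x, ∀ g ∈ GK n ⊓ Dec (sp lam r), c g = cob (act T ψ (Zi i)) x g := by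
  simp only [St, AddSubgroup.mem_inf, AddSubgroup.mem_iInf, AddSubgroup.mem_comap, rs_mem_B1,
    Submodule.mem_toAddSubgroup]

/-- A point that is not divisible by two modulo torsion, and the Heegner point `y`. -/
structure Prim (n : ℕ) (y P : EE) (u I : ℕ) : Prop where
  fix : ∀ g ∈ GK n, g • P = P
  prim : ∀ P' : EE, (∀ g ∈ GK n, g • P' = P') → ¬ IsOfFinAddOrder (P - 2 • P')
  odd : Odd u
  le : I + 2 ≤ n.primeFactors.card
  eq : 4 • (u • y - 2 ^ I • P) = 0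
  conj : 4 • (cc • P + P) = 0

/-- The Kummer cocycle of a point. -/
structure Del (T : Tate) (n i : ℕ) (P Q : EE) (δ : Gam → Fin 2 → Zi i) : Prop where
  eq : 2 ^ i • Q = P
  emb : ∀ g ∈ GK n, T.emb i (δ g) = g • Q - Q
  out : ∀ g ∉ GK n, δ g = 0

end Pool.Agent.Lib.MP_696deb_nt.B2
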