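import Pool.Agent.Lib.MP_696deb_nt.B2.GWc
import Pool.Agent.Lib.MP_696deb_nt.B2.MU4

/-! Counting lemmas for finite abelian groups and connecting maps. -/

set_option autoImplicit false

open scoped Classical
open Finset

namespace Pool.Agent.Lib.MP_696deb_nt.B2

variable {A B : Type} [AddCommGroup A] [AddCommGroup B]

theorem rl_fin {S S' : AddSubgroup A} [Finite S'] (h : S ≤ S') : Finite S :=
  Finite.Set.subset (S' : Set A) h

theorem rl_quot (V K : AddSubgroup B) (h : K ≤ V) :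
    Nat.card V = Nat.card K * Nat.card (V.map (QuotientAddGroup.mk' K)) := by
  rw [card_map_inf (QuotientAddGroup.mk' K) V, QuotientAddGroup.ker_mk', inf_eq_right.2 h]

/-- The index of a preimage. -/
theorem rl_idx (p : A →+ B) (Z : AddSubgroup A) {V K : AddSubgroup B} [Finite V] {h : ℕ}
    (h1 : Z.map p ≤ V) (h2 : K ≤ V) (h3 : Nat.card V ≤ Nat.card K * h) :
    Nat.card Z ≤ Nat.card (Z ⊓ K.comap p : AddSubgroup A) * h := by
  have := rl_fin h2
  have : Finite (V.map (QuotientAddGroup.mk' K)) := ((V : Set B).toFinite.image _).to_subtype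
  rw [rl_quot V K h2] at h3
  rw [card_map_inf ((QuotientAddGroup.mk' K).comp p) Z, ← AddMonoidHom.comap_ker,
    QuotientAddGroup.ker_mk', ← AddSubgroup.map_map]
  exact Nat.mul_le_mul_left _ ((AddSubgroup.card_le_of_le (AddSubgroup.map_mono h1)).trans
    (Nat.le_of_mul_le_mul_left h3 Nat.card_pos))

theorem rl_iter (k : ℕ) (x : A) : (nsmulAddMonoidHom 2)^[k] x = 2 ^ k • x := by
  induction k with
  | zero => simp
  | succ k ih => rw [Function.iterate_succ_apply', ih, pow_succ', mul_smul]; rfl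

/-- An element of large order modulo a subgroup. -/
theorem rl1_ord {U W : AddSubgroup A} [Finite U] (h : W ≤ U) {x : A} (hx : x ∈ U) {r N : ℕ}
    (h0 : 2 ^ N • x = 0) (h1 : 2 ^ r • x ∉ W) : Nat.card W * 2 ^ (r + 1) ≤ Nat.card U := by
  have : Finite (U.map (QuotientAddGroup.mk' W)) := ((U : Set A).toFinite.image _).to_subtype
  rw [rl_quot U W h]
  refine Nat.mul_le_mul_left _ (pow_le_card (f := nsmulAddMonoidHom 2) (k := N)
    (fun _ k => nsmul_mem k 2) ⟨x, hx, rfl⟩ ?_ ?_)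
  · rw [rl_iter, ← map_nsmul, h0, map_zero]
  · rw [rl_iter, ← map_nsmul]
    exact fun k => h1 ((QuotientAddGroup.eq_zero_iff _).1 k)

variable {N M N' : Type} [AddCommGroup N] [AddCommGroup M] [AddCommGroup N'] {D : Subgroup Gam}

/-- The cochains that become coboundaries in a larger module. -/
noncomputable def Kc (D : Subgroup Gam) (a : Gam → M →+ M) (ι : N →+ M) : AddSubgroup (Gam → N) :=
  (B1 D a).comap ((rs D).comp (ι.compLeft Gam))

theorem mem_Kc {a : Gam → M →+ M} {ι : N →+ M} {c : Gam → N} :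
    c ∈ Kc D a ι ↔ ∃ x, ∀ g ∈ D, ι (c g) = cob a x g := rs_mem_B1

theorem rl_conn [Finite M] {aN : Gam → N →+ N} {a : Gam → M →+ M} {a' : Gam → N' →+ N'}
    (ha : Act D a) {ι : N →+ M} {π : M →+ N'} (hι : Function.Injective ι)
    (hπ : Function.Surjective π) (ex : ∀ x, π x = 0 ↔ ∃ y, ι y = x)
    (e1 : ∀ g ∈ D, ∀ x, ι (aN g x) = a g (ι x)) (e2 : ∀ g ∈ D, ∀ x, π (a g x) = a' g (π x))
    [Finite (Z1 D aN)] : Nat.card N * Nat.card (H0 D a') ≤
      Nat.card (Z1 D aN ⊓ Kc D a ι : AddSubgroup _) * Nat.card (H0 D a) := by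
  have h1 := card_map_inf π ((H0 D a').comap π)
  rw [AddSubgroup.map_comap_eq_self_of_surjective hπ, inf_eq_right.2 (fun x hx => by
    rw [AddSubgroup.mem_comap, show π x = 0 from hx]; exact zero_mem _),
    show π.ker = ι.range from AddSubgroup.ext ex, ← Nat.card_congr (ι.ofInjective hι).toEquiv,
    card_map_inf (cobH D a), mul_comm] at h1
  rw [← h1]
  have : Finite (Z1 D aN ⊓ Kc D a ι : AddSubgroup _) := rl_fin inf_le_left
  have : Finite ((Z1 D aN ⊓ Kc D a ι).map (ι.compLeft Gam)) :=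
    ((_ : Set (Gam → N)).toFinite.image _).to_subtype
  refine Nat.mul_le_mul ((AddSubgroup.card_le_of_le (K := (Z1 D aN ⊓ Kc D a ι).map
    (ι.compLeft Gam)) ?_).trans (Nat.card_le_card_of_surjective _
      ((ι.compLeft Gam).addSubgroupMap_surjective _)))
    (AddSubgroup.card_le_of_le fun x hx g hg => ?_)
  · rintro _ ⟨x, hx, rfl⟩
    have k : ∀ g, ∃ y, ι y = rs D (cob a x) g := fun g => (ex _).1 (by
      by_cases hg : g ∈ D
      · rw [rs_of_mem hg, cob, map_sub, e2 g hg, hx g hg, sub_self]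
      · rw [rs_of_notMem hg, map_zero])
    choose c hc using k
    exact ⟨c, ⟨⟨(rs_mem_Z1 (cob_coc ha x)).1.of_map ι hι e1 fun g _ => hc g, fun g hg =>
      hι (by rw [hc, rs_of_notMem hg, map_zero])⟩,
      mem_Kc.2 ⟨x, fun g hg => (hc g).trans (rs_of_mem hg _)⟩⟩, funext hc⟩
  · have := congrFun (show rs D (cob a x) = 0 from hx.2) g
    rwa [rs_of_mem hg, cob, Pi.zero_apply, sub_eq_zero] at this

end Pool.Agent.Lib.MP_696deb_nt.B2
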