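import Pool.Agent.Lib.MP_696deb_nt.B2.RL0
import Pool.Agent.Lib.MP_696deb_nt.B2.RL1

/-! Local computations on the reference branch. -/

set_option autoImplicit false

open scoped NNReal Classical
open Finset Matrix PowerSeries NumberTheorySymbols

namespace Pool.Agent.Lib.MP_696deb_nt.B2

variable {T : Tate} {n k i : ℕ} {lam w v : Plc} {ψ : Gam → Lam} {D : Subgroup Gam}

/-- The determinant as a pairing. -/
def bd (i : ℕ) : (Fin 2 → Zi i) →+ (Fin 2 → Zi i) →+ ZMod (2 ^ i) :=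
  AddMonoidHom.mk' (fun x => AddMonoidHom.mk' (det2 x) fun y z => by
    simp only [det2, Pi.add_apply]; ring) fun x y => AddMonoidHom.ext fun z => by
    simp only [AddMonoidHom.mk'_apply, AddMonoidHom.add_apply, det2, Pi.add_apply]; ring

theorem bd_apply (x y : Fin 2 → Zi i) : bd i x y = x 0 * y 1 - x 1 * y 0 := rfl

theorem ROk.dual (h : ROk T n k lam ψ w) (hi : i ≤ k) :
    Dual i (GK n) (B2.act T ψ (Zi i)) (B2.act T ψ (Zi i)) (bd i) := by
  refine ⟨h.isAct hi, h.isAct hi, fun g hg x y => ?_, fun x hx => ?_, fun x hx => ?_⟩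
  · rw [h.act hg, h.act hg, cy, ← T.det, RingHom.map_det, det_fin_two]
    simp only [bd_apply, mred, mulVec, dotProduct, Fin.sum_univ_two, RingHom.mapMatrix_apply]
    ring
  · exact funext (Fin.forall_fin_two.2 ⟨by simpa [bd_apply] using hx ![0, 1],
      by simpa [bd_apply] using hx ![1, 0]⟩)
  · exact funext (Fin.forall_fin_two.2 ⟨by simpa [bd_apply] using hx ![0, 1],
      by simpa [bd_apply] using hx ![1, 0]⟩)

/-- The local classes that survive at the double level. -/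
theorem ROk.idx (F : CFT) (h : ROk T n k lam ψ w) (hi : i + i ≤ k) (hv : v.p ≠ 2)
    {u : Zi i →+ Zi (i + i)} (hu : ∀ x, T.emb (i + i) (fun r => u (x r)) = T.emb i x)
    (Z : AddSubgroup (Gam → Fin 2 → Zi i)) [Finite Z]
    (hZ : ∀ c ∈ Z, Coc (GK n) (B2.act T ψ (Zi i)) c) :
    Nat.card Z ≤ Nat.card (Z ⊓ Kc (GK n ⊓ Dec v) (B2.act T ψ (Zi (i + i))) (u.compLeft (Fin 2)) :
      AddSubgroup _) * Nat.card (H0 (GK n ⊓ Dec v) (B2.act T ψ (Zi (i + i)))) := by
  obtain ⟨fin, h1, -⟩ := ld_core F (w := v) (op_GK n) ((h.dual (by omega : i ≤ k)).mono inf_le_left)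
  rw [ldeg, if_neg hv, add_zero, pow_one] at h1
  let π := (ZMod.castHom (pow_dvd_pow 2 (Nat.le_add_right i i)) (Zi i)).toAddMonoidHom
  have e : ∀ x, T.emb i (π.compLeft (Fin 2) x) = 2 ^ i • T.emb (i + i) x := fun x =>
    (T.two i i x).symm
  have h2 := rl_conn (D := GK n ⊓ Dec v) (aN := B2.act T ψ (Zi i)) (a' := B2.act T ψ (Zi i))
    ((h.isAct hi).mono inf_le_left) (ι := u.compLeft (Fin 2)) (π := π.compLeft (Fin 2))
    (fun x y l => T.inj i (by rw [← hu, ← hu]; exact congrArg _ l))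
    (Function.Surjective.comp_left (ZMod.castHom_surjective (pow_dvd_pow 2 (Nat.le_add_right i i))))
    (fun x => ⟨fun l => ?_, ?_⟩) (fun g _ x => act_map (zLin u X_Zi) x)
    fun g _ x => act_map (zLin π X_Zi) x
  · have : Finite (Z ⊓ Kc (GK n ⊓ Dec v) (B2.act T ψ (Zi (i + i))) (u.compLeft (Fin 2)) :
      AddSubgroup _) := rl_fin inf_le_left
    refine (rl_idx (rs (GK n ⊓ Dec v)) Z ?_ inf_le_left (h1.le.trans h2)).trans
      (Nat.mul_le_mul_right _ (AddSubgroup.card_le_of_le fun c hc => ⟨hc.1, ?_⟩))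
    · rintro _ ⟨c, hc, rfl⟩
      exact rs_mem_Z1 ((hZ c hc).mono inf_le_left)
    · obtain ⟨x, hx⟩ := mem_Kc.1 hc.2.2
      exact mem_Kc.2 ⟨x, fun g hg => rs_of_mem hg c ▸ hx g hg⟩
  · obtain ⟨y, hy⟩ := T.surj i _ ((e x).symm.trans ((congrArg _ l).trans (map_zero _)))
    exact ⟨y, T.inj _ ((hu y).trans hy)⟩
  · rintro ⟨y, rfl⟩
    exact T.inj i ((e _).trans (((congrArg _ (hu y)).trans (T.emb_pow y)).trans (map_zero _).symm))

theorem rl_card_H0 {r : ℕ} (hr : r ≤ i)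
    (e : ∀ g ∈ D, ∀ x, B2.act T ψ (Zi r) g x = x) :
    4 ^ r ≤ Nat.card (H0 D (B2.act T ψ (Zi i))) := by
  obtain ⟨u, u1, -⟩ := T.exists_up hr
  rw [← card_Zi2]
  exact Nat.card_le_card_of_injective (fun x => ⟨fun s => u (x s), fun g hg =>
    (act_map (zLin u X_Zi) x).symm.trans (by rw [e g hg]; rfl)⟩)
    fun x y l => funext fun s => u1 (congrFun (congrArg Subtype.val l) s)

theorem ROk.five (h : ROk T n k lam ψ w) (hi : 2 ≤ i) (hv : v.p = 5) :
    4 ^ 2 ≤ Nat.card (H0 (GK n ⊓ Dec v) (B2.act T ψ (Zi i))) :=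
  rl_card_H0 hi fun g hg x => by
    rw [h.act hg.1, T.mod4 g (chi_dec (by rw [hv]; norm_num) (by rw [hv]; norm_num) hg.2),
      one_mulVec]

theorem ROk.tower (h : ROk T n k lam ψ w) (hi : 3 ≤ i) (hk : i ≤ k) :
    4 ^ 3 ≤ Nat.card (H0 (GK n ⊓ Dec lam) (B2.act T ψ (Zi i))) := by
  have t := h.ok.adm.tm_gn h.ok.nok
  refine rl_card_H0 hi fun g hg x => t.fix Zi_kill'
    ((h.isAct (hi.trans hk)).mono inf_le_left) ?_ ?_ hg
  · rw [h.act t.τ_mem.1, T.unr lam h.ok.adm.nd30 _ t.gen.1, la_mred_one, one_mulVec]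
  obtain ⟨u, -, hu⟩ := h.ok.a15_lam
  obtain ⟨y, hy⟩ := (pow_dvd_pow 2 (by omega : 3 ≤ 2 * k + 4)).trans h.ok.dvd
  have h1 := T.tr lam _ h.ok.adm.nd30 (fr_spec lam)
  have h2 := (T.det _).trans (cyc_frob h.ok.adm.ne.1 (fr_spec lam))
  have h3 : (lam.p : ℤ_[2]) + 1 = 2 ^ 3 * y := by exact_mod_cast hy
  rw [hu, trace_fin_two] at h1
  rw [det_fin_two] at h2
  push_cast at h1
  have : mred 3 (T.ρ (fq lam)) = mred 3 1 := by
    ext r s
    refine (cle_eq_iff 3 _ _).2 ?_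
    rw [fq, map_mul, mul_apply, Fin.sum_univ_two]
    revert r s
    simp only [Fin.forall_fin_two, one_apply_eq, one_apply_ne zero_ne_one, one_apply_ne one_ne_zero]
    exact ⟨⟨⟨u * T.ρ (fr lam) 0 0 - y, by linear_combination T.ρ (fr lam) 0 0 * h1 - h2 - h3⟩,
      u * T.ρ (fr lam) 0 1, by linear_combination T.ρ (fr lam) 0 1 * h1⟩,
      ⟨u * T.ρ (fr lam) 1 0, by linear_combination T.ρ (fr lam) 1 0 * h1⟩,
      u * T.ρ (fr lam) 1 1 - y, by linear_combination T.ρ (fr lam) 1 1 * h1 - h2 - h3⟩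
  rw [h.act t.mem, this, la_mred_one, one_mulVec]

/-- Local classes at the five special places are killed by a fixed power of two. -/
theorem ROk.kill (h : ROk T n k lam ψ w) (hi : i ≤ k) (r : Fin 5) {c : Gam → Fin 2 → Zi i}
    (hc : Coc (GK n) (B2.act T ψ (Zi i)) c) :
    ∃ x, ∀ g ∈ GK n ⊓ Dec (sp lam r), 2 ^ 6 • c g = cob (B2.act T ψ (Zi i)) x g := by
  have e64 : ∀ y : Fin 2 → Zi i, (64 : Lam) • y = 2 ^ 6 • y := fun y => by
    rw [← Nat.cast_smul_eq_nsmul Lam]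
    norm_num
  rcases sp_cases lam r with ⟨v, b, e, -⟩ | rfl
  · have q : ∀ b, evL i (QQ ψ v b) = -4 := fun b => by
      rw [QQ, map_sub, map_mul, rl_evL (h.triv _ (h.ok.nok.tm_bq v b).mem)]
      fin_cases v <;> simp [map_ofNat] <;> norm_num
    have h1 := h.ok.nu_Q (h.kil hi) v b (hc.mono inf_le_left)
    have h2 : Coc (GK n ⊓ Dec (bq v b)) (B2.act T ψ (Zi i)) fun g => (QQ ψ v b) • c g :=
      (hc.mono inf_le_left).map (DistribSMul.toAddMonoidHom _ (QQ ψ v b)) fun g _ x =>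
        (act_smul _ x).symm
    obtain ⟨x, hx⟩ := h.ok.nu_cob (h.kil hi) v b h2 (by
      rw [← h1]
      simp only [nu, Pi.smul_apply, smul_sum, smul_comm (QQ ψ v b)])
    refine e ▸ ⟨x, fun g hg => ?_⟩
    rw [← hx g hg, ← e64]
    funext s
    simp only [Pi.smul_apply, zL_smul, map_mul, q, map_ofNat]
    ring
  · obtain ⟨x, hx⟩ := h.ok.lam_cob (h.kil hi) (hc.mono inf_le_left)
    exact ⟨x, fun g hg => by rw [← e64, hx g hg]⟩

end Pool.Agent.Lib.MP_696deb_nt.B2
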