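import Pool.Agent.Lib.MP_696deb_nt.B2.RL2

/-! Global counts on the reference branch. -/

set_option autoImplicit false

open scoped NNReal Classical
open Finset Matrix PowerSeries

namespace Pool.Agent.Lib.MP_696deb_nt.B2

variable {T : Tate} {n k i : ℕ} {lam w : Plc} {ψ : Gam → Lam} {R : Finset (Fin 5)} {ty : Ty}

theorem rl_norm {M : Type} [AddCommGroup M] [Finite M] {H D : Subgroup Gam} {a : Gam → M →+ M}
    (hD : D ≤ H) (W : AddSubgroup (Gam → M)) (h : ∀ c ∈ W, ∀ g ∈ D, c g = 0) :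
    Nat.card W * Nat.card M ≤ Nat.card (W ⊔ B1 H a : AddSubgroup _) * Nat.card (H0 D a) := by
  have : Finite ((H0 D a).map (cobH H a)) := ((H0 D a : Set M).toFinite.image _).to_subtype
  rw [← card_H0_B1 H a, mul_left_comm, ← card_inf_sup, ← mul_assoc, mul_comm,
    card_map_inf (cobH H a) (H0 D a)]
  refine Nat.mul_le_mul_left _ (Nat.mul_le_mul (AddSubgroup.card_le_of_le fun x hx =>
    ⟨fun g hg => hx g (hD hg), funext fun g => ?_⟩) (AddSubgroup.card_le_of_le ?_))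
  · by_cases hg : g ∈ H
    · rw [cobH_apply, rs_of_mem hg, cob, hx g hg, sub_self, Pi.zero_apply]
    · exact rs_of_notMem hg _
  · rintro _ ⟨h1, x, rfl⟩
    refine ⟨x, fun g hg => ?_, rfl⟩
    have := h _ h1 g hg
    rwa [cobH_apply, rs_of_mem (hD hg), cob, sub_eq_zero] at this

/-- The cocycles that vanish at the first place above three. -/
noncomputable def A0 (T : Tate) (n : ℕ) (lam : Plc) (ψ : Gam → Lam) (w : Plc) (ty : Ty) (i : ℕ) :
    AddSubgroup (Gam → Fin 2 → Zi i) :=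
  (SU T n lam ψ {w} (fun _ => ty) (Zi i)).toAddSubgroup ⊓
    ⨅ g ∈ GK n ⊓ Dec (sp lam 0), (Pi.evalAddMonoidHom (fun _ => Fin 2 → Zi i) g).ker

theorem mem_A0 {c : Gam → Fin 2 → Zi i} : c ∈ A0 T n lam ψ w ty i ↔
    c ∈ SU T n lam ψ {w} (fun _ => ty) (Zi i) ∧ ∀ g ∈ GK n ⊓ Dec (sp lam 0), c g = 0 := by
  simp only [A0, AddSubgroup.mem_inf, AddSubgroup.mem_iInf, AddMonoidHom.mem_ker,
    Submodule.mem_toAddSubgroup, Pi.evalAddMonoidHom_apply]

/-- The order of a Selmer group. -/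
noncomputable abbrev GG (T : Tate) (n : ℕ) (lam : Plc) (ψ : Gam → Lam) (w : Plc)
    (R : Finset (Fin 5)) (ty : Ty) (i : ℕ) : ℕ :=
  Nat.card (SelB T n lam ψ ⟨R, {w}, fun _ => ty⟩ (Zi i))

/-- The number of local invariants. -/
noncomputable abbrev hh (T : Tate) (n : ℕ) (lam : Plc) (ψ : Gam → Lam) (i : ℕ) (r : Fin 5) : ℕ :=
  Nat.card (H0 (GK n ⊓ Dec (sp lam r)) (act T ψ (Zi i)))

theorem ROk.finite_Zu (h : ROk T n k lam ψ w) (hi : i ≤ k) (s : Finset Plc) :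
    Finite (Zu (GK n) (B2.act T ψ (Zi i)) s) :=
  B2.finite_Zu (finH_two (op_GK n) (tc_of_le h.ok.nok.pos le_rfl) (index_GK h.ok.nok.pos))
    (h.dual hi) s

theorem ROk.finite_A0 (h : ROk T n k lam ψ w) (hi : i ≤ k) : Finite (A0 T n lam ψ w ty i) :=
  have := h.finite_Zu hi (univ.image (sp lam) ∪ insert w2 {w})
  rl_fin (S' := Zu (GK n) (B2.act T ψ (Zi i)) (univ.image (sp lam) ∪ insert w2 {w}))
    fun _ hc => ⟨hc.1.1, hc.1.2.1⟩

theorem ROk.finite_St (h : ROk T n k lam ψ w) (hi : i ≤ k) : Finite (St T n lam ψ w R ty i) :=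
  have := h.finite_Zu hi (univ.image (sp lam) ∪ insert w2 {w})
  rl_fin (S' := Zu (GK n) (B2.act T ψ (Zi i)) (univ.image (sp lam) ∪ insert w2 {w}))
    fun _ hc => ⟨hc.1.1, hc.1.2.1⟩

theorem ROk.St_le (h : ROk T n k lam ψ w) (hi : i ≤ k) :
    Nat.card (St T n lam ψ w R ty i) * ∏ r ∈ R, hh T n lam ψ i r ≤ GG T n lam ψ w R ty i := by
  have := h.finite_Zu hi (univ.image (sp lam) ∪ insert w2 {w})
  rw [GG, SelB, card_Sel _ _ ((image_subset_image (subset_univ _)).trans subset_union_left)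
    subset_union_right (disjoint_left.2 fun v hv => by
      obtain ⟨r, -, rfl⟩ := mem_image.1 hv
      exact h.ok.sp_notMem r), prod_image h.ok.sp_inj.injOn]
  refine Nat.mul_le_mul_right _ (@AddSubgroup.card_le_of_le _ _ _ _ (rl_fin inf_le_left)
    fun c hc => mem_Zc.2 ⟨⟨hc.1.1, hc.1.2.1⟩, fun v _ => ?_⟩)
  split_ifs with k1 k2
  · obtain ⟨r, hr, rfl⟩ := mem_image.1 k1
    exact rs_mem_B1.2 ((mem_St.1 hc).2 r hr)
  · exact hc.1.2.2.2.2 v k2
  · trivial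

theorem ROk.G0_le (h : ROk T n k lam ψ w) (hi : i ≤ k) :
    GG T n lam ψ w {0} ty i ≤ Nat.card (A0 T n lam ψ w ty i) * 4 ^ i := by
  have := h.finite_A0 (ty := ty) hi
  rw [GG, card_map_inf ((Pi.evalAddMonoidHom (fun _ => Fin 2 → Zi i) (sp lam 0)).comp
    (AddMonoidHom.snd _ _)), ← card_Zi2]
  refine Nat.mul_le_mul ?_ (Nat.card_le_card_of_injective _ (AddSubgroup.subtype_injective _))
  have z : ∀ z ∈ SelB T n lam ψ ⟨{0}, {w}, fun _ => ty⟩ (Zi i), z.2 (sp lam 0) = 0 → z.2 = 0 :=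
    fun z hz e => funext fun v => by
      by_cases l : v = sp lam 0
      · exact l ▸ e
      · exact hz.2.2.2.1 v (by simpa using l)
  exact Nat.card_le_card_of_injective (fun x => ⟨x.1.1, mem_A0.2 ⟨⟨x.2.1.1, x.2.1.2.1, by simp,
    fun _ _ => rfl, x.2.1.2.2.2.2⟩, fun g hg => by
      rw [x.2.1.2.2.1 (sp lam 0) (by simp) g hg, show x.1.2 (sp lam 0) = 0 from x.2.2, cob, map_zero,
        sub_self]⟩⟩) fun x y e => Subtype.ext (Prod.ext (congrArg Subtype.val e)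
    ((z _ x.2.1 x.2.2).trans (z _ y.2.1 y.2.2).symm))

theorem ROk.B1_le (h : ROk T n k lam ψ w) (hi : i ≤ k) :
    B1 (GK n) (B2.act T ψ (Zi i)) ≤ St T n lam ψ w R ty i := by
  rintro _ ⟨x, rfl⟩
  exact mem_St.2 ⟨h.ok.cob_mem (h.kil hi) x, fun r _ => ⟨x, fun g hg => rs_of_mem hg.1 _⟩⟩

/-- The passage to the double level. -/
theorem ROk.mono (F : CFT) (h : ROk T n k lam ψ w) (hi : i + i ≤ k) :
    Nat.card (A0 T n lam ψ w ty i) * 4 ^ (i + i) ≤ GG T n lam ψ w {0, 1, 2, 3} ty (i + i) := by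
  obtain ⟨u, u1, u2⟩ := T.exists_up (Nat.le_add_right i i)
  have := h.finite_A0 (ty := ty) (by omega : i ≤ k)
  let K := fun r => Kc (GK n ⊓ Dec (sp lam r)) (B2.act T ψ (Zi (i + i))) (u.compLeft (Fin 2))
  have step : ∀ (r) (Z : AddSubgroup (Gam → Fin 2 → Zi i)), Z ≤ A0 T n lam ψ w ty i →
      Nat.card Z ≤ Nat.card (Z ⊓ K r : AddSubgroup _) * hh T n lam ψ (i + i) r := fun r Z hZ =>
    have := rl_fin hZ
    h.idx F hi (sp_ne_two h.ok.adm r) u2 Z fun c hc => (hZ hc).1.1.1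
  have h1 := (step 3 _ le_rfl).trans (Nat.mul_le_mul_right _ ((step 2 _ inf_le_left).trans
    (Nat.mul_le_mul_right _ (step 1 _ (inf_le_left.trans inf_le_left)))))
  have inj : Function.Injective ((u.compLeft (Fin 2)).compLeft Gam) := u1.comp_left.comp_left
  have h2 := rl_norm (a := B2.act T ψ (Zi (i + i))) (inf_le_left (b := Dec (sp lam 0)))
    ((A0 T n lam ψ w ty i ⊓ K 3 ⊓ K 2 ⊓ K 1).map ((u.compLeft (Fin 2)).compLeft Gam)) (by
      rintro _ ⟨c, hc, rfl⟩ g hg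
      exact (congrArg (u.compLeft (Fin 2)) ((mem_A0.1 hc.1.1.1).2 g hg)).trans (map_zero _))
  have := h.finite_St (R := {0, 1, 2, 3}) (ty := ty) hi
  rw [AddSubgroup.card_map_of_injective inj, card_Zi2] at h2
  replace h2 := h2.trans (Nat.mul_le_mul_right _ (AddSubgroup.card_le_of_le
    (K := St T n lam ψ w {0, 1, 2, 3} ty (i + i)) (sup_le ?_ (h.B1_le hi))))
  · refine le_trans ?_ (h.St_le hi)
    rw [prod_insert (by decide), prod_insert (by decide), prod_pair (by decide), ← mul_assoc]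
    refine (Nat.mul_le_mul_right _ h1).trans (le_trans (le_of_eq ?_) (Nat.mul_le_mul_right _ h2))
    ring
  · rintro _ ⟨c, ⟨⟨⟨p0, p3⟩, p2⟩, p1⟩, rfl⟩
    refine mem_St.2 ⟨SR0_map (zLin u X_Zi) (mem_A0.1 p0).1, fun r hr => ?_⟩
    simp only [mem_insert, mem_singleton] at hr
    rcases hr with rfl | rfl | rfl | rfl
    exacts [⟨0, fun g hg => (congrArg (u.compLeft (Fin 2)) ((mem_A0.1 p0).2 g hg)).trans
      (by simp [cob])⟩, mem_Kc.1 p1, mem_Kc.1 p2, mem_Kc.1 p3]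

variable (F : CFT) (su : SUStmt) (ch : ChebStmt)
include F su ch

theorem ROk.gw_lag (h : ROk T n k lam ψ w) (hi : i ≤ k) : GG T n lam ψ w {0, 1, 2, 3} .lag i =
    Nat.card (SM T n lam ψ {w} (fun _ => .lag) (Zi i)) * 4 ^ i := by
  have h1 := (sel_count (R := {4}) (ty := fun _ => .lag) F su ch h.ok (h.kil hi) (h.kil hi) hi
    (perf_Zi i)).2
  rw [h.ok.card_SM (h.kil hi), prod_singleton, Ty.cond, xsb_card_prod, card_dgP, card_dgM,
    card_singleton, mul_one, ← sq, Str.dual, show dualR {4} = {0, 1, 2, 3} by decide] at h1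
  rw [← card_Zi2, Nat.card_fun, Nat.card_fin]
  exact (Nat.eq_of_mul_eq_mul_right (pow_pos Nat.card_pos 2) h1).symm

theorem ROk.gw_fl (h : ROk T n k lam ψ w) (hi : i ≤ k) :
    GG T n lam ψ w {0} .sh i = GG T n lam ψ w {0, 2, 3, 4} .fl i * 2 ^ i := by
  have h1 := (sel_count (R := {0, 2, 3, 4}) (ty := fun _ => .fl) F su ch h.ok (h.kil hi) (h.kil hi)
    hi (perf_Zi i)).2
  rw [prod_singleton, card_cond, pow_one, card_singleton, mul_one, sq, ← mul_assoc,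
    Str.dual, show dualR {0, 2, 3, 4} = {0} by decide, card_Zi] at h1
  exact (Nat.eq_of_mul_eq_mul_right (by positivity) h1).symm

end Pool.Agent.Lib.MP_696deb_nt.B2
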