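import Pool.Agent.Lib.MP_696deb_nt.B2.TA0

/-! The local image of descent at two, lower bound. -/

set_option autoImplicit false

open scoped NNReal Classical
open Matrix NumberTheorySymbols

namespace Pool.Agent.Lib.MP_696deb_nt.B2

variable {n : ℕ} {w : Plc} {D : Subgroup Gam} {α β : Gam → ZMod (2 ^ 1)}

theorem taj_uniq {a b z : Qbar} (h : Kum 1 D a α) (h' : Kum 1 D b β) (hz : Fx D z)
    (e : b = a * z ^ 2) : ∀ g ∈ D, α g = β g := by
  have z0 : z ≠ 0 := by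
    rintro rfl
    exact h'.fx.1 (by rw [e]; ring)
  have h1 : Kum 1 D b α := by
    obtain ⟨r, r0, r1, r2⟩ := h
    refine ⟨r * z, mul_ne_zero r0 z0, by rw [e, ← r1]; ring, fun g hg => ?_⟩
    rw [map_mul, r2 g hg, hz g hg]
    ring
  obtain ⟨x, hx⟩ := h1.sub h'
  intro g hg
  have h2 := hx g hg
  rwa [cy_one_eq, sub_self, zero_mul, sub_eq_zero] at h2

theorem taj_one : Kum 1 D 1 (0 : Gam → ZMod (2 ^ 1)) :=
  ⟨1, one_ne_zero, one_pow _, fun g _ => by simp⟩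

theorem taj_congr {α' β' : Gam → ZMod (2 ^ 1)} (h : KL D α β) (h1 : ∀ g ∈ D, α g = α' g)
    (h2 : ∀ g ∈ D, β g = β' g) : KL D α' β' := by
  obtain ⟨S, hS⟩ := h
  exact ⟨S, fun g hg => by rw [← h1 g hg, ← h2 g hg, hS g hg]⟩

theorem taj_val {T : EE} (hT : 2 • T = 0) (a b : ZMod (2 ^ 1)) :
    (a + b).val • T = a.val • T + b.val • T := by
  rcases b3b_two a with rfl | rfl
  · simp
  rcases b3b_two b with rfl | rfl
  · simp
  rw [b3b_add, ← add_smul, ZMod.val_zero, zero_smul]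
  exact hT.symm

theorem taj_add {α' β' : Gam → ZMod (2 ^ 1)} (h : KL D α β) (h' : KL D α' β') :
    KL D (α + α') (β + β') := by
  obtain ⟨S, hS⟩ := h
  obtain ⟨S', hS'⟩ := h'
  refine ⟨S + S', fun g hg => ?_⟩
  rw [Pi.add_apply, Pi.add_apply, taj_val two_T2, taj_val two_T1, smul_add,
    add_sub_add_comm, hS g hg, hS' g hg]
  abel

theorem taj_pt (hd : DescStmt) {x t : Qbar} (hx : Fx D x) (ht : Fx D t) (x0 : x ≠ 0)
    (e : t ^ 2 = x * (4 * x + 9) * (x - 4)) : ∃ (a : Qbar) (α β : Gam → ZMod (2 ^ 1)),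
      (a = 1 ∧ 4 * x + 9 = 0 ∨ a = 4 * x + 9) ∧ Kum 1 D a α ∧ Kum 1 D x β ∧ KL D α β := by
  let P : EE := .some x ((t - x) / 2) ((W15_nonsingular _ _).mpr (by linear_combination e / 4))
  have P0 : P ≠ 0 := WeierstrassCurve.Affine.Point.some_ne_zero _
  have hP : ∀ g ∈ D, g • P = P := fun g hg =>
    r0_fix g P0 (hx g hg) (by
      change g ((t - x) / 2) = (t - x) / 2
      rw [map_div₀, map_sub, hx g hg, ht g hg, map_ofNat])
  obtain ⟨S, hS⟩ := exists_half P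
  obtain ⟨α, β, h1, h2, h3⟩ := hd 1 D S one_ne_zero fun g hg => by rw [tw_one, hS, hP g hg]
  rw [hS] at h1 h2
  have P2 : P ≠ T2 := fun k => x0 (congrArg xco k)
  refine ⟨kA 1 P, α, β, ?_, h1, ?_, S, fun g hg => by rw [← h3 g hg, tw_one]⟩
  · rw [kA]
    by_cases k : P = 0 ∨ P = T1
    · refine .inl ⟨if_pos k, ?_⟩
      have k1 : x = -9 / 4 := congrArg xco (k.resolve_left P0)
      rw [k1]
      norm_num
    · exact .inr (by rw [if_neg k, Int.cast_one, one_mul]; rfl)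
  · rwa [kB, if_neg P0, if_neg P2, Int.cast_one, one_mul] at h2

theorem taj_two (hw : w.p = 2) : w.V 2 < 1 := by
  have h := b2a_p_lt w
  rwa [hw, Nat.cast_ofNat] at h

theorem taj_three (hw : w.p = 2) : w.V 3 = 1 := by
  have h := r0_one w (taj_two hw)
  rwa [show (1 : Qbar) + 2 = 3 by norm_num] at h

theorem kl_unit (hd : DescStmt) (hw : w.p = 2) (hD : D ≤ Dec w) {u : Qbar} (hu : w.V u = 1)
    (h : Kum 1 D u β) : KL D 0 β := by
  obtain ⟨N, hN, h1⟩ := w.exists_pow hu.le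
  obtain ⟨k, hk⟩ : ∃ k, w.p ^ N = 2 * k + 2 := by
    obtain ⟨M, rfl⟩ := Nat.exists_eq_add_of_lt hN
    refine ⟨2 ^ M - 1, ?_⟩
    have := Nat.one_le_two_pow (n := M)
    rw [hw, zero_add, pow_succ]
    omega
  have uf := h.fx.2
  obtain ⟨v, hv⟩ : ∃ v, v = u * (u ^ k) ^ 2 := ⟨_, rfl⟩
  have kf : Fx D (u ^ k) := fun g hg => by rw [map_pow, uf g hg]
  have vf : Fx D v := fun g hg => by rw [hv, map_mul, map_pow, kf g hg, uf g hg]
  have v1 : w.V v = 1 := by simp [hv, hu]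
  have v2 : w.V (1 - v) < 1 := by
    rwa [hk, show u ^ (2 * k + 2) - u = -u * (1 - v) by rw [hv]; ring, map_mul, w.V.map_neg, hu,
      one_mul] at h1
  by_cases v3 : v = 1
  · refine taj_congr (α := 0) (β := 0) ⟨0, fun g _ => by simp⟩ (fun _ _ => rfl) fun g hg => ?_
    exact (taj_uniq h taj_one kf (v3 ▸ hv) g hg).symm
  have v4 : 1 - v ≠ 0 := sub_ne_zero.2 (Ne.symm v3)
  have v0 : v ≠ 0 := fun k => by simp [k] at v1
  obtain ⟨x, hx⟩ : ∃ x, x = v * (3 / (1 - v)) ^ 2 := ⟨_, rfl⟩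
  have zf : Fx D (3 / (1 - v)) := fun g hg => by
    rw [map_div₀, map_sub, vf g hg, map_one, map_ofNat]
  have xf : Fx D x := fun g hg => by rw [hx, map_mul, map_pow, zf g hg, vf g hg]
  have x0 : x ≠ 0 := hx ▸ mul_ne_zero v0 (pow_ne_zero _ (div_ne_zero three_ne_zero v4))
  have x1 : w.V x⁻¹ < 1 := by
    rw [hx, map_inv₀, map_mul, map_pow, map_div₀, v1, taj_three hw, one_mul, one_div, inv_pow,
      inv_inv]
    exact pow_lt_one₀ zero_le v2 two_ne_zero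
  obtain ⟨r, rf, r1, -⟩ := exists_sqrt hD (a := 1 - 4 * x⁻¹)
    (fun g hg => by rw [map_sub, map_mul, map_inv₀, xf g hg, map_one, map_ofNat]) (by
      rw [sub_sub_cancel_left, w.V.map_neg, map_mul]
      exact mul_lt_of_lt_one_right (b3a_pos w (by norm_num)) x1)
  have sf : Fx D (3 / (1 - v) * (1 + v)) := fun g hg => by
    rw [map_mul, zf g hg, map_add, vf g hg, map_one]
  have s1 : 4 * x + 9 = (3 / (1 - v) * (1 + v)) ^ 2 := by
    rw [hx]
    field_simp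
    ring
  obtain ⟨a, α', β', ha, h2, h3, h4⟩ := taj_pt hd xf (t := x * r * (3 / (1 - v) * (1 + v)))
    (fun g hg => by rw [map_mul, map_mul, xf g hg, rf g hg, sf g hg]) x0 (by
      rw [mul_pow, mul_pow, r1, ← s1]
      field_simp)
  refine taj_congr h4 (fun g hg => ?_) fun g hg => ?_
  · rcases ha with ⟨rfl, -⟩ | rfl
    · exact taj_uniq h2 taj_one (z := 1) (fun g _ => map_one g) (by ring) g hg
    · exact (taj_uniq taj_one h2 sf (by rw [one_mul, s1]) g hg).symm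
  · refine (taj_uniq h h3 (z := u ^ k * (3 / (1 - v)))
      (fun g hg => by rw [map_mul, kf g hg, zf g hg]) ?_ g hg).symm
    rw [hx, mul_pow, ← mul_assoc, ← hv]

theorem taj_ine (hn : n % 8 = 3) (hw : w.p = 2) : Ine w ≤ GK n := fun _ hg =>
  B4c_mem.2 (chi_ine_two hw (by omega) hg)

theorem exists_unr (hd : DescStmt) (hn : n % 8 = 3) (hw : w.p = 2) :
    ∃ (α₀ : Gam → ZMod (2 ^ 1)) (u : Qbar), KL (GK n ⊓ Dec w) α₀ 0 ∧ w.V u = 1 ∧
      Kum 1 (GK n ⊓ Dec w) u α₀ ∧ (∀ σ ∈ Ine w, α₀ σ = 0) ∧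
        ∀ φ, IsFrob w 2 φ → φ * φ ∈ GK n ⊓ Dec w ∧ α₀ (φ * φ) = 1 := by
  obtain ⟨z, hz⟩ : ∃ z, z = (-1 + rt (-3)) / 2 := ⟨_, rfl⟩
  have z1 : z ^ 2 + z + 1 = 0 := by
    have := rt_sq (-3)
    push_cast at this
    rw [hz]
    linear_combination this / 4
  have zf : Fx (GK n ⊓ Dec w) z := fun g hg => by
    have h1 := chi_dec_two (a := -3 * -n) hw (by omega) hg.2
    rw [chi_mul (by norm_num) (by omega), B4c_mem.1 hg.1, mul_one, chi_eq_one] at h1
    rw [hz, map_div₀, map_add, h1, map_neg, map_one, map_ofNat]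
  have z0 : z ≠ 0 := by
    rintro rfl
    simp at z1
  have zi : z ∈ w.V.integer := r0_quad w (one_mem _) (by
    rw [show z ^ 2 + 1 * z = -1 by linear_combination z1]
    exact neg_mem (one_mem _))
  have t2 := taj_two hw
  obtain ⟨r, rf, r1, -⟩ := exists_sqrt (D := GK n ⊓ Dec w) inf_le_right
    (a := 1 - 4 * (2 * (4 + 5 * z) / 3))
    (fun g hg => by simp only [map_sub, map_mul, map_div₀, map_add, zf g hg, map_one, map_ofNat])
    (by
      rw [sub_sub_cancel_left, w.V.map_neg, map_mul]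
      refine mul_lt_of_lt_one_right (b3a_pos w (by norm_num)) ?_
      rw [map_div₀, taj_three hw, div_one]
      exact r0_mul w t2 (add_mem (ofNat_mem _ 4) (mul_mem (ofNat_mem _ 5) zi)))
  have u1 : w.V (4 * z + 9) = 1 := by
    rw [show 4 * z + 9 = 1 + 2 * (2 * z + 4) by ring]
    exact r0_one w (r0_mul w t2 (add_mem (mul_mem (ofNat_mem _ 2) zi) (ofNat_mem _ 4)))
  obtain ⟨a, α', β', ha, h2, h3, h4⟩ := taj_pt hd zf (t := z * (1 + 2 * z) * r)
    (fun g hg => by simp only [map_mul, map_add, zf g hg, rf g hg, map_one, map_ofNat]) z0 (by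
      rw [mul_pow, r1]
      linear_combination (-(160 / 3) * z ^ 3 - 116 / 3 * z ^ 2 + 36 * z) * z1)
  obtain rfl : a = 4 * z + 9 := ha.resolve_left fun k => by simp [k.2] at u1
  have h2' := h2
  obtain ⟨q, -, q1, q2⟩ := h2'
  rw [pow_one] at q1
  have q3 : w.V q = 1 := by
    rwa [← q1, map_pow, pow_eq_one_iff_of_nonneg zero_le two_ne_zero] at u1
  obtain ⟨s, hs⟩ : ∃ s, s = (q - 1) / 2 := ⟨_, rfl⟩
  have s1 : s ^ 2 + 1 * s = z + 2 := by
    rw [hs]
    linear_combination q1 / 4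
  have si : s ∈ w.V.integer := r0_quad w (one_mem _) (s1 ▸ add_mem zi (ofNat_mem _ 2))
  refine ⟨α', _, taj_congr h4 (fun _ _ => rfl) fun g hg => ?_, u1, h2, fun σ hσ => ?_,
    fun φ hφ => ?_⟩
  · refine (taj_uniq taj_one h3 (z := z ^ 2) (fun g hg => by rw [map_pow, zf g hg]) ?_ g hg).symm
    linear_combination (z - z ^ 2) * z1
  · refine (b3b_two _).resolve_right fun k => ?_
    have h5 := q2 σ ⟨taj_ine hn hw hσ, Ine_le w hσ⟩
    rw [k, b3b_neg] at h5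
    have h6 := hσ.2 s si
    rw [show σ s - s = -q by
      rw [hs, map_div₀, map_sub, h5, map_one, map_ofNat]; ring, w.V.map_neg, q3] at h6
    exact h6.false
  · have h5 : φ * φ ∈ GK n ⊓ Dec w :=
      ⟨B4c_mem.2 (by rw [map_mul, Int.units_mul_self]), mul_mem hφ.1 hφ.1⟩
    refine ⟨h5, (b3b_two _).resolve_left fun k => ?_⟩
    have h6 := q2 _ h5
    rw [k, ZMod.val_zero, pow_zero, mul_one] at h6
    have h7 := (hφ.mul hφ).2 s si
    rw [show (φ * φ) s = s by rw [hs, map_div₀, map_sub, h6, map_one, map_ofNat],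
      w.V.map_sub_swap, show s ^ (2 * 2) - s = 1 + 2 * (2 * z + 2 - (z + 3) * s) by
        linear_combination (s ^ 2 - s + z + 3) * s1 + z1, r0_one w (r0_mul w t2 ?_)] at h7
    · exact h7.false
    · exact sub_mem (add_mem (mul_mem (ofNat_mem _ 2) zi) (ofNat_mem _ 2))
        (mul_mem (add_mem zi (ofNat_mem _ 3)) si)

theorem kum2_mpr (hd : DescStmt) (hn : n % 8 = 3) (hw : w.p = 2) (h1 : Sm (GK n ⊓ Dec w) α)
    (h2 : IsHom (GK n ⊓ Dec w) α) (h3 : ∀ σ ∈ Ine w, α σ = 0) {u : Qbar} (hu : w.V u = 1)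
    (h : Kum 1 (GK n ⊓ Dec w) u β) : KL (GK n ⊓ Dec w) α β := by
  obtain ⟨α₀, u₀, k1, -, k2, k3, k4⟩ := exists_unr hd hn hw
  obtain ⟨φ, hφ⟩ := exists_frob w
  have hφ2 : IsFrob w 2 φ := hw ▸ hφ
  have φ1 : φ ∉ GK n := fun k => by
    have h4 := chi_dec_two (a := 5 * -n) hw (by omega) hφ.1
    rw [chi_mul (by norm_num) (by omega), B4c_mem.1 k, mul_one, chi_frob_two hw hφ2] at h4
    exact absurd h4 (by decide)
  obtain ⟨φ2, φ3⟩ := k4 φ hφ2
  have key : ∀ g ∈ GK n ⊓ Dec w, α g = α (φ * φ) * α₀ g := by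
    intro g hg
    obtain ⟨U, hU, -, h4⟩ := h1.comp₂ k2.sm fun a b => a - α (φ * φ) * b
    obtain ⟨k, σ, hσ, h5, -⟩ := dec_gen_inert hφ φ1 (taj_ine hn hw) hg hU
    have σ1 : σ ∈ GK n ⊓ Dec w := ⟨taj_ine hn hw hσ, Ine_le w hσ⟩
    have h6 : ∀ k : ℕ, α ((φ * φ) ^ k * σ) - α (φ * φ) * α₀ ((φ * φ) ^ k * σ) = 0 := by
      intro k
      induction k with
      | zero => rw [pow_zero (φ * φ), one_mul, h3 σ hσ, k3 σ hσ, mul_zero, sub_zero]
      | succ k ih =>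
        have m := mul_mem (pow_mem φ2 k) σ1
        rw [pow_succ' (φ * φ) k, mul_assoc _ _ σ, h2 _ φ2 _ m, b3b_hom k2 _ φ2 _ m, φ3]
        linear_combination ih
    exact sub_eq_zero.1 ((h4 _ (mul_mem (pow_mem φ2 k) σ1) g hg h5).symm.trans (h6 k))
  have h4 := kl_unit hd hw inf_le_right hu h
  rcases b3b_two (α (φ * φ)) with k | k
  · exact taj_congr h4 (fun g hg => by rw [key g hg, k, zero_mul]; rfl) fun _ _ => rfl
  · exact taj_congr (taj_add k1 h4) (fun g hg => by rw [key g hg, k, one_mul]; exact add_zero _)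
      fun _ _ => zero_add _

end Pool.Agent.Lib.MP_696deb_nt.B2
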