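import Pool.Agent.Lib.MP_696deb_nt.B2.Ctx
import Pool.Agent.Lib.MP_696deb_nt.B2.MU1
import Pool.Agent.Lib.MP_696deb_nt.Redei

/-! The primes of the horizontal tower. -/

set_option autoImplicit false

open scoped NNReal Classical
open Finset NumberTheorySymbols

namespace Pool.Agent.Lib.MP_696deb_nt.B2

variable {d d' a b : ℤ} {n : ℕ}

theorem tw_mod4 {m : ℕ} (h0 : m ≠ 0) (h : ∀ q : ℕ, q.Prime → q ∣ m → q % 4 = 1) : m % 4 = 1 := by
  induction m using Nat.recOnMul with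
  | zero => exact absurd rfl h0
  | one => rfl
  | prime p hp => exact h p hp dvd_rfl
  | mul x y hx hy =>
    rw [Nat.mul_mod, hx (left_ne_zero_of_mul h0) fun q hq k => h q hq (k.mul_right y),
      hy (right_ne_zero_of_mul h0) fun q hq k => h q hq (k.mul_left x)]

theorem Ctx.m4 (hc : Ctx d d' n a b) : n % 4 = 3 := hc.nok.good.mod4

theorem Ctx.pos (hc : Ctx d d' n a b) : 0 < n := by
  have := hc.m4
  omega

theorem Ctx.b_pos (hc : Ctx d d' n a b) : 0 < b := by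
  have h1 := hc.ab
  have h2 := hc.neg
  have h3 : (0 : ℤ) < n := by exact_mod_cast hc.pos
  by_contra k
  nlinarith

theorem Ctx.mod_of_dvd (hc : Ctx d d' n a b) {c : ℤ} (h : c ∣ b) : c.natAbs % 4 = 1 :=
  tw_mod4 (Int.natAbs_ne_zero.2 (ne_zero_of_dvd_ne_zero hc.b_pos.ne' h)) fun q hq k =>
    hc.b4 q hq ((Int.natCast_dvd.2 k).trans h)

theorem Ctx.b_mod (hc : Ctx d d' n a b) : b % 4 = 1 := by
  have := hc.mod_of_dvd dvd_rfl
  have := hc.b_pos
  omega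

theorem Ctx.a_mod (hc : Ctx d d' n a b) : a % 4 = 1 := by
  have h1 : a * b % 4 = 1 := by
    have := hc.m4
    rw [hc.ab]
    omega
  rwa [Int.mul_emod, hc.b_mod, mul_one, Int.emod_emod_of_dvd _ dvd_rfl] at h1

theorem Ctx.d'_mod (hc : Ctx d d' n a b) : d' % 4 = 1 := by
  have h1 : d * d' % 4 = 1 := by
    have := hc.m4
    rw [hc.mul]
    omega
  rwa [Int.mul_emod, hc.d4, one_mul, Int.emod_emod_of_dvd _ dvd_rfl] at h1

theorem Ctx.sqf (hc : Ctx d d' n a b) : Squarefree (a * b) :=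
  Int.squarefree_natAbs.1 (by simpa [hc.ab] using hc.nok.good.sqf)

theorem Ctx.cop (hc : Ctx d d' n a b) : IsCoprime a b :=
  (squarefree_mul_iff.1 hc.sqf).1.isCoprime

theorem Ctx.a_dvd (hc : Ctx d d' n a b) : a ∣ n := dvd_neg.1 ⟨b, hc.ab.symm⟩

theorem Ctx.b_dvd (hc : Ctx d d' n a b) : b ∣ n := dvd_neg.1 (hc.ab ▸ dvd_mul_left b a)

theorem Ctx.dvd_or (hc : Ctx d d' n a b) {p : ℕ} (hp : p.Prime) (h : (p : ℤ) ∣ n) :
    (p : ℤ) ∣ a ∨ (p : ℤ) ∣ b :=
  (Nat.prime_iff_prime_int.1 hp).dvd_or_dvd (hc.ab ▸ dvd_neg.2 h)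

theorem Ctx.m15 (hc : Ctx d d' n a b) : ¬ 3 ∣ n ∧ ¬ 5 ∣ n :=
  ⟨fun h => absurd (Nat.dvd_gcd h (by norm_num : 3 ∣ 15)) (by rw [hc.nok.good.cop]; norm_num),
    fun h => absurd (Nat.dvd_gcd h (by norm_num : 5 ∣ 15)) (by rw [hc.nok.good.cop]; norm_num)⟩

/-- A prime that divides the discriminant is prime to thirty. -/
theorem Ctx.not_dvd30 (hc : Ctx d d' n a b) {p : ℕ} (hp : p.Prime) (h : (p : ℤ) ∣ n) :
    ¬ p ∣ 30 := fun k => by
  have h1 := hc.m15
  have h2 := hc.m4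
  have h3 : p ∣ n := Int.natCast_dvd_natCast.1 h
  have h4 := Nat.le_of_dvd (by norm_num) k
  interval_cases p <;> simp_all (config := { decide := true })
  omega

theorem tw_crt {m m' : ℤ} (h : IsCoprime m m') (r r' : ℤ) : ∃ x, m ∣ x - r ∧ m' ∣ x - r' := by
  obtain ⟨u, v, e⟩ := h
  exact ⟨r * (v * m') + r' * (u * m), ⟨u * (r' - r), by linear_combination r * e⟩,
    ⟨v * (r - r'), by linear_combination r' * e⟩⟩

theorem tw_cop {m x r : ℤ} (h : IsCoprime r m) (k : m ∣ x - r) : IsCoprime x m := by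
  obtain ⟨c, e⟩ := k
  rw [eq_add_of_sub_eq' e]
  exact h.add_mul_left_left c

theorem tw_prime (hc : Ctx d d' n a b) (s B : ℕ) : ∃ l : ℕ, l.Prime ∧ B < l ∧ 2 ^ s ∣ l + 1 ∧
    (n : ℤ) ∣ l + (a + b) ∧ (15 : ℤ) ∣ l - 7 * a := by
  have h4 := hc.m4
  have n15 : IsCoprime (n : ℤ) 15 := Nat.isCoprime_iff_coprime.2 hc.nok.good.cop
  have n2 : IsCoprime (n : ℤ) 2 :=
    Nat.isCoprime_iff_coprime.2 (Nat.coprime_two_right.2 (Nat.odd_iff.2 (by omega)))
  have c1 : IsCoprime ((2 : ℤ) ^ s) (n * 15) :=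
    (n2.symm.mul_right ⟨8, -1, by norm_num⟩).pow_left
  obtain ⟨x, x1, x2⟩ := tw_crt n15 (-(a + b)) (7 * a)
  obtain ⟨y, y1, y2⟩ := tw_crt c1 (-1) x
  have c2 : IsCoprime (-(a + b)) (n : ℤ) := by
    rw [← IsCoprime.neg_right_iff, ← hc.ab]
    refine (IsCoprime.mul_right ?_ ?_).neg_left
    · simpa [add_comm] using hc.cop.symm.add_mul_left_left 1
    · simpa using hc.cop.add_mul_left_left 1
  have c3 : IsCoprime (7 * a) 15 :=
    IsCoprime.mul_left ⟨-2, 1, by norm_num⟩ (n15.of_isCoprime_of_dvd_left hc.a_dvd)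
  obtain ⟨l, l1, l2, l3⟩ := Nat.forall_exists_prime_gt_and_zmodEq B (q := 2 ^ s * (n * 15)) (a := y)
    (by have := hc.pos; positivity) (by
      push_cast
      exact (tw_cop isCoprime_one_left.neg_left y1).mul_right
        (tw_cop ((tw_cop c2 x1).mul_right (tw_cop c3 x2)) y2))
  have l4 := l3.symm.dvd
  push_cast at l4
  have l5 := dvd_add ((dvd_mul_left _ _).trans l4) y2
  refine ⟨l, l2, l1, ?_, ?_, ?_⟩
  · have := dvd_add ((dvd_mul_right _ _).trans l4) y1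
    rw [show (l : ℤ) - y + (y - -1) = l + 1 by ring] at this
    exact_mod_cast this
  · exact (dvd_add ((dvd_mul_right _ _).trans l5) x1).trans (dvd_of_eq (by ring))
  · exact (dvd_add ((dvd_mul_left _ _).trans l5) x2).trans (dvd_of_eq (by ring))

theorem tw_jac {x y : ℤ} {p : ℕ} (h : (p : ℤ) ∣ x - y) : J(x | p) = J(y | p) :=
  jacobiSym.mod_left' (Int.modEq_iff_dvd.2 h).symm

theorem tw_inert (hc : Ctx d d' n a b) {l : ℕ} (l4 : l % 4 = 3) (h : (n : ℤ) ∣ l + (a + b)) :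
    J(-n | l) = -1 := by
  obtain ⟨A, rfl⟩ := Int.exists_eq_neg_ofNat hc.neg.le
  obtain ⟨C, rfl⟩ := Int.eq_ofNat_of_zero_le hc.b_pos.le
  have a4 := hc.a_mod
  have b4 := hc.b_mod
  have A4 : A % 4 = 3 := by omega
  have C4 : C % 4 = 1 := by omega
  have oA : Odd A := Nat.odd_iff.2 (by omega)
  have e : n = A * C := by
    have := hc.ab
    zify
    linear_combination this
  have e1 : J(l | A) = J(-C | A) := tw_jac
    ((dvd_add ((neg_dvd.1 hc.a_dvd).trans h) (dvd_refl (A : ℤ))).trans (dvd_of_eq (by ring)))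
  have e2 : J(l | C) = J(A | C) := tw_jac
    ((dvd_sub (hc.b_dvd.trans h) (dvd_refl (C : ℤ))).trans (dvd_of_eq (by ring)))
  have e3 := jacobiSym.sq_one (a := C) (b := A) (Int.isCoprime_iff_gcd_eq_one.1
    ((IsCoprime.neg_right_iff _ _).1 hc.cop.symm))
  rw [jacobiSym.neg _ (Nat.odd_iff.2 (by omega)), ZMod.χ₄_nat_three_mod_four l4,
    jacobiSym.quadratic_reciprocity_three_mod_four hc.m4 l4, e,
    jacobiSym.mul_right' _ (by omega) (by omega), e1, e2, jacobiSym.neg _ oA,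
    ZMod.χ₄_nat_three_mod_four A4, jacobiSym.quadratic_reciprocity_one_mod_four' oA C4]
  linear_combination -e3

/-- The exponent of the tower that belongs to the prime `l`. -/
noncomputable def HS.ex (S : HS n) (l s : ℕ) (g : Gam) : ZMod (2 ^ s) := (S.ν l s (S.ψ l g)).toAdd

theorem HS.ex_hom (S : HS n) {l : ℕ} (h : Adm n l) (s : ℕ) : IsHom (GK n) (S.ex l s) :=
  fun g hg k hk => by rw [HS.ex, S.mul l h g hg k hk, map_mul, toAdd_mul]; rfl

theorem HS.ex_sm (S : HS n) {l : ℕ} (h : Adm n l) (s : ℕ) : Sm (GK n) (S.ex l s) :=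
  (S.sm l h).comp fun x => (S.ν l s x).toAdd

theorem HS.ex_of (S : HS n) {l : ℕ} (s : ℕ) {g : Gam} (h : S.ψ l g = 1) : S.ex l s g = 0 := by
  rw [HS.ex, h, map_one, toAdd_one]

theorem HS.ex_sq (S : HS n) {l : ℕ} (h : Adm n l) (s : ℕ) {g : Gam} (hg : g ∉ GK n) :
    S.ex l s (g * g) = 0 := S.ex_of s (S.dih l h g hg)

theorem HS.ex_ine (S : HS n) {l : ℕ} (h : Adm n l) (s : ℕ) {w : Plc} (hw : ¬ w.p ∣ l) {σ : Gam}
    (hσ : σ ∈ GK n ⊓ Ine w) : S.ex l s σ = 0 := S.ex_of s (S.unr l w h hw σ hσ)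

/-- Conjugation by an element outside of the group of the quadratic field acts by inversion. -/
theorem HS.ex_conj (S : HS n) {l : ℕ} (h : Adm n l) (s : ℕ) {τ g : Gam} (hτ : τ ∉ GK n)
    (hg : g ∈ GK n) : S.ex l s (τ * g * τ⁻¹) = -S.ex l s g := by
  have h1 : τ * g ∉ GK n := fun k => hτ (by simpa using mul_mem k (inv_mem hg))
  have h2 := (normal_GK n).conj_mem g hg τ
  have h3 : τ⁻¹ ∉ GK n := fun k => hτ (by simpa using inv_mem k)
  have h4 := S.ex_sq h s h1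
  have h5 := mul_mem_GK hτ hτ
  rw [show τ * g * (τ * g) = τ * g * τ⁻¹ * (τ * τ * g) by group, S.ex_hom h s _ h2 _ (mul_mem h5 hg),
    S.ex_hom h s _ h5 _ hg, S.ex_sq h s hτ, zero_add] at h4
  exact eq_neg_of_add_eq_zero_left h4

theorem HS.ex_cc (S : HS n) {l : ℕ} (h : Adm n l) (hn : 0 < n) (s : ℕ) {g : Gam}
    (hg : g ∈ GK n) : S.ex l s (cc * g * cc) = -S.ex l s g := by
  simpa only [cc_inv] using S.ex_conj h s (cc_notMem hn) hg

theorem tw_hom_pow {H : Subgroup Gam} {A : Type*} [AddGroup A] {x : Gam → A} (h : IsHom H x)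
    {g : Gam} (hg : g ∈ H) (k : ℕ) : x (g ^ k) = k • x g := by
  induction k with
  | zero => rw [pow_zero, h.one, zero_smul]
  | succ k ih => rw [pow_succ, h _ (pow_mem hg k) _ hg, ih, succ_nsmul]

/-- A prime of the tower, with a place `w`, a Frobenius element `φ` and a generator `z` of
inertia. -/
structure TwP {n : ℕ} (S : HS n) (a b : ℤ) (s : ℕ) (w : Plc) (φ z : Gam) : Prop where
  adm : Adm n w.p
  nd30 : ¬ w.p ∣ 30
  nd : ¬ (w.p : ℤ) ∣ n
  dvd : 2 ^ (s + 1) ∣ w.p + 1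
  five : J(5 | w.p) = -1
  frob : IsFrob w w.p φ
  out : φ ∉ GK n
  ine : Ine w ≤ GK n
  gen : Gen w z
  ex_z : S.ex w.p s z = 1
  par : ∀ g ∈ GK n, (((S.ex w.p s g).val : ℕ) : ZMod 2) = xi (-(a * w.p)) g
  mud : MuD n a b (xi (-(a * w.p)))
  bad : ∀ (v : Plc) (f : Gam), v.p = 3 ∨ v.p = 5 → IsFrob v v.p f → xi (-(a * w.p)) f = 1

theorem tw_xi (hc : Ctx d d' n a b) {x : ℤ} (hx : x ≠ 0) {g : Gam} (hg : g ∈ GK n) :
    xi (a * x) g = xi (b * x) g := by
  have h := mem_GK.1 hg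
  rw [← hc.ab, xi_mul hc.neg.ne hc.b_pos.ne'] at h
  rw [xi_mul hc.neg.ne hx, xi_mul hc.b_pos.ne' hx, b4b_eq h]

/-- A character of the rational numbers that is unramified outside the discriminant and trivial
at the ramified primes of the quadratic field is trivial on the quadratic field. -/
theorem tw_genus (hc : Ctx d d' n a b) {χ : Gam → ZMod 2} (h1 : Sm ⊤ χ) (h2 : IsHom ⊤ χ)
    (h3 : ∀ w : Plc, ¬ (w.p : ℤ) ∣ n → ∀ σ ∈ Ine w, χ σ = 0)
    (h4 : ∀ w : Plc, (w.p : ℤ) ∣ n → ∀ g ∈ GK n ⊓ Dec w, χ g = 0) : ∀ g ∈ GK n, χ g = 0 := by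
  have m4 := hc.m4
  have sq := hc.nok.good.sqf
  obtain ⟨c, c1, c2, -, c4⟩ := quad_class (n := n) (Int.odd_iff.2 (by omega)) h1 h2 h3
  obtain ⟨c', e⟩ := dvd_neg.2 c1
  have sq' : Squarefree (c * c') := Int.squarefree_natAbs.1 (by simpa [← e] using sq)
  have c0 := left_ne_zero_of_mul sq'.ne_zero
  have c0' := right_ne_zero_of_mul sq'.ne_zero
  have c3 : c' % 4 = 1 := by
    have h1 : c * c' % 4 = 1 := by omega
    rwa [Int.mul_emod, c2, one_mul, Int.emod_emod_of_dvd _ dvd_rfl] at h1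
  have same : ∀ g ∈ GK n, xi c' g = xi c g := fun g hg => by
    have h := mem_GK.1 hg
    rw [e, xi_mul c0 c0'] at h
    exact b4b_eq h
  have key : ∀ x y : ℤ, x * y = -n → x % 4 = 1 → (∀ g ∈ GK n, xi x g = χ g) →
      ∀ p : ℕ, p.Prime → (p : ℤ) ∣ y → IsSquare (x : ZMod p) := fun x y e' x4 k p hp hy => by
    obtain ⟨w, rfl⟩ := exists_plc hp
    have : Fact w.p.Prime := ⟨hp⟩
    have hn : (w.p : ℤ) ∣ n := dvd_neg.1 (e' ▸ hy.mul_left x)
    obtain ⟨w2, s, s1, s2⟩ := exists_ine_notMem sq m4 hn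
    have nx : ¬ (w.p : ℤ) ∣ x := fun k2 => (Nat.prime_iff_prime_int.1 hp).not_isUnit
      ((Int.squarefree_natAbs.1 (by simpa [e'] using sq) : Squarefree (x * y)) _ (mul_dvd_mul k2 hy))
    refine ZMod.isSquare_of_jacobiSym_eq_one (jac_of_dec w2 nx fun g hg => ?_)
    by_cases k1 : g ∈ GK n
    · rw [k g k1, h4 w hn g ⟨k1, hg⟩]
    · have k2 := mul_mem_GK k1 s2
      have k3 := xi_hom x g s
      rw [xi_ine x4 nx s1, add_zero, k _ k2, h4 w hn _ ⟨k2, mul_mem hg (Ine_le w s1)⟩] at k3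
      exact k3.symm
  intro g hg
  rcases (condA_iff_condB sq m4).2 hc.nok.condB c c' e.symm c2
    (key c c' e.symm c2 fun g _ => (c4 g).symm)
    (key c' c (by rw [mul_comm, e]) c3 fun g hg => (same g hg).trans (c4 g).symm) with rfl | rfl
  · rw [c4, xi_one]
  · rw [c4, ← same g hg, xi_one]

theorem exists_tower (hq : QuadStmt) (hc : Ctx d d' n a b) (S : HS n) {s : ℕ} (hs : 0 < s)
    (B : ℕ) : ∃ (w : Plc) (φ z : Gam), B < w.p ∧ TwP S a b s w φ z := by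
  obtain ⟨l, hl, l1, l2, l3, l4⟩ := tw_prime hc (s + 1) (B + n + 30)
  obtain ⟨w, rfl⟩ := exists_plc hl
  obtain ⟨φ, hφ⟩ := exists_frob w
  have n0 := hc.pos
  have m4 := hc.m4
  have a4 := hc.a_mod
  have b4 := hc.b_mod
  have a0 := hc.neg
  have p4 : w.p % 4 = 3 := by
    have : 2 ^ 2 ∣ w.p + 1 := (pow_dvd_pow 2 (by omega)).trans l2
    omega
  have w2 : w.p ≠ 2 := by omega
  have p0 : (0 : ℤ) < w.p := by omega
  have nd30 : ¬ w.p ∣ 30 := fun k => by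
    have := Nat.le_of_dvd (by norm_num) k
    omega
  have nd : ¬ (w.p : ℤ) ∣ n := fun k => by
    have := Int.le_of_dvd (by omega) k
    omega
  have inert := tw_inert hc p4 l3
  have adm : Adm n w.p := ⟨hl.squarefree, fun q hq k => by
    obtain rfl := (Nat.prime_dvd_prime_iff_eq hq hl).1 k
    exact ⟨nd30, inert⟩⟩
  have hI := ine_le_GK' m4 nd
  have ea : ∀ x : ℤ, -(x * w.p) = x * -w.p := fun x => by ring
  have l0 : -(w.p : ℤ) ≠ 0 := by omega
  have m1 : ∀ x : ℤ, x % 4 = 1 → -(x * w.p) % 4 = 1 := fun x hx => by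
    rw [ea, Int.mul_emod, hx, show -(w.p : ℤ) % 4 = 1 by omega]
    rfl
  have ndv : ∀ (x : ℤ) (v : Plc), v.p ≠ w.p → ¬ (v.p : ℤ) ∣ x → ¬ (v.p : ℤ) ∣ -(x * w.p) :=
    fun x v h1 h2 k => ((Nat.prime_iff_prime_int.1 v.prime).dvd_or_dvd (dvd_neg.1 k)).elim h2
      fun k2 => h1 ((Nat.prime_dvd_prime_iff_eq v.prime hl).1 (Int.natCast_dvd_natCast.1 k2))
  have nab : ∀ v : Plc, (v.p : ℤ) ∣ a → ¬ (v.p : ℤ) ∣ b := fun v h1 h2 =>
    (Nat.prime_iff_prime_int.1 v.prime).not_isUnit (hc.sqf _ (mul_dvd_mul h1 h2))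
  have jsq : ∀ (x y : ℤ) (v : Plc), x + y = a + b → (v.p : ℤ) ∣ n → (v.p : ℤ) ∣ y →
      ¬ (v.p : ℤ) ∣ x → J(-(x * w.p) | v.p) = 1 := fun x y v e h1 h2 h3 => by
    rw [tw_jac (y := x ^ 2) ((dvd_sub (h2.mul_left x) ((h1.trans l3).mul_left x)).trans
      (dvd_of_eq (by rw [← e]; ring)))]
    exact jacobiSym.sq_one' (Int.isCoprime_iff_gcd_eq_one.1
      ((Nat.prime_iff_prime_int.1 v.prime).irreducible.coprime_iff_not_dvd.2 h3).symm)
  have dec : ∀ v : Plc, (v.p : ℤ) ∣ n → ∀ g ∈ GK n ⊓ Dec v, xi (-(a * w.p)) g = 0 := by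
    intro v hv g hg
    have v2 : v.p ≠ 2 := fun h => by rw [h] at hv; omega
    rcases hc.dvd_or v.prime hv with k | k
    · rw [ea, tw_xi hc l0 hg.1, ← ea]
      exact xi_dec v2 (jsq b a v (add_comm _ _) hv k (nab v k)) hg.2
    · exact xi_dec v2 (jsq a b v rfl hv k fun k2 => nab v k2 k) hg.2
  have s2 : 2 ∣ 2 ^ s := dvd_pow_self 2 hs.ne'
  let ξ : Gam → ZMod 2 := fun g => ZMod.castHom s2 (ZMod 2) (S.ex w.p s g)
  obtain ⟨e, e1, e2, e3, e4⟩ := hq n w.p ξ hc.nok.good hl.ne_zero (Nat.odd_iff.2 (by omega))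
    ((S.ex_sm adm s).comp _) (fun g hg k hk => by simp only [ξ, S.ex_hom adm s g hg k hk, map_add])
    (fun g hg => by simp only [ξ, S.ex_sq adm s hg, map_zero])
    fun v hv σ hσ => by simp only [ξ, S.ex_ine adm s hv hσ, map_zero]
  obtain ⟨τ, hτ⟩ := exists_gen w2
  have hu : IsUnit (S.ex w.p s τ) := S.ν_gen w s τ adm l2 hτ
  have dl : (w.p : ℤ) ∣ e := by
    by_contra k
    have k1 := hu.map (ZMod.castHom s2 (ZMod 2))
    exact k1.ne_zero ((e4 τ (hI hτ.1)).trans (xi_ine e3 k hτ.1))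
  obtain ⟨e', rfl⟩ := neg_dvd.2 dl
  have e0 := right_ne_zero_of_mul e1.ne_zero
  have e5 : e' ∣ n := (mul_dvd_mul_iff_left l0).1 (e2.trans (by
    rw [mul_comm]
    exact mul_dvd_mul_right (dvd_neg.2 dvd_rfl) _))
  have e6 : e' % 4 = 1 := by
    rwa [Int.mul_emod, show -(w.p : ℤ) % 4 = 1 by omega, one_mul,
      Int.emod_emod_of_dvd _ dvd_rfl] at e3
  have split : ∀ g, xi (-w.p * e') g = xi (-(a * w.p)) g + (xi e' g + xi a g) := fun g => by
    rw [ea, xi_mul l0 e0, xi_mul a0.ne l0]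
    linear_combination -mu1_two (xi a g)
  have par : ∀ g ∈ GK n, ξ g = xi (-(a * w.p)) g := fun g hg => by
    rw [e4 g hg, split, tw_genus hc (χ := fun g => xi e' g + xi a g)
      ((sm_xi e').comp₂ (sm_xi a) fun x y => x + y) (fun g _ k _ => by
        simp only [xi_hom]
        ring) (fun v hv σ hσ => by
        simp only [xi_ine e6 (fun k => hv (k.trans e5)) hσ,
          xi_ine a4 (fun k => hv (k.trans hc.a_dvd)) hσ, add_zero]) (fun v hv k hk => ?_) g hg,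
      add_zero]
    have k1 := split k
    rw [← e4 k hk.1, dec v hv k hk, zero_add] at k1
    rw [← k1]
    simp only [ξ, HS.ex, S.ν_ram w.p s v hl adm l2 (Int.natCast_dvd_natCast.1 hv) k hk, toAdd_one,
      map_zero]
  obtain ⟨u, hu⟩ := hu
  have ez : S.ex w.p s (τ ^ (u⁻¹ : (ZMod (2 ^ s))ˣ).val.val) = 1 := by
    rw [tw_hom_pow (S.ex_hom adm s) (hI hτ.1), nsmul_eq_mul, ZMod.natCast_zmod_val, ← hu,
      Units.inv_mul]
  have j5 : J(a | 5) = 1 := hc.a5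
  refine ⟨w, φ, _, by omega, adm, nd30, nd, l2, ?_, hφ, fun k => ?_, hI, ⟨pow_mem hτ.1 _, ?_⟩, ez,
    fun g hg => ?_, ⟨hc.nok.good.sqf, m4, hc.ab, fun g _ k _ => xi_hom _ g k, fun g _ => ?_,
      fun v hv g hg k => ?_, dec, fun c c1 c2 c3 => ?_, fun c c1 c2 c3 => ?_⟩, fun v f hv hf => ?_⟩
  · rw [show (5 : ℤ) = (5 : ℕ) from rfl, jacobiSym.quadratic_reciprocity_one_mod_four rfl
      (Nat.odd_iff.2 (by omega)), tw_jac (y := 7 * a) ((by norm_num : ((5 : ℕ) : ℤ) ∣ 15).trans l4),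
      jacobiSym.mul_left, j5]
    norm_num
  · have := chi_frob (mu0_ndvd w2 (by simpa using nd : ¬ (w.p : ℤ) ∣ -n)) hφ
    rw [inert, B4c_mem.1 k] at this
    simp at this
  · have k1 := par _ (hI (pow_mem hτ.1 (u⁻¹ : (ZMod (2 ^ s))ˣ).val.val))
    simp only [ξ, ez, map_one] at k1
    rw [← neg_mul, xi_mul (by omega) p0.ne', ← neg_one_mul a] at k1
    have k2 : xi (-1 * a) (τ ^ (u⁻¹ : (ZMod (2 ^ s))ˣ).val.val) = 0 :=
      xi_eq_zero.2 (chi_ine (mu0_ndvd w2 fun k => nd (by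
        simpa using (dvd_neg.2 k).trans (by simpa using hc.a_dvd))) (pow_mem hτ.1 _))
    rw [k2, zero_add] at k1
    exact xi_eq_one.1 k1.symm
  · rw [← par g hg]
    simp only [ξ, ZMod.castHom_apply, ZMod.natCast_val]
  · rw [xi_hom, xi_hom, add_right_comm, mu1_two, zero_add]
  · have vw : v.p ≠ w.p := fun h => nd (h ▸ hv)
    have k1 : g * cc ∉ GK n := fun h => cc_notMem n0 (by simpa using mul_mem (inv_mem hg) h)
    have k2 := xi_hom (-(a * w.p)) g cc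
    rw [xi_cc (by nlinarith), add_zero] at k2
    rw [← k2]
    by_cases k3 : (v.p : ℤ) ∣ a
    · refine iff_of_true ?_ k3
      have k4 := notMem_GK.1 k1
      have k5 := xi_ine (m1 b b4) (ndv b v vw (nab v k3)) k
      rw [← hc.ab, xi_mul a0.ne hc.b_pos.ne'] at k4
      rw [ea, xi_mul hc.b_pos.ne' l0] at k5
      rw [ea, xi_mul a0.ne l0]
      linear_combination k4 + k5 - mu1_two (xi b (g * cc))
    · rw [xi_ine (m1 a a4) (ndv a v vw k3) k]
      exact iff_of_false zero_ne_one k3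
  · have c0 := ne_zero_of_dvd_ne_zero a0.ne c1
    rcases c0.lt_or_gt with k | k
    · have := hc.m1 (-c) (by omega) (neg_dvd.2 c1) fun q hq k => by
        have q4 := hc.b4 q hq k
        rw [jacobiSym.neg _ (Nat.odd_iff.2 (by omega)), ZMod.χ₄_nat_one_mod_four q4, c3 q hq k,
          one_mul]
      omega
    · exact hc.m1 c k c1 c3
  · have := hc.mod_of_dvd c1
    exact hc.m2 c (by omega) c1 c3
  · have n15 := hc.m15
    have k1 : ¬ (v.p : ℤ) ∣ a := fun k => by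
      have := Int.natCast_dvd_natCast.1 (k.trans hc.a_dvd)
      rcases hv with h | h
      · exact n15.1 (h ▸ this)
      · exact n15.2 (h ▸ this)
    have k2 := chi_frob (mu0_ndvd (by omega) (ndv a v (by omega) k1)) hf
    have k3 : J(-(a * w.p) | v.p) = J(-7 | v.p) := by
      rw [tw_jac (y := -7 * a ^ 2) (((show (v.p : ℤ) ∣ 15 by
        rcases hv with h | h <;> rw [h] <;> norm_num).trans (l4.mul_left (-a))).trans
          (dvd_of_eq (by ring))), jacobiSym.mul_left, jacobiSym.sq_one'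
        (Int.isCoprime_iff_gcd_eq_one.1
          ((Nat.prime_iff_prime_int.1 v.prime).irreducible.coprime_iff_not_dvd.2 k1).symm), mul_one]
    have k4 : J(-7 | v.p) = -1 := by
      rcases hv with h | h <;> rw [h] <;> norm_num
    rw [k3, k4] at k2
    exact xi_eq_one.2 (Units.ext k2)

end Pool.Agent.Lib.MP_696deb_nt.B2
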