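import Pool.Agent.Lib.MP_696deb_nt.B2.LO1
import Pool.Agent.Lib.MP_696deb_nt.B2.LKc
import Pool.Agent.Lib.MP_696deb_nt.B2.TW2

/-! The twisted action on torsion points, corestriction, and counting lemmas. -/

set_option autoImplicit false

open scoped NNReal Classical
open Finset Matrix

namespace Pool.Agent.Lib.MP_696deb_nt.B2

/-- The points of order dividing `2 ^ m` in coordinates. -/
abbrev Vm (m : ℕ) : Type := Fin 2 → ZMod (2 ^ m)

/-- The twisted action in coordinates. -/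
noncomputable def tv (T : Tate) (d : ℤ) (m : ℕ) (g : Gam) : Vm m →+ Vm m :=
  (Matrix.mulVecLin ((chi d g : ℤ) • mred m (T.ρ g))).toAddMonoidHom

variable {T : Tate} {d : ℤ} {m n : ℕ} {g τ : Gam}

theorem tv_apply (x : Vm m) : tv T d m g x = (chi d g : ℤ) • (mred m (T.ρ g) *ᵥ x) :=
  smul_mulVec (chi d g : ℤ) (mred m (T.ρ g)) x

theorem emb_tv (x : Vm m) : T.emb m (tv T d m g x) = tw d g (T.emb m x) := by
  rw [tv_apply, map_zsmul, tw, T.smul]

theorem emb_kill (T : Tate) (x : Vm m) : 2 ^ m • T.emb m x = 0 := by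
  rw [← map_nsmul, show 2 ^ m • x = 0 from funext fun i => by simp, map_zero]

theorem Vm_kill (x : Vm m) : 2 ^ m • x = 0 := funext fun i => by simp

theorem card_Vm (m : ℕ) : Fintype.card (Vm m) = 4 ^ m := by
  rw [Fintype.card_fun, ZMod.card, Fintype.card_fin, ← pow_mul, mul_comm, pow_mul]
  rfl

theorem tv_two (T : Tate) (d : ℤ) (g : Gam) {P : EE} (h : 2 • P = 0) : tw d g P = P := by
  obtain ⟨x, rfl⟩ := T.surj 1 P h
  rw [tw, T.smul, T.mod2, one_mulVec]
  rcases Int.units_eq_one_or (chi d g) with e | e <;> rw [e]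
  · exact one_smul _ _
  · rw [Units.val_neg, Units.val_one, neg_one_smul]
    exact neg_eq_of_add_eq_zero_left (two_nsmul (T.emb 1 x) ▸ h)

theorem tv_pow (T : Tate) (d : ℤ) (g : Gam) (k : ℕ) {P : EE} (h : 2 ^ k • P = 0) :
    tw d (g ^ 2 ^ k) P = P := by
  induction k generalizing P with
  | zero => rw [show P = 0 by simpa using h, ← lkT_apply, map_zero]
  | succ k ih =>
    have h1 := ih (P := 2 • P) (by rw [smul_smul, ← pow_succ, h])
    have h2 : 2 • (tw d (g ^ 2 ^ k) P - P) = 0 := by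
      rw [smul_sub, ← lkT_apply, ← map_nsmul, lkT_apply, h1, sub_self]
    have h3 := tv_two T d (g ^ 2 ^ k) h2
    rw [← lkT_apply, map_sub, lkT_apply, lkT_apply] at h3
    rw [pow_succ, pow_mul, sq, lk_tw_mul, eq_add_of_sub_eq h3]
    rw [two_nsmul] at h2
    linear_combination (norm := abel1) h2

theorem act_tv (T : Tate) (d : ℤ) (m : ℕ) (D : Subgroup Gam) : Act D (tv T d m) where
  sm := (sm_chi d).comp₂ ((T.sm m).mono le_top) fun e A =>
    (Matrix.mulVecLin ((e : ℤ) • A)).toAddMonoidHom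
  one x := T.inj m (by rw [emb_tv, lk_tw_one])
  mul g _ h _ x := T.inj m (by rw [emb_tv, emb_tv, emb_tv, lk_tw_mul])
  two g _ := ⟨m, fun x => T.inj m (by rw [emb_tv, tv_pow T d g m (emb_kill T x)])⟩

section

variable {M : Type} [AddCommGroup M] {a : Gam → M →+ M} {c : Gam → M} {D : Subgroup Gam}

theorem Coc.nsmul (h : Coc D a c) (k : ℕ) : Coc D a (k • c) :=
  ⟨h.1.comp (k • ·), fun g hg u hu => by
    simp only [Pi.smul_apply, h.2 g hg u hu, smul_add, map_nsmul]⟩

/-- Corestriction from the quadratic field to the rational numbers. -/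
noncomputable def cor (n : ℕ) (τ : Gam) (a : Gam → M →+ M) (c : Gam → M) (g : Gam) : M :=
  if g ∈ GK n then c g + a τ (c (τ⁻¹ * g * τ)) else c (g * τ) + a τ (c (τ⁻¹ * g))

theorem cor_of_mem (hg : g ∈ GK n) : cor n τ a c g = c g + a τ (c (τ⁻¹ * g * τ)) := if_pos hg

theorem cor_of_notMem (hg : g ∉ GK n) : cor n τ a c g = c (g * τ) + a τ (c (τ⁻¹ * g)) := if_neg hg

theorem conj_GK (hg : g ∈ GK n) (τ : Gam) : τ⁻¹ * g * τ ∈ GK n := by
  simpa using (normal_GK n).conj_mem g hg τ⁻¹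

theorem cor_key (ha : Act ⊤ a) (h : Coc (GK n) a c) (r s t g u : Gam) (h1 : r⁻¹ * g * s ∈ GK n)
    (h2 : s⁻¹ * u * t ∈ GK n) :
    a r (c (r⁻¹ * (g * u) * t)) = a r (c (r⁻¹ * g * s)) + a g (a s (c (s⁻¹ * u * t))) := by
  rw [show r⁻¹ * (g * u) * t = r⁻¹ * g * s * (s⁻¹ * u * t) by group, h.2 _ h1 _ h2, map_add,
    ← ha.mul _ trivial _ trivial, ← ha.mul _ trivial _ trivial,
    show r * (r⁻¹ * g * s) = g * s by group]

theorem coc_cor (ha : Act ⊤ a) (h : Coc (GK n) a c) (hτ : τ ∉ GK n) : Coc ⊤ a (cor n τ a c) := by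
  have i : τ⁻¹ ∉ GK n := fun k => hτ (inv_mem_iff.1 k)
  refine ⟨?_, fun g _ u _ => ?_⟩
  · obtain ⟨U, u1, u2, u3⟩ := h.1
    have := normal_GK n
    refine ⟨U ⊓ GK n, u1.inf (op_GK n), inferInstance, fun g _ u _ e => ?_⟩
    have e1 : (g * τ)⁻¹ * (u * τ) ∈ U := by simpa [mul_assoc] using u2.conj_mem _ e.1 τ⁻¹
    have e2 : g ∈ GK n ↔ u ∈ GK n := by
      simpa using (mul_mem_cancel_right (H := GK n) (x := g⁻¹ * u) (y := g) e.2).symm
    by_cases hg : g ∈ GK n
    · have hu := e2.1 hg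
      rw [cor_of_mem hg, cor_of_mem hu, u3 g hg u hu e.1,
        u3 _ (conj_GK hg τ) _ (conj_GK hu τ) (by simpa [mul_assoc] using e1)]
    · have hu := mt e2.2 hg
      rw [cor_of_notMem hg, cor_of_notMem hu, u3 _ (mul_mem_GK hg hτ) _ (mul_mem_GK hu hτ) e1,
        u3 _ (mul_mem_GK i hg) _ (mul_mem_GK i hu) (by simpa [mul_assoc] using e.1)]
  have K := fun r s t => cor_key ha h r s t g u
  by_cases hg : g ∈ GK n <;> by_cases hu : u ∈ GK n
  · rw [cor_of_mem hg, cor_of_mem hu, cor_of_mem (mul_mem hg hu), h.2 g hg u hu,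
      K τ τ τ (conj_GK hg τ) (conj_GK hu τ), map_add]
    abel
  · have k := K τ τ 1 (conj_GK hg τ) (by simpa using mul_mem_GK i hu)
    rw [mul_one, mul_one] at k
    rw [cor_of_mem hg, cor_of_notMem hu, cor_of_notMem (mt (mul_mem_cancel_left hg).1 hu),
      mul_assoc, h.2 g hg _ (mul_mem_GK hu hτ), k, map_add]
    abel
  · have k := K 1 τ τ (by simpa using mul_mem_GK hg hτ) (conj_GK hu τ)
    simp only [inv_one, one_mul, ha.one] at k
    rw [cor_of_notMem hg, cor_of_mem hu, cor_of_notMem (mt (mul_mem_cancel_right hu).1 hg), k,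
      ← mul_assoc, h.2 _ (mul_mem_GK i hg) u hu, map_add, map_add, ← ha.mul τ trivial _ trivial,
      mul_inv_cancel_left]
    abel
  · have k := K 1 τ 1 (by simpa using mul_mem_GK hg hτ) (by simpa using mul_mem_GK i hu)
    have k' := K τ 1 τ (by simpa using mul_mem_GK i hg) (by simpa using mul_mem_GK hu hτ)
    simp only [inv_one, one_mul, mul_one, ha.one] at k k'
    rw [cor_of_notMem hg, cor_of_notMem hu, cor_of_mem (mul_mem_GK hg hu), k, k', map_add]
    abel

end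

/-- Cochains that are coboundaries for the twisted action on all points. -/
def LTv (T : Tate) (d : ℤ) (m : ℕ) (D : Subgroup Gam) (x : Gam → Vm m) : Prop :=
  ∃ S : EE, ∀ g ∈ D, T.emb m (x g) = tw d g S - S

variable {D : Subgroup Gam} {x : Gam → Vm m}

theorem LTv.nsmul (h : LTv T d m D x) (k : ℕ) : LTv T d m D (k • x) := by
  obtain ⟨S, h⟩ := h
  refine ⟨k • S, fun g hg => ?_⟩
  rw [Pi.smul_apply, map_nsmul, h g hg, smul_sub, ← lkT_apply, ← map_nsmul, lkT_apply]

theorem lt_cor {e : ℤ} {p : ℕ} (he : ∀ g ∈ GK n, chi e g = chi d g)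
    (h : ∀ w : Plc, w.p = p → LTv T d m (GK n ⊓ Dec w) x) {w : Plc} (hw : w.p = p) (τ : Gam) :
    LTv T e m (GK n ⊓ Dec w) (cor n τ (tv T e m) x) := by
  obtain ⟨S, hS⟩ := h w hw
  obtain ⟨S', hS'⟩ := h (τ⁻¹ • w) hw
  have k : ∀ g ∈ GK n, ∀ P, tw d g P = lkT e g P := fun g hg P => by rw [lkT_apply, tw, tw, he g hg]
  refine ⟨S + tw e τ S', fun g hg => ?_⟩
  rw [cor_of_mem hg.1, map_add, emb_tv, hS g hg, hS' _ ⟨conj_GK hg.1 τ, mem_Dec_smul.2 (by
    simpa [mul_assoc] using hg.2)⟩, k g hg.1, k _ (conj_GK hg.1 τ)]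
  simp only [← lkT_apply, map_sub, map_add]
  simp only [lkT_apply, ← lk_tw_mul, show τ * (τ⁻¹ * g * τ) = g * τ by group]
  abel

theorem lt_double (h : Coc D (tv T d m) x) (k : LTv T d m (GK n ⊓ D) x) : LTv T d m D (2 • x) := by
  obtain ⟨S, k⟩ := k
  obtain ⟨η, hη⟩ : ∃ η : Gam → EE, ∀ g, T.emb m (x g) = η g + (lkT d g S - S) :=
    ⟨fun g => T.emb m (x g) - (lkT d g S - S), fun g => (sub_add_cancel _ _).symm⟩
  have e0 : ∀ g ∈ GK n ⊓ D, η g = 0 := fun g hg => by
    have := hη g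
    rwa [k g hg, lkT_apply, right_eq_add] at this
  have e1 : ∀ g ∈ D, ∀ u ∈ D, η (g * u) = η g + lkT d g (η u) := fun g hg u hu => by
    have := congrArg (T.emb m) (h.2 g hg u hu)
    rw [map_add, emb_tv, hη, hη, hη, lkT_apply (g * u), lk_tw_mul] at this
    simp only [← lkT_apply, map_add, map_sub] at this
    linear_combination (norm := abel1) this
  by_cases hD : ∃ t ∈ D, t ∉ GK n
  · obtain ⟨t, t1, t2⟩ := hD
    have e2 : ∀ g ∈ D, g ∉ GK n → η g = η t := fun g hg h' => by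
      have i : t⁻¹ * g ∈ GK n ⊓ D :=
        ⟨mul_mem_GK (fun k => t2 (inv_mem_iff.1 k)) h', D.mul_mem (inv_mem t1) hg⟩
      have := e1 t t1 _ i.2
      rwa [mul_inv_cancel_left, e0 _ i, map_zero, add_zero] at this
    refine ⟨2 • S - η t, fun g hg => ?_⟩
    have e3 := e1 g hg t t1
    rw [Pi.smul_apply, map_nsmul, hη, ← lkT_apply, map_sub, map_nsmul]
    by_cases h' : g ∈ GK n
    · rw [e2 _ (mul_mem hg t1) (mt (mul_mem_cancel_left h').1 t2), e0 g ⟨h', hg⟩] at e3
      rw [e0 g ⟨h', hg⟩]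
      linear_combination (norm := abel1) -e3
    · rw [e0 _ ⟨mul_mem_GK h' t2, mul_mem hg t1⟩, e2 g hg h'] at e3
      rw [e2 g hg h']
      linear_combination (norm := abel1) -e3
  · refine ⟨2 • S, fun g hg => ?_⟩
    rw [Pi.smul_apply, map_nsmul, k g ⟨by_contra fun h' => hD ⟨g, hg, h'⟩, hg⟩, smul_sub,
      ← lkT_apply, ← map_nsmul, lkT_apply]

/-- A cocycle whose double is locally trivial at the finite places. -/
theorem hSel_of (h : Coc ⊤ (tv T d m) x) (k : ∀ w, LTv T d m (Dec w) (2 • x)) :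
    hSel d fun g => T.emb m ((2 • x) g) where
  sm := (h.nsmul 2).1.comp (T.emb m)
  coc g u := by rw [(h.nsmul 2).2 g trivial u trivial, map_add, emb_tv]
  loc := k
  inf := ⟨-T.emb m (x cc), by
    have := congrArg (T.emb m) (h.2 cc trivial cc trivial)
    rw [cc_mul_cc, h.lo_one (act_tv T d m ⊤), map_zero, map_add, emb_tv] at this
    rw [Pi.smul_apply, map_nsmul, ← lkT_apply, map_neg, lkT_apply]
    linear_combination (norm := abel1) -this⟩

/-- Counting along a map with controlled fibres. -/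
theorem card_fib {A B : Type*} [AddCommGroup A] {P : A → Prop} {K : ℕ}
    (hP : ∀ t : Finset A, (∀ x ∈ t, P x) → t.card ≤ K) (s : Finset A) (f : A → B)
    (h : ∀ x ∈ s, ∀ y ∈ s, f x = f y → P (x - y)) : s.card ≤ K * (s.image f).card := by
  refine card_le_mul_card_image s K fun b hb => ?_
  obtain ⟨y, hy, rfl⟩ := mem_image.1 hb
  rw [← card_image_of_injective _ (sub_left_injective (b := y))]
  refine hP _ fun z hz => ?_
  obtain ⟨x, hx, rfl⟩ := mem_image.1 hz
  exact h x (mem_filter.1 hx).1 y hy (mem_filter.1 hx).2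

theorem card_tors {A : Type*} [AddCommGroup A] (W : AddSubgroup A) {K : ℕ}
    (hW : ∀ t : Finset A, (∀ x ∈ t, x ∈ W ∧ 2 • x = 0) → t.card ≤ K) (b : ℕ) :
    ∀ t : Finset A, (∀ x ∈ t, x ∈ W ∧ 2 ^ b • x = 0) → t.card ≤ K ^ b := by
  induction b with
  | zero =>
    refine fun t h => card_le_one.2 fun x hx y hy => ?_
    rw [show x = 0 by simpa using (h x hx).2, show y = 0 by simpa using (h y hy).2]
  | succ b ih =>
    intro t h
    rw [pow_succ']
    refine (card_fib hW t (2 • ·) fun x hx y hy e => ⟨sub_mem (h x hx).1 (h y hy).1, by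
      rw [smul_sub, sub_eq_zero]; exact e⟩).trans (Nat.mul_le_mul_left _ (ih _ fun z hz => ?_))
    obtain ⟨x, hx, rfl⟩ := mem_image.1 hz
    exact ⟨nsmul_mem (h x hx).1 2, by rw [smul_smul, ← pow_succ, (h x hx).2]⟩

theorem card_inj_tors (T : Tate) {A : Type*} (b : ℕ) (t : Finset A) (f : A → EE)
    (h : ∀ x ∈ t, 2 ^ b • f x = 0) (k : Set.InjOn f t) : t.card ≤ 4 ^ b := by
  rw [← card_image_of_injOn k, ← card_Vm, ← card_univ]
  refine (card_le_card fun P hP => ?_).trans (card_image_le (f := T.emb b))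
  obtain ⟨x, hx, rfl⟩ := mem_image.1 hP
  obtain ⟨y, hy⟩ := T.surj b _ (h x hx)
  exact mem_image.2 ⟨y, mem_univ _, hy⟩

theorem hSel.add {ξ η : Gam → EE} (h : hSel d ξ) (k : hSel d η) : hSel d (ξ + η) where
  sm := h.sm.comp₂ k.sm (· + ·)
  coc g u := by
    simp only [Pi.add_apply, h.coc, k.coc, ← lkT_apply, map_add]
    abel
  loc w := by
    obtain ⟨S, hS⟩ := h.loc w
    obtain ⟨S', hS'⟩ := k.loc w
    refine ⟨S + S', fun g hg => ?_⟩
    simp only [Pi.add_apply, hS g hg, hS' g hg, ← lkT_apply, map_add]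
    abel
  inf := by
    obtain ⟨S, hS⟩ := h.inf
    obtain ⟨S', hS'⟩ := k.inf
    refine ⟨S + S', ?_⟩
    simp only [Pi.add_apply, hS, hS', ← lkT_apply, map_add]
    abel

/-- The number of Selmer cocycles that vanish at an element with few fixed points. -/
theorem cork_zero (T : Tate) (h : Cork d) : ∃ C : ℕ, ∀ (j b : ℕ) (g : Gam),
    (∀ x : Vm j, tv T d j g x = x → 2 ^ b • x = 0) → ∀ s : Finset (Gam → EE),
    (∀ ξ ∈ s, hSel d ξ ∧ (∀ g, 2 ^ j • ξ g = 0) ∧ ξ g = 0) → s.card ≤ 4 ^ b * C * 2 ^ j := by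
  obtain ⟨C, hC⟩ := h
  refine ⟨C, fun j b g hg s hs => ?_⟩
  have h1 := card_fib (A := (Gam → EE) × Vm j)
    (P := fun z => z.1 = -lkC d (T.emb j z.2) ∧ 2 ^ b • z.2 = 0) (K := 4 ^ b)
    (fun t ht => card_inj_tors T b t (fun z => T.emb j z.2)
      (fun z hz => by rw [← map_nsmul, (ht z hz).2, map_zero]) fun z hz y hy e =>
        Prod.ext (by rw [(ht z hz).1, (ht y hy).1]; exact congrArg (fun P => -lkC d P) e)
          (T.inj j e))
    (s ×ˢ univ) (fun z => z.1 + lkC d (T.emb j z.2)) fun z hz y hy e => by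
      refine ⟨funext fun u => ?_, hg _ (T.inj j ?_)⟩
      · have := congrFun e u
        simp only [Pi.add_apply, lkC, Prod.fst_sub, Prod.snd_sub, Pi.sub_apply, Pi.neg_apply,
          map_sub] at this ⊢
        linear_combination (norm := abel1) this
      · have := congrFun e g
        simp only [Pi.add_apply, lkC, (hs _ (mem_product.1 hz).1).2.2,
          (hs _ (mem_product.1 hy).1).2.2] at this
        rw [emb_tv, ← lkT_apply, Prod.snd_sub, map_sub, map_sub]
        linear_combination (norm := abel1) this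
  have h2 := hC j ((s ×ˢ univ).image fun z : (Gam → EE) × Vm j => z.1 + lkC d (T.emb j z.2))
    fun ξ hξ => by
      obtain ⟨z, hz, rfl⟩ := mem_image.1 hξ
      obtain ⟨k1, k2, -⟩ := hs _ (mem_product.1 hz).1
      refine ⟨k1.add (lkC_sel _), fun u => ?_⟩
      rw [Pi.add_apply, smul_add, k2, lkC_kill fun v => ?_, add_zero]
      rw [emb_kill, ← lkT_apply, map_zero]
  rw [card_product, card_univ, card_Vm] at h1
  refine Nat.le_of_mul_le_mul_right (h1.trans ((Nat.mul_le_mul_left _ h2).trans (le_of_eq ?_)))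
    (show 0 < 4 ^ j by positivity)
  rw [mul_assoc, mul_assoc, ← mul_pow]
  rfl

end Pool.Agent.Lib.MP_696deb_nt.B2
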