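import Pool.Agent.Lib.MP_696deb_nt.B2.MCF
import Pool.Agent.Lib.MP_696deb_nt.B2.MCH
import Pool.Agent.Lib.MP_696deb_nt.B2.MKR
import Pool.Agent.Lib.MP_696deb_nt.B2.MDE
import Pool.Agent.Lib.MP_696deb_nt.B2.MQU
import Pool.Agent.Lib.MP_696deb_nt.B2.MTA
import Pool.Agent.Lib.MP_696deb_nt.B2.MCM
import Pool.Agent.Lib.MP_696deb_nt.B2.MRD
import Pool.Agent.Lib.MP_696deb_nt.B2.MAX
import Pool.Agent.Lib.MP_696deb_nt.B2.MCO
import Pool.Agent.Lib.MP_696deb_nt.B2.MFI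

set_option autoImplicit false

open scoped Classical
open NumberTheorySymbols

namespace Pool.Agent.Lib.MP_696deb_nt.B2

theorem bsd_of_cork {d : ℤ} (h0 : Cls0 d)
    (h2 : J(-15 | d.natAbs) = 1 ∨ d < 0 ∧ (d % 60 = 1 ∨ d % 60 = 49)) (h : Cork d) :
    BSD (-12987 * d ^ 2) (-263466 * d ^ 3) (if J(-15 | d.natAbs) = 1 then 0 else 1) := by
  obtain ⟨F⟩ := m_cft
  obtain ⟨T⟩ := m_tate m_kron m_desc
  obtain ⟨d', n, a, b, hc, h'⟩ := m_aux m_desc h0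
  obtain ⟨r, hr⟩ := hc.nok.root
  obtain ⟨S, hL⟩ := m_hs F m_kron m_quad hc.nok hr
  obtain ⟨hy, hz⟩ := m_core F m_su m_li m_cheb T m_desc m_quad hc S (m_refDiv m_desc hc hr S hL) h h'
  exact m_final h0 h2 hc hr S hL h h' hy hz

theorem bsd_of_corank {d : ℤ} (h0 : Cls0 d)
    (h2 : J(-15 | d.natAbs) = 1 ∨ d < 0 ∧ (d % 60 = 1 ∨ d % 60 = 49))
    (h : Stmt.CorankLE (twist15 d) 1) :
    BSD (-12987 * d ^ 2) (-263466 * d ^ 3) (if J(-15 | d.natAbs) = 1 then 0 else 1) :=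
  bsd_of_cork h0 h2 (m_cork h0.sqf.ne_zero h)

end Pool.Agent.Lib.MP_696deb_nt.B2
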