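import Pool.Agent.Lib.MP_696deb_nt.B2.Top
import Pool.Agent.Lib.MP_696deb_nt.B2.MFJ

set_option autoImplicit false

open scoped Classical
open Finset NumberTheorySymbols

namespace Pool.Agent.Lib.MP_696deb_nt.B2

theorem core_data {d : ℤ} (h0 : Cls0 d) (h : Cork d) : ∃ (d' a b : ℤ) (n : ℕ) (r : ℤ) (S : HS n),
    Ctx d d' n a b ∧ 60 ∣ r ^ 2 + n ∧ S.Link r ∧ ¬ IsOfFinAddOrder (S.ychi d) := by
  obtain ⟨F⟩ := m_cft
  obtain ⟨T⟩ := m_tate m_kron m_desc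
  obtain ⟨d', n, a, b, hc, h'⟩ := m_aux m_desc h0
  obtain ⟨r, hr⟩ := hc.nok.root
  obtain ⟨S, hL⟩ := m_hs F m_kron m_quad hc.nok hr
  exact ⟨d', a, b, n, r, S, hc, hr, hL,
    (m_core F m_su m_li m_cheb T m_desc m_quad hc S (m_refDiv m_desc hc hr S hL) h h').1⟩

theorem bsd_all (hS : SmithStmt) {d : ℤ} (h0 : Cls0 d) (h : Cork d) :
    BSD (-12987 * d ^ 2) (-263466 * d ^ 3) (if J(-15 | d.natAbs) = 1 then 0 else 1) := by
  by_cases h2 : J(-15 | d.natAbs) = 1 ∨ d < 0 ∧ (d % 60 = 1 ∨ d % 60 = 49)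
  · exact bsd_of_cork h0 h2 h
  obtain ⟨d', a, b, n, r, S, hc, hr, hL, hy⟩ := core_data h0 h
  rw [not_or] at h2
  rw [if_neg h2.1]
  have h3 := (fi_split h0 hc hr S hL hy).2.1
  refine m_final2 hS (fun x x0 xJ hx => ?_) h0 ?_ h2.2 hc hr S hL h hy
  · obtain ⟨_, _, _, _, _, S, hc, hr, hL, hy⟩ := core_data x0 hx
    exact m_nv x0 xJ hc hr S hL hy
  · rcases jacobiSym.trichotomy (-15) d.natAbs with k | k | k
    · simp [k] at h3
    · exact absurd k h2.1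
    · exact k

end Pool.Agent.Lib.MP_696deb_nt.B2
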