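import Pool.Agent.Lib.MP_696deb_nt.B2.XTW
import Pool.Agent.Lib.MP_696deb_nt.B2.XLe

/-! The matrix action on the group of the quadratic field. -/

set_option autoImplicit false

open scoped NNReal Classical
open Finset Matrix NumberTheorySymbols PowerSeries

namespace Pool.Agent.Lib.MP_696deb_nt.B2

variable {T : Tate} {n k : ℕ} {lam w : Plc} {ψ : Gam → Lam} {Q : Finset Plc} {g : Gam}

/-- The reduction of two-adic integers. -/
noncomputable def cA (k : ℕ) : ℤ_[2] →+* Ak k := (Ideal.Quotient.mk (aa k k)).comp C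

/-- The matrix of an element. -/
noncomputable def mA (T : Tate) (ψ : Gam → Lam) (k : ℕ) (g : Gam) :
    Matrix (Fin 2) (Fin 2) (Ak k) := (rep T ψ g).map (Ideal.Quotient.mk (aa k k))

theorem mA_mulVec (x : Fin 2 → Ak k) : mA T ψ k g *ᵥ x = act T ψ (Ak k) g x := (act_quot x).symm

theorem xa_ext {A A' : Matrix (Fin 2) (Fin 2) (Ak k)} (h : ∀ x, A *ᵥ x = A' *ᵥ x) : A = A' :=
  Matrix.toLin'.injective (LinearMap.ext h)

theorem mA_eq : mA T ψ k g = ψ g • (T.ρ g).map (cA k) := by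
  ext i j
  exact map_mul (Ideal.Quotient.mk (aa k k)) (ψ g) (C (T.ρ g i j))

theorem mA_of {a : Lam} (h : ψ g - a ∈ aa k k) : mA T ψ k g = a • (T.ρ g).map (cA k) := by
  rw [mA_eq]
  ext i j
  exact (kil_Ak k).congr h _

theorem mA_one (h : ψ g - 1 ∈ aa k k) : mA T ψ k g = (cA k).mapMatrix (T.ρ g) := by
  rw [mA_of h, one_smul]
  rfl

theorem cA_mred {A A' : Matrix (Fin 2) (Fin 2) ℤ_[2]} (e : mred (k + 2) A = mred (k + 2) A') :
    A.map (cA k) = A'.map (cA k) := by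
  ext i j
  exact Ideal.Quotient.eq.2 (la_C_mem (congrFun (congrFun (la_mred_le (Nat.le_add_right k 2) e) i) j) k)

theorem cA_tau (T : Tate) : (cA k).mapMatrix (T.ρ cc) = tauM (Ak k) := by
  rw [T.conj]
  ext i j
  fin_cases i <;> fin_cases j <;> simp [tauM]

/-- The action as a homomorphism. -/
noncomputable def actK (T : Tate) (h : Chr n k lam ψ) : GK n →* Matrix (Fin 2) (Fin 2) (Ak k) where
  toFun g := mA T ψ k g
  map_one' := xa_ext fun x => by
    rw [mA_mulVec, one_mulVec]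
    exact (h.act T (kil_Ak k)).one x
  map_mul' g g' := xa_ext fun x => by
    rw [← mulVec_mulVec, mA_mulVec, mA_mulVec, mA_mulVec]
    exact (h.act T (kil_Ak k)).mul g g.2 g' g'.2 x

theorem actK_apply (h : Chr n k lam ψ) (g : GK n) : actK T h g = mA T ψ k g := rfl

theorem xa_dvd {r : ℕ} (hr : r ≤ 8) (u : ℤ_[2]ˣ) : cA k (2 ^ r * u) ∣ 2 ^ 8 := by
  refine ⟨cA k (2 ^ (8 - r) * ↑u⁻¹), ?_⟩
  rw [← map_mul, mul_mul_mul_comm, ← pow_add, Nat.add_sub_cancel' hr, Units.mul_inv, mul_one,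
    map_pow, map_ofNat]

theorem SOk.xa_z1 (h : SOk T n k lam ψ Q) : ∃ z : GK n, actK T h.chr z = (1 + X : Lam) • 1 ∧
    (1 + X : Lam) • actK T h.chr (thK n z) = 1 := by
  obtain ⟨z, hz, e⟩ := h.chr.gen
  have m := h.adm.ine hz.1
  have r := T.unr lam h.adm.nd30 z hz.1
  refine ⟨⟨z, m⟩, by rw [actK_apply, mA_of e, r, Matrix.map_one _ (map_zero _) (map_one _)], ?_⟩
  rw [actK_apply, thK_coe, mA_eq, map_mul, map_mul, r, mul_one, ← map_mul, cc_mul_cc, map_one,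
    Matrix.map_one _ (map_zero _) (map_one _), smul_smul]
  have e2 : (1 + X) * ψ (cc * z * cc) - 1 ∈ aa k k := by
    have := sub_mem (h.chr.conj h.nok.pos m) (Ideal.mul_mem_left _ (ψ (cc * z * cc)) e)
    rwa [show ψ (cc * z * cc) * ψ z - 1 - ψ (cc * z * cc) * (ψ z - (1 + X)) =
      (1 + X) * ψ (cc * z * cc) - 1 by ring] at this
  ext i j
  exact ((kil_Ak k).congr e2 _).trans (one_smul _ _)

theorem SOk.xa_fl (h : SOk T n k lam ψ Q) : (actK T h.chr (toK n (fq lam)) - 1).det ∣ 2 ^ 8 := by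
  obtain ⟨u, e1, e2⟩ := h.det_lam
  rw [actK_apply, toK_coe n h.adm.tm'.mem, mA_one e2, ← map_one (cA k).mapMatrix, ← map_sub,
    ← RingHom.map_det, e1, show (64 : ℤ_[2]) = 2 ^ 6 by norm_num]
  exact xa_dvd (by norm_num) u

theorem SOk.xa_ns (h : SOk T n k lam ψ Q) (v : Fin 2) (b : Bool) :
    mA T ψ k (nsg v b) = (cA k).mapMatrix (T.ρ (nsg v b)) := by
  refine mA_one (h.chr.unr (bq v b) (fun e => h.adm.nd30 ?_) _
    ⟨h.nok.nsg_mem v b, (gen_bq v b).1⟩)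
  rcases bq_or v b with e' | e' <;> rw [← e, e'] <;> norm_num

theorem SOk.xa_un (h : SOk T n k lam ψ Q) (v : Fin 2) :
    actK T h.chr (toK n (nsg v true)) = (cA k).mapMatrix (T.ρ (gn (bp v))) := by
  rw [actK_apply, toK_coe n (h.nok.nsg_mem v true)]
  exact h.xa_ns v true

theorem SOk.xa_sq (h : SOk T n k lam ψ Q) (v : Fin 2) :
    (actK T h.chr (toK n (nsg v true)) - 1) * (actK T h.chr (toK n (nsg v true)) - 1) = 0 := by
  rw [h.xa_un, ← map_one (cA k).mapMatrix, ← map_sub, ← map_mul, un_sq, map_zero]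

theorem SOk.xa_tr (h : SOk T n k lam ψ Q) : ((actK T h.chr (toK n (nsg 0 true)) - 1) *
    (actK T h.chr (toK n (nsg 1 true)) - 1)).trace ∣ 2 ^ 8 := by
  obtain ⟨u, e⟩ := un_tr T
  rw [h.xa_un, h.xa_un, ← map_one (cA k).mapMatrix, ← map_sub, ← map_sub, ← map_mul,
    RingHom.mapMatrix_apply, ← AddMonoidHom.map_trace (cA k), e,
    show (16 : ℤ_[2]) = 2 ^ 4 by norm_num]
  exact xa_dvd (by norm_num) u

theorem SOk.xa_th (h : SOk T n k lam ψ Q) (v : Fin 2) :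
    actK T h.chr (thK n (toK n (nsg v true))) =
      tauM _ * actK T h.chr (toK n (nsg v true)) * tauM _ := by
  rw [h.xa_un, actK_apply, thK_coe, toK_coe n (h.nok.nsg_mem v true), ← cA_tau T, ← map_mul,
    ← map_mul, ← map_mul, ← map_mul]
  exact h.xa_ns v false

variable {S : HS n}

theorem xa_QT (S : HS n) (e : ℤ) (v : Fin 2) (b : Bool) :
    (2 : Lam) ^ 8 ∈ Ideal.span {QQ (S.psi k lam e) v b, X} ⊔ aa k k := by
  refine Ideal.mem_sup_left ?_
  have key : ∀ (s : Lam) (r : ℕ) (p : Lam) (u y : Lam), IsUnit u → (s - p) * y = 2 ^ 8 * u →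
      (2 : Lam) ^ 8 ∈ Ideal.span {s * (1 + X) ^ r - p, X} := fun s r p u y hu e => by
    obtain ⟨u, rfl⟩ := hu
    obtain ⟨t, ht⟩ := sub_dvd_pow_sub_pow (1 + X : Lam) 1 r
    refine Ideal.mem_span_pair.2 ⟨y * ↑u⁻¹, -(s * t * y * ↑u⁻¹), ?_⟩
    have := u.mul_inv
    rw [one_pow] at ht
    linear_combination (s * y * ↑u⁻¹) * ht + (↑u⁻¹ : Lam) * e + 2 ^ 8 * this
  have u3 : IsUnit (3 : Lam) := by
    have : IsUnit (3 : ℤ_[2]) := by
      rw [PadicInt.isUnit_iff]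
      exact (PadicInt.norm_natCast_eq_one_iff (n := 3)).2 (by norm_num)
    simpa only [map_ofNat] using this.map (C (R := ℤ_[2]))
  rw [QQ, HS.psi, HS.Psi, ← mul_assoc]
  rcases Int.units_eq_one_or (S.gen e (S.pr 1 lam.p (S.ψ lam.p (ori b (fr (bp v)))))) with h | h <;>
    rw [h] <;> fin_cases v
  · exact key _ _ _ 1 (-64) isUnit_one (by simp; norm_num)
  · exact key _ _ _ 1 (-64) isUnit_one (by simp; norm_num)
  · exact key _ _ _ 1 (-128) isUnit_one (by simp; norm_num)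
  · exact key _ _ _ 3 (-128) u3 (by simp; norm_num)

theorem xa_scalar (hn : Nok n) (hl : Adm n lam.p) {e : ℤ} (h : Chr n k lam (S.psi k lam e)) :
    ∃ z : GK n, actK T h z = (33 : Ak k) • 1 ∧
      ∀ g : GK n, z * g * z⁻¹ * g⁻¹ ∈ (S.N T k lam).subgroupOf (GK n) := by
  obtain ⟨z, h1, h2, h3, h4⟩ := S.exists_scalar (T := T) (k := k) hn hl
  refine ⟨⟨z, h1⟩, ?_, fun g => h4 g g.2⟩
  have e1 : S.psi k lam e z - 1 ∈ aa k k := by simp [HS.psi, HS.Psi, h3]
  rw [actK_apply, mA_one e1, RingHom.mapMatrix_apply, cA_mred h2]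
  ext i j
  fin_cases i <;> fin_cases j <;> simp [map_ofNat]

end Pool.Agent.Lib.MP_696deb_nt.B2
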