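import Pool.Agent.Lib.MP_696deb_nt.B2.XSb
import Pool.Agent.Lib.MP_696deb_nt.B2.XSc
import Pool.Agent.Lib.MP_696deb_nt.B2.XLd
import Pool.Agent.Lib.MP_696deb_nt.B2.XLe

/-! Duality for the modules of the patching argument. -/

set_option autoImplicit false

open scoped NNReal Classical
open Finset Matrix NumberTheorySymbols PowerSeries

namespace Pool.Agent.Lib.MP_696deb_nt.B2

variable {T : Tate} {n k : ℕ} {lam w : Plc} {ψ : Gam → Lam} {Q : Finset Plc} {ty : Plc → Ty}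
  {R : Finset (Fin 5)} {B B' : Type} [AddCommGroup B] [Module Lam B] [AddCommGroup B']
  [Module Lam B'] {c : Gam → Fin 2 → B} {g : Gam}

theorem xsd_cob_smul (a : Lam) (x : Fin 2 → B) :
    cob (act T ψ B) (a • x) g = a • cob (act T ψ B) x g := by
  rw [cob, cob, act_smul, smul_sub]

theorem xsd_cob_sub (x y : Fin 2 → B) :
    cob (act T ψ B) (x - y) g = cob (act T ψ B) x g - cob (act T ψ B) y g := by
  rw [cob, cob, cob, map_sub]
  abel

theorem xsd_nu_map (f : B →ₗ[Lam] B') (v : Fin 2) (b : Bool) :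
    nu T v b (fun g i => f (c g i)) = f (nu T v b c) := by
  simp only [nu, map_sum, map_smul]

theorem xsd_nu_smul (a : Lam) (v : Fin 2) (b : Bool) : nu T v b (a • c) = a • nu T v b c := by
  simp only [nu, Pi.smul_apply, smul_comm _ a, smul_sum]

theorem xsd_coc (h : SOk T n k lam ψ Q) (hB : Kil k B) (hc : c ∈ SU T n lam ψ Q ty B)
    (D : Subgroup Gam) : Coc (GK n ⊓ D) (act T ψ B) c := by
  obtain ⟨⟨U, h1, h2, h3⟩, h4⟩ := ((h.mem_SU hB).1 hc).1.1
  exact ⟨⟨U, h1, h2, fun g hg g' hg' => h3 g hg.1 g' hg'.1⟩,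
    fun g hg g' hg' => h4 g hg.1 g' hg'.1⟩

theorem xsd_SU (h : SOk T n k lam ψ Q) (hB : Kil k B) {z : Co B}
    (hz : z ∈ SelB T n lam ψ ⟨R, Q, ty⟩ B) : z.1 ∈ SU T n lam ψ Q ty B := by
  obtain ⟨h1, h2, -, -, h3, h4⟩ := (h.mem_SelB hB).1 hz
  exact (h.mem_SU hB).2 ⟨h1, h2, h3, h4⟩

theorem xsd_tm (h : SOk T n k lam ψ Q) (hw : w ∈ Q) : Tm (GK n) w (w.p ^ 2) (fq w) (gn w) :=
  (h.deep w hw).adm.tm_gn h.nok

theorem xsd_res (hg : g ∈ GK n) (c : Gam → Fin 2 → B) : resK n _ c (toK n g) = c g :=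
  congrArg c (toK_coe n hg)

theorem xsd_triv (h : SOk T n k lam ψ Q) (hB : Kil k B) (hw : w ∈ Q) (hg : g ∈ GK n ⊓ Dec w)
    (x : Fin 2 → B) : rs (GK n) (cob (act T ψ B) x) g = 0 := by
  rw [rs_of_mem hg.1, cob, h.triv hB hw hg, sub_self]

theorem SOk.isoW (F : CFT) (h : SOk T n k lam ψ Q) (hw : w ∈ Q)
    (ht : ∀ v ∈ Q, v ≠ w → ty v = .tr) (o : Fin 2 → Bool) :
    IsoW (2 ^ 8 * QQ ψ 0 (!o 0) * QQ ψ 1 (!o 1)) (SS T n lam ψ k Q ty ⊓ OriK T n k o)
      (toK n (fq w)) (toK n (gn w)) := by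
  intro I hI c hc c' hc'
  rw [h.wk_ori hI] at hc hc'
  obtain ⟨c, ⟨hc, h0⟩, rfl⟩ := hc
  obtain ⟨c', ⟨hc', h0'⟩, rfl⟩ := hc'
  have hB := kil_quot hI
  have := finite_quot hI
  obtain ⟨B', _, _, _, β, hB', hβ⟩ := exists_perf hB
  have t := xsd_tm h hw
  simp only [xsd_res t.φ_mem.1, xsd_res t.τ_mem.1]
  refine hβ.left _ fun y => ?_
  let f : (Lam ⧸ I) →ₗ[Lam] B' := I.liftQ (LinearMap.toSpanSingleton Lam B' y) fun a ha =>
    hβ.right _ fun x => by
      obtain ⟨x, rfl⟩ := Ideal.Quotient.mk_surjective x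
      rw [LinearMap.toSpanSingleton_apply, ← hβ.bal, show a • Ideal.Quotient.mk I x = 0 from
        Ideal.Quotient.eq_zero_iff_mem.2 (I.mul_mem_right x ha), map_zero, AddMonoidHom.zero_apply]
  have hf : ∀ x z, β x (f z) = β (x * z) y := fun x z => by
    obtain ⟨z, rfl⟩ := Ideal.Quotient.mk_surjective z
    rw [mul_comm, show f (Ideal.Quotient.mk I z) = z • y from rfl, ← hβ.bal]
    rfl
  obtain ⟨u1, l1⟩ := (h.mem_SM hB).1 hc
  have u2 : (fun g i => f (c' g i)) ∈ SU T n lam ψ Q ty B' := SR0_map f ((h.mem_SM hB).1 hc').1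
  have key : ∀ (v : Fin 2) (b : Bool) (a : Lam), 4 * QQ ψ v (!o v) ∣ a →
      (∃ x, ∀ g ∈ GK n ⊓ Dec (bq v b), a • c g = cob (act T ψ _) x g) ∨
      ∃ x, ∀ g ∈ GK n ⊓ Dec (bq v (!b)), a • (fun i => f (c' g i)) = cob (act T ψ B') x g := by
    rintro v b _ ⟨a, rfl⟩
    by_cases e : b = o v
    · obtain ⟨x, hx⟩ := h.nu_cob hB v (o v) (xsd_coc h hB u1 _) (h0 v)
      exact .inl ⟨a • x, fun g hg => by rw [xsd_cob_smul, ← hx g (e ▸ hg), mul_comm, mul_smul]⟩
    · obtain ⟨x, hx⟩ := h.nu_cob hB' v (o v) (xsd_coc h hB' u2 _) (by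
        rw [xsd_nu_map, h0', map_zero])
      have e' : (!b) = o v := by revert e; cases b <;> cases o v <;> simp
      exact .inr ⟨a • x, fun g hg => by rw [xsd_cob_smul, ← hx g (e' ▸ hg), mul_comm, mul_smul]⟩
  have d0 : 4 * QQ ψ 0 (!o 0) ∣ 2 ^ 8 * QQ ψ 0 (!o 0) * QQ ψ 1 (!o 1) :=
    ⟨2 ^ 6 * QQ ψ 1 (!o 1), by ring⟩
  have d1 : 4 * QQ ψ 1 (!o 1) ∣ 2 ^ 8 * QQ ψ 0 (!o 0) * QQ ψ 1 (!o 1) :=
    ⟨2 ^ 6 * QQ ψ 0 (!o 0), by ring⟩
  have k := sel_iso F h hB hB' le_rfl hβ u1 u2 hw (fun v hv e => by rw [ht v hv e]; rfl)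
    (a := 2 ^ 8 * QQ ψ 0 (!o 0) * QQ ψ 1 (!o 1)) fun i => by
      fin_cases i
      · exact key 0 true _ d0
      · exact key 0 false _ d0
      · exact key 1 true _ d1
      · exact key 1 false _ d1
      · exact .inl ⟨0, fun g hg => by rw [l1 g hg, smul_zero, cob, map_zero, sub_zero]⟩
  simp only [pair, hf, Pi.smul_apply, smul_mul_assoc] at k
  simp only [bb, smul_add, map_add, AddMonoidHom.add_apply, ← add_assoc]
  exact k

/-- The symmetric pairing as a homomorphism. -/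
def xsdP {E : Type} [AddCommGroup E] (β : B →+ B' →+ E) :
    (Fin 2 → B) × (Fin 2 → B) →+ (Fin 2 → B') × (Fin 2 → B') →+ E :=
  AddMonoidHom.mk' (fun z => AddMonoidHom.mk' (pair β z) fun x y => by
    simp only [pair, Prod.fst_add, Prod.snd_add, Pi.add_apply, map_add]
    abel) fun x y => AddMonoidHom.ext fun z => by
    simp only [pair, Prod.fst_add, Prod.snd_add, Pi.add_apply, map_add, AddMonoidHom.add_apply,
      AddMonoidHom.mk'_apply]
    abel

theorem xsdP_ker {m : ℕ} {β : B →+ B' →+ ZMod (2 ^ m)} (hβ : Perf β) : (xsdP β).ker = ⊥ := by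
  rw [eq_bot_iff]
  rintro ⟨x, y⟩ hz
  have k : ∀ z, pair β (x, y) z = 0 := fun z => DFunLike.congr_fun (AddMonoidHom.mem_ker.1 hz) z
  have k1 := hβ.left (x 0) fun u => by simpa [pair] using k (0, ![0, u])
  have k2 := hβ.left (x 1) fun u => by simpa [pair] using k (0, ![u, 0])
  have k3 := hβ.left (y 0) fun u => by simpa [pair] using k (![0, u], 0)
  have k4 := hβ.left (y 1) fun u => by simpa [pair] using k (![u, 0], 0)
  refine Prod.ext (funext fun i => ?_) (funext fun i => ?_) <;> fin_cases i <;> assumption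

theorem xsd_card {m : ℕ} {β : B →+ B' →+ ZMod (2 ^ m)} (hβ : Perf β) [Finite B] [Finite B'] :
    Nat.card B = Nat.card B' := by
  have h := pair_card β
  rwa [(AddMonoidHom.ker_eq_bot_iff _).2 ((injective_iff_map_eq_zero _).2 fun x hx =>
    hβ.left x fun y => DFunLike.congr_fun hx y),
    (AddMonoidHom.ker_eq_bot_iff β.flip).2 ((injective_iff_map_eq_zero _).2 fun y hy =>
    hβ.right y fun x => DFunLike.congr_fun hy x), AddSubgroup.card_bot, AddSubgroup.card_bot,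
    mul_one, mul_one] at h

/-- The localisation at a deep place. -/
noncomputable def xsdL (B : Type) [AddCommGroup B] (w : Plc) :
    Co B →+ (Fin 2 → B) × (Fin 2 → B) :=
  AddMonoidHom.mk' (fun z => (z.1 (fq w), z.1 (gn w))) fun _ _ => rfl

theorem xsd_ker (h : SOk T n k lam ψ Q) (hB : Kil k B) (hw : w ∈ Q) {t1 t2 : Plc → Ty}
    (h1 : t1 w = .rel) (h2 : t2 w = .str) (h3 : ∀ v ∈ Q, v ≠ w → t1 v = t2 v) :
    SelB T n lam ψ ⟨R, Q, t1⟩ B ⊓ (xsdL B w).ker = SelB T n lam ψ ⟨R, Q, t2⟩ B := by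
  ext z
  rw [AddSubgroup.mem_inf, h.mem_SelB hB, h.mem_SelB hB]
  simp only [and_assoc]
  refine and_congr_right fun _ => and_congr_right fun _ => and_congr_right fun _ =>
    and_congr_right fun _ => and_congr_right fun _ => ⟨fun k v hv => ?_, fun k => ⟨fun v hv => ?_, ?_⟩⟩
  · by_cases e : v = w
    · rw [e, h2]
      exact k.2
    · exact h3 v hv e ▸ k.1 v hv
  · by_cases e : v = w
    · rw [e, h1]
      trivial
    · exact h3 v hv e ▸ k v hv
  · have := k w hw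
    rwa [h2] at this

/-- The localisations of a structure and of its dual are exact annihilators. -/
theorem xsd_ann (F : CFT) (su : SUStmt) (ch : ChebStmt) (h : SOk T n k lam ψ Q) (hB : Kil k B)
    (hB' : Kil k B') [Finite B] [Finite B'] {m : ℕ} (hm : m ≤ k) {β : B →+ B' →+ ZMod (2 ^ m)}
    (hβ : Perf β) (hw : w ∈ Q) {ty' : Plc → Ty} (h0 : ty w = .rel) (h0' : ty' w = .rel)
    (ht : ∀ v ∈ Q, v ≠ w → ty' v = (ty v).dual) :
    (SelB T n lam ψ ⟨dualR R, Q, ty'⟩ B').map (xsdL B' w) =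
      ann (xsdP β) ((SelB T n lam ψ ⟨R, Q, ty⟩ B).map (xsdL B w)) := by
  refine eq_ann _ ?_ ?_
  · rintro _ ⟨z', hz', rfl⟩ _ ⟨z, hz, rfl⟩
    have k := sel_iso F h hB hB' hm hβ (xsd_SU h hB hz) (xsd_SU h hB' hz') hw ht (a := 1)
      fun i => by
        simp only [one_smul]
        by_cases e : i ∈ R
        · exact .inl ⟨_, ((h.mem_SelB hB).1 hz).2.2.1 i e⟩
        · exact .inr ⟨_, ((h.mem_SelB hB').1 hz').2.2.1 _ (mem_image_of_mem _ (mem_compl.2 e))⟩
    rwa [one_smul, one_smul] at k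
  rw [xsdP_ker hβ, inf_bot_eq, AddSubgroup.card_bot, mul_one]
  let t2 : Plc → Ty := Function.update ty w .str
  have e2 : t2 w = .str := Function.update_self ..
  have e3 : ∀ v, v ≠ w → t2 v = ty v := fun v hv => Function.update_of_ne hv ..
  obtain ⟨-, c1⟩ := sel_count (R := R) (ty := ty) F su ch h hB hB' hm hβ
  obtain ⟨-, c2⟩ := sel_count (R := R) (ty := t2) F su ch h hB hB' hm hβ
  have m1 := card_map_inf (xsdL B w) (SelB T n lam ψ ⟨R, Q, ty⟩ B)
  rw [xsd_ker h hB hw h0 e2 fun v _ hv => (e3 v hv).symm] at m1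
  have m2 := card_map_inf (xsdL B' w) (SelB T n lam ψ ⟨dualR R, Q, ty'⟩ B')
  rw [xsd_ker (t2 := fun v => (ty v).dual) h hB' hw h0' (by rw [h0]; rfl) ht] at m2
  have e4 : SelB T n lam ψ (Str.dual ⟨R, Q, t2⟩) B' = SelB T n lam ψ ⟨dualR R, Q, ty'⟩ B' := by
    ext z
    rw [Str.dual, h.mem_SelB hB', h.mem_SelB hB']
    refine and_congr_right fun _ => and_congr_right fun _ => and_congr_right fun _ =>
      and_congr_right fun _ => and_congr_right fun _ => forall₂_congr fun v hv => ?_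
    dsimp only
    by_cases e : v = w
    · rw [e, e2, h0']
      rfl
    · rw [e3 v e, ht v hv e]
  rw [← mul_prod_erase _ _ hw, h0] at c1
  rw [← mul_prod_erase _ _ hw, e2, e4, prod_congr rfl fun v hv => by
    rw [e3 v (ne_of_mem_erase hv)]] at c2
  have p0 : 0 < ∏ v ∈ Q.erase w, Nat.card ((ty v).cond B) := prod_pos fun _ _ => Nat.card_pos
  have := (sel_finite (R := dualR R) (ty := fun v => (ty v).dual) F su ch h hB').1
  have p1 : 0 < Nat.card (SelB T n lam ψ ⟨dualR R, Q, fun v => (ty v).dual⟩ B') := Nat.card_pos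
  have e5 : Nat.card (Ty.rel.cond B) = Nat.card ((Fin 2 → B') × (Fin 2 → B')) := by
    rw [Ty.cond, Nat.card_congr Submodule.topEquiv.toEquiv]
    simp only [Nat.card_prod, Nat.card_fun, xsd_card hβ]
  have e6 : Nat.card (Ty.str.cond B) = 1 := by
    rw [Ty.cond]
    exact Nat.card_unique
  rw [e5, m1, Str.dual] at c1
  rw [e6, m2] at c2
  refine (Nat.eq_of_mul_eq_mul_left (Nat.mul_pos p1 p0) ?_).le
  rw [mul_right_comm, c2] at c1
  linear_combination -c1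

/-- The index of a place above fifteen. -/
def xsdI (v : Fin 2) (b : Bool) : Fin 5 := if b then ![0, 2] v else ![1, 3] v

theorem xsdI_sp (v : Fin 2) (b : Bool) : sp lam (xsdI v b) = bq v b := by
  fin_cases v <;> cases b <;> rfl

theorem xsdI_mem : ∀ (o : Fin 2 → Bool) (v : Fin 2),
    xsdI v (o v) ∈ dualR {4, xsdI 0 (o 0), xsdI 1 (o 1)} := by
  decide

theorem xsd_nu (h : SOk T n k lam ψ Q) (hB : Kil k B) {z : Co B}
    (hz : z ∈ SelB T n lam ψ ⟨R, Q, ty⟩ B) {v : Fin 2} {b : Bool} (hv : xsdI v b ∈ R) (a : Lam)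
    (x : Fin 2 → B) : nu T v b (a • z.1 - rs (GK n) (cob (act T ψ B) x)) = 0 := by
  have t := (h.nok.tm_bq v b).τ_mem
  refine h.nu_of_cob hB v b (x := a • z.2 (sp lam (xsdI v b)) - x) ?_
  rw [Pi.sub_apply, rs_of_mem t.1, Pi.smul_apply, xsd_cob_sub, xsd_cob_smul,
    ((h.mem_SelB hB).1 hz).2.2.1 _ hv _ (by rwa [xsdI_sp])]

theorem SOk.coW (F : CFT) (su : SUStmt) (ch : ChebStmt) (h : SOk T n k lam ψ Q) (hw : w ∈ Q)
    (h0 : ty w = .rel) (ht : ∀ v ∈ Q, v ≠ w → ty v = .tr) (o : Fin 2 → Bool) :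
    CoW (2 ^ 8) (SS T n lam ψ k Q ty ⊓ OriK T n k o) (toK n (fq w)) (toK n (gn w)) := by
  intro j i h1 hj hi x y hxy
  have hI : aa k k ≤ aa j i := aa_le hj (.inl (by omega))
  have hB := kil_quot hI
  rw [h.wk_ori hI] at hxy ⊢
  obtain ⟨t, hβ⟩ := perf_aa j i
  have tm := xsd_tm h hw
  have k := xsd_ann (R := {4, xsdI 0 (o 0), xsdI 1 (o 1)}) F su ch h hB hB hj hβ hw h0 h0
    fun v hv e => by rw [ht v hv e]; rfl
  have m : (x, y) ∈ (SelB T n lam ψ ⟨dualR {4, xsdI 0 (o 0), xsdI 1 (o 1)}, Q, ty⟩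
      (Lam ⧸ aa j i)).map (xsdL _ w) := by
    rw [k]
    rintro _ ⟨z, hz, rfl⟩
    have e := hxy _ ⟨(1 : Lam) • z.1 - rs (GK n) (cob (act T ψ _) (z.2 lam)),
      ⟨(h.mem_SM hB).2 ⟨sub_mem (Submodule.smul_mem _ _ (xsd_SU h hB hz)) (h.cob_mem hB _),
        fun g hg => by
          rw [one_smul, Pi.sub_apply, rs_of_mem hg.1, sub_eq_zero]
          exact ((h.mem_SelB hB).1 hz).2.2.1 4 (by simp) g hg⟩,
        fun v => xsd_nu h hB hz (by fin_cases v <;> simp) _ _⟩, rfl⟩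
    simp only [xsd_res tm.φ_mem.1, xsd_res tm.τ_mem.1, Pi.sub_apply, one_smul, sub_zero,
      xsd_triv h hB hw tm.φ_mem, xsd_triv h hB hw tm.τ_mem] at e
    have e2 := congrArg t e
    simp only [bb, map_add, map_zero, ← add_assoc] at e2
    exact e2
  obtain ⟨z, hz, e⟩ := m
  obtain ⟨u, hu⟩ := h.norm hB (xsd_SU h hB hz)
  refine ⟨_, ⟨(4 : Lam) • ((64 : Lam) • z.1 - rs (GK n) (cob (act T ψ _) u)),
    ⟨Submodule.smul_mem _ _ hu, fun v => ?_⟩, rfl⟩, ?_⟩
  · rw [xsd_nu_smul, xsd_nu h hB hz (xsdI_mem o v), smul_zero]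
  have e1 : z.1 (fq w) = x := congrArg Prod.fst e
  have e2 : z.1 (gn w) = y := congrArg Prod.snd e
  simp only [xsd_res tm.φ_mem.1, xsd_res tm.τ_mem.1, Pi.sub_apply, Pi.smul_apply, sub_zero,
    xsd_triv h hB hw tm.φ_mem, xsd_triv h hB hw tm.τ_mem, e1, e2, smul_smul]
  norm_num

theorem xsd_lag (B : Type) [AddCommGroup B] [Module Lam B] :
    Nat.card (Ty.lag.cond B) = Nat.card B ^ 2 := by
  rw [sq, ← Nat.card_prod]
  refine Nat.card_eq_of_bijective (fun z => (z.1.1 0, z.1.2 0)) ⟨?_, fun z => ?_⟩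
  · rintro ⟨⟨x, y⟩, h1, h2⟩ ⟨⟨x', y'⟩, h3, h4⟩ e
    have e1 : x 0 = x' 0 := congrArg Prod.fst e
    have e2 : y 0 = y' 0 := congrArg Prod.snd e
    have k1 : x 1 = x 0 := h1
    have k2 : y 0 + y 1 = 0 := h2
    have k3 : x' 1 = x' 0 := h3
    have k4 : y' 0 + y' 1 = 0 := h4
    refine Subtype.ext (Prod.ext (funext fun i => ?_) (funext fun i => ?_)) <;> fin_cases i
    · exact e1
    · exact k1.trans (e1.trans k3.symm)
    · exact e2
    · exact add_left_cancel (a := y 0) (k2.trans (e2 ▸ k4.symm))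
  · exact ⟨⟨(![z.1, z.1], ![z.2, -z.2]), rfl, add_neg_cancel z.2⟩, rfl⟩

/-- The dual of a quotient embeds. -/
theorem xsd_emb {A A' : Type} [AddCommGroup A] [Module Lam A] [AddCommGroup A'] [Module Lam A']
    [Finite A] [Finite A'] {m : ℕ} {α : A →+ A' →+ ZMod (2 ^ m)} (hα : Perf α)
    {β : B →+ B' →+ ZMod (2 ^ m)} (hβ : Perf β) (π : A →ₗ[Lam] B) (hπ : Function.Surjective π) :
    ∃ f : B' →ₗ[Lam] A', Function.Injective f := by
  have := finite_hom (A := A) (n := 2 ^ m)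
  have hs : Function.Surjective α.flip := ((Nat.bijective_iff_injective_and_card α.flip).2
    ⟨(injective_iff_map_eq_zero _).2 fun y hy => hα.right y fun x => DFunLike.congr_fun hy x,
      (Nat.card_le_card_of_injective α.flip ((injective_iff_map_eq_zero _).2 fun y hy =>
        hα.right y fun x => DFunLike.congr_fun hy x)).antisymm
        (card_hom_le.trans (xsd_card hα).le)⟩).2
  choose f hf using fun y : B' => hs ((β.flip y).comp π.toAddMonoidHom)
  have e : ∀ x y, α x (f y) = β (π x) y := fun x y => DFunLike.congr_fun (hf y) x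
  refine ⟨⟨⟨f, fun y z => sub_eq_zero.1 (hα.right _ fun x => ?_)⟩, fun a y =>
    sub_eq_zero.1 (hα.right _ fun x => ?_)⟩, (injective_iff_map_eq_zero _).2 fun y hy =>
    hβ.right y fun x => ?_⟩
  · simp only [map_sub, map_add, e, sub_self]
  · simp only [map_sub, RingHom.id_apply, ← hα.bal, e, map_smul, hβ.bal, sub_self]
  · obtain ⟨x, rfl⟩ := hπ x
    rw [← e, show f y = 0 from hy, map_zero]

/-- The inequality that gives a square presentation. -/
theorem SOk.sq_lag (F : CFT) (su : SUStmt) (ch : ChebStmt) (h : SOk T n k lam ψ {w}) :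
    Nat.card (SM T n lam ψ {w} (fun _ => .lag)
        (Lam ⧸ (aa k k ⊔ Ideal.span {(2 * X) ^ (k - 1)}))) ≤
      Nat.card (SM T n lam ψ {w} (fun _ => .lag) (Ak k)) := by
  generalize hI : aa k k ⊔ Ideal.span {(2 * X) ^ (k - 1)} = I
  have hl : aa k k ≤ I := hI ▸ le_sup_left
  have hB := kil_quot hl
  have hA : Kil k (Ak k) := kil_quot le_rfl
  have := finite_quot hl
  obtain ⟨B', _, _, _, β, hB', hβ⟩ := exists_perf hB
  obtain ⟨t, hα⟩ := perf_aa k k
  obtain ⟨f, hf⟩ := xsd_emb hα hβ (Submodule.factor hl) (Submodule.factor_surjective hl)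
  obtain ⟨-, c1⟩ := sel_count (R := {4}) (ty := fun _ => .lag) F su ch h hB hB' le_rfl hβ
  obtain ⟨-, c2⟩ := sel_count (R := {4}) (ty := fun _ => .lag) F su ch h hA hA le_rfl hα
  rw [prod_singleton, xsd_lag, card_singleton, mul_one, h.card_SM ‹_›] at c1 c2
  have := (sel_finite (R := dualR {4}) (ty := fun _ => .lag) F su ch h hA).1
  have c3 := h.card_mono (R := dualR {4}) (ty := fun _ => .lag) hA (by decide) hf
  have p1 : 0 < Nat.card (Lam ⧸ I) ^ 2 := pow_pos Nat.card_pos _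
  have p2 : 0 < Nat.card (Ak k) ^ 2 := pow_pos Nat.card_pos _
  have d1 := Nat.eq_of_mul_eq_mul_right p1 c1
  have d2 := Nat.eq_of_mul_eq_mul_right p2 c2
  change Nat.card (SelB T n lam ψ (Str.dual ⟨{4}, {w}, fun _ => .lag⟩) B') * _ ≤
    Nat.card (SelB T n lam ψ (Str.dual ⟨{4}, {w}, fun _ => .lag⟩) (Ak k)) * _ at c3
  rw [← d1, ← d2, ← xsd_card hβ, mul_assoc, mul_assoc, mul_comm (Nat.card (Ak k) ^ 2)] at c3
  exact Nat.le_of_mul_le_mul_right c3 (Nat.mul_pos p1 p2)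

end Pool.Agent.Lib.MP_696deb_nt.B2
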