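import Pool.Agent.Lib.MP_696deb_nt.B2.LA
import Pool.Agent.Lib.MP_696deb_nt.B2.PAa

/-! The action on the Tate module with coefficients. -/

set_option autoImplicit false

open scoped NNReal Classical
open Finset Matrix NumberTheorySymbols PowerSeries

namespace Pool.Agent.Lib.MP_696deb_nt.B2

variable {T : Tate} {n k : ℕ} {lam w : Plc} {ψ : Gam → Lam} {Q : Finset Plc} {ty : Plc → Ty}
  {R : Finset (Fin 5)} {B B' : Type} [AddCommGroup B] [Module Lam B] [AddCommGroup B']
  [Module Lam B'] {c : Gam → Fin 2 → B} {g : Gam}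

theorem aa_le {j i : ℕ} (hj : j ≤ k) (hi : i ≤ k ∨ j = 0) : aa k k ≤ aa j i := by
  rcases hi with hi | rfl
  · exact PA.aa_anti hj hi
  · exact le_top.trans ((Ideal.eq_top_iff_one _).2 (by simpa using two_mem_aa 0 i)).ge

instance finite_aa (j i : ℕ) : Finite (Lam ⧸ aa j i) :=
  Nat.finite_of_card_ne_zero (by rw [PA.card_quot]; positivity)

theorem finite_quot {I : Ideal Lam} (h : aa k k ≤ I) : Finite (Lam ⧸ I) :=
  Finite.of_surjective _ (Ideal.Quotient.factor_surjective h)

/-- The action only depends on the character modulo the annihilator. -/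
theorem act_congr {ψ' : Gam → Lam} (h : ∀ y : B, (ψ g - ψ' g) • y = 0) :
    act T ψ B g = act T ψ' B g := AddMonoidHom.ext fun x => funext fun i => by
  rw [act_eq, act_eq, Pi.smul_apply, Pi.smul_apply, ← sub_eq_zero, ← sub_smul, h]

/-- For rings the action is the multiplication by a matrix. -/
theorem act_quot {I : Ideal Lam} (x : Fin 2 → Lam ⧸ I) :
    act T ψ (Lam ⧸ I) g x = (rep T ψ g).map (Ideal.Quotient.mk I) *ᵥ x := funext fun i => by
  rw [act_apply, mact_apply]
  simp only [mulVec, dotProduct, Fin.sum_univ_two, Matrix.map_apply, Algebra.smul_def,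
    Ideal.Quotient.algebraMap_eq]

theorem Chr.act (h : Chr n k lam ψ) (T : Tate) (hB : Kil k B) : Act (GK n) (act T ψ B) :=
  h.chr0.act T hB

theorem Chr.conj (h : Chr n k lam ψ) (hn : 0 < n) (hg : g ∈ GK n) :
    ψ (cc * g * cc) * ψ g - 1 ∈ aa k k := mul_comm (ψ g) _ ▸ h.chr0.mul_cj hn hg

end Pool.Agent.Lib.MP_696deb_nt.B2
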