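import Pool.Agent.Lib.MP_696deb_nt.B2.XLa
import Pool.Agent.Lib.MP_696deb_nt.B2.LB

/-! The places of a Selmer structure. -/

set_option autoImplicit false

open scoped NNReal Classical
open Finset Matrix NumberTheorySymbols PowerSeries

namespace Pool.Agent.Lib.MP_696deb_nt.B2

variable {T : Tate} {n k : ℕ} {lam w : Plc} {ψ : Gam → Lam} {Q : Finset Plc} {ty : Plc → Ty}
  {R : Finset (Fin 5)} {B B' : Type} [AddCommGroup B] [Module Lam B] [AddCommGroup B']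
  [Module Lam B'] {c : Gam → Fin 2 → B} {g : Gam}

theorem Nok.dec_bq (h : Nok n) (v : Fin 2) (b : Bool) : Dec (bq v b) ≤ GK n := h.split (bq_or v b)

theorem Nok.tm_bq (h : Nok n) (v : Fin 2) (b : Bool) :
    Tm (GK n) (bq v b) (bp v).p (ori b (fr (bp v))) (nsg v b) := by
  cases b <;> exact h.tm_bq' v _

theorem Nok.nsg_mem (h : Nok n) (v : Fin 2) (b : Bool) : nsg v b ∈ GK n :=
  (h.tm_bq v b).τ_mem.1

/-- The prime two is inert. -/
theorem Nok.fr_w2 (h : Nok n) : fr w2 ∉ GK n ∧ Ine w2 ≤ GK n := ⟨h.out_two w2_p, h.ine_two w2_p⟩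

theorem Adm.fr_notMem (h : Adm n w.p) : fr w ∉ GK n := h.out (fr_spec w)

theorem Adm.tm (h : Adm n w.p) (_hn : Nok n) {τ : Gam} (hτ : Gen w τ) :
    Tm (GK n) w (w.p ^ 2) (fq w) τ := h.tm0 hτ

theorem Adm.tm_gn (h : Adm n w.p) (_hn : Nok n) : Tm (GK n) w (w.p ^ 2) (fq w) (gn w) := h.tm'

theorem DpL.dvd (h : DpL n k T lam ψ w) : 2 ^ (k + 2) ∣ w.p + 1 ∧ 2 ^ (k + 2) ∣ a15 w.p :=
  deep_dvd T h.adm.nd30 (fr_spec w) h.rho

theorem SOk.mono (h : SOk T n k lam ψ Q) {Q' : Finset Plc} (hQ : Q' ⊆ Q) : SOk T n k lam ψ Q' :=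
  ⟨h.nok, h.adm, h.dvd, h.j5, h.chr, fun w hw => h.deep w (hQ hw),
    fun w hw v hv => h.inj w (hQ hw) v (hQ hv)⟩

/-- At a deep place the action is trivial. -/
theorem SOk.triv (h : SOk T n k lam ψ Q) (hB : Kil k B) (hw : w ∈ Q) (hg : g ∈ GK n ⊓ Dec w)
    (x : Fin 2 → B) : act T ψ B g x = x := (h.deep w hw).triv h.chr.chr0 hB hg x

/-- At two the character is trivial. -/
theorem SOk.psi_w2 (h : SOk T n k lam ψ Q) (hg : g ∈ GK n ⊓ Dec w2) : ψ g - 1 ∈ aa k k :=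
  h.chr.chr0.dec (w2_p ▸ h.adm.ne.1.symm) h.nok.fr_w2.2 (fr_spec w2) h.nok.fr_w2.1 hg

theorem SOk.tact (h : SOk T n k lam ψ Q) (hB : Kil k B) :
    TAct T (GK n ⊓ Dec w2) (act T ψ B) := tAct_of hB fun _ hg => h.psi_w2 hg

theorem SOk0.conj_deep (h : SOk0 T n k lam ψ Q) (hB : Kil k B) (hw : w ∈ Q)
    (hc : Coc (GK n) (act T ψ B) c) :
    c (cc * fq w * cc) = c (fq w) ∧ c (cc * gn w * cc) = -c (gn w) := by
  have d := h.deep w hw
  have t := d.adm.tm'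
  have ha := h.chr.act T hB
  have h1 := d.adm.cc_fr h.nok.pos
  have tr := fun g hg => d.triv h.chr hB (g := g) hg
  have key : ∀ g ∈ GK n ⊓ Dec w, c (cc * fr w * g * (cc * fr w)⁻¹) = c g := fun g hg => by
    rw [hc.2 _ (mul_mem h1 hg.1) _ (inv_mem h1), hc.2 _ h1 _ hg.1, d.act_fr hB,
      ha.mul _ h1 _ hg.1, tr g hg, hc.lo_inv ha h1, map_neg, ha.lo_inv' h1]
    abel
  refine ⟨?_, ?_⟩
  · rw [← key _ t.φ_mem, _root_.mul_inv_rev, cc_inv, fq]
    congr 1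
    group
  · have h2 : (fr w)⁻¹ * gn w * fr w ∈ Ine w := by
      simpa using conj_mem_Ine (inv_mem (fr_spec w).1) t.gen.1
    have e := key _ (t.ine_le h2)
    have e2 := (t.conj' hB.two' (ha.lo_mono inf_le_left) (hc.lo_mono inf_le_left) (fr_spec w) h2).1
    obtain ⟨j, hj⟩ := (pow_dvd_pow 2 (Nat.le_add_right k 2)).trans d.dvd1
    rw [hc.lo_pow_fix ha (t.ine h2) (tr _ (t.ine_le h2) _), show fr w * ((fr w)⁻¹ * gn w * fr w) *
      (fr w)⁻¹ = gn w by group] at e2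
    rw [e2, eq_neg_iff_add_eq_zero, ← e, _root_.mul_inv_rev, cc_inv, show cc * fr w *
      ((fr w)⁻¹ * gn w * fr w) * ((fr w)⁻¹ * cc) = cc * gn w * cc by group, ← succ_nsmul', hj,
      mul_nsmul, hB.two', nsmul_zero]

/-- Complex conjugation at a deep place. -/
theorem SOk.conj_deep (h : SOk T n k lam ψ Q) (hB : Kil k B) (hw : w ∈ Q)
    (hc : Coc (GK n) (act T ψ B) c) :
    c (cc * fq w * cc) = c (fq w) ∧ c (cc * gn w * cc) = -c (gn w) := h.sok0.conj_deep hB hw hc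

theorem SOk.sp_inj (h : SOk T n k lam ψ Q) : Function.Injective (sp lam) := B2.sp_inj h.nok h.adm

theorem SOk.sp_notMem (h : SOk T n k lam ψ Q) (i : Fin 5) : sp lam i ∉ insert w2 Q :=
  h.sok0.sp_notMem i

theorem SOk.w2_notMem (h : SOk T n k lam ψ Q) : w2 ∉ Q := h.sok0.w2_notMem

theorem SOk.apart (h : SOk T n k lam ψ Q) :
    Apart (GK n) (univ.image (sp lam) ∪ insert w2 Q) := h.sok0.apart

/-- The places that are away are those above the other primes. -/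
theorem SOk.away (h : SOk T n k lam ψ Q) : Away (GK n) (univ.image (sp lam) ∪ insert w2 Q) w ↔
    ¬ w.p ∣ 30 ∧ w.p ≠ lam.p ∧ ∀ v ∈ Q, w.p ≠ v.p := h.sok0.away_iff

theorem SOk.good (h : SOk T n k lam ψ Q) (hB : Kil k B)
    (hw : Away (GK n) (univ.image (sp lam) ∪ insert w2 Q) w) :
    w.p ≠ 2 ∧ ∀ σ ∈ GK n ⊓ Ine w, ∀ x, act T ψ B σ x = x := h.sok0.good hB hw

end Pool.Agent.Lib.MP_696deb_nt.B2
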