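import Pool.Agent.Lib.MP_696deb_nt.B2.XLd
import Pool.Agent.Lib.MP_696deb_nt.B2.TW4

set_option autoImplicit false

open scoped NNReal Classical
open Finset Matrix NumberTheorySymbols PowerSeries

namespace Pool.Agent.Lib.MP_696deb_nt.B2

variable {n k : ℕ} {S : HS n} {T : Tate} {lam w : Plc} {d d' a b : ℤ} {Q : Finset Plc} {z g : Gam}

theorem exists_Tw (hq : QuadStmt) (hc : Ctx d d' n a b) (S : HS n) (k : ℕ) :
    ∃ lam, S.Tw k lam a b := by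
  obtain ⟨w, φ, z, -, h⟩ := exists_tower hq hc S (s := 2 * k + 3) (by omega) 0
  exact ⟨w, φ, z, h⟩

theorem HS.Tw.adm (h : S.Tw k lam a b) : Adm n lam.p := h.choose_spec.choose_spec.adm

theorem HS.ψ_one (S : HS n) {c : ℕ} (h : Adm n c) : S.ψ c 1 = 1 := by
  simpa using S.mul c h 1 (one_mem _) 1 (one_mem _)

theorem HS.Psi_one (S : HS n) (e : ℤ) : S.Psi k lam e 1 = 1 := by simp [HS.Psi]

theorem HS.psi_of (h : S.ψ lam.p g = 1) (e : ℤ) : S.psi k lam e g = 1 := by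
  rw [HS.psi, h, S.Psi_one]

theorem xtw_X (m : ℕ) : (1 + X : Lam) ^ m - 1 ∈ Ideal.span {(X : Lam)} :=
  Ideal.mem_span_singleton.2 ((dvd_of_eq (by ring)).trans (sub_one_dvd_pow_sub_one (1 + X : Lam) m))

theorem xtw_pow (r : ℕ) : (1 + X : Lam) ^ 2 ^ r - 1 ∈ aa 1 1 ^ (r + 1) := by
  induction r with
  | zero => simpa using X_mem_aa 1 1
  | succ r ih =>
    rw [show (1 + X : Lam) ^ 2 ^ (r + 1) - 1 = ((1 + X) ^ 2 ^ r - 1) * ((1 + X) ^ 2 ^ r - 1) +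
      2 * ((1 + X) ^ 2 ^ r - 1) by rw [pow_succ, pow_mul]; ring, pow_succ' _ (r + 1)]
    exact add_mem (Ideal.mul_mem_mul (Ideal.pow_le_self r.succ_ne_zero ih) ih)
      (Ideal.mul_mem_mul (by simpa using two_mem_aa 1 1) ih)

theorem xtw_mod (k m : ℕ) : (1 + X : Lam) ^ (m % 2 ^ (2 * k + 3)) - (1 + X) ^ m ∈ aa k k := by
  have h := la_pow_le k (Ideal.pow_le_pow_right (by omega) (xtw_pow (2 * k + 3)))
  obtain ⟨c, hc⟩ := sub_dvd_pow_sub_pow ((1 + X : Lam) ^ 2 ^ (2 * k + 3)) 1 (m / 2 ^ (2 * k + 3))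
  have := Ideal.mul_mem_right (-c * (1 + X) ^ (m % 2 ^ (2 * k + 3))) _ h
  convert this using 1
  conv_lhs => enter [2]; rw [← Nat.div_add_mod m (2 ^ (2 * k + 3)), pow_add, pow_mul]
  linear_combination (-(1 + X : Lam) ^ (m % 2 ^ (2 * k + 3))) * hc

theorem HS.Psi_mul (S : HS n) (e : ℤ) (x y : S.C lam.p) :
    S.Psi k lam e (x * y) - S.Psi k lam e x * S.Psi k lam e y ∈ aa k k := by
  have := Ideal.mul_mem_left _ ((S.gen e (S.pr 1 lam.p (x * y)) : ℤ) : Lam) (xtw_mod k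
    ((S.ν lam.p (2 * k + 3) x).toAdd.val + (S.ν lam.p (2 * k + 3) y).toAdd.val))
  convert this using 1
  simp only [HS.Psi, map_mul, toAdd_mul, ZMod.val_add, Units.val_mul, Int.cast_mul, pow_add]
  ring

theorem xtw_ndvd (h : w.p ≠ lam.p) : ¬ w.p ∣ lam.p :=
  mt (Nat.prime_dvd_prime_iff_eq w.prime lam.prime).1 h

theorem HS.Tw.chr (h : S.Tw k lam a b) (e : ℤ) : Chr n k lam (S.psi k lam e) := by
  obtain ⟨φ, z, h⟩ := h
  have k0 : ∀ g, S.ψ lam.p g = 1 → S.psi k lam e g - 1 ∈ aa k k := fun g hg => by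
    rw [HS.psi_of hg, sub_self]
    exact zero_mem _
  refine ⟨(S.sm _ h.adm).comp _, k0 _ (S.ψ_one h.adm), fun g hg u hu => ?_, fun g => ?_,
    fun g hg => k0 _ (S.dih _ h.adm g hg),
    fun w hw σ hσ => k0 _ (S.unr _ w h.adm (xtw_ndvd hw) σ hσ), z, h.gen, ?_⟩
  · rw [HS.psi, S.mul _ h.adm g hg u hu]
    exact S.Psi_mul e _ _
  · have h1 : Ideal.span {(X : Lam)} ≤ aa 1 1 :=
      (Ideal.span_singleton_le_iff_mem _).2 (by simpa using X_mem_aa 1 1)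
    have h2 := h1 (xtw_X (S.ν lam.p (2 * k + 3) (S.ψ lam.p g)).toAdd.val)
    rw [HS.psi, HS.Psi]
    rcases Int.units_eq_one_or (S.gen e (S.pr 1 lam.p (S.ψ lam.p g))) with k | k <;> rw [k]
    · simpa using h2
    · convert sub_mem (neg_mem h2) (two_mem_aa 1 1) using 1
      push_cast
      ring
  · have h1 := h.ine h.gen.1
    have h2 : (S.ν lam.p (2 * k + 3) (S.ψ lam.p z)).toAdd = 1 := h.ex_z
    rw [HS.psi, HS.Psi, S.pr_ψ 1 _ h.adm (one_dvd _) z h1, S.unr 1 lam (adm_one n)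
      (fun k => lam.prime.ne_one (Nat.dvd_one.1 k)) z ⟨h1, h.gen.1⟩, h2,
      ZMod.val_one'' (Nat.one_lt_two_pow (by omega)).ne']
    simp

theorem HS.N_le : S.N T k lam ≤ GK n := fun _ h => h.1

theorem HS.N_conj (hz : z ∈ S.N T k lam) (g : Gam) : g * z * g⁻¹ ∈ S.N T k lam := by
  have h1 := (normal_GK n).conj_mem z hz.1 g
  refine ⟨h1, ?_, fun h => ?_⟩
  · rw [map_mul, map_mul, mred_mul, mred_mul, hz.2.1, mul_one, ← mred_mul, ← map_mul,
      mul_inv_cancel, map_one, mred_one]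
  by_cases hg : g ∈ GK n
  · have := S.mul _ h _ h1 g hg
    rwa [inv_mul_cancel_right, S.mul _ h g hg z hz.1, hz.2.2 h, mul_one, right_eq_mul] at this
  · have h2 := mul_mem_GK hg hg
    have := S.dih _ h (g * z) (mt (mul_mem_cancel_right hz.1).1 hg)
    rwa [show g * z * (g * z) = g * z * g⁻¹ * (g * g * z) by group,
      S.mul _ h _ h1 _ (mul_mem h2 hz.1), S.mul _ h _ h2 _ hz.1, S.dih _ h g hg, hz.2.2 h, mul_one,
      mul_one] at this

theorem HS.normal_N (S : HS n) (T : Tate) (k : ℕ) (lam : Plc) : (S.N T k lam).Normal :=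
  ⟨fun _ hz g => HS.N_conj hz g⟩

theorem HS.N_cc (hz : z ∈ S.N T k lam) : cc * z * cc ∈ S.N T k lam := by
  simpa only [cc_inv] using HS.N_conj hz cc

theorem HS.op_N (hl : Adm n lam.p) : Op (S.N T k lam) := by
  obtain ⟨U, u1, -, u3⟩ := ((T.sm (k + 2)).mono le_top).comp₂ (S.sm _ hl) Prod.mk
  refine Subgroup.isOpen_mono (H₁ := U ⊓ GK n) (fun g hg => ?_) (u1.inf (op_GK n))
  have := Prod.mk.inj (u3 1 (one_mem _) g hg.2 (by simpa using hg.1))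
  exact ⟨hg.2, by rw [← this.1, map_one, mred_one], fun _ => by rw [← this.2, S.ψ_one hl]⟩

theorem HS.psi_N (hl : Adm n lam.p) (hz : z ∈ S.N T k lam) (e : ℤ) : S.psi k lam e z = 1 :=
  HS.psi_of (hz.2.2 hl) e

/-- The elements of `N` act trivially. -/
theorem HS.act_N (hl : Adm n lam.p) (hz : z ∈ S.N T k lam) (e : ℤ) {B : Type} [AddCommGroup B]
    [Module Lam B] (hB : Kil k B) (x : Fin 2 → B) : act T (S.psi k lam e) B z x = x :=
  act_id hB (by rw [HS.psi_N hl hz, sub_self]; exact zero_mem _)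
    ((la_mred_le (Nat.le_add_right k 2) (hz.2.1.trans (mred_one _).symm)).trans (mred_one k)) x

theorem HS.Dp.deep (h : S.Dp T k lam w) (hl : Adm n lam.p) (e : ℤ) :
    DpL n k T lam (S.psi k lam e) w :=
  ⟨h.adm, h.ne, h.mem.2.1, by rw [HS.psi_N hl h.mem, sub_self]; exact zero_mem _⟩

theorem HS.Dp.fq_mem (h : S.Dp T k lam w) : fq w ∈ S.N T k lam :=
  deep_sq (S.normal_N T k lam) h.mem

theorem HS.Dp.ine_le (h : S.Dp T k lam w) : Ine w ≤ S.N T k lam := fun σ hσ =>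
  ⟨h.adm.ine hσ, by rw [T.unr w h.adm.nd30 σ hσ, mred_one],
    fun hl => S.unr _ w hl (xtw_ndvd h.ne) σ ⟨h.adm.ine hσ, hσ⟩⟩

theorem HS.Dp.gn_mem (h : S.Dp T k lam w) (_hn : Nok n) : gn w ∈ S.N T k lam :=
  h.ine_le (gn_spec h.adm.ne.1).1

theorem HS.Tw.sok (h : S.Tw k lam a b) (hn : Nok n) (hQ : S.DpS T k lam Q) (e : ℤ) :
    SOk T n k lam (S.psi k lam e) Q :=
  ⟨hn, h.adm, h.choose_spec.choose_spec.dvd, h.choose_spec.choose_spec.five, h.chr e,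
    fun w hw => (hQ.dp w hw).deep h.adm e, hQ.inj⟩

/-- All branches agree modulo two. -/
theorem HS.psi_two (e : ℤ) (g : Gam) :
    S.psi k lam e g - S.psi k lam 1 g ∈ Ideal.span {(2 : Lam)} := by
  rw [HS.psi, HS.psi, HS.Psi, HS.Psi, ← sub_mul, Ideal.mem_span_singleton]
  refine Dvd.dvd.mul_right ?_ _
  rcases Int.units_eq_one_or (S.gen e (S.pr 1 lam.p (S.ψ lam.p g))) with k | k <;>
    rcases Int.units_eq_one_or (S.gen 1 (S.pr 1 lam.p (S.ψ lam.p g))) with k' | k' <;> rw [k, k']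
  exacts [⟨0, by simp⟩, ⟨1, by norm_num⟩, ⟨-1, by norm_num⟩, ⟨0, by simp⟩]

/-- The value at zero is the genus character. -/
theorem HS.psi_X (hl : Adm n lam.p) {e : ℤ} (he : e ∣ n) (h4 : e % 4 = 1) (hg : g ∈ GK n) :
    S.psi k lam e g - ((chi e g : ℤ) : Lam) ∈ Ideal.span {(X : Lam)} := by
  rw [HS.psi, HS.Psi, S.pr_ψ 1 _ hl (one_dvd _) g hg, S.gen_ψ e he h4 g hg, ← mul_sub_one]
  exact Ideal.mul_mem_left _ _ (xtw_X _)

theorem HS.ψ_I30 (S : HS n) (hn : Nok n) {c : ℕ} (hc : Adm n c) (hz : z ∈ I30) : S.ψ c z = 1 := by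
  have h : IsHom (GK n) fun g => Additive.ofMul (S.ψ c g) := fun g hg u hu =>
    congrArg Additive.ofMul (S.mul c hc g hg u hu)
  have k : I30 ≤ kerOn (GK n) _ h := iSup_le fun w σ hσ =>
    have h1 := hn.I30_le (le_iSup (fun w : {w : Plc // w.p ∣ 30} => Ine w.1) w hσ)
    ⟨h1, S.unr c w hc (fun e => (hc.2 _ w.1.prime e).1 w.2) σ ⟨h1, hσ⟩⟩
  exact (k hz).2

/-- An element that acts as a scalar. -/
theorem HS.exists_scalar (hn : Nok n) (hl : Adm n lam.p) : ∃ z ∈ GK n,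
    mred (k + 2) (T.ρ z) = mred (k + 2) ((33 : ℤ_[2]) • 1) ∧ S.ψ lam.p z = 1 ∧
      ∀ g ∈ GK n, z * g * z⁻¹ * g⁻¹ ∈ S.N T k lam := by
  obtain ⟨z, h1, h2⟩ := T.big ((33 : ℤ_[2]) • 1) (by
    ext i j
    fin_cases i <;> fin_cases j <;> simp [mred, map_ofNat] <;> rfl) (k + 2)
  have h3 := hn.I30_le h1
  have h4 := S.ψ_I30 hn hl h1
  refine ⟨z, h3, h2, h4, fun g hg => ?_⟩
  have h5 := mul_mem (mul_mem (mul_mem h3 hg) (inv_mem h3)) (inv_mem hg)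
  refine ⟨h5, ?_, fun _ => ?_⟩
  · have e : mred (k + 2) (T.ρ (z * g)) = mred (k + 2) (T.ρ (g * z)) := by
      rw [map_mul, map_mul, mred_mul, mred_mul, h2, ← mred_mul, ← mred_mul, smul_one_mul,
        mul_smul_one]
    rw [mul_assoc, map_mul, mred_mul, e, ← mred_mul, ← map_mul, ← _root_.mul_inv_rev,
      mul_inv_cancel, map_one, mred_one]
  · have := S.mul _ hl _ h5 _ (mul_mem hg h3)
    rwa [show z * g * z⁻¹ * g⁻¹ * (g * z) = z * g by group, S.mul _ hl z h3 g hg,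
      S.mul _ hl g hg z h3, mul_comm (S.ψ _ z), right_eq_mul] at this

/-- The choice of a deep place. -/
theorem HS.exists_dp (ch : ChebStmt) (hn : Nok n) (hl : Adm n lam.p) {A : Type} [AddCommGroup A]
    {m : ℕ} (hA : ∀ x : A, 2 ^ m • x = 0) {c : Gam → A} (sm : Sm (GK n) c)
    (hom : IsHom (S.N T k lam) c) (hz : z ∈ S.N T k lam) (B : Finset ℕ) :
    ∃ (w : Plc) (u : ℕ), w.p ∉ B ∧ Odd u ∧ S.Dp T k lam w ∧
      c (fq w) = u • (c z + c (cc * z * cc)) := by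
  obtain ⟨U, u1, -, u3⟩ := id sm
  obtain ⟨B', hB⟩ := finite_ram u1
  obtain ⟨w, φ, s, u, h1, h2, h3, h4⟩ := exists_TwD ch T hn.pos (HS.op_N hl) (S.normal_N T k lam)
    HS.N_le (m := k + 2) (fun g hg => hg.2.1) hA (Set.finite_singleton c)
    (fun _ e => (show _ = c from e) ▸ ⟨sm.mono HS.N_le, hom⟩) hz ((insert lam.p (B ∪ B')).sup id)
  have h5 : w.p ∉ insert lam.p (B ∪ B') := fun e => h1.not_ge (le_sup (f := id) e)
  rw [mem_insert, mem_union, not_or, not_or] at h5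
  have h6 := h2.frob.inv_mul_mem (fr_spec w)
  have h7 : ∀ σ ∈ Ine w, c σ = 0 := fun σ hσ => by
    rw [← u3 1 (one_mem _) σ (HS.N_le (h2.ine hσ)) (by simpa using hB w h5.2.2 hσ), hom.one]
  have h8 := conj_mem_Ine (inv_mem h2.frob.1) h6
  refine ⟨w, u, h5.2.1, h3, ⟨⟨w.prime.squarefree, fun l hl e => ?_⟩, h5.1, ?_⟩, ?_⟩
  · obtain rfl := (Nat.prime_dvd_prime_iff_eq hl w.prime).1 e
    exact ⟨h2.nd30, h2.inert⟩
  · simpa [mul_assoc] using mul_mem h2.mem (h2.ine h6)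
  · rw [← h4 c rfl, show fq w = φ * φ * (φ⁻¹ * (φ⁻¹ * fr w) * φ⁻¹⁻¹ * (φ⁻¹ * fr w)) by
      rw [fq]; group, hom _ h2.sq _ (h2.ine (mul_mem h8 h6)), h7 _ (mul_mem h8 h6), add_zero]

theorem xtw_kill {m j : ℕ} (h : m ≤ j) (x : ZMod (2 ^ m)) : 2 ^ j • x = 0 := by
  rw [nsmul_eq_mul, (ZMod.natCast_eq_zero_iff _ _).2 (pow_dvd_pow 2 h), zero_mul]

theorem xtw_odd {m u : ℕ} (hu : Odd u) {x : ZMod (2 ^ m)} (h : x ≠ 0) : u • x ≠ 0 := fun e => by
  obtain ⟨q, hq⟩ := exists_inv_odd m hu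
  exact h (by rw [← one_mul x, ← hq, mul_assoc, ← nsmul_eq_mul, e, mul_zero])

/-- A group is not the union of two proper subgroups. -/
theorem HS.Often.exists (ch : ChebStmt) (hn : Nok n) (hl : Adm n lam.p) {P P' : Plc → Prop}
    (h : S.Often T k lam P) (h' : S.Often T k lam P') : ∃ w, S.Dp T k lam w ∧ P w ∧ P' w := by
  obtain ⟨m, c, c1, c2, ⟨z, hz, c3⟩, c4⟩ := h
  obtain ⟨m', c', c1', c2', ⟨z', hz', c3'⟩, c4'⟩ := h'
  obtain ⟨y, hy, y1, y2⟩ : ∃ y ∈ S.N T k lam, c y + c (cc * y * cc) ≠ 0 ∧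
      c' y + c' (cc * y * cc) ≠ 0 := by
    by_cases e : c' z + c' (cc * z * cc) = 0
    · by_cases e' : c z' + c (cc * z' * cc) = 0
      · refine ⟨z * z', mul_mem hz hz', ?_, ?_⟩
        · rwa [cc_mul, c2 _ hz _ hz', c2 _ (HS.N_cc hz) _ (HS.N_cc hz'), add_add_add_comm, e',
            add_zero]
        · rwa [cc_mul, c2' _ hz _ hz', c2' _ (HS.N_cc hz) _ (HS.N_cc hz'), add_add_add_comm, e,
            zero_add]
      · exact ⟨z', hz', e', c3'⟩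
    · exact ⟨z, hz, c3, e⟩
  obtain ⟨w, u, -, hu, hw, e⟩ := HS.exists_dp ch hn hl (A := ZMod (2 ^ m) × ZMod (2 ^ m'))
    (m := m + m') (fun x => Prod.ext (xtw_kill (Nat.le_add_right m m') _)
      (xtw_kill (Nat.le_add_left m' m) _))
    (c1.comp₂ c1' Prod.mk) (fun g hg u hu => Prod.ext (c2 g hg u hu) (c2' g hg u hu)) hy ∅
  exact ⟨w, hw, c4 w hw ((congrArg Prod.fst e).trans_ne (xtw_odd hu y1)),
    c4' w hw ((congrArg Prod.snd e).trans_ne (xtw_odd hu y2))⟩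

end Pool.Agent.Lib.MP_696deb_nt.B2
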